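import Pool.Agent.Lib.MP_788af2_nt.AG.A2Int

/-!
Anti-concentration with two colours over a ring without 2-torsion.
-/

set_option linter.unusedSectionVars false

namespace Pool.Agent.Lib.MP_788af2_nt.AG

open Pool.Agent.Lib.MP_788af2_nt.AS Matrix

open scoped Classical

private lemma cancel_A2AC {O : Type} [CommRing O] (h2 : ∀ x : O, 2 * x = 0 → x = 0) (K : ℕ) :
    ∀ x : O, 2 ^ K * x = 0 → x = 0 := by
  induction K with
  | zero => intro x h; simpa using h
  | succ K ih =>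
    intro x h
    refine h2 x (ih _ ?_)
    rw [← h]; ring

private lemma circ_A2AC (J : ℕ) (z : ℤ) :
    z • (((1 / 2 ^ J : ℚ)) : AddCircle (1 : ℚ)) = 0 ↔ (2 : ℤ) ^ J ∣ z := by
  rw [← AddCircle.coe_zsmul, AddCircle.coe_eq_zero_iff]
  have h : (2 : ℚ) ^ J ≠ 0 := by positivity
  constructor
  · rintro ⟨n, hn⟩
    refine ⟨n, ?_⟩
    rw [zsmul_eq_mul, zsmul_eq_mul] at hn
    field_simp at hn
    have : (z : ℚ) = ((2 ^ J * n : ℤ) : ℚ) := by push_cast; linarith
    exact_mod_cast this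
  · rintro ⟨n, rfl⟩
    refine ⟨n, ?_⟩
    rw [zsmul_eq_mul, zsmul_eq_mul]
    push_cast
    field_simp

/-- An integer valued function that is additive modulo `2 ^ J` and odd at `x`. -/
theorem exists_odd_fun {O : Type} [CommRing O] (h2 : ∀ x : O, 2 * x = 0 → x = 0) (J : ℕ) {x : O}
    (hx : ¬ (2 : O) ∣ x) : ∃ n : O → ℤ, Odd (n x) ∧ ∀ (κ : Type) (s : Finset κ) (a : κ → ℤ)
      (y : κ → O), (2 : O) ^ J ∣ ∑ i ∈ s, (a i : O) * y i → (2 : ℤ) ^ J ∣ ∑ i ∈ s, a i * n (y i) := by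
  cases J with
  | zero => exact ⟨fun _ => 1, odd_one, fun _ _ _ _ _ => by simp⟩
  | succ K =>
    have hne : Ideal.Quotient.mk (Ideal.span {(2 : O) ^ (K + 1)}) (2 ^ K * x) ≠ 0 := by
      intro h
      obtain ⟨y, hy⟩ := Ideal.mem_span_singleton.1 (Ideal.Quotient.eq_zero_iff_mem.1 h)
      refine hx ⟨y, sub_eq_zero.1 (cancel_A2AC h2 K _ ?_)⟩
      rw [mul_sub, hy]; ring
    obtain ⟨c, hc⟩ := CharacterModule.exists_character_apply_ne_zero_of_ne_zero hne
    let φ : O →+ AddCircle (1 : ℚ) := (c : _ →+ AddCircle (1 : ℚ)).comp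
      (Ideal.Quotient.mk (Ideal.span {(2 : O) ^ (K + 1)})).toAddMonoidHom
    have hφ : ∀ y, (2 : O) ^ (K + 1) ∣ y → φ y = 0 := fun y hy => by
      have : Ideal.Quotient.mk (Ideal.span {(2 : O) ^ (K + 1)}) y = 0 :=
        Ideal.Quotient.eq_zero_iff_mem.2 (Ideal.mem_span_singleton.2 hy)
      show c (Ideal.Quotient.mk _ y) = 0
      rw [this, map_zero]
    have hn : ∀ y, ∃ n : ℤ, φ y = n • (((1 / 2 ^ (K + 1) : ℚ)) : AddCircle (1 : ℚ)) := by
      intro y
      obtain ⟨q, hq⟩ := QuotientAddGroup.mk_surjective (φ y)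
      have h0 : (((2 : ℤ) ^ (K + 1) • q : ℚ) : AddCircle (1 : ℚ)) = 0 := by
        rw [AddCircle.coe_zsmul, hq, ← map_zsmul]
        exact hφ _ ⟨y, by rw [zsmul_eq_mul]; push_cast; rfl⟩
      obtain ⟨n, hn⟩ := (AddCircle.coe_eq_zero_iff _).1 h0
      refine ⟨n, ?_⟩
      rw [← hq, ← AddCircle.coe_zsmul]
      congr 1
      rw [zsmul_eq_mul, zsmul_eq_mul] at hn
      rw [zsmul_eq_mul]
      push_cast at hn
      field_simp
      linarith
    choose n hn using hn
    refine ⟨n, ?_, fun κ s a y h => ?_⟩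
    · rw [← Int.not_even_iff_odd]
      rintro ⟨k, hk⟩
      refine hc ?_
      show φ (2 ^ K * x) = 0
      have e : (2 : O) ^ K * x = (2 : ℤ) ^ K • x := by rw [zsmul_eq_mul]; push_cast; rfl
      rw [e, map_zsmul, hn, smul_smul, circ_A2AC]
      exact ⟨k, by rw [hk]; ring⟩
    · rw [← circ_A2AC, Finset.sum_smul, ← hφ _ h, map_sum]
      refine Finset.sum_congr rfl fun i _ => ?_
      rw [← zsmul_eq_mul, map_zsmul, hn, smul_smul]

private lemma pow_A2AC {α β M : Type} [DecidableEq α] [DecidableEq β] [AddCommMonoid M]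
    (C₀ : Finset α) (C₁ : Finset β) (g : Finset (α ⊕ β) → M) :
    ∑ S ∈ (C₀.disjSum C₁).powerset, g S =
      ∑ S₀ ∈ C₀.powerset, ∑ S₁ ∈ C₁.powerset, g (S₀.disjSum S₁) := by
  rw [← Finset.sum_product']
  refine Finset.sum_nbij' (fun S => (S.toLeft, S.toRight)) (fun p => p.1.disjSum p.2) ?_ ?_ ?_ ?_ ?_
  · intro S hS
    simpa [Finset.subset_disjSum] using hS
  · intro p hp
    simp only [Finset.mem_product, Finset.mem_powerset] at hp ⊢
    exact Finset.disjSum_mono hp.1 hp.2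
  · intro S _
    exact Finset.toLeft_disjSum_toRight
  · intro p _
    simp
  · intro S _
    rw [Finset.toLeft_disjSum_toRight]

private noncomputable def monA2AC (i j : ℕ) : Fin 2 →₀ ℕ := Finsupp.single 0 i + Finsupp.single 1 j

private lemma mon0_A2AC (i j : ℕ) : monA2AC i j 0 = i := by simp [monA2AC]

private lemma mon1_A2AC (i j : ℕ) : monA2AC i j 1 = j := by simp [monA2AC]

private lemma mon_eq_A2AC (m : Fin 2 →₀ ℕ) : monA2AC (m 0) (m 1) = m := by
  ext i
  fin_cases i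
  · exact mon0_A2AC _ _
  · exact mon1_A2AC _ _

private lemma deg_A2AC {A : Type} [CommRing A] {F : MvPolynomial (Fin 2) A} {d : ℕ}
    (hF : F.totalDegree ≤ d) {m : Fin 2 →₀ ℕ} (hm : m ∈ F.support) : m 0 ≤ d ∧ m 1 ≤ d := by
  have h := (MvPolynomial.le_totalDegree hm).trans hF
  rw [Finsupp.sum_fintype _ _ (fun _ => rfl), Fin.sum_univ_two] at h
  omega

private lemma eval_A2AC {A B : Type} [CommRing A] [CommRing B] (f : A →+* B) (a b : B)
    {F : MvPolynomial (Fin 2) A} {d : ℕ} (hF : F.totalDegree ≤ d) :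
    MvPolynomial.eval₂Hom f ![a, b] F = ∑ i ∈ Finset.range (d + 1), ∑ j ∈ Finset.range (d + 1),
      f (F.coeff (monA2AC i j)) * a ^ i * b ^ j := by
  rw [MvPolynomial.coe_eval₂Hom, MvPolynomial.eval₂_eq', ← Finset.sum_product']
  have hs : F.support ⊆ (Finset.range (d + 1) ×ˢ Finset.range (d + 1)).image
      fun p : ℕ × ℕ => monA2AC p.1 p.2 := fun m hm => by
    have := deg_A2AC hF hm
    refine Finset.mem_image.2 ⟨(m 0, m 1), ?_, mon_eq_A2AC m⟩
    simp only [Finset.mem_product, Finset.mem_range]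
    omega
  rw [Finset.sum_subset hs (fun m _ hm => by
    rw [MvPolynomial.notMem_support_iff.1 hm, map_zero, zero_mul]), Finset.sum_image]
  · refine Finset.sum_congr rfl fun p _ => ?_
    rw [Fin.prod_univ_two, mon0_A2AC, mon1_A2AC, mul_assoc]
    rfl
  · intro p _ q _ h
    have h0 := congrArg (fun m : Fin 2 →₀ ℕ => m 0) h
    have h1 := congrArg (fun m : Fin 2 →₀ ℕ => m 1) h
    simp only [mon0_A2AC, mon1_A2AC] at h0 h1
    exact Prod.ext h0 h1

theorem ac2 (d : ℕ) (η : ℝ) (hη : 0 < η) : ∃ R₀ R₁ J : ℕ, ∀ (O : Type) [CommRing O],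
    (∀ x : O, 2 * x = 0 → x = 0) →
    ∀ F : MvPolynomial (Fin 2) (LamO O (Fin R₀ ⊕ Fin R₁)), F.totalDegree ≤ d →
    (∃ m, ¬ (2 : O) ∣ evL ∅ (F.coeff m)) →
    ((Finset.univ.filter fun C : Finset (Fin R₀ ⊕ Fin R₁) => (2 : O) ^ J ∣ evC C F).card : ℝ) ≤
      η * 2 ^ (R₀ + R₁) := by
  obtain ⟨R₀, R₁, J, h⟩ := ac2_int d η hη
  refine ⟨R₀, R₁, J, fun O _ h2 F hF hm => ?_⟩
  obtain ⟨m, hm⟩ := hm
  have hc : ∀ m, ∃ c : Finset (Fin R₀ ⊕ Fin R₁) → O,
      ∀ C, evL C (F.coeff m) = ∑ S ∈ C.powerset, 2 ^ S.card * c S := fun m => (F.coeff m).2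
  choose c hc using hc
  have hms : m ∈ F.support := by
    by_contra h0
    rw [MvPolynomial.notMem_support_iff.1 h0, map_zero] at hm
    exact hm (dvd_zero _)
  have hx : ¬ (2 : O) ∣ c m ∅ := by simpa [hc] using hm
  obtain ⟨n, hn1, hn2⟩ := exists_odd_fun h2 J hx
  have h' := h (fun i j S₀ S₁ => 2 ^ (S₀.card + S₁.card) * n (c (monA2AC i j) (S₀.disjSum S₁)))
    (fun i j S₀ S₁ => Dvd.intro _ rfl)
    ⟨m 0, (deg_A2AC hF hms).1, m 1, (deg_A2AC hF hms).2, by
      simpa [mon_eq_A2AC] using hn1⟩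
  rw [pow_add, ← mul_assoc]
  refine le_trans ?_ h'
  rw [Finset.card_filter]
  push_cast
  have e := pow_A2AC (Finset.univ : Finset (Fin R₀)) (Finset.univ : Finset (Fin R₁))
    (fun C => if (2 : O) ^ J ∣ evC C F then (1 : ℝ) else 0)
  rw [Finset.univ_disjSum_univ, Finset.powerset_univ, Finset.powerset_univ,
    Finset.powerset_univ] at e
  rw [e]
  refine Finset.sum_le_sum fun C₀ _ => Finset.sum_le_sum fun C₁ _ => ?_
  by_cases hd : (2 : O) ^ J ∣ evC (C₀.disjSum C₁) F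
  · rw [if_pos hd, if_pos]
    have k := hn2 (ℕ × ℕ × Finset (Fin R₀) × Finset (Fin R₁))
      (Finset.range (d + 1) ×ˢ Finset.range (d + 1) ×ˢ C₀.powerset ×ˢ C₁.powerset)
      (fun p => 2 ^ (p.2.2.1.card + p.2.2.2.card) * (C₀.card : ℤ) ^ p.1 * (C₁.card : ℤ) ^ p.2.1)
      (fun p => c (monA2AC p.1 p.2.1) (p.2.2.1.disjSum p.2.2.2)) (by
        rw [evC, eval_A2AC _ _ _ hF, Finset.toLeft_disjSum, Finset.toRight_disjSum] at hd
        convert hd using 1
        simp only [Finset.sum_product, hc, pow_A2AC, Finset.sum_mul, Finset.card_disjSum]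
        refine Finset.sum_congr rfl fun i _ => Finset.sum_congr rfl fun j _ =>
          Finset.sum_congr rfl fun S₀ _ => Finset.sum_congr rfl fun S₁ _ => ?_
        push_cast
        ring)
    convert k using 1
    simp only [Finset.sum_product, Finset.sum_mul]
    refine Finset.sum_congr rfl fun i _ => Finset.sum_congr rfl fun j _ =>
      Finset.sum_congr rfl fun S₀ _ => Finset.sum_congr rfl fun S₁ _ => ?_
    ring
  · rw [if_neg hd]
    split_ifs <;> norm_num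

end Pool.Agent.Lib.MP_788af2_nt.AG
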