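import Pool.Agent.Lib.MP_788af2_nt.AG.Base

/-!
The ring of functions on the cube with an expansion `∑ 2 ^ |S| c S`, and polynomials over it.
-/

set_option linter.unusedSectionVars false

namespace Pool.Agent.Lib.MP_788af2_nt.AG

open Pool.Agent.Lib.MP_788af2_nt.AS Matrix

variable {O ι : Type} [CommRing O] [Fintype ι] [DecidableEq ι]

/-- Combinations of characters of the cube. -/
def IsL (f : Finset ι → O) : Prop :=
  ∃ c : Finset ι → O, ∀ C, f C = ∑ S ∈ C.powerset, 2 ^ S.card * c S

lemma isL_iff (f : Finset ι → O) :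
    IsL f ↔ ∃ c : Finset ι → O, ∀ C, f C = ∑ S, if S ⊆ C then 2 ^ S.card * c S else 0 := by
  have key : ∀ (c : Finset ι → O) (C : Finset ι),
      ∑ S ∈ C.powerset, 2 ^ S.card * c S = ∑ S, if S ⊆ C then 2 ^ S.card * c S else 0 := by
    intro c C
    rw [← Finset.sum_filter]
    refine Finset.sum_congr ?_ fun _ _ => rfl
    ext S
    simp
  simp only [IsL, key]

lemma isL_mul {f g : Finset ι → O} (hf : IsL f) (hg : IsL g) : IsL (f * g) := by
  rw [isL_iff] at hf hg ⊢
  obtain ⟨c, hc⟩ := hf
  obtain ⟨d, hd⟩ := hg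
  refine ⟨fun U => ∑ S, ∑ T, if S ∪ T = U then 2 ^ (S ∩ T).card * c S * d T else 0, fun C => ?_⟩
  have e1 : ∀ U : Finset ι, (if U ⊆ C then 2 ^ U.card *
      (∑ S, ∑ T, if S ∪ T = U then (2 : O) ^ (S ∩ T).card * c S * d T else 0) else 0) =
      ∑ S, ∑ T, if S ∪ T = U then
        (if S ⊆ C then 2 ^ S.card * c S else 0) * (if T ⊆ C then 2 ^ T.card * d T else 0)
        else 0 := by
    intro U
    by_cases hU : U ⊆ C
    · rw [if_pos hU, Finset.mul_sum]
      refine Finset.sum_congr rfl fun S _ => ?_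
      rw [Finset.mul_sum]
      refine Finset.sum_congr rfl fun T _ => ?_
      by_cases h : S ∪ T = U
      · subst h
        have h1 : S ⊆ C := Finset.subset_union_left.trans hU
        have h2 : T ⊆ C := Finset.subset_union_right.trans hU
        rw [if_pos rfl, if_pos rfl, if_pos h1, if_pos h2]
        have h3 : (2 : O) ^ (S ∪ T).card * 2 ^ (S ∩ T).card = 2 ^ S.card * 2 ^ T.card := by
          rw [← pow_add, ← pow_add, Finset.card_union_add_card_inter]
        linear_combination (c S * d T) * h3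
      · rw [if_neg h, if_neg h, mul_zero]
    · rw [if_neg hU]
      symm
      refine Finset.sum_eq_zero fun S _ => Finset.sum_eq_zero fun T _ => ?_
      by_cases h : S ∪ T = U
      · subst h
        rw [if_pos rfl]
        by_cases h1 : S ⊆ C
        · have h2 : ¬ T ⊆ C := fun h2 => hU (Finset.union_subset h1 h2)
          rw [if_neg h2, mul_zero]
        · rw [if_neg h1, zero_mul]
      · rw [if_neg h]
  simp only [e1]
  rw [Pi.mul_apply, hc, hd, Finset.sum_mul_sum, Finset.sum_comm (s := Finset.univ)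
    (f := fun U S => ∑ T, if S ∪ T = U then
        (if S ⊆ C then (2 : O) ^ S.card * c S else 0) * (if T ⊆ C then 2 ^ T.card * d T else 0)
        else 0)]
  refine Finset.sum_congr rfl fun S _ => ?_
  rw [Finset.sum_comm]
  refine Finset.sum_congr rfl fun T _ => ?_
  rw [Finset.sum_ite_eq]
  simp

lemma isL_const (a : O) : IsL (fun _ : Finset ι => a) := by
  refine ⟨fun S => if S = ∅ then a else 0, fun C => ?_⟩
  simp only [mul_ite, mul_zero]
  rw [Finset.sum_ite_eq']
  simp

variable (O ι) in
/-- The subring of the functions `IsL`. -/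
def LamO : Subring (Finset ι → O) where
  carrier := {f | IsL f}
  mul_mem' := isL_mul
  one_mem' := isL_const 1
  zero_mem' := isL_const 0
  add_mem' := by
    rintro f g ⟨c, hc⟩ ⟨d, hd⟩
    refine ⟨fun S => c S + d S, fun C => ?_⟩
    simp only [Pi.add_apply, hc, hd, mul_add, Finset.sum_add_distrib]
  neg_mem' := by
    rintro f ⟨c, hc⟩
    refine ⟨fun S => -c S, fun C => ?_⟩
    simp only [Pi.neg_apply, hc, mul_neg, Finset.sum_neg_distrib]

/-- The value at a point of the cube. -/
def evL (C : Finset ι) : LamO O ι →+* O := (Pi.evalRingHom (fun _ => O) C).comp (LamO O ι).subtype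

lemma evL_apply (C : Finset ι) (f : LamO O ι) : evL C f = f.1 C := rfl

/-- The value of a polynomial in the two colour counts at a point of the cube. -/
noncomputable def evC {R₀ R₁ : ℕ} (C : Finset (Fin R₀ ⊕ Fin R₁)) :
    MvPolynomial (Fin 2) (LamO O (Fin R₀ ⊕ Fin R₁)) →+* O :=
  MvPolynomial.eval₂Hom (evL C) ![(C.toLeft.card : O), (C.toRight.card : O)]

/-- The rows of `M` on the first block and the rows of `B` on the second. -/
def Etop {J₁ J₂ A : Type} (M B : Matrix (J₁ ⊕ J₂) (J₁ ⊕ J₂) A) : Matrix (J₁ ⊕ J₂) (J₁ ⊕ J₂) A :=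
  Matrix.of fun i j => Sum.elim (fun _ => M i j) (fun _ => B i j) i

end Pool.Agent.Lib.MP_788af2_nt.AG
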