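import Pool.Agent.Lib.MP_788af2_nt.AS.DetPoly
import Pool.Agent.Lib.MP_788af2_nt.AG.A2Def

/-!
The quadratic form on a column of the adjugate, divided by the right power of two.
-/

set_option linter.unusedSectionVars false

namespace Pool.Agent.Lib.MP_788af2_nt.AG

open Pool.Agent.Lib.MP_788af2_nt.AS Matrix

variable {J₁ J₂ A A' : Type} [Fintype J₁] [DecidableEq J₁] [Fintype J₂] [DecidableEq J₂]
  [CommRing A] [CommRing A']

/-- The form of an integer matrix. -/
def bf {ι κ : Type} [Fintype ι] [Fintype κ] (Q : ι → κ → ℤ) (x : ι → A) (y : κ → A) : A :=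
  ∑ i, ∑ j, (Q i j : A) * (x i * y j)

lemma map_bf {ι κ : Type} [Fintype ι] [Fintype κ] (f : A →+* A') (Q : ι → κ → ℤ) (x : ι → A)
    (y : κ → A) : f (bf Q x y) = bf Q (fun i => f (x i)) fun j => f (y j) := by
  simp only [bf, map_sum, map_mul, map_intCast]

lemma bf_skew {ι : Type} [Fintype ι] {Q Q' U : ι → ι → ℤ} {a : ℤ}
    (h : ∀ i j, Q i j = a * Q' i j + U i j - U j i) (x : ι → A) :
    bf Q x x = a * bf Q' x x := by
  have e : ∑ i, ∑ j, (U j i : A) * (x i * x j) = ∑ i, ∑ j, (U i j : A) * (x i * x j) := by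
    rw [Finset.sum_comm]
    exact Finset.sum_congr rfl fun i _ => Finset.sum_congr rfl fun j _ => by ring
  simp only [bf, h, Int.cast_sub, Int.cast_add, Int.cast_mul, sub_mul, add_mul,
    Finset.sum_sub_distrib, Finset.sum_add_distrib, e, Finset.mul_sum, mul_assoc]
  ring

lemma halve {ι : Type} [Fintype ι] {Q : ι → ι → ℤ} (h1 : ∀ i, Even (Q i i))
    (h2 : ∀ i j, Even (Q i j + Q j i)) :
    ∃ Q' U : ι → ι → ℤ, ∀ i j, Q i j = 2 * Q' i j + U i j - U j i := by
  let f := Fintype.equivFin ι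
  let U : ι → ι → ℤ := fun i j => if f i < f j then -Q j i else 0
  have key : ∀ i j, ∃ c : ℤ, Q i j = 2 * c + U i j - U j i := by
    intro i j
    rcases lt_trichotomy (f i) (f j) with h | h | h
    · obtain ⟨c, hc⟩ := h2 i j
      exact ⟨c, by simp only [U, if_pos h, if_neg h.not_gt]; linarith⟩
    · obtain rfl := f.injective h
      obtain ⟨c, hc⟩ := h1 i
      exact ⟨c, by linarith⟩
    · exact ⟨0, by simp only [U, if_pos h, if_neg h.not_gt]; ring⟩
  choose c hc using key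
  exact ⟨c, U, hc⟩

lemma bf_single {ι : Type} [Fintype ι] [DecidableEq ι] (Q : ι → ι → ℤ) (o : ι) (a b : A)
    (τ : ι → A) : bf Q (fun i => (if i = o then a else 0) + b * τ i)
      (fun i => (if i = o then a else 0) + b * τ i) =
      a ^ 2 * Q o o + a * b * ∑ i, ((Q o i + Q i o : ℤ) : A) * τ i + b ^ 2 * bf Q τ τ := by
  simp only [bf, mul_add, add_mul, Finset.sum_add_distrib, mul_ite, ite_mul, mul_zero, zero_mul,
    Finset.sum_ite_eq', Finset.mem_univ, if_true, Int.cast_add, Finset.mul_sum]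
  rw [Finset.sum_comm (f := fun i j => if i = o then (Q i j : A) * (a * (b * τ j)) else 0)]
  simp only [Finset.sum_ite_eq', Finset.mem_univ, if_true]
  have e1 : ∑ i, (Q o i : A) * (a * (b * τ i)) = ∑ i, a * b * ((Q o i : A) * τ i) :=
    Finset.sum_congr rfl fun i _ => by ring
  have e2 : ∑ i, (Q i o : A) * (b * τ i * a) = ∑ i, a * b * ((Q i o : A) * τ i) :=
    Finset.sum_congr rfl fun i _ => by ring
  have e3 : ∑ i, ∑ j, (Q i j : A) * (b * τ i * (b * τ j)) =
      ∑ i, ∑ j, b ^ 2 * ((Q i j : A) * (τ i * τ j)) :=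
    Finset.sum_congr rfl fun i _ => Finset.sum_congr rfl fun j _ => by ring
  rw [e1, e2, e3]
  ring

variable (Zb : Matrix (J₁ ⊕ J₂) (J₁ ⊕ J₂) ℤ) (X : Matrix (J₁ ⊕ J₂) (J₁ ⊕ J₂) A) (o : J₁)

/-- The full matrix. -/
def Nf : Matrix (J₁ ⊕ J₂) (J₁ ⊕ J₂) A := Matrix.of fun i j => (Zb i j : A) + 2 * X i j

/-- The matrix with the first rows halved. -/
def Nh : Matrix (J₁ ⊕ J₂) (J₁ ⊕ J₂) A := Etop X (Nf Zb X)

/-- The second diagonal block. -/
def A2Zm : Matrix J₂ J₂ A := Matrix.of fun i j => Nf Zb X (Sum.inr i) (Sum.inr j)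

/-- The first part of the kernel vector. -/
def kap (i : J₁) : A := (Nh Zb X).adjugate (Sum.inl i) (Sum.inl o)

/-- Half of the second part of the kernel vector. -/
def a2psi (j : J₂) : A :=
  -∑ j', (A2Zm Zb X).adjugate j j' * ∑ i, X (Sum.inr j') (Sum.inl i) * kap Zb X o i

/-- The divided quadratic form. -/
def Fq (Gm : J₁ ⊕ J₂ → J₁ ⊕ J₂ → ℤ) (Q : J₁ → J₁ → ℤ) (c : ℤ) : A :=
  (A2Zm Zb X).det ^ 2 * bf Q (kap Zb X o) (kap Zb X o) + c * ((A2Zm Zb X).det *
    bf (fun i j => Gm (Sum.inl i) (Sum.inr j)) (kap Zb X o) (a2psi Zb X o) +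
    bf (fun i j => Gm (Sum.inr i) (Sum.inr j)) (a2psi Zb X o) (a2psi Zb X o))

lemma map_Nh (f : A →+* A') : f.mapMatrix (Nh Zb X) = Nh Zb (X.map f) := by
  ext (i | i) j
  · rfl
  · simp [Nh, Nf, Etop, map_ofNat]

lemma map_Zm (f : A →+* A') : f.mapMatrix (A2Zm Zb X) = A2Zm Zb (X.map f) := by
  ext i j
  simp [A2Zm, Nf, map_ofNat]

lemma map_adj {ι : Type} [Fintype ι] [DecidableEq ι] (f : A →+* A') (M : Matrix ι ι A) (i j : ι) :
    f (M.adjugate i j) = (f.mapMatrix M).adjugate i j := by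
  rw [← RingHom.map_adjugate]
  rfl

lemma map_kap (f : A →+* A') (i : J₁) : f (kap Zb X o i) = kap Zb (X.map f) o i := by
  rw [kap, map_adj, map_Nh, kap]

lemma map_psi (f : A →+* A') (j : J₂) : f (a2psi Zb X o j) = a2psi Zb (X.map f) o j := by
  simp only [a2psi, map_neg, map_sum, map_mul, map_adj, map_Zm, map_kap, Matrix.map_apply]

lemma map_Fq (f : A →+* A') (Gm : J₁ ⊕ J₂ → J₁ ⊕ J₂ → ℤ) (Q : J₁ → J₁ → ℤ) (c : ℤ) :
    f (Fq Zb X o Gm Q c) = Fq Zb (X.map f) o Gm Q c := by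
  simp only [Fq, map_add, map_mul, map_pow, map_intCast, map_bf, RingHom.map_det, map_Zm, map_kap,
    map_psi]

section point

lemma adj_rank_one {ι : Type} [Fintype ι] [DecidableEq ι] (N : Matrix ι ι A) (h : N.det = 0)
    (a i j : ι) : N.adjugate a a * N.adjugate i j = N.adjugate i a * N.adjugate a j := by
  have h1 : ∀ k, (N.updateRow a (Pi.single a 1) * N.adjugate) k j =
      if k = a then N.adjugate a j else 0 := by
    intro k
    split_ifs with hk
    · subst hk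
      simp [Matrix.mul_apply, Pi.single_apply]
    · have := congrFun (congrFun (mul_adjugate N) k) j
      rw [h, zero_smul] at this
      simpa only [Matrix.mul_apply, updateRow_ne hk, Matrix.zero_apply] using this
  have h2 := congrFun (congrFun (Matrix.mul_assoc (N.updateRow a (Pi.single a 1)).adjugate
    (N.updateRow a (Pi.single a 1)) N.adjugate) i) j
  rw [adjugate_mul, Matrix.smul_mul, Matrix.one_mul, Matrix.smul_apply, smul_eq_mul,
    ← adjugate_apply, Matrix.mul_apply] at h2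
  simp only [h1, mul_ite, mul_zero, Finset.sum_ite_eq', Finset.mem_univ, if_true] at h2
  rw [h2, adjugate_apply, updateRow_idem, ← adjugate_apply]

variable {Zb}

lemma det_Nf (hz : ∀ i j, Zb (Sum.inl i) j = 0) :
    (Nf Zb X).det = 2 ^ Fintype.card J₁ * (Nh Zb X).det := by
  have e2 : (2 : A) ^ Fintype.card J₁ =
      (Matrix.diagonal (Sum.elim (fun _ => 2) fun _ => 1 : J₁ ⊕ J₂ → A)).det := by simp
  rw [e2, ← det_mul]
  congr 1
  ext (i | i) j
  · simp [Nf, Nh, Etop, hz]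
  · simp [Nh, Etop]

lemma adj_Nf (hz : ∀ i j, Zb (Sum.inl i) j = 0) (k : J₁ ⊕ J₂) :
    (Nf Zb X).adjugate k (Sum.inl o) =
      2 ^ (Fintype.card J₁ - 1) * (Nh Zb X).adjugate k (Sum.inl o) := by
  have e2 : (2 : A) ^ (Fintype.card J₁ - 1) = (Matrix.diagonal
      (Sum.elim (fun i => if i = o then 1 else 2) fun _ => 1 : J₁ ⊕ J₂ → A)).det := by
    simp [Finset.prod_ite, Finset.filter_ne', Finset.card_erase_of_mem]
  rw [e2, adjugate_apply, adjugate_apply, ← det_mul]
  congr 1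
  ext (i | i) j
  · by_cases h : i = o
    · subst h
      simp
    · simp [Nf, Nh, Etop, hz, h, updateRow_ne]
  · simp [Nh, Etop, updateRow_ne]

lemma z_kap (hz : ∀ i j, Zb j (Sum.inl i) = 0) (j : J₂) :
    (A2Zm Zb X).det * (Nh Zb X).adjugate (Sum.inr j) (Sum.inl o) = 2 * a2psi Zb X o j := by
  have h1 : ∀ j', ∑ j'', A2Zm Zb X j' j'' * (Nh Zb X).adjugate (Sum.inr j'') (Sum.inl o) =
      -2 * ∑ i, X (Sum.inr j') (Sum.inl i) * kap Zb X o i := by
    intro j'
    have := congrFun (congrFun (mul_adjugate (Nh Zb X)) (Sum.inr j')) (Sum.inl o)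
    rw [Matrix.mul_apply, Fintype.sum_sum_type, Matrix.smul_apply, one_apply_ne (by simp),
      smul_zero] at this
    have e : ∑ i, Nh Zb X (Sum.inr j') (Sum.inl i) * (Nh Zb X).adjugate (Sum.inl i) (Sum.inl o) =
        2 * ∑ i, X (Sum.inr j') (Sum.inl i) * kap Zb X o i := by
      rw [Finset.mul_sum]
      refine Finset.sum_congr rfl fun i _ => ?_
      simp [Nh, Nf, Etop, hz, kap, mul_assoc]
    rw [e] at this
    change _ + ∑ j'', A2Zm Zb X j' j'' * _ = 0 at this
    linear_combination this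
  have h2 := congrFun (mulVec_mulVec (fun j'' => (Nh Zb X).adjugate (Sum.inr j'') (Sum.inl o))
    (A2Zm Zb X).adjugate (A2Zm Zb X)) j
  rw [adjugate_mul, smul_mulVec, one_mulVec, Pi.smul_apply, smul_eq_mul] at h2
  rw [← h2, a2psi]
  simp only [mulVec, dotProduct, h1, Finset.mul_sum, mul_neg, ← Finset.sum_neg_distrib]
  refine Finset.sum_congr rfl fun j' _ => Finset.sum_congr rfl fun i _ => by ring

theorem point_odd (h2 : ∀ x : A, 2 * x = 0 → x = 0) (hz : ∀ i j, Zb (Sum.inl i) j = 0)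
    (hz' : ∀ i j, Zb j (Sum.inl i) = 0) (hsk : (Nf Zb X)ᵀ = -Nf Zb X)
    (hodd : ¬ Even (Fintype.card (J₁ ⊕ J₂))) {Gm : J₁ ⊕ J₂ → J₁ ⊕ J₂ → ℤ}
    (hG : ∀ i j, Gm i j = Gm j i) {Q U : J₁ → J₁ → ℤ} {a c : ℤ}
    (hQ : ∀ i j, Gm (Sum.inl i) (Sum.inl j) = a * Q i j + U i j - U j i) (hc : a * c = 4) :
    (Nf Zb X).adjugate (Sum.inl o) (Sum.inl o) * (A2Zm Zb X).det ^ 2 *
      ∑ i, ∑ j, (Gm i j : A) * (Nf Zb X).adjugate i j =
      (2 ^ (Fintype.card J₁ - 1)) ^ 2 * a * Fq Zb X o Gm Q c := by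
  have ho := Nat.not_even_iff_odd.1 hodd
  have hdet : (Nf Zb X).det = 0 := by
    have := det_transpose (Nf Zb X)
    rw [hsk, det_neg, ho.neg_one_pow] at this
    exact h2 _ (by linear_combination -this)
  have hsym : ∀ i j, (Nf Zb X).adjugate i j = (Nf Zb X).adjugate j i := by
    intro i j
    have := adjugate_transpose (Nf Zb X)
    rw [hsk, ← neg_one_smul A, adjugate_smul, (Nat.Odd.sub_odd ho odd_one).neg_one_pow,
      one_smul] at this
    exact (congrFun (congrFun this j) i)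
  have e1 : (Nf Zb X).adjugate (Sum.inl o) (Sum.inl o) *
      ∑ i, ∑ j, (Gm i j : A) * (Nf Zb X).adjugate i j = (2 ^ (Fintype.card J₁ - 1)) ^ 2 *
        bf Gm (fun k => (Nh Zb X).adjugate k (Sum.inl o))
          fun k => (Nh Zb X).adjugate k (Sum.inl o) := by
    simp only [bf, Finset.mul_sum]
    refine Finset.sum_congr rfl fun i _ => Finset.sum_congr rfl fun j _ => ?_
    rw [mul_left_comm, adj_rank_one _ hdet, hsym (Sum.inl o) j, adj_Nf X o hz, adj_Nf X o hz]
    ring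
  have hc' : (a : A) * c = 4 := by exact_mod_cast congrArg (Int.cast : ℤ → A) hc
  have e2 := bf_skew (A := A) hQ (kap Zb X o)
  have e3 : (A2Zm Zb X).det * ∑ i, ∑ j, (Gm (Sum.inl i) (Sum.inr j) : A) *
      (kap Zb X o i * (Nh Zb X).adjugate (Sum.inr j) (Sum.inl o)) =
      2 * bf (fun i j => Gm (Sum.inl i) (Sum.inr j)) (kap Zb X o) (a2psi Zb X o) := by
    simp only [bf, Finset.mul_sum]
    refine Finset.sum_congr rfl fun i _ => Finset.sum_congr rfl fun j _ => ?_
    linear_combination (Gm (Sum.inl i) (Sum.inr j) : A) * kap Zb X o i * z_kap X o hz' j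
  have e4 : ∑ j, ∑ i, (Gm (Sum.inr j) (Sum.inl i) : A) *
      ((Nh Zb X).adjugate (Sum.inr j) (Sum.inl o) * kap Zb X o i) =
      ∑ i, ∑ j, (Gm (Sum.inl i) (Sum.inr j) : A) *
      (kap Zb X o i * (Nh Zb X).adjugate (Sum.inr j) (Sum.inl o)) := by
    rw [Finset.sum_comm]
    refine Finset.sum_congr rfl fun i _ => Finset.sum_congr rfl fun j _ => ?_
    rw [hG, mul_comm (kap Zb X o i)]
  have e5 : (A2Zm Zb X).det ^ 2 * ∑ i, ∑ j, (Gm (Sum.inr i) (Sum.inr j) : A) *
      ((Nh Zb X).adjugate (Sum.inr i) (Sum.inl o) * (Nh Zb X).adjugate (Sum.inr j) (Sum.inl o)) =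
      4 * bf (fun i j => Gm (Sum.inr i) (Sum.inr j)) (a2psi Zb X o) (a2psi Zb X o) := by
    simp only [bf, Finset.mul_sum]
    refine Finset.sum_congr rfl fun i _ => Finset.sum_congr rfl fun j _ => ?_
    have k1 := z_kap X o hz' i
    have k2 := z_kap X o hz' j
    linear_combination (Gm (Sum.inr i) (Sum.inr j) : A) * ((A2Zm Zb X).det *
      (Nh Zb X).adjugate (Sum.inr j) (Sum.inl o) * k1 + 2 * a2psi Zb X o i * k2)
  have e6 : bf Gm (fun k => (Nh Zb X).adjugate k (Sum.inl o))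
      (fun k => (Nh Zb X).adjugate k (Sum.inl o)) =
      bf (fun i j => Gm (Sum.inl i) (Sum.inl j)) (kap Zb X o) (kap Zb X o) +
      ∑ i, ∑ j, (Gm (Sum.inl i) (Sum.inr j) : A) *
        (kap Zb X o i * (Nh Zb X).adjugate (Sum.inr j) (Sum.inl o)) +
      (∑ j, ∑ i, (Gm (Sum.inr j) (Sum.inl i) : A) *
        ((Nh Zb X).adjugate (Sum.inr j) (Sum.inl o) * kap Zb X o i) +
      ∑ i, ∑ j, (Gm (Sum.inr i) (Sum.inr j) : A) * ((Nh Zb X).adjugate (Sum.inr i) (Sum.inl o) *
        (Nh Zb X).adjugate (Sum.inr j) (Sum.inl o))) := by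
    simp only [bf, Fintype.sum_sum_type, Finset.sum_add_distrib, kap]
    ring
  rw [mul_right_comm, e1, e6, e4, e2, Fq]
  linear_combination (2 ^ (Fintype.card J₁ - 1)) ^ 2 * (2 * (A2Zm Zb X).det * e3 + e5 -
    ((A2Zm Zb X).det * bf (fun i j => Gm (Sum.inl i) (Sum.inr j)) (kap Zb X o) (a2psi Zb X o) +
      bf (fun i j => Gm (Sum.inr i) (Sum.inr j)) (a2psi Zb X o) (a2psi Zb X o)) * hc')

/-- Change of basis. -/
theorem link {W J : Type} [Fintype W] [DecidableEq W] [Fintype J] [DecidableEq J]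
    (hc : Fintype.card J = Fintype.card W) (P : Matrix W J A) (M : Matrix W W A) (wt : W → A) :
    ∃ p : A, (Pᵀ * M * P).det = p * M.det ∧
      ∑ i, ∑ j, (∑ v, wt v * (P v i * P v j)) * (Pᵀ * M * P).adjugate i j =
        p * ∑ v, wt v * M.adjugate v v := by
  let e := Fintype.equivOfCardEq hc
  obtain ⟨Ps, rfl⟩ : ∃ Ps : Matrix W W A, P = Ps.submatrix id e :=
    ⟨P.submatrix id e.symm, by ext i j; simp⟩
  have h1 : (Ps.submatrix id e)ᵀ * M * Ps.submatrix id e = (Psᵀ * M * Ps).submatrix e e := by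
    ext i j
    simp [Matrix.mul_apply]
  refine ⟨Ps.det ^ 2, ?_, ?_⟩
  · rw [h1, det_submatrix_equiv_self, det_mul, det_mul, det_transpose]
    ring
  · have h2 : Ps * (Psᵀ * M * Ps).adjugate * Psᵀ = Ps.det ^ 2 • M.adjugate := by
      rw [adjugate_mul_distrib, adjugate_mul_distrib, ← Matrix.mul_assoc, mul_adjugate,
        Matrix.smul_mul, Matrix.one_mul, Matrix.smul_mul, Matrix.mul_assoc, adjugate_mul,
        Matrix.mul_smul, Matrix.mul_one, det_transpose, smul_smul, sq]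
    have h3 : ∀ v, Ps.det ^ 2 * M.adjugate v v =
        ∑ i, ∑ j, Ps v i * Ps v j * (Psᵀ * M * Ps).adjugate i j := by
      intro v
      have := congrFun (congrFun h2 v) v
      rw [Matrix.smul_apply, smul_eq_mul] at this
      rw [← this, Matrix.mul_apply, Finset.sum_comm]
      refine Finset.sum_congr rfl fun j _ => ?_
      rw [Matrix.mul_apply, Finset.sum_mul]
      exact Finset.sum_congr rfl fun i _ => by rw [transpose_apply]; ring
    rw [h1, adjugate_submatrix_equiv_self, Finset.mul_sum]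
    simp only [mul_left_comm (Ps.det ^ 2), h3, submatrix_apply, id_eq, Finset.mul_sum,
      Finset.sum_mul]
    rw [Finset.sum_comm (s := Finset.univ (α := W)), ← e.sum_comp]
    refine Finset.sum_congr rfl fun i _ => ?_
    rw [Finset.sum_comm (s := Finset.univ (α := W)), ← e.sum_comp]
    exact Finset.sum_congr rfl fun j _ => Finset.sum_congr rfl fun v _ => by ring

end point

end Pool.Agent.Lib.MP_788af2_nt.AG
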