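import Pool.Agent.Lib.MP_788af2_nt.AS.DetPoly
import Pool.Agent.Lib.MP_788af2_nt.AG.A2Def

/-!
Expansion of the matrix on the cube.
-/

set_option linter.unusedSectionVars false

namespace Pool.Agent.Lib.MP_788af2_nt.AG

open Pool.Agent.Lib.MP_788af2_nt.AS Matrix

open scoped Classical

private lemma sg_add_Cube (x y : ZMod 2) : sg (x + y) = sg x * sg y := by
  revert x y
  unfold sg
  decide

private lemma sg_eq_Cube (x : ZMod 2) : sg x = 1 + -2 * (x.val : ℤ) := by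
  revert x
  unfold sg
  decide

private lemma cast_sg_Cube (x : ZMod 2) : ((sg x : ℤ) : ZMod 2) = 1 := by
  revert x
  unfold sg
  decide

private lemma sg_sum_Cube {α : Type} (C : Finset α) (x : α → ZMod 2) :
    sg (∑ l ∈ C, x l) = ∑ S ∈ C.powerset, (-2) ^ S.card * ∏ l ∈ S, ((x l).val : ℤ) := by
  have h : sg (∑ l ∈ C, x l) = ∏ l ∈ C, (1 + -2 * ((x l).val : ℤ)) := by
    induction C using Finset.induction_on with
    | empty => simp [sg]
    | insert a s ha ih =>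
      rw [Finset.sum_insert ha, Finset.prod_insert ha, sg_add_Cube, ih, sg_eq_Cube]
  rw [h, Finset.prod_one_add]
  refine Finset.sum_congr rfl fun S _ => ?_
  rw [Finset.prod_mul_distrib, Finset.prod_const]

private lemma sum_one_Cube {ι O : Type} [DecidableEq ι] [CommRing O] (C : Finset ι) (m : ι → O) :
    ∑ S ∈ C.powerset, (2 : O) ^ S.card * (∑ l ∈ S, if S.card = 1 then m l else 0) =
      2 * ∑ l ∈ C, m l := by
  have e1 : ∀ S : Finset ι, (2 : O) ^ S.card * (∑ l ∈ S, if S.card = 1 then m l else 0) =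
      if S.card = 1 then 2 * ∑ l ∈ S, m l else 0 := by
    intro S
    by_cases h : S.card = 1
    · simp [h]
    · simp [h]
  simp only [e1]
  rw [← Finset.sum_filter, ← Finset.powersetCard_eq_filter, Finset.powersetCard_one,
    Finset.sum_map, Finset.mul_sum]
  simp

theorem cube_exp {I W J O : Type} [Fintype I] [DecidableEq I] [Fintype W] [CommRing O]
    {R₀ R₁ : ℕ} (Bm : G I → Matrix W W (ZMod 2)) (A : G I → Matrix W W O)
    (hA : ∀ g i j, (2 : O) ∣ A g i j - ((Bm g i j).val : O)) (P : Matrix W J (ZMod 2))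
    (M₀ M₁ : Matrix W W (ZMod 2)) (ξ : Fin R₀ ⊕ Fin R₁ → G I)
    (h₀ : ∀ l, ∑ g, (ξ (Sum.inl l) ⬝ᵥ g) • Bm g = M₀)
    (h₁ : ∀ l, ∑ g, (ξ (Sum.inr l) ⬝ᵥ g) • Bm g = M₁)
    (h₂ : ∀ S : Finset (Fin R₀ ⊕ Fin R₁), 2 ≤ S.card → ∑ g, (∏ l ∈ S, ξ l ⬝ᵥ g) • Bm g = 0)
    (ξ₀ : G I) : ∃ Λ : J → J → LamO O (Fin R₀ ⊕ Fin R₁), ∀ (C : Finset (Fin R₀ ⊕ Fin R₁)) i j,
      ((P.map fun x => (x.val : O))ᵀ * (∑ g, sg ((ξ₀ + ∑ l ∈ C, ξ l) ⬝ᵥ g) • A g) *
        P.map fun x => (x.val : O)) i j =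
      (((Pᵀ * (∑ g, Bm g) * P) i j).val : O) + 2 * (evL C (Λ i j) +
        (((Pᵀ * M₀ * P) i j).val : O) * (C.toLeft.card : O) +
        (((Pᵀ * M₁ * P) i j).val : O) * (C.toRight.card : O)) := by
  have cg : ∀ (S : Finset (Fin R₀ ⊕ Fin R₁)) (i j : J), ∃ c : O,
      ∑ g, ∑ b, ∑ a, (((-1) ^ S.card * sg (ξ₀ ⬝ᵥ g) * ∏ l ∈ S, ((ξ l ⬝ᵥ g).val : ℤ)) *
        ((P a i).val * (P b j).val : ℤ) : ℤ) * A g a b =
      (((Pᵀ * (∑ g, (∏ l ∈ S, ξ l ⬝ᵥ g) • Bm g) * P) i j).val : O) + 2 * c := by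
    intro S i j
    choose a ha using hA
    have h1 : (2 : ℤ) ∣ ∑ g, ∑ b, ∑ a, ((-1) ^ S.card * sg (ξ₀ ⬝ᵥ g) *
        ∏ l ∈ S, ((ξ l ⬝ᵥ g).val : ℤ)) * ((P a i).val * (P b j).val : ℤ) * (Bm g a b).val -
        (((Pᵀ * (∑ g, (∏ l ∈ S, ξ l ⬝ᵥ g) • Bm g) * P) i j).val : ℤ) := by
      refine (ZMod.intCast_zmod_eq_zero_iff_dvd _ 2).1 ?_
      have h1 : (-1 : ZMod 2) = 1 := by decide
      push_cast
      simp only [cast_sg_Cube, h1, one_pow, one_mul, ZMod.natCast_val, ZMod.cast_id', id_eq,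
        Matrix.mul_apply, Matrix.sum_apply, Matrix.smul_apply, transpose_apply, smul_eq_mul,
        Finset.sum_mul, Finset.mul_sum]
      rw [sub_eq_zero, Finset.sum_comm]
      refine Finset.sum_congr rfl fun b _ => ?_
      rw [Finset.sum_comm]
      exact Finset.sum_congr rfl fun a _ => Finset.sum_congr rfl fun g _ => by ring
    obtain ⟨c, hc⟩ := h1
    have h2 := congrArg (Int.cast : ℤ → O) hc
    refine ⟨c + ∑ g, ∑ b, ∑ a', (((-1) ^ S.card * sg (ξ₀ ⬝ᵥ g) * ∏ l ∈ S, ((ξ l ⬝ᵥ g).val : ℤ)) *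
        ((P a' i).val * (P b j).val : ℤ) : ℤ) * a g a' b, ?_⟩
    rw [Int.cast_sub, Int.cast_mul, Int.cast_ofNat, Int.cast_natCast, sub_eq_iff_eq_add'] at h2
    rw [mul_add, ← add_assoc, ← h2]
    simp only [Int.cast_sum, Finset.mul_sum, ← Finset.sum_add_distrib]
    refine Finset.sum_congr rfl fun g _ => Finset.sum_congr rfl fun b _ =>
      Finset.sum_congr rfl fun a' _ => ?_
    rw [Int.cast_mul _ ((Bm g a' b).val : ℤ), Int.cast_natCast, sub_eq_iff_eq_add.1 (ha g a' b)]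
    ring
  choose c hc using cg
  refine ⟨fun i j => ⟨fun C => ∑ S ∈ C.powerset, 2 ^ S.card * c S i j, fun S => c S i j,
    fun _ => rfl⟩, fun C i j => ?_⟩
  have h : ∀ g : G I, sg ((ξ₀ + ∑ l ∈ C, ξ l) ⬝ᵥ g) = ∑ S ∈ C.powerset, (2 : ℤ) ^ S.card *
      ((-1) ^ S.card * sg (ξ₀ ⬝ᵥ g) * ∏ l ∈ S, ((ξ l ⬝ᵥ g).val : ℤ)) := by
    intro g
    rw [add_dotProduct, sum_dotProduct, sg_add_Cube, sg_sum_Cube, Finset.mul_sum]
    refine Finset.sum_congr rfl fun S _ => ?_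
    rw [neg_pow]
    ring
  have e1 : ((P.map fun x => (x.val : O))ᵀ * (∑ g, sg ((ξ₀ + ∑ l ∈ C, ξ l) ⬝ᵥ g) • A g) *
      P.map fun x => (x.val : O)) i j = ∑ S ∈ C.powerset, (2 : O) ^ S.card *
      ∑ g, ∑ b, ∑ a, (((-1) ^ S.card * sg (ξ₀ ⬝ᵥ g) * ∏ l ∈ S, ((ξ l ⬝ᵥ g).val : ℤ)) *
        ((P a i).val * (P b j).val : ℤ) : ℤ) * A g a b := by
    simp only [h, Matrix.mul_apply, Matrix.sum_apply, Matrix.smul_apply, transpose_apply,
      map_apply]
    simp only [zsmul_eq_mul, Int.cast_sum, Finset.sum_mul, Finset.mul_sum]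
    symm
    rw [Finset.sum_comm, Finset.sum_congr rfl fun g _ => Finset.sum_comm, Finset.sum_comm]
    refine Finset.sum_congr rfl fun b _ => ?_
    rw [Finset.sum_congr rfl fun g _ => Finset.sum_comm, Finset.sum_comm]
    refine Finset.sum_congr rfl fun a _ => Finset.sum_congr rfl fun g _ =>
      Finset.sum_congr rfl fun S _ => ?_
    push_cast
    ring
  have e2 : ∀ S : Finset (Fin R₀ ⊕ Fin R₁),
      (((Pᵀ * (∑ g, (∏ l ∈ S, ξ l ⬝ᵥ g) • Bm g) * P) i j).val : O) =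
      (if S = ∅ then (((Pᵀ * (∑ g, Bm g) * P) i j).val : O) else 0) +
      ∑ l ∈ S, if S.card = 1 then Sum.elim (fun _ => (((Pᵀ * M₀ * P) i j).val : O))
        (fun _ => (((Pᵀ * M₁ * P) i j).val : O)) l else 0 := by
    intro S
    rcases Nat.lt_trichotomy S.card 1 with hS | hS | hS
    · obtain rfl : S = ∅ := Finset.card_eq_zero.1 (by omega)
      simp
    · obtain ⟨l | l, rfl⟩ := Finset.card_eq_one.1 hS
      · simp [h₀]
      · simp [h₁]
    · rw [h₂ S hS, if_neg (by rintro rfl; simp at hS)]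
      simp [hS.ne']
  rw [e1]
  simp only [hc, e2, mul_add, Finset.sum_add_distrib, sum_one_Cube, evL_apply, mul_ite, mul_zero,
    Finset.sum_ite_eq', Finset.empty_mem_powerset, if_true, Finset.card_empty, pow_zero, one_mul]
  rw [Finset.sum_sum_eq_sum_toLeft_add_sum_toRight]
  simp only [Sum.elim_inl, Sum.elim_inr, Finset.sum_const, nsmul_eq_mul, Finset.mul_sum,
    mul_left_comm _ (2 : O)]
  ring

/-- Averaging over the cubes. -/
theorem count_cube {A : Type} [AddCommGroup A] [Fintype A] {β : Type} [Fintype β]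
    (p : A → Prop) [DecidablePred p] (v : β → A) (c : ℝ)
    (h : ∀ a, ((Finset.univ.filter fun b => p (a + v b)).card : ℝ) ≤ c) :
    ((Finset.univ.filter p).card : ℝ) * Fintype.card β ≤ Fintype.card A * c := by
  have h1 : ∀ b, (Finset.univ.filter fun a => p (a + v b)).card = (Finset.univ.filter p).card :=
    fun b => Finset.card_equiv (Equiv.addRight (v b)) (by simp)
  have h2 : ∑ a, (Finset.univ.filter fun b => p (a + v b)).card =
      ∑ b, (Finset.univ.filter fun a => p (a + v b)).card := by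
    simp only [Finset.card_filter]
    exact Finset.sum_comm
  simp only [h1, Finset.sum_const, Finset.card_univ, smul_eq_mul] at h2
  have h3 := Finset.sum_le_sum fun a (_ : a ∈ (Finset.univ : Finset A)) => h a
  rw [← Nat.cast_sum, h2, Finset.sum_const, Finset.card_univ, nsmul_eq_mul, Nat.cast_mul,
    mul_comm] at h3
  exact h3

end Pool.Agent.Lib.MP_788af2_nt.AG
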