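import Pool.Agent.Lib.MP_788af2_nt.AG.A2Def

/-!
The symmetric case with two colours.
-/

set_option linter.unusedSectionVars false

namespace Pool.Agent.Lib.MP_788af2_nt.AG

open Pool.Agent.Lib.MP_788af2_nt.AS Matrix

open scoped Classical

private theorem sym_cb_SS (n : ℕ) : Nat.centralBinom n ^ 2 * (2 * n + 1) ≤ 16 ^ n := by
  induction n with
  | zero => simp
  | succ n ih =>
    have h := Nat.succ_mul_centralBinom_succ n
    have h1 : (n + 1) ^ 2 * (Nat.centralBinom (n + 1) ^ 2 * (2 * (n + 1) + 1)) =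
        4 * ((2 * n + 1) * (2 * n + 3)) * (Nat.centralBinom n ^ 2 * (2 * n + 1)) := by
      calc (n + 1) ^ 2 * (Nat.centralBinom (n + 1) ^ 2 * (2 * (n + 1) + 1))
          = ((n + 1) * Nat.centralBinom (n + 1)) ^ 2 * (2 * n + 3) := by ring
        _ = _ := by rw [h]; ring
    have h2 : 4 * ((2 * n + 1) * (2 * n + 3)) ≤ (n + 1) ^ 2 * 16 := by nlinarith
    have h3 := Nat.mul_le_mul h2 ih
    rw [← h1, mul_assoc] at h3
    have h4 := Nat.le_of_mul_le_mul_left h3 (by positivity)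
    rwa [pow_succ' 16 n]

private theorem sym_rho_SS (w : ℕ) (η : ℝ) (hη : 0 < η) :
    ∃ ρ : ℕ, ∀ j, (w : ℝ) * (ρ.choose j : ℝ) ≤ η * 2 ^ ρ := by
  obtain ⟨n, hn⟩ := exists_nat_ge ((w : ℝ) ^ 2 / η ^ 2)
  refine ⟨2 * n, fun j => ?_⟩
  have h1 : (((2 * n).choose j : ℕ) : ℝ) ≤ Nat.centralBinom n := by
    exact_mod_cast Nat.choose_le_centralBinom j n
  have h2 : (Nat.centralBinom n : ℝ) ^ 2 * (2 * n + 1) ≤ 16 ^ n := by exact_mod_cast sym_cb_SS n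
  have h3 : (w : ℝ) ^ 2 ≤ η ^ 2 * (2 * n + 1) := by
    rw [div_le_iff₀ (by positivity)] at hn
    have : (0 : ℝ) ≤ n := n.cast_nonneg
    nlinarith [sq_nonneg η]
  have h4 : ((w : ℝ) * Nat.centralBinom n) ^ 2 ≤ (η * 2 ^ (2 * n)) ^ 2 := by
    have e : ((2 : ℝ) ^ (2 * n)) ^ 2 = 16 ^ n := by
      rw [← pow_mul, show 2 * n * 2 = 4 * n by ring, pow_mul]
      norm_num
    rw [mul_pow, mul_pow, e]
    calc (w : ℝ) ^ 2 * (Nat.centralBinom n : ℝ) ^ 2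
        ≤ η ^ 2 * (2 * n + 1) * (Nat.centralBinom n : ℝ) ^ 2 := by gcongr
      _ = η ^ 2 * ((Nat.centralBinom n : ℝ) ^ 2 * (2 * n + 1)) := by ring
      _ ≤ _ := by gcongr
  have h5 := (pow_le_pow_iff_left₀ (by positivity) (by positivity) two_ne_zero).1 h4
  exact (mul_le_mul_of_nonneg_left h1 w.cast_nonneg).trans h5

private theorem sym_dvd_SS (A : ℕ) (q : ℤ) (k : ℕ) :
    ∀ d : ℤ, ¬ (2 : ℤ) ^ k ∣ d → (2 : ℤ) ^ (A + k) ∣ d * q → (2 : ℤ) ^ A ∣ q := by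
  induction k with
  | zero => intro d h; simp at h
  | succ k ih =>
    intro d h1 h2
    by_cases h : (2 : ℤ) ∣ d
    · obtain ⟨d', rfl⟩ := h
      refine ih d' (fun h3 => h1 ?_) ?_
      · rw [pow_succ']
        exact mul_dvd_mul_left 2 h3
      · rw [← add_assoc, pow_succ', mul_assoc] at h2
        exact (mul_dvd_mul_iff_left two_ne_zero).1 h2
    · exact (pow_dvd_pow 2 (Nat.le_add_right _ _)).trans
        (Int.prime_two.pow_dvd_of_dvd_mul_left _ h h2)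

private theorem sym_odd1_SS (m : ℕ) : ∃ o : ℕ, Odd o ∧ (m ≠ 0 → 2 * m.factorial ∣ o * 2 ^ m) := by
  obtain ⟨u, o, ho, h⟩ := Nat.exists_eq_two_pow_mul_odd m.factorial_ne_zero
  refine ⟨o, ho, fun hm => ?_⟩
  have h1 : (u : ℕ∞) ≤ emultiplicity 2 m.factorial :=
    pow_dvd_iff_le_emultiplicity.1 ⟨o, h⟩
  have h2 : u < m := by
    exact_mod_cast h1.trans_lt (Nat.emultiplicity_two_factorial_lt hm)
  rw [h, ← mul_assoc, ← pow_succ', mul_comm o]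
  exact mul_dvd_mul_right (pow_dvd_pow 2 h2) o

private theorem sym_odd_SS (ρ : ℕ) :
    ∃ o : ℕ, Odd o ∧ ∀ m, m ≠ 0 → m ≤ ρ → 2 * m.factorial ∣ o * 2 ^ m := by
  choose o ho using sym_odd1_SS
  refine ⟨∏ m ∈ Finset.range (ρ + 1), o m,
    Finset.prod_induction _ _ (fun a b => Odd.mul) odd_one fun m _ => (ho m).1,
    fun m h0 hm => ((ho m).2 h0).trans (mul_dvd_mul_right ?_ _)⟩
  exact Finset.dvd_prod_of_mem _ (Finset.mem_range.2 (Nat.lt_succ_of_le hm))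

/-- An integer polynomial with many even approximate roots has divisible coefficients. -/
theorem roots_coeff (k A : ℕ) (s : Finset ℤ) : ∀ p : Polynomial ℤ, (∀ n ∈ s, (2 : ℤ) ∣ n) →
    (∀ n ∈ s, ∀ n' ∈ s, n ≠ n' → ¬ (2 : ℤ) ^ k ∣ n - n') →
    (∀ n ∈ s, (2 : ℤ) ^ (A + s.card * k) ∣ p.eval n) →
    ∀ j, (2 : ℤ) ^ min A (s.card - j) ∣ p.coeff j := by
  induction s using Finset.induction_on with
  | empty => intro p _ _ _ j; simp
  | insert n0 s hn0 ih =>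
    intro p h2 hk hp j
    rw [Finset.card_insert_of_notMem hn0] at hp ⊢
    obtain ⟨Q, hQ⟩ := Polynomial.X_sub_C_dvd_sub_C_eval (p := p) (a := n0)
    have h0 := hp n0 (Finset.mem_insert_self _ _)
    have hQc := ih Q (fun n hn => h2 n (Finset.mem_insert_of_mem hn))
      (fun n hn n' hn' => hk n (Finset.mem_insert_of_mem hn) n' (Finset.mem_insert_of_mem hn'))
      (fun n hn => by
        have hne : n ≠ n0 := fun h => hn0 (h ▸ hn)
        refine sym_dvd_SS _ _ k (n - n0)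
          (hk n (Finset.mem_insert_of_mem hn) n0 (Finset.mem_insert_self _ _) hne) ?_
        have h5 := congrArg (Polynomial.eval n) hQ
        rw [Polynomial.eval_sub, Polynomial.eval_C, Polynomial.eval_mul, Polynomial.eval_sub,
          Polynomial.eval_X, Polynomial.eval_C] at h5
        rw [← h5, show A + s.card * k + k = A + (s.card + 1) * k by ring]
        exact dvd_sub (hp n (Finset.mem_insert_of_mem hn)) h0)
    obtain ⟨u, hu⟩ := h2 n0 (Finset.mem_insert_self _ _)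
    have hA : (2 : ℤ) ^ A ∣ p.eval n0 := (pow_dvd_pow 2 (Nat.le_add_right _ _)).trans h0
    have hn : ∀ j, (2 : ℤ) ^ min A (s.card + 1 - j) ∣ n0 * Q.coeff j := by
      intro j
      have h3 : (2 : ℤ) ^ (min A (s.card - j) + 1) ∣ n0 * Q.coeff j := by
        rw [hu, pow_succ', mul_assoc]
        exact mul_dvd_mul_left 2 (Dvd.dvd.mul_left (hQc j) u)
      exact (pow_dvd_pow 2 (by omega)).trans h3
    have hpe : p = Polynomial.X * Q - Polynomial.C n0 * Q + Polynomial.C (p.eval n0) := by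
      rw [← sub_mul, ← hQ]; ring
    rw [hpe, Polynomial.coeff_add, Polynomial.coeff_sub, Polynomial.coeff_C_mul]
    rcases j with _ | j
    · rw [Polynomial.coeff_X_mul_zero, Polynomial.coeff_C_zero]
      exact dvd_add (dvd_sub (dvd_zero _) (hn 0)) ((pow_dvd_pow 2 (min_le_left _ _)).trans hA)
    · rw [Polynomial.coeff_X_mul, Polynomial.coeff_C_succ, add_zero]
      refine dvd_sub ?_ (hn (j + 1))
      exact (pow_dvd_pow 2 (by omega)).trans (hQc j)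

private theorem roots_nat_SS (ρ A r a : ℕ) (p : Polynomial ℤ) (s : Finset ℕ)
    (hs : ∀ n ∈ s, n ≤ ρ ∧ n % 2 = a ∧ (2 : ℤ) ^ (A + r * ρ) ∣ p.eval ((n : ℤ) - a))
    (hr : r ≤ s.card) (j : ℕ) : (2 : ℤ) ^ min A (r - j) ∣ p.coeff j := by
  obtain ⟨s', hs', hc⟩ := Finset.exists_subset_card_eq hr
  have hinj : Function.Injective fun n : ℕ => (n : ℤ) - a := fun n n' h => by
    have h' : (n : ℤ) - a = (n' : ℤ) - a := h
    omega
  have hcard : (s'.image fun n : ℕ => (n : ℤ) - a).card = r := by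
    rw [Finset.card_image_of_injective _ hinj, hc]
  have := roots_coeff ρ A (s'.image fun n : ℕ => (n : ℤ) - a) p ?_ ?_ ?_ j
  · rwa [hcard] at this
  · intro x hx
    obtain ⟨n, hn, rfl⟩ := Finset.mem_image.1 hx
    have := (hs n (hs' hn)).2.1
    omega
  · intro x hx x' hx' hne h
    obtain ⟨n, hn, rfl⟩ := Finset.mem_image.1 hx
    obtain ⟨n', hn', rfl⟩ := Finset.mem_image.1 hx'
    have h6 := (hs n (hs' hn)).1
    have h7 := (hs n' (hs' hn')).1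
    have h9 : ρ < 2 ^ ρ := Nat.lt_two_pow_self
    have h5 : ((2 ^ ρ : ℕ) : ℤ) ∣ (n : ℤ) - a - ((n' : ℤ) - a) := by exact_mod_cast h
    have h8 := Int.eq_zero_of_abs_lt_dvd h5 (by rw [abs_lt]; constructor <;> omega)
    exact hne (by omega)
  · intro x hx
    obtain ⟨n, hn, rfl⟩ := Finset.mem_image.1 hx
    rw [hcard]
    exact (hs n (hs' hn)).2.2

private theorem core_SS {ι : Type} (t : Finset ι) (c : ι → ℤ) (φ ψ : ι → Polynomial ℤ)
    (d ρ₀ ρ₁ a b i j : ℕ) (hi : i ≤ d) (hj : j ≤ d)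
    (hodd : Odd (∑ x ∈ t, c x * (φ x).coeff i * (ψ x).coeff j)) (E : Finset ℕ)
    (hE : ∀ n₁ ∈ E, n₁ ≤ ρ₁ ∧ n₁ % 2 = b ∧ ∃ s : Finset ℕ, 1 + (d + 1) * ρ₁ + d ≤ s.card ∧
      ∀ n₀ ∈ s, n₀ ≤ ρ₀ ∧ n₀ % 2 = a ∧
        (2 : ℤ) ^ (1 + (d + 1) * ρ₁ + (1 + (d + 1) * ρ₁ + d) * ρ₀) ∣
          ∑ x ∈ t, c x * (φ x).eval ((n₀ : ℤ) - a) * (ψ x).eval ((n₁ : ℤ) - b)) :
    E.card ≤ d := by
  by_contra hcon
  have h1 := roots_nat_SS ρ₁ 1 (d + 1) b
    (∑ x ∈ t, Polynomial.C (c x * (φ x).coeff i) * ψ x) E (fun n₁ hn₁ => by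
      obtain ⟨h1, h2, s, hs, hs'⟩ := hE n₁ hn₁
      refine ⟨h1, h2, ?_⟩
      have h3 := roots_nat_SS ρ₀ (1 + (d + 1) * ρ₁) (1 + (d + 1) * ρ₁ + d) a
        (∑ x ∈ t, Polynomial.C (c x * (ψ x).eval ((n₁ : ℤ) - b)) * φ x) s (fun n₀ hn₀ => by
          obtain ⟨g1, g2, g3⟩ := hs' n₀ hn₀
          refine ⟨g1, g2, ?_⟩
          rw [Polynomial.eval_finsetSum]
          convert g3 using 2 with x _
          rw [Polynomial.eval_mul, Polynomial.eval_C]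
          ring) hs i
      rw [min_eq_left (by omega), Polynomial.finsetSum_coeff] at h3
      rw [Polynomial.eval_finsetSum]
      convert h3 using 2 with x _
      rw [Polynomial.eval_mul, Polynomial.eval_C, Polynomial.coeff_C_mul]
      ring) (by omega) j
  rw [min_eq_left (by omega), pow_one, Polynomial.finsetSum_coeff] at h1
  simp only [Polynomial.coeff_C_mul] at h1
  exact Int.not_even_iff_odd.2 hodd (even_iff_two_dvd.2 h1)

private theorem exP_SS (ρ : ℕ) : ∃ o : ℤ, Odd o ∧ ∀ a : ℤ, ∃ P : ℕ → Polynomial ℤ,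
    P 0 = Polynomial.C o ∧ (∀ m, m ≠ 0 → ∃ g, P m = Polynomial.C 2 * g) ∧
    ∀ m ≤ ρ, ∀ n : ℕ, (P m).eval ((n : ℤ) - a) = o * 2 ^ m * (n.choose m : ℤ) := by
  obtain ⟨o, hoo, ho⟩ := sym_odd_SS ρ
  have h1 : ∀ m, ∃ e : ℤ, m ≠ 0 → m ≤ ρ → (o : ℤ) * 2 ^ m = 2 * m.factorial * e := by
    intro m
    by_cases hm : m ≠ 0 ∧ m ≤ ρ
    · obtain ⟨e, he⟩ := ho m hm.1 hm.2
      exact ⟨e, fun _ _ => by exact_mod_cast he⟩
    · exact ⟨0, fun h h' => absurd ⟨h, h'⟩ hm⟩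
  choose e he using h1
  refine ⟨o, Odd.natCast hoo, fun a => ⟨fun m => if m = 0 then Polynomial.C (o : ℤ) else
    Polynomial.C 2 * (Polynomial.C (e m) *
      (descPochhammer ℤ m).comp (Polynomial.X + Polynomial.C a)), if_pos rfl,
    fun m hm => ⟨_, if_neg hm⟩, fun m hm n => ?_⟩⟩
  by_cases h0 : m = 0
  · subst h0
    simp
  · simp only [if_neg h0, Polynomial.eval_mul, Polynomial.eval_C, Polynomial.eval_comp,
      Polynomial.eval_add, Polynomial.eval_X, sub_add_cancel]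
    rw [descPochhammer_eval_eq_descFactorial, Nat.descFactorial_eq_factorial_mul_choose,
      he m h0 hm]
    push_cast
    ring

private theorem wsum_SS (ρ w : ℕ) (η : ℝ) (h : ∀ j, (w : ℝ) * (ρ.choose j : ℝ) ≤ η * 2 ^ ρ)
    (s : Finset ℕ) (hs : s.card ≤ w) : ∑ n ∈ s, (ρ.choose n : ℝ) ≤ η * 2 ^ ρ := by
  have h2 : ∑ n ∈ s, ρ.choose n ≤ w * ρ.choose (ρ / 2) :=
    (Finset.sum_le_card_nsmul s _ (ρ.choose (ρ / 2)) fun n _ => Nat.choose_le_middle n ρ).trans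
      (Nat.mul_le_mul_right _ hs)
  refine le_trans ?_ (h (ρ / 2))
  exact_mod_cast h2

private theorem count_SS (ρ₀ ρ₁ w₀ w₁ : ℕ) (η : ℝ)
    (h₀ : ∀ j, (w₀ : ℝ) * (ρ₀.choose j : ℝ) ≤ η / 2 * 2 ^ ρ₀)
    (h₁ : ∀ j, (w₁ : ℝ) * (ρ₁.choose j : ℝ) ≤ η / 2 * 2 ^ ρ₁) (B : ℕ → ℕ → Prop)
    [∀ n₁ n₀, Decidable (B n₁ n₀)] (E : Finset ℕ) (hE : E.card ≤ w₁)
    (hB : ∀ n₁ ∈ Finset.range (ρ₁ + 1), n₁ ∉ E →
      ((Finset.range (ρ₀ + 1)).filter fun n₀ => B n₁ n₀).card ≤ w₀) :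
    ∑ n₁ ∈ Finset.range (ρ₁ + 1), (ρ₁.choose n₁ : ℝ) *
      ∑ n₀ ∈ Finset.range (ρ₀ + 1), (ρ₀.choose n₀ : ℝ) * (if B n₁ n₀ then 1 else 0) ≤
      η * 2 ^ ρ₀ * 2 ^ ρ₁ := by
  have s0 : ∑ n ∈ Finset.range (ρ₀ + 1), (ρ₀.choose n : ℝ) = 2 ^ ρ₀ := by
    exact_mod_cast Nat.sum_range_choose ρ₀
  have s1 : ∑ n ∈ Finset.range (ρ₁ + 1), (ρ₁.choose n : ℝ) = 2 ^ ρ₁ := by
    exact_mod_cast Nat.sum_range_choose ρ₁
  have hη : 0 ≤ η / 2 * 2 ^ ρ₀ := le_trans (by positivity) (h₀ 0)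
  have hin : ∀ n₁ ∈ Finset.range (ρ₁ + 1),
      ∑ n₀ ∈ Finset.range (ρ₀ + 1), (ρ₀.choose n₀ : ℝ) * (if B n₁ n₀ then 1 else 0) ≤
        (if n₁ ∈ E then 2 ^ ρ₀ else 0) + η / 2 * 2 ^ ρ₀ := by
    intro n₁ hn₁
    simp only [mul_ite, mul_one, mul_zero]
    rw [← Finset.sum_filter]
    by_cases h : n₁ ∈ E
    · rw [if_pos h, ← s0]
      refine le_trans ?_ (le_add_of_nonneg_right (s0 ▸ hη))
      exact Finset.sum_le_sum_of_subset_of_nonneg (Finset.filter_subset _ _)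
        fun _ _ _ => Nat.cast_nonneg _
    · rw [if_neg h, zero_add]
      exact wsum_SS ρ₀ w₀ _ h₀ _ (hB n₁ hn₁ h)
  refine (Finset.sum_le_sum fun n₁ hn₁ =>
    mul_le_mul_of_nonneg_left (hin n₁ hn₁) (Nat.cast_nonneg _)).trans ?_
  simp only [mul_add, Finset.sum_add_distrib, mul_ite, mul_zero]
  rw [← Finset.sum_filter, ← Finset.sum_mul, ← Finset.sum_mul, s1]
  have h3 := wsum_SS ρ₁ w₁ _ h₁ ((Finset.range (ρ₁ + 1)).filter fun n => n ∈ E)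
    ((Finset.card_le_card fun n hn => (Finset.mem_filter.1 hn).2).trans hE)
  have h4 := mul_le_mul_of_nonneg_right h3 (show (0 : ℝ) ≤ 2 ^ ρ₀ by positivity)
  linarith

private theorem odd_SS (d ρ₀ ρ₁ : ℕ) (e : ℕ → ℕ → ℕ → ℕ → ℤ) (o₀ o₁ c₀ c₁ : ℤ) (h₀ : Odd o₀)
    (h₁ : Odd o₁) (P Q : ℕ → Polynomial ℤ) (hP0 : P 0 = Polynomial.C o₀)
    (hP : ∀ m, m ≠ 0 → ∃ g, P m = Polynomial.C 2 * g) (hQ0 : Q 0 = Polynomial.C o₁)
    (hQ : ∀ m, m ≠ 0 → ∃ g, Q m = Polynomial.C 2 * g) (i j : ℕ) (hi : i ≤ d) (hj : j ≤ d)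
    (hodd : Odd (e i j 0 0))
    (hmax : ∀ i' ≤ d, ∀ j' ≤ d, Odd (e i' j' 0 0) → i' + j' ≤ i + j) :
    Odd (∑ x ∈ (Finset.range (d + 1) ×ˢ Finset.range (d + 1)) ×ˢ
        (Finset.range (ρ₀ + 1) ×ˢ Finset.range (ρ₁ + 1)),
      e x.1.1 x.1.2 x.2.1 x.2.2 *
        (P x.2.1 * (Polynomial.X + Polynomial.C c₀) ^ x.1.1).coeff i *
        (Q x.2.2 * (Polynomial.X + Polynomial.C c₁) ^ x.1.2).coeff j) := by
  have hdeg : ∀ (c : ℤ) (n : ℕ), ((Polynomial.X + Polynomial.C c) ^ n).natDegree = n :=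
    fun c n => by
      rw [(Polynomial.monic_X_add_C _).natDegree_pow, Polynomial.natDegree_X_add_C, mul_one]
  have htop : ∀ (c : ℤ) (n : ℕ), ((Polynomial.X + Polynomial.C c) ^ n).coeff n = 1 :=
    fun c n => by
      have h2 := ((Polynomial.monic_X_add_C c).pow n).coeff_natDegree
      rwa [hdeg] at h2
  have hmem : ((i, j), (0, 0)) ∈ (Finset.range (d + 1) ×ˢ Finset.range (d + 1)) ×ˢ
      (Finset.range (ρ₀ + 1) ×ˢ Finset.range (ρ₁ + 1)) := by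
    simp only [Finset.mem_product, Finset.mem_range]
    omega
  rw [← Finset.add_sum_erase _ _ hmem]
  refine Odd.add_even ?_ (even_iff_two_dvd.2 (Finset.dvd_sum fun x hx => ?_))
  · simp only [hP0, hQ0, Polynomial.coeff_C_mul, htop, mul_one]
    exact (hodd.mul h₀).mul h₁
  · obtain ⟨⟨i', j'⟩, m₀, m₁⟩ := x
    obtain ⟨hne, hx⟩ := Finset.mem_erase.1 hx
    simp only [Finset.mem_product, Finset.mem_range] at hx
    dsimp only
    by_cases g0 : m₀ = 0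
    · by_cases g1 : m₁ = 0
      · subst g0 g1
        rw [hP0, hQ0, Polynomial.coeff_C_mul, Polynomial.coeff_C_mul]
        by_cases a1 : i' < i
        · rw [Polynomial.coeff_eq_zero_of_natDegree_lt (n := i) (by rw [hdeg]; exact a1)]
          simp
        by_cases a2 : j' < j
        · rw [Polynomial.coeff_eq_zero_of_natDegree_lt (n := j) (by rw [hdeg]; exact a2)]
          simp
        have a3 : ¬ Odd (e i' j' 0 0) := fun h => by
          have := hmax i' (by omega) j' (by omega) h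
          have b1 : i' = i := by omega
          have b2 : j' = j := by omega
          exact hne (by rw [b1, b2])
        exact Dvd.dvd.mul_right (Dvd.dvd.mul_right
          (even_iff_two_dvd.1 (Int.not_odd_iff_even.1 a3)) _) _
      · obtain ⟨g, hg⟩ := hQ m₁ g1
        rw [hg, mul_assoc (Polynomial.C 2), Polynomial.coeff_C_mul]
        exact Dvd.dvd.mul_left (dvd_mul_right 2 _) _
    · obtain ⟨g, hg⟩ := hP m₀ g0
      rw [hg, mul_assoc (Polynomial.C 2), Polynomial.coeff_C_mul]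
      exact Dvd.dvd.mul_right (Dvd.dvd.mul_left (dvd_mul_right 2 _) _) _

theorem sym2 (d : ℕ) (η : ℝ) (hη : 0 < η) : ∃ ρ₀ ρ₁ J : ℕ, 0 < J ∧
    ∀ (e : ℕ → ℕ → ℕ → ℕ → ℤ) (N₀ N₁ : ℕ),
    (∀ i j m₀ m₁, (2 : ℤ) ^ (m₀ + m₁) ∣ e i j m₀ m₁) → (∃ i ≤ d, ∃ j ≤ d, Odd (e i j 0 0)) →
    ∑ n₁ ∈ Finset.range (ρ₁ + 1), (ρ₁.choose n₁ : ℝ) *
      ∑ n₀ ∈ Finset.range (ρ₀ + 1), (ρ₀.choose n₀ : ℝ) *
        (if (2 : ℤ) ^ J ∣ ∑ i ∈ Finset.range (d + 1), ∑ j ∈ Finset.range (d + 1),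
          (∑ m₀ ∈ Finset.range (ρ₀ + 1), ∑ m₁ ∈ Finset.range (ρ₁ + 1),
            (n₀.choose m₀ : ℤ) * (n₁.choose m₁ : ℤ) * e i j m₀ m₁) *
              ((N₀ + n₀ : ℕ) : ℤ) ^ i * ((N₁ + n₁ : ℕ) : ℤ) ^ j then 1 else 0) ≤
      η * 2 ^ ρ₀ * 2 ^ ρ₁ := by
  obtain ⟨ρ₁, h₁⟩ := sym_rho_SS (4 * d) (η / 2) (half_pos hη)
  obtain ⟨ρ₀, h₀⟩ := sym_rho_SS (2 * (1 + (d + 1) * ρ₁ + d)) (η / 2) (half_pos hη)
  refine ⟨ρ₀, ρ₁, 1 + (d + 1) * ρ₁ + (1 + (d + 1) * ρ₁ + d) * ρ₀, by omega,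
    fun e N₀ N₁ hdv hex => ?_⟩
  choose e' he' using hdv
  have he0 : ∀ i j, e i j 0 0 = e' i j 0 0 := fun i j => by rw [he']; simp
  obtain ⟨⟨i, j⟩, hij, hmax⟩ := Finset.exists_max_image
    ((Finset.range (d + 1) ×ˢ Finset.range (d + 1)).filter fun x => Odd (e' x.1 x.2 0 0))
    (fun x => x.1 + x.2) (by
      obtain ⟨i, hi, j, hj, h⟩ := hex
      refine ⟨(i, j), ?_⟩
      simp only [Finset.mem_filter, Finset.mem_product, Finset.mem_range]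
      exact ⟨by omega, he0 i j ▸ h⟩)
  simp only [Finset.mem_filter, Finset.mem_product, Finset.mem_range] at hij
  obtain ⟨o₀, ho₀, hP⟩ := exP_SS ρ₀
  obtain ⟨o₁, ho₁, hQ⟩ := exP_SS ρ₁
  set B : ℕ → ℕ → Prop := fun n₁ n₀ =>
    (2 : ℤ) ^ (1 + (d + 1) * ρ₁ + (1 + (d + 1) * ρ₁ + d) * ρ₀) ∣
      ∑ i ∈ Finset.range (d + 1), ∑ j ∈ Finset.range (d + 1),
        (∑ m₀ ∈ Finset.range (ρ₀ + 1), ∑ m₁ ∈ Finset.range (ρ₁ + 1),
          (n₀.choose m₀ : ℤ) * (n₁.choose m₁ : ℤ) * e i j m₀ m₁) *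
            ((N₀ + n₀ : ℕ) : ℤ) ^ i * ((N₁ + n₁ : ℕ) : ℤ) ^ j with hBdef
  let E : ℕ → ℕ → Finset ℕ := fun a b => (Finset.range (ρ₁ + 1)).filter fun n₁ => n₁ % 2 = b ∧
    1 + (d + 1) * ρ₁ + d ≤
      ((Finset.range (ρ₀ + 1)).filter fun n₀ => n₀ % 2 = a ∧ B n₁ n₀).card
  have hE : ∀ a b, (E a b).card ≤ d := by
    intro a b
    obtain ⟨P, hP0, hP1, hP2⟩ := hP a
    obtain ⟨Q, hQ0, hQ1, hQ2⟩ := hQ b
    refine core_SS _ _ _ _ d ρ₀ ρ₁ a b i j (by omega) (by omega)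
      (odd_SS d ρ₀ ρ₁ e' o₀ o₁ ((N₀ : ℤ) + a) ((N₁ : ℤ) + b) ho₀ ho₁ P Q hP0 hP1 hQ0 hQ1 i j
        (by omega) (by omega) hij.2 (fun i' hi' j' hj' h => hmax (i', j') (by
          simp only [Finset.mem_filter, Finset.mem_product, Finset.mem_range]
          exact ⟨by omega, h⟩))) (E a b) fun n₁ hn₁ => ?_
    obtain ⟨g1, g2, g3⟩ := Finset.mem_filter.1 hn₁
    refine ⟨Nat.le_of_lt_succ (Finset.mem_range.1 g1), g2, _, g3, fun n₀ hn₀ => ?_⟩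
    obtain ⟨g4, g5, g6⟩ := Finset.mem_filter.1 hn₀
    refine ⟨Nat.le_of_lt_succ (Finset.mem_range.1 g4), g5, ?_⟩
    have g7 := Dvd.dvd.mul_left g6 (o₀ * o₁)
    refine g7.trans (dvd_of_eq (Eq.symm ?_))
    rw [Finset.sum_product, Finset.sum_product, Finset.mul_sum]
    refine Finset.sum_congr rfl fun i' _ => ?_
    rw [Finset.mul_sum]
    refine Finset.sum_congr rfl fun j' _ => ?_
    rw [Finset.sum_product, Finset.sum_mul, Finset.sum_mul, Finset.mul_sum]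
    refine Finset.sum_congr rfl fun m₀ hm₀ => ?_
    rw [Finset.sum_mul, Finset.sum_mul, Finset.mul_sum]
    refine Finset.sum_congr rfl fun m₁ hm₁ => ?_
    simp only [Polynomial.eval_mul, Polynomial.eval_pow, Polynomial.eval_add, Polynomial.eval_X,
      Polynomial.eval_C]
    rw [hP2 m₀ (Nat.le_of_lt_succ (Finset.mem_range.1 hm₀)),
      hQ2 m₁ (Nat.le_of_lt_succ (Finset.mem_range.1 hm₁)), he',
      show (n₀ : ℤ) - a + (N₀ + a) = ((N₀ + n₀ : ℕ) : ℤ) by push_cast; ring,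
      show (n₁ : ℤ) - b + (N₁ + b) = ((N₁ + n₁ : ℕ) : ℤ) by push_cast; ring]
    ring
  refine count_SS ρ₀ ρ₁ _ _ η h₀ h₁ B (E 0 0 ∪ E 0 1 ∪ (E 1 0 ∪ E 1 1)) ?_ ?_
  · have a1 := Finset.card_union_le (E 0 0 ∪ E 0 1) (E 1 0 ∪ E 1 1)
    have a2 := Finset.card_union_le (E 0 0) (E 0 1)
    have a3 := Finset.card_union_le (E 1 0) (E 1 1)
    have := hE 0 0
    have := hE 0 1
    have := hE 1 0
    have := hE 1 1
    omega
  · intro n₁ hn₁ hnE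
    have hlt : ∀ a, n₁ ∉ E a 0 → n₁ ∉ E a 1 →
        ((Finset.range (ρ₀ + 1)).filter fun n₀ => n₀ % 2 = a ∧ B n₁ n₀).card ≤
          1 + (d + 1) * ρ₁ + d := by
      intro a b0 b1
      by_contra hc
      rcases Nat.mod_two_eq_zero_or_one n₁ with h | h
      · exact b0 (Finset.mem_filter.2 ⟨hn₁, h, by omega⟩)
      · exact b1 (Finset.mem_filter.2 ⟨hn₁, h, by omega⟩)
    simp only [Finset.mem_union, not_or] at hnE
    have c0 := hlt 0 hnE.1.1 hnE.1.2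
    have c1 := hlt 1 hnE.2.1 hnE.2.2
    have c2 : ((Finset.range (ρ₀ + 1)).filter fun n₀ => B n₁ n₀) ⊆
        ((Finset.range (ρ₀ + 1)).filter fun n₀ => n₀ % 2 = 0 ∧ B n₁ n₀) ∪
        ((Finset.range (ρ₀ + 1)).filter fun n₀ => n₀ % 2 = 1 ∧ B n₁ n₀) := by
      intro n₀ hn₀
      obtain ⟨g1, g2⟩ := Finset.mem_filter.1 hn₀
      rcases Nat.mod_two_eq_zero_or_one n₀ with h | h
      · exact Finset.mem_union_left _ (Finset.mem_filter.2 ⟨g1, h, g2⟩)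
      · exact Finset.mem_union_right _ (Finset.mem_filter.2 ⟨g1, h, g2⟩)
    have c3 := (Finset.card_le_card c2).trans (Finset.card_union_le _ _)
    omega

end Pool.Agent.Lib.MP_788af2_nt.AG
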