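import Pool.Agent.Lib.MP_788af2_nt.AG.A2Sym
import Pool.Agent.Lib.MP_788af2_nt.AG.A2SS

/-!
Anti-concentration with two colours over the integers.
-/

set_option linter.unusedSectionVars false

namespace Pool.Agent.Lib.MP_788af2_nt.AG

open Pool.Agent.Lib.MP_788af2_nt.AS Matrix

open scoped Classical

private lemma red_A2Int {ι : Type} (T : Finset ι) (sz : ι → ℕ) (P : ι → Prop) (J ρ : ℕ)
    (hJ : 0 < J) : ∃ N : ℕ, ∀ (f : (ι → ℤ) → ℕ → ℝ) (η : ℝ),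
    (∀ v w n, (∀ x ∈ T, (2 : ℤ) ^ J ∣ v x - w x) → f v n = f w n) →
    (∀ (a : ℕ → ι → ℤ) (N₀ : ℕ), (∀ m x, (2 : ℤ) ^ (m + sz x) ∣ a m x) →
      (∃ x ∈ T, P x ∧ Odd (a 0 x)) → ∑ n ∈ Finset.range (ρ + 1), (ρ.choose n : ℝ) *
        f (fun x => ∑ m ∈ Finset.range (ρ + 1), (n.choose m : ℤ) * a m x) (N₀ + n) ≤ η * 2 ^ ρ) →
    ∀ c : Finset (Fin N) → ι → ℤ, (∀ S x, (2 : ℤ) ^ (S.card + sz x) ∣ c S x) →
      (∃ x ∈ T, P x ∧ Odd (c ∅ x)) →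
      ∑ C : Finset (Fin N), f (fun x => ∑ S ∈ C.powerset, c S x) C.card ≤ η * 2 ^ N := by
  obtain ⟨N, hN⟩ := symm_red (T → ZMod (2 ^ J)) J ρ
  refine ⟨N, fun f η hf hs c hc ho => ?_⟩
  have hd : ∀ a b : ℤ, (a : ZMod (2 ^ J)) = b → (2 : ℤ) ^ J ∣ b - a := fun a b h => by
    simpa using (ZMod.intCast_eq_intCast_iff_dvd_sub a b (2 ^ J)).1 h
  let Fl : ℕ → AddSubgroup (T → ZMod (2 ^ J)) := fun m =>
    { carrier := {v | ∀ x : T, ∃ z : ℤ, (2 : ℤ) ^ (m + sz x) ∣ z ∧ (z : ZMod (2 ^ J)) = v x}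
      zero_mem' := fun _ => ⟨0, dvd_zero _, by simp⟩
      add_mem' := fun h k x => by
        obtain ⟨z, a, b⟩ := h x
        obtain ⟨z', a', b'⟩ := k x
        exact ⟨z + z', dvd_add a a', by simp [b, b']⟩
      neg_mem' := fun h x => by
        obtain ⟨z, a, b⟩ := h x
        exact ⟨-z, a.neg_right, by simp [b]⟩ }
  let f' : (T → ZMod (2 ^ J)) → ℕ → ℝ := fun v n =>
    f (fun x => if h : x ∈ T then ZMod.cast (v ⟨x, h⟩) else 0) n
  have hf' : ∀ (w : ι → ℤ) (v : T → ZMod (2 ^ J)) (n : ℕ), (∀ x : T, v x = w x) →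
      f' v n = f w n := fun w v n h => hf _ _ n fun x hx => hd _ _ (by
    rw [dif_pos hx, ZMod.intCast_zmod_cast, h])
  have key := hN Fl (fun m m' h v hv x => by
      obtain ⟨z, a, b⟩ := hv x
      exact ⟨z, (pow_dvd_pow _ (by omega)).trans a, b⟩)
    (eq_bot_iff.2 fun v hv => AddSubgroup.mem_bot.2 (funext fun x => by
      obtain ⟨z, a, b⟩ := hv x
      rw [← b]
      exact (ZMod.intCast_zmod_eq_zero_iff_dvd z _).2
        (by simpa using (pow_dvd_pow (2 : ℤ) (Nat.le_add_right J _)).trans a)))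
    (fun v => ∃ x : T, P x ∧ ∃ z : ℤ, Odd z ∧ (z : ZMod (2 ^ J)) = v x)
    (by
      rintro a b ⟨x, h1, z, h2, h3⟩ hb
      obtain ⟨z', h4, h5⟩ := hb x
      exact ⟨x, h1, z + z', h2.add_even (even_iff_two_dvd.2 ((dvd_pow_self 2 (by omega)).trans h4)),
        by simp [h3, h5]⟩) f' η
    (by
      rintro a N₀ ha ⟨x, h1, z, h2, h3⟩
      choose l l1 l2 using ha
      refine le_trans (le_of_eq (Finset.sum_congr rfl fun n _ => ?_))
        (hs (fun m x => if h : x ∈ T then l m ⟨x, h⟩ else 0) N₀ (fun m x => ?_) ⟨x, x.2, h1, ?_⟩)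
      · rw [hf']
        intro y
        simp [Finset.sum_apply, l2]
      · split_ifs with h
        · exact l1 m ⟨x, h⟩
        · exact dvd_zero _
      · rw [dif_pos x.2]
        have := h2.add_even (even_iff_two_dvd.2 ((dvd_pow_self 2 hJ.ne').trans
          (hd z (l 0 x) (h3.trans (l2 0 x).symm))))
        rwa [add_sub_cancel] at this)
    (Fin N) Finset.univ (by simp) (fun S x => (c S x : ZMod (2 ^ J))) 0
    (fun S x => ⟨_, hc S x, rfl⟩) (by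
      obtain ⟨x, h1, h2, h3⟩ := ho
      exact ⟨⟨x, h1⟩, h2, _, h3, rfl⟩)
  rw [Finset.powerset_univ] at key
  refine le_trans (le_of_eq (Finset.sum_congr rfl fun C _ => ?_)) key
  rw [zero_add, hf']
  intro y
  simp [Finset.sum_apply]

private lemma ind_A2Int {κ : Type} {J d : ℕ} (s : Finset κ) (k : κ → ℤ) (v w : ℕ × ℕ × κ → ℤ)
    (h : ∀ i ∈ Finset.range (d + 1), ∀ j ∈ Finset.range (d + 1), ∀ m ∈ s,
      (2 : ℤ) ^ J ∣ v (i, j, m) - w (i, j, m)) (x y : ℤ) :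
    (if (2 : ℤ) ^ J ∣ ∑ i ∈ Finset.range (d + 1), ∑ j ∈ Finset.range (d + 1),
        (∑ m ∈ s, k m * v (i, j, m)) * x ^ i * y ^ j then (1 : ℝ) else 0) =
      if (2 : ℤ) ^ J ∣ ∑ i ∈ Finset.range (d + 1), ∑ j ∈ Finset.range (d + 1),
        (∑ m ∈ s, k m * w (i, j, m)) * x ^ i * y ^ j then (1 : ℝ) else 0 := by
  refine if_congr (dvd_iff_dvd_of_dvd_sub ?_) rfl rfl
  simp only [← Finset.sum_sub_distrib, ← sub_mul, ← mul_sub]
  exact Finset.dvd_sum fun i hi => Finset.dvd_sum fun j hj =>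
    ((Finset.dvd_sum fun m hm => (h i hi j hj m hm).mul_left _).mul_right _).mul_right _

theorem ac2_int (d : ℕ) (η : ℝ) (hη : 0 < η) : ∃ R₀ R₁ J : ℕ,
    ∀ c : ℕ → ℕ → Finset (Fin R₀) → Finset (Fin R₁) → ℤ,
    (∀ i j S₀ S₁, (2 : ℤ) ^ (S₀.card + S₁.card) ∣ c i j S₀ S₁) →
    (∃ i ≤ d, ∃ j ≤ d, Odd (c i j ∅ ∅)) →
    ∑ C₀ : Finset (Fin R₀), ∑ C₁ : Finset (Fin R₁),
      (if (2 : ℤ) ^ J ∣ ∑ i ∈ Finset.range (d + 1), ∑ j ∈ Finset.range (d + 1),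
        (∑ S₀ ∈ C₀.powerset, ∑ S₁ ∈ C₁.powerset, c i j S₀ S₁) *
          (C₀.card : ℤ) ^ i * (C₁.card : ℤ) ^ j then (1 : ℝ) else 0) ≤
      η * 2 ^ R₀ * 2 ^ R₁ := by
  obtain ⟨ρ₀, ρ₁, J, hJ, hs⟩ := sym2 d η hη
  obtain ⟨R₁, h1⟩ := red_A2Int
    (Finset.range (d + 1) ×ˢ Finset.range (d + 1) ×ˢ Finset.range (ρ₀ + 1)) (fun x => x.2.2)
    (fun x => x.2.2 = 0) J ρ₁ hJ
  obtain ⟨R₀, h0⟩ := red_A2Int (Finset.range (d + 1) ×ˢ Finset.range (d + 1) ×ˢ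
    (Finset.univ : Finset (Finset (Fin R₁)))) (fun x => x.2.2.card) (fun x => x.2.2 = ∅) J ρ₀ hJ
  refine ⟨R₀, R₁, J, fun c hc ⟨i, hi, j, hj, ho⟩ => ?_⟩
  have key := h0 (fun v n₀ => ∑ C₁ : Finset (Fin R₁),
      if (2 : ℤ) ^ J ∣ ∑ i ∈ Finset.range (d + 1), ∑ j ∈ Finset.range (d + 1),
        (∑ S₁ ∈ C₁.powerset, 1 * v (i, j, S₁)) * (n₀ : ℤ) ^ i * (C₁.card : ℤ) ^ j
      then (1 : ℝ) else 0) (η * 2 ^ R₁)
    (fun v w n h => Finset.sum_congr rfl fun C₁ _ => ind_A2Int _ _ v w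
      (fun i hi j hj m _ => h _ (by simp [Finset.mem_range.1 hi, Finset.mem_range.1 hj])) _ _)
    (by
      rintro a N₀ ha ⟨⟨i, j, S⟩, hx, rfl : S = ∅, ho⟩
      have k1 := h1 (fun v n₁ => ∑ n₀ ∈ Finset.range (ρ₀ + 1), (ρ₀.choose n₀ : ℝ) *
          if (2 : ℤ) ^ J ∣ ∑ i ∈ Finset.range (d + 1), ∑ j ∈ Finset.range (d + 1),
            (∑ m₀ ∈ Finset.range (ρ₀ + 1), (n₀.choose m₀ : ℤ) * v (i, j, m₀)) *
              ((N₀ + n₀ : ℕ) : ℤ) ^ i * (n₁ : ℤ) ^ j then (1 : ℝ) else 0) (η * 2 ^ ρ₀)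
        (fun v w n h => Finset.sum_congr rfl fun n₀ _ => congrArg _ (ind_A2Int _ _ v w
          (fun i hi j hj m hm => h _ (by
            simp [Finset.mem_range.1 hi, Finset.mem_range.1 hj, Finset.mem_range.1 hm])) _ _))
        (by
          rintro a' N₁ ha' ⟨⟨i, j, m⟩, hx, rfl : m = 0, ho⟩
          simp only [Finset.mem_product, Finset.mem_range] at hx
          have k2 := hs (fun i j m₀ m₁ => a' m₁ (i, j, m₀)) N₀ N₁
            (fun i j m₀ m₁ => add_comm m₁ m₀ ▸ ha' m₁ (i, j, m₀))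
            ⟨i, by omega, j, by omega, ho⟩
          simpa only [Finset.mul_sum, mul_assoc] using k2)
        (fun S₁ x => a x.2.2 (x.1, x.2.1, S₁))
        (fun S₁ x => add_comm x.2.2 S₁.card ▸ ha x.2.2 (x.1, x.2.1, S₁))
        ⟨(i, j, 0), by simpa using hx, rfl, ho⟩
      rw [mul_right_comm]
      refine le_trans (le_of_eq ?_) k1
      simp only [Finset.mul_sum, one_mul]
      rw [Finset.sum_comm]
      refine Finset.sum_congr rfl fun C₁ _ => Finset.sum_congr rfl fun n₀ _ => ?_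
      simp only [Finset.sum_comm (s := C₁.powerset)])
    (fun S₀ x => c x.1 x.2.1 S₀ x.2.2) (fun S₀ x => hc _ _ _ _)
    ⟨(i, j, ∅), by simp [Nat.lt_succ_of_le hi, Nat.lt_succ_of_le hj], rfl, ho⟩
  rw [mul_right_comm]
  refine le_trans (le_of_eq ?_) key
  refine Finset.sum_congr rfl fun C₀ _ => Finset.sum_congr rfl fun C₁ _ => ?_
  simp only [one_mul, Finset.sum_comm (s := C₁.powerset)]

end Pool.Agent.Lib.MP_788af2_nt.AG
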