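import Pool.Agent.Lib.MP_788af2_nt.AS.Adapt
import Pool.Agent.Lib.MP_788af2_nt.AG.A2Def

/-!
Linear algebra over the field with two elements.
-/

set_option linter.unusedSectionVars false

namespace Pool.Agent.Lib.MP_788af2_nt.AG

open Pool.Agent.Lib.MP_788af2_nt.AS Matrix Pool.Agent.Lib.MP_a3f657_nt.Two

open scoped Classical

private lemma ad_sym_A2Lin {W : Type} [Fintype W] {A : Matrix W W (ZMod 2)} (h : Alt A)
    (u v : W → ZMod 2) : u ⬝ᵥ A *ᵥ v = v ⬝ᵥ A *ᵥ u := by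
  simp only [dotProduct, mulVec, Finset.mul_sum]
  rw [Finset.sum_comm]
  refine Finset.sum_congr rfl fun i _ => Finset.sum_congr rfl fun j _ => ?_
  rw [h.2 j i]
  ring

private lemma ad_self_A2Lin {W : Type} [Fintype W] {A : Matrix W W (ZMod 2)} (h : Alt A)
    (v : W → ZMod 2) : v ⬝ᵥ A *ᵥ v = 0 := by
  simp only [dotProduct, mulVec, Finset.mul_sum]
  rw [← Finset.sum_product']
  refine Finset.sum_involution (fun p _ => p.swap) (fun p _ => ?_) (fun p _ hp e => hp ?_)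
    (fun p _ => by simp) fun p _ => rfl
  · have e : v p.swap.1 * (A p.swap.1 p.swap.2 * v p.swap.2) = v p.1 * (A p.1 p.2 * v p.2) := by
      simp only [Prod.fst_swap, Prod.snd_swap]
      rw [h.2 p.2 p.1]
      ring
    rw [e, z2_add_self]
  · have e1 : p.2 = p.1 := congrArg Prod.fst e
    rw [e1, h.1, zero_mul, mul_zero]

/-- The pairing of a matrix. -/
private def adPair_A2Lin {W : Type} [Fintype W] (A : Matrix W W (ZMod 2)) :
    (W → ZMod 2) →+ (W → ZMod 2) →+ ZMod 2 :=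
  AddMonoidHom.mk' (fun u => AddMonoidHom.mk' (fun v => u ⬝ᵥ A *ᵥ v) fun v w => by
    rw [mulVec_add, dotProduct_add]) fun u u' => by
    ext v
    simp [add_dotProduct]

private lemma adPair_apply_A2Lin {W : Type} [Fintype W] (A : Matrix W W (ZMod 2)) (u v : W → ZMod 2) :
    adPair_A2Lin A u v = u ⬝ᵥ A *ᵥ v := rfl

/-- The radical of the form `A` on the subspace `K`. -/
private def adRad_A2Lin {W : Type} [Fintype W] (A : Matrix W W (ZMod 2))
    (K : Submodule (ZMod 2) (W → ZMod 2)) : Submodule (ZMod 2) (W → ZMod 2) where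
  carrier := {u | u ∈ K ∧ ∀ x ∈ K, u ⬝ᵥ A *ᵥ x = 0}
  zero_mem' := ⟨zero_mem _, fun _ _ => zero_dotProduct _⟩
  add_mem' ha hb := ⟨add_mem ha.1 hb.1, fun x hx => by
    rw [add_dotProduct, ha.2 x hx, hb.2 x hx, add_zero]⟩
  smul_mem' c u hu := ⟨K.smul_mem c hu.1, fun x hx => by
    rw [smul_dotProduct, hu.2 x hx, smul_zero]⟩

private lemma ad_parity_A2Lin {W : Type} [Fintype W] {A : Matrix W W (ZMod 2)} (h : Alt A)
    (K : Submodule (ZMod 2) (W → ZMod 2)) :
    ∃ i, Module.finrank (ZMod 2) K = Module.finrank (ZMod 2) (adRad_A2Lin A K) + 2 * i := by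
  obtain ⟨i, hi⟩ := card_alt (adPair_A2Lin A) (fun v => ad_self_A2Lin h v) K.toAddSubgroup
  refine ⟨i, ?_⟩
  have e1 : Nat.card K.toAddSubgroup = 2 ^ Module.finrank (ZMod 2) K := by
    have := Module.natCard_eq_pow_finrank (K := ZMod 2) (V := K)
    rwa [Nat.card_zmod] at this
  have e2 : Nat.card (rad (adPair_A2Lin A) K.toAddSubgroup) =
      2 ^ Module.finrank (ZMod 2) (adRad_A2Lin A K) := by
    have := Module.natCard_eq_pow_finrank (K := ZMod 2) (V := adRad_A2Lin A K)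
    rwa [Nat.card_zmod] at this
  rw [e1, e2, show (4 : ℕ) = 2 ^ 2 from rfl, ← pow_mul, ← pow_add] at hi
  exact Nat.pow_right_injective (le_refl 2) hi

private lemma ad_entry_A2Lin {W J : Type} [Fintype W] (A : Matrix W W (ZMod 2))
    (P : Matrix W J (ZMod 2)) (i j : J) :
    (Pᵀ * A * P) i j = (fun w => P w i) ⬝ᵥ A *ᵥ fun w => P w j := by
  rw [Matrix.mul_assoc]
  rfl

private lemma ad_span_A2Lin {W J : Type} [Fintype W] [Fintype J] {S : Submodule (ZMod 2) (W → ZMod 2)}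
    (b : Module.Basis J (ZMod 2) S) {z : W → ZMod 2} (h : ∀ j, (b j : W → ZMod 2) ⬝ᵥ z = 0) :
    ∀ y ∈ S, y ⬝ᵥ z = 0 := by
  intro y hy
  have e : y = ∑ j, b.repr ⟨y, hy⟩ j • (b j : W → ZMod 2) := by
    have := congrArg Subtype.val (b.sum_repr ⟨y, hy⟩)
    simp only [Submodule.coe_sum, Submodule.coe_smul] at this
    exact this.symm
  rw [e, sum_dotProduct]
  exact Finset.sum_eq_zero fun j _ => by rw [smul_dotProduct, h j, smul_zero]

theorem solve_mu {W J : Type} [Fintype W] [DecidableEq W] [Fintype J] [DecidableEq J] {V : Type}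
    [CommRing V] [CharP V 2] (om : W → W → V)
    (hne : ∀ u v : W → ZMod 2, u ≠ 0 → v ≠ 0 → u ≠ v →
      ∑ q, ∑ q', zc V (u q * v q') * om q q' ≠ 0)
    (P : Matrix W J (ZMod 2)) (hP : Function.Injective P.mulVec) (o : J) (v : J → ZMod 2)
    (hv : v o = 0) :
    ∃ μ : V →+ ZMod 2, ∀ i, (Pᵀ * (Matrix.of fun q q' => μ (om q q')) * P) i o = v i := by
  let _ : Algebra (ZMod 2) V := ZMod.algebra V 2
  have hs : ∀ (a : ZMod 2) (r : V), a • r = zc V a * r := fun a r => Algebra.smul_def a r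
  let f : (J → ZMod 2) →ₗ[ZMod 2] V :=
    { toFun := fun x => ∑ q, ∑ q', ((P *ᵥ x) q * P q' o) • om q q'
      map_add' := fun x y => by
        simp only [mulVec_add, Pi.add_apply, add_mul, add_smul, Finset.sum_add_distrib]
      map_smul' := fun a x => by
        simp only [mulVec_smul, Pi.smul_apply, smul_eq_mul, mul_assoc, mul_smul, Finset.smul_sum,
          RingHom.id_apply] }
  have hf : ∀ x, f x = ∑ q, ∑ q', ((P *ᵥ x) q * P q' o) • om q q' := fun _ => rfl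
  let g : Module.Dual (ZMod 2) (J → ZMod 2) :=
    { toFun := fun x => x ⬝ᵥ v
      map_add' := fun x y => add_dotProduct x y v
      map_smul' := fun a x => smul_dotProduct a x v }
  have hg : ∀ x, g x = x ⬝ᵥ v := fun _ => rfl
  have hcol : ∀ i q, (P *ᵥ Pi.single i 1) q = P q i := fun i q => by simp
  have hker : g ∈ (LinearMap.ker f).dualAnnihilator := by
    rw [Submodule.mem_dualAnnihilator]
    intro x hx
    rw [hg]
    by_cases h0 : x = 0
    · rw [h0, zero_dotProduct]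
    by_cases h1 : x = Pi.single o 1
    · rw [h1, single_dotProduct, hv, mul_zero]
    exfalso
    have h2 : (Pi.single o 1 : J → ZMod 2) ≠ 0 := fun e => by simpa using congrFun e o
    refine hne (P *ᵥ x) (P *ᵥ Pi.single o 1) (fun e => h0 (hP (e.trans (mulVec_zero P).symm)))
      (fun e => h2 (hP (e.trans (mulVec_zero P).symm))) (fun e => h1 (hP e)) ?_
    have h3 : f x = 0 := hx
    rw [hf] at h3
    simp only [hcol, ← hs]
    exact h3
  rw [← LinearMap.range_dualMap_eq_dualAnnihilator_ker] at hker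
  obtain ⟨μ, hμ⟩ := hker
  refine ⟨μ.toAddMonoidHom, fun i => ?_⟩
  have h4 : μ (f (Pi.single i 1)) = g (Pi.single i 1) := by rw [← hμ]; rfl
  rw [hg, single_dotProduct, one_mul, hf] at h4
  simp only [map_sum, map_smul, hcol, smul_eq_mul] at h4
  rw [← h4, Finset.sum_comm]
  simp only [Matrix.mul_apply, Matrix.transpose_apply, Matrix.of_apply, Finset.sum_mul,
    LinearMap.toAddMonoidHom_coe]
  exact Finset.sum_congr rfl fun q' _ => Finset.sum_congr rfl fun q _ => by ring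

theorem adapt2 {W : Type} [Fintype W] [DecidableEq W] {B0 Mt : Matrix W W (ZMod 2)} (h0 : Alt B0)
    (h1 : Alt Mt) (h : Small B0 Mt) :
    ∃ (r₀ r₁ r₂ : ℕ) (P : Matrix W ((Fin r₀ ⊕ Fin r₁) ⊕ Fin r₂) (ZMod 2)),
      r₀ + r₁ + r₂ = Fintype.card W ∧ Function.Injective P.mulVec ∧
      (∀ i j, (Pᵀ * B0 * P) (Sum.inl i) j = 0) ∧ (∀ i j, (Pᵀ * B0 * P) j (Sum.inl i) = 0) ∧
      (Matrix.of fun i j : Fin r₂ => (Pᵀ * B0 * P) (Sum.inr i) (Sum.inr j)).det ≠ 0 ∧
      (Even (Fintype.card W) → (Etop (Pᵀ * Mt * P) (Pᵀ * B0 * P)).det ≠ 0) ∧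
      (¬ Even (Fintype.card W) → ∃ o : Fin r₀ ⊕ Fin r₁,
        (∀ i, (Pᵀ * Mt * P) (Sum.inl i) (Sum.inl o) = 0) ∧
        ((Etop (Pᵀ * Mt * P) (Pᵀ * B0 * P)).updateRow (Sum.inl o)
          (Pi.single (Sum.inl o) 1)).det ≠ 0) := by
  obtain ⟨K, hK⟩ : ∃ K : Submodule (ZMod 2) (W → ZMod 2), ∀ x, x ∈ K ↔ B0 *ᵥ x = 0 :=
    ⟨LinearMap.ker B0.mulVecLin, fun _ => Iff.rfl⟩
  have hKr : adRad_A2Lin B0 ⊤ = K := by
    ext u
    rw [hK]
    refine ⟨fun hu => ?_, fun hu => ⟨trivial, fun x _ => ?_⟩⟩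
    · funext i
      have := hu.2 (Pi.single i 1) trivial
      rw [ad_sym_A2Lin h0] at this
      simpa using this
    · rw [ad_sym_A2Lin h0, hu, dotProduct_zero]
  obtain ⟨C, hC⟩ := (adRad_A2Lin Mt K).exists_isCompl
  obtain ⟨V2, hV2⟩ := K.exists_isCompl
  have hUK : adRad_A2Lin Mt K ≤ K := fun _ hu => hu.1
  have hsup : adRad_A2Lin Mt K ⊔ C ⊓ K = K := by
    rw [← sup_inf_assoc_of_le _ hUK, hC.sup_eq_top, top_inf_eq]
  have hinf : adRad_A2Lin Mt K ⊓ (C ⊓ K) = ⊥ := by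
    rw [← inf_assoc, hC.inf_eq_bot, bot_inf_eq]
  have d0 : Module.finrank (ZMod 2) (W → ZMod 2) = Fintype.card W :=
    Module.finrank_fintype_fun_eq_card _
  have d1 := Submodule.finrank_add_eq_of_isCompl hV2
  have d2 := Submodule.finrank_sup_add_finrank_inf_eq (adRad_A2Lin Mt K) (C ⊓ K)
  rw [hsup, hinf, finrank_bot] at d2
  obtain ⟨i1, d3⟩ := ad_parity_A2Lin h0 ⊤
  rw [hKr, finrank_top] at d3
  obtain ⟨i2, d4⟩ := ad_parity_A2Lin h1 K
  have d5 : Module.finrank (ZMod 2) (adRad_A2Lin Mt K) ≤ 1 := by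
    by_cases hz : ∃ u : adRad_A2Lin Mt K, u ≠ 0
    · obtain ⟨u, hu⟩ := hz
      refine finrank_le_one u fun w => ?_
      by_cases hw : w = 0
      · exact ⟨0, by rw [hw, zero_smul]⟩
      · refine ⟨1, ?_⟩
        rw [one_smul]
        exact Subtype.ext (h u w (fun e => hu (Subtype.ext e)) (fun e => hw (Subtype.ext e))
          ((hK _).1 u.2.1) ((hK _).1 w.2.1) (fun x hx => u.2.2 x ((hK _).2 hx))
          fun x hx => w.2.2 x ((hK _).2 hx))
    · refine finrank_le_one 0 fun w => ⟨0, ?_⟩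
      by_contra hw
      exact hz ⟨w, fun e => hw (by rw [e, zero_smul])⟩
  let b0 := Module.finBasis (ZMod 2) (adRad_A2Lin Mt K)
  let b1 := Module.finBasis (ZMod 2) (C ⊓ K : Submodule (ZMod 2) (W → ZMod 2))
  let b2 := Module.finBasis (ZMod 2) V2
  obtain ⟨P, hP0, hP1, hP2⟩ : ∃ P : Matrix W
      ((Fin (Module.finrank (ZMod 2) (adRad_A2Lin Mt K)) ⊕
        Fin (Module.finrank (ZMod 2) (C ⊓ K : Submodule (ZMod 2) (W → ZMod 2)))) ⊕
        Fin (Module.finrank (ZMod 2) V2)) (ZMod 2),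
      (∀ i, (fun w => P w (Sum.inl (Sum.inl i))) = (b0 i : W → ZMod 2)) ∧
      (∀ i, (fun w => P w (Sum.inl (Sum.inr i))) = (b1 i : W → ZMod 2)) ∧
      ∀ j, (fun w => P w (Sum.inr j)) = (b2 j : W → ZMod 2) :=
    ⟨Matrix.of fun w => Sum.elim (Sum.elim (fun i => (b0 i : W → ZMod 2) w)
      fun i => (b1 i : W → ZMod 2) w) fun j => (b2 j : W → ZMod 2) w,
      fun _ => rfl, fun _ => rfl, fun _ => rfl⟩
  have hPK : ∀ i, (fun w => P w (Sum.inl i)) ∈ K := by
    rintro (i | i)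
    · rw [hP0]; exact (b0 i).2.1
    · rw [hP1]; exact (b1 i).2.2
  have dec : ∀ c, P *ᵥ c = (↑(∑ i, c (Sum.inl (Sum.inl i)) • b0 i) : W → ZMod 2) +
      (↑(∑ i, c (Sum.inl (Sum.inr i)) • b1 i) : W → ZMod 2) +
      (↑(∑ j, c (Sum.inr j) • b2 j) : W → ZMod 2) := by
    intro c
    funext w
    simp only [mulVec, dotProduct, Fintype.sum_sum_type, Submodule.coe_sum, Submodule.coe_smul,
      Pi.add_apply, Finset.sum_apply, Pi.smul_apply, smul_eq_mul, ← hP0, ← hP1, ← hP2, mul_comm]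
  have row : ∀ (A : Matrix W W (ZMod 2)) c i,
      ∑ j, (Pᵀ * A * P) i j * c j = (fun w => P w i) ⬝ᵥ A *ᵥ (P *ᵥ c) := by
    intro A c i
    have e : ∑ j, (Pᵀ * A * P) i j * c j = ((Pᵀ * A * P) *ᵥ c) i := rfl
    rw [e, ← mulVec_mulVec, ← mulVec_mulVec]
    rfl
  have k12 : ∀ y ∈ K, ∀ x2 : V2, (∀ j, (b2 j : W → ZMod 2) ⬝ᵥ B0 *ᵥ (y + x2) = 0) → x2 = 0 := by
    intro x1 hx1 x2 r2
    have k1 : x1 + x2 ∈ K := by
      refine hKr.le ⟨trivial, fun y _ => ?_⟩
      obtain ⟨y1, hy1, y2, hy2, rfl⟩ := Submodule.mem_sup.1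
        (show y ∈ K ⊔ V2 by rw [hV2.sup_eq_top]; trivial)
      rw [mulVec_add, (hK _).1 hy1, zero_add, ad_sym_A2Lin h0]
      exact ad_span_A2Lin b2 r2 y2 hy2
    have : (x2 : W → ZMod 2) ∈ K ⊓ V2 := ⟨(Submodule.add_mem_iff_right K hx1).1 k1, x2.2⟩
    rw [hV2.inf_eq_bot] at this
    exact Subtype.ext this
  have fin : ∀ c : (Fin (Module.finrank (ZMod 2) (adRad_A2Lin Mt K)) ⊕
        Fin (Module.finrank (ZMod 2) (C ⊓ K : Submodule (ZMod 2) (W → ZMod 2)))) ⊕
        Fin (Module.finrank (ZMod 2) V2) → ZMod 2,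
      ∑ i, c (Sum.inl (Sum.inl i)) • b0 i = 0 → ∑ i, c (Sum.inl (Sum.inr i)) • b1 i = 0 →
      ∑ j, c (Sum.inr j) • b2 j = 0 → c = 0 := by
    intro c e0 e1 e2
    funext j
    rcases j with (i | i) | j
    · exact Fintype.linearIndependent_iff.1 b0.linearIndependent _ e0 i
    · exact Fintype.linearIndependent_iff.1 b1.linearIndependent _ e1 i
    · exact Fintype.linearIndependent_iff.1 b2.linearIndependent _ e2 j
  have core : ∀ c : (Fin (Module.finrank (ZMod 2) (adRad_A2Lin Mt K)) ⊕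
        Fin (Module.finrank (ZMod 2) (C ⊓ K : Submodule (ZMod 2) (W → ZMod 2)))) ⊕
        Fin (Module.finrank (ZMod 2) V2) → ZMod 2, (∀ i, c (Sum.inl (Sum.inl i)) = 0) →
      (∀ i, ∑ j, (Pᵀ * Mt * P) (Sum.inl (Sum.inr i)) j * c j = 0) →
      (∀ i, ∑ j, (Pᵀ * B0 * P) (Sum.inr i) j * c j = 0) → c = 0 := by
    intro c c0 r1 r2
    have e0 : ∑ i, c (Sum.inl (Sum.inl i)) • b0 i = 0 :=
      Finset.sum_eq_zero fun i _ => by rw [c0, zero_smul]
    simp only [row, hP1, hP2, dec c, e0, Submodule.coe_zero, zero_add] at r1 r2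
    have e2 := k12 _ (∑ i, c (Sum.inl (Sum.inr i)) • b1 i).2.2 _ r2
    rw [e2, Submodule.coe_zero, add_zero] at r1
    refine fin c e0 ?_ e2
    generalize ∑ i, c (Sum.inl (Sum.inr i)) • b1 i = x1 at r1 ⊢
    have : (x1 : W → ZMod 2) ∈ adRad_A2Lin Mt K ⊓ (C ⊓ K) := by
      refine ⟨⟨x1.2.2, fun y hy => ?_⟩, x1.2⟩
      obtain ⟨y1, hy1, y2, hy2, rfl⟩ := Submodule.mem_sup.1 (hsup.ge hy)
      rw [ad_sym_A2Lin h1, add_dotProduct, hy1.2 _ x1.2.2, zero_add]
      exact ad_span_A2Lin b1 r1 y2 hy2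
    rw [hinf] at this
    exact Subtype.ext this
  refine ⟨_, _, _, P, by omega, ?_, fun i j => ?_, fun i j => ?_, fun hd => ?_,
    fun hev hd => ?_, fun hodd => ?_⟩
  · refine (injective_iff_map_eq_zero P.mulVecLin).2 fun c hc => ?_
    have hc' : P *ᵥ c = 0 := hc
    rw [dec c] at hc'
    have e2 := k12 _ (K.add_mem (∑ i, c (Sum.inl (Sum.inl i)) • b0 i).2.1
      (∑ i, c (Sum.inl (Sum.inr i)) • b1 i).2.2) (∑ j, c (Sum.inr j) • b2 j)
      fun j => by rw [hc', mulVec_zero, dotProduct_zero]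
    rw [e2, Submodule.coe_zero, add_zero] at hc'
    have fc := fin c
    generalize ∑ i, c (Sum.inl (Sum.inl i)) • b0 i = x0 at hc' fc
    generalize ∑ i, c (Sum.inl (Sum.inr i)) • b1 i = x1 at hc' fc
    have : (x0 : W → ZMod 2) ∈ adRad_A2Lin Mt K ⊓ (C ⊓ K) := by
      refine ⟨x0.2, ?_⟩
      rw [eq_neg_of_add_eq_zero_left hc']
      exact Submodule.neg_mem _ x1.2
    rw [hinf] at this
    have e0 : x0 = 0 := Subtype.ext this
    rw [e0, Submodule.coe_zero, zero_add] at hc'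
    exact fc e0 (Subtype.ext hc') e2
  · rw [ad_entry_A2Lin, ad_sym_A2Lin h0, (hK _).1 (hPK i), dotProduct_zero]
  · rw [ad_entry_A2Lin, (hK _).1 (hPK i), dotProduct_zero]
  · obtain ⟨c, hc0, hc⟩ := Matrix.exists_mulVec_eq_zero_iff.2 hd
    have e2 := k12 0 K.zero_mem (∑ j, c j • b2 j) fun i => by
      have := congrFun hc i
      simp only [mulVec, dotProduct, Matrix.of_apply, ad_entry_A2Lin] at this
      rw [zero_add, Submodule.coe_sum, mulVec_sum, dotProduct_sum]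
      refine Eq.trans (Finset.sum_congr rfl fun j _ => ?_) this
      rw [Submodule.coe_smul, mulVec_smul, dotProduct_smul, smul_eq_mul, mul_comm,
        ← hP2, ← hP2]
      rfl
    exact hc0 (funext fun j => Fintype.linearIndependent_iff.1 b2.linearIndependent _ e2 j)
  · obtain ⟨c, hc0, hc⟩ := Matrix.exists_mulVec_eq_zero_iff.2 hd
    obtain ⟨m, hm⟩ := hev
    exact hc0 (core c (fun i => absurd i.2 (by omega))
      (fun i => congrFun hc (Sum.inl (Sum.inr i))) fun i => congrFun hc (Sum.inr i))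
  · rw [Nat.not_even_iff] at hodd
    have hr : Module.finrank (ZMod 2) (adRad_A2Lin Mt K) = 1 := by omega
    refine ⟨Sum.inl ⟨0, by omega⟩, fun i => ?_, fun hd => ?_⟩
    · rw [ad_entry_A2Lin, ad_sym_A2Lin h1, hP0]
      exact (b0 _).2.2 _ (hPK i)
    · obtain ⟨c, hc0, hc⟩ := Matrix.exists_mulVec_eq_zero_iff.2 hd
      refine hc0 (core c (fun i => ?_) (fun i => ?_) fun i => ?_)
      · have := congrFun hc (Sum.inl (Sum.inl ⟨0, by omega⟩))
        rw [mulVec, updateRow_self, single_dotProduct, one_mul] at this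
        have e : i = ⟨0, by omega⟩ := Fin.ext (by have := i.2; omega)
        rw [e]
        exact this
      · have := congrFun hc (Sum.inl (Sum.inr i))
        rw [mulVec, updateRow_ne (by simp)] at this
        exact this
      · have := congrFun hc (Sum.inr i)
        rw [mulVec, updateRow_ne (by simp)] at this
        exact this

end Pool.Agent.Lib.MP_788af2_nt.AG
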