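import Pool.Agent.Lib.MP_788af2_nt.AG.A2Top

/-!
The top coefficient does not vanish for a suitable second target.
-/

set_option linter.unusedSectionVars false

namespace Pool.Agent.Lib.MP_788af2_nt.AG

open Pool.Agent.Lib.MP_788af2_nt.AS Matrix Polynomial

variable {J₁ J₂ A : Type} [Fintype J₁] [DecidableEq J₁] [Fintype J₂] [DecidableEq J₂] [CommRing A]

/-- The pencil of two matrices. -/
noncomputable def pen {J : Type} (M₀ M₁ : Matrix J J (ZMod 2)) : Matrix J J (ZMod 2)[X] :=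
  Matrix.of fun i j => C (M₀ i j) + X * C (M₁ i j)

lemma pen_zero {J : Type} (M₀ M₁ : Matrix J J (ZMod 2)) :
    (pen M₀ M₁).map (evalRingHom 0) = M₀ := by
  ext i j
  simp [pen]

lemma z2_two : (2 : ZMod 2) = 0 := by decide

lemma z2_one {x : ZMod 2} (h : x ≠ 0) : x = 1 := by
  revert x
  decide

variable {Zb : Matrix (J₁ ⊕ J₂) (J₁ ⊕ J₂) ℤ} {o : J₁}

/-- The matrix with the row `o` replaced. -/
def Eo (Zb : Matrix (J₁ ⊕ J₂) (J₁ ⊕ J₂) ℤ) (M : Matrix (J₁ ⊕ J₂) (J₁ ⊕ J₂) A) (o : J₁) :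
    Matrix (J₁ ⊕ J₂) (J₁ ⊕ J₂) A := (Nh Zb M).updateRow (Sum.inl o) (Pi.single (Sum.inl o) 1)

lemma det_Eo (M : Matrix (J₁ ⊕ J₂) (J₁ ⊕ J₂) A) : (Eo Zb M o).det = kap Zb M o o :=
  (adjugate_apply _ _ _).symm

lemma map_Eo {A' : Type} [CommRing A'] (f : A →+* A') (M : Matrix (J₁ ⊕ J₂) (J₁ ⊕ J₂) A) :
    f.mapMatrix (Eo Zb M o) = Eo Zb (M.map f) o := by
  rw [Eo, Eo, ← map_Nh]
  ext i j
  simp only [RingHom.mapMatrix_apply, Matrix.map_apply, updateRow_apply, Pi.single_apply]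
  split_ifs <;> simp

lemma kap_col (M : Matrix (J₁ ⊕ J₂) (J₁ ⊕ J₂) A) (s : A) (w : J₁ ⊕ J₂ → A)
    (hcol : ∀ k, Eo Zb M o k (Sum.inl o) = (if k = Sum.inl o then 1 else 0) + s * w k) (i : J₁) :
    kap Zb M o i = (if i = o then kap Zb M o o else 0) +
      -s * ∑ k, (Eo Zb M o).adjugate (Sum.inl i) k * w k := by
  have h1 := congrFun (congrFun (adjugate_mul (Eo Zb M o)) (Sum.inl i)) (Sum.inl o)
  have h2 : (Eo Zb M o).adjugate (Sum.inl i) (Sum.inl o) = kap Zb M o i := by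
    rw [adjugate_apply, Eo, updateRow_idem, ← adjugate_apply, kap]
  rw [Matrix.mul_apply, Matrix.smul_apply, det_Eo, one_apply] at h1
  simp only [hcol, mul_add, Finset.sum_add_distrib, mul_ite, mul_one, mul_zero, Finset.sum_ite_eq',
    Finset.mem_univ, if_true, h2, smul_eq_mul, Sum.inl.injEq, mul_left_comm _ s,
    ← Finset.mul_sum] at h1
  linear_combination h1

variable {M₀ : Matrix (J₁ ⊕ J₂) (J₁ ⊕ J₂) (ZMod 2)}

lemma col_pen (hz : ∀ i j, Zb j (Sum.inl i) = 0) (h0 : ∀ i, M₀ (Sum.inl i) (Sum.inl o) = 0)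
    (M₁ : Matrix (J₁ ⊕ J₂) (J₁ ⊕ J₂) (ZMod 2)) (w : J₁ ⊕ J₂ → ZMod 2)
    (h1 : ∀ i, M₁ (Sum.inl i) (Sum.inl o) = w (Sum.inl i)) (ho : w (Sum.inl o) = 0)
    (h2 : ∀ j, w (Sum.inr j) = 0) (k : J₁ ⊕ J₂) : Eo Zb (pen M₀ M₁) o k (Sum.inl o) =
      (if k = Sum.inl o then 1 else 0) + X * C (w k) := by
  rcases k with k | k
  · by_cases hk : k = o
    · subst hk
      simp [Eo, ho]
    · simp [Eo, hk, updateRow_ne, Nh, Etop, pen, h0, h1]
  · simp [Eo, updateRow_ne, Nh, Etop, Nf_two Zb (two_poly z2_two), hz, h2]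

theorem non_ab (hz : ∀ i j, Zb j (Sum.inl i) = 0) (hZ : (A2Zm Zb M₀).det ≠ 0)
    (h0 : ∀ i, M₀ (Sum.inl i) (Sum.inl o) = 0) (hE : (Eo Zb M₀ o).det ≠ 0) (Q : J₁ → J₁ → ℤ)
    (y₀ : J₁ → ZMod 2) (hy : bf Q y₀ y₀ ≠ 0) : ∃ v : J₁ ⊕ J₂ → ZMod 2, v (Sum.inl o) = 0 ∧
      ∀ M₁ : Matrix (J₁ ⊕ J₂) (J₁ ⊕ J₂) (ZMod 2), (∀ k, M₁ k (Sum.inl o) = v k) →
        (A2Zm Zb (pen M₀ M₁)).det ^ 2 *
          bf Q (kap Zb (pen M₀ M₁) o) (kap Zb (pen M₀ M₁) o) ≠ 0 := by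
  by_contra hcon
  push Not at hcon
  have key : ∀ y : J₁ → ZMod 2, y o = 0 → (Q o o : ZMod 2) = 0 ∧
      ∑ i, ((Q o i + Q i o : ℤ) : ZMod 2) * y i = 0 ∧
      ((∀ i, ((Q o i + Q i o : ℤ) : ZMod 2) = 0) → bf Q y y = 0) := by
    intro y hyo
    have v0 : (Eo Zb M₀ o *ᵥ Sum.elim y 0) (Sum.inl o) = 0 := by
      simp [Eo, mulVec, hyo]
    have v2 : ∀ j, (Eo Zb M₀ o *ᵥ Sum.elim y 0) (Sum.inr j) = 0 := by
      intro j
      simp [Eo, mulVec, dotProduct, updateRow_ne, Nh, Etop, Nf_two Zb z2_two, hz]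
    obtain ⟨M₁, hM, hq⟩ := hcon _ v0
    have hk := kap_col (pen M₀ M₁) X _ (col_pen hz h0 M₁ _ (fun i => hM _) v0 v2)
    obtain ⟨τ, hτ⟩ : ∃ τ : J₁ → (ZMod 2)[X], τ = fun i => ∑ k,
      (Eo Zb (pen M₀ M₁) o).adjugate (Sum.inl i) k * C ((Eo Zb M₀ o *ᵥ Sum.elim y 0) k) := ⟨_, rfl⟩
    have e0 : ∀ i, evalRingHom 0 (τ i) = y i := by
      intro i
      have := congrFun (mulVec_mulVec (Sum.elim y 0) (Eo Zb M₀ o).adjugate (Eo Zb M₀ o)) (Sum.inl i)
      rw [adjugate_mul, z2_one hE, one_smul, one_mulVec] at this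
      simp only [hτ, map_sum, map_mul, map_adj, map_Eo, pen_zero]
      simp only [coe_evalRingHom, eval_C]
      exact this
    have e1 : evalRingHom 0 (kap Zb (pen M₀ M₁) o o) = 1 := by
      rw [map_kap, pen_zero, ← det_Eo, z2_one hE]
    have e2 : (A2Zm Zb (pen M₀ M₁)).det ≠ 0 := fun h => hZ (by
      rw [← pen_zero M₀ M₁, ← map_Zm, ← RingHom.map_det, h, map_zero])
    obtain ⟨h, hh⟩ : ∃ h, h = kap Zb (pen M₀ M₁) o o := ⟨_, rfl⟩
    rw [← hh] at hk e1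
    have e3 : kap Zb (pen M₀ M₁) o = fun i => (if i = o then h else 0) + -X * τ i := by
      rw [hτ]
      exact funext hk
    have e4 := (mul_eq_zero.1 hq).resolve_left (pow_ne_zero _ e2)
    rw [e3, bf_single] at e4
    have cz : ∀ n : ℤ, (n : ZMod 2) = 0 → (n : (ZMod 2)[X]) = 0 := fun n hn => by
      rw [← map_intCast (C : ZMod 2 →+* (ZMod 2)[X]), hn, map_zero]
    have r1 : (Q o o : ZMod 2) = 0 := by
      have := congrArg (evalRingHom 0) e4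
      simp only [map_add, map_mul, map_pow, map_neg, map_intCast, e1, map_zero] at this
      simpa using this
    rw [cz _ r1] at e4
    have e5 : -h * ∑ i, ((Q o i + Q i o : ℤ) : (ZMod 2)[X]) * τ i + X * bf Q τ τ = 0 :=
      (mul_eq_zero.1 (show X * _ = 0 by linear_combination e4)).resolve_left X_ne_zero
    refine ⟨r1, ?_, fun hb => ?_⟩
    · have := congrArg (evalRingHom 0) e5
      simp only [map_add, map_mul, map_neg, map_sum, map_intCast, e1, e0, map_zero] at this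
      simpa using this
    · simp only [fun i => cz _ (hb i), zero_mul, Finset.sum_const_zero, mul_zero, zero_add] at e5
      have := congrArg (evalRingHom 0) ((mul_eq_zero.1 e5).resolve_left X_ne_zero)
      rwa [map_bf, map_zero, funext e0] at this
  have hb : ∀ i, ((Q o i + Q i o : ℤ) : ZMod 2) = 0 := by
    intro i
    by_cases hi : i = o
    · subst hi
      rw [Int.cast_add, (key 0 rfl).1, add_zero]
    · have := (key (Pi.single i 1) (by simp [Ne.symm hi])).2.1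
      simpa only [Pi.single_apply, mul_ite, mul_one, mul_zero, Finset.sum_ite_eq', Finset.mem_univ,
        if_true] using this
  obtain ⟨k1, -, k3⟩ := key (Function.update y₀ o 0) (by simp)
  have e : y₀ = fun i => (if i = o then y₀ o else 0) + 1 * Function.update y₀ o 0 i := by
    funext i
    by_cases hi : i = o
    · simp [hi]
    · simp [hi]
  refine hy ?_
  rw [e, bf_single, k1, k3 hb]
  simp only [hb, zero_mul, Finset.sum_const_zero, mul_zero, add_zero]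

lemma bf_sym_two {ι : Type} [Fintype ι] (h2 : (2 : A) = 0) {Q : ι → ι → ℤ}
    (hQ : ∀ i j, Q i j = Q j i) (x : ι → A) : bf Q x x = (∑ i, (Q i i : A) * x i) ^ 2 := by
  obtain ⟨Q', U, h⟩ := halve (Q := fun i j => Q i j - Q i i * Q j j)
    (fun i => by simpa only [mul_sub, mul_one, ← neg_sub (Q i i * Q i i)] using
      (Int.even_mul_pred_self (Q i i)).neg)
    fun i j => ⟨Q i j - Q i i * Q j j, by rw [hQ j i]; ring⟩
  have h1 := bf_skew (A := A) h x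
  rw [Int.cast_ofNat, h2, zero_mul] at h1
  simp only [bf, Int.cast_sub, Int.cast_mul, sub_mul, Finset.sum_sub_distrib] at h1
  rw [sq, Finset.sum_mul_sum, bf, sub_eq_zero.1 h1]
  exact Finset.sum_congr rfl fun i _ => Finset.sum_congr rfl fun j _ => by ring

theorem non_c (hz : ∀ i j, Zb j (Sum.inl i) = 0) (hZ : (A2Zm Zb M₀).det ≠ 0)
    (h0 : ∀ i, M₀ (Sum.inl i) (Sum.inl o) = 0) (hE : (Eo Zb M₀ o).det ≠ 0) {Q : J₂ → J₂ → ℤ}
    (hQ : ∀ i j, Q i j = Q j i) {j₀ : J₂} (hj : (Q j₀ j₀ : ZMod 2) ≠ 0) :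
    ∃ v : J₁ ⊕ J₂ → ZMod 2, v (Sum.inl o) = 0 ∧
      ∀ M₁ : Matrix (J₁ ⊕ J₂) (J₁ ⊕ J₂) (ZMod 2), (∀ k, M₁ k (Sum.inl o) = v k) →
        bf Q (a2psi Zb (pen M₀ M₁) o) (a2psi Zb (pen M₀ M₁) o) ≠ 0 := by
  refine ⟨Sum.elim 0 fun j => A2Zm Zb M₀ j j₀, rfl, fun M₁ hM h => ?_⟩
  have hk := kap_col (pen M₀ M₁) X _ (col_pen hz h0 M₁ 0 (fun i => hM _) rfl fun _ => rfl)
  have e1 : evalRingHom 0 (kap Zb (pen M₀ M₁) o o) = 1 := by
    rw [map_kap, pen_zero, ← det_Eo, z2_one hE]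
  obtain ⟨a, ha⟩ : ∃ a, a = kap Zb (pen M₀ M₁) o o := ⟨_, rfl⟩
  rw [← ha] at hk e1
  simp only [Pi.zero_apply, map_zero, mul_zero, Finset.sum_const_zero, add_zero] at hk
  have e2 : ∀ j, a2psi Zb (pen M₀ M₁) o j = -a * (C (∑ j', (A2Zm Zb M₀).adjugate j j' *
      M₀ (Sum.inr j') (Sum.inl o)) + X * C (if j = j₀ then 1 else 0)) := by
    intro j
    have h1 := congrFun (congrFun (adjugate_mul (A2Zm Zb M₀)) j) j₀
    rw [z2_one hZ, one_smul, one_apply, Matrix.mul_apply] at h1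
    rw [a2psi, Zm_poly Zb (M := M₀) z2_two, ← h1]
    simp only [← map_adj, hk, mul_ite, mul_zero, Finset.sum_ite_eq', Finset.mem_univ, if_true]
    simp only [pen, of_apply, hM, Sum.elim_inr, map_sum, map_mul, Finset.mul_sum, ← Finset.sum_add_distrib,
      ← Finset.sum_neg_distrib]
    exact Finset.sum_congr rfl fun j' _ => by ring
  rw [bf_sym_two (two_poly z2_two) hQ] at h
  have e3 := pow_eq_zero_iff two_ne_zero |>.1 h
  have e4 : -a * (C (∑ j, (Q j j : ZMod 2) * ∑ j', (A2Zm Zb M₀).adjugate j j' *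
      M₀ (Sum.inr j') (Sum.inl o)) + X * C (Q j₀ j₀ : ZMod 2)) = 0 := by
    rw [← e3]
    simp only [e2, mul_left_comm _ (-a), ← Finset.mul_sum, mul_add (Q _ _ : (ZMod 2)[X]),
      Finset.sum_add_distrib]
    congr 2
    · simp only [map_sum, map_mul, map_intCast]
    · simp [apply_ite C, mul_comm]
  rcases mul_eq_zero.1 e4 with e5 | e5
  · rw [neg_eq_zero.1 e5, map_zero] at e1
    exact zero_ne_one e1
  · have := congrArg (fun p => p.coeff 1) e5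
    simp only [coeff_add, coeff_C_succ, coeff_X_mul, coeff_C_zero, zero_add, coeff_zero] at this
    exact hj this

end Pool.Agent.Lib.MP_788af2_nt.AG
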