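import Pool.Agent.Lib.MP_788af2_nt.AS.Target
import Pool.Agent.Lib.MP_788af2_nt.AG.A2Lin
import Pool.Agent.Lib.MP_788af2_nt.AG.A2Non

/-!
The choice of the second target and of the polynomial.
-/

set_option linter.unusedSectionVars false

namespace Pool.Agent.Lib.MP_788af2_nt.AG

open Pool.Agent.Lib.MP_788af2_nt.AS Matrix Polynomial

variable {J₁ J₂ : Type} [Fintype J₁] [DecidableEq J₁] [Fintype J₂] [DecidableEq J₂]

lemma halve_of_zero {ι : Type} [Fintype ι] [DecidableEq ι] {Q : ι → ι → ℤ}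
    (h : ∀ y : ι → ZMod 2, bf Q y y = 0) :
    ∃ Q' U : ι → ι → ℤ, ∀ i j, Q i j = 2 * Q' i j + U i j - U j i := by
  have ev : ∀ n : ℤ, (n : ZMod 2) = 0 → Even n := fun n hn =>
    even_iff_two_dvd.2 ((ZMod.intCast_zmod_eq_zero_iff_dvd n 2).1 hn)
  have h1 : ∀ i, (Q i i : ZMod 2) = 0 := fun i => by
    have := bf_single Q i (1 : ZMod 2) 0 0
    rw [h] at this
    simpa using this.symm
  refine halve (fun i => ev _ (h1 i)) fun i j => ev _ ?_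
  have := bf_single Q i (1 : ZMod 2) 1 (Pi.single j 1)
  rw [h, h, h1] at this
  simpa only [Pi.single_apply, mul_ite, mul_one, mul_zero, Finset.sum_ite_eq', Finset.mem_univ,
    if_true, zero_add, add_zero, one_mul] using this.symm

/-- The polynomial does not vanish modulo two, for every matrix with the given linear part. -/
def NonV (Zb : Matrix (J₁ ⊕ J₂) (J₁ ⊕ J₂) ℤ) (M : Matrix (J₁ ⊕ J₂) (J₁ ⊕ J₂) (ZMod 2)[X]) (o : J₁)
    (Gm : J₁ ⊕ J₂ → J₁ ⊕ J₂ → ℤ) (Q : J₁ → J₁ → ℤ) (c : ℤ) : Prop :=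
  ∀ (A : Type) [CommRing A] (φ : (ZMod 2)[X] →+* A), Function.Injective φ →
    ∀ Y : Matrix (J₁ ⊕ J₂) (J₁ ⊕ J₂) A[X], (∀ i j, Top 1 (Y i j) (φ (M i j))) →
      Fq Zb Y o Gm Q c ≠ 0

lemma two_of_hom {A : Type} [CommRing A] (φ : (ZMod 2)[X] →+* A) : (2 : A) = 0 := by
  rw [← map_ofNat φ 2, two_poly z2_two, map_zero]

theorem choose_target {Zb : Matrix (J₁ ⊕ J₂) (J₁ ⊕ J₂) ℤ} {o : J₁}
    {M₀ : Matrix (J₁ ⊕ J₂) (J₁ ⊕ J₂) (ZMod 2)} (hz : ∀ i j, Zb j (Sum.inl i) = 0)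
    (hZ : (A2Zm Zb M₀).det ≠ 0) (h0 : ∀ i, M₀ (Sum.inl i) (Sum.inl o) = 0)
    (hE : (Eo Zb M₀ o).det ≠ 0) {Gm : J₁ ⊕ J₂ → J₁ ⊕ J₂ → ℤ} (hG : ∀ i j, Gm i j = Gm j i)
    (hodd : ∃ k, (Gm k k : ZMod 2) ≠ 0) :
    ∃ (Q U : J₁ → J₁ → ℤ) (e : ℕ) (c : ℤ), e ≤ 2 ∧ 2 ^ e * c = 4 ∧
      (∀ i j, Gm (Sum.inl i) (Sum.inl j) = 2 ^ e * Q i j + U i j - U j i) ∧
      ∃ v : J₁ ⊕ J₂ → ZMod 2, v (Sum.inl o) = 0 ∧
        ∀ M₁ : Matrix (J₁ ⊕ J₂) (J₁ ⊕ J₂) (ZMod 2), (∀ k, M₁ k (Sum.inl o) = v k) →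
          NonV Zb (pen M₀ M₁) o Gm Q c := by
  have ab : ∀ (Q : J₁ → J₁ → ℤ) (c : ℤ) (y : J₁ → ZMod 2), bf Q y y ≠ 0 →
      ∃ v : J₁ ⊕ J₂ → ZMod 2, v (Sum.inl o) = 0 ∧
        ∀ M₁ : Matrix (J₁ ⊕ J₂) (J₁ ⊕ J₂) (ZMod 2), (∀ k, M₁ k (Sum.inl o) = v k) →
          NonV Zb (pen M₀ M₁) o Gm Q (2 * c) := by
    intro Q c y hy
    obtain ⟨v, hv, h⟩ := non_ab hz hZ h0 hE Q y hy
    refine ⟨v, hv, fun M₁ hM A _ φ hφ Y hY => top_ab Zb (M := (pen M₀ M₁).map φ) (two_of_hom φ) hY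
      o Gm Q c fun h1 => h M₁ hM (hφ ?_)⟩
    simp only [map_mul, map_pow, map_bf, RingHom.map_det, map_Zm, map_kap, map_zero]
    exact h1
  by_cases c0 : ∀ y : J₁ → ZMod 2, bf (fun i j => Gm (Sum.inl i) (Sum.inl j)) y y = 0
  swap
  · obtain ⟨y, hy⟩ := not_forall.1 c0
    exact ⟨_, 0, 0, 2 * 2, by omega, by norm_num, fun i j => by simp, ab _ 2 y hy⟩
  obtain ⟨Q₁, U₁, h1⟩ := halve_of_zero c0
  by_cases c1 : ∀ y : J₁ → ZMod 2, bf Q₁ y y = 0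
  swap
  · obtain ⟨y, hy⟩ := not_forall.1 c1
    exact ⟨Q₁, U₁, 1, 2 * 1, by omega, by norm_num, fun i j => by simpa using h1 i j, ab _ 1 y hy⟩
  obtain ⟨Q₂, U₂, h2⟩ := halve_of_zero c1
  refine ⟨Q₂, fun i j => 2 * U₂ i j + U₁ i j, 2, 1, le_rfl, by norm_num, fun i j => ?_, ?_⟩
  · have := h1 i j
    rw [h2 i j] at this
    linarith
  obtain ⟨k | j₀, hk⟩ := hodd
  · refine absurd ?_ hk
    rw [h1 k k]
    push_cast
    rw [z2_two]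
    ring
  obtain ⟨v, hv, h⟩ := non_c hz hZ h0 hE (Q := fun i j => Gm (Sum.inr i) (Sum.inr j))
    (fun i j => hG _ _) hk
  refine ⟨v, hv, fun M₁ hM A _ φ hφ Y hY => top_c Zb (M := (pen M₀ M₁).map φ) (two_of_hom φ) hY
    o Gm Q₂ fun h1 => h M₁ hM (hφ ?_)⟩
  simp only [map_bf, map_psi, map_zero]
  exact h1

lemma exists_odd_diag {W J : Type} [Fintype W] [DecidableEq W] [Fintype J] [DecidableEq J]
    (hc : Fintype.card J = Fintype.card W) {P : Matrix W J (ZMod 2)}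
    (hP : Function.Injective P.mulVec) {wt : W → ℤ} {v : W} (hv : Odd (wt v)) :
    ∃ k, ((∑ u, wt u * (((P u k).val : ℤ) * ((P u k).val : ℤ)) : ℤ) : ZMod 2) ≠ 0 := by
  by_contra h
  push Not at h
  have hs : Function.Surjective P.mulVec := ((Fintype.bijective_iff_injective_and_card _).2
    ⟨hP, by simp [hc]⟩).2
  obtain ⟨x, hx⟩ := hs (Pi.single v 1)
  have sq : ∀ a : ZMod 2, a * a = a := by decide
  have h1 : ∀ k, ∑ u, (wt u : ZMod 2) * P u k = 0 := fun k => by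
    simpa [sq] using h k
  have h2 : ∑ u, (wt u : ZMod 2) * (P *ᵥ x) u = 0 := by
    simp only [mulVec, dotProduct, Finset.mul_sum, ← mul_assoc]
    rw [Finset.sum_comm]
    simp only [← Finset.sum_mul, h1, zero_mul, Finset.sum_const_zero]
  rw [hx] at h2
  simp only [Pi.single_apply, mul_ite, mul_one, mul_zero, Finset.sum_ite_eq', Finset.mem_univ,
    if_true] at h2
  exact Int.not_even_iff_odd.2 hv (even_iff_two_dvd.2 ((ZMod.intCast_zmod_eq_zero_iff_dvd _ 2).1 h2))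

end Pool.Agent.Lib.MP_788af2_nt.AG
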