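import Pool.Agent.Lib.MP_788af2_nt.AG.Greedy2
import Pool.Agent.Lib.MP_788af2_nt.AG.A2AC
import Pool.Agent.Lib.MP_788af2_nt.AG.A2Key
import Pool.Agent.Lib.MP_788af2_nt.AG.A2Cube

/-!
Anti-concentration for skew matrices on the cube.
-/

set_option linter.unusedSectionVars false

namespace Pool.Agent.Lib.MP_788af2_nt.AG

open Pool.Agent.Lib.MP_788af2_nt.AS Matrix

open scoped Classical

private lemma cancel_A2Main {O : Type} [CommRing O] (h2 : ∀ x : O, 2 * x = 0 → x = 0) (a b : ℕ)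
    {y : O} (h : (2 : O) ^ (a + b) ∣ 2 ^ b * y) : (2 : O) ^ a ∣ y := by
  have hc : ∀ (n : ℕ) (x : O), 2 ^ n * x = 0 → x = 0 := by
    intro n
    induction n with
    | zero => intro x hx; simpa using hx
    | succ n ih => intro x hx; exact ih x (h2 _ (by rw [← hx]; ring))
  obtain ⟨z, hz⟩ := h
  exact ⟨z, sub_eq_zero.1 (hc b _ (by rw [mul_sub, hz]; ring))⟩

/-- The integer lift of a matrix over the field with two elements. -/
def a2lf {W J : Type} (A : Type) [CommRing A] (P : Matrix W J (ZMod 2)) : Matrix W J A :=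
  P.map fun x => (x.val : A)

lemma Nh_lf {J₁ J₂ : Type} [Fintype J₁] [DecidableEq J₁] [Fintype J₂] [DecidableEq J₂]
    (B M : Matrix (J₁ ⊕ J₂) (J₁ ⊕ J₂) (ZMod 2)) : Nh (a2lf ℤ B) M = Etop M B := by
  rw [Nh]
  congr 1
  ext i j
  simp [Nf_two _ z2_two, a2lf]

theorem exists_F {W : Type} [Fintype W] [DecidableEq W] {V : Type} [CommRing V] [CharP V 2]
    (om : W → W → V) (h0 : ∀ q, om q q = 0) (hs : ∀ q q', om q q' = om q' q)
    (hne : ∀ u v : W → ZMod 2, u ≠ 0 → v ≠ 0 → u ≠ v →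
      ∑ q, ∑ q', zc V (u q * v q') * om q q' ≠ 0) {B0 : Matrix W W (ZMod 2)} (hB : Alt B0)
    {wt : W → ℤ} (hwt : Nonempty W → ∃ v, Odd (wt v)) :
    ∃ (μ₀ μ₁ : V →+ ZMod 2) (r₀ r₁ r₂ : ℕ) (P : Matrix W ((Fin r₀ ⊕ Fin r₁) ⊕ Fin r₂) (ZMod 2)),
      ∀ (Λ : Type) [CommRing Λ] (Y : Matrix _ _ (MvPolynomial (Fin 2) Λ)),
      (∀ i j, (Y i j).totalDegree ≤ 1) →
      ∀ (A : Type) [CommRing A] (φ : Polynomial (ZMod 2) →+* A), Function.Injective φ →
      ∀ Ψ : MvPolynomial (Fin 2) Λ →+* Polynomial A,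
      (∀ i j, Top 1 (Ψ (Y i j)) (φ (pen (Pᵀ * (Matrix.of fun q q' => μ₀ (om q q')) * P)
        (Pᵀ * (Matrix.of fun q q' => μ₁ (om q q')) * P) i j))) →
      ∃ F : MvPolynomial (Fin 2) Λ, F.totalDegree ≤ 4 * Fintype.card W + 2 ∧ Ψ F ≠ 0 ∧
        ∀ (O : Type) [CommRing O], (∀ x : O, 2 * x = 0 → x = 0) →
        ∀ (ev : MvPolynomial (Fin 2) Λ →+* O) (M : Matrix W W O), Mᵀ = -M →
          (a2lf O P)ᵀ * M * a2lf O P = Nf (a2lf ℤ (Pᵀ * B0 * P)) (Y.map ev) →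
          ∃ b ≤ 2 * Fintype.card W + 2, Dl wt M ∣ 2 ^ b * ev F := by
  obtain ⟨μ₀, hμ₀⟩ := target om h0 hs hne B0
  obtain ⟨r₀, r₁, r₂, P, hc, hP, hz, hz', hZ, hev, hod⟩ := adapt2 hB
    (Mt := Matrix.of fun q q' => μ₀ (om q q'))
    ⟨fun i => by simp [h0], fun i j => by simp [hs i j]⟩ hμ₀
  have hc' : Fintype.card ((Fin r₀ ⊕ Fin r₁) ⊕ Fin r₂) = Fintype.card W := by simpa using hc
  have hc1 : Fintype.card (Fin r₀ ⊕ Fin r₁) ≤ Fintype.card W := by
    simp only [Fintype.card_sum, Fintype.card_fin]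
    omega
  have gz : ∀ i j, a2lf ℤ (Pᵀ * B0 * P) (Sum.inl i) j = 0 := fun i j => by simp [a2lf, hz]
  have gz' : ∀ i j, a2lf ℤ (Pᵀ * B0 * P) j (Sum.inl i) = 0 := fun i j => by simp [a2lf, hz']
  by_cases hpar : Even (Fintype.card W)
  · refine ⟨μ₀, 0, r₀, r₁, r₂, P, fun Λ _ Y hY A _ φ hφ Ψ hΨ =>
      ⟨(Nh (a2lf ℤ (Pᵀ * B0 * P)) Y).det, (td_det _ (td_Nh _ hY)).trans (by omega), fun h => ?_,
        fun O _ h2 ev M _ hM => ⟨Fintype.card (Fin r₀ ⊕ Fin r₁), by omega, ?_⟩⟩⟩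
    · have h1 := top_even (a2lf ℤ (Pᵀ * B0 * P)) (Y := Y.map Ψ) (M := (pen _ _).map φ)
        (two_of_hom φ) hΨ
      rw [RingHom.map_det, map_Nh] at h
      rw [h, ← map_Nh, ← RingHom.map_det] at h1
      have h3 := congrArg (Polynomial.evalRingHom 0)
        (hφ ((h1.2.symm.trans (Polynomial.coeff_zero _)).trans (map_zero φ).symm))
      rw [RingHom.map_det, map_Nh, pen_zero, Nh_lf, map_zero] at h3
      exact hev hpar h3
    · obtain ⟨p, h1, -⟩ := link hc' (a2lf O P) M fun v => (wt v : O)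
      rw [RingHom.map_det, map_Nh, ← det_Nf _ gz, ← hM, h1, Dl, if_pos hpar]
      exact dvd_mul_left _ _
  obtain ⟨o, ho, hE⟩ := hod hpar
  have hW : Nonempty W := Fintype.card_pos_iff.1 (Nat.not_even_iff_odd.1 hpar).pos
  obtain ⟨v, hv⟩ := hwt hW
  obtain ⟨Q, U, e, c, he, hec, hQ, t, ht, hN⟩ := choose_target (Zb := a2lf ℤ (Pᵀ * B0 * P)) (o := o)
    (M₀ := Pᵀ * (Matrix.of fun q q' => μ₀ (om q q')) * P)
    (Gm := fun i j => ∑ u, wt u * (((P u i).val : ℤ) * ((P u j).val : ℤ))) gz'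
    (by
      convert hZ using 2
      ext i j
      simp [A2Zm, Nf_two _ z2_two, a2lf])
    ho (by rwa [Eo, Nh_lf]) (fun i j => by simp only [mul_comm ((P _ i).val : ℤ)])
    (exists_odd_diag hc' hP hv)
  obtain ⟨μ₁, hμ₁⟩ := solve_mu om hne P hP (Sum.inl o) t ht
  refine ⟨μ₀, μ₁, r₀, r₁, r₂, P, fun Λ _ Y hY A _ φ hφ Ψ hΨ =>
    ⟨Fq (a2lf ℤ (Pᵀ * B0 * P)) Y o
      (fun i j => ∑ u, wt u * (((P u i).val : ℤ) * ((P u j).val : ℤ))) Q c, (td_Fq _ hY o _ Q c).trans (by omega), ?_,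
      fun O _ h2 ev M hsk hM => ⟨(Fintype.card (Fin r₀ ⊕ Fin r₁) - 1) * 2 + e, by omega, ?_⟩⟩⟩
  · rw [map_Fq]
    exact hN _ hμ₁ A φ hφ _ hΨ
  · obtain ⟨p, -, h1⟩ := link hc' (a2lf O P) M fun v => (wt v : O)
    have h3 := point_odd (Y.map ev) o h2 gz gz' (by
      rw [← hM, transpose_mul, transpose_mul, transpose_transpose, hsk, Matrix.neg_mul,
        Matrix.mul_neg, Matrix.mul_assoc]) (by rwa [hc'])
      (Gm := fun i j => ∑ u, wt u * (((P u i).val : ℤ) * ((P u j).val : ℤ)))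
      (fun i j => by simp only [mul_comm ((P _ i).val : ℤ)]) hQ hec
    rw [map_Fq, pow_add, pow_mul, Dl, if_neg hpar]
    push_cast at h3
    rw [← h3, ← hM]
    exact Dvd.dvd.mul_left ⟨p, h1.trans (mul_comm _ _)⟩ _

/-- A polynomial of degree one. -/
noncomputable def lin {Λ : Type} [CommRing Λ] (a : Λ) (x y : ZMod 2) : MvPolynomial (Fin 2) Λ :=
  MvPolynomial.C a + ((x.val : ℤ) : MvPolynomial (Fin 2) Λ) * MvPolynomial.X 0 +
    ((y.val : ℤ) : MvPolynomial (Fin 2) Λ) * MvPolynomial.X 1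

lemma td_X {Λ : Type} [CommRing Λ] (i : Fin 2) :
    (MvPolynomial.X i : MvPolynomial (Fin 2) Λ).totalDegree ≤ 1 :=
  (MvPolynomial.totalDegree_monomial_le _ _).trans (by simp)

lemma td_lin {Λ : Type} [CommRing Λ] (a : Λ) (x y : ZMod 2) : (lin a x y).totalDegree ≤ 1 :=
  td_add (td_add (by simp) (td_mul (td_int _) (td_X 0))) (td_mul (td_int _) (td_X 1))

/-- The reduction, with the two variables sent to `T` and `s T`. -/
noncomputable def red {Λ k : Type} [CommRing Λ] [CommRing k] (f : Λ →+* k) :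
    MvPolynomial (Fin 2) Λ →+* Polynomial (Polynomial k) :=
  MvPolynomial.eval₂Hom (Polynomial.C.comp (Polynomial.C.comp f))
    ![Polynomial.X, Polynomial.C Polynomial.X * Polynomial.X]

lemma top_lin {Λ k : Type} [CommRing Λ] [CommRing k] [CharP k 2] (f : Λ →+* k) (a : Λ)
    (x y : ZMod 2) : Top 1 (red f (lin a x y)) (Polynomial.mapRingHom (zc k)
      (Polynomial.C x + Polynomial.X * Polynomial.C y)) := by
  have e : ∀ x : ZMod 2, ((x.val : ℤ) : Polynomial (Polynomial k)) =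
      Polynomial.C (Polynomial.C (zc k x)) := fun x => by
    rw [← map_intCast (Polynomial.C.comp (Polynomial.C.comp (zc k)))]
    simp
  have e1 : red f (lin a x y) = Polynomial.C (Polynomial.mapRingHom (zc k)
      (Polynomial.C x + Polynomial.X * Polynomial.C y)) * Polynomial.X +
      Polynomial.C (Polynomial.C (f a)) := by
    simp only [red, lin, map_add, map_mul, map_intCast, MvPolynomial.eval₂Hom_C,
      MvPolynomial.eval₂Hom_X', e, RingHom.comp_apply, cons_val_zero, cons_val_one,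
      Polynomial.coe_mapRingHom, Polynomial.map_C, Polynomial.map_X]
    ring
  rw [e1]
  exact ⟨Polynomial.natDegree_linear_le, by simp only [Polynomial.coeff_add,
    Polynomial.coeff_C_mul, Polynomial.coeff_X_one, mul_one, Polynomial.coeff_C_succ, add_zero]⟩

theorem alg2sk (w : ℕ) (η : ℝ) (hη : 0 < η) : ∃ R J : ℕ, ∀ (I : Type) [Fintype I] [DecidableEq I]
    (W : Type) [Fintype W] [DecidableEq W], Fintype.card W ≤ w →
    ∀ (O : Type) [CommRing O], (∀ x : O, 2 * x = 0 → x = 0) → ¬ (2 : O) ∣ 1 →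
    ∀ (V : Type) [CommRing V] [CharP V 2] (om : W → W → V), (∀ q, om q q = 0) →
    (∀ q q', om q q' = om q' q) →
    (∀ u v : W → ZMod 2, u ≠ 0 → v ≠ 0 → u ≠ v → ∑ q, ∑ q', zc V (u q * v q') * om q q' ≠ 0) →
    ∀ Bm : G I → Matrix W W (ZMod 2), Alt (∑ g, Bm g) →
    (∀ μ : Fin R → V →+ ZMod 2, ∃ ξ : Fin R → G I,
      Pat2 Bm (fun l => Matrix.of fun q q' => μ l (om q q')) ξ) →
    ∀ A : G I → Matrix W W O, (∀ g i j, (2 : O) ∣ A g i j - ((Bm g i j).val : O)) →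
    (∀ g, (A g)ᵀ = -A g) →
    ∀ wt : W → ℤ, (Nonempty W → ∃ v, Odd (wt v)) →
    ((Finset.univ.filter fun ξ : G I => (2 : O) ^ J ∣ Dl wt (∑ g, sg (ξ ⬝ᵥ g) • A g)).card : ℝ) ≤
      η * Fintype.card (G I) := by
  obtain ⟨R₀, R₁, J, hac⟩ := ac2 (4 * w + 2) η hη
  refine ⟨R₀ + R₁, J + (2 * w + 2), fun I _ _ W _ _ hw O _ h2 h1 V _ _ om h0 hs hne Bm hB hμ A hA
    hsk wt hwt => ?_⟩
  obtain ⟨μ₀, μ₁, r₀, r₁, r₂, P, hF⟩ := exists_F om h0 hs hne hB hwt
  obtain ⟨ξ, hξ₁, hξ₂⟩ := hμ fun l => Sum.elim (fun _ => μ₀) (fun _ => μ₁) (finSumFinEquiv.symm l)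
  obtain ⟨m, hm, hm2⟩ := Ideal.exists_le_maximal (Ideal.span {(2 : O)})
    fun h => h1 (Ideal.mem_span_singleton.1 (h ▸ Submodule.mem_top))
  have hk : ∀ x : O, 2 ∣ x → Ideal.Quotient.mk m x = 0 := fun x hx =>
    Ideal.Quotient.eq_zero_iff_mem.2 (hm2 (Ideal.mem_span_singleton.2 hx))
  have : Nontrivial (O ⧸ m) := Ideal.Quotient.nontrivial_iff.2 hm.ne_top
  have : CharP (O ⧸ m) 2 := (CharP.charP_iff_prime_eq_zero Nat.prime_two).2
    (by simpa only [map_ofNat, Nat.cast_ofNat] using hk 2 dvd_rfl)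
  have key := count_cube (fun ξ₀ : G I => (2 : O) ^ (J + (2 * w + 2)) ∣
      Dl wt (∑ g, sg (ξ₀ ⬝ᵥ g) • A g))
    (fun C : Finset (Fin R₀ ⊕ Fin R₁) => ∑ l ∈ C, ξ (finSumFinEquiv l)) (η * 2 ^ (R₀ + R₁))
    fun ξ₀ => by
      obtain ⟨Λ, hΛ⟩ := cube_exp Bm A hA P (Matrix.of fun q q' => μ₀ (om q q'))
        (Matrix.of fun q q' => μ₁ (om q q')) (fun l => ξ (finSumFinEquiv l))
        (fun l => by simpa using hξ₁ (finSumFinEquiv (Sum.inl l)))
        (fun l => by simpa using hξ₁ (finSumFinEquiv (Sum.inr l)))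
        (fun S hS => by
          simpa using hξ₂ (S.map finSumFinEquiv.toEmbedding) (by simpa using hS)) ξ₀
      obtain ⟨F, hd, hΨ, hev⟩ := hF (LamO O (Fin R₀ ⊕ Fin R₁)) (Matrix.of fun i j =>
          lin (Λ i j) ((Pᵀ * (Matrix.of fun q q' => μ₀ (om q q')) * P) i j)
            ((Pᵀ * (Matrix.of fun q q' => μ₁ (om q q')) * P) i j))
        (fun i j => td_lin _ _ _)
        (Polynomial (O ⧸ m)) (Polynomial.mapRingHom (zc (O ⧸ m)))
        (Polynomial.map_injective _ (zc (O ⧸ m)).injective)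
        (red ((Ideal.Quotient.mk m).comp (evL ∅)))
        (fun i j => top_lin _ _ _ _)
      refine le_trans ?_ (hac O h2 F (hd.trans (by omega)) ?_)
      · refine Nat.cast_le.2 (Finset.card_le_card fun C hC => ?_)
        simp only [Finset.mem_filter, Finset.mem_univ, true_and] at hC ⊢
        obtain ⟨b, hb, h3⟩ := hev O h2 (evC C)
          (∑ g, sg ((ξ₀ + ∑ l ∈ C, ξ (finSumFinEquiv l)) ⬝ᵥ g) • A g)
          (by simp only [transpose_sum, transpose_smul, hsk, smul_neg, Finset.sum_neg_distrib])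
          (by
            ext i j
            refine (hΛ C i j).trans ?_
            simp only [Nf, a2lf, evC, lin, of_apply, map_apply, map_add, map_mul, map_natCast,
              MvPolynomial.eval₂Hom_C, MvPolynomial.eval₂Hom_X', cons_val_zero, cons_val_one,
              Int.cast_natCast])
        exact cancel_A2Main h2 J b ((pow_dvd_pow 2 (by omega)).trans (hC.trans h3))
      · by_contra hcon
        push Not at hcon
        refine hΨ ?_
        rw [red, MvPolynomial.coe_eval₂Hom, MvPolynomial.eval₂_eq]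
        exact Finset.sum_eq_zero fun d _ => by simp [hk _ (hcon d)]
  rw [Fintype.card_finset, Fintype.card_sum, Fintype.card_fin, Fintype.card_fin, Nat.cast_pow,
    Nat.cast_ofNat, ← mul_assoc, mul_comm _ η] at key
  exact le_of_mul_le_mul_right key (by positivity)

end Pool.Agent.Lib.MP_788af2_nt.AG
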