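import Pool.Agent.Lib.MP_788af2_nt.AS.Ramsey
import Pool.Agent.Lib.MP_788af2_nt.AG.A2Def

/-!
Reduction to symmetric coefficient families by the Ramsey theorem.
-/

set_option linter.unusedSectionVars false

namespace Pool.Agent.Lib.MP_788af2_nt.AG

open Pool.Agent.Lib.MP_788af2_nt.AS Matrix

open scoped Classical

private theorem ac_pow_A2Sym {α M : Type} [DecidableEq α] [AddCommMonoid M] (A G : Finset α)
    (h : Disjoint A G) : ∀ f : Finset α → M, ∑ S ∈ (A ∪ G).powerset, f S =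
      ∑ S ∈ A.powerset, ∑ T ∈ G.powerset, f (S ∪ T) := by
  induction G using Finset.induction_on with
  | empty => intro f; simp
  | insert a G ha ih =>
    intro f
    rw [Finset.disjoint_insert_right] at h
    have h1 : a ∉ A ∪ G := by simp [ha, h.1]
    rw [Finset.union_insert, Finset.sum_powerset_insert h1, ih h.2, ih h.2,
      ← Finset.sum_add_distrib]
    refine Finset.sum_congr rfl fun S _ => ?_
    rw [Finset.sum_powerset_insert ha]
    simp only [Finset.union_insert]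

/-- The bound for all coefficient families that are symmetric at level `i` on `N` points. -/
private def Claim_A2Sym {𝔸 : Type} [AddCommGroup 𝔸] (Fl : ℕ → AddSubgroup 𝔸) (St : 𝔸 → Prop)
    (f : 𝔸 → ℕ → ℝ) (η : ℝ) (i N : ℕ) : Prop :=
  ∀ (α : Type) [DecidableEq α] (B : Finset α), B.card = N →
    ∀ (c : Finset α → 𝔸) (N₀ : ℕ), (∀ S, c S ∈ Fl S.card) →
    (∀ S ⊆ B, ∀ S' ⊆ B, S.card = S'.card → c S - c S' ∈ Fl (S.card + i)) → St (c ∅) →
      ∑ C ∈ B.powerset, f (∑ S ∈ C.powerset, c S) (N₀ + C.card) ≤ η * 2 ^ N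

private theorem step_A2Sym (𝔸 : Type) [AddCommGroup 𝔸] [Finite 𝔸] (J N' : ℕ) : ∃ N : ℕ,
    ∀ Fl : ℕ → AddSubgroup 𝔸, Antitone Fl → Fl J = ⊥ →
    ∀ St : 𝔸 → Prop, (∀ a b, St a → b ∈ Fl 1 → St (a + b)) → ∀ (f : 𝔸 → ℕ → ℝ) (η : ℝ)
    (i i' : ℕ), i' ≤ i + 1 → Claim_A2Sym Fl St f η i' N' → Claim_A2Sym Fl St f η i N := by
  obtain ⟨N, hN⟩ := ramsey 𝔸 J N'
  refine ⟨N, fun Fl hF hJ St hS f η i i' hi h α _ B hB c N₀ h1 h2 h3 => ?_⟩
  obtain ⟨B', hB', hc, hcol⟩ := hN α B c hB.ge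
  have z : ∀ S : Finset α, J ≤ S.card → c S = 0 := fun S hS =>
    AddSubgroup.mem_bot.1 (hJ ▸ hF hS (h1 S))
  have key : ∀ γ ∈ (B \ B').powerset, ∑ C ∈ B'.powerset,
      f (∑ S ∈ (γ ∪ C).powerset, c S) (N₀ + (γ ∪ C).card) ≤ η * 2 ^ N' := by
    intro γ hγ
    have hγ' := Finset.mem_powerset.1 hγ
    refine le_trans (le_of_eq (Finset.sum_congr rfl fun C hC => ?_))
      (h α B' hc (fun S => ∑ T ∈ γ.powerset, c (S ∪ T)) (N₀ + γ.card)
        (fun S => sum_mem fun T _ => hF (Finset.card_le_card Finset.subset_union_left) (h1 _)) ?_ ?_)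
    · have hd : Disjoint C γ := Finset.disjoint_of_subset_left (Finset.mem_powerset.1 hC)
        (Finset.disjoint_of_subset_right hγ' Finset.disjoint_sdiff)
      rw [Finset.card_union_of_disjoint hd.symm, Finset.union_comm, ac_pow_A2Sym _ _ hd, add_assoc]
    · intro S hS S' hS' he
      rw [← Finset.sum_sub_distrib]
      refine sum_mem fun T hT => ?_
      have hT' := (Finset.mem_powerset.1 hT).trans hγ'
      rcases T.eq_empty_or_nonempty with rfl | hne
      · rw [Finset.union_empty, Finset.union_empty]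
        by_cases hl : S.card ≤ J
        · rw [hcol S hS S' hS' he hl, sub_self]
          exact zero_mem _
        · rw [z S (by omega), z S' (by omega), sub_self]
          exact zero_mem _
      · have hd : ∀ S ⊆ B', (S ∪ T).card = S.card + T.card := fun S hS =>
          Finset.card_union_of_disjoint (Finset.disjoint_of_subset_left hS
            (Finset.disjoint_of_subset_right hT' Finset.disjoint_sdiff))
        have hs : ∀ S ⊆ B', S ∪ T ⊆ B := fun S hS =>
          Finset.union_subset (hS.trans hB') (hT'.trans Finset.sdiff_subset)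
        have h4 := h2 _ (hs S hS) _ (hs S' hS') (by rw [hd S hS, hd S' hS', he])
        rw [hd S hS] at h4
        have h5 := hne.card_pos
        exact hF (by omega) h4
    · simp only [Finset.empty_union]
      rw [← Finset.add_sum_erase _ _ (Finset.empty_mem_powerset γ)]
      exact hS _ _ h3 (sum_mem fun T hT =>
        hF (Finset.nonempty_iff_ne_empty.2 (Finset.ne_of_mem_erase hT)).card_pos (h1 T))
  have e := ac_pow_A2Sym (B \ B') B' Finset.sdiff_disjoint
    fun C => f (∑ S ∈ C.powerset, c S) (N₀ + C.card)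
  rw [Finset.sdiff_union_of_subset hB'] at e
  rw [e]
  refine (Finset.sum_le_card_nsmul _ _ _ key).trans (le_of_eq ?_)
  rw [Finset.card_powerset, nsmul_eq_mul, ← hB, ← Finset.card_sdiff_add_card_eq_card hB', hc,
    pow_add]
  push_cast
  ring

theorem symm_red (𝔸 : Type) [AddCommGroup 𝔸] [Finite 𝔸] (J ρ : ℕ) : ∃ N : ℕ,
    ∀ Fl : ℕ → AddSubgroup 𝔸, Antitone Fl → Fl J = ⊥ →
    ∀ St : 𝔸 → Prop, (∀ a b, St a → b ∈ Fl 1 → St (a + b)) → ∀ (f : 𝔸 → ℕ → ℝ) (η : ℝ),
    (∀ (a : ℕ → 𝔸) (N₀ : ℕ), (∀ m, a m ∈ Fl m) → St (a 0) →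
      ∑ n ∈ Finset.range (ρ + 1), (ρ.choose n : ℝ) *
        f (∑ m ∈ Finset.range (ρ + 1), n.choose m • a m) (N₀ + n) ≤ η * 2 ^ ρ) →
    ∀ (α : Type) [DecidableEq α] (B : Finset α), B.card = N →
    ∀ (c : Finset α → 𝔸) (N₀ : ℕ), (∀ S, c S ∈ Fl S.card) → St (c ∅) →
      ∑ C ∈ B.powerset, f (∑ S ∈ C.powerset, c S) (N₀ + C.card) ≤ η * 2 ^ N := by
  have key : ∀ k, ∃ N : ℕ, ∀ Fl : ℕ → AddSubgroup 𝔸, Antitone Fl → Fl J = ⊥ →
      ∀ St : 𝔸 → Prop, (∀ a b, St a → b ∈ Fl 1 → St (a + b)) → ∀ (f : 𝔸 → ℕ → ℝ) (η : ℝ),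
      (∀ (a : ℕ → 𝔸) (N₀ : ℕ), (∀ m, a m ∈ Fl m) → St (a 0) →
        ∑ n ∈ Finset.range (ρ + 1), (ρ.choose n : ℝ) *
          f (∑ m ∈ Finset.range (ρ + 1), n.choose m • a m) (N₀ + n) ≤ η * 2 ^ ρ) →
      Claim_A2Sym Fl St f η (J - k) N := by
    intro k
    induction k with
    | zero =>
      refine ⟨ρ, fun Fl hF hJ St _ f η h0 α _ B hB c N₀ h1 h2 h3 => ?_⟩
      have hT : ∀ m, ∃ T : Finset α, m ≤ ρ → T ⊆ B ∧ T.card = m := fun m => by
        by_cases hm : m ≤ ρ
        · obtain ⟨T, hT⟩ := Finset.exists_subset_card_eq (hm.trans hB.ge)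
          exact ⟨T, fun _ => hT⟩
        · exact ⟨∅, fun h => absurd h hm⟩
      choose T hT using hT
      have ha : ∀ S ⊆ B, c S = if S.card ≤ ρ then c (T S.card) else 0 := fun S hS => by
        have hl : S.card ≤ ρ := hB ▸ Finset.card_le_card hS
        rw [if_pos hl, ← sub_eq_zero, ← AddSubgroup.mem_bot, ← hJ]
        exact hF (by omega) (h2 S hS _ (hT _ hl).1 (hT _ hl).2.symm)
      refine le_trans (le_of_eq ?_) (h0 (fun m => if m ≤ ρ then c (T m) else 0) N₀ (fun m => ?_) ?_)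
      · rw [Finset.sum_congr rfl (g := fun C => (fun n => f (∑ m ∈ Finset.range (ρ + 1),
          n.choose m • if m ≤ ρ then c (T m) else 0) (N₀ + n)) C.card) fun C hC => ?_,
          Finset.sum_powerset_apply_card (fun n => f (∑ m ∈ Finset.range (ρ + 1),
            n.choose m • if m ≤ ρ then c (T m) else 0) (N₀ + n)), hB]
        · simp only [nsmul_eq_mul]
        have hC' := Finset.mem_powerset.1 hC
        rw [Finset.sum_congr rfl fun S hS => ha S ((Finset.mem_powerset.1 hS).trans hC'),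
          Finset.sum_powerset_apply_card fun m => if m ≤ ρ then c (T m) else 0,
          Finset.sum_subset (Finset.range_subset_range.2
            (Nat.succ_le_succ (hB ▸ Finset.card_le_card hC' : C.card ≤ ρ))) fun m _ hm => by
            rw [Nat.choose_eq_zero_of_lt (by simpa using hm), zero_smul]]
      · split_ifs with hm
        · have := h1 (T m)
          rwa [(hT m hm).2] at this
        · exact zero_mem _
      · have := ha ∅ (Finset.empty_subset _)
        rw [Finset.card_empty] at this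
        exact this ▸ h3
    | succ k ih =>
      obtain ⟨N', h⟩ := ih
      obtain ⟨N, hN⟩ := step_A2Sym 𝔸 J N'
      exact ⟨N, fun Fl hF hJ St hS f η h0 =>
        hN Fl hF hJ St hS f η _ _ (by omega) (h Fl hF hJ St hS f η h0)⟩
  obtain ⟨N, h⟩ := key J
  refine ⟨N, fun Fl hF hJ St hS f η h0 α _ B hB c N₀ h1 h3 =>
    h Fl hF hJ St hS f η h0 α B hB c N₀ h1 (fun S _ S' _ he => ?_) h3⟩
  rw [Nat.sub_self, add_zero]
  exact sub_mem (h1 S) (he ▸ h1 S')

end Pool.Agent.Lib.MP_788af2_nt.AG
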