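import Pool.Agent.Lib.MP_788af2_nt.AG.A2Core

/-!
Degrees and top coefficients of the divided quadratic form.
-/

set_option linter.unusedSectionVars false

namespace Pool.Agent.Lib.MP_788af2_nt.AG

open Pool.Agent.Lib.MP_788af2_nt.AS Matrix

variable {J₁ J₂ A : Type} [Fintype J₁] [DecidableEq J₁] [Fintype J₂] [DecidableEq J₂] [CommRing A]

section total

open MvPolynomial

variable {σ : Type}

lemma td_int (n : ℤ) : (n : MvPolynomial σ A).totalDegree ≤ 0 := by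
  rw [← map_intCast (C : A →+* MvPolynomial σ A), totalDegree_C]

lemma td_mul {p q : MvPolynomial σ A} {a b : ℕ} (hp : p.totalDegree ≤ a) (hq : q.totalDegree ≤ b) :
    (p * q).totalDegree ≤ a + b := (totalDegree_mul p q).trans (add_le_add hp hq)

lemma td_add {p q : MvPolynomial σ A} {a : ℕ} (hp : p.totalDegree ≤ a) (hq : q.totalDegree ≤ a) :
    (p + q).totalDegree ≤ a := (totalDegree_add p q).trans (max_le hp hq)

lemma td_det {ι : Type} [Fintype ι] [DecidableEq ι] (M : Matrix ι ι (MvPolynomial σ A))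
    (h : ∀ i j, (M i j).totalDegree ≤ 1) : M.det.totalDegree ≤ Fintype.card ι := by
  rw [det_apply']
  refine totalDegree_finsetSum_le fun s _ => (td_mul (td_int _) ((totalDegree_finsetProd _ _).trans
    (Finset.sum_le_sum fun i _ => h (s i) i))).trans ?_
  simp

lemma td_adj {ι : Type} [Fintype ι] [DecidableEq ι] (M : Matrix ι ι (MvPolynomial σ A))
    (h : ∀ i j, (M i j).totalDegree ≤ 1) (i j : ι) :
    (M.adjugate i j).totalDegree ≤ Fintype.card ι := by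
  rw [adjugate_apply]
  refine td_det _ fun a b => ?_
  rw [updateRow_apply]
  split_ifs
  · rw [Pi.single_apply]
    split_ifs <;> simp
  · exact h a b

lemma td_bf {ι κ : Type} [Fintype ι] [Fintype κ] (Q : ι → κ → ℤ) {x : ι → MvPolynomial σ A}
    {y : κ → MvPolynomial σ A} {a b : ℕ} (hx : ∀ i, (x i).totalDegree ≤ a)
    (hy : ∀ j, (y j).totalDegree ≤ b) : (bf Q x y).totalDegree ≤ a + b :=
  totalDegree_finsetSum_le fun i _ => totalDegree_finsetSum_le fun j _ =>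
    (td_mul (td_int _) (td_mul (hx i) (hy j))).trans (by omega)

variable (Zb : Matrix (J₁ ⊕ J₂) (J₁ ⊕ J₂) ℤ) {X : Matrix (J₁ ⊕ J₂) (J₁ ⊕ J₂) (MvPolynomial σ A)}

lemma td_Nf (h : ∀ i j, (X i j).totalDegree ≤ 1) (i j : J₁ ⊕ J₂) :
    (Nf Zb X i j).totalDegree ≤ 1 :=
  td_add ((td_int _).trans (by omega))
    ((td_mul (a := 0) (by simpa using td_int (σ := σ) (A := A) 2) (h i j)).trans (by omega))

lemma td_Nh (h : ∀ i j, (X i j).totalDegree ≤ 1) : ∀ i j : J₁ ⊕ J₂,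
    (Nh Zb X i j).totalDegree ≤ 1 := by
  rintro (i | i) j
  · exact h _ _
  · exact td_Nf Zb h _ _

theorem td_Fq (h : ∀ i j, (X i j).totalDegree ≤ 1) (o : J₁) (Gm : J₁ ⊕ J₂ → J₁ ⊕ J₂ → ℤ)
    (Q : J₁ → J₁ → ℤ) (c : ℤ) :
    (Fq Zb X o Gm Q c).totalDegree ≤ 4 * Fintype.card (J₁ ⊕ J₂) + 2 := by
  have hle : Fintype.card J₂ ≤ Fintype.card (J₁ ⊕ J₂) := by simp
  have hZ : ∀ i j, (A2Zm Zb X i j).totalDegree ≤ 1 := fun i j => td_Nf Zb h _ _
  have hz := (td_det _ hZ).trans hle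
  have hk : ∀ i, (kap Zb X o i).totalDegree ≤ Fintype.card (J₁ ⊕ J₂) := fun i =>
    td_adj _ (td_Nh Zb h) _ _
  have hp : ∀ j, (a2psi Zb X o j).totalDegree ≤ 2 * Fintype.card (J₁ ⊕ J₂) + 1 := fun j => by
    rw [a2psi, totalDegree_neg]
    exact totalDegree_finsetSum_le fun j' _ => (td_mul ((td_adj _ hZ _ _).trans hle)
      (totalDegree_finsetSum_le fun i _ => td_mul (h _ _) (hk i))).trans (by omega)
  rw [Fq, sq]
  exact td_add ((td_mul (td_mul hz hz) (td_bf _ hk hk)).trans (by omega))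
    ((td_mul (td_int c) (td_add (a := 4 * Fintype.card (J₁ ⊕ J₂) + 2)
      ((td_mul hz (td_bf _ hk hp)).trans (by omega))
      ((td_bf _ hp hp).trans (by omega)))).trans (by omega))

end total

section top

open Polynomial

/-- `p` has degree at most `d`, with coefficient `c` in degree `d`. -/
def Top (d : ℕ) (p : A[X]) (c : A) : Prop := p.natDegree ≤ d ∧ p.coeff d = c

lemma Top.mul {a b : ℕ} {p q : A[X]} {x y : A} (hp : Top a p x) (hq : Top b q y) :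
    Top (a + b) (p * q) (x * y) :=
  ⟨natDegree_mul_le.trans (add_le_add hp.1 hq.1),
    by rw [coeff_mul_add_eq_of_natDegree_le hp.1 hq.1, hp.2, hq.2]⟩

lemma Top.const (x : A) : Top 0 (C x) x := ⟨(natDegree_C x).le, coeff_C_zero⟩

lemma Top.cmul {a : ℕ} {p : A[X]} {y : A} (x : A) (hp : Top a p y) : Top a (C x * p) (x * y) := by
  simpa only [zero_add] using (Top.const x).mul hp

lemma Top.sum {ι : Type} [Fintype ι] {a : ℕ} {p : ι → A[X]} {x : ι → A}
    (h : ∀ i, Top a (p i) (x i)) : Top a (∑ i, p i) (∑ i, x i) :=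
  ⟨natDegree_sum_le_of_forall_le _ _ fun i _ => (h i).1,
    by rw [finsetSum_coeff]; exact Finset.sum_congr rfl fun i _ => (h i).2⟩

lemma Top.neg {a : ℕ} {p : A[X]} {x : A} (h : Top a p x) : Top a (-p) (-x) :=
  ⟨by rw [natDegree_neg]; exact h.1, by rw [coeff_neg, h.2]⟩

lemma Top.bf {ι κ : Type} [Fintype ι] [Fintype κ] (Q : ι → κ → ℤ) {p : ι → A[X]} {q : κ → A[X]}
    {x : ι → A} {y : κ → A} {a b : ℕ} (hp : ∀ i, Top a (p i) (x i)) (hq : ∀ j, Top b (q j) (y j)) :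
    Top (a + b) (bf Q p q) (bf Q x y) :=
  Top.sum fun i => Top.sum fun j => by
    simpa only [map_intCast] using ((hp i).mul (hq j)).cmul (Q i j : A)

variable (Zb : Matrix (J₁ ⊕ J₂) (J₁ ⊕ J₂) ℤ) {Y : Matrix (J₁ ⊕ J₂) (J₁ ⊕ J₂) A[X]}
  {M : Matrix (J₁ ⊕ J₂) (J₁ ⊕ J₂) A}

lemma Nf_two (h2 : (2 : A) = 0) (M : Matrix (J₁ ⊕ J₂) (J₁ ⊕ J₂) A) (i j : J₁ ⊕ J₂) :
    Nf Zb M i j = (Zb i j : A) := by
  simp [Nf, h2]

lemma two_poly (h2 : (2 : A) = 0) : (2 : A[X]) = 0 := by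
  rw [← map_ofNat (C : A →+* A[X]) 2, h2, map_zero]

lemma top_Nf (h2 : (2 : A) = 0) (i j : J₁ ⊕ J₂) : Top 0 (Nf Zb Y i j) (Nf Zb M i j) := by
  rw [Nf_two Zb h2, Nf_two Zb (two_poly h2), ← map_intCast (C : A →+* A[X])]
  exact Top.const _

lemma top_det {ι : Type} [Fintype ι] [DecidableEq ι] {N : Matrix ι ι A[X]} {N' : Matrix ι ι A}
    (d : ι → ℕ) (h : ∀ i j, Top (d i) (N i j) (N' i j)) : Top (∑ i, d i) N.det N'.det := by
  obtain ⟨k1, k2⟩ := DetP.det_top N d fun i j => (h i j).1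
  refine ⟨k1, k2.trans ?_⟩
  congr 1
  ext i j
  exact (h i j).2

theorem top_even (h2 : (2 : A) = 0) (h : ∀ i j, Top 1 (Y i j) (M i j)) :
    Top (Fintype.card J₁) (Nh Zb Y).det (Nh Zb M).det := by
  have := top_det (N := Nh Zb Y) (N' := Nh Zb M) (Sum.elim (fun _ => 1) fun _ => 0) (by
    rintro (i | i) j
    · exact h _ _
    · exact top_Nf Zb h2 _ _)
  simpa using this

lemma top_kap (h2 : (2 : A) = 0) (h : ∀ i j, Top 1 (Y i j) (M i j)) (o i : J₁) :
    Top (Fintype.card J₁ - 1) (kap Zb Y o i) (kap Zb M o i) := by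
  have := top_det (N := (Nh Zb Y).updateRow (Sum.inl o) (Pi.single (Sum.inl i) 1))
    (N' := (Nh Zb M).updateRow (Sum.inl o) (Pi.single (Sum.inl i) 1))
    (Sum.elim (fun k => if k = o then 0 else 1) fun _ => 0) (by
    rintro (k | k) j
    · by_cases hk : k = o
      · subst hk
        simp only [updateRow_self, Sum.elim_inl, if_true, Pi.single_apply]
        split_ifs
        · exact Top.const 1
        · simpa using Top.const (0 : A)
      · rw [updateRow_ne (by simpa), updateRow_ne (by simpa), Sum.elim_inl, if_neg hk]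
        exact h _ _
    · rw [updateRow_ne (by simp), updateRow_ne (by simp)]
      exact top_Nf Zb h2 _ _)
  rw [kap, kap, adjugate_apply, adjugate_apply]
  simpa [Finset.sum_ite, Finset.filter_ne', Finset.card_erase_of_mem] using this

lemma Zm_poly (h2 : (2 : A) = 0) : A2Zm Zb Y = (C : A →+* A[X]).mapMatrix (A2Zm Zb M) := by
  ext1 i j
  simp [A2Zm, Nf_two Zb h2, Nf_two Zb (two_poly h2)]

lemma top_psi (h2 : (2 : A) = 0) (h : ∀ i j, Top 1 (Y i j) (M i j)) (o : J₁) (j : J₂) :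
    Top (1 + (Fintype.card J₁ - 1)) (a2psi Zb Y o j) (a2psi Zb M o j) := by
  rw [a2psi, a2psi, Zm_poly Zb (M := M) h2]
  simp only [← map_adj]
  exact (Top.sum fun j' => (Top.sum fun i => (h _ _).mul (top_kap Zb h2 h o i)).cmul _).neg

theorem top_ab (h2 : (2 : A) = 0) (h : ∀ i j, Top 1 (Y i j) (M i j)) (o : J₁)
    (Gm : J₁ ⊕ J₂ → J₁ ⊕ J₂ → ℤ) (Q : J₁ → J₁ → ℤ) (c : ℤ)
    (hne : (A2Zm Zb M).det ^ 2 * bf Q (kap Zb M o) (kap Zb M o) ≠ 0) :
    Fq Zb Y o Gm Q (2 * c) ≠ 0 := by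
  intro h0
  have h1 := (Top.bf Q (top_kap Zb h2 h o) (top_kap Zb h2 h o)).cmul ((A2Zm Zb M).det ^ 2)
  rw [Fq, Int.cast_mul, Int.cast_ofNat, two_poly h2, zero_mul, zero_mul, add_zero,
    Zm_poly Zb (M := M) h2, ← RingHom.map_det, ← map_pow] at h0
  rw [h0] at h1
  exact hne (h1.2.symm.trans (coeff_zero _))

theorem top_c (h2 : (2 : A) = 0) (h : ∀ i j, Top 1 (Y i j) (M i j)) (o : J₁)
    (Gm : J₁ ⊕ J₂ → J₁ ⊕ J₂ → ℤ) (Q : J₁ → J₁ → ℤ)
    (hne : bf (fun i j => Gm (Sum.inr i) (Sum.inr j)) (a2psi Zb M o) (a2psi Zb M o) ≠ 0) :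
    Fq Zb Y o Gm Q 1 ≠ 0 := by
  intro h0
  have h1 := (Top.bf Q (top_kap Zb h2 h o) (top_kap Zb h2 h o)).cmul ((A2Zm Zb M).det ^ 2)
  have h3 := (Top.bf (fun i j => Gm (Sum.inl i) (Sum.inr j)) (top_kap Zb h2 h o)
    (top_psi Zb h2 h o)).cmul (A2Zm Zb M).det
  have h4 := Top.bf (fun i j => Gm (Sum.inr i) (Sum.inr j)) (top_psi Zb h2 h o) (top_psi Zb h2 h o)
  rw [Fq, Int.cast_one, one_mul, Zm_poly Zb (M := M) h2, ← RingHom.map_det, ← map_pow] at h0
  have h5 := congrArg (fun p => p.coeff (1 + (Fintype.card J₁ - 1) + (1 + (Fintype.card J₁ - 1)))) h0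
  simp only [coeff_add, coeff_zero] at h5
  rw [h4.2, coeff_eq_zero_of_natDegree_lt (h1.1.trans_lt (by omega)),
    coeff_eq_zero_of_natDegree_lt (h3.1.trans_lt (by omega)), zero_add, zero_add] at h5
  exact hne h5

end top

end Pool.Agent.Lib.MP_788af2_nt.AG
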