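import Pool.Agent.Lib.MP_788af2_nt.AS.Alg
import Pool.Agent.Lib.MP_788af2_nt.AG.A2Main

/-!
Anti-concentration for the determinant (even size) or the weighted sum of the principal minors
(odd size) of an almost skew matrix on the cube.
-/

set_option linter.unusedSectionVars false

namespace Pool.Agent.Lib.MP_788af2_nt.AG

open Pool.Agent.Lib.MP_788af2_nt.AS Matrix

open scoped Classical

/-- The skew matrix with the same entries above the diagonal. -/
def alg2Sk {W O : Type} [AddCommGroup O] (e : W → ℕ) (M : Matrix W W O) : Matrix W W O :=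
  Matrix.of fun i j => if e i < e j then M i j else if e j < e i then -M j i else 0

lemma alg2Sk_sum {W O S I : Type} [AddCommGroup O] [Monoid S] [DistribMulAction S O] [Fintype I]
    (e : W → ℕ) (c : I → S) (M : I → Matrix W W O) :
    ∑ g, c g • alg2Sk e (M g) = alg2Sk e (∑ g, c g • M g) := by
  ext i j
  simp only [alg2Sk, Matrix.sum_apply, Matrix.smul_apply, Matrix.of_apply]
  split_ifs <;> simp

lemma alg2Sk_alt {W : Type} {e : W → ℕ} (he : Function.Injective e) {M : Matrix W W (ZMod 2)}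
    (h : Alt M) : alg2Sk e M = M := by
  ext i j
  simp only [alg2Sk, Matrix.of_apply]
  split_ifs with h1 h2
  · rfl
  · rw [ZMod.neg_eq_self_mod_two, h.2]
  · rw [he (show e i = e j by omega), h.1]

lemma alg2Sk_skew {W O : Type} [AddCommGroup O] (e : W → ℕ) (M : Matrix W W O) :
    (alg2Sk e M)ᵀ = -alg2Sk e M := by
  ext i j
  simp only [alg2Sk, Matrix.transpose_apply, Matrix.neg_apply, Matrix.of_apply]
  split_ifs with h1 h2 h3
  · omega
  · simp
  · rfl
  · simp

lemma alg2_map {W O O' : Type} [Fintype W] [DecidableEq W] [CommRing O] [CommRing O']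
    (φ : O →+* O') (wt : W → ℤ) (M : Matrix W W O) : φ (Dl wt M) = Dl wt (φ.mapMatrix M) := by
  unfold Dl
  split_ifs
  · exact φ.map_det M
  · rw [map_sum, ← φ.map_adjugate]
    exact Finset.sum_congr rfl fun v _ => by rw [map_mul, map_intCast]; rfl

lemma alg2_congr {W O : Type} [Fintype W] [DecidableEq W] [CommRing O] (wt : W → ℤ) (a : O)
    {M M' : Matrix W W O} (h : ∀ i j, a ∣ M' i j - M i j) (hd : a ∣ Dl wt M) : a ∣ Dl wt M' := by
  have h1 : (Ideal.Quotient.mk (Ideal.span {a})).mapMatrix M' =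
      (Ideal.Quotient.mk (Ideal.span {a})).mapMatrix M := by
    ext i j
    exact Ideal.Quotient.eq.2 (Ideal.mem_span_singleton.2 (h i j))
  rw [← Ideal.mem_span_singleton, ← Ideal.Quotient.eq_zero_iff_mem, alg2_map] at hd ⊢
  rwa [h1]

theorem alg2 (w : ℕ) (η : ℝ) (hη : 0 < η) : ∃ R J : ℕ, ∀ (I : Type) [Fintype I] [DecidableEq I]
    (W : Type) [Fintype W] [DecidableEq W], Fintype.card W ≤ w →
    ∀ (O : Type) [CommRing O], (∀ x : O, 2 * x = 0 → x = 0) → ¬ (2 : O) ∣ 1 →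
    ∀ (V : Type) [CommRing V] [CharP V 2] (om : W → W → V), (∀ q, om q q = 0) →
    (∀ q q', om q q' = om q' q) →
    (∀ u v : W → ZMod 2, u ≠ 0 → v ≠ 0 → u ≠ v → ∑ q, ∑ q', zc V (u q * v q') * om q q' ≠ 0) →
    ∀ Bm : G I → Matrix W W (ZMod 2), Alt (∑ g, Bm g) →
    (∀ μ : Fin R → V →+ ZMod 2, ∃ ξ : Fin R → G I,
      Pat2 Bm (fun l => Matrix.of fun q q' => μ l (om q q')) ξ) →
    ∀ A : G I → Matrix W W O, (∀ g i j, (2 : O) ∣ A g i j - ((Bm g i j).val : O)) →
    (∀ (ξ : G I) i j, (2 : O) ^ J ∣ (∑ g, sg (ξ ⬝ᵥ g) • A g) i j + (∑ g, sg (ξ ⬝ᵥ g) • A g) j i) →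
    ∀ wt : W → ℤ, (Nonempty W → ∃ v, Odd (wt v)) →
    ((Finset.univ.filter fun ξ : G I => (2 : O) ^ J ∣ Dl wt (∑ g, sg (ξ ⬝ᵥ g) • A g)).card : ℝ) ≤
      η * Fintype.card (G I) := by
  obtain ⟨R, J, h⟩ := alg2sk w η hη
  refine ⟨R, J + 1, fun I _ _ W _ _ hW O _ h2 h1 V _ _ om o1 o2 o3 Bm hB hP A hA hS wt hw => ?_⟩
  obtain ⟨e, he⟩ : ∃ e : W → ℕ, Function.Injective e :=
    ⟨fun v => (Fintype.equivFin W v : ℕ), Fin.val_injective.comp (Fintype.equivFin W).injective⟩
  have hs : ∑ g, alg2Sk e (Bm g) = ∑ g, Bm g := by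
    have := alg2Sk_sum e (fun _ => (1 : ZMod 2)) Bm
    simp only [one_smul] at this
    rw [this, alg2Sk_alt he hB]
  refine le_trans ?_ (h I W hW O h2 h1 V om o1 o2 o3 (fun g => alg2Sk e (Bm g)) (hs ▸ hB)
    (fun μ => ?_) (fun g => alg2Sk e (A g)) (fun g i j => ?_) (fun g => alg2Sk_skew e _) wt hw)
  · refine Nat.cast_le.2 (Finset.card_le_card fun ξ hξ => ?_)
    rw [Finset.mem_filter] at hξ ⊢
    refine ⟨hξ.1, ?_⟩
    rw [alg2Sk_sum]
    refine alg2_congr wt _ (fun i j => ?_) ((pow_dvd_pow 2 (Nat.le_succ J)).trans hξ.2)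
    have h3 := hS ξ i j
    generalize (∑ g, sg (ξ ⬝ᵥ g) • A g) = M at h3
    simp only [alg2Sk, Matrix.of_apply]
    split_ifs with h4 h5
    · simp
    · have : -M j i - M i j = -(M i j + M j i) := by ring
      rw [this]
      exact ((pow_dvd_pow 2 (Nat.le_succ J)).trans h3).neg_right
    · obtain rfl := he (show e i = e j by omega)
      obtain ⟨c, hc⟩ := h3
      have := h2 (M i i - 2 ^ J * c) (by rw [pow_succ] at hc; linear_combination hc)
      exact ⟨-c, by linear_combination -this⟩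
  · obtain ⟨ξ, p1, p2⟩ := hP μ
    refine ⟨ξ, fun l => ?_, fun S hS' => ?_⟩
    · rw [alg2Sk_sum, p1 l]
      exact alg2Sk_alt he ⟨fun i => by simp [o1], fun i j => by simp [o2 i j]⟩
    · rw [alg2Sk_sum, p2 S hS']
      exact alg2Sk_alt he ⟨fun _ => rfl, fun _ _ => rfl⟩
  · simp only [alg2Sk, Matrix.of_apply]
    split_ifs
    · exact hA g i j
    · obtain ⟨c, hc⟩ := hA g j i
      rw [ZMod.neg_eq_self_mod_two]
      exact ⟨-c - ((Bm g j i).val : O), by linear_combination -hc⟩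
    · simp

end Pool.Agent.Lib.MP_788af2_nt.AG
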