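import Pool.Agent.Lib.MP_788af2_nt.AG.ArrA1

/-!
The algebra of arrays.
-/

set_option linter.unusedSectionVars false

namespace Pool.Agent.Lib.MP_788af2_nt.AG

open Polynomial Filter Topology

variable {A : Type} [NormedCommRing A] [IsUltrametricDist A] [CompleteSpace A] [NormOneClass A]
  {p : Pm} {a b x y : Arr A}

lemma a2_sumZ {c : ℝ} (hc : 0 < c) : Summable fun n : ℤ => (2 : ℝ) ^ (-(c * ((|n| : ℤ) : ℝ))) := by
  have h : Summable fun n : ℕ => (2 : ℝ) ^ (-(c * (n : ℝ))) := by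
    refine (summable_geometric_of_lt_one (r := (2 : ℝ) ^ (-c)) (by positivity)
      (Real.rpow_lt_one_of_one_lt_of_neg (by norm_num) (by linarith))).congr fun n => ?_
    rw [← Real.rpow_natCast, ← Real.rpow_mul (by norm_num), neg_mul]
  refine Summable.of_nat_of_neg (h.congr fun n => ?_) (h.congr fun n => ?_) <;> simp

lemma a2_dec_le (ha : Dec p a) : ∃ g : ℤ × ℤ → ℝ, Summable g ∧ ∀ v : ℤ × ℤ,
    ‖a v‖ * 2 ^ (13 / 50 * ((v.1 : ℝ) / p.e) + 3 / 10 * ((|v.2| : ℤ) : ℝ)) ≤ g v := by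
  obtain ⟨h0, C, hC⟩ := ha
  have he := p.a1_e_posR
  have hC0 : 0 ≤ C := by
    have h1 := (norm_nonneg _).trans (hC 0)
    exact nonneg_of_mul_nonneg_left h1 (by positivity)
  refine ⟨fun v => C * ((2 : ℝ) ^ (-(1 / (25 * p.e) * ((|v.1| : ℤ) : ℝ))) *
    2 ^ (-(1 / 10 * ((|v.2| : ℤ) : ℝ)))), ?_, fun v => ?_⟩
  · exact ((a2_sumZ (c := 1 / (25 * p.e)) (by positivity)).mul_of_nonneg
      (a2_sumZ (c := 1 / 10) (by norm_num)) (fun _ => by positivity)
      (fun _ => by positivity)).mul_left C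
  · rcases lt_or_ge v.1 0 with h | h
    · rw [h0 v h, norm_zero, zero_mul]
      positivity
    · refine (mul_le_mul_of_nonneg_right (hC v) (by positivity)).trans (le_of_eq ?_)
      beta_reduce
      rw [mul_assoc, ← Real.rpow_add (by norm_num), ← Real.rpow_add (by norm_num), abs_of_nonneg h]
      congr 2
      field_simp
      ring

lemma a2_summable (ha : Dec p a) (hb : Dec p b) (hx : Mod p x) (u : ℤ × ℤ) :
    Summable fun q : (ℤ × ℤ) × (ℤ × ℤ) => a q.1 * (b q.2 * x (u - q.1 - q.2)) := by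
  obtain ⟨g, hg, hga⟩ := a2_dec_le ha
  obtain ⟨g', hg', hgb⟩ := a2_dec_le hb
  obtain ⟨C, hC⟩ := hx
  have hC0 : 0 ≤ C := by
    have h1 := (norm_nonneg _).trans (hC 0)
    exact nonneg_of_mul_nonneg_left h1 (by positivity)
  have hg0 : ∀ v, 0 ≤ g v := fun v => le_trans (by positivity) (hga v)
  have hg0' : ∀ v, 0 ≤ g' v := fun v => le_trans (by positivity) (hgb v)
  refine Summable.of_norm_bounded ((hg.mul_of_nonneg hg' hg0 hg0').mul_left
    (C * 2 ^ (-(13 / 50 * ((u.1 : ℝ) / p.e)) + 3 / 10 * ((|u.2| : ℤ) : ℝ)))) fun q => ?_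
  obtain ⟨v, z⟩ := q
  have hk : ‖x (u - v - z)‖ ≤ C * 2 ^ (-(13 / 50 * ((u.1 : ℝ) / p.e)) + 3 / 10 * ((|u.2| : ℤ) : ℝ)) *
      (2 ^ (13 / 50 * ((v.1 : ℝ) / p.e) + 3 / 10 * ((|v.2| : ℤ) : ℝ)) *
        2 ^ (13 / 50 * ((z.1 : ℝ) / p.e) + 3 / 10 * ((|z.2| : ℤ) : ℝ))) := by
    refine (hC _).trans ?_
    rw [mul_assoc, ← Real.rpow_add (by norm_num), ← Real.rpow_add (by norm_num)]
    refine mul_le_mul_of_nonneg_left (Real.rpow_le_rpow_of_exponent_le (by norm_num) ?_) hC0
    have h1 : |(u.2 : ℝ) - v.2 - z.2| ≤ |(u.2 : ℝ)| + |(v.2 : ℝ)| + |(z.2 : ℝ)| :=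
      (abs_sub _ _).trans (add_le_add_left (abs_sub _ _) _)
    simp only [Prod.fst_sub, Prod.snd_sub, Int.cast_sub, Int.cast_abs, sub_div]
    linarith
  calc ‖a v * (b z * x (u - v - z))‖ ≤ ‖a v‖ * (‖b z‖ * ‖x (u - v - z)‖) :=
        (norm_mul_le _ _).trans (mul_le_mul_of_nonneg_left (norm_mul_le _ _) (norm_nonneg _))
    _ ≤ ‖a v‖ * (‖b z‖ * (C * 2 ^ (-(13 / 50 * ((u.1 : ℝ) / p.e)) + 3 / 10 * ((|u.2| : ℤ) : ℝ)) *
      (2 ^ (13 / 50 * ((v.1 : ℝ) / p.e) + 3 / 10 * ((|v.2| : ℤ) : ℝ)) *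
        2 ^ (13 / 50 * ((z.1 : ℝ) / p.e) + 3 / 10 * ((|z.2| : ℤ) : ℝ))))) := by gcongr
    _ = C * 2 ^ (-(13 / 50 * ((u.1 : ℝ) / p.e)) + 3 / 10 * ((|u.2| : ℤ) : ℝ)) *
      ((‖a v‖ * 2 ^ (13 / 50 * ((v.1 : ℝ) / p.e) + 3 / 10 * ((|v.2| : ℤ) : ℝ))) *
        (‖b z‖ * 2 ^ (13 / 50 * ((z.1 : ℝ) / p.e) + 3 / 10 * ((|z.2| : ℤ) : ℝ)))) := by ring
    _ ≤ _ := mul_le_mul_of_nonneg_left
        (mul_le_mul (hga v) (hgb z) (by positivity) (hg0 v)) (by positivity)

lemma conv_assoc (ha : Dec p a) (hb : Dec p b) (hx : Mod p x) :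
    conv (conv a b) x = conv a (conv b x) := by
  funext u
  have hS := a2_summable ha hb hx u
  let e : (ℤ × ℤ) × (ℤ × ℤ) ≃ (ℤ × ℤ) × (ℤ × ℤ) :=
    ⟨fun q => (q.2, q.1 - q.2), fun q => (q.2 + q.1, q.1), fun q => by simp, fun q => by simp⟩
  have h1 : conv a (conv b x) u = ∑' q : (ℤ × ℤ) × (ℤ × ℤ), a q.1 * (b q.2 * x (u - q.1 - q.2)) := by
    rw [hS.tsum_prod]
    exact tsum_congr fun v => ((hb.summable hx (u - v)).tsum_mul_left (a v)).symm
  rw [h1, ← e.tsum_eq]
  refine Eq.trans (tsum_congr fun w => ?_) (e.summable_iff.mpr hS).tsum_prod.symm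
  refine ((ha.summable hb.mod w).tsum_mul_right (x (u - w))).symm.trans (tsum_congr fun v => ?_)
  have h2 : u - v - (w - v) = u - w := by abel
  simp only [e, Function.comp, Equiv.coe_fn_mk, h2, mul_assoc]
lemma conv_left_comm (ha : Dec p a) (hb : Dec p b) (hx : Mod p x) :
    conv a (conv b x) = conv b (conv a x) := by
  rw [← conv_assoc ha hb hx, conv_comm a b, conv_assoc hb ha hx]
lemma conv_add (ha : Dec p a) (hx : Mod p x) (hy : Mod p y) :
    conv a (x + y) = conv a x + conv a y := by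
  funext u
  simp only [conv, Pi.add_apply, mul_add]
  exact (ha.summable hx u).tsum_add (ha.summable hy u)
lemma conv_sub (ha : Dec p a) (hx : Mod p x) (hy : Mod p y) :
    conv a (x - y) = conv a x - conv a y := by
  funext u
  simp only [conv, Pi.sub_apply, mul_sub]
  exact (ha.summable hx u).tsum_sub (ha.summable hy u)
lemma add_conv (ha : Dec p a) (hb : Dec p b) (hx : Mod p x) :
    conv (a + b) x = conv a x + conv b x := by
  funext u
  simp only [conv, Pi.add_apply, add_mul]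
  exact (ha.summable hx u).tsum_add (hb.summable hx u)
lemma sub_conv (ha : Dec p a) (hb : Dec p b) (hx : Mod p x) :
    conv (a - b) x = conv a x - conv b x := by
  funext u
  simp only [conv, Pi.sub_apply, sub_mul]
  exact (ha.summable hx u).tsum_sub (hb.summable hx u)
lemma conv_smul (ha : Dec p a) (hx : Mod p x) (c : A) : conv a (c • x) = c • conv a x := by
  funext u
  simp only [conv, Pi.smul_apply, smul_eq_mul]
  rw [← (ha.summable hx u).tsum_mul_left]
  exact tsum_congr fun v => by ring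
lemma smul_conv (ha : Dec p a) (hx : Mod p x) (c : A) : conv (c • a) x = c • conv a x := by
  funext u
  simp only [conv, Pi.smul_apply, smul_eq_mul]
  rw [← (ha.summable hx u).tsum_mul_left]
  exact tsum_congr fun v => by ring
lemma conv_sum {α : Type} (s : Finset α) {f : α → Arr A} (ha : Dec p a)
    (h : ∀ i ∈ s, Mod p (f i)) : conv a (∑ i ∈ s, f i) = ∑ i ∈ s, conv a (f i) := by
  funext u
  simp only [conv, Finset.sum_apply, Finset.mul_sum]
  exact Summable.tsum_finsetSum fun i hi => ha.summable (h i hi) u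
lemma dt_conv (ha : Dec p a) (hx : Mod p x) : dt (conv a x) = conv (dt a) x + conv a (dt x) := by
  funext u
  have h1 := ha.dt.summable hx u
  have h2 := ha.summable hx.dt u
  simp only [conv, dt, Pi.add_apply, zsmul_eq_mul] at h1 h2 ⊢
  rw [← h1.tsum_add h2, ← (ha.summable hx u).tsum_mul_left]
  refine tsum_congr fun v => ?_
  simp only [Prod.fst_sub, Int.cast_sub]
  ring
lemma dx_conv (ha : Dec p a) (hx : Mod p x) : dx (conv a x) = conv (dx a) x + conv a (dx x) := by
  funext u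
  have h1 := ha.dx.summable hx u
  have h2 := ha.summable hx.dx u
  simp only [conv, dx, Pi.add_apply, zsmul_eq_mul] at h1 h2 ⊢
  rw [← h1.tsum_add h2, ← (ha.summable hx u).tsum_mul_left]
  refine tsum_congr fun v => ?_
  simp only [Prod.snd_sub, Int.cast_sub]
  ring
lemma a2_Tm_conv (s : PowerSeries A) (x : Arr A) (u : ℤ × ℤ) :
    conv (Tm s) x u = ∑' n : ℕ, PowerSeries.coeff n s * x (u.1 - n, u.2) := by
  have hg : Function.Injective fun n : ℕ => (((n : ℤ), 0) : ℤ × ℤ) := fun n m h => by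
    simpa using h
  rw [conv, ← hg.tsum_eq]
  · refine tsum_congr fun n => ?_
    have h1 : u - ((n : ℤ), 0) = (u.1 - n, u.2) := by ext <;> simp
    simp [Tm, h1]
  · intro v hv
    by_cases h : 0 ≤ v.1 ∧ v.2 = 0
    · exact ⟨v.1.toNat, Prod.ext (by simp only; omega) h.2.symm⟩
    · exact absurd (by simp only [Tm, if_neg h, zero_mul]) hv
lemma Tm_conv (s s' : PowerSeries A) : conv (Tm s) (Tm s') = Tm (s * s') := by
  funext u
  rw [a2_Tm_conv]
  by_cases h : 0 ≤ u.1 ∧ u.2 = 0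
  · rw [tsum_eq_sum (s := Finset.range (u.1.toNat).succ) fun n hn => ?_]
    · rw [Tm, if_pos h, PowerSeries.coeff_mul, Finset.Nat.sum_antidiagonal_eq_sum_range_succ
        (fun i k => PowerSeries.coeff i s * PowerSeries.coeff k s')]
      refine Finset.sum_congr rfl fun n hn => ?_
      have h1 := Finset.mem_range.mp hn
      have h2 : (u.1 - n).toNat = u.1.toNat - n := by omega
      rw [Tm, if_pos ⟨by simp only; omega, h.2⟩, h2]
    · have h1 : ¬ n < (u.1.toNat).succ := fun h1 => hn (Finset.mem_range.mpr h1)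
      rw [Tm, if_neg (fun h2 => by have := h2.1; simp only at this; omega), mul_zero]
  · rw [Tm, if_neg h]
    refine (tsum_congr fun n => ?_).trans tsum_zero
    rw [Tm, if_neg (fun h2 => h ⟨by have := h2.1; simp only at this; omega, h2.2⟩), mul_zero]
lemma Tm_conv_apply (s : PowerSeries A) (x : Arr A) (u : ℤ × ℤ) :
    conv (Tm s) x u = ∑' n : ℕ, PowerSeries.coeff n s * x (u.1 - n, u.2) := a2_Tm_conv s x u

variable {J : Type} [DecidableEq J] {σ : J → J} {F : J → Arr A} {s : ℤ}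

lemma a2_fiber {E : Type} (j : J) {f : J × E → A} (h : ∀ r, r.1 ≠ j → f r = 0) :
    ∑' r, f r = ∑' w, f (j, w) := by
  refine ((Prod.mk_right_injective j).tsum_eq fun r hr => ?_).symm
  by_cases h1 : r.1 = j
  · exact ⟨r.2, Prod.ext h1.symm rfl⟩
  · exact absurd (h r h1) hr

lemma vmul_row (h : ∀ u : ℤ × ℤ, -s < u.1 → x u = 0) (j : J) (c : J × Ex s) :
    vmul (row s j x) (opm s σ F) c = if j = σ c.1 then conv (F c.1) (phi x) (-c.2.1) else 0 := by
  rw [vmul, a2_fiber j fun r hr => by rw [row, if_neg hr, zero_mul]]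
  split_ifs with hj
  · have hg : Function.Injective fun w : Ex s =>
        ((2 * w.1.1 - c.2.1.1, 2 * w.1.2 - c.2.1.2) : ℤ × ℤ) := fun w w' hw => by
      simp only [Prod.mk.injEq] at hw
      exact Subtype.ext (Prod.ext (by omega) (by omega))
    rw [conv, ← hg.tsum_eq]
    · refine tsum_congr fun w => ?_
      have h1 : phi x (-c.2.1 - (2 * w.1.1 - c.2.1.1, 2 * w.1.2 - c.2.1.2)) = x (-w.1) := by
        simp only [phi, Prod.fst_sub, Prod.snd_sub, Prod.fst_neg, Prod.snd_neg]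
        rw [if_pos ⟨by omega, by omega⟩]
        exact congrArg x (Prod.ext (by simp only [Prod.fst_neg]; omega)
          (by simp only [Prod.snd_neg]; omega))
      rw [h1, row, opm, if_pos rfl, if_pos hj, mul_comm]
    · intro v hv
      have h1 : phi x (-c.2.1 - v) ≠ 0 := fun h1 => hv (by simp only [h1, mul_zero])
      simp only [phi, Prod.fst_sub, Prod.snd_sub, Prod.fst_neg, Prod.snd_neg] at h1
      split_ifs at h1 with h2
      · have h3 : ¬ -s < (-c.2.1.1 - v.1) / 2 := fun h3 => h1 (h _ h3)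
        exact ⟨⟨((c.2.1.1 + v.1) / 2, (c.2.1.2 + v.2) / 2), by simp only; omega⟩,
          Prod.ext (by simp only; omega) (by simp only; omega)⟩
      · exact absurd rfl h1
  · refine (tsum_congr fun w => ?_).trans tsum_zero
    rw [opm, if_neg hj, mul_zero]
lemma mulv_col (h : ∀ u : ℤ × ℤ, u.1 < s → x u = 0) (j : J) (r : J × Ex s) :
    mulv (opm s σ F) (col s j x) r = if r.1 = σ j then psi (conv (F j) x) r.2.1 else 0 := by
  rw [mulv, a2_fiber j fun c hc => by rw [col, if_neg hc, mul_zero]]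
  split_ifs with hj
  · have hg : Function.Injective fun w : Ex s =>
        ((2 * r.2.1.1 - w.1.1, 2 * r.2.1.2 - w.1.2) : ℤ × ℤ) := fun w w' hw => by
      simp only [Prod.mk.injEq] at hw
      exact Subtype.ext (Prod.ext (by omega) (by omega))
    rw [psi, conv, ← hg.tsum_eq]
    · refine tsum_congr fun w => ?_
      have h1 : ((2 * r.2.1.1, 2 * r.2.1.2) : ℤ × ℤ) -
          (2 * r.2.1.1 - w.1.1, 2 * r.2.1.2 - w.1.2) = w.1 := by ext <;> simp
      rw [h1, col, opm, if_pos rfl, if_pos hj]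
    · intro v hv
      have h1 : ¬ 2 * r.2.1.1 - v.1 < s := fun h1 => hv (by
        beta_reduce
        rw [h _ h1, mul_zero])
      exact ⟨⟨(2 * r.2.1.1 - v.1, 2 * r.2.1.2 - v.2), by simp only; omega⟩,
        Prod.ext (by simp only; omega) (by simp only; omega)⟩
  · refine (tsum_congr fun w => ?_).trans tsum_zero
    rw [opm, if_neg hj, zero_mul]
lemma dot_row_col (h : ∀ u : ℤ × ℤ, (-s < u.1 → x u = 0) ∨ y (-u) = 0) (j j' : J) :
    dot (row s j x) (col s j' y) = if j = j' then conv x y 0 else 0 := by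
  rw [dot, a2_fiber j fun r hr => by rw [row, if_neg hr, zero_mul]]
  split_ifs with hj
  · have hg : Function.Injective fun w : Ex s => -w.1 := fun w w' hw =>
      Subtype.ext (neg_injective hw)
    rw [conv, ← hg.tsum_eq]
    · refine tsum_congr fun w => ?_
      rw [row, col, if_pos rfl, if_pos hj, zero_sub, neg_neg]
    · intro v hv
      have h1 : ¬ -s < v.1 := fun h1 => hv (by
        beta_reduce
        rcases h v with h2 | h2
        · rw [h2 h1, zero_mul]
        · rw [zero_sub, h2, mul_zero])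
      exact ⟨⟨-v, by simp only [Prod.fst_neg]; omega⟩, neg_neg v⟩
  · refine (tsum_congr fun w => ?_).trans tsum_zero
    rw [col, if_neg hj, mul_zero]

end Pool.Agent.Lib.MP_788af2_nt.AG
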