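import Pool.Agent.Lib.MP_788af2_nt.AG.Pot

/-!
The staircase, the Newton weight and the one dimensional inequalities.
-/

namespace Pool.Agent.Lib.MP_788af2_nt.AG.Pm

open Filter

variable (p : Pm)

lemma e_ge : 19 * p.l ≤ p.e := by
  have h1 := p.le1
  have h2 := p.le2
  omega

lemma a1_e_pos : (0 : ℤ) < p.e := by
  have h1 := p.e_ge
  have h2 := p.l_pos
  omega

lemma a1_e_posR : (0 : ℝ) < p.e := by exact_mod_cast p.a1_e_pos

lemma a1_l_posR : (0 : ℝ) < p.l := by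
  have h2 := p.l_pos
  exact_mod_cast h2

lemma a1_l_geR : (1 : ℝ) ≤ p.l := by
  have h2 := p.l_pos
  exact_mod_cast h2

lemma a1_e_geR : 19 * (p.l : ℝ) ≤ p.e := by exact_mod_cast p.e_ge

lemma a1_m_leR : (p.m : ℝ) ≤ p.e := by
  have h1 := p.le1
  have : p.m ≤ p.e := by omega
  exact_mod_cast this

lemma μ_pos : 0 < p.μ := by
  have := p.a1_e_posR
  unfold μ
  positivity

lemma a1_μ_le : p.μ / 2 ≤ 1 / (p.l : ℝ) := by
  have h1 := p.a1_e_geR
  have h2 := p.a1_l_posR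
  have h3 := p.a1_e_posR
  unfold μ
  rw [div_div]
  exact one_div_le_one_div_of_le h2 (by linarith)

lemma ϑ_pos : 0 < p.ϑ := Real.rpow_pos_of_pos (by norm_num) _

lemma ϑ_lt : p.ϑ < 1 :=
  Real.rpow_lt_one_of_one_lt_of_neg (by norm_num) (by have := p.μ_pos; linarith)

lemma inv_l_le_ϑ' : (2 : ℝ) ^ (-(1 / (p.l : ℝ))) ≤ p.ϑ :=
  Real.rpow_le_rpow_of_exponent_le (by norm_num) (by have := p.a1_μ_le; linarith)

lemma half_le_ϑ : 1 / 2 ≤ p.ϑ := by
  have h1 : (1 : ℝ) / p.l ≤ 1 := by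
    rw [div_le_one p.a1_l_posR]
    exact p.a1_l_geR
  have h2 : (2 : ℝ) ^ (-(1 : ℝ)) ≤ p.ϑ :=
    Real.rpow_le_rpow_of_exponent_le (by norm_num) (by have := p.a1_μ_le; linarith)
  rw [Real.rpow_neg_one] at h2
  simpa using h2

lemma inv_l_le_ϑ : (2 : ℝ) ^ (-(1 / (p.l : ℝ))) ≤ p.ϑ := p.inv_l_le_ϑ'

/-- The staircase at `q e + r`. -/
lemma a1_St_eq (L : ℝ) (q r : ℤ) (h0 : 0 ≤ r) (h1 : r < p.e) :
    p.St L (q * p.e + r) = q + min 1 ((r : ℝ) / L) := by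
  have he := p.a1_e_pos
  have e1 : (q * p.e + r) / (p.e : ℤ) = q := by
    rw [add_comm, Int.add_mul_ediv_right _ _ he.ne', Int.ediv_eq_zero_of_lt h0 h1, zero_add]
  have e2 : (q * p.e + r) % (p.e : ℤ) = r := by
    rw [add_comm, Int.add_mul_emod_self_right, Int.emod_eq_of_lt h0 h1]
  unfold St
  rw [e1, e2]

lemma a1_split (y : ℤ) : ∃ q r : ℤ, y = q * p.e + r ∧ 0 ≤ r ∧ r < p.e := by
  have he := p.a1_e_pos
  refine ⟨y / p.e, y % p.e, ?_, Int.emod_nonneg _ he.ne', Int.emod_lt_of_pos _ he⟩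
  have := Int.mul_ediv_add_emod y p.e
  linarith

lemma a1_St_mono {L : ℝ} (hL : 0 < L) : Monotone (p.St L) := by
  intro y y' h
  obtain ⟨q, r, rfl, h0, h1⟩ := p.a1_split y
  obtain ⟨q', r', rfl, h0', h1'⟩ := p.a1_split y'
  have he := p.a1_e_pos
  rw [p.a1_St_eq L q r h0 h1, p.a1_St_eq L q' r' h0' h1']
  have hq : q ≤ q' := by
    by_contra hc
    have h2 : q' + 1 ≤ q := by omega
    have h3 : (q' + 1) * (p.e : ℤ) ≤ q * p.e := mul_le_mul_of_nonneg_right h2 he.le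
    linarith
  rcases hq.eq_or_lt with rfl | hq
  · have h2 : (r : ℝ) ≤ r' := by
      have : r ≤ r' := by linarith
      exact_mod_cast this
    have h3 : (r : ℝ) / L ≤ r' / L := div_le_div_of_nonneg_right h2 hL.le
    have := min_le_min (le_refl (1 : ℝ)) h3
    linarith
  · have h2 : (q : ℝ) + 1 ≤ q' := by
      have : q + 1 ≤ q' := hq
      exact_mod_cast this
    have h3 : min 1 ((r : ℝ) / L) ≤ 1 := min_le_left _ _
    have h4 : 0 ≤ min 1 ((r' : ℝ) / L) :=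
      le_min zero_le_one (div_nonneg (by exact_mod_cast h0') hL.le)
    linarith

lemma a1_St_add {L : ℝ} (hL : 0 < L) (hLe : 2 * L ≤ p.e) (y y' : ℤ) :
    p.St L (y + y') ≤ p.St L y + p.St L y' := by
  obtain ⟨q, r, rfl, h0, h1⟩ := p.a1_split y
  obtain ⟨q', r', rfl, h0', h1'⟩ := p.a1_split y'
  rw [p.a1_St_eq L q r h0 h1, p.a1_St_eq L q' r' h0' h1']
  have a0 : (0 : ℝ) ≤ r / L := div_nonneg (by exact_mod_cast h0) hL.le
  have a0' : (0 : ℝ) ≤ r' / L := div_nonneg (by exact_mod_cast h0') hL.le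
  rcases lt_or_ge (r + r') p.e with hc | hc
  · have e : q * p.e + r + (q' * p.e + r') = (q + q') * p.e + (r + r') := by ring
    rw [e, p.a1_St_eq L _ _ (by omega) hc]
    push_cast
    rw [add_div]
    have b1 : min 1 ((r : ℝ) / L + r' / L) ≤ 1 := min_le_left _ _
    have b2 : min 1 ((r : ℝ) / L + r' / L) ≤ r / L + r' / L := min_le_right _ _
    rcases min_cases 1 ((r : ℝ) / L) with ⟨c1, -⟩ | ⟨c1, -⟩ <;>
      rcases min_cases 1 ((r' : ℝ) / L) with ⟨c2, -⟩ | ⟨c2, -⟩ <;> rw [c1, c2] <;> linarith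
  · have e : q * p.e + r + (q' * p.e + r') = (q + q' + 1) * p.e + (r + r' - p.e) := by ring
    rw [e, p.a1_St_eq L _ _ (by omega) (by omega)]
    push_cast
    have d1 : (r : ℝ) < p.e := by exact_mod_cast h1
    have d2 : (r' : ℝ) < p.e := by exact_mod_cast h1'
    have d3 : (p.e : ℝ) ≤ r + r' := by exact_mod_cast hc
    have b1 : min 1 (((r : ℝ) + r' - p.e) / L) ≤ 1 := min_le_left _ _
    have b2 : min 1 (((r : ℝ) + r' - p.e) / L) ≤ r / L :=
      (min_le_right _ _).trans (div_le_div_of_nonneg_right (by linarith) hL.le)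
    have b3 : min 1 (((r : ℝ) + r' - p.e) / L) ≤ r' / L :=
      (min_le_right _ _).trans (div_le_div_of_nonneg_right (by linarith) hL.le)
    rcases min_cases 1 ((r : ℝ) / L) with ⟨c1, c3⟩ | ⟨c1, c3⟩ <;>
      rcases min_cases 1 ((r' : ℝ) / L) with ⟨c2, c4⟩ | ⟨c2, c4⟩ <;> rw [c1, c2]
    · linarith
    · linarith
    · linarith
    · rw [div_lt_one hL] at c3 c4
      linarith

lemma a1_St_zero (L : ℝ) : p.St L 0 = 0 := by
  have := p.a1_St_eq L 0 0 le_rfl p.a1_e_pos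
  simpa using this

lemma f_mono : Monotone p.f := fun _ _ h =>
  p.a1_St_mono p.a1_l_posR (max_le_max h le_rfl)

lemma a1_f_of_nonneg {n : ℤ} (h : 0 ≤ n) : p.f n = p.St p.l n := by
  unfold f
  rw [max_eq_left h]

lemma f_nonneg (n : ℤ) : 0 ≤ p.f n := by
  have := p.a1_St_mono p.a1_l_posR (le_max_right n 0)
  rw [a1_St_zero] at this
  exact this

lemma f_add (n n' : ℤ) : p.f (n + n') ≤ p.f n + p.f n' := by
  have h1 : max (n + n') 0 ≤ max n 0 + max n' 0 := by omega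
  have h2 := p.a1_e_geR
  have h3 := p.a1_l_posR
  exact (p.a1_St_mono h3 h1).trans (p.a1_St_add h3 (by linarith) _ _)

lemma f_le_div (n : ℤ) (h : 0 ≤ n) : p.f n ≤ n / p.l := by
  rw [p.a1_f_of_nonneg h]
  obtain ⟨q, r, rfl, h0, h1⟩ := p.a1_split n
  have he := p.a1_e_pos
  have hq : 0 ≤ q := by
    by_contra hc
    have h2 : q ≤ -1 := by omega
    have h3 : q * (p.e : ℤ) ≤ -1 * p.e := mul_le_mul_of_nonneg_right h2 he.le
    linarith
  have hq' : (0 : ℝ) ≤ q := by exact_mod_cast hq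
  have h2 := p.a1_e_geR
  have h3 := p.a1_l_posR
  rw [p.a1_St_eq _ q r h0 h1]
  push_cast
  rw [add_div]
  have b1 : min 1 ((r : ℝ) / p.l) ≤ r / p.l := min_le_right _ _
  have b2 : (q : ℝ) ≤ q * p.e / p.l := by
    rw [le_div_iff₀ h3]
    exact mul_le_mul_of_nonneg_left (by linarith) hq'
  linarith

lemma f_le_of_le (n : ℤ) (k : ℕ) (h : n ≤ k * p.e) : p.f n ≤ k := by
  have he := p.a1_e_pos
  refine (p.f_mono h).trans ?_
  rw [p.a1_f_of_nonneg (by positivity)]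
  have := p.a1_St_eq p.l k 0 le_rfl he
  simp only [add_zero, Int.cast_zero, zero_div, Int.cast_natCast] at this
  rw [this]
  simp

lemma le_f (n : ℤ) : (n : ℝ) / p.e ≤ p.f n := by
  have h4 := p.a1_e_posR
  rcases le_total n 0 with h | h
  · have h1 : (n : ℝ) ≤ 0 := by exact_mod_cast h
    exact (div_nonpos_of_nonpos_of_nonneg h1 h4.le).trans (p.f_nonneg n)
  rw [p.a1_f_of_nonneg h]
  obtain ⟨q, r, rfl, h0, h1⟩ := p.a1_split n
  have h2 := p.a1_e_geR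
  have h3 := p.a1_l_posR
  have d0 : (0 : ℝ) ≤ r := by exact_mod_cast h0
  have d1 : (r : ℝ) < p.e := by exact_mod_cast h1
  rw [p.a1_St_eq _ q r h0 h1]
  push_cast
  rw [add_div, mul_div_assoc, div_self h4.ne', mul_one]
  have b1 : (r : ℝ) / p.e ≤ min 1 ((r : ℝ) / p.l) :=
    le_min ((div_le_one h4).2 d1.le) (div_le_div_of_nonneg_left d0 h3 (by linarith))
  linarith

lemma le_f' (n : ℤ) (k : ℕ) (h : k * p.e + p.l ≤ n) : (k : ℝ) + 1 ≤ p.f n := by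
  have he := p.a1_e_pos
  have h1 := p.e_ge
  have h2 := p.l_pos
  refine le_trans ?_ (p.f_mono h)
  rw [p.a1_f_of_nonneg (by positivity), p.a1_St_eq p.l k p.l (by omega) (by omega)]
  push_cast
  rw [div_self p.a1_l_posR.ne', min_self]

lemma min_le_f (n : ℤ) : min 1 ((n : ℝ) / p.l) ≤ p.f n := by
  have h1 := p.e_ge
  have h2 := p.l_pos
  rcases le_total n 0 with h | h
  · have h3 : (n : ℝ) ≤ 0 := by exact_mod_cast h
    exact ((min_le_right _ _).trans (div_nonpos_of_nonpos_of_nonneg h3 p.a1_l_posR.le)).trans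
      (p.f_nonneg n)
  rcases le_total (p.l : ℤ) n with h' | h'
  · have := p.le_f' n 0 (by simpa using h')
    refine (min_le_left _ _).trans ?_
    simpa using this
  · have := p.a1_St_eq p.l 0 n h (by omega)
    rw [p.a1_f_of_nonneg h]
    simp only [zero_mul, zero_add, Int.cast_zero] at this
    rw [this]

lemma a1_f_two (n : ℤ) (k : ℕ) (h : n ≤ 2 * p.m * k) : p.f n ≤ 2 * k := by
  have h1 := p.le1
  have h2 : (p.m : ℤ) ≤ p.e := by omega
  have h3 : (p.m : ℤ) * k ≤ p.e * k := mul_le_mul_of_nonneg_right h2 (by positivity)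
  have := p.f_le_of_le n (2 * k) (by push_cast; linarith)
  push_cast at this
  exact this

/-- Used for the product of the `x`-part and the `z`-part. -/
lemma FB_le (n n' : ℤ) (k₁ k₂ : ℕ) (h : n' ≤ 2 * p.m * k₂) :
    p.FB (n + n') (k₁ - k₂) ≤ p.f n + k₁ + k₂ := by
  unfold FB
  rcases le_total (k₂ : ℤ) k₁ with hk | hk
  · rw [abs_of_nonneg (sub_nonneg.2 hk), max_eq_left (by omega), mul_zero, sub_zero]
    have h1 := p.f_add n n'
    have h2 := p.a1_f_two n' k₂ h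
    push_cast
    linarith
  · rw [abs_of_nonpos (sub_nonpos.2 hk), max_eq_right (by omega), add_sub_assoc]
    have h1 := p.f_add n (n' - 2 * p.m * -((k₁ : ℤ) - k₂))
    have h2 := p.a1_f_two (n' - 2 * p.m * -((k₁ : ℤ) - k₂)) k₁ (by linarith)
    push_cast at h1 h2 ⊢
    linarith

lemma a1_w1 (a j : ℤ) : (a : ℝ) / p.e + j ≤ p.w a j := le_max_left _ _

lemma a1_w2 (a j : ℤ) : (a : ℝ) / p.e + j * (2 * p.m / p.e - 1) ≤ p.w a j :=
  (le_max_left _ _).trans (le_max_right _ _)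

lemma a1_w3 (a j : ℤ) : -(j : ℝ) ≤ p.w a j := (le_max_right _ _).trans (le_max_right _ _)

lemma a1_w_le {a j : ℤ} {B : ℝ} (h1 : (a : ℝ) / p.e + j ≤ B)
    (h2 : (a : ℝ) / p.e + j * (2 * p.m / p.e - 1) ≤ B) (h3 : -(j : ℝ) ≤ B) : p.w a j ≤ B :=
  max_le h1 (max_le h2 h3)

lemma a1_ν_mem : (0 : ℝ) ≤ 2 * p.m / p.e ∧ 2 * p.m / p.e ≤ (2 : ℝ) := by
  have h1 := p.a1_e_posR
  have h2 := p.a1_m_leR
  refine ⟨by positivity, ?_⟩
  rw [div_le_iff₀ h1]
  linarith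

lemma w_add (a j a' j' : ℤ) : p.w (a + a') (j + j') ≤ p.w a j + p.w a' j' := by
  refine p.a1_w_le ?_ ?_ ?_
  · have h1 := p.a1_w1 a j
    have h2 := p.a1_w1 a' j'
    push_cast
    rw [add_div]
    linarith
  · have h1 := p.a1_w2 a j
    have h2 := p.a1_w2 a' j'
    push_cast
    rw [add_div, add_mul]
    linarith
  · have h1 := p.a1_w3 a j
    have h2 := p.a1_w3 a' j'
    push_cast
    linarith

lemma w_two (a j : ℤ) : p.w (2 * a) (2 * j) = 2 * p.w a j := by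
  unfold w
  rw [mul_max_of_nonneg _ _ (by norm_num : (0 : ℝ) ≤ 2),
    mul_max_of_nonneg _ _ (by norm_num : (0 : ℝ) ≤ 2)]
  push_cast
  congr 1
  · ring
  · congr 1 <;> ring

lemma abs_le_w {a : ℤ} (j : ℤ) (h : 0 ≤ a) : ((|j| : ℤ) : ℝ) ≤ p.w a j := by
  have h0 : (0 : ℝ) ≤ a / p.e := div_nonneg (by exact_mod_cast h) p.a1_e_posR.le
  have h1 := p.a1_w1 a j
  have h3 := p.a1_w3 a j
  push_cast
  exact abs_le.2 ⟨by linarith, by linarith⟩

lemma w_le {a : ℤ} (j : ℤ) (h : 0 ≤ a) : p.w a j ≤ a / p.e + (|j| : ℤ) := by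
  have h0 : (0 : ℝ) ≤ a / p.e := div_nonneg (by exact_mod_cast h) p.a1_e_posR.le
  obtain ⟨n1, n2⟩ := p.a1_ν_mem
  push_cast
  have b1 := le_abs_self (j : ℝ)
  have b2 := neg_abs_le (j : ℝ)
  refine p.a1_w_le (by linarith) ?_ (by linarith)
  rcases abs_cases (j : ℝ) with ⟨c1, c2⟩ | ⟨c1, c2⟩ <;> rw [c1] <;> nlinarith

lemma le_w {a : ℤ} (j : ℤ) (h : 0 ≤ a) : 3 / 10 * (a / p.e) + 2 / 5 * ((|j| : ℤ) : ℝ) ≤ p.w a j := by
  have h0 : (0 : ℝ) ≤ a / p.e := div_nonneg (by exact_mod_cast h) p.a1_e_posR.le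
  obtain ⟨n1, n2⟩ := p.a1_ν_mem
  have h1 := p.a1_w1 a j
  have h2 := p.a1_w2 a j
  have h3 := p.a1_w3 a j
  push_cast
  rcases abs_cases (j : ℝ) with ⟨c1, c2⟩ | ⟨c1, c2⟩ <;> rw [c1]
  · linarith
  · have h4 : (j : ℝ) ≤ j * (2 * p.m / p.e - 1) := by nlinarith
    linarith

lemma w_le_FB {n : ℤ} (κ : ℤ) (h : 0 ≤ n) : p.w n κ ≤ p.FB n κ := by
  have h0 : (0 : ℝ) ≤ n / p.e := div_nonneg (by exact_mod_cast h) p.a1_e_posR.le
  obtain ⟨n1, n2⟩ := p.a1_ν_mem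
  unfold FB
  rcases le_total 0 κ with hk | hk
  · rw [abs_of_nonneg hk, max_eq_left (by omega), mul_zero, sub_zero]
    have hk' : (0 : ℝ) ≤ κ := by exact_mod_cast hk
    have h1 := p.le_f n
    have h4 : (κ : ℝ) * (2 * p.m / p.e - 1) ≤ κ := by nlinarith
    exact p.a1_w_le (by linarith) (by linarith) (by linarith)
  · rw [abs_of_nonpos hk, max_eq_right (by omega)]
    have hk' : (κ : ℝ) ≤ 0 := by exact_mod_cast hk
    have h1 := p.le_f (n - 2 * p.m * -κ)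
    have h2 := p.f_nonneg (n - 2 * p.m * -κ)
    have e : (((n - 2 * p.m * -κ : ℤ)) : ℝ) / p.e = n / p.e + κ * (2 * p.m / p.e) := by
      push_cast
      ring
    rw [e] at h1
    have h4 : 2 * (κ : ℝ) ≤ κ * (2 * p.m / p.e) := by nlinarith
    rw [Int.cast_neg]
    exact p.a1_w_le (by linarith) (by linarith) (by linarith)

lemma w_z (n : ℤ) (k : ℕ) (h0 : 0 ≤ n) (h : n ≤ 2 * p.m * k) : p.w n (-k) = k := by
  obtain ⟨n1, n2⟩ := p.a1_ν_mem
  have he := p.a1_e_posR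
  have hk : (0 : ℝ) ≤ k := Nat.cast_nonneg k
  have h1 : (n : ℝ) ≤ 2 * p.m * k := by exact_mod_cast h
  have h2 : (n : ℝ) / p.e ≤ k * (2 * p.m / p.e) := by
    have := div_le_div_of_nonneg_right h1 he.le
    refine this.trans (le_of_eq ?_)
    ring
  have h3 : (k : ℝ) * (2 * p.m / p.e) ≤ 2 * k := by nlinarith
  refine le_antisymm (p.a1_w_le ?_ ?_ ?_) ?_
  · push_cast
    linarith
  · push_cast
    linarith
  · push_cast
    linarith
  · have := p.a1_w3 n (-k)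
    push_cast at this
    linarith

lemma w_tendsto : Tendsto (fun u : ℕ × ℤ => p.w u.1 u.2) cofinite atTop := by
  rw [tendsto_atTop]
  intro B
  rw [eventually_cofinite]
  obtain ⟨N, hN⟩ := exists_nat_ge (4 * |B|)
  have he := p.a1_e_posR
  refine ((Set.finite_Icc (0 : ℕ) (N * p.e)).prod (Set.finite_Icc (-(N : ℤ)) N)).subset ?_
  rintro ⟨a, j⟩ hu
  simp only [Set.mem_ofPred_eq, not_le] at hu
  have h1 := p.le_w (a := (a : ℤ)) j (by positivity)
  have h2 := le_abs_self B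
  have h3 := abs_nonneg B
  have h4 : (0 : ℝ) ≤ ((a : ℤ) : ℝ) / p.e := by positivity
  have h5 : (0 : ℝ) ≤ ((|j| : ℤ) : ℝ) := by exact_mod_cast abs_nonneg j
  have h6 : ((a : ℤ) : ℝ) / p.e ≤ N := by linarith
  have h7 : ((|j| : ℤ) : ℝ) ≤ N := by linarith
  rw [div_le_iff₀ he] at h6
  have h8 : a ≤ N * p.e := by exact_mod_cast h6
  have h9 : |j| ≤ (N : ℤ) := by exact_mod_cast h7
  exact ⟨⟨Nat.zero_le _, h8⟩, abs_le.1 h9⟩


lemma e_pos_b : (0 : ℤ) < p.e := by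
  have := p.e_ge
  have := p.l_pos
  omega

lemma St_mono_b {L : ℝ} (hL : 0 < L) {y y' : ℤ} (h : y ≤ y') : p.St L y ≤ p.St L y' := by
  have he := p.e_pos_b
  have h1 : y / (p.e : ℤ) ≤ y' / (p.e : ℤ) := Int.ediv_le_ediv he h
  have h2 : (0 : ℝ) ≤ ((y' % (p.e : ℤ) : ℤ) : ℝ) := by exact_mod_cast Int.emod_nonneg y' he.ne'
  unfold St
  rcases h1.eq_or_lt with h3 | h3
  · have h4 : y % (p.e : ℤ) ≤ y' % (p.e : ℤ) := by
      rw [Int.emod_def, Int.emod_def, h3]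
      omega
    have h5 : ((y % (p.e : ℤ) : ℤ) : ℝ) ≤ ((y' % (p.e : ℤ) : ℤ) : ℝ) := by exact_mod_cast h4
    rw [h3]
    have := min_le_min_left 1 (div_le_div_of_nonneg_right h5 hL.le)
    linarith
  · have h4 : ((y / (p.e : ℤ) : ℤ) : ℝ) + 1 ≤ ((y' / (p.e : ℤ) : ℤ) : ℝ) := by exact_mod_cast h3
    have h5 := min_le_left (1 : ℝ) (((y % (p.e : ℤ) : ℤ) : ℝ) / L)
    have h6 : (0 : ℝ) ≤ min 1 (((y' % (p.e : ℤ) : ℤ) : ℝ) / L) :=
      le_min zero_le_one (div_nonneg h2 hL.le)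
    linarith

lemma St_eq_b (L : ℝ) (k r : ℤ) (h0 : 0 ≤ r) (h1 : r < p.e) :
    p.St L (r + k * p.e) = k + min 1 ((r : ℝ) / L) := by
  have he := p.e_pos_b
  unfold St
  rw [Int.add_mul_ediv_right _ _ he.ne', Int.add_mul_emod_self_right, Int.ediv_eq_zero_of_lt h0 h1,
    Int.emod_eq_of_lt h0 h1, zero_add]

lemma St_add_e_b (L : ℝ) (y : ℤ) : p.St L (y + p.e) = p.St L y + 1 := by
  have he := p.e_pos_b
  unfold St
  have h1 : (y + p.e) / (p.e : ℤ) = y / (p.e : ℤ) + 1 := by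
    have := Int.add_mul_ediv_right y 1 he.ne'
    rwa [one_mul] at this
  rw [h1, Int.add_emod_right]
  push_cast
  ring

lemma two_l_pos_b : (0 : ℝ) < 2 * p.l := by
  have : (1 : ℝ) ≤ p.l := by exact_mod_cast p.l_pos
  linarith

lemma St_le_b (k : ℤ) {y : ℤ} (h : y ≤ k * p.e) : p.St (2 * p.l) y ≤ k := by
  have h1 := p.St_mono_b p.two_l_pos_b (y := y) (y' := 0 + k * p.e) (by omega)
  rw [p.St_eq_b _ k 0 le_rfl p.e_pos_b] at h1
  simpa using h1

lemma St_ge_b (k : ℤ) {y : ℤ} (h : k * p.e + 2 * p.l ≤ y) : (k : ℝ) + 1 ≤ p.St (2 * p.l) y := by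
  have h0 := p.e_ge
  have h2 := p.l_pos
  have h1 := p.St_mono_b p.two_l_pos_b (y := 2 * p.l + k * p.e) (y' := y) (by omega)
  rw [p.St_eq_b _ k (2 * p.l) (by omega) (by omega)] at h1
  have h3 : (((2 * p.l : ℤ) : ℝ)) / (2 * p.l) = 1 := by
    push_cast
    exact div_self p.two_l_pos_b.ne'
  rw [h3, min_self] at h1
  exact h1

lemma μ_e_b : p.μ * p.e = 1 / 100 := by
  have he : (0 : ℝ) < p.e := by exact_mod_cast p.e_pos_b
  unfold μ
  field_simp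

lemma div_e_b (x : ℝ) : x / p.e = 100 * (p.μ * x) := by
  have he : (0 : ℝ) < p.e := by exact_mod_cast p.e_pos_b
  unfold μ
  field_simp

lemma μ_mul_le_b {x y : ℤ} (h : x ≤ y) : p.μ * x ≤ p.μ * y :=
  mul_le_mul_of_nonneg_left (by exact_mod_cast h) p.μ_pos.le

lemma μ_l_b : p.μ ≤ p.μ * p.l ∧ p.μ * p.l ≤ 1 / 1900 ∧ p.μ * p.m + 10 * (p.μ * p.l) ≤ 1 / 100 ∧
    0 ≤ p.μ * p.m := by
  have h0 := p.μ_e_b
  have h1 := p.μ_pos
  have h2 : (1 : ℝ) ≤ p.l := by exact_mod_cast p.l_pos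
  have h3 : (19 : ℝ) * p.l ≤ p.e := by exact_mod_cast p.e_ge
  have h4 : (p.m : ℝ) + 10 * p.l ≤ p.e := by exact_mod_cast p.le1
  have h5 : (0 : ℝ) ≤ p.m := Nat.cast_nonneg _
  refine ⟨by nlinarith, by nlinarith, by nlinarith, by positivity⟩

lemma V0_eq_b (a : ℤ) : p.V0 a = (99 / 100 + p.μ / 2) * (p.St (2 * p.l) (a + 5 * p.l) - 2) +
    (p.μ * a + 5 * (p.μ * p.l)) := by
  have h0 := p.μ_e_b
  have h1 : 1 - p.μ * (p.e - 1 / 2) = 99 / 100 + p.μ / 2 := by linarith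
  unfold V0
  rw [h1]
  ring

lemma V0_le_b (k : ℤ) {a : ℤ} (h : a + 5 * p.l ≤ k * p.e) :
    p.V0 a ≤ (99 / 100 + p.μ / 2) * (k - 2) + (p.μ * a + 5 * (p.μ * p.l)) := by
  have h1 := p.St_le_b k h
  have h2 := p.μ_pos
  rw [V0_eq_b]
  nlinarith

lemma V0_ge_b (k : ℤ) {a : ℤ} (h : k * p.e ≤ a + 3 * p.l) :
    (99 / 100 + p.μ / 2) * (k - 1) + (p.μ * a + 5 * (p.μ * p.l)) ≤ p.V0 a := by
  have h1 := p.St_ge_b k (y := a + 5 * p.l) (by omega)
  have h2 := p.μ_pos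
  rw [V0_eq_b]
  nlinarith

lemma V0_lin_b {a : ℤ} (h : 0 ≤ a) : p.V0 a ≤ 101 * (p.μ * a) - 7 / 10 := by
  have he := p.e_pos_b
  obtain ⟨h1, h2, -, -⟩ := p.μ_l_b
  have h0 := p.μ_pos
  have h3 := p.μ_e_b
  obtain ⟨q, hq⟩ : ∃ q : ℤ, q = (a + 5 * p.l) / (p.e : ℤ) := ⟨_, rfl⟩
  have h4 : q * p.e ≤ a + 5 * p.l := hq ▸ Int.ediv_mul_le _ he.ne'
  have h5 : a + 5 * p.l ≤ (q + 1) * p.e := hq ▸ (Int.lt_ediv_add_one_mul_self _ he).le
  have h6 : (0 : ℝ) ≤ q := by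
    have : 0 ≤ q := hq ▸ Int.ediv_nonneg (by omega) he.le
    exact_mod_cast this
  have h7 := p.V0_le_b (q + 1) h5
  have h8 := p.μ_mul_le_b h4
  push_cast at h7 h8
  have h9 : p.μ * (q * p.e) = q / 100 := by
    rw [mul_left_comm, h3]
    ring
  have h10 : p.μ * q ≤ q / 1900 := by nlinarith
  rw [h9] at h8
  nlinarith

lemma V0_step_b (q : ℤ) {a : ℤ} (h0 : 0 ≤ q) (h : q * p.e ≤ a + 3 * p.l) :
    (q : ℝ) - 99 / 100 - p.μ / 2 ≤ p.V0 a := by
  obtain ⟨h1, h2, -, -⟩ := p.μ_l_b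
  have hμ := p.μ_pos
  have h3 := p.μ_e_b
  have h6 : (0 : ℝ) ≤ q := by exact_mod_cast h0
  have h7 := p.V0_ge_b q h
  have h8 := p.μ_mul_le_b h
  push_cast at h8
  have h9 : p.μ * (q * p.e) = q / 100 := by
    rw [mul_left_comm, h3]
    ring
  have h10 : 0 ≤ p.μ * q := by positivity
  rw [h9] at h8
  nlinarith

lemma V0_mid_b {a : ℤ} (h1 : p.e ≤ a + 3 * p.l) (h2 : a + 5 * p.l ≤ 2 * p.e) :
    p.V0 a = p.μ * a + 5 * (p.μ * p.l) := by
  have h3 := p.V0_le_b 2 h2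
  have h4 := p.V0_ge_b 1 (a := a) (by omega)
  push_cast at h3 h4
  linarith

lemma V0_e_b : p.V0 p.e = 1 / 100 + 5 * (p.μ * p.l) := by
  have h0 := p.e_ge
  rw [p.V0_mid_b (by omega) (by omega), Int.cast_natCast, p.μ_e_b]

lemma V0_top_b : p.V0 (p.top - p.e) = 1 / 100 + 2 * (p.μ * p.l) := by
  have h0 := p.e_ge
  have h1 := p.μ_e_b
  rw [p.V0_mid_b (by unfold top; omega) (by unfold top; omega)]
  unfold top
  push_cast
  linarith

lemma V_zero_b (a : ℤ) : p.V a 0 = p.V0 a := by simp [V]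

lemma V_pos_b (a : ℤ) {j : ℤ} (h : 0 ≤ j) : p.V a j = p.V0 a + j * (1 - p.μ / 2) := by
  simp only [V, if_pos h]

lemma V_lt_b (a : ℤ) {j : ℤ} (h : j < 0) : p.V a j =
    p.V0 (max (a - 2 * p.m * (-j - 1)) p.top - p.e) + p.μ + (-j - 1) * (1 + p.μ) := by
  simp only [V, if_neg (not_le.2 h)]

lemma V_one_b (a : ℤ) : p.V a (-1) = p.V0 (max a p.top - p.e) + p.μ := by
  rw [p.V_lt_b a (by norm_num)]
  simp

lemma w_ge_b (a j : ℤ) : 100 * (p.μ * a) + j ≤ p.w a j ∧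
    100 * (p.μ * a) + 200 * (j * (p.μ * p.m)) - j ≤ p.w a j ∧ -(j : ℝ) ≤ p.w a j := by
  unfold w
  rw [p.div_e_b, p.div_e_b]
  refine ⟨le_max_left _ _, le_trans (le_of_eq ?_) ((le_max_left _ _).trans (le_max_right _ _)),
    (le_max_right _ _).trans (le_max_right _ _)⟩
  ring

lemma V0_mono (a a' : ℤ) (h : a ≤ a') : p.V0 a + p.μ * (a' - a) ≤ p.V0 a' := by
  have h1 := p.St_mono_b p.two_l_pos_b (y := a + 5 * p.l) (y' := a' + 5 * p.l) (by omega)
  have h2 := p.μ_pos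
  rw [V0_eq_b, V0_eq_b]
  nlinarith

lemma V0_le_V0_b {a a' : ℤ} (h : a ≤ a') : p.V0 a ≤ p.V0 a' := by
  have h1 := p.V0_mono a a' h
  have h2 := p.μ_mul_le_b h
  linarith

lemma V0_lt_V0_b {a a' : ℤ} (h : a < a') : p.V0 a + p.μ ≤ p.V0 a' := by
  have h1 := p.V0_mono a a' h.le
  have h2 := p.μ_mul_le_b (x := a + 1) (y := a') h
  push_cast at h2
  linarith

lemma V0_add_e (a : ℤ) : p.V0 (a + p.e) = p.V0 a + (1 + p.μ / 2) := by
  have h1 : a + p.e + 5 * p.l = a + 5 * p.l + p.e := by ring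
  have h2 := p.μ_e_b
  rw [V0_eq_b, V0_eq_b, h1, St_add_e_b]
  push_cast
  linarith

lemma π_mem {a : ℤ} (h1 : 1 ≤ a) (h2 : a < p.e) : 1 ≤ p.π a ∧ p.π a < p.e := by
  obtain ⟨k, hk⟩ := p.odd
  unfold π
  split_ifs <;> omega

lemma π_inj {a a' : ℤ} (h1 : 1 ≤ a) (h2 : a < p.e) (h3 : 1 ≤ a') (h4 : a' < p.e)
    (h : p.π a = p.π a') : a = a' := by
  obtain ⟨k, hk⟩ := p.odd
  unfold π at h
  split_ifs at h <;> omega

lemma π_e : p.π p.e = p.e := by
  unfold π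
  split_ifs <;> omega

lemma U_lo_b {a : ℤ} (h : 2 * a < p.e) : p.U a 0 = p.V0 (2 * a) := by simp [U, h]

lemma U_hi_b {a : ℤ} (h : ¬ 2 * a < p.e) (h2 : a ≤ p.e) : p.U a 0 = 1 + p.V0 (2 * a - p.e) := by
  simp [U, h, h2]

lemma match_lo {a : ℤ} (h : 2 * a < p.e) : p.U a 0 = p.V (p.π a) 0 := by
  rw [p.U_lo_b h, V_zero_b, π, if_pos h]

lemma match_hi {a : ℤ} (h : p.e < 2 * a) (h2 : a ≤ p.e) : p.U a 0 = 1 + p.V (p.π a) 0 := by
  rw [p.U_hi_b (by omega) h2, V_zero_b, π, if_neg (by omega)]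

lemma U_eq {a j : ℤ} (h : ¬ (j = 0 ∧ a < p.e)) : p.U a j = 1 + p.V a j := by
  have he := p.e_pos_b
  unfold U
  rw [if_neg (by omega)]
  split_ifs with h1
  · obtain ⟨rfl, h2⟩ := h1
    have h3 : 2 * a - p.e = a := by omega
    rw [h3, V_zero_b]
  · rfl

lemma V_blk {a : ℤ} (h : a ≤ p.top) : p.V a (-1) = p.V 1 (-1) := by
  have h0 := p.e_ge
  have h1 := p.l_pos
  have h2 : 1 ≤ p.top := by unfold top; omega
  rw [V_one_b, V_one_b, max_eq_right h, max_eq_right h2]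

lemma V_blk_b : p.V 1 (-1) = p.V0 (p.top - p.e) + p.μ := by
  rw [← p.V_blk le_rfl, V_one_b, max_self]

lemma V_blk_mem : 0 ≤ p.V 1 (-1) ∧ p.V 1 (-1) ≤ 1 / 50 := by
  obtain ⟨h1, h2, -, -⟩ := p.μ_l_b
  have h0 := p.μ_pos
  rw [V_blk_b, V0_top_b]
  constructor <;> linarith

lemma V_e_mem : 0 ≤ p.V p.e 0 ∧ p.V p.e 0 ≤ 1 / 50 := by
  obtain ⟨h1, h2, -, -⟩ := p.μ_l_b
  have h0 := p.μ_pos
  rw [V_zero_b, V0_e_b]
  constructor <;> linarith

lemma diag {a : ℤ} (h1 : 1 ≤ a) (h2 : a < p.e) : p.U a 0 - p.V a 0 + p.μ / 2 ≤ 1 := by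
  have h0 := p.μ_pos
  rw [V_zero_b]
  by_cases h : 2 * a < p.e
  · have h3 := p.V0_lt_V0_b (a := 2 * a) (a' := a + p.e) (by omega)
    rw [V0_add_e] at h3
    rw [p.U_lo_b h]
    linarith
  · have h3 := p.V0_lt_V0_b (a := 2 * a - p.e) (a' := a) (by omega)
    rw [p.U_hi_b h h2.le]
    linarith

lemma V_neg_b {a j : ℤ} (hj : j < 0) : p.V 1 (-1) + (-j - 1) * (1 + p.μ) ≤ p.V a j := by
  have h1 := p.V0_le_V0_b (a := p.top - p.e) (a' := max (a - 2 * p.m * (-j - 1)) p.top - p.e)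
    (sub_le_sub_right (le_max_right _ _) _)
  rw [V_blk_b, p.V_lt_b a hj]
  linarith

lemma V_neg {a j : ℤ} (hj : j < 0) : p.V 1 (-1) + (-j - 1) ≤ p.V a j := by
  have h1 := p.V_neg_b (a := a) hj
  have h2 : (j : ℝ) + 1 ≤ 0 := by exact_mod_cast hj
  have h0 := p.μ_pos
  nlinarith

lemma V0_low_b {a : ℤ} (h : 1 ≤ a) : -(99 / 100) - p.μ / 2 ≤ p.V0 a := by
  have := p.V0_step_b 0 (a := a) le_rfl (by omega)
  push_cast at this
  linarith

lemma V_low {a : ℤ} (j : ℤ) (h : 1 ≤ a) : -1 + 9 / 10 * ((|j| : ℤ) : ℝ) ≤ p.V a j := by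
  obtain ⟨h1, h2, -, -⟩ := p.μ_l_b
  rcases le_or_gt 0 j with hj | hj
  · have h3 := p.V0_low_b h
    have h4 : (0 : ℝ) ≤ j := by exact_mod_cast hj
    rw [abs_of_nonneg hj, p.V_pos_b a hj]
    nlinarith
  · have h3 := p.V_neg (a := a) hj
    have h4 := p.V_blk_mem.1
    have h5 : (j : ℝ) + 1 ≤ 0 := by exact_mod_cast hj
    rw [abs_of_neg hj]
    push_cast
    linarith

lemma V_neg' {a j : ℤ} (hj : j < 0) (h : ¬ (j = -1 ∧ a ≤ p.top)) :
    p.V 1 (-1) + (-j - 1) + p.μ / 2 ≤ p.V a j := by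
  have h0 := p.μ_pos
  by_cases h1 : j = -1
  · subst h1
    have h2 : p.top < a := by omega
    have h3 := p.V0_lt_V0_b (a := p.top - p.e) (a' := a - p.e) (by omega)
    rw [V_blk_b, V_one_b, max_eq_left h2.le]
    push_cast
    linarith
  · have h2 := p.V_neg_b (a := a) hj
    have h3 : (j : ℝ) + 2 ≤ 0 := by exact_mod_cast (by omega : j + 2 ≤ 0)
    nlinarith

lemma U_le {a : ℤ} (j : ℤ) (h : 1 ≤ a) : p.U a j ≤ 51 / 50 * p.w a j + 2 := by
  obtain ⟨h1, h2, h3, h4⟩ := p.μ_l_b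
  obtain ⟨w1, w2, w3⟩ := p.w_ge_b a j
  have h0 := p.μ_pos
  have he := p.μ_e_b
  have ha := p.μ_mul_le_b (x := 0) (y := a) (by omega)
  push_cast at ha
  by_cases hc : j = 0 ∧ a < p.e
  · obtain ⟨rfl, hc⟩ := hc
    have h5 := p.diag h hc
    have h6 := p.V0_lin_b (a := a) (by omega)
    rw [V_zero_b] at h5
    push_cast at w1
    linarith
  rw [p.U_eq hc]
  rcases le_or_gt 0 j with hj | hj
  · have h5 : (0 : ℝ) ≤ j := by exact_mod_cast hj
    have h6 := p.V0_lin_b (a := a) (by omega)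
    have h7 : 0 ≤ j * p.μ := by positivity
    rw [p.V_pos_b a hj]
    linarith
  · have h5 : (j : ℝ) + 1 ≤ 0 := by exact_mod_cast hj
    have h7 : (-(j : ℝ) - 1) * p.μ ≤ (-(j : ℝ) - 1) / 100 := by nlinarith
    rw [p.V_lt_b a hj]
    rcases le_total (a - 2 * p.m * (-j - 1)) p.top with hm | hm
    · rw [max_eq_right hm, V0_top_b]
      linarith
    · have h8 := p.e_ge
      have h6 := p.V0_lin_b (a := a - 2 * p.m * (-j - 1) - p.e) (by unfold top at hm; omega)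
      rw [max_eq_left hm]
      push_cast at h6
      linarith

lemma step_ge_b (k₀ s a : ℤ) : s ≤ p.step k₀ s a ∨
    s + k₀ - 1 - (a + 3 * p.l - 1) / p.e ≤ p.step k₀ s a := by
  unfold step
  omega

lemma Rq_le {a : ℤ} (j : ℤ) (h : 1 ≤ a) : 9 / 10 ≤ p.Rq a j + p.V a j := by
  obtain ⟨h1, h2, -, -⟩ := p.μ_l_b
  have h0 := p.μ_pos
  have he := p.e_pos_b
  obtain ⟨q, hq⟩ : ∃ q : ℤ, q = (a + 3 * p.l - 1) / (p.e : ℤ) := ⟨_, rfl⟩
  have h4 : q * p.e ≤ a + 3 * p.l - 1 := hq ▸ Int.ediv_mul_le _ he.ne'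
  have h5 : 0 ≤ q := hq ▸ Int.ediv_nonneg (by omega) he.le
  have h6 := p.V0_step_b q (a := a) h5 (by omega)
  unfold Rq
  split_ifs with c0 c1 c2
  · subst c0
    have h7 : 2 - q ≤ p.step 1 2 a := by
      have := p.step_ge_b 1 2 a
      omega
    have h8 : (2 : ℝ) - q ≤ p.step 1 2 a := by exact_mod_cast h7
    rw [V_zero_b]
    linarith
  · subst c1
    have h7 : 1 - q ≤ p.step 1 1 a := by
      have := p.step_ge_b 1 1 a
      omega
    have h8 : (1 : ℝ) - q ≤ p.step 1 1 a := by exact_mod_cast h7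
    rw [p.V_pos_b a (by norm_num)]
    push_cast
    linarith
  · subst c2
    rcases p.step_ge_b 3 1 a with h7 | h7
    · have h8 : (1 : ℝ) ≤ p.step 3 1 a := by exact_mod_cast h7
      have h9 := p.V_neg (a := a) (j := -1) (by norm_num)
      have h10 := p.V_blk_mem.1
      push_cast at h9
      linarith
    · have h8 : (3 : ℝ) - q ≤ p.step 3 1 a := by exact_mod_cast (by omega : 3 - q ≤ p.step 3 1 a)
      have h9 := p.V0_add_e (a - p.e)
      have h10 := p.V0_le_V0_b (a := a - p.e) (a' := max a p.top - p.e)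
        (sub_le_sub_right (le_max_left _ _) _)
      rw [sub_add_cancel] at h9
      rw [V_one_b]
      linarith
  · have m1 : ((-2 : ℤ) : ℝ) ≤ (max (-2) (2 - |j|) : ℤ) := by exact_mod_cast le_max_left _ _
    have m2 : ((2 - |j| : ℤ) : ℝ) ≤ (max (-2) (2 - |j|) : ℤ) := by exact_mod_cast le_max_right _ _
    generalize ((max (-2) (2 - |j|) : ℤ) : ℝ) = M at m1 m2 ⊢
    rcases le_or_gt 0 j with hj | hj
    · rcases le_or_gt 5 j with h7 | h7
      · have h8 := p.V_low j h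
        have h9 : (5 : ℝ) ≤ j := by exact_mod_cast h7
        rw [abs_of_nonneg hj] at h8
        push_cast at m1
        linarith
      · have h8 := p.V0_low_b h
        have h9 : (j : ℝ) ≤ 5 := by exact_mod_cast h7.le
        have h10 : j * p.μ ≤ 5 * p.μ := mul_le_mul_of_nonneg_right h9 h0.le
        rw [abs_of_nonneg hj] at m2
        push_cast at m2
        rw [p.V_pos_b a hj]
        linarith
    · have h8 := p.V_neg (a := a) hj
      have h9 := p.V_blk_mem.1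
      rw [abs_of_neg hj] at m2
      push_cast at m2
      linarith

lemma y_lo {a : ℤ} (h : 2 * a < p.e) : p.U a 0 - p.V p.e 0 + p.μ / 2 ≤ 0 := by
  have h0 := p.μ_pos
  have h1 := p.V0_lt_V0_b h
  rw [p.U_lo_b h, V_zero_b]
  linarith

lemma y_mid {a : ℤ} (h : a < p.e) : p.U a 0 - p.V p.e 0 + p.μ / 2 ≤ 1 := by
  have h0 := p.μ_pos
  by_cases h1 : 2 * a < p.e
  · have := p.y_lo h1
    linarith
  · have h2 := p.V0_lt_V0_b (a := 2 * a - p.e) (a' := p.e) (by omega)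
    rw [p.U_hi_b h1 h.le, V_zero_b]
    linarith

lemma y_far {a j : ℤ} (h1 : 1 ≤ a) (h : ¬ (j = 0 ∧ a ≤ p.e)) :
    p.U a j - p.V p.e 0 + p.μ / 2 ≤ 2 * p.w a j - 1 := by
  obtain ⟨l1, l2, l3, l4⟩ := p.μ_l_b
  obtain ⟨w1, w2, w3⟩ := p.w_ge_b a j
  have h0 := p.μ_pos
  have he := p.μ_e_b
  have hl := p.e_ge
  rw [p.U_eq (by omega), V_zero_b, V0_e_b]
  rcases lt_trichotomy j 0 with hj | hj | hj
  · have h5 : (j : ℝ) + 1 ≤ 0 := by exact_mod_cast hj
    have h7 : (-(j : ℝ) - 1) * p.μ ≤ (-(j : ℝ) - 1) / 100 := by nlinarith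
    rw [p.V_lt_b a hj]
    rcases le_total (a - 2 * p.m * (-j - 1)) p.top with hm | hm
    · rw [max_eq_right hm, V0_top_b]
      linarith
    · rw [max_eq_left hm]
      have h9 := p.μ_mul_le_b hm
      unfold top at hm h9
      push_cast at h9
      rcases le_total (a - 2 * p.m * (-j - 1) - p.e + 5 * p.l) (2 * p.e) with h6 | h6
      · have h8 := p.V0_le_b 2 h6
        push_cast at h8
        linarith
      · have h8 := p.V0_lin_b (a := a - 2 * p.m * (-j - 1) - p.e) (by omega)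
        have h10 := p.μ_mul_le_b h6
        push_cast at h8 h10
        linarith
  · subst hj
    have h5 := p.μ_mul_le_b (x := p.e + 1) (y := a) (by omega)
    rw [V_zero_b]
    push_cast at h5 w1
    rcases le_total (a + 5 * p.l) (2 * p.e) with h6 | h6
    · have h8 := p.V0_le_b 2 h6
      push_cast at h8
      linarith
    · have h8 := p.V0_lin_b (a := a) (by omega)
      have h10 := p.μ_mul_le_b h6
      push_cast at h10
      linarith
  · have h5 : (1 : ℝ) ≤ j := by exact_mod_cast hj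
    have h7 : 1 * p.μ ≤ j * p.μ := mul_le_mul_of_nonneg_right h5 h0.le
    have h9 := p.μ_mul_le_b h1
    push_cast at h9
    rw [p.V_pos_b a hj.le]
    rcases le_total (a + 5 * p.l) (1 * p.e) with h6 | h6
    · have h8 := p.V0_le_b 1 h6
      push_cast at h8
      linarith
    · have h8 := p.V0_lin_b (a := a) (by omega)
      have h10 := p.μ_mul_le_b h6
      push_cast at h10
      linarith

lemma U_neg_one {a : ℤ} (h : a ≤ 3 * p.e - 5 * p.l) : p.U a (-1) ≤ 11 / 10 := by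
  obtain ⟨l1, l2, -, -⟩ := p.μ_l_b
  have he := p.μ_e_b
  have hl := p.e_ge
  have h1 : max a p.top - p.e + 5 * p.l ≤ 2 * p.e := by
    unfold top
    omega
  have h2 := p.V0_le_b 2 h1
  have h3 := p.μ_mul_le_b h1
  rw [p.U_eq (by omega), V_one_b]
  generalize max a p.top - p.e = b at h2 h3 ⊢
  push_cast at h2 h3
  linarith

end Pool.Agent.Lib.MP_788af2_nt.AG.Pm
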