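import Pool.Agent.Lib.MP_788af2_nt.AG.Core
import Pool.Agent.Lib.MP_788af2_nt.AG.PotA

/-!
The algebra of arrays, first half.
-/

set_option linter.unusedSectionVars false

namespace Pool.Agent.Lib.MP_788af2_nt.AG

open Polynomial Filter Topology

variable {A : Type} [NormedCommRing A] [IsUltrametricDist A] [CompleteSpace A] [NormOneClass A]
  {p : Pm} {a b x y : Arr A}

lemma norm_conv_le {u : ℤ × ℤ} {C : ℝ} (hC : 0 ≤ C) (h : ∀ v, ‖a v‖ * ‖b (u - v)‖ ≤ C) :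
    ‖conv a b u‖ ≤ C :=
  IsUltrametricDist.norm_tsum_le_of_forall_le_of_nonneg hC fun v => (norm_mul_le _ _).trans (h v)

lemma conv_comm (a b : Arr A) : conv a b = conv b a := by
  funext u
  unfold conv
  rw [← (Equiv.subLeft u).tsum_eq]
  refine tsum_congr fun v => ?_
  simp [mul_comm]

lemma one_conv (a : Arr A) : conv one a = a := by
  funext u
  unfold conv
  rw [tsum_eq_single 0 fun v hv => by simp [one, hv]]
  simp [one]

lemma a1_dbl_inj : Function.Injective fun v : ℤ × ℤ => ((2 * v.1, 2 * v.2) : ℤ × ℤ) := by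
  intro v w h
  simp only [Prod.mk.injEq] at h
  exact Prod.ext (by omega) (by omega)

lemma a1_phi_dbl (a : Arr A) (v : ℤ × ℤ) : phi a (2 * v.1, 2 * v.2) = a v := by
  simp [phi]

lemma a1_tsum_phi (a : Arr A) (f : ℤ × ℤ → A) :
    ∑' v, phi a v * f v = ∑' v, a v * f (2 * v.1, 2 * v.2) := by
  rw [← a1_dbl_inj.tsum_eq (f := fun v => phi a v * f v)]
  · exact tsum_congr fun v => by simp only [a1_phi_dbl]
  · intro v hv
    by_cases h : 2 ∣ v.1 ∧ 2 ∣ v.2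
    · obtain ⟨⟨i, hi⟩, ⟨j, hj⟩⟩ := h
      exact ⟨(i, j), Prod.ext hi.symm hj.symm⟩
    · exact absurd (by simp [phi, h]) hv

lemma psi_conv_phi (a b : Arr A) : psi (conv (phi a) b) = conv a (psi b) := by
  funext u
  simp only [psi, conv]
  rw [a1_tsum_phi]
  refine tsum_congr fun v => ?_
  congr 2
  simp only [Prod.mk_sub_mk, Prod.fst_sub, Prod.snd_sub, mul_sub]

lemma phi_conv (a b : Arr A) : phi (conv a b) = conv (phi a) (phi b) := by
  funext u
  by_cases h : 2 ∣ u.1 ∧ 2 ∣ u.2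
  · obtain ⟨⟨i, hi⟩, ⟨j, hj⟩⟩ := h
    obtain rfl : u = (2 * (i, j).1, 2 * (i, j).2) := Prod.ext hi hj
    have h1 := congrFun (psi_conv_phi a (phi b)) (i, j)
    have h2 : psi (phi b) = b := funext fun v => a1_phi_dbl b v
    rw [h2] at h1
    rw [a1_phi_dbl, ← h1]
    rfl
  · rw [show phi (conv a b) u = 0 by simp [phi, h]]
    simp only [conv]
    rw [a1_tsum_phi]
    symm
    refine (tsum_congr fun v => ?_).trans tsum_zero
    have : ¬(2 ∣ u.1 - 2 * v.1 ∧ 2 ∣ u.2 - 2 * v.2) := by omega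
    rw [show phi b (u - (2 * v.1, 2 * v.2)) = 0 from if_neg this, mul_zero]

lemma conv_phi_zero (a b : Arr A) : conv (phi a) b 0 = conv a (psi b) 0 := by
  rw [← psi_conv_phi]
  rfl

lemma dt_phi (a : Arr A) : dt (phi a) = 2 • phi (dt a) := by
  funext u
  simp only [dt, phi, Pi.smul_apply]
  split_ifs with h
  · obtain ⟨⟨i, hi⟩, -⟩ := h
    rw [hi, Int.mul_ediv_cancel_left _ two_ne_zero, mul_smul, two_smul, two_smul]
  · simp

lemma dx_phi (a : Arr A) : dx (phi a) = 2 • phi (dx a) := by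
  funext u
  simp only [dx, phi, Pi.smul_apply]
  split_ifs with h
  · obtain ⟨-, ⟨i, hi⟩⟩ := h
    rw [hi, Int.mul_ediv_cancel_left _ two_ne_zero, mul_smul, two_smul, two_smul]
  · simp

lemma psi_dt (a : Arr A) : psi (dt a) = 2 • dt (psi a) := by
  funext u
  simp only [dt, psi, Pi.smul_apply]
  rw [mul_smul, two_smul, two_smul]

lemma psi_dx (a : Arr A) : psi (dx a) = 2 • dx (psi a) := by
  funext u
  simp only [dx, psi, Pi.smul_apply]
  rw [mul_smul, two_smul, two_smul]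

lemma a1_le {r C s t : ℝ} (h0 : 0 ≤ r) (h : r ≤ C * 2 ^ s) (hst : s ≤ t) : r ≤ C * 2 ^ t := by
  have h2 : (0 : ℝ) < 2 ^ s := Real.rpow_pos_of_pos two_pos _
  have hC : 0 ≤ C := le_of_mul_le_mul_right (by simpa using h0.trans h) h2
  exact h.trans (mul_le_mul_of_nonneg_left (Real.rpow_le_rpow_of_exponent_le one_le_two hst) hC)

lemma a1_nonneg {r C s : ℝ} (h0 : 0 ≤ r) (h : r ≤ C * 2 ^ s) : 0 ≤ C :=
  le_of_mul_le_mul_right (by simpa using h0.trans h) (Real.rpow_pos_of_pos two_pos s)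

lemma a1_mul {r r' C C' s s' t : ℝ} (h0 : 0 ≤ r) (h0' : 0 ≤ r') (h : r ≤ C * 2 ^ s)
    (h' : r' ≤ C' * 2 ^ s') (hst : s + s' ≤ t) : r * r' ≤ C * C' * 2 ^ t := by
  refine a1_le (mul_nonneg h0 h0') ?_ hst
  rw [Real.rpow_add two_pos]
  calc r * r' ≤ C * 2 ^ s * (C' * 2 ^ s') := mul_le_mul h h' h0' (h0.trans h)
    _ = _ := by ring

lemma a1_div_nonneg (p : Pm) {n : ℤ} (h : 0 ≤ n) : 0 ≤ (n : ℝ) / p.e :=
  div_nonneg (by exact_mod_cast h) p.a1_e_posR.le

lemma a1_abs_nonneg (k : ℤ) : (0 : ℝ) ≤ ((|k| : ℤ) : ℝ) := by exact_mod_cast abs_nonneg k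

lemma a1_abs_add (k l : ℤ) : ((|k| : ℤ) : ℝ) ≤ ((|l| : ℤ) : ℝ) + ((|k - l| : ℤ) : ℝ) := by
  have : |k| ≤ |l| + |k - l| := by simpa using abs_add_le l (k - l)
  exact_mod_cast this

lemma a1_abs_sub (k l : ℤ) : ((|k - l| : ℤ) : ℝ) ≤ ((|k| : ℤ) : ℝ) + ((|l| : ℤ) : ℝ) := by
  exact_mod_cast abs_sub k l

/-- It is enough to bound the exponents with `0 ≤ n`. -/
lemma a1_dec (h0 : ∀ u : ℤ × ℤ, u.1 < 0 → a u = 0) {C : ℝ} (h : ∀ u : ℤ × ℤ, 0 ≤ u.1 →
    ‖a u‖ ≤ C * 2 ^ (-(3 / 10 * ((u.1 : ℝ) / p.e) + 2 / 5 * ((|u.2| : ℤ) : ℝ)))) : Dec p a := by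
  have hC := a1_nonneg (norm_nonneg _) (h 0 le_rfl)
  refine ⟨h0, C, fun u => ?_⟩
  rcases lt_or_ge u.1 0 with hu | hu
  · rw [h0 u hu, norm_zero]
    positivity
  · exact h u hu

lemma Dec.mod (h : Dec p a) : Mod p a := by
  obtain ⟨h0, C, h⟩ := h
  have hC := a1_nonneg (norm_nonneg _) (h 0)
  refine ⟨C, fun u => ?_⟩
  rcases lt_or_ge u.1 0 with hu | hu
  · rw [h0 u hu, norm_zero]
    positivity
  · have h1 := a1_div_nonneg p hu
    have h2 := a1_abs_nonneg u.2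
    exact a1_le (norm_nonneg _) (h u) (by linarith)

lemma Dec.summable (ha : Dec p a) (hx : Mod p x) (u : ℤ × ℤ) :
    Summable fun v => a v * x (u - v) := by
  obtain ⟨h0, C, h⟩ := ha
  obtain ⟨C', h'⟩ := hx
  have hinj : Function.Injective fun v : ℕ × ℤ => (((v.1 : ℤ), v.2) : ℤ × ℤ) := by
    intro v w e
    simp only [Prod.mk.injEq] at e
    exact Prod.ext (by omega) e.2
  rw [← hinj.summable_iff]
  · refine NonarchimedeanAddGroup.summable_of_tendsto_cofinite_zero ?_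
    rw [tendsto_zero_iff_norm_tendsto_zero]
    set D : ℝ := -(13 / 50 * ((u.1 : ℝ) / p.e)) + 3 / 10 * ((|u.2| : ℤ) : ℝ)
    have h1 : Tendsto (fun v : ℕ × ℤ => D - 1 / 25 * p.w v.1 v.2) cofinite atBot :=
      tendsto_atBot_add_const_left _ _
        (tendsto_neg_atTop_atBot.comp (p.w_tendsto.const_mul_atTop (by norm_num)))
    have h2 := ((tendsto_rpow_atBot_of_base_gt_one 2 one_lt_two).comp h1).const_mul (C * C')
    rw [mul_zero] at h2
    refine squeeze_zero (fun _ => norm_nonneg _) (fun v => (norm_mul_le _ _).trans ?_) h2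
    refine a1_mul (norm_nonneg _) (norm_nonneg _) (h _) (h' _) ?_
    have h3 := p.w_le v.2 (Int.natCast_nonneg v.1)
    have h4 := a1_abs_sub u.2 v.2
    have h5 := a1_abs_nonneg v.2
    simp only [Prod.fst_sub, Prod.snd_sub, Int.cast_sub, sub_div, D] at h3 h4 h5 ⊢
    linarith
  · intro v hv
    have : v.1 < 0 := by
      by_contra e
      exact hv ⟨(v.1.toNat, v.2), Prod.ext (by simp only; omega) rfl⟩
    rw [h0 v this, zero_mul]

lemma Dec.conv (ha : Dec p a) (hb : Dec p b) : Dec p (conv a b) := by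
  obtain ⟨h0, C, h⟩ := ha
  obtain ⟨h0', C', h'⟩ := hb
  have hC := a1_nonneg (norm_nonneg _) (h 0)
  have hC' := a1_nonneg (norm_nonneg _) (h' 0)
  refine ⟨fun u hu => (tsum_congr fun v => ?_).trans tsum_zero, C * C', fun u =>
    norm_conv_le (by positivity) fun v => a1_mul (norm_nonneg _) (norm_nonneg _) (h _) (h' _) ?_⟩
  · rcases lt_or_ge v.1 0 with hv | hv
    · rw [h0 v hv, zero_mul]
    · rw [h0' (u - v) (by simp only [Prod.fst_sub]; omega), mul_zero]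
  · have h4 := a1_abs_add u.2 v.2
    simp only [Prod.fst_sub, Prod.snd_sub, Int.cast_sub, sub_div] at h4 ⊢
    linarith

lemma Dec.conv_mod (ha : Dec p a) (hx : Mod p x) : Mod p (AG.conv a x) := by
  obtain ⟨h0, C, h⟩ := ha
  obtain ⟨C', h'⟩ := hx
  have hC := a1_nonneg (norm_nonneg _) (h 0)
  have hC' := a1_nonneg (norm_nonneg _) (h' 0)
  refine ⟨C * C', fun u => norm_conv_le (by positivity) fun v => ?_⟩
  rcases lt_or_ge v.1 0 with hv | hv
  · rw [h0 v hv, norm_zero, zero_mul]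
    positivity
  · refine a1_mul (norm_nonneg _) (norm_nonneg _) (h _) (h' _) ?_
    have h3 := a1_div_nonneg p hv
    have h4 := a1_abs_sub u.2 v.2
    have h5 := a1_abs_nonneg v.2
    simp only [Prod.fst_sub, Prod.snd_sub, Int.cast_sub, sub_div] at h4 ⊢
    linarith

lemma Dec.add (ha : Dec p a) (hb : Dec p b) : Dec p (a + b) := by
  obtain ⟨h0, C, h⟩ := ha
  obtain ⟨h0', C', h'⟩ := hb
  refine ⟨fun u hu => by rw [Pi.add_apply, h0 u hu, h0' u hu, add_zero], C + C', fun u => ?_⟩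
  rw [add_mul]
  exact (norm_add_le _ _).trans (add_le_add (h u) (h' u))

lemma Dec.of_le (hb : Dec p b) (h : ∀ u, ‖a u‖ ≤ ‖b u‖) : Dec p a := by
  obtain ⟨h0, C, h'⟩ := hb
  exact ⟨fun u hu => norm_le_zero_iff.1 (by simpa [h0 u hu] using h u), C,
    fun u => (h u).trans (h' u)⟩

lemma Dec.neg (ha : Dec p a) : Dec p (-a) := ha.of_le fun u => by simp

lemma Dec.sub (ha : Dec p a) (hb : Dec p b) : Dec p (a - b) := by
  rw [sub_eq_add_neg]
  exact ha.add hb.neg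

lemma Dec.smul (ha : Dec p a) (c : A) : Dec p (c • a) := by
  obtain ⟨h0, C, h⟩ := ha
  refine ⟨fun u hu => by rw [Pi.smul_apply, h0 u hu, smul_zero], ‖c‖ * C, fun u => ?_⟩
  rw [mul_assoc]
  exact (norm_mul_le _ _).trans (mul_le_mul_of_nonneg_left (h u) (norm_nonneg _))

lemma Dec.dt (ha : Dec p a) : Dec p (dt a) :=
  ha.of_le fun _ => IsUltrametricDist.norm_zsmul_le _ _

lemma Dec.dx (ha : Dec p a) : Dec p (dx a) :=
  ha.of_le fun _ => IsUltrametricDist.norm_zsmul_le _ _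

lemma Dec.psi (ha : Dec p a) : Dec p (psi a) := by
  obtain ⟨h0, C, h⟩ := ha
  refine a1_dec (C := C) (fun u hu => h0 _ (by simp only; omega)) fun u hu =>
    a1_le (norm_nonneg _) (h _) ?_
  have h3 := a1_div_nonneg p hu
  have h5 := a1_abs_nonneg u.2
  simp only [abs_mul, Int.cast_mul, Int.cast_ofNat, abs_two, mul_div_assoc] at h3 h5 ⊢
  linarith

lemma dec_of_w (h0 : ∀ u : ℤ × ℤ, u.1 < 0 → a u = 0) {C : ℝ}
    (h : ∀ u : ℤ × ℤ, 0 ≤ u.1 → ‖a u‖ ≤ C * 2 ^ (-p.w u.1 u.2)) : Dec p a :=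
  a1_dec h0 fun u hu => a1_le (norm_nonneg _) (h u hu) (neg_le_neg (p.le_w u.2 hu))

lemma dec_phi_of_w (h0 : ∀ u : ℤ × ℤ, u.1 < 0 → a u = 0) {C : ℝ}
    (h : ∀ u : ℤ × ℤ, 0 ≤ u.1 → ‖a u‖ ≤ C * 2 ^ (-(2 * p.w u.1 u.2))) : Dec p (phi a) := by
  have hC := a1_nonneg (norm_nonneg _) (h 0 le_rfl)
  refine dec_of_w (C := C) (fun u hu => ?_) fun u hu => ?_
  · simp only [phi]
    split_ifs
    · exact h0 _ (by simp only; omega)
    · rfl
  · by_cases h2 : 2 ∣ u.1 ∧ 2 ∣ u.2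
    · obtain ⟨⟨i, hi⟩, ⟨j, hj⟩⟩ := h2
      obtain rfl : u = (2 * (i, j).1, 2 * (i, j).2) := Prod.ext hi hj
      rw [a1_phi_dbl, p.w_two]
      exact h _ (by simp only at hu ⊢; omega)
    · rw [show phi a u = 0 from if_neg h2, norm_zero]
      positivity

lemma dec_of_finite (h0 : ∀ u : ℤ × ℤ, u.1 < 0 → a u = 0) (h : (Function.support a).Finite) :
    Dec p a := by
  refine dec_of_w (C := ∑ u ∈ h.toFinset, ‖a u‖ * 2 ^ p.w u.1 u.2) h0 fun u _ => ?_
  by_cases hu : a u = 0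
  · rw [hu, norm_zero]
    positivity
  · have h1 := Finset.single_le_sum (f := fun u : ℤ × ℤ => ‖a u‖ * 2 ^ p.w u.1 u.2)
      (fun _ _ => by positivity) (h.mem_toFinset.2 hu)
    rw [Real.rpow_neg two_pos.le, ← div_eq_mul_inv, le_div_iff₀ (by positivity)]
    exact h1

lemma dec_one : Dec p (one : Arr A) :=
  dec_of_finite (fun u hu => if_neg fun e => by simp [e] at hu)
    ((Set.finite_singleton 0).subset fun u hu => by
      by_contra e
      exact hu (if_neg e))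

lemma Mod.add (hx : Mod p x) (hy : Mod p y) : Mod p (x + y) := by
  obtain ⟨C, h⟩ := hx
  obtain ⟨C', h'⟩ := hy
  refine ⟨C + C', fun u => ?_⟩
  rw [add_mul]
  exact (norm_add_le _ _).trans (add_le_add (h u) (h' u))

lemma Mod.of_le (hy : Mod p y) (h : ∀ u, ‖x u‖ ≤ ‖y u‖) : Mod p x := by
  obtain ⟨C, h'⟩ := hy
  exact ⟨C, fun u => (h u).trans (h' u)⟩

lemma Mod.neg (hx : Mod p x) : Mod p (-x) := hx.of_le fun u => by simp

lemma Mod.sub (hx : Mod p x) (hy : Mod p y) : Mod p (x - y) := by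
  rw [sub_eq_add_neg]
  exact hx.add hy.neg

lemma Mod.smul (hx : Mod p x) (c : A) : Mod p (c • x) := by
  obtain ⟨C, h⟩ := hx
  refine ⟨‖c‖ * C, fun u => ?_⟩
  rw [mul_assoc]
  exact (norm_mul_le _ _).trans (mul_le_mul_of_nonneg_left (h u) (norm_nonneg _))

lemma Mod.dt (hx : Mod p x) : Mod p (dt x) :=
  hx.of_le fun _ => IsUltrametricDist.norm_zsmul_le _ _

lemma Mod.dx (hx : Mod p x) : Mod p (dx x) :=
  hx.of_le fun _ => IsUltrametricDist.norm_zsmul_le _ _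

lemma Mod.sum {α : Type} (s : Finset α) {f : α → Arr A} (h : ∀ i ∈ s, Mod p (f i)) :
    Mod p (∑ i ∈ s, f i) :=
  Finset.sum_induction f (Mod p) (fun _ _ => Mod.add) ⟨0, fun u => by simp⟩ h

lemma mod_of_neg (h0 : ∀ u : ℤ × ℤ, 0 < u.1 → x u = 0) {C : ℝ} (h : ∀ u : ℤ × ℤ, ‖x u‖ ≤
    C * 2 ^ (1 / 4 * (((-u.1 : ℤ) : ℝ) / p.e) + 1 / 4 * ((|u.2| : ℤ) : ℝ))) :
    Mod p x ∧ Mod p (phi x) := by
  have hC := a1_nonneg (norm_nonneg _) (h 0)
  refine ⟨⟨C, fun u => ?_⟩, C, fun u => ?_⟩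
  · rcases lt_or_ge 0 u.1 with hu | hu
    · rw [h0 u hu, norm_zero]
      positivity
    · refine a1_le (norm_nonneg _) (h u) ?_
      have h3 := a1_div_nonneg p (neg_nonneg.2 hu)
      have h5 := a1_abs_nonneg u.2
      simp only [Int.cast_neg, neg_div] at h3 ⊢
      linarith
  · by_cases h2 : 2 ∣ u.1 ∧ 2 ∣ u.2
    · obtain ⟨⟨i, hi⟩, ⟨j, hj⟩⟩ := h2
      obtain rfl : u = (2 * (i, j).1, 2 * (i, j).2) := Prod.ext hi hj
      rw [a1_phi_dbl]
      rcases lt_or_ge 0 i with hu | hu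
      · rw [h0 _ hu, norm_zero]
        positivity
      · refine a1_le (norm_nonneg _) (h _) ?_
        have h3 := a1_div_nonneg p (neg_nonneg.2 hu)
        have h5 := a1_abs_nonneg j
        simp only [Int.cast_neg, neg_div, abs_mul, Int.cast_mul, Int.cast_ofNat, abs_two,
          mul_div_assoc] at h3 h5 ⊢
        linarith
    · rw [show phi x u = 0 from if_neg h2, norm_zero]
      positivity

end Pool.Agent.Lib.MP_788af2_nt.AG
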