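import Pool.Agent.Lib.MP_788af2_nt.AG.Psi

/-!
The unit ball and the reduction.
-/

set_option linter.unusedSectionVars false

namespace Pool.Agent.Lib.MP_788af2_nt.AG

/-- The unit ball. -/
def uball (K : Type) [NormedField K] [IsUltrametricDist K] : Subring K where
  carrier := {x | ‖x‖ ≤ 1}
  mul_mem' hx hy := (norm_mul_le _ _).trans (mul_le_one₀ hx (norm_nonneg _) hy)
  one_mem' := norm_one.le
  add_mem' hx hy := (IsUltrametricDist.norm_add_le_max _ _).trans (max_le hx hy)
  zero_mem' := by simp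
  neg_mem' hx := (norm_neg _).le.trans hx

lemma uball_dvd {K : Type} [NormedField K] [IsUltrametricDist K] (h2 : ‖(2 : K)‖ = 1 / 2) (J : ℕ)
    (x : uball K) : (2 : uball K) ^ J ∣ x ↔ ‖(x : K)‖ ≤ (1 / 2) ^ J := by
  have h0 : (2 : K) ≠ 0 := fun h => by rw [h, norm_zero] at h2; norm_num at h2
  have e : (((2 : uball K) ^ J : uball K) : K) = 2 ^ J := by
    rw [SubmonoidClass.coe_pow]; rfl
  constructor
  · rintro ⟨y, rfl⟩
    rw [Subring.coe_mul, e, norm_mul, norm_pow, h2]
    exact mul_le_of_le_one_right (by positivity) y.2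
  · intro h
    refine ⟨⟨x / 2 ^ J, ?_⟩, Subtype.ext ?_⟩
    · change ‖_‖ ≤ 1
      rw [norm_div, norm_pow, h2]
      exact div_le_one_of_le₀ h (by positivity)
    · rw [Subring.coe_mul, e]
      field_simp

/-- The reduction as a ring homomorphism. -/
noncomputable def Lift.hom {K κ : Type} [NontriviallyNormedField K] [IsUltrametricDist K]
    [CompleteSpace K] [Field κ] (ℓ : Lift K κ) : uball K →+* κ where
  toFun x := ℓ.red x
  map_one' := ℓ.red_one
  map_mul' x y := ℓ.red_mul _ _ x.2 y.2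
  map_zero' := ℓ.red_zero
  map_add' x y := ℓ.red_add _ _ x.2 y.2

lemma Lift.hom_eq_zero {K κ : Type} [NontriviallyNormedField K] [IsUltrametricDist K]
    [CompleteSpace K] [Field κ] (ℓ : Lift K κ) (x : uball K) :
    ℓ.hom x = 0 ↔ ‖(x : K)‖ < 1 := by
  refine (ℓ.red_eq_zero _ x.2).trans ⟨fun h => by linarith, fun h => ?_⟩
  by_cases h0 : (x : K) = 0
  · rw [h0, norm_zero]; norm_num
  obtain ⟨n, hn⟩ := ℓ.disc _ h0
  rw [hn] at h ⊢
  have h1 : n < 0 := by
    by_contra h2
    exact absurd (one_le_zpow₀ (one_le_two (α := ℝ)) (not_lt.1 h2)) (not_le.2 h)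
  exact (zpow_le_zpow_right₀ one_le_two (by omega : n ≤ -1)).trans (by norm_num)

end Pool.Agent.Lib.MP_788af2_nt.AG
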