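import Pool.Agent.Lib.MP_788af2_nt.AS.Defs

/-!
Analytic ranks of Artin-Schreier twists in characteristic two: basic definitions.
-/

set_option linter.unusedSectionVars false

namespace Pool.Agent.Lib.MP_788af2_nt.AG

open Pool.Agent.Lib.MP_788af2_nt.AS Matrix Filter Topology

/-- The determinant (even size) or the weighted sum of the principal minors (odd size). -/
def Dl {W O : Type} [Fintype W] [DecidableEq W] [CommRing O] (wt : W → ℤ) (M : Matrix W W O) : O :=
  if Even (Fintype.card W) then M.det else ∑ v, (wt v : O) * M.adjugate v v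

/-- An unramified lifting `K` of the field `κ`, with Teichmueller lifts and reduction. -/
structure Lift (K κ : Type) [NontriviallyNormedField K] [Field κ] where
  /-- The Teichmueller lift. -/
  τ : κ →*₀ K
  /-- The reduction (meaningful on the unit ball). -/
  red : K → κ
  two : ‖(2 : K)‖ = 1 / 2
  disc : ∀ x : K, x ≠ 0 → ∃ n : ℤ, ‖x‖ = 2 ^ n
  τ_le : ∀ x, ‖τ x‖ ≤ 1
  red_τ : ∀ x, red (τ x) = x
  red_add : ∀ x y, ‖x‖ ≤ 1 → ‖y‖ ≤ 1 → red (x + y) = red x + red y
  red_mul : ∀ x y, ‖x‖ ≤ 1 → ‖y‖ ≤ 1 → red (x * y) = red x * red y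
  red_eq_zero : ∀ x, ‖x‖ ≤ 1 → (red x = 0 ↔ ‖x‖ ≤ 1 / 2)

/-- The group algebra of `G I` over `K` with the norm for which `‖1 - γ i‖ = 2 ^ (-δ i)`. -/
structure Cube (K I A : Type) [NontriviallyNormedField K] [Fintype I] [DecidableEq I]
    [NormedCommRing A] [NormedAlgebra K A] (δ : I → ℝ) where
  /-- The group elements. -/
  γ : G I → A
  /-- The coordinates. -/
  co : A →ₗ[K] (G I → K)
  /-- The characters. -/
  ev : G I → A →ₐ[K] K
  γ_zero : γ 0 = 1
  γ_add : ∀ g h, γ (g + h) = γ g * γ h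
  co_γ : ∀ g, co (γ g) = Pi.single g 1
  sum_co : ∀ a, ∑ g, co a g • γ g = a
  ev_γ : ∀ ξ g, ev ξ (γ g) = (sg (ξ ⬝ᵥ g) : K)
  γ_le : ∀ g, ‖γ g‖ ≤ 1
  one_sub : ∀ i, ‖1 - γ (Pi.single i 1)‖ ≤ 2 ^ (-δ i)
  co_le : ∀ a g, ‖co a g‖ ≤ 2 ^ (∑ i, δ i) * ‖a‖
  ev_le : ∀ ξ a, ‖ev ξ a‖ ≤ ‖a‖

/-- Entire power series. -/
def Ent {K : Type} [NormedField K] (f : PowerSeries K) : Prop :=
  ∀ R : ℝ, Tendsto (fun n => ‖PowerSeries.coeff n f‖ * R ^ n) atTop (𝓝 0)

/-- The value of a power series. -/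
noncomputable def val {K : Type} [NormedField K] (x : K) (f : PowerSeries K) : K :=
  ∑' n, PowerSeries.coeff n f * x ^ n

/-- `D = exp (∑ s n X ^ n / n)`, the sum over `n ≥ 1`. -/
def IsExp {R : Type} [CommRing R] (s : ℕ → R) (D : PowerSeries R) : Prop :=
  PowerSeries.constantCoeff D = 1 ∧
    PowerSeries.derivative R D = PowerSeries.mk (fun n => s (n + 1)) * D

/-- The power series `L` is rational and vanishes to order `r` at `1 / q`. -/
def HasOrd (q : ℕ) (L : PowerSeries ℚ) (r : ℕ) : Prop :=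
  ∃ P Q : Polynomial ℚ, P.eval (1 / q : ℚ) ≠ 0 ∧ Q.eval (1 / q : ℚ) ≠ 0 ∧
    (Q : PowerSeries ℚ) * L = ((1 - Polynomial.C (q : ℚ) * Polynomial.X) ^ r * P : Polynomial ℚ)

section mat

variable {ι A : Type} [NormedCommRing A]

/-- The product of infinite matrices. -/
noncomputable def mmul (M N : ι → ι → A) (r c : ι) : A := ∑' s, M r s * N s c

/-- The positive powers: `mpow M n = M ^ (n + 1)`. -/
noncomputable def mpow (M : ι → ι → A) : ℕ → ι → ι → A
  | 0 => M
  | n + 1 => mmul (mpow M n) M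

/-- The trace of `M ^ n`, `n ≥ 1`. -/
noncomputable def mtr (M : ι → ι → A) (n : ℕ) : A := ∑' r, mpow M (n - 1) r r

/-- Row vector times matrix. -/
noncomputable def vmul (x : ι → A) (M : ι → ι → A) (c : ι) : A := ∑' r, x r * M r c

/-- Matrix times column vector. -/
noncomputable def mulv (M : ι → ι → A) (y : ι → A) (r : ι) : A := ∑' c, M r c * y c

/-- Row vector times column vector. -/
noncomputable def dot (x y : ι → A) : A := ∑' r, x r * y r

/-- A completely continuous matrix for the weight `V`. -/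
def CC (V : ι → ℝ) (M : ι → ι → A) : Prop :=
  ∃ h : ι → ℝ, Tendsto h cofinite atTop ∧ ∀ r c, ‖M r c‖ ≤ 2 ^ (-h r - V r + V c)

/-- Row vectors of growth `V`. -/
def RowB (V : ι → ℝ) (x : ι → A) : Prop := ∃ C : ℝ, ∀ r, ‖x r‖ ≤ C * 2 ^ V r

/-- Column vectors of decay `V`. -/
def ColB (V : ι → ℝ) (y : ι → A) : Prop :=
  Tendsto (fun r => ‖y r‖ * 2 ^ V r) cofinite (𝓝 0)

end mat

end Pool.Agent.Lib.MP_788af2_nt.AG
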