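import Pool.Agent.Lib.MP_788af2_nt.AG.Glue
import Pool.Agent.Lib.MP_788af2_nt.DW.Count

/-!
The point counts of the surface `y ^ 2 + x y = x ^ 3 + a (t) x ^ 2 + b (t)`.
-/

set_option linter.unusedSectionVars false

namespace Pool.Agent.Lib.MP_788af2_nt.AG

open Polynomial

/-- The subfield with `2 ^ n` elements. -/
noncomputable def Fix (κ : Type) [Field κ] [CharP κ 2] (n : ℕ) : Subfield κ :=
  RingHom.eqLocusField (iterateFrobenius κ 2 n) (RingHom.id κ)

variable {κ : Type} [Field κ] [CharP κ 2]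

theorem mem_Fix {n : ℕ} {x : κ} : x ∈ Fix κ n ↔ x ^ 2 ^ n = x := Iff.rfl

theorem coe_Fix {n : ℕ} (hn : n ≠ 0) : (Fix κ n : Set κ) = (X ^ 2 ^ n - X : κ[X]).rootSet κ := by
  ext x
  rw [mem_rootSet_of_ne (FiniteField.X_pow_card_pow_sub_X_ne_zero κ hn one_lt_two)]
  simp [mem_Fix, sub_eq_zero]

theorem finite_Fix {n : ℕ} (hn : n ≠ 0) : Finite (Fix κ n) := by
  have : (Fix κ n : Set κ).Finite := by
    rw [coe_Fix hn]
    exact rootSet_finite _ _
  exact this.to_subtype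

theorem card_Fix [IsAlgClosed κ] {n : ℕ} (hn : n ≠ 0) : Nat.card (Fix κ n) = 2 ^ n := by
  have h := card_rootSet_eq_natDegree (K := κ) (p := (X ^ 2 ^ n - X : κ[X]))
    (galois_poly_separable 2 _ (dvd_pow_self 2 hn)) (IsAlgClosed.splits _)
  rw [FiniteField.X_pow_card_pow_sub_X_natDegree_eq κ hn one_lt_two, ← Nat.card_eq_fintype_card,
    ← coe_Fix hn] at h
  exact h

variable {k : Type} [Field k] [Fintype k] [Algebra k κ]

theorem aeval_pow_card (a : k[X]) (t : κ) :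
    aeval t a ^ Fintype.card k = aeval (t ^ Fintype.card k) a := by
  exact (aeval_algHom_apply (FiniteField.frobeniusAlgHom k κ) t a).symm

theorem aeval_pow_card_pow (a : k[X]) (t : κ) (n : ℕ) :
    aeval t a ^ Fintype.card k ^ n = aeval (t ^ Fintype.card k ^ n) a := by
  induction n with
  | zero => simp
  | succ n ih => rw [pow_succ, pow_mul, pow_mul, ih, aeval_pow_card]

/-- The number of points of the surface over the extension of degree `n`. -/
noncomputable def npts (κ : Type) [Field κ] [Algebra k κ] (a b : k[X]) (n : ℕ) : ℕ :=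
  Set.ncard {p : κ × κ × κ | p.1 ^ Fintype.card k ^ n = p.1 ∧ p.2.1 ^ Fintype.card k ^ n = p.2.1 ∧
    p.2.2 ^ Fintype.card k ^ n = p.2.2 ∧
    p.2.2 ^ 2 + p.2.1 * p.2.2 = p.2.1 ^ 3 + aeval p.1 a * p.2.1 ^ 2 + aeval p.1 b}

/-- The sum of the traces of Frobenius over the affine line. -/
noncomputable def cnt (κ : Type) [Field κ] [Algebra k κ] (a b : k[X]) (n : ℕ) : ℤ :=
  (Fintype.card k : ℤ) ^ (2 * n) - npts κ a b n

theorem aeval_mem_Fix {f n : ℕ} (hk : Fintype.card k = 2 ^ f) (a : k[X]) {t : κ}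
    (ht : t ∈ Fix κ (f * n)) : aeval t a ∈ Fix κ (f * n) := by
  rw [mem_Fix, pow_mul, ← hk] at ht ⊢
  rw [aeval_pow_card_pow, ht]

open Classical in
theorem npts_eq {f n : ℕ} (hk : Fintype.card k = 2 ^ f) (a b : k[X]) [Fintype (Fix κ (f * n))] :
    npts κ a b n = ∑ t : Fix κ (f * n), (Finset.univ.filter fun p : Fix κ (f * n) × Fix κ (f * n) =>
      p.2 ^ 2 + p.1 * p.2 = p.1 ^ 3 + ⟨aeval (t : κ) a, aeval_mem_Fix hk a t.2⟩ * p.1 ^ 2 +
        ⟨aeval (t : κ) b, aeval_mem_Fix hk b t.2⟩).card := by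
  let e : Fix κ (f * n) × Fix κ (f * n) × Fix κ (f * n) → κ × κ × κ :=
    fun p => (p.1, p.2.1, p.2.2)
  have he : Function.Injective e := by
    intro p q h
    simp only [e, Prod.mk.injEq, Subtype.coe_inj] at h
    exact Prod.ext h.1 (Prod.ext h.2.1 h.2.2)
  have h1 : npts κ a b n = (Finset.univ.filter fun p : Fix κ (f * n) × Fix κ (f * n) ×
      Fix κ (f * n) => (p.2.2 : κ) ^ 2 + p.2.1 * p.2.2 =
        p.2.1 ^ 3 + aeval (p.1 : κ) a * p.2.1 ^ 2 + aeval (p.1 : κ) b).card := by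
    rw [npts, ← Set.ncard_coe_finset, ← Set.ncard_image_of_injective _ he, hk, ← pow_mul]
    congr 1
    ext p
    simp only [Set.mem_ofPred_eq, Finset.coe_filter, Finset.mem_univ, true_and, Set.mem_image]
    constructor
    · rintro ⟨h1, h2, h3, h4⟩
      exact ⟨(⟨p.1, h1⟩, ⟨p.2.1, h2⟩, ⟨p.2.2, h3⟩), h4, rfl⟩
    · rintro ⟨q, hq, rfl⟩
      exact ⟨q.1.2, q.2.1.2, q.2.2.2, hq⟩
  rw [h1, Finset.card_filter, Fintype.sum_prod_type]
  refine Finset.sum_congr rfl fun t _ => ?_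
  rw [Finset.card_filter]
  refine Finset.sum_congr rfl fun p _ => if_congr ?_ rfl rfl
  rw [← Subtype.coe_inj]
  rfl

open Classical in
/-- The point count as a character sum in two variables. -/
theorem cnt_eq [IsAlgClosed κ] {f n : ℕ} (hk : Fintype.card k = 2 ^ f) (hn : f * n ≠ 0)
    (a b : k[X]) (j : ℕ) [Fintype (Fix κ (f * n))] :
    cnt κ a b n = -∑ p : Fix κ (f * n) × (Fix κ (f * n))ˣ, DW.psi (f * n)
      (aeval (p.1 : κ) a + ((p.2 : Fix κ (f * n)) : κ) +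
        aeval (p.1 : κ) b ^ 2 ^ j / ((p.2 : Fix κ (f * n)) : κ)) := by
  have hc : Fintype.card (Fix κ (f * n)) = 2 ^ (f * n) := by
    rw [← Nat.card_eq_fintype_card, card_Fix hn]
  rw [cnt, npts_eq hk, Nat.cast_sum, Fintype.sum_prod_type]
  simp only [DW.card_curve hc _ _ j]
  rw [Finset.sum_add_distrib, Finset.sum_const, Finset.card_univ, hc, hk, nsmul_eq_mul]
  push_cast
  rw [← pow_mul, ← pow_add, show f * (2 * n) = f * n + f * n by ring, sub_add_cancel_left, neg_inj]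
  refine Finset.sum_congr rfl fun t _ => Finset.sum_congr rfl fun x _ => ?_
  rw [← DW.psi_map (Fix κ (f * n)).subtype]
  simp

theorem abs_cnt_le [IsAlgClosed κ] {f : ℕ} (hk : Fintype.card k = 2 ^ f) (hf : f ≠ 0)
    (a b : k[X]) (n : ℕ) (hn : 1 ≤ n) : |(cnt κ a b n : ℝ)| ≤ ((4 : ℝ) ^ f) ^ n := by
  classical
  have hfn : f * n ≠ 0 := Nat.mul_ne_zero hf (by omega)
  have := finite_Fix (κ := κ) hfn
  have := Fintype.ofFinite (Fix κ (f * n))
  have hc : Fintype.card (Fix κ (f * n)) = 2 ^ (f * n) := by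
    rw [← Nat.card_eq_fintype_card, card_Fix hfn]
  have h1 : |cnt κ a b n| ≤ (4 ^ f) ^ n := by
    rw [cnt_eq hk hfn a b 0, abs_neg]
    refine (Finset.abs_sum_le_sum_abs _ _).trans ?_
    simp only [DW.abs_psi, Finset.sum_const, Finset.card_univ, Fintype.card_prod, nsmul_eq_mul,
      mul_one]
    have h2 : Fintype.card (Fix κ (f * n))ˣ ≤ 2 ^ (f * n) := by
      rw [← hc]
      exact Fintype.card_le_of_injective _ Units.val_injective
    have h3 : Fintype.card (Fix κ (f * n)) * Fintype.card (Fix κ (f * n))ˣ ≤ (4 ^ f) ^ n := by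
      rw [hc, ← pow_mul, show 4 = 2 * 2 from rfl, mul_pow]
      exact Nat.mul_le_mul_left _ h2
    exact_mod_cast h3
  exact_mod_cast h1

theorem isExp_geom (c : ℤ) : ∃ D : PowerSeries ℤ, IsExp (fun n => c ^ n) D := by
  have h : IsExp (fun _ => (1 : ℤ)) (PowerSeries.mk fun _ => 1) :=
    isExp_iff.mpr ⟨by simp, fun n => by simp⟩
  exact ⟨_, (h.rescale c).congr fun n _ => mul_one _⟩

theorem cnt_int {f : ℕ} (hk : Fintype.card k = 2 ^ f) (hf : f ≠ 0) (a b : k[X]) :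
    ∃ D : PowerSeries ℤ, IsExp (cnt κ a b) D := by
  let φ := FiniteField.frobeniusAlgHom k κ
  let S : Set (κ × κ × κ) :=
    {p | p.2.2 ^ 2 + p.2.1 * p.2.2 = p.2.1 ^ 3 + aeval p.1 a * p.2.1 ^ 2 + aeval p.1 b}
  let F : κ × κ × κ → κ × κ × κ := fun p => (φ p.1, φ p.2.1, φ p.2.2)
  have hF : Set.MapsTo F S S := by
    intro p hp
    have := congrArg φ hp
    simpa only [S, F, Set.mem_ofPred_eq, map_add, map_mul, map_pow, aeval_algHom_apply] using this
  have hit : ∀ n p, F^[n] p = (p.1 ^ Fintype.card k ^ n, p.2.1 ^ Fintype.card k ^ n,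
      p.2.2 ^ Fintype.card k ^ n) := by
    intro n
    induction n with
    | zero => intro p; simp
    | succ n ih =>
      intro p
      rw [Function.iterate_succ_apply', ih]
      simp only [F, φ, FiniteField.coe_frobeniusAlgHom, pow_succ, pow_mul]
  have him : ∀ n, Subtype.val '' {x : S | (hF.restrict F S S)^[n] x = x} =
      {p : κ × κ × κ | p.1 ^ Fintype.card k ^ n = p.1 ∧ p.2.1 ^ Fintype.card k ^ n = p.2.1 ∧
        p.2.2 ^ Fintype.card k ^ n = p.2.2 ∧
        p.2.2 ^ 2 + p.2.1 * p.2.2 = p.2.1 ^ 3 + aeval p.1 a * p.2.1 ^ 2 + aeval p.1 b} := by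
    intro n
    ext p
    simp only [Set.mem_image, Set.mem_ofPred_eq, Set.MapsTo.iterate_restrict, Subtype.ext_iff,
      Set.MapsTo.val_restrict_apply, hit, Prod.ext_iff]
    constructor
    · rintro ⟨y, hy, h1, h2, h3⟩
      rw [← h1, ← h2, ← h3]
      exact ⟨hy.1, hy.2.1, hy.2.2, y.2⟩
    · rintro ⟨h1, h2, h3, h4⟩
      exact ⟨⟨p, h4⟩, ⟨h1, h2, h3⟩, rfl, rfl, rfl⟩
  obtain ⟨D, hD⟩ := zeta_int (hF.restrict F S S) fun n hn => by
    refine Set.Finite.of_finite_image (f := Subtype.val) ?_ Subtype.val_injective.injOn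
    have hfn : f * n ≠ 0 := Nat.mul_ne_zero hf (by omega)
    have h1 : (Fix κ (f * n) : Set κ).Finite := Set.finite_coe_iff.mp (finite_Fix hfn)
    rw [him, hk, ← pow_mul]
    exact (h1.prod (h1.prod h1)).subset fun p hp => ⟨hp.1, hp.2.1, hp.2.2.1⟩
  obtain ⟨E, hE⟩ := isExp_geom ((Fintype.card k : ℤ) ^ 2)
  refine ⟨_, (hE.mul (hD.inv (PowerSeries.mul_invOfUnit _ 1 hD.1))).congr fun n _ => ?_⟩
  rw [cnt, npts, ← him, Set.ncard_image_of_injective _ Subtype.val_injective, pow_mul,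
    sub_eq_add_neg]

end Pool.Agent.Lib.MP_788af2_nt.AG
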