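import Pool.Agent.Lib.MP_788af2_nt.AG.Core

/-!
Bounded and decaying power series; the Taylor expansion is multiplicative.
-/

set_option linter.unusedSectionVars false

namespace Pool.Agent.Lib.MP_788af2_nt.AG

open PowerSeries Filter Topology

variable {K A : Type} [NontriviallyNormedField K] [IsUltrametricDist K] [CompleteSpace K]
  [CharZero K] [NormedCommRing A] [NormedAlgebra K A] [IsUltrametricDist A] [CompleteSpace A]
  [NormOneClass A]

/-- All coefficients have norm at most `r`. -/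
def Bc (r : ℝ) (s : A⟦X⟧) : Prop := ∀ n, ‖coeff n s‖ ≤ r

/-- The coefficients tend to zero. -/
def Dcy (s : A⟦X⟧) : Prop := Tendsto (fun n => coeff n s) atTop (𝓝 0)

section bc

variable {r r' : ℝ} {s t : A⟦X⟧}

lemma Bc.nonneg (h : Bc r s) : 0 ≤ r := (norm_nonneg _).trans (h 0)

lemma Bc.mono (h : Bc r s) (hr : r ≤ r') : Bc r' s := fun n => (h n).trans hr

lemma Bc.zero (hr : 0 ≤ r) : Bc r (0 : A⟦X⟧) := fun n => by simpa using hr

lemma Bc.add (h : Bc r s) (h' : Bc r t) : Bc r (s + t) := fun n => by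
  rw [map_add]
  exact (IsUltrametricDist.norm_add_le_max _ _).trans (max_le (h n) (h' n))

lemma Bc.neg (h : Bc r s) : Bc r (-s) := fun n => by
  rw [map_neg, norm_neg]
  exact h n

lemma Bc.sub (h : Bc r s) (h' : Bc r t) : Bc r (s - t) := by
  rw [sub_eq_add_neg]
  exact h.add h'.neg

lemma Bc.mul (h : Bc r s) (h' : Bc r' t) : Bc (r * r') (s * t) := fun n => by
  rw [coeff_mul]
  exact IsUltrametricDist.norm_sum_le_of_forall_le_of_nonneg (mul_nonneg h.nonneg h'.nonneg)
    fun x _ => (norm_mul_le _ _).trans (mul_le_mul (h _) (h' _) (norm_nonneg _) h.nonneg)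

lemma Bc.mul_one' (h : Bc r s) (h' : Bc 1 t) : Bc r (s * t) := by simpa using h.mul h'

lemma Bc.one_mul' (h : Bc 1 s) (h' : Bc r t) : Bc r (s * t) := by simpa using h.mul h'

lemma Bc.const {a : A} (h : ‖a‖ ≤ r) : Bc r (C a) := fun n => by
  rw [coeff_C]
  split_ifs
  · exact h
  · simpa using (norm_nonneg _).trans h

lemma Bc.one : Bc 1 (1 : A⟦X⟧) := by simpa using Bc.const (a := (1 : A)) (r := 1) (by simp)

lemma Bc.var : Bc 1 (X : A⟦X⟧) := fun n => by
  rw [coeff_X]
  split_ifs <;> simp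

lemma Bc.sum {ι : Type} (T : Finset ι) {f : ι → A⟦X⟧} (hr : 0 ≤ r) (h : ∀ i ∈ T, Bc r (f i)) :
    Bc r (∑ i ∈ T, f i) :=
  Finset.sum_induction f (Bc r) (fun _ _ => Bc.add) (Bc.zero hr) h

lemma Bc.prod {ι : Type} (T : Finset ι) {f : ι → A⟦X⟧} (h : ∀ i ∈ T, Bc 1 (f i)) :
    Bc 1 (∏ i ∈ T, f i) :=
  Finset.prod_induction f (Bc 1) (fun _ _ => Bc.mul_one') Bc.one h

lemma Bc.mul_sub {s' t' : A⟦X⟧} (hs : Bc 1 s) (ht : Bc 1 t') (h : Bc r (s - s'))
    (h' : Bc r (t - t')) : Bc r (s * t - s' * t') := by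
  rw [show s * t - s' * t' = s * (t - t') + (s - s') * t' by ring]
  exact (hs.one_mul' h').add (h.mul_one' ht)

lemma Bc.prod_sub {ι : Type} (T : Finset ι) {f g : ι → A⟦X⟧} (hr : 0 ≤ r)
    (hf : ∀ i ∈ T, Bc 1 (f i)) (hg : ∀ i ∈ T, Bc 1 (g i)) (h : ∀ i ∈ T, Bc r (f i - g i)) :
    Bc r (∏ i ∈ T, f i - ∏ i ∈ T, g i) := by
  classical
  induction T using Finset.induction_on with
  | empty => simpa using Bc.zero hr
  | insert a T ha ih =>
    rw [Finset.prod_insert ha, Finset.prod_insert ha]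
    exact Bc.mul_sub (hf a (by simp)) (Bc.prod T fun i hi => hg i (by simp [hi])) (h a (by simp))
      (ih (fun i hi => hf i (by simp [hi])) (fun i hi => hg i (by simp [hi]))
        fun i hi => h i (by simp [hi]))

lemma Bc.map {u : K⟦X⟧} (h : Bc r u) : Bc r (map (algebraMap K A) u) := fun n => by
  rw [coeff_map, norm_algebraMap']
  exact h n

end bc

section dcy

variable {s t : A⟦X⟧}

lemma conA_apx (h : Dcy s) {ε : ℝ} (hε : 0 < ε) :
    ∃ p : Polynomial A, Bc ε (s - (p : A⟦X⟧)) := by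
  obtain ⟨N, hN⟩ := Metric.tendsto_atTop.1 h ε hε
  refine ⟨trunc N s, fun n => ?_⟩
  rw [map_sub, Polynomial.coeff_coe, coeff_trunc]
  split_ifs with hn
  · simpa using hε.le
  · simpa using (hN n (not_lt.1 hn)).le

lemma conA_of_apx (h : ∀ ε > 0, ∃ p : Polynomial A, Bc ε (s - (p : A⟦X⟧))) : Dcy s := by
  refine Metric.tendsto_atTop.2 fun ε hε => ?_
  obtain ⟨p, hp⟩ := h (ε / 2) (by positivity)
  refine ⟨p.natDegree + 1, fun n hn => ?_⟩
  have := hp n
  rw [map_sub, Polynomial.coeff_coe, Polynomial.coeff_eq_zero_of_natDegree_lt (by omega),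
    sub_zero] at this
  rw [dist_zero_right]
  linarith

lemma conA_poly (p : Polynomial A) : Dcy (p : A⟦X⟧) :=
  conA_of_apx fun _ hε => ⟨p, by rw [sub_self]; exact Bc.zero hε.le⟩

lemma conA_bdd (h : Dcy s) : ∃ r > 0, Bc r s := by
  obtain ⟨r, hr⟩ := (Metric.isBounded_range_of_tendsto _ h).exists_norm_le
  exact ⟨max r 1, by positivity, fun n => (hr _ ⟨n, rfl⟩).trans (le_max_left _ _)⟩

lemma conA_zero (h : ∀ ε > 0, Bc ε s) : s = 0 := by
  ext n
  rw [map_zero, ← norm_le_zero_iff]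
  exact le_of_forall_pos_le_add fun ε hε => by simpa using h ε hε n

lemma conA_ext {F G : A⟦X⟧ → A⟦X⟧} {c : ℝ} (hc : 0 < c) (h : Dcy s)
    (hF : ∀ (p : Polynomial A) ε, Bc ε (s - (p : A⟦X⟧)) → Bc (ε * c) (F s - F p))
    (hG : ∀ (p : Polynomial A) ε, Bc ε (s - (p : A⟦X⟧)) → Bc (ε * c) (G s - G p))
    (hp : ∀ p : Polynomial A, F p = G p) : F s = G s := by
  refine sub_eq_zero.1 (conA_zero fun ε hε => ?_)
  obtain ⟨p, h1⟩ := conA_apx h (ε := ε / c) (by positivity)
  have := (hF p _ h1).sub (hG p _ h1)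
  rwa [div_mul_cancel₀ _ hc.ne', hp, sub_sub_sub_cancel_right] at this

lemma conA_pow (h : Bc 1 s) (n : ℕ) : Bc 1 (s ^ n) := by
  induction n with
  | zero => simpa using Bc.one
  | succ n ih => rw [pow_succ]; exact ih.mul_one' h

lemma conA_subst {r : ℝ} {b : A⟦X⟧} (hb : HasSubst b) (h1 : Bc 1 b) (h : Bc r s) :
    Bc r (s.subst b) := fun n => by
  rw [coeff_subst' hb]
  refine finsum_induction (fun x => ‖x‖ ≤ r) (by simpa using h.nonneg)
    (fun x y hx hy => (IsUltrametricDist.norm_add_le_max _ _).trans (max_le hx hy)) fun d => ?_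
  rw [smul_eq_mul]
  refine (norm_mul_le _ _).trans ?_
  simpa using mul_le_mul (h d) (conA_pow h1 d n) (norm_nonneg _) h.nonneg

lemma conA_subst_coe {q : Polynomial A} (hq : HasSubst (q : A⟦X⟧)) (p : Polynomial A) :
    (p : A⟦X⟧).subst (q : A⟦X⟧) = (p.comp q : Polynomial A) := by
  rw [subst_coe hq, Polynomial.comp_eq_aeval]
  exact Polynomial.aeval_algHom_apply (Polynomial.coeToPowerSeries.algHom A) q p

lemma conA_der {r : ℝ} (h : Bc r s) : Bc r (derivative A s) := fun n => by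
  rw [coeff_derivative]
  refine (norm_mul_le _ _).trans ?_
  have := IsUltrametricDist.norm_natCast_le_one A (n + 1)
  push_cast at this
  simpa using mul_le_mul (h (n + 1)) this (norm_nonneg _) h.nonneg

lemma Dcy.of_le {c B : ℝ} (hc : 0 < c) (h : ∀ n : ℕ, ‖coeff n s‖ ≤ B * 2 ^ (-(c * n))) :
    Dcy s := by
  refine squeeze_zero_norm h ?_
  have h1 : Tendsto (fun n : ℕ => ((2 : ℝ) ^ (-c)) ^ n) atTop (𝓝 0) :=
    tendsto_pow_atTop_nhds_zero_of_lt_one (by positivity)
      (Real.rpow_lt_one_of_one_lt_of_neg one_lt_two (by linarith))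
  have h2 := h1.const_mul B
  rw [mul_zero] at h2
  refine h2.congr fun n => ?_
  rw [← Real.rpow_natCast, ← Real.rpow_mul zero_le_two, neg_mul]
lemma Dcy.add (h : Dcy s) (h' : Dcy t) : Dcy (s + t) := by
  simpa only [Dcy, map_add, add_zero] using Tendsto.add h h'
lemma Dcy.sub (h : Dcy s) (h' : Dcy t) : Dcy (s - t) := by
  simpa only [Dcy, map_sub, sub_zero] using Tendsto.sub h h'
lemma Dcy.mul (h : Dcy s) (h' : Dcy t) : Dcy (s * t) := conA_of_apx fun ε hε => by
  obtain ⟨r, hr, h1⟩ := conA_bdd h'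
  obtain ⟨p, hp⟩ := conA_apx h (ε := ε / r) (by positivity)
  obtain ⟨r', hr', h2⟩ := conA_bdd (conA_poly p)
  obtain ⟨q, hq⟩ := conA_apx h' (ε := ε / r') (by positivity)
  refine ⟨p * q, ?_⟩
  have a1 := hp.mul h1
  have a2 := hq.mul h2
  rw [div_mul_cancel₀ _ hr.ne'] at a1
  rw [div_mul_cancel₀ _ hr'.ne'] at a2
  have := a1.add a2
  rwa [show (s - (p : A⟦X⟧)) * t + (t - (q : A⟦X⟧)) * (p : A⟦X⟧) =
    s * t - ((p * q : Polynomial A) : A⟦X⟧) by
    rw [Polynomial.coe_mul]; ring] at this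
lemma Dcy.const (a : A) : Dcy (C a) := by simpa using conA_poly (Polynomial.C a)
lemma Dcy.one : Dcy (1 : A⟦X⟧) := by simpa using conA_poly (1 : Polynomial A)
lemma Dcy.prod {ι : Type} (T : Finset ι) {f : ι → A⟦X⟧} (h : ∀ i ∈ T, Dcy (f i)) :
    Dcy (∏ i ∈ T, f i) := Finset.prod_induction f Dcy (fun _ _ => Dcy.mul) Dcy.one h
lemma Dcy.map {u : K⟦X⟧} (h : Dcy u) : Dcy (map (algebraMap K A) u) := by
  have := ((continuous_algebraMap K A).tendsto 0).comp h
  rw [map_zero] at this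
  exact this.congr fun n => by simp
lemma Dcy.sq (h : Dcy s) : Dcy (s.subst (X ^ 2 : A⟦X⟧)) := conA_of_apx fun ε hε => by
  obtain ⟨p, hp⟩ := conA_apx h hε
  have hb : HasSubst (X ^ 2 : A⟦X⟧) := HasSubst.X_pow two_ne_zero
  refine ⟨p.comp (Polynomial.X ^ 2), ?_⟩
  rw [← conA_subst_coe (by simpa using hb), Polynomial.coe_pow, Polynomial.coe_X, ← subst_sub hb]
  exact conA_subst hb (conA_pow Bc.var 2) hp

lemma conA_dcy_der (h : Dcy s) : Dcy (derivative A s) := conA_of_apx fun ε hε => by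
  obtain ⟨p, hp⟩ := conA_apx h hε
  exact ⟨Polynomial.derivative p, by rw [← derivative_coe, ← map_sub]; exact conA_der hp⟩

end dcy

section tay

variable {β : K} (hβ : ‖β‖ ≤ 1) {s t : A⟦X⟧}
include hβ

lemma conA_co (k n : ℕ) : ‖(k.choose n : K) * β ^ (k - n)‖ ≤ 1 := by
  rw [norm_mul, norm_pow]
  exact mul_le_one₀ (IsUltrametricDist.norm_natCast_le_one K _) (by positivity)
    (pow_le_one₀ (norm_nonneg _) hβ)

lemma conA_term (k n : ℕ) (a : A) : ‖((k.choose n : K) * β ^ (k - n)) • a‖ ≤ ‖a‖ := by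
  rw [norm_smul]
  exact mul_le_of_le_one_left (norm_nonneg _) (conA_co hβ k n)

lemma conA_sum (h : Dcy s) (n : ℕ) :
    Summable fun k => ((k.choose n : K) * β ^ (k - n)) • coeff k s := by
  refine NonarchimedeanAddGroup.summable_of_tendsto_cofinite_zero ?_
  rw [Nat.cofinite_eq_atTop]
  exact squeeze_zero_norm (fun k => conA_term hβ k n _) (tendsto_zero_iff_norm_tendsto_zero.1 h)

lemma conA_coe (p : Polynomial A) :
    Tay β (p : A⟦X⟧) = (Polynomial.taylor (algebraMap K A β) p : Polynomial A) := by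
  ext n
  rw [Tay, coeff_mk, Polynomial.coeff_coe, Polynomial.taylor_coeff, Polynomial.hasseDeriv_apply,
    Polynomial.sum, Polynomial.eval_finsetSum, tsum_eq_sum (s := p.support) fun k hk => by
      rw [Polynomial.coeff_coe, Polynomial.notMem_support_iff.1 hk, smul_zero]]
  refine Finset.sum_congr rfl fun k _ => ?_
  rw [Polynomial.eval_monomial, Polynomial.coeff_coe, Algebra.smul_def, map_mul, map_pow,
    map_natCast]
  ring

lemma Bc.tay {r : ℝ} (h : Bc r s) : Bc r (Tay β s) := fun n => by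
  rw [Tay, coeff_mk]
  exact IsUltrametricDist.norm_tsum_le_of_forall_le fun k => (conA_term hβ k n _).trans (h k)
lemma Tay_add (h : Dcy s) (h' : Dcy t) : Tay β (s + t) = Tay β s + Tay β t := by
  ext n
  simp only [Tay, coeff_mk, map_add, smul_add]
  exact (conA_sum hβ h n).tsum_add (conA_sum hβ h' n)
lemma Tay_sub (h : Dcy s) (h' : Dcy t) : Tay β (s - t) = Tay β s - Tay β t := by
  ext n
  simp only [Tay, coeff_mk, map_sub, smul_sub]
  exact (conA_sum hβ h n).tsum_sub (conA_sum hβ h' n)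

lemma conA_mul (h : Dcy s) (h' : Dcy t)
    (hp : ∀ p : Polynomial A, Tay β ((p : A⟦X⟧) * t) = Tay β p * Tay β t) :
    Tay β (s * t) = Tay β s * Tay β t := by
  obtain ⟨r, hr, h1⟩ := conA_bdd h'
  refine conA_ext (F := fun s => Tay β (s * t)) (G := fun s => Tay β s * Tay β t) hr h
    (fun p ε e => ?_) (fun p ε e => ?_) hp
  · rw [← Tay_sub hβ (h.mul h') ((conA_poly p).mul h'), ← sub_mul]
    exact (e.mul h1).tay hβ
  · rw [← sub_mul, ← Tay_sub hβ h (conA_poly p)]
    exact (e.tay hβ).mul (h1.tay hβ)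

lemma Tay_mul (h : Dcy s) (h' : Dcy t) : Tay β (s * t) = Tay β s * Tay β t :=
  conA_mul hβ h h' fun p => by
    rw [mul_comm, mul_comm (Tay β _)]
    refine conA_mul hβ h' (conA_poly p) fun q => ?_
    rw [← Polynomial.coe_mul, conA_coe hβ, conA_coe hβ, conA_coe hβ, Polynomial.taylor_mul,
      Polynomial.coe_mul]
lemma Tay_C (a : A) : Tay β (C a) = C a := by simpa using conA_coe hβ (Polynomial.C a)
lemma Tay_one : Tay β (1 : A⟦X⟧) = 1 := by simpa using Tay_C hβ (1 : A)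
lemma Tay_prod {ι : Type} (T : Finset ι) {f : ι → A⟦X⟧} (h : ∀ i ∈ T, Dcy (f i)) :
    Tay β (∏ i ∈ T, f i) = ∏ i ∈ T, Tay β (f i) := by
  classical
  induction T using Finset.induction_on with
  | empty => simpa using Tay_one hβ
  | insert a T ha ih =>
    rw [Finset.prod_insert ha, Finset.prod_insert ha, Tay_mul hβ (h a (by simp))
      (Dcy.prod T fun i hi => h i (by simp [hi])), ih fun i hi => h i (by simp [hi])]
lemma Tay_map {u : K⟦X⟧} (h : Dcy u) :
    Tay β (map (algebraMap K A) u) = map (algebraMap K A) (Tay β u) := by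
  ext n
  simp only [Tay, coeff_mk, coeff_map]
  have := ((conA_sum (A := K) hβ h n).hasSum.map (algebraMap K A)
    (continuous_algebraMap K A)).tsum_eq
  rw [← this]
  refine tsum_congr fun k => ?_
  simp only [Function.comp, smul_eq_mul, Algebra.smul_def, map_mul]
lemma Tay_XD (h : Dcy s) : Tay β (X * derivative A s) =
    (C (algebraMap K A β) + X) * derivative A (Tay β s) := by
  have hX : Dcy (X : A⟦X⟧) := by simpa using conA_poly (Polynomial.X : Polynomial A)
  have hb : Bc 1 (C (algebraMap K A β) + X : A⟦X⟧) :=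
    (Bc.const (by rwa [norm_algebraMap'])).add Bc.var
  refine conA_ext (F := fun s => Tay β (X * derivative A s))
    (G := fun s => (C (algebraMap K A β) + X) * derivative A (Tay β s)) one_pos h
    (fun p ε e => ?_) (fun p ε e => ?_) fun p => ?_
  · rw [← Tay_sub hβ (hX.mul (conA_dcy_der h)) (hX.mul (conA_dcy_der (conA_poly p))), ← mul_sub,
      ← map_sub, mul_one]
    exact (Bc.var.one_mul' (conA_der e)).tay hβ
  · rw [← mul_sub, ← map_sub, ← Tay_sub hβ h (conA_poly p), mul_one]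
    exact hb.one_mul' (conA_der (e.tay hβ))
  · rw [derivative_coe, ← Polynomial.coe_X, ← Polynomial.coe_mul, conA_coe hβ, conA_coe hβ,
      derivative_coe, ← Polynomial.coe_C, ← Polynomial.coe_add, ← Polynomial.coe_mul,
      Polynomial.taylor_mul, Polynomial.taylor_X, Polynomial.taylor_apply, Polynomial.taylor_apply,
      Polynomial.derivative_comp, add_comm]
    simp
lemma Tay_sq (h : Dcy s) : Tay β (s.subst (X ^ 2 : A⟦X⟧)) =
    (Tay (β ^ 2) s).subst (X ^ 2 + C (algebraMap K A (2 * β)) * X : A⟦X⟧) := by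
  have hβ2 : ‖β ^ 2‖ ≤ 1 := by rw [norm_pow]; exact pow_le_one₀ (norm_nonneg _) hβ
  have h1 : HasSubst (X ^ 2 : A⟦X⟧) := HasSubst.X_pow two_ne_zero
  have h2 : HasSubst (X ^ 2 + C (algebraMap K A (2 * β)) * X : A⟦X⟧) :=
    HasSubst.of_constantCoeff_zero' (by simp)
  have hb : Bc 1 (X ^ 2 + C (algebraMap K A (2 * β)) * X : A⟦X⟧) :=
    (conA_pow Bc.var 2).add ((Bc.const (by
      rw [norm_algebraMap', norm_mul]
      exact mul_le_one₀ (by simpa using IsUltrametricDist.norm_natCast_le_one K 2) (norm_nonneg _)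
        hβ)).mul_one' Bc.var)
  refine conA_ext (F := fun s => Tay β (s.subst (X ^ 2 : A⟦X⟧)))
    (G := fun s => (Tay (β ^ 2) s).subst (X ^ 2 + C (algebraMap K A (2 * β)) * X : A⟦X⟧)) one_pos h
    (fun p ε e => ?_) (fun p ε e => ?_) fun p => ?_
  · rw [← Tay_sub hβ h.sq (conA_poly p).sq, ← subst_sub h1, mul_one]
    exact (conA_subst h1 (conA_pow Bc.var 2) e).tay hβ
  · rw [← subst_sub h2, ← Tay_sub hβ2 h (conA_poly p), mul_one]
    exact conA_subst h2 hb (e.tay hβ2)
  · have e1 : (X ^ 2 : A⟦X⟧) = (Polynomial.X ^ 2 : Polynomial A) := by simp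
    have e2 : (X ^ 2 + C (algebraMap K A (2 * β)) * X : A⟦X⟧) = (Polynomial.X ^ 2 +
        Polynomial.C (algebraMap K A (2 * β)) * Polynomial.X : Polynomial A) := by simp
    rw [e2] at h2 ⊢
    rw [e1] at h1 ⊢
    rw [conA_subst_coe h1, conA_coe hβ, conA_coe hβ2, conA_subst_coe h2, Polynomial.taylor_apply,
      Polynomial.taylor_apply, Polynomial.comp_assoc, Polynomial.comp_assoc]
    congr 2
    simp only [Polynomial.pow_comp, Polynomial.X_comp, Polynomial.add_comp, Polynomial.C_comp,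
      map_mul, map_pow, map_ofNat]
    ring

end tay

end Pool.Agent.Lib.MP_788af2_nt.AG
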