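import Pool.Agent.Lib.MP_788af2_nt.AG.ConA

/-!
Products of splitting series over the monomials of one polynomial.
-/

set_option linter.unusedSectionVars false

namespace Pool.Agent.Lib.MP_788af2_nt.AG

open PowerSeries Filter Topology

variable {K : Type} [NontriviallyNormedField K] [IsUltrametricDist K] [CompleteSpace K]
  [CharZero K]

/-- `h (x t ^ n)`; for `n = 0` the value `h (x)`. -/
noncomputable def Ev (h : K⟦X⟧) (x : K) (n : ℕ) : K⟦X⟧ :=
  mk fun N => ∑' k, if k * n = N then coeff k h * x ^ k else 0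

/-- `∏ h (c n t ^ n)`. -/
noncomputable def Pr (h : K⟦X⟧) (c : ℕ → K) (d : ℕ) : K⟦X⟧ :=
  ∏ n ∈ Finset.range (d + 1), Ev h (c n) n

/-- `∑ n h (c n t ^ n)`. -/
noncomputable def Lr (h : K⟦X⟧) (c : ℕ → K) (d : ℕ) : K⟦X⟧ :=
  ∑ n ∈ Finset.range (d + 1), C (n : K) * Ev h (c n) n

/-- `∑ c n t ^ n`. -/
noncomputable def Yr (c : ℕ → K) (d : ℕ) : K⟦X⟧ := ∑ n ∈ Finset.range (d + 1), monomial n (c n)

/-- The complete symmetric function of degree two of the monomials. -/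
noncomputable def Hr (c : ℕ → K) (d : ℕ) : K⟦X⟧ :=
  ∑ n ∈ Finset.range (d + 1), monomial n (c n) * Yr c n

/-- The ceiling of `N / d`. -/
def cw (d N : ℕ) : ℕ := (N + d - 1) / d

lemma b2_lt {d k N : ℕ} (hd : 1 ≤ d) (h : k * d < N) : k + 1 ≤ cw d N := by
  rw [cw, Nat.le_div_iff_mul_le hd, add_mul, one_mul]
  omega

lemma b2_le {d k N : ℕ} (hd : 1 ≤ d) (h : N ≤ k * d) : cw d N ≤ k := by
  rw [cw, ← Nat.lt_succ_iff, Nat.div_lt_iff_lt_mul hd, Nat.succ_mul]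
  omega

lemma cw_zero {d : ℕ} (hd : 1 ≤ d) : cw d 0 = 0 := Nat.le_zero.1 (b2_le hd (Nat.zero_le _))
lemma cw_pos {d N : ℕ} (hd : 1 ≤ d) (hN : 1 ≤ N) : 1 ≤ cw d N := b2_lt (k := 0) hd (by omega)
lemma le_cw {d : ℕ} (hd : 1 ≤ d) (N : ℕ) : N ≤ cw d N * d :=
  not_lt.1 fun h => absurd (b2_lt hd h) (by omega)
lemma lt_cw {d k N : ℕ} (hd : 1 ≤ d) (h : k * d < N) : k + 1 ≤ cw d N := b2_lt hd h
lemma cw_le {d k N : ℕ} (hd : 1 ≤ d) (h : N ≤ k * d) : cw d N ≤ k := b2_le hd h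
lemma cw_add {d : ℕ} (hd : 1 ≤ d) (M N : ℕ) : cw d (M + N) ≤ cw d M + cw d N :=
  b2_le hd (by rw [add_mul]; exact add_le_add (le_cw hd M) (le_cw hd N))

section b2

variable {h : K⟦X⟧} {x : K} {B r : ℝ} {c : ℕ → K}

lemma b2_term (hh : ∀ k, ‖coeff k h‖ ≤ B * r ^ k) (hx : ‖x‖ ≤ 1) (k : ℕ) :
    ‖coeff k h * x ^ k‖ ≤ B * r ^ k := by
  rw [norm_mul, norm_pow]
  exact (mul_le_of_le_one_right (norm_nonneg _) (pow_le_one₀ (norm_nonneg _) hx)).trans (hh k)

lemma b2_Ev_le (hB : 0 ≤ B) (hr : 0 ≤ r) (hr1 : r ≤ 1) (hh : ∀ k, ‖coeff k h‖ ≤ B * r ^ k)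
    (hx : ‖x‖ ≤ 1) {n d : ℕ} (hd : 1 ≤ d) (hn : n ≤ d) (N : ℕ) :
    ‖coeff N (Ev h x n)‖ ≤ B * r ^ cw d N := by
  rw [Ev, coeff_mk]
  refine IsUltrametricDist.norm_tsum_le_of_forall_le fun k => ?_
  split_ifs with hk
  · exact (b2_term hh hx k).trans (mul_le_mul_of_nonneg_left
      (pow_le_pow_of_le_one hr hr1 (cw_le hd (hk ▸ Nat.mul_le_mul_left k hn))) hB)
  · rw [norm_zero]
    positivity

lemma b2_Pr_le (hr : 0 ≤ r) (hr1 : r ≤ 1) (hh : ∀ k, ‖coeff k h‖ ≤ r ^ k) (hc : ∀ n, ‖c n‖ ≤ 1)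
    {d D : ℕ} (hD : 1 ≤ D) (hd : d ≤ D) (N : ℕ) : ‖coeff N (Pr h c d)‖ ≤ r ^ cw D N := by
  refine Finset.prod_induction _ (fun s : K⟦X⟧ => ∀ N, ‖coeff N s‖ ≤ r ^ cw D N)
    (fun s t hs ht N => ?_) (fun N => ?_) (fun n hn N => ?_) N
  · rw [coeff_mul]
    refine IsUltrametricDist.norm_sum_le_of_forall_le_of_nonneg (by positivity) fun p hp => ?_
    rw [norm_mul, ← Finset.HasAntidiagonal.mem_antidiagonal.1 hp]
    refine (mul_le_mul (hs _) (ht _) (norm_nonneg _) (by positivity)).trans ?_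
    rw [← pow_add]
    exact pow_le_pow_of_le_one hr hr1 (cw_add hD _ _)
  · rw [coeff_one]
    split_ifs with h0
    · rw [h0, cw_zero hD, pow_zero, norm_one]
    · rw [norm_zero]
      positivity
  · have := Finset.mem_range.1 hn
    simpa using b2_Ev_le (B := 1) zero_le_one hr hr1 (by simpa using hh) (hc n) hD (by omega) N

lemma b2_Pr_bc (hr : 0 ≤ r) (hr1 : r ≤ 1) (hh : ∀ k, ‖coeff k h‖ ≤ r ^ k) (hc : ∀ n, ‖c n‖ ≤ 1)
    (d : ℕ) : Bc 1 (Pr h c d) := fun N =>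
  (b2_Pr_le hr hr1 hh hc (Nat.le_add_left 1 d) (Nat.le_succ d) N).trans (pow_le_one₀ hr hr1)

lemma b2_Pr_dcy (hr : 0 ≤ r) (hr1 : r < 1) (hh : ∀ k, ‖coeff k h‖ ≤ r ^ k) (hc : ∀ n, ‖c n‖ ≤ 1)
    (d : ℕ) : Dcy (Pr h c d) := by
  have h1 : Tendsto (cw (d + 1)) atTop atTop := tendsto_atTop_atTop.2 fun b =>
    ⟨b * (d + 1) + 1, fun a ha => (Nat.le_succ b).trans (lt_cw (Nat.le_add_left 1 d) ha)⟩
  exact tendsto_zero_iff_norm_tendsto_zero.2 (squeeze_zero (fun _ => norm_nonneg _)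
    (b2_Pr_le hr hr1.le hh hc (Nat.le_add_left 1 d) (Nat.le_succ d))
    ((tendsto_pow_atTop_nhds_zero_of_lt_one hr hr1).comp h1))

lemma b2_trunc (hB : 0 ≤ B) (hr : 0 ≤ r) (hr1 : r < 1) (hh : ∀ k, ‖coeff k h‖ ≤ B * r ^ k)
    (hx : ‖x‖ ≤ 1) (n m : ℕ) :
    Bc (B * r ^ m) (Ev h x n - ∑ k ∈ Finset.range m, C (coeff k h) * monomial n x ^ k) := by
  intro N
  have h1 : ∀ k, ‖(if k * n = N then coeff k h * x ^ k else 0 : K)‖ ≤ B * r ^ k := fun k => by
    split_ifs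
    · exact b2_term hh hx k
    · rw [norm_zero]
      positivity
  have h2 : Summable fun k => (if k * n = N then coeff k h * x ^ k else 0 : K) :=
    Summable.of_norm_bounded ((summable_geometric_of_lt_one hr hr1).mul_left B) h1
  have h3 : ∀ k, coeff N (C (coeff k h) * monomial n x ^ k) =
      if k * n = N then coeff k h * x ^ k else 0 := fun k => by
    rw [monomial_pow, coeff_C_mul, coeff_monomial, mul_ite, mul_zero]
    exact if_congr eq_comm rfl rfl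
  rw [map_sub, map_sum, Ev, coeff_mk, ← h2.sum_add_tsum_nat_add m]
  simp only [h3, add_sub_cancel_left]
  refine IsUltrametricDist.norm_tsum_le_of_forall_le fun k => (h1 _).trans ?_
  exact mul_le_mul_of_nonneg_left (pow_le_pow_of_le_one hr hr1.le (Nat.le_add_left m k)) hB

lemma b2_mono (hx : ‖x‖ ≤ 1) (n : ℕ) : Bc 1 (monomial n x : K⟦X⟧) := fun N => by
  rw [coeff_monomial]
  split_ifs
  · exact hx
  · simp

lemma b2_Yr (hc : ∀ n, ‖c n‖ ≤ 1) (d : ℕ) : Bc 1 (Yr c d) :=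
  Bc.sum _ zero_le_one fun n _ => b2_mono (hc n) n

lemma b2_Hr (hc : ∀ n, ‖c n‖ ≤ 1) (d : ℕ) : Bc 1 (Hr c d) :=
  Bc.sum _ zero_le_one fun n _ => (b2_mono (hc n) n).mul_one' (b2_Yr hc n)

lemma b2_two (h2 : ‖(2 : K)‖ = 1 / 2) : Bc (1 / 2) (2 : K⟦X⟧) := by
  rw [← map_ofNat (C (R := K)) 2]
  exact Bc.const h2.le

lemma b2_four (h2 : ‖(2 : K)‖ = 1 / 2) : Bc (1 / 4) (4 : K⟦X⟧) := by
  have := (b2_two h2).mul (b2_two h2)
  norm_num at this ⊢
  exact this

lemma b2_eight (h2 : ‖(2 : K)‖ = 1 / 2) : Bc (1 / 8) (8 : K⟦X⟧) := by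
  have := (b2_two h2).mul (b2_four h2)
  norm_num at this ⊢
  exact this

lemma b2_Ev_θ (o : One K) (hx : ‖x‖ ≤ 1) (n : ℕ) :
    Bc (1 / 8) (Ev o.θ x n - (1 + 2 * monomial n x + 4 * monomial n x ^ 2)) := by
  have h1 := b2_trunc (B := 1) (r := 1 / 2) zero_le_one (by norm_num) (by norm_num)
    (by simpa using o.θ_le) hx n 3
  have h3 := (Bc.const o.θ_two).mul_one' ((b2_mono hx n).mul_one' (b2_mono hx n))
  have h4 := (h1.mono (r' := 1 / 8) (by norm_num)).add h3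
  simp only [Finset.sum_range_succ, Finset.sum_range_zero, o.θ_zero, o.θ_one, map_one, map_sub,
    map_ofNat] at h4
  convert h4 using 1
  ring

lemma b2_Ev_g (o : One K) (hx : ‖x‖ ≤ 1) (n : ℕ) :
    Bc (1 / 8) (Ev o.g x n - (1 + 4 * monomial n x)) := by
  have h1 := (b2_trunc (B := 1) (r := 1 / 4) zero_le_one (by norm_num) (by norm_num)
    (by simpa using o.g_le) hx n 2).mono (r' := 1 / 8) (by norm_num)
  simp only [Finset.sum_range_succ, Finset.sum_range_zero, o.g_zero, o.g_one, map_one,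
    map_ofNat] at h1
  convert h1 using 1
  ring

lemma b2_Ev_L (o : One K) (hx : ‖x‖ ≤ 1) (n : ℕ) :
    Bc (1 / 8) (Ev o.L x n - 2 * monomial n x) := by
  have h1 := (b2_trunc (B := 2) (r := 1 / 4) zero_le_two (by norm_num) (by norm_num)
    o.L_le hx n 2).mono (r' := 1 / 8) (by norm_num)
  simp only [Finset.sum_range_succ, Finset.sum_range_zero, o.L_zero, o.L_one, map_zero,
    map_ofNat] at h1
  convert h1 using 1
  ring

lemma b2_XD (x : K) (n : ℕ) :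
    X * derivative K (monomial n x) = C (n : K) * monomial n x := by
  ext N
  rw [coeff_C_mul]
  cases N with
  | zero =>
    rw [coeff_zero_X_mul, coeff_monomial]
    split_ifs with h0
    · rw [← h0, Nat.cast_zero, zero_mul]
    · rw [mul_zero]
  | succ N =>
    rw [coeff_succ_X_mul, coeff_derivative, coeff_monomial]
    split_ifs with h0
    · rw [← h0, Nat.cast_succ, mul_comm]
    · rw [mul_zero, zero_mul]

end b2

section B1

omit [IsUltrametricDist K] [CompleteSpace K] [CharZero K]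

lemma B1_pos (h : K⟦X⟧) (x : K) {n : ℕ} (hn : n ≠ 0) :
    Ev h x n = (rescale x h).subst (X ^ n : K⟦X⟧) := by
  ext N
  rw [Ev, coeff_mk, coeff_subst_X_pow hn]
  split_ifs with hd
  · obtain ⟨k, rfl⟩ := hd
    rw [tsum_eq_single k fun j hj => if_neg fun e => hj
      (Nat.eq_of_mul_eq_mul_left (Nat.pos_of_ne_zero hn) (by rw [← e, mul_comm])),
      if_pos (mul_comm _ _), Nat.mul_div_cancel_left _ (Nat.pos_of_ne_zero hn), coeff_rescale,
      mul_comm]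
    rfl
  · exact (tsum_congr fun k => if_neg fun e => hd (Dvd.intro_left k e)).trans tsum_zero

lemma B1_zero (h : K⟦X⟧) (x : K) : Ev h x 0 = C (∑' k, coeff k h * x ^ k) := by
  ext N
  rw [Ev, coeff_mk, coeff_C]
  split_ifs with hN
  · simp [hN]
  · simp [Ne.symm hN]

lemma B1_c0 (h : K⟦X⟧) {x : K} {n : ℕ} (hn : n = 0 → x = 0) : coeff 0 (Ev h x n) = coeff 0 h := by
  rw [Ev, coeff_mk, tsum_eq_single 0 fun k hk => ?_]
  · simp
  · split_ifs with e
    · rw [hn ((mul_eq_zero.1 e).resolve_left hk), zero_pow hk, mul_zero]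
    · rfl

lemma B1_one (x : K) (n : ℕ) : Ev 1 x n = 1 := by
  ext N
  rw [Ev, coeff_mk, tsum_eq_single 0 fun k hk => by simp [coeff_one, hk]]
  simp [coeff_one, eq_comm]

lemma B1_C (a : K) (h : K⟦X⟧) (x : K) (n : ℕ) : Ev (C a * h) x n = C a * Ev h x n := by
  ext N
  simp only [Ev, coeff_mk, coeff_C_mul, ← tsum_mul_left, mul_ite, mul_zero, mul_assoc]

lemma B1_XD (f : K⟦X⟧) (N : ℕ) : coeff N (X * derivative K f) = N * coeff N f := by
  cases N with
  | zero => simp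
  | succ N => rw [coeff_succ_X_mul, coeff_derivative, mul_comm, Nat.cast_succ]

lemma B1_D (h : K⟦X⟧) (x : K) (n : ℕ) :
    X * derivative K (Ev h x n) = C (n : K) * Ev (X * derivative K h) x n := by
  ext N
  simp only [B1_XD, Ev, coeff_mk, coeff_C_mul, ← tsum_mul_left]
  refine tsum_congr fun k => ?_
  split_ifs with e
  · rw [← e, Nat.cast_mul]
    ring
  · rw [mul_zero, mul_zero]

lemma B1_sq (h : K⟦X⟧) (x : K) (n : ℕ) :
    Ev (h.subst (X ^ 2 : K⟦X⟧)) x n = (Ev h (x ^ 2) n).subst (X ^ 2 : K⟦X⟧) := by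
  ext N
  rw [coeff_subst_X_pow two_ne_zero, Ev, coeff_mk,
    ← (mul_right_injective₀ (two_ne_zero (α := ℕ))).tsum_eq fun k hk => ?_]
  · simp only [coeff_subst_X_pow two_ne_zero, dvd_mul_right, if_true, Ev, coeff_mk, pow_mul,
      Nat.mul_div_cancel_left _ two_pos, Algebra.algebraMap_self, RingHom.id_apply]
    split_ifs with hd
    · obtain ⟨M, rfl⟩ := hd
      refine tsum_congr fun k => if_congr ?_ rfl rfl
      rw [mul_assoc]
      omega
    · exact (tsum_congr fun k => if_neg fun e =>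
        hd (Dvd.intro _ ((mul_assoc ..).symm.trans e))).trans tsum_zero
  · by_contra e
    have : ¬ 2 ∣ k := fun ⟨j, hj⟩ => e ⟨j, hj.symm⟩
    simp [coeff_subst_X_pow two_ne_zero, this] at hk

lemma B1_sm {h : K⟦X⟧} {x : K} {B : ℝ} (hx : ‖x‖ ≤ 1) (hh : ∀ k, ‖coeff k h‖ ≤ B * (1 / 2) ^ k) :
    Summable fun k => ‖coeff k h * x ^ k‖ :=
  (summable_geometric_two.mul_left B).of_nonneg_of_le (fun _ => norm_nonneg _) fun k => by
    rw [norm_mul, norm_pow]
    exact (mul_le_of_le_one_right (norm_nonneg _) (pow_le_one₀ (norm_nonneg _) hx)).trans (hh k)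

lemma B1_sm4 {h : K⟦X⟧} {x : K} {B : ℝ} (hx : ‖x‖ ≤ 1) (hB : 0 ≤ B)
    (hh : ∀ k, ‖coeff k h‖ ≤ B * (1 / 4) ^ k) : Summable fun k => ‖coeff k h * x ^ k‖ :=
  B1_sm (B := B) hx fun k => (hh k).trans (by gcongr; norm_num)

lemma B1_anti (h h' : K⟦X⟧) (x : K) (k : ℕ) : ∑ p ∈ Finset.HasAntidiagonal.antidiagonal k,
    coeff p.1 h * x ^ p.1 * (coeff p.2 h' * x ^ p.2) = coeff k (h * h') * x ^ k := by
  rw [coeff_mul, Finset.sum_mul]
  refine Finset.sum_congr rfl fun p hp => ?_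
  rw [← Finset.HasAntidiagonal.mem_antidiagonal.1 hp, pow_add]
  ring

lemma B1_prod_zero {h : K⟦X⟧} (h1 : coeff 0 h = 1) {c : ℕ → K} (h0 : c 0 = 0) (d : ℕ) :
    coeff 0 (Pr h c d) = 1 := by
  rw [Pr, coeff_zero_eq_constantCoeff_apply, map_prod]
  refine Finset.prod_eq_one fun n _ => ?_
  rw [← coeff_zero_eq_constantCoeff_apply, B1_c0 h fun e => e ▸ h0, h1]

end B1

omit [IsUltrametricDist K] [CharZero K] in
lemma B1_mul {h h' : K⟦X⟧} {x : K} (s : Summable fun k => ‖coeff k h * x ^ k‖)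
    (s' : Summable fun k => ‖coeff k h' * x ^ k‖) (n : ℕ) :
    Ev (h * h') x n = Ev h x n * Ev h' x n := by
  rcases eq_or_ne n 0 with rfl | hn
  · simp only [B1_zero, ← map_mul, tsum_mul_tsum_eq_tsum_sum_antidiagonal_of_summable_norm s s',
      B1_anti]
  · simp only [B1_pos _ _ hn, map_mul, subst_mul (HasSubst.X_pow hn)]

variable (o : One K) (h2 : ‖(2 : K)‖ = 1 / 2) {c : ℕ → K} (hc : ∀ n, ‖c n‖ ≤ 1) {d : ℕ}
include h2 hc

lemma Pr_F : Pr o.θ c d ^ 2 * (Pr o.g (fun n => c n ^ 2) d).subst (X ^ 2 : K⟦X⟧) = Pr o.g c d := by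
  rw [Pr, Pr, Pr, ← coe_substAlgHom (R := K) (HasSubst.X_pow two_ne_zero), map_prod,
    ← Finset.prod_pow, ← Finset.prod_mul_distrib]
  refine Finset.prod_congr rfl fun n _ => ?_
  have s1 := B1_sm (B := 1) (hc n) fun k => (o.θ_le k).trans_eq (one_mul _).symm
  have s2 := summable_norm_sum_mul_antidiagonal_of_summable_norm s1 s1
  simp only [B1_anti] at s2
  have s3 := B1_sm (h := o.g.subst (X ^ 2 : K⟦X⟧)) (B := 1) (hc n) fun k => by
    rw [coeff_subst_X_pow two_ne_zero]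
    split_ifs with hd
    · obtain ⟨j, rfl⟩ := hd
      rw [Nat.mul_div_cancel_left _ two_pos, pow_mul]
      exact (o.g_le j).trans_eq (by norm_num)
    · simp
  rw [coe_substAlgHom, ← B1_sq, sq, ← B1_mul s1 s1, ← B1_mul s2 s3, ← sq, o.θ_g]
lemma Pr_gi : Pr o.g c d * Pr o.gi c d = 1 := by
  rw [Pr, Pr, ← Finset.prod_mul_distrib]
  refine Finset.prod_eq_one fun n _ => ?_
  rw [← B1_mul (B1_sm4 (hc n) zero_le_one fun k => (o.g_le k).trans_eq (one_mul _).symm)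
    (B1_sm4 (hc n) zero_le_one fun k => (o.gi_le k).trans_eq (one_mul _).symm), o.g_gi, B1_one]
lemma Pr_L : 2 * (Lr o.L c d * Pr o.g c d) = X * derivative K (Pr o.g c d) := by
  have key : ∀ n : ℕ, X * derivative K (Ev o.g (c n) n) =
      2 * (C (n : K) * Ev o.L (c n) n * Ev o.g (c n) n) := fun n => by
    rw [B1_D, ← o.L_g, ← map_ofNat (C (R := K)) 2, B1_C, B1_mul (B1_sm4 (hc n) zero_le_two o.L_le)
      (B1_sm4 (hc n) zero_le_one fun k => (o.g_le k).trans_eq (one_mul _).symm)]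
    ring
  rw [Lr, Pr]
  induction d + 1 with
  | zero => simp
  | succ m ih =>
    rw [Finset.sum_range_succ, Finset.prod_range_succ, Derivation.leibniz, smul_eq_mul, smul_eq_mul]
    linear_combination Ev o.g (c m) m * ih - (∏ n ∈ Finset.range m, Ev o.g (c n) n) * key m
lemma Pr_θ_le (hd : 1 ≤ d) (N : ℕ) : ‖coeff N (Pr o.θ c d)‖ ≤ (1 / 2) ^ cw d N :=
  have _ := h2
  b2_Pr_le (by norm_num) (by norm_num) o.θ_le hc hd le_rfl N
lemma Pr_g_le (hd : 1 ≤ d) (N : ℕ) : ‖coeff N (Pr o.g c d)‖ ≤ (1 / 4) ^ cw d N :=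
  have _ := h2
  b2_Pr_le (by norm_num) (by norm_num) o.g_le hc hd le_rfl N
lemma Pr_gi_le (hd : 1 ≤ d) (N : ℕ) : ‖coeff N (Pr o.gi c d)‖ ≤ (1 / 4) ^ cw d N :=
  have _ := h2
  b2_Pr_le (by norm_num) (by norm_num) o.gi_le hc hd le_rfl N
lemma Lr_le (hd : 1 ≤ d) (N : ℕ) : ‖coeff N (Lr o.L c d)‖ ≤ 2 * (1 / 4) ^ cw d N := by
  rw [Lr, map_sum]
  refine IsUltrametricDist.norm_sum_le_of_forall_le_of_nonneg (by positivity) fun n hn => ?_
  have := Finset.mem_range.1 hn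
  rw [coeff_C_mul, norm_mul]
  exact (mul_le_of_le_one_left (norm_nonneg _) (IsUltrametricDist.norm_natCast_le_one K n)).trans
    (b2_Ev_le zero_le_two (by norm_num) (by norm_num) o.L_le (hc n) hd (by omega) N)
lemma Lr_zero : coeff 0 (Lr o.L c d) = 0 := by
  rw [Lr, map_sum]
  refine Finset.sum_eq_zero fun n _ => ?_
  rw [coeff_C_mul]
  rcases eq_or_ne n 0 with rfl | hn
  · rw [Nat.cast_zero, zero_mul]
  · rw [B1_c0 _ fun e => absurd e hn, o.L_zero, mul_zero]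
lemma Pr_θ_zero (h0 : c 0 = 0) : coeff 0 (Pr o.θ c d) = 1 := B1_prod_zero o.θ_zero h0 d
lemma Pr_g_zero (h0 : c 0 = 0) : coeff 0 (Pr o.g c d) = 1 := B1_prod_zero o.g_zero h0 d
lemma Pr_gi_zero (h0 : c 0 = 0) : coeff 0 (Pr o.gi c d) = 1 := by
  refine B1_prod_zero ?_ h0 d
  have := congrArg (coeff 0) o.g_gi
  rwa [coeff_zero_eq_constantCoeff_apply, map_mul, ← coeff_zero_eq_constantCoeff_apply, o.g_zero,
    one_mul, ← coeff_zero_eq_constantCoeff_apply, coeff_zero_one] at this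
lemma Pr_θ_red2 : Bc (1 / 8) (Pr o.θ c d - 1 - 2 * Yr c d - 4 * Hr c d) := by
  induction d with
  | zero =>
    convert b2_Ev_θ o (hc 0) 0 using 1
    simp only [Pr, Yr, Hr, zero_add, Finset.prod_range_one, Finset.sum_range_one]
    ring
  | succ d ih =>
    have hy := b2_mono (hc (d + 1)) (d + 1)
    have hY := b2_Yr hc d
    have hH := b2_Hr hc d
    have e1 : Pr o.θ c (d + 1) = Pr o.θ c d * Ev o.θ (c (d + 1)) (d + 1) :=
      Finset.prod_range_succ _ _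
    have e2 : Yr c (d + 1) = Yr c d + monomial (d + 1) (c (d + 1)) := Finset.sum_range_succ _ _
    have e3 : Hr c (d + 1) = Hr c d + monomial (d + 1) (c (d + 1)) * Yr c (d + 1) :=
      Finset.sum_range_succ _ _
    have h3 := b2_Ev_θ o (hc (d + 1)) (d + 1)
    rw [e1, e3, e2]
    generalize (monomial (d + 1) (c (d + 1)) : K⟦X⟧) = y at *
    have t2 := (b2_two h2).mono (r' := 1) (by norm_num)
    have t4 := (b2_four h2).mono (r' := 1) (by norm_num)
    have h4 : Bc 1 (1 + 2 * y + 4 * y ^ 2) :=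
      (Bc.one.add (t2.mul_one' hy)).add (t4.mul_one' (sq y ▸ hy.mul_one' hy))
    have h5 := Bc.mul_sub (s' := 1 + 2 * Yr c d + 4 * Hr c d)
      (b2_Pr_bc (by norm_num) (by norm_num) o.θ_le hc d) h4 (by convert ih using 1; ring) h3
    have h6 := (b2_eight h2).mul_one' ((((hY.mul_one' hy).mul_one' hy).add (hH.mul_one' hy)).add
      (((t2.mul_one' hH).mul_one' hy).mul_one' hy))
    convert h5.add h6 using 1
    ring
lemma Pr_θ_red : Bc (1 / 4) (Pr o.θ c d - 1 - 2 * Yr c d) := by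
  have h1 := ((Pr_θ_red2 o h2 hc (d := d)).mono (r' := 1 / 4) (by norm_num)).add
    ((b2_four h2).mul_one' (b2_Hr hc d))
  rwa [sub_add_cancel] at h1
lemma Pr_g_red : Bc (1 / 8) (Pr o.g c d - 1 - 4 * Yr c d) := by
  induction d with
  | zero =>
    convert b2_Ev_g o (hc 0) 0 using 1
    simp only [Pr, Yr, zero_add, Finset.prod_range_one, Finset.sum_range_one]
    ring
  | succ d ih =>
    have hy := b2_mono (hc (d + 1)) (d + 1)
    have hY := b2_Yr hc d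
    have e1 : Pr o.g c (d + 1) = Pr o.g c d * Ev o.g (c (d + 1)) (d + 1) :=
      Finset.prod_range_succ _ _
    have e2 : Yr c (d + 1) = Yr c d + monomial (d + 1) (c (d + 1)) := Finset.sum_range_succ _ _
    have h3 := b2_Ev_g o (hc (d + 1)) (d + 1)
    rw [e1, e2]
    generalize (monomial (d + 1) (c (d + 1)) : K⟦X⟧) = y at *
    have t2 := (b2_two h2).mono (r' := 1) (by norm_num)
    have t4 := (b2_four h2).mono (r' := 1) (by norm_num)
    have h5 := Bc.mul_sub (s' := 1 + 4 * Yr c d)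
      (b2_Pr_bc (by norm_num) (by norm_num) o.g_le hc d) (Bc.one.add (t4.mul_one' hy))
      (by convert ih using 1; ring) h3
    have h6 := (b2_eight h2).mul_one' ((t2.mul_one' hY).mul_one' hy)
    convert h5.add h6 using 1
    ring
lemma Lr_red : Bc (1 / 8) (Lr o.L c d - 2 * (X * derivative K (Yr c d))) := by
  rw [Lr, Yr, map_sum, Finset.mul_sum, Finset.mul_sum, ← Finset.sum_sub_distrib]
  refine Bc.sum _ (by norm_num) fun n _ => ?_
  convert (Bc.const (IsUltrametricDist.norm_natCast_le_one K n)).one_mul' (b2_Ev_L o (hc n) n)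
    using 1
  rw [b2_XD]
  ring
lemma Pr_θ_dcy : Dcy (Pr o.θ c d) :=
  have _ := h2
  b2_Pr_dcy (by norm_num) (by norm_num) o.θ_le hc d
lemma Pr_g_dcy : Dcy (Pr o.g c d) :=
  have _ := h2
  b2_Pr_dcy (by norm_num) (by norm_num) o.g_le hc d
lemma Pr_gi_dcy : Dcy (Pr o.gi c d) :=
  have _ := h2
  b2_Pr_dcy (by norm_num) (by norm_num) o.gi_le hc d

end Pool.Agent.Lib.MP_788af2_nt.AG
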