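import Pool.Agent.Lib.MP_788af2_nt.AG.Core

/-!
The link between the Dwork data and the polynomials `a`, `b`, `β i`.
-/

set_option linter.unusedSectionVars false

namespace Pool.Agent.Lib.MP_788af2_nt.AG

open Polynomial Pool.Agent.Lib.MP_788af2_nt.AS

open scoped Classical

/-- The link between the lifted roots and the polynomial `b`. -/
structure Lnk {K J Z k κ : Type} [NontriviallyNormedField K] [Fintype Z] [DecidableEq J]
    [Field k] [Field κ] [CharP κ 2] (q : Geo K J Z) (ℓ : Lift K κ) (b : k[X]) where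
  /-- The embeddings. -/
  emb : J ≃ (k →+* κ)
  /-- The roots. -/
  rt : Z → κ
  emb_σ : ∀ j c, emb (q.σ j) c = emb j c ^ 2
  β_eq : ∀ z, q.β z = ℓ.τ (rt z)
  rt_σ : ∀ z, rt (q.σZ z) = rt z ^ 2
  inj : ∀ z z', q.jz z = q.jz z' → rt z = rt z' → z = z'
  surj : ∀ j x, (b.map (emb j)).IsRoot x → ∃ z, q.jz z = j ∧ rt z = x
  mult : ∀ z, q.n z = (b.map (emb (q.jz z))).rootMultiplicity (rt z)
  ne : b ≠ 0
  u_eq : ∀ j, q.u j = ℓ.τ (emb j (b.leadingCoeff ^ 2 ^ (q.i + 1)))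

section con

variable {k I : Type} [Field k] [Fintype I] [DecidableEq I]

/-- The coefficient of `γ g` in `∏ (1 + (1 + γ i) D i)`, `D i = t β i ^ 2`. -/
noncomputable def pG (β : I → k[X]) (g : G I) : k[X] :=
  ∏ i, if g i = 0 then 1 + X * β i ^ 2 else X * β i ^ 2

/-- The coefficient of `γ g` in `∑ (1 + γ i) t D i'`. -/
noncomputable def lG (β : I → k[X]) (g : G I) : k[X] :=
  ∑ i, if g = 0 ∨ g = Pi.single i 1 then X * derivative (X * β i ^ 2) else 0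

variable {K A J Z κ : Type} [NontriviallyNormedField K] [NormedCommRing A] [NormedAlgebra K A]
  [Fintype Z] [DecidableEq J] [DecidableEq Z] [Field κ] [CharP κ 2] {δ : I → ℝ}

/-- The lift of an element of `k[G]` along an embedding. -/
noncomputable def lf (ℓ : Lift K κ) (cb : Cube K I A δ) (e : k →+* κ) (u : G I → k) : A :=
  ∑ g, ℓ.τ (e (u g)) • cb.γ g

/-- The reductions of the Dwork data. -/
structure Con [CharP k 2] (d : Dat K A J Z) (ℓ : Lift K κ) (cb : Cube K I A δ) (a b : k[X])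
    (β : I → k[X]) (L : Lnk d.toGeo ℓ b) where
  /-- The factor coming from `a`. -/
  FA : J → PowerSeries K
  /-- The factor coming from the cube. -/
  FG : J → PowerSeries A
  /-- The connection coming from the cube. -/
  LG : J → PowerSeries A
  /-- The second digit. -/
  A2 : k[X]
  Ft_eq : ∀ j, d.Ft j = FG j * PowerSeries.map (algebraMap K A) (FA j)
  FG_le : ∀ j (n : ℕ), ‖PowerSeries.coeff n (FG j)‖ ≤ 2 ^ (-((n : ℝ) / d.p.l))
  FG_red : ∀ j n, ‖PowerSeries.coeff n (FG j) - lf ℓ cb (L.emb j) fun g => (pG β g).coeff n‖ ≤ 1 / 2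
  FA_le : ∀ j n, ‖PowerSeries.coeff n (FA j)‖ ≤ 1
  FA_le' : ∀ j k' n, k' * d.p.e < n → ‖PowerSeries.coeff n (FA j)‖ ≤ (1 / 2) ^ (k' + 1)
  FA_red : ∀ j n, ‖PowerSeries.coeff n (FA j) - (if n = 0 then 1 else 0) -
    2 * ℓ.τ (L.emb j (a.coeff n)) - 4 * ℓ.τ (L.emb j (A2.coeff n))‖ ≤ 1 / 8
  A2_deg : A2.natDegree ≤ 2 * d.p.e
  A2_D : X * derivative A2 = X * derivative a * a + (X * derivative a) ^ 2
  LG_le : ∀ j (n : ℕ), ‖PowerSeries.coeff n (LG j)‖ ≤ 2 ^ (-((n : ℝ) / d.p.l))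
  LG_red : ∀ j n, ‖PowerSeries.coeff n (LG j) - lf ℓ cb (L.emb j) fun g => (lG β g).coeff n‖ ≤ 1 / 2
  LA_red : ∀ j n, ‖PowerSeries.coeff n (d.Lt j) - PowerSeries.coeff n (LG j) -
    algebraMap K A (2 * ℓ.τ (L.emb j ((X * derivative a).coeff n)))‖ ≤ 1 / 4
  LA_le : ∀ j k' n, k' * d.p.e < n →
    ‖PowerSeries.coeff n (d.Lt j) - PowerSeries.coeff n (LG j)‖ ≤ (1 / 2) ^ (2 * k' + 1)
  κ_one : ∀ z, ‖PowerSeries.coeff 1 (d.κ z)‖ ≤ 1 / 2
  ε_spl : ∀ z, (∃ y : k[X], ((a + y ^ 2 + y).map (L.emb (d.jz z))).IsRoot (L.rt z)) → d.ε z = 1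
  ε_non : ∀ z, ¬ (∃ y : k[X], ((a + y ^ 2 + y).map (L.emb (d.jz z))).IsRoot (L.rt z)) →
    ∀ x : Z → ℚ, (∀ z', x (d.σZ z') = d.ε z' * x z') → x z = 0
  ev_F : ∀ (ξ : G I) j n, ‖cb.ev ξ (PowerSeries.coeff n (d.Ft j)) - (if n = 0 then 1 else 0) -
    2 * ℓ.τ (L.emb j ((a + X * comb β ξ ^ 2).coeff n))‖ ≤ 1 / 4

/-- The incidence matrix of roots and primes. -/
noncomputable def Lnk.Em {q : Geo K J Z} {ℓ : Lift K κ} {b : k[X]} (L : Lnk q ℓ b)
    (S : Finset k[X]) : Matrix Z S ℤ :=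
  Matrix.of fun z v => if (v.1.map (L.emb (q.jz z))).IsRoot (L.rt z) then 1 else 0

end con

/-- The embeddings of the constant field. -/
abbrev Jt (k κ : Type) [Field k] [Field κ] : Type := k →+* κ

/-- The roots of the conjugates of `b`. -/
abbrev Zt {k : Type} [Field k] (κ : Type) [Field κ] (b : k[X]) : Type :=
  {x : Jt k κ × κ // (b.map x.1).IsRoot x.2}

/-- The standard link. -/
def Lnk.Std {K k κ : Type} [NontriviallyNormedField K] [Field k] [Field κ] [CharP κ 2] {b : k[X]}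
    [Fintype (Zt κ b)] [DecidableEq (Jt k κ)] {q : Geo K (Jt k κ) (Zt κ b)} {ℓ : Lift K κ}
    (L : Lnk q ℓ b) : Prop :=
  L.emb = Equiv.refl _ ∧ (∀ z, q.jz z = z.1.1) ∧ ∀ z, L.rt z = z.1.2

end Pool.Agent.Lib.MP_788af2_nt.AG
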