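import Pool.Agent.Lib.MP_788af2_nt.AG.ConB
import Pool.Agent.Lib.MP_788af2_nt.AG.Link

/-!
Teichmueller lifts of polynomials; the choice of the roots of `W ^ 2 + W = a`.
-/

set_option linter.unusedSectionVars false

namespace Pool.Agent.Lib.MP_788af2_nt.AG

open Polynomial Filter Topology

variable {K J Z k κ : Type} [NontriviallyNormedField K] [IsUltrametricDist K] [CompleteSpace K]
  [CharZero K] [Fintype J] [Fintype Z] [DecidableEq J] [DecidableEq Z] [Field k] [Fintype k]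
  [CharP k 2] [Field κ] [CharP κ 2] [IsAlgClosed κ]

section lift

variable (ℓ : Lift K κ)

private lemma C1_add {a b : K} {x : ℝ} (ha : ‖a‖ ≤ x) (hb : ‖b‖ ≤ x) : ‖a + b‖ ≤ x :=
  (IsUltrametricDist.norm_add_le_max a b).trans (max_le ha hb)

private lemma C1_near {x y : K} (hx : ‖x‖ ≤ 1) (hy : ‖y‖ ≤ 1) (h : ℓ.red x = ℓ.red y) :
    ‖x - y‖ ≤ 1 / 2 := by
  have h0 : ℓ.red 0 = 0 := by simpa using ℓ.red_τ 0
  have hy' : ‖-y‖ ≤ 1 := by rwa [norm_neg]
  have h1 := ℓ.red_add y (-y) hy hy'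
  rw [add_neg_cancel, h0] at h1
  rw [sub_eq_add_neg, ← ℓ.red_eq_zero _ (C1_add hx hy'), ℓ.red_add x (-y) hx hy', h, ← h1]

lemma τ_add (x y : κ) : ‖ℓ.τ (x + y) - ℓ.τ x - ℓ.τ y‖ ≤ 1 / 2 := by
  rw [sub_sub]
  exact C1_near ℓ (ℓ.τ_le _) (C1_add (ℓ.τ_le _) (ℓ.τ_le _)) (by
    rw [ℓ.red_add _ _ (ℓ.τ_le _) (ℓ.τ_le _), ℓ.red_τ, ℓ.red_τ, ℓ.red_τ])
lemma τ_sum {ι : Type} (T : Finset ι) (f : ι → κ) :
    ‖ℓ.τ (∑ i ∈ T, f i) - ∑ i ∈ T, ℓ.τ (f i)‖ ≤ 1 / 2 := by
  classical
  induction T using Finset.induction_on with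
  | empty => simp
  | insert a s ha ih =>
    rw [Finset.sum_insert ha, Finset.sum_insert ha]
    refine le_of_eq_of_le (congrArg norm ?_) (C1_add (τ_add ℓ (f a) (∑ i ∈ s, f i)) ih)
    ring
lemma τ_norm {x : κ} (h : x ≠ 0) : ‖ℓ.τ x‖ = 1 := by
  have h1 : ‖ℓ.τ x‖ * ‖ℓ.τ x⁻¹‖ = 1 := by
    rw [← norm_mul, ← map_mul, mul_inv_cancel₀ h, map_one, norm_one]
  have h2 := mul_le_mul_of_nonneg_left (ℓ.τ_le x⁻¹) (norm_nonneg (ℓ.τ x))
  exact le_antisymm (ℓ.τ_le x) (by linarith)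
lemma τ_small {x : κ} (h : ‖ℓ.τ x‖ ≤ 1 / 2) : x = 0 := by
  rw [← ℓ.red_τ x]
  exact (ℓ.red_eq_zero _ (ℓ.τ_le x)).2 h
lemma τ_nat (n : ℕ) (x : κ) : ‖ℓ.τ (n * x) - n * ℓ.τ x‖ ≤ 1 / 2 := by
  simpa only [Finset.sum_const, Finset.card_range, nsmul_eq_mul] using
    τ_sum ℓ (Finset.range n) fun _ => x

/-- The coefficientwise lift of a polynomial. -/
noncomputable def Lf (e : k →+* κ) (p : k[X]) : PowerSeries K :=
  PowerSeries.mk fun n => ℓ.τ (e (p.coeff n))

variable (e : k →+* κ)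

private lemma C1_co (p : k[X]) (n : ℕ) :
    PowerSeries.coeff n (Lf ℓ e p) = ℓ.τ (e (p.coeff n)) := PowerSeries.coeff_mk _ _

lemma Lf_le (p : k[X]) : Bc 1 (Lf ℓ e p) := fun n => by
  rw [C1_co]
  exact ℓ.τ_le _
lemma Lf_dcy (p : k[X]) : Dcy (Lf ℓ e p) := by
  refine tendsto_const_nhds.congr' ?_
  filter_upwards [eventually_gt_atTop p.natDegree] with n hn
  rw [C1_co, coeff_eq_zero_of_natDegree_lt hn, map_zero, map_zero]
lemma Lf_one : Lf ℓ e 1 = 1 := by
  ext n
  rw [C1_co, Polynomial.coeff_one, PowerSeries.coeff_one]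
  split_ifs <;> simp
lemma Lf_zero : Lf ℓ e 0 = 0 := by
  ext n
  simp [C1_co]
lemma Lf_add (p p' : k[X]) : Bc (1 / 2) (Lf ℓ e (p + p') - (Lf ℓ e p + Lf ℓ e p')) :=
  fun n => by
    rw [map_sub, map_add, C1_co, C1_co, C1_co, Polynomial.coeff_add, map_add, ← sub_sub]
    exact τ_add ℓ _ _
lemma Lf_mul (p p' : k[X]) : Bc (1 / 2) (Lf ℓ e (p * p') - Lf ℓ e p * Lf ℓ e p') :=
  fun n => by
    rw [map_sub, C1_co, Polynomial.coeff_mul, map_sum, PowerSeries.coeff_mul]
    simpa only [C1_co, map_mul] using τ_sum ℓ _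
      fun x : ℕ × ℕ => e (p.coeff x.1 * p'.coeff x.2)
lemma Lf_sum {ι : Type} (T : Finset ι) (f : ι → k[X]) :
    Bc (1 / 2) (Lf ℓ e (∑ i ∈ T, f i) - ∑ i ∈ T, Lf ℓ e (f i)) := fun n => by
  rw [map_sub, C1_co, finsetSum_coeff, map_sum e, map_sum (PowerSeries.coeff n)]
  simpa only [C1_co] using τ_sum ℓ T fun i => e ((f i).coeff n)
lemma Lf_prod {ι : Type} (T : Finset ι) (f : ι → k[X]) :
    Bc (1 / 2) (Lf ℓ e (∏ i ∈ T, f i) - ∏ i ∈ T, Lf ℓ e (f i)) := by
  classical
  induction T using Finset.induction_on with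
  | empty =>
    rw [Finset.prod_empty, Finset.prod_empty, Lf_one, sub_self]
    exact Bc.zero (by norm_num)
  | insert a s ha ih =>
    rw [Finset.prod_insert ha, Finset.prod_insert ha]
    have := (Lf_mul ℓ e (f a) (∏ i ∈ s, f i)).add ((Lf_le ℓ e (f a)).one_mul' ih)
    rwa [mul_sub, sub_add_sub_cancel] at this
lemma Lf_XD (p : k[X]) : Bc (1 / 2) (Lf ℓ e (X * derivative p) -
    PowerSeries.X * PowerSeries.derivative K (Lf ℓ e p)) := fun n => by
  rw [map_sub, C1_co]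
  cases n with
  | zero => simp
  | succ n =>
    rw [Polynomial.coeff_X_mul, PowerSeries.coeff_succ_X_mul, Polynomial.coeff_derivative,
      PowerSeries.coeff_derivative, C1_co]
    have := τ_nat ℓ (n + 1) (e (p.coeff (n + 1)))
    rw [mul_comm, mul_comm ((n + 1 : ℕ) : K)] at this
    simpa only [map_mul e, map_add e, map_natCast, map_one, Nat.cast_add, Nat.cast_one] using this
private lemma C1_Yr (c : ℕ → K) (d n : ℕ) :
    PowerSeries.coeff n (Yr c d) = if n < d + 1 then c n else 0 := by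
  simp only [Yr, map_sum, PowerSeries.coeff_monomial, Finset.sum_ite_eq, Finset.mem_range]
lemma Yr_eq {p : k[X]} {d : ℕ} (h : p.natDegree ≤ d) :
    Yr (fun n => ℓ.τ (e (p.coeff n))) d = Lf ℓ e p := by
  ext n
  rw [C1_Yr, C1_co]
  split_ifs with hn
  · rfl
  · rw [coeff_eq_zero_of_natDegree_lt (by omega), map_zero, map_zero]
lemma Tay_Lf (p : k[X]) (r : κ) (n : ℕ) : ‖PowerSeries.coeff n (Tay (ℓ.τ r) (Lf ℓ e p)) -
    ℓ.τ ((taylor r (p.map e)).coeff n)‖ ≤ 1 / 2 := by
  have h1 : (taylor r (p.map e)).coeff n = ∑ i ∈ Finset.range (p.natDegree + 1),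
      (i.choose n : κ) * (r ^ (i - n) * e (p.coeff i)) := by
    conv_lhs => rw [(p.map e).as_sum_range' (p.natDegree + 1)
      (Nat.lt_succ_of_le natDegree_map_le)]
    rw [map_sum, finsetSum_coeff]
    refine Finset.sum_congr rfl fun i _ => ?_
    rw [taylor_monomial, coeff_C_mul, coeff_X_add_C_pow, coeff_map]
    ring
  have h2 : PowerSeries.coeff n (Tay (ℓ.τ r) (Lf ℓ e p)) = ∑ i ∈ Finset.range (p.natDegree + 1),
      (i.choose n : K) * ℓ.τ (r ^ (i - n) * e (p.coeff i)) := by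
    rw [Tay, PowerSeries.coeff_mk, tsum_eq_sum (s := Finset.range (p.natDegree + 1))]
    · refine Finset.sum_congr rfl fun i _ => ?_
      rw [C1_co, smul_eq_mul, map_mul, map_pow, mul_assoc]
    · intro i hi
      rw [C1_co, coeff_eq_zero_of_natDegree_lt (by simpa using hi), map_zero, map_zero, smul_zero]
  have h3 := τ_sum ℓ (Finset.range (p.natDegree + 1))
    fun i => (i.choose n : κ) * (r ^ (i - n) * e (p.coeff i))
  have h4 : ‖∑ i ∈ Finset.range (p.natDegree + 1),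
      (ℓ.τ ((i.choose n : κ) * (r ^ (i - n) * e (p.coeff i))) -
        (i.choose n : K) * ℓ.τ (r ^ (i - n) * e (p.coeff i)))‖ ≤ 1 / 2 :=
    IsUltrametricDist.norm_sum_le_of_forall_le_of_nonneg (by norm_num) fun i _ => τ_nat ℓ _ _
  rw [h1, h2, norm_sub_rev]
  refine le_of_eq_of_le (congrArg norm ?_) (C1_add h3 h4)
  rw [Finset.sum_sub_distrib]
  ring

/-- The second digit. -/
noncomputable def Sec (a : k[X]) (d : ℕ) : k[X] := ∑ n ∈ Finset.range (d + 1),
  monomial n (a.coeff n) * ∑ m ∈ Finset.range (n + 1), monomial m (a.coeff m)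

lemma Sec_deg (a : k[X]) (d : ℕ) : (Sec a d).natDegree ≤ 2 * d := by
  refine natDegree_sum_le_of_forall_le _ _ fun n hn => natDegree_mul_le.trans ?_
  have h1 := natDegree_monomial_le (a.coeff n) (m := n)
  have h2 : (∑ m ∈ Finset.range (n + 1), monomial m (a.coeff m)).natDegree ≤ n :=
    natDegree_sum_le_of_forall_le _ _ fun m hm =>
      (natDegree_monomial_le _).trans (Nat.lt_succ_iff.1 (Finset.mem_range.1 hm))
  have := Finset.mem_range.1 hn
  omega
private lemma C1_sec (a : k[X]) (N : ℕ) :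
    X * derivative (∑ n ∈ Finset.range N,
      monomial n (a.coeff n) * ∑ m ∈ Finset.range (n + 1), monomial m (a.coeff m)) =
    X * derivative (∑ m ∈ Finset.range N, monomial m (a.coeff m)) *
      (∑ m ∈ Finset.range N, monomial m (a.coeff m)) +
    (X * derivative (∑ m ∈ Finset.range N, monomial m (a.coeff m))) ^ 2 := by
  induction N with
  | zero => simp
  | succ N ih =>
    have h1 : X * derivative (monomial N (a.coeff N)) = (N : k[X]) * monomial N (a.coeff N) := by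
      cases N with
      | zero => simp
      | succ N =>
        rw [derivative_monomial, Nat.add_sub_cancel, X_mul_monomial, ← C_eq_natCast,
          C_mul_monomial, mul_comm]
    have h2 : (2 : k[X]) = 0 := CharTwo.two_eq_zero
    have h3 : (N : k[X]) ^ 2 = N := by
      rcases Nat.even_or_odd' N with ⟨m, rfl | rfl⟩ <;> simp [h2]
    rw [Finset.sum_range_succ, Finset.sum_range_succ (fun m => monomial m (a.coeff m)) N]
    generalize (∑ m ∈ Finset.range N, monomial m (a.coeff m)) = T at ih ⊢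
    generalize monomial N (a.coeff N) = y at h1 ⊢
    simp only [derivative_add, derivative_mul]
    linear_combination ih + (y - X * derivative y - N * y - 2 * (X * derivative T)) * h1 -
      y ^ 2 * h3 - (N * y * (X * derivative T)) * h2
lemma Sec_D {a : k[X]} {d : ℕ} (h : a.natDegree ≤ d) :
    X * derivative (Sec a d) = X * derivative a * a + (X * derivative a) ^ 2 := by
  have := C1_sec a (d + 1)
  rwa [← a.as_sum_range' (d + 1) (by omega)] at this
lemma Hr_red (a : k[X]) (d : ℕ) :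
    Bc (1 / 2) (Hr (fun n => ℓ.τ (e (a.coeff n))) d - Lf ℓ e (Sec a d)) := by
  have h1 : ∀ n, Lf ℓ e (monomial n (a.coeff n)) =
      PowerSeries.monomial n (ℓ.τ (e (a.coeff n))) := fun n => by
    ext m
    rw [C1_co, Polynomial.coeff_monomial, PowerSeries.coeff_monomial]
    by_cases h : n = m
    · rw [if_pos h, if_pos h.symm]
    · rw [if_neg h, if_neg (Ne.symm h), map_zero, map_zero]
  have h2 : ∀ n, Lf ℓ e (∑ m ∈ Finset.range (n + 1), monomial m (a.coeff m)) =
      Yr (fun n => ℓ.τ (e (a.coeff n))) n := fun n => by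
    ext m
    rw [C1_co, C1_Yr, finsetSum_coeff]
    simp only [Polynomial.coeff_monomial, Finset.sum_ite_eq', Finset.mem_range]
    split_ifs <;> simp
  have h3 := (Lf_sum ℓ e (Finset.range (d + 1)) fun n => monomial n (a.coeff n) *
    ∑ m ∈ Finset.range (n + 1), monomial m (a.coeff m)).add
    (Bc.sum (Finset.range (d + 1)) (by norm_num) fun n _ => Lf_mul ℓ e (monomial n (a.coeff n))
      (∑ m ∈ Finset.range (n + 1), monomial m (a.coeff m)))
  rw [Finset.sum_sub_distrib, sub_add_sub_cancel] at h3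
  simp only [h1, h2] at h3
  have h4 := h3.neg
  rwa [neg_sub] at h4

end lift

lemma mem_of_frob (e : k →+* κ) {b : k[X]} (hb : b ≠ 0) {r V : κ} (hr : (b.map e).IsRoot r)
    (h : ∀ M : ℕ, (∀ c, e c ^ 2 ^ M = e c) → r ^ 2 ^ M = r → V ^ 2 ^ M = V) :
    ∃ y : k[X], (y.map e).eval r = V := by
  classical
  let _ := e.toAlgebra
  have he : algebraMap k κ = e := rfl
  have ha : IsAlgebraic k r := ⟨b, hb, by rw [aeval_def, eval₂_eq_eval_map, he]; exact hr⟩
  let F := IntermediateField.adjoin k {r}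
  have : FiniteDimensional k F := IntermediateField.adjoin.finiteDimensional ha.isIntegral
  have : Finite F := Module.finite_of_finite k
  let _ : Fintype F := Fintype.ofFinite F
  have : CharP F 2 := (algebraMap F κ).charP (algebraMap F κ).injective 2
  obtain ⟨M, -, hM⟩ := FiniteField.card F 2
  have h1 : ∀ x ∈ F, x ^ 2 ^ (M : ℕ) = x := fun x hx => by
    have := congrArg (fun y : F => (y : κ)) (FiniteField.pow_card (⟨x, hx⟩ : F))
    simpa [hM] using this
  have h2 := h M (fun c => h1 _ (F.algebraMap_mem c))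
    (h1 _ (IntermediateField.mem_adjoin_simple_self k r))
  have h3 : V ∈ F := by
    by_contra hV
    have hq : 1 < Fintype.card F := Fintype.one_lt_card
    have h4 := card_le_degree_of_subset_roots (p := (X ^ Fintype.card F - X : κ[X]))
      (Z := insert V (Finset.univ.image fun y : F => (y : κ))) fun x hx => by
        rw [mem_roots (FiniteField.X_pow_card_sub_X_ne_zero κ hq)]
        simp only [Finset.mem_val, Finset.mem_insert, Finset.mem_image, Finset.mem_univ,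
          true_and] at hx
        rcases hx with rfl | ⟨y, rfl⟩
        · simp [hM, h2]
        · simp [hM, h1 _ y.2]
    rw [FiniteField.X_pow_card_sub_X_natDegree_eq κ hq, Finset.card_insert_of_notMem (by
      simp only [Finset.mem_image, Finset.mem_univ, true_and, not_exists]
      rintro y rfl
      exact hV y.2), Finset.card_image_of_injective _ Subtype.val_injective,
      Finset.card_univ] at h4
    omega
  have h5 : V ∈ Algebra.adjoin k {r} := by
    rw [← IntermediateField.adjoin_simple_toSubalgebra_of_isAlgebraic ha]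
    exact h3
  rw [Algebra.adjoin_singleton_eq_range_aeval] at h5
  obtain ⟨y, hy⟩ := h5
  exact ⟨y, by rw [← he, ← eval₂_eq_eval_map, ← aeval_def]; exact hy⟩

variable {q : Geo K J Z} {ℓ : Lift K κ} {b : k[X]} (L : Lnk q ℓ b)

lemma Lnk.root (z : Z) : (b.map (L.emb (q.jz z))).IsRoot (L.rt z) := by
  by_contra h
  have h1 := q.n_pos z
  rw [L.mult, rootMultiplicity_eq_zero h] at h1
  exact lt_irrefl _ h1

lemma Lnk.eval_σ (p : k[X]) (z : Z) : (p.map (L.emb (q.jz (q.σZ z)))).eval (L.rt (q.σZ z)) =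
    (p.map (L.emb (q.jz z))).eval (L.rt z) ^ 2 := by
  rw [q.jz_σ, L.rt_σ]
  induction p using Polynomial.induction_on' with
  | add p p' h h' => simp only [Polynomial.map_add, eval_add, h, h', CharTwo.add_sq]
  | monomial n c =>
    simp only [Polynomial.map_monomial, eval_monomial, L.emb_σ]
    ring

lemma c2_root (c : κ) : ∃ w : κ, w ^ 2 + w = c := by
  obtain ⟨w, hw⟩ := IsAlgClosed.exists_root (X ^ 2 + X - C c : κ[X]) (by
    have : (X ^ 2 + X - C c : κ[X]).degree = 2 := by compute_degree!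
    rw [this]
    decide)
  exact ⟨w, sub_eq_zero.1 (by simpa using hw)⟩

lemma c2_iff (e : k →+* κ) (a y : k[X]) (r : κ) : ((a + y ^ 2 + y).map e).IsRoot r ↔
    (y.map e).eval r ^ 2 + (y.map e).eval r = (a.map e).eval r := by
  simp only [IsRoot.def, Polynomial.map_add, Polynomial.map_pow, eval_add, eval_pow]
  rw [add_assoc, CharTwo.add_eq_zero, eq_comm]

theorem exists_Wb (a : k[X]) : ∃ Wb : Z → κ,
    (∀ z, Wb z ^ 2 + Wb z = (a.map (L.emb (q.jz z))).eval (L.rt z)) ∧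
    (∀ z, (∃ y : k[X], ((a + y ^ 2 + y).map (L.emb (q.jz z))).IsRoot (L.rt z)) →
      Wb (q.σZ z) = Wb z ^ 2) ∧
    ∀ ε : Z → ℤ, (∀ z, (ε z = 1 ∧ Wb (q.σZ z) = Wb z ^ 2) ∨
      (ε z = -1 ∧ Wb (q.σZ z) = Wb z ^ 2 + 1)) →
      ∀ z, ¬ (∃ y : k[X], ((a + y ^ 2 + y).map (L.emb (q.jz z))).IsRoot (L.rt z)) →
        ∀ x : Z → ℚ, (∀ z', x (q.σZ z') = ε z' * x z') → x z = 0 := by
  classical
  let P : Z → k[X] → Prop := fun z y => ((a + y ^ 2 + y).map (L.emb (q.jz z))).IsRoot (L.rt z)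
  have hP : ∀ z, P (q.σZ z) = P z := fun z => funext fun y => propext (by
    simp only [P, IsRoot.def, L.eval_σ, pow_eq_zero_iff two_ne_zero])
  choose w hw using c2_root (κ := κ)
  let Wb : Z → κ := fun z =>
    if ∃ y, P z y then ((Classical.epsilon (P z)).map (L.emb (q.jz z))).eval (L.rt z)
    else w ((a.map (L.emb (q.jz z))).eval (L.rt z))
  have h1 : ∀ z, Wb z ^ 2 + Wb z = (a.map (L.emb (q.jz z))).eval (L.rt z) := fun z => by
    by_cases h : ∃ y, P z y
    · simp only [Wb, if_pos h]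
      exact (c2_iff _ _ _ _).1 (Classical.epsilon_spec h)
    · simp only [Wb, if_neg h, hw]
  refine ⟨Wb, h1, fun z h => ?_, fun ε hε z hz x hx => ?_⟩
  · have h' : ∃ y, P z y := h
    simp only [Wb, hP, if_pos h', L.eval_σ]
  by_contra h0
  let V : Z → κ := fun z => Wb z + if 0 < x z then 0 else 1
  have h11 : (1 : κ) + 1 = 0 := CharTwo.add_self_eq_zero 1
  have h2 : ∀ z', x z' ≠ 0 → x (q.σZ z') ≠ 0 ∧ V (q.σZ z') = V z' ^ 2 := fun z' hz' => by
    have h3 := hx z'
    rcases hε z' with ⟨h4, h5⟩ | ⟨h4, h5⟩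
    · rw [h4, Int.cast_one, one_mul] at h3
      refine ⟨h3 ▸ hz', ?_⟩
      simp only [V, h3, h5, CharTwo.add_sq]
      split_ifs <;> simp
    · rw [h4, Int.cast_neg, Int.cast_one, neg_one_mul] at h3
      refine ⟨h3 ▸ neg_ne_zero.2 hz', ?_⟩
      simp only [V, h3, h5, CharTwo.add_sq]
      rcases lt_or_gt_of_ne hz' with h6 | h6
      · rw [if_pos (neg_pos.2 h6), if_neg h6.not_gt, add_zero, one_pow]
      · rw [if_neg (neg_neg_of_pos h6).not_gt, if_pos h6, add_assoc, h11, zero_pow two_ne_zero]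
  have h3 : ∀ M : ℕ, x (q.σZ^[M] z) ≠ 0 ∧ V (q.σZ^[M] z) = V z ^ 2 ^ M ∧
      L.rt (q.σZ^[M] z) = L.rt z ^ 2 ^ M ∧
      ∀ c, L.emb (q.jz (q.σZ^[M] z)) c = L.emb (q.jz z) c ^ 2 ^ M := fun M => by
    induction M with
    | zero => simpa using h0
    | succ M ih =>
      obtain ⟨i1, i2, i3, i4⟩ := ih
      rw [Function.iterate_succ_apply']
      refine ⟨(h2 _ i1).1, ?_, ?_, fun c => ?_⟩
      · rw [(h2 _ i1).2, i2, ← pow_mul, ← pow_succ]
      · rw [L.rt_σ, i3, ← pow_mul, ← pow_succ]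
      · rw [q.jz_σ, L.emb_σ, i4, ← pow_mul, ← pow_succ]
  obtain ⟨y, hy⟩ := mem_of_frob (L.emb (q.jz z)) L.ne (L.root z) (V := V z) fun M m1 m2 => by
    obtain ⟨-, i2, i3, i4⟩ := h3 M
    have h4 : q.σZ^[M] z = z := L.inj _ _
      (L.emb.injective (RingHom.ext fun c => (i4 c).trans (m1 c))) (i3.trans m2)
    rw [← i2, h4]
  refine hz ⟨y, (c2_iff _ _ _ _).2 ?_⟩
  rw [hy, ← h1]
  simp only [V, CharTwo.add_sq]
  split_ifs
  · simp
  · linear_combination h11

end Pool.Agent.Lib.MP_788af2_nt.AG
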