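import Pool.Agent.Lib.MP_788af2_nt.AG.ConC

/-!
The local horizontal sections attached to one polynomial.
-/

set_option linter.unusedSectionVars false

namespace Pool.Agent.Lib.MP_788af2_nt.AG

open Polynomial Filter Topology

variable {K J Z k κ : Type} [NontriviallyNormedField K] [IsUltrametricDist K] [CompleteSpace K]
  [CharZero K] [Fintype J] [Fintype Z] [DecidableEq J] [DecidableEq Z] [Field k] [Fintype k]
  [CharP k 2] [Field κ] [CharP κ 2] [IsAlgClosed κ]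

lemma D_add {a b : K} {r : ℝ} (h : ‖a‖ ≤ r) (h' : ‖b‖ ≤ r) : ‖a + b‖ ≤ r :=
  (IsUltrametricDist.norm_add_le_max _ _).trans (max_le h h')

lemma D_sub {a b : K} {r : ℝ} (h : ‖a‖ ≤ r) (h' : ‖b‖ ≤ r) : ‖a - b‖ ≤ r := by
  rw [sub_eq_add_neg]
  exact D_add h (by rwa [norm_neg])

lemma D_mul {a b : K} {r r' : ℝ} (h : ‖a‖ ≤ r) (h' : ‖b‖ ≤ r') : ‖a * b‖ ≤ r * r' := by
  rw [norm_mul]
  exact mul_le_mul h h' (norm_nonneg _) ((norm_nonneg _).trans h)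

lemma D_near {a b : K} (hb : ‖b‖ ≤ 1) (h : ‖a - b‖ ≤ 1 / 2) : ‖a‖ ≤ 1 := by
  rw [← sub_add_cancel a b]
  exact D_add (h.trans (by norm_num)) hb

lemma D_two (h2 : ‖(2 : K)‖ = 1 / 2) {a : K} (h : ‖a‖ ≤ 1) : ‖2 * a‖ ≤ 1 / 2 := by
  simpa using D_mul h2.le h

lemma D_unit (h2 : ‖(2 : K)‖ = 1 / 2) {a : K} (h : ‖a‖ ≤ 1) : ‖1 + 2 * a‖ = 1 := by
  have h1 : ‖2 * a‖ < ‖(1 : K)‖ := (D_two h2 h).trans_lt (by norm_num)
  rw [IsUltrametricDist.norm_add_eq_max_of_norm_ne_norm h1.ne', max_eq_left h1.le, norm_one]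

lemma exists_W0 (h2 : ‖(2 : K)‖ = 1 / 2) {y w : K} (hw : ‖w‖ ≤ 1) (h : ‖w ^ 2 + w - y‖ ≤ 1 / 2) :
    ∃ W : K, W ^ 2 + W = y ∧ ‖W - w‖ ≤ 1 / 2 := by
  have hb : ∀ x : Metric.closedBall (0 : K) (1 / 2), ‖(x : K)‖ ≤ 1 / 2 := fun x =>
    mem_closedBall_zero_iff.1 x.2
  have : CompleteSpace (Metric.closedBall (0 : K) (1 / 2)) :=
    Metric.isClosed_closedBall.completeSpace_coe
  have : Nonempty (Metric.closedBall (0 : K) (1 / 2)) := ⟨⟨0, by simp⟩⟩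
  let f : Metric.closedBall (0 : K) (1 / 2) → Metric.closedBall (0 : K) (1 / 2) := fun x =>
    ⟨-(w ^ 2 + w - y) - x * (x + 2 * w), mem_closedBall_zero_iff.2 (D_sub (by rwa [norm_neg])
      ((D_mul (hb x) (D_add (hb x) (D_two h2 hw))).trans (by norm_num)))⟩
  have hf : ContractingWith (1 / 2) f := by
    refine ⟨by norm_num, LipschitzWith.of_dist_le_mul fun x x' => ?_⟩
    rw [Subtype.dist_eq, Subtype.dist_eq, dist_eq_norm, dist_eq_norm]
    have e : (f x : K) - f x' = -(x + x' + 2 * w) * (x - x') := by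
      simp only [f]
      ring
    rw [e]
    exact (D_mul (r := 1 / 2) (by rw [norm_neg]; exact D_add (D_add (hb x) (hb x')) (D_two h2 hw))
      le_rfl).trans (le_of_eq (by norm_num))
  obtain ⟨x, hx⟩ : ∃ x, f x = x := ⟨_, hf.fixedPoint_isFixedPt⟩
  have e : (f x : K) = (x : K) := congrArg Subtype.val hx
  refine ⟨w + x, ?_, by simpa using hb x⟩
  simp only [f] at e
  linear_combination -e

/-- The recursion for the coefficients of a solution of `W ^ 2 + W = y`. -/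
noncomputable def D_rc (y : ℕ → K) (w : K) : ℕ → K
  | 0 => w
  | n + 1 => (y (n + 1) - ∑ i : Fin n, D_rc y w (i + 1) * D_rc y w (n - i)) / (1 + 2 * w)
decreasing_by all_goals omega

lemma D_rc_le (h2 : ‖(2 : K)‖ = 1 / 2) {y : ℕ → K} (hy : ∀ n, ‖y n‖ ≤ 1) {w : K} (hw : ‖w‖ ≤ 1)
    (n : ℕ) : ‖D_rc y w n‖ ≤ 1 := by
  induction n using Nat.strong_induction_on with
  | _ n ih =>
    rcases n with _ | n
    · rwa [D_rc]
    · rw [D_rc, norm_div, D_unit h2 hw, div_one]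
      refine D_sub (hy _) (IsUltrametricDist.norm_sum_le_of_forall_le_of_nonneg zero_le_one
        fun i _ => ?_)
      simpa using D_mul (ih (i + 1) (by omega)) (ih (n - i) (by omega))

lemma exists_W (h2 : ‖(2 : K)‖ = 1 / 2) {y : PowerSeries K} (hy : Bc 1 y) {w : K} (hw : ‖w‖ ≤ 1)
    (h : ‖w ^ 2 + w - PowerSeries.coeff 0 y‖ ≤ 1 / 2) : ∃ W : PowerSeries K, W ^ 2 + W = y ∧
      Bc 1 W ∧ ‖PowerSeries.coeff 0 W - w‖ ≤ 1 / 2 ∧
        ‖PowerSeries.coeff 1 W‖ ≤ ‖PowerSeries.coeff 1 y‖ := by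
  obtain ⟨W, e, hW⟩ := exists_W0 h2 hw h
  have h1 := D_near hw hW
  have hu := D_unit h2 h1
  have h0 : 1 + 2 * W ≠ 0 := fun e => by simp [e] at hu
  refine ⟨PowerSeries.mk (D_rc (fun n => PowerSeries.coeff n y) W), ?_, fun n => ?_, ?_, ?_⟩
  · ext n
    rw [map_add, sq, PowerSeries.coeff_mul]
    simp only [PowerSeries.coeff_mk]
    rcases n with _ | n
    · rw [Finset.Nat.antidiagonal_zero, Finset.sum_singleton, D_rc, ← e, sq]
    · rw [Finset.Nat.sum_antidiagonal_eq_sum_range_succ fun i j =>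
        D_rc (fun n => PowerSeries.coeff n y) W i * D_rc (fun n => PowerSeries.coeff n y) W j,
        Finset.sum_range_succ, Finset.sum_range_succ', Finset.sum_range, Nat.sub_self,
        Nat.sub_zero]
      simp only [Nat.add_sub_add_right]
      have e1 := D_rc.eq_2 (fun n => PowerSeries.coeff n y) W n
      rw [eq_div_iff h0] at e1
      rw [D_rc.eq_1]
      linear_combination e1
  · rw [PowerSeries.coeff_mk]
    exact D_rc_le h2 hy h1 n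
  · rwa [PowerSeries.coeff_mk, D_rc]
  · rw [PowerSeries.coeff_mk, D_rc, norm_div, hu]
    simp

lemma D_const {s f : PowerSeries K} (hs : PowerSeries.constantCoeff s = 0) :
    PowerSeries.coeff 0 (f.subst s) = PowerSeries.coeff 0 f := by
  rw [PowerSeries.coeff_subst' (.of_constantCoeff_zero' hs), finsum_eq_single _ 0]
  · simp
  · intro j hj
    simp [hs, hj]

lemma D_tay {β : K} (hβ : ‖β‖ ≤ 1) {P Y : PowerSeries K} (hP : Dcy P) (hY : Dcy Y) (c : K)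
    {r : ℝ} (h : Bc r (P - 1 - PowerSeries.C c * Y)) :
    Bc r (Tay β P - 1 - PowerSeries.C c * Tay β Y) := by
  have := h.tay hβ
  rwa [Tay_sub hβ (hP.sub Dcy.one) ((Dcy.const c).mul hY), Tay_sub hβ hP Dcy.one, Tay_one hβ,
    Tay_mul hβ (Dcy.const c) hY, Tay_C hβ] at this

variable {q : Geo K J Z} {ℓ : Lift K κ} {b : k[X]} (L : Lnk q ℓ b)

/-- The lifted coefficients. -/
noncomputable def Lnk.cf (p : k[X]) (j : J) (n : ℕ) : K := ℓ.τ (L.emb j (p.coeff n))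

lemma Lnk.cf_le (p : k[X]) (j : J) (n : ℕ) : ‖L.cf p j n‖ ≤ 1 := ℓ.τ_le _

lemma Lnk.cf_σ (p : k[X]) (j : J) : L.cf p (q.σ j) = fun n => L.cf p j n ^ 2 := by
  funext n
  simp only [Lnk.cf, L.emb_σ, map_pow]

theorem exists_loc {p : k[X]} {d : ℕ} (hd : p.natDegree ≤ d) {Wb : Z → κ}
    (hW : ∀ z, Wb z ^ 2 + Wb z = (p.map (L.emb (q.jz z))).eval (L.rt z)) :
    ∃ (W : Z → PowerSeries K) (ε : Z → ℤ), ∀ z, Bc 1 (W z) ∧
      ‖PowerSeries.coeff 0 (W z) - ℓ.τ (Wb z)‖ ≤ 1 / 2 ∧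
      (((derivative p).map (L.emb (q.jz z))).eval (L.rt z) = 0 →
        ‖PowerSeries.coeff 1 (W z)‖ ≤ 1 / 2) ∧
      (1 + 2 * W z) ^ 2 = Tay (q.β z) (Pr q.o.g (L.cf p (q.jz z)) d) ∧
      Tay (q.β z) (Pr q.o.θ (L.cf p (q.jz z)) d) * (1 + 2 * W (q.σZ z)).subst
        (PowerSeries.X ^ 2 + PowerSeries.C (2 * q.β z) * PowerSeries.X : PowerSeries K) =
          ε z • (1 + 2 * W z) ∧
      ((ε z = 1 ∧ Wb (q.σZ z) = Wb z ^ 2) ∨ (ε z = -1 ∧ Wb (q.σZ z) = Wb z ^ 2 + 1)) := by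
  have h2 := q.two
  have h4 : ‖(4 : K)‖ = 1 / 4 := by
    rw [show (4 : K) = 2 * 2 by norm_num, norm_mul, h2]
    norm_num
  have c2 : (2 : PowerSeries K) = PowerSeries.C 2 := (map_ofNat _ 2).symm
  have c4 : (4 : PowerSeries K) = PowerSeries.C 4 := (map_ofNat _ 4).symm
  have hY : ∀ j, Yr (L.cf p j) d = Lf ℓ (L.emb j) p := fun j => Yr_eq ℓ (L.emb j) hd
  have hT : ∀ z n, ‖PowerSeries.coeff n (Tay (q.β z) (Lf ℓ (L.emb (q.jz z)) p)) -
      ℓ.τ ((taylor (L.rt z) (p.map (L.emb (q.jz z)))).coeff n)‖ ≤ 1 / 2 := fun z n => by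
    rw [L.β_eq]
    exact Tay_Lf ℓ _ p _ n
  have hw : ∀ z, ‖ℓ.τ ((p.map (L.emb (q.jz z))).eval (L.rt z)) - ℓ.τ (Wb z) ^ 2 - ℓ.τ (Wb z)‖ ≤
      1 / 2 := fun z => by
    rw [← hW z, ← map_pow]
    exact τ_add ℓ _ _
  have key : ∀ z, ∃ W : PowerSeries K, Bc 1 W ∧ ‖PowerSeries.coeff 0 W - ℓ.τ (Wb z)‖ ≤ 1 / 2 ∧
      (((derivative p).map (L.emb (q.jz z))).eval (L.rt z) = 0 →
        ‖PowerSeries.coeff 1 W‖ ≤ 1 / 2) ∧
      (1 + 2 * W) ^ 2 = Tay (q.β z) (Pr q.o.g (L.cf p (q.jz z)) d) := fun z => by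
    have a1 := Pr_g_red q.o h2 (L.cf_le p (q.jz z)) (d := d)
    rw [hY, c4] at a1
    have a2 := D_tay (q.β_le z) (Pr_g_dcy q.o h2 (L.cf_le p (q.jz z))) (Lf_dcy ℓ _ p) 4 a1
    generalize Tay (q.β z) (Pr q.o.g (L.cf p (q.jz z)) d) = T at a2 ⊢
    have e4 : PowerSeries.C (4 : K)⁻¹ * PowerSeries.C 4 = 1 := by
      rw [← map_mul, inv_mul_cancel₀ (by norm_num), map_one]
    have a3 : ∀ n, ‖PowerSeries.coeff n (PowerSeries.C (4 : K)⁻¹ * (T - 1)) -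
        ℓ.τ ((taylor (L.rt z) (p.map (L.emb (q.jz z)))).coeff n)‖ ≤ 1 / 2 := fun n => by
      have b1 := (Bc.const (a := (4 : K)⁻¹) (r := 4) (by rw [norm_inv, h4]; norm_num)).mul a2 n
      have e : PowerSeries.C (4 : K)⁻¹ * (T - 1 - PowerSeries.C 4 *
          Tay (q.β z) (Lf ℓ (L.emb (q.jz z)) p)) = PowerSeries.C (4 : K)⁻¹ * (T - 1) -
            Tay (q.β z) (Lf ℓ (L.emb (q.jz z)) p) := by
        linear_combination (-Tay (q.β z) (Lf ℓ (L.emb (q.jz z)) p)) * e4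
      rw [e, map_sub] at b1
      have b2 := D_add (b1.trans (by norm_num)) (hT z n)
      rwa [sub_add_sub_cancel] at b2
    obtain ⟨W, e, b1, b2, b3⟩ := exists_W h2 (y := PowerSeries.C (4 : K)⁻¹ * (T - 1))
      (fun n => D_near (ℓ.τ_le _) (a3 n)) (ℓ.τ_le (Wb z)) (by
        have b1 := a3 0
        rw [taylor_coeff_zero] at b1
        have b2 := D_add b1 (hw z)
        rw [← norm_neg] at b2
        exact (congrArg norm (by ring)).le.trans b2)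
    refine ⟨W, b1, b2, fun h0 => b3.trans ?_, ?_⟩
    · have b4 := a3 1
      rwa [taylor_coeff_one, derivative_map, h0, map_zero, sub_zero] at b4
    · rw [← c4] at e4
      linear_combination 4 * e + (T - 1) * e4
  choose W h1 h0 hd1 hsq using key
  suffices h : ∀ z, ∃ ε : ℤ, Tay (q.β z) (Pr q.o.θ (L.cf p (q.jz z)) d) *
      (1 + 2 * W (q.σZ z)).subst
        (PowerSeries.X ^ 2 + PowerSeries.C (2 * q.β z) * PowerSeries.X : PowerSeries K) =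
          ε • (1 + 2 * W z) ∧
      ((ε = 1 ∧ Wb (q.σZ z) = Wb z ^ 2) ∨ (ε = -1 ∧ Wb (q.σZ z) = Wb z ^ 2 + 1)) by
    choose ε e1 e2 using h
    exact ⟨W, ε, fun z => ⟨h1 z, h0 z, hd1 z, hsq z, e1 z, e2 z⟩⟩
  intro z
  have hs : PowerSeries.constantCoeff
      (PowerSeries.X ^ 2 + PowerSeries.C (2 * q.β z) * PowerSeries.X : PowerSeries K) = 0 := by
    simp
  have hc := L.cf_le p (q.jz z)
  have hc2 : ∀ n, ‖L.cf p (q.jz z) n ^ 2‖ ≤ 1 := fun n => by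
    rw [norm_pow]
    exact pow_le_one₀ (norm_nonneg _) (hc n)
  have dθ := Pr_θ_dcy q.o h2 hc (d := d)
  have dg := Pr_g_dcy q.o h2 hc2 (d := d)
  have sq1 : (Tay (q.β z) (Pr q.o.θ (L.cf p (q.jz z)) d) * (1 + 2 * W (q.σZ z)).subst
      (PowerSeries.X ^ 2 + PowerSeries.C (2 * q.β z) * PowerSeries.X : PowerSeries K)) ^ 2 =
        (1 + 2 * W z) ^ 2 := by
    have t1 := Tay_sq (q.β_le z) dg
    rw [Algebra.algebraMap_self_apply] at t1
    rw [mul_pow, ← PowerSeries.subst_pow (.of_constantCoeff_zero' hs), hsq, hsq, q.β_σ, q.jz_σ,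
      L.cf_σ, ← t1, ← Pr_F q.o h2 hc, sq, sq (Pr _ _ _), Tay_mul (q.β_le z) (dθ.mul dθ) dg.sq,
      Tay_mul (q.β_le z) dθ dθ]
  have a1 := Pr_θ_red q.o h2 hc (d := d)
  rw [hY, c2] at a1
  have a2 := D_tay (q.β_le z) dθ (Lf_dcy ℓ _ p) 2 a1 0
  have a3 := hT z 0
  rw [taylor_coeff_zero] at a3
  rw [map_sub, map_sub, PowerSeries.coeff_C_mul, PowerSeries.coeff_zero_one] at a2
  have z0 : ∀ V : PowerSeries K, PowerSeries.coeff 0 (1 + 2 * V) =
      1 + 2 * PowerSeries.coeff 0 V := fun V => by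
    rw [map_add, c2, PowerSeries.coeff_C_mul, PowerSeries.coeff_zero_one]
  have z1 : PowerSeries.coeff 0 (Tay (q.β z) (Pr q.o.θ (L.cf p (q.jz z)) d) *
      (1 + 2 * W (q.σZ z)).subst
        (PowerSeries.X ^ 2 + PowerSeries.C (2 * q.β z) * PowerSeries.X : PowerSeries K)) =
      PowerSeries.coeff 0 (Tay (q.β z) (Pr q.o.θ (L.cf p (q.jz z)) d)) *
        (1 + 2 * PowerSeries.coeff 0 (W (q.σZ z))) := by
    rw [PowerSeries.coeff_zero_eq_constantCoeff_apply, map_mul,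
      ← PowerSeries.coeff_zero_eq_constantCoeff_apply,
      ← PowerSeries.coeff_zero_eq_constantCoeff_apply, D_const hs, z0]
  have u1 := h1 (q.σZ z) 0
  have u2 := h0 (q.σZ z)
  have v1 := h1 z 0
  have v2 := h0 z
  have w1 := hw z
  have y1 := D_near (ℓ.τ_le _) a3
  generalize PowerSeries.coeff 0 (Tay (q.β z) (Pr q.o.θ (L.cf p (q.jz z)) d)) = Θ at a2 z1
  generalize PowerSeries.coeff 0 (Tay (q.β z) (Lf ℓ (L.emb (q.jz z)) p)) = a at a2 a3 y1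
  have hh : ∀ x : K, ‖2 * x‖ ≤ 1 / 4 → ‖x‖ ≤ 1 / 2 := fun x hx => by
    rw [norm_mul, h2] at hx
    linarith
  have k1 : ‖Θ * (1 + 2 * PowerSeries.coeff 0 (W (q.σZ z))) - 1 - 2 * a -
      2 * PowerSeries.coeff 0 (W (q.σZ z))‖ ≤ 1 / 4 := by
    have b1 := D_mul a2 (D_unit h2 u1).le
    have b2 := D_mul (D_two h2 y1) (D_two h2 u1)
    have b3 := D_add (r := 1 / 4) (b1.trans (by norm_num)) (b2.trans (by norm_num))
    convert b3 using 2
    ring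
  rcases sq_eq_sq_iff_eq_or_eq_neg.1 sq1 with e | e
  · refine ⟨1, by rw [e, one_smul], Or.inl ⟨rfl, ?_⟩⟩
    rw [e, z0] at z1
    rw [← z1] at k1
    have k2 := hh (PowerSeries.coeff 0 (W z) - a - PowerSeries.coeff 0 (W (q.σZ z)))
      (by convert k1 using 2; ring)
    refine CharTwo.add_eq_zero.1 (τ_small ℓ ?_)
    have k3 := τ_add ℓ (Wb (q.σZ z)) (Wb z ^ 2)
    rw [map_pow] at k3
    have k4 := D_sub (D_add (D_sub (D_sub (D_sub k3 u2) w1) a3) v2) k2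
    convert k4 using 2
    ring
  · refine ⟨-1, by rw [e, neg_one_smul], Or.inr ⟨rfl, ?_⟩⟩
    rw [e, map_neg, z0] at z1
    rw [← z1] at k1
    have k2 := hh (-1 - PowerSeries.coeff 0 (W z) - a - PowerSeries.coeff 0 (W (q.σZ z)))
      (by convert k1 using 2; ring)
    refine CharTwo.add_eq_zero.1 (τ_small ℓ ?_)
    have k3 := τ_add ℓ (Wb (q.σZ z)) (Wb z ^ 2 + 1)
    have k5 := τ_add ℓ (Wb z ^ 2) 1
    rw [map_pow, map_one] at k5
    have k4 := D_sub (D_sub (D_add (D_sub (D_sub (D_sub (D_add k3 k5) u2) w1) a3) v2) k2)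
      (D_two h2 v1)
    convert k4 using 2
    ring

end Pool.Agent.Lib.MP_788af2_nt.AG
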