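import Pool.Agent.Lib.MP_788af2_nt.AG.ConD

/-!
Twisting by the idempotents of the cube.
-/

set_option linter.unusedSectionVars false

namespace Pool.Agent.Lib.MP_788af2_nt.AG

open PowerSeries Pool.Agent.Lib.MP_788af2_nt.AS

variable {K A I : Type} [NontriviallyNormedField K] [IsUltrametricDist K] [CompleteSpace K]
  [CharZero K] [NormedCommRing A] [NormedAlgebra K A] [IsUltrametricDist A] [CompleteSpace A]
  [NormOneClass A] [Fintype I] [DecidableEq I] {δ : I → ℝ}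

/-- Weighted bounds. -/
def Bw (w : ℕ → ℝ) (s : A⟦X⟧) : Prop := ∀ n, ‖coeff n s‖ ≤ 2 ^ (-w n)

lemma Bw.mul {w w₁ w₂ : ℕ → ℝ} {s t : A⟦X⟧} (h : Bw w₁ s) (h' : Bw w₂ t)
    (hw : ∀ i j, w (i + j) ≤ w₁ i + w₂ j) : Bw w (s * t) := fun n => by
  rw [coeff_mul]
  refine IsUltrametricDist.norm_sum_le_of_forall_le_of_nonneg (by positivity) fun x hx => ?_
  refine (norm_mul_le _ _).trans ((mul_le_mul (h _) (h' _) (norm_nonneg _)
    (by positivity)).trans ?_)
  rw [← Real.rpow_add two_pos, ← Finset.HasAntidiagonal.mem_antidiagonal.1 hx]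
  refine Real.rpow_le_rpow_of_exponent_le one_le_two ?_
  linarith [hw x.1 x.2]

lemma Bw.mono {w w' : ℕ → ℝ} {s : A⟦X⟧} (h : Bw w s) (hw : ∀ n, w' n ≤ w n) : Bw w' s :=
  fun n => (h n).trans (Real.rpow_le_rpow_of_exponent_le one_le_two (neg_le_neg (hw n)))

lemma Bw.add {w : ℕ → ℝ} {s t : A⟦X⟧} (h : Bw w s) (h' : Bw w t) : Bw w (s + t) := fun n => by
  rw [map_add]
  exact (IsUltrametricDist.norm_add_le_max _ _).trans (max_le (h n) (h' n))

lemma Bw.map {w : ℕ → ℝ} {u : K⟦X⟧} (h : Bw w u) : Bw w (map (algebraMap K A) u) := fun n => by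
  rw [coeff_map, norm_algebraMap']
  exact h n

lemma Bw.prod {ι : Type} (T : Finset ι) {f : ι → A⟦X⟧} {l : ℝ}
    (h : ∀ i ∈ T, Bw (fun n => n / l) (f i)) : Bw (fun n => n / l) (∏ i ∈ T, f i) := by
  refine Finset.prod_induction f (Bw fun n => n / l) (fun _ _ a b => a.mul b fun i j => ?_)
    (fun n => ?_) h
  · push_cast
    rw [add_div]
  · rw [coeff_one]
    split_ifs with h0
    · simp [h0]
    · rw [norm_zero]
      positivity

lemma Bw.sum {ι : Type} (T : Finset ι) {f : ι → A⟦X⟧} {w : ℕ → ℝ} (h : ∀ i ∈ T, Bw w (f i)) :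
    Bw w (∑ i ∈ T, f i) :=
  Finset.sum_induction f (Bw w) (fun _ _ => Bw.add) (fun n => by
    rw [map_zero, norm_zero]
    positivity) h

lemma Bw.bc {w : ℕ → ℝ} {s : A⟦X⟧} (h : Bw w s) (hw : ∀ n, 0 ≤ w n) : Bc 1 s := fun n =>
  (h n).trans (Real.rpow_le_one_of_one_le_of_nonpos one_le_two (neg_nonpos.2 (hw n)))

lemma half_pow (k : ℕ) : ((1 : ℝ) / 2) ^ k = 2 ^ (-(k : ℝ)) := by
  rw [one_div, inv_pow, Real.rpow_neg zero_le_two, Real.rpow_natCast]

lemma quarter_pow (k : ℕ) : ((1 : ℝ) / 4) ^ k = 2 ^ (-(2 * k : ℝ)) := by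
  rw [show ((1 : ℝ) / 4) = (1 / 2) ^ 2 by norm_num, ← pow_mul, half_pow]
  push_cast
  rfl

lemma quarter_le (k : ℕ) : ((1 : ℝ) / 4) ^ k ≤ (1 / 2) ^ k :=
  pow_le_pow_left₀ (by norm_num) (by norm_num) k

lemma two_quarter_le {k : ℕ} (h : 1 ≤ k) : 2 * ((1 : ℝ) / 4) ^ k ≤ (1 / 2) ^ k := by
  rw [show ((1 : ℝ) / 4) = (1 / 2) * (1 / 2) by norm_num, mul_pow, ← mul_assoc]
  refine mul_le_of_le_one_left (by positivity) ?_
  have := pow_le_pow_of_le_one (show (0 : ℝ) ≤ 1 / 2 by norm_num) (by norm_num) h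
  linarith

/-- The twist by an idempotent. -/
noncomputable def Twi (e : A) (s : K⟦X⟧) : A⟦X⟧ := 1 + C e * (map (algebraMap K A) s - 1)

section twi

variable {e : A} (he : e * e = e) (s t : K⟦X⟧)

lemma Twi_one : Twi e (1 : K⟦X⟧) = 1 := by simp [Twi]

include he in
lemma Twi_mul : Twi e (s * t) = Twi e s * Twi e t := by
  have h : (C e : A⟦X⟧) * C e = C e := by rw [← map_mul, he]
  simp only [Twi, map_mul]
  linear_combination (-(map (algebraMap K A) s - 1) * (map (algebraMap K A) t - 1)) * h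

include he in
lemma Twi_sq : Twi e (s ^ 2) = Twi e s ^ 2 := by rw [sq, sq, Twi_mul he]

lemma map_subst' {p : K⟦X⟧} (hp : constantCoeff p = 0) :
    (map (algebraMap K A) s).subst (map (algebraMap K A) p) = map (algebraMap K A) (s.subst p) :=
  (map_subst (HasSubst.of_constantCoeff_zero' hp) s).symm

lemma Twi_subst {p : K⟦X⟧} (hp : constantCoeff p = 0) :
    (Twi e s).subst (map (algebraMap K A) p) = Twi e (s.subst p) := by
  have h : HasSubst (map (algebraMap K A) p) := HasSubst.of_constantCoeff_zero' (by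
    rw [← coeff_zero_eq_constantCoeff_apply, coeff_map, coeff_zero_eq_constantCoeff_apply, hp,
      map_zero])
  have h1 : (1 : A⟦X⟧).subst (map (algebraMap K A) p) = 1 := by
    rw [← coe_substAlgHom h, map_one]
  rw [Twi, Twi, subst_add h, subst_mul h, subst_sub h, h1, map_subst' s hp, subst_C]
  rfl

lemma XD_coeff (u : A⟦X⟧) (n : ℕ) : coeff n (X * derivative A u) = n * coeff n u := by
  cases n with
  | zero => simp
  | succ n =>
    rw [coeff_succ_X_mul, coeff_derivative]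
    push_cast
    ring

lemma XD_map : X * derivative A (map (algebraMap K A) s) =
    map (algebraMap K A) (X * derivative K s) := by
  ext n
  rw [XD_coeff, coeff_map, coeff_map, XD_coeff, map_mul, map_natCast]

lemma XD_mul (u v : A⟦X⟧) : X * derivative A (u * v) =
    X * derivative A u * v + u * (X * derivative A v) := by
  rw [Derivation.leibniz, smul_eq_mul, smul_eq_mul]
  ring

lemma XD_Twi : X * derivative A (Twi e s) = C e * map (algebraMap K A) (X * derivative K s) := by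
  rw [Twi, map_add, mul_add, XD_mul, map_sub, ← XD_map]
  simp

include he in
lemma Twi_L {l g : K⟦X⟧} (h : 2 * (l * g) = X * derivative K g) :
    2 * (C e * map (algebraMap K A) l * Twi e g) = X * derivative A (Twi e g) := by
  have h1 : (C e : A⟦X⟧) * C e = C e := by rw [← map_mul, he]
  rw [XD_Twi, ← h, Twi, map_mul, map_mul, map_ofNat]
  linear_combination (2 * map (algebraMap K A) l * (map (algebraMap K A) g - 1)) * h1

lemma L_mul {l l' g g' : A⟦X⟧} (h : 2 * (l * g) = X * derivative A g)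
    (h' : 2 * (l' * g') = X * derivative A g') :
    2 * ((l + l') * (g * g')) = X * derivative A (g * g') := by
  rw [XD_mul, ← h, ← h']
  ring

lemma L_prod {ι : Type} (T : Finset ι) {l g : ι → A⟦X⟧}
    (h : ∀ i, 2 * (l i * g i) = X * derivative A (g i)) :
    2 * ((∑ i ∈ T, l i) * ∏ i ∈ T, g i) = X * derivative A (∏ i ∈ T, g i) := by
  classical
  induction T using Finset.induction_on with
  | empty => simp
  | insert a T ha ih =>
    rw [Finset.prod_insert ha, Finset.sum_insert ha]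
    exact L_mul (h a) ih

variable {s}

lemma Twi_dcy (h : Dcy s) : Dcy (Twi e s) := Dcy.one.add ((Dcy.const e).mul (h.map.sub Dcy.one))

lemma Tay_Twi {β : K} (hβ : ‖β‖ ≤ 1) (h : Dcy s) : Tay β (Twi e s) = Twi e (Tay β s) := by
  rw [Twi, Twi, Tay_add hβ Dcy.one ((Dcy.const e).mul (h.map.sub Dcy.one)),
    Tay_mul hβ (Dcy.const e) (h.map.sub Dcy.one), Tay_sub hβ h.map Dcy.one, Tay_one hβ, Tay_C hβ,
    Tay_map hβ h]

lemma Twi_zero (h : coeff 0 s = 1) : coeff 0 (Twi e s) = 1 := by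
  rw [Twi, map_add, coeff_C_mul, map_sub, coeff_map, h]
  simp

lemma Twi_coeff {n : ℕ} (h : 1 ≤ n) : coeff n (Twi e s) = e * algebraMap K A (coeff n s) := by
  rw [Twi, map_add, coeff_C_mul, map_sub, coeff_map, coeff_one, if_neg (by omega)]
  simp

end twi

lemma kappa_D {β : K} (hβ : ‖β‖ ≤ 1) {κ g gi l : A⟦X⟧} (hg : Dcy g) (hgi : Dcy gi) (hl : Dcy l)
    (h1 : g * gi = 1) (h2 : 2 * (l * g) = X * derivative A g) (h3 : κ ^ 2 = Tay β g) :
    (C (algebraMap K A β) + X) * derivative A κ = Tay β l * κ := by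
  have e1 : Tay β g * Tay β gi = 1 := by rw [← Tay_mul hβ hg hgi, h1, Tay_one hβ]
  have e2 := Tay_XD hβ hg
  have e0 : (2 : A⟦X⟧) = C 2 := (map_ofNat C 2).symm
  rw [← h2, e0, Tay_mul hβ (Dcy.const _) (hl.mul hg), Tay_C hβ, Tay_mul hβ hl hg, ← h3, ← e0, sq,
    Derivation.leibniz, smul_eq_mul] at e2
  have e3 : (C (algebraMap K A 2⁻¹) : A⟦X⟧) * 2 = 1 := by
    rw [e0, ← map_mul, ← map_ofNat (algebraMap K A) 2, ← map_mul, inv_mul_cancel₀ two_ne_zero,
      map_one, map_one]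
  rw [← h3] at e1
  set h := (C (algebraMap K A 2⁻¹) : A⟦X⟧)
  linear_combination (-(h * κ * Tay β gi)) * e2 -
    ((C (algebraMap K A β) + X) * derivative A κ - Tay β l * κ) * (κ ^ 2 * Tay β gi) * e3 -
    ((C (algebraMap K A β) + X) * derivative A κ - Tay β l * κ) * e1

namespace Cube

variable (cb : Cube K I A δ)

/-- The idempotents. -/
noncomputable def e (i : I) : A := (2 : K)⁻¹ • (1 - cb.γ (Pi.single i 1))

lemma γ_sq (i : I) : cb.γ (Pi.single i 1) * cb.γ (Pi.single i 1) = 1 := by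
  rw [← cb.γ_add, ← Pi.single_add, show (1 : ZMod 2) + 1 = 0 from rfl, Pi.single_zero, cb.γ_zero]

lemma two_e (i : I) : cb.e i * 2 = 1 - cb.γ (Pi.single i 1) := by
  rw [e, smul_mul_assoc, mul_two, ← two_smul K, smul_smul, inv_mul_cancel₀ two_ne_zero, one_smul]

lemma e_idem (i : I) : cb.e i * cb.e i = cb.e i := by
  have h : (1 - cb.γ (Pi.single i 1)) * (1 - cb.γ (Pi.single i 1)) =
      (2 : K) • (1 - cb.γ (Pi.single i 1)) := by
    rw [two_smul]
    linear_combination cb.γ_sq i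
  rw [e, smul_mul_smul_comm, h, smul_smul, mul_assoc, inv_mul_cancel₀ two_ne_zero, mul_one]

lemma e_mul_le (h2 : ‖(2 : K)‖ = 1 / 2) (i : I) (x : K) :
    ‖cb.e i * algebraMap K A x‖ ≤ 2 * ‖x‖ * 2 ^ (-δ i) := by
  rw [mul_comm, ← Algebra.smul_def, e, norm_smul, norm_smul, norm_inv, h2]
  have := cb.one_sub i
  have h0 := norm_nonneg x
  norm_num
  nlinarith

lemma e_le (h2 : ‖(2 : K)‖ = 1 / 2) (i : I) (h0 : 0 ≤ δ i) : ‖cb.e i‖ ≤ 2 := by
  have h := cb.e_mul_le h2 i 1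
  have := Real.rpow_le_one_of_one_le_of_nonpos one_le_two (neg_nonpos.2 h0)
  rw [map_one, mul_one, norm_one] at h
  linarith

lemma e_cw (h2 : ‖(2 : K)‖ = 1 / 2) (i : I) {d l N : ℕ} (hd : 1 ≤ d) (hl : 1 ≤ l)
    (hδ : δ i = d / l) (h1 : δ i ≤ 1) (hN : 1 ≤ N) {x : K} (hx : ‖x‖ ≤ (1 / 2) ^ cw d N) :
    ‖cb.e i * algebraMap K A x‖ ≤ 2 ^ (-((N : ℝ) / l)) := by
  refine (cb.e_mul_le h2 i x).trans ?_
  rw [half_pow] at hx
  have a1 : (1 : ℝ) ≤ cw d N := by exact_mod_cast cw_pos hd hN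
  have a2 : (N : ℝ) ≤ cw d N * d := by exact_mod_cast le_cw hd N
  have a3 : (0 : ℝ) < l := by exact_mod_cast hl
  have a4 : (N : ℝ) / l ≤ cw d N * δ i := by
    rw [hδ, ← mul_div_assoc]
    exact div_le_div_of_nonneg_right a2 a3.le
  calc 2 * ‖x‖ * 2 ^ (-δ i) ≤ 2 ^ (1 : ℝ) * 2 ^ (-(cw d N : ℝ)) * 2 ^ (-δ i) := by
        rw [Real.rpow_one]
        gcongr
    _ = 2 ^ (1 + -(cw d N : ℝ) + -δ i) := by rw [Real.rpow_add two_pos, Real.rpow_add two_pos]
    _ ≤ _ := by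
        refine Real.rpow_le_rpow_of_exponent_le one_le_two ?_
        nlinarith

lemma Twi_le (h2 : ‖(2 : K)‖ = 1 / 2) (i : I) {d l : ℕ} (hd : 1 ≤ d) (hl : 1 ≤ l)
    (hδ : δ i = d / l) (h1 : δ i ≤ 1) {s : K⟦X⟧} (h0 : coeff 0 s = 1)
    (hs : ∀ N, ‖coeff N s‖ ≤ (1 / 2) ^ cw d N) : Bw (fun n => n / l) (Twi (cb.e i) s) := fun n => by
  rcases Nat.eq_zero_or_pos n with rfl | hn
  · rw [Twi_zero h0]
    simp
  · rw [Twi_coeff hn]
    exact cb.e_cw h2 i hd hl hδ h1 hn (hs n)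

lemma L_le (h2 : ‖(2 : K)‖ = 1 / 2) (i : I) {d l : ℕ} (hd : 1 ≤ d) (hl : 1 ≤ l)
    (hδ : δ i = d / l) (h1 : δ i ≤ 1) {s : K⟦X⟧} (h0 : coeff 0 s = 0)
    (hs : ∀ N, ‖coeff N s‖ ≤ 2 * (1 / 4) ^ cw d N) :
    Bw (fun n => n / l) (C (cb.e i) * map (algebraMap K A) s) := fun n => by
  rw [coeff_C_mul, coeff_map]
  rcases Nat.eq_zero_or_pos n with rfl | hn
  · simp [h0]
  · exact cb.e_cw h2 i hd hl hδ h1 hn ((hs n).trans (two_quarter_le (cw_pos hd hn)))

lemma two_le (h2 : ‖(2 : K)‖ = 1 / 2) : ‖(2 : A)‖ ≤ 1 / 2 := by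
  rw [← map_ofNat (algebraMap K A) 2, norm_algebraMap', h2]

/-- The reduction of `e i * s` when `s = 2 y` modulo four. -/
lemma e_red (h2 : ‖(2 : K)‖ = 1 / 2) (i : I) (h0 : 0 ≤ δ i) {s y : K⟦X⟧} (hy : Bc 1 y)
    (hs : Bc (1 / 4) (s - 2 * y)) : Bc (1 / 2) (C (cb.e i) * map (algebraMap K A) s -
      (map (algebraMap K A) y + C (cb.γ (Pi.single i 1)) * map (algebraMap K A) y)) := by
  have h1 : (C (cb.e i) : A⟦X⟧) * 2 = 1 - C (cb.γ (Pi.single i 1)) := by
    rw [← map_ofNat C 2, ← map_mul, cb.two_e, map_sub, map_one]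
  have h3 : C (cb.e i) * map (algebraMap K A) s -
      (map (algebraMap K A) y + C (cb.γ (Pi.single i 1)) * map (algebraMap K A) y) =
      C (cb.e i) * map (algebraMap K A) (s - 2 * y) -
        C (2 : A) * (C (cb.γ (Pi.single i 1)) * map (algebraMap K A) y) := by
    rw [map_sub, map_mul, map_ofNat, map_ofNat]
    linear_combination (map (algebraMap K A) y) * h1
  rw [h3]
  exact (((Bc.const (cb.e_le h2 i h0)).mul hs.map).mono (by norm_num)).sub
    ((Bc.const (two_le h2)).mul_one' ((Bc.const (cb.γ_le _)).mul_one' hy.map))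

lemma γ_sum {ι : Type} (T : Finset ι) (f : ι → G I) : cb.γ (∑ i ∈ T, f i) = ∏ i ∈ T, cb.γ (f i) := by
  classical
  induction T using Finset.induction_on with
  | empty => simp [cb.γ_zero]
  | insert a T ha ih => rw [Finset.prod_insert ha, Finset.sum_insert ha, cb.γ_add, ih]

lemma prod_eq (P Q : I → A⟦X⟧) : ∏ i, (P i + C (cb.γ (Pi.single i 1)) * Q i) =
    ∑ g : G I, C (cb.γ g) * ∏ i, if g i = 0 then P i else Q i := by
  have h1 : ∀ i, P i + C (cb.γ (Pi.single i 1)) * Q i =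
      ∑ x : ZMod 2, C (cb.γ (Pi.single i x)) * if x = 0 then P i else Q i := fun i => by
    rw [show (Finset.univ : Finset (ZMod 2)) = {0, 1} from rfl, Finset.sum_pair (by decide)]
    simp [cb.γ_zero]
  simp only [h1]
  rw [Finset.prod_univ_sum, Fintype.piFinset_univ]
  refine Finset.sum_congr rfl fun g _ => ?_
  rw [Finset.prod_mul_distrib, ← map_prod, ← cb.γ_sum, Finset.univ_sum_single]

lemma ev_e (ξ : G I) (i : I) : cb.ev ξ (cb.e i) = if ξ i = 0 then 0 else 1 := by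
  rw [e, map_smul, map_sub, map_one, cb.ev_γ, dotProduct_single, mul_one, sg]
  split_ifs
  · simp
  · norm_num

lemma ev_map (ξ : G I) (s : K⟦X⟧) :
    map (cb.ev ξ : A →+* K) (map (algebraMap K A) s) = s := by
  ext n
  simp

lemma ev_Twi (ξ : G I) (i : I) (s : K⟦X⟧) :
    map (cb.ev ξ : A →+* K) (Twi (cb.e i) s) = if ξ i = 0 then 1 else s := by
  rw [Twi, map_add, map_mul, map_sub, map_one, cb.ev_map, map_C, RingHom.coe_coe, cb.ev_e]
  split_ifs <;> simp

end Cube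

/-- `F = 1 + 2 y` modulo four. -/
def Cg (F y : K⟦X⟧) : Prop := Bc 1 y ∧ Bc (1 / 4) (F - 1 - 2 * y)

lemma bc_two (h2 : ‖(2 : K)‖ = 1 / 2) : Bc (1 / 2) (2 : K⟦X⟧) := by
  rw [← map_ofNat C 2]
  exact Bc.const h2.le

lemma Cg.mul (h2 : ‖(2 : K)‖ = 1 / 2) {F y F' y' : K⟦X⟧} (h : Cg F y) (h' : Cg F' y') :
    Cg (F * F') (y + y') := by
  refine ⟨h.1.add h'.1, ?_⟩
  have t := bc_two h2
  rw [show F * F' - 1 - 2 * (y + y') = (F - 1 - 2 * y) * (F' - 1 - 2 * y' + 1 + 2 * y') +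
    (F' - 1 - 2 * y') * (1 + 2 * y) + (2 * y) * (2 * y') by ring]
  refine ((h.2.mul_one' (((h'.2.mono (by norm_num)).add Bc.one).add
    ((t.mul_one' h'.1).mono (by norm_num)))).add
    (h'.2.mul_one' (Bc.one.add ((t.mul_one' h.1).mono (by norm_num))))).add ?_
  exact ((t.mul_one' h.1).mul (t.mul_one' h'.1)).mono (by norm_num)

lemma Cg.one : Cg (1 : K⟦X⟧) 0 := ⟨Bc.zero zero_le_one, by simpa using Bc.zero (by norm_num)⟩

lemma Cg.prod (h2 : ‖(2 : K)‖ = 1 / 2) {ι : Type} (T : Finset ι) {F y : ι → K⟦X⟧}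
    (h : ∀ i, Cg (F i) (y i)) : Cg (∏ i ∈ T, F i) (∑ i ∈ T, y i) := by
  classical
  induction T using Finset.induction_on with
  | empty => simpa using Cg.one
  | insert a T ha ih =>
    rw [Finset.prod_insert ha, Finset.sum_insert ha]
    exact (h a).mul h2 ih

end Pool.Agent.Lib.MP_788af2_nt.AG
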