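import Pool.Agent.Lib.MP_788af2_nt.AG.ConF
import Pool.Agent.Lib.MP_788af2_nt.AG.PotA

/-!
The local horizontal sections over the cube and the bounds of the products.
-/

set_option linter.unusedSectionVars false

namespace Pool.Agent.Lib.MP_788af2_nt.AG

open Polynomial Pool.Agent.Lib.MP_788af2_nt.AS

open scoped Classical

variable {K A J Z k κ I : Type} [NontriviallyNormedField K] [IsUltrametricDist K] [CompleteSpace K]
  [CharZero K] [NormedCommRing A] [NormedAlgebra K A] [IsUltrametricDist A] [CompleteSpace A]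
  [NormOneClass A] [Fintype J] [Fintype Z] [DecidableEq J] [DecidableEq Z] [Field k] [Fintype k]
  [CharP k 2] [Field κ] [CharP κ 2] [IsAlgClosed κ] [Fintype I] [DecidableEq I] {δ : I → ℝ}

lemma nadd {x y : A} {c : ℝ} (hx : ‖x‖ ≤ c) (hy : ‖y‖ ≤ c) : ‖x + y‖ ≤ c :=
  (IsUltrametricDist.norm_add_le_max _ _).trans (max_le hx hy)

lemma nmul {x y : A} {c c' : ℝ} (hx : ‖x‖ ≤ c) (hy : ‖y‖ ≤ c') : ‖x * y‖ ≤ c * c' :=
  (norm_mul_le _ _).trans (mul_le_mul hx hy (norm_nonneg _) ((norm_nonneg _).trans hx))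

/-- Series congruent to one modulo `r`, and modulo two up to the first order. -/
def Nr (r : ℝ) (s : PowerSeries A) : Prop := Bc r (s - 1) ∧ ‖PowerSeries.coeff 0 s - 1‖ ≤ 1 / 2 ∧
  ‖PowerSeries.coeff 1 s‖ ≤ 1 / 2

lemma Nr.mul {r : ℝ} (hr : r ≤ 1) {s t : PowerSeries A} (h : Nr r s) (h' : Nr r t) :
    Nr r (s * t) := by
  have s1 : Bc 1 s := by simpa using (h.1.mono hr).add Bc.one
  have t1 : Bc 1 t := by simpa using (h'.1.mono hr).add Bc.one
  refine ⟨by simpa using Bc.mul_sub s1 Bc.one h.1 h'.1, ?_, ?_⟩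
  · have e : PowerSeries.coeff 0 (s * t) - 1 = PowerSeries.coeff 0 s * (PowerSeries.coeff 0 t - 1) +
        (PowerSeries.coeff 0 s - 1) := by
      simp only [PowerSeries.coeff_zero_eq_constantCoeff_apply, map_mul]
      ring
    rw [e]
    exact nadd (by simpa using nmul (s1 0) h'.2.1) h.2.1
  · rw [PowerSeries.coeff_one_mul, ← PowerSeries.coeff_zero_eq_constantCoeff_apply,
      ← PowerSeries.coeff_zero_eq_constantCoeff_apply]
    exact nadd (by simpa using nmul h.2.2 (t1 0)) (by simpa using nmul h'.2.2 (s1 0))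

lemma Nr.of {r : ℝ} {s : PowerSeries A} (h : Bc r s) (h0 : ‖PowerSeries.coeff 0 s‖ ≤ 1 / 2)
    (h1 : ‖PowerSeries.coeff 1 s‖ ≤ 1 / 2) : Nr r (1 + s) :=
  ⟨by simpa using h, by simpa using h0, by simpa [PowerSeries.coeff_one] using h1⟩

lemma Nr.prod {r : ℝ} (h0 : 0 ≤ r) (hr : r ≤ 1) {ι : Type} (T : Finset ι) {f : ι → PowerSeries A}
    (h : ∀ i ∈ T, Nr r (f i)) : Nr r (∏ i ∈ T, f i) :=
  Finset.prod_induction f (Nr r) (fun _ _ => Nr.mul hr)
    (by simpa using Nr.of (A := A) (Bc.zero h0) (by simp) (by simp)) h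

lemma Cube.Twi_W (cb : Cube K I A δ) (i : I) (W : PowerSeries K) : Twi (cb.e i) (1 + 2 * W) =
    1 + PowerSeries.C (1 - cb.γ (Pi.single i 1)) * PowerSeries.map (algebraMap K A) W := by
  rw [Twi, map_add, map_one, map_mul, map_ofNat, add_sub_cancel_left, ← cb.two_e, map_mul,
    map_ofNat, mul_assoc]

lemma Pm.cw_ge (p : Pm) (n : ℕ) : (n : ℝ) / p.e ≤ cw p.e n := by
  rw [div_le_iff₀ p.a1_e_posR]
  exact_mod_cast le_cw p.odd.pos n

lemma Pm.two_div_le (p : Pm) (n : ℕ) : 2 * ((n : ℝ) / p.e) ≤ n / p.l := by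
  have h1 := p.a1_e_geR
  have h2 := p.a1_l_posR
  rw [← mul_div_assoc, div_le_div_iff₀ p.a1_e_posR h2]
  have : (0 : ℝ) ≤ n := n.cast_nonneg
  nlinarith

lemma Pm.e_div_le (p : Pm) : (2 : ℝ) ^ (-((p.e : ℝ) / p.l)) ≤ 1 / 4 := by
  have h1 := p.a1_e_geR
  have h2 := p.a1_l_posR
  have h3 : (2 : ℝ) ≤ p.e / p.l := by
    rw [le_div_iff₀ h2]
    linarith
  refine (Real.rpow_le_rpow_of_exponent_le one_le_two (neg_le_neg h3)).trans_eq ?_
  rw [Real.rpow_neg zero_le_two]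
  norm_num

lemma Pm.g_le (p : Pm) {s : PowerSeries A} {u : PowerSeries K} (hs : Bw (fun n => n / p.l) s)
    (hu : ∀ N, ‖PowerSeries.coeff N u‖ ≤ (1 / 4) ^ cw p.e N) :
    Bw (fun n => 2 * ((n : ℝ) / p.e)) (s * PowerSeries.map (algebraMap K A) u) := by
  have h1 : Bw (fun n => 2 * ((n : ℝ) / p.e)) u := fun n => by
    refine (hu n).trans ?_
    rw [quarter_pow]
    exact Real.rpow_le_rpow_of_exponent_le one_le_two (by linarith [p.cw_ge n])
  refine (hs.mono p.two_div_le).mul h1.map fun i j => ?_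
  push_cast
  rw [add_div, mul_add]

lemma Pm.F_le (p : Pm) {s : PowerSeries A} {u : PowerSeries K} (hs : Bw (fun n => n / p.l) s)
    (hu : ∀ N, ‖PowerSeries.coeff N u‖ ≤ (1 / 2) ^ cw p.e N) :
    Bw (fun n => p.f n) (s * PowerSeries.map (algebraMap K A) u) := by
  have h1 : Bw (fun n => cw p.e n) u := fun n => (hu n).trans_eq (half_pow _)
  refine hs.mul h1.map fun i j => ?_
  have a1 := p.f_add i j
  have a2 := p.f_le_div i (Int.natCast_nonneg i)
  have a3 := p.f_le_of_le j (cw p.e j) (by exact_mod_cast le_cw p.odd.pos j)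
  push_cast at a2 ⊢
  linarith

lemma Pm.L_le (p : Pm) {s : PowerSeries A} {u : PowerSeries K} (hs : Bw (fun n => n / p.l) s)
    (hu : ∀ N, ‖PowerSeries.coeff N u‖ ≤ 2 * (1 / 4) ^ cw p.e N) (n : ℕ) :
    ‖PowerSeries.coeff n (s + PowerSeries.map (algebraMap K A) u)‖ ≤
      2 ^ (1 - 2 * ((n : ℝ) / p.e)) := by
  have h1 : Bw (fun n => 2 * ((n : ℝ) / p.e) - 1) u := fun n => by
    refine (hu n).trans ?_
    rw [quarter_pow, neg_sub, sub_eq_add_neg, Real.rpow_add two_pos, Real.rpow_one]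
    exact mul_le_mul_of_nonneg_left (Real.rpow_le_rpow_of_exponent_le one_le_two
      (by linarith [p.cw_ge n])) zero_le_two
  have := ((hs.mono (w' := fun n => 2 * ((n : ℝ) / p.e) - 1) fun n => by
    linarith [p.two_div_le n]).add h1.map) n
  rwa [neg_sub] at this

lemma Pm.F_e (p : Pm) {s t : PowerSeries A} (hs : Bw (fun n => n / p.l) s)
    (h0 : PowerSeries.coeff 0 s = 1) (ht : Bc (1 / 2) (t - 1)) {x : A}
    (hx : ‖PowerSeries.coeff p.e t - x‖ ≤ 1 / 4) :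
    ‖PowerSeries.coeff p.e (s * t) - x‖ ≤ p.ϑ / 2 := by
  have hϑ := p.half_le_ϑ
  have he := p.odd.pos
  have s1 : Bc p.ϑ (s - 1) := fun n => by
    rw [map_sub, PowerSeries.coeff_one]
    split_ifs with hn
    · rw [hn, h0, sub_self, norm_zero]
      exact p.ϑ_pos.le
    · rw [sub_zero]
      refine (hs n).trans (le_trans ?_ p.inv_l_le_ϑ)
      refine Real.rpow_le_rpow_of_exponent_le one_le_two (neg_le_neg ?_)
      exact div_le_div_of_nonneg_right (by exact_mod_cast Nat.one_le_iff_ne_zero.2 hn)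
        p.a1_l_posR.le
  have e : PowerSeries.coeff p.e (s * t) - x = PowerSeries.coeff p.e ((s - 1) * (t - 1)) +
      PowerSeries.coeff p.e s + (PowerSeries.coeff p.e t - x) := by
    rw [show s * t = (s - 1) * (t - 1) + s + t - 1 by ring, map_sub, map_add, map_add,
      PowerSeries.coeff_one, if_neg he.ne']
    ring
  rw [e]
  refine nadd (nadd ((s1.mul ht _).trans_eq (by ring)) (((hs _).trans p.e_div_le).trans ?_))
    (hx.trans ?_) <;> linarith

variable {q : Geo K J Z} {ℓ : Lift K κ} {b : k[X]} (L : Lnk q ℓ b) (cb : Cube K I A δ)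
  {β : I → k[X]}

theorem exists_κ (hβ : ∀ i, b ∣ β i) (hδ : ∀ i, δ i = (dp (β i) : ℝ) / q.p.l) (a : k[X]) {d : ℕ}
    (hd : a.natDegree ≤ d) {Wb : Z → κ}
    (hW : ∀ z, Wb z ^ 2 + Wb z = (a.map (L.emb (q.jz z))).eval (L.rt z)) :
    ∃ (κ' : Z → PowerSeries A) (ε : Z → ℤ), ∀ z, Nr q.p.ϑ (κ' z) ∧
      κ' z ^ 2 = Tay (q.β z) (L.PG cb β q.o.g (q.jz z) *
        PowerSeries.map (algebraMap K A) (Pr q.o.g (L.cf a (q.jz z)) d)) ∧
      Tay (q.β z) (L.PG cb β q.o.θ (q.jz z) *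
        PowerSeries.map (algebraMap K A) (Pr q.o.θ (L.cf a (q.jz z)) d)) *
          (κ' (q.σZ z)).subst (PowerSeries.X ^ 2 + PowerSeries.C (algebraMap K A (2 * q.β z)) *
            PowerSeries.X : PowerSeries A) = ε z • κ' z ∧
      ((ε z = 1 ∧ Wb (q.σZ z) = Wb z ^ 2) ∨ (ε z = -1 ∧ Wb (q.σZ z) = Wb z ^ 2 + 1)) := by
  have hr : ∀ i z, ((β i).map (L.emb (q.jz z))).eval (L.rt z) = 0 := fun i z =>
    ((L.root z).dvd (Polynomial.map_dvd _ (hβ i))).eq_zero
  obtain ⟨WA, ε, hA⟩ := exists_loc L hd hW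
  choose W ε' hW' using fun i => exists_loc L (Dp_deg (β i)) (Wb := fun _ => 0) fun z => by
    simp [Dp, hr i z]
  have hϑ := q.p.half_le_ϑ
  refine ⟨fun z => (∏ i, Twi (cb.e i) (1 + 2 * W i z)) *
    PowerSeries.map (algebraMap K A) (1 + 2 * WA z), ε, fun z => ⟨?_, ?_, ?_, (hA z).2.2.2.2.2⟩⟩
  · refine Nr.mul q.p.ϑ_lt.le (Nr.prod q.p.ϑ_pos.le q.p.ϑ_lt.le _ fun i _ => ?_) ?_
    · rw [cb.Twi_W]
      have h1 : ‖1 - cb.γ (Pi.single i 1)‖ ≤ q.p.ϑ := by
        refine (cb.one_sub i).trans (le_trans ?_ q.p.inv_l_le_ϑ)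
        refine Real.rpow_le_rpow_of_exponent_le one_le_two (neg_le_neg ?_)
        rw [hδ]
        exact div_le_div_of_nonneg_right (by exact_mod_cast dp_pos _) q.p.a1_l_posR.le
      have h2 := h1.trans q.p.ϑ_lt.le
      obtain ⟨w1, w2, w3, -⟩ := hW' i z
      rw [map_zero, sub_zero] at w2
      have w4 := w3 (by simp [Dp_der, hr i z])
      refine Nr.of ((Bc.const h1).mul_one' w1.map) ?_ ?_
      · rw [PowerSeries.coeff_C_mul, PowerSeries.coeff_map]
        simpa using nmul h2 ((norm_algebraMap' A _).trans_le w2)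
      · rw [PowerSeries.coeff_C_mul, PowerSeries.coeff_map]
        simpa using nmul h2 ((norm_algebraMap' A _).trans_le w4)
    · have h1 := ((bc_two q.two).mul_one' (hA z).1).map (A := A)
      rw [map_add, map_one]
      exact Nr.of (h1.mono hϑ) (h1 0) (h1 1)
  · have d1 := fun i => Pr_g_dcy q.o q.two (L.cf_le (Dp (β i)) (q.jz z)) (d := dp (β i))
    have d2 := Pr_g_dcy q.o q.two (L.cf_le a (q.jz z)) (d := d)
    rw [Lnk.PG, Tay_mul (q.β_le z) (Dcy.prod _ fun i _ => Twi_dcy (d1 i)) d2.map,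
      Tay_prod (q.β_le z) _ fun i _ => Twi_dcy (d1 i), Tay_map (q.β_le z) d2, mul_pow, ← map_pow,
      (hA z).2.2.2.1, ← Finset.prod_pow]
    congr 1
    refine Finset.prod_congr rfl fun i _ => ?_
    rw [← Twi_sq (cb.e_idem i), (hW' i z).2.2.2.1, Tay_Twi (q.β_le z) (d1 i)]
  · have d1 := fun i => Pr_θ_dcy q.o q.two (L.cf_le (Dp (β i)) (q.jz z)) (d := dp (β i))
    have d2 := Pr_θ_dcy q.o q.two (L.cf_le a (q.jz z)) (d := d)
    set P : PowerSeries K := PowerSeries.X ^ 2 + PowerSeries.C (2 * q.β z) * PowerSeries.X with hP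
    have p0 : PowerSeries.constantCoeff P = 0 := by simp [hP]
    have p1 : (PowerSeries.X ^ 2 + PowerSeries.C (algebraMap K A (2 * q.β z)) *
        PowerSeries.X : PowerSeries A) = PowerSeries.map (algebraMap K A) P := by
      rw [hP, map_add, map_X_sq, map_mul (PowerSeries.map _), PowerSeries.map_C, PowerSeries.map_X]
    have p2 : PowerSeries.HasSubst (PowerSeries.map (algebraMap K A) P) :=
      PowerSeries.HasSubst.of_constantCoeff_zero' (by rw [← p1]; simp)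
    have e1 : ∀ i, Tay (q.β z) (Twi (cb.e i) (Pr q.o.θ (L.cf (Dp (β i)) (q.jz z)) (dp (β i)))) *
        (Twi (cb.e i) (1 + 2 * W i (q.σZ z))).subst (PowerSeries.map (algebraMap K A) P) =
          Twi (cb.e i) (1 + 2 * W i z) := fun i => by
      obtain ⟨-, -, -, -, w1, w2⟩ := hW' i z
      have w3 : ε' i z = 1 := by simpa using w2
      rw [Tay_Twi (q.β_le z) (d1 i), Twi_subst _ p0, ← Twi_mul (cb.e_idem i), w1, w3, one_smul]
    rw [p1, Lnk.PG, Tay_mul (q.β_le z) (Dcy.prod _ fun i _ => Twi_dcy (d1 i)) d2.map,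
      Tay_prod (q.β_le z) _ fun i _ => Twi_dcy (d1 i), Tay_map (q.β_le z) d2,
      PowerSeries.subst_mul p2, subst_prod' _ _ p2, map_subst' _ p0, mul_mul_mul_comm,
      ← Finset.prod_mul_distrib, ← map_mul, (hA z).2.2.2.2.1, map_zsmul, mul_smul_comm]
    simp only [e1]

end Pool.Agent.Lib.MP_788af2_nt.AG
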