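import Pool.Agent.Lib.MP_788af2_nt.AG.Core

/-!
The lifted polynomial and the square root.
-/

set_option linter.unusedSectionVars false

namespace Pool.Agent.Lib.MP_788af2_nt.AG

open Polynomial Filter Topology

variable {K J Z : Type} [NontriviallyNormedField K] [IsUltrametricDist K] [CompleteSpace K]
  [CharZero K] [Fintype Z] [DecidableEq J] [DecidableEq Z] (q : Geo K J Z)

/-- All coefficients have norm at most `r`. -/
def SqB (r : ℝ) (p : K[X]) : Prop := ∀ n, ‖p.coeff n‖ ≤ r

namespace SqB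

variable {r s : ℝ} {p p' : K[X]}

lemma nonneg (h : SqB r p) : 0 ≤ r := (norm_nonneg _).trans (h 0)

lemma mono (h : SqB r p) (hr : r ≤ s) : SqB s p := fun n => (h n).trans hr

lemma zero (hr : 0 ≤ r) : SqB r (0 : K[X]) := fun n => by simpa using hr

lemma add (h : SqB r p) (h' : SqB r p') : SqB r (p + p') := fun n => by
  rw [coeff_add]
  exact oa_add (h n) (h' n)

lemma neg (h : SqB r p) : SqB r (-p) := fun n => by
  rw [coeff_neg, norm_neg]
  exact h n

lemma sub (h : SqB r p) (h' : SqB r p') : SqB r (p - p') := by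
  rw [sub_eq_add_neg]
  exact h.add h'.neg

lemma mul (h : SqB r p) (h' : SqB s p') : SqB (r * s) (p * p') := fun n => by
  rw [coeff_mul]
  exact IsUltrametricDist.norm_sum_le_of_forall_le_of_nonneg (mul_nonneg h.nonneg h'.nonneg)
    fun x _ => oa_mul_le (h _) (h' _)

lemma mul_one' (h : SqB r p) (h' : SqB 1 p') : SqB r (p * p') := by simpa using h.mul h'

lemma const {a : K} (h : ‖a‖ ≤ r) : SqB r (C a) := fun n => by
  rw [coeff_C]
  split_ifs
  · exact h
  · simpa using (norm_nonneg _).trans h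

lemma one : SqB 1 (1 : K[X]) := by simpa using const (a := (1 : K)) (r := 1) (by simp)

lemma var : SqB 1 (X : K[X]) := fun n => by
  rw [coeff_X]
  split_ifs <;> simp

lemma pow (h : SqB 1 p) : ∀ k, SqB 1 (p ^ k)
  | 0 => by simpa using one
  | k + 1 => by
    rw [pow_succ]
    exact (pow h k).mul_one' h

lemma sum {ι : Type} (t : Finset ι) {f : ι → K[X]} (hr : 0 ≤ r) (h : ∀ i ∈ t, SqB r (f i)) :
    SqB r (∑ i ∈ t, f i) :=
  Finset.sum_induction f (SqB r) (fun _ _ => add) (zero hr) h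

lemma prod {ι : Type} (t : Finset ι) {f : ι → K[X]} (h : ∀ i ∈ t, SqB 1 (f i)) :
    SqB 1 (∏ i ∈ t, f i) :=
  Finset.prod_induction f (SqB 1) (fun _ _ => mul_one') one h

lemma deriv (h : SqB r p) : SqB r (derivative p) := fun n => by
  rw [coeff_derivative]
  simpa using oa_mul_le (h (n + 1))
    (by exact_mod_cast IsUltrametricDist.norm_natCast_le_one K (n + 1) : ‖((n : K) + 1)‖ ≤ 1)

lemma pow_sub {U e : K[X]} (hU : SqB 1 U) (he : SqB 1 e) (b : ℕ) :
    ∃ Q, SqB 1 Q ∧ (U + e) ^ b = U ^ b + (b : K[X]) * U ^ (b - 1) * e + e ^ 2 * Q := by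
  induction b with
  | zero => exact ⟨0, zero zero_le_one, by simp⟩
  | succ b ih =>
    obtain ⟨Q, h1, h2⟩ := ih
    have hb : SqB 1 (b : K[X]) := by
      simpa using const (IsUltrametricDist.norm_natCast_le_one K b)
    refine ⟨(b : K[X]) * U ^ (b - 1) + Q * (U + e), (hb.mul_one' (hU.pow _)).add
      (h1.mul_one' (hU.add he)), ?_⟩
    rw [pow_succ, h2]
    rcases b with _ | b
    · simp
      ring
    · simp only [Nat.add_sub_cancel]
      push_cast
      ring

end SqB

/-- The recursion for the square root. -/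
noncomputable def sqRec {R : Type} [CommRing R] (h : R) (D : ℕ → R) : ℕ → R
  | 0 => 0
  | n + 1 => h * (D (n + 1) - ∑ i : Fin n, sqRec h D (i + 1) * sqRec h D (n - i))
decreasing_by all_goals omega

lemma sq_ex {R : Type} [CommRing R] {h : R} (hh : 2 * h = 1) {D : PowerSeries R}
    (h0 : PowerSeries.coeff 0 D = 0) :
    ∃ T : PowerSeries R, PowerSeries.coeff 0 T = 0 ∧ 2 * T + T * T = D := by
  refine ⟨PowerSeries.mk (sqRec h fun n => PowerSeries.coeff n D), by simp [sqRec], ?_⟩
  ext n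
  rw [map_add, two_mul, map_add, PowerSeries.coeff_mul,
    Finset.Nat.sum_antidiagonal_eq_sum_range_succ_mk]
  simp only [PowerSeries.coeff_mk]
  rcases n with _ | n
  · simp [sqRec, h0]
  · rw [Finset.sum_range_succ, Finset.sum_range_succ', Nat.sub_self, Finset.sum_range]
    simp only [Nat.add_sub_add_right]
    rw [sqRec, sqRec]
    linear_combination (PowerSeries.coeff (n + 1) D - ∑ i : Fin n,
      sqRec h (fun n => PowerSeries.coeff n D) (i + 1) *
        sqRec h (fun n => PowerSeries.coeff n D) (n - i)) * hh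

lemma zs_eq (h : PowerSeries K) (μ : K[X]) :
    zs h μ = PowerSeries.rescale μ (PowerSeries.map C h) := by
  ext1 k
  rw [zs, PowerSeries.coeff_mk, PowerSeries.coeff_rescale, PowerSeries.coeff_map, mul_comm]

lemma zs2_eq (h : PowerSeries K) (μ : K[X]) :
    zs2 h μ = PowerSeries.expand 2 two_ne_zero (zs h μ) := by
  ext1 k
  rw [zs2, PowerSeries.coeff_mk, PowerSeries.coeff_expand, zs, PowerSeries.coeff_mk]

namespace Geo

lemma c_pos (z : Z) : 0 < q.c z := Nat.mul_pos (by positivity) (q.n_pos z)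
lemma c_cast (z : Z) : (q.c z : K) = q.c0 * q.n z := by simp [c, c0]
lemma c0_le : ‖q.c0‖ ≤ 1 / 8 := by
  rw [c0, norm_pow, q.two]
  exact (pow_le_pow_of_le_one (by norm_num) (by norm_num)
    (show 3 ≤ q.i + 1 by have := q.i_ge; omega)).trans (by norm_num)
lemma c0_ne : q.c0 ≠ 0 := pow_ne_zero _ two_ne_zero
lemma u_ne (j : J) : q.u j ≠ 0 := fun h => by simpa [h] using q.u_norm j
lemma lam_lead (j : J) : (q.lam j).leadingCoeff = q.u j := by
  rw [lam, leadingCoeff_mul, leadingCoeff_C,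
    (monic_prod_of_monic _ _ fun z _ => (monic_X_sub_C _).pow _).leadingCoeff, mul_one]
lemma lam_deg (j : J) : (q.lam j).natDegree = 2 * q.p.m := by
  rw [lam, natDegree_C_mul (q.u_ne j),
    natDegree_prod_of_monic _ _ fun z _ => (monic_X_sub_C _).pow _, ← q.deg j]
  exact Finset.sum_congr rfl fun z _ => by rw [natDegree_pow, natDegree_X_sub_C, mul_one, c]
lemma lin_le (z : Z) : SqB 1 (X - C (q.β z)) := SqB.var.sub (SqB.const (q.β_le z))
lemma lam_SqB (j : J) : SqB 1 (q.lam j) :=
  (SqB.const (q.u_norm j).le).mul_one' (SqB.prod _ fun z _ => (q.lin_le z).pow _)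
lemma lam_le (j : J) (k n : ℕ) : ‖(q.lam j ^ k).coeff n‖ ≤ 1 := (q.lam_SqB j).pow k n
lemma lam_eq (z : Z) : q.lam (q.jz z) = (X - C (q.β z)) ^ q.c z * q.lamz z := by
  have e : Finset.univ.filter (fun z' => q.jz z' = q.jz z ∧ z' ≠ z) =
      (Finset.univ.filter fun z' => q.jz z' = q.jz z).erase z := by
    ext z'
    simp [and_comm]
  rw [lam, lamz, e, mul_left_comm, Finset.mul_prod_erase _
    (fun z' => (X - C (q.β z')) ^ q.c z') (by simp)]
lemma lamz_le (z : Z) (n : ℕ) : ‖(q.lamz z).coeff n‖ ≤ 1 :=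
  (SqB.const (q.u_norm _).le).mul_one' (SqB.prod _ fun z _ => (q.lin_le z).pow _) n
lemma lamz_eval (z : Z) : ‖(q.lamz z).eval (q.β z)‖ = 1 := by
  rw [lamz, eval_mul, eval_C, eval_prod, norm_mul, q.u_norm, one_mul, norm_prod]
  refine Finset.prod_eq_one fun z' hz' => ?_
  obtain ⟨h1, h2⟩ := (Finset.mem_filter.1 hz').2
  rw [eval_pow, eval_sub, eval_X, eval_C, norm_pow, q.β_sep z z' h2.symm h1.symm, one_pow]
lemma lam_σ (j : J) : (q.lam (q.σ j)).comp (X ^ 2) = q.lam j * (q.lam j + q.del j) := by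
  have e : ∏ z ∈ Finset.univ.filter (fun z => q.jz z = q.σ j), (X - C (q.β z)) ^ q.c z =
      ∏ z ∈ Finset.univ.filter (fun z => q.jz z = j), (X - C (q.β z ^ 2)) ^ q.c z := by
    refine (Finset.prod_equiv q.σZ (fun z => ?_) fun z _ => ?_).symm
    · simp [q.jz_σ]
    · rw [q.β_σ, c, c, q.n_σ]
  rw [del, add_sub_cancel, lam, lam, e, q.u_σ, mul_comp, mul_comp, C_comp, C_comp, prod_comp,
    prod_comp, mul_mul_mul_comm, ← Finset.prod_mul_distrib, ← C_mul, sq]
  congr 1
  refine Finset.prod_congr rfl fun z _ => ?_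
  rw [pow_comp, pow_comp, sub_comp, sub_comp, X_comp, X_comp, C_comp, C_comp,
    ← Even.neg_pow (n := q.c z) ⟨2 ^ q.i * q.n z, by rw [c]; ring⟩ (-X - C (q.β z)), ← mul_pow,
    C_pow]
  congr 1
  ring
lemma del_deg (j : J) : (q.del j).natDegree ≤ 2 * q.p.m :=
  (natDegree_sub_le _ _).trans (max_le (natDegree_comp_le.trans (by simp [q.lam_deg]))
    (q.lam_deg j).le)
lemma lam_deriv_le (j : J) (n : ℕ) : ‖(derivative (q.lam j)).coeff n‖ ≤ ‖q.c0‖ := by
  have e : q.lam j = C (q.u j) * (∏ z ∈ Finset.univ.filter (fun z => q.jz z = j),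
      (X - C (q.β z)) ^ q.n z) ^ 2 ^ (q.i + 1) := by
    rw [lam, ← Finset.prod_pow]
    congr 1
    exact Finset.prod_congr rfl fun z _ => by rw [← pow_mul, mul_comm, c]
  have h := SqB.prod (Finset.univ.filter (fun z => q.jz z = j))
    fun z _ => (q.lin_le z).pow (q.n z)
  rw [e, derivative_C_mul, derivative_pow, mul_comm]
  exact ((((SqB.const (by simp [c0])).mul_one' (h.pow _)).mul_one' h.deriv).mul_one'
    (SqB.const (q.u_norm j).le)) n
/-- The polynomial `λ` is a Frobenius pull-back to high order. -/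
lemma lam_odd (j : J) (n : ℕ) (h : Odd n) : ‖(q.lam j).coeff n‖ ≤ ‖q.c0‖ := by
  have h1 : ‖(n : K)‖ = 1 := by exact_mod_cast oa_odd q.two (a := n) (by exact_mod_cast h)
  obtain ⟨m, rfl⟩ := Nat.exists_eq_succ_of_ne_zero h.pos.ne'
  have h2 := q.lam_deriv_le j m
  rw [coeff_derivative, norm_mul] at h2
  push_cast at h1
  rwa [h1, mul_one] at h2
lemma del_le (j : J) (n : ℕ) : ‖(q.del j).coeff n‖ ≤ ‖q.c0‖ / 2 := by
  have e : (-X : K[X]) = C (-1) * X := by simp
  rw [del, coeff_sub, e, comp_C_mul_X_coeff]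
  rcases Nat.even_or_odd n with h | h
  · rw [h.neg_one_pow, mul_one, sub_self, norm_zero]
    positivity
  · rw [h.neg_one_pow, show (q.lam j).coeff n * -1 - (q.lam j).coeff n =
      -(2 * (q.lam j).coeff n) by ring, norm_neg, norm_mul, q.two]
    linarith [q.lam_odd j n h]

lemma g_dgi (k : ℕ) : ∑ x ∈ Finset.HasAntidiagonal.antidiagonal k, PowerSeries.coeff x.1 q.o.g *
    (x.2 * PowerSeries.coeff x.2 q.o.gi) = -(2 * PowerSeries.coeff k q.o.L) := by
  have h1 := congrArg (PowerSeries.derivative K) q.o.g_gi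
  rw [Derivation.leibniz, Derivation.map_one_eq_zero, smul_eq_mul, smul_eq_mul] at h1
  have h2 : q.o.g * (PowerSeries.X * PowerSeries.derivative K q.o.gi) = -(q.o.L + q.o.L) := by
    linear_combination PowerSeries.X * h1 + q.o.gi * q.o.L_g - 2 * q.o.L * q.o.g_gi
  have h3 := congrArg (PowerSeries.coeff k) h2
  rw [PowerSeries.coeff_mul, map_neg, map_add, ← two_mul] at h3
  simpa only [oa_coeff] using h3

lemma prod_coeff {U e : K[X]} (hU : SqB 1 U) (he : SqB 1 e) (k : ℕ) :
    ∃ R, SqB ((1 / 4) ^ (k + 1)) R ∧ PowerSeries.coeff (k + 1) (zs q.o.g U * zs q.o.gi (U + e)) =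
      -(2 * C (PowerSeries.coeff (k + 1) q.o.L)) * (e * U ^ k) + e ^ 2 * R := by
  choose Q hQ hQ' using hU.pow_sub he
  refine ⟨∑ x ∈ Finset.HasAntidiagonal.antidiagonal (k + 1), C (PowerSeries.coeff x.1 q.o.g) *
    C (PowerSeries.coeff x.2 q.o.gi) * (U ^ x.1 * Q x.2), SqB.sum _ (by positivity) fun x hx => ?_,
    ?_⟩
  · rw [← Finset.HasAntidiagonal.mem_antidiagonal.1 hx, pow_add]
    exact ((SqB.const (q.o.g_le _)).mul (SqB.const (q.o.gi_le _))).mul_one'
      ((hU.pow _).mul_one' (hQ _))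
  have h1 := congrArg (fun f => C (PowerSeries.coeff (k + 1) f)) q.o.g_gi
  have h2 := congrArg C (q.g_dgi (k + 1))
  simp only [PowerSeries.coeff_mul, PowerSeries.coeff_one, map_sum, map_mul, map_neg, map_natCast,
    map_ofNat, if_neg k.succ_ne_zero, map_zero] at h1 h2
  rw [← h2, PowerSeries.coeff_mul, Finset.sum_mul, Finset.mul_sum, ← Finset.sum_add_distrib]
  refine Eq.trans ?_ (add_zero _)
  rw [← zero_mul (U ^ (k + 1)), ← h1, Finset.sum_mul, ← Finset.sum_add_distrib]
  refine Finset.sum_congr rfl fun x hx => ?_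
  obtain ⟨a, b⟩ := x
  have hx' : a + b = k + 1 := Finset.HasAntidiagonal.mem_antidiagonal.1 hx
  simp only [zs, PowerSeries.coeff_mk, hQ']
  rw [← hx', pow_add]
  rcases b with _ | b
  · simp
    ring
  · rw [show k = a + b by omega, pow_add, Nat.add_sub_cancel]
    ring

theorem exists_sq (j : J) : ∃ S, q.IsSq j S := by
  have hc := q.c0_le
  have hc0 := norm_nonneg q.c0
  have hh : 2 * C (1 / 2 : K) = 1 := by
    rw [← map_ofNat C 2, ← C_mul]
    simp
  have hn : SqB 2 (C (1 / 2 : K)) := SqB.const (by rw [norm_div, norm_one, q.two]; norm_num)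
  have hV : (q.lam (q.σ j)).comp (X ^ 2) = q.lam j ^ 2 + q.lam j * q.del j := by
    rw [q.lam_σ]
    ring
  have hU := (q.lam_SqB j).pow 2
  have he : SqB (‖q.c0‖ / 2) (q.lam j * q.del j) := by
    rw [mul_comm]
    exact SqB.mul_one' (q.del_le j) (q.lam_SqB j)
  have dU : (q.lam j ^ 2).natDegree ≤ 4 * q.p.m := by
    rw [natDegree_pow, q.lam_deg]
    omega
  have dV : (q.lam j ^ 2 + q.lam j * q.del j).natDegree ≤ 4 * q.p.m :=
    (natDegree_add_le _ _).trans (max_le dU (natDegree_mul_le.trans (by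
      have := q.del_deg j
      rw [q.lam_deg]
      omega)))
  generalize hUd : q.lam j ^ 2 = U at hV hU dU dV
  generalize hed : q.lam j * q.del j = e at hV he dV
  obtain ⟨T, t0, ht⟩ := sq_ex hh (D := zs q.o.g U * zs q.o.gi (U + e) - 1) (by
    have h1 := congrArg (PowerSeries.coeff 0) q.o.g_gi
    simp only [PowerSeries.coeff_zero_eq_constantCoeff, map_mul,
      map_one] at h1
    simp [zs, ← C_mul, h1])
  have hk : ∀ k, PowerSeries.coeff (k + 1) T = C (1 / 2 : K) *
      (PowerSeries.coeff (k + 1) (zs q.o.g U * zs q.o.gi (U + e)) -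
        ∑ x ∈ Finset.HasAntidiagonal.antidiagonal (k + 1), PowerSeries.coeff x.1 T * PowerSeries.coeff x.2 T) := by
    intro k
    have h1 := congrArg (PowerSeries.coeff (k + 1)) ht
    rw [map_add, two_mul, map_add, map_sub, PowerSeries.coeff_one, if_neg k.succ_ne_zero,
      PowerSeries.coeff_mul (k + 1) T] at h1
    linear_combination C (1 / 2 : K) * h1 - PowerSeries.coeff (k + 1) T * hh
  have hdeg : ∀ k, (PowerSeries.coeff k T).natDegree ≤ 4 * q.p.m * k := by
    intro k
    induction k using Nat.strong_induction_on with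
    | _ k ih =>
      rcases k with _ | k
      · simp [t0]
      rw [hk, PowerSeries.coeff_mul]
      refine (natDegree_C_mul_le _ _).trans ((natDegree_sub_le _ _).trans (max_le
        (natDegree_sum_le_of_forall_le _ _ fun x hx => ?_)
        (natDegree_sum_le_of_forall_le _ _ fun x hx => ?_)))
      · rw [← Finset.HasAntidiagonal.mem_antidiagonal.1 hx, mul_add]
        simp only [zs, PowerSeries.coeff_mk]
        refine natDegree_mul_le.trans (add_le_add ?_ ?_) <;>
          refine (natDegree_C_mul_le _ _).trans (natDegree_pow_le.trans ?_) <;>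
          rw [mul_comm] <;> exact Nat.mul_le_mul_right _ ‹_›
      · have hx' := Finset.HasAntidiagonal.mem_antidiagonal.1 hx
        rcases Nat.eq_zero_or_pos x.1 with h | h
        · simp [h, t0]
        rcases Nat.eq_zero_or_pos x.2 with h' | h'
        · simp [h', t0]
        rw [← hx', mul_add]
        exact natDegree_mul_le.trans (add_le_add (ih _ (by omega)) (ih _ (by omega)))
  have hlead : ∀ k, (∀ i ≤ k, SqB (‖q.c0‖ * (1 / 4) ^ i) (PowerSeries.coeff i T)) →
      SqB (4 * ‖q.c0‖ ^ 2 * (1 / 4) ^ (k + 1)) (PowerSeries.coeff (k + 1) T +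
        C (PowerSeries.coeff (k + 1) q.o.L) * (e * U ^ k)) := by
    intro k ih
    obtain ⟨R, r1, r2⟩ := q.prod_coeff hU (he.mono (by linarith)) k
    have e1 : PowerSeries.coeff (k + 1) T + C (PowerSeries.coeff (k + 1) q.o.L) * (e * U ^ k) =
        C (1 / 2 : K) * (e * e * R - ∑ x ∈ Finset.HasAntidiagonal.antidiagonal (k + 1),
          PowerSeries.coeff x.1 T * PowerSeries.coeff x.2 T) := by
      rw [hk, r2]
      linear_combination -(C (PowerSeries.coeff (k + 1) q.o.L) * (e * U ^ k)) * hh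
    have p0 : (0 : ℝ) ≤ ‖q.c0‖ ^ 2 * (1 / 4) ^ (k + 1) := by positivity
    rw [e1]
    refine (hn.mul (SqB.sub (r := ‖q.c0‖ ^ 2 * (1 / 4) ^ (k + 1)) (((he.mul he).mul r1).mono
      (by nlinarith)) (SqB.sum _ p0 fun x hx => ?_))).mono (by nlinarith)
    have hx' := Finset.HasAntidiagonal.mem_antidiagonal.1 hx
    rcases Nat.eq_zero_or_pos x.1 with h | h
    · simpa [h, t0] using SqB.zero p0
    rcases Nat.eq_zero_or_pos x.2 with h' | h'
    · simpa [h', t0] using SqB.zero p0
    refine ((ih _ (by omega)).mul (ih _ (by omega))).mono (le_of_eq ?_)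
    rw [← hx']
    ring
  have hle : ∀ k, SqB (‖q.c0‖ * (1 / 4) ^ k) (PowerSeries.coeff k T) := by
    intro k
    induction k using Nat.strong_induction_on with
    | _ k ih =>
      rcases k with _ | k
      · rw [t0]
        exact SqB.zero (by positivity)
      have p0 : (0 : ℝ) ≤ ‖q.c0‖ * (1 / 4) ^ (k + 1) := by positivity
      have h1 := ((hlead k fun i hi => ih i (by omega)).mono (s := ‖q.c0‖ * (1 / 4) ^ (k + 1))
        (by nlinarith)).sub (((SqB.const (q.o.L_le (k + 1))).mul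
          (he.mul_one' (hU.pow k))).mono (le_of_eq (by ring)))
      rwa [add_sub_cancel_right] at h1
  have hS : ∀ k, PowerSeries.coeff (2 * k) (PowerSeries.expand 2 two_ne_zero (1 + T)) =
      PowerSeries.coeff k (1 + T) := fun k => PowerSeries.coeff_expand_mul _ _ _ _
  have hS' : ∀ k, PowerSeries.coeff (2 * (k + 1)) (PowerSeries.expand 2 two_ne_zero (1 + T)) =
      PowerSeries.coeff (k + 1) T := fun k => by
    rw [hS, map_add, PowerSeries.coeff_one, if_neg k.succ_ne_zero, zero_add]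
  have hz : PowerSeries.coeff 0 (PowerSeries.expand 2 two_ne_zero (1 + T)) = 1 := by
    rw [← mul_zero 2, hS, map_add, t0, add_zero, PowerSeries.coeff_one, if_pos rfl]
  refine ⟨PowerSeries.expand 2 two_ne_zero (1 + T), ?_, hz,
    fun k h => PowerSeries.coeff_expand_of_not_dvd _ _ _ h, fun k => ?_, fun k n h => ?_,
    fun k n h => ?_⟩
  · rw [hV, hUd, zs2_eq, zs2_eq, ← map_pow, ← map_mul]
    congr 1
    have h1 : zs q.o.g (U + e) * zs q.o.gi (U + e) = 1 := by
      rw [zs_eq, zs_eq, ← map_mul, ← map_mul, q.o.g_gi, map_one, map_one]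
    linear_combination zs q.o.g (U + e) * ht + zs q.o.g U * h1
  · by_cases h : 2 ∣ k
    · obtain ⟨k, rfl⟩ := h
      rcases k with _ | k
      · rw [mul_zero, hz]
        simp
      · rw [hS']
        exact (hdeg _).trans (le_of_eq (by ring))
    · rw [PowerSeries.coeff_expand_of_not_dvd _ _ _ h]
      simp
  · obtain ⟨k, rfl⟩ := Nat.exists_eq_succ_of_ne_zero (Nat.one_le_iff_ne_zero.1 h)
    rw [hS']
    exact hle _ n
  · obtain ⟨k, rfl⟩ := Nat.exists_eq_succ_of_ne_zero (Nat.one_le_iff_ne_zero.1 h)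
    have e1 : q.del j * q.lam j ^ (2 * (k + 1) - 1) = e * U ^ k := by
      rw [← hed, ← hUd, show 2 * (k + 1) - 1 = 2 * k + 1 by omega]
      ring
    rw [hS', e1]
    exact hlead k (fun i _ => hle i) n

end Geo

end Pool.Agent.Lib.MP_788af2_nt.AG
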