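import Pool.Agent.Lib.MP_788af2_nt.AG.Link
import Pool.Agent.Lib.MP_788af2_nt.AG.SqEx
import Pool.Agent.Lib.MP_788af2_nt.AG.PotA
import Pool.Agent.Lib.MP_788af2_nt.AG.ConG

/-!
Construction of the Dwork data.
-/

set_option linter.unusedSectionVars false

namespace Pool.Agent.Lib.MP_788af2_nt.AG

open Polynomial Filter Topology Pool.Agent.Lib.MP_788af2_nt.AS Pool.Agent.Lib.MP_a3f657_nt.Two

open scoped Classical

variable {K A J Z k κ I : Type} [NontriviallyNormedField K] [IsUltrametricDist K] [CompleteSpace K]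
  [CharZero K] [NormedCommRing A] [NormedAlgebra K A] [IsUltrametricDist A] [CompleteSpace A]
  [NormOneClass A] [Fintype J] [Fintype Z] [DecidableEq J] [DecidableEq Z] [Field k] [Fintype k]
  [CharP k 2] [Field κ] [CharP κ 2] [IsAlgClosed κ] [Fintype I] [DecidableEq I] {δ : I → ℝ}

lemma Lnk.FA_red {q : Geo K J Z} {ℓ : Lift K κ} {b : k[X]} (L : Lnk q ℓ b) {a : k[X]} {d : ℕ}
    (h : a.natDegree ≤ d) (j : J) : Bc (1 / 8) (Pr q.o.θ (L.cf a j) d - 1 -
      2 * Lf ℓ (L.emb j) a - 4 * Lf ℓ (L.emb j) (Sec a d)) := by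
  have h1 := Pr_θ_red2 q.o q.two (L.cf_le a j) (d := d)
  have h2 : Yr (L.cf a j) d = Lf ℓ (L.emb j) a := Yr_eq ℓ (L.emb j) h
  rw [h2] at h1
  have h3 : Bc (1 / 2) (Hr (L.cf a j) d - Lf ℓ (L.emb j) (Sec a d)) := Hr_red ℓ (L.emb j) a d
  have := h1.add ((((bc_two q.two).mul (bc_two q.two)).mul h3).mono (by norm_num))
  convert this using 1
  ring

lemma coeff_two_mul (s : PowerSeries K) (n : ℕ) :
    PowerSeries.coeff n (2 * s) = 2 * PowerSeries.coeff n s := by
  rw [two_mul, map_add, two_mul]

lemma coeff_four_mul (s : PowerSeries K) (n : ℕ) :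
    PowerSeries.coeff n (4 * s) = 4 * PowerSeries.coeff n s := by
  rw [show 4 * s = 2 * (2 * s) by ring, coeff_two_mul, coeff_two_mul]
  ring

theorem exists_con (q : Geo K J Z) (ℓ : Lift K κ) (cb : Cube K I A δ) {a b : k[X]} {β : I → k[X]}
    (L : Lnk q ℓ b) (ha : a.natDegree = q.p.e) (hβ : ∀ i, b ∣ β i)
    (hδ : ∀ i, δ i = (2 * (β i).natDegree + 1) / q.p.l) (hδ' : ∑ i, δ i ≤ 1 / 10) :
    ∃ (d : Dat K A J Z) (h : d.toGeo = q), Nonempty (Con d ℓ cb a b β (h ▸ L)) := by
  have hδ1 : ∀ i, δ i = (dp (β i) : ℝ) / q.p.l := fun i => by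
    rw [hδ, dp]
    push_cast
    rfl
  have hδ2 : ∀ i, δ i ≤ 1 := fun i => by
    have := Finset.single_le_sum (fun i _ => delta_nonneg β hδ1 i) (Finset.mem_univ i)
    linarith
  have he : 1 ≤ q.p.e := q.p.odd.pos
  have hϑ := q.p.half_le_ϑ
  obtain ⟨Wb, hW1, hW2, hW3⟩ := exists_Wb L a
  obtain ⟨κ', ε, hκ⟩ := exists_κ L cb hβ hδ1 a ha.le hW1
  choose Sq hSq using q.exists_sq
  have hc := L.cf_le a
  have FG1 := L.FG_le cb β hδ1 hδ2
  have LG1 := L.LG_le cb β hδ1 hδ2
  have FG0 := fun j => L.PG_zero cb β j fun i => Pr_θ_zero q.o q.two (L.cf_le _ j) (L.cf_zero _ j)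
  have FA1 := fun j => Pr_θ_le q.o q.two (hc j) he
  have FA2 : ∀ j, Bc (1 / 2) (Pr q.o.θ (L.cf a j) q.p.e - 1) := fun j => by
    have h := L.cg ha.le j
    simpa using (h.2.mono (show (1 : ℝ) / 4 ≤ 1 / 2 by norm_num)).add
      ((bc_two q.two).mul_one' h.1)
  have LA1 := fun j => Lr_le q.o q.two (hc j) he
  have LA2 : ∀ j n, ‖PowerSeries.coeff n (Lr q.o.L (L.cf a j) q.p.e) -
      2 * ℓ.τ (L.emb j ((X * derivative a).coeff n))‖ ≤ 1 / 4 := fun j n => by
    have h := L.Lred ha.le j n
    rwa [map_sub, coeff_two_mul, Lf, PowerSeries.coeff_mk] at h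
  have g1 := fun j => q.p.g_le (L.gG_le cb β hδ1 hδ2 j) (Pr_g_le q.o q.two (hc j) he)
  have g2 := fun j => q.p.g_le (L.giG_le cb β hδ1 hδ2 j) (Pr_gi_le q.o q.two (hc j) he)
  have l1 := fun j => q.p.L_le (LG1 j) (LA1 j)
  have e0 : (0 : ℝ) < 2 / q.p.e := div_pos two_pos q.p.a1_e_posR
  have gg : ∀ j, L.PG cb β q.o.g j * PowerSeries.map (algebraMap K A) (Pr q.o.g (L.cf a j) q.p.e) *
      (L.PG cb β q.o.gi j * PowerSeries.map (algebraMap K A) (Pr q.o.gi (L.cf a j) q.p.e)) = 1 :=
    fun j => by rw [mul_mul_mul_comm, L.PG_gi, ← map_mul, Pr_gi q.o q.two (hc j), map_one, mul_one]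
  have lg : ∀ j, 2 * ((L.LG cb β j + PowerSeries.map (algebraMap K A) (Lr q.o.L (L.cf a j) q.p.e)) *
      (L.PG cb β q.o.g j * PowerSeries.map (algebraMap K A) (Pr q.o.g (L.cf a j) q.p.e))) =
      PowerSeries.X * PowerSeries.derivative A (L.PG cb β q.o.g j *
        PowerSeries.map (algebraMap K A) (Pr q.o.g (L.cf a j) q.p.e)) := fun j =>
    L_mul (L.PG_L cb β j) (by
      rw [XD_map, ← Pr_L q.o q.two (hc j), map_mul, map_mul, map_ofNat])
  have lead : ∀ j, ‖ℓ.τ (L.emb j (a.coeff q.p.e))‖ = 1 := fun j => by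
    refine τ_norm ℓ ((_root_.map_ne_zero _).2 ?_)
    rw [← ha]
    refine leadingCoeff_ne_zero.2 fun h => ?_
    rw [h, natDegree_zero] at ha
    omega
  refine ⟨{ toGeo := q
            Sq := Sq
            Ft := fun j => L.PG cb β q.o.θ j *
              PowerSeries.map (algebraMap K A) (Pr q.o.θ (L.cf a j) q.p.e)
            gt := fun j => L.PG cb β q.o.g j *
              PowerSeries.map (algebraMap K A) (Pr q.o.g (L.cf a j) q.p.e)
            git := fun j => L.PG cb β q.o.gi j *
              PowerSeries.map (algebraMap K A) (Pr q.o.gi (L.cf a j) q.p.e)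
            Lt := fun j => L.LG cb β j +
              PowerSeries.map (algebraMap K A) (Lr q.o.L (L.cf a j) q.p.e)
            κ := κ'
            ε := ε
            isSq := hSq
            Ft_g := fun j => ?_
            g_gi := gg
            L_g := lg
            Ft_le := fun j => q.p.F_le (FG1 j) (FA1 j)
            gt_le := g1
            git_le := g2
            Lt_le := l1
            Lt_le' := fun j n => ?_
            Lt_zero := fun j => ?_
            Ft_zero := fun j => ?_
            Ft_e := fun j => ⟨_, lead j, ?_⟩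
            Lt_e := fun j => ⟨_, lead j, ?_⟩
            κ_le := fun z n hn => ?_
            κ_zero := fun z => (hκ z).1.2.1
            κ_D := fun z => ?_
            κ_sq := fun z => (hκ z).2.1
            κ_F := fun z => (hκ z).2.2.1
            ε_sq := fun z => ?_ }, rfl, ⟨?_⟩⟩
  · rw [PowerSeries.subst_mul (PowerSeries.HasSubst.X_pow two_ne_zero), mul_pow, mul_mul_mul_comm,
      L.PG_F, ← map_X_sq (K := K), map_subst' _ (by simp), ← map_pow, ← map_mul, L.cf_σ,
      Pr_F q.o q.two (hc j)]
  · rw [map_add, PowerSeries.coeff_map]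
    refine nadd ((LG1 j n).trans (le_max_right _ _)) (le_trans ?_ (le_max_left _ _))
    rw [norm_algebraMap']
    rcases Nat.eq_zero_or_pos n with rfl | hn
    · rw [Lr_zero q.o q.two (hc j)]
      norm_num
    · refine (LA1 j n).trans ((two_quarter_le (cw_pos he hn)).trans ?_)
      simpa using pow_le_pow_of_le_one (show (0 : ℝ) ≤ 1 / 2 by norm_num) (by norm_num)
        (cw_pos he hn)
  · rw [map_add, L.LG_zero, PowerSeries.coeff_map, Lr_zero q.o q.two (hc j), map_zero, add_zero]
  · have := (FA2 j).map (A := A) 0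
    rw [map_sub, map_one, map_sub, PowerSeries.coeff_zero_one] at this
    rwa [PowerSeries.coeff_zero_eq_constantCoeff_apply, map_mul,
      ← PowerSeries.coeff_zero_eq_constantCoeff_apply, FG0, one_mul,
      ← PowerSeries.coeff_zero_eq_constantCoeff_apply]
  · refine q.p.F_e (FG1 j) (FG0 j) (by simpa using (FA2 j).map (A := A)) ?_
    have := (L.cg ha.le j).2 q.p.e
    rw [map_sub, map_sub, coeff_two_mul, Lf, PowerSeries.coeff_mk, PowerSeries.coeff_one,
      if_neg (by omega), sub_zero] at this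
    rwa [PowerSeries.coeff_map, ← map_sub, norm_algebraMap']
  · have h1 : (X * derivative a).coeff q.p.e = a.coeff q.p.e := by
      obtain ⟨m, hm⟩ := q.p.odd
      have h2 : (2 : k) = 0 := CharP.cast_eq_zero k 2
      rw [hm, coeff_X_mul, coeff_derivative]
      push_cast
      rw [h2]
      ring
    have h3 := LA2 j q.p.e
    rw [h1] at h3
    rw [map_add, PowerSeries.coeff_map, add_sub_assoc, ← map_sub]
    refine nadd (((LG1 j _).trans q.p.e_div_le).trans (by linarith)) ?_
    rw [norm_algebraMap']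
    linarith
  · have := (hκ z).1.1 n
    rwa [map_sub, PowerSeries.coeff_one, if_neg (by omega), sub_zero] at this
  · refine kappa_D (q.β_le z) (Dcy.of_le e0 (B := 1) fun n => (g1 _ n).trans_eq ?_)
      (Dcy.of_le e0 (B := 1) fun n => (g2 _ n).trans_eq ?_)
      (Dcy.of_le e0 (B := 2) fun n => (l1 _ n).trans_eq ?_) (gg _) (lg _) (hκ z).2.1
    · rw [one_mul]
      congr 2
      ring
    · rw [one_mul]
      congr 2
      ring
    · rw [sub_eq_add_neg, Real.rpow_add two_pos, Real.rpow_one]
      congr 3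
      ring
  · rcases (hκ z).2.2.2 with h | h <;> rw [h.1] <;> rfl
  · refine { FA := fun j => Pr q.o.θ (L.cf a j) q.p.e
             FG := L.PG cb β q.o.θ
             LG := L.LG cb β
             A2 := Sec a q.p.e
             Ft_eq := fun j => rfl
             FG_le := FG1
             FG_red := fun j n => ?_
             FA_le := fun j n => (FA1 j n).trans (pow_le_one₀ (by norm_num) (by norm_num))
             FA_le' := fun j k' n h => (FA1 j n).trans
               (pow_le_pow_of_le_one (by norm_num) (by norm_num) (lt_cw he h))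
             FA_red := fun j n => ?_
             A2_deg := Sec_deg a _
             A2_D := Sec_D ha.le
             LG_le := LG1
             LG_red := fun j n => ?_
             LA_red := fun j n => ?_
             LA_le := fun j k' n h => ?_
             κ_one := fun z => (hκ z).1.2.2
             ε_spl := fun z h => ?_
             ε_non := hW3 ε fun z => (hκ z).2.2.2
             ev_F := fun ξ j n => ?_ }
    · have := L.FG_red cb β hδ1 j n
      rwa [map_sub, LfG_coeff] at this
    · have := L.FA_red ha.le j n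
      rwa [map_sub, map_sub, map_sub, coeff_two_mul, coeff_four_mul, Lf, Lf, PowerSeries.coeff_mk,
        PowerSeries.coeff_mk, PowerSeries.coeff_one] at this
    · have := L.LG_red cb β hδ1 j n
      rwa [map_sub, LfG_coeff] at this
    · simp only [map_add, add_sub_cancel_left]
      rw [PowerSeries.coeff_map, ← map_sub, norm_algebraMap']
      exact LA2 j n
    · simp only [map_add, add_sub_cancel_left]
      rw [PowerSeries.coeff_map, norm_algebraMap']
      refine (LA1 j n).trans ?_
      have := pow_le_pow_of_le_one (show (0 : ℝ) ≤ 1 / 4 by norm_num) (by norm_num) (lt_cw he h)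
      rw [pow_succ, pow_mul, show ((1 : ℝ) / 2) ^ 2 = 1 / 4 by norm_num]
      rw [pow_succ] at this
      linarith
    · rcases (hκ z).2.2.2 with h' | h'
      · exact h'.1
      · have := (hW2 z h).symm.trans h'.2
        simp at this
    · have := L.ev_F cb β ha.le ξ j n
      rwa [map_sub, map_sub, coeff_two_mul, Lf, PowerSeries.coeff_mk, PowerSeries.coeff_one,
        PowerSeries.coeff_map] at this

end Pool.Agent.Lib.MP_788af2_nt.AG
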