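import Pool.Agent.Lib.MP_788af2_nt.AG.ConE

/-!
The factors coming from the cube and their reductions.
-/

set_option linter.unusedSectionVars false

namespace Pool.Agent.Lib.MP_788af2_nt.AG

open Polynomial Pool.Agent.Lib.MP_788af2_nt.AS

open scoped Classical

variable {K A J Z k κ I : Type} [NontriviallyNormedField K] [IsUltrametricDist K] [CompleteSpace K]
  [CharZero K] [NormedCommRing A] [NormedAlgebra K A] [IsUltrametricDist A] [CompleteSpace A]
  [NormOneClass A] [Fintype J] [Fintype Z] [DecidableEq J] [DecidableEq Z] [Field k] [Fintype k]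
  [CharP k 2] [Field κ] [CharP κ 2] [IsAlgClosed κ] [Fintype I] [DecidableEq I] {δ : I → ℝ}

/-- The polynomial `t β ^ 2`. -/
noncomputable def Dp (β : k[X]) : k[X] := X * β ^ 2

/-- A bound for its degree. -/
def dp (β : k[X]) : ℕ := 2 * β.natDegree + 1

lemma Dp_deg (β : k[X]) : (Dp β).natDegree ≤ dp β := by
  refine natDegree_mul_le.trans ?_
  have := natDegree_pow_le (p := β) (n := 2)
  have := natDegree_X_le (R := k)
  unfold dp
  omega

lemma dp_pos (β : k[X]) : 1 ≤ dp β := Nat.le_add_left _ _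

lemma Dp_der (β : k[X]) : derivative (Dp β) = β ^ 2 := by
  have h : (2 : k[X]) = 0 := CharP.cast_eq_zero k[X] 2
  rw [Dp, derivative_mul, derivative_X, one_mul, sq, derivative_mul]
  linear_combination (X * derivative β * β) * h

/-- The lift of an element of `k[t][G]`. -/
noncomputable def LfG (ℓ : Lift K κ) (cb : Cube K I A δ) (e : k →+* κ) (u : G I → k[X]) :
    PowerSeries A :=
  ∑ g, PowerSeries.C (cb.γ g) * PowerSeries.map (algebraMap K A) (Lf ℓ e (u g))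

lemma LfG_coeff (ℓ : Lift K κ) (cb : Cube K I A δ) (e : k →+* κ) (u : G I → k[X]) (n : ℕ) :
    PowerSeries.coeff n (LfG ℓ cb e u) = lf ℓ cb e fun g => (u g).coeff n := by
  rw [LfG, map_sum, lf]
  refine Finset.sum_congr rfl fun g _ => ?_
  rw [PowerSeries.coeff_C_mul, PowerSeries.coeff_map, Lf, PowerSeries.coeff_mk, mul_comm,
    Algebra.smul_def]

variable {q : Geo K J Z} {ℓ : Lift K κ} {b : k[X]} (L : Lnk q ℓ b) (cb : Cube K I A δ)
  (β : I → k[X])

lemma Lnk.cf_zero (p : k[X]) (j : J) : L.cf (Dp p) j 0 = 0 := by simp [Lnk.cf, Dp]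

lemma Lnk.cg {p : k[X]} {d : ℕ} (h : p.natDegree ≤ d) (j : J) :
    Cg (Pr q.o.θ (L.cf p j) d) (Lf ℓ (L.emb j) p) := by
  refine ⟨Lf_le _ _ _, ?_⟩
  rw [← Yr_eq ℓ (L.emb j) h]
  exact Pr_θ_red q.o q.two (L.cf_le p j)

lemma Lnk.Lred {p : k[X]} {d : ℕ} (h : p.natDegree ≤ d) (j : J) :
    Bc (1 / 4) (Lr q.o.L (L.cf p j) d - 2 * Lf ℓ (L.emb j) (X * derivative p)) := by
  have h1 := Lr_red q.o q.two (L.cf_le p j) (d := d)
  have h2 : Yr (L.cf p j) d = Lf ℓ (L.emb j) p := Yr_eq ℓ (L.emb j) h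
  rw [h2] at h1
  have h3 := (bc_two q.two).mul (Lf_XD ℓ (L.emb j) p)
  have := (h1.mono (show (1 : ℝ) / 8 ≤ 1 / 4 by norm_num)).sub (h3.mono (by norm_num))
  convert this using 1
  ring

/-- The product over the cube. -/
noncomputable def Lnk.PG (h : PowerSeries K) (j : J) : PowerSeries A :=
  ∏ i, Twi (cb.e i) (Pr h (L.cf (Dp (β i)) j) (dp (β i)))

/-- The connection coming from the cube. -/
noncomputable def Lnk.LG (j : J) : PowerSeries A := ∑ i, PowerSeries.C (cb.e i) *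
  PowerSeries.map (algebraMap K A) (Lr q.o.L (L.cf (Dp (β i)) j) (dp (β i)))

lemma map_X_sq : PowerSeries.map (algebraMap K A) (PowerSeries.X ^ 2) =
    (PowerSeries.X ^ 2 : PowerSeries A) := by simp

lemma subst_prod' {ι : Type} (T : Finset ι) (f : ι → PowerSeries A) {p : PowerSeries A}
    (hp : PowerSeries.HasSubst p) : (∏ i ∈ T, f i).subst p = ∏ i ∈ T, (f i).subst p := by
  rw [← PowerSeries.coe_substAlgHom hp, map_prod]

lemma Lnk.PG_F (j : J) : L.PG cb β q.o.θ j ^ 2 *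
    (L.PG cb β q.o.g (q.σ j)).subst (PowerSeries.X ^ 2 : PowerSeries A) = L.PG cb β q.o.g j := by
  rw [Lnk.PG, Lnk.PG, Lnk.PG, subst_prod' _ _ (PowerSeries.HasSubst.X_pow two_ne_zero),
    ← Finset.prod_pow, ← Finset.prod_mul_distrib]
  refine Finset.prod_congr rfl fun i _ => ?_
  rw [← map_X_sq (K := K), Twi_subst _ (by simp), ← Twi_sq (cb.e_idem i), ← Twi_mul (cb.e_idem i),
    L.cf_σ, Pr_F q.o q.two (L.cf_le _ j)]

lemma Lnk.PG_gi (j : J) : L.PG cb β q.o.g j * L.PG cb β q.o.gi j = 1 := by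
  rw [Lnk.PG, Lnk.PG, ← Finset.prod_mul_distrib]
  refine Finset.prod_eq_one fun i _ => ?_
  rw [← Twi_mul (cb.e_idem i), Pr_gi q.o q.two (L.cf_le _ j), Twi_one]

lemma Lnk.PG_L (j : J) : 2 * (L.LG cb β j * L.PG cb β q.o.g j) =
    PowerSeries.X * PowerSeries.derivative A (L.PG cb β q.o.g j) :=
  L_prod _ fun i => Twi_L (cb.e_idem i) (Pr_L q.o q.two (L.cf_le _ j))

lemma Lnk.PG_zero {h : PowerSeries K} (j : J)
    (h0 : ∀ i, PowerSeries.coeff 0 (Pr h (L.cf (Dp (β i)) j) (dp (β i))) = 1) :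
    PowerSeries.coeff 0 (L.PG cb β h j) = 1 := by
  rw [Lnk.PG, PowerSeries.coeff_zero_eq_constantCoeff_apply, map_prod]
  refine Finset.prod_eq_one fun i _ => ?_
  rw [← PowerSeries.coeff_zero_eq_constantCoeff_apply, Twi_zero (h0 i)]

lemma Lnk.LG_zero (j : J) : PowerSeries.coeff 0 (L.LG cb β j) = 0 := by
  rw [Lnk.LG, map_sum]
  refine Finset.sum_eq_zero fun i _ => ?_
  rw [PowerSeries.coeff_C_mul, PowerSeries.coeff_map, Lr_zero q.o q.two (L.cf_le _ j), map_zero,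
    mul_zero]

lemma Lnk.ev_PG (ξ : G I) (j : J) : Cg (PowerSeries.map (cb.ev ξ : A →+* K) (L.PG cb β q.o.θ j))
    (∑ i, Lf ℓ (L.emb j) (if ξ i = 0 then 0 else Dp (β i))) := by
  rw [Lnk.PG, map_prod]
  refine Cg.prod q.two _ fun i => ?_
  rw [cb.ev_Twi]
  split_ifs
  · rw [Lf_zero]
    exact Cg.one
  · exact L.cg (Dp_deg _) j

lemma comb_sq (ξ : G I) : X * comb β ξ ^ 2 = ∑ i, if ξ i = 0 then 0 else Dp (β i) := by
  rw [comb, sum_pow_char, Finset.mul_sum]
  refine Finset.sum_congr rfl fun i _ => ?_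
  split_ifs with h
  · simp [h]
  · have h' : ∀ x : Fin 2, ¬ x = 0 → x = 1 := by decide
    have : ξ i = 1 := h' (ξ i) h
    simp [this, Dp]

lemma Lnk.ev_F {a : k[X]} {d : ℕ} (h : a.natDegree ≤ d) (ξ : G I) (j : J) :
    Bc (1 / 4) (PowerSeries.map (cb.ev ξ : A →+* K) (L.PG cb β q.o.θ j *
      PowerSeries.map (algebraMap K A) (Pr q.o.θ (L.cf a j) d)) - 1 -
        2 * Lf ℓ (L.emb j) (a + X * comb β ξ ^ 2)) := by
  rw [map_mul, cb.ev_map, comb_sq]
  have h1 := ((L.ev_PG cb β ξ j).mul q.two (L.cg h j)).2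
  have h2 := (bc_two q.two).mul ((Lf_add ℓ (L.emb j) a
    (∑ i, if ξ i = 0 then 0 else Dp (β i))).add
      (Lf_sum ℓ (L.emb j) Finset.univ fun i => if ξ i = 0 then 0 else Dp (β i)))
  have := h1.sub (h2.mono (by norm_num))
  convert this using 1
  ring

variable (hδ : ∀ i, δ i = (dp (β i) : ℝ) / q.p.l) (h1 : ∀ i, δ i ≤ 1)
include hδ

lemma delta_nonneg (i : I) : 0 ≤ δ i := by
  rw [hδ]
  positivity

lemma Lnk.FG_red (j : J) : Bc (1 / 2) (L.PG cb β q.o.θ j - LfG ℓ cb (L.emb j) (pG β)) := by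
  set y : I → PowerSeries A := fun i =>
    PowerSeries.map (algebraMap K A) (Lf ℓ (L.emb j) (Dp (β i))) with hy
  have y1 : ∀ i, Bc 1 (y i) := fun i => (Lf_le ℓ _ _).map
  have b1 : ∀ i, Bc 1 (1 + y i + PowerSeries.C (cb.γ (Pi.single i 1)) * y i) := fun i =>
    (Bc.one.add (y1 i)).add ((Bc.const (cb.γ_le _)).mul_one' (y1 i))
  have b2 : ∀ i, Bc (1 / 2) (Twi (cb.e i) (Pr q.o.θ (L.cf (Dp (β i)) j) (dp (β i))) -
      (1 + y i + PowerSeries.C (cb.γ (Pi.single i 1)) * y i)) := fun i => by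
    have := cb.e_red q.two i (delta_nonneg β hδ i) (Lf_le ℓ (L.emb j) (Dp (β i)))
      (L.cg (Dp_deg (β i)) j).2
    convert this using 1
    rw [Twi, map_sub, map_one]
    ring
  have b3 := Bc.prod_sub Finset.univ (by norm_num)
    (fun i _ => by simpa using ((b2 i).mono (show (1 : ℝ) / 2 ≤ 1 by norm_num)).add (b1 i))
    (fun i _ => b1 i) fun i _ => b2 i
  rw [cb.prod_eq] at b3
  have b4 : Bc (1 / 2) (∑ g : G I, PowerSeries.C (cb.γ g) * (∏ i, if g i = 0 then 1 + y i else y i)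
      - LfG ℓ cb (L.emb j) (pG β)) := by
    rw [LfG, ← Finset.sum_sub_distrib]
    refine Bc.sum _ (by norm_num) fun g _ => ?_
    rw [← mul_sub]
    refine (Bc.const (cb.γ_le _)).one_mul' ?_
    have c1 := (Lf_prod ℓ (L.emb j) Finset.univ
      fun i => if g i = 0 then 1 + X * β i ^ 2 else X * β i ^ 2).map (A := A)
    rw [map_sub, map_prod] at c1
    have c2 : Bc (1 / 2) (∏ i, PowerSeries.map (algebraMap K A) (Lf ℓ (L.emb j)
        (if g i = 0 then 1 + X * β i ^ 2 else X * β i ^ 2)) -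
          ∏ i, if g i = 0 then 1 + y i else y i) := by
      refine Bc.prod_sub _ (by norm_num) (fun i _ => (Lf_le ℓ _ _).map) (fun i _ => ?_)
        fun i _ => ?_
      · split_ifs
        exacts [Bc.one.add (y1 i), y1 i]
      · split_ifs
        · have := (Lf_add ℓ (L.emb j) 1 (Dp (β i))).map (A := A)
          rwa [Lf_one, map_sub, map_add, map_one] at this
        · simpa [hy, Dp] using Bc.zero (A := A) (show (0 : ℝ) ≤ 2⁻¹ by norm_num)
    have := (c1.add c2).neg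
    convert this using 1
    rw [pG]
    ring
  have := b3.add b4
  rwa [sub_add_sub_cancel] at this

lemma Lnk.LG_red (j : J) : Bc (1 / 2) (L.LG cb β j - LfG ℓ cb (L.emb j) (lG β)) := by
  set y : I → PowerSeries A := fun i =>
    PowerSeries.map (algebraMap K A) (Lf ℓ (L.emb j) (X * derivative (Dp (β i)))) with hy
  have b1 : Bc (1 / 2) (L.LG cb β j -
      ∑ i, (y i + PowerSeries.C (cb.γ (Pi.single i 1)) * y i)) := by
    rw [Lnk.LG, ← Finset.sum_sub_distrib]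
    exact Bc.sum _ (by norm_num) fun i _ => cb.e_red q.two i (delta_nonneg β hδ i) (Lf_le ℓ _ _)
      (L.Lred (Dp_deg (β i)) j)
  have b2 : ∑ i, (y i + PowerSeries.C (cb.γ (Pi.single i 1)) * y i) = ∑ g : G I,
      PowerSeries.C (cb.γ g) * ∑ i, if g = 0 ∨ g = Pi.single i 1 then y i else 0 := by
    simp only [Finset.mul_sum]
    rw [Finset.sum_comm]
    refine Finset.sum_congr rfl fun i _ => ?_
    have hne : (0 : G I) ≠ Pi.single i 1 := fun h => by simpa using congrFun h i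
    rw [← Finset.sum_subset (Finset.subset_univ {0, Pi.single i 1}) fun g _ hg => by
      rw [if_neg (by simpa using hg), mul_zero], Finset.sum_pair hne]
    simp [cb.γ_zero]
  have b3 : Bc (1 / 2) (∑ g : G I, PowerSeries.C (cb.γ g) *
      (∑ i, if g = 0 ∨ g = Pi.single i 1 then y i else 0) - LfG ℓ cb (L.emb j) (lG β)) := by
    rw [LfG, ← Finset.sum_sub_distrib]
    refine Bc.sum _ (by norm_num) fun g _ => ?_
    rw [← mul_sub]
    refine (Bc.const (cb.γ_le _)).one_mul' ?_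
    have c1 := ((Lf_sum ℓ (L.emb j) Finset.univ fun i =>
      if g = 0 ∨ g = Pi.single i 1 then X * derivative (X * β i ^ 2) else 0).map (A := A)).neg
    rw [map_sub, map_sum, neg_sub] at c1
    convert c1 using 3 with i
    · split_ifs
      · rfl
      · rw [Lf_zero, map_zero]
    · rw [lG]
  rw [b2] at b1
  have := b1.add b3
  rwa [sub_add_sub_cancel] at this

include h1

lemma Lnk.PG_le {h : PowerSeries K} (j : J)
    (h0 : ∀ i, PowerSeries.coeff 0 (Pr h (L.cf (Dp (β i)) j) (dp (β i))) = 1)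
    (hs : ∀ i N, ‖PowerSeries.coeff N (Pr h (L.cf (Dp (β i)) j) (dp (β i)))‖ ≤
      (1 / 2) ^ cw (dp (β i)) N) : Bw (fun n => n / q.p.l) (L.PG cb β h j) :=
  Bw.prod _ fun i _ => cb.Twi_le q.two i (dp_pos _) q.p.l_pos (hδ i) (h1 i) (h0 i) (hs i)

lemma Lnk.FG_le (j : J) : Bw (fun n => n / q.p.l) (L.PG cb β q.o.θ j) :=
  L.PG_le cb β hδ h1 j (fun _ => Pr_θ_zero q.o q.two (L.cf_le _ j) (L.cf_zero _ j))
    fun _ N => Pr_θ_le q.o q.two (L.cf_le _ j) (dp_pos _) N

lemma Lnk.gG_le (j : J) : Bw (fun n => n / q.p.l) (L.PG cb β q.o.g j) :=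
  L.PG_le cb β hδ h1 j (fun _ => Pr_g_zero q.o q.two (L.cf_le _ j) (L.cf_zero _ j))
    fun _ N => (Pr_g_le q.o q.two (L.cf_le _ j) (dp_pos _) N).trans (quarter_le _)

lemma Lnk.giG_le (j : J) : Bw (fun n => n / q.p.l) (L.PG cb β q.o.gi j) :=
  L.PG_le cb β hδ h1 j (fun _ => Pr_gi_zero q.o q.two (L.cf_le _ j) (L.cf_zero _ j))
    fun _ N => (Pr_gi_le q.o q.two (L.cf_le _ j) (dp_pos _) N).trans (quarter_le _)

lemma Lnk.LG_le (j : J) : Bw (fun n => n / q.p.l) (L.LG cb β j) :=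
  Bw.sum _ fun i _ => cb.L_le q.two i (dp_pos _) q.p.l_pos (hδ i) (h1 i)
    (Lr_zero q.o q.two (L.cf_le _ j)) (Lr_le q.o q.two (L.cf_le _ j) (dp_pos _))

end Pool.Agent.Lib.MP_788af2_nt.AG
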