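import Pool.Agent.Lib.MP_788af2_nt.AG.OneB

/-!
The splitting series at the prime two and the period sequence.
-/

set_option linter.unusedSectionVars false

namespace Pool.Agent.Lib.MP_788af2_nt.AG

open PowerSeries

/-- The one variable data. -/
structure One (K : Type) [NontriviallyNormedField K] where
  /-- The splitting series. -/
  θ : K⟦X⟧
  /-- The square of `G`. -/
  g : K⟦X⟧
  /-- The inverse of `g`. -/
  gi : K⟦X⟧
  /-- The logarithmic derivative of `G`. -/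
  L : K⟦X⟧
  /-- The analogue of the exponential. -/
  G : K⟦X⟧
  /-- The inverse of `G`. -/
  Gi : K⟦X⟧
  /-- The periods. -/
  I : ℕ → K
  θ_g : θ ^ 2 * g.subst (X ^ 2 : K⟦X⟧) = g
  g_gi : g * gi = 1
  L_g : 2 * (L * g) = X * derivative K g
  L_G : L * G = X * derivative K G
  G_sq : G ^ 2 = g
  G_Gi : G * Gi = 1
  θ_G : θ * G.subst (X ^ 2 : K⟦X⟧) = G
  θ_le : ∀ n, ‖coeff n θ‖ ≤ (1 / 2) ^ n
  θ_zero : coeff 0 θ = 1
  θ_one : coeff 1 θ = 2
  θ_two : ‖coeff 2 θ - 4‖ ≤ 1 / 8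
  g_le : ∀ n, ‖coeff n g‖ ≤ (1 / 4) ^ n
  g_zero : coeff 0 g = 1
  g_one : coeff 1 g = 4
  gi_le : ∀ n, ‖coeff n gi‖ ≤ (1 / 4) ^ n
  L_le : ∀ n, ‖coeff n L‖ ≤ 2 * (1 / 4) ^ n
  L_zero : coeff 0 L = 0
  L_one : coeff 1 L = 2
  G_zero : coeff 0 G = 1
  G_le : ∀ n, 1 ≤ n → ‖coeff n G‖ ≤ 1 / 2
  Gi_le : ∀ n, ‖coeff n Gi‖ ≤ 1
  I_zero : I 0 = 0
  I_D : ∀ j : ℕ, 1 ≤ j → j * I j + ∑' k, coeff k L * I (j + k) = 0
  I_L : ∑' k, coeff k L * I k = 1
  I_θ : ∀ j : ℕ, 1 ≤ j → ∑' k, (if j ≤ 2 * k then coeff (2 * k - j) θ * I k else 0) = 2 * I j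
  I_one : ‖2 * I 1 - 1‖ ≤ 1 / 2
  I_le : ∀ k, ‖I k‖ ≤ 2 ^ k
  I_le' : ∀ k : ℕ, ‖I k‖ ≤ 2 ^ ((k : ℝ) / 8 + 4)

lemma one_iter {K : Type} [NontriviallyNormedField K] [IsUltrametricDist K]
    (h2 : ‖(2 : K)‖ = 1 / 2) {t : K⟦X⟧} (ht : ∀ n, ‖coeff n t‖ ≤ (1 / 2) ^ n) {I : ℕ → K}
    (h0 : I 0 = 0) (h : ∀ j : ℕ, 1 ≤ j →
      ∑' k, (if j ≤ 2 * k then coeff (2 * k - j) t * I k else 0) = 2 * I j) {s c : ℝ}
    (hs : s ≤ 2) (hI : ∀ k : ℕ, ‖I k‖ ≤ 2 ^ (s * k + c)) (j : ℕ) :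
    ‖I j‖ ≤ 2 ^ (s / 2 * j + (c + 1)) := by
  rcases Nat.eq_zero_or_pos j with rfl | hj
  · rw [h0, norm_zero]
    positivity
  have h1 : ‖2 * I j‖ ≤ 2 ^ (s / 2 * j + c) := by
    rw [← h j hj]
    refine IsUltrametricDist.norm_tsum_le_of_forall_le fun k => ?_
    split_ifs with hk
    · obtain ⟨m, hm⟩ := Nat.exists_eq_add_of_le hk
      have e : (2 : ℝ) * k = j + m := by exact_mod_cast hm
      rw [hm, Nat.add_sub_cancel_left, norm_mul]
      refine (mul_le_mul (ht m) (hI k) (norm_nonneg _) (by positivity)).trans ?_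
      rw [one_div, inv_pow, ← Real.rpow_natCast, ← Real.rpow_neg zero_le_two,
        ← Real.rpow_add two_pos]
      refine Real.rpow_le_rpow_of_exponent_le one_le_two ?_
      have h3 : 0 ≤ (2 - s) * m := mul_nonneg (by linarith) (Nat.cast_nonneg m)
      have h4 : s * k = s / 2 * (j + m) := by rw [← e]; ring
      rw [h4]
      linarith
    · rw [norm_zero]
      positivity
  rw [norm_mul, h2] at h1
  rw [← add_assoc, Real.rpow_add_one two_ne_zero]
  linarith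

theorem exists_one (K : Type) [NontriviallyNormedField K] [IsUltrametricDist K] [CompleteSpace K]
    [CharZero K] (h2 : ‖(2 : K)‖ = 1 / 2) : Nonempty (One K) := by
  obtain ⟨T, l, hT, l0, l1, t1, t2, hE, hl, hTi⟩ := oa_theta h2
  have n4 : ‖(-4 : K)‖ = 1 / 4 := by
    rw [norm_neg, show (4 : K) = 2 * 2 by norm_num, norm_mul, h2]
    norm_num
  obtain ⟨L, hLc⟩ : ∃ L : K⟦X⟧, ∀ n, coeff n L = -(1 / 2) * ((-4) ^ n * coeff n l) :=
    ⟨mk _, fun n => coeff_mk n _⟩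
  have hLm : L + L = rescale (-4) (-l) := by
    ext n
    rw [map_add, hLc, coeff_rescale, map_neg]
    ring
  have L0 : coeff 0 L = 0 := by rw [hLc, l0]; ring
  have L1 : coeff 1 L = 2 := by rw [hLc, l1]; ring
  have hL : ∀ n, ‖coeff n L‖ ≤ 2 * (1 / 4) ^ n := fun n => by
    rw [hLc, norm_mul, norm_mul, norm_neg, norm_div, norm_one, h2, norm_pow, n4]
    have := mul_le_of_le_one_right (show (0 : ℝ) ≤ (1 / 4) ^ n by positivity) (hl n)
    linarith
  have hr : rescale 2 l = L - 2 * e2 L := by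
    have h3 := congrArg (rescale (2 : K)) hE
    rw [map_add, map_mul, map_mul, oa_resc_e2, rescale_rescale, rescale_rescale, map_ofNat,
      show (-2 : K) * 2 = -4 by norm_num, show (-1 : K) * 2 ^ 2 = -4 by norm_num,
      show rescale (-4 : K) l = -(L + L) by rw [hLm, map_neg, neg_neg], map_neg, map_add] at h3
    refine mul_left_cancel₀ (a := (2 : K⟦X⟧)) (fun h => two_ne_zero (α := K) ?_) ?_
    · simpa [map_ofNat] using congrArg constantCoeff h
    linear_combination h3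
  obtain ⟨G, hG⟩ := LD.ex L0
  obtain ⟨Gi, hGi⟩ := LD.ex (l := -L) (by rw [map_neg, L0, neg_zero])
  obtain ⟨Ti, hTi'⟩ := LD.ex (l := -l) (by rw [map_neg, l0, neg_zero])
  have z0 : coeff 0 (0 : K⟦X⟧) = 0 := map_zero _
  have a1 : T * Ti = 1 := LD.uniq z0 (by simpa using hT.mul hTi') LD.one
  have a2 : G * Gi = 1 := LD.uniq z0 (by simpa using hG.mul hGi) LD.one
  have a3 : G * G = rescale (-4) Ti :=
    LD.uniq (by rw [map_add, L0, add_zero]) (hG.mul hG) (hLm ▸ hTi'.rescale _)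
  have hθ : LD (rescale 2 T) (L - 2 * e2 L) := hr ▸ hT.rescale 2
  have a4 : rescale 2 T * e2 G = G := LD.uniq L0 (by simpa using hθ.mul hG.e2) hG
  have b1 : ∀ f : K⟦X⟧, (∀ n, ‖coeff n f‖ ≤ 1) →
      ∀ n, ‖coeff n (rescale (-4) f)‖ ≤ (1 / 4) ^ n := fun f hf n => by
    rw [coeff_rescale, norm_mul, norm_pow, n4]
    exact mul_le_of_le_one_right (by positivity) (hf n)
  have b2 := b1 Ti (oa_inv a1 hT.1 hTi'.1 hTi)
  rw [← a3] at b2
  have b3 : ∀ n, ‖coeff n (rescale 2 T)‖ ≤ (1 / 2) ^ n := fun n => by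
    rw [coeff_rescale, norm_mul, norm_pow, h2]
    exact mul_le_of_le_one_right (by positivity) (hTi n)
  have b4 := oa_sqrt h2 rfl hG.1 fun n hn => (b2 n).trans (by
    obtain ⟨m, rfl⟩ := Nat.exists_eq_add_of_le hn
    rw [pow_add, pow_one]
    exact mul_le_of_le_one_right (by norm_num) (pow_le_one₀ (by norm_num) (by norm_num)))
  obtain ⟨I, i1, i0, i2, i3⟩ := ob_ex h2 hL L0 L1
  have i4 : ∀ j : ℕ, 1 ≤ j → ∑' k, (if j ≤ 2 * k then coeff (2 * k - j) (rescale 2 T) * I k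
      else 0) = 2 * I j := fun j hj => by
    rw [ob_S_tsum, ob_theta h2 hL L0 L1 b3 hθ i1 i3 j hj]
  refine ⟨{
    θ := rescale 2 T, g := G * G, gi := rescale (-4) T, L := L, G := G, Gi := Gi, I := I
    θ_g := ?_, g_gi := ?_, L_g := ?_, L_G := hG.2.symm, G_sq := sq G, G_Gi := a2, θ_G := ?_
    θ_le := b3, θ_zero := hθ.1, θ_one := ?_, θ_two := ?_, g_le := b2, g_zero := (hG.mul hG).1
    g_one := ?_, gi_le := b1 T hTi, L_le := hL, L_zero := L0, L_one := L1, G_zero := hG.1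
    G_le := b4, Gi_le := ?_, I_zero := i0, I_D := ?_, I_L := ?_, I_θ := i4, I_one := i2
    I_le := i1, I_le' := ?_ }⟩
  · rw [← expand_apply 2 two_ne_zero, map_mul]
    linear_combination (rescale 2 T * e2 G + G) * a4
  · rw [a3, ← map_mul, mul_comm, a1, map_one]
  · linear_combination -(hG.mul hG).2
  · rw [← expand_apply 2 two_ne_zero, a4]
  · rw [coeff_rescale, t1]
    ring
  · have h3 : ‖(3 : K)‖ = 1 := by exact_mod_cast oa_odd h2 (a := 3) (by decide)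
    have h4 : 3 * (coeff 2 (rescale 2 T) - 4) = -(2 * 2 * 2) := by
      rw [coeff_rescale]
      linear_combination 4 * t2
    have h5 := congrArg norm h4
    rw [norm_mul, h3, one_mul, norm_neg, norm_mul, norm_mul, h2] at h5
    exact h5.le.trans (by norm_num)
  · have h3 := congrArg (coeff 1) (hG.mul hG).2
    rw [oa_coeff, oa_mul (L + L) _ (by rw [map_add, L0, add_zero]), Fin.sum_univ_one, Fin.val_zero,
      (hG.mul hG).1, Nat.sub_zero, map_add, L1] at h3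
    push_cast at h3
    linear_combination h3
  · refine oa_inv a2 hG.1 hGi.1 fun n => ?_
    rcases Nat.eq_zero_or_pos n with rfl | hn
    · rw [hG.1, norm_one]
    · exact (b4 n hn).trans (by norm_num)
  · intro j hj
    have := i3 j
    rwa [if_neg (by omega)] at this
  · have := i3 0
    simpa [act] using this
  · intro k
    have c0 : ∀ k : ℕ, ‖I k‖ ≤ 2 ^ ((1 : ℝ) * k + 0) := fun k => by simpa using i1 k
    have c1 := one_iter h2 b3 i0 i4 (by norm_num) c0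
    have c2 := one_iter h2 b3 i0 i4 (by norm_num) c1
    refine (one_iter h2 b3 i0 i4 (by norm_num) c2 k).trans
      (Real.rpow_le_rpow_of_exponent_le one_le_two ?_)
    linarith

end Pool.Agent.Lib.MP_788af2_nt.AG
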