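import Pool.Agent.Lib.MP_788af2_nt.AG.Pot
import Pool.Agent.Lib.MP_788af2_nt.AG.One

/-!
Arrays in two variables and the data of the Dwork complex.
-/

set_option linter.unusedSectionVars false

namespace Pool.Agent.Lib.MP_788af2_nt.AG

open Polynomial

/-- Formal series `∑ a (n, k) t ^ n x ^ k`. -/
abbrev Arr (A : Type) : Type := ℤ × ℤ → A

section arr

variable {A : Type} [NormedCommRing A]

/-- The product. -/
noncomputable def conv (a b : Arr A) : Arr A := fun u => ∑' v, a v * b (u - v)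

/-- The substitution `t ↦ t ^ 2`, `x ↦ x ^ 2`. -/
def phi (x : Arr A) : Arr A := fun u => if 2 ∣ u.1 ∧ 2 ∣ u.2 then x (u.1 / 2, u.2 / 2) else 0

/-- The operator `ψ`. -/
def psi (x : Arr A) : Arr A := fun u => x (2 * u.1, 2 * u.2)

/-- `t d/dt`. -/
def dt (x : Arr A) : Arr A := fun u => u.1 • x u

/-- `x d/dx`. -/
def dx (x : Arr A) : Arr A := fun u => u.2 • x u

/-- The unit. -/
def one : Arr A := fun u => if u = 0 then 1 else 0

/-- Series in `t`. -/
noncomputable def Tm (s : PowerSeries A) : Arr A := fun u =>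
  if 0 ≤ u.1 ∧ u.2 = 0 then PowerSeries.coeff u.1.toNat s else 0

/-- Decaying arrays. -/
def Dec (p : Pm) (a : Arr A) : Prop := (∀ u : ℤ × ℤ, u.1 < 0 → a u = 0) ∧ ∃ C : ℝ, ∀ u : ℤ × ℤ,
  ‖a u‖ ≤ C * 2 ^ (-(3 / 10 * ((u.1 : ℝ) / p.e) + 2 / 5 * ((|u.2| : ℤ) : ℝ)))

/-- Arrays of moderate growth. -/
def Mod (p : Pm) (x : Arr A) : Prop := ∃ C : ℝ, ∀ u : ℤ × ℤ,
  ‖x u‖ ≤ C * 2 ^ (-(13 / 50 * ((u.1 : ℝ) / p.e)) + 3 / 10 * ((|u.2| : ℤ) : ℝ))

/-- The index set of the exponents with `s ≤ n`. -/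
abbrev Ex (s : ℤ) : Type := {u : ℤ × ℤ // s ≤ u.1}

variable {J : Type} [DecidableEq J]

/-- The matrix of `ψ ∘ F`. -/
def opm (s : ℤ) (σ : J → J) (F : J → Arr A) (r c : J × Ex s) : A :=
  if r.1 = σ c.1 then F c.1 (2 * r.2.1.1 - c.2.1.1, 2 * r.2.1.2 - c.2.1.2) else 0

/-- An array as a row vector on the component `j`. -/
def row (s : ℤ) (j : J) (x : Arr A) (r : J × Ex s) : A := if r.1 = j then x (-r.2.1) else 0

/-- An array as a column vector on the component `j`. -/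
def col (s : ℤ) (j : J) (x : Arr A) (r : J × Ex s) : A := if r.1 = j then x r.2.1 else 0

variable {K : Type} [NontriviallyNormedField K] [NormedAlgebra K A]

variable (A) in
/-- Series in `x`. -/
noncomputable def Xp (h : PowerSeries K) : Arr A := fun u =>
  if u.1 = 0 ∧ 0 ≤ u.2 then algebraMap K A (PowerSeries.coeff u.2.toNat h) else 0

variable (A) in
/-- Series in `1 / x` with polynomial coefficients. -/
noncomputable def Zm (h : PowerSeries K[X]) : Arr A := fun u =>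
  if 0 ≤ u.1 ∧ u.2 ≤ 0 then
    algebraMap K A ((PowerSeries.coeff (-u.2).toNat h).coeff u.1.toNat) else 0

/-- `h (μ Y)`. -/
noncomputable def zs (h : PowerSeries K) (μ : K[X]) : PowerSeries K[X] :=
  PowerSeries.mk fun k => C (PowerSeries.coeff k h) * μ ^ k

/-- `h (μ Y ^ 2)`. -/
noncomputable def zs2 (h : PowerSeries K) (μ : K[X]) : PowerSeries K[X] :=
  PowerSeries.mk fun k => if 2 ∣ k then C (PowerSeries.coeff (k / 2) h) * μ ^ (k / 2) else 0

/-- The Taylor expansion at `β`. -/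
noncomputable def Tay (β : K) (s : PowerSeries A) : PowerSeries A :=
  PowerSeries.mk fun n => ∑' k, ((k.choose n : K) * β ^ (k - n)) • PowerSeries.coeff k s

end arr

/-- The potentials on the index set. -/
noncomputable def Pm.Vi (p : Pm) {J : Type} (r : J × Ex 1) : ℝ := p.V r.2.1.1 r.2.1.2

/-- The potentials on the index set. -/
noncomputable def Pm.Ui (p : Pm) {J : Type} (r : J × Ex 1) : ℝ := p.U r.2.1.1 r.2.1.2

/-- The Newton weight on the index set. -/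
noncomputable def Pm.wi (p : Pm) {J : Type} {s : ℤ} (r : J × Ex s) : ℝ := p.w r.2.1.1 r.2.1.2

/-- The index `(j, e, 0)`. -/
def Pm.Ei (p : Pm) {J : Type} (j : J) : J × Ex 1 :=
  (j, ⟨((p.e : ℤ), 0), by have := p.odd.pos; simp only; omega⟩)

/-- The lifted roots. -/
structure Geo (K J Z : Type) [NontriviallyNormedField K] [Fintype Z] [DecidableEq J] where
  /-- The numerical parameters. -/
  p : Pm
  /-- The one variable data. -/
  o : One K
  /-- Frobenius on the components. -/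
  σ : Equiv.Perm J
  /-- Frobenius on the roots. -/
  σZ : Equiv.Perm Z
  /-- The component of a root. -/
  jz : Z → J
  /-- The lifted root. -/
  β : Z → K
  /-- The multiplicity. -/
  n : Z → ℕ
  /-- The Frobenius power. -/
  i : ℕ
  /-- The leading coefficient. -/
  u : J → K
  u_norm : ∀ j, ‖u j‖ = 1
  u_σ : ∀ j, u (σ j) = u j ^ 2
  two : ‖(2 : K)‖ = 1 / 2
  jz_σ : ∀ z, jz (σZ z) = σ (jz z)
  β_σ : ∀ z, β (σZ z) = β z ^ 2
  β_le : ∀ z, ‖β z‖ ≤ 1
  β_sep : ∀ z z', z ≠ z' → jz z = jz z' → ‖β z - β z'‖ = 1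
  n_pos : ∀ z, 0 < n z
  n_σ : ∀ z, n (σZ z) = n z
  deg : ∀ j, ∑ z ∈ Finset.univ.filter (fun z => jz z = j), 2 ^ (i + 1) * n z = 2 * p.m
  i_ge : 2 ≤ i

namespace Geo

variable {K J Z : Type} [NontriviallyNormedField K] [Fintype Z] [DecidableEq J] [DecidableEq Z]
  (q : Geo K J Z)

/-- The order of `λ` at a root. -/
def c (z : Z) : ℕ := 2 ^ (q.i + 1) * q.n z

/-- The common power of two. -/
def c0 : K := 2 ^ (q.i + 1)

/-- The lift of `s ^ 2`. -/
noncomputable def lam (j : J) : K[X] :=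
  C (q.u j) * ∏ z ∈ Finset.univ.filter (fun z => q.jz z = j), (X - C (q.β z)) ^ q.c z

/-- The part of `λ` prime to the root `z`. -/
noncomputable def lamz (z : Z) : K[X] := C (q.u (q.jz z)) *
  ∏ z' ∈ Finset.univ.filter (fun z' => q.jz z' = q.jz z ∧ z' ≠ z), (X - C (q.β z')) ^ q.c z'

/-- `λ (-t) - λ (t)`. -/
noncomputable def del (j : J) : K[X] := (q.lam j).comp (-X) - q.lam j

/-- The square root of `g (λ ^ 2 Y ^ 2) / g (φ (λ) Y ^ 2)`. -/
structure IsSq (j : J) (S : PowerSeries K[X]) : Prop where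
  sq : S ^ 2 * zs2 q.o.g ((q.lam (q.σ j)).comp (X ^ 2)) = zs2 q.o.g (q.lam j ^ 2)
  zero : PowerSeries.coeff 0 S = 1
  odd : ∀ k, ¬ 2 ∣ k → PowerSeries.coeff k S = 0
  deg : ∀ k, (PowerSeries.coeff k S).natDegree ≤ 2 * q.p.m * k
  le : ∀ k n, 1 ≤ k → ‖(PowerSeries.coeff (2 * k) S).coeff n‖ ≤ ‖q.c0‖ * (1 / 4) ^ k
  lead : ∀ k n, 1 ≤ k → ‖(PowerSeries.coeff (2 * k) S +
    C (PowerSeries.coeff k q.o.L) * (q.del j * q.lam j ^ (2 * k - 1))).coeff n‖ ≤
      4 * ‖q.c0‖ ^ 2 * (1 / 4) ^ k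

/-- `c0` is small compared with the multiplicities. -/
def Sm (s : ℝ) : Prop := ∀ z, ‖q.c0‖ ≤ s * ‖(q.n z : K)‖

end Geo

/-- The data of the Dwork complex over the coefficient ring `A`. -/
structure Dat (K A J Z : Type) [NontriviallyNormedField K] [NormedCommRing A] [NormedAlgebra K A]
    [Fintype Z] [DecidableEq J] [DecidableEq Z] extends Geo K J Z where
  /-- The square root. -/
  Sq : J → PowerSeries K[X]
  /-- The `t`-part of the Frobenius series. -/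
  Ft : J → PowerSeries A
  /-- The `t`-part of `g`. -/
  gt : J → PowerSeries A
  /-- Its inverse. -/
  git : J → PowerSeries A
  /-- Half its logarithmic derivative. -/
  Lt : J → PowerSeries A
  /-- The local horizontal sections. -/
  κ : Z → PowerSeries A
  /-- The signs. -/
  ε : Z → ℤ
  isSq : ∀ j, toGeo.IsSq j (Sq j)
  Ft_g : ∀ j, Ft j ^ 2 * (gt (σ j)).subst (PowerSeries.X ^ 2 : PowerSeries A) = gt j
  g_gi : ∀ j, gt j * git j = 1
  L_g : ∀ j, 2 * (Lt j * gt j) = PowerSeries.X * PowerSeries.derivative A (gt j)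
  Ft_le : ∀ j (n : ℕ), ‖PowerSeries.coeff n (Ft j)‖ ≤ 2 ^ (-p.f n)
  gt_le : ∀ j (n : ℕ), ‖PowerSeries.coeff n (gt j)‖ ≤ 2 ^ (-(2 * ((n : ℝ) / p.e)))
  git_le : ∀ j (n : ℕ), ‖PowerSeries.coeff n (git j)‖ ≤ 2 ^ (-(2 * ((n : ℝ) / p.e)))
  Lt_le : ∀ j (n : ℕ), ‖PowerSeries.coeff n (Lt j)‖ ≤ 2 ^ (1 - 2 * ((n : ℝ) / p.e))
  Lt_le' : ∀ j (n : ℕ), ‖PowerSeries.coeff n (Lt j)‖ ≤ max (1 / 2) (2 ^ (-((n : ℝ) / p.l)))
  Lt_zero : ∀ j, PowerSeries.coeff 0 (Lt j) = 0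
  Ft_zero : ∀ j, ‖PowerSeries.coeff 0 (Ft j) - 1‖ ≤ 1 / 2
  Ft_e : ∀ j, ∃ u : K, ‖u‖ = 1 ∧
    ‖PowerSeries.coeff p.e (Ft j) - algebraMap K A (2 * u)‖ ≤ p.ϑ / 2
  Lt_e : ∀ j, ∃ u : K, ‖u‖ = 1 ∧
    ‖PowerSeries.coeff p.e (Lt j) - algebraMap K A (2 * u)‖ ≤ p.ϑ / 2
  κ_le : ∀ z n, 1 ≤ n → ‖PowerSeries.coeff n (κ z)‖ ≤ p.ϑ
  κ_zero : ∀ z, ‖PowerSeries.coeff 0 (κ z) - 1‖ ≤ 1 / 2
  κ_D : ∀ z, (PowerSeries.C (algebraMap K A (β z)) + PowerSeries.X) *
    PowerSeries.derivative A (κ z) = Tay (β z) (Lt (jz z)) * κ z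
  κ_sq : ∀ z, κ z ^ 2 = Tay (β z) (gt (jz z))
  κ_F : ∀ z, Tay (β z) (Ft (jz z)) * (κ (σZ z)).subst (PowerSeries.X ^ 2 +
    PowerSeries.C (algebraMap K A (2 * β z)) * PowerSeries.X : PowerSeries A) = ε z • κ z
  ε_sq : ∀ z, ε z * ε z = 1

namespace Dat

variable {K A J Z : Type} [NontriviallyNormedField K] [NormedCommRing A] [NormedAlgebra K A]
  [Fintype Z] [DecidableEq J] [DecidableEq Z] (d : Dat K A J Z)

/-- The part of the Frobenius series that involves `x`. -/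
noncomputable def Fx (j : J) : Arr A := conv (Xp A d.o.θ) (Zm A (zs d.o.θ (d.lam j) * d.Sq j))

/-- The Frobenius series. -/
noncomputable def F (j : J) : Arr A := conv (Tm (d.Ft j)) (d.Fx j)

/-- The series `g`. -/
noncomputable def g (j : J) : Arr A :=
  conv (Tm (d.gt j)) (conv (Xp A d.o.g) (Zm A (zs d.o.g (d.lam j))))

/-- The inverse of `g`. -/
noncomputable def gi (j : J) : Arr A :=
  conv (Tm (d.git j)) (conv (Xp A d.o.gi) (Zm A (zs d.o.gi (d.lam j))))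

/-- The connection in the direction `x`. -/
noncomputable def LX (j : J) : Arr A := Xp A d.o.L - Zm A (zs d.o.L (d.lam j))

/-- The connection in the direction `t`. -/
noncomputable def LT (j : J) : Arr A := Tm (d.Lt j) + Zm A (PowerSeries.mk fun k =>
  C (PowerSeries.coeff k d.o.L) * (X * derivative (d.lam j) * d.lam j ^ (k - 1)))

/-- The matrix of the Dwork operator on the exponents `n ≥ s`. -/
noncomputable def M (s : ℤ) : J × Ex s → J × Ex s → A := opm s d.σ d.F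

/-- The signed permutation matrix. -/
def P : Matrix Z Z ℤ := Matrix.of fun z' z => if z' = d.σZ z then d.ε z else 0

/-- The residue at the root `z` of `κ λ ^ (-l) t ^ (a - 1) dt`. -/
noncomputable def res (z : Z) (l a : ℕ) : A :=
  PowerSeries.coeff (d.c z * l - 1) (d.κ z * PowerSeries.map (algebraMap K A)
    ((((taylor (d.β z) (d.lamz z) : K[X]) : PowerSeries K)⁻¹) ^ l *
      (PowerSeries.C (d.β z) + PowerSeries.X) ^ (a - 1)))

/-- The approximate eigenfunctional. -/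
noncomputable def ρ (z : Z) : Arr A := fun u => if u.1 ≤ -1 then
  ∑ l ∈ Finset.Icc 1 u.2.toNat,
    (PowerSeries.coeff (u.2.toNat - l) d.o.G * d.o.I l) • d.res z l (-u.1).toNat else 0

/-- The simple poles. -/
noncomputable def wv (z : Z) : Arr A := fun u => if 1 ≤ u.1 ∧ u.2 = -1 then
  ((d.o.I 1)⁻¹ * (d.lam (d.jz z) /ₘ (X - C (d.β z))).coeff (u.1 - 1).toNat) •
    Ring.inverse (PowerSeries.coeff 0 (d.κ z)) else 0

/-- The boundary functional. -/
noncomputable def evA (z : Z) : Arr A := fun u => if u.1 ≤ 0 ∧ 0 ≤ u.2 then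
  (PowerSeries.coeff u.2.toNat d.o.G * d.β z ^ (-u.1).toNat) • PowerSeries.coeff 0 (d.κ z) else 0

/-- The error term of the Frobenius relation. -/
noncomputable def Er (z : Z) : Arr A := fun u => if u.1 ≤ -1 then
  ((d.c z : K))⁻¹ • (conv (d.F (d.jz z)) (phi (d.ρ (d.σZ z))) u - (2 * d.ε z) • d.ρ z u) else 0

/-- The residue of `κ β t ^ a dt / (t - β) ^ 2`. -/
noncomputable def pol2 (z : Z) (a : ℕ) : A :=
  PowerSeries.coeff 1 (d.κ z * PowerSeries.map (algebraMap K A)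
    (PowerSeries.C (d.β z) * (PowerSeries.C (d.β z) + PowerSeries.X) ^ a))

/-- The unit root eigenvector. -/
structure IsEta (η : J → Arr A) (a : J → A) : Prop where
  supp : ∀ j (u : ℤ × ℤ), u.1 < 0 → η j u = 0
  zero : ∀ j, η j 0 = 1
  eig : ∀ j u, psi (conv (d.F j) (η j)) u = a j * η (d.σ j) u
  a_le : ∀ j, ‖a j - 1‖ ≤ d.p.ϑ
  le : ∀ j (u : ℤ × ℤ), ‖η j u‖ ≤ 2 ^ (-(2 * d.p.w u.1 u.2))
  le' : ∀ j (n : ℤ), ‖η j (n, 0)‖ ≤ 2 ^ (-min 1 ((n : ℝ) / d.p.l))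

/-- The image of the unit root eigenvector. -/
noncomputable def yv (η : J → Arr A) (j : J) : Arr A := dt (η j) + conv (d.LT j) (η j)

/-- The rows `ρ`. -/
noncomputable def ρr (z : Z) : J × Ex 1 → A := row 1 (d.jz z) (d.ρ z)

/-- The columns `w`. -/
noncomputable def wc (z : Z) : J × Ex 1 → A := col 1 (d.jz z) (d.wv z)

/-- The rows of the error term. -/
noncomputable def Err (z : Z) : J × Ex 1 → A := row 1 (d.jz (d.σZ.symm z)) (d.Er (d.σZ.symm z))

/-- The columns `y`. -/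
noncomputable def yc (η : J → Arr A) (j : J) : J × Ex 1 → A := col 1 j (d.yv η j)

/-- The boundary values of `η`. -/
noncomputable def ry (η : J → Arr A) (z : Z) (j : J) : A :=
  if j = d.jz z then conv (d.evA z) (η j) 0 else 0

/-- The exact eigenfunctionals `ρ + c ζ`. -/
structure IsEig (η : J → Arr A) (C : ℝ) (ζ : Z → J × Ex 1 → A) (N : Matrix Z Z A) : Prop where
  le : ∀ z r, ‖ζ z r‖ ≤ C * 2 ^ d.p.Ui r
  N_le : ∀ z z', ‖N z z'‖ ≤ C
  w : ∀ z z', dot (ζ z) (d.wc z') = 0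
  y : ∀ z j, dot (ζ z) (d.yc η j) = -d.ry η z j
  eq : ∀ z r, vmul (ζ z) (d.M 1) r = 2 * ∑ z', d.P z z' • ζ z' r - d.Err z r +
    4 * ∑ z', N z z' * (d.ρr z' r + (d.c z' : K) • ζ z' r)

/-- The slope one matrix. -/
noncomputable def Φ (N : Matrix Z Z A) : Matrix Z Z A :=
  d.P.map (Int.cast : ℤ → A) + (2 * d.c0) • ((Matrix.diagonal fun z => (d.n z : A)) * N)

end Dat

end Pool.Agent.Lib.MP_788af2_nt.AG
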