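import Pool.Agent.Lib.MP_788af2_nt.AG.Base

/-!
Existence of the normed group algebra.
-/

set_option linter.unusedSectionVars false
set_option linter.style.haveILetI false

namespace Pool.Agent.Lib.MP_788af2_nt.AG

open Pool.Agent.Lib.MP_788af2_nt.AS Matrix

section wn

variable {K A J : Type} [NontriviallyNormedField K] [IsUltrametricDist K] [CommRing A] [Algebra K A]
  [Fintype J] [Nonempty J] (b : Module.Basis J K A) (w : J → ℝ)

/-- The weighted maximum of the norms of the coordinates. -/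
noncomputable def CubeN (a : A) : ℝ := ⨆ S, ‖b.repr a S‖ * w S

lemma CubeN_ge (a : A) (S : J) : ‖b.repr a S‖ * w S ≤ CubeN b w a :=
  le_ciSup (f := fun S => ‖b.repr a S‖ * w S) (Finite.bddAbove_range _) S

lemma CubeN_le {a : A} {r : ℝ} (h : ∀ S, ‖b.repr a S‖ * w S ≤ r) : CubeN b w a ≤ r :=
  ciSup_le h

variable {w}

lemma CubeN_nonneg (hw : ∀ S, 0 < w S) (a : A) : 0 ≤ CubeN b w a :=
  (mul_nonneg (norm_nonneg _) (hw (Classical.arbitrary J)).le).trans (CubeN_ge b w a _)

lemma CubeN_zero : CubeN b w 0 = 0 := by simp [CubeN]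

lemma CubeN_neg (a : A) : CubeN b w (-a) = CubeN b w a := by simp [CubeN]

lemma CubeN_add (hw : ∀ S, 0 < w S) (a c : A) :
    CubeN b w (a + c) ≤ max (CubeN b w a) (CubeN b w c) := by
  refine CubeN_le b w fun S => ?_
  rw [map_add, Finsupp.add_apply]
  have h := IsUltrametricDist.norm_add_le_max (b.repr a S) (b.repr c S)
  rcases le_max_iff.1 h with h | h
  · exact le_max_of_le_left ((mul_le_mul_of_nonneg_right h (hw S).le).trans (CubeN_ge b w a S))
  · exact le_max_of_le_right ((mul_le_mul_of_nonneg_right h (hw S).le).trans (CubeN_ge b w c S))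

lemma CubeN_smul (c : K) (a : A) : CubeN b w (c • a) ≤ ‖c‖ * CubeN b w a := by
  refine CubeN_le b w fun S => ?_
  rw [map_smul, Finsupp.smul_apply, smul_eq_mul, norm_mul, mul_assoc]
  exact mul_le_mul_of_nonneg_left (CubeN_ge b w a S) (norm_nonneg _)

lemma CubeN_basis (hw : ∀ S, 0 < w S) (S : J) : CubeN b w (b S) = w S := by
  classical
  refine le_antisymm (CubeN_le b w fun T => ?_) ?_
  · rw [b.repr_self, Finsupp.single_apply]
    split_ifs with h
    · simp [h]
    · simp [(hw S).le]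
  · simpa using CubeN_ge b w (b S) S

lemma CubeN_sum (hw : ∀ S, 0 < w S) {α : Type} (s : Finset α) (f : α → A) {r : ℝ} (hr : 0 ≤ r)
    (h : ∀ i ∈ s, CubeN b w (f i) ≤ r) : CubeN b w (∑ i ∈ s, f i) ≤ r := by
  classical
  induction s using Finset.induction_on with
  | empty => simpa [CubeN_zero] using hr
  | insert a s ha ih =>
    rw [Finset.sum_insert ha]
    exact (CubeN_add b hw _ _).trans
      (max_le (h a (by simp)) (ih fun i hi => h i (by simp [hi])))

lemma CubeN_mul (hw : ∀ S, 0 < w S) (hb : ∀ S T, CubeN b w (b S * b T) ≤ w S * w T) (a c : A) :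
    CubeN b w (a * c) ≤ CubeN b w a * CubeN b w c := by
  have h0 := mul_nonneg (CubeN_nonneg b hw a) (CubeN_nonneg b hw c)
  have e : a * c = ∑ S, ∑ T, (b.repr a S * b.repr c T) • (b S * b T) := by
    conv_lhs => rw [← b.sum_repr a, ← b.sum_repr c, Finset.sum_mul_sum]
    simp only [smul_mul_smul_comm]
  rw [e]
  refine CubeN_sum b hw _ _ h0 fun S _ => CubeN_sum b hw _ _ h0 fun T _ => ?_
  refine (CubeN_smul b _ _).trans ?_
  calc ‖b.repr a S * b.repr c T‖ * CubeN b w (b S * b T)
      ≤ ‖b.repr a S * b.repr c T‖ * (w S * w T) :=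
        mul_le_mul_of_nonneg_left (hb S T) (norm_nonneg _)
    _ = (‖b.repr a S‖ * w S) * (‖b.repr c T‖ * w T) := by rw [norm_mul]; ring
    _ ≤ _ := mul_le_mul (CubeN_ge b w a S) (CubeN_ge b w c T)
        (mul_nonneg (norm_nonneg _) (hw T).le) (CubeN_nonneg b hw a)

lemma CubeN_eq_zero (hw : ∀ S, 0 < w S) (a : A) (h : CubeN b w a = 0) : a = 0 := by
  refine b.repr.injective (Finsupp.ext fun S => ?_)
  have h1 := CubeN_ge b w a S
  rw [h] at h1
  have h2 : ‖b.repr a S‖ ≤ 0 := by
    by_contra h3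
    exact absurd h1 (not_le.2 (mul_pos (not_le.1 h3) (hw S)))
  simpa using norm_le_zero_iff.1 h2

/-- A linear functional is bounded by its values on the basis. -/
lemma CubeN_fun (hw : ∀ S, 0 < w S) (f : A →ₗ[K] K) {C : ℝ} (hC : 0 ≤ C)
    (hf : ∀ S, ‖f (b S)‖ ≤ C * w S) (a : A) : ‖f a‖ ≤ C * CubeN b w a := by
  conv_lhs => rw [← b.sum_repr a, map_sum]
  refine IsUltrametricDist.norm_sum_le_of_forall_le_of_nonneg
    (mul_nonneg hC (CubeN_nonneg b hw a)) fun S _ => ?_
  rw [map_smul, smul_eq_mul, norm_mul]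
  calc ‖b.repr a S‖ * ‖f (b S)‖ ≤ ‖b.repr a S‖ * (C * w S) :=
        mul_le_mul_of_nonneg_left (hf S) (norm_nonneg _)
    _ = C * (‖b.repr a S‖ * w S) := by ring
    _ ≤ _ := mul_le_mul_of_nonneg_left (CubeN_ge b w a S) hC

/-- The ring norm. -/
noncomputable def CubeR (hw : ∀ S, 0 < w S) (hb : ∀ S T, CubeN b w (b S * b T) ≤ w S * w T) :
    RingNorm A where
  toFun := CubeN b w
  map_zero' := CubeN_zero b
  add_le' a c := (CubeN_add b hw a c).trans (max_le
    (le_add_of_nonneg_right (CubeN_nonneg b hw c)) (le_add_of_nonneg_left (CubeN_nonneg b hw a)))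
  neg' := CubeN_neg b
  mul_le' := CubeN_mul b hw hb
  eq_zero_of_map_eq_zero' := CubeN_eq_zero b hw

end wn

section alg

variable {K A I : Type} [NontriviallyNormedField K] [IsUltrametricDist K] [CommRing A] [Algebra K A]
  [Fintype I] [DecidableEq I]

/-- The products of the `γ i - 1`. -/
noncomputable def CubeY (γ : G I → A) (S : Finset I) : A := ∏ i ∈ S, (γ (Pi.single i 1) - 1)

lemma CubeY_absorb {γ : G I → A} (g0 : γ 0 = 1) (ga : ∀ g h, γ (g + h) = γ g * γ h)
    (U S : Finset I) (h : S ⊆ U) : CubeY γ U * CubeY γ S = (-2) ^ S.card * CubeY γ U := by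
  induction S using Finset.induction_on with
  | empty => simp [CubeY]
  | insert i S hi ih =>
    have hU : i ∈ U := h (by simp)
    have h1 : γ (Pi.single i 1) * γ (Pi.single i 1) = 1 := by
      rw [← ga, ← Pi.single_add, show (1 + 1 : ZMod 2) = 0 from rfl, Pi.single_zero, g0]
    have h2 : CubeY γ U * (γ (Pi.single i 1) - 1) = -2 * CubeY γ U := by
      unfold CubeY
      rw [← Finset.mul_prod_erase U _ hU]
      linear_combination (∏ x ∈ U.erase i, (γ (Pi.single x 1) - 1)) * h1
    have h3 := ih fun x hx => h (by simp [hx])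
    have h4 : CubeY γ (insert i S) = (γ (Pi.single i 1) - 1) * CubeY γ S := Finset.prod_insert hi
    rw [h4, Finset.card_insert_of_notMem hi, pow_succ, ← mul_assoc, h2, mul_assoc, h3]
    ring

lemma CubeY_mul {γ : G I → A} (g0 : γ 0 = 1) (ga : ∀ g h, γ (g + h) = γ g * γ h)
    (S T : Finset I) : CubeY γ S * CubeY γ T = (-2) ^ (S ∩ T).card * CubeY γ (S ∪ T) := by
  rw [← CubeY_absorb g0 ga (S ∪ T) (S ∩ T) Finset.inter_subset_union]
  exact Finset.prod_union_inter.symm

lemma Cube_gam_sum {γ : G I → A} (g0 : γ 0 = 1) (ga : ∀ g h, γ (g + h) = γ g * γ h)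
    (S : Finset I) : γ (∑ i ∈ S, Pi.single i 1) = ∏ i ∈ S, γ (Pi.single i 1) := by
  induction S using Finset.induction_on with
  | empty => simpa using g0
  | insert i S hi ih => rw [Finset.sum_insert hi, Finset.prod_insert hi, ga, ih]

lemma Cube_gam_eq {γ : G I → A} (g0 : γ 0 = 1) (ga : ∀ g h, γ (g + h) = γ g * γ h) (g : G I) :
    γ g = ∑ S ∈ (Finset.univ.filter fun i => g i = 1).powerset, CubeY γ S := by
  have h : g = ∑ i ∈ Finset.univ.filter fun i => g i = 1, Pi.single i 1 := by
    funext j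
    rw [Finset.sum_apply]
    simp only [Pi.single_apply, Finset.sum_ite_eq, Finset.mem_filter, Finset.mem_univ, true_and]
    generalize g j = x
    revert x
    decide
  conv_lhs => rw [h, Cube_gam_sum g0 ga]
  unfold CubeY
  rw [← Finset.prod_one_add]
  exact Finset.prod_congr rfl fun i _ => by ring

lemma CubeY_co (γ : Module.Basis (G I) K A) (g0 : γ 0 = 1) (ga : ∀ g h, γ (g + h) = γ g * γ h)
    (S : Finset I) : ∀ g, ‖γ.repr (CubeY γ S) g‖ ≤ 1 := by
  have hb : ∀ g h, ‖γ.repr (γ g) h‖ ≤ 1 := by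
    intro g h
    rw [γ.repr_self, Finsupp.single_apply]
    split_ifs <;> simp
  induction S using Finset.induction_on with
  | empty =>
    intro g
    have : CubeY γ (∅ : Finset I) = γ 0 := by simp [CubeY, g0]
    rw [this]
    exact hb 0 g
  | insert i S hi ih =>
    intro g
    have h4 : CubeY γ (insert i S) = (γ (Pi.single i 1) - 1) * CubeY γ S := Finset.prod_insert hi
    have h5 : γ (Pi.single i 1) * CubeY γ S
        = ∑ h, γ.repr (CubeY γ S) h • γ (Pi.single i 1 + h) := by
      conv_lhs => rw [← γ.sum_repr (CubeY γ S), Finset.mul_sum]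
      simp only [mul_smul_comm, ga]
    rw [h4, sub_mul, one_mul, sub_eq_add_neg, map_add, Finsupp.add_apply]
    refine (IsUltrametricDist.norm_add_le_max _ _).trans (max_le ?_ (by simpa using ih g))
    rw [h5, map_sum, Finsupp.finsetSum_apply]
    refine IsUltrametricDist.norm_sum_le_of_forall_le_of_nonneg zero_le_one fun h _ => ?_
    rw [map_smul, Finsupp.smul_apply, smul_eq_mul, norm_mul]
    exact mul_le_one₀ (ih h) (norm_nonneg _) (hb _ _)

lemma CubeY_basis (γ : Module.Basis (G I) K A) (g0 : γ 0 = 1)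
    (ga : ∀ g h, γ (g + h) = γ g * γ h) :
    ∃ b : Module.Basis (Finset I) K A, ∀ S, b S = CubeY γ S := by
  refine ⟨basisOfTopLeSpanOfCardEqFinrank (CubeY γ) ?_ ?_, fun S => by
    rw [coe_basisOfTopLeSpanOfCardEqFinrank]⟩
  · rw [← γ.span_eq, Submodule.span_le]
    rintro _ ⟨g, rfl⟩
    rw [Cube_gam_eq g0 ga g]
    exact Submodule.sum_mem _ fun S _ => Submodule.subset_span ⟨S, rfl⟩
  · rw [Module.finrank_eq_card_basis γ]
    simp

lemma cube_of_basis [CompleteSpace K] (h2 : ‖(2 : K)‖ = 1 / 2) (δ : I → ℝ)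
    (h0 : ∀ i, 0 ≤ δ i) (h1 : ∀ i, δ i ≤ 1) (γ : Module.Basis (G I) K A) (g0 : γ 0 = 1)
    (ga : ∀ g h, γ (g + h) = γ g * γ h) (ev : G I → A →ₐ[K] K)
    (hev : ∀ ξ g, ev ξ (γ g) = (sg (ξ ⬝ᵥ g) : K)) :
    ∃ (A : Type) (_ : NormedCommRing A) (_ : NormedAlgebra K A) (_ : IsUltrametricDist A)
      (_ : CompleteSpace A) (_ : NormOneClass A), Nonempty (Cube K I A δ) := by
  obtain ⟨b, hbY⟩ := CubeY_basis γ g0 ga
  obtain ⟨w, hwd⟩ : ∃ w : Finset I → ℝ, ∀ S, w S = 2 ^ (-∑ i ∈ S, δ i) := ⟨_, fun _ => rfl⟩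
  have hw : ∀ S, 0 < w S := fun S => by rw [hwd]; positivity
  have hw1 : ∀ S, w S ≤ 1 := fun S => by
    rw [hwd]
    exact Real.rpow_le_one_of_one_le_of_nonpos one_le_two
      (neg_nonpos.2 (Finset.sum_nonneg fun i _ => h0 i))
  have hhalf : ∀ S : Finset I, ((1 : ℝ) / 2) ^ S.card ≤ w S := fun S => by
    rw [hwd, one_div, ← Real.rpow_neg_one, ← Real.rpow_natCast, ← Real.rpow_mul zero_le_two]
    refine Real.rpow_le_rpow_of_exponent_le one_le_two ?_
    have := Finset.sum_le_card_nsmul S δ 1 fun i _ => h1 i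
    rw [nsmul_eq_mul] at this
    linarith
  have hwm : ∀ S T, w (S ∩ T) * w (S ∪ T) = w S * w T := fun S T => by
    simp only [hwd, ← Real.rpow_add zero_lt_two]
    congr 1
    have := Finset.sum_union_inter (s₁ := S) (s₂ := T) (f := δ)
    linarith
  have hb : ∀ S T, CubeN b w (b S * b T) ≤ w S * w T := fun S T => by
    have e : b S * b T = ((-2 : K) ^ (S ∩ T).card) • b (S ∪ T) := by
      rw [hbY, hbY, hbY, CubeY_mul g0 ga, Algebra.smul_def, map_pow, map_neg, map_ofNat]
    rw [e]
    refine (CubeN_smul b _ _).trans ?_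
    rw [CubeN_basis b hw, norm_pow, norm_neg, h2, ← hwm]
    exact mul_le_mul_of_nonneg_right (hhalf _) (hw _).le
  letI : NormedRing A := (CubeR b hw hb).toNormedRing
  letI : NormedCommRing A := { ‹NormedRing A› with mul_comm := mul_comm }
  have hn : ∀ a : A, ‖a‖ = CubeN b w a := fun _ => rfl
  letI : NormedAlgebra K A :=
    { toAlgebra := ‹Algebra K A›
      norm_smul_le := fun c a => by
        rw [hn, hn]
        exact CubeN_smul (w := w) b c a }
  haveI : Module.Finite K A := Module.Finite.of_basis b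
  refine ⟨A, inferInstance, inferInstance,
    IsUltrametricDist.isUltrametricDist_of_forall_norm_add_le_max_norm (CubeN_add b hw),
    FiniteDimensional.complete K A, ⟨?_⟩, ⟨?_⟩⟩
  · have : (1 : A) = b ∅ := by simp [hbY, CubeY]
    rw [hn, this, CubeN_basis b hw, hwd]
    simp
  · refine
      { γ := γ
        co := γ.equivFun.toLinearMap
        ev := ev
        γ_zero := g0
        γ_add := ga
        co_γ := fun g => ?_
        sum_co := fun a => γ.sum_equivFun a
        ev_γ := hev
        γ_le := fun g => ?_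
        one_sub := fun i => ?_
        co_le := fun a g => ?_
        ev_le := fun ξ a => ?_ }
    · funext h
      rw [LinearEquiv.coe_coe, γ.equivFun_self, Pi.single_apply]
      simp only [eq_comm]
    · rw [hn, Cube_gam_eq g0 ga g]
      refine CubeN_sum b hw _ _ zero_le_one fun S _ => ?_
      rw [← hbY, CubeN_basis b hw]
      exact hw1 S
    · have : 1 - γ (Pi.single i 1) = -b {i} := by simp [hbY, CubeY]
      rw [hn, this, CubeN_neg, CubeN_basis b hw, hwd]
      simp
    · rw [hn]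
      refine CubeN_fun b hw (γ.coord g) (by positivity) (fun S => ?_) a
      rw [hbY, hwd, ← Real.rpow_add zero_lt_two]
      refine (CubeY_co γ g0 ga S g).trans (Real.one_le_rpow one_le_two ?_)
      have := Finset.sum_le_sum_of_subset_of_nonneg (Finset.subset_univ S) fun i _ _ => h0 i
      linarith
    · have := CubeN_fun b hw (ev ξ).toLinearMap zero_le_one (fun S => ?_) a
      · rwa [one_mul] at this
      rw [one_mul, hbY, AlgHom.toLinearMap_apply, CubeY, map_prod, norm_prod]
      refine le_trans ?_ (hhalf S)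
      rw [← Finset.prod_const]
      refine Finset.prod_le_prod (fun i _ => norm_nonneg _) fun i _ => ?_
      rw [map_sub, map_one, hev, sg]
      split_ifs
      · simp
      · rw [← h2, ← norm_neg]
        norm_num

end alg

lemma Cube_sg_add (x y : ZMod 2) : sg (x + y) = sg x * sg y := by
  revert x y
  decide

theorem exists_cube (K : Type) [NontriviallyNormedField K] [IsUltrametricDist K] [CompleteSpace K]
    (h2 : ‖(2 : K)‖ = 1 / 2) (I : Type) [Fintype I] [DecidableEq I] (δ : I → ℝ)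
    (h0 : ∀ i, 0 ≤ δ i) (h1 : ∀ i, δ i ≤ 1) :
    ∃ (A : Type) (_ : NormedCommRing A) (_ : NormedAlgebra K A) (_ : IsUltrametricDist A)
      (_ : CompleteSpace A) (_ : NormOneClass A), Nonempty (Cube K I A δ) := by
  let χ : G I → Multiplicative (G I) →* K := fun ξ =>
    { toFun := fun g => (sg (ξ ⬝ᵥ g.toAdd) : K)
      map_one' := by simp [sg]
      map_mul' := fun g h => by rw [toAdd_mul, dotProduct_add, Cube_sg_add, Int.cast_mul] }
  refine cube_of_basis (A := AddMonoidAlgebra K (G I)) h2 δ h0 h1 (AddMonoidAlgebra.basis (G I) K)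
    ?_ ?_ (fun ξ => AddMonoidAlgebra.lift K K (G I) (χ ξ)) ?_
  · rfl
  · intro g h
    simp [AddMonoidAlgebra.single_mul_single]
  · intro ξ g
    rw [AddMonoidAlgebra.basis_apply, AddMonoidAlgebra.lift_single, one_smul]
    rfl

end Pool.Agent.Lib.MP_788af2_nt.AG
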