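import Pool.Agent.Lib.MP_788af2_nt.AG.RhoB1

/-!
The approximate eigenfunctionals: the Frobenius relation.
-/

set_option linter.unusedSectionVars false

namespace Pool.Agent.Lib.MP_788af2_nt.AG

open Polynomial Filter Topology

variable {K A J Z : Type} [NontriviallyNormedField K] [IsUltrametricDist K] [CompleteSpace K]
  [CharZero K] [NormedCommRing A] [NormedAlgebra K A] [IsUltrametricDist A] [CompleteSpace A]
  [NormOneClass A] [Fintype J] [Fintype Z] [DecidableEq J] [DecidableEq Z] (d : Dat K A J Z)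

namespace Dat

lemma rb2_mul {f g : PowerSeries A} (hf : ∀ n, ‖PowerSeries.coeff n f‖ ≤ 1)
    (hg : ∀ n, ‖PowerSeries.coeff n g‖ ≤ 1) (n : ℕ) : ‖PowerSeries.coeff n (f * g)‖ ≤ 1 := by
  rw [PowerSeries.coeff_mul]
  exact IsUltrametricDist.norm_sum_le_of_forall_le_of_nonneg zero_le_one fun x _ =>
    (norm_mul_le _ _).trans (mul_le_one₀ (hf _) (norm_nonneg _) (hg _))

lemma rb2_C {x : A} (h : ‖x‖ ≤ 1) (n : ℕ) : ‖PowerSeries.coeff n (PowerSeries.C x)‖ ≤ 1 := by
  rw [PowerSeries.coeff_C]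
  split_ifs
  · exact h
  · simp

lemma rb2_pow {f : PowerSeries A} (hf : ∀ n, ‖PowerSeries.coeff n f‖ ≤ 1) (a n : ℕ) :
    ‖PowerSeries.coeff n (f ^ a)‖ ≤ 1 := by
  induction a generalizing n with
  | zero => exact rb2_C norm_one.le n
  | succ a ih =>
    rw [pow_succ]
    exact rb2_mul ih hf n

lemma pol2_le (z : Z) (a : ℕ) : ‖d.pol2 z a‖ ≤ 1 := by
  have hβ : ‖algebraMap K A (d.β z)‖ ≤ 1 := by
    rw [norm_algebraMap']
    exact d.β_le z
  rw [pol2, map_mul (PowerSeries.map (algebraMap K A)), map_pow, map_add, PowerSeries.map_C,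
    PowerSeries.map_X]
  refine rb2_mul (fun n => ?_) (rb2_mul (rb2_C hβ) (rb2_pow (fun n => ?_) a)) 1
  · rcases Nat.eq_zero_or_pos n with rfl | hn
    · have h1 := IsUltrametricDist.norm_add_le_max (PowerSeries.coeff 0 (d.κ z) - 1) 1
      rw [sub_add_cancel, norm_one] at h1
      exact h1.trans (max_le ((d.κ_zero z).trans (by norm_num)) le_rfl)
    · exact (d.κ_le z n hn).trans d.p.ϑ_lt.le
  · rw [map_add]
    refine (IsUltrametricDist.norm_add_le_max _ _).trans (max_le (rb2_C hβ n) ?_)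
    rw [PowerSeries.coeff_X]
    split_ifs <;> simp

lemma Err_le (hs : d.Sm (1 / 2 ^ 12)) (z : Z) (r : J × Ex 1) :
    ‖d.Err z r‖ ≤ 1 / 2 * 2 ^ (((|r.2.1.2| : ℤ) : ℝ) / 8) := by
  obtain ⟨j, ⟨n, k⟩, hn⟩ := r
  have hn' : 1 ≤ n := hn
  obtain ⟨a, rfl⟩ := Int.eq_ofNat_of_zero_le (zero_le_one.trans hn')
  have h1 : (1 : ℝ) ≤ 2 ^ (((|k| : ℤ) : ℝ) / 8) :=
    Real.one_le_rpow one_le_two (div_nonneg (by exact_mod_cast abs_nonneg k) (by norm_num))
  unfold Err row
  split_ifs with h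
  · have h2 := d.Er_lead hs (d.σZ.symm z) a (by exact_mod_cast hn') (-k)
    rw [abs_neg] at h2
    set T : A := if 0 ≤ -k then (2 * d.ε (d.σZ.symm z) * PowerSeries.coeff (-k).toNat d.o.G) •
      d.pol2 (d.σZ.symm z) a else 0 with hT
    have h3 : ‖T‖ ≤ 1 / 2 := by
      rw [hT]
      split_ifs
      · have h4 : ‖PowerSeries.coeff (-k).toNat d.o.G‖ ≤ 1 := by
          rcases Nat.eq_zero_or_pos (-k).toNat with h5 | h5
          · rw [h5, d.o.G_zero, norm_one]
          · exact (d.o.G_le _ h5).trans (by norm_num)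
        rw [norm_smul, norm_mul, norm_mul, d.two, mul_assoc, mul_assoc]
        exact mul_le_of_le_one_right (by norm_num)
          (mul_le_one₀ (IsUltrametricDist.norm_intCast_le_one K _) (by positivity)
            (mul_le_one₀ h4 (norm_nonneg _) (d.pol2_le _ _)))
      · simp
    have h5 : (1 : ℝ) / 2 ^ 12 * 2 ^ (((|k| : ℤ) : ℝ) / 8 + 10) =
        1 / 4 * 2 ^ (((|k| : ℤ) : ℝ) / 8) := by
      rw [Real.rpow_add two_pos, show (10 : ℝ) = (10 : ℕ) by norm_num, Real.rpow_natCast]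
      ring
    have h6 := IsUltrametricDist.norm_add_le_max (d.Er (d.σZ.symm z) (-a, -k) + T) (-T)
    rw [add_neg_cancel_right, norm_neg] at h6
    refine h6.trans (max_le (h2.trans (max_le ?_ ?_)) ?_)
    · split_ifs <;> linarith
    · rw [h5]
      linarith
    · linarith
  · rw [norm_zero]
    positivity

theorem vmul_ρ (z : Z) (r : J × Ex 1) : vmul (d.ρr z) (d.M 1) r =
    2 * ∑ z', d.P z z' • d.ρr z' r + (d.c z : K) • d.Err z r := by
  obtain ⟨z, rfl⟩ := d.σZ.surjective z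
  have hc : (d.c (d.σZ z) : K) = d.c z := by rw [Geo.c, Geo.c, d.n_σ]
  have hc0 : (d.c z : K) ≠ 0 := Nat.cast_ne_zero.2 (mul_pos (by positivity) (d.n_pos z)).ne'
  have hr : (-r.2.1).1 ≤ -1 := neg_le_neg r.2.2
  rw [ρr, M, vmul_row fun u hu => d.ρ_supp _ u (Or.inl hu), Finset.sum_eq_single z]
  · simp only [P, Matrix.of_apply, if_true, Err, ρr, row, Equiv.symm_apply_apply, d.jz_σ,
      EmbeddingLike.apply_eq_iff_eq, hc]
    by_cases h : r.1 = d.jz z
    · rw [if_pos h.symm, if_pos h, if_pos h, Er, if_pos hr, smul_inv_smul₀ hc0, h, mul_smul,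
        zsmul_eq_mul (_ : A) 2]
      push_cast
      ring
    · rw [if_neg (Ne.symm h), if_neg h, if_neg h]
      simp
  · intro z' _ h
    rw [P, Matrix.of_apply, if_neg fun h' => h (d.σZ.injective h').symm, zero_smul]
  · simp

lemma P_orth : d.P * d.P.transpose = 1 := by
  ext z z'
  obtain ⟨z, rfl⟩ := d.σZ.surjective z
  rw [Matrix.mul_apply, Finset.sum_eq_single z]
  · simp only [P, Matrix.transpose_apply, Matrix.of_apply, if_true, Matrix.one_apply]
    by_cases h : z' = d.σZ z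
    · rw [if_pos h, if_pos h.symm, d.ε_sq]
    · rw [if_neg h, if_neg (Ne.symm h), mul_zero]
  · intro w _ h
    rw [P, Matrix.of_apply, if_neg fun h' => h (d.σZ.injective h').symm, zero_mul]
  · simp

end Dat

end Pool.Agent.Lib.MP_788af2_nt.AG
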