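import Pool.Agent.Lib.MP_788af2_nt.AG.Eta
import Pool.Agent.Lib.MP_788af2_nt.AG.RhoB

/-!
Change of the coefficient ring.
-/

set_option linter.unusedSectionVars false

namespace Pool.Agent.Lib.MP_788af2_nt.AG

open Polynomial Filter Topology Pool.Agent.Lib.MP_788af2_nt.AS Pool.Agent.Lib.MP_a3f657_nt.Two

variable {K A J Z : Type} [NontriviallyNormedField K] [IsUltrametricDist K] [CompleteSpace K]
  [CharZero K] [NormedCommRing A] [NormedAlgebra K A] [IsUltrametricDist A] [CompleteSpace A]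
  [NormOneClass A] [Fintype J] [Fintype Z] [DecidableEq J] [DecidableEq Z]

section gen

variable {φ : A →ₐ[K] K} (hφ : ∀ x, ‖φ x‖ ≤ ‖x‖)

include hφ

lemma dm_tsum {ι : Type} {f : ι → A} (h : Summable f) : φ (∑' i, f i) = ∑' i, φ (f i) :=
  h.map_tsum φ (AddMonoidHomClass.continuous_of_bound φ 1 fun x => by rw [one_mul]; exact hφ x)

lemma dm_conv {p : Pm} {a x : Arr A} (ha : Dec p a) (hx : Mod p x) :
    conv (fun u => φ (a u)) (fun u => φ (x u)) = fun u => φ (conv a x u) := by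
  funext u
  simp only [conv]
  rw [dm_tsum hφ (ha.summable hx u)]
  simp only [map_mul]

lemma dm_Tay {β : K} (hβ : ‖β‖ ≤ 1) {s : PowerSeries A} {C c : ℝ} (hc : 0 < c)
    (h : ∀ n : ℕ, ‖PowerSeries.coeff n s‖ ≤ C * 2 ^ (-(c * n))) :
    Tay β (PowerSeries.map (φ : A →+* K) s) = PowerSeries.map (φ : A →+* K) (Tay β s) := by
  ext n
  simp only [Tay, PowerSeries.coeff_mk, PowerSeries.coeff_map, RingHom.coe_coe]
  rw [dm_tsum hφ]
  · simp only [map_smul]
  · have h1 : Summable fun k : ℕ => C * ((2 : ℝ) ^ (-c)) ^ k :=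
      (summable_geometric_of_lt_one (by positivity)
        (Real.rpow_lt_one_of_one_lt_of_neg one_lt_two (by linarith))).mul_left C
    refine Summable.of_norm_bounded h1 fun k => (norm_smul_le _ _).trans ?_
    rw [tb_pow rfl]
    refine le_trans (mul_le_of_le_one_left (norm_nonneg _) ?_) (h k)
    rw [norm_mul, norm_pow]
    exact mul_le_one₀ (IsUltrametricDist.norm_natCast_le_one K _) (by positivity)
      (pow_le_one₀ (norm_nonneg _) hβ)

lemma dm_dot {ι : Type} {V : ι → ℝ} {x y : ι → A} {C : ℝ} (hx : ∀ r, ‖x r‖ ≤ C * 2 ^ V r)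
    (hy : ColB V y) : dot (fun r => φ (x r)) (fun r => φ (y r)) = φ (dot x y) := by
  simp only [dot]
  rw [dm_tsum hφ]
  · simp only [map_mul]
  · refine NonarchimedeanAddGroup.summable_of_tendsto_cofinite_zero ?_
    rw [tendsto_zero_iff_norm_tendsto_zero]
    have h2 := Tendsto.const_mul C hy
    rw [mul_zero] at h2
    refine squeeze_zero (fun _ => norm_nonneg _) (fun r => (norm_mul_le _ _).trans ?_) h2
    exact (mul_le_mul_of_nonneg_right (hx r) (norm_nonneg _)).trans (le_of_eq (by ring))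

omit hφ

lemma dm_col {ι : Type} {V : ι → ℝ} {M : ι → ι → A} (h : CC V M) (c : ι) :
    ColB V fun r => M r c := by
  obtain ⟨g, h1, h2⟩ := h
  have h3 : Tendsto (fun r => V c + -g r) cofinite atBot :=
    tendsto_atBot_add_const_left _ _ (tendsto_neg_atTop_atBot.comp h1)
  refine squeeze_zero (fun r => by positivity) (fun r => ?_)
    ((tendsto_rpow_atBot_of_base_gt_one 2 one_lt_two).comp h3)
  refine (mul_le_mul_of_nonneg_right (h2 r c) (by positivity)).trans (le_of_eq ?_)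
  rw [← Real.rpow_add two_pos, Function.comp_apply]
  congr 1
  ring

lemma dm_phi (x : Arr A) : phi (fun u => φ (x u)) = fun u => φ (phi x u) := by
  funext u
  simp only [phi]
  split_ifs <;> simp

lemma dm_Tm (s : PowerSeries A) :
    Tm (PowerSeries.map (φ : A →+* K) s) = fun u => φ (Tm s u) := by
  funext u
  simp only [Tm]
  split_ifs <;> simp

lemma dm_Xp (h : PowerSeries K) : Xp K h = fun u => φ (Xp A h u) := by
  funext u
  simp only [Xp]
  split_ifs <;> simp

lemma dm_Zm (h : PowerSeries K[X]) : Zm K h = fun u => φ (Zm A h u) := by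
  funext u
  simp only [Zm]
  split_ifs <;> simp

lemma dm_der (s : PowerSeries A) : PowerSeries.derivative K (PowerSeries.map (φ : A →+* K) s) =
    PowerSeries.map (φ : A →+* K) (PowerSeries.derivative A s) := by
  ext n
  simp [PowerSeries.coeff_derivative]

lemma dm_alg (s : PowerSeries K) : PowerSeries.map (algebraMap K K) s =
    PowerSeries.map (φ : A →+* K) (PowerSeries.map (algebraMap K A) s) := by
  ext n
  simp

lemma dm_sub (s a : PowerSeries A) (ha : PowerSeries.constantCoeff a = 0) :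
    PowerSeries.map (φ : A →+* K) (s.subst a) =
      (PowerSeries.map (φ : A →+* K) s).subst (PowerSeries.map (φ : A →+* K) a) :=
  PowerSeries.map_subst (PowerSeries.HasSubst.of_constantCoeff_zero' ha) s

lemma dm_U_le (p : Pm) (r : J × Ex 1) : p.Ui r ≤ 1 + p.Vi r := by
  by_cases h : r.2.1.2 = 0 ∧ r.2.1.1 < p.e
  · have h1 := p.diag r.2.2 h.2
    have h2 := p.μ_pos
    simp only [Pm.Ui, Pm.Vi, h.1]
    linarith
  · exact (p.U_eq h).le

end gen

namespace Dat

variable (d : Dat K A J Z) (φ : A →ₐ[K] K) (hφ : ∀ x, ‖φ x‖ ≤ ‖x‖)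

lemma dm_gt (j : J) (n : ℕ) :
    ‖PowerSeries.coeff n (d.gt j)‖ ≤ 1 * 2 ^ (-(2 / (d.p.e : ℝ) * n)) :=
  (d.gt_le j n).trans (le_of_eq (by rw [one_mul]; congr 1; ring))

lemma dm_Lt (j : J) (n : ℕ) :
    ‖PowerSeries.coeff n (d.Lt j)‖ ≤ 2 * 2 ^ (-(2 / (d.p.e : ℝ) * n)) :=
  (d.Lt_le j n).trans (le_of_eq (by rw [two2_one_sub]; congr 2; ring))

lemma dm_Ft (j : J) (n : ℕ) :
    ‖PowerSeries.coeff n (d.Ft j)‖ ≤ 1 * 2 ^ (-(1 / (d.p.e : ℝ) * n)) := by
  refine (d.Ft_le j n).trans ?_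
  rw [one_mul]
  refine two2_exp (neg_le_neg (le_trans (le_of_eq ?_) (d.p.le_f n)))
  push_cast
  ring

/-- The data after the change of the coefficient ring. -/
noncomputable def dmap : Dat K K J Z where
  toGeo := d.toGeo
  Sq := d.Sq
  Ft j := PowerSeries.map (φ : A →+* K) (d.Ft j)
  gt j := PowerSeries.map (φ : A →+* K) (d.gt j)
  git j := PowerSeries.map (φ : A →+* K) (d.git j)
  Lt j := PowerSeries.map (φ : A →+* K) (d.Lt j)
  κ z := PowerSeries.map (φ : A →+* K) (d.κ z)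
  ε := d.ε
  isSq := d.isSq
  Ft_g j := by
    have h := congrArg (PowerSeries.map (φ : A →+* K)) (d.Ft_g j)
    rwa [map_mul, map_pow, dm_sub _ _ (by simp), map_pow, PowerSeries.map_X] at h
  g_gi j := by rw [← map_mul, d.g_gi, map_one]
  L_g j := by
    have h := congrArg (PowerSeries.map (φ : A →+* K)) (d.L_g j)
    rwa [map_mul, map_mul, map_mul, map_ofNat, PowerSeries.map_X, ← dm_der] at h
  Ft_le j n := (hφ _).trans (d.Ft_le j n)
  gt_le j n := (hφ _).trans (d.gt_le j n)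
  git_le j n := (hφ _).trans (d.git_le j n)
  Lt_le j n := (hφ _).trans (d.Lt_le j n)
  Lt_le' j n := (hφ _).trans (d.Lt_le' j n)
  Lt_zero j := by rw [PowerSeries.coeff_map, d.Lt_zero, map_zero]
  Ft_zero j := by
    refine le_trans (le_of_eq ?_) ((hφ _).trans (d.Ft_zero j))
    rw [map_sub, map_one]
    rfl
  Ft_e j := by
    obtain ⟨u, h1, h2⟩ := d.Ft_e j
    refine ⟨u, h1, le_trans (le_of_eq ?_) ((hφ _).trans h2)⟩
    rw [map_sub, φ.commutes]
    rfl
  Lt_e j := by
    obtain ⟨u, h1, h2⟩ := d.Lt_e j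
    refine ⟨u, h1, le_trans (le_of_eq ?_) ((hφ _).trans h2)⟩
    rw [map_sub, φ.commutes]
    rfl
  κ_le z n h := (hφ _).trans (d.κ_le z n h)
  κ_zero z := by
    refine le_trans (le_of_eq ?_) ((hφ _).trans (d.κ_zero z))
    rw [map_sub, map_one]
    rfl
  κ_D z := by
    have h := congrArg (PowerSeries.map (φ : A →+* K)) (d.κ_D z)
    have he := d.p.a1_e_posR
    rwa [map_mul, map_mul, map_add, PowerSeries.map_X, PowerSeries.map_C, ← dm_der,
      ← dm_Tay hφ (d.β_le z) (by positivity) (d.dm_Lt _), RingHom.coe_coe, φ.commutes] at h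
  κ_sq z := by
    have he := d.p.a1_e_posR
    rw [← map_pow, d.κ_sq, dm_Tay hφ (d.β_le z) (by positivity) (d.dm_gt _)]
  κ_F z := by
    have h := congrArg (PowerSeries.map (φ : A →+* K)) (d.κ_F z)
    have he := d.p.a1_e_posR
    rwa [map_mul, dm_sub _ _ (by simp), map_add, map_pow, map_mul, PowerSeries.map_X,
      PowerSeries.map_C, ← dm_Tay hφ (d.β_le z) (by positivity) (d.dm_Ft _), RingHom.coe_coe,
      φ.commutes, map_zsmul] at h
  ε_sq := d.ε_sq

lemma dm_F (j : J) : (d.dmap φ hφ).F j = fun u => φ (d.F j u) := by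
  have h : (d.dmap φ hφ).Fx j = fun u => φ (d.Fx j u) := by
    rw [Fx, dm_Xp (φ := φ), dm_Zm (φ := φ)]
    exact dm_conv hφ d.tb_dec_θ (d.tb_dec_Sq j).mod
  rw [F, h]
  refine Eq.trans ?_ (dm_conv hφ (d.tb_dec_Ft j) (d.tb_dec_θ.conv (d.tb_dec_Sq j)).mod)
  rw [← dm_Tm]
  rfl

lemma dm_LT (j : J) : (d.dmap φ hφ).LT j = fun u => φ (d.LT j u) := by
  funext u
  rw [LT, LT, Pi.add_apply, Pi.add_apply, map_add, dm_Zm (φ := φ)]
  exact congrArg₂ (· + ·) (congrFun (dm_Tm (d.Lt j)) u) rfl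

lemma dm_M (s : ℤ) (r c : J × Ex s) : (d.dmap φ hφ).M s r c = φ (d.M s r c) := by
  simp only [M, opm, dm_F]
  exact (apply_ite φ _ _ _).trans (by rw [map_zero]; rfl) |>.symm

lemma dm_res (z : Z) (l a : ℕ) : (d.dmap φ hφ).res z l a = φ (d.res z l a) := by
  rw [res, res, dm_alg (φ := φ)]
  exact (congrArg _ (map_mul (PowerSeries.map (φ : A →+* K)) _ _).symm).trans
    (PowerSeries.coeff_map _ _ _)

lemma dm_ρ (z : Z) : (d.dmap φ hφ).ρ z = fun u => φ (d.ρ z u) := by
  funext u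
  simp only [ρ, dm_res]
  split_ifs
  · simp only [map_sum, map_smul]
    rfl
  · rw [map_zero]

lemma dm_wv (z : Z) : (d.dmap φ hφ).wv z = fun u => φ (d.wv z u) := by
  funext u
  have h : Ring.inverse (φ (PowerSeries.coeff 0 (d.κ z))) =
      φ (Ring.inverse (PowerSeries.coeff 0 (d.κ z))) := by
    rw [Ring.inverse_eq_inv']
    refine (eq_inv_of_mul_eq_one_right ?_).symm
    rw [← map_mul, (eta1_inv (d.κ_zero z)).1, map_one]
  simp only [wv]
  split_ifs
  · rw [map_smul, ← h]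
    rfl
  · rw [map_zero]

lemma dm_evA (z : Z) : (d.dmap φ hφ).evA z = fun u => φ (d.evA z u) := by
  funext u
  simp only [evA]
  split_ifs
  · rw [map_smul]
    rfl
  · rw [map_zero]

lemma dm_Er (z : Z) : (d.dmap φ hφ).Er z = fun u => φ (d.Er z u) := by
  funext u
  simp only [Er, dm_F, dm_ρ, dm_phi]
  split_ifs
  · rw [map_smul, map_sub, map_zsmul, ← congrFun (dm_conv hφ (d.F_dec _) (d.ρ_mod _).2) u]
    rfl
  · rw [map_zero]

lemma dm_evA_mod (z : Z) : Mod d.p (d.evA z) := by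
  refine (mod_of_neg (C := ‖PowerSeries.coeff 0 (d.κ z)‖) (fun u hu => if_neg (by omega))
    fun u => ?_).1
  split_ifs with h
  · refine (norm_smul_le _ _).trans ?_
    rw [mul_comm]
    refine mul_le_mul_of_nonneg_left (le_trans (b := 1) ?_ (Real.one_le_rpow one_le_two ?_))
      (norm_nonneg _)
    · rw [norm_mul, norm_pow]
      refine mul_le_one₀ ?_ (by positivity) (pow_le_one₀ (norm_nonneg _) (d.β_le z))
      rcases Nat.eq_zero_or_pos u.2.toNat with h0 | h0
      · rw [h0, d.o.G_zero, norm_one]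
      · exact (d.o.G_le _ h0).trans (by norm_num)
    · have h1 := a1_div_nonneg d.p (show 0 ≤ -u.1 by omega)
      have h2 := a1_abs_nonneg u.2
      linarith
  · rw [norm_zero]
    positivity

omit d hφ in
lemma dm_row (j : J) (x : Arr A) :
    row 1 j (fun u => φ (x u)) = fun r => φ (row 1 j x r) := by
  funext r
  simp only [row]
  split_ifs <;> simp

omit d hφ in
lemma dm_colv (j : J) (x : Arr A) :
    col 1 j (fun u => φ (x u)) = fun r => φ (col 1 j x r) := by
  funext r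
  simp only [col]
  split_ifs <;> simp

variable {d} {η : J → Arr A} {a : J → A}

lemma dm_yv (h : d.IsEta η a) (j : J) :
    (d.dmap φ hφ).yv (fun j u => φ (η j u)) j = fun u => φ (d.yv η j u) := by
  funext u
  rw [yv, yv, dm_LT, dm_conv hφ (d.LT_dec j) (h.dec j).mod]
  simp only [Pi.add_apply, dt, map_add, map_zsmul]

lemma dm_ry (h : d.IsEta η a) (z : Z) (j : J) :
    (d.dmap φ hφ).ry (fun j u => φ (η j u)) z j = φ (d.ry η z j) := by
  rw [ry, ry, dm_evA, conv_comm, dm_conv hφ (h.dec j) (d.dm_evA_mod z), conv_comm]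
  exact (apply_ite φ _ _ _).trans (by rw [map_zero]; rfl) |>.symm

lemma dm_eta (h : d.IsEta η a) :
    (d.dmap φ hφ).IsEta (fun j u => φ (η j u)) fun j => φ (a j) where
  supp j u hu := by rw [h.supp j u hu, map_zero]
  zero j := by rw [h.zero, map_one]
  eig j u := by
    rw [dm_F, dm_conv hφ (d.F_dec j) (h.dec j).mod, ← map_mul]
    exact congrArg φ (h.eig j u)
  a_le j := by
    refine le_trans (le_of_eq ?_) ((hφ _).trans (h.a_le j))
    rw [map_sub, map_one]
  le j u := (hφ _).trans (h.le j u)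
  le' j n := (hφ _).trans (h.le' j n)

lemma dm_eig (h : d.IsEta η a) {C : ℝ} {ζ : Z → J × Ex 1 → A} {N : Matrix Z Z A}
    (h' : d.IsEig η C ζ N) :
    (d.dmap φ hφ).IsEig (fun j u => φ (η j u)) C (fun z r => φ (ζ z r)) (N.map φ) := by
  have hζ : ∀ z r, ‖ζ z r‖ ≤ C * 2 * 2 ^ d.p.Vi r := fun z r => by
    refine (a1_le (norm_nonneg _) (h'.le z r) (dm_U_le d.p r)).trans (le_of_eq ?_)
    rw [Real.rpow_add two_pos, Real.rpow_one, mul_assoc]
  refine ⟨fun z r => (hφ _).trans (h'.le z r), fun z z' => (hφ _).trans (h'.N_le z z'),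
    fun z z' => ?_, fun z j => ?_, fun z r => ?_⟩
  · rw [wc, dm_wv, dm_colv]
    exact (dm_dot hφ (hζ z) (d.wc_colB z')).trans (by rw [h'.w, map_zero])
  · rw [yc, dm_yv φ hφ h, dm_colv, dm_ry φ hφ h]
    exact (dm_dot hφ (hζ z) (h.yc_colB j)).trans (by rw [h'.y, map_neg])
  · have h1 := dm_dot hφ (hζ z) (dm_col d.M_cc r)
    have h2 := congrArg φ (h'.eq z r)
    simp only [map_add, map_sub, map_mul, map_sum, map_zsmul, map_smul, map_ofNat] at h2
    simp only [vmul, dm_M, Err, ρr, dm_Er, dm_ρ, dm_row]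
    exact h1.trans h2

end Dat

theorem Dat.exists_map (d : Dat K A J Z) (φ : A →ₐ[K] K) (hφ : ∀ x, ‖φ x‖ ≤ ‖x‖) :
    ∃ d' : Dat K K J Z, d'.toGeo = d.toGeo ∧ d'.ε = d.ε ∧
      (∀ j, d'.Ft j = PowerSeries.map (φ : A →+* K) (d.Ft j)) ∧
      ∀ η a C ζ N, d.IsEta η a → d.IsEig η C ζ N →
        d'.IsEta (fun j u => φ (η j u)) (fun j => φ (a j)) ∧
        d'.IsEig (fun j u => φ (η j u)) C (fun z r => φ (ζ z r)) (N.map φ) :=
  ⟨d.dmap φ hφ, rfl, rfl, fun _ => rfl, fun _ _ _ _ _ h h' =>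
    ⟨Dat.dm_eta φ hφ h, Dat.dm_eig φ hφ h h'⟩⟩

end Pool.Agent.Lib.MP_788af2_nt.AG
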