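import Pool.Agent.Lib.MP_788af2_nt.AG.Eta1

/-!
The unit root eigenvector.
-/

set_option linter.unusedSectionVars false

namespace Pool.Agent.Lib.MP_788af2_nt.AG

open Polynomial Filter Topology

variable {K A J Z : Type} [NontriviallyNormedField K] [IsUltrametricDist K] [CompleteSpace K]
  [CharZero K] [NormedCommRing A] [NormedAlgebra K A] [IsUltrametricDist A] [CompleteSpace A]
  [NormOneClass A] [Fintype J] [Fintype Z] [DecidableEq J] [DecidableEq Z] (d : Dat K A J Z)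

lemma e2_rpow_le {x y : ℝ} (h : x ≤ y) : (2 : ℝ) ^ x ≤ 2 ^ y :=
  Real.rpow_le_rpow_of_exponent_le (by norm_num) h

lemma e2_rpow_pos (x : ℝ) : (0 : ℝ) < 2 ^ x := Real.rpow_pos_of_pos (by norm_num) _

lemma e2_rpow_add (x y : ℝ) : (2 : ℝ) ^ x * 2 ^ y = 2 ^ (x + y) :=
  (Real.rpow_add (by norm_num) x y).symm

lemma e2_rpow_le_one {x : ℝ} (h : x ≤ 0) : (2 : ℝ) ^ x ≤ 1 :=
  Real.rpow_le_one_of_one_le_of_nonpos (by norm_num) h

lemma e2_rpow_neg_one : (2 : ℝ) ^ (-1 : ℝ) = 1 / 2 := by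
  rw [Real.rpow_neg_one]; norm_num

lemma e2_rpow_le_half {x : ℝ} (h : x ≤ -1) : (2 : ℝ) ^ x ≤ 1 / 2 := by
  rw [← e2_rpow_neg_one]; exact e2_rpow_le h

lemma e2_add_le {x y : A} {C : ℝ} (hx : ‖x‖ ≤ C) (hy : ‖y‖ ≤ C) : ‖x + y‖ ≤ C :=
  (IsUltrametricDist.norm_add_le_max x y).trans (max_le hx hy)

lemma e2_dt_le (x : Arr A) (u : ℤ × ℤ) : ‖dt x u‖ ≤ ‖x u‖ :=
  IsUltrametricDist.norm_zsmul_le _ _

namespace Dat


lemma e2_c0_le : ‖d.c0‖ ≤ 1 / 8 := by
  have h := d.i_ge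
  have h2 := d.two
  unfold Geo.c0
  rw [norm_pow, h2]
  calc ((1 : ℝ) / 2) ^ (d.i + 1) ≤ (1 / 2) ^ 3 :=
        pow_le_pow_of_le_one (by norm_num) (by norm_num) (by omega)
    _ = 1 / 8 := by norm_num

lemma e2_sub_le (j : J) (v : ℤ × ℤ) : ‖d.LT j v - Tm (d.Lt j) v‖ ≤ 1 / 4 := by
  by_cases hv : v.1 < 0
  · rw [d.LT_supp j v (by omega)]
    have : Tm (d.Lt j) v = 0 := by
      unfold Tm; rw [if_neg]; omega
    rw [this]; simp
  · have h1 := d.LT_sub_le j v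
    have h2 := d.e2_c0_le
    have h3 : (2 : ℝ) ^ (1 - 2 * d.p.w v.1 v.2) ≤ 2 := by
      have := d.p.potC_w_nonneg v.2 (show 0 ≤ v.1 by omega)
      calc (2 : ℝ) ^ (1 - 2 * d.p.w v.1 v.2) ≤ 2 ^ (1 : ℝ) := e2_rpow_le (by linarith)
        _ = 2 := Real.rpow_one _
    have h4 := e2_rpow_pos (1 - 2 * d.p.w v.1 v.2)
    have h5 := norm_nonneg d.c0
    nlinarith

lemma e2_LT_ne (j : J) (v : ℤ × ℤ) (hv : v.2 ≠ 0) : ‖d.LT j v‖ ≤ 1 / 4 := by
  have h := d.e2_sub_le j v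
  have : Tm (d.Lt j) v = 0 := by
    unfold Tm; rw [if_neg]; exact fun h' => hv h'.2
  rwa [this, sub_zero] at h

lemma e2_LT_row (j : J) (n : ℤ) (hn : 0 ≤ n) :
    ‖d.LT j (n, 0)‖ ≤ max (1 / 2) (2 ^ (-((n : ℝ) / d.p.l))) := by
  have h := d.e2_sub_le j (n, 0)
  have h1 : Tm (d.Lt j) (n, 0) = PowerSeries.coeff n.toNat (d.Lt j) := by
    unfold Tm; rw [if_pos ⟨hn, rfl⟩]
  have h2 := d.Lt_le' j n.toNat
  have h3 : ((n.toNat : ℕ) : ℝ) = (n : ℝ) := by
    have : ((n.toNat : ℕ) : ℤ) = n := Int.toNat_of_nonneg hn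
    exact_mod_cast this
  rw [h3, ← h1] at h2
  have h4 : d.LT j (n, 0) = (d.LT j (n, 0) - Tm (d.Lt j) (n, 0)) + Tm (d.Lt j) (n, 0) := by ring
  rw [h4]
  exact e2_add_le (h.trans (le_max_of_le_left (by norm_num))) h2

lemma e2_LT_le_one (j : J) (v : ℤ × ℤ) : ‖d.LT j v‖ ≤ 1 := by
  obtain ⟨n, k⟩ := v
  by_cases hk : k = 0
  · subst hk
    by_cases hn : n < 1
    · rw [d.LT_supp j _ hn]; simp
    · refine (d.e2_LT_row j n (by omega)).trans (max_le (by norm_num) (e2_rpow_le_one ?_))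
      have h1 : (0 : ℝ) ≤ n := by exact_mod_cast (show (0 : ℤ) ≤ n by omega)
      have := div_nonneg h1 d.p.a1_l_posR.le
      linarith
  · exact (d.e2_LT_ne j _ hk).trans (by norm_num)

variable {d} {η : J → Arr A} {a : J → A} (h : d.IsEta η a)
include h

lemma IsEta.e2_le_one (j : J) (u : ℤ × ℤ) : ‖η j u‖ ≤ 1 := by
  by_cases hu : u.1 < 0
  · rw [h.supp j u hu]; simp
  · refine (h.le j u).trans (e2_rpow_le_one ?_)
    have := d.p.potC_w_nonneg u.2 (show 0 ≤ u.1 by omega)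
    linarith

lemma IsEta.e2_le_half (j : J) (n : ℤ) (hn : (d.p.l : ℤ) ≤ n) : ‖η j (n, 0)‖ ≤ 1 / 2 := by
  refine (h.le' j n).trans (e2_rpow_le_half ?_)
  have h1 : (d.p.l : ℝ) ≤ n := by exact_mod_cast hn
  have h2 : (1 : ℝ) ≤ (n : ℝ) / d.p.l := (one_le_div d.p.a1_l_posR).2 h1
  rw [min_eq_left h2]

lemma IsEta.e2_le_ϑ (j : J) (n : ℤ) (hn : 1 ≤ n) : ‖η j (n, 0)‖ ≤ d.p.ϑ := by
  refine (h.le' j n).trans (le_trans (e2_rpow_le ?_) d.p.inv_l_le_ϑ)
  have h1 : (1 : ℝ) ≤ n := by exact_mod_cast hn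
  have h2 : 1 / (d.p.l : ℝ) ≤ (n : ℝ) / d.p.l := div_le_div_of_nonneg_right h1 d.p.a1_l_posR.le
  have h3 : 1 / (d.p.l : ℝ) ≤ 1 := (div_le_one d.p.a1_l_posR).2 d.p.a1_l_geR
  have := le_min h3 h2
  linarith

lemma IsEta.dec (j : J) : Dec d.p (η j) := by
  refine dec_of_w (h.supp j) (C := 1) fun u hu => ?_
  rw [one_mul]
  refine (h.le j u).trans (e2_rpow_le ?_)
  have := d.p.potC_w_nonneg u.2 hu
  linarith

lemma IsEta.y_supp (j : J) (u : ℤ × ℤ) (hu : u.1 < 1) : d.yv η j u = 0 := by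
  have h1 : dt (η j) u = 0 := by
    unfold dt
    by_cases h0 : u.1 < 0
    · rw [h.supp j u h0, smul_zero]
    · rw [show u.1 = 0 by omega, zero_smul]
  have h2 : conv (d.LT j) (η j) u = 0 := by
    unfold conv
    have : (fun v => d.LT j v * η j (u - v)) = fun _ => 0 := by
      funext v
      by_cases hv : v.1 < 1
      · rw [d.LT_supp j v hv, zero_mul]
      · rw [h.supp j (u - v) (by simp only [Prod.fst_sub]; omega), mul_zero]
    rw [this, tsum_zero]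
  unfold yv
  rw [Pi.add_apply, h1, h2, add_zero]

lemma IsEta.y_le (j : J) (u : ℤ × ℤ) : ‖d.yv η j u‖ ≤ 2 ^ (1 - 2 * d.p.w u.1 u.2) := by
  unfold yv
  rw [Pi.add_apply]
  refine e2_add_le ((e2_dt_le _ _).trans ((h.le j u).trans (e2_rpow_le (by linarith)))) ?_
  refine norm_conv_le (e2_rpow_pos _).le fun v => ?_
  refine (mul_le_mul (d.LT_le j v) (h.le j (u - v)) (norm_nonneg _) (e2_rpow_pos _).le).trans ?_
  rw [e2_rpow_add]
  refine e2_rpow_le ?_
  have := d.p.w_add v.1 v.2 (u - v).1 (u - v).2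
  rw [show v.1 + (u - v).1 = u.1 by simp, show v.2 + (u - v).2 = u.2 by simp] at this
  linarith

lemma IsEta.y_le_one (j : J) (u : ℤ × ℤ) : ‖d.yv η j u‖ ≤ 1 := by
  unfold yv
  rw [Pi.add_apply]
  refine e2_add_le ((e2_dt_le _ _).trans (h.e2_le_one j u)) ?_
  refine norm_conv_le zero_le_one fun v => ?_
  exact mul_le_one₀ (d.e2_LT_le_one j v) (norm_nonneg _) (h.e2_le_one j _)

lemma IsEta.y_le_half (j : J) (n : ℤ) (hn : d.p.e < 2 * n) : ‖d.yv η j (n, 0)‖ ≤ 1 / 2 := by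
  have he := d.p.pb_e19
  have hl := d.p.pb_l1
  have hlR := d.p.a1_l_posR
  unfold yv
  rw [Pi.add_apply]
  refine e2_add_le ((e2_dt_le _ _).trans (h.e2_le_half j n (by omega))) ?_
  refine norm_conv_le (by norm_num) fun v => ?_
  obtain ⟨b, k⟩ := v
  by_cases hk : k = 0
  · subst hk
    have hv : ((n, 0) : ℤ × ℤ) - (b, 0) = (n - b, 0) := by simp
    rw [hv]
    by_cases hb : (d.p.l : ℤ) ≤ n - b
    · have h1 := d.e2_LT_le_one j (b, 0)
      have h2 := h.e2_le_half j (n - b) hb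
      have h3 := norm_nonneg (η j (n - b, 0))
      nlinarith
    · have h1 : ‖d.LT j (b, 0)‖ ≤ 1 / 2 := by
        refine (d.e2_LT_row j b (by omega)).trans (max_le le_rfl (e2_rpow_le_half ?_))
        have h4 : (d.p.l : ℝ) ≤ b := by exact_mod_cast (show (d.p.l : ℤ) ≤ b by omega)
        have := (one_le_div hlR).2 h4
        linarith
      have h2 := h.e2_le_one j (n - b, 0)
      have h3 := norm_nonneg (d.LT j (b, 0))
      nlinarith
  · have h1 := d.e2_LT_ne j (b, k) hk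
    have h2 := h.e2_le_one j ((n, 0) - (b, k))
    have h3 := norm_nonneg (d.LT j (b, k))
    nlinarith

lemma IsEta.y_eig (j : J) (u : ℤ × ℤ) :
    psi (conv (d.F j) (d.yv η j)) u = 2 * a j * d.yv η (d.σ j) u := by
  have h1 : psi (conv (d.F j) (η j)) = a j • η (d.σ j) := by
    funext v
    rw [h.eig j v, Pi.smul_apply, smul_eq_mul]
  unfold yv
  rw [d.psi_Dt j (h.dec j), h1, conv_smul (d.LT_dec (d.σ j)) (h.dec (d.σ j)).mod]
  simp only [Pi.smul_apply, Pi.add_apply, dt, smul_eq_mul, nsmul_eq_mul, zsmul_eq_mul]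
  push_cast
  ring

lemma IsEta.e2_y_e (j : J) : ∃ u : K, ‖u‖ = 1 ∧
    ‖d.yv η j (d.p.e, 0) - algebraMap K A (2 * u)‖ ≤ d.p.ϑ / 2 := by
  have he := d.p.pb_e19
  have hl := d.p.pb_l1
  have hlR := d.p.a1_l_posR
  have hϑ := d.p.half_le_ϑ
  obtain ⟨u, hu, hu2⟩ := d.Lt_e j
  refine ⟨u, hu, ?_⟩
  have hs := (d.LT_dec j).summable (h.dec j).mod ((d.p.e : ℤ), 0)
  have h1 : conv (d.LT j) (η j) (d.p.e, 0) = d.LT j (d.p.e, 0) + ∑' v : ℤ × ℤ,
      if v = ((d.p.e : ℤ), 0) then 0 else d.LT j v * η j (((d.p.e : ℤ), 0) - v) := by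
    unfold conv
    rw [hs.tsum_eq_add_tsum_ite ((d.p.e : ℤ), 0), sub_self, h.zero j, mul_one]
  have h2 : Tm (d.Lt j) ((d.p.e : ℤ), 0) = PowerSeries.coeff d.p.e (d.Lt j) := by
    unfold Tm
    rw [if_pos ⟨by positivity, rfl⟩]
    simp
  have h3 : d.yv η j (d.p.e, 0) - algebraMap K A (2 * u) = dt (η j) (d.p.e, 0) +
      ((d.LT j (d.p.e, 0) - Tm (d.Lt j) ((d.p.e : ℤ), 0)) +
      ((PowerSeries.coeff d.p.e (d.Lt j) - algebraMap K A (2 * u)) + ∑' v : ℤ × ℤ,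
      if v = ((d.p.e : ℤ), 0) then 0 else d.LT j v * η j (((d.p.e : ℤ), 0) - v))) := by
    unfold yv
    rw [Pi.add_apply, h1, h2]
    ring
  rw [h3]
  refine e2_add_le ?_ (e2_add_le ((d.e2_sub_le j _).trans (by linarith)) (e2_add_le hu2 ?_))
  · refine (e2_dt_le _ _).trans ((h.le j _).trans ?_)
    have h4 := d.p.a1_w1 d.p.e 0
    have h5 : ((d.p.e : ℤ) : ℝ) / d.p.e = 1 := by
      push_cast
      exact div_self d.p.a1_e_posR.ne'
    rw [h5] at h4
    calc (2 : ℝ) ^ (-(2 * d.p.w (d.p.e : ℤ) 0)) ≤ 2 ^ ((-1 : ℝ) + (-1)) := by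
          refine e2_rpow_le ?_
          push_cast at h4
          linarith
      _ = 1 / 4 := by rw [← e2_rpow_add, e2_rpow_neg_one]; norm_num
      _ ≤ d.p.ϑ / 2 := by linarith
  · refine IsUltrametricDist.norm_tsum_le_of_forall_le_of_nonneg (by linarith) fun v => ?_
    split_ifs with hv
    · rw [norm_zero]; linarith
    refine (norm_mul_le _ _).trans ?_
    obtain ⟨b, k⟩ := v
    by_cases hk : k = 0
    · subst hk
      have hv' : (((d.p.e : ℤ), 0) : ℤ × ℤ) - (b, 0) = (d.p.e - b, 0) := by simp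
      rw [hv']
      have hbe : b ≠ d.p.e := fun hb => hv (by rw [hb])
      by_cases hb1 : b < 1
      · rw [d.LT_supp j _ hb1, norm_zero, zero_mul]; linarith
      by_cases hb2 : (d.p.e : ℤ) < b
      · rw [h.supp j _ (show (d.p.e : ℤ) - b < 0 by omega), norm_zero, mul_zero]; linarith
      have n1 := norm_nonneg (d.LT j (b, 0))
      have n2 := norm_nonneg (η j (d.p.e - b, 0))
      by_cases hb : (d.p.l : ℤ) ≤ b
      · have h1 : ‖d.LT j (b, 0)‖ ≤ 1 / 2 := by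
          refine (d.e2_LT_row j b (by omega)).trans (max_le le_rfl (e2_rpow_le_half ?_))
          have h4 : (d.p.l : ℝ) ≤ b := by exact_mod_cast hb
          have := (one_le_div hlR).2 h4
          linarith
        have h2 := h.e2_le_ϑ j (d.p.e - b) (by omega)
        nlinarith
      · have h1 : ‖d.LT j (b, 0)‖ ≤ d.p.ϑ := by
          refine (d.e2_LT_row j b (by omega)).trans
            (max_le hϑ (le_trans (e2_rpow_le ?_) d.p.inv_l_le_ϑ))
          have h4 : (1 : ℝ) ≤ b := by exact_mod_cast (show (1 : ℤ) ≤ b by omega)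
          have := div_le_div_of_nonneg_right h4 hlR.le
          linarith
        have h2 := h.e2_le_half j (d.p.e - b) (by omega)
        nlinarith
    · have h1 := d.e2_LT_ne j (b, k) hk
      have h2 := h.e2_le_one j (((d.p.e : ℤ), 0) - (b, k))
      have h3 := norm_nonneg (d.LT j (b, k))
      nlinarith

lemma IsEta.y_unit (j : J) : ∃ x, d.yv η j (d.p.e, 0) * x = 1 ∧ ‖x‖ ≤ 2 := by
  obtain ⟨u, hu, hy⟩ := h.e2_y_e j
  have hn : ‖(2 * u : K)‖ = 1 / 2 := by rw [norm_mul, d.two, hu, mul_one]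
  have hne : (2 * u : K) ≠ 0 := by
    intro h0
    rw [h0, norm_zero] at hn
    norm_num at hn
  set c : A := algebraMap K A (2 * u)⁻¹ with hc
  have hcn : ‖c‖ = 2 := by
    rw [hc, norm_algebraMap', norm_inv, hn]; norm_num
  have hcc : algebraMap K A (2 * u) * c = 1 := by
    rw [hc, ← map_mul, mul_inv_cancel₀ hne, map_one]
  set s : A := 1 - d.yv η j (d.p.e, 0) * c with hs
  have hsn : ‖s‖ < 1 := by
    have : s = -((d.yv η j (d.p.e, 0) - algebraMap K A (2 * u)) * c) := by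
      rw [hs, sub_mul, hcc]; ring
    rw [this, norm_neg]
    refine (norm_mul_le _ _).trans_lt ?_
    rw [hcn]
    have := d.p.ϑ_lt
    linarith
  refine ⟨c * ∑' i : ℕ, s ^ i, ?_, ?_⟩
  · have h1 := mul_neg_geom_series s hsn
    rw [← mul_assoc, ← h1]
    congr 1
    rw [hs]; ring
  · have h1 : ‖∑' i : ℕ, s ^ i‖ ≤ 1 := by
      refine IsUltrametricDist.norm_tsum_le_of_forall_le_of_nonneg zero_le_one fun i => ?_
      exact (norm_pow_le s i).trans (pow_le_one₀ (norm_nonneg _) hsn.le)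
    refine (norm_mul_le _ _).trans ?_
    rw [hcn]
    linarith

lemma IsEta.yc_colB (j : J) : ColB d.p.Vi (d.yc η j) := by
  have t1 : Tendsto (fun r : J × Ex 1 => r.2) cofinite cofinite := by
    refine Tendsto.cofinite_of_finite_preimage_singleton fun b => ?_
    refine Set.Finite.to_subtype ((Set.finite_range fun i : J => (i, b)).subset ?_)
    rintro ⟨i, c⟩ hc
    exact ⟨i, by rw [show c = b from hc]⟩
  have t2 : Tendsto (fun u : Ex 1 => ((u.1.1.toNat, u.1.2) : ℕ × ℤ)) cofinite cofinite := by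
    refine Function.Injective.tendsto_cofinite ?_
    rintro ⟨⟨x, y⟩, hx⟩ ⟨⟨x', y'⟩, hx'⟩ hh
    simp only [Prod.mk.injEq] at hh hx hx'
    obtain ⟨h1, h2⟩ := hh
    have : x = x' := by omega
    subst this
    subst h2
    rfl
  have t3 : Tendsto (fun r : J × Ex 1 => d.p.w r.2.1.1 r.2.1.2) cofinite atTop := by
    refine ((d.p.w_tendsto.comp t2).comp t1).congr fun r => ?_
    have := r.2.2
    simp only [Function.comp]
    rw [Int.toNat_of_nonneg (by omega)]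
  have t4 : Tendsto (fun r : J × Ex 1 => 2 - 49 / 50 * d.p.w r.2.1.1 r.2.1.2) cofinite atBot := by
    have := tendsto_neg_atTop_atBot.comp (t3.const_mul_atTop (by norm_num : (0 : ℝ) < 49 / 50))
    exact (tendsto_atBot_add_const_left _ 2 this).congr fun r => by
      simp only [Function.comp]; ring
  have t5 := (tendsto_rpow_atBot_of_base_gt_one 2 (by norm_num)).comp t4
  refine squeeze_zero (fun r => mul_nonneg (norm_nonneg _) (e2_rpow_pos _).le) (fun r => ?_) t5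
  simp only [Function.comp]
  have h1 : ‖d.yc η j r‖ ≤ 2 ^ (1 - 2 * d.p.w r.2.1.1 r.2.1.2) := by
    unfold yc col
    split_ifs
    · exact h.y_le j _
    · rw [norm_zero]; exact (e2_rpow_pos _).le
  refine (mul_le_mul_of_nonneg_right h1 (e2_rpow_pos _).le).trans ?_
  rw [e2_rpow_add]
  refine e2_rpow_le ?_
  have := d.p.potC_V_le (j := r.2.1.2) r.2.2
  unfold Pm.Vi
  linarith

lemma IsEta.yc_small (j : J) (r : J × Ex 1) (hr : r ≠ d.p.Ei j) :
    ‖d.yc η j r‖ ≤ d.p.ϑ * 2 ^ (d.p.V d.p.e 0 - d.p.Ui r) := by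
  obtain ⟨i, ⟨⟨b, k⟩, hb⟩⟩ := r
  unfold Pm.ϑ
  rw [e2_rpow_add]
  unfold yc col Pm.Ui
  simp only at hb ⊢
  split_ifs with hi
  swap
  · rw [norm_zero]; exact (e2_rpow_pos _).le
  subst hi
  by_cases hc : k = 0 ∧ b ≤ d.p.e
  · obtain ⟨hk, hbe⟩ := hc
    subst hk
    have hne : b ≠ d.p.e := by
      intro hb'
      subst hb'
      exact hr rfl
    by_cases h2 : 2 * b < d.p.e
    · refine (h.y_le_one i _).trans ?_
      have := d.p.y_lo h2
      calc (1 : ℝ) = 2 ^ (0 : ℝ) := (Real.rpow_zero _).symm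
        _ ≤ _ := e2_rpow_le (by linarith)
    · have hodd : (d.p.e : ℤ) < 2 * b := by
        obtain ⟨t, ht⟩ := d.p.odd
        omega
      refine (h.y_le_half i b hodd).trans ?_
      have := d.p.y_mid (a := b) (by omega)
      rw [← e2_rpow_neg_one]
      exact e2_rpow_le (by linarith)
  · refine (h.y_le i (b, k)).trans (e2_rpow_le ?_)
    have := d.p.y_far hb hc
    simp only
    linarith

lemma IsEta.mulv_yc (j : J) (r : J × Ex 1) : mulv (d.M 1) (d.yc η j) r =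
    2 * ∑ j', d.yc η j' r * (if j' = d.σ j then a j else 0) := by
  simp only [mul_ite, mul_zero, Finset.sum_ite_eq', Finset.mem_univ, if_true]
  unfold M yc
  rw [mulv_col (h.y_supp j) j r]
  unfold col
  split_ifs
  · rw [h.y_eig j]; ring
  · simp

end Dat

end Pool.Agent.Lib.MP_788af2_nt.AG
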