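import Pool.Agent.Lib.MP_788af2_nt.AG.Base

/-!
The equation lemmas of `mpow`, stated once for the files that unfold it.
-/

namespace Pool.Agent.Lib.MP_788af2_nt.AG

theorem eqfix1 : True := by
  have := @mpow.eq_def
  have := @mpow.eq_1
  have := @mpow.eq_2
  trivial

end Pool.Agent.Lib.MP_788af2_nt.AG
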