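import Pool.Agent.Lib.MP_788af2_nt.AG.Base
import Pool.Agent.Lib.MP_788af2_nt.AG.EqFix
import Pool.Agent.Lib.MP_788af2_nt.DW.FredSer

/-!
Calculus of rows, columns and completely continuous matrices.
-/

set_option linter.unusedSectionVars false

namespace Pool.Agent.Lib.MP_788af2_nt.AG

open Filter Topology

variable {ι A : Type} [NormedCommRing A] [IsUltrametricDist A] [CompleteSpace A] {V : ι → ℝ}

theorem mpow_eq (M : ι → ι → A) (n : ℕ) : mpow M n = DW.mpow M n := by
  induction n with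
  | zero => rfl
  | succ n ih =>
    rw [mpow, DW.mpow, ih]
    rfl

theorem tendsto_two_rpow_neg {h : ι → ℝ} (hh : Tendsto h cofinite atTop) :
    Tendsto (fun i => (2 : ℝ) ^ (-h i)) cofinite (𝓝 0) :=
  (tendsto_rpow_atBot_of_base_gt_one 2 one_lt_two).comp (tendsto_neg_atTop_atBot.comp hh)

theorem CC.nuc {M : ι → ι → A} (h : CC V M) :
    ∃ r : ι → ℝ, (∀ i, 0 < r i) ∧ DW.Nuc M r fun i => 2 ^ (-V i) := by
  obtain ⟨h, h1, h2⟩ := h
  refine ⟨fun i => 2 ^ (-h i), fun i => by positivity, fun i => by positivity,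
    tendsto_two_rpow_neg h1, fun i j => ?_⟩
  refine (mul_le_mul_of_nonneg_right (h2 i j) (by positivity)).trans (le_of_eq ?_)
  rw [← Real.rpow_add two_pos, ← Real.rpow_add two_pos]
  congr 1
  ring

theorem CC.of_le {M : ι → ι → A} {r : ι → ℝ} (hr : ∀ i, 0 < r i) (h0 : Tendsto r cofinite (𝓝 0))
    (h : ∀ i j, ‖M i j‖ * 2 ^ V i ≤ r i * 2 ^ V j) : CC V M := by
  refine ⟨fun i => -Real.logb 2 (r i), ?_, fun i j => ?_⟩
  · exact tendsto_neg_atBot_atTop.comp ((Real.tendsto_logb_nhdsGT_zero one_lt_two).comp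
      (tendsto_nhdsWithin_iff.mpr ⟨h0, Eventually.of_forall hr⟩))
  · rw [neg_neg, Real.rpow_add two_pos, Real.rpow_sub two_pos,
      Real.rpow_logb two_pos (by norm_num) (hr i), div_mul_eq_mul_div,
      le_div_iff₀ (by positivity)]
    exact h i j

theorem CC.le {M : ι → ι → A} (h : CC V M) : ∃ r : ι → ℝ, (∀ i, 0 < r i) ∧
    Tendsto r cofinite (𝓝 0) ∧ ∀ i j, ‖M i j‖ * 2 ^ V i ≤ r i * 2 ^ V j := by
  obtain ⟨h, h1, h2⟩ := h
  refine ⟨fun i => 2 ^ (-h i), fun i => by positivity, tendsto_two_rpow_neg h1, fun i j => ?_⟩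
  refine (mul_le_mul_of_nonneg_right (h2 i j) (by positivity)).trans (le_of_eq ?_)
  rw [← Real.rpow_add two_pos, ← Real.rpow_add two_pos]
  congr 1
  ring

theorem RowB.le {x : ι → A} (h : RowB V x) : ∃ C : ℝ, 0 < C ∧ ∀ r, ‖x r‖ ≤ C * 2 ^ V r := by
  obtain ⟨C, hC⟩ := h
  exact ⟨max C 1, lt_max_of_lt_right one_pos, fun r => (hC r).trans
    (mul_le_mul_of_nonneg_right (le_max_left _ _) (by positivity))⟩

theorem ColB.le {y : ι → A} (h : ColB V y) : ∃ C : ℝ, 0 < C ∧ ∀ r, ‖y r‖ * 2 ^ V r ≤ C := by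
  obtain ⟨C, -, hC⟩ := DW.exists_bound_of_tendsto h
  exact ⟨max C 1, lt_max_of_lt_right one_pos, fun r => (hC r).trans (le_max_left _ _)⟩

theorem CC.row {M : ι → ι → A} (h : CC V M) (i : ι) : RowB V (M i) := by
  obtain ⟨r, -, -, h2⟩ := h.le
  refine ⟨r i / 2 ^ V i, fun j => ?_⟩
  rw [div_mul_eq_mul_div, le_div_iff₀ (by positivity)]
  exact h2 i j

theorem CC.col {M : ι → ι → A} (h : CC V M) (j : ι) : ColB V fun i => M i j := by
  obtain ⟨r, -, h1, h2⟩ := h.le
  exact squeeze_zero (fun i => by positivity) (fun i => h2 i j)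
    (by simpa using h1.mul_const (2 ^ V j))

theorem norm_row_mul_le {x : ι → A} {C : ℝ} (hx : ∀ r, ‖x r‖ ≤ C * 2 ^ V r) (r : ι) (y : A) :
    ‖x r * y‖ ≤ C * (‖y‖ * 2 ^ V r) := by
  refine (norm_mul_le _ _).trans ((mul_le_mul_of_nonneg_right (hx r) (norm_nonneg _)).trans
    (le_of_eq ?_))
  ring

theorem summable_dot {x y : ι → A} (hx : RowB V x) (hy : ColB V y) :
    Summable fun r => x r * y r := by
  obtain ⟨C, hC⟩ := hx
  exact DW.summable_of_le (by simpa using Tendsto.const_mul C hy) fun r =>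
    norm_row_mul_le hC r (y r)

theorem norm_dot_le {x y : ι → A} {C C' : ℝ} (hC : 0 ≤ C) (hC' : 0 ≤ C')
    (hx : ∀ r, ‖x r‖ ≤ C * 2 ^ V r) (hy : ∀ r, ‖y r‖ * 2 ^ V r ≤ C') : ‖dot x y‖ ≤ C * C' :=
  IsUltrametricDist.norm_tsum_le_of_forall_le_of_nonneg (by positivity) fun r =>
    (norm_row_mul_le hx r _).trans (mul_le_mul_of_nonneg_left (hy r) hC)

theorem RowB.vmul {x : ι → A} {M : ι → ι → A} (hx : RowB V x) (hM : CC V M) :
    RowB V (vmul x M) := by
  obtain ⟨C, hC0, hC⟩ := hx.le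
  obtain ⟨r, -, h1, h2⟩ := hM.le
  obtain ⟨c, hc0, hc⟩ := DW.exists_bound_of_tendsto h1
  refine ⟨C * c, fun j => ?_⟩
  rw [mul_assoc]
  exact norm_dot_le (y := fun i => M i j) hC0.le (by positivity) hC fun i =>
    (h2 i j).trans (mul_le_mul_of_nonneg_right (hc i) (by positivity))

theorem norm_mulv_le {y : ι → A} {M : ι → ι → A} {r : ι → ℝ} {C : ℝ} (hC : 0 ≤ C)
    (hr : ∀ i, 0 < r i) (hM : ∀ i j, ‖M i j‖ * 2 ^ V i ≤ r i * 2 ^ V j)
    (hy : ∀ r, ‖y r‖ * 2 ^ V r ≤ C) (i : ι) : ‖mulv M y i‖ * 2 ^ V i ≤ r i * C := by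
  have h0 := hr i
  have h1 : ‖dot (M i) y‖ ≤ r i / 2 ^ V i * C := by
    refine norm_dot_le (by positivity) hC (fun j => ?_) hy
    rw [div_mul_eq_mul_div, le_div_iff₀ (by positivity)]
    exact hM i j
  rwa [div_mul_eq_mul_div, le_div_iff₀ (by positivity)] at h1

theorem ColB.mulv {y : ι → A} {M : ι → ι → A} (hy : ColB V y) (hM : CC V M) :
    ColB V (mulv M y) := by
  obtain ⟨C, hC0, hC⟩ := hy.le
  obtain ⟨r, h0, h1, h2⟩ := hM.le
  exact squeeze_zero (fun i => by positivity) (norm_mulv_le hC0.le h0 h2 hC)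
    (by simpa using h1.mul_const C)

theorem CC.mmul {M N : ι → ι → A} (hM : CC V M) (hN : CC V N) : CC V (mmul M N) := by
  obtain ⟨r, h0, h1, h2⟩ := hM.le
  obtain ⟨r', -, h1', h2'⟩ := hN.le
  obtain ⟨c, hc0, hc⟩ := DW.exists_bound_of_tendsto h1'
  refine CC.of_le (r := fun i => r i * (c + 1)) (fun i => mul_pos (h0 i) (by linarith))
    (by simpa using h1.mul_const (c + 1)) fun i j => ?_
  rw [mul_assoc]
  exact norm_mulv_le (y := fun k => N k j) (by positivity) h0 h2 (fun k => (h2' k j).trans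
    (mul_le_mul_of_nonneg_right (by linarith [hc k]) (by positivity))) i

theorem CC.mpow {M : ι → ι → A} (hM : CC V M) (n : ℕ) : CC V (mpow M n) := by
  induction n with
  | zero => exact hM
  | succ n ih => exact ih.mmul hM

theorem CC.summable_diag {M : ι → ι → A} (hM : CC V M) : Summable fun i => M i i := by
  obtain ⟨r, -, h1, h2⟩ := hM.le
  exact DW.summable_of_le h1 fun i => le_of_mul_le_mul_right (h2 i i) (by positivity)

theorem tendsto_mul_cofinite {a b : ι → ℝ} (ha0 : ∀ i, 0 ≤ a i) (hb0 : ∀ i, 0 ≤ b i)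
    (ha : Tendsto a cofinite (𝓝 0)) (hb : Tendsto b cofinite (𝓝 0)) :
    Tendsto (fun p : ι × ι => a p.1 * b p.2) cofinite (𝓝 0) := by
  obtain ⟨c, hc0, hc⟩ := DW.exists_bound_of_tendsto ha
  obtain ⟨c', hc0', hc'⟩ := DW.exists_bound_of_tendsto hb
  rw [← Filter.coprod_cofinite, Filter.coprod, tendsto_sup]
  constructor
  · exact squeeze_zero (fun p => mul_nonneg (ha0 _) (hb0 _))
      (fun p => mul_le_mul_of_nonneg_left (hc' _) (ha0 _))
      (by simpa using (ha.comp tendsto_comap).mul_const c')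
  · exact squeeze_zero (fun p => mul_nonneg (ha0 _) (hb0 _))
      (fun p => mul_le_mul_of_nonneg_right (hc _) (hb0 _))
      (by simpa using (hb.comp tendsto_comap).const_mul c)

/-- Associativity of row times matrix times column. -/
theorem dot_mulv {x y : ι → A} {M : ι → ι → A} (hx : RowB V x) (hM : CC V M) (hy : ColB V y) :
    dot x (mulv M y) = dot (vmul x M) y := by
  obtain ⟨C, hC0, hC⟩ := hx.le
  obtain ⟨r, h0, h1, h2⟩ := hM.le
  have hb : Tendsto (fun p : ι × ι => C * r p.1 * (‖y p.2‖ * 2 ^ V p.2)) cofinite (𝓝 0) :=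
    tendsto_mul_cofinite (a := fun i => C * r i) (b := fun j => ‖y j‖ * 2 ^ V j)
      (fun i => mul_nonneg hC0.le (h0 i).le) (fun i => by positivity)
      (by simpa using h1.const_mul C) hy
  have hs : Summable (Function.uncurry fun i j => x i * M i j * y j) := by
    refine DW.summable_of_le hb fun p => ?_
    calc ‖x p.1 * M p.1 p.2 * y p.2‖ ≤ ‖x p.1 * M p.1 p.2‖ * ‖y p.2‖ := norm_mul_le _ _
      _ ≤ C * (r p.1 * 2 ^ V p.2) * ‖y p.2‖ := mul_le_mul_of_nonneg_right
          ((norm_row_mul_le hC _ _).trans (mul_le_mul_of_nonneg_left (h2 _ _) hC0.le))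
          (norm_nonneg _)
      _ = _ := by ring
  unfold dot mulv vmul
  have h3 : ∀ i, x i * ∑' j, M i j * y j = ∑' j, x i * M i j * y j := fun i => by
    rw [← (summable_dot (hM.row i) hy).tsum_mul_left]
    simp only [mul_assoc]
  have h4 : ∀ j, (∑' i, x i * M i j) * y j = ∑' i, x i * M i j * y j := fun j =>
    ((summable_dot hx (hM.col j)).tsum_mul_right _).symm
  simp only [h3, h4]
  exact hs.tsum_comm.symm

theorem mulv_mmul {y : ι → A} {M N : ι → ι → A} (hM : CC V M) (hN : CC V N) (hy : ColB V y) :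
    mulv (mmul M N) y = mulv M (mulv N y) :=
  funext fun i => (dot_mulv (hM.row i) hN hy).symm

theorem vmul_mmul {x : ι → A} {M N : ι → ι → A} (hx : RowB V x) (hM : CC V M) (hN : CC V N) :
    vmul x (mmul M N) = vmul (vmul x M) N :=
  funext fun j => dot_mulv hx hM (hN.col j)

theorem dot_sum_left {Z : Type} [Fintype Z] {x : Z → ι → A} {y : ι → A} (c : Z → A)
    (hx : ∀ z, RowB V (x z)) (hy : ColB V y) :
    dot (fun r => ∑ z, c z * x z r) y = ∑ z, c z * dot (x z) y := by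
  unfold dot
  simp only [Finset.sum_mul, mul_assoc]
  rw [Summable.tsum_finsetSum fun z _ => (summable_dot (hx z) hy).mul_left _]
  exact Finset.sum_congr rfl fun z _ => (summable_dot (hx z) hy).tsum_mul_left _

theorem dot_sum_right {Z : Type} [Fintype Z] {x : ι → A} {y : Z → ι → A} (c : Z → A)
    (hx : RowB V x) (hy : ∀ z, ColB V (y z)) :
    dot x (fun r => ∑ z, y z r * c z) = ∑ z, dot x (y z) * c z := by
  unfold dot
  simp only [Finset.mul_sum, ← mul_assoc]
  rw [Summable.tsum_finsetSum fun z _ => (summable_dot hx (hy z)).mul_right _]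
  exact Finset.sum_congr rfl fun z _ => (summable_dot hx (hy z)).tsum_mul_right _

theorem dot_sub_sum_left {Z : Type} [Fintype Z] {u : ι → A} {x : Z → ι → A} {y : ι → A}
    (c : Z → A) (hu : RowB V u) (hx : ∀ z, RowB V (x z)) (hy : ColB V y) :
    dot (fun r => u r - ∑ z, c z * x z r) y = dot u y - ∑ z, c z * dot (x z) y := by
  rw [← dot_sum_left c hx hy]
  unfold dot
  simp only [sub_mul]
  refine (summable_dot hu hy).tsum_sub ?_
  simp only [Finset.sum_mul, mul_assoc]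
  exact summable_sum fun z _ => (summable_dot (hx z) hy).mul_left _

theorem dot_sub_sum_right {Z : Type} [Fintype Z] {x u : ι → A} {y : Z → ι → A}
    (c : Z → A) (hx : RowB V x) (hu : ColB V u) (hy : ∀ z, ColB V (y z)) :
    dot x (fun r => u r - ∑ z, y z r * c z) = dot x u - ∑ z, dot x (y z) * c z := by
  rw [← dot_sum_right c hx hy]
  unfold dot
  simp only [mul_sub]
  refine (summable_dot hx hu).tsum_sub ?_
  simp only [Finset.mul_sum, ← mul_assoc]
  exact summable_sum fun z _ => (summable_dot hx (hy z)).mul_right _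

/-- Subtracting an operator of finite rank. -/
theorem CC.sub_sum {Z : Type} [Fintype Z] {M : ι → ι → A} {x y : Z → ι → A} (hM : CC V M)
    (hy : ∀ z, ColB V (y z)) (hx : ∀ z, RowB V (x z)) :
    CC V fun r c => M r c - ∑ z, y z r * x z c := by
  obtain ⟨r, h0, h1, h2⟩ := hM.le
  choose C hC0 hC using fun z => (hx z).le
  have h3 : ∀ i, 0 ≤ ∑ z, C z * (‖y z i‖ * 2 ^ V i) := fun i =>
    Finset.sum_nonneg fun z _ => mul_nonneg (hC0 z).le (by positivity)
  refine CC.of_le (r := fun i => r i + ∑ z, C z * (‖y z i‖ * 2 ^ V i))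
    (fun i => add_pos_of_pos_of_nonneg (h0 i) (h3 i))
    (by simpa using h1.add (tendsto_finsetSum Finset.univ fun z _ => Tendsto.const_mul (C z) (hy z)))
    fun i j => ?_
  refine (mul_le_mul_of_nonneg_right ((norm_sub_le _ _).trans
    (add_le_add le_rfl (norm_sum_le _ _))) (by positivity)).trans ?_
  rw [add_mul, add_mul, Finset.sum_mul, Finset.sum_mul]
  refine add_le_add (h2 i j) (Finset.sum_le_sum fun z _ => ?_)
  calc ‖y z i * x z j‖ * 2 ^ V i ≤ (‖y z i‖ * (C z * 2 ^ V j)) * 2 ^ V i :=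
        mul_le_mul_of_nonneg_right ((norm_mul_le _ _).trans
          (mul_le_mul_of_nonneg_left (hC z j) (norm_nonneg _))) (by positivity)
    _ = _ := by ring

theorem tsum_diag_sub_sum {Z : Type} [Fintype Z] {M : ι → ι → A} {x y : Z → ι → A} (hM : CC V M)
    (hy : ∀ z, ColB V (y z)) (hx : ∀ z, RowB V (x z)) :
    ∑' r, (M r r - ∑ z, y z r * x z r) = ∑' r, M r r - ∑ z, dot (x z) (y z) := by
  have h1 : ∀ z, Summable fun r => y z r * x z r := fun z => by
    simpa only [mul_comm] using summable_dot (hx z) (hy z)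
  rw [hM.summable_diag.tsum_sub (summable_sum fun z _ => h1 z),
    Summable.tsum_finsetSum fun z _ => h1 z]
  simp only [dot, mul_comm]

end Pool.Agent.Lib.MP_788af2_nt.AG
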