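import Pool.Agent.Lib.MP_788af2_nt.AG.Syl

/-!
Exact left eigenvectors from approximate ones.
-/

set_option linter.unusedSectionVars false

namespace Pool.Agent.Lib.MP_788af2_nt.AG

open Filter Topology

variable {K ι A Z J : Type} [NontriviallyNormedField K] [IsUltrametricDist K] [CompleteSpace K]
  [NormedCommRing A] [NormedAlgebra K A] [IsUltrametricDist A] [CompleteSpace A] [NormOneClass A]
  [DecidableEq ι] [Fintype Z] [DecidableEq Z] [Fintype J] [DecidableEq J]

/-- `M (1 - w ρ)`. -/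
noncomputable def cutR (M : ι → ι → A) (w ρ : Z → ι → A) (r c : ι) : A :=
  M r c - ∑ z, mulv M (w z) r * ρ z c

/-- `(1 - y Y) M`, where `Y j` is `yi j` times the coordinate `E j`. -/
noncomputable def cutL (M : ι → ι → A) (y : J → ι → A) (E : J → ι) (yi : J → A) (r c : ι) : A :=
  M r c - ∑ j, y j r * (yi j * M (E j) c)

section aux

variable {V : ι → ℝ}

lemma ric_pos (t : ℝ) : (0 : ℝ) < 2 ^ t := Real.rpow_pos_of_pos two_pos t

lemma ric_add {a b : A} {D : ℝ} (ha : ‖a‖ ≤ D) (hb : ‖b‖ ≤ D) : ‖a + b‖ ≤ D :=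
  (IsUltrametricDist.norm_add_le_max a b).trans (max_le ha hb)

lemma ric_sub {a b : A} {D : ℝ} (ha : ‖a‖ ≤ D) (hb : ‖b‖ ≤ D) : ‖a - b‖ ≤ D := by
  rw [sub_eq_add_neg]
  exact ric_add ha (by rwa [norm_neg])

lemma ric_sum {f : Z → A} {D : ℝ} (hD : 0 ≤ D) (h : ∀ z, ‖f z‖ ≤ D) : ‖∑ z, f z‖ ≤ D :=
  IsUltrametricDist.norm_sum_le_of_forall_le_of_nonneg hD fun z _ => h z

lemma ric_mul {a b : A} {s t D : ℝ} (ha : ‖a‖ ≤ s) (hb : ‖b‖ ≤ t) (h : s * t ≤ D) :
    ‖a * b‖ ≤ D :=
  ((norm_mul_le a b).trans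
    (mul_le_mul ha hb (norm_nonneg _) ((norm_nonneg _).trans ha))).trans h

lemma ric_hs {x y : ι → A} (hx : RowB V x) (hy : ColB V y) :
    HasSum (fun r => x r * y r) (dot x y) := by
  obtain ⟨C, hC⟩ := hx
  refine (NonarchimedeanAddGroup.summable_of_tendsto_cofinite_zero ?_).hasSum
  rw [tendsto_zero_iff_norm_tendsto_zero]
  refine squeeze_zero (fun _ => norm_nonneg _) (fun r => ?_) (by simpa using hy.const_mul C)
  exact ric_mul (hC r) le_rfl (le_of_eq (by ring))

lemma ric_dot_le {x y : ι → A} {a b : ℝ} (ha : 0 ≤ a) (hb : 0 ≤ b)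
    (hx : ∀ r, ‖x r‖ ≤ a * 2 ^ V r) (hy : ∀ r, ‖y r‖ ≤ b * 2 ^ (-V r)) : ‖dot x y‖ ≤ a * b := by
  refine IsUltrametricDist.norm_tsum_le_of_forall_le_of_nonneg (mul_nonneg ha hb) fun r => ?_
  refine ric_mul (hx r) (hy r) (le_of_eq ?_)
  have := ric_pos (V r)
  rw [Real.rpow_neg two_pos.le]
  field_simp

lemma ric_zero {h : ι → ℝ} (hh : Tendsto h cofinite atTop) :
    Tendsto (fun r => (2 : ℝ) ^ (-h r)) cofinite (𝓝 0) :=
  (tendsto_rpow_atBot_of_base_gt_one 2 one_lt_two).comp (tendsto_neg_atTop_atBot.comp hh)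

lemma ric_split (a b c : ℝ) : (2 : ℝ) ^ (-a - b + c) = 2 ^ (-a) * 2 ^ (-b) * 2 ^ c := by
  rw [sub_eq_add_neg, Real.rpow_add two_pos, Real.rpow_add two_pos]

lemma ric_cancel (b : ℝ) : (2 : ℝ) ^ (-b) * 2 ^ b = 1 := by
  rw [← Real.rpow_add two_pos, neg_add_cancel, Real.rpow_zero]

lemma ric_col {M : ι → ι → A} (hM : CC V M) (c : ι) : ColB V fun r => M r c := by
  obtain ⟨h, hh, hM⟩ := hM
  refine squeeze_zero (fun r => mul_nonneg (norm_nonneg _) (ric_pos _).le) (fun r => ?_)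
    (by simpa using (ric_zero hh).mul_const (2 ^ V c))
  refine (mul_le_mul_of_nonneg_right (hM r c) (ric_pos _).le).trans (le_of_eq ?_)
  rw [ric_split]
  linear_combination (2 ^ (-h r) * 2 ^ V c) * ric_cancel (V r)

lemma ric_row {M : ι → ι → A} (hM : CC V M) (r : ι) : RowB V (M r) := by
  obtain ⟨h, -, hM⟩ := hM
  exact ⟨2 ^ (-h r) * 2 ^ (-V r), fun c => (hM r c).trans (ric_split _ _ _).le⟩

lemma ric_mulv {M : ι → ι → A} (hM : CC V M) {y : ι → A} (hy : ColB V y) :
    ColB V (mulv M y) := by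
  obtain ⟨h, hh, hM⟩ := hM
  obtain ⟨b, hb⟩ := Filter.Tendsto.bddAbove_range_of_cofinite hy
  have hb' : ∀ c, ‖y c‖ ≤ max b 0 * 2 ^ (-V c) := fun c => by
    have h1 : ‖y c‖ * 2 ^ V c ≤ max b 0 := (hb ⟨c, rfl⟩).trans (le_max_left _ _)
    have h2 := mul_le_mul_of_nonneg_right h1 (ric_pos (-V c)).le
    rwa [mul_assoc, mul_comm (2 ^ V c), ric_cancel, mul_one] at h2
  refine squeeze_zero (fun r => mul_nonneg (norm_nonneg _) (ric_pos _).le) (fun r => ?_)
    (by simpa using (ric_zero hh).mul_const (max b 0))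
  have := ric_dot_le (V := V) (x := M r) (y := y) (a := 2 ^ (-h r) * 2 ^ (-V r))
    (mul_pos (ric_pos _) (ric_pos _)).le (le_max_right b 0)
    (fun c => (hM r c).trans (ric_split _ _ _).le) hb'
  refine (mul_le_mul_of_nonneg_right this (ric_pos _).le).trans (le_of_eq ?_)
  linear_combination (2 ^ (-h r) * max b 0) * ric_cancel (V r)

lemma ric_fub {M : ι → ι → A} (hM : CC V M) {x y : ι → A} (hx : RowB V x) (hy : ColB V y) :
    dot (vmul x M) y = dot x (mulv M y) := by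
  have hs : Summable (Function.uncurry fun r c => x r * M r c * y c) := by
    obtain ⟨h, hh, hM⟩ := hM
    obtain ⟨C, hC⟩ := hx
    refine NonarchimedeanAddGroup.summable_of_tendsto_cofinite_zero ?_
    rw [tendsto_zero_iff_norm_tendsto_zero]
    have h0 : Tendsto (fun r => C * (2 : ℝ) ^ (-h r)) cofinite (𝓝 0) := by
      simpa using (ric_zero hh).const_mul C
    refine squeeze_zero (fun _ => norm_nonneg _) (fun p => ?_)
      (tendsto_mul_cofinite_nhds_zero h0 hy)
    refine ric_mul (ric_mul (hC p.1) (hM p.1 p.2) le_rfl) le_rfl (le_of_eq ?_)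
    rw [ric_split]
    linear_combination (C * 2 ^ (-h p.1) * 2 ^ V p.2 * ‖y p.2‖) * ric_cancel (V p.1)
  have h1 : ∀ c, vmul x M c * y c = ∑' r, x r * M r c * y c := fun c =>
    ((ric_hs hx (ric_col hM c)).summable.tsum_mul_right (y c)).symm
  have h2 : ∀ r, x r * mulv M y r = ∑' c, x r * M r c * y c := fun r => by
    simp only [mul_assoc]
    exact ((ric_hs (ric_row hM r) hy).summable.tsum_mul_left (x r)).symm
  simp only [dot, h1, h2]
  exact hs.tsum_comm

include K in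
lemma ric_vanish (h2 : ‖(2 : K)‖ = 1 / 2) {P Pi : Matrix Z Z ℤ} (hP : P * Pi = 1)
    {X : Z → J → A} (h : ∀ D : ℝ, 0 ≤ D → (∀ z j, ‖X z j‖ ≤ D) →
      ∀ z j, ‖2 * ∑ z', (P z z' : A) * X z' j‖ ≤ D / 4) (z : Z) (j : J) : X z j = 0 := by
  have hP' : Pi * P = 1 := mul_eq_one_comm.1 hP
  have hD : ∀ z j, ‖X z j‖ ≤ ‖X‖ := fun z j =>
    (norm_le_pi_norm (X z) j).trans (norm_le_pi_norm X z)
  have h0 := norm_nonneg X
  have key : ∀ z j, ‖X z j‖ ≤ ‖X‖ / 2 := by
    intro z j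
    have e1 : ∀ z'', ∑ z', (Pi z z' : A) * (P z' z'' : A) = if z = z'' then 1 else 0 := by
      intro z''
      have := congrFun (congrFun hP' z) z''
      rw [Matrix.mul_apply, Matrix.one_apply] at this
      exact_mod_cast congrArg (Int.cast : ℤ → A) this
    have e : 2 * X z j = ∑ z', (Pi z z' : A) * (2 * ∑ z'', (P z' z'' : A) * X z'' j) := by
      calc 2 * X z j = ∑ z'', (∑ z', (Pi z z' : A) * (P z' z'' : A)) * (2 * X z'' j) := by
            simp [e1]
        _ = _ := by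
            simp only [Finset.sum_mul, Finset.mul_sum]
            rw [Finset.sum_comm]
            exact Finset.sum_congr rfl fun _ _ => Finset.sum_congr rfl fun _ _ => by ring
    have n2 : ‖2 * X z j‖ = ‖X z j‖ / 2 := by
      have : (2 : A) * X z j = (2 : K) • X z j := by rw [two_mul, two_smul]
      rw [this, norm_smul, h2]; ring
    have : ‖2 * X z j‖ ≤ ‖X‖ / 4 := by
      rw [e]
      exact ric_sum (by positivity) fun z' =>
        ric_mul (IsUltrametricDist.norm_intCast_le_one A _) (h _ h0 hD z' j) (by rw [one_mul])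
    linarith
  have : ‖X‖ ≤ ‖X‖ / 2 := (pi_norm_le_iff_of_nonneg (by positivity)).2 fun z =>
    (pi_norm_le_iff_of_nonneg (by positivity)).2 (key z)
  exact norm_le_zero_iff.1 ((hD z j).trans (by linarith))

lemma ric_fix {u : ι → ℝ} (hu : ∀ r, 0 ≤ u r) {D : ℝ} (hD : 0 ≤ D)
    (Φ : (Z → ι → A) → Z → ι → A)
    (hb : ∀ ζ, (∀ z r, ‖ζ z r‖ ≤ D * u r) → ∀ z r, ‖Φ ζ z r‖ ≤ D * u r)
    (hc : ∀ ζ ζ' (δ : ℝ), 0 ≤ δ → (∀ z r, ‖ζ z r‖ ≤ D * u r) → (∀ z r, ‖ζ' z r‖ ≤ D * u r) →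
      (∀ z r, ‖ζ z r - ζ' z r‖ ≤ δ * u r) → ∀ z r, ‖Φ ζ z r - Φ ζ' z r‖ ≤ δ / 2 * u r) :
    ∃ ζ, (∀ z r, ‖ζ z r‖ ≤ D * u r) ∧ Φ ζ = ζ := by
  set s : ℕ → Z → ι → A := fun k => Φ^[k] 0 with hs
  have s1 : ∀ k, s (k + 1) = Φ (s k) := fun k => Function.iterate_succ_apply' Φ k 0
  have b : ∀ k z r, ‖s k z r‖ ≤ D * u r := by
    intro k
    induction k with
    | zero => intro z r; simpa [hs] using mul_nonneg hD (hu r)
    | succ k ih => rw [s1]; exact hb _ ih
  have d : ∀ k z r, ‖s k z r - s (k + 1) z r‖ ≤ D * (1 / 2) ^ k * u r := by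
    intro k
    induction k with
    | zero => intro z r; simpa using ric_sub (b 0 z r) (b 1 z r)
    | succ k ih =>
      intro z r
      have := hc _ _ _ (by positivity) (b k) (b (k + 1)) ih z r
      rw [← s1, ← s1] at this
      exact this.trans (le_of_eq (by ring))
  have d' : ∀ z r k, dist (s k z r) (s (k + 1) z r) ≤ D * u r * (1 / 2) ^ k := fun z r k => by
    rw [dist_eq_norm]
    exact (d k z r).trans (le_of_eq (by ring))
  have l : ∀ z r, ∃ a, Tendsto (fun k => s k z r) atTop (𝓝 a) := fun z r =>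
    cauchySeq_tendsto_of_complete
      (cauchySeq_of_le_geometric (1 / 2) (D * u r) (by norm_num) (d' z r))
  choose L hL using l
  have bL : ∀ z r, ‖L z r‖ ≤ D * u r := fun z r =>
    le_of_tendsto' (hL z r).norm fun k => b k z r
  have dL : ∀ k z r, ‖s k z r - L z r‖ ≤ 2 * D * (1 / 2) ^ k * u r := fun k z r => by
    have := dist_le_of_le_geometric_of_tendsto (1 / 2) (D * u r) (by norm_num) (d' z r) (hL z r) k
    rw [dist_eq_norm] at this
    exact this.trans (le_of_eq (by ring))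
  refine ⟨L, bL, funext fun z => funext fun r => ?_⟩
  refine tendsto_nhds_unique ?_ ((hL z r).comp (tendsto_add_atTop_nat 1))
  rw [tendsto_iff_norm_sub_tendsto_zero]
  have t0 : Tendsto (fun k : ℕ => D * (1 / 2 : ℝ) ^ k * u r) atTop (𝓝 0) := by
    simpa using ((tendsto_pow_atTop_nhds_zero_of_lt_one (r := (1 / 2 : ℝ)) (by norm_num)
      (by norm_num)).const_mul D).mul_const (u r)
  refine squeeze_zero (fun _ => norm_nonneg _) (fun k => ?_) t0
  have := hc _ _ _ (by positivity) (b k) bL (dL k) z r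
  rw [← s1] at this
  exact this.trans (le_of_eq (by ring))

end aux

lemma ric_ts {f g : ι → A} {s : A} (h : HasSum g s) (e : ∀ r, f r = g r) : ∑' r, f r = s := by
  rw [funext e]
  exact h.tsum_eq

theorem riccati (h2 : ‖(2 : K)‖ = 1 / 2) (C : ℝ) (hC : 1 ≤ C) : ∃ ε : ℝ, 0 < ε ∧
    ∀ {ι A Z J : Type} [NormedCommRing A] [NormedAlgebra K A] [IsUltrametricDist A]
      [CompleteSpace A] [NormOneClass A] [DecidableEq ι] [Fintype Z] [DecidableEq Z] [Fintype J]
      [DecidableEq J] {U V : ι → ℝ} {ϑ : ℝ} {S B : Finset ι} {π : ι → ι} {M : ι → ι → A}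
      {ρ w E' : Z → ι → A} {y : J → ι → A} {E : J → ι} {yi : J → A} {a : Matrix J J A}
      {ry : Z → J → A} {P Pi : Matrix Z Z ℤ} {c : Z → K},
      CC V M → (∀ r c, ‖M r c‖ ≤ 2 ^ (V c - U r)) → Dom U V ϑ S B π (cutL (cutR M w ρ) y E yi) →
      P * Pi = 1 → (∀ z z', P z z' ≠ 0 → c z = c z') → (∀ z, c z ≠ 0) → (∀ z, ‖c z‖ ≤ ε) →
      (∀ z r, ‖ρ z r‖ ≤ C * 2 ^ V r) → (∀ z r, ‖w z r‖ ≤ C * 2 ^ (-V r)) → (∀ z, ColB V (w z)) →
      (∀ z z', dot (ρ z) (w z') = if z = z' then 1 else 0) →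
      (∀ z r, ‖E' z r‖ ≤ C * 2 ^ V r) →
      (∀ z r, vmul (ρ z) M r = 2 * ∑ z', P z z' • ρ z' r + c z • E' z r) →
      (∀ j, ColB V (y j)) → (∀ j j', y j (E j') * yi j' = if j = j' then 1 else 0) →
      (∀ j, ‖yi j‖ ≤ C * 2 ^ U (E j)) →
      (∀ j r, mulv M (y j) r = 2 * ∑ j', y j' r * a j' j) →
      (∀ z j, dot (ρ z) (y j) = c z • ry z j) → (∀ z j, ‖ry z j‖ ≤ C) →
      ∃ (ζ : Z → ι → A) (N : Matrix Z Z A), (∀ z r, ‖ζ z r‖ ≤ C ^ 4 * 2 ^ U r) ∧
        (∀ z z', ‖N z z'‖ ≤ 4 * C ^ 5) ∧ (∀ z z', dot (ζ z) (w z') = 0) ∧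
        (∀ z j, dot (ζ z) (y j) = -ry z j) ∧
        ∀ z r, vmul (ζ z) M r = 2 * ∑ z', P z z' • ζ z' r - E' z r +
          4 * ∑ z', N z z' * (ρ z' r + c z' • ζ z' r) := by
  have C0 : (0 : ℝ) < C := one_pos.trans_le hC
  refine ⟨1 / (4 * C ^ 5), by positivity, ?_⟩
  intro ι A Z J _ _ _ _ _ _ _ _ _ _ U V ϑ S B π M ρ w E' y E yi a ry P Pi c hM hMle hD hP hPc hc0
    hcε hρ hw hwc hρw hE hρM hy hyE hyi hMy hρy hry
  have pw : ∀ {i j : ℕ}, i ≤ j → C ^ i ≤ C ^ j := fun h => pow_le_pow_right₀ hC h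
  have hUV : ∀ r, (2 : ℝ) ^ U r ≤ 2 * 2 ^ V r := by
    intro r
    have e : (2 : ℝ) * 2 ^ V r = 2 ^ (1 + V r) := by rw [Real.rpow_add two_pos, Real.rpow_one]
    by_cases hr : r ∈ S
    · have h1 := hD.diag r hr
      have h3 := hD.lt
      have h4 := ric_pos (V r - U r)
      have h5 : (2 : ℝ) ^ V r = 2 ^ (V r - U r) * 2 ^ U r := by
        rw [← Real.rpow_add two_pos, sub_add_cancel]
      have h6 := ric_pos (U r)
      rw [h5]
      nlinarith [mul_le_mul_of_nonneg_right (h1.trans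
        (mul_le_of_le_one_left h4.le h3.le)) h6.le]
    · rw [e, hD.off r hr]
  have rowV : ∀ {x : ι → A} {D : ℝ}, 0 ≤ D → (∀ r, ‖x r‖ ≤ D * 2 ^ U r) → RowB V x :=
    fun {x D} h0 h => ⟨D * 2, fun r => (h r).trans (by
      rw [mul_assoc]; exact mul_le_mul_of_nonneg_left (hUV r) h0)⟩
  have hM1 : ∀ r s, ‖M r s‖ ≤ 2 ^ (-U r) * 2 ^ V s := fun r s => (hMle r s).trans (by
    rw [← Real.rpow_add two_pos, sub_eq_neg_add])
  set κ : Z → A := fun z => algebraMap K A (c z) with hκ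
  have hκε : ∀ z, ‖κ z‖ ≤ 1 / (4 * C ^ 5) := fun z => by
    rw [hκ, norm_algebraMap']; exact hcε z
  have sm : ∀ z (x : A), c z • x = κ z * x := fun z x => Algebra.smul_def _ _
  simp only [zsmul_eq_mul, sm] at hρM hρy ⊢
  set m : Z → ι → A := fun z => mulv M (w z) with hm
  have mc : ∀ z, ColB V (m z) := fun z => ric_mulv hM (hwc z)
  have mle : ∀ z r, ‖m z r‖ ≤ C * 2 ^ (-U r) := fun z r =>
    (ric_dot_le (V := V) (ric_pos _).le C0.le (hM1 r) (hw z)).trans (mul_comm _ _).le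
  set T : J → ι → A := fun j s => yi j * cutR M w ρ (E j) s with hT
  have Tle : ∀ j s, ‖T j s‖ ≤ C ^ 3 * 2 ^ V s := by
    intro j s
    have p1 := ric_pos (-U (E j))
    have p2 := ric_pos (V s)
    have : ‖cutR M w ρ (E j) s‖ ≤ C ^ 2 * (2 ^ (-U (E j)) * 2 ^ V s) := by
      refine ric_sub ((hM1 _ _).trans (le_mul_of_one_le_left (by positivity)
        (one_le_pow₀ hC))) (ric_sum (by positivity) fun z => ?_)
      exact ric_mul (mle z _) (hρ z s) (le_of_eq (by ring))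
    refine ric_mul (hyi j) this (le_of_eq ?_)
    linear_combination (C ^ 3 * 2 ^ V s) * ric_cancel (U (E j))
  have Ew : ∀ z z', ‖dot (E' z) (w z')‖ ≤ C * C := fun z z' =>
    ric_dot_le C0.le C0.le (hE z) (hw z')
  set n : (Z → ι → A) → Z → Z → A := fun ζ z z' => dot (ζ z) (m z') + dot (E' z) (w z') with hn
  have nle : ∀ ζ : Z → ι → A, (∀ z r, ‖ζ z r‖ ≤ C ^ 4 * 2 ^ U r) → ∀ z z', ‖n ζ z z'‖ ≤ C ^ 5 :=
    fun ζ h z z' => ric_add
      ((ric_dot_le (by positivity) C0.le (h z) (mle z')).trans (le_of_eq (by ring)))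
      ((Ew z z').trans ((sq C).symm.le.trans (pw (by norm_num))))
  have nκ : ∀ {x t : A} {D : ℝ} (z : Z), ‖x‖ ≤ C ^ 5 → ‖t‖ ≤ D → ‖x * (κ z * t)‖ ≤ D / 4 :=
    fun z h1 h3 => ric_mul h1 (ric_mul (hκε z) h3 le_rfl) (le_of_eq (by field_simp))
  set R : (Z → ι → A) → Z → ι → A := fun ζ z r => E' z r - ∑ z', dot (E' z) (w z') * ρ z' r -
    ∑ j, ry z j * T j r - ∑ z', n ζ z z' * (κ z' * ζ z' r) with hR
  have Rle : ∀ ζ : Z → ι → A, (∀ z r, ‖ζ z r‖ ≤ C ^ 4 * 2 ^ U r) →
      ∀ z r, ‖R ζ z r‖ ≤ C ^ 4 * 2 ^ V r := by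
    intro ζ h z r
    have p := ric_pos (V r)
    have p4 : 0 < C ^ 4 := by positivity
    refine ric_sub (ric_sub (ric_sub ((hE z r).trans ?_) (ric_sum (by positivity) fun z' => ?_))
      (ric_sum (by positivity) fun j => ?_)) (ric_sum (by positivity) fun z' => ?_)
    · exact mul_le_mul_of_nonneg_right ((pow_one C).symm.le.trans (pw (by norm_num))) p.le
    · refine ric_mul (Ew z z') (hρ z' r) ?_
      rw [← mul_assoc]
      exact mul_le_mul_of_nonneg_right ((le_of_eq (by ring)).trans (pw (i := 3) (by norm_num))) p.le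
    · exact ric_mul (hry z j) (Tle j r) (le_of_eq (by ring))
    · refine (nκ z' (nle ζ h z z') (h z' r)).trans ?_
      nlinarith [mul_le_mul_of_nonneg_left (hUV r) p4.le, mul_pos p4 p]
  have sol : ∀ ζ : Z → ι → A, (∀ z r, ‖ζ z r‖ ≤ C ^ 4 * 2 ^ U r) → ∃ ζ' : Z → ι → A,
      (∀ z r, ‖ζ' z r‖ ≤ C ^ 4 * 2 ^ U r) ∧ ∀ z s, 2 * ∑ z', P z z' • ζ' z' s -
        vmul (ζ' z) (cutL (cutR M w ρ) y E yi) s = R ζ z s :=
    fun ζ h => hD.solve (K := K) h2 hP (by positivity) (Rle ζ h)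
  choose! Φ hΦ eΦ using sol
  obtain ⟨ζ, hζ, fx⟩ := ric_fix (u := fun r => 2 ^ U r) (fun r => (ric_pos _).le)
    (D := C ^ 4) (by positivity) Φ hΦ (by
      intro ζ ζ' δ δ0 h h' hd
      refine hD.bound (K := K) h2 hP (ζ := fun z r => Φ ζ z r - Φ ζ' z r) (by positivity)
        (fun z => ⟨_, fun r => ric_sub (hΦ ζ h z r) (hΦ ζ' h' z r)⟩) fun z s => ?_
      have e1 : vmul (fun r => Φ ζ z r - Φ ζ' z r) (cutL (cutR M w ρ) y E yi) s =
          vmul (Φ ζ z) (cutL (cutR M w ρ) y E yi) s -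
            vmul (Φ ζ' z) (cutL (cutR M w ρ) y E yi) s := by
        refine HasSum.tsum_eq ?_
        simp only [sub_mul]
        exact (ric_hs (rowV (by positivity) (hΦ ζ h z)) (ric_col hD.cc s)).sub
          (ric_hs (rowV (by positivity) (hΦ ζ' h' z)) (ric_col hD.cc s))
      have e2 : ∀ z', n ζ z z' - n ζ' z z' = dot (fun r => ζ z r - ζ' z r) (m z') := fun z' => by
        refine (HasSum.tsum_eq ?_).symm
        simp only [sub_mul, hn, add_sub_add_right_eq_sub]
        exact (ric_hs (rowV (by positivity) (h z)) (mc z')).sub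
          (ric_hs (rowV (by positivity) (h' z)) (mc z'))
      have e3 : 2 * ∑ z', P z z' • (Φ ζ z' s - Φ ζ' z' s) -
          vmul (fun r => Φ ζ z r - Φ ζ' z r) (cutL (cutR M w ρ) y E yi) s =
          -∑ z', (n ζ z z' * (κ z' * (ζ z' s - ζ' z' s)) +
            (n ζ z z' - n ζ' z z') * (κ z' * ζ' z' s)) := by
        have a1 := eΦ ζ h z s
        have a2 := eΦ ζ' h' z s
        simp only [hR] at a1 a2
        have a3 : ∑ z', (n ζ z z' * (κ z' * (ζ z' s - ζ' z' s)) +
            (n ζ z z' - n ζ' z z') * (κ z' * ζ' z' s)) =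
            ∑ z', n ζ z z' * (κ z' * ζ z' s) - ∑ z', n ζ' z z' * (κ z' * ζ' z' s) := by
          rw [← Finset.sum_sub_distrib]
          exact Finset.sum_congr rfl fun _ _ => by ring
        simp only [smul_sub, Finset.sum_sub_distrib]
        rw [e1, a3]
        linear_combination a1 - a2
      rw [e3, norm_neg]
      have p := ric_pos (V s)
      refine ric_sum (by positivity) fun z' => ric_add ?_ ?_
      · refine (nκ z' (nle ζ h z z') (hd z' s)).trans ?_
        nlinarith [mul_le_mul_of_nonneg_left (hUV s) δ0]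
      · rw [e2]
        refine ric_mul (ric_dot_le δ0 C0.le (hd z) (mle z'))
          (ric_mul (hκε z') (h' z' s) le_rfl) ?_
        have : δ * C * (1 / (4 * C ^ 5) * (C ^ 4 * 2 ^ U s)) = δ * 2 ^ U s / 4 := by field_simp
        rw [this]
        nlinarith [mul_le_mul_of_nonneg_left (hUV s) δ0])
  have eq := eΦ ζ hζ
  rw [fx] at eq
  have rζ : ∀ z, RowB V (ζ z) := fun z => rowV (by positivity) (hζ z)
  have rρ : ∀ z, RowB V (ρ z) := fun z => ⟨_, hρ z⟩
  have rE : ∀ z, RowB V (E' z) := fun z => ⟨_, hE z⟩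
  have rT : ∀ j, RowB V (T j) := fun j => ⟨_, Tle j⟩
  set d : Z → J → A := fun z j => dot (ζ z) (y j) + ry z j with hd
  have fp : ∀ z r, vmul (ζ z) M r = 2 * ∑ z', (P z z' : A) * ζ z' r - E' z r +
      ∑ z', n ζ z z' * (ρ z' r + κ z' * ζ z' r) + ∑ j, d z j * T j r := by
    intro z s
    have e1 : vmul (ζ z) (cutL (cutR M w ρ) y E yi) s = vmul (ζ z) M s -
        ∑ z', dot (ζ z) (m z') * ρ z' s - ∑ j, dot (ζ z) (y j) * T j s := by
      have := ((ric_hs (rζ z) (ric_col hM s)).sub (hasSum_sum (s := Finset.univ) fun z' _ =>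
        (ric_hs (rζ z) (mc z')).mul_right (ρ z' s))).sub (hasSum_sum (s := Finset.univ) fun j _ =>
        (ric_hs (rζ z) (hy j)).mul_right (T j s))
      refine ric_ts this fun r => ?_
      simp only [cutL, hT, hm]
      rw [cutR]
      simp only [mul_sub, Finset.mul_sum, mul_assoc]
    have a1 := eq z s
    simp only [hR, e1, zsmul_eq_mul] at a1
    simp only [hd, mul_add, add_mul, Finset.sum_add_distrib]
    have a2 : ∑ z', n ζ z z' * ρ z' s =
        ∑ z', dot (ζ z) (m z') * ρ z' s + ∑ z', dot (E' z) (w z') * ρ z' s := by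
      simp only [hn, add_mul, Finset.sum_add_distrib]
    linear_combination -a1 - a2
  have ap : ∀ z {t : ι → A}, ColB V t → dot (ζ z) (mulv M t) =
      2 * ∑ z', (P z z' : A) * dot (ζ z') t - dot (E' z) t +
      ∑ z', n ζ z z' * (dot (ρ z') t + κ z' * dot (ζ z') t) + ∑ j, d z j * dot (T j) t := by
    intro z t ht
    rw [← ric_fub hM (rζ z) ht]
    have := ((((hasSum_sum (s := Finset.univ) fun z' _ =>
      (ric_hs (rζ z') ht).mul_left (P z z' : A)).mul_left 2).sub (ric_hs (rE z) ht)).add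
      (hasSum_sum (s := Finset.univ) fun z' _ => ((ric_hs (rρ z') ht).add
        ((ric_hs (rζ z') ht).mul_left (κ z'))).mul_left (n ζ z z'))).add
      (hasSum_sum (s := Finset.univ) fun j _ => (ric_hs (rT j) ht).mul_left (d z j))
    refine ric_ts this fun r => ?_
    rw [fp]
    simp only [add_mul, sub_mul, Finset.sum_mul, mul_assoc]
  have Tap : ∀ j {t : ι → A}, ColB V t → dot (T j) t =
      yi j * (mulv M t (E j) - ∑ z, m z (E j) * dot (ρ z) t) := by
    intro j t ht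
    have := ((ric_hs (ric_row hM (E j)) ht).sub (hasSum_sum (s := Finset.univ) fun z _ =>
      (ric_hs (rρ z) ht).mul_left (m z (E j)))).mul_left (yi j)
    refine ric_ts this fun r => ?_
    simp only [hT, hm, cutR, sub_mul, Finset.sum_mul, mul_assoc]
  have X0 : ∀ z z', dot (ζ z) (w z') = 0 := by
    refine ric_vanish (K := K) h2 hP fun D D0 h z z'' => ?_
    have a1 := ap z (hwc z'')
    have a2 : ∀ j, dot (T j) (w z'') = 0 := fun j => by
      rw [Tap j (hwc z'')]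
      simp [hρw, hm]
    simp only [a2, mul_zero, Finset.sum_const_zero, add_zero, mul_add, Finset.sum_add_distrib, hρw,
      mul_ite, mul_one, Finset.sum_ite_eq', Finset.mem_univ, if_true] at a1
    have a3 : 2 * ∑ z', (P z z' : A) * dot (ζ z') (w z'') =
        -∑ z', n ζ z z' * (κ z' * dot (ζ z') (w z'')) := by
      have : n ζ z z'' = dot (ζ z) (mulv M (w z'')) + dot (E' z) (w z'') := rfl
      linear_combination -a1 - this
    rw [a3, norm_neg]
    exact ric_sum (by positivity) fun z' => nκ z' (nle ζ hζ z z') (h z' z'')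
  have xy : ∀ {x : ι → A}, RowB V x → ∀ j, dot x (mulv M (y j)) =
      2 * ∑ j', dot x (y j') * a j' j := by
    intro x hx j
    have := (hasSum_sum (s := Finset.univ) fun j' _ =>
      (ric_hs hx (hy j')).mul_right (a j' j)).mul_left 2
    refine ric_ts this fun r => ?_
    rw [hMy]
    simp only [Finset.mul_sum]
    exact Finset.sum_congr rfl fun _ _ => by ring
  have Ey : ∀ z j, dot (E' z) (y j) =
      2 * ∑ j', ry z j' * a j' j - 2 * ∑ z', (P z z' : A) * ry z' j := by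
    intro z j
    have a1 : dot (ρ z) (mulv M (y j)) =
        2 * ∑ z', (P z z' : A) * dot (ρ z') (y j) + κ z * dot (E' z) (y j) := by
      rw [← ric_fub hM (rρ z) (hy j)]
      have := ((hasSum_sum (s := Finset.univ) fun z' _ =>
        (ric_hs (rρ z') (hy j)).mul_left (P z z' : A)).mul_left 2).add
        ((ric_hs (rE z) (hy j)).mul_left (κ z))
      refine ric_ts this fun r => ?_
      rw [hρM]
      simp only [add_mul, Finset.sum_mul, mul_assoc]
    rw [xy (rρ z)] at a1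
    simp only [hρy] at a1
    have a2 : ∑ z', (P z z' : A) * (κ z' * ry z' j) = κ z * ∑ z', (P z z' : A) * ry z' j := by
      rw [Finset.mul_sum]
      refine Finset.sum_congr rfl fun z' _ => ?_
      by_cases h : P z z' = 0
      · simp [h]
      · have : κ z' = κ z := by simp only [hκ, hPc z z' h]
        rw [this]; ring
    have a3 : ∑ j', κ z * ry z j' * a j' j = κ z * ∑ j', ry z j' * a j' j := by
      simp only [Finset.mul_sum, mul_assoc]
    have a4 : algebraMap K A (c z)⁻¹ * κ z = 1 := by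
      rw [hκ, ← map_mul, inv_mul_cancel₀ (hc0 z), map_one]
    rw [a2, a3] at a1
    linear_combination (-algebraMap K A (c z)⁻¹) * a1 - (dot (E' z) (y j) -
      (2 * ∑ j', ry z j' * a j' j - 2 * ∑ z', (P z z' : A) * ry z' j)) * a4
  have d0 : ∀ z j, d z j = 0 := by
    refine ric_vanish (K := K) h2 hP fun D D0 h z j => ?_
    have a1 := ap z (hy j)
    set G : J → A := fun j' => ∑ z', yi j' * m z' (E j') * ry z' j * (κ z' * d z j') with hG
    have a2 : ∀ j', d z j' * dot (T j') (y j) = 2 * (d z j' * a j' j) - G j' := fun j' => by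
      rw [Tap j' (hy j), hMy]
      have b1 : yi j' * ∑ j'', y j'' (E j') * a j'' j = a j' j := by
        have : ∀ j'', yi j' * (y j'' (E j') * a j'' j) = if j'' = j' then a j'' j else 0 :=
          fun j'' => by rw [← mul_assoc, mul_comm (yi j'), hyE]; simp
        simp [Finset.mul_sum, this]
      have b2 : d z j' * (yi j' * ∑ z', m z' (E j') * dot (ρ z') (y j)) = G j' := by
        simp only [hG, hρy, Finset.mul_sum]
        exact Finset.sum_congr rfl fun _ _ => by ring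
      linear_combination (2 * d z j') * b1 - b2
    rw [xy (rζ z), Ey] at a1
    simp only [a2, hρy, Finset.sum_sub_distrib, ← Finset.mul_sum] at a1
    have a3 : 2 * ∑ z', (P z z' : A) * d z' j =
        ∑ j', G j' - ∑ z', n ζ z z' * (κ z' * d z' j) := by
      have b1 : ∑ z', (P z z' : A) * d z' j =
          ∑ z', (P z z' : A) * dot (ζ z') (y j) + ∑ z', (P z z' : A) * ry z' j := by
        simp only [hd, mul_add, Finset.sum_add_distrib]
      have b2 : ∑ j', d z j' * a j' j =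
          ∑ j', dot (ζ z) (y j') * a j' j + ∑ j', ry z j' * a j' j := by
        simp only [hd, add_mul, Finset.sum_add_distrib]
      have b3 : ∑ z', n ζ z z' * (κ z' * d z' j) =
          ∑ z', n ζ z z' * (κ z' * ry z' j + κ z' * dot (ζ z') (y j)) :=
        Finset.sum_congr rfl fun _ _ => by simp only [hd]; ring
      linear_combination 2 * b1 - a1 + b3 - 2 * b2
    rw [a3]
    refine ric_sub (ric_sum (by positivity) fun j' => ric_sum (by positivity) fun z' => ?_)
      (ric_sum (by positivity) fun z' => nκ z' (nle ζ hζ z z') (h z' j))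
    refine nκ z' (ric_mul (ric_mul (hyi j') (mle z' _) (D := C ^ 2) (le_of_eq ?_)) (hry z' j)
      ((le_of_eq (by ring)).trans (pw (i := 3) (by norm_num)))) (h z j')
    linear_combination (C ^ 2) * ric_cancel (U (E j'))
  have n4 : ‖(4 : K)‖ = 1 / 4 := by
    rw [show (4 : K) = 2 * 2 by norm_num, norm_mul, h2]; norm_num
  have z4 : (4 : K) ≠ 0 := fun h => by rw [h, norm_zero] at n4; norm_num at n4
  refine ⟨ζ, fun z z' => (4 : K)⁻¹ • n ζ z z', hζ, fun z z' => ?_, X0,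
    fun z j => eq_neg_of_add_eq_zero_left (d0 z j), fun z r => ?_⟩
  · rw [norm_smul, norm_inv, n4]
    have := nle ζ hζ z z'
    linarith
  · have e : (4 : A) * algebraMap K A (4 : K)⁻¹ = 1 := by
      rw [← map_ofNat (algebraMap K A) 4, ← map_mul, mul_inv_cancel₀ z4, map_one]
    rw [fp]
    simp only [d0, zero_mul, Finset.sum_const_zero, add_zero, Algebra.smul_def, mul_assoc,
      ← Finset.mul_sum]
    rw [← mul_assoc (4 : A), e, one_mul]

end Pool.Agent.Lib.MP_788af2_nt.AG
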