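import Pool.Agent.Lib.MP_788af2_nt.AG.RhoA
import Pool.Agent.Lib.MP_788af2_nt.AG.Eta
import Pool.Agent.Lib.MP_788af2_nt.AG.Ric
import Pool.Agent.Lib.MP_788af2_nt.AG.FredAux

/-!
The entries of the modified Dwork operator.
-/

set_option linter.unusedSectionVars false

namespace Pool.Agent.Lib.MP_788af2_nt.AG

open Polynomial Filter Topology

variable {K A J Z : Type} [NontriviallyNormedField K] [IsUltrametricDist K] [CompleteSpace K]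
  [CharZero K] [NormedCommRing A] [NormedAlgebra K A] [IsUltrametricDist A] [CompleteSpace A]
  [NormOneClass A] [Fintype J] [Fintype Z] [DecidableEq J] [DecidableEq Z] (d : Dat K A J Z)

lemma da_box (N k : ℤ) : {r : J × Ex 1 | r.2.1.2 = k ∧ r.2.1.1 ≤ N}.Finite := by
  have hf : ((Set.univ : Set J) ×ˢ (Set.Icc (1 : ℤ) N ×ˢ ({k} : Set ℤ))).Finite :=
    Set.finite_univ.prod ((Set.finite_Icc _ _).prod (Set.finite_singleton _))
  refine (hf.preimage (f := fun r : J × Ex 1 => (r.1, r.2.1)) fun r _ s _ h => ?_).subset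
    fun r hr => ⟨trivial, ⟨r.2.2, hr.2⟩, hr.1⟩
  simp only [Prod.mk.injEq] at h
  exact Prod.ext h.1 (Subtype.ext h.2)

lemma da_ϑ (p : Pm) (x : ℝ) : p.ϑ * 2 ^ x = 2 ^ (x - p.μ / 2) := by
  rw [Pm.ϑ, ← Real.rpow_add two_pos]
  congr 1
  ring

lemma da_inv {x : A} {t : ℝ} (ht : t < 1) (h : ‖x - 1‖ ≤ t) : ∃ y, x * y = 1 ∧ ‖y‖ ≤ 1 := by
  have h1 : IsUnit x := by
    have := (Units.oneSub (1 - x) (by rw [norm_sub_rev]; linarith)).isUnit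
    simpa using this
  obtain ⟨y, h2⟩ := h1.exists_right_inv
  refine ⟨y, h2, ?_⟩
  have h3 : y = 1 + -((x - 1) * y) := by linear_combination h2
  have h4 := IsUltrametricDist.norm_add_le_max (1 : A) (-((x - 1) * y))
  rw [← h3, norm_one, norm_neg] at h4
  have h5 := norm_mul_le (x - 1) y
  have h6 := norm_nonneg y
  rcases le_max_iff.1 h4 with h7 | h7
  · exact h7
  · nlinarith

namespace Dat

/-- The block. -/
def InB (r : J × Ex 1) : Prop := r.2.1.2 = -1 ∧ r.2.1.1 ≤ d.p.top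

lemma M_small (r c : J × Ex 1) (h : ¬ d.p.Exc r.2.1.1 r.2.1.2 c.2.1.1 c.2.1.2) :
    ‖d.M 1 r c‖ ≤ d.p.ϑ * 2 ^ (d.p.Vi c - d.p.Ui r) := by
  rw [da_ϑ]
  refine d.two2_M_le r c fun h' => ?_
  have := d.p.entry_strict r.2.2 c.2.2 h' h
  unfold Pm.Vi Pm.Ui
  linarith

lemma Mw_le (z : Z) (r : J × Ex 1) {t : ℝ} (ht : 0 ≤ t)
    (h : ∀ c, c.2.1.2 = -1 → ‖d.M 1 r c‖ ≤ t * 2 ^ (d.p.Vi c - d.p.Ui r)) :
    ‖mulv (d.M 1) (d.wc z) r‖ ≤ t * (1 / 2 * 2 ^ (d.p.V 1 (-1) - d.p.Ui r)) := by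
  refine IsUltrametricDist.norm_tsum_le_of_forall_le_of_nonneg (by positivity) fun c => ?_
  by_cases hc : c.2.1.2 = -1
  · refine (syl_mul (h c hc) (d.wc_le z c)).trans (le_of_eq ?_)
    rw [show d.p.V 1 (-1) - d.p.Ui r = (d.p.Vi c - d.p.Ui r) + (d.p.V 1 (-1) - d.p.Vi c) by ring,
      Real.rpow_add two_pos]
    ring
  · have : d.wc z c = 0 := by
      unfold wc col
      rw [d.wv_supp z _ (Or.inr (Or.inr hc)), ite_self]
    rw [this, mul_zero, norm_zero]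
    positivity

lemma ρr_small (z : Z) (r : J × Ex 1) (hr : ¬ d.InB r) :
    ‖d.ρr z r‖ ≤ d.p.ϑ * (2 * 2 ^ (d.p.Vi r - d.p.V 1 (-1))) := by
  have h0 := d.p.ϑ_pos
  unfold ρr row
  split_ifs with h
  · by_cases hj : r.2.1.2 < 0
    · refine (d.ρ_le z _).trans ?_
      have h1 := d.p.V_neg' (a := r.2.1.1) hj hr
      rw [← Real.rpow_intCast, mul_comm 2, ← Real.rpow_add_one two_ne_zero, da_ϑ]
      refine Real.rpow_le_rpow_of_exponent_le one_le_two ?_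
      rw [Prod.snd_neg, Pm.Vi]
      push_cast
      linarith
    · rw [d.ρ_supp z _ (Or.inr (by rw [Prod.snd_neg]; omega)), norm_zero]
      positivity
  · rw [norm_zero]
    positivity

variable {d} {ϱ : Z → J × Ex 1 → A} (hϱ : ∀ z r, ‖ϱ z r - d.ρr z r‖ ≤ 1 / 2 * 2 ^ d.p.Vi r)
include hϱ

lemma ϱ_le (z : Z) (r : J × Ex 1) {t : ℝ} (ht : 1 / 2 ≤ t)
    (h : ‖d.ρr z r‖ ≤ t * (2 * 2 ^ (d.p.Vi r - d.p.V 1 (-1)))) :
    ‖ϱ z r‖ ≤ t * (2 * 2 ^ (d.p.Vi r - d.p.V 1 (-1))) := by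
  rw [← sub_add_cancel (ϱ z r) (d.ρr z r)]
  refine syl_add ((hϱ z r).trans (mul_le_mul ht ?_ (by positivity) (by linarith))) h
  rw [mul_comm, ← Real.rpow_add_one two_ne_zero]
  have := d.p.V_blk_mem.2
  exact Real.rpow_le_rpow_of_exponent_le one_le_two (by linarith)

lemma T1_le (r c : J × Ex 1) {s t : ℝ} (hs : 0 ≤ s) (ht : 1 / 2 ≤ t)
    (h1 : ∀ c, c.2.1.2 = -1 → ‖d.M 1 r c‖ ≤ s * 2 ^ (d.p.Vi c - d.p.Ui r))
    (h2 : ∀ z, ‖d.ρr z c‖ ≤ t * (2 * 2 ^ (d.p.Vi c - d.p.V 1 (-1)))) :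
    ‖∑ z, mulv (d.M 1) (d.wc z) r * ϱ z c‖ ≤ s * t * 2 ^ (d.p.Vi c - d.p.Ui r) := by
  have : 0 ≤ t := by linarith
  refine ric_sum (by positivity) fun z => ?_
  refine (syl_mul (d.Mw_le z r hs h1) (ϱ_le hϱ z c ht (h2 z))).trans (le_of_eq ?_)
  rw [show d.p.Vi c - d.p.Ui r = (d.p.V 1 (-1) - d.p.Ui r) + (d.p.Vi c - d.p.V 1 (-1)) by ring,
    Real.rpow_add two_pos]
  ring

lemma M1_le (r c : J × Ex 1) : ‖cutR (d.M 1) d.wc ϱ r c‖ ≤ 2 ^ (d.p.Vi c - d.p.Ui r) := by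
  refine syl_sub (d.M_le r c) ?_
  have := T1_le hϱ r c zero_le_one (t := 1) (by norm_num) (fun c _ => by
    rw [one_mul]; exact d.M_le r c) fun z => by rw [one_mul]; exact d.ρr_le z c
  simpa using this

lemma T1_small (r c : J × Ex 1) (h : ¬ (d.InB r ∧ d.InB c)) :
    ‖∑ z, mulv (d.M 1) (d.wc z) r * ϱ z c‖ ≤ d.p.ϑ * 2 ^ (d.p.Vi c - d.p.Ui r) := by
  by_cases hr : d.InB r
  · have := T1_le hϱ r c zero_le_one d.p.half_le_ϑ (fun c _ => by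
      rw [one_mul]; exact d.M_le r c) fun z => d.ρr_small z c fun hc => h ⟨hr, hc⟩
    rwa [one_mul] at this
  · have := T1_le hϱ r c d.p.ϑ_pos.le (t := 1) (by norm_num) (fun c hc => d.M_small r c (by
      rintro (h | h)
      · omega
      · exact hr ⟨h.1, h.2.2.1⟩)) fun z => by rw [one_mul]; exact d.ρr_le z c
    rwa [mul_one] at this

lemma M1_cc : CC d.p.Vi (cutR (d.M 1) d.wc ϱ) :=
  d.M_cc.sub_sum (fun z => (d.wc_colB z).mulv d.M_cc) fun z =>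
    ⟨2 * 2 ^ (-d.p.V 1 (-1)), fun r => by
      have := ϱ_le hϱ z r (t := 1) (by norm_num) (by rw [one_mul]; exact d.ρr_le z r)
      rw [one_mul, sub_eq_add_neg, Real.rpow_add two_pos] at this
      linarith⟩

variable {η : J → Arr A} {a yi : J → A} (hη : d.IsEta η a)
  (hyi : ∀ j, d.yv η j (d.p.e, 0) * yi j = 1 ∧ ‖yi j‖ ≤ 2)
include hη hyi

lemma T2_small (r c : J × Ex 1) (hr : ∀ j, r ≠ d.p.Ei j) :
    ‖∑ j, d.yc η j r * (yi j * cutR (d.M 1) d.wc ϱ (d.p.Ei j) c)‖ ≤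
      d.p.ϑ * 2 ^ (d.p.Vi c - d.p.Ui r) := by
  have h0 := d.p.ϑ_pos
  refine ric_sum (by positivity) fun j => ?_
  refine (syl_mul (hη.yc_small j r (hr j)) (syl_mul (hyi j).2 (M1_le hϱ _ c))).trans (le_of_eq ?_)
  have e : d.p.Ui (d.p.Ei j) = 1 + d.p.V d.p.e 0 := d.p.U_eq (by simp [Pm.Ei])
  rw [e, show d.p.Vi c - d.p.Ui r = (d.p.V d.p.e 0 - d.p.Ui r) +
    ((d.p.Vi c - (1 + d.p.V d.p.e 0)) + 1) by ring, Real.rpow_add two_pos,
    Real.rpow_add_one two_ne_zero]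
  ring

lemma M2_E (j : J) (c : J × Ex 1) :
    cutL (cutR (d.M 1) d.wc ϱ) (d.yc η) d.p.Ei yi (d.p.Ei j) c = 0 := by
  rw [cutL, Finset.sum_eq_single j (fun j' _ h => by
    rw [yc, col, if_neg (by exact h.symm), zero_mul]) (by simp), yc, col, if_pos (by rfl),
    ← mul_assoc]
  change _ - d.yv η j (d.p.e, 0) * yi j * _ = 0
  rw [(hyi j).1, one_mul, sub_self]

lemma M2_le (r c : J × Ex 1) :
    ‖cutL (cutR (d.M 1) d.wc ϱ) (d.yc η) d.p.Ei yi r c‖ ≤ 2 ^ (d.p.Vi c - d.p.Ui r) := by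
  by_cases hr : ∀ j, r ≠ d.p.Ei j
  · exact syl_sub (M1_le hϱ r c) ((T2_small hϱ hη hyi r c hr).trans
      (mul_le_of_le_one_left (by positivity) d.p.ϑ_lt.le))
  · push Not at hr
    obtain ⟨j, rfl⟩ := hr
    rw [M2_E hϱ hη hyi, norm_zero]
    positivity

lemma M2_sub (r c : J × Ex 1) (hr : ∀ j, r ≠ d.p.Ei j) (h : ¬ (d.InB r ∧ d.InB c)) :
    ‖cutL (cutR (d.M 1) d.wc ϱ) (d.yc η) d.p.Ei yi r c - d.M 1 r c‖ ≤
      d.p.ϑ * 2 ^ (d.p.Vi c - d.p.Ui r) := by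
  have := syl_add (T1_small hϱ r c h) (T2_small hϱ hη hyi r c hr)
  rw [← norm_neg] at this
  refine le_of_eq_of_le (congrArg _ ?_) this
  rw [cutL, cutR]
  ring

lemma M2_cc : CC d.p.Vi (cutL (cutR (d.M 1) d.wc ϱ) (d.yc η) d.p.Ei yi) :=
  (M1_cc hϱ).sub_sum hη.yc_colB fun j => by
    obtain ⟨C, hC⟩ := (M1_cc hϱ).row (d.p.Ei j)
    exact ⟨2 * C, fun c => (syl_mul (hyi j).2 (hC c)).trans (le_of_eq (by ring))⟩

end Dat

end Pool.Agent.Lib.MP_788af2_nt.AG
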