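import Mathlib

/-!
The Cartier operator is nilpotent modulo the simple poles.
-/

namespace Pool.Agent.Lib.MP_788af2_nt.AG

open Polynomial

/-- The odd part of a polynomial. -/
noncomputable def nilPs {κ : Type} [Field κ] (q : κ[X]) : κ[X] := divX (contract 2 (X * q))

lemma nil_ps_coeff {κ : Type} [Field κ] (q : κ[X]) (n : ℕ) :
    (nilPs q).coeff n = q.coeff (2 * n + 1) := by
  rw [nilPs, coeff_divX, coeff_contract two_ne_zero,
    show (n + 1) * 2 = 2 * n + 1 + 1 by ring, coeff_X_mul]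

lemma nil_ps_X {κ : Type} [Field κ] (q : κ[X]) : X * nilPs q = contract 2 (X * q) := by
  have h := X_mul_divX_add (contract 2 (X * q))
  rwa [coeff_contract two_ne_zero, zero_mul, coeff_X_mul_zero, C_0, add_zero] at h

lemma nil_ps_mul {κ : Type} [Field κ] (q h : κ[X]) :
    nilPs (q * expand κ 2 h) = nilPs q * h := by
  refine mul_left_cancel₀ X_ne_zero ?_
  rw [nil_ps_X, ← mul_assoc, contract_mul_expand two_ne_zero, ← mul_assoc, nil_ps_X]

lemma nil_expand {κ J Z : Type} [Field κ] [CharP κ 2] [Fintype Z] [DecidableEq J]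
    (σ : Equiv.Perm J) (σZ : Equiv.Perm Z) (jz : Z → J) (β : Z → κ) (c : Z → ℕ)
    (jz_σ : ∀ z, jz (σZ z) = σ (jz z)) (β_σ : ∀ z, β (σZ z) = β z ^ 2)
    (c_σ : ∀ z, c (σZ z) = c z) (j : J) :
    expand κ 2 (∏ z ∈ Finset.univ.filter (fun z => jz z = σ j), (X - C (β z)) ^ c z) =
      (∏ z ∈ Finset.univ.filter (fun z => jz z = j), (X - C (β z)) ^ c z) ^ 2 := by
  rw [map_prod, ← Finset.prod_pow]
  refine (Finset.prod_equiv σZ (fun z => by simp [jz_σ]) fun z _ => ?_).symm
  have h2 : (2 : κ[X]) = 0 := CharTwo.two_eq_zero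
  rw [map_pow, map_sub, expand_X, expand_C, β_σ, c_σ, C_pow, ← pow_mul, mul_comm, pow_mul]
  congr 1
  linear_combination (C (β z) ^ 2 - X * C (β z)) * h2

lemma nil_cm {κ : Type} [Field κ] {f g : κ[X]} {a d k : ℕ} (hf : f.natDegree ≤ a)
    (hg : ∀ n, d ≤ n → g.coeff n = 0) (hk : a + d ≤ k) : (f * g).coeff k = 0 := by
  rw [coeff_mul]
  refine Finset.sum_eq_zero fun x hx => ?_
  have hx' : x.1 + x.2 = k := by simpa using hx
  by_cases h : d ≤ x.2
  · rw [hg _ h, mul_zero]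
  · rw [coeff_eq_zero_of_natDegree_lt (by omega), zero_mul]

lemma nil_conv {κ : Type} [Field κ] (f g : κ[X]) {top : ℕ} (hg : ∀ n, top ≤ n → g.coeff n = 0)
    (N : ℕ) : ∑ a ∈ Finset.range top, (if a ≤ N then f.coeff (N - a) * g.coeff a else 0) =
      (f * g).coeff N := by
  rw [mul_comm f g, coeff_mul, Finset.Nat.sum_antidiagonal_eq_sum_range_succ_mk]
  have h1 : ∑ a ∈ Finset.range top, (if a ≤ N then f.coeff (N - a) * g.coeff a else 0) =
      ∑ a ∈ Finset.range (top + N.succ), (if a ≤ N then f.coeff (N - a) * g.coeff a else 0) :=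
    Finset.sum_subset (Finset.range_subset_range.2 (by omega)) fun a _ ha => by
      rw [hg a (by simpa using ha), mul_zero, ite_self]
  have h2 : ∑ a ∈ Finset.range N.succ, (if a ≤ N then f.coeff (N - a) * g.coeff a else 0) =
      ∑ a ∈ Finset.range (top + N.succ), (if a ≤ N then f.coeff (N - a) * g.coeff a else 0) :=
    Finset.sum_subset (Finset.range_subset_range.2 (by omega)) fun a _ ha => by
      rw [if_neg (by simpa [Nat.lt_succ_iff] using ha)]
  rw [h1, ← h2]
  refine Finset.sum_congr rfl fun a ha => ?_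
  rw [if_pos (by simpa [Nat.lt_succ_iff] using ha), mul_comm]

lemma nil_lag {κ Z : Type} [Field κ] [DecidableEq Z] (S : Finset Z) (β : Z → κ)
    (hβ : Set.InjOn β S) {lam p : κ[X]} (hl : lam ≠ 0) (wp : Z → κ[X])
    (hwp : ∀ z ∈ S, (X - C (β z)) * wp z = lam)
    (hd : lam ∣ (∏ z ∈ S, (X - C (β z))) * p) (hp : ∀ n, lam.natDegree ≤ n → p.coeff n = 0) :
    ∃ v : Z → κ, p = ∑ z ∈ S, C (v z) * wp z := by
  obtain ⟨h, e⟩ := hd
  have hb : (∏ z ∈ S, (X - C (β z))) = Lagrange.nodal S β := rfl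
  rw [hb] at e
  have hb0 : Lagrange.nodal S β ≠ 0 := Lagrange.nodal_ne_zero
  have hh : h.degree < S.card := by
    by_cases h0 : h = 0
    · rw [h0, degree_zero]; exact WithBot.bot_lt_coe _
    have p0 : p ≠ 0 := by
      rintro rfl
      exact mul_ne_zero hl h0 (by rw [← e, mul_zero])
    have h1 := congrArg natDegree e
    rw [natDegree_mul hb0 p0, natDegree_mul hl h0, Lagrange.natDegree_nodal] at h1
    have h2 : p.natDegree < lam.natDegree := by
      by_contra h3
      exact p0 (leadingCoeff_eq_zero.1 (hp _ (not_lt.1 h3)))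
    rw [degree_eq_natDegree h0]
    exact_mod_cast (by omega : h.natDegree < S.card)
  refine ⟨fun z => h.eval (β z) * Lagrange.nodalWeight S β z, mul_left_cancel₀ hb0 ?_⟩
  rw [e]
  conv_lhs => rw [Lagrange.eq_interpolate hβ hh, Lagrange.interpolate_apply]
  rw [Finset.mul_sum, Finset.mul_sum]
  refine Finset.sum_congr rfl fun z hz => ?_
  rw [Lagrange.basis_eq_prod_sub_inv_mul_nodal_div hz, ← Lagrange.nodal_erase_eq_nodal_div hz,
    Lagrange.nodal_eq_mul_nodal_erase hz, ← hwp z hz, C_mul]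
  ring

theorem nil_bar {κ J Z B : Type} [Field κ] [CharP κ 2] [Fintype Z] [DecidableEq J] [DecidableEq Z]
    [Fintype B] [DecidableEq B] (σ : Equiv.Perm J) (σZ : Equiv.Perm Z) (jz : Z → J) (β : Z → κ)
    (c : Z → ℕ) (u : J → κ) (m top : ℕ) (hm : 2 * m ≤ top) (jz_σ : ∀ z, jz (σZ z) = σ (jz z))
    (β_σ : ∀ z, β (σZ z) = β z ^ 2) (c_σ : ∀ z, c (σZ z) = c z) (u_σ : ∀ j, u (σ j) = u j ^ 2)
    (u_ne : ∀ j, u j ≠ 0) (c_pos : ∀ z, 0 < c z)
    (β_inj : ∀ z z', jz z = jz z' → β z = β z' → z = z')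
    (deg : ∀ j, ∑ z ∈ Finset.univ.filter (fun z => jz z = j), c z = 2 * m)
    (jB : B → J) (aB : B → ℕ) (hB : ∀ j a, a < top → ∃ r, jB r = j ∧ aB r = a)
    (hB' : ∀ r, aB r < top) (inj : ∀ r r', jB r = jB r' → aB r = aB r' → r = r')
    (lam : J → κ[X]) (hlam : ∀ j, lam j =
      C (u j) * ∏ z ∈ Finset.univ.filter (fun z => jz z = j), (X - C (β z)) ^ c z)
    (wp : Z → κ[X]) (hwp : ∀ z, (X - C (β z)) * wp z = lam (jz z))
    (Ab : Matrix B B κ) (hA : ∀ r s, Ab r s = if jB r = σ (jB s) ∧ aB s ≤ 2 * aB r + 1 then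
      (lam (jB s)).coeff (2 * aB r + 1 - aB s) else 0)
    (w : Matrix B Z κ) (hw : ∀ r z, w r z = if jB r = jz z then (wp z).coeff (aB r) else 0)
    (ρ : Matrix Z B κ) (hρ : ρ * w = 1) : (Ab * (1 - w * ρ)) ^ (top + 1) = 0 := by
  obtain ⟨b, hb⟩ : ∃ b : J → κ[X], ∀ j,
      b j = ∏ z ∈ Finset.univ.filter (fun z => jz z = j), (X - C (β z)) := ⟨_, fun _ => rfl⟩
  obtain ⟨vec, hvec⟩ : ∃ vec : (J → κ[X]) → B → κ, ∀ p r, vec p r = (p (jB r)).coeff (aB r) :=
    ⟨_, fun _ _ => rfl⟩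
  have hmon : ∀ j, (∏ z ∈ Finset.univ.filter (fun z => jz z = j), (X - C (β z)) ^ c z).Monic :=
    fun j => monic_prod_of_monic _ _ fun z _ => (monic_X_sub_C _).pow _
  have l0 : ∀ j, lam j ≠ 0 := fun j => by
    rw [hlam]; exact mul_ne_zero (C_ne_zero.2 (u_ne j)) (hmon j).ne_zero
  have l1 : ∀ j, (lam j).natDegree = 2 * m := fun j => by
    rw [hlam, natDegree_C_mul (u_ne j), natDegree_prod_of_monic _ _
      fun z _ => (monic_X_sub_C _).pow _, ← deg j]
    exact Finset.sum_congr rfl fun z _ => by rw [natDegree_pow, natDegree_X_sub_C, mul_one]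
  have l2 : ∀ j, expand κ 2 (lam (σ j)) = lam j ^ 2 := fun j => by
    rw [hlam, hlam, map_mul, expand_C, nil_expand σ σZ jz β c jz_σ β_σ c_σ, u_σ, C_pow, mul_pow]
  have l3 : ∀ j, expand κ 2 (b (σ j)) = b j ^ 2 := fun j => by
    simpa only [pow_one, ← hb] using
      nil_expand σ σZ jz β (fun _ => 1) jz_σ β_σ (fun _ => rfl) j
  have l4 : ∀ z n, 2 * m ≤ n → (wp z).coeff n = 0 := fun z n hn => by
    have w0 : wp z ≠ 0 := fun e => l0 (jz z) (by rw [← hwp, e, mul_zero])
    have h1 := l1 (jz z)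
    rw [← hwp, natDegree_mul (X_sub_C_ne_zero _) w0, natDegree_X_sub_C] at h1
    exact coeff_eq_zero_of_natDegree_lt (by omega)
  have l5 : ∀ z, lam (jz z) ∣ b (jz z) * wp z := fun z => by
    have h1 : z ∈ Finset.univ.filter (fun z' => jz z' = jz z) := by simp
    have h2 : X - C (β z) ∣ b (jz z) := by
      rw [hb]; exact Finset.dvd_prod_of_mem (fun z => X - C (β z)) h1
    obtain ⟨k, hk⟩ := h2
    exact ⟨k, by rw [hk, ← hwp]; ring⟩
  have l6 : ∀ j, lam j ∣ b j ^ (top + 1) := fun j => by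
    rw [hlam, hb, ← Finset.prod_pow, (isUnit_C.2 (u_ne j).isUnit).mul_left_dvd]
    refine Finset.prod_dvd_prod_of_dvd _ _ fun z hz => pow_dvd_pow _ ?_
    have := Finset.single_le_sum (f := c) (fun _ _ => Nat.zero_le _) hz
    rw [deg j] at this
    omega
  have a1 : ∀ p : J → κ[X], (∀ j n, top ≤ n → (p j).coeff n = 0) →
      Ab.mulVec (vec p) = vec fun j => nilPs (lam (σ.symm j) * p (σ.symm j)) := fun p hp => by
    funext r
    rw [hvec, nil_ps_coeff, ← nil_conv _ _ (hp _), Matrix.mulVec, dotProduct]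
    rw [← Finset.sum_nbij (s := Finset.univ.filter fun s => jB s = σ.symm (jB r)) aB
      (f := fun s => if aB s ≤ 2 * aB r + 1 then (lam (σ.symm (jB r))).coeff (2 * aB r + 1 - aB s) *
        (p (σ.symm (jB r))).coeff (aB s) else 0) (fun s _ => by simpa using hB' s)
      (fun s hs s' hs' e => inj s s' (by simp at hs hs'; rw [hs, hs']) e)
      (fun a ha => by
        obtain ⟨s, h1, h2⟩ := hB (σ.symm (jB r)) a (by simpa using ha)
        exact ⟨s, by simpa using h1, h2⟩) fun _ _ => rfl, Finset.sum_filter]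
    refine Finset.sum_congr rfl fun s _ => ?_
    rw [hA, hvec]
    by_cases h1 : jB s = σ.symm (jB r)
    · have h2 : jB r = σ (jB s) := by rw [h1, Equiv.apply_symm_apply]
      rw [if_pos h1, ← h1]
      by_cases h3 : aB s ≤ 2 * aB r + 1
      · rw [if_pos ⟨h2, h3⟩, if_pos h3]
      · rw [if_neg fun h => h3 h.2, if_neg h3, zero_mul]
    · rw [if_neg h1, if_neg fun h => h1 (by rw [h.1, Equiv.symm_apply_apply]), zero_mul]
  have a2 : ∀ v : Z → κ, w.mulVec v =
      vec fun j => ∑ z ∈ Finset.univ.filter (fun z => jz z = j), C (v z) * wp z := fun v => by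
    funext r
    rw [hvec, finsetSum_coeff, Finset.sum_filter, Matrix.mulVec, dotProduct]
    refine Finset.sum_congr rfl fun z _ => ?_
    rw [hw, coeff_C_mul]
    by_cases h : jB r = jz z
    · rw [if_pos h, if_pos h.symm, mul_comm]
    · rw [if_neg h, if_neg fun e => h e.symm, zero_mul]
  obtain ⟨Inv, hI⟩ : ∃ Inv : ℕ → (J → κ[X]) → Prop, ∀ s p, Inv s p ↔ ∀ j,
      lam j ∣ b j ^ (s + 1) * p j ∧ (∀ n, 2 * m + s ≤ n → (p j).coeff n = 0) ∧
        ∀ n, top ≤ n → (p j).coeff n = 0 := ⟨_, fun _ _ => Iff.rfl⟩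
  have i1 : ∀ s p, Inv s p → ∃ q, Inv s q ∧ (1 - w * ρ).mulVec (vec p) = vec q := fun s p hp => by
    rw [hI] at hp
    refine ⟨fun j => p j - ∑ z ∈ Finset.univ.filter (fun z => jz z = j),
      C (ρ.mulVec (vec p) z) * wp z, (hI _ _).2 fun j => ⟨?_, fun n hn => ?_, fun n hn => ?_⟩, ?_⟩
    · rw [mul_sub, Finset.mul_sum]
      refine dvd_sub (hp j).1 (Finset.dvd_sum fun z hz => ?_)
      obtain rfl : jz z = j := by simpa using hz
      rw [show b (jz z) ^ (s + 1) * (C (ρ.mulVec (vec p) z) * wp z) =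
        b (jz z) * wp z * (b (jz z) ^ s * C (ρ.mulVec (vec p) z)) by ring]
      exact (l5 z).mul_right _
    · rw [coeff_sub, (hp j).2.1 n hn, finsetSum_coeff, Finset.sum_eq_zero fun z _ => by
        rw [coeff_C_mul, l4 z n (by omega), mul_zero], sub_zero]
    · rw [coeff_sub, (hp j).2.2 n hn, finsetSum_coeff, Finset.sum_eq_zero fun z _ => by
        rw [coeff_C_mul, l4 z n (by omega), mul_zero], sub_zero]
    · rw [Matrix.sub_mulVec, Matrix.one_mulVec, ← Matrix.mulVec_mulVec, a2]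
      funext r
      simp only [Pi.sub_apply, hvec, coeff_sub]
  have i2 : ∀ s p, Inv (s + 1) p → ∃ q, Inv s q ∧ Ab.mulVec (vec p) = vec q := fun s p hp => by
    rw [hI] at hp
    refine ⟨_, (hI _ _).2 fun j => ⟨?_, fun n hn => ?_, fun n hn => ?_⟩, a1 p fun j => (hp j).2.2⟩
    · obtain ⟨j, rfl⟩ := σ.surjective j
      obtain ⟨h, e⟩ := (hp j).1
      refine ⟨nilPs (b j ^ s * h), ?_⟩
      simp only [Equiv.symm_apply_apply]
      rw [mul_comm, ← nil_ps_mul, mul_comm (lam (σ j)), ← nil_ps_mul, map_pow, l2, l3]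
      congr 1
      linear_combination (lam j * b j ^ s) * e
    · rw [nil_ps_coeff]
      exact nil_cm (l1 _).le (hp _).2.1 (by omega)
    · rw [nil_ps_coeff]
      exact nil_cm (l1 _).le (hp _).2.2 (by omega)
  have i3 : ∀ p, Inv 0 p → (1 - w * ρ).mulVec (vec p) = 0 := fun p hp => by
    rw [hI] at hp
    have h1 : ∀ j, ∃ v : Z → κ,
        p j = ∑ z ∈ Finset.univ.filter (fun z => jz z = j), C (v z) * wp z := fun j =>
      nil_lag _ β (fun z hz z' hz' e => β_inj z z' (by simp at hz hz'; rw [hz, hz']) e) (l0 j) wp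
        (fun z hz => by rw [hwp, (Finset.mem_filter.1 hz).2])
        (by simpa only [zero_add, pow_one, hb] using (hp j).1)
        fun n hn => (hp j).2.1 n (by rw [l1] at hn; omega)
    choose v hv using h1
    have h2 : vec p = w.mulVec fun z => v (jz z) z := by
      rw [a2]
      congr 1
      funext j
      rw [hv j]
      exact Finset.sum_congr rfl fun z hz => by rw [(Finset.mem_filter.1 hz).2]
    rw [h2, Matrix.mulVec_mulVec, Matrix.sub_mul, Matrix.one_mul, Matrix.mul_assoc, hρ,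
      Matrix.mul_one, sub_self, Matrix.zero_mulVec]
  have i4 : ∀ s p, Inv s p → ((Ab * (1 - w * ρ)) ^ (s + 1)).mulVec (vec p) = 0 := fun s => by
    induction s with
    | zero =>
      intro p hp
      rw [zero_add, pow_one, ← Matrix.mulVec_mulVec, i3 p hp, Matrix.mulVec_zero]
    | succ s ih =>
      intro p hp
      obtain ⟨q, h1, h2⟩ := i1 _ p hp
      obtain ⟨q', h3, h4⟩ := i2 _ q h1
      rw [pow_succ, ← Matrix.mulVec_mulVec, ← Matrix.mulVec_mulVec, h2, h4, ih q' h3]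
  refine Matrix.ext_iff_mulVec.2 fun v => ?_
  have h1 : ∀ j n, top ≤ n → (∑ s ∈ Finset.univ.filter (fun s => jB s = j),
      monomial (aB s) (v s)).coeff n = 0 := fun j n hn => by
    rw [finsetSum_coeff]
    exact Finset.sum_eq_zero fun s _ => by
      rw [coeff_monomial, if_neg (by have := hB' s; omega)]
  have h2 : v = vec fun j => ∑ s ∈ Finset.univ.filter (fun s => jB s = j),
      monomial (aB s) (v s) := by
    funext r
    rw [hvec, finsetSum_coeff, Finset.sum_eq_single r (fun s hs h => by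
      rw [coeff_monomial, if_neg fun e => h (inj s r (Finset.mem_filter.1 hs).2 e)])
      (fun h => absurd (by simp) h), coeff_monomial, if_pos rfl]
  rw [Matrix.zero_mulVec, h2]
  exact i4 top _ ((hI _ _).2 fun j => ⟨(l6 j).mul_right _, fun n hn => h1 j n (by omega), h1 j⟩)

end Pool.Agent.Lib.MP_788af2_nt.AG
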