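import Pool.Agent.Lib.MP_788af2_nt.AG.RhoB
import Pool.Agent.Lib.MP_788af2_nt.AG.DomA
import Pool.Agent.Lib.MP_788af2_nt.AG.Ball
import Pool.Agent.Lib.MP_788af2_nt.AG.Nil

/-!
The dominance hypotheses hold for the modified Dwork operator.
-/

set_option linter.unusedSectionVars false

namespace Pool.Agent.Lib.MP_788af2_nt.AG

open Polynomial Filter Topology Pool.Agent.Lib.MP_788af2_nt.AS Pool.Agent.Lib.MP_a3f657_nt.Two

variable {K A J Z : Type} [NontriviallyNormedField K] [IsUltrametricDist K] [CompleteSpace K]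
  [CharZero K] [NormedCommRing A] [NormedAlgebra K A] [IsUltrametricDist A] [CompleteSpace A]
  [NormOneClass A] [Fintype J] [Fintype Z] [DecidableEq J] [DecidableEq Z] (d : Dat K A J Z)

section near

variable {l m n : Type} {t : ℝ}

lemma nr_bd {X X' : Matrix l m A} (ht : t ≤ 1) (h : SylBd (X - X') t) (h' : SylBd X' 1) :
    SylBd X 1 := fun i j => by
  have := syl_add ((h i j).trans ht) (h' i j)
  rwa [Matrix.sub_apply, sub_add_cancel] at this

lemma nr_mul [Fintype m] {X X' : Matrix l m A} {Y Y' : Matrix m n A} (h0 : 0 ≤ t) (ht : t ≤ 1)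
    (hX : SylBd (X - X') t) (hY : SylBd (Y - Y') t) (hX' : SylBd X' 1) (hY' : SylBd Y' 1) :
    SylBd (X * Y - X' * Y') t := fun i j => by
  have h1 := (hX.mul h0 zero_le_one (nr_bd ht hY hY')) i j
  have h2 := (hX'.mul zero_le_one h0 hY) i j
  rw [mul_one] at h1
  rw [one_mul] at h2
  have := syl_add h1 h2
  rwa [← Matrix.add_apply, Matrix.sub_mul, Matrix.mul_sub, sub_add_sub_cancel] at this

lemma nr_pow [Fintype m] [DecidableEq m] {X X' : Matrix m m A} (h0 : 0 ≤ t) (ht : t ≤ 1)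
    (hX : SylBd (X - X') t) (hX' : SylBd X' 1) (k : ℕ) : SylBd (X ^ k - X' ^ k) t := by
  induction k with
  | zero => intro i j; simpa using h0
  | succ k ih => rw [pow_succ, pow_succ]; exact nr_mul h0 ht ih hX (hX'.pow k) hX'

/-- The embedding of the unit ball. -/
noncomputable def ιB (K A : Type) [NontriviallyNormedField K] [IsUltrametricDist K]
    [NormedCommRing A] [NormedAlgebra K A] : uball K →+* A :=
  (algebraMap K A).comp (uball K).subtype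

lemma ιB_norm (x : uball K) : ‖ιB K A x‖ = ‖(x : K)‖ := norm_algebraMap' A _

lemma ιB_bd (X : Matrix l m (uball K)) : SylBd (X.map (ιB K A)) 1 := fun i j =>
  (ιB_norm _).le.trans (X i j).2

end near

namespace Dat

/-- The integral model of `λ`. -/
noncomputable def lamO (j : J) : (uball K)[X] := C ⟨d.u j, (d.u_norm j).le⟩ *
  ∏ z ∈ Finset.univ.filter (fun z => d.jz z = j), (X - C ⟨d.β z, d.β_le z⟩) ^ d.c z

lemma lamO_map (j : J) : (d.lamO j).map (uball K).subtype = d.lam j := by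
  simp [lamO, Geo.lam, Polynomial.map_prod]

/-- The integral model of the residue. -/
noncomputable def resO (z : Z) (a : ℕ) : uball K :=
  ⟨PowerSeries.coeff (d.c z * 1 - 1) ((((taylor (d.β z) (d.lamz z) : K[X]) : PowerSeries K)⁻¹) ^ 1 *
    (PowerSeries.C (d.β z) + PowerSeries.X) ^ (a - 1)),
    Subring.mul_mem _ (Subring.pow_mem _ (d.lamz_inv_raS z) 1)
      (Subring.pow_mem _ (Subring.add_mem _ (raS_C (d.β_le z)) raS_X) _) _⟩

lemma res_near (z : Z) (a : ℕ) : ‖d.res z 1 a - ιB K A (d.resO z a)‖ ≤ d.p.ϑ := by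
  have h := raS_map (A := A) (Subring.mul_mem _ (Subring.pow_mem _ (d.lamz_inv_raS z) 1)
    (Subring.pow_mem _ (Subring.add_mem _ (raS_C (d.β_le z)) raS_X) (a - 1)))
  have e : d.res z 1 a - ιB K A (d.resO z a) = PowerSeries.coeff (d.c z * 1 - 1) ((d.κ z - 1) *
      PowerSeries.map (algebraMap K A) ((((taylor (d.β z) (d.lamz z) : K[X]) :
        PowerSeries K)⁻¹) ^ 1 * (PowerSeries.C (d.β z) + PowerSeries.X) ^ (a - 1))) := by
    rw [sub_mul, one_mul, map_sub, PowerSeries.coeff_map]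
    rfl
  rw [e, PowerSeries.coeff_mul]
  refine IsUltrametricDist.norm_sum_le_of_forall_le_of_nonneg d.p.ϑ_pos.le fun x _ => ?_
  refine (syl_mul (x := d.p.ϑ) ?_ (h x.2)).trans (mul_one _).le
  rw [map_sub, PowerSeries.coeff_one]
  split_ifs with h0
  · rw [h0]; exact (d.κ_zero z).trans d.p.half_le_ϑ
  · rw [sub_zero]; exact d.κ_le z _ (by omega)

lemma I_ne : d.o.I 1 ≠ 0 := fun h => by
  have := d.I_one_norm
  rw [h, norm_zero] at this
  norm_num at this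

variable {d} {B : Finset (J × Ex 1)} (hB : ∀ r, r ∈ B ↔ d.InB r)
include hB

lemma ρ_near {ϱ : Z → J × Ex 1 → A} (hϱ : ∀ z r, ‖ϱ z r - d.ρr z r‖ ≤ 1 / 2 * 2 ^ d.p.Vi r) :
    SylBd ((Matrix.of fun z (c : B) => (d.o.I 1)⁻¹ • ϱ z c) - (Matrix.of fun z (c : B) =>
      if c.1.1 = d.jz z then d.resO z c.1.2.1.1.toNat else 0).map (ιB K A)) d.p.ϑ := by
  intro z c
  obtain ⟨h1, h2⟩ := (hB _).1 c.2
  have h3 := c.1.2.2
  simp only [Matrix.sub_apply, Matrix.map_apply, Matrix.of_apply]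
  rw [← sub_add_sub_cancel _ ((d.o.I 1)⁻¹ • d.ρr z c), ← smul_sub]
  refine syl_add ?_ ?_
  · rw [norm_smul, norm_inv, d.I_one_norm]
    have h4 := hϱ z c
    have h5 : (2 : ℝ) ^ d.p.Vi c.1 ≤ 2 ^ (1 : ℝ) := by
      refine Real.rpow_le_rpow_of_exponent_le one_le_two ?_
      rw [Pm.Vi, h1, d.p.V_blk h2]
      linarith [d.p.V_blk_mem.2]
    rw [Real.rpow_one] at h5
    linarith [d.p.half_le_ϑ]
  · unfold ρr row
    split_ifs
    · rw [ρ, if_pos (by rw [Prod.fst_neg]; omega), Prod.snd_neg, h1, Prod.fst_neg, neg_neg, neg_neg]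
      simp only [Int.toNat_one, Finset.Icc_self, Finset.sum_singleton, Nat.sub_self, d.o.G_zero,
        one_mul, smul_smul, inv_mul_cancel₀ d.I_ne, one_smul]
      exact d.res_near z _
    · simpa using d.p.ϑ_pos.le

lemma w_near : SylBd ((Matrix.of fun (r : B) z => d.o.I 1 • d.wc z r) - (Matrix.of fun (r : B) z =>
      if r.1.1 = d.jz z then (d.lamO (d.jz z) /ₘ (X - C ⟨d.β z, d.β_le z⟩)).coeff
        (r.1.2.1.1 - 1).toNat else 0).map (ιB K A)) d.p.ϑ := by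
  intro r z
  obtain ⟨h1, h2⟩ := (hB _).1 r.2
  simp only [Matrix.sub_apply, Matrix.map_apply, Matrix.of_apply]
  unfold wc col
  split_ifs
  · have e : ιB K A ((d.lamO (d.jz z) /ₘ (X - C ⟨d.β z, d.β_le z⟩)).coeff (r.1.2.1.1 - 1).toNat) =
        (d.lam (d.jz z) /ₘ (X - C (d.β z))).coeff (r.1.2.1.1 - 1).toNat • (1 : A) := by
      rw [← d.lamO_map, show (X - C (d.β z) : K[X]) = (X - C ⟨d.β z, d.β_le z⟩ :
        (uball K)[X]).map (uball K).subtype by simp, ← map_divByMonic _ (monic_X_sub_C _),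
        coeff_map, ← Algebra.algebraMap_eq_smul_one]
      rfl
    rw [e, wv, if_pos ⟨r.1.2.2, h1⟩, smul_smul, ← mul_assoc, mul_inv_cancel₀ d.I_ne, one_mul,
      ← smul_sub, norm_smul]
    refine (mul_le_of_le_one_left (norm_nonneg _) (d.lam_div_le z _)).trans ?_
    obtain ⟨h3, h4⟩ := eta1_inv (d.κ_zero z)
    rw [show Ring.inverse (PowerSeries.coeff 0 (d.κ z)) - 1 = -((PowerSeries.coeff 0 (d.κ z) - 1) *
      Ring.inverse (PowerSeries.coeff 0 (d.κ z))) by linear_combination h3, norm_neg]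
    exact (syl_mul (d.κ_zero z) h4).trans (by linarith [d.p.half_le_ϑ])
  · simpa using d.p.ϑ_pos.le

lemma a_near : SylBd ((Matrix.of fun r s : B => (2 : K)⁻¹ • d.M 1 r s) - (Matrix.of fun r s : B =>
      if r.1.1 = d.σ s.1.1 ∧ (s.1.2.1.1 - 1).toNat ≤ 2 * (r.1.2.1.1 - 1).toNat + 1 then
        (d.lamO s.1.1).coeff (2 * (r.1.2.1.1 - 1).toNat + 1 - (s.1.2.1.1 - 1).toNat) else 0).map
      (ιB K A)) d.p.ϑ := by
  intro r s
  obtain ⟨h1, -⟩ := (hB _).1 r.2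
  obtain ⟨h2, -⟩ := (hB _).1 s.2
  have h3 := r.1.2.2
  have h4 := s.1.2.2
  have h5 := d.p.ϑ_pos.le
  simp only [Matrix.sub_apply, Matrix.map_apply, Matrix.of_apply, M, opm]
  by_cases h : r.1.1 = d.σ s.1.1
  · rw [if_pos h]
    split_ifs with h6
    · have h7 := d.F_neg_one s.1.1 (2 * (r.1.2.1.1 - 1).toNat + 1 - (s.1.2.1.1 - 1).toNat)
      have h8 := h6.2
      rw [show 2 * r.1.2.1.1 - s.1.2.1.1 = ((2 * (r.1.2.1.1 - 1).toNat + 1 -
        (s.1.2.1.1 - 1).toNat : ℕ) : ℤ) by omega, h1, h2]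
      generalize 2 * (r.1.2.1.1 - 1).toNat + 1 - (s.1.2.1.1 - 1).toNat = n at h7 ⊢
      have e : ιB K A ((d.lamO s.1.1).coeff n) =
          (2 : K)⁻¹ • algebraMap K A (2 * (d.lam s.1.1).coeff n) := by
        rw [← d.lamO_map, coeff_map, Algebra.smul_def, ← map_mul, inv_mul_cancel_left₀ two_ne_zero]
        rfl
      rw [e, ← smul_sub, norm_smul, norm_inv, d.two]
      norm_num at h7 ⊢
      linarith
    · rw [d.F_supp _ _ (by
        by_contra h7
        exact h6 ⟨h, by simp only at h7; omega⟩)]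
      simpa using h5
  · rw [if_neg h, if_neg fun h' => h h'.1]
    simpa using h5

lemma sum_w (z : Z) (x : J × Ex 1 → A) : ∑' r, x r * d.wc z r = ∑ r : B, x r * d.wc z r := by
  rw [Finset.sum_coe_sort B fun r => x r * d.wc z r]
  refine tsum_eq_sum fun r hr => ?_
  have h1 := d.p.le1
  rw [hB, InB, Pm.top] at hr
  unfold wc col
  rw [d.wv_supp z _ (by omega), ite_self, mul_zero]

lemma nil {κ : Type} [Field κ] [CharP κ 2] (ℓ : Lift K κ) {η : J → Arr A}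
    {a yi : J → A} (hη : d.IsEta η a) (hyi : ∀ j, d.yv η j (d.p.e, 0) * yi j = 1 ∧ ‖yi j‖ ≤ 2)
    {ϱ : Z → J × Ex 1 → A} (hϱ : ∀ z r, ‖ϱ z r - d.ρr z r‖ ≤ 1 / 2 * 2 ^ d.p.Vi r) :
    ∃ (N : B → B → A) (n : ℕ), (∀ r c : B, cutL (cutR (d.M 1) d.wc ϱ) (d.yc η) d.p.Ei yi r c =
      2 * N r c) ∧ (∀ r c, ‖N r c‖ ≤ 1) ∧ ∀ r c, ‖mpow N n r c‖ ≤ d.p.ϑ := by
  have t0 := d.p.ϑ_pos.le
  have t1 := d.p.ϑ_lt.le
  have h1 := a_near hB
  have h2 := w_near hB
  have h3 := ρ_near hB hϱ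
  have h4 := ρ_near hB (ϱ := d.ρr) fun z r => by rw [sub_self, norm_zero]; positivity
  have h5 := nr_mul t0 t1 h4 h2 (ιB_bd _) (ιB_bd _)
  have h6 : (Matrix.of fun z (c : B) => (d.o.I 1)⁻¹ • d.ρr z c) *
      (Matrix.of fun (r : B) z => d.o.I 1 • d.wc z r) = 1 := by
    ext z z'
    simp only [Matrix.mul_apply, Matrix.of_apply, smul_mul_smul_comm, inv_mul_cancel₀ d.I_ne,
      one_smul]
    rw [← sum_w hB, Matrix.one_apply]
    exact d.dot_ρ_w z z'
  rw [h6, ← Matrix.map_mul, ← Matrix.map_one (ιB K A) (map_zero _) (map_one _),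
    ← Matrix.map_sub _ (map_sub _)] at h5
  generalize hρ : (Matrix.of fun z (c : B) =>
    if c.1.1 = d.jz z then d.resO z c.1.2.1.1.toNat else 0) = ρO at h3 h5
  set wO := Matrix.of fun (r : B) z => if r.1.1 = d.jz z then
    (d.lamO (d.jz z) /ₘ (X - C ⟨d.β z, d.β_le z⟩)).coeff (r.1.2.1.1 - 1).toNat else 0 with hwO
  set aO := Matrix.of fun r s : B =>
    if r.1.1 = d.σ s.1.1 ∧ (s.1.2.1.1 - 1).toNat ≤ 2 * (r.1.2.1.1 - 1).toNat + 1 then
      (d.lamO s.1.1).coeff (2 * (r.1.2.1.1 - 1).toNat + 1 - (s.1.2.1.1 - 1).toNat) else 0 with haO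
  have l1 := d.p.le1
  have l2 := d.p.e_ge
  have key := nil_bar d.σ d.σZ d.jz (fun z => ℓ.hom ⟨d.β z, d.β_le z⟩) d.c
    (fun j => ℓ.hom ⟨d.u j, (d.u_norm j).le⟩) d.p.m d.p.top.toNat (by unfold Pm.top; omega) d.jz_σ
    (fun z => by rw [← map_pow]; exact congrArg _ (Subtype.ext (d.β_σ z)))
    (fun z => by rw [Geo.c, Geo.c, d.n_σ])
    (fun j => by rw [← map_pow]; exact congrArg _ (Subtype.ext (d.u_σ j)))
    (fun j h => ((ℓ.hom_eq_zero _).1 h).ne (d.u_norm j)) d.c_pos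
    (fun z z' h h' => by
      by_contra h0
      rw [← sub_eq_zero, ← map_sub] at h'
      exact ((ℓ.hom_eq_zero _).1 h').ne (d.β_sep z z' h0 h)) d.deg
    (fun r : B => r.1.1) (fun r : B => (r.1.2.1.1 - 1).toNat)
    (fun j a ha => ⟨⟨(j, ⟨(a + 1, -1), by simp⟩), (hB _).2 ⟨rfl, by simp only; omega⟩⟩, rfl, by simp⟩)
    (fun r => by have := ((hB _).1 r.2).2; have := r.1.2.2; omega)
    (fun r r' h h' => by
      have a1 := ((hB _).1 r.2).1
      have a2 := ((hB _).1 r'.2).1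
      have a3 := r.1.2.2
      have a4 := r'.1.2.2
      exact Subtype.ext (Prod.ext h (Subtype.ext (Prod.ext (by omega) (by omega)))))
    (fun j => (d.lamO j).map ℓ.hom) (fun j => by simp [lamO, Polynomial.map_prod])
    (fun z => (d.lamO (d.jz z) /ₘ (X - C ⟨d.β z, d.β_le z⟩)).map ℓ.hom) (fun z => by
      have : (d.lamO (d.jz z)).IsRoot ⟨d.β z, d.β_le z⟩ := by
        rw [IsRoot.def, lamO, eval_mul, eval_prod, Finset.prod_eq_zero (i := z) (by simp)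
          (by simp [(d.c_pos z).ne']), mul_zero]
      have := congrArg (Polynomial.map ℓ.hom) (mul_divByMonic_eq_iff_isRoot.2 this)
      simpa using this)
    (aO.map ℓ.hom) (fun r s => by
      rw [haO, Matrix.map_apply, Matrix.of_apply, apply_ite ℓ.hom, map_zero, coeff_map])
    (wO.map ℓ.hom) (fun r z => by
      rw [hwO, Matrix.map_apply, Matrix.of_apply, apply_ite ℓ.hom, map_zero, coeff_map])
    (ρO.map ℓ.hom) (by
      rw [← Matrix.map_mul, ← Matrix.map_one ℓ.hom (map_zero _) (map_one _), eq_comm, ← sub_eq_zero,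
        ← Matrix.map_sub _ (map_sub _)]
      ext z z'
      exact (ℓ.hom_eq_zero _).2 (((ιB_norm (A := A) _).ge.trans (h5 z z')).trans_lt d.p.ϑ_lt))
  clear_value wO aO
  have e1 : ∀ {R : Type} [CommRing R] (f : uball K →+* R) (n : ℕ),
      ((aO * (1 - wO * ρO)) ^ n).map f = (aO.map f * (1 - wO.map f * ρO.map f)) ^ n := by
    intro R _ f n
    rw [Matrix.map_pow, Matrix.map_mul, Matrix.map_sub _ (map_sub _), Matrix.map_mul,
      Matrix.map_one _ (map_zero _) (map_one _)]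
  rw [← e1] at key
  have h7 := nr_mul t0 t1 h2 h3 (ιB_bd _) (ιB_bd _)
  have h8 : SylBd (1 - wO.map (ιB K A) * ρO.map (ιB K A)) 1 := by
    have := ιB_bd (A := A) (1 - wO * ρO)
    rwa [Matrix.map_sub _ (map_sub _), Matrix.map_mul,
      Matrix.map_one _ (map_zero _) (map_one _)] at this
  have h9 := nr_mul t0 t1 h1 (Y := 1 - (Matrix.of fun (r : B) z => d.o.I 1 • d.wc z r) *
    Matrix.of fun z (c : B) => (d.o.I 1)⁻¹ • ϱ z c) (fun i j => by
      rw [sub_sub_sub_cancel_left, ← neg_sub, Matrix.neg_apply, norm_neg]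
      exact h7 i j) (ιB_bd _) h8
  have g1 : SylBd (aO.map (ιB K A) * (1 - wO.map (ιB K A) * ρO.map (ιB K A))) 1 := by
    simpa using (ιB_bd aO).mul zero_le_one zero_le_one h8
  have g2 : SylBd ((Matrix.of fun r c : B => (2 : K)⁻¹ •
      cutL (cutR (d.M 1) d.wc ϱ) (d.yc η) d.p.Ei yi r c) -
      aO.map (ιB K A) * (1 - wO.map (ιB K A) * ρO.map (ιB K A))) d.p.ϑ := by
    intro r c
    obtain ⟨a1, a2⟩ := (hB _).1 r.2
    obtain ⟨a3, a4⟩ := (hB _).1 c.2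
    have a5 := T2_small hϱ hη hyi r c fun j h => by
      rw [h] at a1
      simp [Pm.Ei] at a1
    rw [Pm.Ui, Pm.Vi, d.p.U_eq (by omega), a1, a3, d.p.V_blk a2, d.p.V_blk a4,
      sub_add_cancel_right, Real.rpow_neg_one] at a5
    have a6 : ‖(2 : K)⁻¹ • ∑ j, d.yc η j r * (yi j * cutR (d.M 1) d.wc ϱ (d.p.Ei j) c)‖ ≤ d.p.ϑ := by
      rw [norm_smul, norm_inv, d.two]
      linarith
    refine le_of_eq_of_le (congrArg _ ?_) (syl_sub (h9 r c) a6)
    generalize aO.map (ιB K A) * (1 - wO.map (ιB K A) * ρO.map (ιB K A)) = Y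
    rw [Matrix.mul_sub, Matrix.mul_one, ← Matrix.mul_assoc]
    simp only [Matrix.sub_apply, Matrix.of_apply, cutL, smul_sub]
    have a7 : ((Matrix.of fun r s : B => (2 : K)⁻¹ • d.M 1 r s) *
        (Matrix.of fun (r : B) z => d.o.I 1 • d.wc z r) *
        Matrix.of fun z (c : B) => (d.o.I 1)⁻¹ • ϱ z c) r c =
        (2 : K)⁻¹ • ∑ z, mulv (d.M 1) (d.wc z) r * ϱ z c := by
      simp only [Matrix.mul_apply, Matrix.of_apply, mulv, sum_w hB, Finset.smul_sum, Finset.sum_mul,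
        smul_mul_smul_comm, mul_assoc, mul_inv_cancel₀ d.I_ne, mul_one]
    rw [a7, cutR, smul_sub]
    ring
  refine ⟨fun r c => (2 : K)⁻¹ • cutL (cutR (d.M 1) d.wc ϱ) (d.yc η) d.p.Ei yi r c,
    d.p.top.toNat, fun r c => ?_, nr_bd t1 g2 g1, fun r c => ?_⟩
  · rw [two_mul, ← add_smul, show (2 : K)⁻¹ + 2⁻¹ = 1 by norm_num, one_smul]
  · have g3 := nr_pow t0 t1 g2 g1 (d.p.top.toNat + 1) r c
    rw [← syl_mpow, ← e1, Matrix.sub_apply] at g3
    generalize (aO * (1 - wO * ρO)) ^ (d.p.top.toNat + 1) = Y at g3 key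
    have g4 := (ℓ.red_eq_zero _ (Y r c).2).1 (congrFun (congrFun key r) c)
    have g5 := syl_add g3 ((ιB_norm (A := A) _).le.trans (g4.trans d.p.half_le_ϑ))
    rwa [Matrix.map_apply, sub_add_cancel] at g5

omit hB

variable (d)

theorem dom {κ : Type} [Field κ] [CharP κ 2] [IsAlgClosed κ] (ℓ : Lift K κ) {η : J → Arr A}
    {a yi : J → A} (hη : d.IsEta η a) (hyi : ∀ j, d.yv η j (d.p.e, 0) * yi j = 1 ∧ ‖yi j‖ ≤ 2)
    {ϱ : Z → J × Ex 1 → A} (hϱ : ∀ z r, ‖ϱ z r - d.ρr z r‖ ≤ 1 / 2 * 2 ^ d.p.Vi r) :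
    ∃ (S B : Finset (J × Ex 1)) (π : J × Ex 1 → J × Ex 1),
      Dom d.p.Ui d.p.Vi d.p.ϑ S B π (cutL (cutR (d.M 1) d.wc ϱ) (d.yc η) d.p.Ei yi) := by
  obtain ⟨S, hS⟩ : ∃ S : Finset (J × Ex 1), ∀ r, r ∈ S ↔ r.2.1.2 = 0 ∧ r.2.1.1 < d.p.e :=
    ⟨(da_box (d.p.e - 1) 0).toFinset, fun r => by
      rw [Set.Finite.mem_toFinset, Set.mem_ofPred_eq, Int.le_sub_one_iff]⟩
  obtain ⟨B, hB⟩ : ∃ B : Finset (J × Ex 1), ∀ r, r ∈ B ↔ d.InB r :=
    ⟨(da_box d.p.top (-1)).toFinset, fun r => Set.Finite.mem_toFinset _⟩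
  obtain ⟨π, p1, p2, p3⟩ : ∃ π : J × Ex 1 → J × Ex 1, (∀ r, d.σ (π r).1 = r.1) ∧
      (∀ r, (π r).2.1.2 = 0) ∧ ∀ r ∈ S, (π r).2.1.1 = d.p.π r.2.1.1 :=
    ⟨fun r => (d.σ.symm r.1, ⟨(max 1 (d.p.π r.2.1.1), 0), le_max_left _ _⟩), fun r => by simp,
      fun r => rfl, fun r hr => max_eq_right (d.p.π_mem r.2.2 ((hS r).1 hr).2).1⟩
  have t0 := d.p.ϑ_pos
  have hE : ∀ r ∈ S, ∀ j, r ≠ d.p.Ei j := fun r hr j h => by
    have := ((hS r).1 hr).2
    rw [h] at this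
    simp [Pm.Ei] at this
  refine ⟨S, B, π, d.p.ϑ_lt, d.p.half_le_ϑ, ?_, fun r hr => ?_, fun r hr r' hr' h => ?_,
    M2_cc hϱ hη hyi, M2_le hϱ hη hyi, fun r c h1 h2 => ?_, fun r hr => ?_, fun r hr => ?_,
    fun r hr => d.p.U_eq fun h => hr ((hS r).2 h), fun r hr c hc => ?_, nil hB ℓ hη hyi hϱ⟩
  · refine Finset.disjoint_left.2 fun r h1 h2 => ?_
    have := ((hS r).1 h1).1
    have := ((hB r).1 h2).1
    omega
  · exact (hS _).2 ⟨p2 r, p3 r hr ▸ (d.p.π_mem r.2.2 ((hS r).1 hr).2).2⟩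
  · obtain ⟨a1, a2⟩ := (hS r).1 hr
    obtain ⟨a3, a4⟩ := (hS r').1 hr'
    refine Prod.ext (by rw [← p1, h, p1]) (Subtype.ext (Prod.ext
      (d.p.π_inj r.2.2 a2 r'.2.2 a4 (by rw [← p3 r hr, h, p3 r' hr'])) (by omega)))
  · by_cases hr : ∀ j, r ≠ d.p.Ei j
    · rw [hB, hB] at h2
      have h3 := M2_sub hϱ hη hyi r c hr h2
      rw [← sub_add_cancel (cutL _ _ _ _ r c) (d.M 1 r c)]
      refine syl_add h3 ?_
      by_cases h4 : r.1 = d.σ c.1
      · refine d.M_small r c ?_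
        rintro (⟨a1, a2, a3, a4⟩ | ⟨a1, a2, a3, a4⟩)
        · have a5 : r ∈ S := (hS r).2 ⟨a1, lt_of_le_of_ne a3 fun h =>
            hr r.1 (Prod.ext rfl (Subtype.ext (Prod.ext h a1)))⟩
          exact h1 ⟨a5, Prod.ext (d.σ.injective (by rw [p1, h4]))
            (Subtype.ext (Prod.ext (by rw [p3 r a5, a4]) (by rw [p2, a2])))⟩
        · exact h2 ⟨⟨a1, a3⟩, a2, a4⟩
      · rw [M, opm, if_neg h4, norm_zero]
        positivity
    · push Not at hr
      obtain ⟨j, rfl⟩ := hr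
      rw [M2_E hϱ hη hyi, norm_zero]
      positivity
  · obtain ⟨a1, a2⟩ := (hS r).1 hr
    have h3 := M2_sub hϱ hη hyi r (π r) (hE r hr) fun h => by have := h.1.1; omega
    generalize cutL (cutR (d.M 1) d.wc ϱ) (d.yc η) d.p.Ei yi r (π r) = x at h3 ⊢
    rw [M, opm, if_pos (p1 r).symm] at h3
    simp only [Pm.Ui, Pm.Vi, p2, p3 r hr, a1, mul_zero, sub_zero] at h3 ⊢
    by_cases h : 2 * r.2.1.1 < d.p.e
    · rw [d.p.match_lo h, sub_self, Real.rpow_zero] at h3 ⊢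
      rw [Pm.π, if_pos h, sub_self, mul_one] at h3
      refine da_inv d.p.ϑ_lt ?_
      rw [← sub_add_sub_cancel x (d.F (π r).1 0)]
      exact syl_add h3 ((d.F_zero _).trans d.p.half_le_ϑ)
    · have h' : (d.p.e : ℤ) < 2 * r.2.1.1 := by
        obtain ⟨k, hk⟩ := d.p.odd
        omega
      rw [d.p.match_hi h' a2.le] at h3 ⊢
      rw [add_sub_cancel_right, Real.rpow_one]
      rw [sub_add_cancel_right, Real.rpow_neg_one, Pm.π, if_neg h, sub_sub_cancel] at h3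
      obtain ⟨u, hu, h4⟩ := d.F_e (π r).1
      have hn : ‖(2 * u : K)⁻¹‖ = 2 := by rw [norm_inv, norm_mul, d.two, hu]; norm_num
      have hne : (2 * u : K) ≠ 0 := fun h0 => by rw [h0] at hn; simp at hn
      have h5 := syl_add (x := d.p.ϑ / 2) (h3.trans (le_of_eq (by ring))) h4
      rw [sub_add_sub_cancel] at h5
      obtain ⟨y, h6, h7⟩ := da_inv (x := (2 * u)⁻¹ • x) d.p.ϑ_lt (by
        rw [show (1 : A) = (2 * u)⁻¹ • algebraMap K A (2 * u) by
          rw [Algebra.smul_def, ← map_mul, inv_mul_cancel₀ hne, map_one], ← smul_sub, norm_smul, hn]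
        linarith)
      refine ⟨(2 * u)⁻¹ • y, by rw [mul_smul_comm, ← smul_mul_assoc, h6], ?_⟩
      rw [norm_smul, hn]
      linarith
  · obtain ⟨a1, a2⟩ := (hS r).1 hr
    have := d.p.diag r.2.2 a2
    rw [da_ϑ, one_div, ← Real.rpow_neg_one, Pm.Ui, Pm.Vi, a1]
    exact Real.rpow_le_rpow_of_exponent_le one_le_two (by linarith)
  · obtain ⟨a1, a2⟩ := (hB r).1 hr
    obtain ⟨a3, a4⟩ := (hB c).1 hc
    rw [Pm.Vi, Pm.Vi, a1, a3, d.p.V_blk a2, d.p.V_blk a4]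

end Dat

end Pool.Agent.Lib.MP_788af2_nt.AG
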