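import Pool.Agent.Lib.MP_788af2_nt.AG.DomEx

/-!
Existence of the exact eigenfunctionals.
-/

set_option linter.unusedSectionVars false

namespace Pool.Agent.Lib.MP_788af2_nt.AG

open Polynomial Filter Topology Pool.Agent.Lib.MP_788af2_nt.AS Pool.Agent.Lib.MP_a3f657_nt.Two

section aux

variable {K A J Z : Type} [NontriviallyNormedField K] [IsUltrametricDist K] [CompleteSpace K]
  [CharZero K] [NormedCommRing A] [NormedAlgebra K A] [IsUltrametricDist A] [CompleteSpace A]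
  [NormOneClass A] [Fintype J] [Fintype Z] [DecidableEq J] [DecidableEq Z] (d : Dat K A J Z)

lemma ee_le {x y C D : ℝ} (hC : 0 ≤ C) (h : x ≤ 1 + y) (hD : 2 * C ≤ D) :
    C * 2 ^ x ≤ D * 2 ^ y := by
  have h1 : (2 : ℝ) ^ x ≤ 2 * 2 ^ y := by
    rw [← syl_pow1]
    exact Real.rpow_le_rpow_of_exponent_le one_le_two h
  have h2 := syl_pos y
  nlinarith [mul_le_mul_of_nonneg_left h1 hC]

namespace Dat

lemma ee_c_le {s : ℝ} (hs : 0 ≤ s) (h : d.Sm s) (z : Z) : ‖(d.c z : K)‖ ≤ s := by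
  have h1 : (d.c z : K) = d.c0 * d.n z := by
    simp only [Geo.c, Geo.c0]
    push_cast
    rfl
  have h2 : ‖(d.n z : K)‖ ≤ 1 := IsUltrametricDist.norm_natCast_le_one K _
  have h3 := (h z).trans (mul_le_of_le_one_right hs h2)
  rw [h1, norm_mul]
  exact (mul_le_of_le_one_right (norm_nonneg _) h2).trans h3

lemma ee_c_ne (z : Z) : (d.c z : K) ≠ 0 := by
  have := d.n_pos z
  have h : d.c z ≠ 0 := by
    simp only [Geo.c]
    positivity
  exact_mod_cast h

lemma ee_P (z z' : Z) (h : d.P z z' ≠ 0) : (d.c z : K) = d.c z' := by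
  have h1 : z = d.σZ z' := by
    by_contra h2
    exact h (by simp [P, h2])
  rw [h1]
  simp only [Geo.c, d.n_σ]

lemma ee_evA (z : Z) (u : ℤ × ℤ) : ‖d.evA z u‖ ≤ 1 := by
  unfold evA
  split_ifs
  · rw [norm_smul, norm_mul, norm_pow]
    have h1 := d.G_le_one u.2.toNat
    have h2 : ‖d.β z‖ ^ (-u.1).toNat ≤ 1 := pow_le_one₀ (norm_nonneg _) (d.β_le z)
    have h3 : ‖PowerSeries.coeff 0 (d.κ z)‖ ≤ 1 := mem_raS.mp (d.κ_raS z) 0
    exact mul_le_one₀ (mul_le_one₀ h1 (by positivity) h2) (norm_nonneg _) h3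
  · simp

lemma ee_ry {η : J → Arr A} {a : J → A} (hη : d.IsEta η a) (z : Z) (j : J) :
    ‖d.ry η z j‖ ≤ 4 := by
  unfold ry
  split_ifs
  · refine norm_conv_le (by norm_num) fun v => ?_
    exact (mul_le_one₀ (d.ee_evA z v) (norm_nonneg _) (hη.e2_le_one j _)).trans (by norm_num)
  · simp

end Dat

end aux

theorem exists_eig (K : Type) [NontriviallyNormedField K] [IsUltrametricDist K] [CompleteSpace K]
    [CharZero K] {κ : Type} [Field κ] [CharP κ 2] [IsAlgClosed κ] (ℓ : Lift K κ) :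
    ∃ s : ℝ, 0 < s ∧ ∀ {A J Z : Type} [NormedCommRing A] [NormedAlgebra K A] [IsUltrametricDist A]
      [CompleteSpace A] [NormOneClass A] [Fintype J] [Fintype Z] [DecidableEq J] [DecidableEq Z]
      (d : Dat K A J Z), d.Sm s → ∀ η a, d.IsEta η a → ∃ ζ N, d.IsEig η (2 ^ 12) ζ N := by
  obtain ⟨ε, hε, H⟩ := riccati (K := K) ℓ.two 4 (by norm_num)
  have hs : 0 < min ε (1 / 2 ^ 12) := lt_min hε (by norm_num)
  refine ⟨min ε (1 / 2 ^ 12), hs, ?_⟩
  intro A J Z _ _ _ _ _ _ _ _ _ d hd η a hη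
  have hd' : d.Sm (1 / 2 ^ 12) := fun z =>
    (hd z).trans (mul_le_mul_of_nonneg_right (min_le_right _ _) (norm_nonneg _))
  choose yi hyi using hη.y_unit
  obtain ⟨S, B, π, hD⟩ := d.dom ℓ hη hyi (ϱ := d.ρr) fun z r => by
    rw [sub_self, norm_zero]
    positivity
  have hb := d.p.V_blk_mem
  obtain ⟨ζ, N, h1, h2, h3, h4, h5⟩ := H (E' := d.Err) (ry := d.ry η) (P := d.P)
    (Pi := d.P.transpose) (c := fun z => (d.c z : K))
    (a := Matrix.of fun j' j => if j' = d.σ j then a j else 0) d.M_cc d.M_le hD d.P_orth d.ee_P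
    d.ee_c_ne (fun z => (d.ee_c_le hs.le hd z).trans (min_le_left _ _))
    (fun z r => (d.ρr_le z r).trans (ee_le (by norm_num) (by linarith [hb.1]) (by norm_num)))
    (fun z r => (d.wc_le z r).trans (ee_le (by norm_num) (by linarith [hb.2]) (by norm_num)))
    d.wc_colB d.dot_ρ_w
    (fun z r => (d.Err_le hd' z r).trans (ee_le (by norm_num) (by
      have e1 := d.p.V_low r.2.1.2 r.2.2
      have e2 := a1_abs_nonneg r.2.1.2
      unfold Pm.Vi
      linarith) (by norm_num)))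
    d.vmul_ρ hη.yc_colB
    (fun j j' => by
      by_cases h : j = j'
      · subst h
        simpa [Dat.yc, col, Pm.Ei] using (hyi j).1
      · simp [Dat.yc, col, Pm.Ei, h, Ne.symm h])
    (fun j => (hyi j).2.trans (by
      have e1 : d.p.Ui (d.p.Ei j) = 1 + d.p.V d.p.e 0 := d.p.U_eq fun h => lt_irrefl _ h.2
      have e2 : (1 : ℝ) ≤ 2 ^ d.p.Ui (d.p.Ei j) :=
        Real.one_le_rpow one_le_two (by linarith [d.p.V_e_mem.1])
      linarith))
    hη.mulv_yc (d.dot_ρ_y hη.dec) (d.ee_ry hη)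
  refine ⟨ζ, N, fun z r => (h1 z r).trans ?_, fun z z' => (h2 z z').trans (by norm_num), h3, h4, h5⟩
  exact mul_le_mul_of_nonneg_right (by norm_num) (syl_pos _).le

end Pool.Agent.Lib.MP_788af2_nt.AG
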