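import Pool.Agent.Lib.MP_788af2_nt.AG.TwoB

/-!
Existence of the unit root eigenvector.
-/

set_option linter.unusedSectionVars false

namespace Pool.Agent.Lib.MP_788af2_nt.AG

open Polynomial Filter Topology

/-- A contraction for a weighted supremum has a fixed point. -/
lemma eta1_fix {ι A : Type} [NormedAddCommGroup A] [CompleteSpace A] (W : ι → ℝ)
    (S : Set (ι → A)) (T : (ι → A) → ι → A) {x₀ : ι → A} {θ : ℝ} (h0 : 0 ≤ θ) (h1 : θ < 1)
    (hx : x₀ ∈ S) (hT : ∀ x ∈ S, T x ∈ S)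
    (hS : ∀ (f : ℕ → ι → A) (x : ι → A), (∀ n, f n ∈ S) →
      (∀ i, Tendsto (fun n => f n i) atTop (𝓝 (x i))) → x ∈ S)
    (hb : ∀ x ∈ S, ∀ y ∈ S, ∀ i, ‖x i - y i‖ ≤ W i)
    (hc : ∀ x ∈ S, ∀ y ∈ S, ∀ C, 0 ≤ C → (∀ i, ‖x i - y i‖ ≤ C * W i) →
      ∀ i, ‖T x i - T y i‖ ≤ θ * C * W i) : ∃ x ∈ S, T x = x := by
  have a1 : ∀ n, ∀ x ∈ S, T^[n] x ∈ S := fun n => by
    induction n with
    | zero => exact fun x h => h
    | succ n ih => exact fun x h => by rw [Function.iterate_succ_apply']; exact hT _ (ih x h)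
  have a2 : ∀ n, ∀ x ∈ S, ∀ y ∈ S, ∀ i, ‖T^[n] x i - T^[n] y i‖ ≤ θ ^ n * W i := fun n => by
    induction n with
    | zero => exact fun x h y h' i => by simpa using hb x h y h' i
    | succ n ih =>
      intro x h y h' i
      rw [Function.iterate_succ_apply', Function.iterate_succ_apply', pow_succ']
      exact hc _ (a1 n x h) _ (a1 n y h') _ (pow_nonneg h0 n) (ih x h y h') i
  have a3 : ∀ i, ∃ l, Tendsto (fun n => T^[n] x₀ i) atTop (𝓝 l) := fun i =>
    cauchySeq_tendsto_of_complete (cauchySeq_of_le_geometric θ (W i) h1 fun n => by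
      rw [dist_eq_norm, Function.iterate_succ_apply, mul_comm]
      exact a2 n _ hx _ (hT _ hx) i)
  choose x hl using a3
  have a4 : x ∈ S := hS _ x (fun n => a1 n _ hx) hl
  have a5 : ∀ n i, ‖x i - T^[n] x₀ i‖ ≤ θ ^ n * W i := fun n i => by
    refine le_of_tendsto' ((((tendsto_add_atTop_iff_nat n).2 (hl i)).sub_const _).norm) fun m => ?_
    rw [add_comm, Function.iterate_add_apply]
    exact a2 n _ (a1 m _ hx) _ hx i
  refine ⟨x, a4, funext fun i => ?_⟩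
  refine tendsto_nhds_unique ?_ ((tendsto_add_atTop_iff_nat 1).2 (hl i))
  rw [tendsto_iff_norm_sub_tendsto_zero]
  refine squeeze_zero (g := fun n => θ * θ ^ n * W i) (fun _ => norm_nonneg _) (fun n => ?_) ?_
  · rw [norm_sub_rev, Function.iterate_succ_apply']
    exact hc _ a4 _ (a1 n _ hx) _ (pow_nonneg h0 n) (a5 n) i
  · simpa using ((tendsto_pow_atTop_nhds_zero_of_lt_one h0 h1).const_mul θ).mul_const (W i)

lemma eta1_inv {A : Type} [NormedCommRing A] [IsUltrametricDist A] [CompleteSpace A]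
    [NormOneClass A] {a : A} (h : ‖a - 1‖ ≤ 1 / 2) :
    a * Ring.inverse a = 1 ∧ ‖Ring.inverse a‖ ≤ 1 := by
  have h1 : IsUnit a := by
    have := (Units.oneSub (1 - a) (by rw [norm_sub_rev]; linarith)).isUnit
    simpa using this
  have h2 := Ring.mul_inverse_cancel a h1
  refine ⟨h2, ?_⟩
  have h3 : Ring.inverse a = 1 + -((a - 1) * Ring.inverse a) := by linear_combination h2
  have h4 := IsUltrametricDist.norm_add_le_max (1 : A) (-((a - 1) * Ring.inverse a))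
  rw [← h3, norm_one, norm_neg] at h4
  have h5 := norm_mul_le (a - 1) (Ring.inverse a)
  have h6 := norm_nonneg (Ring.inverse a)
  rcases le_max_iff.1 h4 with h7 | h7
  · exact h7
  · nlinarith

lemma eta1_pow {x y : ℝ} (h : x ≤ y) : (2 : ℝ) ^ x ≤ 2 ^ y :=
  Real.rpow_le_rpow_of_exponent_le one_le_two h

lemma eta1_w_nonneg (p : Pm) {a : ℤ} (j : ℤ) (h : 0 ≤ a) : 0 ≤ p.w a j :=
  le_trans (by exact_mod_cast abs_nonneg j) (p.abs_le_w j h)

lemma eta1_w_pos (p : Pm) {u : ℤ × ℤ} (h : 0 ≤ u.1) (hu : u ≠ 0) :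
    3 / 10 * (1 / p.e) ≤ p.w u.1 u.2 := by
  have h1 := p.le_w u.2 h
  have h2 := p.a1_e_posR
  have h3 : (1 : ℝ) / p.e ≤ 1 := by
    rw [div_le_one h2]
    exact_mod_cast p.a1_e_pos
  have h4 : (0 : ℝ) ≤ ((|u.2| : ℤ) : ℝ) := by exact_mod_cast abs_nonneg _
  have h5 : (0 : ℝ) ≤ (u.1 : ℝ) / p.e := div_nonneg (by exact_mod_cast h) h2.le
  by_cases h6 : u.2 = 0
  · have h7 : 1 ≤ u.1 := by
      by_contra h8
      exact hu (Prod.ext (show u.1 = 0 by omega) h6)
    have h8 : (1 : ℝ) / p.e ≤ (u.1 : ℝ) / p.e :=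
      div_le_div_of_nonneg_right (by exact_mod_cast h7) h2.le
    linarith
  · have h7 : (1 : ℝ) ≤ ((|u.2| : ℤ) : ℝ) := by exact_mod_cast Int.one_le_abs h6
    linarith

variable {K A J Z : Type} [NontriviallyNormedField K] [IsUltrametricDist K] [CompleteSpace K]
  [CharZero K] [NormedCommRing A] [NormedAlgebra K A] [IsUltrametricDist A] [CompleteSpace A]
  [NormOneClass A] [Fintype J] [Fintype Z] [DecidableEq J] [DecidableEq Z] (d : Dat K A J Z)

namespace Dat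

lemma eta1_psi (j : J) {x : Arr A} {C : ℝ} (hC : 0 ≤ C)
    (h : ∀ u : ℤ × ℤ, ‖x u‖ ≤ C * 2 ^ (-d.p.w u.1 u.2)) (u : ℤ × ℤ) :
    ‖psi (conv (d.F j) x) u‖ ≤ C * 2 ^ (-(2 * d.p.w u.1 u.2)) := by
  refine norm_conv_le (by positivity) fun v => ?_
  refine (mul_le_mul (d.F_le_w j v) (h _) (norm_nonneg _) (by positivity)).trans ?_
  rw [mul_left_comm, ← Real.rpow_add two_pos]
  refine mul_le_mul_of_nonneg_left (eta1_pow ?_) hC
  have h1 := d.p.w_add v.1 v.2 (2 * u.1 - v.1) (2 * u.2 - v.2)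
  rw [add_sub_cancel, add_sub_cancel, d.p.w_two] at h1
  simp only [Prod.fst_sub, Prod.snd_sub]
  linarith

lemma eta1_zero (j : J) {x : Arr A} {C : ℝ} (hC : 0 ≤ C) (h0 : ∀ u : ℤ × ℤ, u.1 < 0 → x u = 0)
    (h1 : x 0 = 0) (h : ∀ u : ℤ × ℤ, ‖x u‖ ≤ C * 2 ^ (-d.p.w u.1 u.2)) :
    ‖psi (conv (d.F j) x) 0‖ ≤ 1 / 2 * C := by
  show ‖conv (d.F j) x 0‖ ≤ _
  refine norm_conv_le (by positivity) fun v => ?_
  rcases lt_trichotomy v.1 0 with h2 | h2 | h2
  · rw [d.F_supp j v h2, norm_zero, zero_mul]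
    positivity
  · by_cases h3 : v.2 = 0
    · rw [show v = 0 from Prod.ext h2 h3, sub_zero, h1, norm_zero, mul_zero]
      positivity
    refine mul_le_mul ((d.F_le_w j v).trans ?_) ((h _).trans ?_) (norm_nonneg _) (by positivity)
    · have h4 : (1 : ℝ) ≤ ((|v.2| : ℤ) : ℝ) := by exact_mod_cast Int.one_le_abs h3
      have h5 := d.p.abs_le_w v.2 h2.ge
      refine (eta1_pow (y := -1) (by linarith)).trans_eq ?_
      rw [Real.rpow_neg_one]
      norm_num
    · refine mul_le_of_le_one_right hC ((eta1_pow (y := 0) ?_).trans_eq (Real.rpow_zero _))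
      exact neg_nonpos.2 (eta1_w_nonneg d.p _ (by simp [h2]))
  · rw [h0 (0 - v) (by simpa using h2), norm_zero, mul_zero]
    positivity

lemma eta1_row (j : J) {x : Arr A} (h0 : ∀ u : ℤ × ℤ, u.1 < 0 → x u = 0)
    (h1 : ∀ u : ℤ × ℤ, ‖x u‖ ≤ 1)
    (h : ∀ n : ℤ, ‖x (n, 0)‖ ≤ 2 ^ (-min 1 ((n : ℝ) / d.p.l))) (n : ℤ) :
    ‖psi (conv (d.F j) x) (n, 0)‖ ≤ 2 ^ (-min 1 ((n : ℝ) / d.p.l)) := by
  refine norm_conv_le (by positivity) fun v => ?_
  by_cases h2 : v.1 < 0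
  · rw [d.F_supp j v h2, norm_zero, zero_mul]
    positivity
  by_cases h3 : 2 * n - v.1 < 0
  · rw [h0 _ h3, norm_zero, mul_zero]
    positivity
  have h4 := d.F_le j v
  rw [Pm.FB] at h4
  by_cases h5 : v.2 = 0
  · have h6 : ((2 * (n, (0 : ℤ)).1, 2 * (n, (0 : ℤ)).2) - v : ℤ × ℤ) = (2 * n - v.1, 0) :=
      Prod.ext rfl (by simp [h5])
    rw [h6]
    refine (mul_le_mul h4 (h _) (norm_nonneg _) (by positivity)).trans ?_
    rw [← Real.rpow_add two_pos]
    refine eta1_pow ?_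
    have h7 := d.p.min_le_f v.1
    have h8 := d.p.a1_l_posR
    have h9 : (0 : ℝ) ≤ (v.1 : ℝ) / d.p.l := div_nonneg (by exact_mod_cast not_lt.1 h2) h8.le
    have h10 : (0 : ℝ) ≤ ((2 * n - v.1 : ℤ) : ℝ) / d.p.l :=
      div_nonneg (by exact_mod_cast not_lt.1 h3) h8.le
    have h11 : (v.1 : ℝ) / d.p.l + ((2 * n - v.1 : ℤ) : ℝ) / d.p.l = 2 * ((n : ℝ) / d.p.l) := by
      push_cast
      ring
    simp only [h5, abs_zero, neg_zero, max_self, mul_zero, sub_zero, Int.cast_zero, zero_add]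
    generalize ((2 * n - v.1 : ℤ) : ℝ) / d.p.l = s at *
    generalize (v.1 : ℝ) / d.p.l = r at *
    generalize (n : ℝ) / d.p.l = t at *
    have h12 := min_le_left 1 t
    have h13 := min_le_right 1 t
    rcases min_choice 1 r with e | e <;> rcases min_choice 1 s with e' | e' <;>
      rw [e] at h7 <;> rw [e'] <;> linarith
  · have h6 : (1 : ℝ) ≤ ((|v.2| : ℤ) : ℝ) := by exact_mod_cast Int.one_le_abs h5
    have h7 := d.p.f_nonneg (v.1 - 2 * d.p.m * max 0 (-v.2))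
    refine (mul_le_of_le_one_right (norm_nonneg _) (h1 _)).trans (h4.trans (eta1_pow ?_))
    have h8 := min_le_left 1 ((n : ℝ) / d.p.l)
    linarith

/-- The closed set on which the iteration takes place. -/
structure Eta1S (x : Arr A) : Prop where
  supp : ∀ u : ℤ × ℤ, u.1 < 0 → x u = 0
  zero : x 0 = 1
  le : ∀ u : ℤ × ℤ, ‖x u‖ ≤ 2 ^ (-(2 * d.p.w u.1 u.2))
  le' : ∀ n : ℤ, ‖x (n, 0)‖ ≤ 2 ^ (-min 1 ((n : ℝ) / d.p.l))

variable {d}

lemma Eta1S.le_w {x : Arr A} (h : d.Eta1S x) (u : ℤ × ℤ) :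
    ‖x u‖ ≤ 1 * 2 ^ (-d.p.w u.1 u.2) := by
  by_cases hu : u.1 < 0
  · rw [h.supp u hu, norm_zero]
    positivity
  · have := eta1_w_nonneg d.p u.2 (not_lt.1 hu)
    rw [one_mul]
    exact (h.le u).trans (eta1_pow (by linarith))

lemma Eta1S.le_one {x : Arr A} (h : d.Eta1S x) (u : ℤ × ℤ) : ‖x u‖ ≤ 1 := by
  by_cases hu : u.1 < 0
  · rw [h.supp u hu, norm_zero]
    exact zero_le_one
  · have := eta1_w_nonneg d.p u.2 (not_lt.1 hu)
    exact (h.le u).trans ((eta1_pow (y := 0) (by linarith)).trans_eq (Real.rpow_zero _))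

lemma Eta1S.dec {x : Arr A} (h : d.Eta1S x) : Dec d.p x := dec_of_w h.supp fun u _ => h.le_w u

lemma Eta1S.sub_le {x y : Arr A} (h : d.Eta1S x) (h' : d.Eta1S y) (u : ℤ × ℤ) :
    ‖x u - y u‖ ≤ 1 * 2 ^ (-d.p.w u.1 u.2) := by
  rw [sub_eq_add_neg]
  exact (IsUltrametricDist.norm_add_le_max _ _).trans
    (max_le (h.le_w u) (by rw [norm_neg]; exact h'.le_w u))

lemma eta1_one : d.Eta1S one := by
  refine ⟨fun u hu => if_neg ?_, if_pos rfl, fun u => ?_, fun n => ?_⟩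
  · rintro rfl
    exact lt_irrefl _ hu
  · by_cases hu : u = 0
    · subst hu
      have h1 := d.p.w_le (a := 0) 0 le_rfl
      simp only [Int.cast_zero, zero_div, abs_zero, add_zero] at h1
      rw [show (one : Arr A) 0 = 1 from if_pos rfl, norm_one]
      refine (Real.rpow_zero _).symm.trans_le (eta1_pow ?_)
      simp only [Prod.fst_zero, Prod.snd_zero]
      linarith
    · rw [show (one : Arr A) u = 0 from if_neg hu, norm_zero]
      positivity
  · by_cases hu : n = 0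
    · subst hu
      rw [show (one : Arr A) (0, 0) = 1 from if_pos rfl, norm_one]
      simp
    · rw [show (one : Arr A) (n, 0) = 0 from if_neg fun e => hu (congrArg Prod.fst e), norm_zero]
      positivity

lemma Eta1S.psi_sub {x y : Arr A} (h : d.Eta1S x) (h' : d.Eta1S y) (j : J) (u : ℤ × ℤ) :
    psi (conv (d.F j) x) u - psi (conv (d.F j) y) u = psi (conv (d.F j) (x - y)) u := by
  rw [conv_sub (d.F_dec j) h.dec.mod h'.dec.mod]
  rfl

lemma Eta1S.a_sub {x y : Arr A} (h : d.Eta1S x) (h' : d.Eta1S y) (j : J) {C : ℝ} (hC : 0 ≤ C)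
    (hb : ∀ u : ℤ × ℤ, ‖x u - y u‖ ≤ C * 2 ^ (-d.p.w u.1 u.2)) :
    ‖psi (conv (d.F j) x) 0 - psi (conv (d.F j) y) 0‖ ≤ 1 / 2 * C := by
  rw [h.psi_sub h']
  refine d.eta1_zero j hC (fun u hu => ?_) ?_ hb
  · rw [Pi.sub_apply, h.supp u hu, h'.supp u hu, sub_zero]
  · rw [Pi.sub_apply, h.zero, h'.zero, sub_self]

lemma Eta1S.a_le {x : Arr A} (h : d.Eta1S x) (j : J) : ‖psi (conv (d.F j) x) 0 - 1‖ ≤ 1 / 2 := by
  have h1 := h.a_sub eta1_one j zero_le_one (h.sub_le eta1_one)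
  have h2 : psi (conv (d.F j) one) 0 = d.F j 0 := by
    rw [conv_comm, one_conv]
    rfl
  rw [h2, mul_one] at h1
  rw [← sub_add_sub_cancel _ (d.F j 0)]
  exact (IsUltrametricDist.norm_add_le_max _ _).trans (max_le h1 (d.F_zero j))

lemma Eta1S.map {x : Arr A} (h : d.Eta1S x) (j : J) :
    d.Eta1S fun u => Ring.inverse (psi (conv (d.F j) x) 0) * psi (conv (d.F j) x) u := by
  obtain ⟨h1, h2⟩ := eta1_inv (h.a_le j)
  have h3 : ∀ u, ‖Ring.inverse (psi (conv (d.F j) x) 0) * psi (conv (d.F j) x) u‖ ≤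
      ‖psi (conv (d.F j) x) u‖ := fun u =>
    (norm_mul_le _ _).trans (mul_le_of_le_one_left (norm_nonneg _) h2)
  refine ⟨fun u hu => ?_, (mul_comm _ _).trans h1, fun u => (h3 u).trans ?_,
    fun n => (h3 _).trans (d.eta1_row j h.supp h.le_one h.le' n)⟩
  · rw [((d.F_dec j).conv h.dec).psi.1 u hu, mul_zero]
  · simpa using d.eta1_psi j zero_le_one h.le_w u

lemma Eta1S.contr {x y : Arr A} (h : d.Eta1S x) (h' : d.Eta1S y) (j : J) {C : ℝ} (hC : 0 ≤ C)
    (hb : ∀ u : ℤ × ℤ, ‖x u - y u‖ ≤ C * 2 ^ (-d.p.w u.1 u.2)) (u : ℤ × ℤ) :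
    ‖Ring.inverse (psi (conv (d.F j) x) 0) * psi (conv (d.F j) x) u -
      Ring.inverse (psi (conv (d.F j) y) 0) * psi (conv (d.F j) y) u‖ ≤
      2 ^ (-(3 / 10 * (1 / (d.p.e : ℝ)))) * C * 2 ^ (-d.p.w u.1 u.2) := by
  by_cases h0 : u = 0
  · rw [h0, (h.map j).zero, (h'.map j).zero, sub_self, norm_zero]
    positivity
  by_cases h1 : u.1 < 0
  · rw [(h.map j).supp u h1, (h'.map j).supp u h1, sub_self, norm_zero]
    positivity
  obtain ⟨a1, a2⟩ := eta1_inv (h.a_le j)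
  obtain ⟨b1, b2⟩ := eta1_inv (h'.a_le j)
  have c1 := h.a_sub h' j hC hb
  have c2 := d.eta1_psi j hC (x := x - y) hb u
  have c3 := d.eta1_psi j zero_le_one h'.le_w u
  rw [← h.psi_sub h'] at c2
  have c4 : (2 : ℝ) ^ (-(2 * d.p.w u.1 u.2)) ≤
      2 ^ (-(3 / 10 * (1 / (d.p.e : ℝ)))) * 2 ^ (-d.p.w u.1 u.2) := by
    rw [← Real.rpow_add two_pos]
    have := eta1_w_pos d.p (not_lt.1 h1) h0
    exact eta1_pow (by linarith)
  generalize psi (conv (d.F j) x) 0 = a at *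
  generalize psi (conv (d.F j) y) 0 = b at *
  generalize psi (conv (d.F j) x) u = r at *
  generalize psi (conv (d.F j) y) u = s at *
  generalize Ring.inverse a = a' at *
  generalize Ring.inverse b = b' at *
  have e : a' * r - b' * s = a' * (r - s) + -(a' * (b' * ((a - b) * s))) := by
    linear_combination (b' * s) * a1 - (a' * s) * b1
  have c5 : ∀ {z t : A}, ‖z‖ ≤ 1 → ‖z * t‖ ≤ ‖t‖ := fun hz =>
    (norm_mul_le _ _).trans (mul_le_of_le_one_left (norm_nonneg _) hz)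
  rw [e, mul_comm _ C, mul_assoc]
  refine ((IsUltrametricDist.norm_add_le_max _ _).trans (max_le ((c5 a2).trans c2) ?_)).trans
    (mul_le_mul_of_nonneg_left c4 hC)
  rw [norm_neg]
  refine (c5 a2).trans ((c5 b2).trans ((norm_mul_le _ _).trans ?_))
  rw [one_mul] at c3
  exact mul_le_mul (c1.trans (by linarith)) c3 (norm_nonneg _) hC

variable (d)

/-- The normalised operator. -/
noncomputable def eta1T (j : J) (x : Arr A) : Arr A := fun u =>
  Ring.inverse (psi (conv (d.F j) x) 0) * psi (conv (d.F j) x) u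

theorem exists_eta : ∃ η a, d.IsEta η a := by
  have h1 : (2 : ℝ) ^ (-(3 / 10 * (1 / (d.p.e : ℝ)))) < 1 :=
    Real.rpow_lt_one_of_one_lt_of_neg one_lt_two (by
      have := d.p.a1_e_posR
      exact neg_neg_of_pos (by positivity))
  have key : ∃ x ∈ {x : J × ℤ × ℤ → A | ∀ j, d.Eta1S fun u => x (j, u)},
      (fun i : J × ℤ × ℤ => d.eta1T (d.σ.symm i.1) (fun u => x (d.σ.symm i.1, u)) i.2) = x := by
    refine eta1_fix (fun i => 2 ^ (-d.p.w i.2.1 i.2.2)) _
      (fun x i => d.eta1T (d.σ.symm i.1) (fun u => x (d.σ.symm i.1, u)) i.2)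
      (x₀ := fun i => one i.2) (by positivity) h1 ?_ ?_ ?_ ?_ ?_
    · exact fun _ => eta1_one
    · intro x hx j
      exact (hx (d.σ.symm j)).map (d.σ.symm j)
    · intro f x hf hl j
      exact ⟨fun u hu => tendsto_nhds_unique (hl (j, u))
          (tendsto_const_nhds.congr fun n => ((hf n j).supp u hu).symm),
        tendsto_nhds_unique (hl (j, 0)) (tendsto_const_nhds.congr fun n => (hf n j).zero.symm),
        fun u => le_of_tendsto' (hl (j, u)).norm fun n => (hf n j).le u,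
        fun m => le_of_tendsto' (hl (j, m, 0)).norm fun n => (hf n j).le' m⟩
    · intro x hx y hy i
      have := (hx i.1).sub_le (hy i.1) i.2
      rwa [one_mul] at this
    · intro x hx y hy C hC hb i
      exact (hx (d.σ.symm i.1)).contr (hy (d.σ.symm i.1)) (d.σ.symm i.1) hC
        (fun u => hb (d.σ.symm i.1, u)) i.2
  obtain ⟨x, hx, e⟩ := key
  refine ⟨fun j u => x (j, u), fun j => psi (conv (d.F j) fun u => x (j, u)) 0,
    fun j => (hx j).supp, fun j => (hx j).zero, fun j u => ?_,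
    fun j => ((hx j).a_le j).trans d.p.half_le_ϑ, fun j => (hx j).le, fun j => (hx j).le'⟩
  have e1 := congrFun e (d.σ j, u)
  simp only [Equiv.symm_apply_apply, eta1T] at e1
  rw [← e1, ← mul_assoc, (eta1_inv ((hx j).a_le j)).1, one_mul]

end Dat

end Pool.Agent.Lib.MP_788af2_nt.AG
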