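import Pool.Agent.Lib.MP_788af2_nt.AG.Base
import Pool.Agent.Lib.MP_788af2_nt.DW.FredSer

/-!
Calculus of the relation `IsExp`.
-/

set_option linter.unusedSectionVars false

namespace Pool.Agent.Lib.MP_788af2_nt.AG

open PowerSeries Finset.HasAntidiagonal

variable {R S : Type} [CommRing R] [CommRing S]

theorem isExp_iff {s : ℕ → R} {D : R⟦X⟧} : IsExp s D ↔ coeff 0 D = 1 ∧ ∀ n,
    coeff (n + 1) D * ((n : R) + 1) = ∑ p ∈ antidiagonal n, s (p.1 + 1) * coeff p.2 D := by
  unfold IsExp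
  rw [PowerSeries.ext_iff, coeff_zero_eq_constantCoeff_apply]
  simp only [coeff_derivative, coeff_mul, coeff_mk]

theorem IsExp.congr {s s' : ℕ → R} {D : R⟦X⟧} (h : IsExp s D) (hs : ∀ n, 1 ≤ n → s n = s' n) :
    IsExp s' D := by
  refine ⟨h.1, h.2.trans ?_⟩
  simp only [fun n => hs (n + 1) (by omega)]

theorem IsExp.mul {s s' : ℕ → R} {D D' : R⟦X⟧} (h : IsExp s D) (h' : IsExp s' D') :
    IsExp (fun n => s n + s' n) (D * D') := by
  refine ⟨by rw [map_mul, h.1, h'.1, one_mul], ?_⟩
  have h1 : (mk fun n => s (n + 1) + s' (n + 1)) =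
      (mk fun n => s (n + 1)) + mk fun n => s' (n + 1) := by
    ext n
    simp
  rw [Derivation.leibniz, h.2, h'.2, h1, smul_eq_mul, smul_eq_mul]
  ring

theorem IsExp.map {s : ℕ → R} {D : R⟦X⟧} (h : IsExp s D) (φ : R →+* S) :
    IsExp (fun n => φ (s n)) (map φ D) := by
  rw [isExp_iff] at h ⊢
  refine ⟨by rw [coeff_map, h.1, map_one], fun n => ?_⟩
  have := congrArg φ (h.2 n)
  simpa only [coeff_map, map_mul, map_add, map_natCast, map_one, map_sum] using this

theorem IsExp.rescale {s : ℕ → R} {D : R⟦X⟧} (h : IsExp s D) (c : R) :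
    IsExp (fun n => c ^ n * s n) (rescale c D) := by
  rw [isExp_iff] at h ⊢
  refine ⟨by rw [coeff_rescale, h.1, pow_zero, one_mul], fun n => ?_⟩
  rw [coeff_rescale, mul_assoc, h.2 n, Finset.mul_sum]
  refine Finset.sum_congr rfl fun p hp => ?_
  rw [coeff_rescale, ← mem_antidiagonal.mp hp]
  ring

theorem IsExp.inv {s : ℕ → R} {D E : R⟦X⟧} (h : IsExp s D) (hE : D * E = 1) :
    IsExp (fun n => -s n) E := by
  constructor
  · have := congrArg constantCoeff hE
    rwa [map_mul, h.1, one_mul, map_one] at this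
  · have h1 := congrArg (derivative R) hE
    have h2 : (mk fun n => -s (n + 1)) = -mk fun n => s (n + 1) := by
      ext n
      simp
    rw [Derivation.leibniz, h.2, smul_eq_mul, smul_eq_mul, derivative_one] at h1
    rw [h2]
    linear_combination E * h1 - (derivative R E + (mk fun n => s (n + 1)) * E) * hE

theorem IsExp.coeff_eq [IsDomain R] [CharZero R] {s s' : ℕ → R} {D D' : R⟦X⟧} (h : IsExp s D)
    (h' : IsExp s' D') {N : ℕ} (hs : ∀ n, 1 ≤ n → n ≤ N → s n = s' n) :
    ∀ n, n ≤ N → coeff n D = coeff n D' := by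
  rw [isExp_iff] at h h'
  intro n
  induction n using Nat.strong_induction_on with
  | _ n ih =>
    intro hn
    cases n with
    | zero => rw [h.1, h'.1]
    | succ n =>
      apply mul_right_cancel₀ (Nat.cast_add_one_ne_zero n)
      rw [h.2, h'.2]
      refine Finset.sum_congr rfl fun p hp => ?_
      have := mem_antidiagonal.mp hp
      rw [hs _ (by omega) (by omega), ih _ (by omega) (by omega)]

theorem IsExp.unique [IsDomain R] [CharZero R] {s s' : ℕ → R} {D D' : R⟦X⟧} (h : IsExp s D)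
    (h' : IsExp s' D') (hs : ∀ n, 1 ≤ n → s n = s' n) : D = D' :=
  PowerSeries.ext fun n => h.coeff_eq h' (fun m hm _ => hs m hm) n le_rfl

theorem exists_isExp_of_forall [IsDomain R] [CharZero R] {s : ℕ → R}
    (h : ∀ N, ∃ s' D, IsExp s' D ∧ ∀ n, 1 ≤ n → n ≤ N → s' n = s n) : ∃ D, IsExp s D := by
  choose t D h1 h2 using h
  have h3 : ∀ N n, n ≤ N → coeff n (D n) = coeff n (D N) := fun N n hn =>
    (h1 n).coeff_eq (h1 N) (fun m hm hm' => (h2 n m hm hm').trans (h2 N m hm (by omega)).symm) n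
      le_rfl
  refine ⟨mk fun n => coeff n (D n), isExp_iff.mpr ⟨?_, fun n => ?_⟩⟩
  · rw [coeff_mk, (isExp_iff.mp (h1 0)).1]
  · rw [coeff_mk, (isExp_iff.mp (h1 (n + 1))).2 n]
    refine Finset.sum_congr rfl fun p hp => ?_
    have := mem_antidiagonal.mp hp
    rw [coeff_mk, h2 _ _ (by omega) (by omega), h3 (n + 1) _ (by omega)]

theorem isExp_charpolyRev {n : Type} [Fintype n] [DecidableEq n] (A : Matrix n n R) :
    IsExp (fun k => -(A ^ k).trace) (A.charpolyRev : R⟦X⟧) := by
  constructor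
  · rw [Polynomial.constantCoeff_coe, Polynomial.coeff_zero_eq_eval_zero, Matrix.eval_charpolyRev]
  · rw [DW.derivative_charpolyRev]
    congr 1

theorem IsExp.abs_coeff_le {s : ℕ → ℤ} {D : ℤ⟦X⟧} (h : IsExp s D) {C : ℝ} (hC : 0 ≤ C)
    (hs : ∀ n, 1 ≤ n → |(s n : ℝ)| ≤ C ^ n) (n : ℕ) : |((coeff n D : ℤ) : ℝ)| ≤ C ^ n := by
  rw [isExp_iff] at h
  induction n using Nat.strong_induction_on with
  | _ n ih =>
    cases n with
    | zero => simp [h.1]
    | succ n =>
      have h1 : ((coeff (n + 1) D : ℤ) : ℝ) * ((n : ℝ) + 1) =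
          ∑ p ∈ antidiagonal n, (s (p.1 + 1) : ℝ) * ((coeff p.2 D : ℤ) : ℝ) := by
        exact_mod_cast h.2 n
      have h2 : ∀ p ∈ antidiagonal n, |(s (p.1 + 1) : ℝ) * ((coeff p.2 D : ℤ) : ℝ)| ≤
          C ^ (n + 1) := by
        intro p hp
        have := mem_antidiagonal.mp hp
        rw [abs_mul, show n + 1 = p.1 + 1 + p.2 by omega, pow_add]
        exact mul_le_mul (hs _ (by omega)) (ih _ (by omega)) (abs_nonneg _) (by positivity)
      have h3 := (Finset.abs_sum_le_sum_abs _ _).trans (Finset.sum_le_card_nsmul _ _ _ h2)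
      have h4 : (0 : ℝ) < n + 1 := by positivity
      rw [← h1, abs_mul, abs_of_pos h4, Finset.Nat.card_antidiagonal, nsmul_eq_mul, mul_comm,
        Nat.cast_add_one] at h3
      exact le_of_mul_le_mul_left h3 h4

/-- The exponents congruent to `j` modulo `f`. -/
noncomputable def sect (f j : ℕ) (g : R⟦X⟧) : R⟦X⟧ := mk fun n => coeff (f * n + j) g

theorem sect_expand_mul {f j : ℕ} (hf : f ≠ 0) (hj : j < f) (L g : R⟦X⟧) :
    sect f j (expand f hf L * g) = L * sect f j g := by
  ext n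
  rw [sect, coeff_mk, coeff_mul, coeff_mul]
  refine (Finset.sum_of_injOn (fun p : ℕ × ℕ => (f * p.1, f * p.2 + j)) ?_ ?_ ?_ ?_).symm
  · intro p _ q _ h
    simp only [Prod.mk.injEq, Nat.add_right_cancel_iff] at h
    exact Prod.ext (Nat.eq_of_mul_eq_mul_left (by omega) h.1)
      (Nat.eq_of_mul_eq_mul_left (by omega) h.2)
  · intro p hp
    have := mem_antidiagonal.mp (Finset.mem_coe.mp hp)
    refine Finset.mem_coe.mpr (mem_antidiagonal.mpr ?_)
    rw [← this]
    ring
  · intro p hp hp'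
    have h1 := mem_antidiagonal.mp hp
    rw [coeff_expand_of_not_dvd, zero_mul]
    rintro ⟨a, ha⟩
    have h2 : a ≤ n := by
      by_contra h3
      have : f * (n + 1) ≤ f * a := Nat.mul_le_mul_left _ (by omega)
      rw [Nat.mul_succ] at this
      omega
    obtain ⟨b, rfl⟩ := Nat.exists_eq_add_of_le h2
    refine hp' ⟨(a, b), Finset.mem_coe.mpr (mem_antidiagonal.mpr rfl), Prod.ext ha.symm ?_⟩
    rw [Nat.mul_add] at h1
    simp only
    omega
  · intro p _
    simp only [sect, coeff_mk, coeff_expand_mul]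

theorem exists_coe_eq_sect {f : ℕ} (hf : f ≠ 0) (j : ℕ) (P : Polynomial R) :
    ∃ Q : Polynomial R, (Q : R⟦X⟧) = sect f j P := by
  refine ⟨trunc (P.natDegree + 1) (sect f j P), ?_⟩
  ext n
  rw [Polynomial.coeff_coe, coeff_trunc]
  split_ifs with h
  · rfl
  · rw [sect, coeff_mk, Polynomial.coeff_coe, Polynomial.coeff_eq_zero_of_natDegree_lt]
    have : n ≤ f * n := Nat.le_mul_of_pos_left _ (by omega)
    omega

/-- If `L (X ^ f)` is rational then so is `L`. -/
theorem rational_of_expand {f : ℕ} (hf : f ≠ 0) {L : R⟦X⟧} {P Q : Polynomial R} (hQ : Q ≠ 0)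
    (h : expand f hf L * (Q : R⟦X⟧) = P) :
    ∃ P' Q' : Polynomial R, Q' ≠ 0 ∧ L * (Q' : R⟦X⟧) = P' := by
  have hj : Q.natDegree % f < f := Nat.mod_lt _ (by omega)
  obtain ⟨P', hP'⟩ := exists_coe_eq_sect hf (Q.natDegree % f) P
  obtain ⟨Q', hQ'⟩ := exists_coe_eq_sect hf (Q.natDegree % f) Q
  refine ⟨P', Q', ?_, by rw [hP', hQ', ← h, sect_expand_mul hf hj]⟩
  rintro rfl
  have := congrArg (coeff (Q.natDegree / f)) hQ'
  rw [sect, coeff_mk, Nat.div_add_mod, Polynomial.coeff_coe, Polynomial.coeff_coe,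
    Polynomial.coeff_zero] at this
  exact hQ (Polynomial.leadingCoeff_eq_zero.mp this.symm)

theorem IsExp.expand {s : ℕ → R} {D : R⟦X⟧} (h : IsExp s D) {f : ℕ} (hf : f ≠ 0) :
    IsExp (fun n => if f ∣ n then (f : R) * s (n / f) else 0) (expand f hf D) := by
  refine ⟨by rw [constantCoeff_expand, h.1], ?_⟩
  have h1 : ∀ g : R⟦X⟧, X * derivative R (PowerSeries.expand f hf g) =
      C (f : R) * PowerSeries.expand f hf (X * derivative R g) := by
    have h0 : ∀ (g : R⟦X⟧) n, coeff n (X * derivative R g) = coeff n g * n := by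
      intro g n
      cases n with
      | zero => simp
      | succ n => rw [coeff_succ_X_mul, coeff_derivative, Nat.cast_add_one]
    intro g
    ext n
    rw [h0, coeff_C_mul, coeff_expand, coeff_expand]
    split_ifs with hn
    · obtain ⟨m, rfl⟩ := hn
      rw [h0, Nat.mul_div_cancel_left _ (by omega), Nat.cast_mul]
      ring
    · simp
  have h2 : X * (mk fun n => if f ∣ n + 1 then (f : R) * s ((n + 1) / f) else 0) =
      C (f : R) * PowerSeries.expand f hf (X * mk fun n => s (n + 1)) := by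
    ext n
    rw [coeff_C_mul, coeff_expand]
    cases n with
    | zero => simp
    | succ n =>
      rw [coeff_succ_X_mul, coeff_mk]
      split_ifs with hn
      · obtain ⟨m, hm⟩ := hn
        rw [hm, Nat.mul_div_cancel_left _ (by omega)]
        cases m with
        | zero => omega
        | succ m => rw [coeff_succ_X_mul, coeff_mk]
      · simp
  apply X_mul_cancel
  rw [h1, ← mul_assoc, h2, h.2, ← mul_assoc X, map_mul (PowerSeries.expand f hf) _ D, mul_assoc]

end Pool.Agent.Lib.MP_788af2_nt.AG
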