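import Pool.Agent.Lib.MP_788af2_nt.AG.Base

/-!
The order at one of the characteristic series of a small perturbation of a signed permutation
that preserves a nearly diagonal form.
-/

set_option linter.unusedSectionVars false

namespace Pool.Agent.Lib.MP_788af2_nt.AG

open Matrix

section alg

variable {S : Type} [CommRing S]

theorem fa_prod_eps {ι : Type} [DecidableEq ι] (e : S) (he : e * e = 0) (a b : ι → S)
    (s : Finset ι) :
    ∏ i ∈ s, (a i + e * b i) =
      ∏ i ∈ s, a i + e * ∑ i ∈ s, ∏ j ∈ s, (if j = i then b j else a j) := by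
  induction s using Finset.induction_on with
  | empty => simp
  | insert k s hk ih =>
    rw [Finset.prod_insert hk, Finset.prod_insert hk, Finset.sum_insert hk,
      Finset.prod_insert hk, ih, if_pos rfl]
    have h1 : ∏ j ∈ s, (if j = k then b j else a j) = ∏ j ∈ s, a j :=
      Finset.prod_congr rfl fun j hj => if_neg fun h : j = k => hk (h ▸ hj)
    have h2 : ∑ i ∈ s, ∏ j ∈ insert k s, (if j = i then b j else a j) =
        a k * ∑ i ∈ s, ∏ j ∈ s, (if j = i then b j else a j) := by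
      rw [Finset.mul_sum]
      refine Finset.sum_congr rfl fun i hi => ?_
      rw [Finset.prod_insert hk, if_neg fun h : k = i => hk (h ▸ hi)]
    rw [h1, h2]
    linear_combination (b k * ∑ i ∈ s, ∏ j ∈ s, (if j = i then b j else a j)) * he

theorem fa_det_eps {W : Type} [Fintype W] [DecidableEq W] (e : S) (he : e * e = 0)
    (G H : Matrix W W S) : (G + e • H).det = G.det + e * (G.adjugate * H).trace := by
  have h1 : (G.adjugate * H).trace = ∑ i, (G.updateCol i fun k => H k i).det := by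
    unfold Matrix.trace
    refine Finset.sum_congr rfl fun i _ => ?_
    rw [← cramer_apply, cramer_eq_adjugate_mulVec]
    rfl
  rw [h1]
  simp only [det_apply', Matrix.add_apply, Matrix.smul_apply, smul_eq_mul, fa_prod_eps e he,
    updateCol_apply, mul_add, Finset.sum_add_distrib]
  congr 1
  rw [Finset.sum_comm, Finset.mul_sum]
  refine Finset.sum_congr rfl fun σ _ => ?_
  rw [← Finset.mul_sum, mul_left_comm]
  congr 2
  refine Finset.sum_congr rfl fun i _ => Finset.prod_congr rfl fun j _ => ?_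
  split_ifs with h
  · rw [h]
  · rfl

theorem fa_det_sub {Z W : Type} [Fintype Z] [DecidableEq Z] [Fintype W] [DecidableEq W]
    (A B : Matrix Z Z S) (h : A * B = 1) (E : Matrix Z W S) (F : Matrix W Z S) :
    (A - E * F).det = A.det * (1 - F * B * E).det := by
  have : A - E * F = A * (1 - B * E * F) := by
    rw [Matrix.mul_sub, Matrix.mul_one, ← Matrix.mul_assoc, ← Matrix.mul_assoc, h,
      Matrix.one_mul]
  rw [this, det_mul, det_one_sub_mul_comm, Matrix.mul_assoc F]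

end alg

section dual

variable {K : Type} [Field K] {Z W : Type} [Fintype Z] [DecidableEq Z] [Fintype W]
  [DecidableEq W]

theorem fa_eval (Φ : Matrix Z Z K) : Φ.charpolyRev.eval 1 = (1 - Φ).det := by
  rw [charpolyRev, ← Polynomial.coe_evalRingHom, RingHom.map_det]
  congr 1
  ext i j
  by_cases h : i = j <;> simp [h, one_apply]

theorem fa_dual (A B Φ : Matrix Z Z K) (E : Matrix Z W K) (F : Matrix W Z K)
    (L H H' : Matrix W W K) (hAB : A * B = 1) (h1 : 1 - Φ = A - E * F)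
    (h2 : 1 - F * B * E = L * H) (h3 : -(F * (B * Φ * B) * E) = L * H') (hL : L.det ≠ 0)
    (hd : (Polynomial.X - Polynomial.C (1 : K)) ^ 2 ∣ Φ.charpolyRev) :
    (H.adjugate * H').trace = 0 := by
  let S := DualNumber K
  let f : K →+* S := algebraMap K S
  let e : S := DualNumber.eps
  have he : e * e = 0 := DualNumber.eps_mul_eps
  have hz : Polynomial.aeval (1 + e) Φ.charpolyRev = 0 := by
    obtain ⟨q, hq⟩ := hd
    rw [hq, map_mul, map_pow, map_sub, Polynomial.aeval_X, Polynomial.aeval_C, map_one,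
      add_sub_cancel_left, pow_two, he, zero_mul]
  have hm : Polynomial.aeval (1 + e) Φ.charpolyRev = (1 - (1 + e) • Φ.map f).det := by
    rw [charpolyRev, AlgHom.map_det]
    congr 1
    ext1 i j
    by_cases h : i = j <;> simp [h, one_apply, f] <;> rw [mul_comm]
  have m1 : (1 : Matrix Z Z S) - Φ.map f = A.map f - E.map f * F.map f := by
    rw [← Matrix.map_mul, ← Matrix.map_sub _ (map_sub f), ← h1, Matrix.map_sub _ (map_sub f),
      Matrix.map_one _ (map_zero f) (map_one f)]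
  have m0 : A.map f * B.map f = 1 := by
    rw [← Matrix.map_mul, hAB, Matrix.map_one _ (map_zero f) (map_one f)]
  have m0' : B.map f * A.map f = 1 := mul_eq_one_comm.1 m0
  have m2 : 1 - F.map f * B.map f * E.map f = L.map f * H.map f := by
    rw [← Matrix.map_mul, ← Matrix.map_mul, ← Matrix.map_mul, ← h2, Matrix.map_sub _ (map_sub f),
      Matrix.map_one _ (map_zero f) (map_one f)]
  have m3 : -(F.map f * (B.map f * Φ.map f * B.map f) * E.map f) = L.map f * H'.map f := by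
    rw [← Matrix.map_mul, ← Matrix.map_mul, ← Matrix.map_mul, ← Matrix.map_mul, ← Matrix.map_mul,
      ← h3, Matrix.map_neg _ (map_neg f)]
  have e1 : 1 - (1 + e) • Φ.map f = (A.map f - e • Φ.map f) - E.map f * F.map f := by
    rw [add_smul, one_smul, ← sub_sub, m1]
    abel
  have e2 : (A.map f - e • Φ.map f) * (B.map f + e • (B.map f * Φ.map f * B.map f)) = 1 := by
    rw [Matrix.sub_mul, Matrix.mul_add, Matrix.mul_add, m0, Matrix.mul_smul, Matrix.smul_mul,
      Matrix.smul_mul, Matrix.mul_smul, smul_smul, he, zero_smul, add_zero, ← Matrix.mul_assoc,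
      ← Matrix.mul_assoc, m0, Matrix.one_mul, add_sub_cancel_right]
  have e3 : 1 - F.map f * (B.map f + e • (B.map f * Φ.map f * B.map f)) * E.map f =
      L.map f * (H.map f + e • H'.map f) := by
    rw [Matrix.mul_add, Matrix.add_mul, Matrix.mul_add, ← m2, Matrix.mul_smul, Matrix.mul_smul,
      Matrix.smul_mul, ← m3, smul_neg]
    abel
  rw [hm, e1, fa_det_sub _ _ e2, e3, det_mul, fa_det_eps e he] at hz
  have u1 : IsUnit (A.map f - e • Φ.map f).det :=
    IsUnit.of_mul_eq_one _ (by rw [← det_mul, e2, det_one])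
  have u2 : IsUnit (L.map f).det := by
    have : (L.map f).det = f L.det := (RingHom.map_det f L).symm
    rw [this]
    exact (IsUnit.mk0 _ hL).map f
  rw [u1.mul_right_eq_zero, u2.mul_right_eq_zero] at hz
  have a1 : (H.map f).det = f H.det := (RingHom.map_det f H).symm
  have a2 : ((H.map f).adjugate * H'.map f).trace = f (H.adjugate * H').trace := by
    have : (H.map f).adjugate = H.adjugate.map f := (RingHom.map_adjugate f H).symm
    rw [this, ← Matrix.map_mul, AddMonoidHom.map_trace]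
  rw [a1, a2] at hz
  have := congrArg TrivSqZeroExt.snd hz
  simpa [f, e, S, TrivSqZeroExt.algebraMap_eq_inl] using this

end dual

section fixed

variable {K : Type} [Field K] {Z W : Type} [Fintype Z] [DecidableEq Z] [Fintype W]
  [DecidableEq W]

theorem fa_skew (P D N Q : Matrix Z Z K) (E : Matrix Z W K) (DW Di : Matrix W W K) (t : K)
    (ht : t ≠ 0) (hEP : Eᵀ * P = Eᵀ) (hED : Eᵀ * D = DW * Eᵀ) (hW : DWᵀ = DW)
    (h1 : Di * DW = 1) (h : (P + t • (D * N)) * Q * (P + t • (D * N))ᵀ = Q) :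
    Eᵀ * N * Q * E * Di + Di * (Eᵀ * Q * (Eᵀ * N)ᵀ) + t • (Eᵀ * N * Q * (Eᵀ * N)ᵀ) = 0 := by
  have h2 : DW * Di = 1 := mul_eq_one_comm.1 h1
  have e1 : Eᵀ * (P + t • (D * N)) = Eᵀ + t • (DW * (Eᵀ * N)) := by
    rw [Matrix.mul_add, hEP, Matrix.mul_smul, ← Matrix.mul_assoc, hED, Matrix.mul_assoc]
  have e2 : (P + t • (D * N))ᵀ * E = E + t • ((Eᵀ * N)ᵀ * DW) := by
    have := congrArg transpose e1
    rwa [transpose_mul, transpose_transpose, transpose_add Eᵀ, transpose_transpose,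
      transpose_smul, transpose_mul DW, hW] at this
  have e3 : (Eᵀ + t • (DW * (Eᵀ * N))) * Q * (E + t • ((Eᵀ * N)ᵀ * DW)) = Eᵀ * Q * E := by
    rw [← e1, ← e2]
    conv_rhs => rw [← h]
    simp only [Matrix.mul_assoc]
  generalize Eᵀ * N = U at e3 ⊢
  have e4 : t • (DW * (U * Q * E) + Eᵀ * Q * Uᵀ * DW + t • (DW * (U * Q * Uᵀ) * DW)) = 0 := by
    rw [← sub_eq_zero.2 e3]
    simp only [Matrix.mul_add, Matrix.add_mul, Matrix.mul_smul, Matrix.smul_mul, smul_add,
      Matrix.mul_assoc]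
    abel
  have e5 := congrArg (fun M => Di * M * Di) ((smul_eq_zero.1 e4).resolve_left ht)
  simp only [Matrix.mul_add, Matrix.add_mul, Matrix.mul_smul, Matrix.smul_mul, Matrix.mul_zero,
    Matrix.zero_mul] at e5
  rw [← e5]
  simp only [← Matrix.mul_assoc, h1, Matrix.one_mul]
  simp only [Matrix.mul_assoc, h2, Matrix.mul_one]

theorem fa_root [CharZero K] (Φ Q : Matrix Z Z K) (hQ : Q.det ≠ 0) (h : Φ * Q * Φᵀ = Q)
    (hs : Φ.det * (-1) ^ Fintype.card Z = -1) : (1 - Φ).det = 0 := by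
  have e1 : (1 - Φ) * Q = Φ * Q * (-(1 - Φ)ᵀ) := by
    rw [transpose_sub, transpose_one, neg_sub, Matrix.mul_sub, h, Matrix.mul_one, Matrix.sub_mul,
      Matrix.one_mul]
  have e2 := congrArg det e1
  rw [det_mul, det_mul, det_mul, det_neg, det_transpose] at e2
  have e3 : (2 : K) * ((1 - Φ).det * Q.det) = 0 := by
    linear_combination e2 + (Q.det * (1 - Φ).det) * hs
  simpa [hQ] using e3

theorem fa_sign (P : Matrix Z Z K) (E : Matrix Z W K) (T Ti : Matrix W W K) (hP : P * Pᵀ = 1)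
    (hE : Eᵀ * E = T) (hPE : P * E = E) (hT : Ti * T = 1) (hs : Tiᵀ = Ti)
    (hA : (1 - P + E * (Ti * Eᵀ)).det ≠ 0) (hAE : (1 - P + E * (Ti * Eᵀ)) * E = E) :
    P.det * (-1) ^ Fintype.card Z = (-1) ^ Fintype.card W := by
  have e1 : P * (-(1 - P + E * (Ti * Eᵀ))ᵀ) =
      (1 - P + E * (Ti * Eᵀ)) * (1 - E * ((2 : K) • (Ti * Eᵀ))) := by
    rw [Matrix.mul_sub, Matrix.mul_one, ← Matrix.mul_assoc _ E, hAE, transpose_add, transpose_sub,
      transpose_one, transpose_mul, transpose_mul, transpose_transpose, hs, Matrix.mul_neg,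
      Matrix.mul_add, Matrix.mul_sub, hP, Matrix.mul_one, ← Matrix.mul_assoc, ← Matrix.mul_assoc,
      hPE, Matrix.mul_smul, two_smul, Matrix.mul_assoc]
    abel
  have e2 : (1 : Matrix W W K) - (2 : K) • (Ti * Eᵀ) * E = -1 := by
    rw [Matrix.smul_mul, Matrix.mul_assoc, hE, hT, two_smul]
    abel
  have e3 := congrArg det e1
  rw [det_mul, det_mul, det_neg, det_transpose, det_one_sub_mul_comm, e2, det_neg, det_one,
    mul_one] at e3
  refine mul_right_cancel₀ hA ?_
  linear_combination e3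

theorem fa_order [CharZero K] (P A D N Φ A₀ : Matrix Z Z K) (E : Matrix Z W K)
    (T Ti DW Di : Matrix W W K) (t : K) (ht : t ≠ 0) (hA : A = 1 - P + E * (Ti * Eᵀ))
    (hE : Eᵀ * E = T) (hT : Ti * T = 1) (hEA : Eᵀ * A = Eᵀ) (hED : Eᵀ * D = DW * Eᵀ)
    (h1 : DW * Di = 1) (hΦ : Φ = P + t • (D * N)) (hA₀ : A₀ = A + (-t) • (D * N))
    (ha : A₀.det ≠ 0) :
    ((Eᵀ * N * A₀.adjugate * E).det ≠ 0 → Φ.charpolyRev.rootMultiplicity 1 = 0) ∧
      (((Eᵀ * N * A₀.adjugate * E).adjugate *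
        (Di * (Eᵀ * A₀.adjugate * Φ * A₀.adjugate * E))).trace ≠ 0 → (1 - Φ).det = 0 →
        Φ.charpolyRev.rootMultiplicity 1 = 1) := by
  have hB : A₀ * (A₀.det⁻¹ • A₀.adjugate) = 1 := by
    rw [Matrix.mul_smul, mul_adjugate, smul_smul, inv_mul_cancel₀ ha, one_smul]
  have e1 : 1 - Φ = A₀ - E * (Ti * Eᵀ) := by
    rw [hΦ, hA₀, hA, neg_smul]
    abel
  have e0 : Eᵀ * (A₀.det⁻¹ • A₀.adjugate) =
      Eᵀ + (A₀.det⁻¹ * t) • (DW * (Eᵀ * N * A₀.adjugate)) := by
    have e : Eᵀ * A₀ = Eᵀ + (-t) • (DW * (Eᵀ * N)) := by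
      rw [hA₀, Matrix.mul_add, hEA, Matrix.mul_smul, ← Matrix.mul_assoc, hED, Matrix.mul_assoc]
    have e' : Eᵀ * A₀ * (A₀.det⁻¹ • A₀.adjugate) = Eᵀ := by
      rw [Matrix.mul_assoc, hB, Matrix.mul_one]
    rw [e, Matrix.add_mul, Matrix.smul_mul, Matrix.mul_smul _ _ A₀.adjugate,
      Matrix.mul_smul _ _ A₀.adjugate, smul_smul, Matrix.mul_assoc DW] at e'
    rw [Matrix.mul_smul, eq_sub_of_add_eq e', neg_mul, neg_smul, sub_neg_eq_add, mul_comm t]
  have e2 : 1 - Ti * Eᵀ * (A₀.det⁻¹ • A₀.adjugate) * E =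
      ((-(A₀.det⁻¹ * t)) • (Ti * DW)) * (Eᵀ * N * A₀.adjugate * E) := by
    rw [Matrix.mul_assoc Ti, e0, Matrix.mul_add, Matrix.add_mul, Matrix.mul_assoc Ti, hE, hT]
    simp only [Matrix.mul_smul, Matrix.smul_mul, Matrix.mul_assoc, neg_smul, Matrix.neg_mul]
    abel
  have e3 : -(Ti * Eᵀ * ((A₀.det⁻¹ • A₀.adjugate) * Φ * (A₀.det⁻¹ • A₀.adjugate)) * E) =
      ((-(A₀.det⁻¹ * t)) • (Ti * DW)) *
        ((A₀.det⁻¹ * t⁻¹) • (Di * (Eᵀ * A₀.adjugate * Φ * A₀.adjugate * E))) := by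
    have e : -(A₀.det⁻¹ * t) * (A₀.det⁻¹ * t⁻¹) = -(A₀.det⁻¹ * A₀.det⁻¹) := by
      field_simp
    rw [Matrix.smul_mul (-(A₀.det⁻¹ * t)), Matrix.mul_smul (Ti * DW), smul_smul, e,
      Matrix.mul_assoc Ti DW, ← Matrix.mul_assoc DW, h1, Matrix.one_mul]
    simp only [Matrix.mul_smul, Matrix.smul_mul, Matrix.mul_assoc, neg_smul, smul_smul]
  have hL : ((-(A₀.det⁻¹ * t)) • (Ti * DW)).det ≠ 0 := by
    rw [det_smul, det_mul]
    refine mul_ne_zero (pow_ne_zero _ (neg_ne_zero.2 (mul_ne_zero (inv_ne_zero ha) ht)))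
      (mul_ne_zero ?_ ?_)
    · exact left_ne_zero_of_mul_eq_one (by rw [← det_mul, hT, det_one])
    · exact left_ne_zero_of_mul_eq_one (by rw [← det_mul, h1, det_one])
  refine ⟨fun h => Polynomial.rootMultiplicity_eq_zero fun hr => ?_, fun h hr => ?_⟩
  · rw [Polynomial.IsRoot, fa_eval, e1, fa_det_sub _ _ hB, e2, det_mul] at hr
    exact mul_ne_zero ha (mul_ne_zero hL h) hr
  · have hnd : ¬(Polynomial.X - Polynomial.C (1 : K)) ^ 2 ∣ Φ.charpolyRev := fun hd => by
      have := fa_dual _ _ Φ E _ _ _ _ hB e1 e2 e3 hL hd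
      rw [Matrix.mul_smul, trace_smul, smul_eq_mul] at this
      exact mul_ne_zero (mul_ne_zero (inv_ne_zero ha) (inv_ne_zero ht)) h this
    have h0 : Φ.charpolyRev ≠ 0 := fun h0 => hnd (h0 ▸ dvd_zero _)
    have a1 := (Polynomial.rootMultiplicity_le_iff h0 1 1).2 hnd
    have a2 := (Polynomial.rootMultiplicity_pos h0 (x := 1)).2 (by
      rw [Polynomial.IsRoot, fa_eval, hr])
    omega

end fixed

section near

variable {K : Type} [NormedField K] {X : Type} {c : X → K}

/-- Two bounded functions whose difference is of the order of `c`. -/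
def FaU (c f g : X → K) : Prop :=
  ∃ M : ℝ, 0 ≤ M ∧ ∀ x, ‖f x‖ ≤ M ∧ ‖g x‖ ≤ M ∧ ‖f x - g x‖ ≤ M * ‖c x‖

theorem FaU.bdd {f : X → K} {M : ℝ} (h : ∀ x, ‖f x‖ ≤ M) : FaU c f f :=
  ⟨max M 0, le_max_right _ _, fun x => ⟨(h x).trans (le_max_left _ _),
    (h x).trans (le_max_left _ _), by rw [sub_self, norm_zero]; positivity⟩⟩

theorem FaU.const (a : K) : FaU c (fun _ => a) (fun _ => a) := FaU.bdd fun _ => le_rfl

theorem FaU.self (h : ∀ x, ‖c x‖ ≤ 1) : FaU c c (fun _ => 0) :=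
  ⟨1, zero_le_one, fun x => ⟨h x, by simp, by simp⟩⟩

theorem FaU.add {f g f' g' : X → K} (h : FaU c f g) (h' : FaU c f' g') :
    FaU c (fun x => f x + f' x) (fun x => g x + g' x) := by
  obtain ⟨M, hM, h⟩ := h
  obtain ⟨M', hM', h'⟩ := h'
  refine ⟨M + M', by positivity, fun x => ⟨?_, ?_, ?_⟩⟩
  · exact (norm_add_le _ _).trans (add_le_add (h x).1 (h' x).1)
  · exact (norm_add_le _ _).trans (add_le_add (h x).2.1 (h' x).2.1)
  · rw [add_sub_add_comm, add_mul]
    exact (norm_add_le _ _).trans (add_le_add (h x).2.2 (h' x).2.2)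

theorem FaU.mul {f g f' g' : X → K} (h : FaU c f g) (h' : FaU c f' g') :
    FaU c (fun x => f x * f' x) (fun x => g x * g' x) := by
  obtain ⟨M, hM, h⟩ := h
  obtain ⟨M', hM', h'⟩ := h'
  have hMM : M * M' ≤ 2 * (M * M') := by nlinarith [mul_nonneg hM hM']
  refine ⟨2 * (M * M'), by positivity, fun x => ⟨?_, ?_, ?_⟩⟩
  · rw [norm_mul]
    exact (mul_le_mul (h x).1 (h' x).1 (norm_nonneg _) hM).trans hMM
  · rw [norm_mul]
    exact (mul_le_mul (h x).2.1 (h' x).2.1 (norm_nonneg _) hM).trans hMM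
  · have e : f x * f' x - g x * g' x = f x * (f' x - g' x) + (f x - g x) * g' x := by ring
    rw [e]
    refine (norm_add_le _ _).trans ?_
    rw [norm_mul, norm_mul]
    have a1 := mul_le_mul (h x).1 (h' x).2.2 (norm_nonneg _) hM
    have a2 := mul_le_mul (h x).2.2 (h' x).2.1 (norm_nonneg _) (by positivity)
    nlinarith

theorem FaU.sum {ι : Type} {f g : ι → X → K} (s : Finset ι) (h : ∀ i, FaU c (f i) (g i)) :
    FaU c (fun x => ∑ i ∈ s, f i x) (fun x => ∑ i ∈ s, g i x) := by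
  classical
  induction s using Finset.induction_on with
  | empty => simpa using FaU.const (c := c) 0
  | insert k s hk ih => simpa only [Finset.sum_insert hk] using (h k).add ih

theorem FaU.prod {ι : Type} {f g : ι → X → K} (s : Finset ι) (h : ∀ i, FaU c (f i) (g i)) :
    FaU c (fun x => ∏ i ∈ s, f i x) (fun x => ∏ i ∈ s, g i x) := by
  classical
  induction s using Finset.induction_on with
  | empty => simpa using FaU.const (c := c) 1
  | insert k s hk ih => simpa only [Finset.prod_insert hk] using (h k).mul ih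

theorem FaU.ev {f g : X → K} (h : FaU c f g) {η : ℝ} (hη : 0 < η) :
    ∀ᶠ x in Filter.comap c (nhds 0), ‖f x - g x‖ < η := by
  obtain ⟨M, -, h⟩ := h
  have h1 : ∀ᶠ b in nhds (0 : K), M * ‖b‖ < η :=
    ((continuous_const.mul continuous_norm).tendsto' 0 0 (by simp)).eventually_lt_const hη
  exact (Filter.tendsto_comap.eventually h1).mono fun x hx => (h x).2.2.trans_lt hx

theorem FaU.ne {f g : X → K} (h : FaU c f g) {η : ℝ} (hη : 0 < η) :
    ∀ᶠ x in Filter.comap c (nhds 0), η ≤ ‖g x‖ → f x ≠ 0 :=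
  (h.ev hη).mono fun x hx h1 h2 => by
    rw [h2, zero_sub, norm_neg] at hx
    exact absurd h1 (not_le.2 hx)

/-- The entrywise form for matrices. -/
def FaM {m n : Type} (c : X → K) (F G : X → Matrix m n K) : Prop :=
  ∀ i j, FaU c (fun x => F x i j) (fun x => G x i j)

variable {l m n : Type}

theorem FaM.const (A : Matrix m n K) : FaM c (fun _ => A) (fun _ => A) :=
  fun _ _ => FaU.const _

theorem FaM.add {F G F' G' : X → Matrix m n K} (h : FaM c F G) (h' : FaM c F' G') :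
    FaM c (fun x => F x + F' x) (fun x => G x + G' x) := fun i j => (h i j).add (h' i j)

theorem FaM.smul {f g : X → K} {F G : X → Matrix m n K} (h : FaU c f g) (h' : FaM c F G) :
    FaM c (fun x => f x • F x) (fun x => g x • G x) := fun i j => h.mul (h' i j)

theorem FaM.tr {F G : X → Matrix m n K} (h : FaM c F G) :
    FaM c (fun x => (F x)ᵀ) (fun x => (G x)ᵀ) := fun i j => h j i

theorem FaM.mul [Fintype m] {F G : X → Matrix l m K} {F' G' : X → Matrix m n K}
    (h : FaM c F G) (h' : FaM c F' G') :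
    FaM c (fun x => F x * F' x) (fun x => G x * G' x) := fun i j =>
  FaU.sum Finset.univ fun k => (h i k).mul (h' k j)

theorem FaM.trace [Fintype m] {F G : X → Matrix m m K} (h : FaM c F G) :
    FaU c (fun x => (F x).trace) (fun x => (G x).trace) :=
  FaU.sum Finset.univ fun k => h k k

theorem FaM.det [Fintype m] [DecidableEq m] {F G : X → Matrix m m K} (h : FaM c F G) :
    FaU c (fun x => (F x).det) (fun x => (G x).det) := by
  simp only [det_apply']
  exact FaU.sum _ fun σ => (FaU.const _).mul (FaU.prod _ fun i => h _ _)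

theorem FaM.adj [Fintype m] [DecidableEq m] {F G : X → Matrix m m K} (h : FaM c F G) :
    FaM c (fun x => (F x).adjugate) (fun x => (G x).adjugate) := fun i j => by
  simp only [adjugate_apply]
  refine FaM.det fun a b => ?_
  simp only [updateRow_apply]
  split_ifs
  · exact FaU.const _
  · exact h a b

theorem FaM.congr {F G G' : X → Matrix m n K} (h : FaM c F G) (e : ∀ x, G x = G' x) :
    FaM c F G' := by
  rwa [← funext e]

end near

theorem fa_main {K : Type} [NormedField K] [CharZero K]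
    {Z W : Type} [Fintype Z] [DecidableEq Z] [Fintype W] [DecidableEq W]
    (P : Matrix Z Z K) (hP : P * Pᵀ = 1) (E : Matrix Z W K) (d : W → K) (hd : ∀ v, d v ≠ 0)
    (hE : Eᵀ * E = diagonal d) (hPE : P * E = E)
    (hA : (1 - P + E * ((diagonal fun v => (d v)⁻¹) * Eᵀ)).det ≠ 0)
    (n : Z → K) (nW : W → K) (hn : ∀ v, nW v ≠ 0) (hn' : ∀ z, n z ≠ 0)
    (hnE : diagonal n * E = E * diagonal nW)
    (wt : W → ℤ) (κ : K) (hκ : κ ≠ 0) (hwt : ∀ v, (nW v)⁻¹ * d v = κ * wt v)
    (C ϑ : ℝ) (hϑ : 0 < ϑ) :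
    ∃ ε : ℝ, 0 < ε ∧ ∀ c : K, c ≠ 0 → ‖c‖ ≤ ε → ∀ N Q' Φ Q NW : Matrix _ _ K,
      (∀ i j, ‖N i j‖ ≤ C) → (∀ i j, ‖Q' i j‖ ≤ C) →
      Φ = P + (2 * c) • (diagonal n * N) → Q = diagonal n + c • Q' → Φ * Q * Φᵀ = Q →
      NW = Eᵀ * N * E →
      (∀ v w, ‖NW v w + NW w v‖ ≤ ϑ) ∧
        (ϑ < ‖Dl wt NW‖ → Φ.charpolyRev.rootMultiplicity 1 = Fintype.card W % 2) := by
  have hT : (diagonal fun v => (d v)⁻¹) * diagonal d = 1 := by
    rw [diagonal_mul_diagonal, ← diagonal_one]
    exact congrArg diagonal (funext fun v => inv_mul_cancel₀ (hd v))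
  have hW : (diagonal fun v => (nW v)⁻¹) * diagonal nW = 1 := by
    rw [diagonal_mul_diagonal, ← diagonal_one]
    exact congrArg diagonal (funext fun v => inv_mul_cancel₀ (hn v))
  have hDT : (diagonal fun v => (nW v)⁻¹) * diagonal d = κ • diagonal fun v => (wt v : K) := by
    rw [diagonal_mul_diagonal, ← diagonal_smul]
    exact congrArg diagonal (funext hwt)
  have hD : (diagonal n).det ≠ 0 := by
    rw [det_diagonal]
    exact Finset.prod_ne_zero_iff.2 fun z _ => hn' z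
  have hTs := diagonal_transpose fun v => (d v)⁻¹
  have hWs := diagonal_transpose nW
  have hDs := diagonal_transpose n
  generalize (diagonal fun v => (d v)⁻¹) = Ti at *
  generalize (diagonal fun v => (nW v)⁻¹) = Di at *
  generalize diagonal nW = DW at *
  generalize diagonal n = D at *
  generalize diagonal d = T at *
  have hT' : T * Ti = 1 := mul_eq_one_comm.1 hT
  have hW' : DW * Di = 1 := mul_eq_one_comm.1 hW
  have hEP : Eᵀ * P = Eᵀ := by
    have h : Pᵀ * E = E := by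
      conv_lhs => rw [← hPE]
      rw [← Matrix.mul_assoc, mul_eq_one_comm.1 hP, Matrix.one_mul]
    simpa only [transpose_mul, transpose_transpose] using congrArg transpose h
  have hED : Eᵀ * D = DW * Eᵀ := by
    simpa only [transpose_mul, hWs, hDs] using congrArg transpose hnE
  have hAE : (1 - P + E * (Ti * Eᵀ)) * E = E := by
    rw [Matrix.add_mul, Matrix.sub_mul, Matrix.one_mul, hPE, Matrix.mul_assoc, Matrix.mul_assoc,
      hE, hT, Matrix.mul_one, sub_add_cancel]
  have hEA : Eᵀ * (1 - P + E * (Ti * Eᵀ)) = Eᵀ := by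
    rw [Matrix.mul_add, Matrix.mul_sub, Matrix.mul_one, hEP, ← Matrix.mul_assoc, hE,
      ← Matrix.mul_assoc, hT', Matrix.one_mul, sub_add_cancel]
  have hsg := fa_sign P E T Ti hP hE hPE hT hTs hA hAE
  have hP2 : P.det * P.det = 1 := by
    have := congrArg det hP
    rwa [det_mul, det_transpose, det_one] at this
  generalize hAd : 1 - P + E * (Ti * Eᵀ) = A at hA hAE hEA
  have aE : A.adjugate * E = A.det • E := by
    conv_lhs => rw [← hAE]
    rw [← Matrix.mul_assoc, adjugate_mul, Matrix.smul_mul, Matrix.one_mul]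
  have Ea : Eᵀ * A.adjugate = A.det • Eᵀ := by
    conv_lhs => rw [← hEA]
    rw [Matrix.mul_assoc, mul_adjugate, Matrix.mul_smul, Matrix.mul_one]
  let X := {p : K × Matrix Z Z K × Matrix Z Z K //
    ‖p.1‖ ≤ 1 ∧ (∀ i j, ‖p.2.1 i j‖ ≤ C) ∧ ∀ i j, ‖p.2.2 i j‖ ≤ C}
  let c : X → K := fun x => x.1.1
  let N : X → Matrix Z Z K := fun x => x.1.2.1
  let Q' : X → Matrix Z Z K := fun x => x.1.2.2
  have uc : FaU c c fun _ => 0 := FaU.self fun x => x.2.1
  have u2 : FaU c (fun x => 2 * c x) fun _ => 0 := by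
    simpa only [mul_zero] using (FaU.const (c := c) 2).mul uc
  have u2' : FaU c (fun x => -(2 * c x)) fun _ => 0 := by
    simpa only [mul_zero, neg_one_mul] using (FaU.const (c := c) (-1)).mul u2
  have uN : FaM c N N := fun i j => FaU.bdd fun x => x.2.2.1 i j
  have uQ' : FaM c Q' Q' := fun i j => FaU.bdd fun x => x.2.2.2 i j
  have uD := (FaM.const (c := c) D).mul uN
  have uΦ : FaM c (fun x => P + (2 * c x) • (D * N x)) fun _ => P :=
    ((FaM.const P).add (FaM.smul u2 uD)).congr fun x => by rw [zero_smul, add_zero]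
  have uA : FaM c (fun x => A + (-(2 * c x)) • (D * N x)) fun _ => A :=
    ((FaM.const A).add (FaM.smul u2' uD)).congr fun x => by rw [zero_smul, add_zero]
  have uQ : FaM c (fun x => D + c x • Q' x) fun _ => D :=
    ((FaM.const D).add (FaM.smul uc uQ')).congr fun x => by rw [zero_smul, add_zero]
  have uE := FaM.const (c := c) E
  have uEt := FaM.const (c := c) Eᵀ
  have uDi := FaM.const (c := c) Di
  have uU := uEt.mul uN
  have uS := (((((uU.mul uQ).mul uE).mul uDi).add (uDi.mul ((uEt.mul uQ).mul uU.tr))).add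
    (FaM.smul u2 ((uU.mul uQ).mul uU.tr))).congr
      (G' := fun x => Eᵀ * N x * E + (Eᵀ * N x * E)ᵀ) fun x => by
        rw [zero_smul, add_zero, hED, Matrix.mul_assoc _ D, hnE, ← Matrix.mul_assoc _ E,
          Matrix.mul_assoc _ DW, hW', Matrix.mul_one, ← Matrix.mul_assoc Di,
          ← Matrix.mul_assoc Di, hW, Matrix.one_mul, transpose_mul _ E]
  have uH := ((uU.mul uA.adj).mul uE).congr (G' := fun x => A.det • (Eᵀ * N x * E)) fun x => by
    rw [Matrix.mul_assoc, aE, Matrix.mul_smul]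
  have uH' := (uDi.mul ((((uEt.mul uA.adj).mul uΦ).mul uA.adj).mul uE)).congr
    (G' := fun _ => (A.det * A.det * κ) • diagonal fun v => (wt v : K)) fun x => by
      rw [Matrix.mul_assoc _ A.adjugate E, aE, Ea, Matrix.smul_mul, hEP, Matrix.smul_mul,
        Matrix.mul_smul, Matrix.mul_smul, hE, Matrix.mul_smul, hDT, smul_smul, smul_smul]
  have na : 0 < ‖A.det‖ := norm_pos_iff.2 hA
  have nκ : 0 < ‖κ‖ := norm_pos_iff.2 hκ
  have f1 := uA.det.ne na
  have f2 := uQ.det.ne (norm_pos_iff.2 hD)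
  have f3 := uΦ.det.ev (norm_pos_iff.2 (two_ne_zero (α := K)))
  have f4 := Filter.eventually_all.2 fun v => Filter.eventually_all.2 fun w => (uS v w).ev hϑ
  have f5 := uH.det.ne (η := ‖A.det‖ ^ Fintype.card W * ϑ) (by positivity)
  have f6 := (uH.adj.mul uH').trace.ne
    (η := ‖A.det‖ ^ (Fintype.card W - 1) * (‖A.det‖ * ‖A.det‖ * ‖κ‖) * ϑ) (by positivity)
  obtain ⟨ε, hε, H⟩ := Metric.eventually_nhds_iff.1 (Filter.eventually_comap.1
    (f1.and (f2.and (f3.and (f4.and (f5.and f6))))))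
  refine ⟨min (ε / 2) 1, by positivity, fun c₀ hc hcε N₀ Q₀ Φ Q NW hN hQ hΦ hQd hinv hNW => ?_⟩
  obtain ⟨g1, g2, g3, g4, g5, g6⟩ := H (y := c₀)
    (by rw [dist_zero_right]; linarith [hcε.trans (min_le_left _ _)])
    ⟨(c₀, N₀, Q₀), hcε.trans (min_le_right _ _), hN, hQ⟩ rfl
  simp only [c, N, Q'] at g1 g2 g3 g4 g5 g6
  rw [← hNW] at g4 g5 g6
  have ht : 2 * c₀ ≠ 0 := mul_ne_zero two_ne_zero hc
  refine ⟨fun v w => ?_, fun hl => ?_⟩
  · have := g4 v w
    rw [← hQd, fa_skew P D N₀ Q E DW Di _ ht hEP hED hWs hW (hΦ ▸ hinv), Matrix.zero_apply,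
      zero_sub, norm_neg] at this
    exact this.le
  obtain ⟨o1, o2⟩ := fa_order P A D N₀ Φ _ E T Ti DW Di _ ht hAd.symm hE hT hEA hED hW' hΦ rfl
    (g1 le_rfl)
  rw [← hΦ] at g3 g6
  rw [← hQd] at g2
  unfold Dl at hl
  split_ifs at hl with hev
  · rw [Nat.even_iff.1 hev]
    refine o1 (g5 ?_)
    rw [det_smul, norm_mul, norm_pow]
    exact mul_le_mul_of_nonneg_left hl.le (by positivity)
  · rw [Nat.not_even_iff.1 hev]
    refine o2 (g6 ?_) (fa_root Φ Q (g2 le_rfl) hinv ?_)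
    · have e : (NW.adjugate * diagonal fun v => (wt v : K)).trace =
          ∑ v, (wt v : K) * NW.adjugate v v := by
        simp only [Matrix.trace, diag_apply, mul_diagonal, mul_comm]
      rw [adjugate_smul, Matrix.smul_mul, Matrix.mul_smul, smul_smul, trace_smul, e, smul_eq_mul,
        norm_mul, norm_mul, norm_mul, norm_mul, norm_pow]
      exact mul_le_mul_of_nonneg_left hl.le (by positivity)
    · have e1 := congrArg det hinv
      rw [det_mul, det_mul, det_transpose] at e1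
      have e2 : (Φ.det - P.det) * (Φ.det + P.det) = 0 := by
        refine mul_right_cancel₀ (g2 le_rfl) ?_
        linear_combination e1 - Q.det * hP2
      have e3 : Φ.det = P.det := by
        rcases mul_eq_zero.1 e2 with h | h
        · exact sub_eq_zero.1 h
        · exfalso
          have n1 : ‖P.det‖ = 1 := by
            have := congrArg norm hP2
            rw [norm_mul, norm_one] at this
            nlinarith [norm_nonneg P.det]
          have : Φ.det - P.det = -(2 * P.det) := by linear_combination h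
          rw [this, norm_neg, norm_mul, n1, mul_one] at g3
          exact lt_irrefl _ g3
      rw [e3, hsg, (Nat.not_even_iff_odd.1 hev).neg_one_pow]

theorem fa_rat {Z W : Type} [Fintype Z] [DecidableEq Z] [Fintype W] [DecidableEq W]
    (P : Matrix Z Z ℚ) (hP : P * Pᵀ = 1) (E : Matrix Z W ℚ) (d : W → ℚ) (hd : ∀ v, d v ≠ 0)
    (hE : Eᵀ * E = diagonal d) (hPE : P * E = E)
    (hfix : ∀ x : Z → ℚ, P *ᵥ x = x → ∃ y, x = E *ᵥ y) :
    (1 - P + E * ((diagonal fun v => (d v)⁻¹) * Eᵀ)).det ≠ 0 := by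
  have hT : (diagonal fun v => (d v)⁻¹) * diagonal d = 1 := by
    rw [diagonal_mul_diagonal, ← diagonal_one]
    exact congrArg diagonal (funext fun v => inv_mul_cancel₀ (hd v))
  generalize (diagonal fun v => (d v)⁻¹) = Ti at *
  have hEP : Eᵀ * P = Eᵀ := by
    have h : Pᵀ * E = E := by
      conv_lhs => rw [← hPE]
      rw [← Matrix.mul_assoc, mul_eq_one_comm.1 hP, Matrix.one_mul]
    simpa only [transpose_mul, transpose_transpose] using congrArg transpose h
  have hEA : Eᵀ * (1 - P + E * (Ti * Eᵀ)) = Eᵀ := by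
    rw [Matrix.mul_add, Matrix.mul_sub, Matrix.mul_one, hEP, ← Matrix.mul_assoc, hE,
      ← Matrix.mul_assoc, mul_eq_one_comm.1 hT, Matrix.one_mul, sub_add_cancel]
  intro h0
  obtain ⟨x, hx, h⟩ := Matrix.exists_mulVec_eq_zero_iff.2 h0
  have h1 : Eᵀ *ᵥ x = 0 := by rw [← hEA, ← mulVec_mulVec, h, mulVec_zero]
  rw [add_mulVec, ← mulVec_mulVec, ← mulVec_mulVec, h1, mulVec_zero, mulVec_zero, add_zero,
    sub_mulVec, one_mulVec, sub_eq_zero] at h
  obtain ⟨y, rfl⟩ := hfix x h.symm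
  have h2 : y = 0 := by
    rw [← one_mulVec y, ← hT, ← hE, ← mulVec_mulVec, ← mulVec_mulVec, h1, mulVec_zero]
  exact hx (by rw [h2, mulVec_zero])

theorem fin_alg (K : Type) [NormedField K] [IsUltrametricDist K] [CharZero K]
    (Z W : Type) [Fintype Z] [DecidableEq Z] [Fintype W] [DecidableEq W]
    (P : Matrix Z Z ℤ) (hP : P * Pᵀ = 1) (E : Matrix Z W ℤ) (d : W → ℕ) (hd : ∀ v, 0 < d v)
    (hE : Eᵀ * E = diagonal fun v => (d v : ℤ)) (hPE : P * E = E)
    (hfix : ∀ x : Z → ℚ, P.map (Int.cast : ℤ → ℚ) *ᵥ x = x →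
      ∃ y, x = E.map (Int.cast : ℤ → ℚ) *ᵥ y)
    (n : Z → ℕ) (nW : W → ℕ) (hn : ∀ v, 0 < nW v) (hn' : ∀ z, 0 < n z)
    (hnP : (diagonal fun z => (n z : ℤ)) * P = P * diagonal fun z => (n z : ℤ))
    (hnE : (diagonal fun z => (n z : ℤ)) * E = E * diagonal fun v => (nW v : ℤ))
    (wt : W → ℤ) (m₁ m₂ : ℕ) (hm₁ : 0 < m₁) (hm₂ : 0 < m₂)
    (hwt : ∀ v, wt v * nW v * m₁ = m₂ * d v) (C ϑ : ℝ) (hϑ : 0 < ϑ) :
    ∃ ε : ℝ, 0 < ε ∧ ∀ c : K, c ≠ 0 → ‖c‖ ≤ ε → ∀ N Q' Φ Q NW : Matrix _ _ K,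
      (∀ i j, ‖N i j‖ ≤ C) → (∀ i j, ‖Q' i j‖ ≤ C) →
      Φ = P.map (Int.cast : ℤ → K) + (2 * c) • ((diagonal fun z => (n z : K)) * N) →
      Q = (diagonal fun z => (n z : K)) + c • Q' → Φ * Q * Φᵀ = Q →
      NW = (E.map (Int.cast : ℤ → K))ᵀ * N * E.map (Int.cast : ℤ → K) →
      (∀ v w, ‖NW v w + NW w v‖ ≤ ϑ) ∧
        (ϑ < ‖Dl wt NW‖ → Φ.charpolyRev.rootMultiplicity 1 = Fintype.card W % 2) := by
  have c1 : ∀ (F : Type) [Field F], P.map (Int.cast : ℤ → F) * (P.map (Int.cast : ℤ → F))ᵀ = 1 ∧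
      (E.map (Int.cast : ℤ → F))ᵀ * E.map (Int.cast : ℤ → F) = (diagonal fun v => (d v : F)) ∧
      P.map (Int.cast : ℤ → F) * E.map (Int.cast : ℤ → F) = E.map (Int.cast : ℤ → F) ∧
      (diagonal fun z => (n z : F)) * E.map (Int.cast : ℤ → F) =
        E.map (Int.cast : ℤ → F) * diagonal fun v => (nW v : F) := fun F _ => by
    have m1 := congrArg (fun M => M.map (Int.castRingHom F)) hP
    have m2 := congrArg (fun M => M.map (Int.castRingHom F)) hE
    have m3 := congrArg (fun M => M.map (Int.castRingHom F)) hPE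
    have m4 := congrArg (fun M => M.map (Int.castRingHom F)) hnE
    simp only [Matrix.map_mul, transpose_map, diagonal_map (map_zero (Int.castRingHom F)),
      Matrix.map_one _ (map_zero (Int.castRingHom F)) (map_one (Int.castRingHom F)),
      map_natCast] at m1 m2 m3 m4
    exact ⟨m1, m2, m3, m4⟩
  obtain ⟨q1, q2, q3, -⟩ := c1 ℚ
  obtain ⟨k1, k2, k3, k4⟩ := c1 K
  have hA := fa_rat _ q1 _ _ (fun v => Nat.cast_ne_zero.2 (hd v).ne') q2 q3 hfix
  refine fa_main _ k1 _ _ (fun v => Nat.cast_ne_zero.2 (hd v).ne') k2 k3 ?_ _ _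
    (fun v => Nat.cast_ne_zero.2 (hn v).ne') (fun z => Nat.cast_ne_zero.2 (hn' z).ne') k4 wt
    ((m₁ : K) / m₂) (div_ne_zero (Nat.cast_ne_zero.2 hm₁.ne') (Nat.cast_ne_zero.2 hm₂.ne'))
    (fun v => ?_) C ϑ hϑ
  · have h := (map_ne_zero (Rat.castHom K)).2 hA
    rw [RingHom.map_det] at h
    convert h using 2
    ext i j
    by_cases hij : i = j <;> simp [Matrix.mul_apply, diagonal_apply, one_apply, hij]
  · have h : (wt v : K) * nW v * m₁ = m₂ * d v := by exact_mod_cast hwt v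
    have a1 : (nW v : K) ≠ 0 := Nat.cast_ne_zero.2 (hn v).ne'
    have a2 : (m₂ : K) ≠ 0 := Nat.cast_ne_zero.2 hm₂.ne'
    field_simp
    linear_combination -h

end Pool.Agent.Lib.MP_788af2_nt.AG
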