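import Pool.Agent.Lib.MP_788af2_nt.AG.Main
import Pool.Agent.Lib.MP_788af2_nt.AS.AllDeg

/-!
All degrees.
-/

set_option linter.unusedSectionVars false

namespace Pool.Agent.Lib.MP_788af2_nt.AG

open Polynomial Filter Topology Pool.Agent.Lib.MP_788af2_nt.AS Pool.Agent.Lib.MP_a3f657_nt.Two

theorem HasOrd.fin_le {q : ℕ} (hq : q ≠ 0) {L : PowerSeries ℚ} {r r' : ℕ} (h : HasOrd q L r)
    (h' : HasOrd q L r') : r' ≤ r := by
  obtain ⟨P, Q, hP, -, e⟩ := h
  obtain ⟨P', Q', -, hQ', e'⟩ := h'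
  by_contra hlt
  obtain ⟨d, rfl⟩ : ∃ d, r' = r + (d + 1) := ⟨r' - r - 1, by omega⟩
  have hq' : (q : ℚ) ≠ 0 := by exact_mod_cast hq
  have h1 : Q' * ((1 - C (q : ℚ) * X) ^ r * P) = Q * ((1 - C (q : ℚ) * X) ^ (r + (d + 1)) * P') := by
    apply Polynomial.coe_injective ℚ
    rw [Polynomial.coe_mul, Polynomial.coe_mul Q, ← e, ← e']
    ring
  have h0 : (1 - C (q : ℚ) * X : ℚ[X]) ≠ 0 := fun h => by
    simpa using congrArg (eval 0) h
  have h2 : Q' * P = Q * ((1 - C (q : ℚ) * X) ^ (d + 1) * P') := by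
    apply mul_left_cancel₀ (pow_ne_zero r h0)
    linear_combination h1
  have h3 := congrArg (eval (1 / q : ℚ)) h2
  have h4 : eval (1 / q : ℚ) (1 - C (q : ℚ) * X) = 0 := by
    simp [hq']
  rw [eval_mul, eval_mul, eval_mul, eval_pow, h4, zero_pow (by omega), zero_mul, mul_zero] at h3
  exact mul_ne_zero hQ' hP h3

variable {k : Type} [Field k] [Fintype k] [CharP k 2] (κ : Type) [Field κ] [CharP κ 2]
  [IsAlgClosed κ] [Algebra k κ]

/-- The analytic rank. -/
noncomputable def ark (a b : k[X]) : ℕ∞ := ⨅ (r : ℕ) (_ : ARk κ a b r), (r : ℕ∞)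

theorem ark_eq {a b : k[X]} {r : ℕ} (h : ARk κ a b r) : ark κ a b = r := by
  refine le_antisymm (iInf₂_le r h) (le_iInf₂ fun r' h' => ?_)
  obtain ⟨L, h1, h2⟩ := h
  obtain ⟨L', h1', h2'⟩ := h'
  obtain rfl := h1.unique h1' fun _ _ => rfl
  exact_mod_cast h2'.fin_le Fintype.card_ne_zero h2

theorem fin_add_pow (u v : κ) (n : ℕ) :
    (u + v) ^ Fintype.card k ^ n = u ^ Fintype.card k ^ n + v ^ Fintype.card k ^ n := by
  induction n with
  | zero => simp
  | succ n ih =>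
    rw [pow_succ, pow_mul, pow_mul, pow_mul, ih]
    exact map_add (FiniteField.frobeniusAlgHom k κ) _ _

theorem npts_shift (a b z : k[X]) (n : ℕ) : npts κ (a + z ^ 2 + z) b n = npts κ a b n := by
  have h2 : (2 : κ) = 0 := CharTwo.two_eq_zero
  have hg : Function.Involutive fun p : κ × κ × κ =>
      (p.1, p.2.1, p.2.2 + aeval p.1 z * p.2.1) := fun p => by
    simp only [add_assoc, CharTwo.add_self_eq_zero, add_zero]
  unfold npts
  rw [← Set.ncard_image_of_injective _ hg.injective]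
  congr 1
  rw [Set.image_eq_preimage_of_inverse hg.leftInverse hg.rightInverse]
  ext ⟨t, x, y⟩
  simp only [Set.mem_preimage, Set.mem_ofPred_eq, map_add, map_pow]
  refine and_congr_right fun ht => and_congr_right fun hx => and_congr ?_ ?_
  · rw [fin_add_pow, mul_pow, aeval_pow_card_pow, ht, hx, add_left_inj]
  · constructor <;> intro h
    · linear_combination h - (y * aeval t z * x) * h2
    · linear_combination h + (y * aeval t z * x) * h2

theorem ark_shift (a b z : k[X]) : ark κ (a + z ^ 2 + z) b = ark κ a b := by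
  simp only [ark, ARk, cnt, npts_shift]

theorem fin_upper {b : k[X]} (hb : 0 < b.natDegree) (φ : ℕ∞ → ℝ) (ε : ℝ) (hε : 0 < ε) :
    ∃ N₀ : ℕ, ∀ N, N₀ ≤ N → ∀ A : Finset k[X], (∀ a, a ∈ A ↔ a.natDegree ≤ N) →
      ∑ a ∈ A, φ (ark κ a b) ≤ ((φ 0 + φ 1) / 2 + ε) * A.card := by
  classical
  obtain ⟨B, hB⟩ := main κ hb
  obtain ⟨C, hC0, hC⟩ : ∃ C : ℝ, 0 < C ∧ ∀ r : ℕ, r ≤ B + 1 → |φ r| ≤ C := by
    refine ⟨∑ r ∈ Finset.range (B + 2), |φ r| + 1, by positivity, fun r hr => ?_⟩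
    have := Finset.single_le_sum (f := fun r : ℕ => |φ r|) (fun _ _ => abs_nonneg _)
      (Finset.mem_range.2 (show r < B + 2 by omega))
    linarith
  obtain ⟨M, hM⟩ := hB (ε / 2 / (2 * C)) (by positivity)
  have key := all_deg (fun a => φ (ark κ a b)) (fun a z => by rw [ark_shift])
    ((φ 0 + φ 1) / 2 + ε / 2) (max M b.natDegree) (fun e he ho A hA => ?_) (ε / 2) (by positivity)
  · simpa only [add_assoc, add_halves] using key
  obtain ⟨h1, h2⟩ := hM e (le_of_max_le_left he) ho A hA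
  have h3 := half_odd hb (le_of_max_le_right he) A hA
  have h4 : ∀ a ∈ A, φ (ark κ a b) ≤ (φ 0 + (φ 1 - φ 0) * if Odd (Spl b a).card then 1 else 0) +
      2 * C * if ¬ ARk κ a b ((Spl b a).card % 2) then 1 else 0 := by
    intro a ha
    have c0 := abs_le.1 (hC 0 (by omega))
    have c1 := abs_le.1 (hC 1 (by omega))
    simp only [Nat.cast_zero, Nat.cast_one] at c0 c1
    by_cases g : ARk κ a b ((Spl b a).card % 2)
    · rw [ark_eq κ g, if_neg (not_not.2 g)]
      by_cases o : Odd (Spl b a).card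
      · rw [if_pos o, Nat.odd_iff.1 o]
        simp
      · rw [if_neg o, Nat.not_odd_iff.1 o]
        simp
    · obtain ⟨r, hr, hr'⟩ := h1 a ha
      have c2 := abs_le.1 (hC r (by omega))
      rw [ark_eq κ hr', if_pos g]
      split_ifs <;> linarith [c0.1, c1.1, c2.2]
  refine (Finset.sum_le_sum h4).trans ?_
  rw [Finset.sum_add_distrib, Finset.sum_add_distrib, ← Finset.mul_sum, ← Finset.mul_sum,
    Finset.sum_boole, Finset.sum_boole, Finset.sum_const, nsmul_eq_mul]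
  have h5 : (2 : ℝ) * ((A.filter fun a => Odd (Spl b a).card).card : ℝ) = A.card := by
    exact_mod_cast h3
  have h6 := mul_le_mul_of_nonneg_left h2 (show 0 ≤ 2 * C by positivity)
  have h7 : 2 * C * (ε / 2 / (2 * C) * A.card) = ε / 2 * A.card := by field_simp
  rw [h7] at h6
  have h8 : ((A.filter fun a => Odd (Spl b a).card).card : ℝ) = A.card / 2 := by linarith
  rw [h8]
  linarith

theorem final {b : k[X]} (hb : 0 < b.natDegree) (φ : ℕ∞ → ℝ) :
    Tendsto (fun N : ℕ => (∑ᶠ a ∈ {a : k[X] | a.natDegree ≤ N}, φ (ark κ a b)) /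
      Set.ncard {a : k[X] | a.natDegree ≤ N}) atTop (𝓝 ((φ 0 + φ 1) / 2)) := by
  refine Metric.tendsto_atTop.2 fun ε hε => ?_
  obtain ⟨N₁, h1⟩ := fin_upper κ hb φ (ε / 2) (by positivity)
  obtain ⟨N₂, h2⟩ := fin_upper κ hb (fun r => -φ r) (ε / 2) (by positivity)
  refine ⟨max N₁ N₂, fun N hN => ?_⟩
  obtain ⟨A, hA0, hA⟩ := exists_box (k := k) N
  have e : {a : k[X] | a.natDegree ≤ N} = (A : Set k[X]) := by
    ext a
    simp [hA]
  have h3 := h1 N (le_of_max_le_left hN) A hA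
  have h4 := h2 N (le_of_max_le_right hN) A hA
  rw [Finset.sum_neg_distrib] at h4
  have h5 : (0 : ℝ) < A.card := by exact_mod_cast hA0.card_pos
  rw [e, finsum_mem_coe_finset, Set.ncard_coe_finset, Real.dist_eq, abs_lt]
  constructor
  · rw [lt_sub_iff_add_lt, lt_div_iff₀ h5]
    nlinarith
  · rw [sub_lt_iff_lt_add, div_lt_iff₀ h5]
    nlinarith

end Pool.Agent.Lib.MP_788af2_nt.AG
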