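import Pool.Agent.Lib.MP_788af2_nt.AG.FredAux

/-!
The Fredholm series of a completely continuous matrix.
-/

set_option linter.unusedSectionVars false

namespace Pool.Agent.Lib.MP_788af2_nt.AG

open Filter Topology

theorem ent_of_entire {K : Type} [NormedField K] {f : PowerSeries K} (h : DW.Entire f) :
    Ent f := by
  intro R
  have hR : 0 < |R| + 1 := by positivity
  obtain ⟨c, hc⟩ := h (1 / 2 / (|R| + 1)) (by positivity)
  have hc0 : 0 ≤ c := by simpa using (norm_nonneg _).trans (hc 0)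
  refine squeeze_zero_norm (a := fun n => c * (1 / 2) ^ n) (fun n => ?_)
    (by simpa using (tendsto_pow_atTop_nhds_zero_of_lt_one (r := (1 / 2 : ℝ)) (by norm_num)
      (by norm_num)).const_mul c)
  rw [norm_mul, norm_norm, norm_pow, Real.norm_eq_abs]
  calc _ ≤ (c * (1 / 2 / (|R| + 1)) ^ n) * (|R| + 1) ^ n :=
        mul_le_mul (hc n) (pow_le_pow_left₀ (abs_nonneg _) (by linarith) n) (by positivity)
          (by positivity)
    _ = c * (1 / 2) ^ n := by rw [mul_assoc, ← mul_pow, div_mul_cancel₀ _ hR.ne']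

theorem Ent.entire {K : Type} [NormedField K] {f : PowerSeries K} (h : Ent f) :
    DW.Entire f := by
  intro ρ hρ
  obtain ⟨c, hc⟩ := (h ρ⁻¹).bddAbove_range
  refine ⟨c, fun n => ?_⟩
  have h1 : ‖PowerSeries.coeff n f‖ * ρ⁻¹ ^ n ≤ c := hc ⟨n, rfl⟩
  rwa [inv_pow, ← div_eq_mul_inv, div_le_iff₀ (by positivity)] at h1

variable {K ι : Type} [NontriviallyNormedField K] [IsUltrametricDist K] [CompleteSpace K]
  [CharZero K] [DecidableEq ι]

theorem fredholm {V : ι → ℝ} {M : ι → ι → K} (h : CC V M) : ∃ D : PowerSeries K, Ent D ∧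
    IsExp (fun n => -mtr M n) D ∧ ∀ x : K, Tendsto (fun T : Finset ι =>
      (1 - x • Matrix.of fun r c : T => M r c).det) atTop (𝓝 (val x D)) := by
  obtain ⟨r, -, hr⟩ := h.nuc
  refine ⟨DW.fred M, ent_of_entire hr.entire_fred, ⟨?_, ?_⟩, fun x => ?_⟩
  · rw [← PowerSeries.coeff_zero_eq_constantCoeff_apply, DW.coeff_zero_fred]
  · rw [hr.derivative_fred]
    congr 1
    ext n
    simp only [map_neg, PowerSeries.coeff_mk, mtr, DW.mtr, Nat.add_sub_cancel, mpow_eq]
  · have h1 := (hr.smul (x := -x) le_rfl).tendsto_det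
    rw [← hr.ev_fred] at h1
    refine h1.congr fun T => ?_
    congr 1
    ext i j
    simp [sub_eq_add_neg]

/-- Removing an invariant finite dimensional quotient: rows `Ξ`, columns `w`, `Ξ w = 1`. -/
theorem mtr_left {Z : Type} [Fintype Z] [DecidableEq Z] {V : ι → ℝ} {M : ι → ι → K} (h : CC V M)
    {Ξ w : Z → ι → K} {Φ : Matrix Z Z K} (hΞ : ∀ z, RowB V (Ξ z)) (hw : ∀ z, ColB V (w z))
    (h1 : ∀ z z', dot (Ξ z) (w z') = if z = z' then 1 else 0)
    (h2 : ∀ z c, vmul (Ξ z) M c = ∑ z', Φ z z' * Ξ z' c) :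
    CC V (fun r c => M r c - ∑ z, mulv M (w z) r * Ξ z c) ∧ ∀ n, 1 ≤ n →
      mtr M n = mtr (fun r c => M r c - ∑ z, mulv M (w z) r * Ξ z c) n + (Φ ^ n).trace := by
  have hU : ∀ z, ColB V (mulv M (w z)) := fun z => (hw z).mulv h
  have hM' := h.sub_sum hU hΞ
  refine ⟨hM', ?_⟩
  set M' : ι → ι → K := fun r c => M r c - ∑ z, mulv M (w z) r * Ξ z c with hM'def
  have h3 : ∀ n z, vmul (Ξ z) (mpow M n) = fun c => ∑ z', (Φ ^ (n + 1)) z z' * Ξ z' c := by
    intro n
    induction n with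
    | zero => intro z; funext c; simpa [mpow] using h2 z c
    | succ n ih =>
      intro z
      funext c
      rw [mpow, vmul_mmul (hΞ z) (h.mpow n) h, ih z]
      refine (dot_sum_left _ hΞ (h.col c)).trans ?_
      have h4 : ∀ z', dot (Ξ z') (fun i => M i c) = ∑ z'', Φ z' z'' * Ξ z'' c := fun z' => h2 z' c
      simp only [h4, pow_succ Φ (n + 1), Matrix.mul_apply, Finset.mul_sum, Finset.sum_mul,
        mul_assoc]
      exact Finset.sum_comm
  have h5 : ∀ n z z', dot (Ξ z) (mulv (mpow M n) (w z')) = (Φ ^ (n + 1)) z z' := by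
    intro n z z'
    rw [dot_mulv (hΞ z) (h.mpow n) (hw z'), h3, dot_sum_left _ hΞ (hw z')]
    simp [h1]
  have h6 : ∀ z c, dot (Ξ z) (fun i => M' i c) = 0 := by
    intro z c
    refine (dot_sub_sum_right (fun z' => Ξ z' c) (hΞ z) (h.col c) hU).trans ?_
    have h7 : ∀ z', dot (Ξ z) (mulv M (w z')) = Φ z z' := fun z' => by simpa [mpow] using h5 0 z z'
    simp only [h7]
    exact sub_eq_zero.mpr (h2 z c)
  have h8 : ∀ n, mpow M' n = fun r c => mpow M n r c - ∑ z, mulv (mpow M n) (w z) r * Ξ z c := by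
    intro n
    induction n with
    | zero => rfl
    | succ n ih =>
      funext r c
      rw [mpow, ih]
      refine (dot_sub_sum_left _ ((h.mpow n).row r) hΞ (hM'.col c)).trans ?_
      simp only [h6, mul_zero, Finset.sum_const_zero, sub_zero]
      refine (dot_sub_sum_right (fun z' => Ξ z' c) ((h.mpow n).row r) (h.col c) hU).trans ?_
      simp only [mpow, mulv_mmul (h.mpow n) h (hw _)]
      rfl
  intro n hn
  obtain ⟨n, rfl⟩ : ∃ m, n = m + 1 := ⟨n - 1, by omega⟩
  simp only [mtr, Nat.add_sub_cancel, h8]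
  rw [tsum_diag_sub_sum (h.mpow n) (fun z => (hw z).mulv (h.mpow n)) hΞ]
  simp only [h5, Matrix.trace, Matrix.diag, sub_add_cancel]

/-- Removing an invariant finite dimensional subspace: columns `y`, rows `Y`, `Y y = 1`. -/
theorem mtr_right {Z : Type} [Fintype Z] [DecidableEq Z] {V : ι → ℝ} {M : ι → ι → K} (h : CC V M)
    {Y y : Z → ι → K} {a : Matrix Z Z K} (hY : ∀ z, RowB V (Y z)) (hy : ∀ z, ColB V (y z))
    (h1 : ∀ z z', dot (Y z) (y z') = if z = z' then 1 else 0)
    (h2 : ∀ z r, mulv M (y z) r = ∑ z', y z' r * a z' z) :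
    CC V (fun r c => M r c - ∑ z, y z r * vmul (Y z) M c) ∧ ∀ n, 1 ≤ n →
      mtr M n = mtr (fun r c => M r c - ∑ z, y z r * vmul (Y z) M c) n + (a ^ n).trace := by
  have hU : ∀ z, RowB V (vmul (Y z) M) := fun z => (hY z).vmul h
  have hM' := h.sub_sum hy hU
  refine ⟨hM', ?_⟩
  set M' : ι → ι → K := fun r c => M r c - ∑ z, y z r * vmul (Y z) M c with hM'def
  have h3 : ∀ n z, mulv (mpow M n) (y z) = fun r => ∑ z', y z' r * (a ^ (n + 1)) z' z := by
    intro n
    induction n with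
    | zero => intro z; funext c; simpa [mpow] using h2 z c
    | succ n ih =>
      intro z
      funext r
      rw [mpow, mulv_mmul (h.mpow n) h (hy z), funext (h2 z)]
      refine (dot_sum_right _ ((h.mpow n).row r) hy).trans ?_
      have h4 : ∀ z', dot (mpow M n r) (y z') = ∑ z'', y z'' r * (a ^ (n + 1)) z'' z' :=
        fun z' => congrFun (ih z') r
      simp only [h4, pow_succ a (n + 1), Matrix.mul_apply, Finset.mul_sum, Finset.sum_mul,
        mul_assoc]
      exact Finset.sum_comm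
  have h5 : ∀ n z z', dot (vmul (Y z) (mpow M n)) (y z') = (a ^ (n + 1)) z z' := by
    intro n z z'
    rw [← dot_mulv (hY z) (h.mpow n) (hy z'), h3, dot_sum_right _ (hY z) hy]
    simp [h1]
  have h6 : ∀ n z r, dot (fun c => mpow M n r c - ∑ z, y z r * vmul (Y z) (mpow M n) c) (y z) =
      0 := by
    intro n z r
    rw [dot_sub_sum_left _ ((h.mpow n).row r) (fun z => (hY z).vmul (h.mpow n)) (hy z)]
    simp only [h5]
    exact sub_eq_zero.mpr (congrFun (h3 n z) r)
  have h8 : ∀ n, mpow M' n = fun r c => mpow M n r c - ∑ z, y z r * vmul (Y z) (mpow M n) c := by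
    intro n
    induction n with
    | zero => rfl
    | succ n ih =>
      funext r c
      have h9 := (hM'.mpow n).row r
      rw [mpow]
      refine (dot_sub_sum_right (fun z => vmul (Y z) M c) h9 (h.col c) hy).trans ?_
      rw [ih]
      simp only [h6, zero_mul, Finset.sum_const_zero, sub_zero]
      refine (dot_sub_sum_left _ ((h.mpow n).row r) (fun z => (hY z).vmul (h.mpow n))
        (h.col c)).trans ?_
      simp only [mpow, vmul_mmul (hY _) (h.mpow n) h]
      rfl
  intro n hn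
  obtain ⟨n, rfl⟩ : ∃ m, n = m + 1 := ⟨n - 1, by omega⟩
  simp only [mtr, Nat.add_sub_cancel, h8]
  rw [tsum_diag_sub_sum (h.mpow n) hy fun z => (hY z).vmul (h.mpow n)]
  simp only [h5, Matrix.trace, Matrix.diag, sub_add_cancel]

end Pool.Agent.Lib.MP_788af2_nt.AG
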