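import Pool.Agent.Lib.MP_788af2_nt.AG.Link
import Pool.Agent.Lib.MP_788af2_nt.AG.FinAlg
import Pool.Agent.Lib.MP_788af2_nt.AG.RhoB

/-!
The lifted roots exist; the finite linear algebra, uniformly.
-/

set_option linter.unusedSectionVars false

namespace Pool.Agent.Lib.MP_788af2_nt.AG

open Polynomial Filter Topology Pool.Agent.Lib.MP_788af2_nt.AS Pool.Agent.Lib.MP_a3f657_nt.Two

variable {K k κ : Type} [NontriviallyNormedField K] [IsUltrametricDist K] [CompleteSpace K]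
  [CharZero K] [Field k] [Fintype k] [CharP k 2] [Field κ] [CharP κ 2] [IsAlgClosed κ]

lemma finite_Jt : Finite (Jt k κ) := by
  classical
  have hne : (X ^ Fintype.card k - X : κ[X]) ≠ 0 :=
    FiniteField.X_pow_card_sub_X_ne_zero κ Fintype.one_lt_card
  let f : Jt k κ → (k → (X ^ Fintype.card k - X : κ[X]).roots.toFinset) := fun j c => ⟨j c, by
    rw [Multiset.mem_toFinset, mem_roots hne]
    simp [IsRoot, ← map_pow, FiniteField.pow_card]⟩
  exact Finite.of_injective f fun j j' h =>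
    RingHom.ext fun c => congrArg Subtype.val (congrFun h c)

lemma finite_Zt {b : k[X]} (hb : b ≠ 0) : Finite (Zt κ b) := by
  classical
  have : Finite (Jt k κ) := finite_Jt
  have h : {x : Jt k κ × κ | (b.map x.1).IsRoot x.2}.Finite := by
    refine Set.Finite.subset (Set.finite_iUnion fun j : Jt k κ =>
      ((b.map j).roots.toFinset.finite_toSet.image fun y => (j, y))) ?_
    rintro ⟨j, y⟩ hy
    refine Set.mem_iUnion.2 ⟨j, y, ?_, rfl⟩
    rw [Finset.mem_coe, Multiset.mem_toFinset, mem_roots (Polynomial.map_ne_zero hb)]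
    exact hy
  exact h.to_subtype

/-- Frobenius on the embeddings. -/
noncomputable def geFrJ (j : Jt k κ) : Jt k κ := (frobenius κ 2).comp j

lemma ge_frJ_apply (j : Jt k κ) (c : k) : geFrJ j c = j c ^ 2 := rfl

lemma ge_isRoot_frJ (v : k[X]) (j : Jt k κ) (x : κ) :
    (v.map (geFrJ j)).IsRoot (x ^ 2) ↔ (v.map j).IsRoot x := by
  rw [geFrJ, ← Polynomial.map_map]
  exact isRoot_map_iff (frobenius κ 2).injective

/-- Frobenius on the roots. -/
noncomputable def geFrZ {b : k[X]} (z : Zt κ b) : Zt κ b :=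
  ⟨(geFrJ z.1.1, z.1.2 ^ 2), (ge_isRoot_frJ b _ _).2 z.2⟩

lemma ge_frJ_inj : Function.Injective (geFrJ : Jt k κ → Jt k κ) := fun _ _ h =>
  RingHom.ext fun c => (frobenius κ 2).injective (DFunLike.congr_fun h c)

lemma ge_frZ_inj {b : k[X]} : Function.Injective (geFrZ : Zt κ b → Zt κ b) := fun z z' h => by
  have h1 := congrArg Subtype.val h
  exact Subtype.ext (Prod.ext (ge_frJ_inj (congrArg Prod.fst h1))
    ((frobenius κ 2).injective (congrArg Prod.snd h1)))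

/-- The multiplicity of a root. -/
noncomputable def geN {b : k[X]} (z : Zt κ b) : ℕ := (b.map z.1.1).rootMultiplicity z.1.2

lemma ge_nZ_pos {b : k[X]} (hb : b ≠ 0) (z : Zt κ b) : 0 < geN z :=
  (rootMultiplicity_pos (Polynomial.map_ne_zero hb)).2 z.2

lemma ge_nZ_frZ {b : k[X]} (z : Zt κ b) : geN (geFrZ z) = geN z := by
  have h := eq_rootMultiplicity_map (p := b.map z.1.1) (frobenius κ 2).injective z.1.2
  rw [Polynomial.map_map] at h
  exact h.symm

lemma ge_sum_nZ {b : k[X]} (hb : b ≠ 0) [Fintype (Zt κ b)] [DecidableEq (Jt k κ)] (j : Jt k κ) :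
    ∑ z ∈ Finset.univ.filter (fun z : Zt κ b => z.1.1 = j), geN z = b.natDegree := by
  classical
  have hj : b.map j ≠ 0 := Polynomial.map_ne_zero hb
  rw [← IsAlgClosed.card_roots_map_eq_natDegree_from_simpleRing j b,
    ← Multiset.toFinset_sum_count_eq]
  refine Finset.sum_bij (fun z _ => z.1.2) ?_ ?_ ?_ ?_
  · intro z hz
    rw [Multiset.mem_toFinset, mem_roots hj, ← (Finset.mem_filter.1 hz).2]
    exact z.2
  · intro z hz z' hz' h
    exact Subtype.ext (Prod.ext ((Finset.mem_filter.1 hz).2.trans (Finset.mem_filter.1 hz').2.symm) h)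
  · intro y hy
    rw [Multiset.mem_toFinset, mem_roots hj] at hy
    exact ⟨⟨(j, y), hy⟩, Finset.mem_filter.2 ⟨Finset.mem_univ _, rfl⟩, rfl⟩
  · intro z hz
    rw [count_roots, ← (Finset.mem_filter.1 hz).2]
    rfl

lemma Lift.ge_norm (ℓ : Lift K κ) {x : κ} (hx : x ≠ 0) : ‖ℓ.τ x‖ = 1 := by
  have h1 := ℓ.τ_le x
  have h2 := ℓ.τ_le x⁻¹
  have h3 : ‖ℓ.τ x‖ * ‖ℓ.τ x⁻¹‖ = 1 := by
    rw [← norm_mul, ← map_mul, mul_inv_cancel₀ hx, map_one, norm_one]
  nlinarith [norm_nonneg (ℓ.τ x), norm_nonneg (ℓ.τ x⁻¹)]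

lemma Lift.ge_norm_sub (ℓ : Lift K κ) {x y : κ} (h : x ≠ y) : ‖ℓ.τ x - ℓ.τ y‖ = 1 := by
  have h1 : ‖ℓ.τ x - ℓ.τ y‖ ≤ 1 := by
    rw [sub_eq_add_neg]
    refine (IsUltrametricDist.norm_add_le_max _ _).trans (max_le (ℓ.τ_le x) ?_)
    rw [norm_neg]
    exact ℓ.τ_le y
  have h2 := ℓ.red_add _ _ h1 (ℓ.τ_le y)
  rw [sub_add_cancel, ℓ.red_τ, ℓ.red_τ] at h2
  have h3 : ¬ ‖ℓ.τ x - ℓ.τ y‖ ≤ 1 / 2 := fun h3 => by
    rw [(ℓ.red_eq_zero _ h1).2 h3, zero_add] at h2
    exact h h2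
  have h4 : ℓ.τ x - ℓ.τ y ≠ 0 := fun h4 => h3 (by rw [h4, norm_zero]; norm_num)
  obtain ⟨n, hn⟩ := ℓ.disc _ h4
  rw [hn] at h1 h3 ⊢
  have a1 : n ≤ 0 := by
    rw [← zpow_le_zpow_iff_right₀ (one_lt_two (α := ℝ)), zpow_zero]
    exact h1
  have a2 : ¬ n ≤ -1 := fun a2 => h3 (by
    rw [one_div, ← zpow_neg_one]
    exact zpow_le_zpow_right₀ one_le_two a2)
  rw [show n = 0 by omega, zpow_zero]

lemma ge_hom_orbit {F : Type} [Field F] [Finite F] (φ ψ : F →+* κ) :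
    ∃ m : ℕ, ∀ x, ψ x = φ x ^ 2 ^ m := by
  have : CharP F 2 := φ.charP φ.injective 2
  let : Algebra (ZMod 2) F := ZMod.algebra F 2
  let : Algebra (ZMod 2) κ := ZMod.algebra κ 2
  let : Algebra F κ := φ.toAlgebra
  have : IsScalarTower (ZMod 2) F κ := IsScalarTower.of_algebraMap_eq' (Subsingleton.elim _ _)
  let ψ' : F →ₐ[ZMod 2] κ := { ψ with
    commutes' := fun r => DFunLike.congr_fun
      (Subsingleton.elim (ψ.comp (algebraMap (ZMod 2) F)) (algebraMap (ZMod 2) κ)) r }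
  obtain ⟨m, hm⟩ := FiniteField.exists_forall_apply_eq_pow (ZMod 2) 2 F (ψ'.restrictNormal' F)
  refine ⟨m, fun x => ?_⟩
  have h1 : algebraMap F κ (ψ'.restrictNormal F x) = ψ' (algebraMap F F x) :=
    AlgHom.restrictNormal_commutes ψ' F x
  have h2 : ψ'.restrictNormal F x = x ^ Nat.card (ZMod 2) ^ m := hm x
  rw [h2, Nat.card_zmod, map_pow] at h1
  exact h1.symm

lemma ge_frZ_iterate {b : k[X]} (z : Zt κ b) (m : ℕ) :
    (∀ c, (geFrZ^[m] z).1.1 c = z.1.1 c ^ 2 ^ m) ∧ (geFrZ^[m] z).1.2 = z.1.2 ^ 2 ^ m := by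
  induction m with
  | zero => simp
  | succ m ih =>
    rw [Function.iterate_succ_apply']
    refine ⟨fun c => ?_, ?_⟩
    · rw [pow_succ, pow_mul, ← ih.1 c]
      rfl
    · rw [pow_succ, pow_mul, ← ih.2]
      rfl

lemma ge_root_orbit {b v : k[X]} (hv : Irreducible v) (z z' : Zt κ b)
    (h : (v.map z.1.1).IsRoot z.1.2) (h' : (v.map z'.1.1).IsRoot z'.1.2) :
    ∃ m : ℕ, z' = geFrZ^[m] z := by
  have : Fact (Irreducible v) := ⟨hv⟩
  have : Module.Finite k (AdjoinRoot v) := (AdjoinRoot.powerBasis hv.ne_zero).finite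
  have : Finite (AdjoinRoot v) := Module.finite_of_finite k
  rw [IsRoot, eval_map] at h h'
  obtain ⟨m, hm⟩ := ge_hom_orbit (AdjoinRoot.lift _ _ h) (AdjoinRoot.lift _ _ h')
  refine ⟨m, Subtype.ext (Prod.ext (RingHom.ext fun c => ?_) ?_)⟩
  · rw [(ge_frZ_iterate z m).1 c]
    simpa only [AdjoinRoot.lift_of] using hm (AdjoinRoot.of v c)
  · rw [(ge_frZ_iterate z m).2]
    simpa only [AdjoinRoot.lift_root] using hm (AdjoinRoot.root v)

lemma ge_exists_root_over {b v : k[X]} (hv : Irreducible v) (hvb : v ∣ b) :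
    ∃ z : Zt κ b, (v.map z.1.1).IsRoot z.1.2 := by
  let : Algebra (ZMod 2) k := ZMod.algebra k 2
  let : Algebra (ZMod 2) κ := ZMod.algebra κ 2
  let j : k →+* κ := (IsAlgClosed.lift : k →ₐ[ZMod 2] κ).toRingHom
  obtain ⟨x, hx⟩ := IsAlgClosed.exists_root (v.map j) (by
    rw [degree_map]
    exact (degree_pos_of_irreducible hv).ne')
  exact ⟨⟨(j, x), hx.dvd (Polynomial.map_dvd j hvb)⟩, hx⟩

lemma ge_root_unique {v w : k[X]} (hv : Irreducible v) (hv' : v.Monic) (hw : Irreducible w)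
    (hw' : w.Monic) (j : Jt k κ) (x : κ) (h : (v.map j).IsRoot x) (h' : (w.map j).IsRoot x) :
    v = w := by
  by_contra hne
  have hc : IsCoprime v w := by
    refine (hv.coprime_iff_not_dvd).2 fun hd => hne ?_
    exact eq_of_monic_of_associated hv' hw' (hv.associated_of_dvd hw hd)
  obtain ⟨a, c, hac⟩ := hc
  have h1 := congrArg (fun f : k[X] => (f.map j).eval x) hac
  simp only [Polynomial.map_add, Polynomial.map_mul, eval_add, eval_mul, h.eq_zero, h'.eq_zero,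
    mul_zero, add_zero, Polynomial.map_one, eval_one] at h1
  exact zero_ne_one h1

lemma ge_unif_pos {ι : Type} {T : Set ι} (hT : T.Finite) (p : ι → ℝ → Prop)
    (mono : ∀ i a c, a ≤ c → p i c → p i a) (h : ∀ i ∈ T, ∃ ε, 0 < ε ∧ p i ε) :
    ∃ ε : ℝ, 0 < ε ∧ ∀ i ∈ T, p i ε := by
  have h1 : ∀ᶠ ε in 𝓝[>] (0 : ℝ), ∀ i ∈ T, p i ε := (eventually_all_finite hT).2 fun i hi => by
    obtain ⟨ε, hε, hp⟩ := h i hi
    filter_upwards [Ioc_mem_nhdsGT hε] with a ha using mono i a ε ha.2 hp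
  obtain ⟨ε, h2, h3⟩ := (h1.and self_mem_nhdsWithin).exists
  exact ⟨ε, h3, h2⟩

lemma ge_exists_wt {W : Type} [Fintype W] (a : W → ℕ) (ha : ∀ v, 0 < a v) :
    ∃ (g : ℕ) (w : W → ℕ), 0 < g ∧ (∀ v, a v = g * w v) ∧ (Nonempty W → ∃ v, Odd (w v)) := by
  cases isEmpty_or_nonempty W with
  | inl h => exact ⟨1, a, one_pos, fun v => (one_mul _).symm, fun h' => (not_nonempty_iff.2 h h').elim⟩
  | inr h =>
    obtain ⟨w, h1, h2⟩ := Finset.extract_gcd a (Finset.univ_nonempty (α := W))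
    refine ⟨Finset.univ.gcd a, w, ?_, fun v => h1 v (Finset.mem_univ v), fun _ => ?_⟩
    · obtain ⟨v⟩ := h
      exact Nat.pos_of_dvd_of_pos (Finset.gcd_dvd (Finset.mem_univ v)) (ha v)
    · by_contra hne
      have h3 : 2 ∣ Finset.univ.gcd w := Finset.dvd_gcd fun v _ =>
        (Nat.not_odd_iff_even.1 fun ho => hne ⟨v, ho⟩).two_dvd
      rw [h2] at h3
      omega

open Matrix in
theorem ge_fin_comb (K : Type) [NormedField K] [IsUltrametricDist K] [CharZero K]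
    (Z W : Type) [Fintype Z] [DecidableEq Z] [Fintype W] [DecidableEq W] (σ : Equiv.Perm Z)
    (E : Matrix Z W ℤ) (R : Z → W → Prop) (h1 : ∀ z v, R z v → E z v = 1)
    (h0 : ∀ z v, ¬ R z v → E z v = 0) (hu : ∀ z v w, R z v → R z w → v = w)
    (hσ : ∀ z v, R (σ z) v ↔ R z v) (ho : ∀ z z' v, R z v → R z' v → ∃ m : ℕ, z' = σ^[m] z)
    (hex : ∀ v, ∃ z, R z v) (n : Z → ℕ) (hn : ∀ z, 0 < n z) (hnσ : ∀ z, n (σ z) = n z)
    (C ϑ : ℝ) (hϑ : 0 < ϑ) :
    ∃ wt : W → ℤ, (Nonempty W → ∃ v, Odd (wt v)) ∧ ∃ ε : ℝ, 0 < ε ∧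
      ∀ e : Z → ℤ, (∀ z, e z * e z = 1) → (∀ z, (∃ v, E z v = 1) → e z = 1) →
      (∀ z, ¬ (∃ v, E z v = 1) → ∀ x : Z → ℚ, (∀ z', x (σ z') = e z' * x z') → x z = 0) →
      ∀ c : K, c ≠ 0 → ‖c‖ ≤ ε → ∀ N Q' Φ Q NW : Matrix _ _ K,
      (∀ i j, ‖N i j‖ ≤ C) → (∀ i j, ‖Q' i j‖ ≤ C) →
      Φ = (Matrix.of fun z' z => if z' = σ z then e z else 0 : Matrix Z Z ℤ).map
        (Int.cast : ℤ → K) + (2 * c) • ((diagonal fun z => (n z : K)) * N) →
      Q = (diagonal fun z => (n z : K)) + c • Q' → Φ * Q * Φᵀ = Q →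
      NW = (E.map (Int.cast : ℤ → K))ᵀ * N * E.map (Int.cast : ℤ → K) →
      (∀ v w, ‖NW v w + NW w v‖ ≤ ϑ) ∧
        (ϑ < ‖Dl wt NW‖ → Φ.charpolyRev.rootMultiplicity 1 = Fintype.card W % 2) := by
  classical
  choose zv hzv using hex
  have hit : ∀ (m : ℕ) z, n (σ^[m] z) = n z ∧ ∀ v, R z v → R (σ^[m] z) v := fun m z => by
    induction m with
    | zero => exact ⟨rfl, fun _ h => h⟩
    | succ m ih =>
      rw [Function.iterate_succ_apply']
      exact ⟨(hnσ _).trans ih.1, fun v h => (hσ _ _).2 (ih.2 v h)⟩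
  have hd : ∀ v, 0 < (Finset.univ.filter fun z => R z v).card := fun v =>
    Finset.card_pos.2 ⟨zv v, Finset.mem_filter.2 ⟨Finset.mem_univ _, hzv v⟩⟩
  obtain ⟨g, w, hg, hw, hodd⟩ := ge_exists_wt (fun v => (Finset.univ.filter fun z => R z v).card *
    ∏ u ∈ Finset.univ.erase v, n (zv u))
    fun v => Nat.mul_pos (hd v) (Finset.prod_pos fun u _ => hn _)
  refine ⟨fun v => w v, fun h => (hodd h).imp fun v hv => hv.natCast, ?_⟩
  have hT : {e : Z → ℤ | ∀ z, e z * e z = 1}.Finite :=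
    Set.Finite.pi' (t := fun _ => {a : ℤ | a * a = 1}) fun _ =>
      (Set.toFinite ({1, -1} : Set ℤ)).subset fun a ha => mul_self_eq_one_iff.1 ha
  refine ge_unif_pos hT _ (fun e a c hac hp p1 p2 c' hc0 hc => hp p1 p2 c' hc0 (hc.trans hac))
    fun e he => ?_
  by_cases hh : (∀ z, (∃ v, E z v = 1) → e z = 1) ∧
      ∀ z, ¬ (∃ v, E z v = 1) → ∀ x : Z → ℚ, (∀ z', x (σ z') = e z' * x z') → x z = 0
  swap
  · exact ⟨1, one_pos, fun p1 p2 => (hh ⟨p1, p2⟩).elim⟩
  obtain ⟨p1, p2⟩ := hh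
  have hrow : ∀ {F : Type} [Ring F] (f : ℤ → F) (_ : f 0 = 0) (y : Z → F) z,
      ∑ u, f (if σ z = σ u then e u else 0) * y u = f (e z) * y z := fun f hf y z => by
    rw [Finset.sum_eq_single z, if_pos rfl]
    · intro u _ hu
      rw [if_neg fun h => hu (σ.injective h).symm, hf, zero_mul]
    · exact fun h => (h (Finset.mem_univ _)).elim
  have hs : ∀ {F : Type} [Ring F] (f : ℤ → F) (_ : f 0 = 0) (y : W → F) z v, R z v →
      ∑ u, f (E z u) * y u = f 1 * y v := fun f hf y z v hv => by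
    rw [Finset.sum_eq_single v, h1 z v hv]
    · intro u _ huv
      rw [h0 z u fun h => huv (hu z u v h hv), hf, zero_mul]
    · exact fun h => (h (Finset.mem_univ _)).elim
  refine (fin_alg K Z W (Matrix.of fun z' z => if z' = σ z then e z else 0) ?_ E
    (fun v => (Finset.univ.filter fun z => R z v).card) hd ?_ ?_ ?_ n (fun v => n (zv v))
    (fun v => hn _) hn ?_ ?_ (fun v => w v) g (∏ u, n (zv u)) hg
    (Finset.prod_pos fun u _ => hn _) ?_ C ϑ hϑ).imp fun ε h => ⟨h.1, fun _ _ => h.2⟩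
  · ext a a'
    obtain ⟨z, rfl⟩ := σ.surjective a
    rw [Matrix.mul_apply]
    refine (hrow id rfl (fun u => if a' = σ u then e u else 0) z).trans ?_
    rw [one_apply]
    by_cases h : σ z = a'
    · rw [if_pos h, if_pos h.symm]
      exact he z
    · rw [if_neg h, if_neg fun h' => h h'.symm, mul_zero]
  · ext v u
    rw [Matrix.mul_apply, diagonal_apply, Finset.card_filter, Nat.cast_sum]
    split_ifs with h
    · subst h
      refine Finset.sum_congr rfl fun z _ => ?_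
      rw [transpose_apply]
      split_ifs with hz
      · rw [h1 z v hz]
        rfl
      · rw [h0 z v hz]
        rfl
    · refine Finset.sum_eq_zero fun z _ => ?_
      rw [transpose_apply]
      by_cases hz : R z v
      · rw [h0 z u fun h' => h (hu z v u hz h'), mul_zero]
      · rw [h0 z v hz, zero_mul]
  · ext a v
    obtain ⟨z, rfl⟩ := σ.surjective a
    rw [Matrix.mul_apply]
    refine (hrow id rfl (fun u => E u v) z).trans ?_
    by_cases hz : R z v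
    · rw [p1 z ⟨v, h1 z v hz⟩, h1 z v hz, h1 _ v ((hσ z v).2 hz)]
      rfl
    · rw [h0 z v hz, h0 _ v fun h => hz ((hσ z v).1 h), mul_zero]
  · intro x hx
    have hx' : ∀ z, x (σ z) = e z * x z := fun z =>
      (congrFun hx (σ z)).symm.trans (hrow (Int.cast : ℤ → ℚ) Int.cast_zero x z)
    refine ⟨fun v => x (zv v), funext fun z => ?_⟩
    by_cases hz : ∃ v, R z v
    · obtain ⟨v, hv⟩ := hz
      refine Eq.trans ?_ (hs (Int.cast : ℤ → ℚ) Int.cast_zero (fun v => x (zv v)) z v hv).symm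
      obtain ⟨m, rfl⟩ := ho _ _ v (hzv v) hv
      rw [Int.cast_one, one_mul]
      clear hv
      induction m with
      | zero => rfl
      | succ m ih =>
        rw [Function.iterate_succ_apply', hx', ih,
          p1 _ ⟨v, h1 _ v ((hit m _).2 v (hzv v))⟩, Int.cast_one, one_mul]
    · have hz' : ∀ v, E z v = 0 := fun v => h0 z v fun h => hz ⟨v, h⟩
      rw [p2 z (fun ⟨v, hv⟩ => zero_ne_one ((hz' v).symm.trans hv)) x hx']
      refine (Finset.sum_eq_zero fun v _ => ?_).symm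
      change ((E z v : ℤ) : ℚ) * x (zv v) = 0
      rw [hz' v, Int.cast_zero, zero_mul]
  · ext a z
    rw [diagonal_mul, mul_diagonal, of_apply]
    split_ifs with h
    · rw [h, hnσ, mul_comm]
    · rw [mul_zero, zero_mul]
  · ext z v
    rw [diagonal_mul, mul_diagonal]
    by_cases hz : R z v
    · obtain ⟨m, hm⟩ := ho _ _ v (hzv v) hz
      rw [mul_comm, hm, (hit m _).1]
    · rw [h0 z v hz, mul_zero, zero_mul]
  · intro v
    have h2 := hw v
    rw [← Finset.mul_prod_erase Finset.univ (fun u => n (zv u)) (Finset.mem_univ v)]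
    have h3 : w v * n (zv v) * g = n (zv v) * (∏ u ∈ Finset.univ.erase v, n (zv u)) *
        (Finset.univ.filter fun z => R z v).card := by
      rw [mul_assoc (n (zv v)), mul_comm _ (Finset.card _), h2]
      ring
    exact_mod_cast h3

variable [Fintype (Jt k κ)] [DecidableEq (Jt k κ)] [DecidableEq k[X]]

theorem exists_geo (ℓ : Lift K κ) {b : k[X]} (hb : b ≠ 0) [Fintype (Zt κ b)] (p : Pm) (o : One K)
    (i : ℕ) (hi : 2 ≤ i) (hm : p.m = 2 ^ i * b.natDegree) :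
    ∃ (q : Geo K (Jt k κ) (Zt κ b)) (L : Lnk q ℓ b), q.p = p ∧ q.i = i ∧ L.Std := by
  refine ⟨{ p := p
            o := o
            σ := Equiv.ofBijective geFrJ (Finite.injective_iff_bijective.1 ge_frJ_inj)
            σZ := Equiv.ofBijective geFrZ (Finite.injective_iff_bijective.1 ge_frZ_inj)
            jz := fun z => z.1.1
            β := fun z => ℓ.τ z.1.2
            n := geN
            i := i
            u := fun j => ℓ.τ (j (b.leadingCoeff ^ 2 ^ (i + 1)))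
            u_norm := fun j => ℓ.ge_norm
              ((map_ne_zero j).2 (pow_ne_zero _ (leadingCoeff_ne_zero.2 hb)))
            u_σ := fun j => map_pow ℓ.τ (j (b.leadingCoeff ^ 2 ^ (i + 1))) 2
            two := ℓ.two
            jz_σ := fun _ => rfl
            β_σ := fun z => map_pow ℓ.τ z.1.2 2
            β_le := fun z => ℓ.τ_le _
            β_sep := fun z z' hz hj => ℓ.ge_norm_sub fun h => hz (Subtype.ext (Prod.ext hj h))
            n_pos := ge_nZ_pos hb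
            n_σ := ge_nZ_frZ
            deg := fun j => by
              rw [← Finset.mul_sum, ge_sum_nZ hb, hm]
              ring
            i_ge := hi },
    { emb := Equiv.refl _
      rt := fun z => z.1.2
      emb_σ := fun _ _ => rfl
      β_eq := fun _ => rfl
      rt_σ := fun _ => rfl
      inj := fun z z' h h' => Subtype.ext (Prod.ext h h')
      surj := fun j x h => ⟨⟨(j, x), h⟩, rfl, rfl⟩
      mult := fun _ => rfl
      ne := hb
      u_eq := fun _ => rfl }, rfl, rfl, rfl, fun _ => rfl, fun _ => rfl⟩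

/-- The smallness holds for large Frobenius powers. -/
theorem exists_sm (ℓ : Lift K κ) {b : k[X]} (hb : b ≠ 0) [Fintype (Zt κ b)] {s : ℝ} (hs : 0 < s) :
    ∃ i₀ : ℕ, ∀ (q : Geo K (Jt k κ) (Zt κ b)) (L : Lnk q ℓ b), i₀ ≤ q.i → q.Sm s := by
  have h1 : ∀ᶠ i : ℕ in atTop, ∀ n ∈ Finset.Icc 1 b.natDegree, (1 / 2 : ℝ) ^ i ≤ s * ‖(n : K)‖ := by
    refine (eventually_all_finset _).2 fun n hn => ?_
    have h0 : 0 < s * ‖(n : K)‖ := mul_pos hs (norm_pos_iff.2 (Nat.cast_ne_zero.2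
      (by have := (Finset.mem_Icc.1 hn).1; omega)))
    exact (tendsto_pow_atTop_nhds_zero_of_lt_one (by norm_num) (by norm_num)).eventually
      (ge_mem_nhds h0)
  obtain ⟨i₀, hi⟩ := eventually_atTop.1 h1
  refine ⟨i₀, fun q L hq z => ?_⟩
  rw [Geo.c0, norm_pow, ℓ.two]
  refine hi _ (by omega) _ (Finset.mem_Icc.2 ⟨q.n_pos z, ?_⟩)
  have h2 := natDegree_le_of_dvd (pow_rootMultiplicity_dvd (b.map (L.emb (q.jz z))) (L.rt z))
    (Polynomial.map_ne_zero hb)
  rw [natDegree_pow, natDegree_X_sub_C, mul_one, natDegree_map] at h2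
  rw [L.mult z]
  exact h2

theorem fin_alg2 (ℓ : Lift K κ) {b : k[X]} (hb : b ≠ 0) [Fintype (Zt κ b)] [DecidableEq (Zt κ b)]
    (C ϑ : ℝ) (hϑ : 0 < ϑ) :
    ∃ ε : ℝ, 0 < ε ∧ ∀ S : Finset k[X], (∀ v ∈ S, Irreducible v ∧ v.Monic ∧ v ∣ b) →
      ∃ wt : S → ℤ, (Nonempty S → ∃ v, Odd (wt v)) ∧
      ∀ (d : Dat K K (Jt k κ) (Zt κ b)) (L : Lnk d.toGeo ℓ b), L.Std →
      (∀ z, (∃ v, L.Em S z v = 1) → d.ε z = 1) →
      (∀ z, ¬ (∃ v, L.Em S z v = 1) →
        ∀ x : Zt κ b → ℚ, (∀ z', x (d.σZ z') = d.ε z' * x z') → x z = 0) →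
      ‖d.c0‖ ≤ ε → ∀ (N Q' : Matrix (Zt κ b) (Zt κ b) K) (NW : Matrix S S K),
      (∀ i j, ‖N i j‖ ≤ C) → (∀ i j, ‖Q' i j‖ ≤ C) →
      d.Φ N * ((Matrix.diagonal fun z => (d.n z : K)) + d.c0 • Q') * (d.Φ N).transpose =
        (Matrix.diagonal fun z => (d.n z : K)) + d.c0 • Q' →
      NW = ((L.Em S).map (Int.cast : ℤ → K)).transpose * N * (L.Em S).map (Int.cast : ℤ → K) →
      (∀ v w, ‖NW v w + NW w v‖ ≤ ϑ) ∧
        (ϑ < ‖Dl wt NW‖ → (d.Φ N).charpolyRev.rootMultiplicity 1 = S.card % 2) := by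
  have hT : {S : Finset k[X] | ∀ v ∈ S, Irreducible v ∧ v.Monic ∧ v ∣ b}.Finite := by
    have h1 : {v : k[X] | v.Monic ∧ v ∣ b}.Finite :=
      Set.finite_coe_iff.1 (@Finite.of_fintype _ (fintypeSubtypeMonicDvd b hb))
    exact (h1.finite_subsets.preimage Finset.coe_injective.injOn).subset
      fun S hS v hv => (hS v hv).2
  refine ge_unif_pos hT _ (fun S a c hac hp => hp.imp fun wt hw =>
    ⟨hw.1, fun d L h0 h1 h2 hc => hw.2 d L h0 h1 h2 (hc.trans hac)⟩) fun S hS => ?_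
  classical
  obtain ⟨wt, hwt, ε, hε, H⟩ := ge_fin_comb K (Zt κ b) S
    (Equiv.ofBijective geFrZ (Finite.injective_iff_bijective.1 ge_frZ_inj))
    (Matrix.of fun z v => if (v.1.map z.1.1).IsRoot z.1.2 then 1 else 0)
    (fun z v => (v.1.map z.1.1).IsRoot z.1.2) (fun z v h => if_pos h) (fun z v h => if_neg h)
    (fun z v w h h' => Subtype.ext (ge_root_unique (hS _ v.2).1 (hS _ v.2).2.1 (hS _ w.2).1
      (hS _ w.2).2.1 _ _ h h'))
    (fun z v => ge_isRoot_frJ _ _ _) (fun z z' v h h' => ge_root_orbit (hS _ v.2).1 z z' h h')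
    (fun v => ge_exists_root_over (hS _ v.2).1 (hS _ v.2).2.2) geN (ge_nZ_pos hb) ge_nZ_frZ C ϑ hϑ
  refine ⟨ε, hε, wt, hwt, fun d L hL h1 h2 hc N Q' NW hN hQ hΦ hNW => ?_⟩
  obtain ⟨l1, l2, l3⟩ := hL
  have e0 : ∀ z, L.emb (d.jz z) = z.1.1 := fun z => by
    rw [l1, l2]
    rfl
  have e1 : L.Em S = Matrix.of fun z v => if (v.1.map z.1.1).IsRoot z.1.2 then 1 else 0 := by
    ext z v
    simp only [Lnk.Em, Matrix.of_apply, e0, l3]
  have e2 : ∀ z, d.σZ z = geFrZ z := fun z => by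
    refine Subtype.ext (Prod.ext (RingHom.ext fun c => ?_) ?_)
    · rw [← e0, d.jz_σ, L.emb_σ, e0]
      rfl
    · rw [← l3, L.rt_σ, l3]
      rfl
  have e3 : d.n = geN := funext fun z => by
    rw [L.mult, e0, l3]
    rfl
  rw [e1] at h1 h2 hNW
  rw [← Fintype.card_coe S]
  refine H d.ε d.ε_sq h1 (fun z hz x hx => h2 z hz x fun z' => ?_) d.c0
    (pow_ne_zero _ two_ne_zero) hc N Q' _ _ NW hN hQ ?_ ?_ hΦ hNW
  · rw [e2]
    exact hx z'
  · rw [Dat.Φ, Dat.P, e3]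
    simp only [e2]
    rfl
  · rw [e3]

end Pool.Agent.Lib.MP_788af2_nt.AG
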