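import Pool.Agent.Lib.MP_788af2_nt.AG.ExpAux
import Pool.Agent.Lib.MP_788af2_nt.AG.Fred
import Pool.Agent.Lib.MP_788af2_nt.DW.Borel

/-!
Rationality (Borel-Dwork) and the order of vanishing.
-/

set_option linter.unusedSectionVars false

namespace Pool.Agent.Lib.MP_788af2_nt.AG

open Filter Topology

theorem zeta_fintype {Y : Type} [Finite Y] (F : Y → Y) :
    ∃ D : PowerSeries ℤ, IsExp (fun n => (Set.ncard {x | F^[n] x = x} : ℤ)) D := by
  classical
  have := Fintype.ofFinite Y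
  let P : Matrix Y Y ℤ := Matrix.of fun y y' => if F y = y' then 1 else 0
  have hP : ∀ n y y', (P ^ n) y y' = if F^[n] y = y' then 1 else 0 := by
    intro n
    induction n with
    | zero => intro y y'; simp [Matrix.one_apply]
    | succ n ih =>
      intro y y'
      rw [pow_succ', Matrix.mul_apply, Finset.sum_eq_single (F y) (fun b _ hb => by
        simp [P, hb.symm]) (by simp)]
      simp [P, ih]
  have h1 := isExp_charpolyRev P
  refine ⟨_, (h1.inv (PowerSeries.mul_invOfUnit _ 1 h1.1)).congr fun n _ => ?_⟩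
  rw [neg_neg, Matrix.trace]
  simp only [Matrix.diag, hP]
  rw [Finset.sum_boole, ← Set.ncard_coe_finset]
  simp

/-- The zeta function of a self-map is integral. -/
theorem zeta_int {X : Type} (F : X → X) (h : ∀ n, 1 ≤ n → {x | F^[n] x = x}.Finite) :
    ∃ D : PowerSeries ℤ, IsExp (fun n => (Set.ncard {x | F^[n] x = x} : ℤ)) D := by
  refine exists_isExp_of_forall fun N => ?_
  let S : Set X := ⋃ n ∈ Set.Icc 1 N, {x | F^[n] x = x}
  have hS : S.Finite := (Set.finite_Icc 1 N).biUnion fun n hn => h n hn.1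
  have hF : Set.MapsTo F S S := by
    intro x hx
    obtain ⟨n, hn, hx'⟩ := Set.mem_iUnion₂.mp hx
    refine Set.mem_iUnion₂.mpr ⟨n, hn, ?_⟩
    have hx'' : F^[n] x = x := hx'
    change F^[n] (F x) = F x
    rw [← Function.iterate_succ_apply, Function.iterate_succ_apply', hx'']
  have := hS.to_subtype
  obtain ⟨D, hD⟩ := zeta_fintype (hF.restrict F S S)
  refine ⟨_, D, hD, fun n h1 h2 => ?_⟩
  rw [Nat.cast_inj, ← Set.ncard_image_of_injective _ Subtype.val_injective]
  congr 1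
  ext x
  simp only [Set.mem_image, Set.mem_ofPred_eq, Set.MapsTo.iterate_restrict, Subtype.ext_iff,
    Set.MapsTo.val_restrict_apply]
  constructor
  · rintro ⟨y, hy, rfl⟩
    exact hy
  · intro hx
    exact ⟨⟨x, Set.mem_iUnion₂.mpr ⟨n, ⟨h1, h2⟩, hx⟩⟩, hx, rfl⟩

theorem one_le_abs_mul_norm {K : Type} [NormedField K] [IsUltrametricDist K]
    (h2 : ‖(2 : K)‖ = 1 / 2) (z : ℤ) (hz : z ≠ 0) : 1 ≤ |(z : ℝ)| * ‖(z : K)‖ := by
  obtain ⟨k, m, hm, hz'⟩ := Nat.exists_eq_two_pow_mul_odd (Int.natAbs_ne_zero.mpr hz)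
  have h1 : ‖(z : K)‖ = ‖((z.natAbs : ℕ) : K)‖ := by
    rcases Int.natAbs_eq z with h | h
    · conv_lhs => rw [h]
      simp only [Int.cast_natCast]
    · conv_lhs => rw [h]
      simp only [Int.cast_neg, Int.cast_natCast, norm_neg]
  have h3 : |(z : ℝ)| = ((z.natAbs : ℕ) : ℝ) := by rw [Nat.cast_natAbs, Int.cast_abs]
  have h4 : ‖((m : ℕ) : K)‖ = 1 := by
    obtain ⟨j, rfl⟩ := hm
    have h5 : ‖(2 : K) * j‖ < ‖(1 : K)‖ := by
      rw [norm_mul, h2, norm_one]
      have := IsUltrametricDist.norm_natCast_le_one K j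
      linarith
    push_cast
    rw [IsUltrametricDist.norm_add_eq_max_of_norm_ne_norm h5.ne, max_eq_right h5.le, norm_one]
  have h5 : (1 : ℝ) ≤ m := by exact_mod_cast hm.pos
  rw [h1, h3, hz']
  push_cast
  rw [norm_mul, norm_pow, h4, h2, mul_one, mul_right_comm, ← mul_pow]
  simpa using h5

theorem exponent_eq {K : Type} [NontriviallyNormedField K] {a : K} {m n : ℕ} {β η : K → K}
    (hβ : ContinuousAt β a) (hη : ContinuousAt η a) (hβ0 : β a ≠ 0) (hη0 : η a ≠ 0)
    (h : ∀ x, (x - a) ^ m * β x = (x - a) ^ n * η x) : m = n := by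
  have := (DW.rootMultiplicity_eq (P := (Polynomial.X - Polynomial.C a) ^ m)
    (Q := (Polynomial.X - Polynomial.C a) ^ n) (pow_ne_zero _ (Polynomial.X_sub_C_ne_zero a))
    hβ hη hβ0 hη0 (Eventually.of_forall fun x => by simpa using h x)).2
  rwa [Polynomial.rootMultiplicity_X_sub_C_pow, Polynomial.rootMultiplicity_X_sub_C_pow] at this

theorem exists_factor {q : ℚ} (hq : q ≠ 0) {P : Polynomial ℚ} (hP : P ≠ 0) :
    ∃ (a : ℕ) (P₁ : Polynomial ℚ), P = (1 - Polynomial.C q * Polynomial.X) ^ a * P₁ ∧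
      P₁.eval (1 / q) ≠ 0 := by
  obtain ⟨P₁, h1, h2⟩ := Polynomial.exists_eq_pow_rootMultiplicity_mul_and_not_dvd P hP (1 / q)
  refine ⟨P.rootMultiplicity (1 / q), Polynomial.C (-(1 / q)) ^ P.rootMultiplicity (1 / q) * P₁,
    ?_, ?_⟩
  · rw [← mul_assoc, ← mul_pow]
    refine h1.trans ?_
    congr 2
    have : (Polynomial.C q * Polynomial.C (1 / q) : Polynomial ℚ) = 1 := by
      rw [← map_mul, mul_one_div_cancel hq, map_one]
    rw [map_neg]
    linear_combination (-Polynomial.X) * this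
  · rw [Polynomial.eval_mul, Polynomial.eval_pow, Polynomial.eval_C]
    exact mul_ne_zero (pow_ne_zero _ (by simpa using hq))
      fun h => h2 (Polynomial.dvd_iff_isRoot.mpr h)

theorem expand_coe {R : Type} [CommRing R] {f : ℕ} (hf : f ≠ 0) (P : Polynomial R) :
    PowerSeries.expand f hf (P : PowerSeries R) = (Polynomial.expand R f P : Polynomial R) := by
  ext n
  rw [PowerSeries.coeff_expand, Polynomial.coeff_coe, Polynomial.coeff_coe,
    Polynomial.coeff_expand (by omega)]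

theorem glue {K : Type} [NontriviallyNormedField K] [IsUltrametricDist K] [CompleteSpace K]
    [CharZero K] (h2 : ‖(2 : K)‖ = 1 / 2) {f : ℕ} (hf : 1 ≤ f) {s : ℕ → ℤ} {C : ℝ}
    (hs : ∀ n, 1 ≤ n → |(s n : ℝ)| ≤ C ^ n) (hint : ∃ D : PowerSeries ℤ, IsExp s D)
    {L : PowerSeries ℚ} (hL : IsExp (fun n => (s n : ℚ)) L)
    {Z J : Type} [Fintype Z] [DecidableEq Z] [Fintype J] [DecidableEq J]
    {Φ : Matrix Z Z K} {a : Matrix J J K} {tB tB₂ tM tM₂ : ℕ → K} {DB DB₂ DM DM₂ : PowerSeries K}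
    (htr : ∀ n, 1 ≤ n → (if f ∣ n then (f : K) * (s (n / f) : K) else 0) =
      -((2 ^ n - 1) * (2 ^ n * tB n - tM n)))
    (hB : ∀ n, 1 ≤ n → tB n = tB₂ n + (a ^ n).trace)
    (hM : ∀ n, 1 ≤ n → tM n = tM₂ n + 2 ^ n * (a ^ n).trace + 2 ^ n * (Φ ^ n).trace)
    (e₁ : Ent DB) (e₂ : Ent DB₂) (e₃ : Ent DM) (e₄ : Ent DM₂)
    (i₁ : IsExp (fun n => -tB n) DB) (i₂ : IsExp (fun n => -tB₂ n) DB₂)
    (i₃ : IsExp (fun n => -tM n) DM) (i₄ : IsExp (fun n => -tM₂ n) DM₂)
    (v₁ : val 2 DB ≠ 0) (v₂ : val 1 DB₂ ≠ 0) (v₃ : val 1 DM ≠ 0) (v₄ : val 2⁻¹ DM₂ ≠ 0) :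
    HasOrd (2 ^ f) L (Φ.charpolyRev.rootMultiplicity 1) := by
  obtain ⟨D, hD⟩ := hint
  have hf0 : f ≠ 0 := by omega
  have hC : 0 ≤ C := by simpa using (abs_nonneg _).trans (hs 1 le_rfl)
  have hLD : L = PowerSeries.map (Int.castRingHom ℚ) D :=
    hL.unique (hD.map (Int.castRingHom ℚ)) fun n _ => rfl
  set B : PowerSeries K := PowerSeries.rescale 2 DM * PowerSeries.rescale 2 DB₂ with hBdef
  set A : PowerSeries K := PowerSeries.rescale 4 DB * DM₂ with hAdef
  set χ : PowerSeries K := PowerSeries.rescale 2 (Φ.charpolyRev : PowerSeries K) with hχdef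
  have eB : DW.Entire B := (e₃.entire.rescale 2).mul (e₂.entire.rescale 2)
  have eA : DW.Entire A := (e₁.entire.rescale 4).mul e₄.entire
  have eχ : DW.Entire χ := (DW.entire_coe _).rescale 2
  have iB := (i₃.rescale 2).mul (i₂.rescale 2)
  have hid : PowerSeries.map (Int.castRingHom K) (PowerSeries.expand f hf0 D) * B = A * χ := by
    refine (((hD.expand hf0).map (Int.castRingHom K)).mul iB).unique
      (((i₁.rescale 4).mul i₄).mul ((isExp_charpolyRev Φ).rescale 2)) fun n hn => ?_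
    have h1 : (Int.castRingHom K) (if f ∣ n then (f : ℤ) * s (n / f) else 0) =
        if f ∣ n then (f : K) * (s (n / f) : K) else 0 := by
      split_ifs <;> simp
    have h4 : (4 : K) ^ n = 2 ^ n * 2 ^ n := by rw [← mul_pow]; norm_num
    rw [h1, htr n hn, h4]
    linear_combination (2 : K) ^ n * hB n hn - hM n hn
  have hgrow : ∀ n, |((PowerSeries.coeff n (PowerSeries.expand f hf0 D) : ℤ) : ℝ)| ≤
      max C 1 ^ n := by
    intro n
    rw [PowerSeries.coeff_expand]
    split_ifs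
    · exact (hD.abs_coeff_le hC hs _).trans ((pow_le_pow_left₀ hC (le_max_left _ _) _).trans
        (pow_le_pow_right₀ (le_max_right _ _) (Nat.div_le_self _ _)))
    · simp only [Int.cast_zero, abs_zero]
      positivity
  obtain ⟨P₀, Q₀, hQ₀, h0⟩ := DW.borel_dwork (one_le_abs_mul_norm h2) _ (le_max_right C 1) hgrow
    (A * χ) B (isExp_iff.mp iB).1 hid (eA.mul eχ) eB
  obtain ⟨P, Q, hQ, hPQ⟩ := rational_of_expand hf0 hQ₀ h0
  have hD0 : D ≠ 0 := by
    rintro rfl
    simpa using hD.1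
  have hP : P ≠ 0 := by
    rintro rfl
    exact mul_ne_zero hD0 (mt Polynomial.coe_eq_zero_iff.mp hQ) (by simpa using hPQ)
  have hq : ((2 ^ f : ℕ) : ℚ) ≠ 0 := by positivity
  have hinj : Function.Injective (Int.castRingHom ℚ) := Int.cast_injective
  obtain ⟨m, P₁, hP₁, hP₂⟩ := exists_factor hq ((Polynomial.map_ne_zero_iff hinj).mpr hP)
  obtain ⟨n, Q₁, hQ₁, hQ₂⟩ := exists_factor hq ((Polynomial.map_ne_zero_iff hinj).mpr hQ)
  have hχ0 : Φ.charpolyRev ≠ 0 := fun h => by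
    have := Matrix.eval_charpolyRev (M := Φ)
    rw [h] at this
    simp at this
  obtain ⟨χ₁, hχ₁, hχ₂⟩ := Polynomial.exists_eq_pow_rootMultiplicity_mul_and_not_dvd _ hχ0 1
  set r := Φ.charpolyRev.rootMultiplicity 1 with hr
  have hLQ : L * (Q.map (Int.castRingHom ℚ) : Polynomial ℚ) =
      (P.map (Int.castRingHom ℚ) : Polynomial ℚ) := by
    rw [hLD, Polynomial.polynomial_map_coe, Polynomial.polynomial_map_coe, ← map_mul, hPQ]
  have hval : ∀ x : K, Polynomial.aeval (x ^ f) P * DW.ev x B =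
      Polynomial.aeval (x ^ f) Q * (DW.ev x A * Φ.charpolyRev.eval (2 * x)) := by
    intro x
    have h1 : ∀ T : Polynomial ℤ, PowerSeries.map (Int.castRingHom K)
        (PowerSeries.expand f hf0 (T : PowerSeries ℤ)) =
        ((Polynomial.expand ℤ f T).map (Int.castRingHom K) : Polynomial K) := fun T => by
      rw [expand_coe, Polynomial.polynomial_map_coe]
    have h3 : ∀ T : Polynomial ℤ, ((Polynomial.expand ℤ f T).map (Int.castRingHom K)).eval x =
        Polynomial.aeval (x ^ f) T := fun T => by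
      rw [Polynomial.map_expand, Polynomial.expand_eval, Polynomial.eval_map, Polynomial.aeval_def]
      rfl
    have h4 : (((Polynomial.expand ℤ f P).map (Int.castRingHom K) : Polynomial K) :
        PowerSeries K) * B =
        (((Polynomial.expand ℤ f Q).map (Int.castRingHom K) : Polynomial K) : PowerSeries K) *
          (A * χ) := by
      rw [← h1, ← h1, ← hPQ, ← hid, map_mul, map_mul]
      ring
    have h5 := congrArg (DW.ev x) h4
    rwa [DW.ev_mul (DW.entire_coe _) eB, DW.ev_mul (DW.entire_coe _) (eA.mul eχ),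
      DW.ev_mul eA eχ, DW.ev_coe, DW.ev_coe, h3, h3, hχdef, DW.ev_rescale, DW.ev_coe] at h5
  have h20 : (2 : K) ≠ 0 := two_ne_zero
  let u : K → K := fun x => -2 * ∑ i ∈ Finset.range f, (2 * x) ^ i
  have hu : ∀ x : K, 1 - 2 ^ f * x ^ f = (x - 2⁻¹) * u x := by
    intro x
    have h1 := mul_geom_sum (2 * x) f
    have h3 : (2 : K)⁻¹ * 2 = 1 := inv_mul_cancel₀ h20
    simp only [u]
    rw [← mul_pow]
    linear_combination h1 - (∑ i ∈ Finset.range f, (2 * x) ^ i) * h3
  have hu0 : u 2⁻¹ ≠ 0 := by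
    simp only [u, mul_inv_cancel₀ h20, one_pow, Finset.sum_const, Finset.card_range, nsmul_eq_mul,
      mul_one]
    exact mul_ne_zero (neg_ne_zero.mpr h20) (Nat.cast_ne_zero.mpr hf0)
  have huc : Continuous u := by fun_prop
  have hfac : ∀ (T : Polynomial ℤ) (k : ℕ) (T₁ : Polynomial ℚ), T.map (Int.castRingHom ℚ) =
      (1 - Polynomial.C ((2 ^ f : ℕ) : ℚ) * Polynomial.X) ^ k * T₁ → ∀ x : K,
      Polynomial.aeval (x ^ f) T = (x - 2⁻¹) ^ k * (u x ^ k * Polynomial.aeval (x ^ f) T₁) := by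
    intro T k T₁ h x
    have h1 := congrArg (Polynomial.aeval (x ^ f)) h
    rw [show Int.castRingHom ℚ = algebraMap ℤ ℚ from rfl, Polynomial.aeval_map_algebraMap] at h1
    rw [h1, ← mul_assoc, ← mul_pow, ← hu]
    simp
  have hne : ∀ T₁ : Polynomial ℚ, T₁.eval (1 / ((2 ^ f : ℕ) : ℚ)) ≠ 0 →
      Polynomial.aeval ((2⁻¹ : K) ^ f) T₁ ≠ 0 := by
    intro T₁ h
    have h1 : (2⁻¹ : K) ^ f = algebraMap ℚ K (1 / ((2 ^ f : ℕ) : ℚ)) := by simp
    rw [h1, Polynomial.aeval_algebraMap_apply, Polynomial.coe_aeval_eq_eval]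
    exact (map_ne_zero _).mpr h
  have hcont : ∀ T₁ : Polynomial ℚ, Continuous fun x : K => Polynomial.aeval (x ^ f) T₁ :=
    fun T₁ => (T₁.continuous_aeval (A := K)).comp (continuous_pow f)
  have hmn : m = n + r := by
    refine exponent_eq (a := (2⁻¹ : K))
      (β := fun x => u x ^ m * Polynomial.aeval (x ^ f) P₁ * DW.ev x B)
      (η := fun x => u x ^ n * Polynomial.aeval (x ^ f) Q₁ *
        (DW.ev x A * (2 ^ r * χ₁.eval (2 * x))))
      (((huc.pow m).mul (hcont P₁)).mul eB.continuous_ev).continuousAt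
      (((huc.pow n).mul (hcont Q₁)).mul (eA.continuous_ev.mul (continuous_const.mul
        (χ₁.continuous.comp (continuous_const.mul continuous_id))))).continuousAt ?_ ?_ ?_
    · refine mul_ne_zero (mul_ne_zero (pow_ne_zero _ hu0) (hne _ hP₂)) ?_
      rw [hBdef, DW.ev_mul (e₃.entire.rescale 2) (e₂.entire.rescale 2), DW.ev_rescale,
        DW.ev_rescale, mul_inv_cancel₀ h20]
      exact mul_ne_zero v₃ v₂
    · refine mul_ne_zero (mul_ne_zero (pow_ne_zero _ hu0) (hne _ hQ₂)) (mul_ne_zero ?_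
        (mul_ne_zero (pow_ne_zero _ h20) ?_))
      · rw [hAdef, DW.ev_mul (e₁.entire.rescale 4) e₄.entire, DW.ev_rescale,
          show (4 : K) * 2⁻¹ = 2 by field_simp; norm_num]
        exact mul_ne_zero v₁ v₄
      · rw [mul_inv_cancel₀ h20]
        exact fun h => hχ₂ (Polynomial.dvd_iff_isRoot.mpr h)
    · intro x
      have h1 := hval x
      have h3 : (2 * x - 1) ^ r = 2 ^ r * (x - 2⁻¹) ^ r := by
        rw [← mul_pow, mul_sub, mul_inv_cancel₀ h20]
      rw [hfac P m P₁ hP₁, hfac Q n Q₁ hQ₁, hχ₁] at h1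
      simp only [Polynomial.eval_mul, Polynomial.eval_pow, Polynomial.eval_sub, Polynomial.eval_X,
        Polynomial.eval_C, h3] at h1
      linear_combination h1
  refine ⟨P₁, Q₁, hP₂, hQ₂, ?_⟩
  have hne' : (((1 - Polynomial.C ((2 ^ f : ℕ) : ℚ) * Polynomial.X) ^ n : Polynomial ℚ) :
      PowerSeries ℚ) ≠ 0 := by
    rw [Ne, Polynomial.coe_eq_zero_iff]
    refine pow_ne_zero _ fun h => ?_
    simpa using congrArg (Polynomial.eval 0) h
  apply mul_left_cancel₀ hne'
  rw [← Polynomial.coe_mul, ← mul_assoc, ← mul_assoc, ← pow_add, ← hmn, ← hP₁, ← hLQ, hQ₁,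
    Polynomial.coe_mul, mul_comm L]

end Pool.Agent.Lib.MP_788af2_nt.AG
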