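import Pool.Agent.Lib.MP_788af2_nt.AS.Greedy
import Pool.Agent.Lib.MP_788af2_nt.AG.Base

/-!
The greedy construction with one target for each block.
-/

set_option linter.unusedSectionVars false

namespace Pool.Agent.Lib.MP_788af2_nt.AG

open Pool.Agent.Lib.MP_788af2_nt.AS Matrix

open scoped Classical

/-- The cube pattern with one target for each block. -/
def Pat2 {I W : Type} [Fintype I] [DecidableEq I] {R : ℕ} (Bm : G I → Matrix W W (ZMod 2))
    (Mt : Fin R → Matrix W W (ZMod 2)) (ξ : Fin R → G I) : Prop :=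
  (∀ l, ∑ g, (ξ l ⬝ᵥ g) • Bm g = Mt l) ∧
    ∀ S : Finset (Fin R), 2 ≤ S.card → ∑ g, (∏ l ∈ S, ξ l ⬝ᵥ g) • Bm g = 0

lemma gr2_build {R : ℕ} {D : Fin R → ℕ} {Q : Type} [Fintype Q] {V : Type} [CommRing V]
    [CharP V 2] {Hh : G (Ix D) → Q → V} {ν : (G (Ix D) → Q → ZMod 2) → V →+ ZMod 2}
    (hν : ∀ w, grO Hh w ≠ 0 → ν w (grO Hh w) ≠ 0) (b : G (Ix D) → Q → ZMod 2)
    (μ : Fin R → V →+ ZMod 2)
    (hb : ∀ (m : Fin R) w, Meas m w → grO Hh w ≠ 0 →
      ¬ ∀ x ∈ grX Hh ν m, ∑ g, ∑ q, (x ⬝ᵥ g) * w g q * b g q = 0) (n : ℕ) :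
    n ≤ R → ∃ ξ : Fin R → G (Ix D), (∀ l : Fin R, l.val < n → ξ l ∈ grX Hh ν l) ∧
      ∀ S ⊆ grB R n, S.Nonempty → ∀ q, ∑ g, (∏ l ∈ S, ξ l ⬝ᵥ g) * b g q =
        if S.card = 1 then ∑ l ∈ S, μ l (∑ g, Hh g q) else 0 := by
  induction n with
  | zero =>
    refine fun _ => ⟨0, fun l hl => absurd hl (Nat.not_lt_zero _), fun S hS hne => ?_⟩
    obtain ⟨l, hl⟩ := hne
    exact absurd (gr_mem_B.1 (hS hl)) (Nat.not_lt_zero _)
  | succ n ih =>
    intro hn
    obtain ⟨ξ, hξ, hS⟩ := ih (by omega)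
    obtain ⟨x, hx, h⟩ := gr_step hν b (μ ⟨n, hn⟩) ⟨n, hn⟩ (hb _) hξ
    have hu : ∀ S : Finset (Fin R), (⟨n, hn⟩ : Fin R) ∉ S → ∀ g,
        ∏ l ∈ S, Function.update ξ ⟨n, hn⟩ x l ⬝ᵥ g = ∏ l ∈ S, ξ l ⬝ᵥ g := fun S hn' g =>
      Finset.prod_congr rfl fun l hl => by
        rw [Function.update_of_ne (ne_of_mem_of_not_mem hl hn')]
    refine ⟨Function.update ξ ⟨n, hn⟩ x, fun l hl => ?_, fun S hS' hne q => ?_⟩
    · by_cases e : l = ⟨n, hn⟩
      · subst e
        rwa [Function.update_self]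
      · rw [Function.update_of_ne e]
        exact hξ l (by rw [Fin.ext_iff] at e; simp only at e; omega)
    · rw [gr_B_succ hn] at hS'
      by_cases hm : (⟨n, hn⟩ : Fin R) ∈ S
      · obtain ⟨S', hn', rfl⟩ : ∃ S', (⟨n, hn⟩ : Fin R) ∉ S' ∧ S = insert ⟨n, hn⟩ S' :=
          ⟨S.erase _, Finset.notMem_erase _ _, (Finset.insert_erase hm).symm⟩
        have h1 : S' ⊆ grB R n := (Finset.subset_insert_iff_of_notMem hn').1
          ((Finset.subset_insert _ _).trans hS')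
        simp only [Finset.prod_insert hn', Function.update_self, hu S' hn']
        rw [h S' h1 q, Finset.card_insert_of_notMem hn']
        simp only [Nat.add_eq_right, Finset.card_eq_zero]
        split_ifs with e
        · subst e
          simp
        · rfl
      · simp only [hu S hm]
        exact hS S ((Finset.subset_insert_iff_of_notMem hm).1 hS') hne q

theorem greedy2 (N R : ℕ) (η : ℝ) (hη : 0 < η) : ∃ D : Fin R → ℕ, ∀ (W : Type) [Fintype W],
    Fintype.card W ≤ N → ∀ (V : Type) [CommRing V] [CharP V 2] (α : Type) (A : Finset α)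
    (Hh : G (Ix D) → W × W → V) (Bm : α → G (Ix D) → Matrix W W (ZMod 2)),
    (∀ (m : Fin R) (w : G (Ix D) → W × W → ZMod 2), Meas m w →
      ∑ g, ∑ q, zc V (w g q) * Hh g q ≠ 0 →
      ((Blk D m).filter fun ξ => ∑ a ∈ A, sg (∑ g, ∑ q, (ξ ⬝ᵥ g) * w g q * Bm a g q.1 q.2) ≠
        0).card * 2 ^ (D m / 2) ≤ 2 ^ D m) →
    ((A.filter fun a => ¬ ∀ μ : Fin R → V →+ ZMod 2, ∃ ξ : Fin R → G (Ix D),
      Pat2 (Bm a) (fun l => Matrix.of fun q q' => μ l (∑ g, Hh g (q, q'))) ξ).card : ℝ) ≤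
      η * A.card := by
  obtain ⟨L, hLd⟩ : ∃ L : ℕ → ℕ, ∀ s, L s = (2 ^ (N * N)) ^ 2 ^ s := ⟨_, fun _ => rfl⟩
  have hε : 0 < η / (R + 1) := by positivity
  choose f hf using fun s : ℕ => gr_exists ((L s : ℝ) * 2 ^ (L s * L s)) _ hε
  obtain ⟨s, hs⟩ : ∃ s : ℕ → ℕ, ∀ n, ∑ j ∈ Finset.range n, f (s j) = s n := by
    refine ⟨fun n => Nat.rec 0 (fun _ t => t + f t) n, fun n => ?_⟩
    induction n with
    | zero => rfl
    | succ n ih => rw [Finset.sum_range_succ, ih]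
  obtain ⟨D, hD⟩ : ∃ D : Fin R → ℕ, ∀ m, D m = f (s m.val) := ⟨_, fun _ => rfl⟩
  refine ⟨D, fun W _ hW V _ _ α A Hh Bm hyp => ?_⟩
  have hL : ∀ m : Fin R,
      Fintype.card {w : G (Ix D) → W × W → ZMod 2 // Meas m w} ≤ L (s m.val) := fun m => by
    refine (gr_card_Meas m).trans ?_
    have h1 : ∑ j ∈ Finset.univ.filter (· < m), D j ≤ s m.val := by
      rw [← hs]
      simp only [hD]
      refine (Finset.sum_map (Finset.univ.filter (· < m)) Fin.valEmbedding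
        fun j => f (s j)).symm.le.trans (Finset.sum_le_sum_of_subset fun j hj => ?_)
      obtain ⟨l, hl, rfl⟩ := Finset.mem_map.1 hj
      exact Finset.mem_range.2 (Finset.mem_filter.1 hl).2
    have h2 : Fintype.card (W × W → ZMod 2) ≤ 2 ^ (N * N) := by
      rw [Fintype.card_fun, ZMod.card, Fintype.card_prod]
      exact Nat.pow_le_pow_right two_pos (Nat.mul_le_mul hW hW)
    rw [hLd]
    exact (Nat.pow_le_pow_left h2 _).trans
      (Nat.pow_le_pow_right (by positivity) (Nat.pow_le_pow_right two_pos h1))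
  have hν : ∀ w : G (Ix D) → W × W → ZMod 2, ∃ χ : V →+ ZMod 2,
      grO Hh w ≠ 0 → χ (grO Hh w) ≠ 0 := fun w => by
    by_cases h : grO Hh w = 0
    · exact ⟨0, fun h' => absurd h h'⟩
    · obtain ⟨χ, h1, -⟩ := Pool.Agent.Lib.MP_a3f657_nt.Two.exists_sep_hom (fun x : V => CharTwo.add_self_eq_zero x) ⊥
        (v := grO Hh w) h
      exact ⟨χ, fun _ => h1⟩
  choose ν hν using hν
  obtain ⟨bad, hb⟩ : ∃ bad : Fin R → (G (Ix D) → W × W → ZMod 2) → Finset α, ∀ m w a,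
      a ∈ bad m w ↔ a ∈ A ∧ grO Hh w ≠ 0 ∧
        ∀ x ∈ grX Hh ν m, ∑ g, ∑ q, (x ⬝ᵥ g) * w g q * Bm a g q.1 q.2 = 0 :=
    ⟨fun m w => A.filter fun a => grO Hh w ≠ 0 ∧
      ∀ x ∈ grX Hh ν m, ∑ g, ∑ q, (x ⬝ᵥ g) * w g q * Bm a g q.1 q.2 = 0,
      fun _ _ _ => Finset.mem_filter⟩
  have hbad : ∀ (m : Fin R) (w : {w : G (Ix D) → W × W → ZMod 2 // Meas m w}),
      (bad m w.1).card * 2 ^ (D m / 2) ≤ 2 ^ (L (s m.val) * L (s m.val)) * A.card := by
    intro m w
    by_cases h : grO Hh w.1 = 0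
    · have : bad m w.1 = ∅ := Finset.eq_empty_of_forall_notMem fun a h' => ((hb _ _ a).1 h').2.1 h
      simp [this]
    have h1 := hyp m w.1 w.2 h
    have h2 := gr_count (grX Hh ν m) _ gr_X_add A (bad m w.1)
      (fun a x => ∑ g, ∑ q, (x ⬝ᵥ g) * w.1 g q * Bm a g q.1 q.2)
      (fun a x y => by simp only [add_dotProduct, add_mul, Finset.sum_add_distrib])
      (fun x hx hn => by
        by_contra h3
        exact hn (show x ∈ (Blk D m).filter fun ξ =>
          ∑ a ∈ A, sg (∑ g, ∑ q, (ξ ⬝ᵥ g) * w.1 g q * Bm a g q.1 q.2) ≠ 0 from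
          Finset.mem_filter.2 ⟨(gr_mem_X.1 hx).1, h3⟩))
      (fun a ha => ((hb _ _ a).1 ha).1) fun a ha => ((hb _ _ a).1 ha).2.2
    have h3 := gr_card_X (Hh := Hh) (ν := ν) m (hL m)
    exact gr_arith (Nat.two_pow_pos _) h1 h2 h3
  have hsum : ∀ m : Fin R, ((∑ w : {w : G (Ix D) → W × W → ZMod 2 // Meas m w},
      (bad m w.1).card : ℕ) : ℝ) ≤ η / (R + 1) * A.card := by
    intro m
    have h1 : (∑ w : {w : G (Ix D) → W × W → ZMod 2 // Meas m w}, (bad m w.1).card) *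
        2 ^ (D m / 2) ≤ L (s m.val) * 2 ^ (L (s m.val) * L (s m.val)) * A.card := by
      rw [Finset.sum_mul]
      refine (Finset.sum_le_sum fun w _ => hbad m w).trans ?_
      rw [Finset.sum_const, smul_eq_mul, mul_assoc]
      exact Nat.mul_le_mul_right _ (hL m)
    have h2 := hf (s m.val)
    rw [← hD] at h2
    have h3 : (0 : ℝ) < 2 ^ (D m / 2) := by positivity
    refine le_of_mul_le_mul_right ?_ h3
    calc _ ≤ ((L (s m.val) * 2 ^ (L (s m.val) * L (s m.val)) * A.card : ℕ) : ℝ) := by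
          exact_mod_cast h1
      _ ≤ η / (R + 1) * 2 ^ (D m / 2) * A.card := by
          push_cast
          gcongr
      _ = _ := by ring
  have hsub : (A.filter fun a => ¬ ∀ μ : Fin R → V →+ ZMod 2, ∃ ξ : Fin R → G (Ix D),
      Pat2 (Bm a) (fun l => Matrix.of fun q q' => μ l (∑ g, Hh g (q, q'))) ξ) ⊆
      Finset.univ.biUnion fun m : Fin R => Finset.univ.biUnion
        fun w : {w : G (Ix D) → W × W → ZMod 2 // Meas m w} => bad m w.1 := by
    intro a ha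
    obtain ⟨haA, ha⟩ := Finset.mem_filter.1 ha
    by_contra hn
    refine ha fun μ => ?_
    obtain ⟨ξ, -, hξ⟩ := gr2_build hν (fun g q => Bm a g q.1 q.2) μ (fun m w hw h0 h1 =>
      hn (Finset.mem_biUnion.2 ⟨m, Finset.mem_univ _, Finset.mem_biUnion.2
        ⟨⟨w, hw⟩, Finset.mem_univ _, (hb _ _ a).2 ⟨haA, h0, h1⟩⟩⟩)) R le_rfl
    refine ⟨ξ, fun l => ?_, fun S hS => ?_⟩
    · ext q q'
      have := hξ {l} (fun j _ => gr_mem_B.2 j.2) (Finset.singleton_nonempty l) (q, q')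
      simpa [Matrix.sum_apply] using this
    · ext q q'
      have := hξ S (fun j _ => gr_mem_B.2 j.2) (Finset.card_pos.1 (by omega)) (q, q')
      rw [if_neg (by omega)] at this
      simpa [Matrix.sum_apply] using this
  calc _ ≤ ((∑ m : Fin R, ∑ w : {w : G (Ix D) → W × W → ZMod 2 // Meas m w},
        (bad m w.1).card : ℕ) : ℝ) := by
        exact_mod_cast (Finset.card_le_card hsub).trans (Finset.card_biUnion_le.trans
          (Finset.sum_le_sum fun m _ => Finset.card_biUnion_le))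
    _ ≤ ∑ _m : Fin R, η / (R + 1) * A.card := by
        rw [Nat.cast_sum]
        exact Finset.sum_le_sum fun m _ => hsum m
    _ = R / (R + 1) * (η * A.card) := by
        rw [Finset.sum_const, Finset.card_univ, Fintype.card_fin, nsmul_eq_mul]
        ring
    _ ≤ _ := mul_le_of_le_one_left (by positivity) ((div_le_one (by positivity)).2 (by linarith))

end Pool.Agent.Lib.MP_788af2_nt.AG
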