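import Pool.Agent.Lib.MP_788af2_nt.AG.Base

/-!
Existence of the unramified lifting.
-/

namespace Pool.Agent.Lib.MP_788af2_nt.AG

open Filter Topology

/-- A normed field which is the fraction field of a discrete valuation ring with uniformiser
two. -/
structure LDat {W K : Type} [CommRing W] [NormedField K] (ι : W →+* K) : Prop where
  two : ‖(2 : K)‖ = 1 / 2
  le : ∀ w, ‖ι w‖ ≤ 1
  fac : ∀ w : W, w ≠ 0 → ∃ (m : ℕ) (u : Wˣ), w = 2 ^ m * u
  frac : ∀ x : K, ∃ a b : W, b ≠ 0 ∧ x = ι a / ι b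
  inj : Function.Injective ι

namespace LDat

variable {W K : Type} [CommRing W] [NormedField K] {ι : W →+* K}

theorem two_ne (h : LDat ι) : (2 : K) ≠ 0 := by
  intro h0
  have := h.two
  rw [h0, norm_zero] at this
  norm_num at this

theorem norm_unit (h : LDat ι) (u : Wˣ) : ‖ι u‖ = 1 := by
  have h1 : ‖ι u‖ * ‖ι (u⁻¹ : Wˣ)‖ = 1 := by
    rw [← norm_mul, ← map_mul, Units.mul_inv, map_one, norm_one]
  have h2 := h.le u
  have h3 := h.le (u⁻¹ : Wˣ)
  have h4 := norm_nonneg (ι u)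
  have h5 := norm_nonneg (ι (u⁻¹ : Wˣ))
  nlinarith

theorem rep (h : LDat ι) (x : K) (hx : x ≠ 0) : ∃ (n : ℤ) (u : Wˣ), x = 2 ^ n * ι u := by
  obtain ⟨a, b, hb, rfl⟩ := h.frac x
  have ha : a ≠ 0 := by
    rintro rfl
    simp at hx
  obtain ⟨m, u, rfl⟩ := h.fac a ha
  obtain ⟨k, v, rfl⟩ := h.fac b hb
  refine ⟨(m : ℤ) - k, u * v⁻¹, ?_⟩
  have hv : ι v ≠ 0 := by
    intro h0
    have := h.norm_unit v
    rw [h0, norm_zero] at this
    exact zero_ne_one this
  have hvi : ι (v⁻¹ : Wˣ) = (ι v)⁻¹ := by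
    apply eq_inv_of_mul_eq_one_left
    rw [← map_mul, Units.inv_mul, map_one]
  have h2 := h.two_ne
  rw [zpow_sub₀ h2, Units.val_mul, map_mul, map_mul, map_mul, map_pow, map_pow, hvi,
    map_ofNat, zpow_natCast, zpow_natCast]
  field_simp

theorem norm_rep (h : LDat ι) (n : ℤ) (u : Wˣ) : ‖(2 : K) ^ n * ι u‖ = 2 ^ (-n) := by
  rw [norm_mul, h.norm_unit, mul_one, norm_zpow, h.two, one_div, inv_zpow, zpow_neg]

theorem disc (h : LDat ι) (x : K) (hx : x ≠ 0) : ∃ n : ℤ, ‖x‖ = 2 ^ n := by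
  obtain ⟨n, u, rfl⟩ := h.rep x hx
  exact ⟨-n, h.norm_rep n u⟩

theorem mem (h : LDat ι) (k : ℕ) (x : K) (hx : ‖x‖ ≤ (1 / 2) ^ k) :
    ∃ w : W, x = ι (2 ^ k * w) := by
  by_cases h0 : x = 0
  · exact ⟨0, by simp [h0]⟩
  obtain ⟨n, u, rfl⟩ := h.rep x h0
  rw [h.norm_rep, one_div, inv_pow, ← zpow_natCast, ← zpow_neg,
    zpow_le_zpow_iff_right₀ (by norm_num : (1 : ℝ) < 2)] at hx
  obtain ⟨j, hj⟩ : ∃ j : ℕ, n = (k : ℤ) + j := ⟨(n - k).toNat, by omega⟩
  refine ⟨2 ^ j * u, ?_⟩
  rw [hj, zpow_add₀ h.two_ne, map_mul, map_mul, map_pow, map_pow, map_ofNat, zpow_natCast,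
    zpow_natCast, mul_assoc]

theorem mem_one (h : LDat ι) (x : K) (hx : ‖x‖ ≤ 1) : ∃ w : W, x = ι w := by
  obtain ⟨w, hw⟩ := h.mem 0 x (by simpa using hx)
  exact ⟨w, by simpa using hw⟩

theorem norm_pow_mul (h : LDat ι) (k : ℕ) (w : W) : ‖ι (2 ^ k * w)‖ ≤ (1 / 2) ^ k := by
  rw [map_mul, map_pow, map_ofNat, norm_mul, norm_pow, h.two]
  have := h.le w
  have h2 : (0 : ℝ) ≤ (1 / 2) ^ k := by positivity
  nlinarith

theorem complete (h : LDat ι) (hc : IsPrecomplete (Ideal.span {(2 : W)}) W) :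
    CompleteSpace K := by
  refine Metric.complete_of_convergent_controlled_sequences (fun n => (1 / 2 : ℝ) ^ n)
    (fun n => by positivity) (fun u hu => ?_)
  have h1 : ∀ n, ∃ w : W, u n - u 0 = ι w := fun n => by
    apply h.mem_one
    have := hu 0 n 0 (Nat.zero_le _) le_rfl
    rw [dist_eq_norm] at this
    simpa using this.le
  choose w hw using h1
  have key : ∀ (n : ℕ) (a b : W),
      a ≡ b [SMOD ((Ideal.span {(2 : W)}) ^ n • ⊤ : Submodule W W)] ↔ ∃ c, a - b = 2 ^ n * c := by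
    intro n a b
    rw [SModEq.sub_mem, smul_eq_mul, Ideal.mul_top, Ideal.span_singleton_pow,
      Ideal.mem_span_singleton]
    rfl
  obtain ⟨L, hL⟩ := hc.prec (f := w) (fun {m n} hmn => by
    rw [key]
    have h2 := hu m m n le_rfl hmn
    rw [dist_eq_norm] at h2
    obtain ⟨c, hc⟩ := h.mem m _ h2.le
    refine ⟨c, h.inj ?_⟩
    rw [← hc, map_sub, ← hw, ← hw]
    ring)
  refine ⟨u 0 + ι L, ?_⟩
  rw [tendsto_iff_norm_sub_tendsto_zero]
  refine squeeze_zero (fun n => norm_nonneg _) (fun n => ?_)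
    (tendsto_pow_atTop_nhds_zero_of_lt_one (r := (1 / 2 : ℝ)) (by norm_num) (by norm_num))
  obtain ⟨c, hc⟩ := (key n _ _).1 (hL n)
  have : u n - (u 0 + ι L) = ι (2 ^ n * c) := by
    rw [← hc, map_sub, ← hw]
    ring
  rw [this]
  exact h.norm_pow_mul n c

theorem charZero (h : LDat ι) {κ : Type} [Field κ] [CharP κ 2] (c : W →+* κ) : CharZero K := by
  refine charZero_of_inj_zero (fun n => ?_)
  induction n using Nat.strong_induction_on with
  | _ n ih =>
    intro hn
    have h1 : (n : W) = 0 := h.inj (by rw [map_natCast, map_zero, hn])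
    have h2 : (n : κ) = 0 := by rw [← map_natCast c, h1, map_zero]
    obtain ⟨m, rfl⟩ := (CharP.cast_eq_zero_iff κ 2 n).1 h2
    rcases Nat.eq_zero_or_pos m with h0 | h0
    · simp [h0]
    · have h3 : (m : K) = 0 := by
        rw [Nat.cast_mul, Nat.cast_ofNat] at hn
        exact (mul_eq_zero.1 hn).resolve_left h.two_ne
      have := ih m (by omega) h3
      omega

end LDat

theorem lift_of_dat {W K κ : Type} [CommRing W] [NontriviallyNormedField K] [Field κ]
    {ι : W →+* K} (h : LDat ι) (c : W →+* κ) (t : κ →* W) (t0 : t 0 = 0) (ct : ∀ x, c (t x) = x)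
    (hker : ∀ w, c w = 0 ↔ ∃ v, w = 2 * v) : Nonempty (Lift K κ) := by
  classical
  have hl : ∀ w, Function.invFun ι (ι w) = w := Function.leftInverse_invFun h.inj
  refine ⟨{
    τ :=
      { toFun := fun x => ι (t x)
        map_zero' := by rw [t0, map_zero]
        map_one' := by rw [map_one, map_one]
        map_mul' := fun x y => by rw [map_mul, map_mul] }
    red := fun x => c (Function.invFun ι x)
    two := h.two
    disc := h.disc
    τ_le := fun x => h.le _
    red_τ := fun x => ?_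
    red_add := fun x y hx hy => ?_
    red_mul := fun x y hx hy => ?_
    red_eq_zero := fun x hx => ?_ }⟩
  · change c (Function.invFun ι (ι (t x))) = x
    rw [hl, ct]
  · obtain ⟨a, rfl⟩ := h.mem_one x hx
    obtain ⟨b, rfl⟩ := h.mem_one y hy
    rw [← map_add, hl, hl, hl, map_add]
  · obtain ⟨a, rfl⟩ := h.mem_one x hx
    obtain ⟨b, rfl⟩ := h.mem_one y hy
    rw [← map_mul, hl, hl, hl, map_mul]
  · obtain ⟨a, rfl⟩ := h.mem_one x hx
    rw [hl, hker]
    constructor
    · rintro ⟨v, rfl⟩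
      simpa using h.norm_pow_mul 1 v
    · intro ha
      obtain ⟨v, hv⟩ := h.mem 1 (ι a) (by simpa using ha)
      exact ⟨v, by simpa using h.inj hv⟩

theorem exists_dat (κ : Type) [Field κ] [CharP κ 2] [IsAlgClosed κ] [Fact (Nat.Prime 2)] :
    ∃ (K : Type) (_ : NormedField K) (ι : WittVector 2 κ →+* K),
      IsUltrametricDist K ∧ LDat ι := by
  let W := WittVector 2 κ
  let F := FractionRing W
  let v : IsDedekindDomain.HeightOneSpectrum W := IsDiscreteValuationRing.maximalIdeal W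
  have hb : (1 : NNReal) < 2 := by norm_num
  let a : AbsoluteValue F ℝ := v.adicAbv hb
  have hirr : Irreducible ((2 : ℕ) : W) := WittVector.irreducible 2
  have hspan : v.asIdeal = Ideal.span {((2 : ℕ) : W)} := hirr.maximalIdeal_eq
  refine ⟨WithAbs a, inferInstance,
    (WithAbs.equiv a).symm.toRingHom.comp (algebraMap W F), ?_, ?_, ?_, ?_, ?_, ?_⟩
  · apply IsUltrametricDist.isUltrametricDist_of_forall_norm_add_le_max_norm
    intro x y
    exact v.isNonarchimedean_adicAbv hb x.ofAbs y.ofAbs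
  · have h1 : ‖(2 : WithAbs a)‖ = a (algebraMap W F ((2 : ℕ) : W)) := by
      rw [map_natCast]
      rfl
    rw [h1]
    change ((WithZeroMulInt.toNNReal (ne_zero_of_lt hb)
      (v.valuation F (algebraMap W F ((2 : ℕ) : W))) : NNReal) : ℝ) = 1 / 2
    rw [IsDedekindDomain.HeightOneSpectrum.valuation_of_algebraMap,
      v.intValuation_singleton hirr.ne_zero hspan,
      WithZeroMulInt.toNNReal_neg_apply _ WithZero.exp_ne_zero]
    have : (WithZero.unzero (WithZero.exp_ne_zero (a := (-1 : ℤ)))).toAdd = -1 := rfl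
    rw [this]
    norm_num
  · intro w
    exact v.adicAbv_coe_le_one hb w
  · intro w hw
    obtain ⟨m, u, h⟩ := WittVector.exists_eq_pow_p_mul' w hw
    exact ⟨m, u, by simpa using h⟩
  · intro x
    obtain ⟨p, q, hq, h⟩ := IsFractionRing.div_surjective (A := W) x.ofAbs
    refine ⟨p, q, nonZeroDivisors.ne_zero hq, ?_⟩
    apply WithAbs.ofAbs_injective a
    rw [← h]
    rfl
  · exact (WithAbs.equiv a).symm.injective.comp (IsFractionRing.injective W F)

theorem exists_lift (κ : Type) [Field κ] [CharP κ 2] [IsAlgClosed κ] :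
    ∃ (K : Type) (_ : NontriviallyNormedField K) (_ : IsUltrametricDist K) (_ : CompleteSpace K)
      (_ : CharZero K), Nonempty (Lift K κ) := by
  have : Fact (Nat.Prime 2) := ⟨Nat.prime_two⟩
  obtain ⟨K, iK, ι, hu, h⟩ := exists_dat κ
  have hc : IsPrecomplete (Ideal.span {(2 : WittVector 2 κ)}) (WittVector 2 κ) := by
    have := (WittVector.isAdicCompleteIdealSpanP (p := 2) (k := κ)).toIsPrecomplete
    simpa using this
  let iN : NontriviallyNormedField K :=
    { iK with
      non_trivial := ⟨2⁻¹, by rw [norm_inv, h.two]; norm_num⟩ }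
  refine ⟨K, iN, hu, h.complete hc, h.charZero WittVector.constantCoeff, ?_⟩
  refine lift_of_dat h WittVector.constantCoeff (WittVector.teichmuller 2)
    (WittVector.teichmuller_zero 2) (fun x => WittVector.teichmuller_coeff_zero 2 x) (fun w => ?_)
  have := WittVector.mem_span_p_iff_coeff_zero_eq_zero (p := 2) w
  rw [Ideal.mem_span_singleton] at this
  rw [WittVector.constantCoeff_apply, ← this]
  simp [dvd_def]

end Pool.Agent.Lib.MP_788af2_nt.AG
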