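import Pool.Agent.Lib.MP_788af2_nt.AG.PerA
import Pool.Agent.Lib.MP_788af2_nt.AG.Alg2
import Pool.Agent.Lib.MP_788af2_nt.AS.Main

/-!
Assembly in a fixed odd degree.
-/

set_option linter.unusedSectionVars false

namespace Pool.Agent.Lib.MP_788af2_nt.AG

open Polynomial Filter Topology Pool.Agent.Lib.MP_788af2_nt.AS Pool.Agent.Lib.MP_a3f657_nt.Two

open scoped Classical

lemma main_count {α X : Type} [Fintype X] [Nonempty X] (A : Finset α) (sh : X → α → α)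
    (h1 : ∀ ξ, ∀ a ∈ A, sh ξ a ∈ A) (h2 : ∀ ξ, ∀ a ∈ A, sh ξ (sh ξ a) = a) (P : α → Prop)
    [DecidablePred P] (η : ℝ) (hη : 0 ≤ η)
    (hbad : ((A.filter fun a => ¬ ((Finset.univ.filter fun ξ => P (sh ξ a)).card : ℝ) ≤
      η * Fintype.card X).card : ℝ) ≤ η * A.card) :
    ((A.filter P).card : ℝ) ≤ 2 * η * A.card := by
  have hX : (0 : ℝ) < Fintype.card X := by exact_mod_cast Fintype.card_pos
  have e1 : ∀ ξ, (A.filter P).card = (A.filter fun a => P (sh ξ a)).card := fun ξ => by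
    refine Finset.card_bij' (fun a _ => sh ξ a) (fun a _ => sh ξ a) ?_ ?_ ?_ ?_
    · intro a ha
      rw [Finset.mem_filter] at ha ⊢
      exact ⟨h1 ξ a ha.1, by rw [h2 ξ a ha.1]; exact ha.2⟩
    · intro a ha
      rw [Finset.mem_filter] at ha ⊢
      exact ⟨h1 ξ a ha.1, ha.2⟩
    · intro a ha
      exact h2 ξ a (Finset.mem_filter.1 ha).1
    · intro a ha
      exact h2 ξ a (Finset.mem_filter.1 ha).1
  have e2 : ((A.filter P).card : ℝ) * Fintype.card X =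
      ∑ a ∈ A, ((Finset.univ.filter fun ξ => P (sh ξ a)).card : ℝ) := by
    have : ∑ ξ : X, ((A.filter fun a => P (sh ξ a)).card : ℝ) =
        ∑ a ∈ A, ((Finset.univ.filter fun ξ => P (sh ξ a)).card : ℝ) := by
      simp only [Finset.card_filter]
      push_cast
      exact Finset.sum_comm
    rw [← this]
    simp only [← e1]
    rw [Finset.sum_const, Finset.card_univ, nsmul_eq_mul, mul_comm]
  have e3 : ∑ a ∈ A, ((Finset.univ.filter fun ξ => P (sh ξ a)).card : ℝ) ≤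
      ∑ a ∈ A, (η * Fintype.card X + if ¬ ((Finset.univ.filter fun ξ => P (sh ξ a)).card : ℝ) ≤
        η * Fintype.card X then (Fintype.card X : ℝ) else 0) := by
    refine Finset.sum_le_sum fun a ha => ?_
    by_cases hg : ((Finset.univ.filter fun ξ => P (sh ξ a)).card : ℝ) ≤ η * Fintype.card X
    · rw [if_neg (not_not.2 hg), add_zero]; exact hg
    · have : ((Finset.univ.filter fun ξ => P (sh ξ a)).card : ℝ) ≤ Fintype.card X := by
        exact_mod_cast Finset.card_le_univ _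
      have h0 : 0 ≤ η * Fintype.card X := by positivity
      rw [if_pos hg]
      linarith
  rw [Finset.sum_add_distrib, Finset.sum_const, ← Finset.sum_filter, Finset.sum_const,
    nsmul_eq_mul, nsmul_eq_mul] at e3
  have e4 := mul_le_mul_of_nonneg_right hbad hX.le
  refine le_of_mul_le_mul_right ?_ hX
  rw [e2]
  linarith

lemma main_params {n : ℕ} (hn : 0 < n) (Q c₀ i₀ : ℕ) : ∃ M : ℕ, ∀ e, M ≤ e → ∃ i c : ℕ, i₀ ≤ i ∧
    c₀ ≤ c ∧ 2 ^ i * n + 10 * (20 * (Q * c) + 10 * n + 20 + c) ≤ e ∧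
    2 * n + 16 * (Q * c) + 4 ≤ e ∧ e ≤ 2 * (2 ^ i * n) + c := by
  obtain ⟨M, hM⟩ := params (100 * n + 200) (25 * Q + 2) c₀
  refine ⟨M + 4 * (2 ^ i₀ * n) + 1, fun e he => ?_⟩
  obtain ⟨i, c, h1, h2, h3, h4⟩ := hM e (by omega) n hn (by omega)
  rw [add_mul, mul_assoc] at h2 h3
  refine ⟨i, c, ?_, h1, by omega, by omega, h4⟩
  by_contra hi
  have : 2 ^ i * n ≤ 2 ^ i₀ * n :=
    Nat.mul_le_mul_right _ (Nat.pow_le_pow_right (by norm_num) (by omega))
  omega

variable {k : Type} [Field k] [Fintype k] [CharP k 2] (κ : Type) [Field κ] [CharP κ 2]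
  [IsAlgClosed κ] [Algebra k κ]

lemma main_ft {I : Type} [Fintype I] [DecidableEq I] {β : I → k[X]} {L : Type} [Field L]
    [CharP L 2] (T : Tw β L) {b : k[X]} (hb : ∀ i, b ∣ β i) (S : Finset k[X])
    (hS : ∀ q ∈ S, Irreducible q ∧ q.Monic ∧ q ∣ b) : ∃ ft : S → L, (∀ v, T.P.c1 (ft v) = ft v ∧
      ∃ z ∈ T.O, ft v = T.lgE * (T.p (derivative v.1) / T.p v.1) + z) ∧
      (∀ q, ft q ∈ T.Wl (∏ q ∈ S, q)) ∧ ∀ q, T.tr (ft q) = T.p (derivative q.1) / T.p q.1 := by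
  have hS' : ∀ q ∈ S, Irreducible q ∧ q.Monic := fun q hq => ⟨(hS q hq).1, (hS q hq).2.1⟩
  obtain ⟨r, hr1, -, -⟩ := Tw.lg_cof S hS'
  choose ft hft z hz hfz using fun q : S => T.lg_ft hb (hS _ q.2).1.ne_zero (hS _ q.2).2.2
  have hfix : ∀ (q : S) (g : G I),
      T.σ g (T.p (derivative q.1) / T.p q.1) = T.p (derivative q.1) / T.p q.1 := fun q g => by
    rw [map_div₀, T.σ_p, T.σ_p]
  refine ⟨ft, fun v => ⟨hft v, z v, hz v, hfz v⟩, fun q => ⟨hft q, ?_⟩, fun q => ?_⟩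
  · have h0 := T.p_ne (hS _ q.2).1.ne_zero
    have e : T.p (∏ q ∈ S, q) * ft q =
        T.lgE * T.p (derivative q.1 * r q) + T.p (∏ q ∈ S, q) * z q := by
      rw [hfz q, ← hr1 q, map_mul, map_mul]
      field_simp
    rw [e]
    exact add_mem (mul_mem T.lgE_O (T.p_mem_O _)) (mul_mem (T.p_mem_O _) (hz q))
  · obtain ⟨a, ha⟩ := T.tr_O (hz q)
    have h1 : T.tr (ft q) = T.p (derivative q.1) / T.p q.1 + T.p a := by
      rw [hfz q, T.tr_add, T.lgE_tr_mul (hfix q), ha]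
    have h2 := T.tr_c1 (ft q)
    rw [hft q, h1, PB.c1_add, T.lg_log] at h2
    rw [h1, T.log_O (T.p_mem_O a) (add_left_cancel h2).symm, add_zero]

theorem main {b : k[X]} (hb : 0 < b.natDegree) : ∃ B : ℕ, ∀ η : ℝ, 0 < η → ∃ M : ℕ,
    ∀ e, M ≤ e → Odd e → ∀ A : Finset k[X], (∀ a, a ∈ A ↔ a.natDegree = e) →
      (∀ a ∈ A, ∃ r ≤ B, ARk κ a b r) ∧
      ((A.filter fun a => ¬ ARk κ a b ((Spl b a).card % 2)).card : ℝ) ≤ η * A.card := by
  have hb0 : b ≠ 0 := by rintro rfl; simp at hb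
  obtain ⟨B, hB⟩ := per_a κ hb0
  refine ⟨B, fun η' hη' => ?_⟩
  obtain ⟨η, rfl⟩ : ∃ η : ℝ, η' = 2 * η := ⟨η' / 2, by ring⟩
  have hη : 0 < η := by linarith
  obtain ⟨R, J, hR⟩ := alg2 b.natDegree η hη
  obtain ⟨D, hD⟩ := greedy2 b.natDegree R η hη
  obtain ⟨Q, c₀, hc₀, hQ⟩ := exists_exp D b.natDegree
  obtain ⟨i₀, hi₀⟩ := hB J
  obtain ⟨M, hM⟩ := main_params hb Q c₀ i₀
  refine ⟨M, fun e he ho A hA => ?_⟩
  obtain ⟨i, c, h0, h1, h2, h3, h4⟩ := hM e he
  obtain ⟨cc, h5, h6, h7⟩ := hQ c h1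
  obtain ⟨h8, h9⟩ := h7 _ le_rfl
  set β : Ix D → k[X] := fun i => b * X ^ (cc i.1 + i.2) with hβ
  have hβd : ∀ i, (β i).natDegree = b.natDegree + (cc i.1 + i.2) := fun i => by
    rw [hβ, natDegree_mul hb0 (pow_ne_zero _ X_ne_zero), natDegree_X_pow]
  have hγ : gam β Finset.univ ≤ (Q * c : ℕ) := by simpa only [gam, hβd] using h8
  have hP : Par β b (b ^ 2 ^ i) e := by
    have e1 : ((2 ^ i * b.natDegree + b.natDegree + 8 * (Q * c) + 4 : ℕ) : ℝ) ≤ e := by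
      exact_mod_cast (by omega)
    have e2 : ((2 * b.natDegree + 16 * (Q * c) + 4 : ℕ) : ℝ) ≤ e := by exact_mod_cast h3
    refine ⟨hb0, ⟨2 ^ i - 1, by rw [Nat.sub_add_cancel Nat.one_le_two_pow]⟩,
      fun i => dvd_mul_right _ _, ho, ?_, ?_⟩
    · rw [natDegree_pow]
      push_cast at e1 hγ ⊢
      linarith
    · push_cast at e2 hγ ⊢
      linarith
  obtain ⟨L, _, _, ⟨T⟩⟩ := exists_tw β (comb_ne hb0 h6)
  have hper := hi₀ T i e _ h0 hP h2 (by omega) (by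
    have : (0 : ℝ) ≤ c := by positivity
    push_cast at hγ ⊢
    linarith)
  have hLog := fun a : k[X] => main_ft T hP.dvd (Spl b a) fun q hq =>
    let h := (mem_Spl hb0).1 hq; ⟨h.1, h.2.1, h.2.2.1⟩
  refine ⟨fun a ha => ?_, ?_⟩
  · obtain ⟨ft, f1, -⟩ := hLog a
    obtain ⟨O, _, A', wt, -, -, -, -, -, g⟩ := hper a ((hA a).1 ha) ft f1
    have := (g 0).1
    rwa [show a + X * comb β 0 ^ 2 = a by simp [comb]] at this
  have hbad : ∀ S ∈ A.image (Spl b), (((A.filter fun a => Spl b a = S).filter fun a =>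
      ¬ ((Finset.univ.filter fun ξ : G (Ix D) => ¬ ARk κ (a + X * comb β ξ ^ 2) b
        ((Spl b (a + X * comb β ξ ^ 2)).card % 2)).card : ℝ) ≤
          η * Fintype.card (G (Ix D))).card : ℝ) ≤
        η * (A.filter fun a => Spl b a = S).card := by
    intro S hS
    obtain ⟨a₀, -, rfl⟩ := Finset.mem_image.1 hS
    obtain ⟨ft, f1, f2, f3⟩ := hLog a₀
    have hcard : Fintype.card (Spl b a₀) ≤ b.natDegree := by
      rw [Fintype.card_coe]; exact card_Spl_le hb0 a₀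
    have hH : ∀ w : G (Ix D) → Spl b a₀ × Spl b a₀ → ZMod 2, T.P.c1 (T.H ft w) =
        ∑ g, ∑ q, zc L (w g q) * T.P.c1 (T.tr (T.σ g (ft q.1) * ft q.2)) := fun w => by
      simp only [Tw.H, T.c1_sum, T.c1_zc_mul]
    refine le_trans ?_ (hD (Spl b a₀) hcard L k[X] (A.filter fun a => Spl b a = Spl b a₀)
      (fun g q => T.P.c1 (T.tr (T.σ g (ft q.1) * ft q.2))) (fun a => T.Bm a (b ^ 2 ^ i) ft) ?_)
    · refine Nat.cast_le.2 (Finset.card_le_card fun a ha => ?_)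
      simp only [Finset.mem_filter] at ha ⊢
      refine ⟨ha.1, fun hgood => ha.2 ?_⟩
      obtain ⟨⟨ha1, ha2⟩, -⟩ := ha
      have ha3 := (hA a).1 ha1
      have hsum : ∀ q q' : Spl b a₀, ∑ g, T.P.c1 (T.tr (T.σ g (ft q) * ft q')) =
          T.P.c1 (T.p (derivative q.1) / T.p q.1 * (T.p (derivative q'.1) / T.p q'.1)) := by
        intro q q'
        rw [← T.c1_sum, ← T.tr_sum, ← Finset.sum_mul, ← Tw.tr, T.tr_fix_mul (T.σ_tr · _), f3, f3]
      simp only [hsum] at hgood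
      clear hH hsum f3
      revert ft
      rw [← ha2]
      intro ft f1 f2 hgood
      obtain ⟨O, _, A', wt, g1, g2, g3, g4, g5, g6⟩ := hper a ha3 ft f1
      refine le_trans (Nat.cast_le.2 (Finset.card_le_card fun ξ₀ h₀ => ?_))
        (hR (Ix D) (Spl b a) (ha2 ▸ hcard) O g1 g2 L (fun q q' =>
          T.P.c1 (T.p (derivative q.1) / T.p q.1 * (T.p (derivative q'.1) / T.p q'.1)))
          (fun q => by rw [← sq, PB.c1_sq]) (fun q q' => by rw [mul_comm])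
          (T.om_ne _ fun q hq => let h := (mem_Spl hb0).1 hq; ⟨h.1, h.2.1⟩) _
          (T.Bm_alt hP ha3 (adm_spl hb0 a) f2) hgood A' g3 g4 wt g5)
      simp only [Finset.mem_filter, Finset.mem_univ, true_and] at h₀ ⊢
      by_contra hc
      rw [Spl_add a (dvd_comb hP.dvd ξ₀)] at h₀
      exact h₀ ((g6 ξ₀).2 hc)
    · intro m' w hw hw0
      rw [← hH] at hw0
      refine le_trans (Nat.mul_le_mul_right _ (Finset.card_le_card fun ξ hξ => ?_))
        (step hb0 (adm_spl hb0 a₀).dvd T f2 m' (by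
          change _ + 8 * gam β _ + 4 ≤ _
          simpa only [gam, hβd] using h9 m') w hw hw0)
      simp only [Finset.mem_filter] at hξ ⊢
      refine ⟨hξ.1, by_contra fun hc => hξ.2 ?_⟩
      exact T.flip hP (Spl b a₀) f2 (hc₀.trans (h1.trans (h5 m')))
        (by rw [natDegree_pow]; have := h5 m'; omega) _ hc _ fun a => by
          rw [Finset.mem_filter, hA]
  refine main_count A (fun (ξ : G (Ix D)) a => a + X * comb β ξ ^ 2)
    (fun ξ a ha => (hA _).2 (natDegree_shift hP ((hA a).1 ha) ξ))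
    (fun ξ a _ => by rw [add_assoc, CharTwo.add_self_eq_zero, add_zero])
    (fun a => ¬ ARk κ a b ((Spl b a).card % 2)) η hη.le ?_
  rw [Finset.card_eq_sum_card_fiberwise (f := Spl b) (t := A.image (Spl b))
    (fun a ha => Finset.mem_image_of_mem _ (Finset.mem_filter.1 ha).1),
    Finset.card_eq_sum_card_image (Spl b) A]
  push_cast
  rw [Finset.mul_sum]
  refine Finset.sum_le_sum fun S hS => le_trans (le_of_eq ?_) (hbad S hS)
  rw [Finset.filter_comm]

end Pool.Agent.Lib.MP_788af2_nt.AG
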