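import Pool.Agent.Lib.MP_788af2_nt.AG.NBErr

/-!
The defect in the middle sector.
-/

set_option linter.unusedSectionVars false

namespace Pool.Agent.Lib.MP_788af2_nt.AG

open Polynomial Filter Topology Pool.Agent.Lib.MP_788af2_nt.AS Pool.Agent.Lib.MP_a3f657_nt.Two

open scoped Classical

variable {K A J Z k κ I Lw : Type} [NontriviallyNormedField K] [IsUltrametricDist K]
  [CompleteSpace K] [CharZero K] [NormedCommRing A] [NormedAlgebra K A] [IsUltrametricDist A]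
  [CompleteSpace A] [NormOneClass A] [Fintype J] [Fintype Z] [DecidableEq J] [DecidableEq Z]
  [Field k] [Fintype k] [CharP k 2] [Field κ] [CharP κ 2] [IsAlgClosed κ] [Fintype I]
  [DecidableEq I] {δ : I → ℝ} [Field Lw] [CharP Lw 2]

variable {d : Dat K A J Z} {ℓ : Lift K κ} {cb : Cube K I A δ} {a b : k[X]} {β : I → k[X]}
  {L : Lnk d.toGeo ℓ b} (X0 : Cx d ℓ cb a b β L) (T : Tw β Lw)

private lemma nb0_two (h2 : ‖(2 : K)‖ = 1 / 2) {x : A} {c : ℝ} (h : ‖x‖ ≤ c) :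
    ‖(2 : K) • x‖ ≤ c / 2 := by
  rw [norm_smul, h2]
  linarith

private lemma nb0_half (h2 : ‖(2 : K)‖ = 1 / 2) {x : A} {c : ℝ} (h : ‖x‖ ≤ c) :
    ‖(1 / 2 : K) • x‖ ≤ 2 * c := by
  rw [norm_smul, norm_div, norm_one, h2]
  linarith

private lemma nb0_quart (h2 : ‖(2 : K)‖ = 1 / 2) {x : A} {c : ℝ} (h : ‖x‖ ≤ c) :
    ‖(1 / 4 : K) • x‖ ≤ 4 * c := by
  rw [norm_smul, norm_div, norm_one, show (4 : K) = 2 * 2 by norm_num, norm_mul, h2]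
  linarith

private lemma nb0_F (d : Dat K A J Z) (j : J) (n κ' : ℤ) (c : ℕ) (h : (c : ℝ) ≤ d.p.FB n κ') :
    ‖d.F j (n, κ')‖ ≤ (1 / 2) ^ c := by
  refine (d.F_le j _).trans ?_
  rw [one_div, inv_pow, ← Real.rpow_natCast, ← Real.rpow_neg zero_le_two]
  exact Real.rpow_le_rpow_of_exponent_le one_le_two (neg_le_neg h)

private lemma nb0_bd (d : Dat K A J Z) (j : J) (em : k →+* κ) (x : Lw) (k' k₀ n : ℤ) (c : ℕ)
    (h : (c : ℤ) ≤ |2 * k' - k₀|) :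
    ‖conv (d.F j) (phi (Za ℓ cb em T x k')) (-n, -k₀)‖ ≤ (1 / 2) ^ c := by
  refine om_bd (d.F_supp j) k' k₀ (by positivity) n fun n' => nb0_F d j _ _ c ?_
  have h1 : (c : ℝ) ≤ ((|2 * k' - k₀| : ℤ) : ℝ) := by exact_mod_cast h
  exact h1.trans (le_add_of_nonneg_right (d.p.f_nonneg _))

private lemma nb0_step (p : Pm) (n : ℤ) : -2 ≤ p.step 1 2 n ∧ p.step 1 2 n ≤ 2 ∧
    ∀ c : ℤ, -1 ≤ c → c ≤ p.step 1 2 n → n + 3 * p.l ≤ (3 - c) * p.e := by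
  have he := p.a1_e_pos
  have h : ∀ c : ℤ, (n + 3 * p.l - 1) / p.e < c → n + 3 * p.l ≤ c * p.e := fun c hc => by
    have := (Int.ediv_lt_iff_lt_mul he).mp hc
    omega
  unfold Pm.step
  exact ⟨by omega, by omega, fun c h1 h2 => h _ (by omega)⟩

private lemma nb0_T1 (d : Dat K A J Z) (j : J) (em : k →+* κ) {x : Lw} {n r : ℤ}
    (hx : Van T x (4 * d.p.e - d.p.l)) (h1 : -2 ≤ r) (h2 : r ≤ 2)
    (h : -1 ≤ r → n + 3 * d.p.l ≤ (3 - r) * d.p.e) :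
    ‖(1 / 4 : K) • conv (d.F j) (phi (Za ℓ cb em T x 0)) (-n, -0)‖ ≤ 2 ^ (-(r : ℝ)) := by
  have h3 : ‖conv (d.F j) (phi (Za ℓ cb em T x 0)) (-n, -0)‖ ≤ 2 ^ (-(r + 2 : ℝ)) := by
    refine om_bd_van (d.F_supp j) 0 0 (by positivity) hx fun n' hn' => (d.F_le j _).trans
      (Real.rpow_le_rpow_of_exponent_le one_le_two (neg_le_neg ?_))
    unfold Pm.FB
    norm_num
    by_cases c : r = -2
    · have := d.p.f_nonneg n'
      rw [c]
      push_cast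
      linarith
    obtain ⟨k', hk⟩ : ∃ k' : ℕ, r + 1 = k' := ⟨(r + 1).toNat, by omega⟩
    have h4 := d.p.le_f' n' k' (by
      have := h (by omega)
      rw [← hk]
      nlinarith)
    have h5 : (r : ℝ) + 1 = k' := by exact_mod_cast hk
    linarith
  refine (nb0_quart d.two h3).trans (le_of_eq ?_)
  rw [neg_add, Real.rpow_add two_pos, Real.rpow_neg zero_le_two 2]
  norm_num
  ring

private lemma nb0_pow {r : ℤ} {c : ℕ} (h : r ≤ c) : (1 / 2 : ℝ) ^ c ≤ 2 ^ (-(r : ℝ)) := by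
  rw [one_div, inv_pow, ← Real.rpow_natCast, ← Real.rpow_neg zero_le_two]
  exact Real.rpow_le_rpow_of_exponent_le one_le_two (neg_le_neg (by exact_mod_cast h))

variable {v : k[X]} (hv : v ∈ Spl b a) {f : Lw} (hf : IsFt T v f)
  (E : Elt T a (b ^ 2 ^ d.i) X0.c.A2 d.p.e d.p.l f)
include hv hf

lemma Cx.A_zero (j : J) (n : ℤ) (h : 1 ≤ n) :
    ‖d.R0 (L.ov v) (E.rw0 ℓ cb L.emb) (j, ⟨(n, 0), h⟩)‖ ≤ 2 ^ (-(d.p.Rq n 0 : ℝ)) := by
  obtain ⟨s1, s2, s3⟩ := nb0_step d.p n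
  have l1 := d.p.le1
  have l2 := d.p.l_pos
  have h2 := d.two
  have h4 : ‖(4 : K)‖ = 1 / 4 := by
    rw [show (4 : K) = 2 * 2 by norm_num, norm_mul, h2]
    norm_num
  have h0 : (2 : K) ≠ 0 := two_ne_zero
  have e0 : E.rw0 ℓ cb L.emb (j, ⟨(n, 0), h⟩) = E.arr ℓ cb (L.emb j) (-n, 0) := rfl
  rw [show d.p.Rq n 0 = d.p.step 1 2 n by simp [Pm.Rq], Dat.R0, E.vmul_eq, e0, E.arr_zero h]
  generalize d.p.step 1 2 n = r at *
  have t1 := nb0_T1 (ℓ := ℓ) (cb := cb) T d j (L.emb (d.σ j)) (n := n) E.v00 s1 s2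
    fun c => s3 r c le_rfl
  have t4 := om_all (ℓ := ℓ) (cb := cb) (T := T) (x := E.z2) (d.F_dec j) (L.emb_σ j) 1 0 0 1
    (ε := 1 / 2) (by simp) h (X0.F0a j)
  have t5 := om_all (ℓ := ℓ) (cb := cb) (T := T) (x := T.p ((b ^ 2 ^ d.i) ^ 2) * E.y) (d.F_dec j)
    (L.emb_σ j) 1 1 0 4 (ε := 1 / 8) (by rw [h4]; norm_num) h (X0.F2 j)
  have t7 := om_all (ℓ := ℓ) (cb := cb) (T := T) (x := E.y) (d.F_dec j) (L.emb_σ j)
    (((b ^ 2 ^ d.i) ^ 2) ^ 2) (-1) 0 4 (ε := 1 / 8) (by rw [h4]; norm_num) h (X0.Fm2 j)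
  rw [map_one, one_mul] at t4 t5
  rw [map_pow, ← mul_pow] at t7
  have t6 := nb0_bd (ℓ := ℓ) (cb := cb) T d j (L.emb (d.σ j))
    ((T.p ((b ^ 2 ^ d.i) ^ 2) * E.y) ^ 2) 2 0 n 4 (by norm_num)
  have t8 := nb0_bd (ℓ := ℓ) (cb := cb) T d j (L.emb (d.σ j)) (E.y ^ 2) (-2) 0 n 4 (by norm_num)
  have t9 := X0.Err_zero T hv hf j n h
  generalize ∑ z ∈ L.ov v, d.Err z (j, ⟨(n, 0), h⟩) = Er at *
  generalize conv (d.F j) (phi (Za ℓ cb (L.emb (d.σ j)) T (E.z0 ^ 2) 0)) (-n, -0) = c1 at *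
  generalize conv (d.F j) (phi (Za ℓ cb (L.emb (d.σ j)) T E.z2 0)) (-n, -0) = c4 at *
  generalize conv (d.F j) (phi (Za ℓ cb (L.emb (d.σ j)) T
    (T.p ((b ^ 2 ^ d.i) ^ 2) * E.y) 1)) (-n, -0) = c5 at *
  generalize conv (d.F j) (phi (Za ℓ cb (L.emb (d.σ j)) T
    ((T.p ((b ^ 2 ^ d.i) ^ 2) * E.y) ^ 2) 2)) (-n, -0) = c6 at *
  generalize conv (d.F j) (phi (Za ℓ cb (L.emb (d.σ j)) T E.y (-1))) (-n, -0) = c7 at *
  generalize conv (d.F j) (phi (Za ℓ cb (L.emb (d.σ j)) T (E.y ^ 2) (-2))) (-n, -0) = c8 at *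
  have hZ : ∀ x, ‖Zl ℓ cb (L.emb j) T x (-n)‖ ≤ 1 := fun x => Zl_le _
  have hadd : ∀ x y, ‖Zl ℓ cb (L.emb j) T (x + y) (-n) -
      (Zl ℓ cb (L.emb j) T x (-n) + Zl ℓ cb (L.emb j) T y (-n))‖ ≤ 1 / 2 := fun x y => Zl_add x y _
  have four : ∀ x : A, ‖x‖ ≤ 1 → ‖(4 : K) • x‖ ≤ 1 / 4 := fun x hx => by
    rw [norm_smul, h4]
    linarith
  have hs := syl_add (syl_add (syl_add (syl_add (syl_add (syl_add (syl_sub t9 (four _ (hZ E.z2)))
    ((nb0_two h2 t4).trans (by norm_num))) ((nb0_half h2 t5).trans (by norm_num)))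
    ((nb0_quart h2 t6).trans (by norm_num))) ((nb0_half h2 t7).trans (by norm_num)))
    ((nb0_quart h2 t8).trans (by norm_num)))
    (four _ (hZ ((T.p ((b ^ 2 ^ d.i) ^ 2) * E.y) ^ 2)))
  have key : ‖(2 : K) • Zl ℓ cb (L.emb j) T (T.P.b * f + (T.P.b * f) ^ 2) (-n) +
      (2 : K) • Zl ℓ cb (L.emb j) T (E.z2 ^ 2) (-n) -
      (1 / 2 : K) • Zl ℓ cb (L.emb j) T (E.z0 ^ 2) (-n) - Zl ℓ cb (L.emb j) T E.z0 (-n) -
      (2 : K) • Zl ℓ cb (L.emb j) T E.z1 (-n) +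
      (1 / 2 : K) • conv (d.F j) (phi (Za ℓ cb (L.emb (d.σ j)) T E.z0 0)) (-n, -0) +
      conv (d.F j) (phi (Za ℓ cb (L.emb (d.σ j)) T E.z1 0)) (-n, -0)‖ ≤ 2 ^ (-(r : ℝ)) := by
    have u3 := om_all (ℓ := ℓ) (cb := cb) (T := T) (x := E.z1) (d.F_dec j) (L.emb_σ j) 1 0 0 1
      (ε := 1 / 2) (by simp) h (X0.F0a j)
    rw [map_one, one_mul, one_smul] at u3
    have w1 := nb0_two h2 (hZ (T.P.b * f + (T.P.b * f) ^ 2))
    have w2 := nb0_two h2 (hZ (E.z2 ^ 2))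
    have w3 := nb0_two h2 (hZ E.z1)
    by_cases c2 : 2 ≤ r
    · have hn := s3 2 (by norm_num) c2
      have u2 := om_van (ℓ := ℓ) (cb := cb) (T := T) (d.F_dec j) (L.emb_σ j)
        (X0.c.A2 + (b ^ 2 ^ d.i) ^ 2) 0 0 4 (ε := 1 / 8) (by rw [h4]; norm_num) h E.v0
        fun m hm => X0.F0c j m (by omega)
      have u4 := om_van (ℓ := ℓ) (cb := cb) (T := T) (d.F_dec j) (L.emb_σ j) a 0 0 2 (ε := 1 / 4)
        (by rw [h2]; norm_num) h E.v1 fun m hm => X0.F0b j m (by omega)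
      have z := Zl_van (ℓ := ℓ) (cb := cb) (em := L.emb j) (a := n) E.i0 (by omega)
      have a1 := hadd (E.z1 + T.p (X0.c.A2 + (b ^ 2 ^ d.i) ^ 2) * E.z0 ^ 2 + T.p a * E.z1 ^ 2 +
        E.z2 ^ 2) (T.P.b * f + (T.P.b * f) ^ 2)
      have a2 := hadd (E.z1 + T.p (X0.c.A2 + (b ^ 2 ^ d.i) ^ 2) * E.z0 ^ 2 + T.p a * E.z1 ^ 2)
        (E.z2 ^ 2)
      have a3 := hadd (E.z1 + T.p (X0.c.A2 + (b ^ 2 ^ d.i) ^ 2) * E.z0 ^ 2) (T.p a * E.z1 ^ 2)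
      have a4 := hadd E.z1 (T.p (X0.c.A2 + (b ^ 2 ^ d.i) ^ 2) * E.z0 ^ 2)
      rw [z] at a1
      have a5 := syl_sub (syl_sub (syl_add ((nb0_half h2 u2).trans (by norm_num)) u4)
        (four _ (hZ E.z1)))
        ((nb0_two h2 (syl_add (syl_add (syl_add a1 a2) a3) a4)).trans (by norm_num))
      rw [Zl_van (a := n) E.v00 (by omega), Zl_van (a := n) E.v0 (by omega)]
      refine le_of_eq_of_le (congrArg _ ?_)
        (a5.trans (le_of_eq_of_le (by norm_num) (nb0_pow (c := 2) s2)))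
      module
    by_cases c1 : 1 ≤ r
    · have hn := s3 1 (by norm_num) c1
      have u2 := om_van (ℓ := ℓ) (cb := cb) (T := T) (d.F_dec j) (L.emb_σ j) a 0 0 2 (ε := 1 / 4)
        (by rw [h2]; norm_num) h E.v0 fun m hm => X0.F0b j m (by omega)
      have z := Zl_van (ℓ := ℓ) (cb := cb) (em := L.emb j) (a := n) E.i0' (by omega)
      have a1 := hadd (E.z0 + T.p a * E.z0 ^ 2) (E.z1 ^ 2)
      have a2 := hadd E.z0 (T.p a * E.z0 ^ 2)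
      rw [z] at a1
      have a5 := syl_sub (syl_sub (syl_add (syl_add (syl_sub (syl_add w1 w2) w3)
        ((nb0_half h2 u2).trans (by norm_num))) u3) (nb0_two h2 (hZ E.z0))) (syl_add a1 a2)
      rw [Zl_van (a := n) E.v00 (by omega)]
      refine le_of_eq_of_le (congrArg _ ?_)
        (a5.trans (le_of_eq_of_le (by norm_num) (nb0_pow (c := 1) (by omega))))
      module
    · have u2 := om_all (ℓ := ℓ) (cb := cb) (T := T) (x := E.z0) (d.F_dec j) (L.emb_σ j) 1 0 0 1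
        (ε := 1 / 2) (by simp) h (X0.F0a j)
      rw [map_one, one_mul, one_smul] at u2
      have a5 := syl_add (syl_sub (syl_add (((syl_add (syl_sub (syl_add w1 w2) w3) u3)).trans
        (by norm_num)) ((nb0_half h2 u2).trans (by norm_num))) (hZ E.z0)) (hZ (E.z1 ^ 2))
      refine le_of_eq_of_le (congrArg _ ?_)
        (a5.trans (le_of_eq_of_le (by norm_num) (nb0_pow (c := 0) (by omega))))
      module
  refine le_of_eq_of_le (congrArg _ ?_) (syl_add (syl_add t1 key)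
    (hs.trans (le_of_eq_of_le (by norm_num) (nb0_pow (c := 2) s2))))
  rw [two_mul, ← two_smul K]
  module

end Pool.Agent.Lib.MP_788af2_nt.AG
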