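import Pool.Agent.Lib.MP_788af2_nt.AG.NBErr

/-!
The defect in the sectors next to the middle one.
-/

set_option linter.unusedSectionVars false

namespace Pool.Agent.Lib.MP_788af2_nt.AG

open Polynomial Filter Topology Pool.Agent.Lib.MP_788af2_nt.AS Pool.Agent.Lib.MP_a3f657_nt.Two

open scoped Classical

variable {K A J Z k κ I Lw : Type} [NontriviallyNormedField K] [IsUltrametricDist K]
  [CompleteSpace K] [CharZero K] [NormedCommRing A] [NormedAlgebra K A] [IsUltrametricDist A]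
  [CompleteSpace A] [NormOneClass A] [Fintype J] [Fintype Z] [DecidableEq J] [DecidableEq Z]
  [Field k] [Fintype k] [CharP k 2] [Field κ] [CharP κ 2] [IsAlgClosed κ] [Fintype I]
  [DecidableEq I] {δ : I → ℝ} [Field Lw] [CharP Lw 2]

variable {d : Dat K A J Z} {ℓ : Lift K κ} {cb : Cube K I A δ} {a b : k[X]} {β : I → k[X]}
  {L : Lnk d.toGeo ℓ b} (X0 : Cx d ℓ cb a b β L) (T : Tw β Lw)

private lemma nb1_two (h2 : ‖(2 : K)‖ = 1 / 2) {x : A} {c : ℝ} (h : ‖x‖ ≤ c) :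
    ‖(2 : K) • x‖ ≤ c / 2 := by
  rw [norm_smul, h2]
  linarith

private lemma nb1_half (h2 : ‖(2 : K)‖ = 1 / 2) {x : A} {c : ℝ} (h : ‖x‖ ≤ c) :
    ‖(1 / 2 : K) • x‖ ≤ 2 * c := by
  rw [norm_smul, norm_div, norm_one, h2]
  linarith

private lemma nb1_quart (h2 : ‖(2 : K)‖ = 1 / 2) {x : A} {c : ℝ} (h : ‖x‖ ≤ c) :
    ‖(1 / 4 : K) • x‖ ≤ 4 * c := by
  rw [norm_smul, norm_div, norm_one, show (4 : K) = 2 * 2 by norm_num, norm_mul, h2]
  linarith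

private lemma nb1_F (d : Dat K A J Z) (j : J) (n κ' : ℤ) (c : ℕ) (h : (c : ℝ) ≤ d.p.FB n κ') :
    ‖d.F j (n, κ')‖ ≤ (1 / 2) ^ c := by
  refine (d.F_le j _).trans ?_
  rw [one_div, inv_pow, ← Real.rpow_natCast, ← Real.rpow_neg zero_le_two]
  exact Real.rpow_le_rpow_of_exponent_le one_le_two (neg_le_neg h)

private lemma nb1_bd (d : Dat K A J Z) (j : J) (em : k →+* κ) (x : Lw) (k' k₀ n : ℤ) (c : ℕ)
    (h : (c : ℤ) ≤ |2 * k' - k₀|) :
    ‖conv (d.F j) (phi (Za ℓ cb em T x k')) (-n, -k₀)‖ ≤ (1 / 2) ^ c := by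
  refine om_bd (d.F_supp j) k' k₀ (by positivity) n fun n' => nb1_F d j _ _ c ?_
  have h1 : (c : ℝ) ≤ ((|2 * k' - k₀| : ℤ) : ℝ) := by exact_mod_cast h
  exact h1.trans (le_add_of_nonneg_right (d.p.f_nonneg _))

/-- The term with the denominator four in the middle sector. -/
private lemma nb1_T1 (d : Dat K A J Z) (j : J) (em : k →+* κ) {x : Lw} {R k₀ n r : ℤ}
    (hx : Van T x R) (hk : |2 * 0 - k₀| = 1) (hr : r ≤ 1)
    (h1 : r = 1 → d.p.e + d.p.l ≤ R - n - 2 * d.p.m * max 0 (-(2 * 0 - k₀)))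
    (h0 : r = 0 → d.p.l ≤ R - n - 2 * d.p.m * max 0 (-(2 * 0 - k₀))) :
    ‖(1 / 4 : K) • conv (d.F j) (phi (Za ℓ cb em T x 0)) (-n, -k₀)‖ ≤ 2 ^ (-(r : ℝ)) := by
  have h2 : ‖conv (d.F j) (phi (Za ℓ cb em T x 0)) (-n, -k₀)‖ ≤ 2 ^ (-(r + 2 : ℝ)) := by
    refine om_bd_van (d.F_supp j) 0 k₀ (by positivity) hx fun n' hn' => (d.F_le j _).trans
      (Real.rpow_le_rpow_of_exponent_le one_le_two (neg_le_neg ?_))
    unfold Pm.FB
    simp only [hk]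
    generalize 2 * d.p.m * max 0 (-(2 * 0 - k₀)) = M at *
    have h3 := d.p.f_nonneg (n' - M)
    by_cases c1 : r = 1
    · have h4 := d.p.le_f' (n' - M) 1 (by have := h1 c1; push_cast; omega)
      rw [c1]
      push_cast at h4 ⊢
      linarith
    by_cases c0 : r = 0
    · have h4 := d.p.le_f' (n' - M) 0 (by have := h0 c0; push_cast; omega)
      rw [c0]
      push_cast at h4 ⊢
      linarith
    · have h4 : (r : ℝ) ≤ -1 := by exact_mod_cast (by omega : r ≤ -1)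
      push_cast
      linarith
  refine (nb1_quart d.two h2).trans (le_of_eq ?_)
  rw [neg_add, Real.rpow_add two_pos, Real.rpow_neg zero_le_two 2]
  norm_num
  ring

/-- The three main terms. -/
private lemma nb1_main (h2 : ‖(2 : K)‖ = 1 / 2) (em : k →+* κ) (x y z : Lw) (n : ℤ) {u w : A}
    (hu : ‖u - (2 : K) • Zl ℓ cb em T y n‖ ≤ 1 / 4) (hw : ‖w - (2 : K) • Zl ℓ cb em T z n‖ ≤ 1 / 4) :
    ‖-(2 * (1 / 2 : K) • Zl ℓ cb em T x n) + (1 / 2 : K) • u + (1 / 2 : K) • w -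
      Zl ℓ cb em T (x + y + z) n‖ ≤ 1 / 2 := by
  have h0 : (2 : K) ≠ 0 := two_ne_zero
  have e : -(2 * (1 / 2 : K) • Zl ℓ cb em T x n) + (1 / 2 : K) • u + (1 / 2 : K) • w -
      Zl ℓ cb em T (x + y + z) n = (1 / 2 : K) • (u - (2 : K) • Zl ℓ cb em T y n) +
        (1 / 2 : K) • (w - (2 : K) • Zl ℓ cb em T z n) - (2 : K) • Zl ℓ cb em T x n -
        (Zl ℓ cb em T (x + y + z) n - (Zl ℓ cb em T (x + y) n + Zl ℓ cb em T z n)) -
        (Zl ℓ cb em T (x + y) n - (Zl ℓ cb em T x n + Zl ℓ cb em T y n)) := by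
    rw [two_mul, ← two_smul K]
    module
  rw [e]
  exact syl_sub (syl_sub (syl_sub (syl_add ((nb1_half h2 hu).trans (by norm_num))
    ((nb1_half h2 hw).trans (by norm_num))) (nb1_two h2 (Zl_le n))) (Zl_add _ _ n)) (Zl_add _ _ n)

private lemma nb1_step (p : Pm) (k₀ n : ℤ) : p.step k₀ 1 n ≤ 1 ∧
    (p.step k₀ 1 n = 1 → n + 3 * p.l ≤ k₀ * p.e) ∧
    (p.step k₀ 1 n = 0 → n + 3 * p.l ≤ (k₀ + 1) * p.e) := by
  have he := p.a1_e_pos
  have h : ∀ c : ℤ, (n + 3 * p.l - 1) / p.e < c → n + 3 * p.l ≤ c * p.e := fun c hc => by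
    have := (Int.ediv_lt_iff_lt_mul he).mp hc
    omega
  unfold Pm.step
  exact ⟨by omega, fun h1 => h _ (by omega), fun h1 => h _ (by omega)⟩

private lemma nb1_fin {r : ℤ} (hr : r ≤ 1) {t w s : A} (ht : ‖t‖ ≤ 2 ^ (-(r : ℝ)))
    (hw : ‖w‖ ≤ 1) (hw' : r = 1 → w = 0) (hs : ‖s‖ ≤ 1 / 2) : ‖t + w + s‖ ≤ 2 ^ (-(r : ℝ)) := by
  refine syl_add (syl_add ht ?_) (hs.trans ?_)
  · by_cases h : r = 1
    · rw [hw' h, norm_zero]
      positivity
    · refine hw.trans (Real.one_le_rpow one_le_two ?_)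
      have : (r : ℝ) ≤ 0 := by exact_mod_cast (by omega : r ≤ 0)
      linarith
  · rw [one_div, ← Real.rpow_neg_one]
    refine Real.rpow_le_rpow_of_exponent_le one_le_two (neg_le_neg ?_)
    exact_mod_cast hr

variable {v : k[X]} (hv : v ∈ Spl b a) {f : Lw} (hf : IsFt T v f)
  (E : Elt T a (b ^ 2 ^ d.i) X0.c.A2 d.p.e d.p.l f)
include hv hf

lemma Cx.A_one (j : J) (n : ℤ) (h : 1 ≤ n) :
    ‖d.R0 (L.ov v) (E.rw0 ℓ cb L.emb) (j, ⟨(n, 1), h⟩)‖ ≤ 2 ^ (-(d.p.Rq n 1 : ℝ)) := by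
  obtain ⟨s1, s2, s3⟩ := nb1_step d.p 1 n
  have l1 := d.p.le1
  have l2 := d.p.l_pos
  have e0 : E.rw0 ℓ cb L.emb (j, ⟨(n, 1), h⟩) = E.arr ℓ cb (L.emb j) (-n, -1) := rfl
  have t1 := nb1_T1 (ℓ := ℓ) (cb := cb) T d j (L.emb (d.σ j)) (k₀ := 1) (n := n) E.v00
    (by norm_num) s1 (fun c => by have := s2 c; norm_num; omega)
    (fun c => by have := s3 c; norm_num; omega)
  have t2 := om_all (T := T) (x := E.z0) (d.F_dec j) (L.emb_σ j) _ 0 1 2 (by rw [d.two]; norm_num) h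
    (X0.Fm1a j)
  have t5 := om_all (T := T) (x := T.p ((b ^ 2 ^ d.i) ^ 2) * E.y) (d.F_dec j) (L.emb_σ j) _ 1 1 2
    (by rw [d.two]; norm_num) h (X0.F1a j)
  rw [map_one, one_mul] at t5
  have m := nb1_main T d.two (L.emb j) (T.p ((b ^ 2 ^ d.i) ^ 2) * E.y) _ _ _ t2 t5
  have bd := fun x k' c => nb1_bd (ℓ := ℓ) (cb := cb) T d j (L.emb (d.σ j)) x k' 1 n c
  have hs := syl_add (syl_add (syl_add (syl_add (syl_add (syl_add m
    ((X0.Err_one hv j n h).trans (by norm_num)))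
    ((bd E.z1 0 1 (by norm_num)).trans (by norm_num)))
    ((nb1_two d.two (bd E.z2 0 1 (by norm_num))).trans (by norm_num)))
    ((nb1_quart d.two (bd ((T.p ((b ^ 2 ^ d.i) ^ 2) * E.y) ^ 2) 2 3 (by norm_num))).trans
      (by norm_num)))
    ((nb1_half d.two (bd E.y (-1) 3 (by norm_num))).trans (by norm_num)))
    ((nb1_quart d.two (bd (E.y ^ 2) (-2) 3 (by norm_num))).trans (by norm_num))
  rw [show d.p.Rq n 1 = d.p.step 1 1 n by simp [Pm.Rq], Dat.R0, E.vmul_eq, e0,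
    E.arr_one h]
  refine le_of_eq_of_le (congrArg _ ?_) (nb1_fin s1 t1 (Zl_le _)
    (fun c => Zl_van (ℓ := ℓ) (cb := cb) (em := L.emb j) (a := n) E.i1 (by have := s2 c; omega)) hs)
  abel

lemma Cx.A_neg_one (j : J) (n : ℤ) (h : 1 ≤ n) :
    ‖d.R0 (L.ov v) (E.rw0 ℓ cb L.emb) (j, ⟨(n, -1), h⟩)‖ ≤ 2 ^ (-(d.p.Rq n (-1) : ℝ)) := by
  obtain ⟨s1, s2, s3⟩ := nb1_step d.p 3 n
  have l1 := d.p.le1
  have l2 := d.p.l_pos
  have e0 : E.rw0 ℓ cb L.emb (j, ⟨(n, -1), h⟩) = E.arr ℓ cb (L.emb j) (-n, 1) :=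
    congrArg (E.arr ℓ cb (L.emb j)) (Prod.ext rfl (neg_neg 1))
  have t1 := nb1_T1 (ℓ := ℓ) (cb := cb) T d j (L.emb (d.σ j)) (k₀ := -1) (n := n) E.v00
    (by norm_num) s1 (fun c => by have := s2 c; norm_num; omega)
    (fun c => by have := s3 c; norm_num; omega)
  have t2 := om_all (ℓ := ℓ) (cb := cb) (T := T) (x := E.z0) (d.F_dec j) (L.emb_σ j) 1 0 (-1) 2
    (ε := 1 / 4)
    (by rw [d.two]; norm_num) h fun m => by
      rw [show (2 : ℤ) * 0 - -1 = 1 by norm_num]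
      exact X0.F1a j m
  have t7 := om_all (ℓ := ℓ) (cb := cb) (T := T) (x := E.y) (d.F_dec j) (L.emb_σ j)
    ((b ^ 2 ^ d.i) ^ 2) (-1) (-1) 2
    (ε := 1 / 4) (by rw [d.two]; norm_num) h fun m => by
      rw [show (2 : ℤ) * -1 - -1 = -1 by norm_num]
      exact X0.Fm1a j m
  rw [map_one, one_mul] at t2
  have m := nb1_main T d.two (L.emb j) E.y _ _ _ t2 t7
  have bd := fun x k' c => nb1_bd (ℓ := ℓ) (cb := cb) T d j (L.emb (d.σ j)) x k' (-1) n c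
  have hs := syl_add (syl_add (syl_add (syl_add (syl_add (syl_add m
    ((X0.Err_neg_one hv j n h).trans (by norm_num)))
    ((bd E.z1 0 1 (by norm_num)).trans (by norm_num)))
    ((nb1_two d.two (bd E.z2 0 1 (by norm_num))).trans (by norm_num)))
    ((nb1_half d.two (bd (T.p ((b ^ 2 ^ d.i) ^ 2) * E.y) 1 3 (by norm_num))).trans (by norm_num)))
    ((nb1_quart d.two (bd ((T.p ((b ^ 2 ^ d.i) ^ 2) * E.y) ^ 2) 2 3 (by norm_num))).trans
      (by norm_num)))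
    ((nb1_quart d.two (bd (E.y ^ 2) (-2) 3 (by norm_num))).trans (by norm_num))
  rw [show d.p.Rq n (-1) = d.p.step 3 1 n by simp [Pm.Rq], Dat.R0, E.vmul_eq, e0,
    E.arr_neg_one h]
  refine le_of_eq_of_le (congrArg _ ?_) (nb1_fin s1 t1 (Zl_le _) (fun c =>
    Zl_van (ℓ := ℓ) (cb := cb) (em := L.emb j) (a := n) E.im1 (by have := s2 c; omega)) hs)
  abel

end Pool.Agent.Lib.MP_788af2_nt.AG
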