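import Pool.Agent.Lib.MP_788af2_nt.AG.NBErr

/-!
The defect in the outer sectors and on the test range.
-/

set_option linter.unusedSectionVars false

namespace Pool.Agent.Lib.MP_788af2_nt.AG

open Polynomial Filter Topology Pool.Agent.Lib.MP_788af2_nt.AS Pool.Agent.Lib.MP_a3f657_nt.Two

open scoped Classical

variable {K A J Z k κ I Lw : Type} [NontriviallyNormedField K] [IsUltrametricDist K]
  [CompleteSpace K] [CharZero K] [NormedCommRing A] [NormedAlgebra K A] [IsUltrametricDist A]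
  [CompleteSpace A] [NormOneClass A] [Fintype J] [Fintype Z] [DecidableEq J] [DecidableEq Z]
  [Field k] [Fintype k] [CharP k 2] [Field κ] [CharP κ 2] [IsAlgClosed κ] [Fintype I]
  [DecidableEq I] {δ : I → ℝ} [Field Lw] [CharP Lw 2]

lemma nba2_add {x y : A} {c : ℝ} (hx : ‖x‖ ≤ c) (hy : ‖y‖ ≤ c) : ‖x + y‖ ≤ c :=
  (IsUltrametricDist.norm_add_le_max x y).trans (max_le hx hy)

lemma nba2_neg {x : A} {c : ℝ} (hx : ‖x‖ ≤ c) : ‖-x‖ ≤ c := by rwa [norm_neg]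

lemma nba2_smul {r : K} {x : A} {s t c : ℝ} (hr : ‖r‖ = s) (hx : ‖x‖ ≤ t) (h : s * t ≤ c) :
    ‖r • x‖ ≤ c := by
  rw [norm_smul, hr]
  exact (mul_le_mul_of_nonneg_left hx (hr ▸ norm_nonneg r)).trans h

lemma nba2_F (d : Dat K A J Z) (j : J) (n : ℕ) (q : ℤ) (m : ℕ)
    (h : (m : ℝ) ≤ d.p.FB n q) : ‖d.F j (n, q)‖ ≤ 1 / 2 ^ m := by
  refine (d.F_le j (n, q)).trans ?_
  rw [one_div, ← Real.rpow_natCast, ← Real.rpow_neg zero_le_two]
  exact Real.rpow_le_rpow_of_exponent_le one_le_two (neg_le_neg h)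

lemma nba2_F' (d : Dat K A J Z) (j : J) (n : ℕ) (q : ℤ) (m : ℕ) (h : (m : ℤ) ≤ |q|) :
    ‖d.F j (n, q)‖ ≤ 1 / 2 ^ m := by
  refine nba2_F d j n q m ?_
  have h1 := d.p.f_nonneg (n - 2 * d.p.m * max 0 (-q))
  have h2 : (m : ℝ) ≤ ((|q| : ℤ) : ℝ) := by exact_mod_cast h
  unfold Pm.FB
  linarith

lemma nba2_bd (d : Dat K A J Z) {ℓ : Lift K κ} {cb : Cube K I A δ} {em : k →+* κ}
    {β : I → k[X]} {T : Tw β Lw} (j : J) (x : Lw) (k' k₀ n : ℤ) (m : ℕ)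
    (h : (m : ℤ) ≤ |2 * k' - k₀|) :
    ‖conv (d.F j) (phi (Za ℓ cb em T x k')) (-n, -k₀)‖ ≤ 1 / 2 ^ m :=
  om_bd (d.F_supp j) k' k₀ (by positivity) n fun n' => nba2_F' d j n' _ m h

lemma nba2_four (h2 : ‖(2 : K)‖ = 1 / 2) : ‖(4 : K)‖ = 1 / 4 := by
  rw [show (4 : K) = 2 * 2 by norm_num, norm_mul, h2]
  norm_num

lemma nba2_half (h2 : ‖(2 : K)‖ = 1 / 2) : ‖(1 / 2 : K)‖ = 2 := by
  rw [norm_div, norm_one, h2]
  norm_num

lemma nba2_quarter (h2 : ‖(2 : K)‖ = 1 / 2) : ‖(1 / 4 : K)‖ = 4 := by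
  rw [norm_div, norm_one, nba2_four h2]
  norm_num

lemma nba2_two (x : A) : 2 * x = (2 : K) • x := by
  rw [Algebra.smul_def, map_ofNat]

variable {d : Dat K A J Z} {ℓ : Lift K κ} {cb : Cube K I A δ} {a b : k[X]} {β : I → k[X]}
  {L : Lnk d.toGeo ℓ b} (X0 : Cx d ℓ cb a b β L) (T : Tw β Lw)

variable {v : k[X]} (hv : v ∈ Spl b a) {f : Lw} (hf : IsFt T v f)
  (E : Elt T a (b ^ 2 ^ d.i) X0.c.A2 d.p.e d.p.l f)

lemma nba2_far (j : J) (n q : ℤ) (hn : 1 ≤ n) (h : 2 ≤ |q|) :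
    ‖-(2 * E.rw0 ℓ cb L.emb (j, ⟨(n, q), hn⟩)) + vmul (E.rw0 ℓ cb L.emb) (d.M 1) (j, ⟨(n, q), hn⟩)‖ ≤
      2 ^ (-(d.p.Rq n q : ℝ)) := by
  have h2 := d.two
  have hh := nba2_half h2
  have hq := nba2_quarter h2
  have hR : d.p.Rq n q = max (-2) (2 - |q|) := by
    unfold Pm.Rq
    rw [if_neg (by rintro rfl; simp at h), if_neg (by rintro rfl; simp at h),
      if_neg (by rintro rfl; simp at h)]
  have hem : ∀ c, L.emb (d.σ j) c = L.emb j c ^ 2 := L.emb_σ j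
  have q2 : ((2 : ℕ) : ℤ) ≤ |2 * 0 - q| := by simpa using h
  have b1 := nba2_smul (c := 1) hq (nba2_bd (ℓ := ℓ) (cb := cb) (em := L.emb (d.σ j)) (T := T)
    d j (E.z0 ^ 2) 0 q n 2 q2) (by norm_num)
  have b2 := nba2_smul (c := 1) hh (nba2_bd (ℓ := ℓ) (cb := cb) (em := L.emb (d.σ j)) (T := T)
    d j E.z0 0 q n 2 q2) (by norm_num)
  have b3 := (nba2_bd (ℓ := ℓ) (cb := cb) (em := L.emb (d.σ j)) (T := T)
    d j E.z1 0 q n 2 q2).trans (show (1 : ℝ) / 2 ^ 2 ≤ 1 by norm_num)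
  have b4 := nba2_smul (c := 1) h2 (nba2_bd (ℓ := ℓ) (cb := cb) (em := L.emb (d.σ j)) (T := T)
    d j E.z2 0 q n 2 q2) (by norm_num)
  have b0 := nba2_add (nba2_add (nba2_add b1 b2) b3) b4
  have c5 := fun m hm => nba2_bd (ℓ := ℓ) (cb := cb) (em := L.emb (d.σ j)) (T := T)
    d j (T.p ((b ^ 2 ^ d.i) ^ 2) * E.y) 1 q n m hm
  have c6 := fun m hm => nba2_bd (ℓ := ℓ) (cb := cb) (em := L.emb (d.σ j)) (T := T)
    d j ((T.p ((b ^ 2 ^ d.i) ^ 2) * E.y) ^ 2) 2 q n m hm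
  have c7 := fun m hm => nba2_bd (ℓ := ℓ) (cb := cb) (em := L.emb (d.σ j)) (T := T)
    d j E.y (-1) q n m hm
  have c8 := fun m hm => nba2_bd (ℓ := ℓ) (cb := cb) (em := L.emb (d.σ j)) (T := T)
    d j (E.y ^ 2) (-2) q n m hm
  rw [E.vmul_eq d L.emb j n q hn, hR, nba2_two (K := K)]
  change ‖-((2 : K) • E.arr ℓ cb (L.emb j) (-n, -q)) + _‖ ≤ _
  rcases eq_or_ne q 2 with rfl | n2
  · have o := om_all (T := T) (x := T.p ((b ^ 2 ^ d.i) ^ 2) * E.y) (d.F_dec j) hem 1 1 2 (1 : K)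
      (ε := 1 / 2) (by simp) hn (fun n' => by simpa using X0.F0a j n')
    have o' := nba2_smul (c := 1) hh o (by norm_num)
    have b6 := nba2_smul (c := 1) hq (c6 2 (by norm_num)) (by norm_num)
    have b7 := nba2_smul (c := 1) hh (c7 2 (by norm_num)) (by norm_num)
    have b8 := nba2_smul (c := 1) hq (c8 2 (by norm_num)) (by norm_num)
    have e := nba2_add (nba2_add (nba2_add (nba2_add b0 o') b6) b7) b8
    rw [E.arr_two hn, smul_smul]
    norm_num at e ⊢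
    convert e using 2
    rw [smul_sub]
    abel
  rcases eq_or_ne q (-2) with rfl | n3
  · have o := om_all (T := T) (x := E.y) (d.F_dec j) hem 1 (-1) (-2) (1 : K)
      (ε := 1 / 2) (by simp) hn (fun n' => by simpa using X0.F0a j n')
    have o' := nba2_smul (c := 1) hh o (by norm_num)
    have b5 := nba2_smul (c := 1) hh (c5 2 (by norm_num)) (by norm_num)
    have b6 := nba2_smul (c := 1) hq (c6 2 (by norm_num)) (by norm_num)
    have b8 := nba2_smul (c := 1) hq (c8 2 (by norm_num)) (by norm_num)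
    have e := nba2_add (nba2_add (nba2_add (nba2_add b0 b5) b6) o') b8
    rw [neg_neg, E.arr_neg_two hn, smul_smul]
    norm_num at e ⊢
    convert e using 2
    rw [smul_sub]
    abel
  have h3 : 2 < |q| := by
    rcases abs_cases q with c | c <;> omega
  rw [E.arr_far (-n, -q) (by simpa using h3), smul_zero, neg_zero, zero_add]
  rcases eq_or_ne |q| 3 with e3 | e3
  · have b5 := nba2_smul (c := 2) hh (c5 0 (by simp)) (by norm_num)
    have b6 := nba2_smul (c := 2) hq (c6 1 (by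
      rcases abs_cases q with c | c <;> rcases abs_cases (2 * 2 - q) with c' | c' <;> omega))
      (by norm_num)
    have b7 := nba2_smul (c := 2) hh (c7 0 (by simp)) (by norm_num)
    have b8 := nba2_smul (c := 2) hq (c8 1 (by
      rcases abs_cases q with c | c <;> rcases abs_cases (2 * -2 - q) with c' | c' <;> omega))
      (by norm_num)
    refine (nba2_add (nba2_add (nba2_add (nba2_add (b0.trans one_le_two) b5) b6) b7) b8).trans ?_
    rw [e3]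
    norm_num
  · have b5 := nba2_smul (c := 4) hh (c5 0 (by simp)) (by norm_num)
    have b6 := nba2_smul (c := 4) hq (c6 0 (by simp)) (by norm_num)
    have b7 := nba2_smul (c := 4) hh (c7 0 (by simp)) (by norm_num)
    have b8 := nba2_smul (c := 4) hq (c8 0 (by simp)) (by norm_num)
    refine (nba2_add (nba2_add (nba2_add (nba2_add (b0.trans (by norm_num)) b5) b6) b7) b8).trans ?_
    rw [max_eq_left (by omega)]
    norm_num

include hv hf

lemma Cx.A_far (r : J × Ex 1) (h : 2 ≤ |r.2.1.2|) :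
    ‖d.R0 (L.ov v) (E.rw0 ℓ cb L.emb) r‖ ≤ 2 ^ (d.p.Vi r - 9 / 10) := by
  obtain ⟨j, ⟨n, q⟩, hn⟩ := r
  unfold Dat.R0
  rw [sub_eq_add_neg, add_assoc]
  refine nba2_add (X0.Err_far hv _ h) ((nba2_far X0 T E j n q hn h).trans ?_)
  refine Real.rpow_le_rpow_of_exponent_le one_le_two ?_
  have := d.p.Rq_le q hn
  unfold Pm.Vi
  simp only
  linarith

lemma Cx.A_test (j : J) (n : ℤ) (h : 1 ≤ n) (hn : n ≤ 2 * d.p.m + d.p.l) :
    ‖d.R0 (L.ov v) (E.rw0 ℓ cb L.emb) (j, ⟨(n, -1), h⟩) - (2 : K) • Zl ℓ cb (L.emb j) T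
      (T.p a * E.z0 ^ 2 + E.z1 ^ 2 + T.p (a * (b ^ 2 ^ d.i) ^ 2) * E.y ^ 2) (-n)‖ ≤ 1 / 4 := by
  have h2 := d.two
  have h4 := nba2_four h2
  have hh := nba2_half h2
  have hq := nba2_quarter h2
  have l1 : (d.p.m : ℤ) + 10 * d.p.l ≤ d.p.e := by exact_mod_cast d.p.le1
  have l2 : (1 : ℤ) ≤ d.p.l := by exact_mod_cast d.p.l_pos
  have hem : ∀ c, L.emb (d.σ j) c = L.emb j c ^ 2 := L.emb_σ j
  have b0 := X0.Err_neg_one hv j n h
  have b1 := nba2_smul (c := 1 / 4) hq (om_bd_van (ℓ := ℓ) (cb := cb) (em' := L.emb (d.σ j))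
    (d.F_supp j) 0 (-1) (ε := 1 / 2 ^ 4) (a := n) (by positivity) E.v00 fun n' hn' => by
      refine nba2_F d j n' _ 4 ?_
      have := d.p.le_f' n' 2 (by push_cast; omega)
      unfold Pm.FB
      norm_num at this ⊢
      linarith) (by norm_num)
  have b2 := nba2_smul (c := 1 / 4) hh (om_van (cb := cb) (d.F_dec j) hem a 0 (-1) (4 : K)
    (ε := 1 / 8) (by rw [h4]; norm_num) h E.v0 fun n' hn' => by
      simpa using X0.F1b j n' (by omega)) (by norm_num)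
  have b3 := om_all (T := T) (x := E.z1) (cb := cb) (d.F_dec j) hem 1 0 (-1) (2 : K)
    (ε := 1 / 4) (by rw [h2]; norm_num) h fun n' => by simpa using X0.F1a j n'
  have b4 := nba2_smul (c := 1 / 4) h2 (nba2_bd (ℓ := ℓ) (cb := cb) (em := L.emb (d.σ j)) (T := T)
    d j E.z2 0 (-1) n 1 (by norm_num)) (by norm_num)
  have b5 := nba2_smul (c := 1 / 4) hh (nba2_bd (ℓ := ℓ) (cb := cb) (em := L.emb (d.σ j)) (T := T)
    d j (T.p ((b ^ 2 ^ d.i) ^ 2) * E.y) 1 (-1) n 3 (by norm_num)) (by norm_num)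
  have b6 := nba2_smul (c := 1 / 4) hq (nba2_bd (ℓ := ℓ) (cb := cb) (em := L.emb (d.σ j)) (T := T)
    d j ((T.p ((b ^ 2 ^ d.i) ^ 2) * E.y) ^ 2) 2 (-1) n 4 (by norm_num)) (by norm_num)
  have b7 := nba2_smul (c := 1 / 4) hh (om_van (cb := cb) (d.F_dec j) hem
    (a * (b ^ 2 ^ d.i) ^ 2) (-1) (-1) (4 : K)
    (ε := 1 / 8) (by rw [h4]; norm_num) h E.vy fun n' hn' => by
      simpa using X0.Fm1b j n' (by omega)) (by norm_num)
  have b8 := nba2_smul (c := 1 / 4) hq (om_bd_van (ℓ := ℓ) (cb := cb) (em' := L.emb (d.σ j))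
    (d.F_supp j) (-2) (-1) (ε := 1 / 2 ^ 4) (a := n) (by positivity) E.vyy fun n' hn' => by
      refine nba2_F d j n' _ 4 ?_
      have := d.p.le_f' (n' - 2 * d.p.m * 3) 0 (by push_cast; omega)
      unfold Pm.FB
      norm_num at this ⊢
      linarith) (by norm_num)
  have b9 := nba2_neg (nba2_smul (c := 1 / 4) h2 (Zl_add (ℓ := ℓ) (cb := cb) (em := L.emb j)
    (T := T) (T.p a * E.z0 ^ 2 + E.z1 ^ 2) (T.p (a * (b ^ 2 ^ d.i) ^ 2) * E.y ^ 2) (-n))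
    (by norm_num))
  have b10 := nba2_neg (nba2_smul (c := 1 / 4) h2 (Zl_add (ℓ := ℓ) (cb := cb) (em := L.emb j)
    (T := T) (T.p a * E.z0 ^ 2) (E.z1 ^ 2) (-n)) (by norm_num))
  have e := nba2_add (nba2_add (nba2_add (nba2_add (nba2_add (nba2_add (nba2_add (nba2_add
    (nba2_add (nba2_add b0 b1) b2) b3) b4) b5) b6) b7) b8) b9) b10
  have z : E.rw0 ℓ cb L.emb (j, ⟨(n, -1), h⟩) = 0 := by
    change E.arr ℓ cb (L.emb j) (-n, 1) = 0
    rw [E.arr_neg_one h, Zl_van E.vy (by omega), smul_zero]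
  unfold Dat.R0
  rw [E.vmul_eq d L.emb j n (-1) h, z]
  convert e using 2
  simp only [smul_sub, smul_add, smul_smul, map_one, one_mul, show (1 / 2 * 4 : K) = 2 by norm_num,
    mul_zero]
  abel

lemma Cx.kill_w (z : Z) : dot (E.rw0 ℓ cb L.emb) (d.wc z) = 0 := by
  have l1 : (d.p.m : ℤ) + 10 * d.p.l ≤ d.p.e := by exact_mod_cast d.p.le1
  have l2 : (1 : ℤ) ≤ d.p.l := by exact_mod_cast d.p.l_pos
  unfold dot
  refine (tsum_congr fun r => ?_).trans tsum_zero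
  obtain ⟨j, ⟨n, q⟩, hn⟩ := r
  by_cases c : n ≤ 2 * d.p.m ∧ q = -1
  · obtain ⟨c1, rfl⟩ := c
    have z : E.rw0 ℓ cb L.emb (j, ⟨(n, -1), hn⟩) = 0 := by
      change E.arr ℓ cb (L.emb j) (-n, 1) = 0
      rw [E.arr_neg_one hn, Zl_van E.vy (by omega), smul_zero]
    rw [z, zero_mul]
  · have z : d.wv z (n, q) = 0 := d.wv_supp z _ (by simp only; omega)
    simp [Dat.wc, col, z]

end Pool.Agent.Lib.MP_788af2_nt.AG
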