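import Pool.Agent.Lib.MP_788af2_nt.AG.NBErr

/-!
The value on the image of the unit root eigenvector.
-/

set_option linter.unusedSectionVars false

namespace Pool.Agent.Lib.MP_788af2_nt.AG

open Polynomial Filter Topology Pool.Agent.Lib.MP_788af2_nt.AS Pool.Agent.Lib.MP_a3f657_nt.Two

open scoped Classical

variable {K A J Z k κ I Lw : Type} [NontriviallyNormedField K] [IsUltrametricDist K]
  [CompleteSpace K] [CharZero K] [NormedCommRing A] [NormedAlgebra K A] [IsUltrametricDist A]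
  [CompleteSpace A] [NormOneClass A] [Fintype J] [Fintype Z] [DecidableEq J] [DecidableEq Z]
  [Field k] [Fintype k] [CharP k 2] [Field κ] [CharP κ 2] [IsAlgClosed κ] [Fintype I]
  [DecidableEq I] {δ : I → ℝ} [Field Lw] [CharP Lw 2]

variable {d : Dat K A J Z} {ℓ : Lift K κ} {cb : Cube K I A δ} {a b : k[X]} {β : I → k[X]}
  {L : Lnk d.toGeo ℓ b} (X0 : Cx d ℓ cb a b β L) (T : Tw β Lw)

/-- The adjoint of the connection on sequences. -/
noncomputable def nbbTh (s : PowerSeries A) (g : ℤ → A) (n : ℕ) : A :=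
  ∑' m : ℕ, PowerSeries.coeff m s * g (-(n : ℤ) - m) + (n : ℤ) • g (-(n : ℤ))

lemma nbb_le {s : PowerSeries A} {g : ℤ → A} {n : ℕ} {C : ℝ}
    (h : ∀ m : ℕ, ‖PowerSeries.coeff m s * g (-(n : ℤ) - m)‖ ≤ C) (h0 : ‖g (-(n : ℤ))‖ ≤ C) :
    ‖nbbTh s g n‖ ≤ C :=
  e2_add_le (IsUltrametricDist.norm_tsum_le_of_forall_le h)
    ((IsUltrametricDist.norm_zsmul_le _ _).trans h0)

lemma nbb_Lt_one (j : J) (m : ℕ) : ‖PowerSeries.coeff m (d.Lt j)‖ ≤ 1 := by
  refine (d.Lt_le' j m).trans (max_le (by norm_num) (e2_rpow_le_one ?_))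
  have := div_nonneg (Nat.cast_nonneg (α := ℝ) m) d.p.a1_l_posR.le
  linarith

lemma nbb_bd (j : J) {g : ℤ → A} (n : ℕ) {C : ℝ} (h : ∀ N, ‖g N‖ ≤ C) :
    ‖nbbTh (d.Lt j) g n‖ ≤ C :=
  nbb_le (fun m => by simpa using t1_mul (nbb_Lt_one j m) (h _)) (h _)

lemma nbb_sum (j : J) {g : ℕ → A} {C : ℝ} (h : ∀ m, ‖g m‖ ≤ C) :
    Summable fun m : ℕ => PowerSeries.coeff m (d.Lt j) * g m := by
  have he := d.p.a1_e_posR
  refine Summable.of_norm_bounded ((summable_geometric_of_lt_one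
    (r := (2 : ℝ) ^ (-(2 / (d.p.e : ℝ)))) (by positivity)
    (Real.rpow_lt_one_of_one_lt_of_neg (by norm_num)
      (neg_lt_zero.mpr (by positivity)))).mul_left (2 * C)) fun m => ?_
  refine (t1_mul (d.Lt_le j m) (h m)).trans (le_of_eq ?_)
  rw [sub_eq_add_neg, syl_pow1, ← Real.rpow_natCast, ← Real.rpow_mul (by norm_num),
    show -(2 / (d.p.e : ℝ)) * m = -(2 * ((m : ℝ) / d.p.e)) by ring]
  ring

lemma nbb_add (j : J) {g g' : ℤ → A} {C C' : ℝ} (h : ∀ N, ‖g N‖ ≤ C) (h' : ∀ N, ‖g' N‖ ≤ C')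
    (n : ℕ) : nbbTh (d.Lt j) (fun N => g N + g' N) n =
      nbbTh (d.Lt j) g n + nbbTh (d.Lt j) g' n := by
  simp only [nbbTh, mul_add, smul_add]
  rw [(nbb_sum j fun m => h _).tsum_add (nbb_sum j fun m => h' _)]
  ring

lemma nbb_congr (j : J) {g g' : ℤ → A} (h : ∀ N : ℤ, 1 ≤ N → g (-N) = g' (-N)) (n : ℕ) :
    nbbTh (d.Lt j) g n = nbbTh (d.Lt j) g' n := by
  unfold nbbTh
  congr 1
  · refine tsum_congr fun m => ?_
    rcases Nat.eq_zero_or_pos m with rfl | hm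
    · rw [d.Lt_zero, zero_mul, zero_mul]
    · rw [show -(n : ℤ) - m = -((n : ℤ) + m) by ring, h _ (by omega)]
  · rcases Nat.eq_zero_or_pos n with rfl | hn
    · simp
    · rw [h _ (by omega)]

lemma nbb_fin {f g : ℕ → A} (hf : Summable f) (N : ℕ) {C : ℝ} (h : ∀ m, ‖f m - g m‖ ≤ C)
    (h0 : ∀ m, N < m → g m = 0) : ‖∑' m, f m - ∑ m ∈ Finset.range (N + 1), g m‖ ≤ C := by
  have h1 : ∀ m ∉ Finset.range (N + 1), g m = 0 := fun m hm =>
    h0 m (by have := Finset.mem_range.not.mp hm; omega)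
  have h2 : ∑' m, g m = ∑ m ∈ Finset.range (N + 1), g m := tsum_eq_sum h1
  rw [← h2, ← hf.tsum_sub (summable_of_ne_finset_zero h1)]
  exact IsUltrametricDist.norm_tsum_le_of_forall_le h

lemma nbb_half (d : Dat K A J Z) {x : A} {C : ℝ} (h : ‖x‖ ≤ C) : ‖(1 / 2 : K) • x‖ ≤ 2 * C := by
  rw [norm_smul, norm_div, norm_one, d.two]
  linarith

lemma nbb_two (d : Dat K A J Z) {x : A} {C : ℝ} (h : ‖x‖ ≤ C) : ‖(2 : K) • x‖ ≤ C / 2 := by
  rw [norm_smul, d.two]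
  linarith

lemma nbb_quarter (d : Dat K A J Z) {x : A} {C : ℝ} (h : ‖x‖ ≤ C) :
    ‖(1 / 4 : K) • x‖ ≤ 4 * C := by
  rw [show (1 / 4 : K) = 1 / 2 * (1 / 2) by norm_num, mul_smul]
  exact (nbb_half d (nbb_half d h)).trans (by linarith)

lemma nbb_ev_le (z : Z) (u : ℤ × ℤ) : ‖d.evA z u‖ ≤ 1 := by
  unfold Dat.evA
  split_ifs
  · have h1 : ‖PowerSeries.coeff u.2.toNat d.o.G‖ ≤ 1 := by
      rcases Nat.eq_zero_or_pos u.2.toNat with h | h
      · rw [h, d.o.G_zero, norm_one]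
      · exact (d.o.G_le _ h).trans (by norm_num)
    have h2 : ‖PowerSeries.coeff 0 (d.κ z)‖ ≤ 1 := by
      have := e2_add_le ((d.κ_zero z).trans (by norm_num : (1 / 2 : ℝ) ≤ 1)) (norm_one (α := A)).le
      rwa [sub_add_cancel] at this
    rw [norm_smul, norm_mul, norm_pow]
    exact mul_le_one₀ (mul_le_one₀ h1 (by positivity) (pow_le_one₀ (norm_nonneg _) (d.β_le z)))
      (norm_nonneg _) h2
  · simp

lemma nbb_ev_mod (z : Z) : Mod d.p (d.evA z) := by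
  have h0 : ∀ u : ℤ × ℤ, 0 < u.1 → d.evA z u = 0 := fun u hu => if_neg fun h => by omega
  refine (mod_of_neg h0 (C := 1) fun u => ?_).1
  by_cases hu : 0 < u.1
  · rw [h0 u hu, norm_zero]
    positivity
  · refine (nbb_ev_le z u).trans ?_
    rw [one_mul]
    have h1 := a1_div_nonneg d.p (show 0 ≤ -u.1 by omega)
    have h2 := a1_abs_nonneg u.2
    exact Real.one_le_rpow (by norm_num) (by linarith)

lemma nbb_W (hc : ‖d.c0‖ ≤ 1 / 2 ^ 20) (j : J) {x : Arr A} (hx : Mod d.p x) (h4 : ∀ u, ‖x u‖ ≤ 4)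
    (n : ℕ) (k' : ℤ) : ‖(conv (d.LT j) x - dt x) (-(n : ℤ), k') -
      nbbTh (d.Lt j) (fun N => x (N, k')) n‖ ≤ 1 / 2 := by
  have e1 : (conv (d.LT j) x - dt x) (-(n : ℤ), k') - nbbTh (d.Lt j) (fun N => x (N, k')) n =
      conv (d.LT j - Tm (d.Lt j)) x (-(n : ℤ), k') := by
    rw [sub_conv (d.LT_dec j) (d.tb_dec_Lt j) hx]
    simp only [Pi.sub_apply, Tm_conv_apply, nbbTh, dt, neg_smul]
    ring
  rw [e1]
  refine norm_conv_le (by norm_num) fun u => ?_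
  have h1 : ‖(d.LT j - Tm (d.Lt j)) u‖ ≤ 1 / 8 := by
    rw [Pi.sub_apply]
    by_cases hu : u.1 < 0
    · rw [d.LT_supp j u (by omega), tb_Tm_supp _ u hu]
      simp
    · have h3 : (2 : ℝ) ^ (1 - 2 * d.p.w u.1 u.2) ≤ 2 := by
        have := eta1_w_nonneg d.p u.2 (show 0 ≤ u.1 by omega)
        exact (e2_rpow_le (by linarith)).trans (Real.rpow_one _).le
      refine (d.LT_sub_le j u).trans ((mul_le_mul hc h3 (by positivity) (by norm_num)).trans ?_)
      norm_num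
  exact (mul_le_mul h1 (h4 _) (norm_nonneg _) (by norm_num)).trans (by norm_num)

include X0 in
lemma nbb_z1 (j : J) (x : Lw) (n : ℕ) : ‖nbbTh (d.Lt j) (Zl ℓ cb (L.emb j) T x) n -
    Zl ℓ cb (L.emb j) T (T.P.b * T.P.D x) (-(n : ℤ))‖ ≤ 1 / 2 := by
  set N := Finset.univ.sup fun h => (lG β h).natDegree
  have hN : ∀ h, (lG β h).natDegree ≤ N := fun h =>
    Finset.le_sup (f := fun h => (lG β h).natDegree) (Finset.mem_univ h)
  set u : ℕ → G I → k := fun m g => ∑ h, (lG β h).coeff m * dic T x (-(n : ℤ) - m) (g + h) with hu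
  have h1 := nbb_fin (g := fun m => lf ℓ cb (L.emb j) (u m))
    (nbb_sum (d := d) j fun m : ℕ => Zl_le (ℓ := ℓ) (cb := cb) (em := L.emb j) (T := T) (x := x)
      (-(n : ℤ) - m)) N (C := 1 / 2) (fun m => ?_) fun m hm => ?_
  · have h2 := lf_sum ℓ cb (L.emb j) (Finset.range (N + 1)) u
    have h3 := lf_zsmul ℓ cb (L.emb j) (-(n : ℤ)) (dic T x (-(n : ℤ)))
    have h4 := lf_add ℓ cb (L.emb j) (fun g => (-(n : ℤ)) • dic T x (-(n : ℤ)) g)
      fun g => ∑ m ∈ Finset.range (N + 1), u m g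
    have e4 : ((fun g => (-(n : ℤ)) • dic T x (-(n : ℤ)) g) +
        fun g => ∑ m ∈ Finset.range (N + 1), u m g) = dic T (T.P.b * T.P.D x) (-(n : ℤ)) :=
      funext fun g => (dic_D T hN x _ g).symm
    rw [e4] at h4
    have h5 : ‖(2 : K) • ((n : ℤ) • Zl ℓ cb (L.emb j) T x (-(n : ℤ)))‖ ≤ 1 / 2 :=
      nbb_two d ((IsUltrametricDist.norm_zsmul_le _ _).trans (Zl_le _))
    have h6 := syl_sub (syl_sub (syl_add (syl_sub h1 h2) h5) h3) h4
    refine le_of_eq_of_le (congrArg _ ?_) h6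
    simp only [nbbTh, Zl, two_smul, neg_smul]
    ring
  · have z := Zl_le (ℓ := ℓ) (cb := cb) (em := L.emb j) (T := T) (x := x) (-(n : ℤ) - m)
    have h2 := (syl_mul (X0.c.LA_red j m) z).trans (by norm_num : (1 / 4 * 1 : ℝ) ≤ 1 / 2)
    have h3 := (syl_mul (X0.c.LG_red j m) z).trans (by norm_num : (1 / 2 * 1 : ℝ) ≤ 1 / 2)
    have h4 := lf_mul ℓ cb (L.emb j) (fun g => (lG β g).coeff m) (dic T x (-(n : ℤ) - m))
    have h5 : ‖(2 : K) • (ℓ.τ (L.emb j ((X * derivative a).coeff m)) •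
        Zl ℓ cb (L.emb j) T x (-(n : ℤ) - m))‖ ≤ 1 / 2 := nbb_two d (by
      rw [norm_smul]
      exact mul_le_one₀ (ℓ.τ_le _) (norm_nonneg _) z)
    have h6 := syl_sub (syl_add (syl_add h2 h5) h3) h4
    refine le_of_eq_of_le (congrArg _ ?_) h6
    simp only [Zl, Algebra.smul_def, map_mul, hu]
    ring
  · have : u m = 0 := funext fun g => Finset.sum_eq_zero fun h _ => by
      rw [coeff_eq_zero_of_natDegree_lt ((hN h).trans_lt hm), zero_mul]
    rw [this, lf_zero]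

include X0 in
lemma nbb_z0 (j : J) {x : Lw} (hx : Van T x (2 * d.p.e - d.p.l)) {n : ℕ} (hn : n ≤ d.p.l) :
    ‖nbbTh (d.Lt j) (fun N => (1 / 2 : K) • Zl ℓ cb (L.emb j) T x N) n -
      Zl ℓ cb (L.emb j) T (T.p (X * derivative a) * x) (-(n : ℤ))‖ ≤ 1 / 2 := by
  have he := d.p.e_ge
  have hl := d.p.l_pos
  set q : k[X] := X * derivative a with hq
  set u : ℕ → G I → k := fun m g => q.coeff m * dic T x (-(n : ℤ) - m) g with hu
  have h1 := nbb_fin (g := fun m => lf ℓ cb (L.emb j) (u m))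
    (nbb_sum (d := d) j fun m : ℕ => nbb_half d (Zl_le (ℓ := ℓ) (cb := cb) (em := L.emb j)
      (T := T) (x := x) (-(n : ℤ) - m))) q.natDegree (C := 1 / 2) (fun m => ?_) fun m hm => ?_
  · have h2 := lf_sum ℓ cb (L.emb j) (Finset.range (q.natDegree + 1)) u
    have e2 : (fun g => ∑ m ∈ Finset.range (q.natDegree + 1), u m g) =
        dic T (T.p q * x) (-(n : ℤ)) := funext fun g => (dic_p T q le_rfl x _ g).symm
    rw [e2] at h2
    refine le_of_eq_of_le (congrArg _ ?_) (syl_sub h1 h2)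
    simp only [nbbTh]
    rw [Zl_van hx (by omega : 2 * (n : ℤ) < 2 * d.p.e - d.p.l), smul_zero, smul_zero, add_zero, Zl]
    ring
  · have e1 : lf ℓ cb (L.emb j) (u m) =
        ℓ.τ (L.emb j (q.coeff m)) • Zl ℓ cb (L.emb j) T x (-(n : ℤ) - m) := lf_smul _ _ _ _ _
    rw [e1]
    by_cases hm : 2 * ((n : ℤ) + m) < 2 * d.p.e - d.p.l
    · rw [show -(n : ℤ) - m = -((n : ℤ) + m) by ring, Zl_van hx hm]
      simp
    have z := Zl_le (ℓ := ℓ) (cb := cb) (em := L.emb j) (T := T) (x := x) (-(n : ℤ) - m)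
    have h2 : ‖PowerSeries.coeff m (X0.c.LG j)‖ ≤ 1 / 4 := by
      refine (X0.c.LG_le j m).trans ((e2_rpow_le (y := -(2 * ((1 : ℕ) : ℝ))) ?_).trans ?_)
      · have h3 : (2 : ℝ) * d.p.l ≤ m := by exact_mod_cast (show 2 * d.p.l ≤ m by omega)
        have := (le_div_iff₀ d.p.a1_l_posR).mpr h3
        push_cast
        linarith
      · rw [← tb_quarter, pow_one]
    have h3 := nbb_half d (syl_mul (syl_add (X0.c.LA_red j m) h2) z)
    refine le_of_eq_of_le (congrArg _ ?_) (h3.trans (by norm_num))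
    have h4 : algebraMap K A (1 / 2) * algebraMap K A 2 = 1 := by
      rw [← map_mul]
      simp
    simp only [Algebra.smul_def, map_mul, hq]
    linear_combination (algebraMap K A (ℓ.τ (L.emb j ((X * derivative a).coeff m))) *
      Zl ℓ cb (L.emb j) T x (-(n : ℤ) - m)) * h4
  · have : u m = 0 := funext fun g => by
      simp only [hu, coeff_eq_zero_of_natDegree_lt hm, zero_mul, Pi.zero_apply]
    rw [this, lf_zero]

lemma nbb_z00 (j : J) {x : Lw} (hx : Van T x (4 * d.p.e - d.p.l)) (n : ℕ) :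
    ‖nbbTh (d.Lt j) (fun N => (1 / 4 : K) • Zl ℓ cb (L.emb j) T x N) n‖ ≤
      2 ^ (2 * ((n : ℝ) / d.p.e) - 4 / 5) := by
  have he := d.p.a1_e_geR
  have he0 := d.p.a1_e_posR
  have key : ∀ m : ℕ, ¬ 2 * ((n : ℤ) + m) < 4 * d.p.e - d.p.l →
      3 - 2 * ((m : ℝ) / d.p.e) ≤ 2 * ((n : ℝ) / d.p.e) - 4 / 5 := fun m hm => by
    have h1 : 4 * (d.p.e : ℝ) - d.p.l ≤ 2 * ((n : ℝ) + m) := by exact_mod_cast not_lt.mp hm
    have h2 : 19 / 5 ≤ 2 * ((n : ℝ) + m) / d.p.e := (le_div_iff₀ he0).mpr (by linarith)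
    rw [mul_div_assoc, add_div] at h2
    linarith
  have p2 : (4 : ℝ) = 2 ^ (2 : ℝ) := by norm_num
  refine nbb_le (fun m => ?_) ?_
  · by_cases hm : 2 * ((n : ℤ) + m) < 4 * d.p.e - d.p.l
    · rw [show -(n : ℤ) - m = -((n : ℤ) + m) by ring, Zl_van hx hm, smul_zero, mul_zero, norm_zero]
      positivity
    refine (syl_mul (d.Lt_le j m) (nbb_quarter d (Zl_le _))).trans ?_
    rw [mul_one, p2, e2_rpow_add]
    exact e2_rpow_le (by linarith [key m hm])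
  · by_cases hm : 2 * (n : ℤ) < 4 * d.p.e - d.p.l
    · rw [Zl_van hx hm, smul_zero, norm_zero]
      positivity
    refine (nbb_quarter d (Zl_le _)).trans ?_
    rw [mul_one, p2]
    have := key 0 (by simpa using hm)
    simp only [Nat.cast_zero, zero_div] at this
    exact e2_rpow_le (by linarith)

lemma nbb_z0' (j : J) {x : Lw} (hx : Van T x (2 * d.p.e - d.p.l)) {n : ℕ}
    (hn : 2 * (n : ℤ) < 2 * d.p.e - 3 * d.p.l) :
    ‖nbbTh (d.Lt j) (fun N => (1 / 2 : K) • Zl ℓ cb (L.emb j) T x N) n‖ ≤ 1 := by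
  refine nbb_le (fun m => ?_) ?_
  · by_cases hm : 2 * ((n : ℤ) + m) < 2 * d.p.e - d.p.l
    · rw [show -(n : ℤ) - m = -((n : ℤ) + m) by ring, Zl_van hx hm, smul_zero, mul_zero, norm_zero]
      positivity
    have h2 : ‖PowerSeries.coeff m (d.Lt j)‖ ≤ 1 / 2 := by
      refine (d.Lt_le' j m).trans (max_le le_rfl (e2_rpow_le_half ?_))
      have h3 : (1 : ℝ) * d.p.l ≤ m := by exact_mod_cast (show 1 * d.p.l ≤ m by omega)
      have := (le_div_iff₀ d.p.a1_l_posR).mpr h3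
      linarith
    exact (syl_mul h2 (nbb_half d (Zl_le _))).trans (by norm_num)
  · rw [Zl_van hx (by omega : 2 * (n : ℤ) < 2 * d.p.e - d.p.l), smul_zero, norm_zero]
    positivity

variable {v : k[X]} (hv : v ∈ Spl b a) {f : Lw} (hf : IsFt T v f)
  (E : Elt T a (b ^ 2 ^ d.i) X0.c.A2 d.p.e d.p.l f)

lemma nbb_arr (j : J) (N k' : ℤ) (hk : k' ≠ 0) :
    ‖E.arr ℓ cb (L.emb j) (N, k')‖ ≤ 2 ^ (2 * ((|k'| : ℤ) : ℝ) - 1) := by
  have p1 : (2 : ℝ) * 1 ≤ 2 ^ (2 * ((|k'| : ℤ) : ℝ) - 1) := by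
    have h1 : (1 : ℝ) ≤ ((|k'| : ℤ) : ℝ) := by exact_mod_cast Int.one_le_abs hk
    rw [mul_one]
    exact (Real.rpow_one 2).symm.le.trans (e2_rpow_le (by linarith))
  by_cases hN : -1 < N
  · rw [E.arr_supp _ hN, norm_zero]
    positivity
  obtain ⟨n, rfl⟩ : ∃ n, N = -n := ⟨-N, by ring⟩
  by_cases h1 : k' = 1
  · subst h1
    rw [E.arr_neg_one (by omega)]
    exact (nbb_half d (Zl_le _)).trans p1
  by_cases h2 : k' = -1
  · subst h2
    rw [E.arr_one (by omega)]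
    exact (nbb_half d (Zl_le _)).trans p1
  have h3 : (2 : ℝ) ≤ ((|k'| : ℤ) : ℝ) := by
    exact_mod_cast (show (2 : ℤ) ≤ |k'| by rw [le_abs]; omega)
  refine (E.arr_le _).trans ?_
  rw [show (4 : ℝ) = 2 ^ (2 : ℝ) by norm_num]
  exact e2_rpow_le (by linarith)

include hv hf

include X0 in
lemma nbb_ev (j : J) (n : ℕ) :
    ‖∑ z ∈ (L.ov v).filter (fun z => d.jz z = j), d.evA z (-(n : ℤ), 0) -
      Zl ℓ cb (L.emb j) T (T.P.b * f) (-(n : ℤ))‖ ≤ 1 / 2 := by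
  have h1 : ‖∑ z ∈ (L.ov v).filter (fun z => d.jz z = j),
      (d.evA z (-(n : ℤ), 0) - algebraMap K A (d.β z ^ n))‖ ≤ 1 / 2 := by
    refine IsUltrametricDist.norm_sum_le_of_forall_le_of_nonneg (by norm_num) fun z _ => ?_
    have e : d.evA z (-(n : ℤ), 0) - algebraMap K A (d.β z ^ n) =
        d.β z ^ n • (PowerSeries.coeff 0 (d.κ z) - 1) := by
      rw [Dat.evA, if_pos ⟨by simp, le_rfl⟩]
      simp only [Int.toNat_zero, d.o.G_zero, one_mul, neg_neg, Int.toNat_natCast,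
        Algebra.smul_def]
      ring
    rw [e, norm_smul, norm_pow]
    exact (mul_le_mul (pow_le_one₀ (norm_nonneg _) (d.β_le z)) (d.κ_zero z) (norm_nonneg _)
      zero_le_one).trans (by norm_num)
  refine le_of_eq_of_le (congrArg _ ?_) (syl_sub h1 (X0.pow_sum T hv hf j n))
  rw [Finset.sum_sub_distrib, map_sum]
  ring

lemma Cx.claimB {η : J → Arr A} {a₀ : J → A} (hη : d.IsEta η a₀) (j : J) :
    ‖dot (E.rw0 ℓ cb L.emb) (d.yc η j) + ∑ z ∈ L.ov v, d.ry η z j‖ ≤ 2 ^ (-(4 / 5 : ℝ)) := by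
  set x := E.arr ℓ cb (L.emb j) with hx
  set O := (L.ov v).filter (fun z => d.jz z = j) with hO
  have hxm : Mod d.p x := E.arr_mod d.p
  have hd := hη.dec j
  have hL := d.LT_dec j
  have half : (1 / 2 : ℝ) ≤ 2 ^ (-(4 / 5 : ℝ)) := by
    rw [← e2_rpow_neg_one]
    exact e2_rpow_le (by norm_num)
  have e1 : dot (E.rw0 ℓ cb L.emb) (d.yc η j) = conv x (d.yv η j) 0 := by
    have h1 := dot_row_col (s := 1) (x := x) (y := d.yv η j)
      (fun u => Or.inl (E.arr_supp u)) j j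
    rw [if_pos rfl] at h1
    rw [← h1]
    refine tsum_congr fun r => ?_
    by_cases hr : r.1 = j
    · rw [row, if_pos hr, Elt.rw0, hr]
      rfl
    · rw [Dat.yc, col, if_neg hr, mul_zero, mul_zero]
  have e2 : conv x (d.yv η j) 0 = conv (η j) (conv (d.LT j) x - dt x) 0 := by
    have h1 := congrFun (dt_conv hd hxm) 0
    rw [conv_comm x, Dat.yv, add_conv hd.dt (hL.conv hd) hxm, conv_comm (d.LT j) (η j),
      conv_assoc hd hL hxm, conv_sub hd (hL.conv_mod hxm) hxm.dt]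
    simp only [Pi.add_apply, Pi.sub_apply] at h1 ⊢
    rw [show dt (conv (η j) x) 0 = 0 from zero_smul _ _] at h1
    linear_combination -h1
  have e3 : ∑ z ∈ L.ov v, d.ry η z j = conv (η j) (∑ z ∈ O, d.evA z) 0 := by
    rw [conv_sum O hd fun z _ => nbb_ev_mod z, Finset.sum_apply, hO, Finset.sum_filter]
    refine Finset.sum_congr rfl fun z _ => ?_
    rw [Dat.ry, conv_comm]
    exact if_congr eq_comm rfl rfl
  rw [e1, e2, e3, ← Pi.add_apply (conv _ _), ← conv_add hd ((hL.conv_mod hxm).sub hxm.dt)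
    (Mod.sum O fun z _ => nbb_ev_mod z), conv]
  refine IsUltrametricDist.norm_tsum_le_of_forall_le fun u => ?_
  obtain ⟨n, k'⟩ := u
  by_cases hn : n < 0
  · rw [hη.supp j _ hn, zero_mul, norm_zero]
    positivity
  obtain ⟨n, rfl⟩ := Int.eq_ofNat_of_zero_le (not_lt.mp hn)
  have hW := nbb_W (X0.c0_le hv) j hxm (fun u => E.arr_le u) n (-k')
  have hone := hη.e2_le_one j (n, k')
  have hS : ‖∑ z ∈ O, d.evA z (-(n : ℤ), -k')‖ ≤ 1 :=
    IsUltrametricDist.norm_sum_le_of_forall_le_of_nonneg zero_le_one fun z _ => nbb_ev_le z _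
  have e4 : η j (n, k') * (conv (d.LT j) x - dt x + ∑ z ∈ O, d.evA z) (0 - ((n : ℤ), k')) =
      η j (n, k') * ((conv (d.LT j) x - dt x) (-(n : ℤ), -k') -
        nbbTh (d.Lt j) (fun N => x (N, -k')) n) + η j (n, k') *
        (nbbTh (d.Lt j) (fun N => x (N, -k')) n + ∑ z ∈ O, d.evA z (-(n : ℤ), -k')) := by
    rw [zero_sub, Prod.neg_mk, Pi.add_apply, Finset.sum_apply]
    ring
  rw [e4]
  refine syl_add ((syl_mul hone hW).trans (by linarith)) ?_
  by_cases hk : k' = 0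
  swap
  · have h1 : (1 : ℝ) ≤ ((|k'| : ℤ) : ℝ) := by exact_mod_cast Int.one_le_abs hk
    have h2 := nbb_bd (d := d) j n fun N => nbb_arr X0 T E j N (-k') (neg_ne_zero.mpr hk)
    rw [abs_neg] at h2
    refine (syl_mul (hη.le j _) (syl_add h2
      (hS.trans (Real.one_le_rpow (by norm_num) (by linarith))))).trans ?_
    rw [e2_rpow_add]
    have := d.p.abs_le_w k' (Nat.cast_nonneg (α := ℤ) n)
    exact e2_rpow_le (by linarith)
  subst hk
  have z := fun (y : Lw) (N : ℤ) => Zl_le (ℓ := ℓ) (cb := cb) (em := L.emb j) (T := T) (x := y) N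
  have b0 := fun N => nbb_quarter d (z (E.z0 ^ 2) N)
  have b1 := fun N => nbb_half d (z E.z0 N)
  have b2 := fun N => nbb_two d (z E.z2 N)
  have e5 := nbb_congr (d := d) j (g := fun N => x (N, -0)) (g' := fun N =>
    (1 / 4 : K) • Zl ℓ cb (L.emb j) T (E.z0 ^ 2) N + (((1 / 2 : K) • Zl ℓ cb (L.emb j) T E.z0 N +
      Zl ℓ cb (L.emb j) T E.z1 N) + (2 : K) • Zl ℓ cb (L.emb j) T E.z2 N)) (fun N hN => by
        rw [neg_zero, hx, E.arr_zero hN]
        ring) n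
  have b3 := fun N => syl_add (b1 N) ((z E.z1 N).trans (by norm_num : (1 : ℝ) ≤ 2 * 1))
  rw [nbb_add j b0 fun N => syl_add (b3 N) ((b2 N).trans (by norm_num)), nbb_add j b3 b2,
    nbb_add j b1 (z E.z1)] at e5
  have hw : ‖η j (n, 0)‖ ≤ 2 ^ (-(2 * ((n : ℝ) / d.p.e))) := by
    refine (hη.le j _).trans (e2_rpow_le ?_)
    have := d.p.a1_w1 n 0
    push_cast at this
    linarith
  rw [e5, add_assoc, mul_add, add_right_comm, mul_add]
  refine syl_add ?_ (syl_add ?_ ((syl_mul hone (nbb_bd j n b2)).trans (by linarith)))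
  · refine (syl_mul hw (nbb_z00 T j E.v00 n)).trans ?_
    rw [e2_rpow_add]
    exact e2_rpow_le (by linarith)
  have he := d.p.e_ge
  have hl := d.p.l_pos
  by_cases h1 : n ≤ d.p.l
  · have h2 := Zl_add (ℓ := ℓ) (cb := cb) (em := L.emb j) (T := T)
      (T.p (X * derivative a) * E.z0 + T.P.b * T.P.D E.z1) (T.P.b * f) (-(n : ℤ))
    have h3 := Zl_add (ℓ := ℓ) (cb := cb) (em := L.emb j) (T := T)
      (T.p (X * derivative a) * E.z0) (T.P.b * T.P.D E.z1) (-(n : ℤ))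
    rw [Zl_van E.iB (by omega : 2 * (n : ℤ) < 2 * d.p.e - d.p.l)] at h2
    have h4 := syl_sub (syl_sub (syl_add (syl_add (nbb_z0 X0 T j E.v0 h1) (nbb_z1 X0 T j E.z1 n))
      (nbb_ev X0 T hv hf j n)) h2) h3
    refine (syl_mul hone (le_of_eq_of_le (congrArg _ ?_) h4)).trans (by linarith)
    rw [neg_zero, hO]
    ring
  have h2 := hη.e2_le_half j n (by omega)
  have h3 := syl_add (nbb_bd (d := d) j n (z E.z1)) hS
  rw [add_assoc]
  by_cases h4 : 2 * (n : ℤ) < 2 * d.p.e - 3 * d.p.l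
  · exact (syl_mul h2 (syl_add (nbb_z0' T j E.v0 h4) h3)).trans (by linarith)
  refine (syl_mul hw (syl_add (nbb_bd j n b1) (h3.trans (by norm_num)))).trans ?_
  have h5 : 2 * (d.p.e : ℝ) - 3 * d.p.l ≤ 2 * n := by exact_mod_cast not_lt.mp h4
  have h6 : 9 / 10 ≤ (n : ℝ) / d.p.e :=
    (le_div_iff₀ d.p.a1_e_posR).mpr (by linarith [d.p.a1_e_geR])
  rw [mul_one, ← Real.rpow_add_one two_ne_zero]
  exact e2_rpow_le (by linarith)

end Pool.Agent.Lib.MP_788af2_nt.AG
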