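import Pool.Agent.Lib.MP_788af2_nt.AG.NBDef

/-!
The coefficients at infinity.
-/

set_option linter.unusedSectionVars false

namespace Pool.Agent.Lib.MP_788af2_nt.AG

open Polynomial Filter Topology Pool.Agent.Lib.MP_788af2_nt.AS Pool.Agent.Lib.MP_a3f657_nt.Two

open scoped Classical

variable {k I Lw : Type} [Field k] [Fintype k] [CharP k 2] [Fintype I] [DecidableEq I]
  [Field Lw] [CharP Lw 2] {β : I → k[X]} (T : Tw β Lw)

variable {x y : Lw} {n : ℤ}

private lemma nbcf_ex (x : Lw) : ∃ u : RatFunc k, T.tr x - T.e u ∈ T.d.Le (-2) :=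
  T.dense _ (fun g => T.σ_tr g x) (-2)

private lemma nbcf_tr (m : ℤ) (x : Lw) : T.tr (T.P.b ^ m * x) = T.P.b ^ m * T.tr x :=
  T.tr_fix_mul (fun g => by rw [map_zpow₀, T.σ_b]) x

private lemma nbcf_zpow (m : ℤ) : T.P.b ^ m = T.e (RatFunc.X ^ m) := by
  rw [map_zpow₀, T.hP]

private lemma nbcf_two {u : RatFunc k} (h : T.e u ∈ T.d.Le (-2)) : resInf u = 0 := by
  rw [show (-2 : ℝ) = ((-2 : ℤ) : ℝ) by norm_num, T.e_mem, neg_neg] at h
  exact resInf_two h

private lemma nbcf_tr_sq (x : Lw) : T.tr (x ^ 2) = T.tr x ^ 2 := by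
  simp only [Tw.tr, map_pow, CharTwo.sum_sq]

private lemma nbcf_X (m : ℤ) :
    (RatFunc.X : RatFunc k) ^ m ∈ Fil (MP_a3f657_nt.Two.val none) (-m) :=
  mem_Fil_of_le (by rw [ord_zpow, ord_X]; omega)

private lemma nbcf_C (c : k) (u : RatFunc k) : resInf (ι (C c) * u) = c * resInf u := by
  rw [resInf_apply, resInf_apply, pol_eq (a := C c * pol (RatFunc.X * u)), coeff_C_mul]
  have h := Fil.mul (const_int none c) (pol_spec (RatFunc.X * u)) (c := 1) (by omega)
  convert h using 1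
  simp only [ι, map_mul]
  ring

private lemma nbcf_rz (j : ℤ) :
    resInf ((RatFunc.X : RatFunc k) ^ (-j - 1)) = if j = 0 then 1 else 0 := by
  rcases lt_trichotomy j 0 with h | rfl | h
  · obtain ⟨m, hm⟩ := Int.eq_ofNat_of_zero_le (a := -j - 1) (by omega)
    rw [if_neg h.ne, hm, zpow_natCast, ← RatFunc.algebraMap_X, ← map_pow]
    exact resInf_ι _
  · rw [if_pos rfl, resInf_apply, neg_zero, zero_sub, zpow_neg_one,
      mul_inv_cancel₀ RatFunc.X_ne_zero, pol_eq (a := 1) (by simp)]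
    simp
  · rw [if_neg h.ne']
    exact resInf_two (Fil.mono (nbcf_X _) (by omega))

lemma Cf_eq {u : RatFunc k} (h : T.tr (T.P.b ^ (-n - 1) * x) - T.e u ∈ T.d.Le (-2)) :
    Cf T n x = resInf u := by
  have key : ∀ u' : RatFunc k, T.tr (T.P.b ^ (-n - 1) * x) - T.e u' ∈ T.d.Le (-2) →
      resInf u' = resInf u := by
    intro u' h1
    have h2 := sub_mem h h1
    rw [sub_sub_sub_cancel_left, ← map_sub] at h2
    have h3 := nbcf_two T h2
    rwa [map_sub, sub_eq_zero] at h3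
  exact key _ (Classical.epsilon_spec
    (p := fun y : RatFunc k => T.tr (T.P.b ^ (-n - 1) * x) - T.e y ∈ T.d.Le (-2)) ⟨u, h⟩)

lemma Cf_add (n : ℤ) (x y : Lw) : Cf T n (x + y) = Cf T n x + Cf T n y := by
  obtain ⟨u, hu⟩ := nbcf_ex T (T.P.b ^ (-n - 1) * x)
  obtain ⟨v, hv⟩ := nbcf_ex T (T.P.b ^ (-n - 1) * y)
  rw [Cf_eq T hu, Cf_eq T hv, ← map_add]
  refine Cf_eq T ?_
  rw [mul_add, T.tr_add, map_add, add_sub_add_comm]
  exact add_mem hu hv

lemma Cf_zero (n : ℤ) : Cf T n 0 = 0 := by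
  rw [Cf_eq T (u := 0) (by simp [Tw.tr]), map_zero]

lemma Cf_sum {α : Type} (s : Finset α) (F : α → Lw) (n : ℤ) :
    Cf T n (∑ i ∈ s, F i) = ∑ i ∈ s, Cf T n (F i) :=
  map_sum (⟨⟨Cf T n, Cf_zero T n⟩, Cf_add T n⟩ : Lw →+ k) F s

lemma Cf_congr (h : T.tr x = T.tr y) (n : ℤ) : Cf T n x = Cf T n y := by
  simp only [Cf, nbcf_tr, h]

lemma Cf_σ (g : G I) (n : ℤ) (x : Lw) : Cf T n (T.σ g x) = Cf T n x :=
  Cf_congr T (T.tr_σ g x) n

lemma Cf_C (c : k) (n : ℤ) (x : Lw) : Cf T n (T.p (C c) * x) = c * Cf T n x := by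
  obtain ⟨u, hu⟩ := nbcf_ex T (T.P.b ^ (-n - 1) * x)
  rw [Cf_eq T hu, ← nbcf_C]
  refine Cf_eq T ?_
  rw [mul_left_comm, T.tr_fix_mul (fun g => T.σ_p g _), map_mul, ← T.p_eq, ← mul_sub]
  exact DF.Le.mul (T.p_mem _) hu (by simp)

private lemma nbcf_bz (m n : ℤ) (x : Lw) : Cf T n (T.P.b ^ m * x) = Cf T (n - m) x := by
  have e : T.P.b ^ (-n - 1) * (T.P.b ^ m * x) = T.P.b ^ (-(n - m) - 1) * x := by
    rw [← mul_assoc, ← zpow_add₀ T.P.b_ne]
    congr 2
    ring
  simp only [Cf, e]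

lemma Cf_b (n : ℤ) (x : Lw) : Cf T n (T.P.b * x) = Cf T (n - 1) x := by
  simpa using nbcf_bz T 1 n x

lemma Cf_p (q : k[X]) {N : ℕ} (hN : q.natDegree ≤ N) (n : ℤ) (x : Lw) :
    Cf T n (T.p q * x) = ∑ m ∈ Finset.range (N + 1), q.coeff m * Cf T (n - m) x := by
  conv_lhs => rw [q.as_sum_range_C_mul_X_pow' (Nat.lt_succ_of_le hN)]
  rw [map_sum, Finset.sum_mul, Cf_sum]
  refine Finset.sum_congr rfl fun m _ => ?_
  rw [map_mul, mul_assoc, Cf_C, map_pow, T.p_X, ← zpow_natCast, nbcf_bz]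

lemma Cf_small {r : ℝ} (hx : x ∈ T.d.Le r) (h : r < n) : Cf T n x = 0 := by
  obtain ⟨u, hu⟩ := nbcf_ex T (T.P.b ^ (-n - 1) * x)
  rw [Cf_eq T hu]
  have h1 : T.P.b ^ (-n - 1) ∈ T.d.Le ((-n - 1 : ℤ) : ℝ) := by
    rw [nbcf_zpow]
    exact T.e_mem.2 (nbcf_X _)
  have h2 : T.tr (T.P.b ^ (-n - 1) * x) ∈ T.d.Le (max (-n - 1 + r) (-2)) :=
    T.tr_mem (DF.Le.mul h1 hx (by push_cast; exact le_max_left _ _))
  have h3 := sub_mem h2 (DF.Le.mono hu (le_max_right (-n - 1 + r : ℝ) (-2)))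
  rw [sub_sub_cancel] at h3
  by_cases h0 : u = 0
  · rw [h0, map_zero]
  rw [DF.mem_Le_iff ((map_ne_zero T.e).2 h0), T.d_e _ h0] at h3
  have h4 : max (-n - 1 + r : ℝ) (-2) < -1 := max_lt (by linarith) (by norm_num)
  have h5 : (1 : ℝ) < (ord (MP_a3f657_nt.Two.val none) u : ℤ) := by linarith
  have h6 : (1 : ℤ) < ord (MP_a3f657_nt.Two.val none) u := by exact_mod_cast h5
  exact resInf_two (mem_Fil_of_le (by omega))

lemma Cf_sq (n : ℤ) (x : Lw) : Cf T n (x ^ 2) = if 2 ∣ n then Cf T (n / 2) x ^ 2 else 0 := by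
  obtain ⟨u, hu⟩ := nbcf_ex T (T.P.b ^ (-(n / 2) - 1) * x)
  have h4 : (T.tr (T.P.b ^ (-(n / 2) - 1) * x) - T.e u) ^ 2 ∈ T.d.Le (-4) :=
    DF.Le.sq hu (by norm_num)
  have hs : (T.P.b ^ (-(n / 2) - 1) * x) ^ 2 = T.P.b ^ (-(2 * (n / 2)) - 2) * x ^ 2 := by
    rw [mul_pow, ← zpow_natCast (T.P.b ^ _), ← zpow_mul]
    congr 2
    push_cast
    ring
  split_ifs with h
  · rw [Cf_eq T hu, ← resInf_parts 0 u]
    refine Cf_eq T ?_
    have e : T.P.b ^ (-n - 1) * x ^ 2 = T.P.b * (T.P.b ^ (-(n / 2) - 1) * x) ^ 2 := by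
      rw [hs, ← mul_assoc, ← zpow_one_add₀ T.P.b_ne]
      congr 2
      omega
    rw [e, T.tr_fix_mul (fun g => T.σ_b g), nbcf_tr_sq, zero_pow two_ne_zero, zero_add, map_mul,
      map_pow, ← T.hP, ← mul_sub]
    refine DF.Le.mul T.b_mem (r' := -4) ?_ (by norm_num)
    convert h4 using 1
    grind
  · have e : T.P.b ^ (-n - 1) * x ^ 2 = (T.P.b ^ (-(n / 2) - 1) * x) ^ 2 := by
      rw [hs]
      congr 2
      omega
    rw [Cf_eq T (u := u ^ 2 + RatFunc.X * 0 ^ 2), resInf_parts, map_zero, zero_pow two_ne_zero]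
    rw [e, nbcf_tr_sq, zero_pow two_ne_zero, mul_zero, add_zero, map_pow]
    refine DF.Le.mono (r := -4) ?_ (by norm_num)
    convert h4 using 1
    grind

lemma Cf_D (n : ℤ) (x : Lw) : Cf T n (T.P.b * T.P.D x) = n • Cf T n x := by
  have h2 : ∀ (m : ℤ) (c : k), (2 * m) • c = 0 := fun m c => by
    rw [mul_comm, mul_smul, two_smul, CharTwo.add_self_eq_zero, smul_zero]
  rcases Int.even_or_odd' n with ⟨m, rfl | rfl⟩
  · rw [h2, Cf_b, PB.D, Cf_sq, if_neg (by omega)]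
  · rw [add_smul, h2, zero_add, one_smul]
    conv_rhs => rw [T.P.spec x, Cf_add, Cf_sq, if_neg (by omega), zero_add]
    rfl

private lemma nbcf_e {u : RatFunc k} (h : T.tr x = T.e u) (n : ℤ) :
    Cf T n x = resInf (RatFunc.X ^ (-n - 1) * u) :=
  Cf_eq T (by rw [nbcf_tr, h, map_mul, ← nbcf_zpow, sub_self]; exact zero_mem _)

lemma Cf_poly {q : k[X]} (h : T.tr x = T.p q) (n : ℤ) :
    Cf T n x = if 0 ≤ n then q.coeff n.toNat else 0 := by
  have h1 := T.tr_prod 0
  generalize (∏ i, (T.θ i + zc Lw ((0 : G I) i) + 1)) = w at h1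
  have h2 : ∀ j, Cf T j w = if j = 0 then 1 else 0 := fun j => by
    rw [nbcf_e T (u := 1) (by rw [h1, map_one]), mul_one, nbcf_rz]
  rw [Cf_congr T (y := T.p q * w) (by rw [T.tr_fix_mul (fun g => T.σ_p g _), h1, mul_one, h]),
    Cf_p T q (le_add_left le_rfl : q.natDegree ≤ n.toNat + q.natDegree)]
  simp only [h2, mul_ite, mul_one, mul_zero]
  split_ifs with hn
  · rw [Finset.sum_eq_single n.toNat, if_pos (by omega)]
    · intro m _ hm
      exact if_neg (by omega)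
    · intro hm
      exact absurd (Finset.mem_range.2 (by omega)) hm
  · exact Finset.sum_eq_zero fun m _ => if_neg (by omega)

lemma R_Cf (x : Lw) : T.R x = tr k (Cf T (-1) x) := by
  obtain ⟨u, hu⟩ := nbcf_ex T x
  rw [T.R_eq hu, Cf_eq T (u := u) (by simpa using hu), res_none]

/-- Convolution of a polynomial with a sequence. -/
private noncomputable def nbcfL {κ : Type} [Field κ] (c : ℤ → κ) (n : ℤ) : κ[X] →ₗ[κ] κ :=
  lsum fun m : ℕ => LinearMap.mulRight κ (c (n - m))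

private lemma nbcfL_range {κ : Type} [Field κ] (c : ℤ → κ) (n : ℤ) {Q : κ[X]} {N : ℕ}
    (h : Q.natDegree ≤ N) :
    nbcfL c n Q = ∑ m ∈ Finset.range (N + 1), Q.coeff m * c (n - m) := by
  rw [nbcfL, lsum_apply, Q.sum_over_range' (fun _ => map_zero _) _ (Nat.lt_succ_of_le h)]
  rfl

private lemma nbcfL_mono {κ : Type} [Field κ] (c : ℤ → κ) (n : ℤ) (m : ℕ) (a : κ) :
    nbcfL c n (monomial m a) = a * c (n - m) := by
  rw [nbcfL, lsum_apply, sum_monomial_index]
  · rfl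
  · exact map_zero _

private lemma nbcfL_geo {κ : Type} [Field κ] (r : κ) (n : ℤ) (W : κ[X]) :
    nbcfL (fun i => if i ≤ -1 then r ^ (-i - 1).toNat else 0) n ((X - C r) * W) =
      if 0 ≤ n then W.coeff n.toNat else 0 := by
  induction W using Polynomial.induction_on' with
  | add p q hp hq =>
    rw [mul_add, map_add, hp, hq, coeff_add]
    split_ifs <;> simp
  | monomial j a =>
    rw [sub_mul, X_mul_monomial, C_mul_monomial, map_sub, nbcfL_mono, nbcfL_mono, coeff_monomial]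
    rcases lt_trichotomy n j with h | h | h
    · rw [if_pos (by push_cast; omega), if_pos (by omega),
        show (-(n - ((j + 1 : ℕ) : ℤ)) - 1).toNat = (-(n - (j : ℤ)) - 1).toNat + 1 by
          push_cast; omega, pow_succ]
      have : (if 0 ≤ n then if j = n.toNat then a else 0 else 0) = 0 := by
        split_ifs with h1 h2
        · omega
        · rfl
        · rfl
      rw [this]
      ring
    · rw [if_pos (by push_cast; omega), if_neg (by omega), if_pos (by omega), if_pos (by omega),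
        show (-(n - ((j + 1 : ℕ) : ℤ)) - 1).toNat = 0 by push_cast; omega]
      ring
    · rw [if_neg (by push_cast; omega), if_neg (by omega), if_pos (by omega), if_neg (by omega)]
      ring

private lemma nbcfL_uniq {κ : Type} [Field κ] {V : κ[X]} (hV : V.Monic) {c : ℤ → κ}
    (h0 : ∀ n, 0 ≤ n → c n = 0) (h : ∀ n, nbcfL c n V = 0) (n : ℤ) : c n = 0 := by
  have key : ∀ j : ℕ, ∀ n : ℤ, -(j : ℤ) ≤ n → c n = 0 := by
    intro j
    induction j with
    | zero => exact fun n hn => h0 n (by simpa using hn)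
    | succ j ih =>
      intro n hn
      by_cases h1 : -(j : ℤ) ≤ n
      · exact ih n h1
      have h2 := h (n + V.natDegree)
      rw [nbcfL_range c _ le_rfl, Finset.sum_range_succ, hV.coeff_natDegree, one_mul,
        add_sub_cancel_right, Finset.sum_eq_zero, zero_add] at h2
      · exact h2
      · intro m hm
        have := Finset.mem_range.1 hm
        rw [ih _ (by push_cast at hn; omega), mul_zero]
  exact key n.natAbs n (by omega)

/-- The expansion of `v' / v` at infinity is the generating series of the power sums. -/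
lemma Cf_dlog {κ Z : Type} [Field κ] (φ : k →+* κ) {v : k[X]} (s : Finset Z) (r : Z → κ)
    (hv : v.map φ = ∏ z ∈ s, (X - C (r z))) (h : T.tr x = T.p (derivative v) / T.p v) (n : ℤ) :
    φ (Cf T n x) = if n ≤ -1 then ∑ z ∈ s, r z ^ (-n - 1).toNat else 0 := by
  have hV : (v.map φ).Monic := hv ▸ monic_prod_of_monic _ _ fun z _ => monic_X_sub_C _
  have hv0 : v ≠ 0 := fun e => hV.ne_zero (by rw [e, Polynomial.map_zero])
  have h1 : ∀ n : ℤ, 0 ≤ n → Cf T n x = 0 := fun n hn => by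
    rw [nbcf_e T (u := ι (derivative v) / ι v) (by rw [h, map_div₀]; rfl)]
    refine resInf_two (Fil.mul (nbcf_X _) (b := 1) ?_ (by omega))
    refine Fil.div (a := 1 - v.natDegree) (ι_mem_none'.2 ?_) (by rw [ord_none hv0]; omega)
    rw [← degree_eq_natDegree hv0]
    exact degree_derivative_lt hv0
  have h2 : ∀ n : ℤ, nbcfL (fun i => φ (Cf T i x)) n (v.map φ) =
      if 0 ≤ n then (derivative (v.map φ)).coeff n.toNat else 0 := fun n => by
    have h3 := Cf_poly T (x := T.p v * x) (q := derivative v) (by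
      rw [T.tr_fix_mul (fun g => T.σ_p g _), h, mul_div_cancel₀ _ (T.p_ne hv0)]) n
    rw [Cf_p T v le_rfl] at h3
    rw [nbcfL_range _ _ natDegree_map_le, derivative_map, coeff_map]
    simp only [coeff_map, ← map_mul, ← map_sum, h3]
    split_ifs <;> simp
  have h3 : ∀ n : ℤ, nbcfL (fun i => if i ≤ -1 then ∑ z ∈ s, r z ^ (-i - 1).toNat else 0) n
      (v.map φ) = if 0 ≤ n then (derivative (v.map φ)).coeff n.toNat else 0 := fun n => by
    have h4 : ∀ z ∈ s, nbcfL (fun i => if i ≤ -1 then r z ^ (-i - 1).toNat else 0) n (v.map φ) =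
        if 0 ≤ n then (∏ w ∈ s.erase z, (X - C (r w))).coeff n.toNat else 0 := fun z hz => by
      rw [hv, ← Finset.mul_prod_erase s _ hz, nbcfL_geo]
    have h5 := Finset.sum_congr rfl h4
    simp only [nbcfL_range _ _ le_rfl] at h5 ⊢
    rw [Finset.sum_comm] at h5
    simp only [← Finset.mul_sum, Finset.sum_ite_irrel, Finset.sum_const_zero] at h5
    rw [h5, hv, derivative_prod_finset, finsetSum_coeff]
    simp
  have h6 := nbcfL_uniq hV (c := fun i => φ (Cf T i x) -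
    if i ≤ -1 then ∑ z ∈ s, r z ^ (-i - 1).toNat else 0)
    (fun n hn => by rw [h1 n hn, map_zero, if_neg (by omega), sub_zero]) (fun n => by
      have h7 := (h2 n).trans (h3 n).symm
      simp only [nbcfL_range _ _ le_rfl] at h7 ⊢
      simp only [mul_sub, Finset.sum_sub_distrib, h7, sub_self]) n
  exact sub_eq_zero.1 h6

end Pool.Agent.Lib.MP_788af2_nt.AG
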