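import Pool.Agent.Lib.MP_788af2_nt.AG.Link
import Pool.Agent.Lib.MP_788af2_nt.AG.DomEx
import Pool.Agent.Lib.MP_788af2_nt.AS.Loc1
import Pool.Agent.Lib.MP_788af2_nt.AS.Log
import Pool.Agent.Lib.MP_788af2_nt.AS.Spl

/-!
The dictionary between the tower and the arrays: definitions.
-/

set_option linter.unusedSectionVars false

namespace Pool.Agent.Lib.MP_788af2_nt.AG

open Polynomial Filter Topology Pool.Agent.Lib.MP_788af2_nt.AS Pool.Agent.Lib.MP_a3f657_nt.Two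

open scoped Classical

section tower

variable {k I Lw : Type} [Field k] [Fintype k] [CharP k 2] [Fintype I] [DecidableEq I]
  [Field Lw] [CharP Lw 2] {β : I → k[X]} (T : Tw β Lw)

/-- The coefficient of `t ^ n` in the expansion at infinity of the trace of `x`. -/
noncomputable def Cf (n : ℤ) (x : Lw) : k :=
  resInf (Classical.epsilon fun y : RatFunc k =>
    T.tr (T.P.b ^ (-n - 1) * x) - T.e y ∈ T.d.Le (-2))

/-- The self-dual normal basis. -/
noncomputable def ep (g : G I) : Lw := T.σ g T.lgE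

/-- The dictionary. -/
noncomputable def dic (x : Lw) (n : ℤ) (g : G I) : k := Cf T n (x * ep T g)

/-- The coefficients of `t ^ (-a)` vanish for `2 a < R`. -/
def Van (x : Lw) (R : ℤ) : Prop := ∀ a : ℤ, 2 * a < R → dic T x (-a) = 0

/-- The elements of the tower attached to a logarithmic form `f`. -/
structure Elt (a s A2 : k[X]) (e l : ℕ) (f : Lw) where
  /-- `(X + w) / X ^ 2`. -/
  z0 : Lw
  /-- `w / X`. -/
  z1 : Lw
  /-- The correction. -/
  z2 : Lw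
  /-- `1 / (x X)`. -/
  y : Lw
  v0 : Van T z0 (2 * e - l)
  v00 : Van T (z0 ^ 2) (4 * e - l)
  v1 : Van T z1 (e - l)
  vy : Van T y (4 * e - l)
  vyy : Van T (y ^ 2) (8 * e - l)
  i0 : Van T (z1 + T.p (A2 + s ^ 2) * z0 ^ 2 + T.p a * z1 ^ 2 + z2 ^ 2 +
    (T.P.b * f + (T.P.b * f) ^ 2)) (2 * e - l)
  i0' : Van T (z0 + T.p a * z0 ^ 2 + z1 ^ 2) (4 * e - l)
  i1 : Van T (T.p (s ^ 2) * y + T.p (s ^ 2) * z0 ^ 2 + (T.p (s ^ 2) * y) ^ 2) (2 * e - l)
  im1 : Van T (y + z0 ^ 2 + T.p (s ^ 2) * y ^ 2) (6 * e - l)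
  iB : Van T (T.p (X * derivative a) * z0 + T.P.b * T.P.D z1 + T.P.b * f) (2 * e - l)

end tower

variable {K A J Z k κ I Lw : Type} [NontriviallyNormedField K] [IsUltrametricDist K]
  [CompleteSpace K] [CharZero K] [NormedCommRing A] [NormedAlgebra K A] [IsUltrametricDist A]
  [CompleteSpace A] [NormOneClass A] [Fintype J] [Fintype Z] [DecidableEq J] [DecidableEq Z]
  [Field k] [Fintype k] [CharP k 2] [Field κ] [CharP κ 2] [IsAlgClosed κ] [Fintype I]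
  [DecidableEq I] {δ : I → ℝ} [Field Lw] [CharP Lw 2]

/-- The lift of the dictionary. -/
noncomputable def Zl (ℓ : Lift K κ) (cb : Cube K I A δ) (em : k →+* κ) {β : I → k[X]}
    (T : Tw β Lw) (x : Lw) (n : ℤ) : A := lf ℓ cb em (dic T x n)

/-- The functional of `x` in the sector `k'`. -/
noncomputable def Za (ℓ : Lift K κ) (cb : Cube K I A δ) (em : k →+* κ) {β : I → k[X]}
    (T : Tw β Lw) (x : Lw) (k' : ℤ) : Arr A := fun u =>
  if u.1 ≤ -1 ∧ u.2 = -k' then Zl ℓ cb em T x u.1 else 0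

/-- The lift of `q * pG`. -/
noncomputable def lp (ℓ : Lift K κ) (cb : Cube K I A δ) (em : k →+* κ) (β : I → k[X]) (q : k[X])
    (n : ℕ) : A := lf ℓ cb em fun g => (q * pG β g).coeff n

/-- The approximate solution, as an array. -/
noncomputable def Elt.arr {β : I → k[X]} {T : Tw β Lw} {a s A2 : k[X]} {e l : ℕ} {f : Lw}
    (E : Elt T a s A2 e l f) (ℓ : Lift K κ) (cb : Cube K I A δ) (em : k →+* κ) : Arr A :=
  (1 / 4 : K) • Za ℓ cb em T (E.z0 ^ 2) 0 + (1 / 2 : K) • Za ℓ cb em T E.z0 0 +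
    Za ℓ cb em T E.z1 0 + (2 : K) • Za ℓ cb em T E.z2 0 +
    (1 / 2 : K) • Za ℓ cb em T (T.p (s ^ 2) * E.y) 1 +
    (1 / 4 : K) • Za ℓ cb em T ((T.p (s ^ 2) * E.y) ^ 2) 2 +
    (1 / 2 : K) • Za ℓ cb em T E.y (-1) + (1 / 4 : K) • Za ℓ cb em T (E.y ^ 2) (-2)

/-- The approximate solution, as a row vector. -/
noncomputable def Elt.rw0 {β : I → k[X]} {T : Tw β Lw} {a s A2 : k[X]} {e l : ℕ} {f : Lw}
    (E : Elt T a s A2 e l f) (ℓ : Lift K κ) (cb : Cube K I A δ) (emb : J → k →+* κ)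
    (r : J × Ex 1) : A := E.arr ℓ cb (emb r.1) (-r.2.1)

/-- The test vector. -/
noncomputable def tv (ℓ : Lift K κ) (cb : Cube K I A δ) (emb : J → k →+* κ) {β : I → k[X]}
    (T : Tw β Lw) (Y : Lw) (r : J × Ex 1) : A :=
  if r.2.1.2 = -1 then Zl ℓ cb (emb r.1) T Y r.2.1.1 else 0

/-- The roots above a prime. -/
noncomputable def Lnk.ov {q : Geo K J Z} {ℓ : Lift K κ} {b : k[X]} (L : Lnk q ℓ b) (v : k[X]) :
    Finset Z := Finset.univ.filter fun z => (v.map (L.emb (q.jz z))).IsRoot (L.rt z)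

/-- The defect of an approximate solution. -/
noncomputable def Dat.R0 (d : Dat K A J Z) (O : Finset Z) (ζ0 : J × Ex 1 → A) (r : J × Ex 1) : A :=
  ∑ z ∈ O, d.Err z r - 2 * ζ0 r + vmul ζ0 (d.M 1) r

/-- Polynomials over `K` with prescribed reduction. -/
def Red (ℓ : Lift K κ) (P : K[X]) (p : κ[X]) : Prop := ∀ n, ‖P.coeff n - ℓ.τ (p.coeff n)‖ ≤ 1 / 2

/-- The standing hypotheses. -/
structure Cx (d : Dat K A J Z) (ℓ : Lift K κ) (cb : Cube K I A δ) (a b : k[X]) (β : I → k[X])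
    (L : Lnk d.toGeo ℓ b) where
  /-- The reductions. -/
  c : Con d ℓ cb a b β L
  hP : Par β b (b ^ 2 ^ d.i) d.p.e
  ha : a.natDegree = d.p.e
  hm : d.p.m = 2 ^ d.i * b.natDegree
  hl : 20 * gam β Finset.univ + 10 * b.natDegree + 20 ≤ d.p.l
  hδ0 : ∀ i, 0 ≤ δ i
  hδ : ∑ i, δ i ≤ 1 / 10
  sm : d.Sm (1 / 2 ^ 20)

/-- The shape of the basic logarithmic forms. -/
def IsFt {β : I → k[X]} (T : Tw β Lw) (v : k[X]) (f : Lw) : Prop :=
  T.P.c1 f = f ∧ ∃ z ∈ T.O, f = T.lgE * (T.p (derivative v) / T.p v) + z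

end Pool.Agent.Lib.MP_788af2_nt.AG
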