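import Pool.Agent.Lib.MP_788af2_nt.AG.NBCf

/-!
The dictionary.
-/

set_option linter.unusedSectionVars false

namespace Pool.Agent.Lib.MP_788af2_nt.AG

open Polynomial Filter Topology Pool.Agent.Lib.MP_788af2_nt.AS Pool.Agent.Lib.MP_a3f657_nt.Two

open scoped Classical

variable {k I Lw : Type} [Field k] [Fintype k] [CharP k 2] [Fintype I] [DecidableEq I]
  [Field Lw] [CharP Lw 2] {β : I → k[X]} (T : Tw β Lw)

variable {x y : Lw} {n : ℤ}

private lemma dic_cases (u : ZMod 2) : u = 0 ∨ u = 1 := by revert u; decide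

private lemma dic_prod (F : I → ZMod 2 → Lw) :
    ∑ u : G I, ∏ i, F i (u i) = ∏ i, (F i 0 + F i 1) := by
  rw [← Fintype.piFinset_univ,
    ← Finset.prod_univ_sum (fun _ : I => (Finset.univ : Finset (ZMod 2))) F]
  exact Finset.prod_congr rfl fun i _ => Fin.sum_univ_two (F i)

private lemma dic_θ (i : I) : T.θ i ^ 2 + T.θ i = T.p (X * β i ^ 2) := T.θ_wp i

private lemma dic_Dprod (s : Finset I) (F : I → Lw) :
    T.P.D (∏ i ∈ s, F i) = ∑ i ∈ s, (∏ j ∈ s.erase i, F j) * T.P.D (F i) := by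
  induction s using Finset.induction_on with
  | empty => simp
  | insert a s ha ih =>
    rw [Finset.prod_insert ha, Finset.sum_insert ha, Finset.erase_insert ha, PB.D_mul, ih,
      Finset.mul_sum, add_comm]
    congr 1
    refine Finset.sum_congr rfl fun i hi => ?_
    rw [Finset.erase_insert_of_ne (ne_of_mem_of_not_mem hi ha).symm,
      Finset.prod_insert fun h => ha (Finset.mem_of_mem_erase h), mul_assoc]

private lemma dic_idem {b : k[X]} (hb : ∀ i, b ∣ β i) :
    ∃ o ∈ T.O, T.lgE ^ 2 = T.lgE + T.p b ^ 2 * o := by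
  unfold Tw.lgE
  induction (Finset.univ : Finset I) using Finset.induction_on with
  | empty => exact ⟨0, zero_mem _, by simp⟩
  | insert i s hi ih =>
    obtain ⟨o, ho, e⟩ := ih
    obtain ⟨c, hc⟩ := hb i
    have h1 : T.θ i ^ 2 + T.θ i = T.p b ^ 2 * T.p (X * c ^ 2) := by
      rw [dic_θ, hc, ← map_pow, ← map_mul]
      congr 1
      ring
    have h2 : ∏ i ∈ s, (T.θ i + 1) ∈ T.O :=
      prod_mem fun i _ => add_mem (T.θ_mem_O i) (one_mem _)
    refine ⟨(T.θ i + 1) * o + T.p (X * c ^ 2) * (∏ i ∈ s, (T.θ i + 1)) ^ 2,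
      add_mem (mul_mem (add_mem (T.θ_mem_O i) (one_mem _)) ho)
        (mul_mem (T.p_mem_O _) (pow_mem h2 2)), ?_⟩
    rw [Finset.prod_insert hi]
    generalize ∏ i ∈ s, (T.θ i + 1) = E at e ⊢
    generalize T.p (X * c ^ 2) = y at h1 ⊢
    grind

lemma ep_eq (g : G I) : ep T g = ∏ i, (T.θ i + zc Lw (g i) + 1) := by
  simp only [ep, Tw.lgE, map_prod, map_add, T.σ_θ, map_one]

lemma ep_O (g : G I) : ep T g ∈ T.O := T.σ_O g T.lgE_O

lemma ep_mem (g : G I) : ep T g ∈ T.d.Le (gam β Finset.univ) := by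
  refine T.σ_mem g (DF.Le.prod _ fun i _ => add_mem (T.θ_mem i) (DF.Le.one ?_))
  positivity

lemma σ_ep (g h : G I) : T.σ g (ep T h) = ep T (g + h) := (T.σ_add g h _).symm

lemma tr_ep (g h : G I) : T.tr (ep T g * ep T h) = if g = h then 1 else 0 := by
  simp only [Tw.tr, map_mul, σ_ep]
  simp only [ep_eq, ← Finset.prod_mul_distrib, Pi.add_apply]
  rw [dic_prod fun i u => (T.θ i + zc Lw (u + g i) + 1) * (T.θ i + zc Lw (u + h i) + 1)]
  split_ifs with e
  · refine Finset.prod_eq_one fun i _ => ?_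
    simp only [e, map_add, map_zero, map_one]
    grind
  · obtain ⟨i, hi⟩ := Function.ne_iff.1 e
    refine Finset.prod_eq_zero (Finset.mem_univ i) ?_
    rcases dic_cases (g i) with h1 | h1 <;> rcases dic_cases (h i) with h2 | h2
    · exact (hi (h1.trans h2.symm)).elim
    · simp only [h1, h2, map_add, map_zero, map_one]
      grind
    · simp only [h1, h2, map_add, map_zero, map_one]
      grind
    · exact (hi (h1.trans h2.symm)).elim

lemma ep_basis (x : Lw) : x = ∑ h, T.tr (x * ep T h) * ep T h := by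
  have h1 : ∀ u, ∑ h, ep T (u + h) * ep T h = if u = 0 then 1 else 0 := fun u => by
    rw [← tr_ep T u 0]
    simp only [Tw.tr, map_mul, σ_ep, add_zero, add_comm u]
  simp only [Tw.tr, map_mul, σ_ep, Finset.sum_mul, mul_assoc]
  rw [Finset.sum_comm]
  simp [← Finset.mul_sum, h1, T.σ_zero]

lemma ep_sq (g : G I) : ep T g = ∑ h, T.p (pG β h) * ep T (g + h) ^ 2 := by
  simp only [ep_eq, pG, map_prod, ← Finset.prod_pow, ← Finset.prod_mul_distrib, Pi.add_apply]
  rw [dic_prod fun i u => T.p (if u = 0 then 1 + X * β i ^ 2 else X * β i ^ 2) *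
    (T.θ i + zc Lw (g i + u) + 1) ^ 2]
  refine Finset.prod_congr rfl fun i _ => ?_
  rw [if_pos rfl, if_neg one_ne_zero, map_add T.p, map_one, ← dic_θ]
  rcases dic_cases (g i) with h | h <;> simp only [h, map_add, map_zero, map_one] <;> grind

lemma ep_sq' (g : G I) : ep T g ^ 2 = ∑ h, T.p (pG β h) * ep T (g + h) := by
  simp only [ep_eq, pG, map_prod, ← Finset.prod_pow, ← Finset.prod_mul_distrib, Pi.add_apply]
  rw [dic_prod fun i u => T.p (if u = 0 then 1 + X * β i ^ 2 else X * β i ^ 2) *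
    (T.θ i + zc Lw (g i + u) + 1)]
  refine Finset.prod_congr rfl fun i _ => ?_
  rw [if_pos rfl, if_neg one_ne_zero, map_add T.p, map_one, ← dic_θ]
  rcases dic_cases (g i) with h | h <;> simp only [h, map_add, map_zero, map_one] <;> grind

lemma ep_D (g : G I) : T.P.b * T.P.D (ep T g) = ∑ h, T.p (lG β h) * ep T (g + h) := by
  simp only [lG, map_sum, Finset.sum_mul]
  rw [Finset.sum_comm, ep_eq, dic_Dprod, Finset.mul_sum]
  refine Finset.sum_congr rfl fun i _ => ?_
  have h0 : (0 : G I) ≠ Pi.single i 1 := fun e => by simpa using congrFun e i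
  have h1 : T.P.D (T.θ i + zc Lw (g i) + 1) = T.p (derivative (X * β i ^ 2)) := by
    rw [← T.D_p, ← dic_θ, PB.D_add, PB.D_add, PB.D_add, PB.D_sq, PB.D_one]
    rcases dic_cases (g i) with h | h <;> simp [h]
  have h2 : ep T (g + 0) + ep T (g + Pi.single i 1) =
      ∏ j ∈ Finset.univ.erase i, (T.θ j + zc Lw (g j) + 1) := by
    rw [add_zero, ep_eq, ep_eq, ← Finset.mul_prod_erase _ _ (Finset.mem_univ i),
      ← Finset.mul_prod_erase _ _ (Finset.mem_univ i), Finset.prod_congr rfl fun j hj =>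
        show T.θ j + zc Lw ((g + Pi.single i 1 : G I) j) + 1 = T.θ j + zc Lw (g j) + 1 by
          rw [Pi.add_apply, Pi.single_eq_of_ne (Finset.ne_of_mem_erase hj), add_zero],
      Pi.add_apply, Pi.single_eq_same, map_add, map_one]
    grind
  rw [Finset.sum_eq_add_of_mem 0 (Pi.single i 1) (Finset.mem_univ _) (Finset.mem_univ _) h0
    fun c _ hc => by rw [if_neg (not_or.2 hc), map_zero, zero_mul], if_pos (.inl rfl),
    if_pos (.inr rfl), ← mul_add, h1, h2, map_mul T.p, T.p_X]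
  ring

lemma dic_add (x y : Lw) (n : ℤ) : dic T (x + y) n = dic T x n + dic T y n :=
  funext fun g => by simp only [dic, add_mul, Cf_add, Pi.add_apply]

lemma dic_small {r : ℝ} (hx : x ∈ T.d.Le r) (h : r + gam β Finset.univ < n) : dic T x n = 0 :=
  funext fun g => Cf_small T (DF.Le.mul hx (ep_mem T g) le_rfl) h

lemma van_of_le {r : ℝ} {R : ℤ} (hx : x ∈ T.d.Le r) (h : 2 * (r + gam β Finset.univ) ≤ -R) :
    Van T x R := fun a ha => dic_small T hx (by
  have : (2 : ℝ) * a < R := by exact_mod_cast ha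
  push_cast
  linarith)

lemma dic_b (x : Lw) (n : ℤ) : dic T (T.P.b * x) n = dic T x (n - 1) :=
  funext fun g => by simp only [dic, mul_assoc, Cf_b]

lemma dic_p (q : k[X]) {N : ℕ} (hN : q.natDegree ≤ N) (x : Lw) (n : ℤ) (g : G I) :
    dic T (T.p q * x) n g = ∑ m ∈ Finset.range (N + 1), q.coeff m * dic T x (n - m) g := by
  simp only [dic, mul_assoc, Cf_p T q hN]

lemma dic_sq (q : k[X]) {N : ℕ} (hN : ∀ h, (q * pG β h).natDegree ≤ N) (x : Lw) (n : ℤ) (g : G I) :
    dic T (T.p q * x ^ 2) n g = ∑ m ∈ Finset.range (N + 1), ∑ h, (q * pG β h).coeff m *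
      (if 2 ∣ n - m then dic T x ((n - m) / 2) (g + h) ^ 2 else 0) := by
  have e : T.p q * x ^ 2 * ep T g = ∑ h, T.p (q * pG β h) * (x * ep T (g + h)) ^ 2 := by
    rw [ep_sq T g, Finset.mul_sum]
    exact Finset.sum_congr rfl fun h _ => by rw [map_mul]; ring
  rw [dic, e, Cf_sum, Finset.sum_comm]
  exact Finset.sum_congr rfl fun h _ => by simp only [Cf_p T _ (hN h), Cf_sq, dic]

lemma dic_psi (q : k[X]) {N : ℕ} (hN : ∀ h, (q * pG β h).natDegree ≤ N) (x : Lw) (n : ℤ)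
    (g : G I) : ∑ m ∈ Finset.range (N + 1), ∑ h, (q * pG β h).coeff m *
      dic T x (2 * n - m) (g + h) = dic T (T.P.c0 (T.p q * x)) n g ^ 2 := by
  have e : ∑ h, T.p (q * pG β h) * (x * ep T (g + h)) = (T.P.c0 (T.p q * x) * ep T g) ^ 2 +
      T.P.b * (T.P.c1 (T.p q * x) * ep T g) ^ 2 := by
    rw [mul_pow, mul_pow, ← mul_assoc, ← add_mul, ← T.P.spec, ep_sq' T g, Finset.mul_sum]
    exact Finset.sum_congr rfl fun h _ => by rw [map_mul]; ring
  have h1 := congrArg (Cf T (2 * n)) e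
  rw [Cf_sum, Cf_add, Cf_b, Cf_sq, Cf_sq, if_pos (dvd_mul_right _ _), if_neg (by omega),
    add_zero, Int.mul_ediv_cancel_left _ two_ne_zero] at h1
  rw [Finset.sum_comm]
  exact (Finset.sum_congr rfl fun h _ => (Cf_p T _ (hN h) _ _).symm).trans h1

lemma dic_D {N : ℕ} (hN : ∀ h, (lG β h).natDegree ≤ N) (x : Lw) (n : ℤ) (g : G I) :
    dic T (T.P.b * T.P.D x) n g = n • dic T x n g +
      ∑ m ∈ Finset.range (N + 1), ∑ h, (lG β h).coeff m * dic T x (n - m) (g + h) := by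
  have e : T.P.b * T.P.D x * ep T g =
      T.P.b * T.P.D (x * ep T g) + ∑ h, T.p (lG β h) * (x * ep T (g + h)) := by
    have h1 : ∑ h, T.p (lG β h) * (x * ep T (g + h)) = x * (T.P.b * T.P.D (ep T g)) := by
      rw [ep_D, Finset.mul_sum]
      exact Finset.sum_congr rfl fun h _ => mul_left_comm _ _ _
    rw [h1, PB.D_mul]
    grind
  rw [dic, e, Cf_add, Cf_D, Cf_sum, Finset.sum_comm]
  congr 1
  exact Finset.sum_congr rfl fun h _ => Cf_p T _ (hN h) _ _

lemma dic_O (hx : x ∈ T.O) : ∃ q : G I → k[X], (∀ g, T.tr (x * ep T g) = T.p (q g)) ∧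
    ∀ n g, dic T x n g = if 0 ≤ n then (q g).coeff n.toNat else 0 := by
  choose q hq using fun g => T.tr_O (mul_mem hx (ep_O T g))
  exact ⟨q, hq, fun n g => Cf_poly T (hq g) n⟩

/-- The constant term of the product of two dictionaries. -/
lemma dic_pair (hy : y ∈ T.O) {N : ℕ} (hN : ∀ n : ℤ, N < n → dic T y n = 0) (x : Lw) (g : G I) :
    ∑ m ∈ Finset.range (N + 1), ∑ h, dic T x (-m) h * dic T y m (g + h) =
      Cf T 0 (T.σ g x * y) := by
  obtain ⟨q, q1, q2⟩ := dic_O T hy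
  have q3 : ∀ (m : ℕ) h, dic T y m h = (q h).coeff m := fun m h => by simp [q2]
  have q4 : ∀ h, (q h).natDegree ≤ N := fun h => natDegree_le_iff_coeff_eq_zero.2 fun m hm => by
    rw [← q3, hN m (by exact_mod_cast hm), Pi.zero_apply]
  have e : T.σ g x * y = ∑ h, T.σ g (T.p (q (g + h)) * (x * ep T h)) := by
    conv_lhs => rw [ep_basis T y, ← Equiv.sum_comp (Equiv.addLeft g), Finset.mul_sum]
    refine Finset.sum_congr rfl fun h _ => ?_
    rw [q1, map_mul, map_mul, T.σ_p, σ_ep, Equiv.coe_addLeft]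
    ring
  rw [e, Cf_sum, Finset.sum_comm]
  refine Finset.sum_congr rfl fun h _ => ?_
  rw [Cf_σ, Cf_p T _ (q4 _)]
  exact Finset.sum_congr rfl fun m _ => by rw [q3, zero_sub, mul_comm, dic]

lemma tr_ft {v : k[X]} {f : Lw} (hf : IsFt T v f) (g : G I) : ∃ o : k[X],
    T.tr (f * ep T g) = (if g = 0 then T.p (derivative v) / T.p v else 0) + T.p o := by
  obtain ⟨-, z, hz, rfl⟩ := hf
  obtain ⟨o, ho⟩ := T.tr_O (mul_mem hz (ep_O T g))
  refine ⟨o, ?_⟩
  have e : T.lgE * (T.p (derivative v) / T.p v) * ep T g =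
      T.p (derivative v) / T.p v * (ep T g * ep T 0) := by
    rw [ep, ep, T.σ_zero]
    ring
  rw [add_mul, T.tr_add, ho, e, T.tr_fix_mul fun u => by rw [map_div₀, T.σ_p, T.σ_p], tr_ep,
    mul_ite, mul_one, mul_zero]

lemma tr_ft_sq {v b : k[X]} {f : Lw} (hf : IsFt T v f) (hv : v ≠ 0) (hb : v ∣ b)
    (hβ : ∀ i, b ∣ β i) (g : G I) : ∃ o : k[X], T.tr (f ^ 2 * ep T g) =
      (if g = 0 then (T.p (derivative v) / T.p v) ^ 2 else 0) + T.p o := by
  obtain ⟨-, z, hz, rfl⟩ := hf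
  obtain ⟨u, hu, e1⟩ := dic_idem T fun i => hb.trans (hβ i)
  obtain ⟨o, ho⟩ := T.tr_O (mul_mem (add_mem (mul_mem (pow_mem (T.p_mem_O (derivative v)) 2) hu)
    (pow_mem hz 2)) (ep_O T g))
  refine ⟨o, ?_⟩
  have h0 := T.p_ne hv
  have e : (T.lgE * (T.p (derivative v) / T.p v) + z) ^ 2 * ep T g =
      (T.p (derivative v) / T.p v) ^ 2 * (ep T g * ep T 0) +
        (T.p (derivative v) ^ 2 * u + z ^ 2) * ep T g := by
    rw [CharTwo.add_sq, mul_pow, e1, show ep T 0 = T.lgE from T.σ_zero _]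
    field_simp
    ring
  rw [e, T.tr_add, ho, T.tr_fix_mul fun u => by rw [map_pow, map_div₀, T.σ_p, T.σ_p], tr_ep,
    mul_ite, mul_one, mul_zero]

end Pool.Agent.Lib.MP_788af2_nt.AG
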