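import Pool.Agent.Lib.MP_788af2_nt.AG.NBDic

/-!
The elements of the tower attached to a logarithmic form.
-/

set_option linter.unusedSectionVars false

namespace Pool.Agent.Lib.MP_788af2_nt.AG

open Polynomial Filter Topology Pool.Agent.Lib.MP_788af2_nt.AS Pool.Agent.Lib.MP_a3f657_nt.Two

open scoped Classical

variable {k I Lw : Type} [Field k] [Fintype k] [CharP k 2] [Fintype I] [DecidableEq I]
  [Field Lw] [CharP Lw 2] {β : I → k[X]} (T : Tw β Lw)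

variable [DecidableEq Lw] {a b s A2 : k[X]} {e l : ℕ}

lemma ft_Wl (hb : b ≠ 0) {v : k[X]} (hv : v ∈ Spl b a) {f : Lw} (hf : IsFt T v f) :
    f ∈ T.Wl (∏ q ∈ Spl b a, q) ∧ f ≠ 0 := by
  obtain ⟨h1, z, hz, e⟩ := hf
  have hq := ((mem_Spl hb).1 hv).1
  have h0 := T.p_ne hq.ne_zero
  obtain ⟨r, hr⟩ := Finset.dvd_prod_of_mem (fun q => q) hv
  refine ⟨⟨h1, ?_⟩, fun h => hq.not_isUnit
    (IsCoprime.isUnit_of_dvd' (PerfectField.separable_of_irreducible hq) dvd_rfl ?_)⟩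
  · have e1 : T.p (∏ q ∈ Spl b a, q) * f = T.lgE * T.p (derivative v * r) + T.p (v * r) * z := by
      rw [hr, e, map_mul, map_mul]
      field_simp
    rw [e1]
    exact add_mem (mul_mem T.lgE_O (T.p_mem_O _)) (mul_mem (T.p_mem_O _) hz)
  · obtain ⟨o, ho⟩ := T.tr_O hz
    rw [← CharTwo.add_eq_zero.1 (e.symm.trans h),
      T.lgE_tr_mul fun g => by rw [map_div₀, T.σ_p, T.σ_p], div_eq_iff h0, ← map_mul] at ho
    exact ⟨o, by rw [T.p_inj ho, mul_comm]⟩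

private lemma D_U {x f S : Lw} (hx : x ≠ 0) (h : T.P.D x = f * x) :
    T.P.D (x + S ^ 2 / x) = f * (x + S ^ 2 / x) := by
  rw [PB.D_add, show S ^ 2 / x = (S / x) ^ 2 * x by field_simp, PB.D_sq_mul, h]
  ring

private lemma D_w {w U f : Lw} (hw : wp w = T.p a + U) (h : T.P.D U = f * U) :
    T.p (derivative a) = T.P.D w + f * U := by
  have := congrArg T.P.D hw
  rw [wp, PB.D_add, PB.D_add, PB.D_sq, T.D_p, h] at this
  grind

private lemma p_der (ha : a.natDegree = e) : T.p (derivative a) ∈ T.d.Le e :=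
  DF.Le.mono (T.p_mem _) (by
    have := natDegree_derivative_le a
    exact_mod_cast (by omega : (derivative a).natDegree ≤ e))

/-- The point with logarithmic derivative `f`: `x` its first coordinate, `U = x + s ^ 2 / x`. -/
lemma exists_xw (hP : Par β b s e) (ha : a.natDegree = e) {f : Lw}
    (hf : f ∈ T.Wl (∏ q ∈ Spl b a, q)) (h0 : f ≠ 0) :
    ∃ x w : Lw, x ≠ 0 ∧ x + T.p s ^ 2 / x ≠ 0 ∧ wp w = T.p a + (x + T.p s ^ 2 / x) ∧
      T.P.D x = f * x ∧ x⁻¹ ∈ T.d.Le (-e + 2 * gam β Finset.univ + 2) ∧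
      (x + T.p s ^ 2 / x)⁻¹ ∈ T.d.Le (-e + 2 * gam β Finset.univ + 2) ∧
      w ∈ T.d.Le ((e + b.natDegree) / 2) ∧
      ∀ (g : G I), ∀ f' ∈ T.Wl (∏ q ∈ Spl b a, q),
        T.B a s (T.σ g f) f' = T.R (T.σ g (T.p s ^ 2 / x) * f') := by
  have hA := adm_spl hP.b_ne a
  obtain ⟨h1, h2⟩ := T.pt_spec hP ha hA hf
  generalize T.pt a s f = Q at h1 h2
  have hγ := gam_nonneg β Finset.univ
  have hl1 := hP.le1
  have hl2 := hP.le2
  have hn : (0 : ℝ) ≤ b.natDegree := Nat.cast_nonneg _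
  have hE : T.E0 a = (e : ℝ) - 2 * gam β Finset.univ - 2 := by rw [Tw.E0, ha]
  have h3 : xc Q ∉ T.d.Le (T.E0 a) := h1.resolve_left (by
    rintro rfl
    exact h0 (by rw [← h2]; simp [Tw.ff, xc]))
  obtain ⟨hx, hx'⟩ := DF.not_mem_Le.1 h3
  obtain ⟨hU, hU'⟩ := DF.deg_add_eq h3 (y := T.p s ^ 2 / xc Q)
    (DF.Le.div' (DF.Le.sq (T.p_mem s) le_rfl) h3 (by linarith))
  have hw : wp (yc Q / xc Q) = T.p a + (xc Q + T.p s ^ 2 / xc Q) := by
    rw [wp_pt Q hx]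
    ring
  have hD : T.P.D (xc Q) = f * xc Q := (div_eq_iff hx).1 h2
  refine ⟨xc Q, yc Q / xc Q, hx, hU, hw, hD, DF.mem_Le_of (by rw [DF.deg_inv hx]; linarith),
    DF.mem_Le_of (by rw [DF.deg_inv hU]; linarith), ?_, fun g f' hf' => ?_⟩
  · have h4 := D_w T hw (D_U T hx hD)
    have ha' : T.p a ∈ T.d.Le e := ha ▸ T.p_mem a
    generalize xc Q + T.p s ^ 2 / xc Q = U at *
    refine DF.Le.of_wp (r := e + b.natDegree) ?_ (by positivity) le_rfl
    rw [hw]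
    refine add_mem (DF.Le.mono ha' (by linarith)) (DF.mem_Le_of (not_lt.1 fun h5 => ?_))
    have h6 := T.D_le (T.mem_Fx_univ _) (DF.Le.of_wp (r := T.d.deg U)
      (hw ▸ add_mem (DF.Le.mono ha' (by linarith)) (DF.mem_Le_deg U)) (by linarith) le_rfl) le_rfl
    have h7 := T.Wl_deg (ne_zero_of_dvd_ne_zero hP.b_ne hA.dvd) hf h0
    have h8 : ((∏ q ∈ Spl b a, q).natDegree : ℝ) ≤ b.natDegree := by
      exact_mod_cast natDegree_le_of_dvd hA.dvd hP.b_ne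
    have h9 := add_mem (DF.Le.mono (p_der T ha) (le_max_left _ _)) (DF.Le.mono h6 (le_max_right _ _))
    rw [h4, add_right_comm, CharTwo.add_self_eq_zero, zero_add, DF.mem_Le_iff (mul_ne_zero h0 hU),
      T.d.deg_mul h0 hU, le_max_iff] at h9
    rcases h9 with h9 | h9 <;> linarith
  · have h4 : T.ff (T.sP a s g Q) = T.σ g f := by rw [T.ff_sP, h2]
    rw [← h4, T.B_eq hP ha hA (T.InM_sP g h1) (by rw [h4]; exact T.Wl_σ g hf) hf', T.xc_sP,
      map_div₀, map_pow, T.σ_p]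

theorem exists_elt (hP : Par β b s e) (ha : a.natDegree = e) {f : Lw}
    (hf : f ∈ T.Wl (∏ q ∈ Spl b a, q)) (h0 : f ≠ 0) (hl1 : s.natDegree + 10 * l ≤ e)
    (hl : 20 * gam β Finset.univ + 10 * b.natDegree + 20 ≤ l)
    (hA : X * derivative A2 = X * derivative a * a + (X * derivative a) ^ 2) :
    ∃ E : Elt T a s A2 e l f, ∀ (g : G I), ∀ f' ∈ T.Wl (∏ q ∈ Spl b a, q),
      T.R (T.σ g (T.p a * E.z0 ^ 2 + E.z1 ^ 2 + T.p (a * s ^ 2) * E.y ^ 2) * (T.p (s ^ 2) * f')) =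
        T.B a s (T.σ g f) f' := by
  obtain ⟨x, w, hx, hU, hw, hD, m1, mu, mw, hB⟩ := exists_xw T hP ha hf h0
  have hγ := gam_nonneg β Finset.univ
  have hn : (0 : ℝ) ≤ b.natDegree := Nat.cast_nonneg _
  have hm : (0 : ℝ) ≤ s.natDegree := Nat.cast_nonneg _
  have hl2 : (s.natDegree : ℝ) + 10 * l ≤ e := by exact_mod_cast hl1
  have dU := D_U T hx hD (S := T.p s)
  have dA := D_w T hw dU
  have mA : T.p a ∈ T.d.Le e := ha ▸ T.p_mem a
  have mA' := DF.Le.mul T.b_mem (p_der T ha) le_rfl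
  have mS := DF.Le.sq (T.p_mem s) le_rfl
  have mw' := T.D_le (T.mem_Fx_univ w) mw le_rfl
  have e1 := mul_inv_cancel₀ hx
  have e2 := mul_inv_cancel₀ hU
  have e3 : T.P.b * T.p (derivative A2) =
      T.P.b * T.p (derivative a) * T.p a + (T.P.b * T.p (derivative a)) ^ 2 := by
    simpa only [map_add, map_mul, map_pow, T.p_X] using congrArg T.p hA
  rw [div_eq_mul_inv] at hB
  obtain ⟨U, eU⟩ : ∃ U, U = x + T.p s ^ 2 / x := ⟨_, rfl⟩
  rw [← eU] at hw dU dA mu e2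
  rw [div_eq_mul_inv] at eU
  generalize U⁻¹ = u at mu e2
  generalize x⁻¹ = ξ at m1 e1 hB eU
  have eA : T.p a = w ^ 2 + w + U := by unfold wp at hw; grind
  have d1 : T.P.D (w * u) = u * (w * f + T.P.D w) := by
    rw [show w * u = u ^ 2 * (w * U) by grind, PB.D_sq_mul, PB.D_mul, dU]
    grind
  have mu2 := DF.Le.sq mu le_rfl
  have m4 := DF.Le.sq (DF.Le.mul mw mu2 le_rfl) le_rfl
  have m0 : (U + w) * u ^ 2 ∈ T.d.Le (-e + 2 * gam β Finset.univ + 2) := by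
    rw [show (U + w) * u ^ 2 = u + w * u ^ 2 by grind]
    exact add_mem mu (DF.Le.mul mw mu2 (by linarith))
  have my := DF.Le.mul m1 mu le_rfl
  have mB := DF.Le.mul (DF.Le.mul T.b_mem mw' le_rfl) (DF.Le.mul mw mu2 le_rfl) le_rfl
  obtain ⟨Y, hY⟩ : ∃ Y, Y = w * u + ((U + w) * u ^ 2) ^ 2 * T.p A2 + (w * u) ^ 2 * T.p a +
    (T.P.b * f + (T.P.b * f) ^ 2) := ⟨_, rfl⟩
  have dY : T.P.b * T.P.D Y = T.P.b * T.P.D w * (w * u ^ 2) + (T.P.b * T.P.D w * u) ^ 2 +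
      (T.P.b * T.p (derivative a) * T.p a + (T.P.b * T.p (derivative a)) ^ 2) *
        (w * u ^ 2) ^ 2 := by
    have d2 : T.P.D f = f ^ 2 := by rw [PB.D, hf.1]
    rw [hY, PB.D_add, PB.D_add, PB.D_add, PB.D_add, PB.D_sq_mul, PB.D_sq_mul, PB.D_sq, d1,
      PB.D_mul, d2, PB.D_b, T.D_p, T.D_p, mul_add, mul_add, mul_add, mul_left_comm _ _ (T.p _), e3,
      dA, eA]
    clear * - e2
    grind
  refine ⟨⟨(U + w) * u ^ 2, w * u, T.P.c0 Y + T.p s * ((U + w) * u ^ 2), ξ * u,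
    van_of_le T m0 (by push_cast; linarith),
    van_of_le T (DF.Le.sq m0 le_rfl) (by push_cast; linarith),
    van_of_le T (DF.Le.mul mw mu le_rfl) (by push_cast; linarith),
    van_of_le T my (by push_cast; linarith),
    van_of_le T (DF.Le.sq my le_rfl) (by push_cast; linarith), ?_, ?_, ?_, ?_, ?_⟩,
    fun g f' hf' => ?_⟩
  · have e4 := T.P.spec Y
    rw [map_add, map_pow, show w * u + (T.p A2 + T.p s ^ 2) * ((U + w) * u ^ 2) ^ 2 +
      T.p a * (w * u) ^ 2 + (T.P.c0 Y + T.p s * ((U + w) * u ^ 2)) ^ 2 +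
      (T.P.b * f + (T.P.b * f) ^ 2) = T.P.b * T.P.D Y by
        unfold PB.D
        clear * - e4 hY
        grind, dY]
    refine van_of_le T (r := -e + b.natDegree + 8 * gam β Finset.univ + 10) (add_mem (add_mem
      (DF.Le.mono mB (by linarith)) (DF.Le.sq (DF.Le.mul (DF.Le.mul T.b_mem mw' le_rfl) mu le_rfl)
      (by linarith))) (DF.Le.mul (add_mem (DF.Le.mul mA' mA (c := 2 * (1 + e)) (by linarith))
      (DF.Le.sq mA' le_rfl)) m4 (by linarith))) (by push_cast; linarith)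
  · rw [show (U + w) * u ^ 2 + T.p a * ((U + w) * u ^ 2) ^ 2 + (w * u) ^ 2 =
      T.p a * (w * u ^ 2) ^ 2 by rw [eA]; clear * - e2; grind]
    exact van_of_le T (DF.Le.mul mA m4 le_rfl) (by push_cast; linarith)
  · rw [map_pow, show T.p s ^ 2 * (ξ * u) + T.p s ^ 2 * ((U + w) * u ^ 2) ^ 2 +
      (T.p s ^ 2 * (ξ * u)) ^ 2 = T.p s ^ 2 * (w * u ^ 2) ^ 2 by clear * - e1 e2 eU; grind]
    exact van_of_le T (DF.Le.mul mS m4 le_rfl) (by push_cast; linarith)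
  · rw [map_pow, show ξ * u + ((U + w) * u ^ 2) ^ 2 + T.p s ^ 2 * (ξ * u) ^ 2 =
      (w * u ^ 2) ^ 2 by clear * - e1 e2 eU; grind]
    exact van_of_le T m4 (by push_cast; linarith)
  · rw [map_mul, T.p_X, d1, show T.P.b * T.p (derivative a) * ((U + w) * u ^ 2) +
      T.P.b * (u * (w * f + T.P.D w)) + T.P.b * f = T.P.b * T.P.D w * (w * u ^ 2) by
        rw [dA]; clear * - e2; grind]
    exact van_of_le T mB (by push_cast; linarith)
  · have e4 : (T.p a * ((U + w) * u ^ 2) ^ 2 + (w * u) ^ 2 + T.p a * T.p s ^ 2 * (ξ * u) ^ 2) *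
        T.p s ^ 2 = T.p s ^ 2 * ξ + wp (T.p s ^ 2 * (ξ * u) * w) +
          T.p a * (T.p s ^ 2 * (w * u ^ 2) ^ 2) := by
      rw [eA, wp]
      clear * - e1 e2 eU
      grind
    have e5 : ∀ z : Lw, T.σ g (wp z) = wp (T.σ g z) := fun z => by rw [wp, wp, map_add, map_pow]
    dsimp only
    rw [hB g f' hf', ← mul_assoc, ← T.σ_p g (s ^ 2), ← map_mul, map_mul T.p, map_pow, e4, map_add,
      map_add, add_mul, add_mul, T.R_add, T.R_add, e5, T.R_wp_mul hf'.1, add_zero,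
      T.R_small (DF.Le.mul (T.σ_mem g (DF.Le.mul mA (DF.Le.mul mS m4 le_rfl) le_rfl))
        (T.Wl_le hf') (by linarith)), add_zero]

end Pool.Agent.Lib.MP_788af2_nt.AG
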