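import Pool.Agent.Lib.MP_788af2_nt.AG.NBRed

/-!
The Frobenius series to the required accuracy.
-/

set_option linter.unusedSectionVars false

namespace Pool.Agent.Lib.MP_788af2_nt.AG

open Polynomial Filter Topology Pool.Agent.Lib.MP_788af2_nt.AS Pool.Agent.Lib.MP_a3f657_nt.Two

open scoped Classical

variable {K A J Z k κ I Lw : Type} [NontriviallyNormedField K] [IsUltrametricDist K]
  [CompleteSpace K] [CharZero K] [NormedCommRing A] [NormedAlgebra K A] [IsUltrametricDist A]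
  [CompleteSpace A] [NormOneClass A] [Fintype J] [Fintype Z] [DecidableEq J] [DecidableEq Z]
  [Field k] [Fintype k] [CharP k 2] [Field κ] [CharP κ 2] [IsAlgClosed κ] [Fintype I]
  [DecidableEq I] {δ : I → ℝ} [Field Lw] [CharP Lw 2]

variable {d : Dat K A J Z} {ℓ : Lift K κ} {cb : Cube K I A δ} {a b : k[X]} {β : I → k[X]}
  {L : Lnk d.toGeo ℓ b} (X0 : Cx d ℓ cb a b β L) (T : Tw β Lw)

section aux

variable (ℓ cb) (em : k →+* κ) (β)

lemma nbf_sm {c : K} {x : A} {s t : ℝ} (hc : ‖c‖ ≤ s) (hx : ‖x‖ ≤ t) : ‖c • x‖ ≤ s * t := by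
  rw [norm_smul]
  exact mul_le_mul hc hx (norm_nonneg _) ((norm_nonneg _).trans hc)

include ℓ in
lemma nbf_two {x : A} {t : ℝ} (hx : ‖x‖ ≤ t) : ‖(2 : K) • x‖ ≤ t / 2 :=
  (nbf_sm ℓ.two.le hx).trans_eq (by ring)

include ℓ in
lemma nbf_four {x : A} {t : ℝ} (hx : ‖x‖ ≤ t) : ‖(4 : K) • x‖ ≤ t / 4 := by
  rw [show (4 : K) = 2 * 2 by norm_num, mul_smul]
  exact (nbf_two ℓ (nbf_two ℓ hx)).trans_eq (by ring)

lemma nbf_sum {α : Type} {s : Finset α} {f : α → A} {D : ℝ} (hD : 0 ≤ D)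
    (h : ∀ i ∈ s, ‖f i‖ ≤ D) : ‖∑ i ∈ s, f i‖ ≤ D :=
  IsUltrametricDist.norm_sum_le_of_forall_le_of_nonneg hD h

lemma nbf_lp_le (q : k[X]) (n : ℕ) : ‖lp ℓ cb em β q n‖ ≤ 1 := lf_le ℓ cb em _

lemma nbf_lp_add (q q' : k[X]) (n : ℕ) :
    ‖lp ℓ cb em β (q + q') n - (lp ℓ cb em β q n + lp ℓ cb em β q' n)‖ ≤ 1 / 2 := by
  have h := lf_add ℓ cb em (fun g => (q * pG β g).coeff n) fun g => (q' * pG β g).coeff n
  have e : (fun g => (q * pG β g).coeff n) + (fun g => (q' * pG β g).coeff n) =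
      fun g => ((q + q') * pG β g).coeff n := by
    funext g
    rw [add_mul, coeff_add, Pi.add_apply]
  rwa [e] at h

lemma nbf_lp_mul (q q' : k[X]) (n : ℕ) : ‖lp ℓ cb em β (q * q') n -
    ∑ p ∈ Finset.HasAntidiagonal.antidiagonal n, ℓ.τ (em (q.coeff p.1)) • lp ℓ cb em β q' p.2‖ ≤ 1 / 2 := by
  have h := lf_sum ℓ cb em (Finset.HasAntidiagonal.antidiagonal n)
    fun p g => q.coeff p.1 * (q' * pG β g).coeff p.2
  have e : (fun g => ∑ p ∈ Finset.HasAntidiagonal.antidiagonal n, q.coeff p.1 * (q' * pG β g).coeff p.2) =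
      fun g => (q * q' * pG β g).coeff n := by
    funext g
    rw [mul_assoc, coeff_mul]
  simp only [lf_smul] at h
  rwa [e] at h

/-- A convolution in which both factors are replaced by their approximations. -/
lemma nbf_conv {P : ℕ → K} {q q' : k[X]} {x : ℕ → A} {c : K} {t : ℝ} (n : ℕ) (hc : ‖c‖ ≤ t)
    (hP1 : ∀ m, ‖P m‖ ≤ 1) (hP : ∀ m, ‖P m - ℓ.τ (em (q.coeff m))‖ ≤ 1 / 2)
    (hx : ∀ p ∈ Finset.HasAntidiagonal.antidiagonal n, P p.1 = 0 ∧ q.coeff p.1 = 0 ∨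
      ‖x p.2 - c • lp ℓ cb em β q' p.2‖ ≤ t / 2) :
    ‖∑ p ∈ Finset.HasAntidiagonal.antidiagonal n, P p.1 • x p.2 - c • lp ℓ cb em β (q * q') n‖ ≤ t / 2 := by
  have ht : 0 ≤ t := (norm_nonneg _).trans hc
  have e : ∑ p ∈ Finset.HasAntidiagonal.antidiagonal n, P p.1 • x p.2 - c • lp ℓ cb em β (q * q') n =
      ∑ p ∈ Finset.HasAntidiagonal.antidiagonal n,
        (P p.1 • x p.2 - c • ℓ.τ (em (q.coeff p.1)) • lp ℓ cb em β q' p.2) -
      c • (lp ℓ cb em β (q * q') n -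
        ∑ p ∈ Finset.HasAntidiagonal.antidiagonal n, ℓ.τ (em (q.coeff p.1)) • lp ℓ cb em β q' p.2) := by
    rw [Finset.sum_sub_distrib, smul_sub, Finset.smul_sum]
    abel
  rw [e]
  refine syl_sub (nbf_sum (by positivity) fun p hp => ?_)
    ((nbf_sm hc (nbf_lp_mul ℓ cb β em q q' n)).trans_eq (by ring))
  rcases hx p hp with ⟨h1, h2⟩ | h
  · rw [h1, h2, map_zero, map_zero, zero_smul, zero_smul, smul_zero, sub_zero, norm_zero]
    positivity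
  · have e2 : P p.1 • x p.2 - c • ℓ.τ (em (q.coeff p.1)) • lp ℓ cb em β q' p.2 =
        P p.1 • (x p.2 - c • lp ℓ cb em β q' p.2) +
          (P p.1 - ℓ.τ (em (q.coeff p.1))) • c • lp ℓ cb em β q' p.2 := by
      module
    rw [e2]
    exact syl_add ((nbf_sm (hP1 _) h).trans_eq (one_mul _))
      ((nbf_sm (hP _) (nbf_sm hc (nbf_lp_le ℓ cb β em q' _))).trans_eq (by ring))

end aux

include X0

lemma Cx.c0_le {v : k[X]} (hv : v ∈ Spl b a) : ‖d.c0‖ ≤ 1 / 2 ^ 20 := by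
  have h1 : v ∈ UniqueFactorizationMonoid.normalizedFactors b :=
    Multiset.mem_toFinset.1 (Finset.mem_filter.1 hv).1
  obtain ⟨z, -⟩ := L.ov_nonempty (UniqueFactorizationMonoid.irreducible_of_normalized_factor v h1)
    (UniqueFactorizationMonoid.dvd_of_mem_normalizedFactors h1)
  exact (X0.sm z).trans (mul_le_of_le_one_right (by positivity)
    (IsUltrametricDist.norm_natCast_le_one K _))

lemma Cx.ε_one {v : k[X]} (hv : v ∈ Spl b a) {z : Z} (hz : z ∈ L.ov v) : d.ε z = 1 := by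
  obtain ⟨y, hy⟩ := (Finset.mem_filter.1 hv).2
  exact X0.c.ε_spl z ⟨y, (Finset.mem_filter.1 hz).2.dvd (Polynomial.map_dvd _ hy)⟩

lemma Cx.deg_s : (b ^ 2 ^ d.i).natDegree = d.p.m := by
  rw [natDegree_pow, X0.hm]

lemma Cx.nbf_G_le (j : J) (r n : ℕ) (h : r * d.p.l ≤ n) :
    ‖PowerSeries.coeff n (X0.c.FG j)‖ ≤ (1 / 2) ^ r := by
  refine (X0.c.FG_le j n).trans ?_
  rw [t1_half]
  refine Real.rpow_le_rpow_of_exponent_le one_le_two (neg_le_neg ?_)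
  have hl : (0 : ℝ) < d.p.l := by exact_mod_cast d.p.l_pos
  rw [le_div_iff₀ hl]
  exact_mod_cast h

lemma Cx.nbf_G_one (j : J) (n : ℕ) : ‖PowerSeries.coeff n (X0.c.FG j)‖ ≤ 1 := by
  simpa using X0.nbf_G_le j 0 n (by simp)

lemma Cx.nbf_G_red (j : J) (n : ℕ) :
    ‖PowerSeries.coeff n (X0.c.FG j) - (1 : K) • lp ℓ cb (L.emb j) β 1 n‖ ≤ 1 / 2 := by
  simpa only [lp, one_smul, one_mul] using X0.c.FG_red j n

/-- The product of the lift of `q` with the factor of the cube. -/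
noncomputable def Cx.nbf_S (j : J) (q : k[X]) (n : ℕ) : A := ∑ p ∈ Finset.HasAntidiagonal.antidiagonal n,
  ℓ.τ (L.emb j (q.coeff p.1)) • PowerSeries.coeff p.2 (X0.c.FG j)

lemma Cx.nbf_S_le (j : J) (q : k[X]) (n : ℕ) : ‖X0.nbf_S j q n‖ ≤ 1 :=
  nbf_sum zero_le_one fun _ _ => (nbf_sm (ℓ.τ_le _) (X0.nbf_G_one j _)).trans_eq (one_mul _)

lemma Cx.nbf_S_red (j : J) (q : k[X]) (n : ℕ) :
    ‖X0.nbf_S j q n - lp ℓ cb (L.emb j) β q n‖ ≤ 1 / 2 := by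
  have h := nbf_conv ℓ cb β (L.emb j) (P := fun m => ℓ.τ (L.emb j (q.coeff m))) (q := q) (q' := 1)
    (x := fun i => PowerSeries.coeff i (X0.c.FG j)) (c := 1) (t := 1) n norm_one.le
    (fun m => ℓ.τ_le _) (fun m => by simp) fun p _ => Or.inr (X0.nbf_G_red j _)
  rwa [one_smul, mul_one] at h

lemma Cx.nbf_Ft (j : J) (n : ℕ) : ‖PowerSeries.coeff n (d.Ft j) - (PowerSeries.coeff n (X0.c.FG j) +
    (2 : K) • X0.nbf_S j a n + (4 : K) • X0.nbf_S j X0.c.A2 n)‖ ≤ 1 / 8 := by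
  have e1 : PowerSeries.coeff n (X0.c.FG j) = ∑ p ∈ Finset.HasAntidiagonal.antidiagonal n,
      (if p.1 = 0 then (1 : K) else 0) • PowerSeries.coeff p.2 (X0.c.FG j) := by
    rw [Finset.sum_eq_single (0, n)]
    · simp
    · intro p hp hne
      rw [if_neg, zero_smul]
      intro h0
      rw [Finset.HasAntidiagonal.mem_antidiagonal] at hp
      exact hne (Prod.ext h0 (by simp only; omega))
    · simp
  rw [X0.c.Ft_eq, mul_comm, PowerSeries.coeff_mul, e1, Cx.nbf_S, Cx.nbf_S, Finset.smul_sum,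
    Finset.smul_sum, ← Finset.sum_add_distrib, ← Finset.sum_add_distrib, ← Finset.sum_sub_distrib]
  refine nbf_sum (by norm_num) fun p _ => ?_
  refine le_trans (le_of_eq ?_)
    ((nbf_sm (X0.c.FA_red j p.1) (X0.nbf_G_one j p.2)).trans_eq (mul_one _))
  congr 1
  rw [PowerSeries.coeff_map, ← Algebra.smul_def]
  module

lemma Cx.Ft_a (j : J) (n : ℕ) :
    ‖PowerSeries.coeff n (d.Ft j) - lp ℓ cb (L.emb j) β 1 n‖ ≤ 1 / 2 := by
  have h := syl_add (syl_add (syl_add ((X0.nbf_Ft j n).trans (by norm_num)) (X0.nbf_G_red j n))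
    (nbf_two ℓ (X0.nbf_S_le j a n))) ((nbf_four ℓ (X0.nbf_S_le j X0.c.A2 n)).trans (by norm_num))
  refine le_trans (le_of_eq ?_) h
  congr 1
  module

lemma Cx.Ft_b (j : J) (n : ℕ) (h : 2 * d.p.l ≤ n) :
    ‖PowerSeries.coeff n (d.Ft j) - (2 : K) • lp ℓ cb (L.emb j) β a n‖ ≤ 1 / 4 := by
  have h := syl_add (syl_add (syl_add (x := 1 / 4) ((X0.nbf_Ft j n).trans (by norm_num))
    ((X0.nbf_G_le j 2 n h).trans (by norm_num)))
    ((nbf_two ℓ (X0.nbf_S_red j a n)).trans (by norm_num)))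
    (nbf_four ℓ (X0.nbf_S_le j X0.c.A2 n))
  refine le_trans (le_of_eq ?_) h
  congr 1
  module

lemma Cx.Ft_c (j : J) (n : ℕ) (h : d.p.e + 2 * d.p.l ≤ n) :
    ‖PowerSeries.coeff n (d.Ft j) - (4 : K) • lp ℓ cb (L.emb j) β X0.c.A2 n‖ ≤ 1 / 8 := by
  have h1 : ‖X0.nbf_S j a n‖ ≤ 1 / 4 := by
    refine nbf_sum (by norm_num) fun p hp => ?_
    rw [Finset.HasAntidiagonal.mem_antidiagonal] at hp
    by_cases h2 : p.1 ≤ d.p.e
    · exact (nbf_sm (ℓ.τ_le _) (X0.nbf_G_le j 2 p.2 (by omega))).trans (by norm_num)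
    · rw [coeff_eq_zero_of_natDegree_lt (by rw [X0.ha]; omega), map_zero, map_zero, zero_smul,
        norm_zero]
      norm_num
  have h3 := d.p.le1
  have h := syl_add (syl_add (syl_add (X0.nbf_Ft j n)
    ((X0.nbf_G_le j 3 n (by omega)).trans (by norm_num)))
    ((nbf_two ℓ h1).trans (by norm_num)))
    ((nbf_four ℓ (X0.nbf_S_red j X0.c.A2 n)).trans (by norm_num))
  refine le_trans (le_of_eq ?_) h
  congr 1
  module

omit X0 in
lemma nbf_F (d : Dat K A J Z) (j : J) (n : ℕ) (κ' : ℤ) (P : ℕ → K)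
    (h : ∀ m : ℕ, ‖d.Fx j (m, κ') - algebraMap K A (P m)‖ ≤ 1 / 8) : ‖d.F j (n, κ') -
      ∑ p ∈ Finset.HasAntidiagonal.antidiagonal n, P p.1 • PowerSeries.coeff p.2 (d.Ft j)‖ ≤ 1 / 8 := by
  rw [d.F_sum, ← Finset.Nat.sum_antidiagonal_eq_sum_range_succ
    (fun i m : ℕ => PowerSeries.coeff i (d.Ft j) * d.Fx j (m, κ')) n,
    ← Finset.Nat.sum_antidiagonal_swap, ← Finset.sum_sub_distrib]
  refine nbf_sum (by norm_num) fun p _ => ?_
  refine le_trans (le_of_eq ?_) ((syl_mul (d.Ft_le_one j p.2) (h p.1)).trans_eq (one_mul _))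
  congr 1
  rw [Algebra.smul_def, Prod.fst_swap, Prod.snd_swap]
  ring

omit X0 in
lemma nbf_delta (c : K) (x : ℕ → A) (n : ℕ) :
    ∑ p ∈ Finset.HasAntidiagonal.antidiagonal n, (if p.1 = 0 then c else 0) • x p.2 = c • x n := by
  rw [Finset.sum_eq_single (0, n)]
  · simp
  · intro p hp hne
    rw [if_neg, zero_smul]
    intro h0
    rw [Finset.HasAntidiagonal.mem_antidiagonal] at hp
    exact hne (Prod.ext h0 (by simp only; omega))
  · simp

/-- The product of a polynomial with the `t`-part. -/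
noncomputable def nbf_R (d : Dat K A J Z) (j : J) (Q : K[X]) (n : ℕ) : A :=
  ∑ p ∈ Finset.HasAntidiagonal.antidiagonal n, Q.coeff p.1 • PowerSeries.coeff p.2 (d.Ft j)

lemma Cx.nbf_Ra (j : J) {Q : K[X]} {q : k[X]} (h : Red ℓ Q (q.map (L.emb j))) (n : ℕ) :
    ‖nbf_R d j Q n - lp ℓ cb (L.emb j) β q n‖ ≤ 1 / 2 := by
  have h := nbf_conv ℓ cb β (L.emb j) (P := fun m => Q.coeff m) (q := q) (q' := 1)
    (x := fun i => PowerSeries.coeff i (d.Ft j)) (c := 1) (t := 1) n norm_one.le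
    h.le (fun m => by simpa only [coeff_map] using h m)
    fun p _ => Or.inr (by simpa only [one_smul] using X0.Ft_a j _)
  rwa [one_smul, mul_one] at h

lemma Cx.nbf_R_le (j : J) {Q : K[X]} {q : k[X]} (h : Red ℓ Q (q.map (L.emb j))) (n : ℕ) :
    ‖nbf_R d j Q n‖ ≤ 1 := by
  have h := syl_add ((X0.nbf_Ra j h n).trans (by norm_num)) (nbf_lp_le ℓ cb β (L.emb j) q n)
  rwa [sub_add_cancel] at h

omit X0 in
lemma nbf_F0 (d : Dat K A J Z) (j : J) (n : ℕ) : ‖d.F j (n, 0) -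
    (PowerSeries.coeff n (d.Ft j) + (4 : K) • nbf_R d j (d.lam j) n)‖ ≤ 1 / 8 := by
  have h := nbf_F d j n 0 (fun m => (if m = 0 then 1 else 0) + 4 * (d.lam j).coeff m) fun m => by
    rw [map_add, ← sub_sub, apply_ite (algebraMap K A), map_one, map_zero]
    exact d.Fx_zero j m
  simp only [add_smul, Finset.sum_add_distrib, mul_smul, ← Finset.smul_sum] at h
  rwa [nbf_delta 1 fun i => PowerSeries.coeff i (d.Ft j), one_smul] at h

omit X0 in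
lemma nbf_F1 (d : Dat K A J Z) (j : J) (n : ℕ) :
    ‖d.F j (n, 1) - (2 : K) • PowerSeries.coeff n (d.Ft j)‖ ≤ 1 / 8 := by
  have h := nbf_F d j n 1 (fun m => if m = 0 then 2 else 0) fun m => by
    rw [apply_ite (algebraMap K A), map_ofNat, map_zero]
    exact d.Fx_one j m
  rwa [nbf_delta 2 fun i => PowerSeries.coeff i (d.Ft j)] at h

omit X0 in
lemma nbf_F2 (d : Dat K A J Z) (j : J) (n : ℕ) :
    ‖d.F j (n, 2) - (4 : K) • PowerSeries.coeff n (d.Ft j)‖ ≤ 1 / 8 := by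
  have h := nbf_F d j n 2 (fun m => if m = 0 then 4 else 0) fun m => by
    rw [apply_ite (algebraMap K A), map_ofNat, map_zero]
    exact d.Fx_two j m
  rwa [nbf_delta 4 fun i => PowerSeries.coeff i (d.Ft j)] at h

omit X0 in
lemma nbf_Fm1 (d : Dat K A J Z) (j : J) (n : ℕ) :
    ‖d.F j (n, -1) - (2 : K) • nbf_R d j (d.lam j) n‖ ≤ 1 / 8 := by
  have h := nbf_F d j n (-1) (fun m => 2 * (d.lam j).coeff m) (d.Fx_neg_one j)
  simpa only [mul_smul, ← Finset.smul_sum, nbf_R] using h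

omit X0 in
lemma nbf_Fm2 (d : Dat K A J Z) (j : J) (n : ℕ) :
    ‖d.F j (n, -2) - (4 : K) • nbf_R d j (d.lam j ^ 2) n‖ ≤ 1 / 8 := by
  have h := nbf_F d j n (-2) (fun m => 4 * (d.lam j ^ 2).coeff m) (d.Fx_neg_two j)
  simpa only [mul_smul, ← Finset.smul_sum, nbf_R] using h

lemma Cx.F0a (j : J) (n : ℕ) :
    ‖d.F j (n, 0) - (1 : K) • lp ℓ cb (L.emb j) β 1 n‖ ≤ 1 / 2 := by
  have h := syl_add (syl_add ((nbf_F0 d j n).trans (by norm_num)) (X0.Ft_a j n))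
    ((nbf_four ℓ (X0.nbf_R_le j (L.lam_red j) n)).trans (by norm_num))
  refine le_trans (le_of_eq ?_) h
  congr 1
  module

lemma Cx.F0b (j : J) (n : ℕ) (h : 2 * d.p.l ≤ n) :
    ‖d.F j (n, 0) - (2 : K) • lp ℓ cb (L.emb j) β a n‖ ≤ 1 / 4 := by
  have h := syl_add (syl_add ((nbf_F0 d j n).trans (by norm_num)) (X0.Ft_b j n h))
    (nbf_four ℓ (X0.nbf_R_le j (L.lam_red j) n))
  refine le_trans (le_of_eq ?_) h
  congr 1
  module

lemma Cx.F0c (j : J) (n : ℕ) (h : d.p.e + 2 * d.p.l ≤ n) : ‖d.F j (n, 0) -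
    (4 : K) • lp ℓ cb (L.emb j) β (X0.c.A2 + (b ^ 2 ^ d.i) ^ 2) n‖ ≤ 1 / 8 := by
  have h := syl_sub (syl_add (syl_add (nbf_F0 d j n) (X0.Ft_c j n h))
    ((nbf_four ℓ (X0.nbf_Ra j (L.lam_red j) n)).trans (by norm_num)))
    ((nbf_four ℓ (nbf_lp_add ℓ cb β (L.emb j) X0.c.A2 ((b ^ 2 ^ d.i) ^ 2) n)).trans (by norm_num))
  refine le_trans (le_of_eq ?_) h
  congr 1
  module

lemma Cx.F1a (j : J) (n : ℕ) :
    ‖d.F j (n, 1) - (2 : K) • lp ℓ cb (L.emb j) β 1 n‖ ≤ 1 / 4 := by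
  have h := syl_add (x := 1 / 4) ((nbf_F1 d j n).trans (by norm_num))
    ((nbf_two ℓ (X0.Ft_a j n)).trans (by norm_num))
  refine le_trans (le_of_eq ?_) h
  congr 1
  module

lemma Cx.F1b (j : J) (n : ℕ) (h : 2 * d.p.l ≤ n) :
    ‖d.F j (n, 1) - (4 : K) • lp ℓ cb (L.emb j) β a n‖ ≤ 1 / 8 := by
  have h := syl_add (nbf_F1 d j n) ((nbf_two ℓ (X0.Ft_b j n h)).trans (by norm_num))
  refine le_trans (le_of_eq ?_) h
  congr 1
  module

lemma Cx.Fm1a (j : J) (n : ℕ) :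
    ‖d.F j (n, -1) - (2 : K) • lp ℓ cb (L.emb j) β ((b ^ 2 ^ d.i) ^ 2) n‖ ≤ 1 / 4 := by
  have h := syl_add (x := 1 / 4) ((nbf_Fm1 d j n).trans (by norm_num))
    ((nbf_two ℓ (X0.nbf_Ra j (L.lam_red j) n)).trans (by norm_num))
  refine le_trans (le_of_eq ?_) h
  congr 1
  module

lemma Cx.Fm1b (j : J) (n : ℕ) (h : 2 * d.p.m + 2 * d.p.l ≤ n) :
    ‖d.F j (n, -1) - (4 : K) • lp ℓ cb (L.emb j) β (a * (b ^ 2 ^ d.i) ^ 2) n‖ ≤ 1 / 8 := by
  have h1 := nbf_conv ℓ cb β (L.emb j) (P := fun m => (d.lam j).coeff m)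
    (q := (b ^ 2 ^ d.i) ^ 2) (q' := a) (x := fun i => PowerSeries.coeff i (d.Ft j)) (c := 2)
    (t := 1 / 2) n ℓ.two.le (L.lam_red j).le
    (fun m => by simpa only [coeff_map] using L.lam_red j m) fun p hp => by
      rw [Finset.HasAntidiagonal.mem_antidiagonal] at hp
      by_cases h2 : p.1 ≤ 2 * d.p.m
      · exact Or.inr ((X0.Ft_b j _ (by omega)).trans (by norm_num))
      · refine Or.inl ⟨coeff_eq_zero_of_natDegree_lt ?_, coeff_eq_zero_of_natDegree_lt ?_⟩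
        · rw [d.toGeo.lam_deg]
          omega
        · rw [natDegree_pow, X0.deg_s]
          omega
  have h := syl_add (nbf_Fm1 d j n) ((nbf_two ℓ h1).trans (by norm_num))
  refine le_trans (le_of_eq ?_) h
  congr 1
  rw [mul_comm a, nbf_R]
  module

lemma Cx.F2 (j : J) (n : ℕ) :
    ‖d.F j (n, 2) - (4 : K) • lp ℓ cb (L.emb j) β 1 n‖ ≤ 1 / 8 := by
  have h := syl_add (nbf_F2 d j n) ((nbf_four ℓ (X0.Ft_a j n)).trans (by norm_num))
  refine le_trans (le_of_eq ?_) h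
  congr 1
  module

lemma Cx.Fm2 (j : J) (n : ℕ) :
    ‖d.F j (n, -2) - (4 : K) • lp ℓ cb (L.emb j) β (((b ^ 2 ^ d.i) ^ 2) ^ 2) n‖ ≤ 1 / 8 := by
  have h1 : Red ℓ (d.lam j ^ 2) ((((b ^ 2 ^ d.i) ^ 2) ^ 2).map (L.emb j)) := by
    rw [Polynomial.map_pow]
    exact (L.lam_red j).pow 2
  have h := syl_add (nbf_Fm2 d j n) ((nbf_four ℓ (X0.nbf_Ra j h1 n)).trans (by norm_num))
  refine le_trans (le_of_eq ?_) h
  congr 1
  module

end Pool.Agent.Lib.MP_788af2_nt.AG
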