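import Pool.Agent.Lib.MP_788af2_nt.AG.NBOm
import Pool.Agent.Lib.MP_788af2_nt.AG.NBF

/-!
The error term summed over the roots of a prime.
-/

set_option linter.unusedSectionVars false

namespace Pool.Agent.Lib.MP_788af2_nt.AG

open Polynomial Filter Topology Pool.Agent.Lib.MP_788af2_nt.AS Pool.Agent.Lib.MP_a3f657_nt.Two

open scoped Classical

variable {K A J Z k κ I Lw : Type} [NontriviallyNormedField K] [IsUltrametricDist K]
  [CompleteSpace K] [CharZero K] [NormedCommRing A] [NormedAlgebra K A] [IsUltrametricDist A]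
  [CompleteSpace A] [NormOneClass A] [Fintype J] [Fintype Z] [DecidableEq J] [DecidableEq Z]
  [Field k] [Fintype k] [CharP k 2] [Field κ] [CharP κ 2] [IsAlgClosed κ] [Fintype I]
  [DecidableEq I] {δ : I → ℝ} [Field Lw] [CharP Lw 2]

variable {d : Dat K A J Z} {ℓ : Lift K κ} {cb : Cube K I A δ} {a b : k[X]} {β : I → k[X]}
  {L : Lnk d.toGeo ℓ b} (X0 : Cx d ℓ cb a b β L) (T : Tw β Lw)

section aux

private lemma err_sum {α : Type} (s : Finset α) {F : α → A} {D : ℝ} (hD : 0 ≤ D)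
    (h : ∀ z ∈ s, ‖F z‖ ≤ D) : ‖∑ z ∈ s, F z‖ ≤ D :=
  IsUltrametricDist.norm_sum_le_of_forall_le_of_nonneg hD h

private lemma err_tr_sq (x : Lw) : T.tr (x ^ 2) = T.tr x ^ 2 := by
  simp only [Tw.tr, map_pow]
  exact (CharTwo.sum_sq _ _).symm

private lemma err_fix (v : k[X]) :
    T.tr (T.lgE * (T.p (derivative v) / T.p v)) = T.p (derivative v) / T.p v :=
  T.lgE_tr_mul fun g => by rw [map_div₀, T.σ_p, T.σ_p]

private lemma err_cf {x x1 : Lw} {o : k[X]} {P : Prop} [Decidable P]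
    (h : T.tr x = (if P then T.tr x1 else 0) + T.p o) {m : ℤ} (hm : m < 0) :
    Cf T m x = if P then Cf T m x1 else 0 := by
  have h2 : T.tr (T.lgE * T.p o) = T.p o := T.lgE_tr_mul fun g => T.σ_p g o
  have h3 : Cf T m (T.lgE * T.p o) = 0 := by rw [Cf_poly T h2, if_neg (by omega)]
  split_ifs at h ⊢ with hP
  · rw [Cf_congr T (y := x1 + T.lgE * T.p o) (by rw [T.tr_add, h2, h]), Cf_add, h3, add_zero]
  · rw [Cf_congr T (y := T.lgE * T.p o) (by rw [h2, h, zero_add]), h3]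

private lemma err_pow {α : Type} (s : Finset α) (r : α → κ) (n : ℕ) :
    ‖ℓ.τ (∑ z ∈ s, r z ^ n) - ∑ z ∈ s, ℓ.τ (r z) ^ n‖ ≤ 1 / 2 := by
  have h := nbτ_sum ℓ s fun z => r z ^ n
  simpa only [map_pow] using h

private lemma err_pol (hκ : ∀ z, ‖PowerSeries.coeff 1 (d.κ z)‖ ≤ 1 / 2) (z : Z) (n : ℕ)
    (hn : 1 ≤ n) : ‖d.pol2 z n - algebraMap K A (n * d.β z ^ n)‖ ≤ 1 / 2 := by
  obtain ⟨m, rfl⟩ : ∃ m, n = m + 1 := ⟨n - 1, by omega⟩
  have e0 : PowerSeries.coeff 0 (PowerSeries.C (d.β z) *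
      (PowerSeries.C (d.β z) + PowerSeries.X) ^ (m + 1)) = d.β z ^ (m + 2) := by
    simp only [PowerSeries.coeff_zero_eq_constantCoeff, map_mul, map_pow, map_add,
      PowerSeries.constantCoeff_C, PowerSeries.constantCoeff_X, add_zero]
    ring
  have e1 : PowerSeries.coeff 1 (PowerSeries.C (d.β z) *
      (PowerSeries.C (d.β z) + PowerSeries.X) ^ (m + 1)) = ((m + 1 : ℕ) : K) * d.β z ^ (m + 1) := by
    rw [PowerSeries.coeff_C_mul, PowerSeries.coeff_one_pow]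
    simp only [map_add, PowerSeries.constantCoeff_C, PowerSeries.constantCoeff_X, add_zero,
      PowerSeries.coeff_one_X, PowerSeries.coeff_C, one_ne_zero, if_false, zero_add, mul_one,
      Nat.add_sub_cancel]
    ring
  have e2 : d.pol2 z (m + 1) - algebraMap K A (((m + 1 : ℕ) : K) * d.β z ^ (m + 1)) =
      (PowerSeries.coeff 0 (d.κ z) - 1) * algebraMap K A (((m + 1 : ℕ) : K) * d.β z ^ (m + 1)) +
        PowerSeries.coeff 1 (d.κ z) * algebraMap K A (d.β z ^ (m + 2)) := by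
    unfold Dat.pol2
    rw [PowerSeries.coeff_mul, Finset.Nat.antidiagonal_succ, Finset.sum_cons,
      Finset.Nat.antidiagonal_zero, Finset.sum_map, Finset.sum_singleton]
    simp only [Function.Embedding.coe_prodMap, Function.Embedding.coeFn_mk,
      Function.Embedding.refl_apply, Prod.map, Nat.succ_eq_add_one, zero_add,
      PowerSeries.coeff_map, e0, e1]
    ring
  have hb : ∀ i : ℕ, ‖d.β z ^ i‖ ≤ 1 := fun i => by
    rw [norm_pow]
    exact pow_le_one₀ (norm_nonneg _) (d.β_le z)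
  rw [e2]
  refine syl_add ((syl_mul (d.κ_zero z) (y := 1) ?_).trans (by norm_num))
    ((syl_mul (hκ z) (y := 1) ?_).trans (by norm_num))
  · rw [norm_algebraMap', norm_mul]
    exact mul_le_one₀ (IsUltrametricDist.norm_natCast_le_one K _) (norm_nonneg _) (hb _)
  · rw [norm_algebraMap']
    exact hb _

private lemma err_small (x : ℝ) (hx : x ≤ 11) : 1 / 2 ^ 20 * (2 : ℝ) ^ x ≤ 1 / 4 := by
  have h1 : (2 : ℝ) ^ x ≤ 2 ^ ((11 : ℕ) : ℝ) :=
    Real.rpow_le_rpow_of_exponent_le (by norm_num) (by exact_mod_cast hx)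
  rw [Real.rpow_natCast] at h1
  calc 1 / 2 ^ 20 * (2 : ℝ) ^ x ≤ 1 / 2 ^ 20 * 2 ^ 11 := by gcongr
    _ ≤ 1 / 4 := by norm_num

end aux

variable {v : k[X]} (hv : v ∈ Spl b a) {f : Lw} (hf : IsFt T v f)
include X0 hv

private lemma err_dlog (j : J) (n : ℕ) :
    L.emb j (Cf T (-(n : ℤ) - 1) (T.lgE * (T.p (derivative v) / T.p v))) =
      ∑ z ∈ (L.ov v).filter (fun z => d.jz z = j), L.rt z ^ n := by
  obtain ⟨h1, h2, h3, -⟩ := (mem_Spl X0.hP.b_ne).1 hv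
  rw [Cf_dlog T (L.emb j) _ L.rt (L.map_eq_prod h1 h2 h3 j) (err_fix T v), if_pos (by omega)]
  have e : (-(-(n : ℤ) - 1) - 1).toNat = n := by omega
  rw [e]

include hf in
private lemma err_dic1 (j : J) (n : ℕ) : ∃ c : k,
    (∀ g, dic T (T.P.b * f) (-n) g = if g = 0 then c else 0) ∧
    L.emb j c = ∑ z ∈ (L.ov v).filter (fun z => d.jz z = j), L.rt z ^ n := by
  refine ⟨_, fun g => ?_, err_dlog X0 T hv j n⟩
  obtain ⟨o, ho⟩ := tr_ft T hf g
  rw [dic_b]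
  exact err_cf T (o := o) (by rw [err_fix, ho]) (by omega)

include hf in
private lemma err_dic2 (j : J) (n : ℕ) : ∃ c : k,
    (∀ g, dic T ((T.P.b * f) ^ 2) (-n) g = if g = 0 then c else 0) ∧
    L.emb j c = if 2 ∣ n then ∑ z ∈ (L.ov v).filter (fun z => d.jz z = j), L.rt z ^ n else 0 := by
  obtain ⟨h1, h2, h3, -⟩ := (mem_Spl X0.hP.b_ne).1 hv
  refine ⟨Cf T (-(n : ℤ) - 1 - 1) ((T.lgE * (T.p (derivative v) / T.p v)) ^ 2), fun g => ?_, ?_⟩
  · obtain ⟨o, ho⟩ := tr_ft_sq T hf h1.ne_zero h3 X0.hP.dvd g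
    have e : (T.P.b * f) ^ 2 = T.P.b * (T.P.b * f ^ 2) := by ring
    rw [e, dic_b, dic_b]
    exact err_cf T (o := o) (by rw [err_tr_sq, err_fix, ho]) (by omega)
  · rw [Cf_sq]
    by_cases hn : 2 ∣ n
    · obtain ⟨m, rfl⟩ := hn
      have e : (-((2 * m : ℕ) : ℤ) - 1 - 1) / 2 = -(m : ℤ) - 1 := by omega
      rw [if_pos (by omega), if_pos (dvd_mul_right 2 m), e, map_pow, err_dlog X0 T hv j m,
        CharTwo.sum_sq]
      exact Finset.sum_congr rfl fun z _ => by ring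
    · rw [if_neg (by omega), if_neg hn, map_zero]

include hf in
lemma Cx.pow_sum (j : J) (n : ℕ) : ‖Zl ℓ cb (L.emb j) T (T.P.b * f) (-n) -
    algebraMap K A (∑ z ∈ (L.ov v).filter (fun z => d.jz z = j), d.β z ^ n)‖ ≤ 1 / 2 := by
  obtain ⟨c, h1, h2⟩ := err_dic1 X0 T hv hf j n
  unfold Zl
  rw [funext h1, lf_single, h2, ← map_sub, norm_algebraMap']
  simpa only [L.β_eq] using err_pow (ℓ := ℓ) _ L.rt n

include hf in
private lemma err_both (j : J) (n : ℕ) :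
    ‖Zl ℓ cb (L.emb j) T (T.P.b * f + (T.P.b * f) ^ 2) (-n) -
      algebraMap K A (n * ∑ z ∈ (L.ov v).filter (fun z => d.jz z = j), d.β z ^ n)‖ ≤ 1 / 2 := by
  obtain ⟨c, h1, h2⟩ := err_dic1 X0 T hv hf j n
  obtain ⟨c', h3, h4⟩ := err_dic2 X0 T hv hf j n
  have e1 : dic T (T.P.b * f + (T.P.b * f) ^ 2) (-n) = fun g => if g = 0 then c + c' else 0 := by
    funext g
    rw [dic_add, Pi.add_apply, h1, h3]
    split_ifs
    · rfl
    · exact add_zero _
  set P := ∑ z ∈ (L.ov v).filter (fun z => d.jz z = j), L.rt z ^ n with hP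
  have e2 : L.emb j (c + c') = (n : κ) * P := by
    rw [map_add, h2, h4]
    by_cases hn : 2 ∣ n
    · rw [if_pos hn, (CharP.cast_eq_zero_iff κ 2 n).2 hn, zero_mul, CharTwo.add_self_eq_zero]
    · obtain ⟨m, rfl⟩ : ∃ m, n = 2 * m + 1 := ⟨n / 2, by omega⟩
      rw [if_neg hn, Nat.cast_add, (CharP.cast_eq_zero_iff κ 2 (2 * m)).2 (dvd_mul_right 2 m),
        zero_add, Nat.cast_one, one_mul, add_zero]
  have h5 : ‖ℓ.τ P - ∑ z ∈ (L.ov v).filter (fun z => d.jz z = j), d.β z ^ n‖ ≤ 1 / 2 := by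
    simpa only [L.β_eq] using err_pow (ℓ := ℓ) _ L.rt n
  unfold Zl
  rw [e1, lf_single, e2, ← map_sub, norm_algebraMap', map_mul]
  have e3 : ℓ.τ (n : κ) * ℓ.τ P - n * ∑ z ∈ (L.ov v).filter (fun z => d.jz z = j), d.β z ^ n =
      (ℓ.τ (n : κ) - n) * ℓ.τ P +
        n * (ℓ.τ P - ∑ z ∈ (L.ov v).filter (fun z => d.jz z = j), d.β z ^ n) := by ring
  rw [e3]
  refine (IsUltrametricDist.norm_add_le_max _ _).trans (max_le ?_ ?_)
  · rw [norm_mul]
    exact (mul_le_mul (nbτ_nat ℓ n) (ℓ.τ_le P) (norm_nonneg _) (by norm_num)).trans (by norm_num)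
  · rw [norm_mul]
    exact (mul_le_mul (IsUltrametricDist.norm_natCast_le_one K n) h5 (norm_nonneg _)
      (by norm_num)).trans (by norm_num)

lemma Cx.Err_eq (j : J) (n k₀ : ℤ) (h : 1 ≤ n) : ∑ z ∈ L.ov v, d.Err z (j, ⟨(n, k₀), h⟩) =
    ∑ z ∈ (L.ov v).filter (fun z => d.jz z = j), d.Er z (-n, -k₀) := by
  rw [Finset.sum_filter]
  symm
  refine Finset.sum_equiv d.σZ (fun z => (L.ov_σ v z).symm) fun z _ => ?_
  unfold Dat.Err row
  rw [Equiv.symm_apply_apply]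
  exact if_congr eq_comm rfl rfl

include hf in
lemma Cx.Err_zero (j : J) (n : ℤ) (h : 1 ≤ n) : ‖∑ z ∈ L.ov v, d.Err z (j, ⟨(n, 0), h⟩) -
    (2 : K) • Zl ℓ cb (L.emb j) T (T.P.b * f + (T.P.b * f) ^ 2) (-n)‖ ≤ 1 / 4 := by
  obtain ⟨m, rfl⟩ := Int.eq_ofNat_of_zero_le (show 0 ≤ n by omega)
  have hm : 1 ≤ m := by exact_mod_cast h
  have h2 : ‖(2 : K)‖ = 1 / 2 := ℓ.two
  have k1 : ∀ z ∈ (L.ov v).filter (fun z => d.jz z = j),
      ‖d.Er z (-(m : ℤ), -0) - (2 : K) • algebraMap K A (m * d.β z ^ m)‖ ≤ 1 / 4 := by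
    intro z hz
    have a1 := d.Er_lead X0.sm z m hm 0
    rw [if_pos le_rfl, if_pos le_rfl, X0.ε_one hv (Finset.mem_filter.1 hz).1, Int.toNat_zero,
      d.o.G_zero] at a1
    have a2 := a1.trans (max_le le_rfl (err_small _ (by norm_num)))
    have a3 := err_pol X0.c.κ_one z m hm
    have e : d.Er z (-(m : ℤ), -0) - (2 : K) • algebraMap K A (m * d.β z ^ m) =
        (d.Er z (-(m : ℤ), 0) + (2 * ((1 : ℤ) : K) * 1) • d.pol2 z m) -
          ((2 : K) • (d.pol2 z m - algebraMap K A (m * d.β z ^ m)) +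
            ((2 : K) * 2) • algebraMap K A (m * d.β z ^ m)) := by
      rw [neg_zero, Int.cast_one]
      module
    rw [e]
    refine syl_sub a2 (syl_add ?_ ?_)
    · rw [norm_smul, h2]
      linarith
    · rw [norm_smul, norm_mul, h2, norm_algebraMap', norm_mul, norm_pow]
      have b1 := mul_le_one₀ (IsUltrametricDist.norm_natCast_le_one K m) (by positivity)
        (pow_le_one₀ (n := m) (norm_nonneg _) (d.β_le z))
      linarith
  have k2 := err_sum _ (by norm_num) k1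
  have k3 := err_both X0 T hv hf j m
  rw [Finset.sum_sub_distrib, ← Finset.smul_sum, ← map_sum, ← Finset.mul_sum] at k2
  rw [X0.Err_eq hv j m 0 h]
  have e : ∀ x y z : A, x - (2 : K) • y = (x - (2 : K) • z) - (2 : K) • (y - z) := by
    intro x y z
    module
  rw [e _ _ (algebraMap K A (m * ∑ z ∈ (L.ov v).filter (fun z => d.jz z = j), d.β z ^ m))]
  refine syl_sub k2 ?_
  rw [norm_smul, h2]
  linarith

lemma Cx.Err_one (j : J) (n : ℤ) (h : 1 ≤ n) :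
    ‖∑ z ∈ L.ov v, d.Err z (j, ⟨(n, 1), h⟩)‖ ≤ 1 / 4 := by
  obtain ⟨m, rfl⟩ := Int.eq_ofNat_of_zero_le (show 0 ≤ n by omega)
  have hm : 1 ≤ m := by exact_mod_cast h
  rw [X0.Err_eq hv j m 1 h]
  refine err_sum _ (by norm_num) fun z _ => ?_
  have a1 := d.Er_lead X0.sm z m hm (-1)
  rw [if_neg (by norm_num), if_neg (by norm_num), add_zero] at a1
  exact a1.trans (max_le (by norm_num) (err_small _ (by norm_num)))

lemma Cx.Err_neg_one (j : J) (n : ℤ) (h : 1 ≤ n) :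
    ‖∑ z ∈ L.ov v, d.Err z (j, ⟨(n, -1), h⟩)‖ ≤ 1 / 4 := by
  obtain ⟨m, rfl⟩ := Int.eq_ofNat_of_zero_le (show 0 ≤ n by omega)
  have hm : 1 ≤ m := by exact_mod_cast h
  have h2 : ‖(2 : K)‖ = 1 / 2 := ℓ.two
  rw [X0.Err_eq hv j m (-1) h]
  refine err_sum _ (by norm_num) fun z _ => ?_
  have a1 := d.Er_lead X0.sm z m hm 1
  rw [if_pos (by norm_num), if_pos (by norm_num)] at a1
  have a2 := a1.trans (max_le le_rfl (err_small _ (by norm_num)))
  have a3 : ‖(2 * (d.ε z : K) * PowerSeries.coeff (1 : ℤ).toNat d.o.G) • d.pol2 z m‖ ≤ 1 / 4 := by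
    rw [norm_smul, norm_mul, norm_mul, h2]
    have b1 := IsUltrametricDist.norm_intCast_le_one K (d.ε z)
    have b2 := d.o.G_le (1 : ℤ).toNat (by norm_num)
    have b3 := d.pol2_le z m
    calc _ ≤ (1 : ℝ) / 2 * 1 * (1 / 2) * 1 := by gcongr
      _ = 1 / 4 := by norm_num
  have a4 := syl_sub a2 a3
  rw [add_sub_cancel_right] at a4
  rw [neg_neg]
  exact a4

lemma Cx.Err_far (r : J × Ex 1) (h : 2 ≤ |r.2.1.2|) :
    ‖∑ z ∈ L.ov v, d.Err z r‖ ≤ 2 ^ (d.p.Vi r - 9 / 10) := by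
  have hs : d.Sm (1 / 2 ^ 12) := fun z =>
    (X0.sm z).trans (mul_le_mul_of_nonneg_right (by norm_num) (norm_nonneg _))
  refine err_sum _ (syl_pos _).le fun z _ => (d.Err_le hs z r).trans ?_
  have h1 := d.p.V_low r.2.1.2 r.2.2
  have h2 : (2 : ℝ) ≤ ((|r.2.1.2| : ℤ) : ℝ) := by exact_mod_cast h
  have e : (1 / 2 : ℝ) = 2 ^ (-1 : ℝ) := by
    rw [Real.rpow_neg_one]
    norm_num
  rw [e, ← Real.rpow_add two_pos]
  refine Real.rpow_le_rpow_of_exponent_le (by norm_num) ?_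
  unfold Pm.Vi
  linarith

end Pool.Agent.Lib.MP_788af2_nt.AG
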