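import Pool.Agent.Lib.MP_788af2_nt.AG.NBDef

/-!
Lifts of elements of the group algebra.
-/

set_option linter.unusedSectionVars false

namespace Pool.Agent.Lib.MP_788af2_nt.AG

open Polynomial Filter Topology Pool.Agent.Lib.MP_788af2_nt.AS Pool.Agent.Lib.MP_a3f657_nt.Two

open scoped Classical

variable {K A J Z k κ I Lw : Type} [NontriviallyNormedField K] [IsUltrametricDist K]
  [CompleteSpace K] [CharZero K] [NormedCommRing A] [NormedAlgebra K A] [IsUltrametricDist A]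
  [CompleteSpace A] [NormOneClass A] [Fintype J] [Fintype Z] [DecidableEq J] [DecidableEq Z]
  [Field k] [Fintype k] [CharP k 2] [Field κ] [CharP κ 2] [IsAlgClosed κ] [Fintype I]
  [DecidableEq I] {δ : I → ℝ} [Field Lw] [CharP Lw 2]

variable (ℓ : Lift K κ) (cb : Cube K I A δ) (em : k →+* κ)

private lemma NBLf_add {B : Type} [SeminormedAddCommGroup B] [IsUltrametricDist B] {a b : B}
    {x : ℝ} (ha : ‖a‖ ≤ x) (hb : ‖b‖ ≤ x) : ‖a + b‖ ≤ x :=
  (IsUltrametricDist.norm_add_le_max a b).trans (max_le ha hb)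

private lemma NBLf_near {x y : K} (hx : ‖x‖ ≤ 1) (hy : ‖y‖ ≤ 1) (h : ℓ.red x = ℓ.red y) :
    ‖x - y‖ ≤ 1 / 2 := by
  have h0 : ℓ.red 0 = 0 := by simpa using ℓ.red_τ 0
  have hy' : ‖-y‖ ≤ 1 := by rwa [norm_neg]
  have h1 := ℓ.red_add y (-y) hy hy'
  rw [add_neg_cancel, h0] at h1
  rw [sub_eq_add_neg, ← ℓ.red_eq_zero _ (NBLf_add hx hy'), ℓ.red_add x (-y) hx hy', h, ← h1]

private lemma NBLf_cmb {c : G I → K} {r : ℝ} (hr : 0 ≤ r) (h : ∀ g, ‖c g‖ ≤ r) :
    ‖∑ g, c g • cb.γ g‖ ≤ r :=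
  IsUltrametricDist.norm_sum_le_of_forall_le_of_nonneg hr fun g _ =>
    (norm_smul_le _ _).trans (by
      have := mul_le_mul (h g) (cb.γ_le g) (norm_nonneg _) hr
      rwa [mul_one] at this)

lemma nbτ_add (x y : κ) : ‖ℓ.τ (x + y) - (ℓ.τ x + ℓ.τ y)‖ ≤ 1 / 2 :=
  NBLf_near ℓ (ℓ.τ_le _) (NBLf_add (ℓ.τ_le _) (ℓ.τ_le _)) (by
    rw [ℓ.red_add _ _ (ℓ.τ_le _) (ℓ.τ_le _), ℓ.red_τ, ℓ.red_τ, ℓ.red_τ])
lemma nbτ_sum {α : Type} (s : Finset α) (f : α → κ) :
    ‖ℓ.τ (∑ i ∈ s, f i) - ∑ i ∈ s, ℓ.τ (f i)‖ ≤ 1 / 2 := by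
  induction s using Finset.induction_on with
  | empty => simp
  | insert a s ha ih =>
    rw [Finset.sum_insert ha, Finset.sum_insert ha]
    refine le_of_eq_of_le (congrArg norm ?_) (NBLf_add (nbτ_add ℓ (f a) (∑ i ∈ s, f i)) ih)
    ring
lemma nbτ_nat (n : ℕ) : ‖ℓ.τ (n : κ) - (n : K)‖ ≤ 1 / 2 := by
  simpa using nbτ_sum ℓ (Finset.range n) fun _ => (1 : κ)
private lemma NBLf_int (n : ℤ) : ‖ℓ.τ (n : κ) - (n : K)‖ ≤ 1 / 2 := by
  obtain ⟨m, rfl | rfl⟩ := Int.eq_nat_or_neg n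
  · simpa using nbτ_nat ℓ m
  · have h1 : ‖(2 : K) * (m : K)‖ ≤ 1 / 2 := by
      rw [norm_mul, ℓ.two]
      have := IsUltrametricDist.norm_natCast_le_one K m
      linarith
    have h2 : (((-(m : ℤ) : ℤ)) : κ) = (m : κ) := by
      rw [Int.cast_neg, Int.cast_natCast, CharTwo.neg_eq]
    rw [h2]
    refine le_of_eq_of_le (congrArg norm ?_) (NBLf_add (nbτ_nat ℓ m) h1)
    push_cast
    ring
include ℓ in
lemma le_of_lt_two {x : K} {n : ℤ} (h : ‖x‖ < 2 ^ (n + 1)) : ‖x‖ ≤ 2 ^ n := by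
  by_cases hx : x = 0
  · rw [hx, norm_zero]
    positivity
  · obtain ⟨m, hm⟩ := ℓ.disc x hx
    rw [hm] at h ⊢
    have := (zpow_lt_zpow_iff_right₀ (one_lt_two : (1 : ℝ) < 2)).1 h
    exact zpow_le_zpow_right₀ one_le_two (by omega)
lemma lf_le (u : G I → k) : ‖lf ℓ cb em u‖ ≤ 1 := NBLf_cmb cb zero_le_one fun _ => ℓ.τ_le _
lemma lf_zero : lf ℓ cb em 0 = 0 := by simp [lf]
lemma lf_add (u u' : G I → k) : ‖lf ℓ cb em (u + u') - (lf ℓ cb em u + lf ℓ cb em u')‖ ≤ 1 / 2 := by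
  convert NBLf_cmb cb (by norm_num) fun g => nbτ_add ℓ (em (u g)) (em (u' g)) using 2
  simp only [lf, Pi.add_apply, map_add, sub_smul, add_smul, Finset.sum_sub_distrib,
    Finset.sum_add_distrib]
lemma lf_sum {α : Type} (s : Finset α) (u : α → G I → k) :
    ‖lf ℓ cb em (fun g => ∑ i ∈ s, u i g) - ∑ i ∈ s, lf ℓ cb em (u i)‖ ≤ 1 / 2 := by
  convert NBLf_cmb cb (by norm_num) fun g => nbτ_sum ℓ s fun i => em (u i g) using 2
  simp only [lf, map_sum, sub_smul, Finset.sum_sub_distrib, Finset.sum_smul]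
  rw [Finset.sum_comm]
lemma lf_mul (u u' : G I → k) :
    ‖lf ℓ cb em (fun g => ∑ h, u h * u' (g + h)) - lf ℓ cb em u * lf ℓ cb em u'‖ ≤ 1 / 2 := by
  convert NBLf_cmb cb (by norm_num) fun g =>
    nbτ_sum ℓ Finset.univ fun h => em (u h * u' (g + h)) using 2
  simp only [lf, map_sum, sub_smul, Finset.sum_sub_distrib, Finset.sum_smul]
  congr 1
  rw [Finset.sum_comm, Finset.sum_mul_sum]
  refine Finset.sum_congr rfl fun h _ => ?_
  refine (Fintype.sum_equiv (Equiv.addRight h) _ _ fun g => ?_).symm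
  have e : h + (g + h) = g := by
    ext i
    simp only [Pi.add_apply]
    rw [add_comm (g i), ← add_assoc, CharTwo.add_self_eq_zero, zero_add]
  rw [Equiv.coe_addRight, map_mul, map_mul, smul_mul_smul_comm, ← cb.γ_add, e]
lemma lf_smul (c : k) (u : G I → k) :
    lf ℓ cb em (fun g => c * u g) = ℓ.τ (em c) • lf ℓ cb em u := by
  simp only [lf, map_mul, mul_smul, Finset.smul_sum]
lemma lf_zsmul (n : ℤ) (u : G I → k) :
    ‖lf ℓ cb em (fun g => n • u g) - n • lf ℓ cb em u‖ ≤ 1 / 2 := by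
  simp only [zsmul_eq_mul (u _)]
  rw [lf_smul, map_intCast, ← Int.cast_smul_eq_zsmul K, ← sub_smul]
  refine (norm_smul_le _ _).trans ?_
  have := mul_le_mul (NBLf_int ℓ n) (lf_le ℓ cb em u) (norm_nonneg _) (by norm_num)
  rwa [mul_one] at this
lemma lf_sq {em' : k →+* κ} (h : ∀ c, em' c = em c ^ 2) (u : G I → k) :
    lf ℓ cb em' u = lf ℓ cb em fun g => u g ^ 2 := by
  simp only [lf, h, map_pow]
lemma lf_single (c : k) :
    lf ℓ cb em (fun g => if g = 0 then c else 0) = algebraMap K A (ℓ.τ (em c)) := by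
  rw [lf, Finset.sum_eq_single 0 (fun g _ hg => by simp [hg]) (by simp), if_pos rfl, cb.γ_zero,
    Algebra.algebraMap_eq_smul_one]
lemma co_lf (u : G I → k) (g : G I) : cb.co (lf ℓ cb em u) g = ℓ.τ (em (u g)) := by
  simp only [lf, map_sum, map_smul, cb.co_γ, Finset.sum_apply, Pi.smul_apply, smul_eq_mul]
  rw [Finset.sum_eq_single g (fun h _ hh => by simp [hh.symm]) (by simp)]
  simp
lemma norm_le_of_co {x : A} {r : ℝ} (hr : 0 ≤ r) (h : ∀ g, ‖cb.co x g‖ ≤ r) : ‖x‖ ≤ r := by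
  rw [← cb.sum_co x]
  exact NBLf_cmb cb hr h

private lemma NBLf_ker {B : Type} [AddCommGroup B] (φ : k →+ B) (h1 : ∀ c, φ (wp c) = 0)
    (h2 : ∃ c, φ c ≠ 0) (c : k) : φ c = 0 ↔ c ∈ (wpH (K := k)).range := by
  have e1 : Nat.card (wpH (K := k)).ker = 2 := by
    have : ((wpH (K := k)).ker : Set k) = {0, 1} := by
      ext x
      simp only [SetLike.mem_coe, AddMonoidHom.mem_ker, Set.mem_insert_iff, Set.mem_singleton_iff]
      exact wp_eq_zero
    have h2 : Nat.card (wpH (K := k)).ker = ((wpH (K := k)).ker : Set k).ncard := rfl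
    rw [h2, this, Set.ncard_pair zero_ne_one]
  have e2 : (wpH (K := k)).range.index = 2 := by rw [AddSubgroup.index_range, e1]
  have e3 : ∀ x ∈ (wpH (K := k)).range, φ x = 0 := by
    rintro x ⟨y, rfl⟩
    exact h1 y
  refine ⟨fun h => ?_, e3 c⟩
  obtain ⟨d, hd⟩ := h2
  by_contra hc
  have := e3 _ ((AddSubgroup.add_mem_iff_of_index_two e2 (a := c) (b := d)).2
    (iff_of_false hc fun e => hd (e3 d e)))
  rw [map_add, h, zero_add] at this
  exact hd this

/-- The sum over the embeddings is the absolute trace. -/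
lemma sum_emb (emb : J ≃ (k →+* κ)) (σ : Equiv.Perm J) (h : ∀ j c, emb (σ j) c = emb j c ^ 2)
    (c : k) : ‖∑ j, ℓ.τ (emb j c) - ((tr k c).val : K)‖ ≤ 1 / 2 := by
  let S : k →+ κ := AddMonoidHom.mk' (fun c => ∑ j, emb j c) fun a b => by
    simp only [map_add, Finset.sum_add_distrib]
  have hS : ∀ c, S c = ∑ j, emb j c := fun _ => rfl
  have s1 : ∀ c, ∑ j, emb j c ^ 2 = S c := fun c => by
    rw [hS, ← Equiv.sum_comp σ fun j => emb j c]
    simp only [h]
  have s2 : S c ^ 2 = S c := by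
    rw [hS, CharTwo.sum_sq, s1, hS]
  have s3 : ∀ c, S (wp c) = 0 := fun c => by
    rw [wp, map_add, hS (c ^ 2)]
    simp only [map_pow]
    rw [s1, CharTwo.add_self_eq_zero]
  have s4 : ∃ c, S c ≠ 0 := by
    by_contra hh
    push Not at hh
    have hne : Nonempty J := by
      let _ : Algebra (ZMod 2) k := ZMod.algebra k 2
      let _ : Algebra (ZMod 2) κ := ZMod.algebra κ 2
      have : Module.Finite (ZMod 2) k := Module.Finite.of_finite
      exact ⟨emb.symm (IsAlgClosed.lift (R := ZMod 2) (S := k) (M := κ)).toRingHom⟩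
    have li := (linearIndependent_monoidHom k κ).comp (fun j : J => ((emb j : k →+* κ) : k →* κ))
      fun i j e => emb.injective (RingHom.ext fun x => DFunLike.congr_fun e x)
    obtain ⟨j⟩ := hne
    have := Fintype.linearIndependent_iff.1 li (fun _ => 1) (by
      ext x
      simpa [hS] using hh x) j
    exact one_ne_zero this
  have t3 : ∀ c, tr k (wp c) = 0 := fun c => by
    rw [wp, map_add, tr_sq, CharTwo.add_self_eq_zero]
  have e : S c = 0 ↔ tr k c = 0 := by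
    rw [NBLf_ker S s3 s4, NBLf_ker (tr k) t3 tr_ne]
  have e2 : S c = ((tr k c).val : κ) := by
    by_cases h0 : tr k c = 0
    · rw [e.2 h0, h0]
      simp
    · have h1 : tr k c = 1 := by
        revert h0
        generalize tr k c = z
        decide +revert
      have h2 : S c ≠ 0 := fun e' => h0 (e.1 e')
      rw [h1, ZMod.val_one, Nat.cast_one]
      exact mul_left_cancel₀ h2 (by rw [mul_one, ← sq, s2])
  have a1 := nbτ_sum ℓ Finset.univ fun j => emb j c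
  rw [← hS, e2, ← norm_neg] at a1
  refine le_of_eq_of_le (congrArg norm ?_) (NBLf_add a1 (nbτ_nat ℓ (tr k c).val))
  ring

end Pool.Agent.Lib.MP_788af2_nt.AG
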