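import Pool.Agent.Lib.MP_788af2_nt.AG.NBDic
import Pool.Agent.Lib.MP_788af2_nt.AG.NBLf

/-!
The action of the Dwork operator on the lifted dictionary.
-/

set_option linter.unusedSectionVars false

namespace Pool.Agent.Lib.MP_788af2_nt.AG

open Polynomial Filter Topology Pool.Agent.Lib.MP_788af2_nt.AS Pool.Agent.Lib.MP_a3f657_nt.Two

open scoped Classical

variable {K A J Z k κ I Lw : Type} [NontriviallyNormedField K] [IsUltrametricDist K]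
  [CompleteSpace K] [CharZero K] [NormedCommRing A] [NormedAlgebra K A] [IsUltrametricDist A]
  [CompleteSpace A] [NormOneClass A] [Fintype J] [Fintype Z] [DecidableEq J] [DecidableEq Z]
  [Field k] [Fintype k] [CharP k 2] [Field κ] [CharP κ 2] [IsAlgClosed κ] [Fintype I]
  [DecidableEq I] {δ : I → ℝ} [Field Lw] [CharP Lw 2]

variable {ℓ : Lift K κ} {cb : Cube K I A δ} {em em' : k →+* κ} {β : I → k[X]} {T : Tw β Lw}
  {p : Pm} {Φ : Arr A} {x y : Lw}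

lemma Zl_le (n : ℤ) : ‖Zl ℓ cb em T x n‖ ≤ 1 := lf_le ℓ cb em _
lemma Zl_add (x y : Lw) (n : ℤ) :
    ‖Zl ℓ cb em T (x + y) n - (Zl ℓ cb em T x n + Zl ℓ cb em T y n)‖ ≤ 1 / 2 := by
  simp only [Zl, dic_add]
  exact lf_add ℓ cb em _ _
lemma Zl_van {R a : ℤ} (h : Van T x R) (ha : 2 * a < R) : Zl ℓ cb em T x (-a) = 0 := by
  rw [Zl, h a ha, lf_zero]
lemma nbom_Za_le (k' : ℤ) (u : ℤ × ℤ) : ‖Za ℓ cb em T x k' u‖ ≤ 1 := by
  simp only [Za]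
  split_ifs
  · exact Zl_le _
  · simp
lemma nbom_Za_supp (k' : ℤ) (u : ℤ × ℤ) (h : -1 < u.1) : Za ℓ cb em T x k' u = 0 :=
  if_neg (by omega)
lemma nbom_Za_ne {k' : ℤ} {u : ℤ × ℤ} (h : u.2 ≠ -k') : Za ℓ cb em T x k' u = 0 :=
  if_neg fun h' => h h'.2
lemma nbom_Za_eq {k' n k₀ : ℤ} (h : 1 ≤ n) (h' : k₀ = -k') :
    Za ℓ cb em T x k' (-n, k₀) = Zl ℓ cb em T x (-n) :=
  if_pos ⟨by simp only; omega, h'⟩
lemma Za_mod (p : Pm) (x : Lw) (k' : ℤ) :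
    Mod p (Za ℓ cb em T x k') ∧ Mod p (phi (Za ℓ cb em T x k')) := by
  refine mod_of_neg (C := 1) (fun u hu => nbom_Za_supp k' u (by omega)) fun u => ?_
  rcases lt_or_ge (-1) u.1 with hu | hu
  · rw [nbom_Za_supp k' u hu, norm_zero]
    positivity
  · refine (nbom_Za_le k' u).trans ?_
    rw [one_mul]
    refine Real.one_le_rpow one_le_two ?_
    have h1 : (0 : ℝ) ≤ ((-u.1 : ℤ) : ℝ) := by exact_mod_cast (by omega : 0 ≤ -u.1)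
    have h2 : (0 : ℝ) ≤ ((|u.2| : ℤ) : ℝ) := by exact_mod_cast abs_nonneg u.2
    positivity
lemma conv_ksmul (r : K) (u v : Arr A) : conv u (r • v) = r • conv u v := by
  funext w
  simp only [conv, Pi.smul_apply, mul_smul_comm]
  exact tsum_const_smul'' r
lemma phi_ksmul (r : K) (u : Arr A) : phi (r • u) = r • phi u := by
  funext w
  simp only [phi, Pi.smul_apply]
  split_ifs <;> simp
lemma phi_add (u v : Arr A) : phi (u + v) = phi u + phi v := by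
  funext w
  simp only [phi, Pi.add_apply]
  split_ifs <;> simp
lemma Mod.ksmul {u : Arr A} (h : Mod p u) (r : K) : Mod p (r • u) := by
  obtain ⟨C, h⟩ := h
  refine ⟨‖r‖ * C, fun w => ?_⟩
  rw [mul_assoc, Pi.smul_apply, norm_smul]
  exact mul_le_mul_of_nonneg_left (h w) (norm_nonneg _)
lemma nbom_phi_le (k' : ℤ) (u : ℤ × ℤ) : ‖phi (Za ℓ cb em T x k') u‖ ≤ 1 := by
  simp only [phi]
  split_ifs
  · exact nbom_Za_le _ _
  · simp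
lemma nbom_bd (hΦ : ∀ u : ℤ × ℤ, u.1 < 0 → Φ u = 0) (k' k₀ : ℤ) {ε : ℝ} (hε : 0 ≤ ε) (a : ℤ)
    (h : ∀ (a' : ℤ) (n : ℕ), 1 ≤ a' → dic T x (-a') ≠ 0 → (n : ℤ) = 2 * a' - a →
      ‖Φ (n, 2 * k' - k₀)‖ ≤ ε) :
    ‖conv Φ (phi (Za ℓ cb em' T x k')) (-a, -k₀)‖ ≤ ε := by
  refine IsUltrametricDist.norm_tsum_le_of_forall_le_of_nonneg hε fun v => ?_
  by_cases h0 : phi (Za ℓ cb em' T x k') ((-a, -k₀) - v) = 0
  · rwa [h0, mul_zero, norm_zero]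
  rcases lt_or_ge v.1 0 with h1 | h1
  · rwa [hΦ v h1, zero_mul, norm_zero]
  refine (syl_mul ?_ (nbom_phi_le k' _)).trans (mul_one ε).le
  simp only [phi, Za, Prod.fst_sub, Prod.snd_sub] at h0
  split_ifs at h0 with h2 h3
  · have h4 : v = (((v.1.toNat : ℕ) : ℤ), 2 * k' - k₀) :=
      Prod.ext (by simp only; omega) (by simp only; omega)
    rw [h4]
    refine h (-((-a - v.1) / 2)) _ (by omega) (fun h5 => h0 ?_) (by omega)
    rw [neg_neg] at h5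
    rw [Zl, h5, lf_zero]
  · exact absurd rfl h0
  · exact absurd rfl h0
lemma nbom_fin (hem : ∀ c, em' c = em c ^ 2) (q : k[X]) {N : ℕ}
    (hN : ∀ h, (q * pG β h).natDegree ≤ N) (k' k₀ : ℤ) {a : ℤ} (ha : 1 ≤ a) :
    ‖∑ m ∈ Finset.range (N + 1), lp ℓ cb em β q m *
      phi (Za ℓ cb em' T x k') ((-a, -k₀) - ((m : ℤ), 2 * k' - k₀)) -
        Zl ℓ cb em T (T.p q * x ^ 2) (-a)‖ ≤ 1 / 2 := by
  rw [norm_sub_rev, Zl, funext (dic_sq T q hN x (-a)), ← sub_add_sub_cancel _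
    (∑ m ∈ Finset.range (N + 1), lf ℓ cb em fun g => ∑ h, (q * pG β h).coeff m *
      (if 2 ∣ -a - m then dic T x ((-a - m) / 2) (g + h) ^ 2 else 0))]
  refine syl_add (lf_sum ℓ cb em _ _) ?_
  rw [← Finset.sum_sub_distrib]
  refine IsUltrametricDist.norm_sum_le_of_forall_le_of_nonneg (by norm_num) fun m _ => ?_
  have h1 : phi (Za ℓ cb em' T x k') ((-a, -k₀) - ((m : ℤ), 2 * k' - k₀)) =
      lf ℓ cb em fun g => if 2 ∣ -a - m then dic T x ((-a - m) / 2) g ^ 2 else 0 := by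
    simp only [phi, Za, Prod.fst_sub, Prod.snd_sub]
    by_cases h2 : 2 ∣ -a - m
    · simp only [if_pos h2]
      rw [if_pos ⟨h2, by omega⟩, if_pos ⟨by omega, by omega⟩, Zl, lf_sq ℓ cb em hem]
    · simp only [if_neg h2]
      rw [if_neg fun h3 => h2 h3.1]
      exact (lf_zero ℓ cb em).symm
  rw [h1]
  exact lf_mul ℓ cb em (fun h => (q * pG β h).coeff m)
    fun g => if 2 ∣ -a - m then dic T x ((-a - m) / 2) g ^ 2 else 0
/-- The main approximation. -/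
lemma om (hΦ : Dec p Φ) (hem : ∀ c, em' c = em c ^ 2) (q : k[X]) (k' k₀ : ℤ) (r : K) {ε : ℝ}
    (hr : ‖r‖ / 2 ≤ ε) {a : ℤ} (ha : 1 ≤ a)
    (h : ∀ (a' : ℤ) (n : ℕ), 1 ≤ a' → dic T x (-a') ≠ 0 → (n : ℤ) = 2 * a' - a →
      ‖Φ (n, 2 * k' - k₀) - r • lp ℓ cb em β q n‖ ≤ ε) :
    ‖conv Φ (phi (Za ℓ cb em' T x k')) (-a, -k₀) - r • Zl ℓ cb em T (T.p q * x ^ 2) (-a)‖ ≤ ε := by
  have hε : 0 ≤ ε := le_trans (by positivity) hr
  obtain ⟨N, hN⟩ : ∃ N, ∀ h, (q * pG β h).natDegree ≤ N :=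
    ⟨Finset.univ.sup fun h => (q * pG β h).natDegree, fun h =>
      Finset.le_sup (f := fun h => (q * pG β h).natDegree) (Finset.mem_univ h)⟩
  set Ψ : Arr A := fun v =>
    if 0 ≤ v.1 ∧ v.2 = 2 * k' - k₀ then r • lp ℓ cb em β q v.1.toNat else 0 with hΨ
  have hinj : Function.Injective fun m : ℕ => (((m : ℤ), 2 * k' - k₀) : ℤ × ℤ) := fun m m' h => by
    simpa using h
  have h0 : ∀ v, v ∉ (Finset.range (N + 1)).map ⟨_, hinj⟩ → Ψ v = 0 := fun v hv => by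
    simp only [hΨ]
    split_ifs with h1
    · have h2 : N < v.1.toNat := by
        by_contra h2
        exact hv (Finset.mem_map.2 ⟨v.1.toNat, Finset.mem_range.2 (by omega),
          Prod.ext (by simp only [Function.Embedding.coeFn_mk]; omega) h1.2.symm⟩)
      have h3 : (fun g => (q * pG β g).coeff v.1.toNat) = 0 :=
        funext fun g => coeff_eq_zero_of_natDegree_lt ((hN g).trans_lt h2)
      rw [lp, h3, lf_zero, smul_zero]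
    · rfl
  have h1 : ∀ u : ℤ × ℤ, u.1 < 0 → Ψ u = 0 := fun u hu => if_neg (by omega)
  have h2 : Dec p Ψ := dec_of_finite h1 ((Finset.finite_toSet _).subset fun v hv => by
    by_contra h3
    exact hv (h0 v h3))
  have h3 : ∀ m : ℕ, Ψ (m, 2 * k' - k₀) = r • lp ℓ cb em β q m := fun m => by simp [hΨ]
  rw [← sub_add_sub_cancel _ (conv Ψ (phi (Za ℓ cb em' T x k')) (-a, -k₀))]
  refine syl_add ?_ ?_
  · rw [← Pi.sub_apply (conv Φ _), ← sub_conv hΦ h2 (Za_mod p x k').2]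
    refine nbom_bd (fun u hu => by rw [Pi.sub_apply, hΦ.1 u hu, h1 u hu, sub_zero]) k' k₀ hε a
      fun a' n a1 a2 a3 => ?_
    rw [Pi.sub_apply, h3]
    exact h a' n a1 a2 a3
  · rw [conv, tsum_eq_sum (s := (Finset.range (N + 1)).map ⟨_, hinj⟩)
      fun v hv => by rw [h0 v hv, zero_mul], Finset.sum_map]
    simp only [Function.Embedding.coeFn_mk, h3, smul_mul_assoc]
    rw [← Finset.smul_sum, ← smul_sub, norm_smul]
    refine le_trans ?_ hr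
    rw [div_eq_mul_one_div]
    exact mul_le_mul_of_nonneg_left (nbom_fin hem q hN k' k₀ ha) (norm_nonneg _)
lemma om_all (hΦ : Dec p Φ) (hem : ∀ c, em' c = em c ^ 2) (q : k[X]) (k' k₀ : ℤ) (r : K) {ε : ℝ}
    (hr : ‖r‖ / 2 ≤ ε) {a : ℤ} (ha : 1 ≤ a)
    (h : ∀ n : ℕ, ‖Φ (n, 2 * k' - k₀) - r • lp ℓ cb em β q n‖ ≤ ε) :
    ‖conv Φ (phi (Za ℓ cb em' T x k')) (-a, -k₀) - r • Zl ℓ cb em T (T.p q * x ^ 2) (-a)‖ ≤ ε :=
  om hΦ hem q k' k₀ r hr ha fun _ n _ _ _ => h n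
lemma om_van (hΦ : Dec p Φ) (hem : ∀ c, em' c = em c ^ 2) (q : k[X]) (k' k₀ : ℤ) (r : K) {ε : ℝ}
    (hr : ‖r‖ / 2 ≤ ε) {a R : ℤ} (ha : 1 ≤ a) (hx : Van T x R)
    (h : ∀ n : ℕ, R - a ≤ n → ‖Φ (n, 2 * k' - k₀) - r • lp ℓ cb em β q n‖ ≤ ε) :
    ‖conv Φ (phi (Za ℓ cb em' T x k')) (-a, -k₀) - r • Zl ℓ cb em T (T.p q * x ^ 2) (-a)‖ ≤ ε :=
  om hΦ hem q k' k₀ r hr ha fun a' n _ h1 h2 =>
    h n (by have := mt (hx a') h1; omega)
lemma om_bd (hΦ : ∀ u : ℤ × ℤ, u.1 < 0 → Φ u = 0) (k' k₀ : ℤ) {ε : ℝ} (hε : 0 ≤ ε) (a : ℤ)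
    (h : ∀ n : ℕ, ‖Φ (n, 2 * k' - k₀)‖ ≤ ε) :
    ‖conv Φ (phi (Za ℓ cb em' T x k')) (-a, -k₀)‖ ≤ ε :=
  nbom_bd hΦ k' k₀ hε a fun _ n _ _ _ => h n
lemma om_bd_van (hΦ : ∀ u : ℤ × ℤ, u.1 < 0 → Φ u = 0) (k' k₀ : ℤ) {ε : ℝ} (hε : 0 ≤ ε) {a R : ℤ}
    (hx : Van T x R) (h : ∀ n : ℕ, R - a ≤ n → ‖Φ (n, 2 * k' - k₀)‖ ≤ ε) :
    ‖conv Φ (phi (Za ℓ cb em' T x k')) (-a, -k₀)‖ ≤ ε :=
  nbom_bd hΦ k' k₀ hε a fun a' n _ h1 h2 => h n (by have := mt (hx a') h1; omega)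

variable {a s A2 : k[X]} {e l : ℕ} {f : Lw} (E : Elt T a s A2 e l f)

lemma Elt.arr_le (u : ℤ × ℤ) : ‖E.arr ℓ cb em u‖ ≤ 4 := by
  have n2 := ℓ.two
  have n3 : ‖(1 / 2 : K)‖ = 2 := by rw [norm_div, n2]; norm_num
  have n4 : ‖(1 / 4 : K)‖ = 4 := by
    rw [show (1 / 4 : K) = 1 / 2 * (1 / 2) by norm_num, norm_mul, n3]; norm_num
  have key : ∀ (r : K) (x : Lw) (k' : ℤ), ‖r‖ ≤ 4 → ‖r • Za ℓ cb em T x k' u‖ ≤ 4 :=
    fun r x k' hr => by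
      rw [norm_smul]
      exact (mul_le_of_le_one_right (norm_nonneg _) (nbom_Za_le k' u)).trans hr
  simp only [Elt.arr, Pi.add_apply, Pi.smul_apply]
  refine syl_add (syl_add (syl_add (syl_add (syl_add (syl_add (syl_add ?_ ?_) ?_) ?_) ?_) ?_) ?_) ?_
  · exact key _ _ _ n4.le
  · exact key _ _ _ (by rw [n3]; norm_num)
  · exact (nbom_Za_le _ _).trans (by norm_num)
  · exact key _ _ _ (by rw [n2]; norm_num)
  · exact key _ _ _ (by rw [n3]; norm_num)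
  · exact key _ _ _ n4.le
  · exact key _ _ _ (by rw [n3]; norm_num)
  · exact key _ _ _ n4.le
lemma Elt.arr_supp (u : ℤ × ℤ) (h : -1 < u.1) : E.arr ℓ cb em u = 0 := by
  simp only [Elt.arr, Pi.add_apply, Pi.smul_apply, nbom_Za_supp _ u h, smul_zero, add_zero]
lemma Elt.arr_mod (p : Pm) : Mod p (E.arr ℓ cb em) :=
  ((((((((Za_mod p _ _).1.ksmul _).add ((Za_mod p _ _).1.ksmul _)).add (Za_mod p _ _).1).add
    ((Za_mod p _ _).1.ksmul _)).add ((Za_mod p _ _).1.ksmul _)).add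
    ((Za_mod p _ _).1.ksmul _)).add ((Za_mod p _ _).1.ksmul _)).add ((Za_mod p _ _).1.ksmul _)
lemma Elt.arr_zero {n : ℤ} (h : 1 ≤ n) : E.arr ℓ cb em (-n, 0) =
    (1 / 4 : K) • Zl ℓ cb em T (E.z0 ^ 2) (-n) + (1 / 2 : K) • Zl ℓ cb em T E.z0 (-n) +
      Zl ℓ cb em T E.z1 (-n) + (2 : K) • Zl ℓ cb em T E.z2 (-n) := by
  have h1 : -n ≤ -1 := by omega
  simp [Elt.arr, Za, h1]
lemma Elt.arr_one {n : ℤ} (h : 1 ≤ n) :
    E.arr ℓ cb em (-n, -1) = (1 / 2 : K) • Zl ℓ cb em T (T.p (s ^ 2) * E.y) (-n) := by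
  have h1 : -n ≤ -1 := by omega
  simp [Elt.arr, Za, h1]
lemma Elt.arr_two {n : ℤ} (h : 1 ≤ n) :
    E.arr ℓ cb em (-n, -2) = (1 / 4 : K) • Zl ℓ cb em T ((T.p (s ^ 2) * E.y) ^ 2) (-n) := by
  have h1 : -n ≤ -1 := by omega
  simp [Elt.arr, Za, h1]
lemma Elt.arr_neg_one {n : ℤ} (h : 1 ≤ n) :
    E.arr ℓ cb em (-n, 1) = (1 / 2 : K) • Zl ℓ cb em T E.y (-n) := by
  have h1 : -n ≤ -1 := by omega
  simp [Elt.arr, Za, h1]
lemma Elt.arr_neg_two {n : ℤ} (h : 1 ≤ n) :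
    E.arr ℓ cb em (-n, 2) = (1 / 4 : K) • Zl ℓ cb em T (E.y ^ 2) (-n) := by
  have h1 : -n ≤ -1 := by omega
  simp [Elt.arr, Za, h1]
lemma Elt.arr_far (u : ℤ × ℤ) (h : 2 < |u.2|) : E.arr ℓ cb em u = 0 := by
  have h1 : ∀ (x : Lw) (k' : ℤ), |k'| ≤ 2 → Za ℓ cb em T x k' u = 0 := fun x k' hk =>
    nbom_Za_ne fun e => by rw [e, abs_neg] at h; omega
  simp only [Elt.arr, Pi.add_apply, Pi.smul_apply]
  rw [h1 _ 0 (by simp), h1 _ 0 (by simp), h1 _ 0 (by simp), h1 _ 0 (by simp), h1 _ 1 (by simp),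
    h1 _ 2 (by simp), h1 _ (-1) (by simp), h1 _ (-2) (by simp)]
  simp
/-- The Dwork operator on the approximate solution, term by term. -/
lemma Elt.vmul_eq (d : Dat K A J Z) (emb : J → k →+* κ) (j : J) (n k₀ : ℤ) (h : 1 ≤ n) :
    vmul (E.rw0 ℓ cb emb) (d.M 1) (j, ⟨(n, k₀), h⟩) =
      (1 / 4 : K) • conv (d.F j) (phi (Za ℓ cb (emb (d.σ j)) T (E.z0 ^ 2) 0)) (-n, -k₀) +
      (1 / 2 : K) • conv (d.F j) (phi (Za ℓ cb (emb (d.σ j)) T E.z0 0)) (-n, -k₀) +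
      conv (d.F j) (phi (Za ℓ cb (emb (d.σ j)) T E.z1 0)) (-n, -k₀) +
      (2 : K) • conv (d.F j) (phi (Za ℓ cb (emb (d.σ j)) T E.z2 0)) (-n, -k₀) +
      (1 / 2 : K) • conv (d.F j) (phi (Za ℓ cb (emb (d.σ j)) T (T.p (s ^ 2) * E.y) 1)) (-n, -k₀) +
      (1 / 4 : K) • conv (d.F j)
        (phi (Za ℓ cb (emb (d.σ j)) T ((T.p (s ^ 2) * E.y) ^ 2) 2)) (-n, -k₀) +
      (1 / 2 : K) • conv (d.F j) (phi (Za ℓ cb (emb (d.σ j)) T E.y (-1))) (-n, -k₀) +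
      (1 / 4 : K) • conv (d.F j) (phi (Za ℓ cb (emb (d.σ j)) T (E.y ^ 2) (-2))) (-n, -k₀) := by
  have h1 : vmul (E.rw0 ℓ cb emb) (d.M 1) (j, ⟨(n, k₀), h⟩) =
      vmul (row 1 (d.σ j) (E.arr ℓ cb (emb (d.σ j)))) (opm 1 d.σ d.F) (j, ⟨(n, k₀), h⟩) := by
    refine tsum_congr fun r => ?_
    simp only [Dat.M, opm, row, Elt.rw0]
    split_ifs with h2
    · rw [h2]
    · simp
  have m : ∀ (x : Lw) (k' : ℤ), Mod d.p (phi (Za ℓ cb (emb (d.σ j)) T x k')) :=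
    fun x k' => (Za_mod d.p x k').2
  have a1 := ((m (E.z0 ^ 2) 0).ksmul (1 / 4 : K)).add ((m E.z0 0).ksmul (1 / 2 : K))
  have a2 := a1.add (m E.z1 0)
  have a3 := a2.add ((m E.z2 0).ksmul (2 : K))
  have a4 := a3.add ((m (T.p (s ^ 2) * E.y) 1).ksmul (1 / 2 : K))
  have a5 := a4.add ((m ((T.p (s ^ 2) * E.y) ^ 2) 2).ksmul (1 / 4 : K))
  have a6 := a5.add ((m E.y (-1)).ksmul (1 / 2 : K))
  have hF := d.F_dec j
  rw [h1, vmul_row (E.arr_supp) _ _, if_pos rfl]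
  simp only [Elt.arr, phi_add, phi_ksmul]
  rw [conv_add hF a6 ((m _ _).ksmul _), conv_add hF a5 ((m _ _).ksmul _),
    conv_add hF a4 ((m _ _).ksmul _), conv_add hF a3 ((m _ _).ksmul _),
    conv_add hF a2 ((m _ _).ksmul _), conv_add hF a1 (m _ _),
    conv_add hF ((m _ _).ksmul _) ((m _ _).ksmul _)]
  simp only [conv_ksmul, Pi.add_apply, Pi.smul_apply, Prod.neg_mk]

end Pool.Agent.Lib.MP_788af2_nt.AG
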