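import Pool.Agent.Lib.MP_788af2_nt.AG.NBLf

/-!
Reduction of the lifted polynomials.
-/

set_option linter.unusedSectionVars false

namespace Pool.Agent.Lib.MP_788af2_nt.AG

open Polynomial Filter Topology Pool.Agent.Lib.MP_788af2_nt.AS Pool.Agent.Lib.MP_a3f657_nt.Two

open scoped Classical

variable {K A J Z k κ I Lw : Type} [NontriviallyNormedField K] [IsUltrametricDist K]
  [CompleteSpace K] [CharZero K] [NormedCommRing A] [NormedAlgebra K A] [IsUltrametricDist A]
  [CompleteSpace A] [NormOneClass A] [Fintype J] [Fintype Z] [DecidableEq J] [DecidableEq Z]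
  [Field k] [Fintype k] [CharP k 2] [Field κ] [CharP κ 2] [IsAlgClosed κ] [Fintype I]
  [DecidableEq I] {δ : I → ℝ} [Field Lw] [CharP Lw 2]

variable {ℓ : Lift K κ} {P Q : K[X]} {p q : κ[X]}

lemma Red.le (h : Red ℓ P p) (n : ℕ) : ‖P.coeff n‖ ≤ 1 := by
  have := syl_add ((h n).trans (by norm_num : (1 / 2 : ℝ) ≤ 1)) (ℓ.τ_le (p.coeff n))
  rwa [sub_add_cancel] at this

lemma Red.add (h : Red ℓ P p) (h' : Red ℓ Q q) : Red ℓ (P + Q) (p + q) := fun n => by
  have := syl_sub (syl_add (h n) (h' n)) (nbτ_add ℓ (p.coeff n) (q.coeff n))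
  rw [coeff_add, coeff_add]
  exact (congrArg norm (by ring)).trans_le this

lemma Red.mul (h : Red ℓ P p) (h' : Red ℓ Q q) : Red ℓ (P * Q) (p * q) := fun n => by
  have h1 : ‖∑ x ∈ Finset.HasAntidiagonal.antidiagonal n, (P.coeff x.1 * Q.coeff x.2 -
      ℓ.τ (p.coeff x.1 * q.coeff x.2))‖ ≤ 1 / 2 :=
    IsUltrametricDist.norm_sum_le_of_forall_le_of_nonneg (by norm_num) fun x _ => by
      have := syl_add ((syl_mul (h x.1) (h'.le x.2)).trans (mul_one _).le)
        ((syl_mul (ℓ.τ_le (p.coeff x.1)) (h' x.2)).trans (one_mul _).le)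
      rw [map_mul]
      exact (congrArg norm (by ring)).trans_le this
  have := syl_sub h1 (nbτ_sum ℓ (Finset.HasAntidiagonal.antidiagonal n) fun x => p.coeff x.1 * q.coeff x.2)
  rw [coeff_mul, coeff_mul]
  rw [Finset.sum_sub_distrib] at this
  exact (congrArg norm (by ring)).trans_le this

lemma red_C (c : κ) : Red ℓ (C (ℓ.τ c)) (C c) := fun n => by
  rw [coeff_C, coeff_C]
  split_ifs <;> simp

lemma red_lin (c : κ) : Red ℓ (X - C (ℓ.τ c)) (X - C c) := fun n => by
  rw [coeff_sub, coeff_sub, coeff_C, coeff_C, coeff_X, coeff_X]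
  split_ifs with h1 h2
  · omega
  · simp
  · rw [zero_sub, zero_sub, CharTwo.neg_eq c, show -ℓ.τ c - ℓ.τ c = -(2 * ℓ.τ c) by ring, norm_neg,
      norm_mul, ℓ.two]
    linarith [ℓ.τ_le c]
  · simp

private lemma nbred_one : Red ℓ 1 1 := by simpa using red_C (ℓ := ℓ) 1

lemma Red.pow (h : Red ℓ P p) (n : ℕ) : Red ℓ (P ^ n) (p ^ n) := by
  induction n with
  | zero => simpa using nbred_one
  | succ n ih => simpa only [pow_succ] using ih.mul h

lemma red_prod {α : Type} (s : Finset α) {F : α → K[X]} {f : α → κ[X]}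
    (h : ∀ i ∈ s, Red ℓ (F i) (f i)) : Red ℓ (∏ i ∈ s, F i) (∏ i ∈ s, f i) := by
  induction s using Finset.induction_on with
  | empty => simpa using nbred_one
  | insert a s ha ih =>
    rw [Finset.prod_insert ha, Finset.prod_insert ha]
    exact (h a (Finset.mem_insert_self _ _)).mul (ih fun i hi => h i (Finset.mem_insert_of_mem hi))

lemma red_sum {α : Type} (s : Finset α) {F : α → K[X]} {f : α → κ[X]}
    (h : ∀ i ∈ s, Red ℓ (F i) (f i)) : Red ℓ (∑ i ∈ s, F i) (∑ i ∈ s, f i) := by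
  induction s using Finset.induction_on with
  | empty => exact fun n => by simp
  | insert a s ha ih =>
    rw [Finset.sum_insert ha, Finset.sum_insert ha]
    exact (h a (Finset.mem_insert_self _ _)).add (ih fun i hi => h i (Finset.mem_insert_of_mem hi))

private lemma nbred_split (p : κ[X]) (S : Finset Z) (r : Z → κ) (hi : Set.InjOn r S)
    (hs : ∀ x, p.IsRoot x → ∃ z ∈ S, r z = x) :
    p = C p.leadingCoeff * ∏ z ∈ S, (X - C (r z)) ^ p.rootMultiplicity (r z) := by
  rw [← Finset.prod_image (f := fun x => (X - C x) ^ p.rootMultiplicity x) hi,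
    ← Finset.prod_subset (s₁ := p.roots.toFinset), ← prod_multiset_root_eq_finset_root,
    C_leadingCoeff_mul_prod_multiset_X_sub_C IsAlgClosed.card_roots_eq_natDegree]
  · exact fun x hx => Finset.mem_image.2 (hs x (isRoot_of_mem_roots (Multiset.mem_toFinset.1 hx)))
  · intro x _ hx
    rw [← count_roots, Multiset.count_eq_zero.2 (fun h => hx (Multiset.mem_toFinset.2 h)), pow_zero]


variable {g : Geo K J Z} {b : k[X]} (L : Lnk g ℓ b)

private lemma nbred_b (j : J) : ((b ^ 2 ^ g.i) ^ 2).map (L.emb j) =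
    C (L.emb j (b.leadingCoeff ^ 2 ^ (g.i + 1))) *
      ∏ z ∈ Finset.univ.filter (fun z => g.jz z = j), (X - C (L.rt z)) ^ g.c z := by
  rw [← pow_mul, ← pow_succ, Polynomial.map_pow, nbred_split (b.map (L.emb j))
    (Finset.univ.filter fun z => g.jz z = j) L.rt
    (fun z hz z' hz' => L.inj z z' ((Finset.mem_filter.1 hz).2.trans (Finset.mem_filter.1 hz').2.symm))
    (fun x hx => by simpa using L.surj j x hx), mul_pow, ← Finset.prod_pow, leadingCoeff_map,
    map_pow, map_pow]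
  refine congrArg _ (Finset.prod_congr rfl fun z hz => ?_)
  rw [← pow_mul, Geo.c, L.mult, (Finset.mem_filter.1 hz).2, mul_comm]

lemma Lnk.lam_red (j : J) : Red ℓ (g.lam j) (((b ^ 2 ^ g.i) ^ 2).map (L.emb j)) := by
  rw [nbred_b, Geo.lam, L.u_eq]
  exact (red_C _).mul (red_prod _ fun z _ => L.β_eq z ▸ (red_lin _).pow _)

lemma Lnk.ov_σ (v : k[X]) (z : Z) : g.σZ z ∈ L.ov v ↔ z ∈ L.ov v := by
  have e : L.emb (g.σ (g.jz z)) = (frobenius κ 2).comp (L.emb (g.jz z)) :=
    RingHom.ext fun c => L.emb_σ _ c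
  simp only [Lnk.ov, Finset.mem_filter, Finset.mem_univ, true_and]
  rw [g.jz_σ, L.rt_σ, e, ← Polynomial.map_map]
  exact isRoot_map_iff (f := frobenius κ 2) (frobenius κ 2).injective

lemma Lnk.map_eq_prod {v : k[X]} (h1 : Irreducible v) (h2 : v.Monic) (h3 : v ∣ b) (j : J) :
    v.map (L.emb j) = ∏ z ∈ (L.ov v).filter (fun z => g.jz z = j), (X - C (L.rt z)) := by
  refine (nbred_split _ ((L.ov v).filter fun z => g.jz z = j) L.rt
    (fun z hz z' hz' => L.inj z z' ((Finset.mem_filter.1 hz).2.trans (Finset.mem_filter.1 hz').2.symm))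
    fun x hx => ?_).trans ?_
  · obtain ⟨z, rfl, rfl⟩ := L.surj j x (hx.dvd (Polynomial.map_dvd _ h3))
    exact ⟨z, Finset.mem_filter.2 ⟨Finset.mem_filter.2 ⟨Finset.mem_univ _, hx⟩, rfl⟩, rfl⟩
  rw [(h2.map _).leadingCoeff, C_1, one_mul]
  refine Finset.prod_congr rfl fun z hz => ?_
  obtain ⟨a1, rfl⟩ := Finset.mem_filter.1 hz
  rw [le_antisymm (rootMultiplicity_le_one_of_separable
    ((PerfectField.separable_of_irreducible h1).map) _)
    ((rootMultiplicity_pos (h2.map _).ne_zero).2 (Finset.mem_filter.1 a1).2), pow_one]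

lemma Lnk.ov_nonempty {v : k[X]} (h1 : Irreducible v) (h3 : v ∣ b) : (L.ov v).Nonempty := by
  let := ZMod.algebra k 2
  let := ZMod.algebra κ 2
  obtain ⟨j, -⟩ := L.emb.surjective (IsAlgClosed.lift (R := ZMod 2) (S := k) (M := κ)).toRingHom
  obtain ⟨x, hx⟩ := IsAlgClosed.exists_root (v.map (L.emb j)) (by
    rw [degree_map]
    exact (degree_pos_of_irreducible h1).ne')
  obtain ⟨z, rfl, rfl⟩ := L.surj j x (hx.dvd (Polynomial.map_dvd _ h3))
  exact ⟨z, Finset.mem_filter.2 ⟨Finset.mem_univ _, hx⟩⟩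

/-- The reduction of `∑ λ / (t - β z)` over the roots of `v` is `s ^ 2 v' / v`. -/
lemma Lnk.div_red {v u : k[X]} (h1 : Irreducible v) (h2 : v.Monic) (h3 : v ∣ b)
    (hu : v * u = (b ^ 2 ^ g.i) ^ 2) (j : J) :
    Red ℓ (∑ z ∈ (L.ov v).filter (fun z => g.jz z = j), g.lam j /ₘ (X - C (g.β z)))
      ((derivative v * u).map (L.emb j)) := by
  rw [Polynomial.map_mul, ← derivative_map, L.map_eq_prod h1 h2 h3, derivative_prod_finset,
    Finset.sum_mul]
  refine red_sum _ fun z hz => ?_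
  have hj : z ∈ Finset.univ.filter fun z => g.jz z = j :=
    Finset.mem_filter.2 ⟨Finset.mem_univ _, (Finset.mem_filter.1 hz).2⟩
  obtain ⟨c, hc⟩ := Nat.exists_eq_succ_of_ne_zero (n := g.c z)
    (Nat.mul_pos (Nat.two_pow_pos _) (g.n_pos z)).ne'
  have e := nbred_b L j
  rw [← hu, Polynomial.map_mul, L.map_eq_prod h1 h2 h3, ← Finset.mul_prod_erase _ _ hz,
    ← Finset.mul_prod_erase _ _ hj, hc, pow_succ' _ c, mul_assoc, mul_assoc, mul_left_comm (C _)] at e
  rw [derivative_X_sub_C, mul_one, mul_left_cancel₀ (X_sub_C_ne_zero _) e, Geo.lam,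
    ← Finset.mul_prod_erase _ _ hj, hc, pow_succ' _ c, mul_assoc, mul_left_comm (C _),
    mul_divByMonic_cancel_left _ (monic_X_sub_C _), L.u_eq]
  exact (red_C _).mul ((L.β_eq z ▸ (red_lin _).pow _).mul
    (red_prod _ fun z _ => L.β_eq z ▸ (red_lin _).pow _))

lemma Lnk.Em_sum (S : Finset k[X]) (N : Matrix Z Z A) (v w : S) :
    (((L.Em S).map (Int.cast : ℤ → A)).transpose * N * (L.Em S).map (Int.cast : ℤ → A)) v w =
      ∑ z' ∈ L.ov w.1, ∑ z ∈ L.ov v.1, N z z' := by
  simp only [Matrix.mul_apply, Matrix.transpose_apply, Matrix.map_apply, Lnk.Em, Matrix.of_apply,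
    Int.cast_ite, Int.cast_one, Int.cast_zero, ite_mul, mul_ite, one_mul, mul_one, zero_mul,
    mul_zero, Lnk.ov, Finset.sum_filter]

end Pool.Agent.Lib.MP_788af2_nt.AG
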