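import Pool.Agent.Lib.MP_788af2_nt.AG.NBDef

/-!
The Sylvester equation for the difference.
-/

set_option linter.unusedSectionVars false

namespace Pool.Agent.Lib.MP_788af2_nt.AG

open Polynomial Filter Topology Pool.Agent.Lib.MP_788af2_nt.AS Pool.Agent.Lib.MP_a3f657_nt.Two

open scoped Classical

variable {K A J Z k κ I Lw : Type} [NontriviallyNormedField K] [IsUltrametricDist K]
  [CompleteSpace K] [CharZero K] [NormedCommRing A] [NormedAlgebra K A] [IsUltrametricDist A]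
  [CompleteSpace A] [NormOneClass A] [Fintype J] [Fintype Z] [DecidableEq J] [DecidableEq Z]
  [Field k] [Fintype k] [CharP k 2] [Field κ] [CharP κ 2] [IsAlgClosed κ] [Fintype I]
  [DecidableEq I] {δ : I → ℝ} [Field Lw] [CharP Lw 2]

variable {d : Dat K A J Z} {η : J → Arr A} {a₀ : J → A} {C : ℝ} {ζ : Z → J × Ex 1 → A}
  {N : Matrix Z Z A} (hη : d.IsEta η a₀) (hζ : d.IsEig η C ζ N) (hC : 1 ≤ C)
  (hs : d.Sm (1 / (2 ^ 20 * C ^ 2))) {O : Finset Z} (hO : ∀ z, d.σZ z ∈ O ↔ z ∈ O)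
  (hε : ∀ z ∈ O, d.ε z = 1) {ζ0 : J × Ex 1 → A} (h0 : ∀ r, ‖ζ0 r‖ ≤ 4)

lemma nbs_UV (p : Pm) (r : J × Ex 1) : (2 : ℝ) ^ p.Ui r ≤ 2 * 2 ^ p.Vi r := by
  rw [← syl_pow1]
  refine Real.rpow_le_rpow_of_exponent_le one_le_two ?_
  obtain ⟨j, ⟨a, b⟩, h⟩ := r
  simp only [Pm.Ui, Pm.Vi] at h ⊢
  by_cases h1 : b = 0 ∧ a < p.e
  · obtain ⟨rfl, h2⟩ := h1
    have := p.diag h h2
    have := p.μ_pos
    linarith
  · exact (p.U_eq h1).le

lemma nbs_V (p : Pm) (r : J × Ex 1) : -1 ≤ p.Vi r := by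
  have h1 := p.V_low r.2.1.2 r.2.2
  have h2 : (0 : ℝ) ≤ ((|r.2.1.2| : ℤ) : ℝ) := by exact_mod_cast abs_nonneg _
  unfold Pm.Vi
  linarith

lemma nbs_U (p : Pm) (r : J × Ex 1) : -1 ≤ p.Ui r := by
  have hV := nbs_V p r
  obtain ⟨j, ⟨a, b⟩, h⟩ := r
  simp only [Pm.Ui, Pm.Vi] at h hV ⊢
  by_cases h1 : b = 0 ∧ a < p.e
  · obtain ⟨rfl, h2⟩ := h1
    by_cases h3 : 2 * a < p.e
    · have := p.V_low (a := 2 * a) 0 (by omega)
      rw [p.U_lo_b h3, ← p.V_zero_b]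
      simpa using this
    · obtain ⟨m, hm⟩ := p.odd
      have := p.V_low (a := 2 * a - p.e) 0 (by omega)
      rw [p.U_hi_b h3 h2.le, ← p.V_zero_b]
      simp only [abs_zero, Int.cast_zero, mul_zero, add_zero] at this
      linarith
  · rw [p.U_eq h1]
    linarith

lemma nbs_four {ι : Type} {W : ι → ℝ} (hW : ∀ r, -1 ≤ W r) {x : ι → A} (h : ∀ r, ‖x r‖ ≤ 4)
    (r : ι) : ‖x r‖ ≤ 8 * 2 ^ W r := by
  have h1 : (2 : ℝ) ^ (-1 : ℝ) ≤ 2 ^ W r := Real.rpow_le_rpow_of_exponent_le one_le_two (hW r)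
  rw [Real.rpow_neg_one] at h1
  have := h r
  linarith

lemma nbs_row (p : Pm) {x : J × Ex 1 → A} {D : ℝ} (hD : 0 ≤ D) (h : ∀ r, ‖x r‖ ≤ D * 2 ^ p.Ui r) :
    RowB p.Vi x :=
  ⟨D * 2, fun r => (h r).trans (by
    rw [mul_assoc]; exact mul_le_mul_of_nonneg_left (nbs_UV p r) hD)⟩

include hζ in
lemma nbs_rζ (z : Z) : RowB d.p.Vi (ζ z) :=
  nbs_row d.p (D := max C 0) (le_max_right _ _) fun r => (hζ.le z r).trans
    (mul_le_mul_of_nonneg_right (le_max_left _ _) (ric_pos _).le)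

include hζ h0 in
lemma nbs_dot {t : J × Ex 1 → A} (ht : ColB d.p.Vi t) :
    HasSum (fun r => (∑ z ∈ O, ζ z r - ζ0 r) * t r) (∑ z ∈ O, dot (ζ z) t - dot ζ0 t) := by
  have := (hasSum_sum (s := O) fun z _ => ric_hs (nbs_rζ hζ z) ht).sub
    (ric_hs ⟨8, nbs_four (nbs_V d.p) h0⟩ ht)
  simpa only [sub_mul, Finset.sum_mul] using this

include hζ hO hε h0 in
lemma dz_eq (r : J × Ex 1) :
    2 * (∑ z ∈ O, ζ z r - ζ0 r) - vmul (fun r => ∑ z ∈ O, ζ z r - ζ0 r) (d.M 1) r =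
      d.R0 O ζ0 r - 4 * ∑ z', (∑ z ∈ O, N z z') * (d.ρr z' r + (d.c z' : K) • ζ z' r) := by
  have e1 : vmul (fun r => ∑ z ∈ O, ζ z r - ζ0 r) (d.M 1) r =
      ∑ z ∈ O, vmul (ζ z) (d.M 1) r - vmul ζ0 (d.M 1) r :=
    (nbs_dot hζ h0 (ric_col d.M_cc r)).tsum_eq
  have e2 : ∑ z ∈ O, ∑ z', d.P z z' • ζ z' r = ∑ z ∈ O, ζ z r := by
    rw [Finset.sum_comm]
    have : ∀ z', ∑ z ∈ O, d.P z z' • ζ z' r = if z' ∈ O then ζ z' r else 0 := by
      intro z'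
      simp only [Dat.P, Matrix.of_apply, ite_smul, zero_smul, Finset.sum_ite_eq', hO]
      split_ifs with h
      · rw [hε z' h, one_smul]
      · rfl
    simp only [this, Finset.sum_ite_mem, Finset.univ_inter]
  have e3 : ∑ z ∈ O, ∑ z', N z z' * (d.ρr z' r + (d.c z' : K) • ζ z' r) =
      ∑ z', (∑ z ∈ O, N z z') * (d.ρr z' r + (d.c z' : K) • ζ z' r) := by
    rw [Finset.sum_comm]
    simp only [Finset.sum_mul]
  rw [e1, Dat.R0, ← e3]
  simp only [hζ.eq, Finset.sum_add_distrib, Finset.sum_sub_distrib, ← Finset.mul_sum, e2]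
  ring

include hη hζ hC hs hO hε h0 in
theorem syl_dz (ℓ : Lift K κ) (hw : ∀ z, dot ζ0 (d.wc z) = 0)
    (hA : ∀ r, ‖d.R0 O ζ0 r‖ ≤ 2 ^ (d.p.Vi r - 9 / 10))
    (hB : ∀ j, ‖dot ζ0 (d.yc η j) + ∑ z ∈ O, d.ry η z j‖ ≤ 2 ^ (-(4 / 5 : ℝ))) :
    (∀ r, ‖∑ z ∈ O, ζ z r - ζ0 r‖ ≤ 2 ^ (d.p.Ui r - 4 / 5)) ∧
      ∀ z', ‖∑ z ∈ O, N z z'‖ ≤ 2 ^ (1 / 4 : ℝ) := by
  have C0 : (0 : ℝ) < C := one_pos.trans_le hC
  choose yi hyi using hη.y_unit
  obtain ⟨S, B, π, hD⟩ := d.dom ℓ hη hyi (ϱ := d.ρr) fun z r => by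
    rw [sub_self, norm_zero]
    exact mul_nonneg (by norm_num) (ric_pos _).le
  set x : J × Ex 1 → A := fun r => ∑ z ∈ O, ζ z r - ζ0 r with hx
  set n : Z → A := fun z' => ∑ z ∈ O, N z z' with hn
  set v : ℝ := d.p.V 1 (-1) with hv
  set κ' : Z → A := fun z => algebraMap K A (d.c z : K) with hκ
  have pv := ric_pos v
  have pv' := ric_pos (-v)
  have cv := ric_cancel v
  have pC := ric_pos (-(4 / 5 : ℝ))
  have sp : ∀ a b : ℝ, (2 : ℝ) ^ (a - b) = 2 ^ a * 2 ^ (-b) := fun a b => by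
    rw [sub_eq_add_neg, Real.rpow_add two_pos]
  have xU : ∀ r, ‖x r‖ ≤ (C + 8) * 2 ^ d.p.Ui r := fun r => by
    have p := ric_pos (d.p.Ui r)
    refine ric_sub (IsUltrametricDist.norm_sum_le_of_forall_le_of_nonneg (by positivity)
      fun z _ => (hζ.le z r).trans ?_) ((nbs_four (nbs_U d.p) h0 r).trans ?_) <;> nlinarith
  have xV : RowB d.p.Vi x := nbs_row d.p (by positivity) xU
  have hR : ∀ r, ‖d.R0 O ζ0 r‖ ≤ 2 ^ (-(4 / 5 : ℝ)) * 2 ^ d.p.Vi r := fun r => by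
    refine (hA r).trans ?_
    rw [← Real.rpow_add two_pos]
    exact Real.rpow_le_rpow_of_exponent_le one_le_two (by linarith)
  have hρ : ∀ z r, ‖d.ρr z r‖ ≤ 2 * 2 ^ (-v) * 2 ^ d.p.Vi r := fun z r =>
    (d.ρr_le z r).trans (le_of_eq (by rw [sp]; ring))
  have hwc : ∀ z r, ‖d.wc z r‖ ≤ 1 / 2 * 2 ^ v * 2 ^ (-d.p.Vi r) := fun z r =>
    (d.wc_le z r).trans (le_of_eq (by rw [sp]; ring))
  have hM : ∀ r s, ‖d.M 1 r s‖ ≤ 2 ^ (-d.p.Ui r) * 2 ^ d.p.Vi s := fun r s =>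
    (d.M_le r s).trans (le_of_eq (by rw [sp]; ring))
  set m : Z → J × Ex 1 → A := fun z => mulv (d.M 1) (d.wc z) with hm
  have mc : ∀ z, ColB d.p.Vi (m z) := fun z => ric_mulv d.M_cc (d.wc_colB z)
  have mle : ∀ z r, ‖m z r‖ ≤ 1 / 2 * 2 ^ v * 2 ^ (-d.p.Ui r) := fun z r =>
    (ric_dot_le (V := d.p.Vi) (ric_pos _).le (by positivity) (hM r) (hwc z)).trans
      (mul_comm _ _).le
  set T : J → J × Ex 1 → A := fun j s => yi j * cutR (d.M 1) d.wc d.ρr (d.p.Ei j) s with hT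
  have Tle : ∀ j s, ‖T j s‖ ≤ 2 ^ d.p.Vi s := by
    intro j s
    have p1 := ric_pos (-d.p.Ui (d.p.Ei j))
    have p2 := ric_pos (d.p.Vi s)
    have h1 : ‖cutR (d.M 1) d.wc d.ρr (d.p.Ei j) s‖ ≤ 2 ^ (-d.p.Ui (d.p.Ei j)) * 2 ^ d.p.Vi s := by
      refine ric_sub (hM _ _) (ric_sum (by positivity) fun z => ?_)
      refine ric_mul (mle z _) (hρ z s) (le_of_eq ?_)
      linear_combination (2 ^ (-d.p.Ui (d.p.Ei j)) * 2 ^ d.p.Vi s) * cv
    have h2 : (2 : ℝ) ^ (-d.p.Ui (d.p.Ei j)) ≤ 2 ^ (-1 : ℝ) := by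
      refine Real.rpow_le_rpow_of_exponent_le one_le_two ?_
      have h3 := d.p.U_eq (a := d.p.e) (j := 0) (by simp)
      have h4 := d.p.V_e_mem.1
      simp only [Pm.Ui, Pm.Ei]
      linarith
    rw [Real.rpow_neg_one] at h2
    refine ric_mul (hyi j).2 h1 ?_
    nlinarith
  have Rw : ∀ z, ‖dot (d.R0 O ζ0) (d.wc z)‖ ≤ 2 ^ (-(4 / 5 : ℝ)) * (1 / 2 * 2 ^ v) := fun z =>
    ric_dot_le pC.le (by positivity) hR (hwc z)
  have dz : ∀ r, vmul x (d.M 1) r =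
      2 * x r - d.R0 O ζ0 r + 4 * ∑ z', n z' * (d.ρr z' r + κ' z' * ζ z' r) := fun r => by
    have := dz_eq hζ hO hε h0 r
    simp only [Algebra.smul_def] at this
    simp only [hx, hn, hκ]
    linear_combination -this
  have xw : ∀ z, dot x (d.wc z) = 0 := fun z => by
    have := (nbs_dot (O := O) hζ h0 (d.wc_colB z)).tsum_eq
    simp only [hζ.w, hw, Finset.sum_const_zero, sub_zero] at this
    exact this
  have xy : ∀ j, ‖dot x (d.yc η j)‖ ≤ 2 ^ (-(4 / 5 : ℝ)) := fun j => by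
    have h1 : dot x (d.yc η j) = _ := (nbs_dot (O := O) hζ h0 (hη.yc_colB j)).tsum_eq
    simp only [hζ.y, Finset.sum_neg_distrib] at h1
    rw [h1, ← norm_neg]
    exact (le_of_eq (by congr 1; ring)).trans (hB j)
  have nn : ∀ z, 4 * n z = dot (d.R0 O ζ0) (d.wc z) + dot x (m z) := by
    intro z
    have ht := d.wc_colB z
    have h1 : dot x (m z) = 2 * dot x (d.wc z) - dot (d.R0 O ζ0) (d.wc z) +
        4 * ∑ z', n z' * (dot (d.ρr z') (d.wc z) + κ' z' * dot (ζ z') (d.wc z)) := by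
      rw [← ric_fub d.M_cc xV ht]
      have := (((ric_hs xV ht).mul_left 2).sub (ric_hs ⟨_, hR⟩ ht)).add
        ((hasSum_sum (s := Finset.univ) fun z' _ => ((ric_hs ⟨_, hρ z'⟩ ht).add
          ((ric_hs (nbs_rζ hζ z') ht).mul_left (κ' z'))).mul_left (n z')).mul_left 4)
      refine ric_ts this fun r => ?_
      rw [dz]
      simp only [add_mul, sub_mul, Finset.sum_mul, mul_assoc]
    simp only [xw, hζ.w, d.dot_ρ_w, mul_zero, add_zero, mul_ite, mul_one, Finset.sum_ite_eq',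
      Finset.mem_univ, if_true] at h1
    linear_combination -h1
  have nle : ∀ z, ‖n z‖ ≤ C := fun z =>
    IsUltrametricDist.norm_sum_le_of_forall_le_of_nonneg C0.le fun z' _ => hζ.N_le z' z
  have four : ∀ a : A, ‖4 * a‖ = ‖a‖ / 4 := fun a => by
    rw [show 4 * a = 2 * (2 * a) by ring, syl_two d.two, syl_two d.two]
    ring
  have hκε : ∀ z, ‖κ' z‖ ≤ 1 / (2 ^ 20 * C ^ 2) := fun z => by
    have h1 := IsUltrametricDist.norm_natCast_le_one K (d.n z)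
    have h2 := hs z
    have h3 : (d.c z : K) = d.c0 * d.n z := by simp [Geo.c, Geo.c0]
    have h4 : (0 : ℝ) < 1 / (2 ^ 20 * C ^ 2) := by positivity
    simp only [hκ]
    rw [norm_algebraMap', h3, norm_mul]
    exact (mul_le_of_le_one_right (norm_nonneg _) h1).trans
      (h2.trans (mul_le_of_le_one_right h4.le h1))
  have half : (1 / 2 : ℝ) ≤ 2 ^ (-(4 / 5 : ℝ)) := by
    rw [one_div, ← Real.rpow_neg_one]
    exact Real.rpow_le_rpow_of_exponent_le one_le_two (by norm_num)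
  have key : ∀ r, ‖x r‖ ≤ 2 ^ (-(4 / 5 : ℝ)) * 2 ^ d.p.Ui r := by
    refine hD.bound (K := K) (Z := Unit) d.two (P := 1) (Pi := 1) (mul_one _) pC.le
      (ζ := fun _ => x) (fun _ => ⟨_, xU⟩) (fun _ s => ?_) ()
    have e1 : vmul x (cutL (cutR (d.M 1) d.wc d.ρr) (d.yc η) d.p.Ei yi) s = vmul x (d.M 1) s -
        ∑ z', dot x (m z') * d.ρr z' s - ∑ j, dot x (d.yc η j) * T j s := by
      have := ((ric_hs xV (ric_col d.M_cc s)).sub (hasSum_sum (s := Finset.univ) fun z' _ =>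
        (ric_hs xV (mc z')).mul_right (d.ρr z' s))).sub
        (hasSum_sum (s := Finset.univ) fun j _ => (ric_hs xV (hη.yc_colB j)).mul_right (T j s))
      refine ric_ts this fun r => ?_
      simp only [cutL, hT, hm]
      rw [cutR]
      simp only [mul_sub, Finset.mul_sum, mul_assoc]
    have e2 : 4 * ∑ z', n z' * (d.ρr z' s + κ' z' * ζ z' s) =
        ∑ z', dot (d.R0 O ζ0) (d.wc z') * d.ρr z' s + ∑ z', dot x (m z') * d.ρr z' s +
          4 * ∑ z', n z' * (κ' z' * ζ z' s) := by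
      simp only [Finset.mul_sum, ← Finset.sum_add_distrib]
      exact Finset.sum_congr rfl fun z' _ => by linear_combination d.ρr z' s * nn z'
    have e3 : 2 * ∑ z' : Unit, (1 : Matrix Unit Unit ℤ) () z' • x s -
        vmul x (cutL (cutR (d.M 1) d.wc d.ρr) (d.yc η) d.p.Ei yi) s =
        d.R0 O ζ0 s - ∑ z', dot (d.R0 O ζ0) (d.wc z') * d.ρr z' s -
          4 * ∑ z', n z' * (κ' z' * ζ z' s) + ∑ j, dot x (d.yc η j) * T j s := by
      rw [e1, dz, e2]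
      simp only [Finset.univ_unique, Finset.sum_singleton, Matrix.one_apply_eq, one_smul]
      ring
    rw [e3]
    have p := ric_pos (d.p.Vi s)
    refine ric_add (ric_sub (ric_sub (hR s) (ric_sum (by positivity) fun z' => ?_)) ?_)
      (ric_sum (by positivity) fun j => ric_mul (xy j) (Tle j s) le_rfl)
    · refine ric_mul (Rw z') (hρ z' s) (le_of_eq ?_)
      linear_combination (2 ^ (-(4 / 5 : ℝ)) * 2 ^ d.p.Vi s) * cv
    · have h1 : ‖∑ z', n z' * (κ' z' * ζ z' s)‖ ≤ 2 ^ d.p.Vi s := by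
        refine ric_sum p.le fun z' => ric_mul (nle z') (ric_mul (hκε z') (hζ.le z' s) le_rfl) ?_
        have h2 : C * (1 / (2 ^ 20 * C ^ 2) * (C * 2 ^ d.p.Ui s)) = 2 ^ d.p.Ui s / 2 ^ 20 := by
          field_simp
        have h3 := nbs_UV d.p s
        rw [h2]
        linarith
      rw [four]
      nlinarith
  refine ⟨fun r => (key r).trans (le_of_eq (by rw [sp]; ring)), fun z => ?_⟩
  have h1 : ‖4 * n z‖ ≤ 2 ^ (-(4 / 5 : ℝ)) * (1 / 2 * 2 ^ v) := by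
    rw [nn]
    exact ric_add (Rw z) (ric_dot_le pC.le (by positivity) key (mle z))
  have h2 : (2 : ℝ) ^ (1 + (-(4 / 5 : ℝ) + v)) ≤ 2 ^ (1 / 4 : ℝ) := by
    refine Real.rpow_le_rpow_of_exponent_le one_le_two ?_
    have := d.p.V_blk_mem.2
    linarith
  rw [four] at h1
  rw [syl_pow1, Real.rpow_add two_pos] at h2
  change ‖n z‖ ≤ _
  linarith

end Pool.Agent.Lib.MP_788af2_nt.AG
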