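import Pool.Agent.Lib.MP_788af2_nt.AG.NBS

/-!
The test vector in the Sylvester equation.
-/

set_option linter.unusedSectionVars false

namespace Pool.Agent.Lib.MP_788af2_nt.AG

open Polynomial Filter Topology Pool.Agent.Lib.MP_788af2_nt.AS Pool.Agent.Lib.MP_a3f657_nt.Two

open scoped Classical

variable {K A J Z k κ I Lw : Type} [NontriviallyNormedField K] [IsUltrametricDist K]
  [CompleteSpace K] [CharZero K] [NormedCommRing A] [NormedAlgebra K A] [IsUltrametricDist A]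
  [CompleteSpace A] [NormOneClass A] [Fintype J] [Fintype Z] [DecidableEq J] [DecidableEq Z]
  [Field k] [Fintype k] [CharP k 2] [Field κ] [CharP κ 2] [IsAlgClosed κ] [Fintype I]
  [DecidableEq I] {δ : I → ℝ} [Field Lw] [CharP Lw 2]

variable {d : Dat K A J Z} {η : J → Arr A} {a₀ : J → A} {C : ℝ} {ζ : Z → J × Ex 1 → A}
  {N : Matrix Z Z A} (hη : d.IsEta η a₀) (hζ : d.IsEig η C ζ N) (hC : 1 ≤ C)
  (hs : d.Sm (1 / (2 ^ 20 * C ^ 2))) {O : Finset Z} (hO : ∀ z, d.σZ z ∈ O ↔ z ∈ O)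
  (hε : ∀ z ∈ O, d.ε z = 1) {ζ0 : J × Ex 1 → A} (h0 : ∀ r, ‖ζ0 r‖ ≤ 4)

private lemma nbs2_fin (B : ℤ) :
    {r : J × Ex 1 | r.2.1.2 = -1 ∧ r.2.1.1 ≤ B}.Finite := by
  have h1 : ((fun u : Ex 1 => u.1) ⁻¹' (Set.Icc 1 B ×ˢ {(-1 : ℤ)})).Finite :=
    ((Set.finite_Icc 1 B).prod (Set.finite_singleton _)).preimage Subtype.val_injective.injOn
  refine ((Set.finite_univ (α := J)).prod h1).subset fun r hr => ?_
  exact ⟨Set.mem_univ _, ⟨r.2.2, hr.2⟩, hr.1⟩

private lemma nbs2_UV (p : Pm) (r : J × Ex 1) : p.Ui r ≤ 1 + p.Vi r := by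
  unfold Pm.Ui Pm.Vi
  by_cases h : r.2.1.2 = 0 ∧ r.2.1.1 < p.e
  · have h1 := p.diag r.2.2 h.2
    have h2 := p.μ_pos
    rw [h.1]
    linarith
  · exact (p.U_eq h).le

private lemma nbs2_exp {x y : ℝ} (h : x ≤ y) : (2 : ℝ) ^ x ≤ 2 ^ y :=
  Real.rpow_le_rpow_of_exponent_le one_le_two h

private lemma nbs2_quarter : (1 / 4 : ℝ) = 2 ^ (-(2 : ℝ)) := by
  rw [Real.rpow_neg two_pos.le, Real.rpow_two]
  norm_num

include hζ hC hs hO hε h0 in
theorem syl_test (hdz : ∀ r, ‖∑ z ∈ O, ζ z r - ζ0 r‖ ≤ 2 ^ (d.p.Ui r - 4 / 5))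
    (hN : ∀ z', ‖∑ z ∈ O, N z z'‖ ≤ 1) {m : J × Ex 1 → A} (hm : ∀ r, ‖m r‖ ≤ 1)
    (hm0 : ∀ r : J × Ex 1, r.2.1.2 ≠ -1 ∨ 2 * (d.p.m : ℤ) + d.p.l < r.2.1.1 → m r = 0)
    (hm2 : ∀ r : J × Ex 1, r.2.1.2 = -1 → ‖mulv (d.M 1) m r - 2 * m r‖ ≤ 1 / 4) (O' : Finset Z)
    (hρ : ∀ z', ‖2 * dot (d.ρr z') m - (if z' ∈ O' then 1 else 0)‖ ≤ 1 / 2) :
    ‖2 * ∑ z' ∈ O', ∑ z ∈ O, N z z' - dot (d.R0 O ζ0) m‖ ≤ 2 ^ (-(6 / 5 : ℝ)) := by
  have hq : (1 / 4 : ℝ) ≤ 2 ^ (-(6 / 5 : ℝ)) := nbs2_quarter.trans_le (nbs2_exp (by norm_num))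
  have hl := d.p.le1
  obtain ⟨F, hF⟩ : ∃ F : Finset (J × Ex 1), ∀ r, r ∉ F → m r = 0 := by
    refine ⟨(nbs2_fin (J := J) (2 * (d.p.m : ℤ) + d.p.l)).toFinset, fun r hr => hm0 r ?_⟩
    rw [Set.Finite.mem_toFinset, Set.mem_ofPred_eq, not_and_or, not_le] at hr
    exact hr
  have hdot : ∀ x : J × Ex 1 → A, dot x m = ∑ r ∈ F, x r * m r := fun x =>
    tsum_eq_sum fun r hr => by rw [hF r hr, mul_zero]
  have hcol : ColB d.p.Vi m := by
    refine tendsto_const_nhds.congr' ?_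
    filter_upwards [F.eventually_cofinite_notMem] with r hr
    rw [hF r hr, norm_zero, zero_mul]
  set dz : J × Ex 1 → A := fun r => ∑ z ∈ O, ζ z r - ζ0 r with hdz_def
  have hrow : RowB d.p.Vi dz := by
    refine ⟨2, fun r => (hdz r).trans ?_⟩
    rw [← syl_pow1]
    exact nbs2_exp (by linarith [nbs2_UV d.p r])
  -- the left side
  have hL : ‖2 * dot dz m - dot (vmul dz (d.M 1)) m‖ ≤ 2 ^ (-(6 / 5 : ℝ)) := by
    rw [ric_fub d.M_cc hrow hcol]
    have h1 := ((ric_hs hrow hcol).mul_left 2).sub (ric_hs hrow (ric_mulv d.M_cc hcol))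
    rw [← h1.tsum_eq]
    refine IsUltrametricDist.norm_tsum_le_of_forall_le_of_nonneg (syl_pos _).le fun r => ?_
    have e : 2 * (dz r * m r) - dz r * mulv (d.M 1) m r =
        -(dz r * (mulv (d.M 1) m r - 2 * m r)) := by ring
    rw [e, norm_neg]
    by_cases h : r.2.1.2 = -1 ∧ r.2.1.1 ≤ 3 * (d.p.e : ℤ) - 5 * d.p.l
    · refine (syl_mul (hdz r) (hm2 r h.1)).trans ?_
      rw [nbs2_quarter, ← Real.rpow_add two_pos]
      refine nbs2_exp ?_
      have h2 := d.p.U_neg_one h.2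
      unfold Pm.Ui
      rw [h.1]
      linarith
    · have hz : m r = 0 := hm0 r (by omega)
      have hb : ‖mulv (d.M 1) m r - 2 * m r‖ ≤ 2 ^ (-d.p.Ui r - 2 / 5) := by
        rw [hz, mul_zero, sub_zero]
        refine IsUltrametricDist.norm_tsum_le_of_forall_le_of_nonneg (syl_pos _).le fun c => ?_
        by_cases hc : c.2.1.2 = -1 ∧ c.2.1.1 ≤ 2 * (d.p.m : ℤ) + d.p.l
        · refine (syl_mul (d.two2_M_le r c fun h3 => ?_) (hm c)).trans (mul_one _).le
          have h4 := d.p.entry_test r.2.2 h3 hc.2 h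
          unfold Pm.Ui
          rw [hc.1, sub_neg_eq_add]
          linarith
        · rw [hm0 c (by omega), mul_zero, norm_zero]
          exact (syl_pos _).le
      refine (syl_mul (hdz r) hb).trans ?_
      rw [← Real.rpow_add two_pos]
      exact nbs2_exp (by linarith)
  -- the pairing of the equation with the test vector
  have hE : 2 * dot dz m - dot (vmul dz (d.M 1)) m = dot (d.R0 O ζ0) m -
      4 * ∑ z', (∑ z ∈ O, N z z') * (dot (d.ρr z') m + (d.c z' : K) • dot (ζ z') m) := by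
    have h1 : ∀ r, (2 * dz r - vmul dz (d.M 1) r) * m r = (d.R0 O ζ0 r -
        4 * ∑ z', (∑ z ∈ O, N z z') * (d.ρr z' r + (d.c z' : K) • ζ z' r)) * m r := fun r => by
      rw [← dz_eq hζ hO hε h0 r]
    have h2 : ∀ z', dot (d.ρr z') m + (d.c z' : K) • dot (ζ z') m =
        ∑ r ∈ F, (d.ρr z' r + (d.c z' : K) • ζ z' r) * m r := fun z' => by
      rw [hdot, hdot, Finset.smul_sum, ← Finset.sum_add_distrib]
      exact Finset.sum_congr rfl fun r _ => by rw [add_mul, smul_mul_assoc]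
    simp only [h2]
    rw [hdot, hdot, hdot, Finset.mul_sum, ← Finset.sum_sub_distrib]
    have h3 : ∑ z', (∑ z ∈ O, N z z') * ∑ r ∈ F, (d.ρr z' r + (d.c z' : K) • ζ z' r) * m r =
        ∑ r ∈ F, (∑ z', (∑ z ∈ O, N z z') * (d.ρr z' r + (d.c z' : K) • ζ z' r)) * m r := by
      simp only [Finset.mul_sum (s := F), Finset.sum_mul (s := Finset.univ)]
      rw [Finset.sum_comm]
      exact Finset.sum_congr rfl fun r _ => Finset.sum_congr rfl fun z' _ => by ring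
    rw [h3, Finset.mul_sum, ← Finset.sum_sub_distrib]
    refine Finset.sum_congr rfl fun r _ => ?_
    linear_combination h1 r
  have hζm : ∀ z', ‖(d.c z' : K) • dot (ζ z') m‖ ≤ 1 := fun z' => by
    have hC0 : 0 < C := by linarith
    have h1 : ‖dot (ζ z') m‖ ≤ C * 4 := by
      refine IsUltrametricDist.norm_tsum_le_of_forall_le_of_nonneg (by positivity) fun r => ?_
      by_cases hc : r.2.1.2 = -1 ∧ r.2.1.1 ≤ 2 * (d.p.m : ℤ) + d.p.l
      · refine (syl_mul (hζ.le z' r) (hm r)).trans ?_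
        rw [mul_one]
        refine mul_le_mul_of_nonneg_left ?_ hC0.le
        have h2 := d.p.U_neg_one (a := r.2.1.1) (by omega)
        calc (2 : ℝ) ^ d.p.Ui r ≤ 2 ^ (2 : ℝ) := nbs2_exp (by
              unfold Pm.Ui
              rw [hc.1]
              linarith)
          _ = 4 := by
            rw [Real.rpow_two]
            norm_num
      · rw [hm0 r (by omega), mul_zero, norm_zero]
        positivity
    have hn : ‖(d.n z' : K)‖ ≤ 1 := IsUltrametricDist.norm_natCast_le_one K _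
    have h2 : ‖(d.c z' : K)‖ ≤ 1 / (2 ^ 20 * C ^ 2) := by
      rw [d.toGeo.c_cast, norm_mul]
      refine (mul_le_of_le_one_right (norm_nonneg _) hn).trans ((hs z').trans ?_)
      exact mul_le_of_le_one_right (by positivity) hn
    rw [norm_smul]
    refine (mul_le_mul h2 h1 (norm_nonneg _) (by positivity)).trans ?_
    rw [div_mul_eq_mul_div, one_mul, div_le_one (by positivity)]
    nlinarith
  have hR : 2 * ∑ z' ∈ O', ∑ z ∈ O, N z z' - dot (d.R0 O ζ0) m =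
      -(2 * dot dz m - dot (vmul dz (d.M 1)) m) - 2 * ∑ z', (∑ z ∈ O, N z z') *
        (2 * dot (d.ρr z') m - (if z' ∈ O' then 1 else 0) +
          2 * ((d.c z' : K) • dot (ζ z') m)) := by
    have h1 : ∑ z' ∈ O', ∑ z ∈ O, N z z' =
        ∑ z', (∑ z ∈ O, N z z') * (if z' ∈ O' then 1 else 0) := by
      simp only [mul_ite, mul_one, mul_zero]
      rw [Finset.sum_ite_mem, Finset.univ_inter]
    have h2 : ∑ z', (∑ z ∈ O, N z z') * (2 * dot (d.ρr z') m - (if z' ∈ O' then 1 else 0) +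
          2 * ((d.c z' : K) • dot (ζ z') m)) =
        2 * ∑ z', (∑ z ∈ O, N z z') * (dot (d.ρr z') m + (d.c z' : K) • dot (ζ z') m) -
          ∑ z', (∑ z ∈ O, N z z') * (if z' ∈ O' then 1 else 0) := by
      rw [Finset.mul_sum, ← Finset.sum_sub_distrib]
      exact Finset.sum_congr rfl fun z' _ => by ring
    rw [hE, h2, h1]
    ring
  rw [hR]
  refine syl_sub (by rwa [norm_neg]) (le_trans ?_ hq)
  have h5 : ‖∑ z', (∑ z ∈ O, N z z') * (2 * dot (d.ρr z') m - (if z' ∈ O' then 1 else 0) +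
      2 * ((d.c z' : K) • dot (ζ z') m))‖ ≤ 1 / 2 := by
    refine ric_sum (by norm_num) fun z' => (syl_mul (hN z') (syl_add (hρ z') ?_)).trans
      (one_mul _).le
    rw [syl_two d.two]
    linarith [hζm z']
  rw [syl_two d.two]
  linarith

end Pool.Agent.Lib.MP_788af2_nt.AG
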