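import Pool.Agent.Lib.MP_788af2_nt.AG.NBErr
import Pool.Agent.Lib.MP_788af2_nt.AG.NBElt

/-!
The test vector.
-/

set_option linter.unusedSectionVars false

namespace Pool.Agent.Lib.MP_788af2_nt.AG

open Polynomial Filter Topology Pool.Agent.Lib.MP_788af2_nt.AS Pool.Agent.Lib.MP_a3f657_nt.Two

open scoped Classical

variable {K A J Z k κ I Lw : Type} [NontriviallyNormedField K] [IsUltrametricDist K]
  [CompleteSpace K] [CharZero K] [NormedCommRing A] [NormedAlgebra K A] [IsUltrametricDist A]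
  [CompleteSpace A] [NormOneClass A] [Fintype J] [Fintype Z] [DecidableEq J] [DecidableEq Z]
  [Field k] [Fintype k] [CharP k 2] [Field κ] [CharP κ 2] [IsAlgClosed κ] [Fintype I]
  [DecidableEq I] {δ : I → ℝ} [Field Lw] [CharP Lw 2]

private lemma nbt_sum (ℓ : Lift K κ) (cb : Cube K I A δ) (em : k →+* κ) (s : Finset ℕ)
    (u u' : ℕ → G I → k) :
    ‖lf ℓ cb em (fun g => ∑ m ∈ s, ∑ h, u m h * u' m (g + h)) -
      ∑ m ∈ s, lf ℓ cb em (u m) * lf ℓ cb em (u' m)‖ ≤ 1 / 2 := by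
  have h1 := lf_sum ℓ cb em s fun m g => ∑ h, u m h * u' m (g + h)
  have h2 : ‖∑ m ∈ s, lf ℓ cb em (fun g => ∑ h, u m h * u' m (g + h)) -
      ∑ m ∈ s, lf ℓ cb em (u m) * lf ℓ cb em (u' m)‖ ≤ 1 / 2 := by
    rw [← Finset.sum_sub_distrib]
    exact IsUltrametricDist.norm_sum_le_of_forall_le_of_nonneg (by norm_num) fun m _ =>
      lf_mul ℓ cb em (u m) (u' m)
  have h3 := syl_add h1 h2
  rwa [sub_add_sub_cancel] at h3

private lemma nbt_fin (h2 : ‖(2 : K)‖ = 1 / 2) (s : Finset ℕ) {x y z : ℕ → A} {t : A}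
    (hx : ∀ m ∈ s, ‖x m - (2 : K) • y m‖ ≤ 1 / 4) (hz : ∀ m, ‖z m‖ ≤ 1)
    (ht : ‖t - ∑ m ∈ s, y m * z m‖ ≤ 1 / 2) : ‖∑ m ∈ s, x m * z m - (2 : K) • t‖ ≤ 1 / 4 := by
  have h1 : ‖∑ m ∈ s, x m * z m - (2 : K) • ∑ m ∈ s, y m * z m‖ ≤ 1 / 4 := by
    rw [Finset.smul_sum, ← Finset.sum_sub_distrib]
    refine IsUltrametricDist.norm_sum_le_of_forall_le_of_nonneg (by norm_num) fun m hm => ?_
    rw [← smul_mul_assoc, ← sub_mul]
    exact (syl_mul (hx m hm) (hz m)).trans (mul_one _).le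
  have h3 : ‖(2 : K) • (t - ∑ m ∈ s, y m * z m)‖ ≤ 1 / 4 := by
    rw [norm_smul, h2]
    linarith
  have h4 := syl_sub h1 h3
  rwa [smul_sub, sub_sub_sub_cancel_right] at h4

variable {d : Dat K A J Z} {ℓ : Lift K κ} {cb : Cube K I A δ} {a b : k[X]} {β : I → k[X]}
  {L : Lnk d.toGeo ℓ b} (X0 : Cx d ℓ cb a b β L) (T : Tw β Lw)

variable {w : k[X]} (hw : w ∈ Spl b a) {f' : Lw} (hf' : IsFt T w f')
include X0 hw hf'

lemma Cx.tv_O : T.p ((b ^ 2 ^ d.i) ^ 2) * f' ∈ T.O := by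
  obtain ⟨h1, -, h2, -⟩ := (mem_Spl X0.hP.b_ne).1 hw
  obtain ⟨-, z, hz, rfl⟩ := hf'
  obtain ⟨u, hu⟩ : w ∣ (b ^ 2 ^ d.i) ^ 2 := dvd_pow (dvd_pow h2 (by positivity)) two_ne_zero
  have h3 : T.lgE ∈ T.O := by
    have := ep_O T 0
    rwa [ep, T.σ_zero] at this
  have h4 : T.p ((b ^ 2 ^ d.i) ^ 2) * (T.lgE * (T.p (derivative w) / T.p w)) =
      T.lgE * (T.p (derivative w) * T.p u) := by
    have := T.p_ne h1.ne_zero
    rw [hu, map_mul]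
    field_simp
  rw [mul_add, h4]
  exact add_mem (mul_mem h3 (mul_mem (T.p_mem_O _) (T.p_mem_O _))) (mul_mem (T.p_mem_O _) hz)

lemma Cx.tv_dic (n : ℤ) (h : n ≤ 0 ∨ 2 * d.p.m + d.p.l < n) :
    dic T (T.P.b * (T.p ((b ^ 2 ^ d.i) ^ 2) * f')) n = 0 := by
  rcases h with h | h
  · obtain ⟨q, -, hq⟩ := dic_O T (X0.tv_O T hw hf')
    funext g
    rw [dic_b, hq, if_neg (by omega)]
    rfl
  · have h1 : T.P.b ∈ T.d.Le 1 := by
      have := T.p_mem X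
      rwa [T.p_X, natDegree_X, Nat.cast_one] at this
    have h2 := T.p_mem ((b ^ 2 ^ d.i) ^ 2)
    rw [natDegree_pow, natDegree_pow, ← X0.hm] at h2
    have h3 := T.log_le (T.mem_Fx_univ f') hf'.1
    have h4 : 0 ≤ gam β Finset.univ := Finset.sum_nonneg fun i _ => by positivity
    have h5 := X0.hl
    have h6 : (0 : ℝ) ≤ b.natDegree := Nat.cast_nonneg _
    have h7 : 2 * (d.p.m : ℝ) + d.p.l < n := by exact_mod_cast h
    refine dic_small T (DF.Le.mul h1 (DF.Le.mul h2 h3 le_rfl) le_rfl) ?_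
    push_cast
    linarith

lemma Cx.tv_psi (r : J × Ex 1) (h : r.2.1.2 = -1) :
    ‖mulv (d.M 1) (tv ℓ cb L.emb T (T.P.b * (T.p ((b ^ 2 ^ d.i) ^ 2) * f'))) r -
      2 * tv ℓ cb L.emb T (T.P.b * (T.p ((b ^ 2 ^ d.i) ^ 2) * f')) r‖ ≤ 1 / 4 := by
  have hd := X0.tv_dic T hw hf'
  have hc : T.P.c0 (T.p ((b ^ 2 ^ d.i) ^ 2) * (T.P.b * (T.p ((b ^ 2 ^ d.i) ^ 2) * f'))) =
      T.P.b * (T.p ((b ^ 2 ^ d.i) ^ 2) * f') := by
    rw [map_pow T.p _ 2, PB.c0_sq_mul, PB.c0_b_mul, PB.c1_sq_mul, hf'.1]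
    ring
  generalize T.P.b * (T.p ((b ^ 2 ^ d.i) ^ 2) * f') = Y at hd hc ⊢
  obtain ⟨j0, ⟨⟨a', k'⟩, ha'⟩⟩ := r
  obtain rfl : k' = -1 := h
  obtain ⟨j, rfl⟩ := d.σ.surjective j0
  have hz : ∀ n : ℤ, n ≤ 0 → Zl ℓ cb (L.emb j) T Y n = 0 := fun n hn => by
    rw [Zl, hd n (Or.inl hn), lf_zero]
  obtain ⟨x, hx⟩ : ∃ x : Arr A, x = fun u => if u.2 = -1 then Zl ℓ cb (L.emb j) T Y u.1 else 0 :=
    ⟨_, rfl⟩
  have e1 : mulv (d.M 1) (tv ℓ cb L.emb T Y) (d.σ j, ⟨(a', -1), ha'⟩) =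
      mulv (opm 1 d.σ d.F) (col 1 j x) (d.σ j, ⟨(a', -1), ha'⟩) := by
    unfold mulv Dat.M
    refine tsum_congr fun c => ?_
    by_cases hj : c.1 = j
    · rw [col, if_pos hj, tv, hj, hx]
    · rw [opm, if_neg fun e => hj (d.σ.injective e).symm, zero_mul, zero_mul]
  obtain ⟨N0, hN0⟩ := Finite.exists_le fun h => ((b ^ 2 ^ d.i) ^ 2 * pG β h).natDegree
  obtain ⟨N, hN1, hN3⟩ : ∃ N : ℕ, 2 * a' ≤ N ∧ N0 ≤ N := ⟨(2 * a').toNat + N0, by omega, by omega⟩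
  have hN2 := fun h => (hN0 h).trans hN3
  have e2 : conv (d.F j) x (2 * a', 2 * -1) = ∑ m ∈ Finset.range (N + 1),
      d.F j (m, -1) * Zl ℓ cb (L.emb j) T Y (2 * a' - m) := by
    have hi : Function.Injective fun m : ℕ => ((m : ℤ), (-1 : ℤ)) := fun m m' e =>
      Int.natCast_inj.1 (Prod.ext_iff.1 e).1
    rw [conv, ← hi.tsum_eq, tsum_eq_sum (s := Finset.range (N + 1))]
    · refine Finset.sum_congr rfl fun m _ => ?_
      rw [hx]
      simp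
    · intro m hm
      have := Finset.mem_range.not.1 hm
      rw [hx]
      simp only [Prod.mk_sub_mk]
      rw [hz _ (by omega), ite_self, mul_zero]
    · rintro ⟨v1, v2⟩ hv
      by_contra hr
      refine hv ?_
      beta_reduce
      by_cases h1 : v1 < 0
      · rw [d.F_supp j _ h1, zero_mul]
      · rw [hx]
        simp only [Prod.mk_sub_mk]
        rw [if_neg fun e => hr ⟨v1.toNat, Prod.ext (by simp only; omega) (by simp only; omega)⟩,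
          mul_zero]
  have e3 : ∀ y : A, 2 * y = (2 : K) • y := fun y => by rw [two_mul, two_smul]
  have e4 : tv ℓ cb L.emb T Y (d.σ j, ⟨(a', -1), ha'⟩) = Zl ℓ cb (L.emb (d.σ j)) T Y a' :=
    if_pos rfl
  have e5 : ∀ u : ℤ × ℤ, u.1 < 1 → x u = 0 := fun u hu => by
    rw [hx]
    simp only
    rw [hz _ (by omega), ite_self]
  have e6 : psi (conv (d.F j) x) (a', -1) = conv (d.F j) x (2 * a', 2 * -1) := rfl
  rw [e1, mulv_col e5, if_pos rfl, e6, e2, e3, e4]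
  refine nbt_fin d.two _ (fun m _ => X0.Fm1a j m) (fun m => Zl_le _) ?_
  have h1 := nbt_sum ℓ cb (L.emb j) (Finset.range (N + 1))
    (fun m h => ((b ^ 2 ^ d.i) ^ 2 * pG β h).coeff m) fun m => dic T Y (2 * a' - m)
  simp only [dic_psi T _ hN2, hc] at h1
  rw [Zl, lf_sq ℓ cb (L.emb j) (L.emb_σ j)]
  exact h1

lemma Cx.tv_pair {R : J × Ex 1 → A} {u : Lw}
    (hR : ∀ (j : J) (n : ℤ) (h : 1 ≤ n), n ≤ 2 * d.p.m + d.p.l →
      ‖R (j, ⟨(n, -1), h⟩) - (2 : K) • Zl ℓ cb (L.emb j) T u (-n)‖ ≤ 1 / 4) :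
    ‖dot R (tv ℓ cb L.emb T (T.P.b * (T.p ((b ^ 2 ^ d.i) ^ 2) * f'))) - (2 : K) • ∑ j,
      lf ℓ cb (L.emb j) (fun g => Cf T (-1) (T.σ g u * (T.p ((b ^ 2 ^ d.i) ^ 2) * f')))‖ ≤ 1 / 4 := by
  have hd := X0.tv_dic T hw hf'
  have hO : T.P.b * (T.p ((b ^ 2 ^ d.i) ^ 2) * f') ∈ T.O :=
    mul_mem (T.p_X ▸ T.p_mem_O X) (X0.tv_O T hw hf')
  have hc : ∀ g, Cf T (-1) (T.σ g u * (T.p ((b ^ 2 ^ d.i) ^ 2) * f')) =
      Cf T 0 (T.σ g u * (T.P.b * (T.p ((b ^ 2 ^ d.i) ^ 2) * f'))) := fun g => by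
    rw [mul_left_comm _ T.P.b, Cf_b, zero_sub]
  simp only [hc]
  generalize T.P.b * (T.p ((b ^ 2 ^ d.i) ^ 2) * f') = Y at hd hO ⊢
  obtain ⟨N, hN⟩ : ∃ N, N = 2 * d.p.m + d.p.l := ⟨_, rfl⟩
  have hp := fun g => dic_pair T hO (N := N) (fun n hn => hd n (Or.inr (by omega))) u g
  have hi : Function.Injective fun c : J × ℕ =>
      ((c.1, ⟨((c.2 : ℤ) + 1, -1), by simp only; omega⟩) : J × Ex 1) := fun c c' e => by
    have h1 := Prod.ext_iff.1 e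
    have h2 := (Prod.ext_iff.1 (Subtype.ext_iff.1 h1.2)).1
    exact Prod.ext h1.1 (by simp only at h2; omega)
  have e1 : dot R (tv ℓ cb L.emb T Y) = ∑ j, ∑ m ∈ Finset.range N,
      R (j, ⟨((m : ℤ) + 1, -1), by simp only; omega⟩) * Zl ℓ cb (L.emb j) T Y (m + 1) := by
    rw [dot, ← hi.tsum_eq, tsum_eq_sum (s := Finset.univ ×ˢ Finset.range N), Finset.sum_product]
    · refine Finset.sum_congr rfl fun j _ => Finset.sum_congr rfl fun m _ => ?_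
      rw [tv, if_pos rfl]
    · rintro ⟨j, m⟩ hm
      have : ¬ m < N := fun h => hm (Finset.mem_product.2 ⟨Finset.mem_univ _, Finset.mem_range.2 h⟩)
      rw [tv, if_pos rfl, Zl, hd _ (Or.inr (by simp only; omega)), lf_zero, mul_zero]
    · rintro ⟨j, ⟨⟨v1, v2⟩, hv1⟩⟩ hv
      by_contra hr
      refine hv ?_
      beta_reduce
      rw [tv, if_neg fun e => hr ⟨(j, (v1 - 1).toNat), Prod.ext rfl (Subtype.ext (Prod.ext
        (by simp only at hv1 ⊢; omega) (by simp only at e ⊢; omega)))⟩, mul_zero]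
  rw [e1, Finset.smul_sum, ← Finset.sum_sub_distrib]
  refine ric_sum (by norm_num) fun j => ?_
  refine nbt_fin d.two _ (y := fun m => Zl ℓ cb (L.emb j) T u (-((m : ℤ) + 1)))
    (fun m hm => hR j _ _ (by have := Finset.mem_range.1 hm; omega)) (fun m => Zl_le _) ?_
  have h1 := nbt_sum ℓ cb (L.emb j) (Finset.range (N + 1)) (fun m => dic T u (-m))
    fun m => dic T Y m
  simp only [hp] at h1
  rw [Finset.sum_range_succ', Nat.cast_zero, hd 0 (Or.inl le_rfl), lf_zero, mul_zero,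
    add_zero] at h1
  exact h1

end Pool.Agent.Lib.MP_788af2_nt.AG
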