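import Pool.Agent.Lib.MP_788af2_nt.AG.NBT

/-!
The test vector against the residues.
-/

set_option linter.unusedSectionVars false

namespace Pool.Agent.Lib.MP_788af2_nt.AG

open Polynomial Filter Topology Pool.Agent.Lib.MP_788af2_nt.AS Pool.Agent.Lib.MP_a3f657_nt.Two

open scoped Classical

variable {K A J Z k κ I Lw : Type} [NontriviallyNormedField K] [IsUltrametricDist K]
  [CompleteSpace K] [CharZero K] [NormedCommRing A] [NormedAlgebra K A] [IsUltrametricDist A]
  [CompleteSpace A] [NormOneClass A] [Fintype J] [Fintype Z] [DecidableEq J] [DecidableEq Z]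
  [Field k] [Fintype k] [CharP k 2] [Field κ] [CharP κ 2] [IsAlgClosed κ] [Fintype I]
  [DecidableEq I] {δ : I → ℝ} [Field Lw] [CharP Lw 2]

lemma nbt3_div (d : Dat K A J Z) (z : Z) : d.lam (d.jz z) /ₘ (X - C (d.β z)) =
    (X - C (d.β z)) ^ (d.c z - 1) * d.lamz z := by
  have h := d.c_pos z
  have e : (X - C (d.β z)) ^ d.c z * d.lamz z =
      (X - C (d.β z)) * ((X - C (d.β z)) ^ (d.c z - 1) * d.lamz z) := by
    rw [← mul_assoc, ← pow_succ', Nat.sub_add_cancel h]
  rw [d.lam_eq, e, mul_divByMonic_cancel_left _ (monic_X_sub_C _)]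

lemma nbt3_dvd (d : Dat K A J Z) (O : Finset Z) (z' : Z) : (X - C (d.β z')) ^ d.c z' ∣
    ∑ z ∈ O.filter (fun z => d.jz z = d.jz z'), d.lam (d.jz z') /ₘ (X - C (d.β z)) -
      if z' ∈ O then (X - C (d.β z')) ^ (d.c z' - 1) * d.lamz z' else 0 := by
  have e : (if z' ∈ O then (X - C (d.β z')) ^ (d.c z' - 1) * d.lamz z' else 0) =
      ∑ z ∈ O.filter (fun z => d.jz z = d.jz z'),
        if z = z' then (X - C (d.β z')) ^ (d.c z' - 1) * d.lamz z' else 0 := by
    rw [Finset.sum_ite_eq']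
    simp
  rw [e, ← Finset.sum_sub_distrib]
  refine Finset.dvd_sum fun z hz => ?_
  have hj := (Finset.mem_filter.1 hz).2
  split_ifs with h
  · rw [h, nbt3_div, sub_self]
    exact dvd_zero _
  · rw [sub_zero, ← hj, nbt3_div]
    refine Dvd.dvd.mul_left (Dvd.dvd.mul_left ?_ _) _
    exact Finset.dvd_prod_of_mem (fun z'' => (X - C (d.β z'')) ^ d.c z'')
      (Finset.mem_filter.2 ⟨Finset.mem_univ z', hj.symm, Ne.symm h⟩)

lemma nbt3_pair (d : Dat K A J Z) (z : Z) (p : Prop) [Decidable p] {P : K[X]} {N : ℕ}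
    (hN : P.natDegree < N) (h : (X - C (d.β z)) ^ d.c z ∣
      P - if p then (X - C (d.β z)) ^ (d.c z - 1) * d.lamz z else 0) :
    ∑ n ∈ Finset.range N, d.ρ z (-(n + 1 : ℕ), 1) * algebraMap K A (P.coeff n) =
      if p then d.o.I 1 • PowerSeries.coeff 0 (d.κ z) else 0 := by
  have e1 : ∑ n ∈ Finset.range N, d.ρ z (-(n + 1 : ℕ), 1) * algebraMap K A (P.coeff n) =
      ∑ n ∈ (P.map (algebraMap K A)).support,
        d.ρ z (-(n + 1 : ℕ), 1) * (P.map (algebraMap K A)).coeff n := by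
    simp only [← coeff_map]
    refine (Finset.sum_subset (fun n hn => Finset.mem_range.2 ?_) fun n _ hn => ?_).symm
    · exact ((le_natDegree_of_mem_supp n hn).trans natDegree_map_le).trans_lt hN
    · rw [notMem_support_iff.1 hn, mul_zero]
  obtain ⟨R, hR⟩ := h
  have hc := d.c_pos z
  have e2 : taylor (d.β z) (X - C (d.β z) : K[X]) = X := by
    rw [map_sub, taylor_X, taylor_C, add_sub_cancel_right]
  have e3 : PowerSeries.constantCoeff ((taylor (d.β z) (d.lamz z) : K[X]) : PowerSeries K) ≠ 0 := by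
    rw [← PowerSeries.coeff_zero_eq_constantCoeff_apply, Polynomial.coeff_coe, taylor_coeff_zero,
      ← norm_ne_zero_iff, d.lamz_eval]
    exact one_ne_zero
  have e4 := PowerSeries.inv_mul_cancel _ e3
  rw [e1, d.ρ_poly, ← map_taylor, polynomial_map_coe, mul_assoc, ← map_mul,
    sub_eq_iff_eq_add.1 hR, map_add, taylor_mul, taylor_pow, e2]
  set U : PowerSeries K := ((taylor (d.β z) (d.lamz z) : K[X]) : PowerSeries K)⁻¹
  have e5 : PowerSeries.coeff (d.c z - 1) (d.κ z * PowerSeries.map (algebraMap K A)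
      (U * ((X ^ d.c z * taylor (d.β z) R : K[X]) : PowerSeries K))) = 0 := by
    rw [Polynomial.coe_mul, Polynomial.coe_pow, Polynomial.coe_X, mul_left_comm U,
      map_mul (PowerSeries.map (algebraMap K A)), map_pow, PowerSeries.map_X, mul_left_comm,
      PowerSeries.coeff_X_pow_mul', if_neg (by omega)]
  rw [Polynomial.coe_add, mul_add, map_add, mul_add, map_add, e5, zero_add]
  split_ifs
  · rw [taylor_mul, taylor_pow, e2, Polynomial.coe_mul, Polynomial.coe_pow, Polynomial.coe_X,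
      mul_left_comm U, e4, mul_one, map_pow, PowerSeries.map_X, PowerSeries.coeff_mul_X_pow',
      if_pos le_rfl, Nat.sub_self]
  · simp

lemma nbt3_lift (ℓ : Lift K κ) (p : κ[X]) : ∃ P : K[X], Red ℓ P p := by
  refine ⟨∑ n ∈ p.support, monomial n (ℓ.τ (p.coeff n)), fun n => ?_⟩
  rw [finsetSum_coeff]
  simp only [coeff_monomial, Finset.sum_ite_eq', mem_support_iff]
  split_ifs with h
  · simp
  · rw [not_not.1 h]
    simp

lemma nbt3_dot (d : Dat K A J Z) (ℓ : Lift K κ) (cb : Cube K I A δ) (emb : J → k →+* κ)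
    {β : I → k[X]} (T : Tw β Lw) {Y : Lw} {q : G I → k[X]} (hq : ∀ g, T.tr (Y * ep T g) = T.p (q g))
    {N : ℕ} (hN : ∀ g, (q g).natDegree < N) (z : Z) :
    dot (d.ρr z) (tv ℓ cb emb T (T.P.b * Y)) = ∑ n ∈ Finset.range N,
      d.ρ z (-(n + 1 : ℕ), 1) * lf ℓ cb (emb (d.jz z)) fun g => (q g).coeff n := by
  have hd : ∀ n : ℕ, dic T (T.P.b * Y) (n + 1 : ℕ) = fun g => (q g).coeff n := by
    intro n
    funext g
    rw [dic_b, dic, Cf_poly T (hq g), if_pos (by omega)]
    congr 1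
    omega
  let e : ℕ ↪ J × Ex 1 := ⟨fun n => (d.jz z, ⟨(((n + 1 : ℕ) : ℤ), -1), by simp only; omega⟩), by
    intro n m h
    simp only [Prod.mk.injEq, Subtype.mk.injEq] at h
    omega⟩
  unfold dot
  rw [tsum_eq_sum (s := (Finset.range N).map e), Finset.sum_map]
  · refine Finset.sum_congr rfl fun n _ => ?_
    simp only [e, Function.Embedding.coeFn_mk, Dat.ρr, row, tv, Zl, hd, if_true, Prod.neg_mk,
      neg_neg]
  · rintro ⟨j, ⟨m, k'⟩, hm⟩ hr
    simp only [Dat.ρr, row, tv, Zl]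
    split_ifs with h1 h2
    · obtain ⟨n, rfl⟩ : ∃ n : ℕ, m = (n + 1 : ℕ) := ⟨(m - 1).toNat, by simp only at hm; omega⟩
      subst h1 h2
      have hn : N ≤ n := by
        by_contra h
        exact hr (Finset.mem_map.2 ⟨n, Finset.mem_range.2 (not_le.1 h), rfl⟩)
      have h0 : (fun g => (q g).coeff n) = 0 :=
        funext fun g => coeff_eq_zero_of_natDegree_lt ((hN g).trans_le hn)
      rw [hd, h0, lf_zero, mul_zero]
    · exact mul_zero _
    · exact zero_mul _
    · exact zero_mul _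

variable {d : Dat K A J Z} {ℓ : Lift K κ} {cb : Cube K I A δ} {a b : k[X]} {β : I → k[X]}
  {L : Lnk d.toGeo ℓ b} (X0 : Cx d ℓ cb a b β L) (T : Tw β Lw)

variable {w : k[X]} (hw : w ∈ Spl b a) {f' : Lw} (hf' : IsFt T w f')
include X0 hw hf'

lemma Cx.tv_ρ (z' : Z) :
    ‖2 * dot (d.ρr z') (tv ℓ cb L.emb T (T.P.b * (T.p ((b ^ 2 ^ d.i) ^ 2) * f'))) -
      (if z' ∈ L.ov w then 1 else 0)‖ ≤ 1 / 2 := by
  have _ := X0
  obtain ⟨w1, w2, w3, -⟩ := (mem_Spl L.ne).1 hw
  have hs : w ∣ (b ^ 2 ^ d.i) ^ 2 :=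
    (w3.trans (dvd_pow_self b (by positivity))).trans (dvd_pow_self _ two_ne_zero)
  obtain ⟨u, hu⟩ := hs
  choose o ho using tr_ft T hf'
  choose Po hPo using fun g => nbt3_lift ℓ ((o g).map (L.emb (d.jz z')))
  set q : G I → k[X] := fun g =>
    (if g = 0 then derivative w * u else 0) + (b ^ 2 ^ d.i) ^ 2 * o g with hq
  set Q : G I → K[X] := fun g => (if g = 0 then ∑ z ∈ (L.ov w).filter (fun z => d.jz z = d.jz z'),
    d.lam (d.jz z') /ₘ (X - C (d.β z)) else 0) + d.lam (d.jz z') * Po g with hQ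
  have htr : ∀ g, T.tr (T.p ((b ^ 2 ^ d.i) ^ 2) * f' * ep T g) = T.p (q g) := by
    intro g
    have h0 := T.p_ne w1.ne_zero
    rw [mul_assoc, T.tr_fix_mul (fun g => T.σ_p g _), ho, hq]
    simp only [map_add, mul_add, ← map_mul]
    congr 1
    split_ifs
    · rw [hu, map_mul, map_mul]
      field_simp
    · simp
  have hred : ∀ g, Red ℓ (Q g) ((q g).map (L.emb (d.jz z'))) := by
    intro g
    simp only [hq, hQ, Polynomial.map_add]
    refine Red.add ?_ ?_
    · split_ifs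
      · exact L.div_red w1 w2 w3 hu.symm _
      · intro n
        simp
    · rw [Polynomial.map_mul]
      exact (L.lam_red _).mul (hPo g)
  obtain ⟨N, hN⟩ : ∃ N : ℕ, ∀ g, (q g).natDegree < N ∧ (Q g).natDegree < N := by
    obtain ⟨N, h⟩ := Finite.exists_le fun g => max (q g).natDegree (Q g).natDegree
    exact ⟨N + 1, fun g => ⟨Nat.lt_succ_of_le ((le_max_left _ _).trans (h g)),
      Nat.lt_succ_of_le ((le_max_right _ _).trans (h g))⟩⟩
  have hS : ∀ g, ∑ n ∈ Finset.range N, d.ρ z' (-(n + 1 : ℕ), 1) * algebraMap K A ((Q g).coeff n) =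
      if g = 0 ∧ z' ∈ L.ov w then d.o.I 1 • PowerSeries.coeff 0 (d.κ z') else 0 := by
    intro g
    refine nbt3_pair d z' _ (hN g).2 ?_
    have h1 : (X - C (d.β z')) ^ d.c z' ∣ d.lam (d.jz z') * Po g :=
      Dvd.dvd.mul_right ⟨_, d.lam_eq z'⟩ _
    simp only [hQ]
    rw [add_sub_right_comm]
    refine dvd_add ?_ h1
    by_cases hg : g = 0
    · simp only [hg, true_and, if_true]
      exact nbt3_dvd d _ z'
    · simp [hg]
  have hΛ : ∑ n ∈ Finset.range N, d.ρ z' (-(n + 1 : ℕ), 1) * ∑ g, (Q g).coeff n • cb.γ g =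
      if z' ∈ L.ov w then d.o.I 1 • PowerSeries.coeff 0 (d.κ z') else 0 := by
    simp only [Finset.mul_sum, Algebra.smul_def ((Q _).coeff _), ← mul_assoc]
    rw [Finset.sum_comm]
    simp only [← Finset.sum_mul, hS]
    rw [Finset.sum_eq_single 0 (fun g _ hg => by simp [hg]) (by simp), cb.γ_zero, mul_one]
    simp
  have hE : ‖dot (d.ρr z') (tv ℓ cb L.emb T (T.P.b * (T.p ((b ^ 2 ^ d.i) ^ 2) * f'))) -
      if z' ∈ L.ov w then d.o.I 1 • PowerSeries.coeff 0 (d.κ z') else 0‖ ≤ 1 := by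
    rw [nbt3_dot d ℓ cb L.emb T htr (fun g => (hN g).1), ← hΛ, ← Finset.sum_sub_distrib]
    refine IsUltrametricDist.norm_sum_le_of_forall_le_of_nonneg zero_le_one fun n _ => ?_
    rw [← mul_sub, lf, ← Finset.sum_sub_distrib]
    have h1 : ‖d.ρ z' (-(n + 1 : ℕ), 1)‖ ≤ 2 := by simpa using d.ρ_le z' (-(n + 1 : ℕ), 1)
    refine (syl_mul h1 (ric_sum (D := 1 / 2) (by norm_num) fun g => ?_)).trans (by norm_num)
    rw [← sub_smul, norm_smul, norm_sub_rev, ← coeff_map]
    exact (mul_le_of_le_one_right (norm_nonneg _) (cb.γ_le g)).trans (hred g n)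
  have h2 : ‖(2 : A) * (if z' ∈ L.ov w then d.o.I 1 • PowerSeries.coeff 0 (d.κ z') else 0) -
      (if z' ∈ L.ov w then 1 else 0)‖ ≤ 1 / 2 := by
    split_ifs
    · have e : (2 : A) * (d.o.I 1 • PowerSeries.coeff 0 (d.κ z')) - 1 =
          (2 * d.o.I 1 - 1) • PowerSeries.coeff 0 (d.κ z') + (PowerSeries.coeff 0 (d.κ z') - 1) := by
        rw [sub_smul, one_smul, mul_smul, two_smul, two_mul]
        abel
      have h3 : ‖PowerSeries.coeff 0 (d.κ z')‖ ≤ 1 := by
        have := syl_add ((d.κ_zero z').trans (by norm_num : (1 / 2 : ℝ) ≤ 1)) (norm_one (α := A)).le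
        rwa [sub_add_cancel] at this
      rw [e]
      refine syl_add ?_ (d.κ_zero z')
      rw [norm_smul]
      exact (mul_le_of_le_one_right (norm_nonneg _) h3).trans d.o.I_one
    · simp
  have h4 := syl_two d.two (dot (d.ρr z') (tv ℓ cb L.emb T
    (T.P.b * (T.p ((b ^ 2 ^ d.i) ^ 2) * f'))) -
      if z' ∈ L.ov w then d.o.I 1 • PowerSeries.coeff 0 (d.κ z') else 0)
  have h5 := syl_add (h4.le.trans (by linarith : _ ≤ (1 / 2 : ℝ))) h2
  rwa [mul_sub, sub_add_sub_cancel] at h5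

end Pool.Agent.Lib.MP_788af2_nt.AG
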