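import Pool.Agent.Lib.MP_788af2_nt.AG.NBA0
import Pool.Agent.Lib.MP_788af2_nt.AG.NBA1
import Pool.Agent.Lib.MP_788af2_nt.AG.NBA2
import Pool.Agent.Lib.MP_788af2_nt.AG.NBB
import Pool.Agent.Lib.MP_788af2_nt.AG.NBS2
import Pool.Agent.Lib.MP_788af2_nt.AG.NBT3

/-!
The slope one matrix reduces to the pairing matrix.
-/

set_option linter.unusedSectionVars false

namespace Pool.Agent.Lib.MP_788af2_nt.AG

open Polynomial Filter Topology Pool.Agent.Lib.MP_788af2_nt.AS Pool.Agent.Lib.MP_a3f657_nt.Two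

open scoped Classical

variable {K A J Z k κ I Lw : Type} [NontriviallyNormedField K] [IsUltrametricDist K]
  [CompleteSpace K] [CharZero K] [NormedCommRing A] [NormedAlgebra K A] [IsUltrametricDist A]
  [CompleteSpace A] [NormOneClass A] [Fintype J] [Fintype Z] [DecidableEq J] [DecidableEq Z]
  [Field k] [Fintype k] [CharP k 2] [Field κ] [CharP κ 2] [IsAlgClosed κ] [Fintype I]
  [DecidableEq I] {δ : I → ℝ} [Field Lw] [CharP Lw 2]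

private lemma nb_pow {x y : ℝ} (h : x ≤ y) : (2 : ℝ) ^ x ≤ 2 ^ y :=
  Real.rpow_le_rpow_of_exponent_le one_le_two h

private lemma nb_co (ℓ : Lift K κ) (cb : Cube K I A δ) (hδ : ∑ i, δ i ≤ 1 / 10) {x : A} {t : ℝ}
    {n : ℤ} (hx : ‖x‖ ≤ 2 ^ t) (ht : t + 1 / 10 < n + 1) (g : G I) : ‖cb.co x g‖ ≤ 2 ^ n := by
  refine le_of_lt_two ℓ ((cb.co_le x g).trans_lt ?_)
  calc (2 : ℝ) ^ (∑ i, δ i) * ‖x‖ ≤ 2 ^ (1 / 10 : ℝ) * 2 ^ t :=
        mul_le_mul (nb_pow hδ) hx (norm_nonneg _) (syl_pos _).le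
    _ = 2 ^ (1 / 10 + t) := (Real.rpow_add two_pos _ _).symm
    _ < 2 ^ (((n + 1 : ℤ) : ℝ)) :=
        Real.rpow_lt_rpow_of_exponent_lt one_lt_two (by push_cast; linarith)
    _ = 2 ^ (n + 1) := Real.rpow_intCast _ _

theorem nbar {d : Dat K A J Z} {ℓ : Lift K κ} {cb : Cube K I A δ} {a b : k[X]} {β : I → k[X]}
    {L : Lnk d.toGeo ℓ b} (c : Con d ℓ cb a b β L) (T : Tw β Lw)
    (hP : Par β b (b ^ 2 ^ d.i) d.p.e) (ha : a.natDegree = d.p.e)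
    (hm : d.p.m = 2 ^ d.i * b.natDegree)
    (hl : 20 * gam β Finset.univ + 10 * b.natDegree + 20 ≤ d.p.l) (hδ0 : ∀ i, 0 ≤ δ i)
    (hδ : ∑ i, δ i ≤ 1 / 10) {ft : Spl b a → Lw} (hft : ∀ v, T.P.c1 (ft v) = ft v ∧
      ∃ z ∈ T.O, ft v = T.lgE * (T.p (derivative v.1) / T.p v.1) + z)
    {η : J → Arr A} {a₀ : J → A} {C : ℝ} {ζ : Z → J × Ex 1 → A} {N : Matrix Z Z A}
    (hη : d.IsEta η a₀) (hζ : d.IsEig η C ζ N) (hC : 1 ≤ C) (hs : d.Sm (1 / (2 ^ 20 * C ^ 2)))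
    (v w : Spl b a) (g : G I) :
    ‖cb.co ((((L.Em (Spl b a)).map (Int.cast : ℤ → A)).transpose * N *
      (L.Em (Spl b a)).map (Int.cast : ℤ → A)) v w) g -
        ((T.Bm a (b ^ 2 ^ d.i) ft g v w).val : K)‖ ≤ 1 / 2 := by
  have hsm : d.Sm (1 / 2 ^ 20) := fun z => (hs z).trans (mul_le_mul_of_nonneg_right
    (one_div_le_one_div_of_le (by positivity)
      (le_mul_of_one_le_right (by positivity) (one_le_pow₀ hC))) (norm_nonneg _))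
  let X0 : Cx d ℓ cb a b β L := ⟨c, hP, ha, hm, hl, hδ0, hδ, hsm⟩
  have hf : IsFt T v.1 (ft v) := hft v
  have hf' : IsFt T w.1 (ft w) := hft w
  obtain ⟨hW, h0⟩ := ft_Wl T hP.b_ne v.2 hf
  obtain ⟨hW', -⟩ := ft_Wl T hP.b_ne w.2 hf'
  obtain ⟨E, hE⟩ := exists_elt T (A2 := X0.c.A2) (l := d.p.l) hP ha hW h0
    (by rw [X0.deg_s]; exact d.p.le1) hl X0.c.A2_D
  have hO : ∀ z, d.σZ z ∈ L.ov v.1 ↔ z ∈ L.ov v.1 := L.ov_σ v.1
  have hε : ∀ z ∈ L.ov v.1, d.ε z = 1 := fun z hz => X0.ε_one v.2 hz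
  have hz0 : ∀ r, ‖E.rw0 ℓ cb L.emb r‖ ≤ 4 := fun r => E.arr_le _
  have hA : ∀ r, ‖d.R0 (L.ov v.1) (E.rw0 ℓ cb L.emb) r‖ ≤ 2 ^ (d.p.Vi r - 9 / 10) := by
    rintro ⟨j, ⟨n, k₀⟩, h⟩
    have h' : 1 ≤ n := h
    have hq := d.p.Rq_le k₀ h'
    have key : ∀ x : ℝ, x ≤ 2 ^ (-(d.p.Rq n k₀ : ℝ)) →
        x ≤ 2 ^ (d.p.Vi (j, (⟨(n, k₀), h⟩ : Ex 1)) - 9 / 10) := fun x hx =>
      hx.trans (nb_pow (by simp only [Pm.Vi]; linarith))
    by_cases h2 : 2 ≤ |k₀|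
    · exact X0.A_far T v.2 hf E _ h2
    have h3 : k₀ = 0 ∨ k₀ = 1 ∨ k₀ = -1 := by
      rw [not_le, abs_lt] at h2
      omega
    rcases h3 with rfl | rfl | rfl
    · exact key _ (X0.A_zero T v.2 hf E j n h')
    · exact key _ (X0.A_one T v.2 hf E j n h')
    · exact key _ (X0.A_neg_one T v.2 hf E j n h')
  obtain ⟨hdz, hN⟩ := syl_dz hη hζ hC hs hO hε hz0 ℓ (X0.kill_w T v.2 hf E) hA
    (X0.claimB T v.2 hf E hη)
  have hN1 : ∀ z', ‖∑ z ∈ L.ov v.1, N z z'‖ ≤ 1 := fun z' =>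
    norm_le_of_co cb zero_le_one fun g' => by
      simpa using nb_co ℓ cb hδ (n := 0) (hN z') (by norm_num) g'
  have h1 := syl_test hζ hC hs hO hε hz0 hdz hN1
    (m := tv ℓ cb L.emb T (T.P.b * (T.p ((b ^ 2 ^ d.i) ^ 2) * ft w)))
    (fun r => by
      unfold tv
      split_ifs
      · exact Zl_le _
      · simp)
    (fun r hr => by
      unfold tv
      split_ifs with h
      · rcases hr with hr | hr
        · exact absurd h hr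
        · rw [Zl, X0.tv_dic T w.2 hf' _ (Or.inr hr), lf_zero]
      · rfl)
    (X0.tv_psi T w.2 hf') (L.ov w.1) (X0.tv_ρ T w.2 hf')
  have h2 := X0.tv_pair T w.2 hf' (X0.A_test T v.2 hf E)
  rw [L.Em_sum]
  set S : A := ∑ z' ∈ L.ov w.1, ∑ z ∈ L.ov v.1, N z z' with hS
  set u : Lw := T.p a * E.z0 ^ 2 + E.z1 ^ 2 + T.p (a * (b ^ 2 ^ d.i) ^ 2) * E.y ^ 2 with hu
  set cf : G I → k := fun g => Cf T (-1) (T.σ g u * (T.p ((b ^ 2 ^ d.i) ^ 2) * ft w)) with hcf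
  have h3 : ‖(2 : K) • (S - ∑ j, lf ℓ cb (L.emb j) cf)‖ ≤ 2 ^ (-(6 / 5 : ℝ)) := by
    have h4 : (1 / 4 : ℝ) ≤ 2 ^ (-(6 / 5 : ℝ)) := by
      have : (2 : ℝ) ^ (-(2 : ℝ)) = 1 / 4 := by
        rw [Real.rpow_neg zero_le_two, Real.rpow_two]
        norm_num
      rw [← this]
      exact nb_pow (by norm_num)
    have h5 := syl_add h1 (h2.trans h4)
    convert h5 using 2
    rw [smul_sub, two_smul K S]
    ring
  have h6 := nb_co ℓ cb hδ (n := -2) h3 (by norm_num) g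
  rw [map_smul, Pi.smul_apply, smul_eq_mul, norm_mul, ℓ.two, map_sub,
    map_sum cb.co _ Finset.univ, Pi.sub_apply, Finset.sum_apply] at h6
  rw [Finset.sum_congr rfl fun j _ => co_lf ℓ cb (L.emb j) cf g] at h6
  have h7 : ‖cb.co S g - ∑ j, ℓ.τ (L.emb j (cf g))‖ ≤ 1 / 2 := by
    have : (2 : ℝ) ^ (-2 : ℤ) = 1 / 4 := by norm_num
    linarith
  have h8 := sum_emb ℓ L.emb d.σ L.emb_σ (cf g)
  have h9 : tr k (cf g) = T.Bm a (b ^ 2 ^ d.i) ft g v w := by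
    rw [hcf, ← R_Cf]
    exact hE g _ hW'
  rw [h9] at h8
  have := (IsUltrametricDist.norm_add_le_max _ _).trans (max_le h7 h8)
  rwa [sub_add_sub_cancel] at this

end Pool.Agent.Lib.MP_788af2_nt.AG
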