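import Pool.Agent.Lib.MP_788af2_nt.AG.Base

/-!
Logarithmic derivatives and the integrality of the splitting series.
-/

set_option linter.unusedSectionVars false

namespace Pool.Agent.Lib.MP_788af2_nt.AG

open PowerSeries

section ld

variable {F : Type} [Field F] [CharZero F]

lemma oa_coeff (f : F⟦X⟧) (n : ℕ) : coeff n (X * derivative F f) = n * coeff n f := by
  rcases n with _ | n
  · simp
  · rw [coeff_succ_X_mul, coeff_derivative]
    push_cast
    ring

/-- `l` is the logarithmic derivative of `f`. -/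
def LD (f l : F⟦X⟧) : Prop := coeff 0 f = 1 ∧ X * derivative F f = l * f

/-- The solution of the recursion. -/
noncomputable def oaE (l : ℕ → F) (n : ℕ) : F :=
  if n = 0 then 1 else (∑ k : Fin n, l (n - k) * oaE l k) / n
termination_by n
decreasing_by exact k.2

lemma oa_mul (l f : F⟦X⟧) (h : coeff 0 l = 0) (n : ℕ) :
    coeff n (l * f) = ∑ k : Fin n, coeff (n - k) l * coeff k f := by
  rw [mul_comm, coeff_mul, Finset.Nat.sum_antidiagonal_eq_sum_range_succ_mk, Finset.sum_range_succ,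
    Nat.sub_self, h, mul_zero, add_zero, Finset.sum_range]
  exact Finset.sum_congr rfl fun k _ => mul_comm _ _

lemma LD.ex {l : F⟦X⟧} (h : coeff 0 l = 0) : ∃ f, LD f l := by
  refine ⟨mk (oaE fun n => coeff n l), by rw [coeff_mk, oaE, if_pos rfl], ?_⟩
  ext n
  rw [oa_coeff, oa_mul _ _ h]
  simp only [coeff_mk]
  rcases Nat.eq_zero_or_pos n with rfl | hn
  · simp
  · rw [oaE, if_neg hn.ne', mul_div_cancel₀ _ (Nat.cast_ne_zero.2 hn.ne')]

lemma LD.uniq {f g l : F⟦X⟧} (h : coeff 0 l = 0) (hf : LD f l) (hg : LD g l) : f = g := by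
  ext n
  induction n using Nat.strong_induction_on with
  | _ n ih =>
    rcases Nat.eq_zero_or_pos n with rfl | hn
    · rw [hf.1, hg.1]
    · have h1 := congrArg (coeff n) hf.2
      have h2 := congrArg (coeff n) hg.2
      rw [oa_coeff, oa_mul _ _ h] at h1 h2
      refine mul_left_cancel₀ (Nat.cast_ne_zero.2 hn.ne' : (n : F) ≠ 0) ?_
      rw [h1, h2]
      exact Finset.sum_congr rfl fun k _ => by rw [ih k k.2]

lemma LD.mul {f g l m : F⟦X⟧} (hf : LD f l) (hg : LD g m) : LD (f * g) (l + m) := by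
  refine ⟨by rw [coeff_zero_mul_coeff_zero' hf.1 hg.1], ?_⟩
  rw [Derivation.leibniz, smul_eq_mul, smul_eq_mul]
  linear_combination f * hg.2 + g * hf.2
where
  coeff_zero_mul_coeff_zero' {f g : F⟦X⟧} (h1 : coeff 0 f = 1) (h2 : coeff 0 g = 1) :
      coeff 0 (f * g) = 1 := by
    rw [coeff_zero_eq_constantCoeff_apply] at h1 h2 ⊢
    rw [map_mul, h1, h2, mul_one]

lemma LD.one : LD (1 : F⟦X⟧) 0 := ⟨by simp, by simp⟩

lemma LD.rescale {f l : F⟦X⟧} (hf : LD f l) (a : F) : LD (rescale a f) (rescale a l) := by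
  refine ⟨by rw [coeff_rescale, hf.1, pow_zero, mul_one], ?_⟩
  rw [← map_mul, ← hf.2]
  ext n
  rw [oa_coeff, coeff_rescale, coeff_rescale, oa_coeff]
  ring

/-- The substitution of the square. -/
noncomputable abbrev e2 : F⟦X⟧ →ₐ[F] F⟦X⟧ := expand 2 two_ne_zero

lemma oa_e2 (f : F⟦X⟧) (n : ℕ) : coeff n (e2 f) = if 2 ∣ n then coeff (n / 2) f else 0 :=
  coeff_expand 2 two_ne_zero f

lemma LD.e2 {f l : F⟦X⟧} (hf : LD f l) : LD (e2 f) (2 * e2 l) := by
  refine ⟨by rw [oa_e2, if_pos (dvd_zero 2), hf.1], ?_⟩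
  rw [mul_assoc, ← map_mul, ← hf.2, two_mul]
  ext n
  rw [oa_coeff, map_add, oa_e2, oa_e2]
  split_ifs with h
  · obtain ⟨m, rfl⟩ := h
    rw [oa_coeff, Nat.mul_div_cancel_left _ two_pos]
    push_cast
    ring
  · simp

lemma LD.map {F' : Type} [Field F'] [CharZero F'] (φ : F →+* F') {f l : F⟦X⟧} (hf : LD f l) :
    LD (map φ f) (map φ l) := by
  refine ⟨by rw [coeff_map, hf.1, map_one], ?_⟩
  rw [← map_mul, ← hf.2]
  ext n
  rw [oa_coeff, coeff_map, coeff_map, oa_coeff, map_mul, map_natCast]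

lemma oa_resc_e2 (a : F) (f : F⟦X⟧) : rescale a (e2 f) = e2 (rescale (a ^ 2) f) := by
  ext n
  rw [coeff_rescale, oa_e2, oa_e2]
  split_ifs with h
  · obtain ⟨m, rfl⟩ := h
    rw [coeff_rescale, Nat.mul_div_cancel_left _ two_pos, pow_mul]
  · simp

/-- The coefficients of the logarithmic derivative of the splitting series. -/
noncomputable def oaL (n : ℕ) : ℚ :=
  if n = 1 then 1 else if h : n ≠ 0 ∧ 2 ∣ n then 2 * ((-1) ^ (n / 2) * oaL (n / 2)) / (2 + 2 ^ n)
    else 0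
termination_by n
decreasing_by omega

lemma oa_rat : ∃ l : ℚ⟦X⟧, coeff 0 l = 0 ∧ coeff 1 l = 1 ∧ ∀ n, (2 + (-2) ^ n) * coeff n l =
    2 * if 2 ∣ n then (-1) ^ (n / 2) * coeff (n / 2) l else 0 := by
  have h0 : oaL 0 = 0 := by rw [oaL]; simp
  have h1 : oaL 1 = 1 := by rw [oaL]; simp
  refine ⟨mk oaL, by rw [coeff_mk, h0], by rw [coeff_mk, h1], fun n => ?_⟩
  simp only [coeff_mk]
  by_cases e0 : n = 0
  · simp [e0, h0]
  by_cases e1 : n = 1
  · simp [e1]
  rw [oaL, if_neg e1]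
  by_cases h : 2 ∣ n
  · rw [dif_pos ⟨e0, h⟩, if_pos h, (even_iff_two_dvd.2 h).neg_pow, mul_div_cancel₀]
    positivity
  · rw [dif_neg fun h' => h h'.2, if_neg h, mul_zero, mul_zero]

end ld

section norm

variable {K : Type} [NontriviallyNormedField K] [IsUltrametricDist K] [CharZero K]

open IsUltrametricDist

lemma oa_add {x y : K} {c : ℝ} (hx : ‖x‖ ≤ c) (hy : ‖y‖ ≤ c) : ‖x + y‖ ≤ c :=
  (norm_add_le_max x y).trans (max_le hx hy)

lemma oa_sub {x y : K} {c : ℝ} (hx : ‖x‖ ≤ c) (hy : ‖y‖ ≤ c) : ‖x - y‖ ≤ c := by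
  rw [sub_eq_add_neg]
  exact oa_add hx (by rwa [norm_neg])

lemma oa_mul_le {x y : K} {a b : ℝ} (hx : ‖x‖ ≤ a) (hy : ‖y‖ ≤ b) : ‖x * y‖ ≤ a * b := by
  rw [norm_mul]
  exact mul_le_mul hx hy (norm_nonneg _) ((norm_nonneg _).trans hx)

lemma oa_unit {x : K} (hx : ‖x‖ ≤ 1 / 2) : ‖1 + x‖ = 1 := by
  rw [norm_add_eq_max_of_norm_ne_norm (by rw [norm_one]; linarith), norm_one]
  exact max_eq_left (by linarith)

lemma oa_split (f h : K⟦X⟧) {n : ℕ} (hn : 1 ≤ n) : coeff n (f * h) =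
    coeff 0 f * coeff n h + coeff n f * coeff 0 h +
      ∑ i ∈ Finset.Ioo 0 n, coeff i f * coeff (n - i) h := by
  rw [coeff_mul, Finset.Nat.sum_antidiagonal_eq_sum_range_succ_mk, Finset.sum_range_succ,
    Finset.range_eq_Ico, Finset.sum_eq_sum_Ico_succ_bot hn, Finset.Ico_add_one_left_eq_Ioo]
  simp only [Nat.sub_zero, Nat.sub_self]
  ring

lemma oa_mid (f h : K⟦X⟧) (n : ℕ) {a b : ℝ} (ha : 0 ≤ a) (hb : 0 ≤ b)
    (hf : ∀ i, 0 < i → i < n → ‖coeff i f‖ ≤ a) (hh : ∀ i, 0 < i → i < n → ‖coeff i h‖ ≤ b) :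
    ‖∑ i ∈ Finset.Ioo 0 n, coeff i f * coeff (n - i) h‖ ≤ a * b :=
  norm_sum_le_of_forall_le_of_nonneg (mul_nonneg ha hb) fun i hi => by
    rw [Finset.mem_Ioo] at hi
    exact oa_mul_le (hf i hi.1 hi.2) (hh _ (by omega) (by omega))

lemma oa_inv {f h : K⟦X⟧} (e : f * h = 1) (h0 : coeff 0 f = 1) (h1 : coeff 0 h = 1)
    (hf : ∀ n, ‖coeff n f‖ ≤ 1) (n : ℕ) : ‖coeff n h‖ ≤ 1 := by
  induction n using Nat.strong_induction_on with
  | _ n ih =>
    rcases Nat.eq_zero_or_pos n with rfl | hn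
    · rw [h1, norm_one]
    · have h2 := oa_split f h hn
      rw [e, coeff_one, if_neg hn.ne', h0, h1, one_mul, mul_one] at h2
      have h3 := oa_mid f h n zero_le_one zero_le_one (fun i _ _ => hf i) fun i _ hi => ih i hi
      rw [show coeff n h = 0 - coeff n f - ∑ i ∈ Finset.Ioo 0 n, coeff i f * coeff (n - i) h by
        linear_combination -h2]
      exact oa_sub (oa_sub (by simp) (hf n)) (by simpa using h3)

lemma oa_sqrt (h2 : ‖(2 : K)‖ = 1 / 2) {G g : K⟦X⟧} (e : G * G = g) (h0 : coeff 0 G = 1)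
    (hg : ∀ n, 1 ≤ n → ‖coeff n g‖ ≤ 1 / 4) (n : ℕ) : 1 ≤ n → ‖coeff n G‖ ≤ 1 / 2 := by
  induction n using Nat.strong_induction_on with
  | _ n ih =>
    intro hn
    have h1 := oa_split G G hn
    rw [e, h0] at h1
    have h3 := oa_mid G G n (a := 1 / 2) (b := 1 / 2) (by norm_num) (by norm_num)
      (fun i h hi => ih i hi h) fun i h hi => ih i hi h
    have h4 : ‖2 * coeff n G‖ ≤ 1 / 4 := by
      rw [show 2 * coeff n G = coeff n g - ∑ i ∈ Finset.Ioo 0 n, coeff i G * coeff (n - i) G by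
        linear_combination -h1]
      exact oa_sub (hg n hn) (h3.trans (by norm_num))
    rw [norm_mul, h2] at h4
    linarith

lemma oa_sym (h2 : ‖(2 : K)‖ = 1 / 2) (c : ℕ → K) (n : ℕ) (hc : ∀ i, i < n → ‖c i‖ ≤ 1) :
    ‖∑ i ∈ Finset.Ioo 0 n, c i * c (n - i) -
      if 0 < n ∧ 2 ∣ n then c (n / 2) ^ 2 else 0‖ ≤ 1 / 2 := by
  have e1 : ∑ i ∈ (Finset.Ioo 0 n).filter (fun i => n < 2 * i), c i * c (n - i) =
      ∑ i ∈ (Finset.Ioo 0 n).filter (fun i => 2 * i < n), c i * c (n - i) := by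
    refine Finset.sum_nbij' (fun i => n - i) (fun i => n - i) ?_ ?_ ?_ ?_ ?_ <;>
      simp only [Finset.mem_filter, Finset.mem_Ioo] <;> intro i hi
    · omega
    · omega
    · omega
    · omega
    · rw [show n - (n - i) = i by omega, mul_comm]
  have e2 : ∑ i ∈ (Finset.Ioo 0 n).filter (fun i => 2 * i = n), c i * c (n - i) =
      if 0 < n ∧ 2 ∣ n then c (n / 2) ^ 2 else 0 := by
    split_ifs with h
    · rw [Finset.sum_eq_single (n / 2), show n - n / 2 = n / 2 by omega, sq]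
      · intro i hi hne
        simp only [Finset.mem_filter, Finset.mem_Ioo] at hi
        omega
      · intro hi
        simp only [Finset.mem_filter, Finset.mem_Ioo] at hi
        omega
    · refine Finset.sum_eq_zero fun i hi => ?_
      simp only [Finset.mem_filter, Finset.mem_Ioo] at hi
      omega
  have e3 : ∑ i ∈ Finset.Ioo 0 n, c i * c (n - i) =
      ∑ i ∈ (Finset.Ioo 0 n).filter (fun i => n < 2 * i), c i * c (n - i) +
      ∑ i ∈ (Finset.Ioo 0 n).filter (fun i => 2 * i < n), c i * c (n - i) +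
      ∑ i ∈ (Finset.Ioo 0 n).filter (fun i => 2 * i = n), c i * c (n - i) := by
    simp only [Finset.sum_filter, ← Finset.sum_add_distrib]
    refine Finset.sum_congr rfl fun i _ => ?_
    rcases lt_trichotomy n (2 * i) with h | h | h
    · rw [if_pos h, if_neg (by omega), if_neg (by omega), add_zero, add_zero]
    · rw [if_neg (by omega), if_neg (by omega), if_pos h.symm, zero_add, zero_add]
    · rw [if_neg (by omega), if_pos h, if_neg (by omega), zero_add, add_zero]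
  rw [e3, e1, e2, add_sub_cancel_right, ← two_mul]
  refine (oa_mul_le h2.le (norm_sum_le_of_forall_le_of_nonneg zero_le_one fun i hi => ?_)).trans
    (by norm_num)
  simp only [Finset.mem_filter, Finset.mem_Ioo] at hi
  simpa using oa_mul_le (hc i (by omega)) (hc (n - i) (by omega))

lemma oa_odd (h2 : ‖(2 : K)‖ = 1 / 2) {a : ℤ} (ha : Odd a) : ‖(a : K)‖ = 1 := by
  obtain ⟨k, rfl⟩ := ha
  push_cast
  rw [add_comm]
  exact oa_unit (by simpa using oa_mul_le h2.le (norm_intCast_le_one K k))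

lemma oa_even (h2 : ‖(2 : K)‖ = 1 / 2) {a : ℤ} (ha : Even a) : ‖(a : K)‖ ≤ 1 / 2 := by
  obtain ⟨k, rfl⟩ := ha
  push_cast
  rw [← two_mul]
  simpa using oa_mul_le h2.le (norm_intCast_le_one K k)

lemma oa_frob (h2 : ‖(2 : K)‖ = 1 / 2) (q : ℚ) (hq : ‖(q : K)‖ ≤ 1) :
    ‖(q : K) ^ 2 - q‖ ≤ 1 / 2 := by
  have hd : ((q.den : ℤ) : K) ≠ 0 := by exact_mod_cast q.den_nz
  have e : (q : K) = (q.num : K) / ((q.den : ℤ) : K) := by rw [Rat.cast_def, Int.cast_natCast]
  rcases Int.even_or_odd (q.den : ℤ) with h | h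
  · exfalso
    have h3 : Odd q.num := by
      rw [← Int.not_even_iff_odd, ← Int.natAbs_even]
      intro h4
      have h5 : 2 ∣ Nat.gcd q.num.natAbs q.den :=
        Nat.dvd_gcd h4.two_dvd (by exact_mod_cast h.two_dvd)
      rw [q.reduced] at h5
      omega
    rw [e, norm_div, oa_odd h2 h3, div_le_one (norm_pos_iff.2 hd)] at hq
    linarith [oa_even h2 h]
  · have h3 : Even (q.num * (q.num - q.den)) := by
      rcases Int.even_or_odd q.num with h4 | h4
      · exact h4.mul_right _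
      · exact (h4.sub_odd h).mul_left _
    have h4 := oa_even h2 h3
    rw [show (q : K) ^ 2 - q = ((q.num * (q.num - q.den) : ℤ) : K) / ((q.den : ℤ) : K) ^ 2 by
      rw [e]; push_cast at hd ⊢; field_simp, norm_div, norm_pow, oa_odd h2 h]
    simpa using h4

lemma oa_lead (h2 : ‖(2 : K)‖ = 1 / 2) {n : ℕ} (hn : 2 ≤ n) : ‖(2 : K) + (-2) ^ n‖ = 1 / 2 := by
  obtain ⟨m, rfl⟩ := Nat.exists_eq_add_of_le hn
  rw [show (2 : K) + (-2) ^ (2 + m) = 2 * (1 + 2 * (-2) ^ m) by ring, norm_mul, h2, oa_unit, mul_one]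
  refine (oa_mul_le h2.le (b := 1) ?_).trans (by norm_num)
  rw [norm_pow, norm_neg, h2]
  exact pow_le_one₀ (by norm_num) (by norm_num)

theorem oa_theta (h2 : ‖(2 : K)‖ = 1 / 2) : ∃ T l : K⟦X⟧, LD T l ∧ coeff 0 l = 0 ∧ coeff 1 l = 1 ∧
    coeff 1 T = 1 ∧ 3 * coeff 2 T = 1 ∧ 2 * l + rescale (-2) l = 2 * e2 (rescale (-1) l) ∧
    (∀ n, ‖coeff n l‖ ≤ 1) ∧ ∀ n, ‖coeff n T‖ ≤ 1 := by
  obtain ⟨l0, a0, a1, a2⟩ := oa_rat
  obtain ⟨T0, hT0⟩ := LD.ex a0
  obtain ⟨T, hT'⟩ : ∃ T, T = map (Rat.castHom K) T0 := ⟨_, rfl⟩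
  obtain ⟨l, hl'⟩ : ∃ l, l = map (Rat.castHom K) l0 := ⟨_, rfl⟩
  have hT : LD T l := hT' ▸ hl' ▸ hT0.map _
  have b0 : coeff 0 l = 0 := by rw [hl', coeff_map, a0, map_zero]
  have b1 : coeff 1 l = 1 := by rw [hl', coeff_map, a1, map_one]
  have b2 : ∀ n, (2 + (-2) ^ n) * coeff n l =
      2 * if 2 ∣ n then (-1) ^ (n / 2) * coeff (n / 2) l else 0 := fun n => by
    have := congrArg (Rat.castHom K) (a2 n)
    simpa [hl', apply_ite (Rat.castHom K), map_ofNat] using this
  have b3 : 2 * l + rescale (-2) l = 2 * e2 (rescale (-1) l) := by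
    ext n
    rw [two_mul, two_mul, map_add, map_add, map_add, coeff_rescale, oa_e2, coeff_rescale]
    linear_combination b2 n
  have c1 : coeff 1 T = 1 := by
    have := congrArg (coeff 1) hT.2
    rw [oa_coeff, oa_mul _ _ b0] at this
    simpa [b1, hT.1, -coeff_zero_eq_constantCoeff] using this
  have c2 : 3 * coeff 2 T = 1 := by
    have h3 := congrArg (coeff 2) hT.2
    rw [oa_coeff, oa_mul _ _ b0, Fin.sum_univ_two] at h3
    have h4 := b2 2
    simp only [Fin.val_zero, Fin.val_one, Nat.sub_zero, Nat.add_one_sub_one, b1, c1, hT.1,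
      dvd_refl, if_true, Nat.reduceDiv, Nat.cast_ofNat] at h3 h4
    linear_combination (3 / 2) * h3 + (1 / 4) * h4
  have hl : ∀ n, ‖coeff n l‖ ≤ 1 := by
    intro n
    induction n using Nat.strong_induction_on with
    | _ n ih =>
      rcases n with _ | _ | n
      · simp [b0]
      · simp [b1]
      · have h3 := congrArg norm (b2 (n + 2))
        rw [norm_mul, norm_mul, oa_lead h2 (by omega), h2] at h3
        rw [mul_left_cancel₀ (by norm_num) h3]
        split_ifs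
        · simpa using ih ((n + 2) / 2) (by omega)
        · simp
  have hE : T * T * rescale (-2) T = e2 (rescale (-1) T) := by
    refine LD.uniq (l := 2 * e2 (rescale (-1) l)) ?_ ?_ (hT.rescale (-1)).e2
    · rw [two_mul, map_add, oa_e2, if_pos (dvd_zero 2), coeff_rescale, b0]
      simp
    · rw [← b3, two_mul]
      exact (hT.mul hT).mul (hT.rescale _)
  refine ⟨T, l, hT, b0, b1, c1, c2, b3, hl, fun n => ?_⟩
  induction n using Nat.strong_induction_on with
  | _ n ih =>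
    by_cases hn : n < 2
    · rcases n with _ | _ | n
      · rw [hT.1, norm_one]
      · rw [zero_add, c1, norm_one]
      · omega
    have h3 := congrArg (coeff n) hE
    have h4 : coeff 0 (T * T) = 1 := (hT.mul hT).1
    rw [oa_split _ _ (show 1 ≤ n by omega), oa_split T T (show 1 ≤ n by omega), oa_e2, h4, (hT.rescale (-2)).1, hT.1,
      coeff_rescale, coeff_rescale] at h3
    have h5 := oa_mid (T * T) (rescale (-2) T) n (a := 1) (b := 1 / 2) zero_le_one (by norm_num)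
      (fun i _ hi => by
        rw [coeff_mul]
        refine norm_sum_le_of_forall_le_of_nonneg zero_le_one fun p hp => ?_
        have := Finset.HasAntidiagonal.mem_antidiagonal.1 hp
        simpa using oa_mul_le (ih p.1 (by omega)) (ih p.2 (by omega)))
      (fun i h0 hi => by
        obtain ⟨j, rfl⟩ := Nat.exists_eq_add_of_le h0
        rw [coeff_rescale, norm_mul, norm_pow, norm_neg, h2, pow_add]
        have g1 : (1 / 2 : ℝ) ^ j ≤ 1 := pow_le_one₀ (by norm_num) (by norm_num)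
        have g2 := mul_le_one₀ g1 (norm_nonneg _) (ih _ hi)
        simp only [Nat.succ_eq_add_one, zero_add, pow_one] at g2 ⊢
        linarith)
    have h6 := oa_sym h2 (fun i => coeff i T) n ih
    have h7 : ‖(if 2 ∣ n then (-1) ^ (n / 2) * coeff (n / 2) T else 0) -
        if 0 < n ∧ 2 ∣ n then coeff (n / 2) T ^ 2 else 0‖ ≤ 1 / 2 := by
      by_cases h : 2 ∣ n
      · rw [if_pos h, if_pos ⟨by omega, h⟩]
        have g1 := ih (n / 2) (by omega)
        have g2 : ‖coeff (n / 2) T ^ 2 - coeff (n / 2) T‖ ≤ 1 / 2 := by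
          rw [hT', coeff_map] at g1 ⊢
          exact oa_frob h2 _ g1
        rcases neg_one_pow_eq_or K (n / 2) with e | e <;> rw [e]
        · rwa [one_mul, norm_sub_rev]
        · rw [show -1 * coeff (n / 2) T - coeff (n / 2) T ^ 2 = 0 - 2 * coeff (n / 2) T -
            (coeff (n / 2) T ^ 2 - coeff (n / 2) T) by ring]
          exact oa_sub (oa_sub (by simp) (by simpa using oa_mul_le h2.le g1)) g2
      · rw [if_neg h, if_neg fun h' => h h'.2]
        simp
    have h8 := oa_sub (oa_sub h7 h6) (h5.trans (by norm_num : (1 : ℝ) * (1 / 2) ≤ 1 / 2))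
    rw [← h3] at h8
    have h9 : ‖(2 + (-2) ^ n) * coeff n T‖ ≤ 1 / 2 := by
      convert h8 using 2
      ring
    rw [norm_mul, oa_lead h2 (by omega)] at h9
    linarith

end norm

end Pool.Agent.Lib.MP_788af2_nt.AG
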