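import Pool.Agent.Lib.MP_788af2_nt.AG.OneA

/-!
The period sequence.
-/

set_option linter.unusedSectionVars false

namespace Pool.Agent.Lib.MP_788af2_nt.AG

open PowerSeries Filter Topology IsUltrametricDist

variable {K : Type} [NontriviallyNormedField K] [IsUltrametricDist K] [CompleteSpace K] [CharZero K]

/-- The action of a power series on sequences. -/
noncomputable def act (f : K⟦X⟧) (J : ℕ → K) (j : ℕ) : K := ∑' k, coeff k f * J (j + k)

/-- Decay of the coefficients. -/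
def ObD (a : ℝ) (f : K⟦X⟧) : Prop := ∃ A : ℝ, 0 ≤ A ∧ ∀ k, ‖coeff k f‖ ≤ A * a ^ k

/-- Growth of a sequence. -/
def ObG (b : ℝ) (J : ℕ → K) : Prop := ∃ C : ℝ, 0 ≤ C ∧ ∀ n, ‖J n‖ ≤ C * b ^ n

section act

variable {a b : ℝ} {f h : K⟦X⟧} {J : ℕ → K}

lemma ob_sum (ha : 0 ≤ a) (hb : 0 ≤ b) (hab : a * b < 1) (hf : ObD a f) (hJ : ObG b J) (j : ℕ) :
    HasSum (fun k => coeff k f * J (j + k)) (act f J j) := by
  obtain ⟨A, -, hA⟩ := hf
  obtain ⟨C, -, hC⟩ := hJ
  refine (Summable.of_norm_bounded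
    ((summable_geometric_of_lt_one (mul_nonneg ha hb) hab).mul_left (A * C * b ^ j))
    fun k => (oa_mul_le (hA k) (hC _)).trans (le_of_eq ?_)).hasSum
  rw [pow_add, mul_pow]
  ring

lemma ObG.act (ha : 0 ≤ a) (hb : 0 ≤ b) (hab : a * b < 1) (hf : ObD a f) (hJ : ObG b J) :
    ObG b (act f J) := by
  obtain ⟨A, h0, hA⟩ := hf
  obtain ⟨C, h1, hC⟩ := hJ
  refine ⟨A * C, by positivity, fun j => norm_tsum_le_of_forall_le fun k =>
    (oa_mul_le (hA k) (hC _)).trans ?_⟩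
  have h2 : (a * b) ^ k ≤ 1 := pow_le_one₀ (mul_nonneg ha hb) hab.le
  calc _ = A * C * b ^ j * (a * b) ^ k := by rw [pow_add, mul_pow]; ring
    _ ≤ _ := mul_le_of_le_one_right (by positivity) h2

lemma ObD.mul (ha : 0 ≤ a) (hf : ObD a f) (hh : ObD a h) : ObD a (f * h) := by
  obtain ⟨A, h0, hA⟩ := hf
  obtain ⟨B, h1, hB⟩ := hh
  refine ⟨A * B, by positivity, fun n => ?_⟩
  rw [coeff_mul]
  refine norm_sum_le_of_forall_le_of_nonneg (by positivity) fun p hp =>
    (oa_mul_le (hA _) (hB _)).trans (le_of_eq ?_)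
  rw [← Finset.HasAntidiagonal.mem_antidiagonal.1 hp, pow_add]
  ring

lemma ob_mul (ha : 0 ≤ a) (hb : 0 ≤ b) (hab : a * b < 1) (hf : ObD a f) (hh : ObD a h)
    (hJ : ObG b J) (j : ℕ) : act (f * h) J j = act f (act h J) j := by
  have hs : Summable fun p : ℕ × ℕ => coeff p.1 f * (coeff p.2 h * J (j + p.1 + p.2)) := by
    obtain ⟨A, -, hA⟩ := hf
    obtain ⟨B, -, hB⟩ := hh
    obtain ⟨C, -, hC⟩ := hJ
    have g := summable_geometric_of_lt_one (mul_nonneg ha hb) hab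
    refine Summable.of_norm_bounded ((g.mul_of_nonneg g (fun _ => by positivity)
      fun _ => by positivity).mul_left (A * B * C * b ^ j))
      fun p => (oa_mul_le (hA _) (oa_mul_le (hB _) (hC _))).trans (le_of_eq ?_)
    simp only [pow_add, mul_pow]
    ring
  have e1 : act f (act h J) j =
      ∑' p : ℕ × ℕ, coeff p.1 f * (coeff p.2 h * J (j + p.1 + p.2)) := by
    rw [hs.tsum_prod]
    simp only [act, tsum_mul_left]
  rw [e1, ← Finset.HasAntidiagonal.sigmaAntidiagonalEquivProd.tsum_eq]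
  refine Eq.trans ?_ ((Finset.HasAntidiagonal.sigmaAntidiagonalEquivProd.summable_iff.2
    hs).tsum_sigma' fun n => (hasSum_fintype _).summable).symm
  refine tsum_congr fun n => ?_
  rw [tsum_fintype, coeff_mul, Finset.sum_mul, ← Finset.sum_finset_coe]
  refine Finset.sum_congr rfl fun p _ => ?_
  have := Finset.HasAntidiagonal.mem_antidiagonal.1 p.2
  simp only [Function.comp_apply, Finset.HasAntidiagonal.sigmaAntidiagonalEquivProd_apply]
  rw [add_assoc, this, mul_assoc]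

end act

/-- The part of the differential operator that is solved for. -/
noncomputable def obT (L : K⟦X⟧) (J : ℕ → K) (j : ℕ) : K :=
  j * J j + ∑' k, coeff (k + 2) L * J (j + (k + 2))

/-- The iteration. -/
noncomputable def obP (L : K⟦X⟧) (J : ℕ → K) : ℕ → K
  | 0 => 0
  | j + 1 => ((if j = 0 then 1 else 0) - obT L J j) / 2

section per

variable {L : K⟦X⟧} (h2 : ‖(2 : K)‖ = 1 / 2) (hL : ∀ n, ‖coeff n L‖ ≤ 2 * (1 / 4) ^ n)
  (h0 : coeff 0 L = 0) (h1 : coeff 1 L = 2)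

include hL in
lemma ob_LD : ObD (1 / 4) L := ⟨2, by norm_num, hL⟩

include hL in
lemma ob_tail {J : ℕ → K} (hJ : ObG 3 J) (j : ℕ) :
    Summable fun k => coeff (k + 2) L * J (j + (k + 2)) :=
  (summable_nat_add_iff (f := fun k => coeff k L * J (j + k)) 2).2
    (ob_sum (by norm_num) (by norm_num) (by norm_num) (ob_LD hL) hJ j).summable

include hL h0 h1 in
lemma ob_act {J : ℕ → K} (hJ : ObG 3 J) (j : ℕ) :
    j * J j + act L J j = 2 * J (j + 1) + obT L J j := by
  rw [act, obT, ← (ob_sum (by norm_num) (by norm_num) (by norm_num) (ob_LD hL) hJ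
    j).summable.sum_add_tsum_nat_add 2, Finset.sum_range_succ, Finset.sum_range_one, h0, h1]
  ring

include hL in
lemma ob_T_sub {J J' : ℕ → K} (hJ : ObG 3 J) (hJ' : ObG 3 J') (j : ℕ) :
    obT L J j - obT L J' j = obT L (fun n => J n - J' n) j := by
  simp only [obT, mul_sub]
  rw [(ob_tail hL hJ j).tsum_sub (ob_tail hL hJ' j)]
  ring

include hL in
lemma ob_T_le {J : ℕ → K} {C : ℝ} (hC : 0 ≤ C) (hJ : ∀ j, 1 ≤ j → ‖J j‖ ≤ C * 3 ^ j) (j : ℕ) :
    ‖obT L J j‖ ≤ 3 / 8 * C * 3 ^ (j + 1) := by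
  have h3 : 0 ≤ C * 3 ^ j := by positivity
  refine oa_add ?_ (norm_tsum_le_of_forall_le fun k =>
    (oa_mul_le (hL _) (hJ _ (by omega))).trans ?_)
  · rcases Nat.eq_zero_or_pos j with rfl | hj
    · simpa using hC
    · refine (oa_mul_le (norm_natCast_le_one K j) (hJ j hj)).trans ?_
      rw [pow_succ]
      linarith
  · have h4 : (1 / 4 * 3 : ℝ) ^ k ≤ 1 := pow_le_one₀ (by norm_num) (by norm_num)
    calc _ = 3 / 8 * C * 3 ^ (j + 1) * (1 / 4 * 3) ^ k := by simp only [pow_add, mul_pow]; ring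
      _ ≤ _ := mul_le_of_le_one_right (by positivity) h4

include hL in
lemma ob_tail_le {J : ℕ → K} (hJ : ∀ j, ‖J j‖ ≤ 2 ^ j) (j : ℕ) :
    ‖∑' k, coeff (k + 2) L * J (j + (k + 2))‖ ≤ 2 ^ j / 2 := by
  refine norm_tsum_le_of_forall_le fun k => (oa_mul_le (hL _) (hJ _)).trans ?_
  have h4 : (1 / 4 * 2 : ℝ) ^ k ≤ 1 := pow_le_one₀ (by norm_num) (by norm_num)
  calc _ = 2 ^ j / 2 * (1 / 4 * 2 : ℝ) ^ k := by simp only [pow_add, mul_pow]; ring
    _ ≤ _ := mul_le_of_le_one_right (by positivity) h4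

lemma ob_G3 {J : ℕ → K} (hJ : ∀ j, ‖J j‖ ≤ 2 ^ j) : ObG 3 J :=
  ⟨1, zero_le_one, fun j => (hJ j).trans (by rw [one_mul]; gcongr; norm_num)⟩

include h2 hL in
lemma ob_P_le {J : ℕ → K} (hJ : ∀ j, ‖J j‖ ≤ 2 ^ j) (j : ℕ) : ‖obP L J j‖ ≤ 2 ^ j := by
  rcases j with _ | j
  · simp [obP]
  · have h3 : (1 : ℝ) ≤ 2 ^ j := one_le_pow₀ one_le_two
    have h4 : ‖(if j = 0 then 1 else 0) - obT L J j‖ ≤ 2 ^ j := by
      refine oa_sub (by split_ifs <;> simp [h3]) (oa_add ?_ ((ob_tail_le hL hJ j).trans ?_))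
      · simpa using oa_mul_le (norm_natCast_le_one K j) (hJ j)
      · linarith
    rw [obP, norm_div, h2, pow_succ]
    linarith

include h2 hL in
lemma ob_P_sub {J J' : ℕ → K} (hJ : ObG 3 J) (hJ' : ObG 3 J') {C : ℝ} (hC : 0 ≤ C)
    (h : ∀ j, ‖J j - J' j‖ ≤ C * 3 ^ j) (j : ℕ) : ‖obP L J j - obP L J' j‖ ≤ 3 / 4 * C * 3 ^ j := by
  rcases j with _ | j
  · simpa [obP] using hC
  · have h3 := ob_T_le hL hC (fun j _ => h j) j
    rw [← ob_T_sub hL hJ hJ'] at h3
    rw [obP, obP, ← sub_div, sub_sub_sub_cancel_left, norm_div, h2, norm_sub_rev]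
    linarith

include h2 hL in
lemma ob_fix : ∃ I : ℕ → K, (∀ j, ‖I j‖ ≤ 2 ^ j) ∧ obP L I = I := by
  obtain ⟨J, hJ0, hJ⟩ : ∃ J : ℕ → ℕ → K, J 0 = 0 ∧ ∀ m, J (m + 1) = obP L (J m) :=
    ⟨fun m => (obP L)^[m] 0, rfl, fun m => Function.iterate_succ_apply' _ _ _⟩
  have a1 : ∀ m j, ‖J m j‖ ≤ 2 ^ j := by
    intro m
    induction m with
    | zero => intro j; simp [hJ0]
    | succ m ih => rw [hJ]; exact ob_P_le h2 hL ih
  have a2 : ∀ m j, ‖J m j - J (m + 1) j‖ ≤ (3 / 4) ^ m * 3 ^ j := by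
    intro m
    induction m with
    | zero =>
      intro j
      rw [hJ0, Pi.zero_apply, zero_sub, norm_neg, pow_zero, one_mul]
      exact (a1 _ j).trans (by gcongr; norm_num)
    | succ m ih =>
      intro j
      have := ob_P_sub h2 hL (ob_G3 (a1 m)) (ob_G3 (a1 (m + 1))) (by positivity) ih j
      rw [← hJ, ← hJ] at this
      rwa [pow_succ']
  have a3 : ∀ j m, dist (J m j) (J (m + 1) j) ≤ 3 ^ j * (3 / 4) ^ m := fun j m => by
    rw [dist_eq_norm, mul_comm]
    exact a2 m j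
  choose I hI using fun j => cauchySeq_tendsto_of_complete
    (cauchySeq_of_le_geometric (3 / 4) (3 ^ j) (by norm_num) (a3 j))
  have a4 : ∀ j, ‖I j‖ ≤ 2 ^ j := fun j => le_of_tendsto' (hI j).norm fun m => a1 m j
  refine ⟨I, a4, funext fun j => tendsto_nhds_unique ?_ ((hI j).comp (tendsto_add_atTop_nat 1))⟩
  rw [tendsto_iff_norm_sub_tendsto_zero]
  have a5 := ((tendsto_pow_atTop_nhds_zero_of_lt_one (r := (3 / 4 : ℝ)) (by norm_num)
    (by norm_num)).const_mul 4).const_mul (3 / 4) |>.mul_const (3 ^ j)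
  simp only [mul_zero, zero_mul] at a5
  refine squeeze_zero (fun _ => norm_nonneg _) (fun m => ?_) a5
  rw [Function.comp_apply, hJ]
  refine ob_P_sub h2 hL (ob_G3 (a1 m)) (ob_G3 a4) (by positivity) (fun i => ?_) j
  have := dist_le_of_le_geometric_of_tendsto (3 / 4) (3 ^ i) (by norm_num) (a3 i) (hI i) m
  rw [dist_eq_norm] at this
  exact this.trans (le_of_eq (by ring))

include h2 hL h0 h1 in
lemma ob_ex : ∃ I : ℕ → K, (∀ j, ‖I j‖ ≤ 2 ^ j) ∧ I 0 = 0 ∧ ‖2 * I 1 - 1‖ ≤ 1 / 2 ∧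
    ∀ j : ℕ, j * I j + act L I j = if j = 0 then 1 else 0 := by
  obtain ⟨I, a1, a2⟩ := ob_fix h2 hL
  have a3 : ∀ j : ℕ, 2 * I (j + 1) + obT L I j = if j = 0 then 1 else 0 := fun j => by
    have := congrFun a2 (j + 1)
    rw [obP] at this
    linear_combination -2 * this
  refine ⟨I, a1, (congrFun a2 0).symm, ?_, fun j => by rw [ob_act hL h0 h1 (ob_G3 a1), a3]⟩
  have a4 := a3 0
  rw [if_pos rfl, obT, Nat.cast_zero, zero_mul, zero_add, zero_add] at a4
  rw [← a4, sub_add_cancel_left, norm_neg]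
  simpa using ob_tail_le hL a1 0

include h2 hL h0 h1 in
lemma ob_uniq {J : ℕ → K} (hJ : ObG 3 J) (h : ∀ j : ℕ, j * J j + act L J j = 0) (j : ℕ)
    (hj : 1 ≤ j) : J j = 0 := by
  obtain ⟨C, hC, hJ'⟩ := id hJ
  have a1 : ∀ m j, 1 ≤ j → ‖J j‖ ≤ (3 / 4) ^ m * C * 3 ^ j := by
    intro m
    induction m with
    | zero => intro j _; simpa using hJ' j
    | succ m ih =>
      intro j hj
      obtain ⟨j, rfl⟩ := Nat.exists_eq_add_of_le' hj
      have a2 := ob_T_le hL (by positivity) ih j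
      have a3 := h j
      rw [ob_act hL h0 h1 hJ] at a3
      rw [eq_neg_of_add_eq_zero_right a3, norm_neg, norm_mul, h2] at a2
      rw [pow_succ' (3 / 4 : ℝ)]
      linarith
  have a5 := ((tendsto_pow_atTop_nhds_zero_of_lt_one (r := (3 / 4 : ℝ)) (by norm_num)
    (by norm_num)).mul_const C).mul_const (3 ^ j)
  simp only [zero_mul] at a5
  exact norm_le_zero_iff.1 (ge_of_tendsto' a5 fun m => a1 m j hj)

end per

/-- The sequence spread on the even indices. -/
noncomputable def obS (J : ℕ → K) (n : ℕ) : K := if 2 ∣ n then J (n / 2) else 0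

lemma ob_S_act (L : K⟦X⟧) (J : ℕ → K) (n : ℕ) :
    act (2 * e2 L) (obS J) n = 2 * obS (act L J) n := by
  have e : ∀ k, coeff k (2 * e2 L) = 2 * coeff k (e2 L) := fun k => by
    rw [two_mul, two_mul, map_add]
  rw [act, ← (mul_right_injective₀ (two_ne_zero (α := ℕ))).tsum_eq]
  · simp only [e, oa_e2, dvd_mul_right, if_true, Nat.mul_div_cancel_left _ two_pos, mul_assoc,
      tsum_mul_left, obS]
    congr 1
    split_ifs with h
    · refine tsum_congr fun k => ?_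
      rw [if_pos (by omega), show (n + 2 * k) / 2 = n / 2 + k by omega]
    · refine (tsum_congr fun k => ?_).trans tsum_zero
      rw [if_neg (by omega), mul_zero]
  · intro k hk
    by_contra hn
    refine hk ?_
    simp only [e, oa_e2]
    rw [if_neg fun ⟨m, hm⟩ => hn ⟨m, hm.symm⟩, mul_zero, zero_mul]

lemma ob_S_tsum (t : K⟦X⟧) (J : ℕ → K) (j : ℕ) :
    ∑' k, (if j ≤ 2 * k then coeff (2 * k - j) t * J k else 0) = act t (obS J) j := by
  have e1 := (mul_right_injective₀ (two_ne_zero (α := ℕ))).tsum_eq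
    (f := fun n => if j ≤ n then coeff (n - j) t * obS J n else 0) (by
      intro k hk
      by_contra hn
      refine hk ?_
      simp only [obS]
      rw [if_neg (c := 2 ∣ k) fun ⟨m, hm⟩ => hn ⟨m, hm.symm⟩, mul_zero, ite_self])
  have e2 := (add_right_injective j).tsum_eq
    (f := fun n => if j ≤ n then coeff (n - j) t * obS J n else 0) (by
      intro k hk
      by_contra hn
      exact hk (if_neg fun h => hn ⟨k - j, by simp only; omega⟩))
  simp only [obS, dvd_mul_right, if_true, Nat.mul_div_cancel_left _ two_pos] at e1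
  simp only [Nat.le_add_right, if_true, Nat.add_sub_cancel_left] at e2
  rw [e1, act, e2]
  rfl

theorem ob_theta (h2 : ‖(2 : K)‖ = 1 / 2) {L t : K⟦X⟧} (hL : ∀ n, ‖coeff n L‖ ≤ 2 * (1 / 4) ^ n)
    (h0 : coeff 0 L = 0) (h1 : coeff 1 L = 2) (ht : ∀ n, ‖coeff n t‖ ≤ (1 / 2) ^ n)
    (hd : LD t (L - 2 * e2 L)) {I : ℕ → K} (hI : ∀ j, ‖I j‖ ≤ 2 ^ j)
    (hE : ∀ j : ℕ, j * I j + act L I j = if j = 0 then 1 else 0) (j : ℕ) (hj : 1 ≤ j) :
    act t (obS I) j = 2 * I j := by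
  have p1 : (0 : ℝ) ≤ 1 / 2 := by norm_num
  have p2 : (0 : ℝ) ≤ 3 / 2 := by norm_num
  have p3 : (1 / 2 : ℝ) * (3 / 2) < 1 := by norm_num
  have d1 : ObD (1 / 2) t := ⟨1, zero_le_one, fun k => by simpa using ht k⟩
  have d2 : ObD (1 / 2) L := ⟨2, by norm_num, fun k => (hL k).trans (by gcongr; norm_num)⟩
  have d3 : ObD (1 / 2) (2 * e2 L) := by
    refine ⟨2, by norm_num, fun k => ?_⟩
    have : ‖coeff k (e2 L)‖ ≤ 2 * (1 / 2) ^ k := by
      rw [oa_e2]
      split_ifs with h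
      · obtain ⟨m, rfl⟩ := h
        rw [Nat.mul_div_cancel_left _ two_pos, pow_mul]
        exact (hL m).trans (le_of_eq (by norm_num))
      · rw [norm_zero]
        positivity
    rw [two_mul, map_add]
    exact oa_add this this
  have d4 : ObD (1 / 2) (X * derivative K t) := ⟨1, zero_le_one, fun k => by
    rw [oa_coeff]
    exact oa_mul_le (norm_natCast_le_one K k) (ht k)⟩
  have g0 : ∀ n, ‖obS I n‖ ≤ (3 / 2) ^ n := fun n => by
    rw [obS]
    split_ifs with h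
    · obtain ⟨m, rfl⟩ := h
      rw [Nat.mul_div_cancel_left _ two_pos, pow_mul]
      exact (hI m).trans (by gcongr; norm_num)
    · rw [norm_zero]
      positivity
  have g1 : ObG (3 / 2) (obS I) := ⟨1, zero_le_one, fun n => by simpa using g0 n⟩
  have g2 : ObG (3 / 2) fun n : ℕ => n * obS I n :=
    ⟨1, zero_le_one, fun n => oa_mul_le (norm_natCast_le_one K n) (g0 n)⟩
  have g3 := g1.act p1 p2 p3 d3
  have g4 : ObG 3 (act t (obS I)) := by
    obtain ⟨C, hC, h⟩ := g1.act p1 p2 p3 d1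
    exact ⟨C, hC, fun n => (h n).trans (by gcongr; norm_num)⟩
  have k1 : ∀ n : ℕ, n * obS I n + act (2 * e2 L) (obS I) n = if n = 0 then 2 else 0 := by
    intro n
    rw [ob_S_act, obS, obS]
    by_cases h : 2 ∣ n
    · obtain ⟨m, rfl⟩ := h
      have := hE m
      simp only [dvd_mul_right, if_true, Nat.mul_div_cancel_left _ two_pos, mul_eq_zero,
        two_ne_zero, false_or]
      push_cast
      split_ifs at this ⊢ <;> linear_combination 2 * this
    · rw [if_neg h, if_neg h, if_neg (by omega)]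
      ring
  have k2 : ∀ j : ℕ, j * act t (obS I) j + act L (act t (obS I)) j = if j = 0 then 2 else 0 := by
    intro j
    have s1 := ((ob_sum p1 p2 p3 d1 g1 j).mul_left (j : K)).add
      (ob_sum p1 p2 p3 (d2.mul p1 d1) g1 j)
    have s2 := (ob_sum p1 p2 p3 d1 g2 j).add (ob_sum p1 p2 p3 (d1.mul p1 d3) g1 j)
    have s3 := (ob_sum p1 p2 p3 d1 g2 j).add (ob_sum p1 p2 p3 d1 g3 j)
    have e1 : ∀ k, coeff k (L * t) = k * coeff k t + coeff k (t * (2 * e2 L)) := fun k => by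
      rw [← oa_coeff, hd.2, ← map_add]
      congr 1
      ring
    have e2 : (fun k => j * (coeff k t * obS I (j + k)) + coeff k (L * t) * obS I (j + k)) =
        fun k => coeff k t * (((j + k : ℕ) : K) * obS I (j + k)) +
          coeff k (t * (2 * e2 L)) * obS I (j + k) := by
      funext k
      rw [e1]
      push_cast
      ring
    rw [e2] at s1
    rw [← ob_mul p1 p2 p3 d2 d1 g1, s1.unique s2, ob_mul p1 p2 p3 d1 d3 g1]
    refine s3.unique ?_
    simp only [← mul_add, k1]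
    convert hasSum_single (f := fun k => coeff k t * if j + k = 0 then (2 : K) else 0) 0
      (fun k hk => by rw [if_neg (by omega), mul_zero]) using 1
    rw [hd.1, one_mul, add_zero]
  have k3 : ObG 3 fun n => act t (obS I) n - 2 * I n := by
    obtain ⟨C, hC, h⟩ := g4
    refine ⟨C + 1, by positivity, fun n => oa_sub ((h n).trans (by gcongr; linarith)) ?_⟩
    have h3 : (2 : ℝ) ^ n ≤ 3 ^ n := by gcongr; norm_num
    have h4 : 0 ≤ C * 3 ^ n := by positivity
    have h5 : (0 : ℝ) ≤ 2 ^ n := by positivity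
    refine (oa_mul_le h2.le (hI n)).trans ?_
    linarith
  refine sub_eq_zero.1 (ob_uniq h2 hL h0 h1 k3 (fun i => ?_) j hj)
  have q1 : (0 : ℝ) ≤ 1 / 4 := by norm_num
  have q2 : (0 : ℝ) ≤ 3 := by norm_num
  have q3 : (1 / 4 : ℝ) * 3 < 1 := by norm_num
  have s1 := (ob_sum q1 q2 q3 (ob_LD hL) g4 i).sub
    ((ob_sum q1 q2 q3 (ob_LD hL) (ob_G3 hI) i).mul_left 2)
  have s2 := ob_sum q1 q2 q3 (ob_LD hL) k3 i
  simp only [mul_sub, mul_left_comm _ (2 : K)] at s2
  rw [s2.unique s1]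
  have a1 := k2 i
  have a2 := hE i
  split_ifs at a1 a2 <;> linear_combination a1 - 2 * a2

end Pool.Agent.Lib.MP_788af2_nt.AG
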