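import Pool.Agent.Lib.MP_788af2_nt.AG.Syl

/-!
Lower bounds for truncated determinants.
-/

set_option linter.unusedSectionVars false

namespace Pool.Agent.Lib.MP_788af2_nt.AG

open Filter Topology

variable {K ι A Z : Type} [NontriviallyNormedField K] [IsUltrametricDist K] [CompleteSpace K]
  [NormedCommRing A] [NormedAlgebra K A] [IsUltrametricDist A] [CompleteSpace A] [NormOneClass A]
  [DecidableEq ι] [Fintype Z] [DecidableEq Z] {U V : ι → ℝ} {ϑ : ℝ} {S B : Finset ι} {π : ι → ι}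

theorem sd_prod {T : Type} [Fintype T] (u v : T → ℝ) (σ : Equiv.Perm T) :
    ∏ i, (2 : ℝ) ^ (v i - u (σ i)) = 2 ^ (∑ i, v i - ∑ i, u i) := by
  rw [← Real.rpow_sum_of_pos two_pos, Finset.sum_sub_distrib, Equiv.sum_comp σ u]

theorem sd_sign {T : Type} [Fintype T] [DecidableEq T] (σ : Equiv.Perm T) (x : K) :
    ‖Equiv.Perm.sign σ • x‖ = ‖x‖ := by
  rcases Int.units_eq_one_or (Equiv.Perm.sign σ) with h | h <;> simp [h]

theorem sd_det_le {T : Type} [Fintype T] [DecidableEq T] (X : Matrix T T K) (u v : T → ℝ)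
    (h : ∀ r c, ‖X r c‖ ≤ 2 ^ (v c - u r)) : ‖X.det‖ ≤ 2 ^ (∑ i, v i - ∑ i, u i) := by
  rw [Matrix.det_apply]
  refine IsUltrametricDist.norm_sum_le_of_forall_le_of_nonneg (by positivity) fun σ _ => ?_
  rw [sd_sign, norm_prod, ← sd_prod u v σ]
  exact Finset.prod_le_prod (fun _ _ => norm_nonneg _) fun i _ => h _ _

theorem sd_one_add {x : K} (h : ‖x‖ < 1) : ‖1 + x‖ = 1 := by
  rw [IsUltrametricDist.norm_add_eq_max_of_norm_ne_norm (by rw [norm_one]; exact h.ne'), norm_one]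
  exact max_eq_left h.le

theorem sd_near {T : Type} [Fintype T] [DecidableEq T] (X : Matrix T T K) (w : T → ℝ)
    (hϑ : ϑ < 1) (h : ∀ r c, ‖X r c - if r = c then 1 else 0‖ ≤ ϑ * 2 ^ (w c - w r)) :
    ‖X.det‖ = 1 := by
  have hd : ∀ i, ‖X i i‖ = 1 := fun i => by
    have h1 := h i i
    rw [if_pos rfl, sub_self, Real.rpow_zero, mul_one] at h1
    have h2 := sd_one_add (h1.trans_lt hϑ)
    rwa [add_sub_cancel] at h2
  have ho : ∀ r c, r ≠ c → ‖X r c‖ ≤ ϑ * 2 ^ (w c - w r) := fun r c hrc => by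
    simpa [hrc] using h r c
  have ha : ∀ r c, ‖X r c‖ ≤ 2 ^ (w c - w r) := fun r c => by
    by_cases hrc : r = c
    · subst hrc
      simp [hd]
    · exact (ho r c hrc).trans (mul_le_of_le_one_left (by positivity) hϑ.le)
  rw [Matrix.det_apply, ← Finset.add_sum_erase _ _ (Finset.mem_univ (1 : Equiv.Perm T))]
  have h1 : ‖Equiv.Perm.sign (1 : Equiv.Perm T) • ∏ i, X ((1 : Equiv.Perm T) i) i‖ = 1 := by
    rw [sd_sign, norm_prod]
    exact Finset.prod_eq_one fun i _ => hd i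
  have h2 : ‖∑ σ ∈ Finset.univ.erase (1 : Equiv.Perm T),
      Equiv.Perm.sign σ • ∏ i, X (σ i) i‖ ≤ max ϑ 0 := by
    refine IsUltrametricDist.norm_sum_le_of_forall_le_of_nonneg (le_max_right _ _) fun σ hσ => ?_
    obtain ⟨j, hj⟩ : ∃ j, σ j ≠ j := by
      by_contra H
      push Not at H
      exact Finset.ne_of_mem_erase hσ (Equiv.ext H)
    have h3 := sd_prod w w σ
    rw [sub_self, Real.rpow_zero, ← Finset.mul_prod_erase _ _ (Finset.mem_univ j)] at h3
    rw [sd_sign, norm_prod, ← Finset.mul_prod_erase _ _ (Finset.mem_univ j)]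
    calc _ ≤ (max ϑ 0 * 2 ^ (w j - w (σ j))) *
          ∏ i ∈ Finset.univ.erase j, (2 : ℝ) ^ (w i - w (σ i)) :=
          mul_le_mul ((ho _ _ hj).trans (mul_le_mul_of_nonneg_right (le_max_left _ _)
            (by positivity))) (Finset.prod_le_prod (fun _ _ => norm_nonneg _) fun i _ => ha _ _)
            (Finset.prod_nonneg fun _ _ => norm_nonneg _) (by positivity)
      _ = max ϑ 0 := by rw [mul_assoc, h3, mul_one]
  have h4 := h2.trans_lt (max_lt hϑ one_pos)
  rw [IsUltrametricDist.norm_add_eq_max_of_norm_ne_norm (by rw [h1]; exact h4.ne'), h1]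
  exact max_eq_left h4.le

theorem sd_mpow {T : Type} [Fintype T] [DecidableEq T] (N : T → T → K) (n : ℕ) (r c : T) :
    mpow N n r c = (Matrix.of N ^ (n + 1)) r c := by
  induction n generalizing r c with
  | zero => simp [mpow]
  | succ n ih =>
    rw [pow_succ, Matrix.mul_apply]
    simp only [mpow, mmul, tsum_fintype, ih, Matrix.of_apply]

theorem sd_pow_le {T : Type} [Fintype T] [DecidableEq T] {N : T → T → K}
    (h : ∀ r c, ‖N r c‖ ≤ 1) (n : ℕ) (r c : T) : ‖(Matrix.of N ^ n) r c‖ ≤ 1 := by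
  induction n generalizing r c with
  | zero =>
    rw [pow_zero, Matrix.one_apply]
    split_ifs <;> simp
  | succ n ih =>
    rw [pow_succ, Matrix.mul_apply]
    refine IsUltrametricDist.norm_sum_le_of_forall_le_of_nonneg zero_le_one fun s _ => ?_
    rw [norm_mul]
    exact mul_le_one₀ (ih _ _) (norm_nonneg _) (h _ _)

theorem Dom.sd_block (h2 : ‖(2 : K)‖ = 1 / 2) {M : ι → ι → K} (h : Dom U V ϑ S B π M) :
    ∃ G : ι → ι → K, (∀ c r, ‖G c r‖ ≤ 1) ∧ (∀ c r, c ∉ B → G c r = 0) ∧ ∀ r ∈ B, ∀ r' ∈ B,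
      ‖∑ c ∈ B, ((if r = c then 1 else 0) - (2 : K)⁻¹ * M r c) * G c r' -
        if r = r' then 1 else 0‖ ≤ ϑ := by
  obtain ⟨N, n, h1, h3, h4⟩ := h.nil
  have h20 : (2 : K) ≠ 0 := fun H => by simp [H] at h2
  refine ⟨fun c r => if H : c ∈ B ∧ r ∈ B then
    (∑ k ∈ Finset.range (n + 1), Matrix.of N ^ k) ⟨c, H.1⟩ ⟨r, H.2⟩ else 0, fun c r => ?_,
    fun c r hc => dif_neg fun H => hc H.1, fun r hr r' hr' => ?_⟩
  · beta_reduce
    split_ifs with H
    · rw [Matrix.sum_apply]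
      exact IsUltrametricDist.norm_sum_le_of_forall_le_of_nonneg zero_le_one fun k _ =>
        sd_pow_le h3 k _ _
    · simp
  · have h5 := congrFun (congrFun (mul_neg_geom_sum (Matrix.of N) (n + 1)) ⟨r, hr⟩) ⟨r', hr'⟩
    rw [Matrix.mul_apply, Matrix.sub_apply, ← sd_mpow, Matrix.one_apply] at h5
    have h6 : ∑ c ∈ B, ((if r = c then 1 else 0) - (2 : K)⁻¹ * M r c) *
        (if H : c ∈ B ∧ r' ∈ B then
          (∑ k ∈ Finset.range (n + 1), Matrix.of N ^ k) ⟨c, H.1⟩ ⟨r', H.2⟩ else 0) =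
        ∑ j : B, (1 - Matrix.of N) ⟨r, hr⟩ j *
          (∑ k ∈ Finset.range (n + 1), Matrix.of N ^ k) j ⟨r', hr'⟩ := by
      rw [← Finset.sum_coe_sort B]
      refine Finset.sum_congr rfl fun j _ => ?_
      rw [dif_pos ⟨j.2, hr'⟩, Matrix.sub_apply, Matrix.one_apply, h1 ⟨r, hr⟩ j,
        inv_mul_cancel_left₀ h20, Matrix.of_apply]
      simp only [Subtype.ext_iff]
    beta_reduce
    rw [h6, h5]
    simp only [Subtype.ext_iff]
    rw [sub_sub_cancel_left, norm_neg]
    exact h4 _ _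

theorem Dom.det (h2 : ‖(2 : K)‖ = 1 / 2) {M : ι → ι → K} (h : Dom U V ϑ S B π M) :
    ∃ δ : ℝ, 0 < δ ∧ ∀ T : Finset ι, S ⊆ T → B ⊆ T →
      δ ≤ ‖(1 - (2 : K)⁻¹ • Matrix.of fun r c : T => M r c).det‖ := by
  obtain ⟨G, g1, g2, g3⟩ := h.sd_block h2
  choose! x x1 x2 using h.unit
  have h20 : (2 : K) ≠ 0 := fun H => by simp [H] at h2
  have hi : ‖(2 : K)⁻¹‖ = 2 := by rw [norm_inv, h2]; norm_num
  have hSB : ∀ r ∈ S, r ∉ B := fun r hr => Finset.disjoint_left.1 h.disj hr
  have hϑ0 : 0 ≤ ϑ := le_trans (by norm_num) h.half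
  have e2 : ∀ a b : ℝ, (2 : ℝ) ^ a * 2 ^ b = 2 ^ (a + b) := fun a b =>
    (Real.rpow_add two_pos a b).symm
  have e1 : ∀ a : ℝ, (2 : ℝ) * 2 ^ a = 2 ^ (1 + a) := fun a => by
    rw [Real.rpow_add two_pos, Real.rpow_one]
  refine ⟨(2 ^ (∑ r ∈ S, (U r - 1 - V r)))⁻¹, by positivity, fun T hS hB => ?_⟩
  let Y : ι → ι → K := fun c r => if r ∈ S then (if c = π r then -(2 * x r) else 0)
    else if r ∈ B then G c r else if c = r then 1 else 0
  let X : ι → ι → K := fun r c => (if r = c then 1 else 0) - (2 : K)⁻¹ * M r c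
  have hY : ∀ c r, ‖Y c r‖ ≤ 2 ^ (U r - 1 - V c) := fun c r => by
    simp only [Y]
    split_ifs with a1 a2 a3 a4
    · rw [norm_neg, norm_mul, h2, a2, show U r - 1 - V (π r) = -1 + (U r - V (π r)) by ring,
        ← e2, Real.rpow_neg_one, one_div]
      exact mul_le_mul_of_nonneg_left (x2 r a1) (by norm_num)
    · rw [norm_zero]
      positivity
    · by_cases a5 : c ∈ B
      · rw [h.off r a1, h.const c a5 r a3, show 1 + V r - 1 - V r = 0 by ring, Real.rpow_zero]
        exact g1 _ _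
      · rw [g2 _ _ a5, norm_zero]
        positivity
    · rw [h.off r a1, a4, show 1 + V r - 1 - V r = 0 by ring, Real.rpow_zero, norm_one]
    · rw [norm_zero]
      positivity
  have hsm : ∀ r c r', ¬ (r ∈ S ∧ c = π r) → ¬ (r ∈ B ∧ c ∈ B) →
      ‖(2 : K)⁻¹ * M r c * Y c r'‖ ≤ ϑ * 2 ^ (U r' - U r) := fun r c r' a1 a2 => by
    rw [norm_mul, norm_mul, hi]
    calc _ ≤ 2 * (ϑ * 2 ^ (V c - U r)) * 2 ^ (U r' - 1 - V c) :=
          mul_le_mul (mul_le_mul_of_nonneg_left (h.small r c a1 a2) (by norm_num)) (hY c r')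
            (norm_nonneg _) (by positivity)
      _ = ϑ * (2 * 2 ^ (V c - U r) * 2 ^ (U r' - 1 - V c)) := by ring
      _ = _ := by
          rw [e1, e2]
          congr 2
          ring
  have hdg : ∀ r ∈ S, ∀ r', ‖Y r r'‖ ≤ ϑ * 2 ^ (U r' - U r) := fun r hr r' => by
    calc _ ≤ 2 ^ (U r' - 1 - V r) := hY r r'
      _ = 2 * (1 / 2) * 2 ^ (U r' - 1 - V r) := by ring
      _ ≤ 2 * (ϑ * 2 ^ (V r - U r)) * 2 ^ (U r' - 1 - V r) :=
          mul_le_mul_of_nonneg_right (mul_le_mul_of_nonneg_left (h.diag r hr) (by norm_num))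
            (by positivity)
      _ = ϑ * (2 * 2 ^ (V r - U r) * 2 ^ (U r' - 1 - V r)) := by ring
      _ = _ := by
          rw [e1, e2]
          congr 2
          ring
  have hsub : ∀ {a b : K} {t : ℝ}, ‖a‖ ≤ t → ‖b‖ ≤ t → ‖a - b‖ ≤ t := fun ha hb => by
    rw [sub_eq_add_neg]
    exact (IsUltrametricDist.norm_add_le_max _ _).trans (max_le ha (by rwa [norm_neg]))
  have hXY : ∀ r ∈ T, ∀ r' ∈ T, ‖∑ c ∈ T, X r c * Y c r' - if r = r' then 1 else 0‖ ≤
      ϑ * 2 ^ (U r' - U r) := fun r hr r' hr' => by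
    by_cases a1 : r' ∈ S
    · rw [Finset.sum_eq_single (π r') (fun c _ hc => by simp [Y, a1, hc])
        fun H => absurd (hS (h.maps r' a1)) H]
      have b1 : ‖(if r = π r' then 1 else 0) * Y (π r') r'‖ ≤ ϑ * 2 ^ (U r' - U r) := by
        split_ifs with a2
        · rw [one_mul, ← a2]
          exact hdg r (a2 ▸ h.maps r' a1) r'
        · rw [zero_mul, norm_zero]
          positivity
      by_cases a3 : r = r'
      · subst a3
        have b2 : X r (π r) * Y (π r) r - 1 = (if r = π r then 1 else 0) * Y (π r) r := by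
          have := x1 r a1
          simp only [X, Y, if_pos a1, if_true]
          linear_combination this + M r (π r) * x r * inv_mul_cancel₀ h20
        rw [if_pos rfl, b2]
        exact b1
      · rw [if_neg a3, sub_zero]
        simp only [X]
        rw [sub_mul]
        exact hsub b1 (hsm _ _ _ (fun H => a3 (h.inj r H.1 r' a1 H.2.symm))
          fun H => hSB _ (h.maps r' a1) H.2)
    · by_cases a2 : r' ∈ B
      · rw [← Finset.sum_subset hB fun c _ hc => by simp [Y, a1, a2, g2 c r' hc]]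
        by_cases a3 : r ∈ B
        · have a4 : r ∉ S := fun H => hSB r H a3
          rw [h.off r a4, h.off r' a1, h.const r a3 r' a2, sub_self, Real.rpow_zero, mul_one]
          simpa only [X, Y, if_neg a1, if_pos a2] using g3 r a3 r' a2
        · rw [if_neg fun H : r = r' => a3 (H ▸ a2), sub_zero]
          refine IsUltrametricDist.norm_sum_le_of_forall_le_of_nonneg (by positivity)
            fun c hc => ?_
          simp only [X]
          rw [if_neg fun H : r = c => a3 (H ▸ hc), zero_sub, neg_mul, norm_neg]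
          exact hsm _ _ _ (fun H => hSB _ (h.maps r H.1) (H.2 ▸ hc)) fun H => a3 H.1
      · rw [Finset.sum_eq_single r' (fun c _ hc => by simp [Y, a1, a2, hc]) fun H => absurd hr' H]
        have b1 : Y r' r' = 1 := by simp [Y, a1, a2]
        have b2 := hsm r r' r' (fun H => a1 (H.2 ▸ h.maps r H.1)) fun H => a2 H.2
        simp only [X]
        rw [b1, mul_one] at b2 ⊢
        rwa [sub_sub_cancel_left, norm_neg]
  have d1 := sd_near ((1 - (2 : K)⁻¹ • Matrix.of fun r c : T => M r c) *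
    Matrix.of fun c r : T => Y c r) (fun r : T => U r) h.lt fun r r' => by
      have := hXY r r.2 r' r'.2
      rw [← Finset.sum_coe_sort T] at this
      simpa only [Matrix.mul_apply, Matrix.sub_apply, Matrix.one_apply, Matrix.smul_apply,
        Matrix.of_apply, smul_eq_mul, Subtype.ext_iff, X] using this
  have d2 := sd_det_le (Matrix.of fun c r : T => Y c r) (fun r : T => V r) (fun r : T => U r - 1)
    fun c r => hY c r
  rw [← Finset.sum_sub_distrib, Finset.sum_coe_sort T fun r => U r - 1 - V r,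
    ← Finset.sum_subset hS fun r _ hr => by rw [h.off r hr]; ring] at d2
  rw [Matrix.det_mul, norm_mul] at d1
  rw [inv_le_iff_one_le_mul₀ (by positivity)]
  exact d1.ge.trans (mul_le_mul_of_nonneg_left d2 (norm_nonneg _))

theorem sd_mpow_map {T A A' : Type} [Fintype T] [NormedCommRing A] [NormedCommRing A']
    (φ : A →+* A') (N : T → T → A) (n : ℕ) (r c : T) :
    mpow (fun r c => φ (N r c)) n r c = φ (mpow N n r c) := by
  induction n generalizing r c with
  | zero => rfl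
  | succ n ih => simp only [mpow, mmul, tsum_fintype, ih, map_sum, map_mul]

theorem Dom.map {A' : Type} [NormedCommRing A'] [CompleteSpace A'] {M : ι → ι → A}
    (h : Dom U V ϑ S B π M) (φ : A →+* A') (hφ : ∀ x, ‖φ x‖ ≤ ‖x‖) :
    Dom U V ϑ S B π fun r c => φ (M r c) := by
  obtain ⟨g, g1, g2⟩ := h.cc
  obtain ⟨N, n, n1, n2, n3⟩ := h.nil
  refine ⟨h.lt, h.half, h.disj, h.maps, h.inj, ⟨g, g1, fun r c => (hφ _).trans (g2 r c)⟩,
    fun r c => (hφ _).trans (h.le r c), fun r c a b => (hφ _).trans (h.small r c a b),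
    fun r hr => ?_, h.diag, h.off, h.const, fun r c => φ (N r c), n, fun r c => ?_,
    fun r c => (hφ _).trans (n2 r c), fun r c => ?_⟩
  · obtain ⟨x, x1, x2⟩ := h.unit r hr
    exact ⟨φ x, by rw [← map_mul, x1, map_one], (hφ _).trans x2⟩
  · rw [n1, map_mul, map_ofNat]
  · rw [sd_mpow_map]
    exact (hφ _).trans (n3 r c)

theorem det_small {M : ι → ι → K} {x : K} (hϑ : ϑ < 1)
    (h : ∀ r c, ‖x * M r c‖ ≤ ϑ * 2 ^ (V c - V r)) (T : Finset ι) :
    ‖(1 - x • Matrix.of fun r c : T => M r c).det‖ = 1 := by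
  refine sd_near _ (fun r : T => V r) hϑ fun r c => ?_
  rw [Matrix.sub_apply, Matrix.one_apply, sub_sub_cancel_left, norm_neg]
  exact h r c

end Pool.Agent.Lib.MP_788af2_nt.AG
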