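import Pool.Agent.Lib.MP_788af2_nt.AG.Tr
import Pool.Agent.Lib.MP_788af2_nt.AG.DomEx
import Pool.Agent.Lib.MP_788af2_nt.AG.SylDet
import Pool.Agent.Lib.MP_788af2_nt.AG.Fred
import Pool.Agent.Lib.MP_788af2_nt.AG.Glue

/-!
The order of vanishing is read off the slope one matrix.
-/

set_option linter.unusedSectionVars false

namespace Pool.Agent.Lib.MP_788af2_nt.AG

open Polynomial Filter Topology Pool.Agent.Lib.MP_788af2_nt.AS Pool.Agent.Lib.MP_a3f657_nt.Two

variable {K J Z k κ : Type} [NontriviallyNormedField K] [IsUltrametricDist K] [CompleteSpace K]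
  [CharZero K] [Fintype J] [Fintype Z] [DecidableEq J] [DecidableEq Z] [Field k] [Fintype k]
  [CharP k 2] [Field κ] [CharP κ 2] [IsAlgClosed κ] [Algebra k κ]

section aux

variable {ι : Type} [DecidableEq ι] {V : ι → ℝ} {M : ι → ι → K}

lemma od_fred (h : CC V M) {x : K} {δ : ℝ} (hδ : 0 < δ) (T₀ : Finset ι)
    (h' : ∀ T : Finset ι, T₀ ⊆ T → δ ≤ ‖(1 - x • Matrix.of fun r c : T => M r c).det‖) :
    ∃ D : PowerSeries K, Ent D ∧ IsExp (fun n => -mtr M n) D ∧ val x D ≠ 0 := by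
  obtain ⟨D, h1, h2, h3⟩ := fredholm h
  have h4 : δ ≤ ‖val x D‖ := ge_of_tendsto (h3 x).norm ((eventually_ge_atTop T₀).mono h')
  exact ⟨D, h1, h2, norm_pos_iff.mp (hδ.trans_le h4)⟩

lemma od_small (h : CC V M) (x : K) {ϑ : ℝ} (hϑ : ϑ < 1) (W : ι → ℝ)
    (h' : ∀ r c, ‖x * M r c‖ ≤ ϑ * 2 ^ (W c - W r)) :
    ∃ D : PowerSeries K, Ent D ∧ IsExp (fun n => -mtr M n) D ∧ val x D ≠ 0 :=
  od_fred h one_pos ∅ fun T _ => (det_small hϑ h' T).ge

/-- The functional `y` times the coordinate `E`. -/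
noncomputable def odY (E : ι) (y : K) (r : ι) : K := if r = E then y else 0

lemma odY_rowB (E : ι) (y : K) : RowB V (odY E y) := by
  refine ⟨‖y‖ / 2 ^ V E, fun r => ?_⟩
  unfold odY
  split_ifs with h
  · rw [h, div_mul_cancel₀ _ (by positivity)]
  · rw [norm_zero]
    positivity

lemma odY_dot (E : ι) (y : K) (x : ι → K) : dot (odY E y) x = y * x E := by
  rw [dot, tsum_eq_single E fun r hr => by rw [odY, if_neg hr, zero_mul], odY, if_pos rfl]

lemma odY_vmul (E : ι) (y : K) (c : ι) : vmul (odY E y) M c = y * M E c :=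
  odY_dot E y fun r => M r c

lemma od_dot_add {x x' y : ι → K} (c : K) (hx : RowB V x) (hx' : RowB V x') (hy : ColB V y) :
    dot (fun r => x r + c • x' r) y = dot x y + c * dot x' y := by
  simp only [dot, add_mul, smul_eq_mul, mul_assoc]
  rw [(summable_dot hx hy).tsum_add ((summable_dot hx' hy).mul_left c), tsum_mul_left]

lemma od_trace {T : Type} [Fintype T] [DecidableEq T] (N : Matrix T T K) (n : ℕ) :
    (((2 : K) • N) ^ n).trace = 2 ^ n * (N ^ n).trace := by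
  rw [_root_.smul_pow, Matrix.trace_smul, smul_eq_mul]

end aux

namespace Pm

variable (p : Pm)

lemma od_U {r : J × Ex 1} : (2 : ℝ) ^ p.Ui r ≤ 2 * 2 ^ p.Vi r := by
  rw [← syl_pow1]
  refine Real.rpow_le_rpow_of_exponent_le one_le_two ?_
  unfold Ui Vi
  by_cases h : r.2.1.2 = 0 ∧ r.2.1.1 < p.e
  · have h1 := p.diag r.2.2 h.2
    have h2 := p.μ_pos
    rw [h.1]
    linarith
  · exact (p.U_eq h).le

lemma od_w_zero : p.w 0 0 = 0 := by simp [w]

lemma od_w_nonneg {a : ℤ} (j : ℤ) (h : 0 ≤ a) : 0 ≤ p.w a j :=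
  le_trans (by exact_mod_cast abs_nonneg j) (p.abs_le_w j h)

lemma od_w_pos {u : ℤ × ℤ} (h : 0 ≤ u.1) (h0 : u ≠ 0) :
    (2 : ℝ) ^ (-p.w u.1 u.2) ≤ 2 ^ (-(3 / 10 / (p.e : ℝ))) := by
  refine Real.rpow_le_rpow_of_exponent_le one_le_two (neg_le_neg (le_trans ?_ (p.le_w u.2 h)))
  have he := p.a1_e_posR
  have he1 : (1 : ℝ) ≤ p.e := by exact_mod_cast p.odd.pos
  have h1 : (0 : ℝ) ≤ ((|u.2| : ℤ) : ℝ) := by exact_mod_cast abs_nonneg _
  have h2 : (0 : ℝ) ≤ u.1 := by exact_mod_cast h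
  by_cases h3 : u.2 = 0
  · have h4 : (1 : ℝ) ≤ u.1 := by
      have : u.1 ≠ 0 := fun h5 => h0 (Prod.ext h5 h3)
      exact_mod_cast (by omega : 1 ≤ u.1)
    have h5 := div_le_div_of_nonneg_right h4 he.le
    rw [show 3 / 10 / (p.e : ℝ) = 3 / 10 * (1 / p.e) by ring]
    linarith
  · have h4 : (1 : ℝ) ≤ ((|u.2| : ℤ) : ℝ) := by exact_mod_cast Int.one_le_abs h3
    have h5 : 3 / 10 / (p.e : ℝ) ≤ 3 / 10 := div_le_self (by norm_num) he1
    have h6 : 0 ≤ (u.1 : ℝ) / p.e := by positivity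
    linarith

lemma od_lt : (2 : ℝ) ^ (-(3 / 10 / (p.e : ℝ))) < 1 :=
  Real.rpow_lt_one_of_one_lt_of_neg one_lt_two (neg_neg_of_pos (by
    have := p.a1_e_posR
    positivity))

lemma od_wi : Tendsto (p.wi : J × Ex 0 → ℝ) cofinite atTop := by
  have h1 : Function.Injective fun r : J × Ex 0 => (r.1, (r.2.1.1.toNat, r.2.1.2)) := by
    intro r r' h
    simp only [Prod.mk.injEq] at h
    have := r.2.2
    have := r'.2.2
    exact Prod.ext h.1 (Subtype.ext (Prod.ext (by omega) h.2.2))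
  have h2 : Tendsto (Prod.snd : J × ℕ × ℤ → ℕ × ℤ) cofinite cofinite :=
    Tendsto.cofinite_of_finite_preimage_singleton fun u =>
      Finite.of_injective (fun x => x.1.1) fun x y h => Subtype.ext (Prod.ext h
        ((Set.mem_singleton_iff.mp x.2).trans (Set.mem_singleton_iff.mp y.2).symm))
  refine (p.w_tendsto.comp (h2.comp h1.tendsto_cofinite)).congr fun r => ?_
  simp only [Function.comp_apply, wi, Int.toNat_of_nonneg r.2.2]

end Pm

namespace Dat

variable {d : Dat K K J Z} {η : J → Arr K} {a₀ : J → K} {C : ℝ} {ζ : Z → J × Ex 1 → K}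
  {N : Matrix Z Z K}

lemma od_B (hη : d.IsEta η a₀) : ∃ (t : ℕ → K) (D : PowerSeries K),
    (∀ n, 1 ≤ n → mtr (d.M 0) n =
      t n + ((Matrix.of fun j' j => if j' = d.σ j then a₀ j else 0) ^ n).trace) ∧
    Ent D ∧ IsExp (fun n => -t n) D ∧ val 1 D ≠ 0 := by
  let E : J → J × Ex 0 := fun j => (j, ⟨0, le_rfl⟩)
  have hy : ∀ j, ColB d.p.wi (col 0 j (η j)) := fun j => by
    refine squeeze_zero (fun r => by positivity) (fun r => ?_) (tendsto_two_rpow_neg d.p.od_wi)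
    unfold col
    split_ifs
    · refine (mul_le_mul_of_nonneg_right (hη.le j _) (by positivity)).trans (le_of_eq ?_)
      rw [← Real.rpow_add two_pos, Pm.wi]
      congr 1
      ring
    · rw [norm_zero, zero_mul]
      positivity
  have g1 : ∀ j j', dot (odY (E j) 1) (col 0 j' (η j')) = if j = j' then 1 else 0 := fun j j' => by
    rw [odY_dot, one_mul, col]
    split_ifs with h
    · exact hη.zero j'
    · rfl
  have g2 : ∀ j r, mulv (d.M 0) (col 0 j (η j)) r = ∑ j', col 0 j' (η j') r *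
      (Matrix.of fun j' j => if j' = d.σ j then a₀ j else 0) j' j := fun j r => by
    rw [M, mulv_col (hη.supp j), Finset.sum_eq_single (d.σ j) (fun j' _ h => by simp [h])
      (by simp), Matrix.of_apply, if_pos rfl, col, hη.eig]
    split_ifs
    · ring
    · ring
  obtain ⟨h1, h2⟩ := mtr_right (d.M_cc_w 0 le_rfl) (fun j => odY_rowB (E j) 1) hy g1 g2
  refine (od_small h1 1 d.p.od_lt d.p.wi fun r c => ?_).elim fun D hD => ⟨_, D, h2, hD⟩
  rw [one_mul, Finset.sum_eq_single r.1 (fun j _ h => by simp [col, h.symm]) (by simp), odY_vmul,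
    one_mul, col, if_pos rfl]
  by_cases h : r.2.1 = 0
  · rw [h, hη.zero, one_mul, show E r.1 = r from Prod.ext rfl (Subtype.ext h.symm), sub_self,
      norm_zero]
    positivity
  · have h6 := d.p.od_w_pos r.2.2 h
    refine syl_sub ((d.M_le_w 0 le_rfl r c).trans
      (mul_le_mul_of_nonneg_right h6 (by positivity))) ?_
    refine (syl_mul (hη.le _ _) (d.M_le_w 0 le_rfl _ c)).trans
      (le_trans (le_of_eq ?_) (mul_le_mul_of_nonneg_right h6 (by positivity)))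
    rw [show d.p.wi (E r.1) = 0 from d.p.od_w_zero, ← Real.rpow_add two_pos,
      ← Real.rpow_add two_pos, ← Real.rpow_add two_pos]
    congr 1
    unfold Pm.wi
    ring

lemma od_M (ℓ : Lift K κ) (hη : d.IsEta η a₀) (hζ : d.IsEig η C ζ N) (hs : ‖d.c0‖ * C ≤ 1 / 4) :
    ∃ (t : ℕ → K) (D : PowerSeries K), (∀ n, 1 ≤ n → mtr (d.M 1) n =
      t n + 2 ^ n * ((Matrix.of fun j' j => if j' = d.σ j then a₀ j else 0) ^ n).trace +
        2 ^ n * (d.Φ N ^ n).trace) ∧ Ent D ∧ IsExp (fun n => -t n) D ∧ val 2⁻¹ D ≠ 0 := by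
  choose yi hyi using hη.y_unit
  let Ξ : Z → J × Ex 1 → K := fun z r => d.ρr z r + (d.c z : K) • ζ z r
  have hC : ∀ z : Z, 0 ≤ C := fun z => (norm_nonneg _).trans (hζ.N_le z z)
  have hρ : ∀ z, RowB d.p.Vi (d.ρr z) := fun z => ⟨2 / 2 ^ d.p.V 1 (-1), fun r => by
    refine (d.ρr_le z r).trans (le_of_eq ?_)
    rw [Real.rpow_sub two_pos]
    ring⟩
  have hζ1 : ∀ z r, ‖ζ z r‖ ≤ C * 2 * 2 ^ d.p.Vi r := fun z r => by
    rw [mul_assoc]
    exact (hζ.le z r).trans (mul_le_mul_of_nonneg_left d.p.od_U (hC z))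
  have hζ' : ∀ z, RowB d.p.Vi (ζ z) := fun z => ⟨_, hζ1 z⟩
  have hΞρ : ∀ z r, ‖Ξ z r - d.ρr z r‖ ≤ 1 / 2 * 2 ^ d.p.Vi r := fun z r => by
    have h1 : ‖(d.c z : K)‖ ≤ ‖d.c0‖ := by
      rw [d.c_cast, norm_mul]
      exact mul_le_of_le_one_right (norm_nonneg _) (IsUltrametricDist.norm_natCast_le_one K _)
    simp only [Ξ, add_sub_cancel_left, smul_eq_mul]
    refine (syl_mul h1 (hζ1 z r)).trans ?_
    rw [← mul_assoc, ← mul_assoc]
    exact mul_le_mul_of_nonneg_right (by linarith) (by positivity)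
  have hΞ : ∀ z, RowB d.p.Vi (Ξ z) := fun z => by
    obtain ⟨c, h0, h1⟩ := (hρ z).le
    refine ⟨c + 1 / 2, fun r => ?_⟩
    rw [← add_sub_cancel (d.ρr z r) (Ξ z r), add_mul]
    exact (norm_add_le _ _).trans (add_le_add (h1 r) (hΞρ z r))
  obtain ⟨h1, h2⟩ := mtr_left d.M_cc (Φ := (2 : K) • d.Φ N) hΞ d.wc_colB
    (fun z z' => by
      rw [od_dot_add _ (hρ z) (hζ' z) (d.wc_colB z'), d.dot_ρ_w, hζ.w, mul_zero, add_zero])
    (fun z c => by
      refine (od_dot_add _ (hρ z) (hζ' z) (d.M_cc.col c)).trans ?_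
      change vmul (d.ρr z) (d.M 1) c + _ * vmul (ζ z) (d.M 1) c = _
      rw [d.vmul_ρ, hζ.eq]
      have h3 : ∀ z', ((2 : K) • d.Φ N) z z' * Ξ z' c = 2 * (d.P z z' • d.ρr z' c) +
          d.c z * (2 * (d.P z z' • ζ z' c)) +
            d.c z * (4 * (N z z' * (d.ρr z' c + (d.c z' : K) • ζ z' c))) := fun z' => by
        have h4 : (d.P z z' : K) * d.c z' = d.P z z' * d.c z := by
          unfold P
          rw [Matrix.of_apply]
          split_ifs with h
          · rw [h, Geo.c, Geo.c, d.n_σ]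
          · simp
        simp only [Φ, Ξ, Matrix.smul_apply, Matrix.add_apply, Matrix.map_apply,
          Matrix.diagonal_mul, smul_eq_mul, zsmul_eq_mul]
        rw [d.c_cast z] at h4 ⊢
        linear_combination 2 * ζ z' c * h4
      simp only [h3, Finset.sum_add_distrib, ← Finset.mul_sum, smul_eq_mul]
      ring)
  obtain ⟨-, h4⟩ := mtr_right h1 (Y := fun j => odY (d.p.Ei j) (yi j))
    (a := (2 : K) • Matrix.of fun j' j => if j' = d.σ j then a₀ j else 0)
    (fun j => odY_rowB _ _) hη.yc_colB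
    (fun j j' => by
      rw [odY_dot, yc, col]
      split_ifs with h h' h'
      · rw [mul_comm, ← h']
        exact (hyi j).1
      · exact absurd h h'
      · exact absurd h' h
      · exact mul_zero _)
    (fun j r => by
      refine (dot_sub_sum_left _ (d.M_cc.row r) hΞ (hη.yc_colB j)).trans ?_
      have h5 : ∀ z, dot (Ξ z) (d.yc η j) = 0 := fun z => by
        rw [od_dot_add _ (hρ z) (hζ' z) (hη.yc_colB j), d.dot_ρ_y hη.dec, hζ.y, smul_eq_mul]
        ring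
      simp only [h5, mul_zero, Finset.sum_const_zero, sub_zero]
      refine (hη.mulv_yc j r).trans ?_
      rw [Finset.mul_sum]
      refine Finset.sum_congr rfl fun j' _ => ?_
      rw [Matrix.smul_apply, Matrix.of_apply, smul_eq_mul]
      ring)
  obtain ⟨S, B, π, h8⟩ := d.dom ℓ hη hyi hΞρ
  obtain ⟨δ, h9, h10⟩ := h8.det ℓ.two
  simp only [odY_vmul] at h4
  obtain ⟨D, hD⟩ := od_fred h8.cc h9 (S ∪ B) fun T hT =>
    h10 T (Finset.subset_union_left.trans hT) (Finset.subset_union_right.trans hT)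
  refine ⟨_, D, fun n hn => ?_, hD⟩
  rw [h2 n hn, h4 n hn, od_trace, od_trace]
  rfl

end Dat

theorem ord_eq (d : Dat K K J Z) (ℓ : Lift K κ) {a b : k[X]} (L : Lnk d.toGeo ℓ b)
    (hF : ∀ j n, ‖PowerSeries.coeff n (d.Ft j) -
      (if n = 0 then 1 else 0) - 2 * ℓ.τ (L.emb j (a.coeff n))‖ ≤ 1 / 4)
    {η : J → Arr K} {a₀ : J → K} {C : ℝ} {ζ : Z → J × Ex 1 → K} {N : Matrix Z Z K}
    (hη : d.IsEta η a₀) (hζ : d.IsEig η C ζ N) (hs : ‖d.c0‖ * C ≤ 1 / 4) {Ls : PowerSeries ℚ}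
    (hL : IsExp (fun n => (cnt κ a b n : ℚ)) Ls) :
    HasOrd (Fintype.card k) Ls ((d.Φ N).charpolyRev.rootMultiplicity 1) := by
  obtain ⟨f, -, hk⟩ := FiniteField.card k 2
  obtain ⟨tB, DB₂, b1, b2, b3, b4⟩ := Dat.od_B hη
  obtain ⟨tM, DM₂, m1, m2, m3, m4⟩ := Dat.od_M ℓ hη hζ hs
  obtain ⟨DB, b5, b6, b7⟩ := od_small (d.M_cc_w 0 le_rfl) 2 (ϑ := 1 / 2) (by norm_num) d.p.wi
    fun r c => syl_mul ℓ.two.le ((d.M_le_w 0 le_rfl r c).trans (mul_le_of_le_one_left
      (by positivity) (Real.rpow_le_one_of_one_le_of_nonpos one_le_two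
        (neg_nonpos.mpr (d.p.od_w_nonneg _ r.2.2)))))
  obtain ⟨DM, m5, m6, m7⟩ := od_small d.M_cc 1 d.p.od_lt d.p.wi fun r c => by
    rw [one_mul]
    refine (d.M_le_w 1 zero_le_one r c).trans (mul_le_mul_of_nonneg_right
      (d.p.od_w_pos (zero_le_one.trans r.2.2) fun h => ?_) (by positivity))
    have := r.2.2
    rw [h] at this
    exact absurd this (by simp)
  rw [hk]
  exact glue ℓ.two f.2 (abs_cnt_le hk f.ne_zero a b) (cnt_int hk f.ne_zero a b) hL
    (trace_eq d ℓ L hk hF) b1 m1 b5 b2 m5 m2 b6 b3 m6 m3 b7 b4 m7 m4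

end Pool.Agent.Lib.MP_788af2_nt.AG
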