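import Pool.Agent.Lib.MP_788af2_nt.AG.QFormB

/-!
The invariant form: the eigenfunctionals kill the exact forms.
-/

set_option linter.unusedSectionVars false

namespace Pool.Agent.Lib.MP_788af2_nt.AG

open Polynomial Filter Topology

variable {K A J Z : Type} [NontriviallyNormedField K] [IsUltrametricDist K] [CompleteSpace K]
  [CharZero K] [NormedCommRing A] [NormedAlgebra K A] [IsUltrametricDist A] [CompleteSpace A]
  [NormOneClass A] [Fintype J] [Fintype Z] [DecidableEq J] [DecidableEq Z] {d : Dat K A J Z}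

lemma qd_gap (p : Pm) {u : ℤ × ℤ} (hu : u.1 ≤ 0) (h : u ≠ 0) :
    1 / (p.e : ℝ) ≤ -((u.1 : ℝ) / p.e) + ((|u.2| : ℤ) : ℝ) := by
  have he := p.a1_e_posR
  have he1 : (1 : ℝ) ≤ p.e := by exact_mod_cast p.odd.pos
  have ha := a1_abs_nonneg u.2
  by_cases h1 : u.1 = 0
  · have h2 : u.2 ≠ 0 := fun h2 => h (Prod.ext h1 h2)
    have h3 : (1 : ℝ) ≤ ((|u.2| : ℤ) : ℝ) := by exact_mod_cast Int.one_le_abs h2
    have h4 : 1 / (p.e : ℝ) ≤ 1 := (div_le_one he).2 he1
    rw [h1, Int.cast_zero, zero_div]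
    linarith
  · have h2 : (1 : ℝ) ≤ -(u.1 : ℝ) := by exact_mod_cast (show (1 : ℤ) ≤ -u.1 by omega)
    have h3 := div_le_div_of_nonneg_right h2 he.le
    rw [neg_div] at h3
    linarith

lemma qd_phi_cut {s : ℤ} (hs : s = 0 ∨ s = -1) (x : Arr A) (u : ℤ × ℤ) (hu : u.1 ≤ s) :
    phi (cutN s x) u = phi x u := by
  unfold phi cutN
  split_ifs with h1 h2
  · rfl
  · exact absurd (show u.1 / 2 ≤ s by omega) h2
  · rfl

namespace Dat

variable {η : J → Arr A} {a : J → A} {Φ : Matrix Z Z A} {B : ℝ}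

lemma qd_step (hη : d.IsEta η a)
    (hΦ : ∀ (v : Z → A) (B : ℝ), (∀ z, ‖∑ z', Φ z z' * v z'‖ ≤ B) → ∀ z, ‖v z‖ ≤ B)
    {ν : Z → J → Arr A} (hs : ∀ z j, SN 0 (ν z j))
    (hb : ∀ z j, Bd d.p (13 / 100) (13 / 100) B (ν z j))
    (he : ∀ j (u : ℤ × ℤ), u.1 ≤ 0 → (∀ z, ν z j u = 0) ∨
      ∀ z, conv (d.F j) (phi (ν z (d.σ j))) u = ∑ z', Φ z z' * ν z' j u)
    (h0 : ∀ z j, ν z j 0 = 0 ∨ conv (ν z j) (η j) 0 = 0) (z : Z) (j : J) :
    Bd d.p (13 / 100) (13 / 100) (B * 2 ^ (-(13 / 200 * (1 / (d.p.e : ℝ))))) (ν z j) := by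
  have hB := (hb z j).nonneg
  have hB' : 0 ≤ B * 2 ^ (-(13 / 200 * (1 / (d.p.e : ℝ)))) := mul_nonneg hB (e2_rpow_pos _).le
  have h1 : Bd d.p (13 / 100) (13 / 100) (B * 2 ^ (-(13 / 200 * (1 / (d.p.e : ℝ)))))
      fun u => if u = 0 then 0 else ν z j u := by
    intro u
    have hz : ‖(0 : A)‖ ≤ B * 2 ^ (-(13 / 200 * (1 / (d.p.e : ℝ)))) *
        2 ^ (-(13 / 100 * ((u.1 : ℝ) / d.p.e)) + 13 / 100 * ((|u.2| : ℤ) : ℝ)) := by
      rw [norm_zero]
      exact mul_nonneg hB' (e2_rpow_pos _).le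
    beta_reduce
    split_ifs with hu
    · exact hz
    by_cases hu1 : 0 < u.1
    · rw [hs z j u hu1]
      exact hz
    rcases he j u (by omega) with h | h
    · rw [h z]
      exact hz
    have h2 := hΦ (fun z' => ν z' j u) _ (fun z' => by
      rw [← h z']
      exact Bd.conv (d.F_bd j) (d.F_sp j) (hb z' (d.σ j)).phi (by norm_num)
        (by rw [abs_of_nonneg] <;> norm_num) u) z
    have h3 := qd_gap d.p (show u.1 ≤ 0 by omega) hu
    rw [mul_assoc, e2_rpow_add]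
    rw [one_mul] at h2
    exact a1_le (norm_nonneg _) h2 (by linarith)
  intro u
  by_cases hu : u = 0
  swap
  · have h2 := h1 u
    beta_reduce at h2
    rwa [if_neg hu] at h2
  subst hu
  have h3 : (2 : ℝ) ^ (-(13 / 100 * ((((0 : ℤ × ℤ).1 : ℤ) : ℝ) / d.p.e)) +
      13 / 100 * ((|(0 : ℤ × ℤ).2| : ℤ) : ℝ)) = 1 := by simp
  rw [h3, mul_one]
  rcases h0 z j with h | h
  · rw [h, norm_zero]
    exact hB'
  have h4 := Bd.pair h1 (hη.bd j) (hη.supp j) (by norm_num) (by rw [abs_of_nonneg] <;> norm_num)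
  have h5 := (hη.dec j).summable ((hb z j).mod_neg (hs z j) (by norm_num) (by norm_num)) 0
  have h6 : conv (η j) (fun u => if u = 0 then 0 else ν z j u) 0 =
      ∑' v, if v = 0 then 0 else η j v * ν z j (0 - v) := by
    refine tsum_congr fun v => ?_
    beta_reduce
    by_cases hv : v = 0
    · rw [if_pos hv, hv, sub_zero, if_pos rfl, mul_zero]
    · rw [if_neg hv, if_neg (show ¬ 0 - v = 0 by rwa [zero_sub, neg_eq_zero])]
  rw [conv_comm, conv, h5.tsum_eq_add_tsum_ite 0, hη.zero, one_mul, sub_zero] at h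
  rw [conv_comm, h6, mul_one] at h4
  rw [eq_neg_of_add_eq_zero_left h, norm_neg]
  convert h4

theorem vanish (hη : d.IsEta η a)
    (hΦ : ∀ (v : Z → A) (B : ℝ), (∀ z, ‖∑ z', Φ z z' * v z'‖ ≤ B) → ∀ z, ‖v z‖ ≤ B)
    {ν : Z → J → Arr A} (hs : ∀ z j, SN 0 (ν z j))
    (hb : ∀ z j, Bd d.p (13 / 100) (13 / 100) B (ν z j))
    (he : ∀ j (u : ℤ × ℤ), u.1 ≤ 0 → (∀ z, ν z j u = 0) ∨
      ∀ z, conv (d.F j) (phi (ν z (d.σ j))) u = ∑ z', Φ z z' * ν z' j u)
    (h0 : ∀ z j, ν z j 0 = 0 ∨ conv (ν z j) (η j) 0 = 0) (z : Z) (j : J) : ν z j = 0 := by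
  have hpos : 0 < 1 / (d.p.e : ℝ) := one_div_pos.2 d.p.a1_e_posR
  have hlt : (2 : ℝ) ^ (-(13 / 200 * (1 / (d.p.e : ℝ)))) < 1 :=
    Real.rpow_lt_one_of_one_lt_of_neg (by norm_num) (by linarith)
  have hn : ∀ (n : ℕ) z j, Bd d.p (13 / 100) (13 / 100)
      (B * (2 ^ (-(13 / 200 * (1 / (d.p.e : ℝ))))) ^ n) (ν z j) := by
    intro n
    induction n with
    | zero => simpa using hb
    | succ n ih =>
      intro z j
      rw [pow_succ, ← mul_assoc]
      exact qd_step hη hΦ hs ih he h0 z j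
  funext u
  have ht := ((tendsto_pow_atTop_nhds_zero_of_lt_one (e2_rpow_pos _).le hlt).const_mul B).mul_const
    ((2 : ℝ) ^ (-(13 / 100 * ((u.1 : ℝ) / d.p.e)) + 13 / 100 * ((|u.2| : ℤ) : ℝ)))
  rw [mul_zero, zero_mul] at ht
  exact norm_le_zero_iff.1 (ge_of_tendsto' ht fun n => hn n z j u)

lemma qd_cancel (K : Type) [NontriviallyNormedField K] [CharZero K] [NormedAlgebra K A]
    {x : Arr A} {y : Z → Arr A} {c : Z → A} {u : ℤ × ℤ}
    (h : (2 • x) u = (∑ z, (2 * c z) • y z) u) : x u = ∑ z, c z * y z u := by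
  refine natCast_cancel K (n := 2) two_ne_zero ?_
  rw [Pi.smul_apply, nsmul_eq_mul, Finset.sum_apply] at h
  rw [h, Finset.mul_sum]
  refine Finset.sum_congr rfl fun z _ => ?_
  rw [Pi.smul_apply, smul_eq_mul, Nat.cast_ofNat, mul_assoc]

theorem exa_of_eig (hη : d.IsEta η a)
    (hΦ : ∀ (v : Z → A) (B : ℝ), (∀ z, ‖∑ z', Φ z z' * v z'‖ ≤ B) → ∀ z, ‖v z‖ ≤ B)
    {X : Z → J → Arr A} (hs : ∀ z j, SN (-1) (X z j))
    (hb : ∀ z j, Bd d.p (13 / 100) (13 / 100) B (X z j))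
    (he : ∀ z j (u : ℤ × ℤ), u.1 ≤ -1 →
      conv (d.F j) (phi (X z (d.σ j))) u = 2 * ∑ z', Φ z z' * X z' j u)
    (hy : ∀ z j, conv (X z j) (d.yv η j) 0 = 0) (z : Z) (j : J) : d.Exa j B (X z j) := by
  have hm : ∀ z j, Mod d.p (X z j) := fun z j =>
    (hb z j).mod_neg ((hs z j).mono (by norm_num)) (by norm_num) (by norm_num)
  have hp : ∀ z j, Mod d.p (phi (X z j)) := fun z j =>
    (hb z j).phi.mod_neg ((hs z j).phi.mono (by norm_num)) (by norm_num) (by norm_num)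
  have he' : ∀ z j (u : ℤ × ℤ), u.1 ≤ -1 →
      conv (d.F j) (phi (X z (d.σ j))) u = (∑ z', (2 * Φ z z') • X z' j) u := by
    intro z j u hu
    rw [he z j u hu, Finset.sum_apply, Finset.mul_sum]
    refine Finset.sum_congr rfl fun z' _ => ?_
    rw [Pi.smul_apply, smul_eq_mul, mul_assoc]
  have hγ : |(13 / 100 : ℝ)| ≤ 4 / 5 := by rw [abs_of_nonneg] <;> norm_num
  refine ⟨hs z j, hb z j, fun u hu => ?_, fun u hu => ?_⟩
  · have h := vanish (ν := fun z j => cutN (-1) (d.Dx j (X z j))) hη hΦ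
      (fun z j => (sn_cutN _ _).mono (by norm_num))
      (fun z j => (bd_Dx (hb z j) (by norm_num) hγ).cutN _) (fun j u _ => ?_)
      (fun z j => Or.inl (if_neg (by norm_num))) z j
    · have h1 : cutN (-1) (d.Dx j (X z j)) u = 0 := congrFun h u
      rwa [cutN, if_pos (by omega)] at h1
    by_cases hu : u.1 ≤ -1
    swap
    · exact Or.inl fun z => if_neg hu
    refine Or.inr fun z => ?_
    rw [conv_congr (d.F_sp j) (qd_phi_cut (Or.inr rfl) _) u (by omega)]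
    have h1 := Dx_congr (d := d) (j := j) (he' z j) u hu
    rw [Dx_Fphi (hp z _), Dx_sum _ fun z' _ => (hm z' j).smul _,
      Finset.sum_congr rfl fun z' _ => Dx_smul (hm z' j) _] at h1
    rw [qd_cancel K h1]
    refine Finset.sum_congr rfl fun z' _ => ?_
    rw [cutN, if_pos hu]
  · have h := vanish (ν := fun z j => cutN 0 (d.Dt j (X z j))) hη hΦ
      (fun z j => sn_cutN _ _)
      (fun z j => (bd_Dt (hb z j) (by norm_num) hγ).cutN _) (fun j u hu => Or.inr fun z => ?_)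
      (fun z j => Or.inr ?_) z j
    · have h1 : cutN 0 (d.Dt j (X z j)) u = 0 := congrFun h u
      rwa [cutN, if_pos (by omega)] at h1
    · rw [conv_congr (d.F_sp j) (qd_phi_cut (Or.inl rfl) _) u (by omega)]
      have h1 := Dt_congr (d := d) (j := j) (he' z j) u hu
      rw [Dt_Fphi (hp z _), Dt_sum _ fun z' _ => (hm z' j).smul _,
        Finset.sum_congr rfl fun z' _ => Dt_smul (hm z' j) _] at h1
      rw [qd_cancel K h1]
      refine Finset.sum_congr rfl fun z' _ => ?_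
      rw [cutN, if_pos hu]
    · have h1 := pair_Dt (j := j) (hm z j) (hη.dec j)
      have h2 := hy z j
      rw [yv, h1, neg_eq_zero] at h2
      rw [← h2]
      exact pair_congr (s := 0) (hη.supp j) fun u hu => if_pos (by omega)

end Dat

end Pool.Agent.Lib.MP_788af2_nt.AG
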