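import Pool.Agent.Lib.MP_788af2_nt.AG.QFormB

/-!
The invariant form: invariance under the Dwork operator.
-/

set_option linter.unusedSectionVars false

namespace Pool.Agent.Lib.MP_788af2_nt.AG

open Polynomial Filter Topology

variable {K A J Z : Type} [NontriviallyNormedField K] [IsUltrametricDist K] [CompleteSpace K]
  [CharZero K] [NormedCommRing A] [NormedAlgebra K A] [IsUltrametricDist A] [CompleteSpace A]
  [NormOneClass A] [Fintype J] [Fintype Z] [DecidableEq J] [DecidableEq Z] {d : Dat K A J Z}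

section aux

variable {p : Pm} {a y : Arr A}

lemma qe_zero : Dec p (0 : Arr A) := ⟨fun _ _ => rfl, 0, fun u => by simp⟩

lemma qe_dec_sum {ι : Type} (t : Finset ι) {f : ι → Arr A} (h : ∀ i ∈ t, Dec p (f i)) :
    Dec p (∑ i ∈ t, f i) :=
  Finset.sum_induction f (Dec p) (fun _ _ => Dec.add) qe_zero h

lemma qe_sum_conv {ι : Type} (t : Finset ι) {f : ι → Arr A} (h : ∀ i ∈ t, Dec p (f i))
    (hy : Mod p y) : conv (∑ i ∈ t, f i) y = ∑ i ∈ t, conv (f i) y := by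
  classical
  induction t using Finset.induction_on with
  | empty => simpa using zero_conv y
  | insert i t hi ih =>
    have h1 : ∀ k ∈ t, Dec p (f k) := fun k hk => h k (Finset.mem_insert_of_mem hk)
    rw [Finset.sum_insert hi, Finset.sum_insert hi,
      add_conv (h i (Finset.mem_insert_self i t)) (qe_dec_sum t h1) hy, ih h1]

lemma qe_nsmul (ha : Dec p a) (hy : Mod p y) (n : ℕ) : conv y (n • a) = n • conv y a := by
  rw [conv_comm, conv_comm y a, ← Nat.cast_smul_eq_nsmul A, smul_conv ha hy,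
    Nat.cast_smul_eq_nsmul]

lemma qe_phi_mod {γ C : ℝ} (h : Bd p (3 / 5) γ C y) (hs : SP 0 y) (hγ : γ ≤ 3 / 5) :
    Mod p (phi y) :=
  h.phi.mod_pos (by simpa using hs.phi) (by norm_num) (by linarith)

end aux

namespace Dat

variable {j : J} {x x' : Arr A} {B B' : ℝ}

lemma qe_cm_F {P : Arr A} (h : Bd d.p (3 / 5) (13 / 100) B P) (hs : SP 0 P) :
    Dec d.p (cm (d.F j) (phi P)) :=
  ((d.F_bd j).cm (d.F_sp j) h.phi (by norm_num) (by norm_num) (d.F_dec j)
    (qe_phi_mod h hs (by norm_num))).dec (by simpa using (d.F_sp j).cm hs.phi) (by norm_num) le_rfl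

theorem om_cut (h : d.Exa (d.σ j) B x) : ∃ Ux Ut : Arr A, Dec d.p Ux ∧ Dec d.p Ut ∧ SP 1 Ut ∧
    d.om j (cutN (-1) (conv (d.F j) (phi x))) =
      4 • conv (d.F j) (phi (d.om (d.σ j) x)) + (d.Dt j Ux - d.Dx j Ut) := by
  have hF := d.F_dec j
  have bx : Bd d.p (3 / 5) (13 / 100) B x :=
    h.bd.mono_neg (h.supp.mono (by norm_num)) (by norm_num) le_rfl
  have bW := (d.F_bd j).conv (d.F_sp j) bx.phi (by norm_num)
    (by rw [abs_of_nonneg] <;> norm_num)
  have mW : Mod d.p (conv (d.F j) (phi x)) := hF.conv_mod h.mod_phi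
  have eX := Dx_Fphi (d := d) (j := j) h.mod_phi
  have eT := Dt_Fphi (d := d) (j := j) h.mod_phi
  generalize conv (d.F j) (phi x) = W at bW mW eX eT ⊢
  obtain ⟨R, hR⟩ : ∃ R, R = W - cutN (-1) W := ⟨_, rfl⟩
  have sR : SP 0 R := by simpa [hR] using sp_sub_cutN (-1) W
  have bR := hR ▸ bW.sub (bW.cutN (-1))
  have mR : Mod d.p R := hR ▸ mW.sub (mW.cutN _)
  have e0 : cutN (-1) W = W - R := by rw [hR, sub_sub_cancel]
  have bPx := h.Dx_bd
  have bPt := h.Dt_bd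
  have sPx := h.dx
  have sPt : SP 0 (d.Dt (d.σ j) x) := h.dt.mono zero_le_one
  have dX : Dec d.p (cm (d.LX j) R) := ((d.LX_bd j).cm (d.LX_sp j) bR (by norm_num) (by norm_num)
    (d.LX_dec j) mR).dec (by simpa using (d.LX_sp j).cm sR) (by norm_num) (by norm_num)
  have dT : Dec d.p (cm (d.LT j) R) := ((d.LT_bd j).cm ((d.LT_sp j).mono zero_le_one) bR
    (by norm_num) (by norm_num) (d.LT_dec j) mR).dec
    (((d.LT_sp j).cm sR).mono (by norm_num)) (by norm_num) (by norm_num)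
  have dUx := ((qe_cm_F (j := j) bPx sPx).nsmul 2).neg.sub dX
  have dUt := ((qe_cm_F (j := j) bPt sPt).nsmul 2).neg.sub dT
  refine ⟨_, _, dUx, dUt, ((((d.F_sp j).cm h.dt.phi).mono (by norm_num)).nsmul 2).neg.sub
    (((d.LT_sp j).cm sR).mono (by norm_num)), ?_⟩
  have e1 : chi (d.Dx j (W - R)) = 2 • conv (d.F j) (phi (chi (d.Dx (d.σ j) x))) -
      d.Dx j (chi R) + (-(2 • cm (d.F j) (phi (d.Dx (d.σ j) x))) - cm (d.LX j) R) := by
    rw [Dx_sub mW mR, eX, chi_sub, chi_nsmul, Dx_chi, ← chi_phi]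
    simp only [cm, smul_sub]
    abel
  have e2 : chi (d.Dt j (W - R)) = 2 • conv (d.F j) (phi (chi (d.Dt (d.σ j) x))) -
      d.Dt j (chi R) + (-(2 • cm (d.F j) (phi (d.Dt (d.σ j) x))) - cm (d.LT j) R) := by
    rw [Dt_sub mW mR, eT, chi_sub, chi_nsmul, Dt_chi, ← chi_phi]
    simp only [cm, smul_sub]
    abel
  have m1 := qe_phi_mod bPx.chi sPx.chi (by norm_num)
  have m2 := qe_phi_mod bPt.chi sPt.chi (by norm_num)
  have m3 := qe_phi_mod (bd_Dt (j := d.σ j) bPx.chi le_rfl (by rw [abs_of_nonneg] <;> norm_num))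
    (sp_Dt sPx.chi) (by norm_num)
  have m4 := qe_phi_mod (bd_Dx (j := d.σ j) bPt.chi le_rfl (by rw [abs_of_nonneg] <;> norm_num))
    (sp_Dx sPt.chi) (by norm_num)
  have n1 := (hF.conv_mod m1).nsmul 2
  have n2 := (hF.conv_mod m2).nsmul 2
  rw [e0, om, e1, e2, Dt_add (n1.sub (mod_Dx mR.chi)) dUx.mod, Dt_sub n1 (mod_Dx mR.chi),
    Dx_add (n2.sub (mod_Dt mR.chi)) dUt.mod, Dx_sub n2 (mod_Dt mR.chi),
    Dt_nsmul (hF.conv_mod m1), Dx_nsmul (hF.conv_mod m2), Dt_Fphi m1, Dx_Fphi m2, Dt_Dx mR.chi,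
    om, phi_sub, conv_sub hF m3 m4]
  abel

theorem invar (h : d.Exa (d.σ j) B x) (h' : d.Exa (d.σ j) B' x') :
    d.pr j (cutN (-1) (conv (d.F j) (phi x))) (cutN (-1) (conv (d.F j) (phi x'))) =
      4 * d.pr (d.σ j) x x' := by
  obtain ⟨Ux, Ut, dx', dt', st, e⟩ := om_cut h
  have hF := d.F_dec j
  have hg := d.gi_dec j
  have d0 := hF.conv h.phi_om_dec
  have d1 := dec_Dt (j := j) dx'
  have d2 := dec_Dx (j := j) dt'
  have dm := hg.conv ((d0.nsmul 4).add (d1.sub d2))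
  have sm : SP 1 (conv (d.gi j) (4 • conv (d.F j) (phi (d.om (d.σ j) x)) +
      (d.Dt j Ux - d.Dx j Ut))) :=
    ((d.gi_sp j).conv (((((d.F_sp j).conv h.om_sp.phi).mono (by norm_num)).nsmul 4).add
      ((sp_Dt_one dx'.sp).sub (sp_Dx st)))).mono (by norm_num)
  have e1 : conv (d.F j) (conv (d.gi j) (conv (d.F j) (phi (d.om (d.σ j) x)))) =
      conv (phi (d.gi (d.σ j))) (phi (d.om (d.σ j) x)) := by
    rw [← d.F_gi j, conv_assoc hF (hF.conv hg) h.phi_om_dec.mod,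
      conv_assoc hF hg h.phi_om_dec.mod, conv_left_comm hg hF h.phi_om_dec.mod]
  have a1 := (hF.conv (hg.conv dx')).psi
  have a2 := (hF.conv (hg.conv dt')).psi
  have b0 := (d.gi_dec (d.σ j)).conv h.om_dec
  have b1 := a1.dt.add ((d.LT_dec (d.σ j)).conv a1)
  have b2 := a2.dx.add ((d.LX_dec (d.σ j)).conv a2)
  have z1 : conv (d.Dt (d.σ j) x') (psi (conv (d.F j) (conv (d.gi j) Ux))) 0 = 0 :=
    pair_zero a1.sp (by simpa using h'.dt)
  have z2 : conv (d.Dx (d.σ j) x') (psi (conv (d.F j) (conv (d.gi j) Ut))) 0 = 0 :=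
    pair_zero (s := 1) (((d.F_sp j).conv ((d.gi_sp j).conv st)).mono (by norm_num)).psi_one
      (by simpa using h'.dx)
  rw [pr, e, pair_congr (x := cutN (-1) (conv (d.F j) (phi x'))) (y := conv (d.F j) (phi x')) sm
      fun u hu => if_pos hu,
    ← pair_conv hF dm h'.mod_phi, conv_phi_zero,
    conv_add hg (d0.nsmul 4).mod (d1.sub d2).mod, conv_sub hg d1.mod d2.mod,
    conv_nsmul hg d0.mod,
    conv_add hF ((hg.conv d0).nsmul 4).mod ((hg.conv d1).sub (hg.conv d2)).mod,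
    conv_sub hF (hg.conv d1).mod (hg.conv d2).mod, conv_nsmul hF (hg.conv d0).mod, e1,
    gi_Dt dx'.mod, gi_Dx dt'.mod, psi_add, psi_sub, psi_nsmul, psi_conv_phi, psi_phi,
    d.psi_Dt j (hg.conv dx'), d.psi_Dx j (hg.conv dt'), conv_comm,
    add_conv (b0.nsmul 4) ((b1.nsmul 2).sub (b2.nsmul 2)) h'.mod,
    sub_conv (b1.nsmul 2) (b2.nsmul 2) h'.mod, conv_comm _ x', conv_comm _ x', conv_comm _ x',
    qe_nsmul b0 h'.mod, qe_nsmul b1 h'.mod, qe_nsmul b2 h'.mod]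
  simp only [Pi.add_apply, Pi.sub_apply, Pi.smul_apply]
  rw [pair_Dt h'.mod a1, pair_Dx h'.mod a2, z1, z2, pr]
  simp

theorem pr_sum {ι : Type} [Fintype ι] {X : ι → Arr A} (h : ∀ i, d.Exa j B (X i)) (s t : ι → A) :
    d.pr j (∑ i, s i • X i) (∑ i, t i • X i) = ∑ i, ∑ i', s i * t i' * d.pr j (X i) (X i') := by
  have hg := d.gi_dec j
  have dm : ∀ i, Dec d.p (conv (d.gi j) (d.om j (X i))) := fun i => hg.conv (h i).om_dec
  have e1 : conv (d.gi j) (d.om j (∑ i, s i • X i)) =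
      ∑ i, s i • conv (d.gi j) (d.om j (X i)) := by
    rw [om_sum _ fun i _ => (h i).mod.smul _,
      conv_sum _ hg fun i _ => mod_om ((h i).mod.smul _)]
    exact Finset.sum_congr rfl fun i _ => by
      rw [om_smul (h i).mod, conv_smul hg (h i).om_dec.mod]
  have mY : Mod d.p (∑ i, t i • X i) := Mod.sum _ fun i _ => (h i).mod.smul _
  rw [pr, e1, conv_comm, qe_sum_conv _ (fun i _ => (dm i).smul _) mY, Finset.sum_apply]
  refine Finset.sum_congr rfl fun i _ => ?_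
  rw [smul_conv (dm i) mY, conv_sum _ (dm i) fun i' _ => (h i').mod.smul _, Pi.smul_apply,
    Finset.sum_apply, smul_eq_mul, Finset.mul_sum]
  refine Finset.sum_congr rfl fun i' _ => ?_
  rw [conv_smul (dm i) (h i').mod, Pi.smul_apply, smul_eq_mul, pr, conv_comm (X i'), mul_assoc]

end Dat

end Pool.Agent.Lib.MP_788af2_nt.AG
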