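import Pool.Agent.Lib.MP_788af2_nt.AG.QFormB

/-!
The invariant form: the boundary functional.
-/

set_option linter.unusedSectionVars false

namespace Pool.Agent.Lib.MP_788af2_nt.AG

open Polynomial Filter Topology

variable {K A J Z : Type} [NontriviallyNormedField K] [IsUltrametricDist K] [CompleteSpace K]
  [CharZero K] [NormedCommRing A] [NormedAlgebra K A] [IsUltrametricDist A] [CompleteSpace A]
  [NormOneClass A] [Fintype J] [Fintype Z] [DecidableEq J] [DecidableEq Z] {d : Dat K A J Z}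

section aux

open Finset.HasAntidiagonal

/-- The array `h (x) c / (1 - β / t)`. -/
noncomputable def qg_E (h : PowerSeries K) (β : K) (c : A) : Arr A := fun u =>
  if u.1 ≤ 0 ∧ 0 ≤ u.2 then (PowerSeries.coeff u.2.toNat h * β ^ (-u.1).toNat) • c else 0

lemma qg_shift (h : PowerSeries K) (β : K) (c : A) {m : ℤ} (hm : m ≤ 0) (k : ℤ) (n : ℕ) :
    qg_E h β c (m - n, k) = β ^ n • qg_E h β c (m, k) := by
  simp only [qg_E]
  by_cases hk : 0 ≤ k
  · rw [if_pos ⟨by omega, hk⟩, if_pos ⟨hm, hk⟩, smul_smul,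
      show (-(m - n)).toNat = n + (-m).toNat by omega, pow_add]
    congr 1
    ring
  · rw [if_neg fun h' => hk h'.2, if_neg fun h' => hk h'.2, smul_zero]

lemma qg_X (s h : PowerSeries K) (β : K) (c : A) :
    conv (Xp A s) (qg_E h β c) = qg_E (s * h) β c := by
  funext u
  by_cases hu : u.1 ≤ 0 ∧ 0 ≤ u.2
  · rw [tb_conv_fin _ _ u (antidiagonal u.2.toNat) (fun i => ((0 : ℤ), (i.1 : ℤ)))]
    · simp only [Xp, qg_E, if_pos hu, PowerSeries.coeff_mul, Finset.sum_mul, Finset.sum_smul]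
      refine Finset.sum_congr rfl fun i hi => ?_
      have := mem_antidiagonal.1 hi
      simp only [Prod.fst_sub, Prod.snd_sub]
      rw [if_pos (by simp), if_pos (by omega), Int.toNat_natCast,
        show (u.2 - i.1).toNat = i.2 by omega, sub_zero, ← Algebra.smul_def, smul_smul, mul_assoc]
    · intro i hi j hj hij
      have h1 := mem_antidiagonal.1 (Finset.mem_coe.1 hi)
      have h2 := mem_antidiagonal.1 (Finset.mem_coe.1 hj)
      simp only [Prod.ext_iff] at hij ⊢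
      omega
    · intro v hv
      simp only [Xp, qg_E, Prod.fst_sub, Prod.snd_sub]
      split_ifs with h1 h2
      · exact absurd (Prod.ext (by simp only; omega) (by simp only; omega))
          (hv (v.2.toNat, (u.2 - v.2).toNat) (mem_antidiagonal.2 (by simp only; omega)))
      all_goals simp
  · rw [tb_conv_fin _ _ u (∅ : Finset Unit) (fun _ => 0) (by simp)]
    · simp [qg_E, if_neg hu]
    · intro v _
      simp only [Xp, qg_E, Prod.fst_sub, Prod.snd_sub]
      split_ifs with h1 h2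
      · omega
      all_goals simp

lemma qg_T {s : PowerSeries A} (h : PowerSeries K) {β : K} (c : A)
    (hs : Summable fun k : ℕ => β ^ k • PowerSeries.coeff k s) (u : ℤ × ℤ) (hu : u.1 ≤ 0) :
    conv (Tm s) (qg_E h β c) u = (∑' k : ℕ, β ^ k • PowerSeries.coeff k s) * qg_E h β c u := by
  rw [Tm_conv_apply, ← hs.tsum_mul_right]
  refine tsum_congr fun n => ?_
  rw [qg_shift h β c hu, mul_smul_comm, smul_mul_assoc]

lemma qg_row (s : PowerSeries K[X]) (h : PowerSeries K) (β : K) (c : A) (u : ℤ × ℤ)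
    (hu : u.1 ≤ 0) {k : ℤ} (hk : k ≤ 0) :
    ∑' n : ℤ, Zm A s (n, k) * qg_E h β c (u - (n, k)) =
      (PowerSeries.coeff (-k).toNat s).eval β • qg_E h β c (u.1, u.2 - k) := by
  rw [← (Nat.cast_injective (R := ℤ)).tsum_eq,
    tsum_eq_sum (s := (PowerSeries.coeff (-k).toNat s).support), eval_eq_sum, Polynomial.sum_def,
    Finset.sum_smul]
  · refine Finset.sum_congr rfl fun n _ => ?_
    have e : u - ((n : ℤ), k) = (u.1 - n, u.2 - k) := rfl
    rw [e, qg_shift h β c hu, Zm, if_pos ⟨Int.natCast_nonneg n, hk⟩, Int.toNat_natCast,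
      ← Algebra.smul_def, smul_smul]
  · intro n hn
    rw [Zm, if_pos ⟨Int.natCast_nonneg n, hk⟩, Int.toNat_natCast, notMem_support_iff.1 hn,
      map_zero, zero_mul]
  · intro n hn
    by_cases h0 : 0 ≤ n
    · exact ⟨n.toNat, Int.toNat_of_nonneg h0⟩
    · exact absurd (by simp only [Zm]; rw [if_neg fun h' => h0 h'.1, zero_mul]) hn

lemma qg_Z {p : Pm} {s : PowerSeries K} {μ : K[X]} (h : PowerSeries K) {β : K} (c : A)
    (h0 : PowerSeries.coeff 0 s = 1) (hμ : μ.eval β = 0) (hd : Dec p (Zm A (zs s μ)))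
    (hm : Mod p (qg_E h β c)) (u : ℤ × ℤ) (hu : u.1 ≤ 0) :
    conv (Zm A (zs s μ)) (qg_E h β c) u = qg_E h β c u := by
  have hS := hd.summable hm u
  have hS' : Summable (Function.uncurry fun n k : ℤ =>
    Zm A (zs s μ) (n, k) * qg_E h β c (u - (n, k))) := hS
  rw [conv, hS.tsum_prod, ← hS'.tsum_comm, tsum_eq_single 0]
  · rw [qg_row _ h β c u hu le_rfl, neg_zero, Int.toNat_zero, zs, PowerSeries.coeff_mk, h0,
      pow_zero, mul_one, eval_C, one_smul, sub_zero]
  · intro k hk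
    by_cases hk0 : k ≤ 0
    · rw [qg_row _ h β c u hu hk0, zs, PowerSeries.coeff_mk, eval_mul, eval_pow, hμ,
        zero_pow (by omega), mul_zero, zero_smul]
    · refine (tsum_congr fun n => ?_).trans tsum_zero
      simp only [Zm]
      rw [if_neg fun h' => hk0 h'.2, zero_mul]

lemma qg_le {p : Pm} {s : PowerSeries A} {β : K} (hβ : ‖β‖ ≤ 1)
    (h : ∀ n : ℕ, ‖PowerSeries.coeff n s‖ ≤ 2 ^ (-(2 * ((n : ℝ) / p.e)))) (n : ℕ) :
    ‖β ^ n • PowerSeries.coeff n s‖ ≤ ((2 : ℝ) ^ (-(2 / (p.e : ℝ)))) ^ n := by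
  rw [norm_smul, norm_pow, tb_pow rfl, div_mul_eq_mul_div, mul_div_assoc]
  exact (mul_le_of_le_one_left (norm_nonneg _) (pow_le_one₀ (norm_nonneg _) hβ)).trans (h n)

lemma qg_lt (p : Pm) : (2 : ℝ) ^ (-(2 / (p.e : ℝ))) < 1 :=
  Real.rpow_lt_one_of_one_lt_of_neg one_lt_two (neg_lt_zero.2 (div_pos two_pos p.a1_e_posR))

lemma qg_sum {p : Pm} {s : PowerSeries A} {β : K} (hβ : ‖β‖ ≤ 1)
    (h : ∀ n : ℕ, ‖PowerSeries.coeff n s‖ ≤ 2 ^ (-(2 * ((n : ℝ) / p.e)))) :
    Summable fun n : ℕ => ‖β ^ n • PowerSeries.coeff n s‖ :=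
  (summable_geometric_of_lt_one (by positivity) (qg_lt p)).of_nonneg_of_le
    (fun _ => norm_nonneg _) (qg_le hβ h)

lemma qg_cauchy {s s' : PowerSeries A} {β : K} (e : s * s' = 1)
    (h : Summable fun n : ℕ => ‖β ^ n • PowerSeries.coeff n s‖)
    (h' : Summable fun n : ℕ => ‖β ^ n • PowerSeries.coeff n s'‖) :
    (∑' n : ℕ, β ^ n • PowerSeries.coeff n s) * ∑' n : ℕ, β ^ n • PowerSeries.coeff n s' = 1 := by
  have e1 : ∀ n : ℕ, ∑ i ∈ antidiagonal n, β ^ i.1 • PowerSeries.coeff i.1 s *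
      β ^ i.2 • PowerSeries.coeff i.2 s' = β ^ n • PowerSeries.coeff n (1 : PowerSeries A) :=
    fun n => by
      rw [← e, PowerSeries.coeff_mul, Finset.smul_sum]
      refine Finset.sum_congr rfl fun i hi => ?_
      rw [smul_mul_smul_comm, ← pow_add, mem_antidiagonal.1 hi]
  rw [tsum_mul_tsum_eq_tsum_sum_antidiagonal_of_summable_norm h h', tsum_congr e1,
    tsum_eq_single 0]
  · simp
  · intro n hn
    rw [PowerSeries.coeff_one, if_neg hn, smul_zero]

lemma qg_zero_mul {R : Type} [CommRing R] (f g : PowerSeries R) :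
    PowerSeries.coeff 0 (f * g) = PowerSeries.coeff 0 f * PowerSeries.coeff 0 g := by
  simp only [PowerSeries.coeff_zero_eq_constantCoeff_apply, map_mul]

end aux

namespace Dat

lemma qg_lam (z : Z) : (d.lam (d.jz z)).eval (d.β z) = 0 := by
  rw [Geo.lam, eval_mul, eval_prod, Finset.prod_eq_zero (i := z) (by simp), mul_zero]
  rw [eval_pow, eval_sub, eval_X, eval_C, sub_self, zero_pow (d.c_ne z)]

lemma qg_gi_zero : PowerSeries.coeff 0 d.o.gi = 1 := by
  have h := congrArg (PowerSeries.coeff 0) d.o.g_gi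
  rwa [qg_zero_mul, d.o.g_zero, one_mul, PowerSeries.coeff_one,
    if_pos rfl] at h

lemma qg_gi_G : d.o.gi * d.o.G = d.o.Gi := by
  linear_combination d.o.Gi * d.o.g_gi + d.o.gi * d.o.Gi * d.o.G_sq - d.o.gi * d.o.G * d.o.G_Gi

lemma qg_sq (z : Z) : PowerSeries.coeff 0 (d.κ z) * PowerSeries.coeff 0 (d.κ z) =
    ∑' k : ℕ, d.β z ^ k • PowerSeries.coeff k (d.gt (d.jz z)) := by
  have h := congrArg (PowerSeries.coeff 0) (d.κ_sq z)
  rw [sq, qg_zero_mul, Tay, PowerSeries.coeff_mk] at h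
  rw [h]
  exact tsum_congr fun k => by rw [Nat.choose_zero_right, Nat.cast_one, one_mul, Nat.sub_zero]

theorem gi_evA (z : Z) : ∃ b : A, b * PowerSeries.coeff 0 (d.κ z) = 1 ∧ ‖b‖ ≤ 1 ∧
    ∀ u : ℤ × ℤ, u.1 ≤ 0 → conv (d.gi (d.jz z)) (d.evA z) u = if 0 ≤ u.2 then
      (PowerSeries.coeff u.2.toNat d.o.Gi * d.β z ^ (-u.1).toNat) • b else 0 := by
  have s1 := qg_sum (d.β_le z) (d.git_le (d.jz z))
  have s2 := qg_sum (d.β_le z) (d.gt_le (d.jz z))
  have a := tb_dec (tb_Tm_supp _) zero_le_one one_le_two (d.tb_T (d.git_le (d.jz z)))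
  have b := tb_dec (tb_Xp_supp (A := A) _) zero_le_one one_le_two (d.tb_X d.o.gi_le)
  have c := tb_dec (tb_Zm_supp (A := A) _) zero_le_one one_le_two (d.tb_Z d.o.gi_le (d.jz z))
  have m : Mod d.p (d.evA z) := (d.evA_bd z).mod_neg (d.evA_sn z) (by norm_num) (by norm_num)
  have e : d.evA z = qg_E d.o.G (d.β z) (PowerSeries.coeff 0 (d.κ z)) := rfl
  rw [e] at m
  refine ⟨(∑' k : ℕ, d.β z ^ k • PowerSeries.coeff k (d.git (d.jz z))) *
    PowerSeries.coeff 0 (d.κ z), ?_, ?_, fun u hu => ?_⟩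
  · rw [mul_assoc, qg_sq, mul_comm]
    exact qg_cauchy (d.g_gi _) s2 s1
  · refine (norm_mul_le _ _).trans (mul_le_one₀ ?_ (norm_nonneg _) ?_)
    · exact IsUltrametricDist.norm_tsum_le_of_forall_le_of_nonneg zero_le_one fun n =>
        (qg_le (d.β_le z) (d.git_le (d.jz z)) n).trans
          (pow_le_one₀ (by positivity) (qg_lt d.p).le)
    · rw [← sub_add_cancel (PowerSeries.coeff 0 (d.κ z)) 1]
      exact (IsUltrametricDist.norm_add_le_max _ _).trans
        (max_le ((d.κ_zero z).trans (by norm_num)) norm_one.le)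
  · have h1 : ∀ v : ℤ × ℤ, v.1 ≤ 0 → conv (Xp A d.o.gi) (conv (Zm A (zs d.o.gi (d.lam (d.jz z))))
        (qg_E d.o.G (d.β z) (PowerSeries.coeff 0 (d.κ z)))) v =
        qg_E d.o.Gi (d.β z) (PowerSeries.coeff 0 (d.κ z)) v := fun v hv => by
      rw [conv_congr b.sp (qg_Z _ _ qg_gi_zero (qg_lam z) c m) v (by rwa [add_zero]), qg_X,
        qg_gi_G]
    rw [e, gi, conv_assoc a (b.conv c) m, conv_assoc b c m,
      conv_congr a.sp h1 u (by rwa [add_zero]), qg_T _ _ s1.of_norm u hu, qg_E]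
    by_cases hk : 0 ≤ u.2
    · rw [if_pos ⟨hu, hk⟩, if_pos hk, mul_smul_comm]
    · rw [if_neg fun h' => hk h'.2, if_neg hk, mul_zero]

end Dat

end Pool.Agent.Lib.MP_788af2_nt.AG
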