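import Pool.Agent.Lib.MP_788af2_nt.AG.QFormF
import Pool.Agent.Lib.MP_788af2_nt.AG.QFormG

/-!
The invariant form: the leading term.
-/

set_option linter.unusedSectionVars false

namespace Pool.Agent.Lib.MP_788af2_nt.AG

open Polynomial Filter Topology

variable {K A J Z : Type} [NontriviallyNormedField K] [IsUltrametricDist K] [CompleteSpace K]
  [CharZero K] [NormedCommRing A] [NormedAlgebra K A] [IsUltrametricDist A] [CompleteSpace A]
  [NormOneClass A] [Fintype J] [Fintype Z] [DecidableEq J] [DecidableEq Z] {d : Dat K A J Z}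

namespace Dat

variable {j : J} {x y y' : Arr A} {B B' : ℝ}

lemma qh_le {p : Pm} {w : Arr A} {α γ C : ℝ} {β : K} (hw : Bd p α γ C w) (hβ : ‖β‖ ≤ 1) (n : ℕ) :
    ‖β ^ n • w (n, 0)‖ ≤ C * (2 ^ (-(α / p.e))) ^ n := by
  have h1 : ‖β ^ n‖ ≤ 1 := by
    rw [norm_pow]
    exact pow_le_one₀ (norm_nonneg _) hβ
  refine (norm_smul_le _ _).trans ((mul_le_of_le_one_left (norm_nonneg _) h1).trans
    ((hw _).trans (le_of_eq ?_)))
  rw [← Real.rpow_natCast, ← Real.rpow_mul zero_le_two]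
  congr 2
  simp only [abs_zero, Int.cast_zero, Int.cast_natCast]
  ring

lemma qh_summable {p : Pm} {w : Arr A} {γ C : ℝ} {β : K} (hw : Bd p (3 / 5) γ C w)
    (hβ : ‖β‖ ≤ 1) : Summable fun n : ℕ => β ^ n • w (n, 0) := by
  have he := p.a1_e_posR
  exact Summable.of_norm_bounded ((summable_geometric_of_lt_one (by positivity)
    (Real.rpow_lt_one_of_one_lt_of_neg one_lt_two (neg_lt_zero.2 (by positivity)))).mul_left C)
    (qh_le hw hβ)

lemma qh_norm {p : Pm} {w : Arr A} {γ C : ℝ} {β : K} (hw : Bd p (3 / 5) γ C w) (hβ : ‖β‖ ≤ 1) :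
    ‖∑' n : ℕ, β ^ n • w (n, 0)‖ ≤ C := by
  have he := p.a1_e_posR
  refine IsUltrametricDist.norm_tsum_le_of_forall_le_of_nonneg hw.nonneg fun n =>
    (qh_le hw hβ n).trans (mul_le_of_le_one_right hw.nonneg (pow_le_one₀ (by positivity) ?_))
  exact Real.rpow_le_one_of_one_le_of_nonpos one_le_two (neg_nonpos.2 (by positivity))

/-- The pairing of `ρ` with the form of an exact functional. -/
theorem pr_rho (z' : Z) (h : d.Exa (d.jz z') B x) : ∃ b : A,
    b * PowerSeries.coeff 0 (d.κ z') = 1 ∧ ‖b‖ ≤ 1 ∧ d.pr (d.jz z') x (d.ρ z') =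
      (d.c z' : A) * (b * ∑' n : ℕ, d.β z' ^ n • d.Dx (d.jz z') x (n, 0)) := by
  obtain ⟨b, hb1, hb2, hb⟩ := gi_evA (d := d) z'
  refine ⟨b, hb1, hb2, ?_⟩
  have hρ : Bd d.p (13 / 100) (13 / 100) 16 (d.ρ z') := by
    have h1 := d.Rz_bd z' (d.jz z')
    rwa [Rz, if_pos rfl] at h1
  have hk : ∀ (w : Arr A) (u : ℤ × ℤ), u.2 < 0 → chi w u = 0 := fun w u hu =>
    if_neg (not_le.2 hu)
  have h1 : SP 0 (d.Dx (d.jz z') (d.ρ z')) := fun u hu => d.ρ_Dx z' u (by omega)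
  have h2 : ∀ v : ℤ × ℤ, v.1 ≤ 0 → conv (d.gi (d.jz z')) (d.Dt (d.jz z') (d.ρ z')) v =
      -(d.c z' : A) * conv (d.gi (d.jz z')) (d.evA z') v := fun v hv => by
    rw [conv_congr (s' := 0) (y := (-(d.c z' : A)) • d.evA z') (d.gi_sp _) (fun u hu => ?_) v
      (by omega), conv_smul ((d.gi_bd _).dec (d.gi_sp _) (by norm_num) (by norm_num))
      ((d.evA_bd z').mod_neg (d.evA_sn z') (by norm_num) (by norm_num)), Pi.smul_apply, smul_eq_mul]
    refine (d.ρ_Dt z' u hu).trans ?_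
    rw [Pi.smul_apply, smul_eq_mul, Nat.cast_smul_eq_nsmul, nsmul_eq_mul, neg_mul]
  have hG : PowerSeries.coeff 0 d.o.Gi = 1 := by
    have h3 := congrArg (PowerSeries.coeff 0) d.o.G_Gi
    have h4 := d.o.G_zero
    simp only [PowerSeries.coeff_zero_eq_constantCoeff, map_mul, map_one] at h3 h4 ⊢
    rwa [h4, one_mul] at h3
  have hg : Function.Injective fun n : ℕ => ((-(n : ℤ), 0) : ℤ × ℤ) := fun n m h => by
    simpa using h
  rw [pr, om, term_one hρ (fun u hu => d.ρ_supp z' u (Or.inl (by omega)))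
    (fun u hu => d.ρ_supp z' u (Or.inr (by omega))) h.Dx_bd.chi h.dx.chi (hk _) h.Dt_bd.chi
    (h.dt.mono zero_le_one).chi (hk _),
    pair_zero h.dt.chi (((d.gi_sp _).conv h1).mono (by norm_num)), zero_sub, conv, ← hg.tsum_eq,
    ← (qh_summable h.Dx_bd (d.β_le z')).tsum_mul_left,
    ← ((qh_summable h.Dx_bd (d.β_le z')).mul_left b).tsum_mul_left, ← tsum_neg]
  · refine tsum_congr fun n => ?_
    have h3 : (0 : ℤ × ℤ) - (-(n : ℤ), 0) = ((n : ℤ), 0) := by ext <;> simp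
    rw [h2 _ (by simp only; omega), hb _ (by simp only; omega), if_pos le_rfl, h3, chi,
      if_pos le_rfl]
    simp only [Int.toNat_zero, hG, one_mul, neg_neg, Int.toNat_natCast, neg_mul, mul_smul_comm,
      smul_mul_assoc, mul_assoc, smul_neg]
  · intro v hv
    have h3 : v.1 ≤ 0 := not_lt.1 fun h3 => hv (by
      beta_reduce
      rw [h.dx.chi (0 - v) (by simp only [Prod.fst_sub, Prod.fst_zero]; omega), mul_zero])
    have h4 : v.2 ≤ 0 := not_lt.1 fun h4 => hv (by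
      beta_reduce
      rw [hk _ (0 - v) (by simp only [Prod.snd_sub, Prod.snd_zero]; omega), mul_zero])
    have h5 : 0 ≤ v.2 := not_lt.1 fun h5 => hv (by
      beta_reduce
      rw [h2 v h3, hb v h3, if_neg (not_le.2 h5), mul_zero, zero_mul])
    exact ⟨(-v.1).toNat, Prod.ext (by simp only; omega) (by simp only; omega)⟩

theorem value_one (z z' : Z) (hys : SN (-1) y) (hy : Bd d.p (13 / 100) (13 / 100) B y)
    (h : d.Exa (d.jz z') B' (d.Rz z (d.jz z') + (d.c z : A) • y)) : ∃ T : A, ‖T‖ ≤ 2 * B ∧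
    d.pr (d.jz z') (d.Rz z (d.jz z') + (d.c z : A) • y) (d.ρ z') =
      (if z = z' then (d.c z' : A) else 0) + (d.c z : A) * (d.c z' : A) * T := by
  obtain ⟨b, hb1, hb2, hb⟩ := pr_rho z' h
  have hys' : SN 0 y := hys.mono (by norm_num)
  have hRs : SN 0 (d.Rz z (d.jz z')) := (d.Rz_sn z _).mono (by norm_num)
  have hy1 : Bd d.p (3 / 5) (13 / 100) (2 * B) (d.Dx (d.jz z') y) :=
    bd_Dx (hy.mono_neg hys' (by norm_num) le_rfl) le_rfl (by rw [abs_of_pos] <;> norm_num)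
  have hR1 : Bd d.p (3 / 5) (13 / 100) (2 * 16) (d.Dx (d.jz z') (d.Rz z (d.jz z'))) :=
    bd_Dx ((d.Rz_bd z _).mono_neg hRs (by norm_num) le_rfl) le_rfl
      (by rw [abs_of_pos] <;> norm_num)
  have hm : Mod d.p y := hy.mod_neg hys' (by norm_num) (by norm_num)
  have h1 : b * ∑' n : ℕ, d.β z' ^ n • d.Dx (d.jz z') (d.Rz z (d.jz z')) (n, 0) =
      if z = z' then 1 else 0 := by
    by_cases hz : d.jz z' = d.jz z
    · have h2 := d.ρ_Px z z' hz 0 le_rfl
      rw [Rz, if_pos hz, hz, Dx, h2]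
      by_cases h3 : z = z'
      · rw [if_pos ⟨rfl, h3.symm⟩, if_pos h3, h3, hb1]
      · rw [if_neg fun h4 => h3 h4.2.symm, if_neg h3, mul_zero]
    · rw [Rz, if_neg hz, Dx_zero, if_neg fun h3 => hz (by rw [h3])]
      simp only [Pi.zero_apply, smul_zero, tsum_zero, mul_zero]
  refine ⟨b * ∑' n : ℕ, d.β z' ^ n • d.Dx (d.jz z') y (n, 0), (norm_mul_le _ _).trans
    ((mul_le_of_le_one_left (norm_nonneg _) hb2).trans (qh_norm hy1 (d.β_le z'))), ?_⟩
  have h2 : ∑' n : ℕ, d.β z' ^ n • d.Dx (d.jz z') (d.Rz z (d.jz z') + (d.c z : A) • y) (n, 0) =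
      ∑' n : ℕ, d.β z' ^ n • d.Dx (d.jz z') (d.Rz z (d.jz z')) (n, 0) +
        (d.c z : A) * ∑' n : ℕ, d.β z' ^ n • d.Dx (d.jz z') y (n, 0) := by
    rw [Dx_add ((d.Rz_bd z _).mod_neg hRs (by norm_num) (by norm_num)) (hm.smul _), Dx_smul hm,
      ← (qh_summable hy1 (d.β_le z')).tsum_mul_left, ← (qh_summable hR1 (d.β_le z')).tsum_add
        ((qh_summable hy1 (d.β_le z')).mul_left _)]
    refine tsum_congr fun n => ?_
    rw [Pi.add_apply, Pi.smul_apply, smul_eq_mul, smul_add, mul_smul_comm]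
  rw [hb, h2, mul_add, h1]
  split_ifs <;> ring

end Dat

end Pool.Agent.Lib.MP_788af2_nt.AG
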