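import Pool.Agent.Lib.MP_788af2_nt.AG.QFormG

/-!
The invariant form: the second order terms.
-/

set_option linter.unusedSectionVars false

namespace Pool.Agent.Lib.MP_788af2_nt.AG

open Polynomial Filter Topology

variable {K A J Z : Type} [NontriviallyNormedField K] [IsUltrametricDist K] [CompleteSpace K]
  [CharZero K] [NormedCommRing A] [NormedAlgebra K A] [IsUltrametricDist A] [CompleteSpace A]
  [NormOneClass A] [Fintype J] [Fintype Z] [DecidableEq J] [DecidableEq Z] {d : Dat K A J Z}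

namespace Dat

variable {j : J} {x y y' : Arr A} {B B' : ℝ}

lemma qi_Rz (z : Z) : d.Rz z (d.jz z) = d.ρ z := if_pos rfl

lemma qi_mod (z : Z) (j : J) : Mod d.p (d.Rz z j) :=
  (d.Rz_bd z j).mod_neg ((d.Rz_sn z j).mono (by norm_num)) (by norm_num) (by norm_num)

lemma qi_chn (z : Z) {a w : Arr A} (ha : Bd d.p (3 / 5) (-(4 / 5)) 2 a) (hs : SP 0 a)
    (hw : ∀ u : ℤ × ℤ, u.2 < 0 → w u = 0) (h0 : SP 0 (chn (w - conv a (d.ρ z)))) :
    Dec d.p (chn (w - conv a (d.ρ z))) := by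
  have h1 := (d.Rz_bd z (d.jz z)).mono_neg ((d.Rz_sn z _).mono (by norm_num))
    (show (13 / 100 : ℝ) ≤ 3 / 5 by norm_num) le_rfl
  rw [qi_Rz] at h1
  have h2 := (ha.chn_conv hs h1 le_rfl (by norm_num)
    fun u hu => d.ρ_supp z u (Or.inr (by omega))).neg
  have e : chn (w - conv a (d.ρ z)) = -chn (conv a (d.ρ z)) := by
    funext u
    simp only [chn, Pi.neg_apply, Pi.sub_apply]
    split_ifs with h
    · rw [hw u h, zero_sub]
    · rw [neg_zero]
  rw [← e] at h2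
  exact h2.dec h0 (by norm_num) (by norm_num)

lemma qi_Dx (z : Z) (j : J) : SP 0 (d.Dx j (d.Rz z j)) := by
  by_cases h : j = d.jz z
  · subst h
    rw [qi_Rz]
    exact fun u hu => d.ρ_Dx z u (by omega)
  · rw [Rz, if_neg h, Dx_zero]
    exact fun _ _ => rfl

theorem om_rho (z : Z) : Dec d.p (chn (d.Dx (d.jz z) (d.ρ z))) ∧
    Dec d.p (chn (d.Dt (d.jz z) (d.ρ z))) ∧ SP 1 (chn (d.Dt (d.jz z) (d.ρ z))) := by
  have h1 : SP 1 (chn (d.Dt (d.jz z) (d.ρ z))) := by
    intro u hu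
    rw [chn]
    split_ifs with h
    · rw [Dt, d.ρ_Dt z u (by omega), evA, if_neg (by omega), smul_zero, neg_zero]
    · rfl
  have h2 := qi_Dx (d := d) z (d.jz z)
  rw [qi_Rz] at h2
  exact ⟨qi_chn z (d.LX_bd _) (d.LX_sp _) (fun u hu => by
      rw [dx, d.ρ_supp z u (Or.inr (by omega)), smul_zero]) h2.chn,
    qi_chn z (d.LT_bd _) ((d.LT_sp _).mono zero_le_one) (fun u hu => by
      rw [dt, d.ρ_supp z u (Or.inr (by omega)), smul_zero]) (h1.mono zero_le_one), h1⟩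

lemma qi_evA (z : Z) : Mod d.p (d.evA z) :=
  (d.evA_bd z).mod_neg (d.evA_sn z) (by norm_num) (by norm_num)

lemma qi_sum {b : Arr A} (hb : Dec d.p b) {β : K} (hβ : ‖β‖ ≤ 1) (k : ℤ) :
    Summable fun n : ℕ => β ^ n • b (n, k) := by
  obtain ⟨g, hg, h⟩ := a2_dec_le hb
  have hi : Function.Injective fun n : ℕ => (((n : ℤ), k) : ℤ × ℤ) := fun n m e => by
    simpa using e
  refine (hg.comp_injective hi).of_norm_bounded fun n => le_trans ?_ (h (n, k))
  have he := d.p.a1_e_posR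
  have h1 : (1 : ℝ) ≤ 2 ^ (13 / 50 * (((n : ℤ) : ℝ) / d.p.e) + 3 / 10 * ((|k| : ℤ) : ℝ)) := by
    refine Real.one_le_rpow one_le_two ?_
    have h2 : (0 : ℝ) ≤ ((|k| : ℤ) : ℝ) := by exact_mod_cast abs_nonneg k
    have h3 : (0 : ℝ) ≤ ((n : ℤ) : ℝ) := by exact_mod_cast Nat.zero_le n
    positivity
  rw [norm_smul, norm_pow]
  exact (mul_le_of_le_one_left (norm_nonneg _) (pow_le_one₀ (norm_nonneg _) hβ)).trans
    (le_mul_of_one_le_right (norm_nonneg _) h1)

/-- The boundary functional kills the negative part of `D ρ`. -/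
theorem evA_chn (z z' : Z) (hz : d.jz z' = d.jz z) :
    conv (d.evA z') (conv (d.gi (d.jz z)) (chn (d.Dx (d.jz z) (d.ρ z)))) 0 = 0 := by
  obtain ⟨hb, -, -⟩ := om_rho (d := d) z
  obtain ⟨b, -, -, hg⟩ := gi_evA (d := d) z'
  rw [hz] at hg
  have hS := hb.summable ((d.gi_dec (d.jz z)).conv_mod (qi_evA z')) 0
  rw [pair_conv (d.gi_dec _) hb (qi_evA z'), conv_comm, conv,
    ← (Equiv.prodComm ℤ ℤ).tsum_eq]
  refine ((Equiv.prodComm ℤ ℤ).summable_iff.2 hS).tsum_prod.trans ?_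
  refine (tsum_congr fun k => ?_).trans tsum_zero
  simp only [Function.comp_apply, Equiv.prodComm_apply, Prod.swap_prod_mk]
  by_cases hk : k < 0
  · have hi : Function.Injective fun n : ℕ => (n : ℤ) := Nat.cast_injective
    rw [← hi.tsum_eq]
    · have h1 := d.ρ_Px z z' hz k hk.le
      rw [if_neg fun h => hk.ne h.1] at h1
      have h2 := qi_sum hb (d.β_le z') k
      have h3 : ∑' n : ℕ, d.β z' ^ n • chn (d.Dx (d.jz z) (d.ρ z)) (n, k) = 0 := by
        rw [← h1]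
        exact tsum_congr fun n => by rw [chn, if_pos hk, Dx]
      have h4 := h2.tsum_mul_right (PowerSeries.coeff (-k).toNat d.o.Gi • b)
      rw [h3, zero_mul] at h4
      rw [← h4]
      refine tsum_congr fun n => ?_
      rw [hg _ (by simp), if_pos (by simpa using hk.le)]
      simp only [zero_sub, Prod.fst_neg, Prod.snd_neg, neg_neg,
        Int.toNat_natCast, smul_mul_assoc, mul_smul_comm, smul_smul]
    · intro n hn
      by_cases h : n < 0
      · exact absurd (by simp only [hb.1 (n, k) h, zero_mul]) hn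
      · exact ⟨n.toNat, Int.toNat_of_nonneg (not_lt.1 h)⟩
  · refine (tsum_congr fun n => ?_).trans tsum_zero
    rw [chn, if_neg hk, zero_mul]

lemma qi_smul {w : Arr A} (hw : Dec d.p w) (hx : Mod d.p x) (c : A) :
    conv (c • x) w 0 = c * conv x w 0 := by
  rw [conv_comm, conv_smul hw hx, conv_comm]
  rfl

lemma qi_om (z : Z) (j : J) : Dec d.p (d.om j (d.Rz z j)) ∧ SP 1 (d.om j (d.Rz z j)) := by
  by_cases h : j = d.jz z
  · subst h
    obtain ⟨h1, h2, h3⟩ := om_rho (d := d) z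
    rw [om_eq_chn (qi_mod z _), qi_Rz]
    exact ⟨(dec_Dx h2).sub (dec_Dt h1), (sp_Dx h3).sub (sp_Dt_one h1.sp)⟩
  · rw [Rz, if_neg h, om_zero]
    exact ⟨(d.gi_dec j).of_le fun u => by simp, fun _ _ => rfl⟩

theorem pr_Rz (z z' : Z) (hys : SN (-1) y') (hy : Bd d.p (13 / 100) (13 / 100) B y')
    (h : d.Exa j B' (d.Rz z' j + (d.c z' : A) • y')) : d.pr j (d.Rz z j) y' = 0 := by
  by_cases hj : j = d.jz z
  swap
  · rw [pr, Rz, if_neg hj, om_zero, conv_zero, conv_zero]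
    rfl
  subst hj
  obtain ⟨h1, h2, h3⟩ := om_rho (d := d) z
  have hm : Mod d.p y' := hy.mod_neg (hys.mono (by norm_num)) (by norm_num) (by norm_num)
  have hY := hm.smul (d.c z' : A)
  have hgi := d.gi_dec (d.jz z)
  have eY : (d.c z' : A) • y' = d.Rz z' (d.jz z) + (d.c z' : A) • y' - d.Rz z' (d.jz z) :=
    (add_sub_cancel_left _ _).symm
  refine natCast_cancel K (d.c_ne z') ?_
  rw [pr, ← qi_smul (hgi.conv (qi_om z _).1) hm, mul_zero, om_eq_chn (qi_mod z _), qi_Rz,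
    conv_sub hgi (dec_Dx h2).mod (dec_Dt h1).mod, conv_comm,
    sub_conv (hgi.conv (dec_Dx h2)) (hgi.conv (dec_Dt h1)) hY, Pi.sub_apply,
    conv_comm _ ((d.c z' : A) • y'), conv_comm _ ((d.c z' : A) • y'), gi_Dx h2.mod, gi_Dt h1.mod,
    pair_Dx hY (hgi.conv h2), pair_Dt hY (hgi.conv h1)]
  have a1 : SP (1 - (0 + 1)) (d.Dx (d.jz z) ((d.c z' : A) • y')) := by
    rw [eY, Dx_sub h.mod (qi_mod z' _)]
    exact h.dx.sub (qi_Dx z' _)
  rw [pair_zero ((d.gi_sp _).conv h3) a1, neg_zero, zero_sub, neg_neg]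
  have a2 : ∀ u : ℤ × ℤ, u.1 ≤ -0 → d.Dt (d.jz z) ((d.c z' : A) • y') u =
      -d.Dt (d.jz z) (d.Rz z' (d.jz z)) u := fun u hu => by
    rw [eY, Dt_sub h.mod (qi_mod z' _), Pi.sub_apply, h.dt u (by omega), zero_sub]
  by_cases hz : d.jz z = d.jz z'
  · rw [pair_congr (hgi.conv h1).sp (y := (d.c z' : A) • d.evA z') fun u hu => ?_,
      qi_smul (hgi.conv h1) (qi_evA z'), evA_chn z z' hz.symm, mul_zero]
    rw [a2 u hu, hz, qi_Rz, Dt, d.ρ_Dt z' u (by omega), neg_neg, Nat.cast_smul_eq_nsmul,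
      Pi.smul_apply, Nat.cast_smul_eq_nsmul]
  · rw [pair_congr (hgi.conv h1).sp (y := 0) fun u hu => ?_, zero_conv]
    · rfl
    · rw [a2 u hu, Rz, if_neg hz, Dt_zero, Pi.zero_apply, neg_zero]

theorem value_two (z z' : Z) (hys : SN (-1) y) (hy : Bd d.p (13 / 100) (13 / 100) B y)
    (hys' : SN (-1) y') (hy' : Bd d.p (13 / 100) (13 / 100) B y')
    (h : d.Exa j B' (d.Rz z j + (d.c z : A) • y))
    (h' : d.Exa j B' (d.Rz z' j + (d.c z' : A) • y')) : ∃ T : A, ‖T‖ ≤ 4 * B ^ 2 ∧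
    d.pr j (d.Rz z j + (d.c z : A) • y) y' = (d.c z : A) * T := by
  have hm : Mod d.p y := hy.mod_neg (hys.mono (by norm_num)) (by norm_num) (by norm_num)
  have hm' : Mod d.p y' := hy'.mod_neg (hys'.mono (by norm_num)) (by norm_num) (by norm_num)
  have hgi := d.gi_dec j
  obtain ⟨h1, h2⟩ := qi_om (d := d) z j
  have e : d.om j (d.Rz z j + (d.c z : A) • y) =
      d.om j (d.Rz z j) + (d.c z : A) • d.om j y := by
    rw [om_add (qi_mod z j) (hm.smul _), om_smul hm]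
  have h3 : SP 0 (d.om j y) := fun u hu => by
    have h4 := h.om_sp u (by omega)
    rw [e, Pi.add_apply, h2 u (by omega), zero_add, Pi.smul_apply, smul_eq_mul] at h4
    exact natCast_cancel K (d.c_ne z) (by rw [h4, mul_zero])
  have h4 := om_bd (j := j) (hys.mono (by norm_num)) hy
  have h5 := h4.dec h3 (by norm_num) (by norm_num)
  have h6 := (d.gi_bd j).conv (d.gi_sp j) h4 le_rfl (by rw [abs_neg, abs_of_pos (by norm_num)])
  have h7 := hy'.pair h6 (hgi.conv h5).sp (by norm_num)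
    (by rw [abs_of_pos (by norm_num)]; norm_num)
  refine ⟨_, h7.trans_eq (by ring), ?_⟩
  have h8 := pr_Rz z z' hys' hy' h'
  rw [pr, conv_comm] at h8
  rw [pr, e, conv_add hgi h1.mod (h5.smul _).mod, conv_smul hgi h5.mod, conv_comm,
    add_conv (hgi.conv h1) ((hgi.conv h5).smul _) hm', Pi.add_apply, h8, zero_add,
    smul_conv (hgi.conv h5) hm', conv_comm]
  rfl

end Dat

end Pool.Agent.Lib.MP_788af2_nt.AG
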