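import Pool.Agent.Lib.MP_788af2_nt.AG.QFormC
import Pool.Agent.Lib.MP_788af2_nt.AG.QFormD
import Pool.Agent.Lib.MP_788af2_nt.AG.QFormE
import Pool.Agent.Lib.MP_788af2_nt.AG.QFormH
import Pool.Agent.Lib.MP_788af2_nt.AG.QFormI

/-!
The invariant form on the slope one part.
-/

set_option linter.unusedSectionVars false

namespace Pool.Agent.Lib.MP_788af2_nt.AG

open Polynomial Filter Topology Pool.Agent.Lib.MP_788af2_nt.AS Pool.Agent.Lib.MP_a3f657_nt.Two

section aux

variable {K A J Z : Type} [NontriviallyNormedField K] [IsUltrametricDist K] [CompleteSpace K]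
  [CharZero K] [NormedCommRing A] [NormedAlgebra K A] [IsUltrametricDist A] [CompleteSpace A]
  [NormOneClass A] [Fintype J] [Fintype Z] [DecidableEq J] [DecidableEq Z] {d : Dat K A J Z}

namespace Dat

lemma qf_pr_add {j : J} {x y y' : Arr A} {B : ℝ} (h : d.Exa j B x) (hy : Mod d.p y)
    (hy' : Mod d.p y') (c : A) : d.pr j x (y + c • y') = d.pr j x y + c * d.pr j x y' := by
  have hm : Dec d.p (conv (d.gi j) (d.om j x)) := (d.gi_dec j).conv h.om_dec
  unfold pr
  rw [conv_comm, conv_add hm hy (hy'.smul c), conv_smul hm hy', conv_comm _ y, conv_comm _ y']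
  simp

lemma qf_inv {Φ : Matrix Z Z A} {X : Z → J → Arr A} {B : ℝ} (hx : ∀ z j, d.Exa j B (X z j))
    (he : ∀ z j (u : ℤ × ℤ), u.1 ≤ -1 →
      conv (d.F j) (phi (X z (d.σ j))) u = 2 * ∑ z', Φ z z' * X z' j u) :
    Φ * (Matrix.of fun z z' => ∑ j, d.pr j (X z j) (X z' j)) * Φ.transpose =
      Matrix.of fun z z' => ∑ j, d.pr j (X z j) (X z' j) := by
  have hc : ∀ z j, cutN (-1) (conv (d.F j) (phi (X z (d.σ j)))) =
      ∑ z', (2 * Φ z z') • X z' j := by
    intro z j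
    funext u
    rw [Finset.sum_apply]
    unfold cutN
    split_ifs with hu
    · rw [he z j u hu, Finset.mul_sum]
      exact Finset.sum_congr rfl fun z' _ => by simp [mul_assoc]
    · symm
      refine Finset.sum_eq_zero fun z' _ => ?_
      simp [(hx z' j).supp u (by omega)]
  ext z z'
  refine natCast_cancel K (n := 4) (by norm_num) ?_
  have h1 : ∀ j, (4 : A) * d.pr (d.σ j) (X z (d.σ j)) (X z' (d.σ j)) =
      ∑ i, ∑ i', (2 * Φ z i) * (2 * Φ z' i') * d.pr j (X i j) (X i' j) := by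
    intro j
    rw [← invar (hx z (d.σ j)) (hx z' (d.σ j)), hc, hc]
    exact pr_sum (fun i => hx i j) _ _
  have h2 : (4 : A) * ∑ j, d.pr j (X z j) (X z' j) =
      ∑ j, ∑ i, ∑ i', (2 * Φ z i) * (2 * Φ z' i') * d.pr j (X i j) (X i' j) := by
    rw [← Equiv.sum_comp d.σ (fun j => d.pr j (X z j) (X z' j)), Finset.mul_sum]
    exact Finset.sum_congr rfl fun j _ => h1 j
  simp only [Matrix.of_apply, Nat.cast_ofNat]
  rw [h2]
  simp only [Matrix.mul_apply, Matrix.of_apply, Matrix.transpose_apply, Finset.mul_sum,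
    Finset.sum_mul]
  rw [Finset.sum_comm]
  conv_rhs => rw [Finset.sum_comm]
  refine Finset.sum_congr rfl fun i _ => ?_
  conv_rhs => rw [Finset.sum_comm]
  refine Finset.sum_congr rfl fun i' _ => Finset.sum_congr rfl fun j _ => ?_
  ring

lemma qf_val {ζ : Z → J × Ex 1 → A} {B : ℝ} (hB : 1 ≤ B) (hx : ∀ z j, d.Exa j B (d.Xi ζ z j))
    (hζ : ∀ z j, Bd d.p (13 / 100) (13 / 100) B (arr (ζ z) j)) (z z' : Z) : ∃ T : A,
    ‖T‖ ≤ 4 * B ^ 2 ∧ ∑ j, d.pr j (d.Xi ζ z j) (d.Xi ζ z' j) =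
      (if z = z' then (d.c z' : A) else 0) + (d.c z : A) * (d.c z' : A) * T := by
  obtain ⟨T1, b1, e1⟩ := value_one z z' (arr_sn (ζ z) _) (hζ z _) (hx z (d.jz z'))
  choose T2 b2 e2 using fun j => value_two z z' (arr_sn (ζ z) j) (hζ z j) (arr_sn (ζ z') j)
    (hζ z' j) (hx z j) (hx z' j)
  refine ⟨T1 + ∑ j, T2 j, ?_, ?_⟩
  · refine (IsUltrametricDist.norm_add_le_max _ _).trans (max_le (b1.trans (by nlinarith)) ?_)
    exact IsUltrametricDist.norm_sum_le_of_forall_le_of_nonneg (by positivity) fun j _ => b2 j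
  · have h1 : ∀ j, d.pr j (d.Xi ζ z j) (d.Xi ζ z' j) =
        d.pr j (d.Xi ζ z j) (d.Rz z' j) + (d.c z' : A) * ((d.c z : A) * T2 j) := by
      intro j
      have m1 : Mod d.p (d.Rz z' j) := (d.Rz_bd z' j).mod_neg ((d.Rz_sn z' j).mono (by norm_num))
        (by norm_num) (by norm_num)
      have m2 : Mod d.p (arr (ζ z') j) := (hζ z' j).mod_neg ((arr_sn _ j).mono (by norm_num))
        (by norm_num) (by norm_num)
      rw [← e2 j]
      exact qf_pr_add (hx z j) m1 m2 _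
    have h2 : ∑ j, d.pr j (d.Xi ζ z j) (d.Rz z' j) =
        d.pr (d.jz z') (d.Xi ζ z (d.jz z')) (d.ρ z') := by
      rw [Finset.sum_eq_single (d.jz z')]
      · simp [Rz]
      · intro j _ hj
        simp [Rz, hj, pr, zero_conv]
      · simp
    rw [Finset.sum_congr rfl fun j _ => h1 j, Finset.sum_add_distrib, h2, ← Finset.mul_sum,
      ← Finset.mul_sum]
    unfold Xi
    rw [e1]
    ring

end Dat

end aux

theorem exists_form (C : ℝ) (hC : 1 ≤ C) : ∃ C' : ℝ,
    ∀ {K A J Z : Type} [NontriviallyNormedField K] [IsUltrametricDist K] [CompleteSpace K]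
      [CharZero K] [NormedCommRing A] [NormedAlgebra K A] [IsUltrametricDist A] [CompleteSpace A]
      [NormOneClass A] [Fintype J] [Fintype Z] [DecidableEq J] [DecidableEq Z] (d : Dat K A J Z),
      d.Sm (1 / (2 ^ 12 * C)) → ∀ η a ζ N, d.IsEta η a → d.IsEig η C ζ N →
      ∃ Q' : Matrix Z Z A, (∀ z z', ‖Q' z z'‖ ≤ C') ∧
        d.Φ N * ((Matrix.diagonal fun z => (d.n z : A)) + d.c0 • Q') * (d.Φ N).transpose =
          (Matrix.diagonal fun z => (d.n z : A)) + d.c0 • Q' := by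
  refine ⟨4 * (32 * C) ^ 2, ?_⟩
  intro K A J Z _ _ _ _ _ _ _ _ _ _ _ _ _ d hs η a ζ N hη h
  have hx : ∀ z j, d.Exa j (32 * C) (d.Xi ζ z j) :=
    Dat.exa_of_eig hη (Dat.Phi_max hC hs h.N_le) (Dat.Xi_sn ζ) (Dat.Xi_bd hC hs h)
      (Dat.Xi_eig hC hs h) (Dat.Xi_y hη hC hs h)
  have hi := Dat.qf_inv hx (Dat.Xi_eig hC hs h)
  choose T hT eT using Dat.qf_val (by linarith) hx (Dat.zeta_bd hC hs h)
  have hc : ∀ z, (d.c z : A) = d.c0 • (d.n z : A) := by
    intro z
    simp [Geo.c, Geo.c0, Algebra.smul_def, map_ofNat]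
  have h0 : d.c0 ≠ 0 := pow_ne_zero _ two_ne_zero
  refine ⟨Matrix.of fun z z' => (d.n z : A) * (d.n z' : A) * T z z', fun z z' => ?_, ?_⟩
  · refine (norm_mul_le _ _).trans ((mul_le_of_le_one_left (norm_nonneg _) ?_).trans (hT z z'))
    exact (norm_mul_le _ _).trans
      (mul_le_one₀ (norm_natCast_le _) (norm_nonneg _) (norm_natCast_le _))
  · have e : (Matrix.of fun z z' => ∑ j, d.pr j (d.Xi ζ z j) (d.Xi ζ z' j)) =
        d.c0 • ((Matrix.diagonal fun z => (d.n z : A)) +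
          d.c0 • Matrix.of fun z z' => (d.n z : A) * (d.n z' : A) * T z z') := by
      ext z z'
      simp only [Matrix.of_apply, Matrix.smul_apply, Matrix.add_apply, Matrix.diagonal_apply,
        eT z z', hc, smul_add]
      congr 1
      · split_ifs with hz
        · rw [hz]
        · simp
      · simp only [smul_mul_assoc, mul_smul_comm]
    rw [e, Matrix.mul_smul, Matrix.smul_mul] at hi
    exact smul_right_injective _ h0 hi

end Pool.Agent.Lib.MP_788af2_nt.AG
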