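import Pool.Agent.Lib.MP_788af2_nt.AG.NBar
import Pool.Agent.Lib.MP_788af2_nt.AG.QForm
import Pool.Agent.Lib.MP_788af2_nt.AG.ConEx
import Pool.Agent.Lib.MP_788af2_nt.AG.GeoEx
import Pool.Agent.Lib.MP_788af2_nt.AG.EigEx
import Pool.Agent.Lib.MP_788af2_nt.AG.Ord
import Pool.Agent.Lib.MP_788af2_nt.AG.DatMap
import Pool.Agent.Lib.MP_788af2_nt.AG.LiftEx
import Pool.Agent.Lib.MP_788af2_nt.AG.CubeEx

/-!
One cube of twists.
-/

set_option linter.unusedSectionVars false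

namespace Pool.Agent.Lib.MP_788af2_nt.AG

open Polynomial Filter Topology Pool.Agent.Lib.MP_788af2_nt.AS Pool.Agent.Lib.MP_a3f657_nt.Two

lemma Dl_map {W O O' : Type} [Fintype W] [DecidableEq W] [CommRing O] [CommRing O'] (f : O →+* O')
    (wt : W → ℤ) (M : Matrix W W O) : f (Dl wt M) = Dl wt (M.map f) := by
  unfold Dl
  split_ifs
  · exact f.map_det M
  · rw [map_sum]
    refine Finset.sum_congr rfl fun v _ => ?_
    rw [map_mul, map_intCast]
    exact congrArg _ (congrFun (congrFun (f.map_adjugate M) v) v)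

lemma Cube.ev_eq {K I A : Type} [NontriviallyNormedField K] [Fintype I] [DecidableEq I]
    [NormedCommRing A] [NormedAlgebra K A] {δ : I → ℝ} (cb : Cube K I A δ) (ξ : G I) (x : A) :
    cb.ev ξ x = ∑ g, sg (ξ ⬝ᵥ g) • cb.co x g := by
  conv_lhs => rw [← cb.sum_co x]
  rw [map_sum]
  refine Finset.sum_congr rfl fun g _ => ?_
  rw [map_smul, cb.ev_γ, smul_eq_mul, zsmul_eq_mul, mul_comm]

lemma Lnk.Em_iff {K J Z k κ : Type} [NontriviallyNormedField K] [Fintype Z] [DecidableEq J]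
    [DecidableEq Z] [Field k] [Finite k] [CharP k 2] [Field κ] [CharP κ 2] {q : Geo K J Z}
    {ℓ : Lift K κ} {b : k[X]} (L : Lnk q ℓ b) (a : k[X]) (z : Z) :
    (∃ v, L.Em (Spl b a) z v = 1) ↔
      ∃ y : k[X], ((a + y ^ 2 + y).map (L.emb (q.jz z))).IsRoot (L.rt z) := by
  constructor
  · rintro ⟨v, hv⟩
    obtain ⟨y, hy⟩ := ((mem_Spl L.ne).1 v.2).2.2.2
    refine ⟨y, IsRoot.dvd ?_ (Polynomial.map_dvd _ hy)⟩
    by_contra h
    exact zero_ne_one ((if_neg h).symm.trans hv)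
  · rintro ⟨y, hy⟩
    have hb : (b.map (L.emb (q.jz z))).IsRoot (L.rt z) := by
      have := q.n_pos z
      rw [L.mult, rootMultiplicity_pos'] at this
      exact this.2
    let := (L.emb (q.jz z)).toAlgebra
    have e : ∀ p : k[X], (p.map (L.emb (q.jz z))).IsRoot (L.rt z) ↔ aeval (L.rt z) p = 0 :=
      fun p => by rw [IsRoot.def, eval_map, aeval_def]; rfl
    have hi : IsIntegral k (L.rt z) := (show IsAlgebraic k (L.rt z) from
      ⟨b, L.ne, (e b).1 hb⟩).isIntegral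
    refine ⟨⟨minpoly k (L.rt z), (mem_Spl L.ne).2 ⟨minpoly.irreducible hi, minpoly.monic hi,
      minpoly.dvd k _ ((e b).1 hb), y, minpoly.dvd k _ ((e _).1 hy)⟩⟩, ?_⟩
    exact if_pos ((e _).2 (minpoly.aeval k _))

variable {k : Type} [Field k] [Fintype k] [CharP k 2] (κ : Type) [Field κ] [CharP κ 2]
  [IsAlgClosed κ] [Algebra k κ]

/-- The analytic rank is `r`. -/
def ARk (a b : k[X]) (r : ℕ) : Prop :=
  ∃ L, IsExp (fun n => (cnt κ a b n : ℚ)) L ∧ HasOrd (Fintype.card k) L r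

theorem per_a [DecidableEq k[X]] {b : k[X]} (hb : b ≠ 0) : ∃ B : ℕ, ∀ J : ℕ, ∃ i₀ : ℕ,
    ∀ {I : Type} [Fintype I] [DecidableEq I] {β : I → k[X]} {Lw : Type} [Field Lw] [CharP Lw 2]
      (T : Tw β Lw) (i e l : ℕ), i₀ ≤ i → Par β b (b ^ 2 ^ i) e →
      2 ^ i * b.natDegree + 10 * l ≤ e → e ≤ 2 * (2 ^ i * b.natDegree) + l →
      20 * gam β Finset.univ + 10 * b.natDegree + 20 ≤ l → ∀ a : k[X], a.natDegree = e →
      ∀ ft : Spl b a → Lw, (∀ v, T.P.c1 (ft v) = ft v ∧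
        ∃ z ∈ T.O, ft v = T.lgE * (T.p (derivative v.1) / T.p v.1) + z) →
      ∃ (O : Type) (_ : CommRing O) (A : G I → Matrix (Spl b a) (Spl b a) O) (wt : Spl b a → ℤ),
        (∀ x : O, 2 * x = 0 → x = 0) ∧ ¬ (2 : O) ∣ 1 ∧
        (∀ g v w, (2 : O) ∣ A g v w - ((T.Bm a (b ^ 2 ^ i) ft g v w).val : O)) ∧
        (∀ (ξ : G I) v w, (2 : O) ^ J ∣
          (∑ g, sg (ξ ⬝ᵥ g) • A g) v w + (∑ g, sg (ξ ⬝ᵥ g) • A g) w v) ∧
        (Nonempty (Spl b a) → ∃ v, Odd (wt v)) ∧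
        ∀ ξ : G I, (∃ r ≤ B, ARk κ (a + X * comb β ξ ^ 2) b r) ∧
          (¬ (2 : O) ^ J ∣ Dl wt (∑ g, sg (ξ ⬝ᵥ g) • A g) →
            ARk κ (a + X * comb β ξ ^ 2) b ((Spl b a).card % 2)) := by
  obtain ⟨K, _, _, _, _, ⟨ℓ⟩⟩ := exists_lift κ
  obtain ⟨o⟩ := exists_one K ℓ.two
  have := finite_Jt (k := k) (κ := κ)
  have := finite_Zt (κ := κ) hb
  let : Fintype (Jt k κ) := Fintype.ofFinite _
  let : Fintype (Zt κ b) := Fintype.ofFinite _
  let : DecidableEq (Jt k κ) := Classical.decEq _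
  let : DecidableEq (Zt κ b) := Classical.decEq _
  obtain ⟨f, -, hk⟩ := FiniteField.card k 2
  refine ⟨Fintype.card (Zt κ b), fun J => ?_⟩
  obtain ⟨s, hs, hE⟩ := exists_eig K ℓ
  obtain ⟨C', hQ⟩ := exists_form (2 ^ 12) (by norm_num)
  obtain ⟨ε, hε, hF⟩ := fin_alg2 ℓ hb (max (2 ^ 12) C') ((1 / 2) ^ J) (by positivity)
  obtain ⟨i₁, h₁⟩ := exists_sm ℓ hb (s := min s (1 / 2 ^ 44)) (by positivity)
  obtain ⟨i₂, h₂⟩ := exists_pow_lt_of_lt_one hε (show (1 / 2 : ℝ) < 1 by norm_num)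
  refine ⟨i₁ + i₂ + 14, fun {I} _ _ {β Lw} _ _ T i e l hi hP h1 h2 h3 a ha ft hft => ?_⟩
  have hγ := gam_nonneg β Finset.univ
  have hl : (1 : ℝ) ≤ l := by
    have : (0 : ℝ) ≤ b.natDegree := by positivity
    linarith
  obtain ⟨δ, hδ⟩ : ∃ δ : I → ℝ, ∀ i, δ i = (2 * (β i).natDegree + 1) / l := ⟨_, fun _ => rfl⟩
  have hδ0 : ∀ i, 0 ≤ δ i := fun i => by rw [hδ]; positivity
  have hδ1 : ∑ i, δ i ≤ 1 / 10 := by
    have e1 : ∑ i, δ i = 2 * gam β Finset.univ / l := by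
      rw [gam, Finset.mul_sum, Finset.sum_div]
      exact Finset.sum_congr rfl fun i _ => by rw [hδ]; ring
    rw [e1, div_le_iff₀ (by linarith)]
    have : (0 : ℝ) ≤ b.natDegree := by positivity
    linarith
  obtain ⟨A, _, _, _, _, _, ⟨cb⟩⟩ := exists_cube K ℓ.two I δ hδ0 fun i =>
    (Finset.single_le_sum (fun i _ => hδ0 i) (Finset.mem_univ i)).trans (by linarith)
  obtain ⟨q, L, hqp, hqi, hstd⟩ := exists_geo ℓ hb
    ⟨e, 2 ^ i * b.natDegree, l, hP.odd, by exact_mod_cast hl, h1, h2⟩ o i (by omega) rfl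
  obtain ⟨d, rfl, ⟨c⟩⟩ := exists_con q ℓ cb L (a := a) (by rw [hqp]; exact ha) hP.dvd
    (fun i => by rw [hqp]; exact hδ i) hδ1
  subst hqi
  have hsm : ∀ t, min s (1 / 2 ^ 44) ≤ t → d.Sm t := fun t ht z =>
    (h₁ _ L (by omega) z).trans (mul_le_mul_of_nonneg_right ht (norm_nonneg _))
  have hc0 : ∀ j ≤ d.i, ‖d.c0‖ ≤ (1 / 2) ^ j := fun j hj => by
    rw [Geo.c0, norm_pow, ℓ.two]
    exact pow_le_pow_of_le_one (by norm_num) (by norm_num) (by omega)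
  obtain ⟨η, a₀, hη⟩ := d.exists_eta
  obtain ⟨ζ, N, hζ⟩ := hE d (hsm _ (min_le_left _ _)) η a₀ hη
  have hN := nbar c T (by rw [hqp]; exact hP) (by rw [hqp]; exact ha) (by rw [hqp])
    (by rw [hqp]; exact h3) hδ0 hδ1 hft hη hζ (by norm_num)
    (hsm _ ((min_le_right _ _).trans (by norm_num)))
  obtain ⟨wt, hwt, hfin⟩ := hF (Spl b a) fun v hv =>
    let h := (mem_Spl hb).1 hv; ⟨h.1, h.2.1, h.2.2.1⟩
  set MA := ((L.Em (Spl b a)).map (Int.cast : ℤ → A)).transpose * N *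
    (L.Em (Spl b a)).map (Int.cast : ℤ → A) with hMA
  have hle : ∀ g v w, cb.co (MA v w) g ∈ uball K := fun g v w => by
    have h4 : cb.co (MA v w) g - ((T.Bm a (b ^ 2 ^ d.i) ft g v w).val : K) ∈ uball K :=
      (hN v w g).trans (by norm_num)
    exact sub_add_cancel (cb.co (MA v w) g) _ ▸ add_mem h4 (natCast_mem (uball K) _)
  let AO : G I → Matrix (Spl b a) (Spl b a) (uball K) := fun g => Matrix.of fun v w => ⟨_, hle g v w⟩
  have hev : ∀ ξ : G I, (∑ g, sg (ξ ⬝ᵥ g) • AO g).map (uball K).subtype = MA.map (cb.ev ξ) := by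
    intro ξ
    ext v w
    rw [Matrix.map_apply, Matrix.map_apply, cb.ev_eq, Matrix.sum_apply, map_sum]
    refine Finset.sum_congr rfl fun g _ => ?_
    rw [Matrix.smul_apply, map_zsmul]
    rfl
  have key : ∀ ξ : G I, (∀ v w, ‖MA.map (cb.ev ξ) v w + MA.map (cb.ev ξ) w v‖ ≤ (1 / 2) ^ J) ∧
      (∃ r ≤ Fintype.card (Zt κ b), ARk κ (a + X * comb β ξ ^ 2) b r) ∧
      ((1 / 2) ^ J < ‖Dl wt (MA.map (cb.ev ξ))‖ →
        ARk κ (a + X * comb β ξ ^ 2) b ((Spl b a).card % 2)) := by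
    intro ξ
    obtain ⟨d', hg, hε', hFt, hmap⟩ := d.exists_map (cb.ev ξ) (cb.ev_le ξ)
    obtain ⟨hη', hζ'⟩ := hmap η a₀ _ ζ N hη hζ
    obtain ⟨L', l1, l2, l3⟩ : ∃ L' : Lnk d'.toGeo ℓ b, L'.Std ∧ L'.emb = L.emb ∧
        L'.Em (Spl b a) = L.Em (Spl b a) := by
      rw [hg]
      exact ⟨L, hstd, rfl, rfl⟩
    obtain ⟨Q', hQ1, hQ2⟩ := hQ d' (by
      rw [hg]; exact hsm _ ((min_le_right _ _).trans (by norm_num))) _ _ _ _ hη' hζ'
    obtain ⟨D, hD⟩ := cnt_int (κ := κ) hk f.ne_zero (a + X * comb β ξ ^ 2) b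
    have hord := ord_eq d' ℓ (a := a + X * comb β ξ ^ 2) L' (fun j n => by
      rw [hFt, PowerSeries.coeff_map, l2]; exact c.ev_F ξ j n) hη' hζ' (by
      rw [hg]
      exact (mul_le_mul_of_nonneg_right (hc0 14 (by omega)) (by norm_num)).trans (by norm_num))
      (hD.map (Int.castRingHom ℚ))
    obtain ⟨g1, g2⟩ := hfin d' L' l1
      (fun z hz => by rw [hε']; rw [l3] at hz; exact c.ε_spl z ((L.Em_iff a z).1 hz))
      (fun z hz => by
        rw [hε', hg]; rw [l3] at hz; exact c.ε_non z fun h => hz ((L.Em_iff a z).2 h))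
      (by rw [hg]; exact (hc0 i₂ (by omega)).trans h₂.le) _ Q' (MA.map (cb.ev ξ))
      (fun i j => (hζ'.N_le i j).trans (le_max_left _ _))
      (fun i j => (hQ1 i j).trans (le_max_right _ _)) hQ2 (by
        rw [l3, hMA]
        change Matrix.map _ (cb.ev ξ : A →+* K) = _
        rw [Matrix.map_mul, Matrix.map_mul, Matrix.transpose_map, Matrix.map_map]
        have : (cb.ev ξ : A →+* K) ∘ (Int.cast : ℤ → A) = Int.cast := funext fun z => map_intCast _ z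
        rw [this]
        rfl)
    refine ⟨g1, ⟨_, ?_, _, hD.map (Int.castRingHom ℚ), hord⟩, fun h => ⟨_, hD.map (Int.castRingHom ℚ),
      g2 h ▸ hord⟩⟩
    have e1 : (d'.Φ (N.map (cb.ev ξ))).charpolyRev ≠ 0 := fun h => by
      have := Matrix.eval_charpolyRev (M := d'.Φ (N.map (cb.ev ξ)))
      rw [h, eval_zero] at this
      exact zero_ne_one this
    have e2 := natDegree_le_of_dvd (pow_rootMultiplicity_dvd (d'.Φ (N.map (cb.ev ξ))).charpolyRev 1) e1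
    rw [natDegree_pow, natDegree_X_sub_C, mul_one] at e2
    refine e2.trans ?_
    rw [← Matrix.reverse_charpoly]
    exact (reverse_natDegree_le _).trans (Matrix.charpoly_natDegree_eq_dim _).le
  refine ⟨uball K, inferInstance, AO, wt, fun x hx => ?_, fun h => ?_, fun g v w => ?_,
    fun ξ v w => ?_, hwt, fun ξ => ⟨(key ξ).2.1, fun h => (key ξ).2.2 ?_⟩⟩
  · exact (mul_eq_zero.1 hx).resolve_left two_ne_zero
  · have := (uball_dvd ℓ.two 1 1).1 (by simpa using h)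
    norm_num at this
  · have := (uball_dvd ℓ.two 1 (AO g v w - ((T.Bm a (b ^ 2 ^ d.i) ft g v w).val : uball K))).2
      (by rw [pow_one, AddSubgroupClass.coe_sub, SubringClass.coe_natCast]; exact hN v w g)
    rwa [pow_one] at this
  · rw [uball_dvd ℓ.two]
    have := (key ξ).1 v w
    rw [← hev] at this
    exact this
  · rw [uball_dvd ℓ.two, not_le] at h
    rw [← hev, ← Dl_map]
    exact h

end Pool.Agent.Lib.MP_788af2_nt.AG
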