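import Pool.Agent.Lib.MP_788af2_nt.AG.Base

/-!
The weights and potentials: definitions.
-/

namespace Pool.Agent.Lib.MP_788af2_nt.AG

/-- The numerical parameters: `e = deg a`, `m = deg s`, `l` the length of the ramps. -/
structure Pm where
  /-- The degree of the twist. -/
  e : ℕ
  /-- The degree of `s`. -/
  m : ℕ
  /-- The length of the ramps. -/
  l : ℕ
  odd : Odd e
  l_pos : 1 ≤ l
  le1 : m + 10 * l ≤ e
  le2 : e ≤ 2 * m + l

namespace Pm

variable (p : Pm)

/-- The staircase with ramps of length `L`. -/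
noncomputable def St (L : ℝ) (y : ℤ) : ℝ := (y / (p.e : ℤ) : ℤ) + min 1 (((y % (p.e : ℤ) : ℤ) : ℝ) / L)

/-- The bound for the `t`-part of the Frobenius series. -/
noncomputable def f (n : ℤ) : ℝ := p.St p.l (max n 0)

/-- The tilt. -/
noncomputable def μ : ℝ := 1 / (100 * p.e)

/-- The potential in the middle sector. -/
noncomputable def V0 (a : ℤ) : ℝ :=
  (1 - p.μ * (p.e - 1 / 2)) * (p.St (2 * p.l) (a + 5 * p.l) - 2) + p.μ * (a + 5 * p.l)

/-- The end of the block. -/
def top : ℤ := 2 * p.e - 3 * p.l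

/-- The column potential. -/
noncomputable def V (a j : ℤ) : ℝ :=
  if 0 ≤ j then p.V0 a + j * (1 - p.μ / 2)
  else p.V0 (max (a - 2 * p.m * (-j - 1)) p.top - p.e) + p.μ + (-j - 1) * (1 + p.μ)

/-- The row potential. -/
noncomputable def U (a j : ℤ) : ℝ :=
  if j = 0 ∧ 2 * a < p.e then p.V0 (2 * a)
  else if j = 0 ∧ a ≤ p.e then 1 + p.V0 (2 * a - p.e) else 1 + p.V a j

/-- The bound for the Frobenius series. -/
noncomputable def FB (n κ : ℤ) : ℝ := (|κ| : ℤ) + p.f (n - 2 * p.m * max 0 (-κ))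

/-- The Newton weight. -/
noncomputable def w (a j : ℤ) : ℝ :=
  max (a / p.e + j) (max (a / p.e + j * (2 * p.m / p.e - 1)) (-j))

/-- The matching in the middle sector. -/
def π (a : ℤ) : ℤ := if 2 * a < p.e then 2 * a else 2 * a - p.e

/-- The exceptional entries. -/
def Exc (a j a' j' : ℤ) : Prop :=
  (j = 0 ∧ j' = 0 ∧ a ≤ p.e ∧ a' = p.π a) ∨ (j = -1 ∧ j' = -1 ∧ a ≤ p.top ∧ a' ≤ p.top)

/-- The step function: `s - (k - k₀)` for the least `k ≥ k₀` with `a ≤ k e - 3 l`, at least `-2`. -/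
def step (k₀ s a : ℤ) : ℤ := max (-2) (min s (s + k₀ - 1 - (a + 3 * p.l - 1) / p.e))

/-- The accuracy required in the column `(a, j)`. -/
def Rq (a j : ℤ) : ℤ :=
  if j = 0 then p.step 1 2 a else if j = 1 then p.step 1 1 a else if j = -1 then p.step 3 1 a
  else max (-2) (2 - |j|)

/-- The contraction constant. -/
noncomputable def ϑ : ℝ := 2 ^ (-(p.μ / 2))

end Pm

end Pool.Agent.Lib.MP_788af2_nt.AG
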