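import Pool.Agent.Lib.MP_788af2_nt.AG.PotA

/-!
The two crude entrywise inequalities.
-/

namespace Pool.Agent.Lib.MP_788af2_nt.AG.Pm

variable (p : Pm) {a j a' j' : ℤ}

lemma potC_e19 : (19 : ℝ) ≤ p.e := by
  have h1 := p.e_ge
  have h2 := p.l_pos
  have : 19 ≤ p.e := by omega
  exact_mod_cast this

lemma potC_epos : (0 : ℝ) < p.e := by linarith [p.potC_e19]

lemma potC_μ_le : p.μ ≤ 1 / 1900 := by
  unfold μ
  apply one_div_le_one_div_of_le (by norm_num)
  linarith [p.potC_e19]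

lemma potC_μe : p.μ * p.e = 1 / 100 := by
  unfold μ
  have := p.potC_epos
  field_simp

lemma potC_split (y : ℤ) : (y : ℝ) / p.e = (y / (p.e : ℤ) : ℤ) + ((y % (p.e : ℤ) : ℤ) : ℝ) / p.e ∧
    (0 : ℝ) ≤ ((y % (p.e : ℤ) : ℤ) : ℝ) ∧ ((y % (p.e : ℤ) : ℤ) : ℝ) < p.e := by
  have he := p.potC_epos
  have he' : (0 : ℤ) < (p.e : ℤ) := by exact_mod_cast he
  have h1 := Int.mul_ediv_add_emod y (p.e : ℤ)
  have h2 := Int.emod_nonneg y he'.ne'
  have h3 := Int.emod_lt_of_pos y he'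
  refine ⟨?_, by exact_mod_cast h2, by exact_mod_cast h3⟩
  have h4 : (y : ℝ) = p.e * ((y / (p.e : ℤ) : ℤ) : ℝ) + ((y % (p.e : ℤ) : ℤ) : ℝ) := by
    exact_mod_cast h1.symm
  generalize ((y / (p.e : ℤ) : ℤ) : ℝ) = q at h4 ⊢
  generalize ((y % (p.e : ℤ) : ℤ) : ℝ) = r at h4 ⊢
  rw [h4]
  field_simp

lemma potC_St_le (L : ℝ) (y : ℤ) : p.St L y ≤ (y : ℝ) / p.e + 1 := by
  obtain ⟨h1, h2, -⟩ := p.potC_split y
  unfold St
  have h3 := div_nonneg h2 p.potC_epos.le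
  have h4 := min_le_left (1 : ℝ) (((y % (p.e : ℤ) : ℤ) : ℝ) / L)
  linarith

lemma potC_le_St {L : ℝ} (h0 : 0 < L) (hL : L ≤ p.e) (y : ℤ) : (y : ℝ) / p.e ≤ p.St L y := by
  obtain ⟨h1, h2, h3⟩ := p.potC_split y
  unfold St
  have h4 : ((y % (p.e : ℤ) : ℤ) : ℝ) / p.e ≤ min 1 (((y % (p.e : ℤ) : ℤ) : ℝ) / L) :=
    le_min ((div_le_one p.potC_epos).2 h3.le) (div_le_div_of_nonneg_left h2 h0 hL)
  linarith

lemma potC_H : 1 - p.μ * (p.e - 1 / 2) = 99 / 100 + p.μ / 2 := by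
  have := p.potC_μe
  linarith [mul_sub p.μ (p.e : ℝ) (1 / 2)]

lemma potC_μy (y : ℝ) : p.μ * y = y / p.e / 100 := by
  unfold μ
  have := p.potC_epos
  field_simp

lemma potC_V0_le (b : ℤ) (h : 0 ≤ b + 5 * p.l) :
    p.V0 b ≤ 1001 / 1000 * ((b : ℝ) / p.e + 5 * ((p.l : ℝ) / p.e)) - 99 / 100 := by
  have h1 := p.potC_St_le (2 * p.l) (b + 5 * p.l)
  have h2 : (0 : ℝ) ≤ ((b + 5 * p.l : ℤ) : ℝ) / p.e :=
    div_nonneg (by exact_mod_cast h) p.potC_epos.le
  have h3 : ((b + 5 * p.l : ℤ) : ℝ) / p.e = (b : ℝ) / p.e + 5 * ((p.l : ℝ) / p.e) := by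
    push_cast; ring
  have h4 : ((b : ℝ) + 5 * p.l) / p.e = (b : ℝ) / p.e + 5 * ((p.l : ℝ) / p.e) := by ring
  unfold V0
  rw [p.potC_H, p.potC_μy, h4]
  rw [h3] at h1 h2
  have h5 := p.μ_pos
  have h6 := p.potC_μ_le
  generalize (b : ℝ) / p.e + 5 * ((p.l : ℝ) / p.e) = t at *
  generalize p.St (2 * p.l) (b + 5 * p.l) = s at *
  nlinarith [mul_nonneg h5.le (sub_nonneg.2 h1), mul_nonneg (sub_nonneg.2 h6) h2]

lemma potC_le_V0 (b : ℤ) (h : 0 ≤ b + 5 * p.l) :
    (b : ℝ) / p.e + 5 * ((p.l : ℝ) / p.e) - 2 ≤ p.V0 b := by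
  have hl : (1 : ℝ) ≤ p.l := by exact_mod_cast p.l_pos
  have hle : (19 : ℝ) * p.l ≤ p.e := by exact_mod_cast p.e_ge
  have h1 := p.potC_le_St (L := 2 * p.l) (by linarith) (by linarith) (b + 5 * p.l)
  have h2 : (0 : ℝ) ≤ ((b + 5 * p.l : ℤ) : ℝ) / p.e :=
    div_nonneg (by exact_mod_cast h) p.potC_epos.le
  have h3 : ((b + 5 * p.l : ℤ) : ℝ) / p.e = (b : ℝ) / p.e + 5 * ((p.l : ℝ) / p.e) := by
    push_cast; ring
  have h4 : ((b : ℝ) + 5 * p.l) / p.e = (b : ℝ) / p.e + 5 * ((p.l : ℝ) / p.e) := by ring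
  unfold V0
  rw [p.potC_H, p.potC_μy, h4]
  rw [h3] at h1 h2
  have h5 := p.μ_pos
  have h6 := p.potC_μ_le
  generalize (b : ℝ) / p.e + 5 * ((p.l : ℝ) / p.e) = t at *
  generalize p.St (2 * p.l) (b + 5 * p.l) = s at *
  nlinarith [mul_nonneg h5.le (sub_nonneg.2 h1), mul_nonneg h5.le h2]

/-- The normalised parameters. -/
lemma potC_par : 0 < (p.l : ℝ) / p.e ∧ (p.m : ℝ) / p.e + 10 * ((p.l : ℝ) / p.e) ≤ 1 ∧
    1 ≤ 2 * ((p.m : ℝ) / p.e) + (p.l : ℝ) / p.e := by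
  have he := p.potC_epos
  have hl : (1 : ℝ) ≤ p.l := by exact_mod_cast p.l_pos
  have h1 : (p.m : ℝ) + 10 * p.l ≤ p.e := by exact_mod_cast p.le1
  have h2 : (p.e : ℝ) ≤ 2 * p.m + p.l := by exact_mod_cast p.le2
  refine ⟨by positivity, ?_, ?_⟩
  · have := (div_le_one he).2 h1
    have h3 : ((p.m : ℝ) + 10 * p.l) / p.e = (p.m : ℝ) / p.e + 10 * ((p.l : ℝ) / p.e) := by ring
    linarith
  · have := (one_le_div he).2 h2
    have h3 : (2 * (p.m : ℝ) + p.l) / p.e = 2 * ((p.m : ℝ) / p.e) + (p.l : ℝ) / p.e := by ring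
    linarith

lemma potC_V_zero (b : ℤ) : p.V b 0 = p.V0 b := by simp [V]

lemma potC_V0_e {b : ℤ} (h : b ≤ p.e) : p.V0 b ≤ 1 / 50 := by
  have h1 := p.V0_mono b p.e h
  have h2 := p.V_e_mem.2
  rw [p.potC_V_zero] at h2
  have h3 : (0 : ℝ) ≤ ((p.e : ℤ) : ℝ) - b := by
    have : (b : ℝ) ≤ ((p.e : ℤ) : ℝ) := by exact_mod_cast h
    linarith
  have h4 := mul_nonneg p.μ_pos.le h3
  linarith

lemma potC_w_nonneg {b : ℤ} (k : ℤ) (h : 0 ≤ b) : 0 ≤ p.w b k := by
  have h1 := p.abs_le_w k h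
  have h2 : (0 : ℝ) ≤ ((|k| : ℤ) : ℝ) := by exact_mod_cast abs_nonneg k
  linarith

lemma potC_V_le (h1 : 1 ≤ a) : p.V a j ≤ 51 / 50 * p.w a j + 1 := by
  by_cases h : j = 0 ∧ a < p.e
  · obtain ⟨rfl, h⟩ := h
    have h2 := p.potC_V0_e h.le
    have h3 := p.potC_w_nonneg 0 (show 0 ≤ a by omega)
    rw [p.potC_V_zero]
    linarith
  · have h2 := p.U_eq h
    have h3 := p.U_le j h1
    linarith

lemma potC_le_V (h1 : 1 ≤ a) : 99 / 100 * p.w a j - 4 ≤ p.V a j := by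
  obtain ⟨q1, q2, q3⟩ := p.potC_par
  have he := p.potC_epos
  have hμ := p.μ_pos
  have hμ' := p.potC_μ_le
  have ha : (0 : ℝ) ≤ (a : ℝ) / p.e := div_nonneg (by exact_mod_cast (show 0 ≤ a by omega)) he.le
  have hw0 := p.potC_w_nonneg j (show 0 ≤ a by omega)
  by_cases hj : 0 ≤ j
  · have hj' : (0 : ℝ) ≤ j := by exact_mod_cast hj
    have h2 := p.w_le j (show 0 ≤ a by omega)
    rw [abs_of_nonneg hj] at h2
    have h3 := p.potC_le_V0 a (by omega)
    unfold V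
    rw [if_pos hj]
    nlinarith [mul_nonneg hj' (sub_nonneg.2 hμ')]
  · have hj' : (1 : ℝ) ≤ -j := by
      have : (1 : ℤ) ≤ -j := by omega
      exact_mod_cast this
    have htop : p.top ≤ max (a - 2 * p.m * (-j - 1)) p.top := le_max_right _ _
    have hab : a - 2 * p.m * (-j - 1) ≤ max (a - 2 * p.m * (-j - 1)) p.top := le_max_left _ _
    have hge := p.e_ge
    unfold V
    rw [if_neg hj]
    generalize max (a - 2 * p.m * (-j - 1)) p.top = y at htop hab ⊢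
    unfold top at htop
    have h3 := p.potC_le_V0 (y - p.e) (by omega)
    have h4 : ((y - p.e : ℤ) : ℝ) / p.e = (y : ℝ) / p.e - 1 := by
      push_cast; field_simp
    have h5 : 2 - 3 * ((p.l : ℝ) / p.e) ≤ (y : ℝ) / p.e := by
      have h6 : (2 * p.e - 3 * p.l : ℝ) ≤ y := by exact_mod_cast htop
      have h7 := div_le_div_of_nonneg_right h6 he.le
      have h8 : (2 * p.e - 3 * p.l : ℝ) / p.e = 2 - 3 * ((p.l : ℝ) / p.e) := by field_simp
      linarith
    have h6 : (a : ℝ) / p.e + j * (2 * p.m / p.e) + 2 * ((p.m : ℝ) / p.e) ≤ (y : ℝ) / p.e := by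
      have h6 : (a - 2 * p.m * (-j - 1) : ℝ) ≤ y := by exact_mod_cast hab
      have h7 := div_le_div_of_nonneg_right h6 he.le
      have h8 : (a - 2 * p.m * (-j - 1) : ℝ) / p.e =
          (a : ℝ) / p.e + j * (2 * p.m / p.e) + 2 * ((p.m : ℝ) / p.e) := by ring
      linarith
    have h7 : 0 ≤ (-(j : ℝ) - 1) * p.μ := mul_nonneg (by linarith) hμ.le
    have h8 : (j : ℝ) * 2 ≤ j * (2 * p.m / p.e) := by
      have : 2 * (p.m : ℝ) / p.e = 2 * ((p.m : ℝ) / p.e) := by ring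
      apply mul_le_mul_of_nonpos_left <;> linarith
    have h9 : p.w a j ≤ p.V0 (y - p.e) + (-j - 1) + 4 := by
      unfold w
      refine max_le ?_ (max_le ?_ ?_)
      · linarith
      · rw [mul_sub]; linarith
      · linarith
    rw [mul_add]
    linarith

theorem entry_cc (h1 : 1 ≤ a) (h2 : 1 ≤ a') (h3 : a' ≤ 2 * a) :
    p.w a j / 4 - 10 + p.V a j - p.V a' j' ≤ p.FB (2 * a - a') (2 * j - j') := by
  have k1 := p.potC_V_le (j := j) h1
  have k2 := p.potC_le_V (j := j') h2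
  have k3 := p.w_le_FB (n := 2 * a - a') (2 * j - j') (by omega)
  have k4 := p.w_add (2 * a - a') (2 * j - j') a' j'
  rw [sub_add_cancel, sub_add_cancel, p.w_two] at k4
  have k5 := p.potC_w_nonneg j (show 0 ≤ a by omega)
  have k6 := p.potC_w_nonneg (2 * j - j') (show 0 ≤ 2 * a - a' by omega)
  linarith

lemma potC_V0_low {b : ℤ} (h : b ≤ p.e - 5 * p.l) : p.V0 b ≤ -(9 / 10) := by
  have h1 := p.V0_mono b _ h
  have h3 : (0 : ℝ) ≤ ((p.e - 5 * p.l : ℤ) : ℝ) - b := by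
    have : (b : ℝ) ≤ ((p.e - 5 * p.l : ℤ) : ℝ) := by exact_mod_cast h
    linarith
  have h4 := mul_nonneg p.μ_pos.le h3
  have he' : (p.e : ℤ) ≠ 0 := by
    have := p.potC_epos
    exact_mod_cast this.ne'
  have h5 : p.St (2 * p.l) (p.e - 5 * p.l + 5 * p.l) = 1 := by
    rw [sub_add_cancel]
    unfold St
    rw [Int.ediv_self he', Int.emod_self]
    simp
  have h6 : p.V0 (p.e - 5 * p.l) = -(99 / 100 + p.μ / 2) + 1 / 100 := by
    unfold V0
    rw [h5, p.potC_H]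
    push_cast
    rw [sub_add_cancel, p.potC_μe]
    ring
  have h7 := p.μ_pos
  linarith

theorem entry_test (h1 : 1 ≤ a) (h3 : a' ≤ 2 * a) (h4 : a' ≤ 2 * p.m + p.l)
    (h : ¬ (j = -1 ∧ a ≤ 3 * p.e - 5 * p.l)) :
    p.U a j + 2 / 5 ≤ p.FB (2 * a - a') (2 * j + 1) := by
  obtain ⟨q1, q2, q3⟩ := p.potC_par
  have he := p.potC_epos
  have hμ := p.μ_pos
  have hμ' := p.potC_μ_le
  have hge := p.e_ge
  have hl1 := p.le1
  have hl := p.l_pos
  have ha : (0 : ℝ) ≤ (a : ℝ) / p.e := div_nonneg (by exact_mod_cast (show 0 ≤ a by omega)) he.le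
  have ha' : (a' : ℝ) / p.e ≤ 2 * ((p.m : ℝ) / p.e) + (p.l : ℝ) / p.e := by
    have h6 : (a' : ℝ) ≤ 2 * p.m + p.l := by exact_mod_cast h4
    have h7 := div_le_div_of_nonneg_right h6 he.le
    have h8 : (2 * p.m + p.l : ℝ) / p.e = 2 * ((p.m : ℝ) / p.e) + (p.l : ℝ) / p.e := by ring
    linarith
  by_cases hj : 0 ≤ j
  · have hFB : p.FB (2 * a - a') (2 * j + 1) = 2 * j + 1 + p.f (2 * a - a') := by
      unfold FB
      rw [abs_of_nonneg (by omega), max_eq_left (by omega)]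
      simp
    have f0 := p.f_nonneg (2 * a - a')
    have f1 := p.le_f (2 * a - a')
    have f2 : ((2 * a - a' : ℤ) : ℝ) / p.e = 2 * ((a : ℝ) / p.e) - (a' : ℝ) / p.e := by
      push_cast; ring
    have f3 : p.l ≤ 2 * a - a' → 1 ≤ p.f (2 * a - a') := fun hh => by
      have := p.le_f' (2 * a - a') 0 (by simpa using hh)
      simpa using this
    have v1 := p.potC_V0_le a (by omega)
    rw [hFB]
    rcases hj.eq_or_lt with rfl | hj1
    · unfold U
      by_cases c1 : 2 * a < p.e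
      · rw [if_pos ⟨rfl, c1⟩]
        have := p.potC_V0_e c1.le
        push_cast
        linarith
      · rw [if_neg (fun hh => c1 hh.2)]
        by_cases c2 : a ≤ p.e
        · rw [if_pos ⟨rfl, c2⟩]
          by_cases c3 : 2 * a - p.e ≤ p.e - 5 * p.l
          · have := p.potC_V0_low c3
            push_cast
            linarith
          · have k1 := p.potC_V0_e (show 2 * a - p.e ≤ p.e by omega)
            have k2 := f3 (by omega)
            push_cast
            linarith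
        · rw [if_neg (fun hh => c2 hh.2), p.potC_V_zero]
          have k2 := f3 (by omega)
          push_cast
          linarith
    · have hj' : (1 : ℝ) ≤ j := by exact_mod_cast hj1
      rw [p.U_eq (fun hh => by omega)]
      unfold V
      rw [if_pos hj, mul_sub]
      have k1 : 0 ≤ (j : ℝ) * (p.μ / 2) := mul_nonneg (by linarith) (by linarith)
      linarith
  · have hj' : (1 : ℝ) ≤ -j := by
      have : (1 : ℤ) ≤ -j := by omega
      exact_mod_cast this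
    have hFB : p.FB (2 * a - a') (2 * j + 1) =
        -(2 * j + 1) + p.f (2 * (a - 2 * p.m * (-j - 1)) - a' - 2 * p.m) := by
      unfold FB
      rw [abs_of_nonpos (by omega), max_eq_right (by omega)]
      have : 2 * a - a' - 2 * (p.m : ℤ) * -(2 * j + 1) =
          2 * (a - 2 * p.m * (-j - 1)) - a' - 2 * p.m := by ring
      rw [this]
      push_cast
      rfl
    rw [hFB, p.U_eq (fun hh => by omega)]
    unfold V
    rw [if_neg hj]
    have hb : j = -1 → 3 * (p.e : ℤ) - 5 * p.l ≤ a - 2 * p.m * (-j - 1) := by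
      rintro rfl
      have : ¬ a ≤ 3 * p.e - 5 * p.l := fun hh => h ⟨rfl, hh⟩
      simp only [neg_neg, sub_self, mul_zero, sub_zero]
      omega
    generalize a - 2 * (p.m : ℤ) * (-j - 1) = b at hb ⊢
    have f0 := p.f_nonneg (2 * b - a' - 2 * p.m)
    have f1 := p.le_f (2 * b - a' - 2 * p.m)
    have f2 : ((2 * b - a' - 2 * p.m : ℤ) : ℝ) / p.e =
        2 * ((b : ℝ) / p.e) - (a' : ℝ) / p.e - 2 * ((p.m : ℝ) / p.e) := by
      push_cast; ring
    have htop : p.top ≤ max b p.top := le_max_right _ _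
    have v1 := p.potC_V0_le (max b p.top - p.e) (by unfold top at htop ⊢; omega)
    have v2 : ((max b p.top - p.e : ℤ) : ℝ) / p.e = ((max b p.top : ℤ) : ℝ) / p.e - 1 := by
      rw [Int.cast_sub, Int.cast_natCast]; field_simp
    have k1 : (-(j : ℝ) - 1) * p.μ ≤ (-(j : ℝ) - 1) * (1 / 1900) :=
      mul_le_mul_of_nonneg_left hμ' (by linarith)
    rw [mul_add]
    by_cases c1 : j = -1
    · have c2 := hb c1
      have c3 : max b p.top = b := max_eq_left (by unfold top; omega)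
      have c4 : 3 - 5 * ((p.l : ℝ) / p.e) ≤ (b : ℝ) / p.e := by
        have h6 : (3 * p.e - 5 * p.l : ℝ) ≤ b := by exact_mod_cast c2
        have h7 := div_le_div_of_nonneg_right h6 he.le
        have h8 : (3 * p.e - 5 * p.l : ℝ) / p.e = 3 - 5 * ((p.l : ℝ) / p.e) := by field_simp
        linarith
      rw [c3] at v1 v2 ⊢
      linarith
    · have hj2 : (2 : ℝ) ≤ -j := by
        have : (2 : ℤ) ≤ -j := by omega
        exact_mod_cast this
      rcases le_total b p.top with c2 | c2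
      · have c4 : ((p.top : ℤ) : ℝ) / p.e = 2 - 3 * ((p.l : ℝ) / p.e) := by
          unfold top
          push_cast
          field_simp
        rw [max_eq_right c2] at v1 v2 ⊢
        linarith
      · have c4 : 0 ≤ (b : ℝ) / p.e :=
          div_nonneg (by exact_mod_cast (show 0 ≤ b by unfold top at c2; omega)) he.le
        rw [max_eq_left c2] at v1 v2 ⊢
        linarith

end Pool.Agent.Lib.MP_788af2_nt.AG.Pm
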