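import Pool.Agent.Lib.MP_788af2_nt.AG.PotB1
import Pool.Agent.Lib.MP_788af2_nt.AG.PotC

/-!
The entrywise inequalities.
-/
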