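import Pool.Agent.Lib.MP_788af2_nt.AG.PotA

/-!
The entrywise inequalities: `entry` and `entry_strict`.
-/

namespace Pool.Agent.Lib.MP_788af2_nt.AG.Pm

variable (p : Pm) {a j a' j' : ℤ}

/-- The largest increment of `V0` over `n` steps. -/
noncomputable def pbφ (n : ℤ) : ℝ :=
  (1 - p.μ * (p.e - 1 / 2)) * p.St (2 * p.l) n + p.μ * n

lemma pb_l1 : (1 : ℤ) ≤ p.l := by exact_mod_cast p.l_pos

lemma pb_e19 : 19 * (p.l : ℤ) ≤ p.e := by exact_mod_cast p.e_ge

lemma pb_le1 : (p.m : ℤ) + 10 * p.l ≤ p.e := by exact_mod_cast p.le1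

lemma pb_e0 : (0 : ℤ) < p.e := by
  have := p.pb_l1; have := p.pb_e19; omega

lemma pb_eR : (19 : ℝ) ≤ p.e := by
  have h1 := p.pb_l1; have h2 := p.pb_e19
  have : (19 : ℤ) ≤ p.e := by omega
  exact_mod_cast this

lemma pb_lR : (1 : ℝ) ≤ p.l := by exact_mod_cast p.l_pos

lemma pb_μe : p.μ * p.e = 1 / 100 := by
  have := p.pb_eR
  unfold μ; field_simp

lemma pb_μ_le : p.μ ≤ 1 / 1900 := by
  have h1 := p.pb_eR; have h2 := p.pb_μe; have h3 := p.μ_pos
  nlinarith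

lemma pb_μl : p.μ * p.l ≤ 1 / 1900 := by
  have h1 : (19 : ℝ) * p.l ≤ p.e := by exact_mod_cast p.e_ge
  have h2 := p.pb_μe; have h3 := p.μ_pos
  nlinarith

lemma pb_H : 1 - p.μ * (p.e - 1 / 2) = 99 / 100 + p.μ / 2 := by
  have := p.pb_μe; linarith

lemma pb_St_add (L : ℝ) (y k : ℤ) : p.St L (y + k * p.e) = p.St L y + k := by
  unfold St
  rw [Int.add_mul_ediv_right _ _ p.pb_e0.ne', Int.add_mul_emod_self_right]
  push_cast; ring

lemma pb_St_lo (L : ℝ) {r : ℤ} (h0 : 0 ≤ r) (h1 : r < p.e) : p.St L r = min 1 ((r : ℝ) / L) := by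
  unfold St
  rw [Int.ediv_eq_zero_of_lt h0 h1, Int.emod_eq_of_lt h0 h1]; simp

lemma pb_St_le (L : ℝ) (y : ℤ) : p.St L y ≤ (y : ℝ) / p.e + 1 := by
  unfold St
  have he := p.pb_eR
  have h1 : ((y / (p.e : ℤ) : ℤ) : ℝ) ≤ (y : ℝ) / p.e := by
    rw [le_div_iff₀ (by linarith)]
    have := Int.ediv_mul_le y p.pb_e0.ne'
    exact_mod_cast this
  have := min_le_left (1 : ℝ) (((y % (p.e : ℤ) : ℤ) : ℝ) / L)
  linarith

lemma pb_St_le_one (L : ℝ) {y : ℤ} (k : ℤ) (h : y < (k + 1) * p.e) : p.St L y ≤ k + 1 := by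
  unfold St
  have h1 : y / (p.e : ℤ) < k + 1 := Int.ediv_lt_of_lt_mul p.pb_e0 h
  have h2 : ((y / (p.e : ℤ) : ℤ) : ℝ) ≤ k := by
    have : y / (p.e : ℤ) ≤ k := by omega
    exact_mod_cast this
  have := min_le_left (1 : ℝ) (((y % (p.e : ℤ) : ℤ) : ℝ) / L)
  linarith

lemma pb_St_sub {L : ℝ} (hL : 0 < L) (hLe : L ≤ p.e) (y n : ℤ) :
    p.St L (y + n) ≤ p.St L y + p.St L n := by
  have he := p.pb_e0
  obtain ⟨q, r, hr0, hr1, rfl⟩ : ∃ q r : ℤ, 0 ≤ r ∧ r < p.e ∧ y = r + q * p.e :=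
    ⟨y / p.e, y % p.e, Int.emod_nonneg _ he.ne', Int.emod_lt_of_pos _ he,
      (Int.emod_add_ediv_mul _ _).symm⟩
  obtain ⟨q', r', hs0, hs1, rfl⟩ : ∃ q r : ℤ, 0 ≤ r ∧ r < p.e ∧ n = r + q * p.e :=
    ⟨n / p.e, n % p.e, Int.emod_nonneg _ he.ne', Int.emod_lt_of_pos _ he,
      (Int.emod_add_ediv_mul _ _).symm⟩
  have hr : (0 : ℝ) ≤ (r : ℝ) / L := div_nonneg (by exact_mod_cast hr0) hL.le
  have hs : (0 : ℝ) ≤ (r' : ℝ) / L := div_nonneg (by exact_mod_cast hs0) hL.le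
  rw [p.pb_St_add, p.pb_St_add, p.pb_St_lo L hr0 hr1, p.pb_St_lo L hs0 hs1]
  by_cases h : r + r' < p.e
  · rw [show r + q * p.e + (r' + q' * p.e) = (r + r') + (q + q') * p.e by ring, p.pb_St_add,
      p.pb_St_lo L (by omega) h]
    push_cast
    rw [add_div]
    rcases le_total 1 ((r : ℝ) / L) with h1 | h1 <;> rcases le_total 1 ((r' : ℝ) / L) with h2 | h2 <;>
      simp only [min_eq_left, min_eq_right, h1, h2] <;>
      linarith [min_le_left (1 : ℝ) ((r : ℝ) / L + r' / L), min_le_right (1 : ℝ) ((r : ℝ) / L + r' / L)]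
  · rw [show r + q * p.e + (r' + q' * p.e) = (r + r' - p.e) + (q + q' + 1) * p.e by ring, p.pb_St_add,
      p.pb_St_lo L (by omega) (by omega)]
    push_cast
    have h3 : (1 : ℝ) ≤ p.e / L := by rw [le_div_iff₀ hL]; linarith
    have h4 : (r : ℝ) / L ≤ p.e / L := div_le_div_of_nonneg_right (by exact_mod_cast hr1.le) hL.le
    have h5 : (r' : ℝ) / L ≤ p.e / L := div_le_div_of_nonneg_right (by exact_mod_cast hs1.le) hL.le
    rw [sub_div, add_div]
    rcases le_total 1 ((r : ℝ) / L) with h1 | h1 <;> rcases le_total 1 ((r' : ℝ) / L) with h2 | h2 <;>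
      simp only [min_eq_left, min_eq_right, h1, h2] <;>
      linarith [min_le_left (1 : ℝ) ((r : ℝ) / L + r' / L - p.e / L),
        min_le_right (1 : ℝ) ((r : ℝ) / L + r' / L - p.e / L)]

lemma pb_V0_le (y n : ℤ) : p.V0 (y + n) ≤ p.V0 y + p.pbφ n := by
  have hl := p.pb_lR
  have hle : (19 : ℝ) * p.l ≤ p.e := by exact_mod_cast p.e_ge
  have h := p.pb_St_sub (L := 2 * p.l) (by linarith) (by linarith) (y + 5 * p.l) n
  have hH : 0 ≤ 1 - p.μ * (p.e - 1 / 2) := by rw [p.pb_H]; linarith [p.μ_pos]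
  have h2 := mul_le_mul_of_nonneg_left h hH
  unfold V0 pbφ
  rw [show y + n + 5 * (p.l : ℤ) = y + 5 * p.l + n by ring]
  push_cast
  nlinarith

lemma pb_V0_mono {y y' : ℤ} (h : y ≤ y') : p.V0 y ≤ p.V0 y' := by
  have h1 := p.V0_mono y y' h
  have h2 : (0 : ℝ) ≤ (y' : ℝ) - y := by
    have : (y : ℝ) ≤ y' := by exact_mod_cast h
    linarith
  nlinarith [p.μ_pos]

lemma pb_V0_gain {y y' : ℤ} (k : ℤ) (hk : 0 ≤ k) (h : y + k ≤ y') :
    p.V0 y + p.μ * k ≤ p.V0 y' := by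
  have h1 := p.V0_mono y (y + k) (by omega)
  have h2 := p.pb_V0_mono h
  push_cast at h1
  linarith

lemma pb_φ_zero : p.pbφ 0 = 0 := by
  unfold pbφ
  rw [p.pb_St_lo _ le_rfl p.pb_e0]; simp

lemma pb_φ_add_e (n : ℤ) : p.pbφ (n + p.e) = p.pbφ n + (1 + p.μ / 2) := by
  have h := p.pb_St_add (2 * p.l) n 1
  rw [one_mul] at h
  unfold pbφ
  rw [h, p.pb_H]
  push_cast
  linarith [p.pb_μe]

lemma pb_f_add_e {n : ℤ} (h : 0 ≤ n) : p.f (n + p.e) = p.f n + 1 := by
  have h1 := p.pb_St_add p.l n 1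
  have he := p.pb_e0
  rw [one_mul] at h1
  unfold f
  rw [max_eq_left h, max_eq_left (by omega), h1]; simp

lemma pb_f_max (n : ℤ) : p.f (max n 0) = p.f n := by
  unfold f; rw [max_assoc, max_self]

lemma pb_φ_one {r : ℤ} (h : r < p.e) : p.pbφ r ≤ 99 / 100 + p.μ / 2 + p.μ * r := by
  have h1 := p.pb_St_le_one (2 * p.l) 0 (y := r) (by omega)
  have hH : 0 ≤ 99 / 100 + p.μ / 2 := by linarith [p.μ_pos]
  unfold pbφ
  rw [p.pb_H]
  have := mul_le_mul_of_nonneg_left h1 hH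
  push_cast at this
  linarith

lemma pb_φ_ramp {r : ℤ} (h0 : 0 ≤ r) (h : r < p.e) : p.pbφ r ≤ 51 / 100 * ((r : ℝ) / p.l) := by
  have hl := p.pb_lR
  have hr : (0 : ℝ) ≤ r := by exact_mod_cast h0
  have hq : (0 : ℝ) ≤ (r : ℝ) / p.l := by positivity
  have h1 : p.St (2 * p.l) r ≤ (r : ℝ) / p.l / 2 := by
    rw [p.pb_St_lo _ h0 h]
    refine (min_le_right _ _).trans (le_of_eq ?_)
    field_simp
  have h2 : p.μ * r = p.μ * p.l * ((r : ℝ) / p.l) := by field_simp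
  have hH : 0 ≤ 99 / 100 + p.μ / 2 := by linarith [p.μ_pos]
  have h3 := mul_le_mul_of_nonneg_left h1 hH
  have h4 := mul_le_mul_of_nonneg_right p.pb_μl hq
  have h5 := mul_le_mul_of_nonneg_right p.pb_μ_le hq
  unfold pbφ
  rw [p.pb_H]
  nlinarith

lemma pb_φ_crude {y : ℤ} : p.pbφ y ≤ (1 + p.μ / 2) * ((y : ℝ) / p.e) + (99 / 100 + p.μ / 2) := by
  have h1 := p.pb_St_le (2 * p.l) y
  have hH : 0 ≤ 99 / 100 + p.μ / 2 := by linarith [p.μ_pos]
  have h3 := mul_le_mul_of_nonneg_left h1 hH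
  have he := p.pb_eR
  have h2 : p.μ * y = p.μ * p.e * ((y : ℝ) / p.e) := by field_simp
  rw [p.pb_μe] at h2
  unfold pbφ
  rw [p.pb_H]
  nlinarith

lemma pb_μ_inv : 1900 * p.μ ≤ 1 / (p.l : ℝ) := by
  have hl := p.pb_lR
  rw [le_div_iff₀ (by linarith)]
  linarith [p.pb_μl]

lemma pb_f_ramp {n : ℤ} (h : n ≤ p.l) : (n : ℝ) / p.l ≤ p.f n := by
  have h1 := p.min_le_f n
  have hl := p.pb_lR
  have h2 : (n : ℝ) / p.l ≤ 1 := by
    rw [div_le_one (by linarith)]; exact_mod_cast h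
  rwa [min_eq_right h2] at h1

lemma pb_f_one {n : ℤ} (h : (p.l : ℤ) ≤ n) : 1 ≤ p.f n := by
  have := p.le_f' n 0 (by simpa using h)
  simpa using this

lemma pb_μ_f {d : ℤ} (h : 1 ≤ d) : p.μ ≤ p.f d := by
  have h1 := p.pb_f_ramp (n := 1) p.pb_l1
  have h2 := p.f_mono h
  have h3 := p.pb_μ_inv
  have h4 := p.μ_pos
  push_cast at h1
  linarith

/-- Below one period `f` dominates the increment. -/
lemma pb_C1 {n : ℤ} (h0 : 0 < n) (h1 : n < p.e) : p.pbφ n + p.μ / 2 ≤ p.f n := by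
  have hμ := p.μ_pos
  by_cases h : (p.l : ℤ) ≤ n
  · have h2 := p.pb_f_one h
    have h3 := p.pb_φ_one h1
    have h4 : (n : ℝ) ≤ p.e - 1 := by
      have : n ≤ (p.e : ℤ) - 1 := by omega
      exact_mod_cast this
    have h5 := mul_le_mul_of_nonneg_left h4 hμ.le
    nlinarith [p.pb_μe]
  · have h2 := p.pb_f_ramp (n := n) (by omega)
    have h3 := p.pb_φ_ramp h0.le h1
    have hl := p.pb_lR
    have h4 : 1 / (p.l : ℝ) ≤ (n : ℝ) / p.l :=
      div_le_div_of_nonneg_right (by exact_mod_cast h0) (by linarith)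
    linarith [p.pb_μ_inv]

lemma pb_C2 {n : ℤ} (h0 : 0 ≤ n) (h1 : n < 2 * p.e) (h2 : n ≠ p.e) : p.pbφ n ≤ p.f n := by
  have hμ := p.μ_pos
  rcases h0.eq_or_lt with h | h
  · subst h; rw [p.pb_φ_zero]; exact p.f_nonneg 0
  rcases lt_or_gt_of_ne h2 with h3 | h3
  · linarith [p.pb_C1 h h3]
  · have h4 := p.pb_C1 (n := n - p.e) (by omega) (by omega)
    have h5 := p.pb_φ_add_e (n - p.e)
    have h6 := p.pb_f_add_e (n := n - p.e) (by omega)
    rw [sub_add_cancel] at h5 h6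
    linarith

lemma pb_φ_e : p.pbφ p.e = 1 + p.μ / 2 := by
  have := p.pb_φ_add_e 0
  rw [zero_add, p.pb_φ_zero] at this
  linarith

lemma pb_f_e : p.f p.e = p.f 0 + 1 := by
  have := p.pb_f_add_e (n := 0) le_rfl
  rwa [zero_add] at this

lemma pb_F2 {r d : ℤ} (h0 : 0 ≤ r) (h1 : 1 ≤ d) (h2 : r ≤ d) :
    p.pbφ r + p.μ ≤ p.f (r + d) := by
  have hμ := p.μ_pos
  have hl := p.pb_lR
  have he := p.pb_eR
  have hl1 := p.pb_l1
  have he1 := p.pb_e19
  by_cases ha : (p.e : ℤ) - 1 ≤ r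
  · by_cases hb : (p.e : ℤ) ≤ r
    · have h3 := p.pb_φ_crude (y := r)
      have h4 := p.le_f (r + d)
      have h5 : (1 : ℝ) ≤ (r : ℝ) / p.e := by
        rw [le_div_iff₀ (by linarith), one_mul]; exact_mod_cast hb
      have h6 : (r : ℝ) / p.e ≤ (d : ℝ) / p.e :=
        div_le_div_of_nonneg_right (by exact_mod_cast h2) (by linarith)
      push_cast at h4
      rw [add_div] at h4
      have h7 := p.pb_μ_le
      nlinarith
    · have h3 := p.pb_C1 (n := r) (by omega) (by omega)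
      have h4 := p.f_le_of_le r 1 (by push_cast; omega)
      have h5 := p.le_f' (r + d) 1 (by push_cast; omega)
      have h7 := p.pb_μ_le
      push_cast at h4 h5
      linarith
  by_cases hc : (p.l : ℤ) ≤ r + d
  · have h3 := p.pb_f_one hc
    have h4 := p.pb_φ_one (r := r) (by omega)
    have h5 : (r : ℝ) ≤ p.e - 2 := by
      have : r ≤ (p.e : ℤ) - 2 := by omega
      exact_mod_cast this
    have h6 := mul_le_mul_of_nonneg_left h5 hμ.le
    nlinarith [p.pb_μe]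
  · have h3 := p.pb_f_ramp (n := r + d) (by omega)
    have h4 := p.pb_φ_ramp h0 (by omega)
    have h5 : 1 / (p.l : ℝ) ≤ (d : ℝ) / p.l :=
      div_le_div_of_nonneg_right (by exact_mod_cast h1) (by linarith)
    have h6 : (0 : ℝ) ≤ (r : ℝ) / p.l := div_nonneg (by exact_mod_cast h0) (by linarith)
    push_cast at h3
    rw [add_div] at h3
    linarith [p.pb_μ_inv]

lemma pb_T0 {y d : ℤ} (h0 : 0 ≤ y) (h1 : 1 ≤ d) (h2 : y < 2 * p.e + d) :
    p.pbφ y ≤ p.f (y + d) := by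
  have hμ := p.μ_pos
  have he := p.pb_e0
  by_cases ha : y < 2 * p.e
  · by_cases hb : y = p.e
    · have h3 := p.pb_f_add_e (n := d) (by omega)
      have h4 := p.pb_μ_f h1
      rw [hb, p.pb_φ_e, add_comm (p.e : ℤ) d]
      linarith
    · exact (p.pb_C2 h0 ha hb).trans (p.f_mono (by omega))
  · have h3 := p.pb_F2 (r := y - 2 * p.e) (d := d) (by omega) h1 (by omega)
    have h4 := p.pb_φ_add_e (y - 2 * p.e)
    have h5 := p.pb_φ_add_e (y - 2 * p.e + p.e)
    have h6 := p.pb_f_add_e (n := y - 2 * p.e + d) (by omega)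
    have h7 := p.pb_f_add_e (n := y - 2 * p.e + d + p.e) (by omega)
    rw [show y - 2 * (p.e : ℤ) + p.e + p.e = y by ring] at h5
    rw [show y - 2 * (p.e : ℤ) + d + p.e + p.e = y + d by ring] at h7
    linarith

/-- The main one dimensional inequality. -/
lemma pb_T {b n : ℤ} (s : ℤ) (hb : 1 ≤ b) (hn : 0 ≤ n) :
    p.V0 (b + s) + p.μ ≤ p.V0 (max (2 * b - n) 0 + s) + p.f n := by
  have hμ := p.μ_pos
  by_cases h : n ≤ b
  · rcases hn.eq_or_lt with h0 | h0
    · have h1 := p.pb_V0_gain (y := b + s) (y' := max (2 * b - n) 0 + s) 1 (by omega) (by omega)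
      have h2 := p.f_nonneg n
      push_cast at h1
      linarith
    · have h1 := p.pb_V0_mono (y := b + s) (y' := max (2 * b - n) 0 + s) (by omega)
      have h2 := p.pb_μ_f (d := n) h0
      linarith
  · have h1 := p.pb_V0_le (max (2 * b - n) 0 + s) (b - max (2 * b - n) 0)
    rw [show max (2 * b - n) 0 + s + (b - max (2 * b - n) 0) = b + s by ring] at h1
    have h2 := p.pb_F2 (r := b - max (2 * b - n) 0) (d := n - (b - max (2 * b - n) 0))
      (by omega) (by omega) (by omega)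
    rw [add_sub_cancel] at h2
    linarith

lemma pb_φ_2m : p.pbφ (2 * p.m) ≤ 2 - 19 * p.μ := by
  have hμ := p.μ_pos
  have hl1 := p.pb_l1
  have hle := p.pb_le1
  have h1 := p.pb_St_le_one (2 * p.l) 1 (y := 2 * p.m) (by omega)
  have hH : 0 ≤ 99 / 100 + p.μ / 2 := by linarith
  have h2 := mul_le_mul_of_nonneg_left h1 hH
  have h3 : (p.m : ℝ) ≤ p.e - 10 := by
    have : (p.m : ℤ) ≤ p.e - 10 := by omega
    exact_mod_cast this
  have h4 := mul_le_mul_of_nonneg_left h3 hμ.le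
  unfold pbφ
  rw [p.pb_H]
  push_cast at h2 ⊢
  nlinarith [p.pb_μe]

/-- A shift by `2 m s` costs less than `2 s`. -/
lemma pb_shift (y : ℤ) {s : ℤ} (hs : 0 ≤ s) :
    p.V0 (y + 2 * p.m * s) ≤ p.V0 y + s * (2 - 19 * p.μ) := by
  induction s, hs using Int.leInduction with
  | base => simp
  | succ s _ ih =>
    have h1 := p.pb_V0_le (y + 2 * p.m * s) (2 * p.m)
    rw [show y + 2 * (p.m : ℤ) * (s + 1) = y + 2 * p.m * s + 2 * p.m by ring]
    have h2 := p.pb_φ_2m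
    push_cast
    linarith

lemma pb_shift' {y y' s : ℤ} (hs : 0 ≤ s) (h : y' ≤ y + 2 * p.m * s) :
    p.V0 y' ≤ p.V0 y + s * (2 - 19 * p.μ) :=
  (p.pb_V0_mono h).trans (p.pb_shift y hs)

/-- The middle sector. -/
lemma pb_mid (h2 : 1 ≤ a') (h3 : a' ≤ 2 * a) :
    p.U a 0 - p.V0 a' ≤ p.f (2 * a - a') ∧
      (¬ (a ≤ p.e ∧ a' = p.π a) → p.U a 0 - p.V0 a' + p.μ / 2 ≤ p.f (2 * a - a')) := by
  have hμ := p.μ_pos
  have he := p.pb_e0
  have hV := p.pb_V0_le a' (2 * a - a')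
  rw [add_sub_cancel] at hV
  unfold U π
  by_cases ha : 2 * a < p.e
  · simp only [ha, and_true, if_true]
    refine ⟨by linarith [p.pb_C2 (n := 2 * a - a') (by omega) (by omega) (by omega)], fun h => ?_⟩
    have h4 : a' ≠ 2 * a := fun h5 => h ⟨by omega, h5⟩
    linarith [p.pb_C1 (n := 2 * a - a') (by omega) (by omega)]
  by_cases hb : a ≤ p.e
  · simp only [ha, hb, and_true, and_false, if_true, if_false, true_and]
    have h4 := p.V0_add_e (2 * a - p.e)
    rw [sub_add_cancel] at h4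
    have key : a' ≠ 2 * a - p.e → 1 + p.V0 (2 * a - p.e) - p.V0 a' + p.μ / 2 ≤ p.f (2 * a - a') :=
      fun h => by linarith [p.pb_C2 (n := 2 * a - a') (by omega) (by omega) (by omega)]
    refine ⟨?_, key⟩
    by_cases h : a' = 2 * a - p.e
    · rw [h, sub_sub_cancel, p.pb_f_e]
      linarith [p.f_nonneg 0]
    · linarith [key h]
  · simp only [ha, hb, and_false, if_false, false_and, not_false_eq_true, forall_const]
    have hV0 : p.V a 0 = p.V0 a := by simp [V]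
    have h4 := p.V0_add_e a
    have key : 1 + p.V a 0 - p.V0 a' + p.μ / 2 ≤ p.f (2 * a - a') := by
      rw [hV0]
      by_cases h : a + p.e ≤ a'
      · linarith [p.pb_V0_mono h, p.f_nonneg (2 * a - a')]
      · have h5 := p.pb_V0_le a' (a + p.e - a')
        rw [add_sub_cancel] at h5
        have h6 := p.pb_T0 (y := a + p.e - a') (d := a - p.e) (by omega) (by omega) (by omega)
        rw [show a + p.e - a' + (a - p.e) = 2 * a - a' by ring] at h6
        linarith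
    exact ⟨by linarith, key⟩

lemma pb_FB_pos (n : ℤ) {κ : ℤ} (h : 0 ≤ κ) : p.FB n κ = κ + p.f n := by
  unfold FB
  rw [abs_of_nonneg h, max_eq_left (by omega : -κ ≤ 0)]; simp

lemma pb_FB_neg (n : ℤ) {κ : ℤ} (h : κ ≤ 0) :
    p.FB n κ = -κ + p.f (max (n - 2 * p.m * (-κ)) 0) := by
  unfold FB
  rw [abs_of_nonpos h, max_eq_right (by omega : 0 ≤ -κ), p.pb_f_max]; push_cast; rfl

lemma pb_V_pos (a : ℤ) (h : 0 ≤ j) : p.V a j = p.V0 a + j * (1 - p.μ / 2) := by
  unfold V; rw [if_pos h]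

lemma pb_V_neg (a : ℤ) (h : j < 0) : p.V a j =
    p.V0 (max (a - 2 * p.m * (-j - 1)) p.top - p.e) + p.μ + (-j - 1) * (1 + p.μ) := by
  unfold V; rw [if_neg (by omega)]

lemma pb_U_ne (a : ℤ) (h : j ≠ 0) : p.U a j = 1 + p.V a j := p.U_eq (fun h1 => h h1.1)

lemma pb_top : 2 * (p.m : ℤ) + 17 * p.l ≤ p.top := by
  have := p.pb_le1; unfold top; omega

lemma pb_ms {s : ℤ} (h : 0 ≤ s) : 0 ≤ 2 * (p.m : ℤ) * s := by positivity

/-- From the middle sector to the positive sectors. -/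
lemma pb_0p (h2 : 1 ≤ a') (h3 : a' ≤ 2 * a) (hj : 0 < j') :
    p.U a 0 - p.V a' j' + p.μ / 2 ≤ p.FB (2 * a - a') (2 * 0 - j') := by
  have hμ := p.μ_pos
  have hm := p.pb_ms hj.le
  rw [p.pb_FB_neg _ (by omega), p.pb_V_pos _ hj.le, show -(2 * 0 - j') = j' by ring]
  generalize hM : 2 * (p.m : ℤ) * j' = M at hm
  have h4 := (p.pb_mid (a := a) (a' := 2 * a - max (2 * a - a' - M) 0) (by omega) (by omega)).1
  rw [sub_sub_cancel] at h4
  have h5 := p.pb_shift' (y := a') (y' := 2 * a - max (2 * a - a' - M) 0) hj.le (by omega)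
  have h6 : (1 : ℝ) ≤ j' := by exact_mod_cast hj
  push_cast
  nlinarith

/-- Between the positive sectors. -/
lemma pb_pp (h1 : 1 ≤ a) (h2 : 1 ≤ a') (h3 : a' ≤ 2 * a) (hj : 0 < j) (hj' : 0 ≤ j') :
    p.U a j - p.V a' j' + p.μ / 2 ≤ p.FB (2 * a - a') (2 * j - j') := by
  have hμ := p.μ_pos
  have hμ' := p.pb_μ_le
  have h6 : (1 : ℝ) ≤ j := by exact_mod_cast hj
  rw [p.pb_U_ne _ hj.ne', p.pb_V_pos _ hj.le, p.pb_V_pos _ hj']
  by_cases h : j' ≤ 2 * j
  · rw [p.pb_FB_pos _ (by omega)]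
    have h4 := p.pb_T (b := a) (n := 2 * a - a') 0 h1 (by omega)
    rw [sub_sub_cancel, max_eq_left (by omega), add_zero, add_zero] at h4
    have h7 : (j' : ℝ) ≤ 2 * j := by exact_mod_cast h
    push_cast
    nlinarith
  · rw [p.pb_FB_neg _ (by omega)]
    have hs : 0 ≤ -(2 * j - j') := by omega
    have hm := p.pb_ms hs
    have h5 := fun y' => p.pb_shift' (y := a') (y' := y') hs
    generalize 2 * (p.m : ℤ) * -(2 * j - j') = M at hm h5 ⊢
    have h4 := p.pb_T (b := a) (n := max (2 * a - a' - M) 0) 0 h1 (by omega)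
    rw [add_zero, add_zero] at h4
    have h8 := h5 (max (2 * a - max (2 * a - a' - M) 0) 0) (by omega)
    have h7 : 2 * (j : ℝ) ≤ j' := by
      have : 2 * j ≤ j' := by omega
      exact_mod_cast this
    push_cast at h8 ⊢
    nlinarith

/-- The one dimensional inequality in the negative sectors. -/
lemma pb_N (b : ℤ) {n y : ℤ} (hn : 0 ≤ n) (hy : 2 * b - 2 * p.m - n ≤ y) :
    p.V0 (max b p.top - p.e) ≤ p.V0 (max y p.top - p.e) + p.f n ∧
      (¬ (b ≤ p.top ∧ y ≤ p.top) →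
        p.V0 (max b p.top - p.e) + p.μ ≤ p.V0 (max y p.top - p.e) + p.f n) := by
  have hμ := p.μ_pos
  have ht := p.pb_top
  have hl := p.pb_l1
  have hf := p.f_nonneg n
  by_cases h : b ≤ p.top
  · refine ⟨by linarith [p.pb_V0_mono (y := max b p.top - p.e) (y' := max y p.top - p.e) (by omega)],
      fun h1 => ?_⟩
    have h2 := p.pb_V0_gain (y := max b p.top - p.e) (y' := max y p.top - p.e) 1 (by omega) (by omega)
    push_cast at h2
    linarith
  · have h1 := p.pb_T (b := b - p.top) (n := n) (p.top - p.e) (by omega) hn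
    rw [show b - p.top + (p.top - p.e) = max b p.top - p.e by omega] at h1
    have h2 := p.pb_V0_mono (y := max (2 * (b - p.top) - n) 0 + (p.top - p.e))
      (y' := max y p.top - p.e) (by omega)
    exact ⟨by linarith, fun _ => by linarith⟩

/-- Between the negative sectors. -/
lemma pb_nn (h3 : a' ≤ 2 * a) (hj : j < 0) (hj' : j' < 0) :
    p.U a j - p.V a' j' ≤ p.FB (2 * a - a') (2 * j - j') ∧
      (¬ (j = -1 ∧ j' = -1 ∧ a ≤ p.top ∧ a' ≤ p.top) →
        p.U a j - p.V a' j' + p.μ / 2 ≤ p.FB (2 * a - a') (2 * j - j')) := by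
  have hμ := p.μ_pos
  have hμ' := p.pb_μ_le
  have h6 : (j : ℝ) ≤ -1 := by
    have : j ≤ -1 := by omega
    exact_mod_cast this
  have h7 : (j' : ℝ) ≤ -1 := by
    have : j' ≤ -1 := by omega
    exact_mod_cast this
  rw [p.pb_U_ne _ hj.ne, p.pb_V_neg _ hj, p.pb_V_neg _ hj']
  by_cases h : 2 * j ≤ j'
  · rw [p.pb_FB_neg _ (by omega)]
    have h4 := p.pb_N (a - 2 * p.m * (-j - 1)) (n := max (2 * a - a' - 2 * p.m * -(2 * j - j')) 0)
      (y := a' - 2 * p.m * (-j' - 1)) (le_max_right _ _)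
      (by linarith [le_max_left (2 * a - a' - 2 * p.m * -(2 * j - j')) 0])
    by_cases hc : j = -1 ∧ j' = -1
    · obtain ⟨rfl, rfl⟩ := hc
      simp only [neg_neg, sub_self, mul_zero, sub_zero, true_and] at h4 ⊢
      push_cast at h4 ⊢
      exact ⟨by linarith [h4.1], fun h5 => by linarith [h4.2 h5]⟩
    · have key : 1 + (p.V0 (max (a - 2 * p.m * (-j - 1)) p.top - p.e) + p.μ + (-j - 1) * (1 + p.μ)) -
          (p.V0 (max (a' - 2 * p.m * (-j' - 1)) p.top - p.e) + p.μ + (-j' - 1) * (1 + p.μ)) + p.μ / 2 ≤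
          -((2 * j - j' : ℤ) : ℝ) + p.f (max (2 * a - a' - 2 * p.m * -(2 * j - j')) 0) := by
        have h5 := h4.1
        push_cast
        by_cases hd : j = -1
        · have hj2 : j' = -2 := by omega
          have e1 : (j : ℝ) = -1 := by rw [hd]; norm_num
          have e2 : (j' : ℝ) = -2 := by rw [hj2]; norm_num
          rw [e1, e2]
          linarith
        · have h8 : (j : ℝ) ≤ -2 := by
            have : j ≤ -2 := by omega
            exact_mod_cast this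
          nlinarith
      exact ⟨by linarith, fun _ => key⟩
  · rw [p.pb_FB_pos _ (by omega)]
    have hs : 0 ≤ 2 * j - j' := by omega
    have hm := p.pb_ms hs
    have h4 := (p.pb_N (a - 2 * p.m * (-j - 1)) (n := 2 * a - a')
      (y := a' - 2 * p.m * (-j' - 1) + 2 * p.m * (2 * j - j')) (by omega) (by linarith)).1
    have h5 := p.pb_shift' (y := max (a' - 2 * p.m * (-j' - 1)) p.top - p.e)
      (y' := max (a' - 2 * p.m * (-j' - 1) + 2 * p.m * (2 * j - j')) p.top - p.e) hs (by omega)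
    have h8 : (j' : ℝ) + 1 ≤ 2 * j := by
      have : j' + 1 ≤ 2 * j := by omega
      exact_mod_cast this
    have key : 1 + (p.V0 (max (a - 2 * p.m * (-j - 1)) p.top - p.e) + p.μ + (-j - 1) * (1 + p.μ)) -
        (p.V0 (max (a' - 2 * p.m * (-j' - 1)) p.top - p.e) + p.μ + (-j' - 1) * (1 + p.μ)) + p.μ / 2 ≤
        ((2 * j - j' : ℤ) : ℝ) + p.f (2 * a - a') := by
      push_cast at h5 ⊢
      nlinarith
    exact ⟨by linarith, fun _ => key⟩

/-- From the negative sectors to the others. -/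
lemma pb_np (h2 : 1 ≤ a') (hj : j < 0) (hj' : 0 ≤ j') :
    p.U a j - p.V a' j' + p.μ / 2 ≤ p.FB (2 * a - a') (2 * j - j') := by
  have hμ := p.μ_pos
  have hμ' := p.pb_μ_le
  have ht := p.pb_top
  have hl := p.pb_l1
  have hlR := p.pb_lR
  have h6 : (j : ℝ) ≤ -1 := by
    have : j ≤ -1 := by omega
    exact_mod_cast this
  have h7 : (0 : ℝ) ≤ j' := by exact_mod_cast hj'
  have hm := p.pb_ms hj'
  rw [p.pb_U_ne _ hj.ne, p.pb_V_neg _ hj, p.pb_V_pos _ hj', p.pb_FB_neg _ (by omega)]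
  have h5 := p.pb_shift a' hj'
  have hn0 := le_max_right (2 * a - a' - 2 * p.m * -(2 * j - j')) 0
  have hn1 : 2 * (a - 2 * p.m * (-j - 1)) - 4 * p.m -
      max (2 * a - a' - 2 * p.m * -(2 * j - j')) 0 ≤ a' + 2 * p.m * j' := by
    linarith [le_max_left (2 * a - a' - 2 * p.m * -(2 * j - j')) 0]
  generalize max (2 * a - a' - 2 * p.m * -(2 * j - j')) 0 = n at hn0 hn1 ⊢
  generalize a - 2 * p.m * (-j - 1) = b at hn1 ⊢
  generalize 2 * (p.m : ℤ) * j' = M at hm h5 hn1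
  have key : p.V0 (max b p.top - p.e) ≤ p.V0 (a' + M) + p.f n + 1 - 3 * p.μ := by
    have h8 := p.V0_add_e (max b p.top - p.top + -(3 * p.l))
    rw [show max b p.top - p.top + -(3 * (p.l : ℤ)) + p.e = max b p.top - p.e by
      unfold top; ring] at h8
    by_cases h : b ≤ p.top
    · have h9 := p.pb_V0_gain (y := max b p.top - p.top + -(3 * p.l)) (y' := a' + M) 4
        (by omega) (by omega)
      push_cast at h9
      linarith [p.f_nonneg n]
    · have h9 := p.pb_T (b := max b p.top - p.top) (n := n) (-(3 * p.l)) (by omega) hn0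
      have h10 := p.pb_V0_gain (y := max (2 * (max b p.top - p.top) - n) 0 + -(3 * p.l))
        (y' := a' + M) 4 (by omega) (by omega)
      push_cast at h10
      linarith
  push_cast
  nlinarith

/-- From the other sectors to the negative ones. -/
lemma pb_pn (h1 : 1 ≤ a) (h2 : 1 ≤ a') (h3 : a' ≤ 2 * a) (hj : 0 ≤ j) (hj' : j' < 0) :
    p.U a j - p.V a' j' + p.μ / 2 ≤ p.FB (2 * a - a') (2 * j - j') := by
  have hμ := p.μ_pos
  have hμ' := p.pb_μ_le
  have h7 : (j' : ℝ) ≤ -1 := by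
    have : j' ≤ -1 := by omega
    exact_mod_cast this
  have hs : 0 ≤ -j' - 1 := by omega
  have hm := p.pb_ms hs
  rw [p.pb_V_neg _ hj', p.pb_FB_pos _ (by omega)]
  have h5 := p.pb_shift' (y := max (a' - 2 * p.m * (-j' - 1)) p.top - p.e) (y' := a' - p.e) hs
    (by omega)
  have h8 := p.V0_add_e (a' - p.e)
  rw [sub_add_cancel] at h8
  push_cast at h5 ⊢
  rcases hj.eq_or_lt with h | h
  · subst h
    have h4 := (p.pb_mid h2 h3).1
    push_cast
    nlinarith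
  · rw [p.pb_U_ne _ h.ne', p.pb_V_pos _ hj]
    have h4 := p.pb_T (b := a) (n := 2 * a - a') 0 h1 (by omega)
    rw [sub_sub_cancel, max_eq_left (by omega), add_zero, add_zero] at h4
    have h6 : (1 : ℝ) ≤ j := by exact_mod_cast h
    nlinarith

lemma pb_both (h1 : 1 ≤ a) (h2 : 1 ≤ a') (h3 : a' ≤ 2 * a) :
    p.U a j - p.V a' j' ≤ p.FB (2 * a - a') (2 * j - j') ∧
      (¬ p.Exc a j a' j' →
        p.U a j - p.V a' j' + p.μ / 2 ≤ p.FB (2 * a - a') (2 * j - j')) := by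
  have hμ := p.μ_pos
  have st : p.U a j - p.V a' j' + p.μ / 2 ≤ p.FB (2 * a - a') (2 * j - j') →
      p.U a j - p.V a' j' ≤ p.FB (2 * a - a') (2 * j - j') ∧
      (¬ p.Exc a j a' j' →
        p.U a j - p.V a' j' + p.μ / 2 ≤ p.FB (2 * a - a') (2 * j - j')) :=
    fun h => ⟨by linarith, fun _ => h⟩
  rcases lt_or_ge j 0 with hj | hj
  · rcases lt_or_ge j' 0 with hj' | hj'
    · have h := p.pb_nn h3 hj hj'
      exact ⟨h.1, fun h4 => h.2 fun h5 => h4 (Or.inr h5)⟩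
    · exact st (p.pb_np h2 hj hj')
  rcases lt_or_ge j' 0 with hj' | hj'
  · exact st (p.pb_pn h1 h2 h3 hj hj')
  rcases hj.eq_or_lt with h | h
  · subst h
    rcases hj'.eq_or_lt with h' | h'
    · subst h'
      have h := p.pb_mid h2 h3
      rw [p.pb_FB_pos _ (by omega), p.pb_V_pos _ le_rfl]
      push_cast
      exact ⟨by linarith [h.1], fun h4 => by
        linarith [h.2 fun h5 => h4 (Or.inl ⟨rfl, rfl, h5⟩)]⟩
    · exact st (p.pb_0p h2 h3 h')
  · exact st (p.pb_pp h1 h2 h3 h hj')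

theorem entry (h1 : 1 ≤ a) (h2 : 1 ≤ a') (h3 : a' ≤ 2 * a) :
    p.U a j - p.V a' j' ≤ p.FB (2 * a - a') (2 * j - j') :=
  (p.pb_both h1 h2 h3).1

theorem entry_strict (h1 : 1 ≤ a) (h2 : 1 ≤ a') (h3 : a' ≤ 2 * a) (h : ¬ p.Exc a j a' j') :
    p.U a j - p.V a' j' + p.μ / 2 ≤ p.FB (2 * a - a') (2 * j - j') :=
  (p.pb_both h1 h2 h3).2 h

end Pool.Agent.Lib.MP_788af2_nt.AG.Pm
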