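import Pool.Agent.Lib.MP_788af2_nt.AG.One
import Pool.Agent.Lib.MP_788af2_nt.DW.Entire
import Pool.Agent.Lib.MP_788af2_nt.DW.Count

/-!
The splitting series computes the additive character.
-/

set_option linter.unusedSectionVars false

namespace Pool.Agent.Lib.MP_788af2_nt.AG

open PowerSeries Finset.HasAntidiagonal

variable {K : Type} [NontriviallyNormedField K] [IsUltrametricDist K] [CompleteSpace K]

theorem summable_norm_val {f : K⟦X⟧} {c : ℝ} (hc0 : 0 ≤ c) (hc : c < 1)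
    (hf : ∀ n, ‖coeff n f‖ ≤ c ^ n) {x : K} (hx : ‖x‖ ≤ 1) :
    Summable fun n => ‖coeff n f * x ^ n‖ := by
  refine Summable.of_nonneg_of_le (fun n => norm_nonneg _) (fun n => ?_)
    (summable_geometric_of_lt_one hc0 hc)
  rw [norm_mul, norm_pow]
  exact (mul_le_of_le_one_right (norm_nonneg _) (pow_le_one₀ (norm_nonneg _) hx)).trans (hf n)

theorem val_mul {f g : K⟦X⟧} {x : K} (hf : Summable fun n => ‖coeff n f * x ^ n‖)
    (hg : Summable fun n => ‖coeff n g * x ^ n‖) : val x (f * g) = val x f * val x g := by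
  unfold val
  rw [tsum_mul_tsum_eq_tsum_sum_antidiagonal_of_summable_norm hf hg]
  refine tsum_congr fun n => ?_
  rw [coeff_mul, Finset.sum_mul]
  refine Finset.sum_congr rfl fun p hp => ?_
  rw [← mem_antidiagonal.mp hp]
  ring

theorem val_one (x : K) : val x 1 = 1 := DW.ev_one x

theorem val_subst_sq (f : K⟦X⟧) (x : K) : val x (f.subst (X ^ 2 : K⟦X⟧)) = val (x ^ 2) f := by
  unfold val
  rw [← expand_apply 2 two_ne_zero, ← (mul_right_injective₀ (two_ne_zero (α := ℕ))).tsum_eq]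
  · simp only [coeff_expand_mul, pow_mul]
  · intro n hn
    by_contra h
    refine hn ?_
    have : ¬ 2 ∣ n := by
      rintro ⟨m, rfl⟩
      exact h ⟨m, rfl⟩
    simp only [coeff_expand_of_not_dvd 2 two_ne_zero _ this, zero_mul]

theorem norm_coeff_mul_le {f g : K⟦X⟧} {c : ℝ} (hc0 : 0 ≤ c) (hf : ∀ n, ‖coeff n f‖ ≤ c ^ n)
    (hg : ∀ n, ‖coeff n g‖ ≤ c ^ n) (n : ℕ) : ‖coeff n (f * g)‖ ≤ c ^ n := by
  rw [coeff_mul]
  refine IsUltrametricDist.norm_sum_le_of_forall_le_of_nonneg (by positivity) fun p hp => ?_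
  rw [← mem_antidiagonal.mp hp, pow_add, norm_mul]
  exact mul_le_mul (hf _) (hg _) (norm_nonneg _) (by positivity)

namespace One

variable (O : One K)

theorem val_θ_sq {x : K} (hx : ‖x‖ ≤ 1) : val x O.θ ^ 2 * val (x ^ 2) O.g = val x O.g := by
  have h1 := summable_norm_val (by norm_num) (by norm_num) O.θ_le hx
  have h2 := summable_norm_val (by norm_num) (by norm_num)
    (norm_coeff_mul_le (by norm_num) O.θ_le O.θ_le) hx
  have h3 : ∀ n, ‖coeff n (O.g.subst (X ^ 2 : K⟦X⟧))‖ ≤ (1 / 2) ^ n := by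
    intro n
    rw [← expand_apply 2 two_ne_zero, coeff_expand]
    split_ifs with h
    · obtain ⟨m, rfl⟩ := h
      rw [Nat.mul_div_cancel_left _ two_pos, pow_mul]
      exact (O.g_le m).trans (by norm_num)
    · rw [norm_zero]
      positivity
  conv_rhs => rw [← O.θ_g]
  rw [sq O.θ, val_mul h2 (summable_norm_val (by norm_num) (by norm_num) h3 hx), val_mul h1 h1,
    val_subst_sq, sq]

theorem val_g_ne {x : K} (hx : ‖x‖ ≤ 1) : val x O.g ≠ 0 := by
  have h := val_mul (summable_norm_val (by norm_num) (by norm_num) O.g_le hx)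
    (summable_norm_val (by norm_num) (by norm_num) O.gi_le hx)
  rw [O.g_gi, val_one] at h
  exact left_ne_zero_of_mul_eq_one h.symm

theorem val_θ_sub {x : K} (hx : ‖x‖ ≤ 1) : ‖val x O.θ - 1 - 2 * x‖ ≤ 1 / 4 := by
  have h1 := (summable_norm_val (by norm_num) (by norm_num) O.θ_le hx).of_norm
  rw [val, ← h1.sum_add_tsum_nat_add 2]
  simp only [Finset.sum_range_succ, Finset.sum_range_zero, O.θ_zero, O.θ_one, pow_zero, pow_one,
    mul_one, zero_add]
  rw [show ∀ t : K, 1 + 2 * x + t - 1 - 2 * x = t from fun t => by ring]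
  refine IsUltrametricDist.norm_tsum_le_of_forall_le_of_nonneg (by norm_num) fun n => ?_
  rw [norm_mul, norm_pow]
  refine (mul_le_of_le_one_right (norm_nonneg _) (pow_le_one₀ (norm_nonneg _) hx)).trans
    ((O.θ_le _).trans ?_)
  rw [pow_add]
  have : (1 / 2 : ℝ) ^ n ≤ 1 := pow_le_one₀ (by norm_num) (by norm_num)
  nlinarith

theorem prod_sq {x : K} (hx : ‖x‖ ≤ 1) (n : ℕ) :
    (∏ k ∈ Finset.range n, val (x ^ 2 ^ k) O.θ) ^ 2 * val (x ^ 2 ^ n) O.g = val x O.g := by
  induction n with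
  | zero => simp
  | succ n ih =>
    have h1 : ‖x ^ 2 ^ n‖ ≤ 1 := by
      rw [norm_pow]
      exact pow_le_one₀ (norm_nonneg _) hx
    rw [Finset.prod_range_succ, mul_pow, mul_assoc, pow_succ 2 n, pow_mul, O.val_θ_sq h1, ih]

theorem prod_sub (h2 : ‖(2 : K)‖ = 1 / 2) {ι : Type} (s : Finset ι) {x : ι → K}
    (hx : ∀ i, ‖x i‖ ≤ 1) : ‖∏ i ∈ s, val (x i) O.θ - 1 - 2 * ∑ i ∈ s, x i‖ ≤ 1 / 4 := by
  classical
  have hadd : ∀ {a b : K} {c : ℝ}, ‖a‖ ≤ c → ‖b‖ ≤ c → ‖a + b‖ ≤ c := fun ha hb =>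
    (IsUltrametricDist.norm_add_le_max _ _).trans (max_le ha hb)
  induction s using Finset.induction_on with
  | empty => simp
  | insert a s ha ih =>
    rw [Finset.prod_insert ha, Finset.sum_insert ha]
    set P := ∏ i ∈ s, val (x i) O.θ
    set S := ∑ i ∈ s, x i with hS
    have hS1 : ‖S‖ ≤ 1 :=
      IsUltrametricDist.norm_sum_le_of_forall_le_of_nonneg zero_le_one fun i _ => hx i
    have h1 := O.val_θ_sub (hx a)
    have h3 : ‖2 * x a‖ ≤ 1 / 2 := by
      rw [norm_mul, h2]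
      nlinarith [hx a, norm_nonneg (x a)]
    have h4 : ‖2 * S‖ ≤ 1 / 2 := by
      rw [norm_mul, h2]
      nlinarith [norm_nonneg S]
    have h5 : ‖P‖ ≤ 1 := by
      rw [show P = (P - 1 - 2 * S) + (1 + 2 * S) by ring]
      exact hadd (ih.trans (by norm_num)) (hadd norm_one.le (h4.trans (by norm_num)))
    have h6 : ‖P - 1‖ ≤ 1 / 2 := by
      rw [show P - 1 = (P - 1 - 2 * S) + 2 * S by ring]
      exact hadd (ih.trans (by norm_num)) h4
    rw [show val (x a) O.θ * P - 1 - 2 * (x a + S) = (val (x a) O.θ - 1 - 2 * x a) * P +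
      ((P - 1 - 2 * S) + 2 * x a * (P - 1)) by ring]
    refine hadd ?_ (hadd ih ?_)
    · rw [norm_mul]
      nlinarith [norm_nonneg (val (x a) O.θ - 1 - 2 * x a), norm_nonneg P]
    · rw [norm_mul]
      nlinarith [norm_nonneg (2 * x a), norm_nonneg (P - 1)]

end One

namespace Lift

variable {κ : Type} [Field κ] (Λ : Lift K κ)

theorem red_zero : Λ.red 0 = 0 := (Λ.red_eq_zero 0 (by simp)).mpr (by simp)

theorem red_one : Λ.red 1 = 1 := by simpa using Λ.red_τ 1

theorem red_sum {ι : Type} (s : Finset ι) {x : ι → K} (hx : ∀ i, ‖x i‖ ≤ 1) :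
    Λ.red (∑ i ∈ s, x i) = ∑ i ∈ s, Λ.red (x i) := by
  classical
  induction s using Finset.induction_on with
  | empty => simpa using Λ.red_zero
  | insert a s ha ih =>
    rw [Finset.sum_insert ha, Finset.sum_insert ha, Λ.red_add _ _ (hx a)
      (IsUltrametricDist.norm_sum_le_of_forall_le_of_nonneg zero_le_one fun i _ => hx i), ih]

end Lift

/-- The product of the values of the splitting series at the conjugates of a lift. -/
theorem prod_θ {κ : Type} [Field κ] [CharP κ 2] (Λ : Lift K κ) (O : One K) {n : ℕ} {z : κ}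
    (hz : z ^ 2 ^ n = z) :
    ∏ k ∈ Finset.range n, val (Λ.τ (z ^ 2 ^ k)) O.θ = (DW.psi n z : K) := by
  have h1 := O.prod_sq (Λ.τ_le z) n
  rw [← map_pow Λ.τ z (2 ^ n), hz, mul_eq_right₀ (O.val_g_ne (Λ.τ_le z))] at h1
  simp only [← map_pow] at h1
  have h2 := O.prod_sub Λ.two (Finset.range n) fun k => Λ.τ_le (z ^ 2 ^ k)
  set S := ∑ k ∈ Finset.range n, Λ.τ (z ^ 2 ^ k) with hS
  have hS1 : ‖S‖ ≤ 1 :=
    IsUltrametricDist.norm_sum_le_of_forall_le_of_nonneg zero_le_one fun i _ => Λ.τ_le _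
  have hS2 : Λ.red S = DW.trn n z := by
    rw [hS, Λ.red_sum _ fun k => Λ.τ_le _]
    simp only [Λ.red_τ, DW.trn]
  unfold DW.psi
  rcases sq_eq_one_iff.mp h1 with h | h
  · rw [h, sub_self, zero_sub, norm_neg, norm_mul, Λ.two] at h2
    rw [h, ← hS2, if_pos ((Λ.red_eq_zero S hS1).mpr (by linarith)), Int.cast_one]
  · rw [h, show (-1 : K) - 1 - 2 * S = -(2 * (1 + S)) by ring, norm_neg, norm_mul, Λ.two] at h2
    have h3 := (Λ.red_eq_zero (1 + S) ((IsUltrametricDist.norm_add_le_max _ _).trans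
      (max_le norm_one.le hS1))).mpr (by linarith)
    rw [Λ.red_add _ _ norm_one.le hS1, Λ.red_one, hS2] at h3
    rw [h, if_neg fun h4 => by simp [h4] at h3]
    simp

end Pool.Agent.Lib.MP_788af2_nt.AG
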