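import Pool.Agent.Lib.MP_788af2_nt.AG.RhoB
import Pool.Agent.Lib.MP_788af2_nt.AG.Eta

/-!
The invariant form: definitions and quantitative bounds.
-/

set_option linter.unusedSectionVars false

namespace Pool.Agent.Lib.MP_788af2_nt.AG

open Polynomial Filter Topology

section defs

variable {A : Type} [NormedCommRing A]

/-- The part `k ≥ 0`. -/
def chi (x : Arr A) : Arr A := fun u => if 0 ≤ u.2 then x u else 0

/-- The part `k < 0`. -/
def chn (x : Arr A) : Arr A := fun u => if u.2 < 0 then x u else 0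

/-- The part `n ≤ s`. -/
def cutN (s : ℤ) (x : Arr A) : Arr A := fun u => if u.1 ≤ s then x u else 0

/-- Support in `n ≥ s`. -/
def SP (s : ℤ) (x : Arr A) : Prop := ∀ u : ℤ × ℤ, u.1 < s → x u = 0

/-- Support in `n ≤ s`. -/
def SN (s : ℤ) (x : Arr A) : Prop := ∀ u : ℤ × ℤ, s < u.1 → x u = 0

/-- A quantitative bound. -/
def Bd (p : Pm) (α γ C : ℝ) (x : Arr A) : Prop := ∀ u : ℤ × ℤ,
  ‖x u‖ ≤ C * 2 ^ (-(α * ((u.1 : ℝ) / p.e)) + γ * ((|u.2| : ℤ) : ℝ))

/-- The commutator with the cut. -/
noncomputable def cm (a x : Arr A) : Arr A := conv a (chi x) - chi (conv a x)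

/-- The array of a row vector. -/
def arr {J : Type} (x : J × Ex 1 → A) (j : J) : Arr A := fun u =>
  if h : u.1 ≤ -1 then x (j, ⟨-u, by simp only [Prod.fst_neg]; omega⟩) else 0

end defs

namespace Dat

variable {K A J Z : Type} [NontriviallyNormedField K] [NormedCommRing A] [NormedAlgebra K A]
  [Fintype Z] [DecidableEq J] [DecidableEq Z] (d : Dat K A J Z)

/-- The dual connection in the direction `t`. -/
noncomputable def Dt (j : J) (x : Arr A) : Arr A := dt x - conv (d.LT j) x

/-- The dual connection in the direction `x`. -/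
noncomputable def Dx (j : J) (x : Arr A) : Arr A := dx x - conv (d.LX j) x

/-- The form attached to a functional. -/
noncomputable def om (j : J) (x : Arr A) : Arr A :=
  d.Dt j (chi (d.Dx j x)) - d.Dx j (chi (d.Dt j x))

/-- The pairing. -/
noncomputable def pr (j : J) (x x' : Arr A) : A := conv x' (conv (d.gi j) (d.om j x)) 0

/-- Functionals of small growth that kill the exact forms. -/
structure Exa (j : J) (B : ℝ) (x : Arr A) : Prop where
  supp : SN (-1) x
  bd : Bd d.p (13 / 100) (13 / 100) B x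
  dx : SP 0 (d.Dx j x)
  dt : SP 1 (d.Dt j x)

/-- The arrays of `ρ`. -/
noncomputable def Rz (z : Z) (j : J) : Arr A := if j = d.jz z then d.ρ z else 0

/-- The arrays of the exact eigenfunctionals. -/
noncomputable def Xi (ζ : Z → J × Ex 1 → A) (z : Z) (j : J) : Arr A :=
  d.Rz z j + (d.c z : A) • arr (ζ z) j

end Dat

end Pool.Agent.Lib.MP_788af2_nt.AG
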