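import Pool.Agent.Lib.MP_788af2_nt.AG.QFormA

/-!
The invariant form: quantitative bounds.
-/

set_option linter.unusedSectionVars false

namespace Pool.Agent.Lib.MP_788af2_nt.AG

open Polynomial Filter Topology

variable {A : Type} [NormedCommRing A] [IsUltrametricDist A] [CompleteSpace A] [NormOneClass A]
  {p : Pm} {a b x y : Arr A} {α β γ α' γ' C C' : ℝ} {s s' : ℤ}

lemma Bd.nonneg (h : Bd p α γ C x) : 0 ≤ C := a1_nonneg (norm_nonneg _) (h 0)
lemma Bd.mono (h : Bd p α γ C x) (hγ : γ ≤ γ') (hC : C ≤ C') : Bd p α γ' C' x := fun u =>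
  a1_le (norm_nonneg _) ((h u).trans (mul_le_mul_of_nonneg_right hC (by positivity)))
    (by have := mul_le_mul_of_nonneg_right hγ (a1_abs_nonneg u.2); linarith)
lemma Bd.mono_neg (h : Bd p α γ C x) (hs : SN 0 x) (hα : α ≤ α') (hγ : γ ≤ γ') :
    Bd p α' γ' C x := by
  intro u
  by_cases hu : 0 < u.1
  · rw [hs u hu, norm_zero]
    have := h.nonneg
    positivity
  · refine a1_le (norm_nonneg _) (h u) ?_
    have h1 := mul_le_mul_of_nonneg_right hγ (a1_abs_nonneg u.2)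
    have h2 : (u.1 : ℝ) / p.e ≤ 0 :=
      div_nonpos_of_nonpos_of_nonneg (by exact_mod_cast not_lt.1 hu) p.a1_e_posR.le
    have h3 := mul_le_mul_of_nonpos_right hα h2
    linarith
lemma Bd.mono_pos (h : Bd p α γ C x) (hs : SP 0 x) (hα : α' ≤ α) (hγ : γ ≤ γ') :
    Bd p α' γ' C x := by
  intro u
  by_cases hu : u.1 < 0
  · rw [hs u hu, norm_zero]
    have := h.nonneg
    positivity
  · refine a1_le (norm_nonneg _) (h u) ?_
    have h1 := mul_le_mul_of_nonneg_right hγ (a1_abs_nonneg u.2)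
    have h3 := mul_le_mul_of_nonneg_right hα (a1_div_nonneg p (not_lt.1 hu))
    linarith
lemma Bd.of_le (h : Bd p α γ C y) (hx : ∀ u, ‖x u‖ ≤ ‖y u‖) : Bd p α γ C x :=
  fun u => (hx u).trans (h u)
lemma Bd.add (hx : Bd p α γ C x) (hy : Bd p α γ C y) : Bd p α γ C (x + y) :=
  fun u => (IsUltrametricDist.norm_add_le_max _ _).trans (max_le (hx u) (hy u))
lemma Bd.neg (hx : Bd p α γ C x) : Bd p α γ C (-x) := hx.of_le fun u => by simp
lemma Bd.sub (hx : Bd p α γ C x) (hy : Bd p α γ C y) : Bd p α γ C (x - y) := by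
  rw [sub_eq_add_neg]
  exact hx.add hy.neg
lemma Bd.smul (hx : Bd p α γ C x) {c : A} (hc : ‖c‖ ≤ 1) : Bd p α γ C (c • x) :=
  hx.of_le fun u => (norm_mul_le c (x u)).trans (mul_le_of_le_one_left (norm_nonneg _) hc)
lemma Bd.nsmul (hx : Bd p α γ C x) (n : ℕ) : Bd p α γ C (n • x) :=
  hx.of_le fun _ => IsUltrametricDist.norm_nsmul_le _ _
lemma Bd.dt (hx : Bd p α γ C x) : Bd p α γ C (dt x) :=
  hx.of_le fun _ => IsUltrametricDist.norm_zsmul_le _ _
lemma Bd.dx (hx : Bd p α γ C x) : Bd p α γ C (dx x) :=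
  hx.of_le fun _ => IsUltrametricDist.norm_zsmul_le _ _
lemma qa1_chi (x : Arr A) (u : ℤ × ℤ) : ‖chi x u‖ ≤ ‖x u‖ := by
  unfold chi
  split_ifs <;> simp
lemma qa1_chn (x : Arr A) (u : ℤ × ℤ) : ‖chn x u‖ ≤ ‖x u‖ := by
  unfold chn
  split_ifs <;> simp
lemma qa1_split (x : Arr A) : chi x + chn x = x := by
  funext u
  simp only [chi, chn, Pi.add_apply]
  split_ifs <;> first | omega | simp
lemma Bd.chi (hx : Bd p α γ C x) : Bd p α γ C (chi x) := hx.of_le (qa1_chi x)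
lemma Bd.chn (hx : Bd p α γ C x) : Bd p α γ C (chn x) := hx.of_le (qa1_chn x)
lemma Bd.cutN (hx : Bd p α γ C x) (s : ℤ) : Bd p α γ C (cutN s x) :=
  hx.of_le fun u => by
    unfold AG.cutN
    split_ifs <;> simp
lemma Bd.phi (hx : Bd p α γ C x) : Bd p (α / 2) (γ / 2) C (phi x) := by
  intro u
  by_cases h : 2 ∣ u.1 ∧ 2 ∣ u.2
  · obtain ⟨⟨i, hi⟩, ⟨j, hj⟩⟩ := h
    obtain rfl : u = (2 * i, 2 * j) := Prod.ext hi hj
    rw [show AG.phi x (2 * i, 2 * j) = x (i, j) from a1_phi_dbl x (i, j)]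
    refine a1_le (norm_nonneg _) (hx (i, j)) (le_of_eq ?_)
    simp only [abs_mul, abs_two]
    push_cast
    ring
  · rw [show AG.phi x u = 0 from if_neg h, norm_zero]
    have := hx.nonneg
    positivity
lemma qa1_conv (ha : Bd p α (-β) C a) (hs : SP 0 a) (hx : Bd p α' γ C' x) (hα : α' ≤ α)
    (u : ℤ × ℤ) {T : ℝ} (hT : ∀ v : ℤ × ℤ, x (u - v) ≠ 0 →
      -β * ((|v.2| : ℤ) : ℝ) + γ * ((|u.2 - v.2| : ℤ) : ℝ) ≤ T) :
    ‖conv a x u‖ ≤ C * C' * 2 ^ (-(α' * ((u.1 : ℝ) / p.e)) + T) := by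
  have h1 := ha.nonneg
  have h2 := hx.nonneg
  refine norm_conv_le (by positivity) fun v => ?_
  by_cases hv : v.1 < 0
  · rw [hs v hv, norm_zero, zero_mul]
    positivity
  by_cases h0 : x (u - v) = 0
  · rw [h0, norm_zero, mul_zero]
    positivity
  refine a1_mul (norm_nonneg _) (norm_nonneg _) (ha v) (hx (u - v)) ?_
  have h3 := mul_le_mul_of_nonneg_right hα (a1_div_nonneg p (not_lt.1 hv))
  have h4 := hT v h0
  rw [Prod.fst_sub, Prod.snd_sub, Int.cast_sub, sub_div, mul_sub]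
  linarith
lemma qa1_far {k l : ℤ} (hγ : γ ≤ β) (h : |l| = |k| + |k - l|) :
    -β * ((|l| : ℤ) : ℝ) + γ * ((|k - l| : ℤ) : ℝ) ≤ -β * ((|k| : ℤ) : ℝ) := by
  have h1 := mul_le_mul_of_nonneg_right hγ (a1_abs_nonneg (k - l))
  rw [h, Int.cast_add]
  linarith
lemma Bd.conv (ha : Bd p α (-β) C a) (hs : SP 0 a) (hx : Bd p α' γ C' x) (hα : α' ≤ α)
    (hγ : |γ| ≤ β) : Bd p α' γ (C * C') (conv a x) := by
  refine fun u => qa1_conv ha hs hx hα u fun v _ => ?_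
  have h1 := a1_abs_add u.2 v.2
  have h2 := a1_abs_sub u.2 v.2
  have h3 := a1_abs_nonneg v.2
  obtain ⟨h4, h5⟩ := abs_le.1 hγ
  rcases le_total 0 γ with h | h
  · have := mul_le_mul_of_nonneg_left h2 h
    have := mul_le_mul_of_nonneg_right h5 h3
    linarith
  · have := mul_le_mul_of_nonpos_left h1 h
    have := mul_le_mul_of_nonneg_right h4 h3
    linarith
/-- The negative part of the product with an array supported in `k ≥ 0`. -/
lemma Bd.chn_conv (ha : Bd p α (-β) C a) (hs : SP 0 a) (hx : Bd p α' γ C' x) (hα : α' ≤ α)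
    (hγ : γ ≤ β) (hk : ∀ u : ℤ × ℤ, u.2 < 0 → x u = 0) :
    Bd p α' (-β) (C * C') (AG.chn (AG.conv a x)) := by
  intro u
  unfold AG.chn
  split_ifs with hu
  · refine qa1_conv ha hs hx hα u fun v hv => qa1_far hγ ?_
    have h1 : ¬ u.2 - v.2 < 0 := fun h => hv (hk _ h)
    rw [abs_of_neg hu, abs_of_nonneg (not_lt.1 h1), abs_of_neg (by omega)]
    ring
  · have := ha.nonneg
    have := hx.nonneg
    rw [norm_zero]
    positivity
lemma Bd.cm (ha : Bd p α (-β) C a) (hs : SP 0 a) (hx : Bd p α' γ C' x) (hα : α' ≤ α)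
    (hγ : γ ≤ β) (hd : Dec p a) (hm : Mod p x) : Bd p α' (-β) (C * C') (cm a x) := by
  intro u
  by_cases hu : u.2 < 0
  · have e : AG.cm a x u = AG.chn (AG.conv a (AG.chi x)) u := by
      simp only [AG.cm, AG.chi, AG.chn, Pi.sub_apply, if_pos hu, if_neg (not_le.2 hu), sub_zero]
    rw [e]
    exact ha.chn_conv hs hx.chi hα hγ (fun v hv => if_neg (not_le.2 hv)) u
  · have e : AG.cm a x u = -AG.conv a (AG.chn x) u := by
      have h1 := congrFun (conv_add hd (hm.of_le (qa1_chi x)) (hm.of_le (qa1_chn x))) u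
      rw [qa1_split, Pi.add_apply] at h1
      rw [AG.cm, Pi.sub_apply, show AG.chi (AG.conv a x) u = AG.conv a x u from
        if_pos (not_lt.1 hu), h1]
      ring
    rw [e, norm_neg]
    refine qa1_conv ha hs hx.chn hα u fun v hv => qa1_far hγ ?_
    have h1 : u.2 - v.2 < 0 := by
      by_contra h
      exact hv (if_neg h)
    rw [abs_of_neg h1, abs_of_nonneg (not_lt.1 hu), abs_of_nonneg (by omega)]
    ring
lemma Bd.pair (hx : Bd p α' γ C' x) (ha : Bd p α (-β) C a) (hs : SP 0 a) (hα : α' ≤ α)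
    (hγ : |γ| ≤ β) : ‖AG.conv x a 0‖ ≤ C' * C := by
  have h := ha.conv hs hx hα hγ 0
  rw [conv_comm, mul_comm]
  simpa using h
lemma Bd.dec (h : Bd p α γ C x) (hs : SP 0 x) (hα : 3 / 10 ≤ α) (hγ : γ ≤ -(2 / 5)) : Dec p x :=
  ⟨hs, C, fun u => a1_le (norm_nonneg _) (h.mono_pos hs hα hγ u) (le_of_eq (by ring))⟩
lemma Bd.mod_neg (h : Bd p α γ C x) (hs : SN 0 x) (hα : α ≤ 13 / 50) (hγ : γ ≤ 3 / 10) :
    Mod p x := ⟨C, h.mono_neg hs hα hγ⟩
lemma Bd.mod_pos (h : Bd p α γ C x) (hs : SP 0 x) (hα : 13 / 50 ≤ α) (hγ : γ ≤ 3 / 10) :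
    Mod p x := ⟨C, h.mono_pos hs hα hγ⟩
lemma bd_of_w (hs : SP 0 x) (hα : 0 ≤ α) (h : ∀ u : ℤ × ℤ, 0 ≤ u.1 →
    ‖x u‖ ≤ C * 2 ^ (-(α * p.w u.1 u.2))) (hC : 0 ≤ C) :
    Bd p (3 / 10 * α) (-(2 / 5 * α)) C x := by
  intro u
  by_cases hu : u.1 < 0
  · rw [hs u hu, norm_zero]
    positivity
  · refine a1_le (norm_nonneg _) (h u (not_lt.1 hu)) ?_
    have := mul_le_mul_of_nonneg_left (p.le_w u.2 (not_lt.1 hu)) hα
    linarith

end Pool.Agent.Lib.MP_788af2_nt.AG
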