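import Pool.Agent.Lib.MP_788af2_nt.AG.QFormA1

/-!
The invariant form: supports and cuts.
-/

set_option linter.unusedSectionVars false

namespace Pool.Agent.Lib.MP_788af2_nt.AG

open Polynomial Filter Topology

variable {A : Type} [NormedCommRing A] [IsUltrametricDist A] [CompleteSpace A] [NormOneClass A]
  {p : Pm} {a b x y : Arr A} {α β γ α' γ' C C' : ℝ} {s s' : ℤ}

lemma Mod.chi (hx : Mod p x) : Mod p (chi x) := hx.of_le fun u => by
  simp only [AG.chi]; split_ifs <;> simp
lemma Mod.chn (hx : Mod p x) : Mod p (chn x) := hx.of_le fun u => by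
  simp only [AG.chn]; split_ifs <;> simp
lemma Mod.cutN (hx : Mod p x) (s : ℤ) : Mod p (cutN s x) := hx.of_le fun u => by
  simp only [AG.cutN]; split_ifs <;> simp
lemma Mod.nsmul (hx : Mod p x) (n : ℕ) : Mod p (n • x) :=
  hx.of_le fun _ => IsUltrametricDist.norm_nsmul_le _ _
lemma Dec.nsmul (hx : Dec p x) (n : ℕ) : Dec p (n • x) :=
  hx.of_le fun _ => IsUltrametricDist.norm_nsmul_le _ _
lemma Dec.sp (hx : Dec p x) : SP 0 x := hx.1
lemma SP.mono (h : SP s x) (hs : s' ≤ s) : SP s' x := fun u hu => h u (by omega)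
lemma SN.mono (h : SN s x) (hs : s ≤ s') : SN s' x := fun u hu => h u (by omega)
lemma SP.conv (ha : SP s a) (hx : SP s' x) : SP (s + s') (conv a x) := by
  intro u hu
  have h : ∀ v : ℤ × ℤ, a v * x (u - v) = 0 := fun v => by
    rcases lt_or_ge v.1 s with h | h
    · rw [ha v h, zero_mul]
    · rw [hx _ (by simp only [Prod.fst_sub]; omega), mul_zero]
  simp only [AG.conv, h, tsum_zero]
lemma SP.cm (ha : SP s a) (hx : SP s' x) : SP (s + s') (cm a x) := by
  intro u hu
  have h1 : SP s' (chi x) := fun v hv => by simp [chi, hx v hv]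
  simp [AG.cm, chi, ha.conv h1 u hu, ha.conv hx u hu]
lemma SP.add (hx : SP s x) (hy : SP s y) : SP s (x + y) := fun u hu => by
  simp [hx u hu, hy u hu]
lemma SP.neg (hx : SP s x) : SP s (-x) := fun u hu => by simp [hx u hu]
lemma SP.sub (hx : SP s x) (hy : SP s y) : SP s (x - y) := fun u hu => by
  simp [hx u hu, hy u hu]
lemma SP.smul (hx : SP s x) (c : A) : SP s (c • x) := fun u hu => by simp [hx u hu]
lemma SP.nsmul (hx : SP s x) (n : ℕ) : SP s (n • x) := fun u hu => by
  rw [Pi.smul_apply, hx u hu, smul_zero]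
lemma SP.chi (hx : SP s x) : SP s (chi x) := fun u hu => by simp [AG.chi, hx u hu]
lemma SP.chn (hx : SP s x) : SP s (chn x) := fun u hu => by simp [AG.chn, hx u hu]
lemma SP.dx (hx : SP s x) : SP s (dx x) := fun u hu => by simp [AG.dx, hx u hu]
lemma SP.dt (hx : SP s x) : SP s (dt x) := fun u hu => by simp [AG.dt, hx u hu]
lemma SP.dt_one (hx : SP 0 x) : SP 1 (AG.dt x) := fun u hu => by
  rcases lt_or_ge u.1 0 with h | h
  · simp [AG.dt, hx u h]
  · have h0 : u.1 = 0 := by omega
    simp [AG.dt, h0]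
lemma SP.phi (hx : SP s x) : SP (2 * s) (phi x) := fun u hu => by
  simp only [AG.phi]
  split_ifs with h
  · exact hx _ (by simp only; omega)
  · rfl
lemma SP.psi_zero (hx : SP 0 x) : SP 0 (psi x) := fun u hu => hx _ (by simp only; omega)
lemma SP.psi_one (hx : SP 1 x) : SP 1 (psi x) := fun u hu => hx _ (by simp only; omega)
lemma SN.phi (hx : SN s x) : SN (2 * s) (phi x) := fun u hu => by
  simp only [AG.phi]
  split_ifs with h
  · exact hx _ (by simp only; omega)
  · rfl
lemma sn_cutN (s : ℤ) (x : Arr A) : SN s (cutN s x) := fun _ hu => if_neg (not_le.2 hu)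
lemma sp_sub_cutN (s : ℤ) (x : Arr A) : SP (s + 1) (x - cutN s x) := fun u hu => by
  have h : u.1 ≤ s := by omega
  simp [cutN, h]
lemma conv_congr (ha : SP s a) (h : ∀ u : ℤ × ℤ, u.1 ≤ s' → x u = y u) (u : ℤ × ℤ)
    (hu : u.1 ≤ s + s') : conv a x u = conv a y u := by
  refine tsum_congr fun v => ?_
  rcases lt_or_ge v.1 s with h1 | h1
  · rw [ha v h1, zero_mul, zero_mul]
  · rw [h _ (by simp only [Prod.fst_sub]; omega)]
/-- The pairing with an array supported in `n ≥ s` sees only `n ≤ -s`. -/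
lemma pair_congr (ha : SP s a) (h : ∀ u : ℤ × ℤ, u.1 ≤ -s → x u = y u) :
    conv x a 0 = conv y a 0 := by
  rw [conv_comm x, conv_comm y]
  exact conv_congr ha h 0 (by simp)
lemma pair_zero (ha : SP s a) (hx : SP (1 - s) x) : conv x a 0 = 0 := hx.conv ha 0 (by simp)
lemma zero_conv (x : Arr A) : conv 0 x = 0 := by
  funext u; simp [conv]
lemma conv_zero (x : Arr A) : conv x 0 = 0 := by
  funext u; simp [conv]
lemma chi_add_chn (x : Arr A) : chi x + chn x = x := by
  funext u
  rcases lt_or_ge u.2 0 with h | h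
  · simp [chi, chn, h, not_le.2 h]
  · simp [chi, chn, h, not_lt.2 h]
lemma chi_add (x y : Arr A) : chi (x + y) = chi x + chi y := by
  funext u
  by_cases h : 0 ≤ u.2 <;> simp [chi, h]
lemma chi_sub (x y : Arr A) : chi (x - y) = chi x - chi y := by
  funext u
  by_cases h : 0 ≤ u.2 <;> simp [chi, h]
lemma chi_smul (c : A) (x : Arr A) : chi (c • x) = c • chi x := by
  funext u
  by_cases h : 0 ≤ u.2 <;> simp [chi, h]
lemma chi_nsmul (n : ℕ) (x : Arr A) : chi (n • x) = n • chi x := by
  funext u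
  simp only [chi, Pi.smul_apply]
  split_ifs <;> simp
lemma chi_dt (x : Arr A) : chi (dt x) = dt (chi x) := by
  funext u
  by_cases h : 0 ≤ u.2 <;> simp [chi, dt, h]
lemma chi_dx (x : Arr A) : chi (dx x) = dx (chi x) := by
  funext u
  by_cases h : 0 ≤ u.2 <;> simp [chi, dx, h]
lemma chi_phi (x : Arr A) : chi (phi x) = phi (chi x) := by
  funext u
  simp only [chi, phi]
  split_ifs <;> first | rfl | omega
lemma phi_sub (x y : Arr A) : phi (x - y) = phi x - phi y := by
  funext u
  simp only [phi, Pi.sub_apply]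
  split_ifs <;> simp
lemma psi_phi (x : Arr A) : psi (phi x) = x := funext fun u => a1_phi_dbl x u
lemma psi_add (x y : Arr A) : psi (x + y) = psi x + psi y := rfl
lemma psi_sub (x y : Arr A) : psi (x - y) = psi x - psi y := rfl
lemma psi_nsmul (n : ℕ) (x : Arr A) : psi (n • x) = n • psi x := rfl
lemma conv_nsmul (ha : Dec p a) (hx : Mod p x) (n : ℕ) : conv a (n • x) = n • conv a x := by
  have h : ∀ z : Arr A, n • z = (n : A) • z := fun z => by
    funext u; simp
  rw [h, h, conv_smul ha hx]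
lemma conv_neg (a x : Arr A) : conv a (-x) = -conv a x := by
  funext u
  simp only [conv, Pi.neg_apply, mul_neg, tsum_neg]
lemma pair_dt (x y : Arr A) : conv x (dt y) 0 = -conv (dt x) y 0 := by
  simp only [conv, dt, ← tsum_neg]
  exact tsum_congr fun v => by simp [mul_left_comm, mul_assoc]
lemma pair_dx (x y : Arr A) : conv x (dx y) 0 = -conv (dx x) y 0 := by
  simp only [conv, dx, ← tsum_neg]
  exact tsum_congr fun v => by simp [mul_left_comm, mul_assoc]
lemma pair_conv (ha : Dec p a) (hb : Dec p b) (hx : Mod p x) :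
    conv x (conv a b) 0 = conv (conv a x) b 0 := by
  rw [conv_comm x, conv_assoc ha hb hx, conv_left_comm ha hb hx, conv_comm b]
lemma norm_natCast_le (n : ℕ) : ‖(n : A)‖ ≤ 1 := IsUltrametricDist.norm_natCast_le_one A n
lemma natCast_cancel (K : Type) [NontriviallyNormedField K] [CharZero K] [NormedAlgebra K A]
    {n : ℕ} (hn : n ≠ 0) {u v : A} (h : (n : A) * u = n * v) : u = v := by
  have hu : IsUnit (n : A) := by
    rw [← map_natCast (algebraMap K A)]
    exact (Ne.isUnit (Nat.cast_ne_zero.2 hn)).map _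
  exact hu.mul_left_cancel h

end Pool.Agent.Lib.MP_788af2_nt.AG
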