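import Pool.Agent.Lib.MP_788af2_nt.AG.QFormB1

/-!
The invariant form: the flatness, adjoints and the form.
-/

set_option linter.unusedSectionVars false

namespace Pool.Agent.Lib.MP_788af2_nt.AG

open Polynomial Filter Topology

variable {K A J Z : Type} [NontriviallyNormedField K] [IsUltrametricDist K] [CompleteSpace K]
  [CharZero K] [NormedCommRing A] [NormedAlgebra K A] [IsUltrametricDist A] [CompleteSpace A]
  [NormOneClass A] [Fintype J] [Fintype Z] [DecidableEq J] [DecidableEq Z] (d : Dat K A J Z)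

lemma qb_dt_sub (a b : Arr A) : dt (a - b) = dt a - dt b := funext fun _ => smul_sub _ _ _

lemma qb_dx_sub (a b : Arr A) : dx (a - b) = dx a - dx b := funext fun _ => smul_sub _ _ _

lemma qb_dt_dx (a : Arr A) : dt (dx a) = dx (dt a) := funext fun _ => smul_comm _ _ _

lemma qb_two_conv {p : Pm} {a x : Arr A} (ha : Dec p a) (hx : Mod p x) :
    conv (2 • a) x = 2 • conv a x := by
  rw [two_nsmul, two_nsmul, add_conv ha ha hx]

lemma qb_neg_conv (a x : Arr A) : conv (-a) x = -conv a x := by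
  rw [conv_comm, conv_neg, conv_comm]

lemma qb_phi_le {p : Pm} {x y : Arr A} (hx : Mod p (phi x)) (h : ∀ u, ‖y u‖ ≤ ‖x u‖) :
    Mod p (phi y) := by
  refine hx.of_le fun u => ?_
  unfold phi
  split_ifs
  · exact h _
  · exact le_rfl

lemma qb_frob {p : Pm} {F L L' x DF Dx : Arr A} (hF : Dec p F) (hL : Dec p L)
    (hL' : Dec p (phi L')) (hx : Mod p (phi x)) (hD : Mod p (phi Dx))
    (e : DF = conv (L - 2 • phi L') F) :
    conv DF (phi x) + conv F (2 • phi Dx) - conv L (conv F (phi x)) =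
      2 • conv F (phi (Dx - conv L' x)) := by
  rw [e, conv_assoc (hL.sub (hL'.nsmul 2)) hF hx, sub_conv hL (hL'.nsmul 2) (hF.conv_mod hx),
    qb_two_conv hL' (hF.conv_mod hx), conv_nsmul hF hD, phi_sub, phi_conv,
    conv_sub hF hD (hL'.conv_mod hx), conv_left_comm hF hL' hx, smul_sub]
  abel

lemma qb_gi {p : Pm} {g L x Dg Dx : Arr A} (hg : Dec p g) (hL : Dec p L) (hx : Mod p x)
    (hD : Mod p Dx) (e : Dg = -(2 • conv L g)) :
    conv g (Dx - conv L x) = conv Dg x + conv g Dx + conv L (conv g x) := by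
  rw [e, qb_neg_conv, qb_two_conv (hL.conv hg) hx, conv_assoc hL hg hx,
    conv_sub hg hD (hL.conv_mod hx), conv_left_comm hg hL hx, two_nsmul]
  abel

lemma qb_pair {p : Pm} {L x m Dm Dx : Arr A} (hL : Dec p L) (hx : Mod p x) (hm : Dec p m)
    (hD : Mod p Dx) (hDm : Dec p Dm) (e : conv x Dm 0 = -conv Dx m 0) :
    conv x (Dm + conv L m) 0 = -conv (Dx - conv L x) m 0 := by
  rw [conv_comm x, add_conv hDm (hL.conv hm) hx, conv_comm (Dx - conv L x),
    conv_sub hm hD (hL.conv_mod hx), Pi.add_apply, Pi.sub_apply, conv_comm Dm, e,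
    conv_comm (conv L m), pair_conv hL hm hx, conv_comm m Dx, conv_comm m]
  ring

lemma qb_chi (x : Arr A) : chi x = x - chn x := eq_sub_of_add_eq (chi_add_chn x)

namespace Dat

variable {d} {j : J} {x y m : Arr A} {B α γ : ℝ} {s : ℤ}

/-- Flatness. -/
theorem Dt_Dx (hx : Mod d.p x) : d.Dt j (d.Dx j x) = d.Dx j (d.Dt j x) := by
  have hX := d.LX_dec j
  have hT := d.LT_dec j
  simp only [Dt, Dx]
  rw [qb_dt_sub, qb_dx_sub, dt_conv hX hx, dx_conv hT hx, d.dt_LX j,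
    conv_sub hT hx.dx (hX.conv_mod hx), conv_sub hX hx.dt (hT.conv_mod hx),
    conv_left_comm hT hX hx, qb_dt_dx]
  abel
theorem Dt_Fphi (hx : Mod d.p (phi x)) :
    d.Dt j (conv (d.F j) (phi x)) = 2 • conv (d.F j) (phi (d.Dt (d.σ j) x)) := by
  simp only [Dt]
  rw [dt_conv (d.F_dec j) hx, dt_phi]
  exact qb_frob (d.F_dec j) (d.LT_dec j) (d.tb_phi_LT _) hx
    (qb_phi_le hx fun u => IsUltrametricDist.norm_zsmul_le _ _) (d.dt_F j)
theorem Dx_Fphi (hx : Mod d.p (phi x)) :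
    d.Dx j (conv (d.F j) (phi x)) = 2 • conv (d.F j) (phi (d.Dx (d.σ j) x)) := by
  simp only [Dx]
  rw [dx_conv (d.F_dec j) hx, dx_phi]
  exact qb_frob (d.F_dec j) (d.LX_dec j) (d.tb_phi_LX _) hx
    (qb_phi_le hx fun u => IsUltrametricDist.norm_zsmul_le _ _) (d.dx_F j)
theorem gi_Dt (hx : Mod d.p x) : conv (d.gi j) (d.Dt j x) =
    dt (conv (d.gi j) x) + conv (d.LT j) (conv (d.gi j) x) := by
  rw [dt_conv (d.gi_dec j) hx]
  exact qb_gi (d.gi_dec j) (d.LT_dec j) hx hx.dt (d.dt_gi j)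
theorem gi_Dx (hx : Mod d.p x) : conv (d.gi j) (d.Dx j x) =
    dx (conv (d.gi j) x) + conv (d.LX j) (conv (d.gi j) x) := by
  rw [dx_conv (d.gi_dec j) hx]
  exact qb_gi (d.gi_dec j) (d.LX_dec j) hx hx.dx (d.dx_gi j)
theorem pair_Dt (hx : Mod d.p x) (hm : Dec d.p m) :
    conv x (dt m + conv (d.LT j) m) 0 = -conv (d.Dt j x) m 0 :=
  qb_pair (d.LT_dec j) hx hm hx.dt hm.dt (pair_dt x m)
theorem pair_Dx (hx : Mod d.p x) (hm : Dec d.p m) :
    conv x (dx m + conv (d.LX j) m) 0 = -conv (d.Dx j x) m 0 :=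
  qb_pair (d.LX_dec j) hx hm hx.dx hm.dx (pair_dx x m)
theorem om_eq_cm (hx : Mod d.p x) :
    d.om j x = cm (d.LX j) (d.Dt j x) - cm (d.LT j) (d.Dx j x) := by
  rw [om, Dt_chi, Dx_chi, Dt_Dx hx]
  abel
theorem om_eq_chn (hx : Mod d.p x) :
    d.om j x = d.Dx j (chn (d.Dt j x)) - d.Dt j (chn (d.Dx j x)) := by
  rw [om, qb_chi, qb_chi (d.Dt j x), Dt_sub (mod_Dx hx) (mod_Dx hx).chn,
    Dx_sub (mod_Dt hx) (mod_Dt hx).chn, Dt_Dx hx]
  abel
theorem om_bd (hs : SN 0 x) (hx : Bd d.p (13 / 100) (13 / 100) B x) :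
    Bd d.p (3 / 5) (-(4 / 5)) (4 * B) (d.om j x) := by
  have hm : Mod d.p x := hx.mod_neg hs (by norm_num) (by norm_num)
  have h1 : Bd d.p (3 / 5) (13 / 100) B x := hx.mono_neg hs (by norm_num) le_rfl
  have ha : |(13 / 100 : ℝ)| ≤ 4 / 5 := by rw [abs_of_nonneg] <;> norm_num
  have e : 4 * B = 2 * (2 * B) := by ring
  rw [om_eq_cm hm, e]
  exact ((d.LX_bd j).cm (d.LX_sp j) (bd_Dt h1 le_rfl ha) le_rfl (by norm_num) (d.LX_dec j)
    (mod_Dt hm)).sub ((d.LT_bd j).cm ((d.LT_sp j).mono zero_le_one) (bd_Dx h1 le_rfl ha) le_rfl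
      (by norm_num) (d.LT_dec j) (mod_Dx hm))
lemma Exa.mod (h : d.Exa j B x) : Mod d.p x :=
  h.bd.mod_neg (h.supp.mono (by norm_num)) (by norm_num) (by norm_num)
lemma Exa.mod_phi (h : d.Exa j B x) : Mod d.p (phi x) :=
  h.bd.phi.mod_neg (h.supp.phi.mono (by norm_num)) (by norm_num) (by norm_num)
lemma Exa.Dx_bd (h : d.Exa j B x) : Bd d.p (3 / 5) (13 / 100) (2 * B) (d.Dx j x) :=
  bd_Dx (h.bd.mono_neg (h.supp.mono (by norm_num)) (by norm_num) le_rfl) le_rfl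
    (by rw [abs_of_nonneg] <;> norm_num)
lemma Exa.Dt_bd (h : d.Exa j B x) : Bd d.p (3 / 5) (13 / 100) (2 * B) (d.Dt j x) :=
  bd_Dt (h.bd.mono_neg (h.supp.mono (by norm_num)) (by norm_num) le_rfl) le_rfl
    (by rw [abs_of_nonneg] <;> norm_num)
lemma Exa.om_sp (h : d.Exa j B x) : SP 1 (d.om j x) := by
  rw [om_eq_cm h.mod]
  exact (((d.LX_sp j).cm h.dt).mono (by norm_num)).sub (((d.LT_sp j).cm h.dx).mono (by norm_num))
lemma Exa.om_dec (h : d.Exa j B x) : Dec d.p (d.om j x) :=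
  (om_bd (h.supp.mono (by norm_num)) h.bd).dec (h.om_sp.mono zero_le_one) (by norm_num)
    (by norm_num)
lemma Exa.phi_om_dec (h : d.Exa j B x) : Dec d.p (phi (d.om j x)) :=
  (om_bd (h.supp.mono (by norm_num)) h.bd).phi.dec (h.om_sp.phi.mono (by norm_num)) (by norm_num)
    (by norm_num)

end Dat

end Pool.Agent.Lib.MP_788af2_nt.AG
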