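import Pool.Agent.Lib.MP_788af2_nt.AG.QFormA2

/-!
The invariant form: the algebra of the dual connections.
-/

set_option linter.unusedSectionVars false

namespace Pool.Agent.Lib.MP_788af2_nt.AG

open Polynomial Filter Topology

variable {K A J Z : Type} [NontriviallyNormedField K] [IsUltrametricDist K] [CompleteSpace K]
  [CharZero K] [NormedCommRing A] [NormedAlgebra K A] [IsUltrametricDist A] [CompleteSpace A]
  [NormOneClass A] [Fintype J] [Fintype Z] [DecidableEq J] [DecidableEq Z] (d : Dat K A J Z)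

lemma qb1_two {p : Pm} {x : Arr A} {C : ℝ} (hs : SP 0 x) (hC : 0 ≤ C)
    (h : ∀ u : ℤ × ℤ, ‖x u‖ ≤ C * 2 ^ (-(2 * p.w u.1 u.2))) : Bd p (3 / 5) (-(4 / 5)) C x := by
  have h1 := bd_of_w (α := 2) hs zero_le_two (fun u _ => h u) hC
  rwa [show (3 / 10 * 2 : ℝ) = 3 / 5 by norm_num, show (2 / 5 * 2 : ℝ) = 4 / 5 by norm_num] at h1

lemma qb1_chi_zero : chi (0 : Arr A) = 0 := by
  funext u
  simp [chi]

lemma qb1_chi_sum {ι : Type} (t : Finset ι) (f : ι → Arr A) :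
    chi (∑ i ∈ t, f i) = ∑ i ∈ t, chi (f i) := by
  funext u
  simp only [chi, Finset.sum_apply]
  split_ifs
  · rfl
  · rw [Finset.sum_const_zero]

namespace Dat

lemma F_bd (j : J) : Bd d.p (3 / 10) (-(2 / 5)) 1 (d.F j) := by
  have h := bd_of_w (p := d.p) (x := d.F j) (α := 1) (C := 1) (d.F_supp j) zero_le_one
    (fun u _ => by rw [one_mul, one_mul]; exact d.F_le_w j u) zero_le_one
  rwa [mul_one, mul_one] at h

lemma gi_bd (j : J) : Bd d.p (3 / 5) (-(4 / 5)) 1 (d.gi j) :=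
  qb1_two (d.gi_supp j) zero_le_one fun u => by rw [one_mul]; exact d.gi_le j u

lemma LX_bd (j : J) : Bd d.p (3 / 5) (-(4 / 5)) 2 (d.LX j) :=
  qb1_two (d.LX_supp j) zero_le_two fun u => by rw [← two2_one_sub]; exact d.LX_le j u

lemma LT_bd (j : J) : Bd d.p (3 / 5) (-(4 / 5)) 2 (d.LT j) :=
  qb1_two (fun u hu => d.LT_supp j u (by omega)) zero_le_two fun u => by
    rw [← two2_one_sub]; exact d.LT_le j u

lemma IsEta.bd {d : Dat K A J Z} {η : J → Arr A} {a : J → A} (h : d.IsEta η a) (j : J) :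
    Bd d.p (3 / 5) (-(4 / 5)) 1 (η j) :=
  qb1_two (h.supp j) zero_le_one fun u => by rw [one_mul]; exact h.le j u

lemma F_sp (j : J) : SP 0 (d.F j) :=
  d.F_supp j

lemma gi_sp (j : J) : SP 0 (d.gi j) :=
  d.gi_supp j

lemma LX_sp (j : J) : SP 0 (d.LX j) :=
  d.LX_supp j

lemma LT_sp (j : J) : SP 1 (d.LT j) :=
  d.LT_supp j

lemma c_ne (z : Z) : d.c z ≠ 0 :=
  mul_ne_zero (pow_ne_zero _ two_ne_zero) (d.n_pos z).ne'

lemma evA_sn (z : Z) : SN 0 (d.evA z) := fun u hu => by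
  unfold evA
  rw [if_neg]
  omega

lemma evA_bd (z : Z) : Bd d.p 0 0 1 (d.evA z) := fun u => by
  rw [zero_mul, zero_mul, neg_zero, add_zero, Real.rpow_zero, mul_one]
  unfold evA
  split_ifs
  · have h1 : ‖PowerSeries.coeff u.2.toNat d.o.G‖ ≤ 1 := by
      rcases Nat.eq_zero_or_pos u.2.toNat with h0 | h0
      · rw [h0, d.o.G_zero, norm_one]
      · exact (d.o.G_le _ h0).trans (by norm_num)
    have h2 : ‖d.β z ^ (-u.1).toNat‖ ≤ 1 := by
      rw [norm_pow]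
      exact pow_le_one₀ (norm_nonneg _) (d.β_le z)
    have h3 : ‖PowerSeries.coeff 0 (d.κ z)‖ ≤ 1 := by
      rw [← sub_add_cancel (PowerSeries.coeff 0 (d.κ z)) 1]
      exact e2_add_le ((d.κ_zero z).trans (by norm_num)) norm_one.le
    refine (norm_smul_le _ _).trans (mul_le_one₀ ?_ (norm_nonneg _) h3)
    rw [norm_mul]
    exact mul_le_one₀ h1 (norm_nonneg _) h2
  · rw [norm_zero]
    exact zero_le_one

lemma Rz_sn (z : Z) (j : J) : SN (-1) (d.Rz z j) := fun u hu => by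
  unfold Rz
  split_ifs
  · exact d.ρ_supp z u (.inl hu)
  · rfl

lemma Rz_bd (z : Z) (j : J) : Bd d.p (13 / 100) (13 / 100) 16 (d.Rz z j) := fun u => by
  unfold Rz
  split_ifs
  · by_cases hu : -1 < u.1 ∨ u.2 < 1
    · rw [d.ρ_supp z u hu, norm_zero]
      positivity
    · have h16 : (16 : ℝ) = 2 ^ (4 : ℝ) := by
        rw [show (4 : ℝ) = ((4 : ℕ) : ℝ) by norm_num, Real.rpow_natCast]
        norm_num
      rw [h16, e2_rpow_add]
      refine (d.ρ_le' z u).trans (e2_rpow_le ?_)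
      have h1 := a1_div_nonneg d.p (n := -u.1) (by omega)
      have h2 : (0 : ℝ) ≤ u.2 := by exact_mod_cast (show (0 : ℤ) ≤ u.2 by omega)
      rw [abs_of_nonneg (show (0 : ℤ) ≤ u.2 by omega)]
      rw [Int.cast_neg, neg_div] at h1
      linarith
  · rw [Pi.zero_apply, norm_zero]
    positivity


variable {d} {j : J} {x y m : Arr A} {B α γ : ℝ} {s : ℤ}

lemma mod_Dt (hx : Mod d.p x) : Mod d.p (d.Dt j x) :=
  hx.dt.sub ((d.LT_dec j).conv_mod hx)

lemma mod_Dx (hx : Mod d.p x) : Mod d.p (d.Dx j x) :=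
  hx.dx.sub ((d.LX_dec j).conv_mod hx)

lemma dec_Dt (hx : Dec d.p x) : Dec d.p (d.Dt j x) :=
  hx.dt.sub ((d.LT_dec j).conv hx)

lemma dec_Dx (hx : Dec d.p x) : Dec d.p (d.Dx j x) :=
  hx.dx.sub ((d.LX_dec j).conv hx)

lemma mod_om (hx : Mod d.p x) : Mod d.p (d.om j x) :=
  (mod_Dt (mod_Dx hx).chi).sub (mod_Dx (mod_Dt hx).chi)

lemma bd_Dt (hx : Bd d.p α γ B x) (hα : α ≤ 3 / 5) (hγ : |γ| ≤ 4 / 5) :
    Bd d.p α γ (2 * B) (d.Dt j x) :=
  (hx.dt.mono le_rfl (by linarith [hx.nonneg])).sub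
    ((d.LT_bd j).conv ((d.LT_sp j).mono zero_le_one) hx hα hγ)

lemma bd_Dx (hx : Bd d.p α γ B x) (hα : α ≤ 3 / 5) (hγ : |γ| ≤ 4 / 5) :
    Bd d.p α γ (2 * B) (d.Dx j x) :=
  (hx.dx.mono le_rfl (by linarith [hx.nonneg])).sub
    ((d.LX_bd j).conv (d.LX_sp j) hx hα hγ)

lemma sp_Dt (hx : SP s x) : SP s (d.Dt j x) :=
  hx.dt.sub (((d.LT_sp j).conv hx).mono (by omega))

lemma sp_Dt_one (hx : SP 0 x) : SP 1 (d.Dt j x) :=
  hx.dt_one.sub (((d.LT_sp j).conv hx).mono (by omega))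

lemma sp_Dx (hx : SP s x) : SP s (d.Dx j x) :=
  hx.dx.sub (((d.LX_sp j).conv hx).mono (by omega))

lemma Dt_congr (h : ∀ u : ℤ × ℤ, u.1 ≤ -1 → x u = y u) (u : ℤ × ℤ) (hu : u.1 ≤ 0) :
    d.Dt j x u = d.Dt j y u := by
  unfold Dt
  rw [Pi.sub_apply, Pi.sub_apply, conv_congr (d.LT_sp j) h u (by omega)]
  congr 1
  unfold dt
  rcases eq_or_lt_of_le hu with h0 | h0
  · rw [h0, zero_smul, zero_smul]
  · rw [h u (by omega)]

lemma Dx_congr (h : ∀ u : ℤ × ℤ, u.1 ≤ -1 → x u = y u) (u : ℤ × ℤ) (hu : u.1 ≤ -1) :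
    d.Dx j x u = d.Dx j y u := by
  unfold Dx
  rw [Pi.sub_apply, Pi.sub_apply, conv_congr (d.LX_sp j) h u (by omega)]
  congr 1
  unfold dx
  rw [h u hu]

lemma Dt_zero : d.Dt j 0 = 0 := by
  unfold Dt
  rw [conv_zero, sub_zero]
  funext u
  simp [dt]

lemma Dx_zero : d.Dx j 0 = 0 := by
  unfold Dx
  rw [conv_zero, sub_zero]
  funext u
  simp [dx]

lemma om_zero : d.om j 0 = 0 := by
  unfold om
  rw [Dt_zero, Dx_zero, qb1_chi_zero, Dt_zero, Dx_zero, sub_zero]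

lemma Dt_add (hx : Mod d.p x) (hy : Mod d.p y) : d.Dt j (x + y) = d.Dt j x + d.Dt j y := by
  unfold Dt
  rw [conv_add (d.LT_dec j) hx hy]
  funext u
  simp only [dt, Pi.add_apply, Pi.sub_apply, smul_add]
  abel

lemma Dx_add (hx : Mod d.p x) (hy : Mod d.p y) : d.Dx j (x + y) = d.Dx j x + d.Dx j y := by
  unfold Dx
  rw [conv_add (d.LX_dec j) hx hy]
  funext u
  simp only [dx, Pi.add_apply, Pi.sub_apply, smul_add]
  abel

lemma Dt_sub (hx : Mod d.p x) (hy : Mod d.p y) : d.Dt j (x - y) = d.Dt j x - d.Dt j y := by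
  unfold Dt
  rw [conv_sub (d.LT_dec j) hx hy]
  funext u
  simp only [dt, Pi.sub_apply, smul_sub]
  abel

lemma Dx_sub (hx : Mod d.p x) (hy : Mod d.p y) : d.Dx j (x - y) = d.Dx j x - d.Dx j y := by
  unfold Dx
  rw [conv_sub (d.LX_dec j) hx hy]
  funext u
  simp only [dx, Pi.sub_apply, smul_sub]
  abel

lemma Dt_smul (hx : Mod d.p x) (c : A) : d.Dt j (c • x) = c • d.Dt j x := by
  unfold Dt
  rw [conv_smul (d.LT_dec j) hx]
  funext u
  simp only [dt, Pi.sub_apply, Pi.smul_apply, smul_eq_mul, zsmul_eq_mul]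
  ring

lemma Dx_smul (hx : Mod d.p x) (c : A) : d.Dx j (c • x) = c • d.Dx j x := by
  unfold Dx
  rw [conv_smul (d.LX_dec j) hx]
  funext u
  simp only [dx, Pi.sub_apply, Pi.smul_apply, smul_eq_mul, zsmul_eq_mul]
  ring

lemma Dt_nsmul (hx : Mod d.p x) (n : ℕ) : d.Dt j (n • x) = n • d.Dt j x := by
  unfold Dt
  rw [conv_nsmul (d.LT_dec j) hx]
  funext u
  simp only [dt, Pi.sub_apply, Pi.smul_apply]
  rw [smul_sub, smul_comm]

lemma Dx_nsmul (hx : Mod d.p x) (n : ℕ) : d.Dx j (n • x) = n • d.Dx j x := by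
  unfold Dx
  rw [conv_nsmul (d.LX_dec j) hx]
  funext u
  simp only [dx, Pi.sub_apply, Pi.smul_apply]
  rw [smul_sub, smul_comm]

lemma Dt_sum {ι : Type} (t : Finset ι) {f : ι → Arr A} (h : ∀ i ∈ t, Mod d.p (f i)) :
    d.Dt j (∑ i ∈ t, f i) = ∑ i ∈ t, d.Dt j (f i) := by
  unfold Dt
  rw [conv_sum t (d.LT_dec j) h, Finset.sum_sub_distrib]
  congr 1
  funext u
  simp only [dt, Finset.sum_apply, Finset.smul_sum]

lemma Dx_sum {ι : Type} (t : Finset ι) {f : ι → Arr A} (h : ∀ i ∈ t, Mod d.p (f i)) :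
    d.Dx j (∑ i ∈ t, f i) = ∑ i ∈ t, d.Dx j (f i) := by
  unfold Dx
  rw [conv_sum t (d.LX_dec j) h, Finset.sum_sub_distrib]
  congr 1
  funext u
  simp only [dx, Finset.sum_apply, Finset.smul_sum]

lemma om_add (hx : Mod d.p x) (hy : Mod d.p y) : d.om j (x + y) = d.om j x + d.om j y := by
  unfold om
  rw [Dt_add hx hy, Dx_add hx hy, chi_add, chi_add, Dt_add (mod_Dx hx).chi (mod_Dx hy).chi,
    Dx_add (mod_Dt hx).chi (mod_Dt hy).chi]
  abel

lemma om_smul (hx : Mod d.p x) (c : A) : d.om j (c • x) = c • d.om j x := by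
  unfold om
  rw [Dt_smul hx, Dx_smul hx, chi_smul, chi_smul, Dt_smul (mod_Dx hx).chi,
    Dx_smul (mod_Dt hx).chi, smul_sub]

lemma om_sum {ι : Type} (t : Finset ι) {f : ι → Arr A} (h : ∀ i ∈ t, Mod d.p (f i)) :
    d.om j (∑ i ∈ t, f i) = ∑ i ∈ t, d.om j (f i) := by
  unfold om
  rw [Dt_sum t h, Dx_sum t h, qb1_chi_sum, qb1_chi_sum,
    Dt_sum t fun i hi => (mod_Dx (h i hi)).chi, Dx_sum t fun i hi => (mod_Dt (h i hi)).chi,
    Finset.sum_sub_distrib]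

lemma Dt_chi (x : Arr A) : d.Dt j (chi x) = chi (d.Dt j x) - cm (d.LT j) x := by
  unfold Dt cm
  rw [chi_sub, chi_dt]
  abel

lemma Dx_chi (x : Arr A) : d.Dx j (chi x) = chi (d.Dx j x) - cm (d.LX j) x := by
  unfold Dx cm
  rw [chi_sub, chi_dx]
  abel


end Dat

end Pool.Agent.Lib.MP_788af2_nt.AG
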