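import Pool.Agent.Lib.MP_788af2_nt.AG.QFormB

/-!
The invariant form: growth of the eigenfunctionals and the eigenvalue equation for arrays.
-/

set_option linter.unusedSectionVars false

namespace Pool.Agent.Lib.MP_788af2_nt.AG

open Polynomial Filter Topology

variable {K A J Z : Type} [NontriviallyNormedField K] [IsUltrametricDist K] [CompleteSpace K]
  [CharZero K] [NormedCommRing A] [NormedAlgebra K A] [IsUltrametricDist A] [CompleteSpace A]
  [NormOneClass A] [Fintype J] [Fintype Z] [DecidableEq J] [DecidableEq Z] {d : Dat K A J Z}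

namespace Dat

variable {η : J → Arr A} {a : J → A} {C : ℝ} {ζ : Z → J × Ex 1 → A} {N : Matrix Z Z A}

lemma arr_sn (x : J × Ex 1 → A) (j : J) : SN (-1) (arr x j) :=
  fun _ hu => dif_neg (not_le.2 hu)

/-- One halving of the growth rate. -/
lemma vmul_half {x : J × Ex 1 → A} {B μ : ℝ} (hB : 0 ≤ B) (hμ0 : 0 ≤ μ) (hμ : μ ≤ 2)
    (h : ∀ r, ‖x r‖ ≤ B * 2 ^ (μ * d.p.wi r)) (c : J × Ex 1) :
    ‖vmul x (d.M 1) c‖ ≤ B * 2 ^ (μ / 2 * d.p.wi c) := by
  refine IsUltrametricDist.norm_tsum_le_of_forall_le_of_nonneg (by positivity) fun r => ?_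
  unfold M opm
  split_ifs
  swap
  · rw [mul_zero, norm_zero]
    positivity
  by_cases h1 : 2 * r.2.1.1 - c.2.1.1 < 0
  · rw [d.F_supp _ _ h1, mul_zero, norm_zero]
    positivity
  refine (t1_mul (h r) (d.F_le_w _ _)).trans ?_
  rw [mul_assoc, ← Real.rpow_add two_pos]
  refine mul_le_mul_of_nonneg_left (two2_exp ?_) hB
  have h2 := d.p.w_add (2 * r.2.1.1 - c.2.1.1) (2 * r.2.1.2 - c.2.1.2) c.2.1.1 c.2.1.2
  rw [sub_add_cancel, sub_add_cancel, d.p.w_two] at h2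
  have h3 := d.p.potC_w_nonneg (2 * r.2.1.2 - c.2.1.2) (not_lt.1 h1)
  simp only [Pm.wi]
  nlinarith [mul_le_mul_of_nonneg_left h2 hμ0, mul_nonneg (sub_nonneg.2 hμ) h3]

lemma qc_two (d : Dat K A J Z) (y : A) : ‖2 * y‖ = ‖y‖ / 2 := by
  have : (2 : A) * y = (2 : K) • y := by rw [Algebra.smul_def, map_ofNat]
  rw [this, norm_smul, d.two]
  ring

lemma qc_c0 {s : ℝ} (hs0 : 0 ≤ s) (hs : d.Sm s) (z : Z) : ‖d.c0‖ ≤ s :=
  (hs z).trans (mul_le_of_le_one_right hs0 (IsUltrametricDist.norm_natCast_le_one K _))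

variable (d) in
lemma qc_c (z : Z) : (d.c z : K) = d.c0 * d.n z := by
  simp [Geo.c, Geo.c0]

lemma qc_c_le {s : ℝ} (hs0 : 0 ≤ s) (hs : d.Sm s) (z : Z) : ‖(d.c z : K)‖ ≤ s := by
  rw [d.qc_c, norm_mul]
  exact (mul_le_of_le_one_right (norm_nonneg _)
    (IsUltrametricDist.norm_natCast_le_one K _)).trans (qc_c0 hs0 hs z)

variable (d) in
lemma qc_eps (z : Z) (y : A) : ‖d.ε z • y‖ = ‖y‖ := by
  rcases Int.eq_one_or_neg_one_of_mul_eq_one (d.ε_sq z) with h | h <;> simp [h]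

variable (d) in
lemma qc_P (z : Z) (v : Z → A) : ∑ z', d.P (d.σZ z) z' • v z' = d.ε z • v z := by
  rw [Finset.sum_eq_single z (fun z' _ hz' => ?_) (by simp)]
  · simp [P]
  · have : d.σZ z ≠ d.σZ z' := fun h => hz' (d.σZ.injective h).symm
    simp [P, this]

lemma qc_sum_le {f : Z → A} {B : ℝ} (hB : 0 ≤ B) (h : ∀ z, ‖f z‖ ≤ B) : ‖∑ z, f z‖ ≤ B :=
  IsUltrametricDist.norm_sum_le_of_forall_le_of_nonneg hB fun z _ => h z

lemma qc_step (hC : 1 ≤ C) (hs : d.Sm (1 / (2 ^ 12 * C))) (h : d.IsEig η C ζ N) {B μ : ℝ}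
    (hB : 4 * C ≤ B) (hμ0 : 1 / 4 ≤ μ) (hμ : μ ≤ 2)
    (hζ : ∀ z r, ‖ζ z r‖ ≤ B * 2 ^ (μ * d.p.wi r)) (z : Z) (r : J × Ex 1) :
    ‖ζ z r‖ ≤ 2 * B * 2 ^ (μ / 2 * d.p.wi r) := by
  obtain ⟨z0, -, hz0⟩ := Finset.exists_max_image Finset.univ (fun z => ‖ζ z r‖)
    ⟨z, Finset.mem_univ z⟩
  refine (hz0 z (Finset.mem_univ z)).trans ?_
  have hs0 : (0 : ℝ) ≤ 1 / (2 ^ 12 * C) := by positivity
  have hs' : d.Sm (1 / 2 ^ 12) := fun z => (hs z).trans (mul_le_mul_of_nonneg_right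
    (one_div_le_one_div_of_le (by positivity) (by nlinarith)) (norm_nonneg _))
  obtain ⟨E, hE⟩ : ∃ E : ℝ, E = 2 ^ (μ / 2 * d.p.wi r) := ⟨_, rfl⟩
  have hE0 : 0 < E := by rw [hE]; positivity
  have hk : (2 : ℝ) ^ (((|r.2.1.2| : ℤ) : ℝ) / 8) ≤ E := by
    rw [hE]
    refine two2_exp ?_
    have h1 := d.p.abs_le_w r.2.1.2 (show 0 ≤ r.2.1.1 by have := r.2.2; omega)
    have h2 := a1_abs_nonneg r.2.1.2
    simp only [Pm.wi]
    nlinarith
  have hρ : ∀ z', ‖d.ρr z' r‖ ≤ 16 * E := by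
    intro z'
    unfold ρr row
    split_ifs
    · refine (d.ρ_le' z' _).trans (le_trans ?_ (mul_le_mul_of_nonneg_left hk (by norm_num)))
      rw [show (16 : ℝ) = 2 ^ (4 : ℝ) by norm_num, ← Real.rpow_add two_pos]
      refine two2_exp ?_
      have : ((-r.2.1).2 : ℝ) ≤ ((|r.2.1.2| : ℤ) : ℝ) := by
        exact_mod_cast (show (-r.2.1).2 ≤ |r.2.1.2| from neg_le_abs _)
      linarith
    · rw [norm_zero]
      positivity
  have h1 : 2 * (d.ε z0 • ζ z0 r) = vmul (ζ (d.σZ z0)) (d.M 1) r + (d.Err (d.σZ z0) r +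
      -(2 * (2 * ∑ z', N (d.σZ z0) z' * (d.ρr z' r + (d.c z' : K) • ζ z' r)))) := by
    rw [h.eq, d.qc_P z0 fun z' => ζ z' r]
    ring
  have hm := norm_nonneg (ζ z0 r)
  have hB0 : 0 ≤ B := by linarith
  have h2 : ‖ζ z0 r‖ / 2 ≤ max (B * E) (‖ζ z0 r‖ / 4) := by
    refine le_of_eq_of_le (b := ‖2 * (d.ε z0 • ζ z0 r)‖) (by rw [d.qc_two, d.qc_eps]) ?_
    rw [h1]
    refine t1_add (le_max_of_le_left ?_) (t1_add (le_max_of_le_left ?_) ?_)
    · rw [hE]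
      exact vmul_half (by linarith) (by linarith) hμ (hζ _) r
    · refine (d.Err_le hs' _ r).trans ?_
      nlinarith
    · rw [norm_neg, d.qc_two, d.qc_two, div_div, div_le_iff₀ (by norm_num)]
      refine qc_sum_le (by positivity) fun z' => (t1_mul (h.N_le _ z') (t1_add
        (c := max (16 * E) (1 / (2 ^ 12 * C) * ‖ζ z0 r‖)) (le_max_of_le_left (hρ z'))
        (le_max_of_le_right ?_))).trans ?_
      · rw [norm_smul]
        exact mul_le_mul (qc_c_le hs0 hs z') (hz0 z' (Finset.mem_univ _)) (norm_nonneg _) hs0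
      · rw [mul_max_of_nonneg _ _ (by linarith), max_mul_of_nonneg _ _ (by norm_num)]
        refine max_le_max (by nlinarith) ?_
        have : C * (1 / (2 ^ 12 * C) * ‖ζ z0 r‖) = ‖ζ z0 r‖ / 2 ^ 12 := by field_simp
        rw [this]
        linarith
  rw [← hE]
  have h3 : 0 ≤ B * E := by positivity
  rcases le_max_iff.1 h2 with h4 | h4 <;> nlinarith

theorem zeta_bd (hC : 1 ≤ C) (hs : d.Sm (1 / (2 ^ 12 * C))) (h : d.IsEig η C ζ N) (z : Z) (j : J) :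
    Bd d.p (13 / 100) (13 / 100) (32 * C) (arr (ζ z) j) := by
  have h0 : ∀ z r, ‖ζ z r‖ ≤ 4 * C * 2 ^ (51 / 50 * d.p.wi r) := by
    intro z r
    refine (h.le z r).trans ?_
    rw [mul_comm 4 C, mul_assoc, show (4 : ℝ) = 2 ^ (2 : ℝ) by norm_num, ← Real.rpow_add two_pos]
    refine mul_le_mul_of_nonneg_left (two2_exp ?_) (by linarith)
    have := d.p.U_le r.2.1.2 r.2.2
    simp only [Pm.Ui, Pm.wi]
    linarith
  have h1 := qc_step hC hs h le_rfl (by norm_num) (by norm_num) h0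
  have h2 := qc_step hC hs h (by linarith) (by norm_num) (by norm_num) h1
  have h3 := qc_step hC hs h (by linarith) (by norm_num) (by norm_num) h2
  intro u
  unfold arr
  split_ifs with hu
  · refine (h3 z _).trans (mul_le_mul (le_of_eq (by ring)) (two2_exp ?_) (by positivity)
      (by linarith))
    have h4 := d.p.w_le (a := -u.1) (-u.2) (by omega)
    have h5 := d.p.potC_w_nonneg (b := -u.1) (-u.2) (by omega)
    simp only [Pm.wi, Prod.fst_neg, Prod.snd_neg]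
    rw [abs_neg, Int.cast_neg, neg_div] at h4
    linarith
  · rw [norm_zero]
    positivity

lemma Xi_sn (ζ : Z → J × Ex 1 → A) (z : Z) (j : J) : SN (-1) (d.Xi ζ z j) := fun u hu => by
  rw [Xi, Pi.add_apply, Pi.smul_apply, d.Rz_sn z j u hu, arr_sn _ j u hu, smul_zero, add_zero]

theorem Xi_bd (hC : 1 ≤ C) (hs : d.Sm (1 / (2 ^ 12 * C))) (h : d.IsEig η C ζ N) (z : Z) (j : J) :
    Bd d.p (13 / 100) (13 / 100) (32 * C) (d.Xi ζ z j) :=
  ((d.Rz_bd z j).mono le_rfl (by linarith)).add ((zeta_bd hC hs h z j).smul (norm_natCast_le _))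

lemma qc_row (x : J × Ex 1 → A) {j : J} {r : J × Ex 1} (hr : r.1 = j) :
    row 1 j (arr x j) r = x r := by
  obtain ⟨i, w, hw⟩ := r
  subst hr
  rw [row, if_pos rfl, arr, dif_pos (by simp only [Prod.fst_neg]; omega)]
  simp only [neg_neg]

lemma vmul_arr (x : J × Ex 1 → A) (j : J) (u : ℤ × ℤ) (hu : u.1 ≤ -1) :
    conv (d.F j) (phi (arr x (d.σ j))) u = arr (vmul x (d.M 1)) j u := by
  have h1 := vmul_row (s := 1) (σ := d.σ) (F := d.F) (arr_sn x (d.σ j)) (d.σ j)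
    (j, ⟨-u, by simp only [Prod.fst_neg]; omega⟩)
  rw [if_pos rfl] at h1
  simp only [neg_neg] at h1
  rw [← h1, arr, dif_pos hu]
  refine tsum_congr fun r => ?_
  by_cases hr : r.1 = d.σ j
  · rw [qc_row x hr, M]
  · rw [M, opm, if_neg hr, mul_zero, mul_zero]

variable (d) in
lemma qc_Rz (z : Z) (j : J) : d.Rz z j = arr (d.ρr z) j := by
  funext u
  unfold arr
  split_ifs with hu
  · simp only [Rz, ρr, row, neg_neg]
    split_ifs <;> rfl
  · exact d.Rz_sn z j u (not_le.1 hu)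

lemma qc_phi (x y : Arr A) (c : A) : phi (x + c • y) = phi x + c • phi y := by
  funext u
  simp only [phi, Pi.add_apply, Pi.smul_apply]
  split_ifs <;> simp

lemma qc_mod {x : Arr A} {B : ℝ} (h : Bd d.p (13 / 100) (13 / 100) B x) (hs : SN (-1) x) :
    Mod d.p x ∧ Mod d.p (phi x) :=
  ⟨h.mod_neg (hs.mono (by norm_num)) (by norm_num) (by norm_num),
    h.phi.mod_neg (hs.phi.mono (by norm_num)) (by norm_num) (by norm_num)⟩

lemma qc_cast (n : ℕ) (y : A) : (n : K) • y = (n : A) * y := by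
  rw [Algebra.smul_def, map_natCast]

variable (d) in
lemma qc_Phi (N : Matrix Z Z A) (z z' : Z) :
    d.Φ N z z' = (d.P z z' : A) + 2 * (d.c z : A) * N z z' := by
  rw [Φ, Matrix.add_apply, Matrix.map_apply, Matrix.smul_apply, Matrix.diagonal_mul,
    Algebra.smul_def]
  simp only [Geo.c, Geo.c0, map_mul, map_pow, map_ofNat]
  push_cast
  ring

theorem Xi_eig (hC : 1 ≤ C) (hs : d.Sm (1 / (2 ^ 12 * C))) (h : d.IsEig η C ζ N) (z : Z) (j : J)
    (u : ℤ × ℤ) (hu : u.1 ≤ -1) :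
    conv (d.F j) (phi (d.Xi ζ z (d.σ j))) u = 2 * ∑ z', d.Φ N z z' * d.Xi ζ z' j u := by
  have m1 := (qc_mod (d.Rz_bd z (d.σ j)) (d.Rz_sn z _)).2
  have m2 := (qc_mod (zeta_bd hC hs h z (d.σ j)) (arr_sn _ _)).2
  rw [Xi, qc_phi, conv_add (d.F_dec j) m1 (m2.smul _), conv_smul (d.F_dec j) m2, Pi.add_apply,
    Pi.smul_apply, d.qc_Rz, vmul_arr _ j u hu, vmul_arr _ j u hu]
  simp only [Xi, d.qc_Rz, Pi.add_apply, Pi.smul_apply, arr, dif_pos hu]
  generalize ((j, ⟨-u, by simp only [Prod.fst_neg]; omega⟩) : J × Ex 1) = r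
  rw [d.vmul_ρ, h.eq]
  simp only [qc_cast, smul_eq_mul, zsmul_eq_mul]
  have h1 : ∀ z', d.Φ N z z' * (d.ρr z' r + (d.c z' : A) * ζ z' r) =
      (d.P z z' : A) * d.ρr z' r + (d.c z : A) * ((d.P z z' : A) * ζ z' r) +
        2 * (d.c z : A) * (N z z' * (d.ρr z' r + (d.c z' : A) * ζ z' r)) := by
    intro z'
    have h3 : (d.P z z' : A) * (d.c z' : A) = (d.P z z' : A) * (d.c z : A) := by
      by_cases hz : z = d.σZ z'
      · rw [hz, Geo.c, Geo.c, d.n_σ]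
      · simp [P, hz]
    rw [d.qc_Phi]
    linear_combination ζ z' r * h3
  simp only [h1, Finset.sum_add_distrib, ← Finset.mul_sum]
  ring

lemma qc_dot (x : J × Ex 1 → A) (y : Arr A) (j : J) :
    conv (arr x j) y 0 = dot x (col 1 j y) := by
  have h1 := dot_row_col (s := 1) (x := arr x j) (y := y) (fun u => Or.inl (arr_sn x j u)) j j
  rw [if_pos rfl] at h1
  rw [← h1]
  refine tsum_congr fun r => ?_
  by_cases hr : r.1 = j
  · rw [qc_row x hr]
  · rw [col, if_neg hr, mul_zero, mul_zero]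

theorem Xi_y (hη : d.IsEta η a) (hC : 1 ≤ C) (hs : d.Sm (1 / (2 ^ 12 * C)))
    (h : d.IsEig η C ζ N) (z : Z) (j : J) : conv (d.Xi ζ z j) (d.yv η j) 0 = 0 := by
  have m1 := (qc_mod (d.Rz_bd z j) (d.Rz_sn z _)).1
  have m2 := (qc_mod (zeta_bd hC hs h z j) (arr_sn _ _)).1
  have hy : Dec d.p (d.yv η j) := (hη.dec j).dt.add ((d.LT_dec j).conv (hη.dec j))
  rw [conv_comm, Xi, conv_add hy m1 (m2.smul _), conv_smul hy m2, Pi.add_apply, Pi.smul_apply,
    conv_comm, conv_comm (d.yv η j), d.qc_Rz, qc_dot, qc_dot]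
  have h1 := d.dot_ρ_y hη.dec z j
  have h2 := h.y z j
  rw [yc] at h1 h2
  rw [h1, h2, qc_cast, smul_eq_mul]
  ring

theorem Phi_max (hC : 1 ≤ C) (hs : d.Sm (1 / (2 ^ 12 * C))) (hN : ∀ z z', ‖N z z'‖ ≤ C)
    (v : Z → A) (B : ℝ) (h : ∀ z, ‖∑ z', d.Φ N z z' * v z'‖ ≤ B) (z : Z) : ‖v z‖ ≤ B := by
  obtain ⟨z0, -, hz0⟩ := Finset.exists_max_image Finset.univ (fun z => ‖v z‖)
    ⟨z, Finset.mem_univ z⟩
  refine (hz0 z (Finset.mem_univ z)).trans ?_
  have hs0 : (0 : ℝ) ≤ 1 / (2 ^ 12 * C) := by positivity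
  have h1 : d.ε z0 • v z0 = ∑ z', d.Φ N (d.σZ z0) z' * v z' +
      -∑ z', 2 * ((d.c (d.σZ z0) : K) • (N (d.σZ z0) z' * v z')) := by
    rw [← d.qc_P z0 v, ← sub_eq_add_neg, ← Finset.sum_sub_distrib]
    refine Finset.sum_congr rfl fun z' _ => ?_
    rw [d.qc_Phi, qc_cast, zsmul_eq_mul]
    ring
  have hm := norm_nonneg (v z0)
  have h2 : ‖v z0‖ ≤ max B (‖v z0‖ / 2) := by
    refine le_of_eq_of_le (d.qc_eps z0 _).symm ?_
    rw [h1]
    refine t1_add (le_max_of_le_left (h _)) (le_max_of_le_right ?_)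
    rw [norm_neg]
    refine qc_sum_le (by positivity) fun z' => ?_
    rw [d.qc_two, norm_smul]
    have h3 := mul_le_mul (qc_c_le hs0 hs (d.σZ z0))
      (t1_mul (hN (d.σZ z0) z') (hz0 z' (Finset.mem_univ _))) (norm_nonneg _) hs0
    have h4 : 1 / (2 ^ 12 * C) * (C * ‖v z0‖) = ‖v z0‖ / 2 ^ 12 := by field_simp
    rw [h4] at h3
    linarith
  have h3 := (norm_nonneg _).trans (h z)
  rcases le_max_iff.1 h2 with h4 | h4 <;> linarith

end Dat

end Pool.Agent.Lib.MP_788af2_nt.AG
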