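import Pool.Agent.Lib.MP_788af2_nt.AG.QFormB

/-!
The invariant form: adjoints for arrays supported in `k ≥ 0`.
-/

set_option linter.unusedSectionVars false

namespace Pool.Agent.Lib.MP_788af2_nt.AG

open Polynomial Filter Topology

variable {K A J Z : Type} [NontriviallyNormedField K] [IsUltrametricDist K] [CompleteSpace K]
  [CharZero K] [NormedCommRing A] [NormedAlgebra K A] [IsUltrametricDist A] [CompleteSpace A]
  [NormOneClass A] [Fintype J] [Fintype Z] [DecidableEq J] [DecidableEq Z] {d : Dat K A J Z}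

section pos

variable {p : Pm} {a x y : Arr A} {C Cx Cy : ℝ}

lemma qf_sumZ {c : ℝ} (hc : 0 < c) :
    Summable fun n : ℤ => (2 : ℝ) ^ (-(c * ((|n| : ℤ) : ℝ))) := by
  have h : Summable fun n : ℕ => (2 : ℝ) ^ (-(c * (n : ℝ))) := by
    refine (summable_geometric_of_lt_one (r := (2 : ℝ) ^ (-c)) (by positivity)
      (Real.rpow_lt_one_of_one_lt_of_neg (by norm_num) (by linarith))).congr fun n => ?_
    rw [← Real.rpow_natCast, ← Real.rpow_mul (by norm_num), neg_mul]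
  refine Summable.of_nat_of_neg (h.congr fun n => ?_) (h.congr fun n => ?_) <;> simp

lemma qf_summable (ha : Bd p (3 / 5) (-(4 / 5)) C a) (hs : SP 0 a)
    (hx : Bd p (13 / 100) (13 / 100) Cx x) (hxs : SN 0 x) (hxk : ∀ u : ℤ × ℤ, u.2 < 0 → x u = 0)
    (hy : Bd p (3 / 5) (13 / 100) Cy y) (hys : SP 0 y) (hyk : ∀ u : ℤ × ℤ, u.2 < 0 → y u = 0) :
    Summable fun q : (ℤ × ℤ) × (ℤ × ℤ) => x q.1 * (y q.2 * a (0 - q.1 - q.2)) := by
  have he := p.a1_e_posR
  have h1 := ha.nonneg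
  have h2 := hx.nonneg
  have h3 := hy.nonneg
  let g : ℤ × ℤ → ℝ := fun v => (2 : ℝ) ^ (-(1 / (5 * p.e) * ((|v.1| : ℤ) : ℝ))) *
    2 ^ (-(1 / 2 * ((|v.2| : ℤ) : ℝ)))
  have hg0 : ∀ v, 0 ≤ g v := fun v => by positivity
  have hg : Summable g := (qf_sumZ (c := 1 / (5 * p.e)) (by positivity)).mul_of_nonneg
    (qf_sumZ (c := 1 / 2) (by norm_num)) (fun _ => by positivity) (fun _ => by positivity)
  refine Summable.of_norm_bounded ((hg.mul_of_nonneg hg hg0 hg0).mul_left (Cx * (Cy * C)))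
    fun q => ?_
  obtain ⟨v, w⟩ := q
  have hpos : 0 ≤ Cx * (Cy * C) * (g v * g w) := by
    have := hg0 v
    have := hg0 w
    positivity
  by_cases c1 : x v = 0
  · simpa [c1] using hpos
  by_cases c2 : y w = 0
  · simpa [c2] using hpos
  by_cases c3 : a (0 - v - w) = 0
  · simp only [c3, mul_zero, norm_zero]
    exact hpos
  have v1 : v.1 ≤ 0 := not_lt.1 fun h => c1 (hxs v h)
  have v2 : 0 ≤ v.2 := not_lt.1 fun h => c1 (hxk v h)
  have w1 : 0 ≤ w.1 := not_lt.1 fun h => c2 (hys w h)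
  have w2 : 0 ≤ w.2 := not_lt.1 fun h => c2 (hyk w h)
  have a1 : 0 ≤ (0 - v - w).1 := not_lt.1 fun h => c3 (hs _ h)
  have a2 : |(0 - v - w).2| = v.2 + w.2 := by
    simp only [Prod.snd_sub, Prod.snd_zero]
    rw [abs_of_nonpos (by omega)]
    ring
  have a3 : (((0 - v - w).1 : ℤ) : ℝ) / p.e = -((v.1 : ℝ) / p.e) - (w.1 : ℝ) / p.e := by
    simp only [Prod.fst_sub, Prod.fst_zero]
    push_cast
    ring
  have a4 : (w.1 : ℝ) / p.e ≤ -((v.1 : ℝ) / p.e) := by
    rw [← neg_div]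
    refine div_le_div_of_nonneg_right ?_ he.le
    simp only [Prod.fst_sub, Prod.fst_zero] at a1
    exact_mod_cast (by omega : w.1 ≤ -v.1)
  have a5 : 0 ≤ (w.1 : ℝ) / p.e := div_nonneg (by exact_mod_cast w1) he.le
  have a6 : (0 : ℝ) ≤ v.2 := by exact_mod_cast v2
  have a7 : (0 : ℝ) ≤ w.2 := by exact_mod_cast w2
  refine (norm_mul_le _ _).trans ((mul_le_mul (hx v) ((norm_mul_le _ _).trans
    (mul_le_mul (hy w) (ha (0 - v - w)) (norm_nonneg _) (by positivity))) (norm_nonneg _)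
    (by positivity)).trans ?_)
  rw [mul_mul_mul_comm Cy, mul_mul_mul_comm Cx]
  refine mul_le_mul_of_nonneg_left ?_ (by positivity)
  simp only [g, ← Real.rpow_add (two_pos (α := ℝ))]
  refine Real.rpow_le_rpow_of_exponent_le one_le_two ?_
  rw [a2, a3, abs_of_nonpos v1, abs_of_nonneg v2, abs_of_nonneg w1, abs_of_nonneg w2]
  have e1 : 1 / (5 * (p.e : ℝ)) * ((-v.1 : ℤ) : ℝ) = -(1 / 5 * ((v.1 : ℝ) / p.e)) := by
    push_cast
    field_simp
  have e2 : 1 / (5 * (p.e : ℝ)) * (w.1 : ℝ) = 1 / 5 * ((w.1 : ℝ) / p.e) := by field_simp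
  rw [e1, e2]
  push_cast
  linarith

theorem pair_pos (ha : Bd p (3 / 5) (-(4 / 5)) C a) (hs : SP 0 a)
    (hx : Bd p (13 / 100) (13 / 100) Cx x) (hxs : SN 0 x) (hxk : ∀ u : ℤ × ℤ, u.2 < 0 → x u = 0)
    (hy : Bd p (3 / 5) (13 / 100) Cy y) (hys : SP 0 y) (hyk : ∀ u : ℤ × ℤ, u.2 < 0 → y u = 0) :
    conv x (conv a y) 0 = conv (conv a x) y 0 ∧ (Summable fun v => x v * conv a y (0 - v)) ∧
      Summable fun v => conv a x v * y (0 - v) := by
  have hS := qf_summable ha hs hx hxs hxk hy hys hyk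
  have hd : Dec p a := ha.dec hs (by norm_num) (by norm_num)
  have mx : Mod p x := hx.mod_neg hxs (by norm_num) (by norm_num)
  have my : Mod p y := hy.mod_pos hys (by norm_num) (by norm_num)
  have sw : ∀ {z : Arr A}, Mod p z → ∀ u, Summable fun w => z w * a (u - w) := by
    intro z hz u
    refine ((Equiv.subLeft u).summable_iff.mpr (hd.summable hz u)).congr fun w => ?_
    simp [mul_comm]
  have e1 : ∀ v, ∑' w, x v * (y w * a (0 - v - w)) = x v * conv a y (0 - v) := fun v => by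
    rw [conv_comm a y]
    exact (sw my (0 - v)).tsum_mul_left (x v)
  have e2 : ∀ w, ∑' v, x v * (y w * a (0 - v - w)) = y w * conv a x (0 - w) := fun w => by
    rw [conv_comm a x]
    refine Eq.trans (tsum_congr fun v => ?_) ((sw mx (0 - w)).tsum_mul_left (y w))
    rw [sub_right_comm]
    ring
  have s1 : Summable fun v => x v * conv a y (0 - v) := hS.prod.congr e1
  have s2 : Summable fun w => y w * conv a x (0 - w) := hS.prod_symm.prod.congr e2
  refine ⟨?_, s1, ?_⟩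
  · rw [conv_comm (conv a x) y]
    change ∑' v, x v * conv a y (0 - v) = ∑' w, y w * conv a x (0 - w)
    rw [← tsum_congr e1, ← tsum_congr e2]
    exact (hS.tsum_comm (f := fun v w => x v * (y w * a (0 - v - w)))).symm
  · refine ((Equiv.subLeft (0 : ℤ × ℤ)).summable_iff.mpr s2).congr fun w => ?_
    simp [mul_comm]

lemma qf_pair_D {L : Arr A} {D : Arr A → Arr A} (ha : Bd p (3 / 5) (-(4 / 5)) 1 a) (hs : SP 0 a)
    (hL : Bd p (3 / 5) (-(4 / 5)) 2 L) (hLs : SP 0 L)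
    {f : ℤ × ℤ → ℤ} (hf : ∀ z u, D z u = f u • z u)
    (hp : ∀ z z', conv z (D z') 0 = -conv (D z) z' 0)
    (hx : Bd p (13 / 100) (13 / 100) Cx x) (hxs : SN 0 x) (hxk : ∀ u : ℤ × ℤ, u.2 < 0 → x u = 0)
    (hy : Bd p (3 / 5) (13 / 100) Cy y) (hys : SP 0 y) (hyk : ∀ u : ℤ × ℤ, u.2 < 0 → y u = 0) :
    conv x (conv a (D y - conv L y)) 0 = -conv (D (conv a x) + conv L (conv a x)) y 0 ∧
      Summable fun v => x v * conv a (D y - conv L y) (0 - v) := by
  have hD : ∀ z u, ‖D z u‖ ≤ ‖z u‖ := fun z u => by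
    rw [hf]
    exact IsUltrametricDist.norm_zsmul_le _ _
  have hd : Dec p a := ha.dec hs (by norm_num) (by norm_num)
  have hdL : Dec p L := hL.dec hLs (by norm_num) (by norm_num)
  have mx : Mod p x := hx.mod_neg hxs (by norm_num) (by norm_num)
  have my : Mod p y := hy.mod_pos hys (by norm_num) (by norm_num)
  have z0 : ∀ u, y u = 0 → D y u = 0 := fun u h =>
    norm_le_zero_iff.1 ((hD y u).trans (by rw [h, norm_zero]))
  obtain ⟨p1, p2, -⟩ := pair_pos ha hs hx hxs hxk (hy.of_le (hD y)) (fun u h => z0 u (hys u h))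
    (fun u h => z0 u (hyk u h))
  obtain ⟨-, -, p3⟩ := pair_pos ha hs hx hxs hxk hy hys hyk
  have haL : Bd p (3 / 5) (-(4 / 5)) (1 * 2) (conv a L) :=
    ha.conv hs hL le_rfl (by rw [abs_neg, abs_of_pos (by norm_num)])
  obtain ⟨q1, q2, q3⟩ := pair_pos haL (by simpa using hs.conv hLs) hx hxs hxk hy hys hyk
  have e : conv a (D y - conv L y) = conv a (D y) - conv (conv a L) y := by
    rw [conv_sub hd (my.of_le (hD y)) (hdL.conv_mod my), conv_assoc hd hdL my]
  have e' : conv L (conv a x) = conv (conv a L) x := by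
    rw [conv_assoc hd hdL mx, conv_left_comm hd hdL mx]
  have p4 : Summable fun v => D (conv a x) v * y (0 - v) := by
    refine NonarchimedeanAddGroup.summable_of_tendsto_cofinite_zero ?_
    refine squeeze_zero_norm (fun v => ?_) (tendsto_zero_iff_norm_tendsto_zero.1
      p3.tendsto_cofinite_zero)
    rw [hf, smul_mul_assoc]
    exact IsUltrametricDist.norm_zsmul_le _ _
  rw [e, e']
  refine ⟨?_, (p2.sub q2).congr fun v => by simp [mul_sub]⟩
  have f1 : conv x (conv a (D y) - conv (conv a L) y) 0 =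
      conv x (conv a (D y)) 0 - conv x (conv (conv a L) y) 0 := by
    simp only [conv, Pi.sub_apply, mul_sub] at p2 q2 ⊢
    exact p2.tsum_sub q2
  have f2 : conv (D (conv a x) + conv (conv a L) x) y 0 =
      conv (D (conv a x)) y 0 + conv (conv (conv a L) x) y 0 := by
    change ∑' v, (D (conv a x) v + conv (conv a L) x v) * y (0 - v) = _
    simp only [add_mul]
    exact p4.tsum_add q3
  rw [f1, f2, p1, q1, hp]
  ring

end pos

namespace Dat

variable {j : J} {x y y' : Arr A} {Cx Cy : ℝ}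

theorem term_one (hx : Bd d.p (13 / 100) (13 / 100) Cx x) (hxs : SN 0 x)
    (hxk : ∀ u : ℤ × ℤ, u.2 < 0 → x u = 0)
    (hy : Bd d.p (3 / 5) (13 / 100) Cy y) (hys : SP 0 y) (hyk : ∀ u : ℤ × ℤ, u.2 < 0 → y u = 0)
    (hy' : Bd d.p (3 / 5) (13 / 100) Cy y') (hys' : SP 0 y')
    (hyk' : ∀ u : ℤ × ℤ, u.2 < 0 → y' u = 0) :
    conv x (conv (d.gi j) (d.Dt j y - d.Dx j y')) 0 =
      conv (conv (d.gi j) (d.Dx j x)) y' 0 - conv (conv (d.gi j) (d.Dt j x)) y 0 := by
  have mx : Mod d.p x := hx.mod_neg hxs (by norm_num) (by norm_num)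
  have my : Mod d.p y := hy.mod_pos hys (by norm_num) (by norm_num)
  have my' : Mod d.p y' := hy'.mod_pos hys' (by norm_num) (by norm_num)
  obtain ⟨t1, t2⟩ := qf_pair_D (D := dt) (d.gi_bd j) (d.gi_sp j) (d.LT_bd j)
    ((d.LT_sp j).mono zero_le_one) (f := fun u => u.1) (fun _ _ => rfl) pair_dt
    hx hxs hxk hy hys hyk
  obtain ⟨x1, x2⟩ := qf_pair_D (D := dx) (d.gi_bd j) (d.gi_sp j) (d.LX_bd j)
    (d.LX_sp j) (f := fun u => u.2) (fun _ _ => rfl) pair_dx hx hxs hxk hy' hys' hyk'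
  rw [conv_sub (d.gi_dec j) (mod_Dt my) (mod_Dx my'), gi_Dx mx, gi_Dt mx]
  have f : conv x (conv (d.gi j) (d.Dt j y) - conv (d.gi j) (d.Dx j y')) 0 =
      conv x (conv (d.gi j) (d.Dt j y)) 0 - conv x (conv (d.gi j) (d.Dx j y')) 0 := by
    change ∑' v, x v * (conv (d.gi j) (d.Dt j y) (0 - v) - conv (d.gi j) (d.Dx j y') (0 - v)) = _
    simp only [mul_sub]
    exact t2.tsum_sub x2
  rw [f]
  unfold Dt Dx
  rw [t1, x1]
  ring

end Dat

end Pool.Agent.Lib.MP_788af2_nt.AG
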