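import Pool.Agent.Lib.MP_788af2_nt.AG.RhoA

/-!
Residues and Frobenius: the pulled back residue functionals.
-/

set_option linter.unusedSectionVars false

namespace Pool.Agent.Lib.MP_788af2_nt.AG

open Polynomial Filter Topology Finset Ra

variable {K A J Z : Type} [NontriviallyNormedField K] [IsUltrametricDist K] [CompleteSpace K]
  [CharZero K] [NormedCommRing A] [NormedAlgebra K A] [IsUltrametricDist A] [CompleteSpace A]
  [NormOneClass A] [Fintype J] [Fintype Z] [DecidableEq J] [DecidableEq Z] (d : Dat K A J Z)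

namespace Rb

/-- The odd part of a polynomial. -/
noncomputable def od : K[X] →ₗ[K] K[X] where
  toFun p := contract 2 p.divX
  map_add' p q := by
    ext n
    simp [coeff_contract, coeff_divX]
  map_smul' a p := by
    ext n
    simp [coeff_contract, coeff_divX]

lemma od_coeff (p : K[X]) (n : ℕ) : (od p).coeff n = p.coeff (2 * n + 1) := by
  change (contract 2 p.divX).coeff n = _
  rw [coeff_contract two_ne_zero, coeff_divX, mul_comm]

lemma od_mul (h p : K[X]) : od (h.comp (X ^ 2) * p) = h * od p := by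
  induction h using Polynomial.induction_on' with
  | add f g hf hg => rw [add_comp, add_mul, map_add, hf, hg, add_mul]
  | monomial n a =>
    ext m
    rw [← C_mul_X_pow_eq_monomial, mul_comp, C_comp, X_pow_comp, ← pow_mul, od_coeff, mul_assoc,
      mul_assoc, coeff_C_mul, coeff_C_mul, coeff_X_pow_mul', coeff_X_pow_mul', od_coeff]
    split_ifs with h1 h2 h2
    · congr 2
      omega
    · omega
    · omega
    · rfl

lemma od_odd (m : ℕ) : od (X ^ (2 * m + 1) : K[X]) = X ^ m := by
  ext n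
  simp only [od_coeff, coeff_X_pow]
  exact if_congr (by omega) rfl rfl

lemma od_even (m : ℕ) : od (X ^ (2 * m) : K[X]) = 0 := by
  ext n
  rw [od_coeff, coeff_X_pow, if_neg (by omega), coeff_zero]

lemma od_le {r : ℝ} {p : K[X]} (h : SqB r p) : SqB r (od p) := fun n => by
  rw [od_coeff]
  exact h _

lemma ex_SqB (p : K[X]) : ∃ r, SqB r p :=
  ⟨∑ n ∈ p.support, ‖p.coeff n‖, fun n => by
    by_cases h : n ∈ p.support
    · exact single_le_sum (f := fun n => ‖p.coeff n‖) (fun _ _ => norm_nonneg _) h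
    · rw [notMem_support_iff.1 h, norm_zero]
      exact sum_nonneg fun _ _ => norm_nonneg _⟩

lemma od_base (β : K) (N : ℕ) :
    PowerSeries.coeff N (tay A (β ^ 2) (od ((X + C β) ^ (N + 1)))) = if N = 0 then 1 else 0 := by
  split_ifs with h
  · have e : od ((X + C β) ^ (N + 1)) = 1 := by
      ext n
      rw [h, zero_add, pow_one, od_coeff, coeff_add, coeff_X, coeff_C, coeff_one,
        if_neg (Nat.succ_ne_zero _), add_zero]
      exact if_congr (by omega) rfl rfl
    rw [e, h, map_one, PowerSeries.coeff_zero_one]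
  · have e : (od ((X + C β) ^ (N + 1))).natDegree ≤ N - 1 :=
      natDegree_le_iff_coeff_eq_zero.2 fun n hn => by
        rw [od_coeff]
        refine coeff_eq_zero_of_natDegree_lt ?_
        rw [natDegree_pow, natDegree_X_add_C]
        omega
    rw [← tay_eq, PowerSeries.coeff_map, coeff_coe,
      coeff_eq_zero_of_natDegree_lt (by rw [natDegree_taylor]; omega), map_zero]

lemma od_res (β : K) (N : ℕ) (q : K[X]) :
    PowerSeries.coeff N (tay A (β ^ 2) (od ((X + C β) ^ (N + 1) * q))) =
      PowerSeries.coeff N (tay A β q) := by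
  induction N generalizing q with
  | zero =>
    rw [← modByMonic_add_div q (X - C β), modByMonic_X_sub_C_eq_C_eval]
    generalize q /ₘ (X - C β) = r
    generalize eval β q = a
    have e : (X + C β) ^ (0 + 1) * (C a + (X - C β) * r) =
        a • (X + C β) ^ (0 + 1) + (X - C (β ^ 2)).comp (X ^ 2) * r := by
      rw [sub_comp, X_comp, C_comp, map_pow, smul_eq_C_mul]
      ring
    rw [e, map_add, map_smul, od_mul, map_add, map_smul, map_mul, tay_sub, map_add,
      PowerSeries.coeff_smul, od_base, map_add, map_mul (tay A β), tay_sub, tay_C]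
    simp [Algebra.smul_def]
  | succ N ih =>
    rw [← modByMonic_add_div q (X - C β), modByMonic_X_sub_C_eq_C_eval]
    generalize q /ₘ (X - C β) = r
    generalize eval β q = a
    have e : (X + C β) ^ (N + 1 + 1) * (C a + (X - C β) * r) = a • (X + C β) ^ (N + 1 + 1) +
        (X - C (β ^ 2)).comp (X ^ 2) * ((X + C β) ^ (N + 1) * r) := by
      rw [sub_comp, X_comp, C_comp, map_pow, smul_eq_C_mul]
      ring
    rw [e, map_add, map_smul, od_mul, map_add, map_smul, map_mul, tay_sub, map_add,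
      PowerSeries.coeff_smul, od_base, map_add, map_mul (tay A β), tay_sub, tay_C, map_add,
      PowerSeries.coeff_succ_X_mul, PowerSeries.coeff_succ_X_mul, ih]
    simp

lemma hsb (β : K) : PowerSeries.HasSubst (PowerSeries.X ^ 2 +
    PowerSeries.C (algebraMap K A (2 * β)) * PowerSeries.X : PowerSeries A) :=
  PowerSeries.HasSubst.of_constantCoeff_zero' (by simp)

variable (A) in
/-- The substitution `s - β ^ 2 = (t - β) (t + β)`. -/
noncomputable def sb (β : K) : PowerSeries A →+* PowerSeries A :=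
  (PowerSeries.substAlgHom (R := A) (hsb (A := A) β)).toRingHom

lemma sb_eq (β : K) (f : PowerSeries A) : sb A β f = f.subst (PowerSeries.X ^ 2 +
    PowerSeries.C (algebraMap K A (2 * β)) * PowerSeries.X : PowerSeries A) :=
  congrFun (PowerSeries.coe_substAlgHom (hsb β)) f

lemma sb_X (β : K) : sb A β PowerSeries.X = PowerSeries.X * tay A β (X + C β) := by
  rw [sb_eq, PowerSeries.subst_X (hsb β), map_add, tay_X, tay_C, two_mul, map_add, map_add]
  ring

lemma sb_C (β : K) (a : A) : sb A β (PowerSeries.C a) = PowerSeries.C a := by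
  rw [sb_eq]
  exact PowerSeries.subst_C a

lemma sb_tay (β : K) (h : K[X]) : sb A β (tay A (β ^ 2) h) = tay A β (h.comp (X ^ 2)) := by
  induction h using Polynomial.induction_on with
  | C a => rw [tay_C, sb_C, C_comp, tay_C]
  | add p q hp hq => rw [map_add, map_add, hp, hq, add_comp, map_add]
  | monomial n a ih =>
    have e : sb A β (tay A (β ^ 2) X) = tay A β (X ^ 2) := by
      rw [tay_X, map_add, sb_C, sb_X, map_add, map_pow (tay A β), tay_X, tay_C, map_pow, map_pow]
      ring
    rw [pow_succ X n, ← mul_assoc, map_mul (tay A _), map_mul (sb A β), ih, e,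
      mul_comp (C a * X ^ n), X_comp, map_mul (tay A β)]

lemma sb_res (β : K) (N : ℕ) (g : PowerSeries A) (q : K[X]) :
    PowerSeries.coeff N (g * tay A (β ^ 2) (od ((X + C β) ^ (N + 1) * q))) =
      PowerSeries.coeff N (sb A β g * tay A β q) := by
  induction N generalizing g q with
  | zero =>
    rw [PowerSeries.eq_X_mul_shift_add_const g, map_add (sb A β), map_mul (sb A β), sb_X, sb_C,
      add_mul, add_mul, map_add, map_add, PowerSeries.coeff_C_mul, PowerSeries.coeff_C_mul, od_res,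
      mul_assoc, mul_assoc, mul_assoc, PowerSeries.coeff_zero_X_mul, PowerSeries.coeff_zero_X_mul]
  | succ N ih =>
    rw [PowerSeries.eq_X_mul_shift_add_const g, map_add (sb A β), map_mul (sb A β), sb_X, sb_C,
      add_mul, add_mul, map_add, map_add, PowerSeries.coeff_C_mul, PowerSeries.coeff_C_mul, od_res,
      mul_assoc, mul_assoc, mul_assoc, PowerSeries.coeff_succ_X_mul, PowerSeries.coeff_succ_X_mul,
      pow_succ (X + C β) (N + 1), mul_assoc, ih, map_mul (tay A β), mul_left_comm]

/-- The residue of `κ λ ^ (-l) p dt`, zero for `l = 0`. -/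
noncomputable def R0 (z : Z) (l : ℕ) : K[X] →ₗ[K] A := if l = 0 then 0 else RR d z l

lemma R0_zero (z : Z) (p : K[X]) : R0 d z 0 p = 0 := rfl

lemma R0_succ (z : Z) (l : ℕ) : R0 d z (l + 1) = RR d z (l + 1) := rfl

lemma R0_lam (z : Z) (l i : ℕ) (p : K[X]) :
    R0 d z l (d.lam (d.jz z) ^ i * p) = R0 d z (l - i) p := by
  rcases l with _ | l
  · rw [Nat.zero_sub, R0_zero, R0_zero]
  rcases lt_or_ge l i with h | h
  · rw [R0_succ, RR_lam_le d z h, show l + 1 - i = 0 by omega, R0_zero]
  · obtain ⟨m, rfl⟩ := Nat.exists_eq_add_of_le h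
    rw [R0_succ, RR_lam, show i + m + 1 - i = m + 1 by omega, R0_succ]

lemma R0_le (z : Z) (l : ℕ) {r : ℝ} {p : K[X]} (h : SqB r p) : ‖R0 d z l p‖ ≤ r := by
  rcases l with _ | l
  · rw [R0_zero, norm_zero]
    exact h.nonneg
  rw [R0_succ, p.as_sum_support, map_sum]
  refine IsUltrametricDist.norm_sum_le_of_forall_le_of_nonneg h.nonneg fun n _ => ?_
  have := d.res_le z (l + 1) (n + 1)
  rw [res_eq, Nat.add_sub_cancel] at this
  rw [← smul_X_eq_monomial, map_smul, norm_smul]
  exact (mul_le_of_le_one_right (norm_nonneg _) this).trans (h n)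

lemma Ft_sum (j : J) : Summable fun n => ‖PowerSeries.coeff n (d.Ft j)‖ := by
  have he : (0 : ℝ) < d.p.e := by exact_mod_cast d.p.odd.pos
  have h1 : (2 : ℝ) ^ (-(1 / (d.p.e : ℝ))) < 1 :=
    Real.rpow_lt_one_of_one_lt_of_neg one_lt_two (neg_lt_zero.2 (by positivity))
  refine Summable.of_nonneg_of_le (fun _ => norm_nonneg _) (fun n => (d.Ft_le j n).trans ?_)
    (summable_geometric_of_lt_one (by positivity) h1)
  rw [← Real.rpow_mul_natCast zero_le_two]
  refine Real.rpow_le_rpow_of_exponent_le one_le_two ?_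
  have := d.p.le_f n
  rw [Int.cast_natCast] at this
  rw [neg_mul, one_div, inv_mul_eq_div]
  linarith

lemma La_bd (z : Z) (l m : ℕ) {r : ℝ} {p : K[X]} (h : SqB r p) :
    ‖R0 d (d.σZ z) l (od (X ^ m * p))‖ ≤ r :=
  R0_le d _ l (od_le (by simpa using (SqB.var.pow m).mul h))

lemma La_summable (z : Z) (l : ℕ) (p : K[X]) : Summable fun m =>
    PowerSeries.coeff m (d.Ft (d.jz z)) * R0 d (d.σZ z) l (od (X ^ m * p)) := by
  obtain ⟨r, h⟩ := ex_SqB p
  exact Summable.of_norm_bounded ((Ft_sum d _).mul_right r) fun m => (norm_mul_le _ _).trans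
    (mul_le_mul_of_nonneg_left (La_bd d z l m h) (norm_nonneg _))

/-- The sum of the residues of `Ft φ (κ λ ^ (-l)) p dt` at `β` and `-β`. -/
noncomputable def La (z : Z) (l : ℕ) : K[X] →ₗ[K] A where
  toFun p := ∑' m, PowerSeries.coeff m (d.Ft (d.jz z)) * R0 d (d.σZ z) l (od (X ^ m * p))
  map_add' p q := by
    simp only [mul_add, map_add]
    exact (La_summable d z l p).tsum_add (La_summable d z l q)
  map_smul' a p := by
    simp only [mul_smul_comm, map_smul, RingHom.id_apply]
    exact (La_summable d z l p).tsum_const_smul a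

lemma La_sum (z : Z) (l : ℕ) (p : K[X]) : HasSum (fun m => PowerSeries.coeff m (d.Ft (d.jz z)) *
    R0 d (d.σZ z) l (od (X ^ m * p))) (La d z l p) := (La_summable d z l p).hasSum

lemma La_le (z : Z) (l : ℕ) {r : ℝ} {p : K[X]} (h : SqB r p) : ‖La d z l p‖ ≤ r :=
  IsUltrametricDist.norm_tsum_le_of_forall_le fun m => by
    simpa using t1_mul (d.Ft_le_one _ m) (La_bd d z l m h)

lemma La_V (z : Z) (l i : ℕ) (p : K[X]) : La d z (l + i)
    ((d.lam (d.jz z) * (d.lam (d.jz z) + d.del (d.jz z))) ^ i * p) = La d z l p := by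
  refine (La_sum d z _ _).unique ((La_sum d z l p).congr_fun fun m => ?_)
  rw [← d.lam_σ, mul_left_comm, ← pow_comp, od_mul, ← d.jz_σ, R0_lam, Nat.add_sub_cancel]

lemma c_σ (z : Z) : d.c (d.σZ z) = d.c z := by rw [Geo.c, Geo.c, d.n_σ]

lemma lam_neg (z : Z) : d.lam (d.jz z) + d.del (d.jz z) =
    (X + C (d.β z)) ^ d.c z * (d.lamz z).comp (-X) := by
  have h : Even (d.c z) := (Nat.even_pow.2 ⟨even_two, d.i.succ_ne_zero⟩).mul_right _
  rw [Geo.del, add_sub_cancel, d.lam_eq, mul_comp, pow_comp, sub_comp, X_comp, C_comp,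
    ← h.neg_pow, neg_sub, sub_neg_eq_add, add_comm]

lemma lamz_σ (z : Z) : (d.lamz (d.σZ z)).comp (X ^ 2) = d.lamz z * (d.lamz z).comp (-X) := by
  have h := d.lam_σ (d.jz z)
  rw [lam_neg, ← d.jz_σ, d.lam_eq, d.lam_eq, mul_comp, pow_comp, sub_comp, X_comp, C_comp, c_σ,
    d.β_σ, map_pow, sq_sub_sq, mul_pow] at h
  refine mul_left_cancel₀ (mul_ne_zero (pow_ne_zero (d.c z) (X_add_C_ne_zero (d.β z)))
    (pow_ne_zero (d.c z) (X_sub_C_ne_zero (d.β z)))) ?_
  rw [h]
  ring

lemma sb_mi (z : Z) :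
    sb A (d.β z) (mi d (d.σZ z)) * tay A (d.β z) ((d.lamz z).comp (-X)) = mi d z := by
  have h := congrArg (sb A (d.β z)) (mi_mul d (d.σZ z))
  rw [map_mul, d.β_σ, sb_tay, lamz_σ, map_mul, map_one] at h
  linear_combination mi d z * h - sb A (d.β z) (mi d (d.σZ z)) *
    tay A (d.β z) ((d.lamz z).comp (-X)) * mi_mul d z

lemma La_key (z : Z) (i : ℕ) (p : K[X]) :
    La d z i ((d.lam (d.jz z) + d.del (d.jz z)) ^ i * p) = d.ε z • R0 d z i p := by
  rcases i with _ | i
  · refine (La_sum d z _ _).unique ?_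
    simp only [R0_zero, mul_zero, smul_zero]
    exact hasSum_zero
  have hc : d.c z * (i + 1) - 1 + 1 = d.c z * (i + 1) :=
    Nat.sub_add_cancel (Nat.mul_pos (d.c_pos z) i.succ_pos)
  have h := tay_sum (d.β_le z) (Ft_sum d (d.jz z))
    (sb A (d.β z) (d.κ (d.σZ z)) * mi d z ^ (i + 1) * tay A (d.β z) p) (d.c z * (i + 1) - 1)
  have e : sb A (d.β z) (d.κ (d.σZ z)) * mi d z ^ (i + 1) * tay A (d.β z) p *
      Tay (d.β z) (d.Ft (d.jz z)) = d.ε z • (d.κ z * mi d z ^ (i + 1) * tay A (d.β z) p) := by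
    rw [← smul_mul_assoc, ← smul_mul_assoc, ← d.κ_F, ← sb_eq]
    ring
  rw [e, map_zsmul, ← RR_apply] at h
  refine (La_sum d z _ _).unique (h.congr_fun fun m => ?_)
  have e' : X ^ m * ((d.lam (d.jz z) + d.del (d.jz z)) ^ (i + 1) * p) =
      (X + C (d.β z)) ^ (d.c z * (i + 1) - 1 + 1) *
        ((d.lamz z).comp (-X) ^ (i + 1) * p * X ^ m) := by
    rw [hc, lam_neg, mul_pow, ← pow_mul]
    ring
  rw [R0_succ, RR_apply, c_σ, d.β_σ, e', sb_res, ← sb_mi d z]
  simp only [map_mul, map_pow]
  congr 2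
  ring

end Rb

end Pool.Agent.Lib.MP_788af2_nt.AG
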