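import Pool.Agent.Lib.MP_788af2_nt.AG.RB1

/-!
Residues and Frobenius: the sums over the periods and the estimates for single terms.
-/

set_option linter.unusedSectionVars false

namespace Pool.Agent.Lib.MP_788af2_nt.AG

open Polynomial Filter Topology Finset Ra

variable {K A J Z : Type} [NontriviallyNormedField K] [IsUltrametricDist K] [CompleteSpace K]
  [CharZero K] [NormedCommRing A] [NormedAlgebra K A] [IsUltrametricDist A] [CompleteSpace A]
  [NormOneClass A] [Fintype J] [Fintype Z] [DecidableEq J] [DecidableEq Z] (d : Dat K A J Z)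

namespace Rb

/-- The periods at even places. -/
noncomputable def Ie (o : One K) (m : ℕ) : K := if 2 ∣ m then o.I (m / 2) else 0

/-- The series `θ (X) L (X ^ 2)`. -/
noncomputable def Mm (o : One K) : PowerSeries K := o.θ * e2 o.L

lemma Ie_zero (o : One K) : Ie o 0 = 0 := by simp [Ie, o.I_zero]

lemma Ie_le (o : One K) (m : ℕ) : ‖Ie o m‖ ≤ 2 ^ ((m : ℝ) / 8 + 4) := by
  rw [Ie]
  split_ifs
  · refine (o.I_le' _).trans (Real.rpow_le_rpow_of_exponent_le one_le_two ?_)
    have : ((m / 2 : ℕ) : ℝ) ≤ m := by exact_mod_cast Nat.div_le_self m 2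
    linarith
  · rw [norm_zero]
    positivity

lemma reix {f : ℕ → ℕ → K} {j : ℕ} {s : K}
    (h : HasSum (fun l => if j ≤ 2 * l then f (2 * l - j) l else 0) s) :
    HasSum (fun b => if 2 ∣ b + j then f b ((b + j) / 2) else 0) s := by
  have h1 : HasSum (fun m => if 2 ∣ m ∧ j ≤ m then f (m - j) (m / 2) else 0) s := by
    refine ((mul_right_injective₀ (two_ne_zero (α := ℕ))).hasSum_iff fun x hx => ?_).1
      (h.congr_fun fun l => ?_)
    · exact if_neg fun ⟨⟨l, e⟩, _⟩ => hx ⟨l, e.symm⟩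
    · simp
  have h2 := (hasSum_nat_add_iff' j).2 h1
  rw [sum_eq_zero fun i hi => if_neg fun c => by rw [mem_range] at hi; omega, sub_zero] at h2
  simpa using h2

lemma θ_bd (o : One K) (j l : ℕ) :
    ‖PowerSeries.coeff (2 * l) (PowerSeries.X ^ j * o.θ)‖ * 2 ^ l ≤ 2 ^ j * (1 / 2) ^ l := by
  rw [PowerSeries.coeff_X_pow_mul']
  split_ifs with h
  · obtain ⟨m, hm⟩ := Nat.exists_eq_add_of_le h
    rw [hm, Nat.add_sub_cancel_left]
    refine (mul_le_mul_of_nonneg_right (o.θ_le m) (by positivity)).trans (le_of_eq ?_)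
    have e : (2 : ℝ) ^ l * 2 ^ l = 2 ^ j * 2 ^ m := by rw [← pow_add, ← pow_add, ← hm, two_mul]
    rw [one_div, inv_pow, inv_pow]
    field_simp
    linarith
  · rw [norm_zero, zero_mul]
    positivity

lemma sumθ (o : One K) {j : ℕ} (hj : 1 ≤ j) :
    HasSum (fun b => Ie o (b + j) * PowerSeries.coeff b o.θ) (2 * o.I j) := by
  have h : HasSum (fun l => if j ≤ 2 * l then PowerSeries.coeff (2 * l - j) o.θ * o.I l else 0)
      (2 * o.I j) := by
    rw [← o.I_θ j hj]
    refine (Summable.of_norm_bounded (summable_geometric_two.mul_left (2 ^ j)) fun l => ?_).hasSum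
    refine le_trans ?_ (θ_bd o j l)
    rw [PowerSeries.coeff_X_pow_mul']
    split_ifs
    · rw [norm_mul]
      exact mul_le_mul_of_nonneg_left (o.I_le l) (norm_nonneg _)
    · simp
  refine (reix (f := fun b l => PowerSeries.coeff b o.θ * o.I l) h).congr_fun fun b => ?_
  rw [Ie, ite_mul, zero_mul, mul_comm]

lemma coeff_e2 (f g : PowerSeries K) (l : ℕ) : PowerSeries.coeff (2 * l) (f * e2 g) =
    ∑ p ∈ HasAntidiagonal.antidiagonal l, PowerSeries.coeff (2 * p.1) f * PowerSeries.coeff p.2 g := by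
  rw [PowerSeries.coeff_mul]
  refine (sum_of_injOn (fun p : ℕ × ℕ => (2 * p.1, 2 * p.2)) (fun p _ q _ e => ?_)
    (fun p hp => ?_) (fun p hp h => ?_) fun p _ => ?_).symm
  · simp only [Prod.mk.injEq] at e
    exact Prod.ext (by omega) (by omega)
  · rw [mem_coe, HasAntidiagonal.mem_antidiagonal] at hp ⊢
    simp only
    omega
  · rw [oa_e2, if_neg, mul_zero]
    rintro ⟨n, hn⟩
    rw [HasAntidiagonal.mem_antidiagonal] at hp
    exact h ⟨(l - n, n), by rw [mem_coe, HasAntidiagonal.mem_antidiagonal]; simp only; omega,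
      Prod.ext (by simp only; omega) hn.symm⟩
  · simp [oa_e2]

lemma sumN (o : One K) (j : ℕ) : HasSum (fun b => Ie o (b + j) *
    (((b + j) / 2 : ℕ) * PowerSeries.coeff b o.θ + PowerSeries.coeff b (Mm o)))
    (if j = 0 then 1 else 0) := by
  set t : ℕ → K := fun l => PowerSeries.coeff (2 * l) (PowerSeries.X ^ j * o.θ) with ht
  have s1 : Summable fun p : ℕ × ℕ => t p.1 * (PowerSeries.coeff p.2 o.L * o.I (p.1 + p.2)) := by
    refine Summable.of_norm_bounded ((summable_geometric_two.mul_left (2 ^ j)).mul_of_nonneg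
      (summable_geometric_two.mul_left 2) (fun _ => by positivity) fun _ => by positivity)
      fun p => ?_
    have h1 : ‖PowerSeries.coeff p.2 o.L * o.I (p.1 + p.2)‖ ≤ 2 ^ p.1 * (2 * (1 / 2) ^ p.2) := by
      refine (oa_mul_le (o.L_le _) (o.I_le _)).trans (le_of_eq ?_)
      rw [pow_add, show (1 / 2 : ℝ) = 1 / 4 * 2 by norm_num, mul_pow]
      ring
    rw [norm_mul]
    refine (mul_le_mul_of_nonneg_left h1 (norm_nonneg _)).trans ?_
    rw [← mul_assoc]
    exact mul_le_mul_of_nonneg_right (θ_bd o j p.1) (by positivity)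
  have s2 := s1.hasSum.prod_fiberwise
    (g := fun l => (if l = 0 then t 0 else 0) - t l * (l * o.I l)) fun l => by
      rcases l with _ | l
      · simpa using (sumI_L o).mul_left (t 0)
      · simpa using (sumI_D o l).mul_left (t (l + 1))
  have s3 := (HasAntidiagonal.sigmaAntidiagonalEquivProd.hasSum_iff.2 s1.hasSum).sigma
    (g := fun l => PowerSeries.coeff (2 * l) (PowerSeries.X ^ j * Mm o) * o.I l) fun l => by
      rw [Mm, ← mul_assoc, coeff_e2, sum_mul, ← sum_coe_sort]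
      refine (hasSum_fintype _).congr_fun fun p => ?_
      have := HasAntidiagonal.mem_antidiagonal.1 p.2
      simp only [Function.comp, HasAntidiagonal.sigmaAntidiagonalEquivProd_apply, this, ht,
        mul_assoc]
  have s4 := ((hasSum_ite_eq 0 (t 0)).sub s2).add s3
  have e : t 0 = if j = 0 then 1 else 0 := by
    simp only [ht, PowerSeries.coeff_X_pow_mul', mul_zero, Nat.zero_sub, o.θ_zero, Nat.le_zero]
  rw [sub_add_cancel, e] at s4
  refine (reix (j := j) (f := fun b l => o.I l * (l * PowerSeries.coeff b o.θ +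
    PowerSeries.coeff b (Mm o))) (s4.congr_fun fun l => ?_)).congr_fun fun b => ?_
  · simp only [ht, PowerSeries.coeff_X_pow_mul', sub_sub_cancel]
    split_ifs
    · ring
    · ring
  · rw [Ie, ite_mul, zero_mul]

lemma Mm_le (o : One K) (b : ℕ) : ‖PowerSeries.coeff b (Mm o)‖ ≤ 2 * (1 / 2) ^ b := by
  rw [Mm, PowerSeries.coeff_mul]
  refine IsUltrametricDist.norm_sum_le_of_forall_le_of_nonneg (by positivity) fun p hp => ?_
  rw [← HasAntidiagonal.mem_antidiagonal.1 hp, oa_e2]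
  split_ifs with h
  · obtain ⟨n, hn⟩ := h
    rw [hn, Nat.mul_div_cancel_left n two_pos]
    refine (oa_mul_le (o.θ_le _) (o.L_le n)).trans (le_of_eq ?_)
    rw [pow_add, pow_mul]
    norm_num
    ring
  · rw [mul_zero, norm_zero]
    positivity

lemma hz_lead (j : J) (b : ℕ) : SqB (4 * ‖d.c0‖ ^ 2 * (1 / 2) ^ b) (d.lam j * d.hz j b -
    C (PowerSeries.coeff b d.o.θ) * d.lam j ^ (b + 1) +
      C (PowerSeries.coeff b (Mm d.o)) * (d.del j * d.lam j ^ b)) := by
  have e1 : C (PowerSeries.coeff b d.o.θ) * d.lam j ^ (b + 1) =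
      d.lam j * PowerSeries.coeff b (zs d.o.θ (d.lam j) * 1) := by
    rw [mul_one, zs, PowerSeries.coeff_mk]
    ring
  rw [e1, Dat.hz, Mm, PowerSeries.coeff_mul, PowerSeries.coeff_mul, PowerSeries.coeff_mul, map_sum,
    mul_sum, mul_sum, sum_mul, ← sum_sub_distrib, ← sum_add_distrib]
  refine SqB.sum _ (by positivity) fun p hp => ?_
  rw [← HasAntidiagonal.mem_antidiagonal.1 hp, zs, PowerSeries.coeff_mk, oa_e2, PowerSeries.coeff_one]
  rcases p with ⟨i, n⟩
  simp only
  by_cases h : 2 ∣ n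
  · obtain ⟨n, rfl⟩ := h
    rcases n with _ | n
    · simpa [(d.isSq j).zero, d.o.L_zero] using SqB.zero (K := K) (by positivity)
    · have h1 := ((SqB.const (d.o.θ_le i)).mul_one' ((d.lam_SqB j).pow (i + 1))).mul
        fun m => (d.isSq j).lead (n + 1) m (by omega)
      rw [if_neg (by omega), if_pos (dvd_mul_right _ _), Nat.mul_div_cancel_left _ two_pos]
      convert h1 using 1
      · rw [pow_add, pow_mul]
        norm_num
        ring
      · rw [show 2 * (n + 1) - 1 = 2 * n + 1 by omega, map_mul]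
        ring
  · rw [(d.isSq j).odd n h, if_neg h, if_neg (by rintro rfl; simp at h)]
    simpa using SqB.zero (K := K) (by positivity)

lemma del_SqB (j : J) : SqB (‖d.c0‖ / 2) (d.del j) := d.del_le j

lemma del_one (j : J) : SqB 1 (d.del j) := (del_SqB d j).mono (by linarith [d.c0_le])

lemma nat_SqB (l : ℕ) : SqB 1 (l : K[X]) := by
  simpa using SqB.const (IsUltrametricDist.norm_natCast_le_one K l)

lemma term_le (z : Z) (l b : ℕ) {p : K[X]} (hp : SqB 1 p) :
    ‖La d z l (p * d.hz (d.jz z) b) - d.ε z • (PowerSeries.coeff b d.o.θ • R0 d z (2 * l - b) p -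
      (l * PowerSeries.coeff b d.o.θ + PowerSeries.coeff b (Mm d.o)) •
        R0 d z (2 * l + 1 - b) (d.del (d.jz z) * p))‖ ≤ 4 * ‖d.c0‖ ^ 2 * (1 / 2) ^ b := by
  have hl := d.lam_SqB (d.jz z)
  have he := del_one d (d.jz z)
  have hE := hz_lead d (d.jz z) b
  have hθ : ‖PowerSeries.coeff b d.o.θ‖ ≤ 2 * (1 / 2) ^ b :=
    (d.o.θ_le b).trans (le_mul_of_one_le_left (by positivity) one_le_two)
  have hN : ‖l * PowerSeries.coeff b d.o.θ + PowerSeries.coeff b (Mm d.o)‖ ≤ 2 * (1 / 2) ^ b :=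
    oa_add (by simpa using oa_mul_le (IsUltrametricDist.norm_natCast_le_one K l) hθ) (Mm_le _ b)
  obtain ⟨Q, hQ, e⟩ := SqB.pow_sub hl he l
  have e1 : (l : K[X]) * d.lam (d.jz z) ^ (l - 1) * d.lam (d.jz z) = l * d.lam (d.jz z) ^ l := by
    rcases l with _ | l
    · simp
    · rw [Nat.add_sub_cancel, pow_succ, mul_assoc]
  have r1 := R0_lam d z (l + (l + 1)) (b + 1) p
  have r2 := R0_lam d z (l + (l + 1)) b (d.del (d.jz z) * p)
  rw [show l + (l + 1) - (b + 1) = 2 * l - b by omega] at r1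
  rw [show l + (l + 1) - b = 2 * l + 1 - b by omega] at r2
  rw [← r1, ← r2, ← map_smul, ← map_smul, ← map_sub, ← La_key, ← La_V d z l (l + 1), ← map_sub]
  refine La_le d z _ ?_
  have h1 := ((SqB.const hθ).mul_one' ((hl.pow (b + 1)).mul_one' hp)).sub
    ((SqB.const hN).mul_one' ((hl.pow b).mul_one' (he.mul_one' hp)))
  have h2 := (((del_SqB d (d.jz z)).mul (del_SqB d (d.jz z))).mul ((((SqB.const hN).mul_one'
    (((nat_SqB l).mul_one' (hl.pow (l - 1))).mul_one' ((hl.pow b).mul_one' hp)))).sub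
      (h1.mul_one' hQ))).mono (s := 4 * ‖d.c0‖ ^ 2 * (1 / 2) ^ b) (by
        have : 0 ≤ ‖d.c0‖ ^ 2 * (1 / 2 : ℝ) ^ b := by positivity
        nlinarith)
  have h3 := ((hE.mul_one' ((hl.pow l).mul_one' hp)).add h2).mul_one' ((hl.add he).pow (l + 1))
  convert h3 using 1
  rw [mul_pow, pow_add _ l (l + 1), e, smul_eq_C_mul, smul_eq_C_mul, map_add, map_mul, map_natCast]
  generalize (d.lam (d.jz z) + d.del (d.jz z)) ^ (l + 1) = W
  generalize d.lam (d.jz z) ^ (l - 1) = Y at e1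
  linear_combination (-W * C (PowerSeries.coeff b d.o.θ) * d.lam (d.jz z) ^ b * d.del (d.jz z) *
    p) * e1

lemma pow_four (h2 : ‖(2 : K)‖ = 1 / 2) {U w : K[X]} (hU : SqB 1 U) (hw : SqB 1 w) (n : ℕ) :
    SqB (‖(n : K)‖ / 8) ((U + 4 * w) ^ n - U ^ n - 4 * (n : K[X]) * w * U ^ (n - 1)) := by
  have c2 : SqB (1 / 2) (2 : K[X]) := SqB.const h2.le
  have c4 : SqB (1 / 4) (4 * w) := by
    convert (c2.mul c2).mul_one' hw using 1
    · norm_num
    · norm_num
  induction n using Nat.strong_induction_on with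
  | _ n ih =>
  rcases Nat.even_or_odd' n with ⟨m, rfl | rfl⟩
  · rcases m with _ | m
    · simpa using SqB.zero (K := K) le_rfl
    have h := ih (m + 1) (by omega)
    have hn : ‖((m + 1 : ℕ) : K)‖ ≤ 1 := IsUltrametricDist.norm_natCast_le_one K _
    have h0 := norm_nonneg ((m + 1 : ℕ) : K)
    have h1 : SqB (‖((m + 1 : ℕ) : K)‖ / 4) (4 * ((m + 1 : ℕ) : K[X]) * w * U ^ m) := by
      convert ((SqB.const (le_refl ‖((m + 1 : ℕ) : K)‖)).mul c4).mul_one' (hU.pow m) using 1
      · ring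
      · rw [map_natCast]
        ring
    have h3 := (((h1.mul h1).mono (s := ‖((m + 1 : ℕ) : K)‖ / 16) (by nlinarith)).add
      (((c2.mul h).mul_one' ((hU.pow (m + 1)).add (h1.mono (by linarith)))).mono
        (by linarith))).add ((h.mul h).mono (by nlinarith))
    convert h3 using 1
    · rw [Nat.cast_mul, norm_mul, Nat.cast_ofNat, h2]
      ring
    · rw [show 2 * (m + 1) - 1 = 2 * m + 1 by omega, Nat.add_sub_cancel, pow_mul' (U + 4 * w)]
      push_cast
      ring
  · obtain ⟨Q, hQ, e⟩ := SqB.pow_sub hU (c4.mono (by norm_num)) (2 * m + 1)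
    have hn : ‖((2 * m + 1 : ℕ) : K)‖ = 1 := by
      exact_mod_cast oa_odd h2 (a := 2 * m + 1) ⟨m, rfl⟩
    rw [hn, e]
    convert ((c4.mul c4).mul_one' hQ).mono (s := 1 / 8) (by norm_num) using 1
    ring

lemma comp_neg (h2 : ‖(2 : K)‖ = 1 / 2) {p : K[X]} (hp : SqB 1 p) :
    SqB (1 / 2) (p.comp (-X) - p) := fun n => by
  rw [coeff_sub, show (-X : K[X]) = C (-1) * X by simp, comp_C_mul_X_coeff]
  rcases neg_one_pow_eq_or K n with h | h
  · simp [h]
  · rw [h, show p.coeff n * -1 - p.coeff n = -(2 * p.coeff n) by ring, norm_neg]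
    simpa using oa_mul_le h2.le (hp n)

lemma lead_le (z : Z) (a : ℕ) : ‖R0 d z 1 (d.del (d.jz z) * X ^ a) -
    (2 * (d.c z : K)) • d.pol2 z (a + 1)‖ ≤ ‖(d.c z : K)‖ / 4 := by
  obtain ⟨n, hn⟩ : ∃ n, d.c z = 2 * (n + 1) := by
    have := d.c_pos z
    obtain ⟨n, hn⟩ : 2 ∣ d.c z := (dvd_pow_self 2 d.i.succ_ne_zero).mul_right _
    exact ⟨n - 1, by omega⟩
  have hb : SqB 1 (C (d.β z)) := SqB.const (d.β_le z)
  have hz : SqB 1 (d.lamz z) := d.lamz_le z
  have h1 := pow_four d.two ((d.lin_le z).pow 2) (hb.mul_one' SqB.var) (n + 1)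
  have e0 : ‖((n + 1 : ℕ) : K)‖ / 8 = ‖(d.c z : K)‖ / 4 := by
    rw [hn, Nat.cast_mul, norm_mul, Nat.cast_ofNat, d.two]
    ring
  have e1 : (X - C (d.β z)) ^ 2 + 4 * (C (d.β z) * X) = (X + C (d.β z)) ^ 2 := by ring
  rw [e0, e1, ← pow_mul, ← pow_mul, ← pow_mul, ← hn, Nat.add_sub_cancel] at h1
  have h2 : SqB (‖(d.c z : K)‖ / 2) (C (2 * (d.c z : K))) :=
    SqB.const (by rw [norm_mul, d.two]; linarith)
  have h3 := comp_neg d.two hz
  have h4 := ((h1.mul_one' (hz.add (h3.mono (by norm_num)))).add (((h2.mul h3).mul_one'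
    ((hb.mul_one' SqB.var).mul_one' ((d.lin_le z).pow (2 * n)))).mono (by linarith))).mul_one'
      (SqB.var.pow a)
  have e2 : R0 d z 1 ((X - C (d.β z)) ^ d.c z * (((d.lamz z).comp (-X) - d.lamz z) * X ^ a)) = 0 :=
    RR_dvd d z (l := 1) (m := d.c z) (by omega) (by rw [map_mul, map_pow, tay_sub])
  have e3 : R0 d z 1 ((X - C (d.β z)) ^ (2 * n) * d.lamz z * (C (d.β z) * X ^ (a + 1))) =
      d.pol2 z (a + 1) := by
    have e : d.κ z * mi d z ^ 1 * tay A (d.β z) ((X - C (d.β z)) ^ (2 * n) * d.lamz z *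
        (C (d.β z) * X ^ (a + 1))) = PowerSeries.X ^ (2 * n) *
          (d.κ z * tay A (d.β z) (C (d.β z) * X ^ (a + 1))) := by
      rw [map_mul, map_mul, map_pow, tay_sub]
      linear_combination (PowerSeries.X ^ (2 * n) * d.κ z *
        tay A (d.β z) (C (d.β z) * X ^ (a + 1))) * mi_mul d z
    rw [R0_succ, zero_add, RR_apply, e, show d.c z * 1 - 1 = 1 + 2 * n by omega,
      PowerSeries.coeff_X_pow_mul, Dat.pol2, map_mul (tay A _), map_pow (tay A _), tay_C, tay_X]
    simp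
  rw [← e3, ← sub_zero (_ - _), ← e2, ← map_smul, ← map_sub, ← map_sub]
  refine R0_le d z 1 ?_
  convert h4 using 1
  have e4 : (C (2 * (d.c z : K)) : K[X]) = 4 * ((n + 1 : ℕ) : K[X]) := by
    rw [hn, map_mul, map_natCast, map_ofNat]
    push_cast
    ring
  rw [smul_eq_C_mul, e4, eq_sub_of_add_eq' (lam_neg d z), d.lam_eq]
  ring

end Rb

end Pool.Agent.Lib.MP_788af2_nt.AG
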