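import Pool.Agent.Lib.MP_788af2_nt.AG.TwoB

/-!
Residues at a root: the linear algebra behind the approximate eigenfunctionals.
-/

set_option linter.unusedSectionVars false

namespace Pool.Agent.Lib.MP_788af2_nt.AG

open Polynomial Filter Topology Finset

variable {K A J Z : Type} [NontriviallyNormedField K] [IsUltrametricDist K] [CompleteSpace K]
  [CharZero K] [NormedCommRing A] [NormedAlgebra K A] [IsUltrametricDist A] [CompleteSpace A]
  [NormOneClass A] [Fintype J] [Fintype Z] [DecidableEq J] [DecidableEq Z] (d : Dat K A J Z)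

namespace Ra

variable (A) in
/-- The expansion of a polynomial at `β`. -/
noncomputable def tay (β : K) : K[X] →ₐ[K] PowerSeries A :=
  aeval (PowerSeries.C (algebraMap K A β) + PowerSeries.X)

lemma tay_X (β : K) : tay A β X = PowerSeries.C (algebraMap K A β) + PowerSeries.X := aeval_X _

lemma tay_C (β r : K) : tay A β (C r) = PowerSeries.C (algebraMap K A r) :=
  (aeval_C _ _).trans PowerSeries.algebraMap_apply

lemma tay_sub (β : K) : tay A β (X - C β) = PowerSeries.X := by
  rw [map_sub, tay_X, tay_C, add_sub_cancel_left]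

lemma tay_eq (β : K) (p : K[X]) :
    PowerSeries.map (algebraMap K A) ((taylor β p : K[X]) : PowerSeries K) = tay A β p := by
  induction p using Polynomial.induction_on' with
  | add p q hp hq => rw [map_add, Polynomial.coe_add, map_add, map_add, hp, hq]
  | monomial n a =>
    rw [taylor_monomial, ← C_mul_X_pow_eq_monomial, map_mul, map_pow, tay_X, tay_C]
    simp [add_comm]

lemma tay_der (β : K) (p : K[X]) :
    PowerSeries.derivative A (tay A β p) = tay A β (derivative p) := by
  induction p using Polynomial.induction_on with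
  | C a => simp [tay_C]
  | add p q hp hq => simp only [map_add, hp, hq]
  | monomial n a ih =>
    rw [pow_succ, ← mul_assoc, map_mul, Derivation.leibniz, ih, derivative_mul, tay_X]
    simp [tay_X]
    ring

lemma coeff_T (β : K) (n j : ℕ) : PowerSeries.coeff j (tay A β (X ^ n)) =
    algebraMap K A ((n.choose j : K) * β ^ (n - j)) := by
  rw [← tay_eq, PowerSeries.coeff_map, coeff_coe, taylor_X_pow, coeff_X_add_C_pow, mul_comm]

lemma T_cancel (β : K) {f g : PowerSeries A} (h : tay A β X * f = tay A β X * g) : f = g := by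
  rcases eq_or_ne β 0 with rfl | h0
  · rw [tay_X, map_zero, map_zero, zero_add] at h
    exact PowerSeries.X_mul_cancel h
  · have h1 : PowerSeries.map (algebraMap K A) ((taylor β X : K[X]) : PowerSeries K)⁻¹ *
        tay A β X = 1 := by
      rw [← tay_eq, ← map_mul, PowerSeries.inv_mul_cancel _ (by simpa using h0), map_one]
    rw [← one_mul f, ← one_mul g, ← h1, mul_assoc, h, mul_assoc]

lemma tay_sum {β : K} (hβ : ‖β‖ ≤ 1) {s : PowerSeries A}
    (hs : Summable fun n => ‖PowerSeries.coeff n s‖) (f : PowerSeries A) (m : ℕ) :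
    HasSum (fun n => PowerSeries.coeff n s * PowerSeries.coeff m (f * tay A β (X ^ n)))
      (PowerSeries.coeff m (f * Tay β s)) := by
  simp only [PowerSeries.coeff_mul, mul_sum, coeff_T]
  refine hasSum_sum fun p _ => ?_
  have h1 : Summable fun k => ((k.choose p.2 : K) * β ^ (k - p.2)) • PowerSeries.coeff k s := by
    refine Summable.of_norm_bounded hs fun k => ?_
    rw [norm_smul, norm_mul, norm_pow]
    exact mul_le_of_le_one_left (norm_nonneg _) (mul_le_one₀
      (IsUltrametricDist.norm_natCast_le_one K _) (by positivity)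
      (pow_le_one₀ (norm_nonneg _) hβ))
  have h2 := h1.hasSum.mul_left (PowerSeries.coeff p.1 f)
  rw [Tay, PowerSeries.coeff_mk]
  refine h2.congr_fun fun k => ?_
  rw [Algebra.smul_def]
  ring

lemma tay_shift {β : K} (hβ : ‖β‖ ≤ 1) {s : PowerSeries A}
    (hs : Summable fun n => ‖PowerSeries.coeff n s‖) (h0 : PowerSeries.coeff 0 s = 0) :
    Tay β s = tay A β X * Tay β (PowerSeries.mk fun n => PowerSeries.coeff (n + 1) s) := by
  ext m
  have h1 := tay_sum hβ hs 1 m
  have h2 := tay_sum hβ (s := PowerSeries.mk fun n => PowerSeries.coeff (n + 1) s)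
    (by simpa using (summable_nat_add_iff 1).2 hs) (tay A β X) m
  rw [← hasSum_nat_add_iff' 1] at h1
  simp only [one_mul, range_one, sum_singleton, h0, zero_mul, sub_zero] at h1
  refine h1.unique ?_
  simpa only [PowerSeries.coeff_mk, pow_succ', map_mul] using h2

/-- The pairing of an array with `p (t)` along a row. -/
noncomputable def pr (x : Arr A) (s k : ℤ) : K[X] →ₗ[K] A :=
  lsum fun n => LinearMap.toSpanSingleton K A (x (s - n, k))

lemma pr_apply (x : Arr A) (s k : ℤ) (p : K[X]) :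
    pr x s k p = ∑ n ∈ p.support, p.coeff n • x (s - n, k) := rfl

lemma pr_mon (x : Arr A) (s k : ℤ) (n : ℕ) (a : K) :
    pr x s k (monomial n a) = a • x (s - n, k) := by
  rw [pr, lsum_apply, sum_monomial_index _ _ (by simp)]
  rfl

lemma pr_X_pow (x : Arr A) (s k : ℤ) (a : ℕ) (p : K[X]) :
    pr x s k (X ^ a * p) = pr x (s - a) k p := by
  induction p using Polynomial.induction_on' with
  | add p q hp hq => simp only [mul_add, map_add, hp, hq]
  | monomial n b =>
    rw [X_pow_mul, monomial_mul_X_pow, pr_mon, pr_mon]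
    congr 3
    push_cast
    ring

lemma pr_C (x : Arr A) (s k : ℤ) (a : K) (p : K[X]) : pr x s k (C a * p) = a • pr x s k p := by
  rw [← smul_eq_C_mul, map_smul]

lemma Zm_sum {h : PowerSeries K[X]} {x : Arr A} {u : ℤ × ℤ}
    (hs : Summable fun v => Zm A h v * x (u - v)) :
    HasSum (fun i : ℕ => pr x u.1 (u.2 + i) (PowerSeries.coeff i h)) (conv (Zm A h) x u) := by
  have hi : Function.Injective fun p : ℕ × ℕ => (((p.2 : ℤ), -(p.1 : ℤ)) : ℤ × ℤ) := by
    intro p q e
    simp only [Prod.mk.injEq] at e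
    exact Prod.ext (by omega) (by omega)
  have h1 := (hi.hasSum_iff (f := fun v => Zm A h v * x (u - v)) fun v hv => by
    rw [Zm, if_neg, zero_mul]
    exact fun c => hv ⟨((-v.2).toNat, v.1.toNat), Prod.ext (by simp only; omega)
      (by simp only; omega)⟩).2 hs.hasSum
  refine h1.prod_fiberwise fun i => ?_
  rw [pr_apply]
  have e : ∀ n : ℕ, Zm A h ((n : ℤ), -(i : ℤ)) * x (u - ((n : ℤ), -(i : ℤ))) =
      (PowerSeries.coeff i h).coeff n • x (u.1 - n, u.2 + i) := fun n => by
    rw [Zm, if_pos ⟨by simp, by simp⟩, Algebra.smul_def]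
    simp [Prod.sub_def]
  simp only [Function.comp_def, e]
  exact hasSum_sum_of_ne_finset_zero fun n hn => by rw [notMem_support_iff.1 hn, zero_smul]

lemma Xp_conv (h : PowerSeries K) {x : Arr A} (hx : ∀ u : ℤ × ℤ, u.2 < 1 → x u = 0) (u : ℤ × ℤ) :
    conv (Xp A h) x u =
      ∑ i ∈ range u.2.toNat, PowerSeries.coeff i h • x (u.1, u.2 - i) := by
  have hi : Function.Injective fun i : ℕ => (((0 : ℤ), (i : ℤ)) : ℤ × ℤ) := by
    intro p q e
    simpa using e
  rw [conv, ← hi.tsum_eq, tsum_eq_sum (s := range u.2.toNat)]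
  · refine sum_congr rfl fun i _ => ?_
    rw [Xp, if_pos ⟨rfl, by simp⟩, Algebra.smul_def]
    simp [Prod.sub_def]
  · intro i hi
    rw [hx _ (by simp only [mem_range, Prod.snd_sub] at hi ⊢; omega), mul_zero]
  · intro v hv
    by_contra c
    refine hv ?_
    simp only
    rw [Xp, if_neg, zero_mul]
    exact fun c' => c ⟨v.2.toNat, Prod.ext c'.1.symm (by simp only; omega)⟩

lemma LG (o : One K) (m : ℕ) : ∑ i ∈ range (m + 1),
    PowerSeries.coeff i o.L * PowerSeries.coeff (m - i) o.G = m * PowerSeries.coeff m o.G := by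
  rw [← Nat.sum_antidiagonal_eq_sum_range_succ
    (fun i j => PowerSeries.coeff i o.L * PowerSeries.coeff j o.G), ← PowerSeries.coeff_mul, o.L_G]
  rcases m with _ | m
  · simp
  · rw [PowerSeries.coeff_succ_X_mul, PowerSeries.coeff_derivative]
    push_cast
    ring

lemma sumI (o : One K) (j : ℕ) : Summable fun i => PowerSeries.coeff i o.L * o.I (j + i) := by
  refine Summable.of_norm_bounded (summable_geometric_two.mul_left (2 * 2 ^ j)) fun i => ?_
  rw [norm_mul]
  refine (mul_le_mul (o.L_le i) (o.I_le _) (norm_nonneg _) (by positivity)).trans (le_of_eq ?_)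
  rw [pow_add, show (1 / 2 : ℝ) = 1 / 4 * 2 by norm_num, mul_pow]
  ring

lemma sumI_D (o : One K) (j : ℕ) :
    HasSum (fun i => PowerSeries.coeff i o.L * o.I (j + 1 + i)) (-((j + 1 : ℕ) * o.I (j + 1))) := by
  rw [neg_eq_of_add_eq_zero_right (o.I_D (j + 1) (by omega))]
  exact (sumI o _).hasSum

lemma sumI_L (o : One K) : HasSum (fun i => PowerSeries.coeff i o.L * o.I i) 1 := by
  rw [← o.I_L]
  simpa using (sumI o 0).hasSum

/-- The inverse of the unit part of `λ`. -/
noncomputable def mi (z : Z) : PowerSeries A := PowerSeries.map (algebraMap K A)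
  (((taylor (d.β z) (d.lamz z) : K[X]) : PowerSeries K)⁻¹)

lemma mi_mul (z : Z) : mi d z * tay A (d.β z) (d.lamz z) = 1 := by
  rw [mi, ← tay_eq, ← map_mul, PowerSeries.inv_mul_cancel, map_one]
  have := d.lamz_eval z
  rw [← PowerSeries.coeff_zero_eq_constantCoeff_apply, coeff_coe, taylor_coeff_zero]
  intro h
  rw [h, norm_zero] at this
  exact zero_ne_one this

lemma tay_lam (z : Z) : tay A (d.β z) (d.lam (d.jz z)) =
    PowerSeries.X ^ d.c z * tay A (d.β z) (d.lamz z) := by
  rw [d.lam_eq, map_mul, map_pow, tay_sub]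

/-- The residue of `κ λ ^ (-l) p dt`. -/
noncomputable def RR (z : Z) (l : ℕ) : K[X] →ₗ[K] A :=
  ((PowerSeries.coeff (d.c z * l - 1)).restrictScalars K).comp
    ((LinearMap.mulLeft K (d.κ z * mi d z ^ l)).comp (tay A (d.β z)).toLinearMap)

lemma RR_apply (z : Z) (l : ℕ) (p : K[X]) : RR d z l p =
    PowerSeries.coeff (d.c z * l - 1) (d.κ z * mi d z ^ l * tay A (d.β z) p) := rfl

lemma res_eq (z : Z) (l a : ℕ) : d.res z l a = RR d z l (X ^ (a - 1)) := by
  rw [RR_apply, Dat.res, map_pow, tay_X, mi]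
  simp [mul_assoc]

lemma RR_dvd (z : Z) {l m : ℕ} (h : d.c z * l - 1 < m) {p : K[X]} {f : PowerSeries A}
    (hp : tay A (d.β z) p = PowerSeries.X ^ m * f) : RR d z l p = 0 := by
  rw [RR_apply, hp, mul_left_comm, PowerSeries.coeff_X_pow_mul', if_neg (by omega)]

lemma RR_lam_le (z : Z) {l i : ℕ} (h : l < i) (p : K[X]) :
    RR d z (l + 1) (d.lam (d.jz z) ^ i * p) = 0 := by
  have := d.c_pos z
  have := Nat.mul_le_mul_left (d.c z) (show l + 1 ≤ i from h)
  refine RR_dvd d z (m := d.c z * i) (by rw [mul_add] at *; omega)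
    (f := tay A (d.β z) (d.lamz z) ^ i * tay A (d.β z) p) ?_
  rw [map_mul, map_pow, tay_lam, mul_pow, pow_mul, mul_assoc]

lemma RR_lam (z : Z) (i l : ℕ) (p : K[X]) :
    RR d z (i + l + 1) (d.lam (d.jz z) ^ i * p) = RR d z (l + 1) p := by
  have := d.c_pos z
  have e : d.κ z * mi d z ^ (i + l + 1) * tay A (d.β z) (d.lam (d.jz z) ^ i * p) =
      PowerSeries.X ^ (d.c z * i) * (d.κ z * mi d z ^ (l + 1) * tay A (d.β z) p *
        (mi d z * tay A (d.β z) (d.lamz z)) ^ i) := by
    rw [map_mul, map_pow, tay_lam]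
    ring
  rw [RR_apply, RR_apply, e, mi_mul, one_pow, mul_one,
    show d.c z * (i + l + 1) - 1 = d.c z * (l + 1) - 1 + d.c z * i by
      simp only [mul_add, mul_one]; omega, PowerSeries.coeff_X_pow_mul]

lemma ρ_eq (z : Z) (a : ℕ) (k : ℤ) : d.ρ z (-1 - a, k) = ∑ l ∈ range k.toNat,
    (PowerSeries.coeff (k.toNat - 1 - l) d.o.G * d.o.I (l + 1)) • RR d z (l + 1) (X ^ a) := by
  rw [Dat.ρ, if_pos (by simp only; omega), ← Ico_add_one_right_eq_Icc, sum_Ico_eq_sum_range,
    Nat.add_sub_cancel]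
  refine sum_congr rfl fun l _ => ?_
  rw [res_eq, show (-(-1 - (a : ℤ), k).1).toNat - 1 = a by simp only; omega, Nat.sub_sub,
    add_comm 1 l]

lemma ρ_zero (z : Z) {u : ℤ × ℤ} (h : -1 < u.1 ∨ u.2 < 1) : d.ρ z u = 0 := by
  rw [Dat.ρ]
  split_ifs with c
  · rw [Icc_eq_empty (by omega), sum_empty]
  · rfl

lemma pr_ρ (z : Z) (k : ℤ) (p : K[X]) : pr (d.ρ z) (-1) k p = ∑ l ∈ range k.toNat,
    (PowerSeries.coeff (k.toNat - 1 - l) d.o.G * d.o.I (l + 1)) • RR d z (l + 1) p := by
  induction p using Polynomial.induction_on' with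
  | add p q hp hq => simp only [map_add, hp, hq, smul_add, sum_add_distrib]
  | monomial n b =>
    rw [pr_mon, ρ_eq, smul_sum, ← smul_X_eq_monomial]
    exact sum_congr rfl fun l _ => by rw [map_smul, smul_comm]

lemma pr_lam (z : Z) (k : ℤ) (i : ℕ) (p : K[X]) :
    pr (d.ρ z) (-1) (k + i) (d.lam (d.jz z) ^ i * p) = ∑ l ∈ range k.toNat,
      (PowerSeries.coeff (k.toNat - 1 - l) d.o.G * d.o.I (l + 1 + i)) • RR d z (l + 1) p := by
  rw [pr_ρ]
  rcases le_total k 0 with h | h
  · rw [Int.toNat_of_nonpos h, range_zero, sum_empty]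
    refine sum_eq_zero fun l hl => ?_
    rw [RR_lam_le d z (by rw [mem_range] at hl; omega), smul_zero]
  · rw [show (k + i).toNat = i + k.toNat by omega, sum_range_add, sum_eq_zero fun l hl => by
      rw [RR_lam_le d z (mem_range.1 hl), smul_zero], zero_add]
    refine sum_congr rfl fun l _ => ?_
    rw [RR_lam, show i + k.toNat - 1 - (i + l) = k.toNat - 1 - l by omega,
      show i + l + 1 = l + 1 + i by ring]

lemma LX_split (j : J) : Dec d.p (Xp A d.o.L) ∧ Dec d.p (Zm A (zs d.o.L (d.lam j))) := by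
  have h : ∀ u : ℤ × ℤ, Xp A d.o.L u = 0 ∨ Zm A (zs d.o.L (d.lam j)) u = 0 := fun u => by
    rw [Xp, Zm]
    split_ifs with c1 c2
    · left
      rw [show u.2.toNat = 0 by omega, d.o.L_zero, map_zero]
    all_goals simp
  constructor <;> refine (d.LX_dec j).of_le fun u => ?_ <;> rcases h u with h | h <;>
    simp [Dat.LX, h]

lemma LT_split (j : J) : Dec d.p (Tm (d.Lt j)) ∧ Dec d.p (Zm A (PowerSeries.mk fun k =>
    C (PowerSeries.coeff k d.o.L) * (X * derivative (d.lam j) * d.lam j ^ (k - 1)))) := by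
  have h : ∀ u : ℤ × ℤ, Tm (d.Lt j) u = 0 ∨ Zm A (PowerSeries.mk fun k =>
      C (PowerSeries.coeff k d.o.L) * (X * derivative (d.lam j) * d.lam j ^ (k - 1))) u = 0 :=
    fun u => by
    rw [Tm, Zm]
    split_ifs with c1 c2
    · right
      rw [show (-u.2).toNat = 0 by omega, PowerSeries.coeff_mk, d.o.L_zero]
      simp
    all_goals simp
  constructor <;> refine (d.LT_dec j).of_le fun u => ?_ <;> rcases h u with h | h <;>
    simp [Dat.LT, h]

lemma Lt_sum (j : J) : Summable fun n => ‖PowerSeries.coeff n (d.Lt j)‖ := by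
  have he : (0 : ℝ) < d.p.e := by exact_mod_cast d.p.odd.pos
  have h1 : (2 : ℝ) ^ (-(2 / (d.p.e : ℝ))) < 1 :=
    Real.rpow_lt_one_of_one_lt_of_neg one_lt_two (neg_lt_zero.2 (by positivity))
  refine Summable.of_nonneg_of_le (fun _ => norm_nonneg _) (fun n => (d.Lt_le j n).trans ?_)
    ((summable_geometric_of_lt_one (by positivity) h1).mul_left 2)
  rw [← Real.rpow_mul_natCast zero_le_two, sub_eq_add_neg, Real.rpow_add two_pos, Real.rpow_one]
  refine le_of_eq ?_
  congr 2
  ring

lemma κ_der (z : Z) : PowerSeries.derivative A (d.κ z) = Tay (d.β z)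
    (PowerSeries.mk fun n => PowerSeries.coeff (n + 1) (d.Lt (d.jz z))) * d.κ z := by
  refine T_cancel (d.β z) ?_
  rw [← mul_assoc, ← tay_shift (d.β_le z) (Lt_sum d _) (d.Lt_zero _), ← d.κ_D, tay_X]

lemma mi_der (z : Z) : PowerSeries.derivative A (mi d z) =
    -(mi d z ^ 2 * tay A (d.β z) (derivative (d.lamz z))) := by
  have h := congrArg (PowerSeries.derivative A) (mi_mul d z)
  rw [Derivation.leibniz, tay_der, Derivation.map_one_eq_zero, smul_eq_mul, smul_eq_mul] at h
  linear_combination mi d z * h - PowerSeries.derivative A (mi d z) * mi_mul d z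

lemma tay_lam' (z : Z) : tay A (d.β z) (derivative (d.lam (d.jz z))) =
    PowerSeries.X ^ (d.c z - 1) * ((d.c z : PowerSeries A) * tay A (d.β z) (d.lamz z)) +
      PowerSeries.X ^ d.c z * tay A (d.β z) (derivative (d.lamz z)) := by
  rw [← tay_der, tay_lam, Derivation.leibniz, tay_der, PowerSeries.derivative_pow]
  simp only [smul_eq_mul, PowerSeries.derivative_X]
  ring

lemma RR_lam' (z : Z) (j a : ℕ) : RR d z (j + 1) (X ^ a * derivative (d.lam (d.jz z))) =
    d.c z * PowerSeries.coeff (d.c z * j) (d.κ z * mi d z ^ j * tay A (d.β z) (X ^ a)) +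
      if j = 0 then 0 else PowerSeries.coeff (d.c z * j - 1) (d.κ z * mi d z ^ (j + 1) *
        tay A (d.β z) (X ^ a) * tay A (d.β z) (derivative (d.lamz z))) := by
  have hc := d.c_pos z
  have e : d.κ z * mi d z ^ (j + 1) * tay A (d.β z) (X ^ a * derivative (d.lam (d.jz z))) =
      PowerSeries.X ^ (d.c z - 1) * (PowerSeries.C (d.c z : A) *
        (d.κ z * mi d z ^ j * tay A (d.β z) (X ^ a))) + PowerSeries.X ^ d.c z *
        (d.κ z * mi d z ^ (j + 1) * tay A (d.β z) (X ^ a) *
          tay A (d.β z) (derivative (d.lamz z))) := by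
    rw [map_mul, tay_lam', map_natCast]
    linear_combination (PowerSeries.X ^ (d.c z - 1) * (d.c z : PowerSeries A) * d.κ z * mi d z ^ j *
      tay A (d.β z) (X ^ a)) * mi_mul d z
  rw [RR_apply, e, map_add]
  congr 1
  · rw [show d.c z * (j + 1) - 1 = d.c z * j + (d.c z - 1) by rw [mul_add]; omega,
      PowerSeries.coeff_X_pow_mul, PowerSeries.coeff_C_mul]
  · split_ifs with h
    · rw [PowerSeries.coeff_X_pow_mul', if_neg (by subst h; omega)]
    · have := Nat.mul_pos hc (Nat.pos_of_ne_zero h)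
      rw [show d.c z * (j + 1) - 1 = d.c z * j - 1 + d.c z by rw [mul_add]; omega,
        PowerSeries.coeff_X_pow_mul]

/-- The residue of an exact form vanishes. -/
lemma res_d (z : Z) (l a : ℕ) : (a : A) * RR d z (l + 1) (X ^ (a - 1)) +
    PowerSeries.coeff (d.c z * (l + 1) - 1) (d.κ z * mi d z ^ (l + 1) * tay A (d.β z) (X ^ a) *
      Tay (d.β z) (PowerSeries.mk fun n => PowerSeries.coeff (n + 1) (d.Lt (d.jz z)))) =
    (l + 1 : ℕ) * RR d z (l + 1 + 1) (X ^ a * derivative (d.lam (d.jz z))) := by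
  have hc : d.c z * (l + 1) - 1 + 1 = d.c z * (l + 1) :=
    Nat.sub_add_cancel (Nat.mul_pos (d.c_pos z) l.succ_pos)
  have e : PowerSeries.derivative A (d.κ z * mi d z ^ (l + 1) * tay A (d.β z) (X ^ a)) =
      PowerSeries.C (a : A) * (d.κ z * mi d z ^ (l + 1) * tay A (d.β z) (X ^ (a - 1))) +
      d.κ z * mi d z ^ (l + 1) * tay A (d.β z) (X ^ a) * Tay (d.β z)
        (PowerSeries.mk fun n => PowerSeries.coeff (n + 1) (d.Lt (d.jz z))) -
      PowerSeries.C ((l + 1 : ℕ) : A) * (d.κ z * mi d z ^ (l + 1 + 1) * tay A (d.β z) (X ^ a) *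
        tay A (d.β z) (derivative (d.lamz z))) := by
    rw [Derivation.leibniz, Derivation.leibniz, tay_der, derivative_X_pow, map_mul, tay_C,
      PowerSeries.derivative_pow, mi_der, κ_der]
    simp only [smul_eq_mul, map_natCast, Nat.add_sub_cancel]
    ring
  have h := congrArg (PowerSeries.coeff (d.c z * (l + 1) - 1)) e
  rw [PowerSeries.coeff_derivative, map_sub, map_add, PowerSeries.coeff_C_mul,
    PowerSeries.coeff_C_mul, ← Nat.cast_add_one, hc, Nat.cast_mul] at h
  rw [RR_lam', if_neg l.succ_ne_zero, RR_apply]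
  linear_combination -h

end Ra

end Pool.Agent.Lib.MP_788af2_nt.AG
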