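import Pool.Agent.Lib.MP_788af2_nt.AG.RhoA1
import Pool.Agent.Lib.MP_788af2_nt.AG.RhoA2

/-!
The approximate eigenfunctionals: differential relations.
-/

set_option linter.unusedSectionVars false

namespace Pool.Agent.Lib.MP_788af2_nt.AG

open Polynomial Filter Topology Finset Ra

variable {K A J Z : Type} [NontriviallyNormedField K] [IsUltrametricDist K] [CompleteSpace K]
  [CharZero K] [NormedCommRing A] [NormedAlgebra K A] [IsUltrametricDist A] [CompleteSpace A]
  [NormOneClass A] [Fintype J] [Fintype Z] [DecidableEq J] [DecidableEq Z] (d : Dat K A J Z)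

namespace Ra

lemma lam_root (z : Z) : (X - C (d.β z)) * (d.lam (d.jz z) /ₘ (X - C (d.β z))) = d.lam (d.jz z) := by
  rw [mul_divByMonic_eq_iff_isRoot, d.lam_eq, IsRoot.def]
  simp [(d.c_pos z).ne']

lemma tay_self (z : Z) (i : ℕ) {q : K[X]} (h : (X - C (d.β z)) * q = d.lam (d.jz z) ^ (i + 1)) :
    tay A (d.β z) q =
      PowerSeries.X ^ (d.c z * (i + 1) - 1) * tay A (d.β z) (d.lamz z) ^ (i + 1) := by
  have h1 := congrArg (tay A (d.β z)) h
  rw [map_mul, tay_sub, map_pow, tay_lam, mul_pow, ← pow_mul,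
    ← Nat.sub_add_cancel (Nat.mul_pos (d.c_pos z) i.succ_pos), pow_succ', mul_assoc] at h1
  exact PowerSeries.X_mul_cancel h1

lemma tay_other {z z' : Z} (hz : d.jz z' = d.jz z) (hne : z' ≠ z) (i : ℕ) {q : K[X]}
    (h : (X - C (d.β z')) * q = d.lam (d.jz z) ^ i) :
    ∃ f, tay A (d.β z) q = PowerSeries.X ^ (d.c z * i) * f := by
  have h0 : d.β z - d.β z' ≠ 0 := fun e => by
    have := d.β_sep z z' hne.symm hz.symm
    rw [e, norm_zero] at this
    exact zero_ne_one this
  have h1 := congrArg (tay A (d.β z)) h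
  rw [map_mul, map_pow, tay_lam, mul_pow, ← pow_mul] at h1
  have h2 : PowerSeries.map (algebraMap K A)
      ((taylor (d.β z) (X - C (d.β z')) : K[X]) : PowerSeries K)⁻¹ *
        tay A (d.β z) (X - C (d.β z')) = 1 := by
    rw [← tay_eq, ← map_mul, PowerSeries.inv_mul_cancel _ (by
      rw [← PowerSeries.coeff_zero_eq_constantCoeff_apply, coeff_coe, taylor_coeff_zero]
      simpa using h0), map_one]
  exact ⟨_, by rw [← one_mul (tay A (d.β z) q), ← h2, mul_assoc, h1, mul_left_comm]⟩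

lemma RR_self (z : Z) (i : ℕ) {q : K[X]} (h : (X - C (d.β z)) * q = d.lam (d.jz z) ^ (i + 1)) :
    RR d z (i + 1) q = PowerSeries.coeff 0 (d.κ z) := by
  have := PowerSeries.coeff_X_pow_mul (d.κ z) (d.c z * (i + 1) - 1) 0
  rw [zero_add] at this
  rw [RR_apply, tay_self d z i h, mul_left_comm, mul_assoc, ← mul_pow, mi_mul, one_pow, mul_one,
    this]

lemma Zm_X (z : Z) (u : ℤ × ℤ) : HasSum (fun i : ℕ => PowerSeries.coeff i d.o.L •
    pr (d.ρ z) u.1 (u.2 + i) (d.lam (d.jz z) ^ i))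
      (conv (Zm A (zs d.o.L (d.lam (d.jz z)))) (d.ρ z) u) := by
  simpa only [zs, PowerSeries.coeff_mk, pr_C] using
    Zm_sum ((LX_split d (d.jz z)).2.summable (d.ρ_mod z).1 u)

lemma geo_pr (x : Arr A) (k : ℤ) (b : K) (q : K[X]) (N : ℕ) :
    ∑ n ∈ range N, b ^ n • pr x n k ((X - C b) * q) =
      pr x (-1) k q - b ^ N • pr x (N - 1) k q := by
  induction N with
  | zero => simp
  | succ N ih =>
    have := pr_X_pow x N k 1 q
    rw [pow_one] at this
    rw [sum_range_succ, ih, sub_mul, map_sub, this, pr_C, smul_sub, smul_smul, ← pow_succ]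
    simp

lemma pr_big (z : Z) (k : ℤ) {s : ℤ} {p : K[X]} (h : (p.natDegree : ℤ) ≤ s) :
    pr (d.ρ z) s k p = 0 := by
  rw [pr_apply]
  refine sum_eq_zero fun n hn => ?_
  have := le_natDegree_of_mem_supp n hn
  rw [d.ρ_supp z _ (Or.inl (by simp only; omega)), smul_zero]

lemma pr_root (z z' : Z) (hz : d.jz z' = d.jz z) (k : ℤ) (hk : k ≤ 0) (i : ℕ) :
    HasSum (fun n : ℕ => d.β z' ^ n • pr (d.ρ z) n (k + i) (d.lam (d.jz z) ^ i))
      (if k = 0 ∧ z' = z then d.o.I i • PowerSeries.coeff 0 (d.κ z) else 0) := by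
  rcases i with _ | i
  · simp only [pow_zero, d.o.I_zero, zero_smul, ite_self]
    refine hasSum_zero.congr_fun fun n => ?_
    rw [pr_big d z _ (by simp), smul_zero]
  obtain ⟨q, hq⟩ : ∃ q, (X - C (d.β z')) * q = d.lam (d.jz z) ^ (i + 1) :=
    ⟨_, by rw [← hz, pow_succ', ← mul_assoc, lam_root]⟩
  have h1 := geo_pr (d.ρ z) (k + (i + 1 : ℕ)) (d.β z') q
    ((d.lam (d.jz z) ^ (i + 1)).natDegree + q.natDegree + 1)
  rw [pr_big d z _ (s := _ - 1) (by push_cast; omega), smul_zero, sub_zero, hq] at h1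
  have h2 : pr (d.ρ z) (-1) (k + (i + 1 : ℕ)) q =
      if k = 0 ∧ z' = z then d.o.I (i + 1) • PowerSeries.coeff 0 (d.κ z) else 0 := by
    have hc := d.c_pos z
    have v : ∀ l, l < i ∨ (l = i ∧ z' ≠ z) → RR d z (l + 1) q = 0 := fun l hl => by
      rcases eq_or_ne z' z with rfl | hne
      · have := Nat.mul_le_mul_left (d.c z') (show l + 1 ≤ i by simpa using hl)
        exact RR_dvd d z' (by simp only [mul_add] at *; omega) (tay_self d z' i hq)
      · obtain ⟨f, hf⟩ := tay_other d hz hne _ hq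
        have := Nat.mul_le_mul_left (d.c z) (show l ≤ i by omega)
        exact RR_dvd d z (by simp only [mul_add] at *; omega) hf
    rw [pr_ρ]
    split_ifs with c
    · obtain ⟨rfl, rfl⟩ := c
      rw [zero_add, Int.toNat_natCast, sum_range_succ,
        sum_eq_zero fun l hl => by rw [v l (Or.inl (mem_range.1 hl)), smul_zero], zero_add,
        RR_self d z' i hq, Nat.add_sub_cancel, Nat.sub_self, d.o.G_zero, one_mul]
    · refine sum_eq_zero fun l hl => ?_
      rw [mem_range] at hl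
      rw [v l ((lt_or_ge l i).imp_right fun h => ⟨by omega, fun e => c ⟨by omega, e⟩⟩), smul_zero]
  rw [← h2, ← h1]
  refine hasSum_sum_of_ne_finset_zero fun n hn => ?_
  rw [mem_range, not_lt] at hn
  rw [pr_big d z _ (by omega), smul_zero]

end Ra

namespace Dat

/-- The pairing with `t h (t) / x`, `h` a polynomial. -/
lemma ρ_poly (z : Z) (h : A[X]) : ∑ n ∈ h.support, d.ρ z (-(n + 1 : ℕ), 1) * h.coeff n =
    d.o.I 1 • PowerSeries.coeff (d.c z - 1) (d.κ z * PowerSeries.map (algebraMap K A)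
      (((taylor (d.β z) (d.lamz z) : K[X]) : PowerSeries K)⁻¹) *
        ((taylor (algebraMap K A (d.β z)) h : A[X]) : PowerSeries A)) := by
  have e : ((taylor (algebraMap K A (d.β z)) h : A[X]) : PowerSeries A) =
      ∑ n ∈ h.support, PowerSeries.C (h.coeff n) * tay A (d.β z) (X ^ n) := by
    conv_lhs => rw [h.as_sum_support, map_sum, ← coeToPowerSeries.ringHom_apply, map_sum]
    refine sum_congr rfl fun n _ => ?_
    rw [taylor_monomial, map_pow (tay A _), tay_X]
    simp [add_comm]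
  rw [e, mul_sum, map_sum, smul_sum]
  refine sum_congr rfl fun n _ => ?_
  rw [show (-(n + 1 : ℕ) : ℤ) = -1 - n by omega, ρ_eq, mul_left_comm, PowerSeries.coeff_C_mul]
  simp [RR_apply, d.o.G_zero, mi, mul_comm]

theorem dot_ρ_w (z z' : Z) : dot (d.ρr z) (d.wc z') = if z = z' then 1 else 0 := by
  rw [ρr, wc, dot_row_col fun u => Or.inl fun h => d.ρ_supp z u (Or.inl h)]
  split_ifs with hj hz hz
  rotate_left 2
  · exact absurd (congrArg _ hz) hj
  · rfl
  all_goals
    have hi : Function.Injective fun n : ℕ => (((-1 - n : ℤ), (1 : ℤ)) : ℤ × ℤ) := by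
      intro p q e
      simp only [Prod.mk.injEq] at e
      omega
    have e : conv (d.ρ z) (d.wv z') 0 = (d.o.I 1)⁻¹ • (pr (d.ρ z) (-1) 1
        (d.lam (d.jz z') /ₘ (X - C (d.β z'))) * Ring.inverse (PowerSeries.coeff 0 (d.κ z'))) := by
      rw [conv, ← hi.tsum_eq, pr_apply, sum_mul, smul_sum, tsum_eq_sum]
      · refine sum_congr rfl fun n _ => ?_
        rw [wv, if_pos ⟨by simp only [Prod.fst_sub, Prod.fst_zero]; omega, by simp⟩,
          show ((0 - ((-1 - n : ℤ), (1 : ℤ)) : ℤ × ℤ).1 - 1).toNat = n by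
            simp only [Prod.fst_sub, Prod.fst_zero]; omega, mul_smul_comm, smul_mul_assoc, smul_smul]
      · intro n hn
        rw [wv, if_pos ⟨by simp only [Prod.fst_sub, Prod.fst_zero]; omega, by simp⟩,
          show ((0 - ((-1 - n : ℤ), (1 : ℤ)) : ℤ × ℤ).1 - 1).toNat = n by
            simp only [Prod.fst_sub, Prod.fst_zero]; omega, notMem_support_iff.1 hn]
        simp
      · intro v hv
        by_contra c
        refine hv ?_
        simp only
        rw [wv, if_neg, mul_zero]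
        simp only [Prod.fst_sub, Prod.fst_zero, Prod.snd_sub, Prod.snd_zero]
        exact fun c' => c ⟨(-1 - v.1).toNat, Prod.ext (by simp only; omega) (by simp only; omega)⟩
    rw [e, pr_ρ]
    simp only [Int.toNat_one, range_one, sum_singleton]
  · subst hz
    have h1 : d.o.I 1 ≠ 0 := fun h => by simpa [h] using d.I_one_norm
    have h2 : IsUnit (PowerSeries.coeff 0 (d.κ z)) := by
      have := (Units.oneSub (1 - PowerSeries.coeff 0 (d.κ z)) (by
        rw [norm_sub_rev]; linarith [d.κ_zero z])).isUnit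
      simpa using this
    rw [RR_self d z 0 (by rw [lam_root, zero_add, pow_one]), smul_mul_assoc,
      Ring.mul_inverse_cancel _ h2, smul_smul]
    simp [d.o.G_zero, h1]
  · obtain ⟨f, hf⟩ := tay_other d hj.symm (Ne.symm hz) 1 (by rw [lam_root, pow_one, hj])
    have := d.c_pos z
    rw [RR_dvd d z (by omega) hf]
    simp

theorem ρ_Dx (z : Z) (u : ℤ × ℤ) (h : u.1 ≤ -1) :
    (dx (d.ρ z) - conv (d.LX (d.jz z)) (d.ρ z)) u = 0 := by
  obtain ⟨s, k⟩ := u
  obtain ⟨a, rfl⟩ : ∃ a : ℕ, s = -1 - a := ⟨(-1 - s).toNat, by simp only at h; omega⟩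
  have h1 := Zm_X d z (-1 - a, k)
  simp only [← pr_X_pow, mul_comm (X ^ a : K[X]), pr_lam, smul_sum, smul_smul] at h1
  have h2 := h1.unique (hasSum_sum fun l _ => ((((sumI_D d.o l).mul_left
    (PowerSeries.coeff (k.toNat - 1 - l) d.o.G)).smul_const (RR d z (l + 1) (X ^ a))).congr_fun
      fun i => by rw [mul_left_comm]))
  rw [LX, Pi.sub_apply, sub_conv (LX_split d (d.jz z)).1 (LX_split d (d.jz z)).2 (d.ρ_mod z).1,
    Pi.sub_apply, h2, Xp_conv _ fun u hu => d.ρ_supp z u (Or.inr hu), dx]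
  simp only [ρ_eq, smul_sum, smul_smul]
  rw [sum_comm' (t' := range k.toNat) (s' := fun l => range (k.toNat - 1 - l + 1))
    (fun i l => by simp only [mem_range]; omega), ← sum_sub_distrib, ← sum_sub_distrib]
  refine sum_eq_zero fun l hl => ?_
  rw [mem_range] at hl
  obtain ⟨m, hm⟩ : ∃ m : ℕ, k = (m + l + 1 : ℕ) := ⟨k.toNat - 1 - l, by omega⟩
  have e : ∀ i ∈ range (k.toNat - 1 - l + 1), (k - i).toNat - 1 - l = m - i := fun i _ => by omega
  rw [← sum_smul, sum_congr rfl fun i hi => by rw [e i hi, ← mul_assoc], ← sum_mul,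
    show k.toNat - 1 - l = m by omega, LG, ← Int.cast_smul_eq_zsmul K, smul_smul, ← sub_smul,
    ← sub_smul, hm]
  push_cast
  rw [show ∀ x y : K, (m + l + 1) * (x * y) - (m * x * y - x * -((l + 1) * y)) = 0 from
    fun x y => by ring, zero_smul]

theorem ρ_Dt (z : Z) (u : ℤ × ℤ) (h : u.1 ≤ 0) :
    (dt (d.ρ z) - conv (d.LT (d.jz z)) (d.ρ z)) u = -((d.c z : K) • d.evA z u) := by
  obtain ⟨s, k⟩ := u
  obtain ⟨a, rfl⟩ : ∃ a : ℕ, s = -a := ⟨(-s).toNat, by simp only at h; omega⟩
  have h0 : dt (d.ρ z) (-a, k) = ∑ l ∈ range k.toNat, (PowerSeries.coeff (k.toNat - 1 - l) d.o.G *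
      d.o.I (l + 1)) • -((a : A) * RR d z (l + 1) (X ^ (a - 1))) := by
    rcases a with _ | a
    · simp [dt]
    · rw [dt, show (-(a + 1 : ℕ) : ℤ) = -1 - a by omega, ρ_eq, smul_sum]
      refine sum_congr rfl fun l _ => ?_
      rw [smul_comm, zsmul_eq_mul, Nat.add_sub_cancel]
      congr 1
      push_cast
      ring
  have h1 : conv (Tm (d.Lt (d.jz z))) (d.ρ z) (-a, k) = ∑ l ∈ range k.toNat,
      (PowerSeries.coeff (k.toNat - 1 - l) d.o.G * d.o.I (l + 1)) •
        PowerSeries.coeff (d.c z * (l + 1) - 1) (d.κ z * mi d z ^ (l + 1) * tay A (d.β z) (X ^ a) *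
          Tay (d.β z) (PowerSeries.mk fun n => PowerSeries.coeff (n + 1) (d.Lt (d.jz z)))) := by
    rw [Tm_conv_apply]
    refine HasSum.tsum_eq ((hasSum_nat_add_iff' 1).1 ?_)
    simp only [range_one, sum_singleton, d.Lt_zero, zero_mul, sub_zero]
    refine (hasSum_sum fun l _ => (tay_sum (d.β_le z)
      (by simpa using (summable_nat_add_iff 1).2 (Lt_sum d (d.jz z))) _ _).const_smul _).congr_fun
      fun n => ?_
    rw [show (-a - (n + 1 : ℕ) : ℤ) = -1 - (a + n : ℕ) by omega, ρ_eq, mul_sum]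
    refine sum_congr rfl fun l _ => ?_
    rw [mul_smul_comm, PowerSeries.coeff_mk, RR_apply, pow_add (X : K[X]),
      map_mul (tay A _), ← mul_assoc]
  have h2 := (Zm_sum ((LT_split d (d.jz z)).2.summable (d.ρ_mod z).1 (-a, k))).congr_fun
    (g := fun i => ∑ j ∈ range (k + 1).toNat, (PowerSeries.coeff ((k + 1).toNat - 1 - j) d.o.G *
      (PowerSeries.coeff i d.o.L * d.o.I (j + i))) •
        RR d z (j + 1) (X ^ a * derivative (d.lam (d.jz z)))) fun i => by
    rw [PowerSeries.coeff_mk, pr_C]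
    rcases i with _ | i
    · simp [d.o.L_zero]
    · have e1 := pr_X_pow (d.ρ z) (-a) (k + (i + 1 : ℕ)) 1
        (derivative (d.lam (d.jz z)) * d.lam (d.jz z) ^ i)
      have e2 := pr_X_pow (d.ρ z) (-1) (k + 1 + i) a
        (derivative (d.lam (d.jz z)) * d.lam (d.jz z) ^ i)
      rw [← mul_assoc, mul_comm _ (_ ^ i), pr_lam] at e2
      rw [pow_one, ← mul_assoc, show (-a - (1 : ℕ) : ℤ) = -1 - a by omega] at e1
      rw [Nat.add_sub_cancel, e1, show k + (i + 1 : ℕ) = k + 1 + i by omega, ← e2, smul_sum]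
      refine sum_congr rfl fun j _ => ?_
      rw [smul_smul, mul_left_comm, show j + (i + 1) = j + 1 + i by ring]
  rw [LT, Pi.sub_apply, add_conv (LT_split d (d.jz z)).1 (LT_split d (d.jz z)).2 (d.ρ_mod z).1,
    Pi.add_apply, h0, h1, evA]
  rcases lt_or_ge k 0 with c | c
  · rw [show (k + 1).toNat = 0 by omega] at h2
    rw [h2.unique hasSum_zero, show k.toNat = 0 by omega, if_neg (by simp only; omega)]
    simp
  rw [show (k + 1).toNat = k.toNat + 1 by omega] at h2
  simp only [sum_range_succ'] at h2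
  rw [h2.unique ((hasSum_sum fun l _ => ((sumI_D d.o l).mul_left _).smul_const _).add
    ((((sumI_L d.o).mul_left _).smul_const _).congr_fun fun i => by rw [zero_add i])),
    if_pos ⟨by simp, c⟩, ← add_assoc, ← sum_add_distrib, ← sub_sub, ← sum_sub_distrib,
    sum_eq_zero, zero_sub, RR_lam', if_pos rfl]
  · simp [Algebra.smul_def, tay_X]
    ring
  · intro l _
    have := res_d d z l a
    rw [show k.toNat + 1 - 1 - (l + 1) = k.toNat - 1 - l by omega]
    simp only [Algebra.smul_def, map_mul (algebraMap K A), map_neg, map_natCast]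
    linear_combination (-(algebraMap K A (PowerSeries.coeff (k.toNat - 1 - l) d.o.G) *
      algebraMap K A (d.o.I (l + 1)))) * this

theorem dot_ρ_y {η : J → Arr A} (hη : ∀ j, Dec d.p (η j)) (z : Z) (j : J) :
    dot (d.ρr z) (d.yc η j) = (d.c z : K) • d.ry η z j := by
  rw [ρr, yc, dot_row_col fun u => Or.inl fun h => d.ρ_supp z u (Or.inl h), ry]
  by_cases hj : j = d.jz z
  swap
  · rw [if_neg hj, if_neg (Ne.symm hj), smul_zero]
  subst hj
  have hm := (d.ρ_mod z).1
  have hL := d.LT_dec (d.jz z)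
  have h1 := congrFun (dt_conv (hη (d.jz z)) hm) 0
  have h2 := congrFun (conv_sub (hη (d.jz z)) hm.dt (hL.conv_mod hm)) 0
  rw [dt, Prod.fst_zero, zero_smul, Pi.add_apply] at h1
  rw [if_pos rfl, if_pos rfl, conv_comm, yv, add_conv (hη _).dt (hL.conv (hη _)) hm,
    conv_assoc hL (hη _) hm, conv_left_comm hL (hη _) hm, conv_comm (d.evA z), Pi.add_apply]
  rw [Pi.sub_apply] at h2
  have h3 : conv (η (d.jz z)) (dt (d.ρ z) - conv (d.LT (d.jz z)) (d.ρ z)) 0 =
      -((d.c z : K) • conv (η (d.jz z)) (d.evA z) 0) := by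
    rw [conv, conv, ← tsum_const_smul'', ← tsum_neg]
    refine tsum_congr fun v => ?_
    rcases lt_or_ge v.1 0 with c | c
    · simp [(hη _).1 v c]
    · rw [ρ_Dt d z _ (by simp only [Prod.fst_sub, Prod.fst_zero]; omega), mul_neg, mul_smul_comm]
  linear_combination -h1 + h2 - h3

/-- The values at the roots of the non-negative part. -/
theorem ρ_Px (z z' : Z) (hz : d.jz z' = d.jz z) (k : ℤ) (hk : k ≤ 0) :
    ∑' n : ℕ, d.β z' ^ n • (dx (d.ρ z) - conv (d.LX (d.jz z)) (d.ρ z)) (n, k) =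
      if k = 0 ∧ z' = z then PowerSeries.coeff 0 (d.κ z) else 0 := by
  have hs : Summable fun p : ℕ × ℕ => d.β z' ^ p.1 • PowerSeries.coeff p.2 d.o.L •
      pr (d.ρ z) p.1 (k + p.2) (d.lam (d.jz z) ^ p.2) := by
    refine NonarchimedeanAddGroup.summable_of_tendsto_cofinite_zero ?_
    rw [NormedAddGroup.tendsto_nhds_zero]
    intro ε hε
    obtain ⟨N, hN⟩ := exists_pow_lt_of_lt_one (half_pos hε) (by norm_num : (1 / 2 : ℝ) < 1)
    refine (range (2 * d.p.m * N) ×ˢ range N).finite_toSet.subset fun p hp => ?_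
    by_contra c
    refine hp ?_
    simp only [coe_product, coe_range, Set.mem_prod, Set.mem_Iio, not_and_or, not_lt] at c
    rcases lt_or_ge p.2 N with c1 | c1
    · have := Nat.mul_le_mul_left (2 * d.p.m) c1.le
      rw [Set.mem_ofPred_eq, pr_big d z _ (by
        rw [natDegree_pow, d.lam_deg, mul_comm]; omega), smul_zero, smul_zero, norm_zero]
      exact hε
    · have b1 : ‖pr (d.ρ z) p.1 (k + p.2) (d.lam (d.jz z) ^ p.2)‖ ≤ 2 ^ p.2 := by
        rw [pr_apply]
        refine IsUltrametricDist.norm_sum_le_of_forall_le_of_nonneg (by positivity) fun n _ => ?_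
        rw [norm_smul, ← zpow_natCast]
        exact (mul_le_of_le_one_left (norm_nonneg _) (d.lam_le _ _ _)).trans ((d.ρ_le z _).trans
          (zpow_le_zpow_right₀ one_le_two (by simp only; omega)))
      have b2 := mul_le_mul (d.o.L_le p.2) b1 (norm_nonneg _) (by positivity)
      have b3 := pow_le_pow_of_le_one (by norm_num : (0 : ℝ) ≤ 1 / 2) (by norm_num) c1
      rw [mul_assoc, ← mul_pow, show (1 / 4 * 2 : ℝ) = 1 / 2 by norm_num] at b2
      rw [Set.mem_ofPred_eq, norm_smul, norm_smul, norm_pow]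
      refine (mul_le_of_le_one_left (by positivity)
        (pow_le_one₀ (norm_nonneg _) (d.β_le z'))).trans_lt ?_
      linarith
  have h1 := hs.hasSum.prod_fiberwise fun n => (Zm_X d z (n, k)).const_smul (d.β z' ^ n)
  have h2 := ((Equiv.prodComm ℕ ℕ).hasSum_iff.2 hs.hasSum).prod_fiberwise fun i =>
    ((pr_root d z z' hz k hk i).const_smul (PowerSeries.coeff i d.o.L)).congr_fun fun n =>
      smul_comm _ _ _
  have h3 : ∀ n : ℕ, (dx (d.ρ z) - conv (d.LX (d.jz z)) (d.ρ z)) (n, k) =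
      conv (Zm A (zs d.o.L (d.lam (d.jz z)))) (d.ρ z) (n, k) := fun n => by
    rw [LX, Pi.sub_apply, sub_conv (LX_split d (d.jz z)).1 (LX_split d (d.jz z)).2 (d.ρ_mod z).1,
      Pi.sub_apply, Xp_conv _ fun u hu => d.ρ_supp z u (Or.inr hu), dx,
      d.ρ_supp z _ (Or.inr (by simp only; omega)), show ((n : ℤ), k).2.toNat = 0 by
        simp only; omega]
    simp
  simp only [h3]
  rw [h1.tsum_eq]
  refine h2.unique ?_
  split_ifs
  · simpa only [smul_smul, one_smul] using (sumI_L d.o).smul_const (PowerSeries.coeff 0 (d.κ z))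
  · simpa only [smul_zero] using hasSum_zero

end Dat

end Pool.Agent.Lib.MP_788af2_nt.AG
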