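import Pool.Agent.Lib.MP_788af2_nt.AG.TwoB

/-!
The approximate eigenfunctionals: bounds.
-/

set_option linter.unusedSectionVars false

namespace Pool.Agent.Lib.MP_788af2_nt.AG

open Polynomial Filter Topology

/-- The power series with integral coefficients. -/
def raS (R : Type) [NormedCommRing R] [IsUltrametricDist R] [NormOneClass R] :
    Subring (PowerSeries R) where
  carrier := {s | ∀ n, ‖PowerSeries.coeff n s‖ ≤ 1}
  mul_mem' := fun {a b} ha hb n => by
    rw [PowerSeries.coeff_mul]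
    refine IsUltrametricDist.norm_sum_le_of_forall_le_of_nonneg zero_le_one fun x _ => ?_
    exact (norm_mul_le _ _).trans (mul_le_one₀ (ha _) (norm_nonneg _) (hb _))
  one_mem' := fun n => by
    rw [PowerSeries.coeff_one]
    split_ifs <;> simp
  add_mem' := fun {a b} ha hb n => by
    rw [map_add]
    exact (IsUltrametricDist.norm_add_le_max _ _).trans (max_le (ha n) (hb n))
  zero_mem' := fun n => by simp
  neg_mem' := fun {a} ha n => by
    rw [map_neg, norm_neg]
    exact ha n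

section ra

variable {R : Type} [NormedCommRing R] [IsUltrametricDist R] [NormOneClass R]

lemma mem_raS {s : PowerSeries R} : s ∈ raS R ↔ ∀ n, ‖PowerSeries.coeff n s‖ ≤ 1 := Iff.rfl

lemma raS_C {x : R} (h : ‖x‖ ≤ 1) : PowerSeries.C x ∈ raS R := fun n => by
  rw [PowerSeries.coeff_C]
  split_ifs
  · exact h
  · simp

lemma raS_X : PowerSeries.X ∈ raS R := fun n => by
  rw [PowerSeries.coeff_X]
  split_ifs <;> simp

lemma raS_coe {p : R[X]} : (p : PowerSeries R) ∈ raS R ↔ ∀ n, ‖p.coeff n‖ ≤ 1 := by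
  simp only [mem_raS, Polynomial.coeff_coe]

lemma raS_taylor {p : R[X]} (hp : ∀ n, ‖p.coeff n‖ ≤ 1) {x : R} (hx : ‖x‖ ≤ 1) :
    ((taylor x p : R[X]) : PowerSeries R) ∈ raS R := by
  rw [taylor_apply, comp_eq_sum_left, Polynomial.sum_def, ← Polynomial.coeToPowerSeries.ringHom_apply,
    map_sum]
  refine Subring.sum_mem _ fun i _ => ?_
  rw [map_mul, map_pow, map_add]
  simp only [Polynomial.coeToPowerSeries.ringHom_apply, Polynomial.coe_C, Polynomial.coe_X]
  exact Subring.mul_mem _ (raS_C (hp i)) (Subring.pow_mem _ (Subring.add_mem _ raS_X (raS_C hx)) i)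

lemma ra_norm_le_one {x : R} (h : ‖x - 1‖ ≤ 1 / 2) : ‖x‖ ≤ 1 := by
  have h1 := IsUltrametricDist.norm_add_le_max (x - 1) 1
  rw [sub_add_cancel, norm_one] at h1
  exact h1.trans (max_le (by linarith) le_rfl)

lemma ra_inverse_le {x : R} (h : ‖x - 1‖ ≤ 1 / 2) : ‖Ring.inverse x‖ ≤ 1 := by
  by_cases hx : IsUnit x
  · have h1 := Ring.inverse_mul_cancel x hx
    have h2 : Ring.inverse x = 1 + -(Ring.inverse x * (x - 1)) := by linear_combination h1
    have h3 := IsUltrametricDist.norm_add_le_max (1 : R) (-(Ring.inverse x * (x - 1)))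
    rw [← h2, norm_one, norm_neg] at h3
    have h4 := (norm_mul_le (Ring.inverse x) (x - 1)).trans
      (mul_le_mul_of_nonneg_left h (norm_nonneg _))
    rcases le_max_iff.1 h3 with h5 | h5
    · exact h5
    · have := norm_nonneg (Ring.inverse x)
      linarith
  · rw [Ring.inverse_non_unit x hx, norm_zero]
    exact zero_le_one

end ra

variable {K A J Z : Type} [NontriviallyNormedField K] [IsUltrametricDist K] [CompleteSpace K]
  [CharZero K] [NormedCommRing A] [NormedAlgebra K A] [IsUltrametricDist A] [CompleteSpace A]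
  [NormOneClass A] [Fintype J] [Fintype Z] [DecidableEq J] [DecidableEq Z] (d : Dat K A J Z)

lemma raS_inv {f : PowerSeries K} (hf : f ∈ raS K) (h0 : ‖PowerSeries.constantCoeff f‖ = 1) :
    f⁻¹ ∈ raS K := by
  intro n
  induction n using Nat.strong_induction_on with
  | _ n ih =>
    rw [PowerSeries.coeff_inv]
    split_ifs
    · rw [norm_inv, h0, inv_one]
    · rw [norm_mul, norm_neg, norm_inv, h0, inv_one, one_mul]
      refine IsUltrametricDist.norm_sum_le_of_forall_le_of_nonneg zero_le_one fun x _ => ?_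
      split_ifs with h
      · rw [norm_mul]
        exact mul_le_one₀ (hf _) (norm_nonneg _) (ih _ h)
      · simp

lemma raS_map {f : PowerSeries K} (hf : f ∈ raS K) :
    PowerSeries.map (algebraMap K A) f ∈ raS A := fun n => by
  rw [PowerSeries.coeff_map, norm_algebraMap']
  exact hf n

namespace Dat

lemma κ_raS (z : Z) : d.κ z ∈ raS A := fun n => by
  rcases Nat.eq_zero_or_pos n with rfl | hn
  · exact ra_norm_le_one (d.κ_zero z)
  · exact (d.κ_le z n hn).trans d.p.ϑ_lt.le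

lemma lamz_inv_raS (z : Z) :
    ((taylor (d.β z) (d.lamz z) : K[X]) : PowerSeries K)⁻¹ ∈ raS K := by
  refine raS_inv (raS_taylor (d.lamz_le z) (d.β_le z)) ?_
  rw [← PowerSeries.coeff_zero_eq_constantCoeff_apply, Polynomial.coeff_coe, taylor_coeff_zero]
  exact d.lamz_eval z

lemma G_le_one (n : ℕ) : ‖PowerSeries.coeff n d.o.G‖ ≤ 1 := by
  rcases Nat.eq_zero_or_pos n with rfl | hn
  · rw [d.o.G_zero, norm_one]
  · exact (d.o.G_le n hn).trans (by norm_num)

lemma I_one_norm : ‖d.o.I 1‖ = 2 := by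
  have h1 := oa_unit d.o.I_one
  rw [add_sub_cancel, norm_mul, d.two] at h1
  linarith

lemma res_le (z : Z) (l a : ℕ) : ‖d.res z l a‖ ≤ 1 :=
  Subring.mul_mem _ (d.κ_raS z) (raS_map (Subring.mul_mem _ (Subring.pow_mem _ (d.lamz_inv_raS z) l)
    (Subring.pow_mem _ (Subring.add_mem _ (raS_C (d.β_le z)) raS_X) _))) _

lemma ρ_supp (z : Z) (u : ℤ × ℤ) (h : -1 < u.1 ∨ u.2 < 1) : d.ρ z u = 0 := by
  unfold ρ
  split_ifs with h1
  · rw [Finset.Icc_eq_empty (by omega), Finset.sum_empty]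
  · rfl

lemma ρ_le_of (z : Z) (u : ℤ × ℤ) {B : ℝ} (hB : 0 ≤ B)
    (h : ∀ l : ℕ, (l : ℤ) ≤ u.2 → ‖d.o.I l‖ ≤ B) : ‖d.ρ z u‖ ≤ B := by
  unfold ρ
  split_ifs with h1
  · refine IsUltrametricDist.norm_sum_le_of_forall_le_of_nonneg hB fun l hl => ?_
    have h2 := Finset.mem_Icc.1 hl
    rw [norm_smul, norm_mul]
    refine (mul_le_of_le_one_right (by positivity) (d.res_le z _ _)).trans ?_
    exact (mul_le_of_le_one_left (norm_nonneg _) (d.G_le_one _)).trans (h l (by omega))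
  · rwa [norm_zero]

lemma ρ_le (z : Z) (u : ℤ × ℤ) : ‖d.ρ z u‖ ≤ 2 ^ u.2 :=
  d.ρ_le_of z u (by positivity) fun l hl => (d.o.I_le l).trans (by
    rw [← zpow_natCast]
    exact zpow_le_zpow_right₀ one_le_two hl)

lemma ρ_le' (z : Z) (u : ℤ × ℤ) : ‖d.ρ z u‖ ≤ 2 ^ ((u.2 : ℝ) / 8 + 4) :=
  d.ρ_le_of z u (by positivity) fun l hl => (d.o.I_le' l).trans (by
    refine Real.rpow_le_rpow_of_exponent_le one_le_two ?_
    have : ((l : ℤ) : ℝ) ≤ u.2 := by exact_mod_cast hl
    push_cast at this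
    linarith)

lemma ρ_mod (z : Z) : Mod d.p (d.ρ z) ∧ Mod d.p (phi (d.ρ z)) := by
  refine mod_of_neg (C := 2 ^ (4 : ℝ)) (fun u h => d.ρ_supp z u (Or.inl (by omega))) fun u => ?_
  by_cases h : -1 < u.1
  · rw [d.ρ_supp z u (Or.inl h), norm_zero]
    positivity
  · refine (d.ρ_le' z u).trans ?_
    rw [← Real.rpow_add two_pos]
    refine Real.rpow_le_rpow_of_exponent_le one_le_two ?_
    have h1 : (0 : ℝ) ≤ ((-u.1 : ℤ) : ℝ) / d.p.e :=
      div_nonneg (by exact_mod_cast (by omega : 0 ≤ -u.1)) (Nat.cast_nonneg _)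
    have h2 : (u.2 : ℝ) ≤ ((|u.2| : ℤ) : ℝ) := by exact_mod_cast le_abs_self u.2
    have h3 : (0 : ℝ) ≤ ((|u.2| : ℤ) : ℝ) := by exact_mod_cast abs_nonneg u.2
    linarith

lemma ρr_le (z : Z) (r : J × Ex 1) : ‖d.ρr z r‖ ≤ 2 * 2 ^ (d.p.Vi r - d.p.V 1 (-1)) := by
  unfold ρr row
  split_ifs with h
  · by_cases hj : r.2.1.2 < 0
    · refine (d.ρ_le z _).trans ?_
      have h1 := d.p.V_neg (a := r.2.1.1) hj
      rw [← Real.rpow_intCast, mul_comm, ← Real.rpow_add_one two_ne_zero]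
      refine Real.rpow_le_rpow_of_exponent_le one_le_two ?_
      rw [Prod.snd_neg, Pm.Vi]
      push_cast
      linarith
    · rw [d.ρ_supp z _ (Or.inr (by rw [Prod.snd_neg]; omega)), norm_zero]
      positivity
  · rw [norm_zero]
    positivity

lemma lam_div (z : Z) :
    d.lam (d.jz z) /ₘ (X - C (d.β z)) = (X - C (d.β z)) ^ (d.c z - 1) * d.lamz z := by
  obtain ⟨c, hc⟩ := Nat.exists_eq_succ_of_ne_zero (d.c_pos z).ne'
  rw [d.lam_eq z, hc, Nat.succ_sub_one, pow_succ', mul_assoc,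
    mul_divByMonic_cancel_left _ (monic_X_sub_C _)]

lemma lam_div_le (z : Z) (n : ℕ) : ‖(d.lam (d.jz z) /ₘ (X - C (d.β z))).coeff n‖ ≤ 1 := by
  refine raS_coe.1 ?_ n
  rw [d.lam_div z, Polynomial.coe_mul, Polynomial.coe_pow, Polynomial.coe_sub, Polynomial.coe_X,
    Polynomial.coe_C]
  exact Subring.mul_mem _ (Subring.pow_mem _ (Subring.sub_mem _ raS_X (raS_C (d.β_le z))) _)
    (raS_coe.2 (d.lamz_le z))

lemma wv_le (z : Z) (u : ℤ × ℤ) : ‖d.wv z u‖ ≤ 1 / 2 := by
  unfold wv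
  split_ifs with h
  · rw [norm_smul, norm_mul, norm_inv, d.I_one_norm, one_div]
    refine (mul_le_of_le_one_right (by positivity) (ra_inverse_le (d.κ_zero z))).trans ?_
    exact mul_le_of_le_one_right (by positivity) (d.lam_div_le z _)
  · rw [norm_zero]
    norm_num

lemma wv_supp (z : Z) (u : ℤ × ℤ) (h : u.1 < 1 ∨ 2 * d.p.m < u.1 ∨ u.2 ≠ -1) : d.wv z u = 0 := by
  unfold wv
  split_ifs with h1
  · have h0 : d.lam (d.jz z) ≠ 0 := fun e => by
      have h2 := d.u_norm (d.jz z)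
      rw [← d.lam_lead, e, leadingCoeff_zero, norm_zero] at h2
      exact zero_ne_one h2
    have h2 := degree_divByMonic_lt (d.lam (d.jz z)) (X - C (d.β z)) h0
      (by rw [degree_X_sub_C]; exact zero_lt_one)
    rw [coeff_eq_zero_of_degree_lt (h2.trans_le (degree_le_natDegree.trans ?_)), mul_zero, zero_smul]
    rw [d.lam_deg]
    exact_mod_cast (by omega : 2 * d.p.m ≤ (u.1 - 1).toNat)
  · rfl

lemma wc_colB (z : Z) : ColB d.p.Vi (d.wc z) := by
  refine tendsto_nhds_of_eventually_eq (eventually_cofinite.2 ?_)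
  have hf : (({d.jz z} : Set J) ×ˢ (Set.Icc (1 : ℤ) (2 * d.p.m) ×ˢ ({-1} : Set ℤ))).Finite :=
    (Set.finite_singleton _).prod ((Set.finite_Icc _ _).prod (Set.finite_singleton _))
  refine (hf.preimage (f := fun r : J × Ex 1 => (r.1, r.2.1)) fun r _ r' _ e => ?_).subset
    fun r hr => ?_
  · exact Prod.ext (Prod.ext_iff.1 e).1 (Subtype.ext (Prod.ext_iff.1 e).2)
  · by_contra hc
    refine hr ?_
    have : d.wc z r = 0 := by
      unfold wc col
      split_ifs with h
      · refine d.wv_supp z _ ?_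
        by_contra h2
        exact hc ⟨h, ⟨by simp only; omega, by simp only; omega⟩, by
          simp only [Set.mem_singleton_iff]; omega⟩
      · rfl
    rw [this, norm_zero, zero_mul]

lemma wc_le (z : Z) (r : J × Ex 1) : ‖d.wc z r‖ ≤ 1 / 2 * 2 ^ (d.p.V 1 (-1) - d.p.Vi r) := by
  unfold wc col
  split_ifs with h
  · by_cases h2 : r.2.1.1 < 1 ∨ 2 * d.p.m < r.2.1.1 ∨ r.2.1.2 ≠ -1
    · rw [d.wv_supp z _ h2, norm_zero]
      positivity
    · have h3 : r.2.1.2 = -1 := by omega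
      have h4 := d.p.le1
      rw [Pm.Vi, h3, d.p.V_blk (a := r.2.1.1) (by unfold Pm.top; omega), sub_self, Real.rpow_zero,
        mul_one]
      exact d.wv_le z _
  · rw [norm_zero]
    positivity

end Dat

end Pool.Agent.Lib.MP_788af2_nt.AG
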