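import Pool.Agent.Lib.MP_788af2_nt.AG.RB2

/-!
The approximate eigenfunctionals: the leading term of the error in the Frobenius relation.
-/

set_option linter.unusedSectionVars false

namespace Pool.Agent.Lib.MP_788af2_nt.AG

open Polynomial Filter Topology Finset Ra

variable {K A J Z : Type} [NontriviallyNormedField K] [IsUltrametricDist K] [CompleteSpace K]
  [CharZero K] [NormedCommRing A] [NormedAlgebra K A] [IsUltrametricDist A] [CompleteSpace A]
  [NormOneClass A] [Fintype J] [Fintype Z] [DecidableEq J] [DecidableEq Z] (d : Dat K A J Z)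

namespace Rb

lemma coeff_map_mul (g : PowerSeries K) (f : PowerSeries A) (k : ℕ) :
    PowerSeries.coeff k (PowerSeries.map (algebraMap K A) g * f) =
      ∑ m ∈ range (k + 1), PowerSeries.coeff (k - m) g • PowerSeries.coeff m f := by
  rw [mul_comm, PowerSeries.coeff_mul, Nat.sum_antidiagonal_eq_sum_range_succ_mk]
  exact sum_congr rfl fun m _ => by rw [PowerSeries.coeff_map, Algebra.smul_def, mul_comm]

lemma ρ_sum (z : Z) (a k : ℕ) : d.ρ z (-1 - a, k) = ∑ m ∈ range (k + 1),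
    PowerSeries.coeff (k - m) d.o.G • d.o.I m • R0 d z m (X ^ a) := by
  rw [ρ_eq, sum_range_succ', R0_zero, smul_zero, smul_zero, add_zero, Int.toNat_natCast]
  refine sum_congr rfl fun l _ => ?_
  rw [R0_succ, mul_smul, Nat.sub_sub, add_comm 1 l]

lemma phi_ρ (z : Z) (n k : ℕ) : phi (d.ρ z) (-1 - n, k) =
    PowerSeries.coeff k (PowerSeries.expand 2 two_ne_zero (PowerSeries.map (algebraMap K A) d.o.G *
      PowerSeries.mk fun l => d.o.I l • R0 d z l (od (X ^ n)))) := by
  rw [phi, PowerSeries.coeff_expand, coeff_map_mul]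
  simp only [PowerSeries.coeff_mk]
  rcases Nat.even_or_odd' n with ⟨m, rfl | rfl⟩
  · rw [if_neg (by omega), od_even]
    simp
  · rw [od_odd, ← ρ_sum]
    refine if_congr (by omega) ?_ rfl
    congr 2
    omega

lemma θ_phi (z : Z) (n : ℕ) (k : ℤ) : conv (Xp A d.o.θ) (phi (d.ρ z)) (-1 - n, k) =
    ∑ m ∈ range (k.toNat + 1), (PowerSeries.coeff (k.toNat - m) d.o.G * Ie d.o m) •
      R0 d z (m / 2) (od (X ^ n)) := by
  have h0 : ∀ u : ℤ × ℤ, u.2 < 1 → phi (d.ρ z) u = 0 := fun u hu => by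
    rw [phi, d.ρ_supp z _ (Or.inr (by simp only; omega)), ite_self]
  rw [Xp_conv _ h0]
  rcases le_total k 0 with h | h
  · simp [Int.toNat_of_nonpos h, Ie_zero]
  lift k to ℕ using h
  have e : PowerSeries.map (algebraMap K A) d.o.θ * PowerSeries.expand 2 two_ne_zero
      (PowerSeries.map (algebraMap K A) d.o.G) = PowerSeries.map (algebraMap K A) d.o.G := by
    rw [← PowerSeries.map_expand, ← map_mul, PowerSeries.expand_apply, d.o.θ_G]
  have h1 := coeff_map_mul d.o.θ (PowerSeries.expand 2 two_ne_zero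
    (PowerSeries.map (algebraMap K A) d.o.G *
      PowerSeries.mk fun l => d.o.I l • R0 d z l (od (X ^ n)))) k
  simp only [← phi_ρ] at h1
  rw [← sum_range_reflect, sum_range_succ, map_mul (PowerSeries.expand 2 two_ne_zero), ← mul_assoc,
    e, coeff_map_mul, h0 _ (by simp), smul_zero, add_zero] at h1
  simp only [Int.toNat_natCast]
  refine (sum_congr rfl fun i hi => ?_).trans (h1.symm.trans (sum_congr rfl fun m _ => ?_))
  · rw [mem_range] at hi
    congr 3
    · omega
    · omega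
  · rw [PowerSeries.coeff_expand, PowerSeries.coeff_mk, Ie, mul_smul]
    split_ifs <;> simp

lemma pr_F (z : Z) (k : ℤ) (p : K[X]) :
    pr (conv (Tm (d.Ft (d.jz z))) (conv (Xp A d.o.θ) (phi (d.ρ (d.σZ z))))) (-1) k p =
      ∑ m ∈ range (k.toNat + 1), (PowerSeries.coeff (k.toNat - m) d.o.G * Ie d.o m) •
        La d z (m / 2) p := by
  induction p using Polynomial.induction_on' with
  | add p q hp hq => simp only [map_add, hp, hq, smul_add, sum_add_distrib]
  | monomial n b =>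
    have h := hasSum_sum (s := range (k.toNat + 1)) fun m _ => (La_sum d z (m / 2)
      (X ^ n)).const_smul (PowerSeries.coeff (k.toNat - m) d.o.G * Ie d.o m)
    rw [pr_mon, Tm_conv_apply, (h.congr_fun fun i => ?_).tsum_eq, smul_sum, ← smul_X_eq_monomial]
    · exact sum_congr rfl fun l _ => by rw [map_smul, smul_comm]
    · rw [show ((-1 - (n : ℤ), k).1 - i : ℤ) = -1 - (i + n : ℕ) by simp only; omega, θ_phi, mul_sum]
      exact sum_congr rfl fun m _ => by rw [mul_smul_comm, pow_add]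

lemma F_sum (z : Z) (a : ℕ) (k : ℤ) : HasSum (fun b : ℕ => ∑ m ∈ range ((k + b).toNat + 1),
    (PowerSeries.coeff ((k + b).toNat - m) d.o.G * Ie d.o m) •
      La d z (m / 2) (X ^ a * d.hz (d.jz z) b))
    (conv (d.F (d.jz z)) (phi (d.ρ (d.σZ z))) (-1 - a, k)) := by
  have hx := (d.ρ_mod (d.σZ z)).2
  have hT := d.tb_dec_Ft (d.jz z)
  have hX := d.tb_dec_θ
  have hZ := d.tb_dec_Sq (d.jz z)
  rw [Dat.F, Dat.Fx, conv_assoc hT (hX.conv hZ) hx, conv_assoc hX hZ hx, conv_left_comm hX hZ hx,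
    conv_left_comm hT hZ (hX.conv_mod hx)]
  refine (Zm_sum (hZ.summable (hT.conv_mod (hX.conv_mod hx)) _)).congr_fun fun b => ?_
  rw [← pr_F, pr_X_pow]
  rfl

/-- The main part of a term. -/
noncomputable def Tt (z : Z) (p : K[X]) (b m : ℕ) : A :=
  PowerSeries.coeff b d.o.θ • R0 d z (m - b) p -
    ((m / 2 : ℕ) * PowerSeries.coeff b d.o.θ + PowerSeries.coeff b (Mm d.o)) •
      R0 d z (m + 1 - b) (d.del (d.jz z) * p)

lemma Tt_zero (z : Z) (p : K[X]) {b m : ℕ} (h : m < b) : Tt d z p b m = 0 := by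
  rw [Tt, show m - b = 0 by omega, show m + 1 - b = 0 by omega, R0_zero, R0_zero]
  simp

lemma main_sum (z : Z) (a : ℕ) (k : ℤ) : HasSum (fun b : ℕ => ∑ m ∈ range ((k + b).toNat + 1),
    (PowerSeries.coeff ((k + b).toNat - m) d.o.G * Ie d.o m) • Tt d z (X ^ a) b m)
    ((2 : K) • d.ρ z (-1 - a, k) - if 0 ≤ k then
      PowerSeries.coeff k.toNat d.o.G • R0 d z 1 (d.del (d.jz z) * X ^ a) else 0) := by
  split_ifs with hk
  swap
  · rw [d.ρ_supp z _ (Or.inr (by simp only; omega)), smul_zero, sub_zero]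
    refine hasSum_zero.congr_fun fun b => sum_eq_zero fun m hm => ?_
    rw [mem_range] at hm
    rcases m with _ | m
    · rw [Ie_zero, mul_zero, zero_smul]
    · rw [Tt_zero d z _ (by omega), smul_zero]
  lift k to ℕ using hk
  have h : ∀ j ∈ range (k + 1), HasSum (fun b => (PowerSeries.coeff (k - j) d.o.G *
      Ie d.o (b + j)) • Tt d z (X ^ a) b (b + j)) (PowerSeries.coeff (k - j) d.o.G •
        ((2 * d.o.I j) • R0 d z j (X ^ a) - (if j = 0 then (1 : K) else 0) •
          R0 d z (j + 1) (d.del (d.jz z) * X ^ a))) := fun j _ => by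
    have h1 : HasSum (fun b => (Ie d.o (b + j) * PowerSeries.coeff b d.o.θ) • R0 d z j (X ^ a))
        ((2 * d.o.I j) • R0 d z j (X ^ a)) := by
      rcases j with _ | j
      · simp only [R0_zero, smul_zero]
        exact hasSum_zero
      · exact (sumθ d.o (by omega)).smul_const _
    refine ((h1.sub ((sumN d.o j).smul_const _)).const_smul _).congr_fun fun b => ?_
    rw [Tt, Nat.add_sub_cancel_left, add_assoc, Nat.add_sub_cancel_left, mul_smul, mul_smul,
      mul_smul, smul_sub (Ie _ _)]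
  convert hasSum_sum h using 1
  · funext b
    rw [show ((k : ℤ) + b).toNat = k + b by omega, show k + b + 1 = b + (k + 1) by ring,
      sum_range_add, sum_eq_zero fun m hm => by rw [Tt_zero d z _ (mem_range.1 hm), smul_zero],
      zero_add]
    exact sum_congr rfl fun j _ => by rw [show k + b - (b + j) = k - j by omega]
  · simp only [smul_sub, sum_sub_distrib, ite_smul, smul_ite, zero_smul, smul_zero, sum_ite_eq',
      ρ_sum, smul_sum, mul_smul, one_smul, mem_range, Nat.zero_lt_succ, if_true, Int.toNat_natCast,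
      Nat.sub_zero, zero_add]
    congr 1
    exact sum_congr rfl fun j _ => smul_comm _ _ _

lemma err_le (z : Z) (a : ℕ) (k : ℤ) : ‖conv (d.F (d.jz z)) (phi (d.ρ (d.σZ z))) (-1 - a, k) -
    d.ε z • ((2 : K) • d.ρ z (-1 - a, k) - if 0 ≤ k then
      PowerSeries.coeff k.toNat d.o.G • R0 d z 1 (d.del (d.jz z) * X ^ a) else 0)‖ ≤
      ‖d.c0‖ ^ 2 * 2 ^ (((|k| : ℤ) : ℝ) / 8 + 10) := by
  rw [← ((F_sum d z a k).sub ((main_sum d z a k).const_smul (d.ε z))).tsum_eq]
  refine IsUltrametricDist.norm_tsum_le_of_forall_le fun b => ?_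
  rw [smul_sum, ← sum_sub_distrib]
  refine IsUltrametricDist.norm_sum_le_of_forall_le_of_nonneg (by positivity) fun m hm => ?_
  rw [smul_comm (d.ε z), ← smul_sub]
  by_cases h : 2 ∣ m
  swap
  · rw [Ie, if_neg h, mul_zero, zero_smul, norm_zero]
    positivity
  have h1 := term_le d z (m / 2) b (SqB.var.pow a)
  rw [Nat.mul_div_cancel' h, t1_half] at h1
  have h2 : (m : ℝ) ≤ ((|k| : ℤ) : ℝ) + b := by
    have := le_abs_self k
    have := abs_nonneg k
    rw [mem_range] at hm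
    exact_mod_cast (by omega : (m : ℤ) ≤ |k| + b)
  have h3 : (2 : ℝ) ^ ((m : ℝ) / 8 + 4) * (4 * 2 ^ (-(b : ℝ))) ≤
      2 ^ (((|k| : ℤ) : ℝ) / 8 + 10) := by
    rw [show (4 : ℝ) * 2 ^ (-(b : ℝ)) = 2 ^ (2 : ℝ) * 2 ^ (-(b : ℝ)) by norm_num,
      ← Real.rpow_add two_pos, ← Real.rpow_add two_pos]
    refine Real.rpow_le_rpow_of_exponent_le one_le_two ?_
    have : (0 : ℝ) ≤ b := Nat.cast_nonneg b
    linarith
  rw [norm_smul]
  refine (mul_le_mul (oa_mul_le (d.G_le_one _) (Ie_le d.o m)) h1 (norm_nonneg _)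
    (by positivity)).trans ?_
  refine le_trans (le_of_eq ?_) (mul_le_mul_of_nonneg_left h3 (sq_nonneg _))
  ring

end Rb

namespace Dat

theorem Er_lead {s : ℝ} (hs : d.Sm s) (z : Z) (a : ℕ) (ha : 1 ≤ a) (k : ℤ) :
    ‖d.Er z (-a, k) + (if 0 ≤ k then (2 * d.ε z * PowerSeries.coeff k.toNat d.o.G) • d.pol2 z a
      else 0)‖ ≤ max (if 0 ≤ k then 1 / 4 else 0) (s * 2 ^ (((|k| : ℤ) : ℝ) / 8 + 10)) := by
  obtain ⟨a, rfl⟩ : ∃ b, a = b + 1 := ⟨a - 1, by omega⟩
  have hc : (d.c z : K) ≠ 0 := Nat.cast_ne_zero.2 (d.c_pos z).ne'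
  have hc' := norm_pos_iff.2 hc
  have h1 := Rb.err_le d z a k
  have h2 := Rb.lead_le d z a
  have hε : ‖(d.ε z : K)‖ ≤ 1 := IsUltrametricDist.norm_intCast_le_one K _
  have h3 : ‖d.c0‖ ^ 2 ≤ ‖(d.c z : K)‖ * s := by
    rw [d.c_cast, norm_mul, sq, mul_assoc, mul_comm _ s]
    exact mul_le_mul_of_nonneg_left (hs z) (norm_nonneg _)
  have h4 := h1.trans (mul_le_mul_of_nonneg_right h3 (by positivity))
  rw [Er, if_pos (by simp only; omega), show (-(a + 1 : ℕ) : ℤ) = -1 - a by omega]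
  generalize conv (d.F (d.jz z)) (phi (d.ρ (d.σZ z))) (-1 - a, k) = x at h4 ⊢
  generalize d.ρ z (-1 - a, k) = y at h4 ⊢
  generalize Rb.R0 d z 1 (d.del (d.jz z) * X ^ a) = v at h2 h4
  generalize d.pol2 z (a + 1) = w at h2 ⊢
  rw [← Int.cast_smul_eq_zsmul K] at h4 ⊢
  refine le_of_mul_le_mul_left ?_ hc'
  rw [← norm_smul, smul_add, smul_inv_smul₀ hc, mul_max_of_nonneg _ _ hc'.le, ← mul_assoc]
  split_ifs at h4 ⊢ with hk
  · have e : x - ((2 * d.ε z : ℤ) : K) • y + (d.c z : K) •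
        (2 * d.ε z * PowerSeries.coeff k.toNat d.o.G) • w =
        -((d.ε z * PowerSeries.coeff k.toNat d.o.G) • (v - (2 * (d.c z : K)) • w)) +
          (x - (d.ε z : K) • ((2 : K) • y - PowerSeries.coeff k.toNat d.o.G • v)) := by
      push_cast
      module
    rw [e]
    refine (IsUltrametricDist.norm_add_le_max _ _).trans (max_le_max ?_ h4)
    rw [norm_neg, norm_smul]
    refine (mul_le_mul (oa_mul_le hε (d.G_le_one _)) h2 (norm_nonneg _) (by norm_num)).trans
      (le_of_eq ?_)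
    ring
  · refine le_max_of_le_right (le_trans (le_of_eq ?_) h4)
    congr 1
    push_cast
    module

end Dat

end Pool.Agent.Lib.MP_788af2_nt.AG
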