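import Pool.Agent.Lib.MP_788af2_nt.AG.Base
import Pool.Agent.Lib.MP_788af2_nt.AG.EqFix

/-!
Invertibility of `2 P - M` for a matrix `M` dominated by a matching and a nilpotent block.
-/

set_option linter.unusedSectionVars false

namespace Pool.Agent.Lib.MP_788af2_nt.AG

open Filter Topology

/-- The dominance hypotheses. -/
structure Dom {ι A : Type} [NormedCommRing A] (U V : ι → ℝ) (ϑ : ℝ) (S B : Finset ι) (π : ι → ι)
    (M : ι → ι → A) : Prop where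
  lt : ϑ < 1
  half : 1 / 2 ≤ ϑ
  disj : Disjoint S B
  maps : ∀ r ∈ S, π r ∈ S
  inj : ∀ r ∈ S, ∀ r' ∈ S, π r = π r' → r = r'
  cc : CC V M
  le : ∀ r c, ‖M r c‖ ≤ 2 ^ (V c - U r)
  small : ∀ r c, ¬ (r ∈ S ∧ c = π r) → ¬ (r ∈ B ∧ c ∈ B) → ‖M r c‖ ≤ ϑ * 2 ^ (V c - U r)
  unit : ∀ r ∈ S, ∃ x, M r (π r) * x = 1 ∧ ‖x‖ ≤ 2 ^ (U r - V (π r))
  diag : ∀ r ∈ S, 1 / 2 ≤ ϑ * 2 ^ (V r - U r)
  off : ∀ r, r ∉ S → U r = 1 + V r
  const : ∀ r ∈ B, ∀ c ∈ B, V r = V c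
  nil : ∃ (N : B → B → A) (n : ℕ), (∀ r c : B, M r c = 2 * N r c) ∧ (∀ r c, ‖N r c‖ ≤ 1) ∧
    ∀ r c, ‖mpow N n r c‖ ≤ ϑ

variable {K ι A Z : Type} [NontriviallyNormedField K] [IsUltrametricDist K] [CompleteSpace K]
  [NormedCommRing A] [NormedAlgebra K A] [IsUltrametricDist A] [CompleteSpace A] [NormOneClass A]
  [DecidableEq ι] [Fintype Z] [DecidableEq Z] {U V : ι → ℝ} {ϑ : ℝ} {S B : Finset ι} {π : ι → ι}

theorem syl_add {a b : A} {x : ℝ} (ha : ‖a‖ ≤ x) (hb : ‖b‖ ≤ x) : ‖a + b‖ ≤ x :=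
  (IsUltrametricDist.norm_add_le_max a b).trans (max_le ha hb)

theorem syl_sub {a b : A} {x : ℝ} (ha : ‖a‖ ≤ x) (hb : ‖b‖ ≤ x) : ‖a - b‖ ≤ x := by
  rw [sub_eq_add_neg]
  exact syl_add ha (by rwa [norm_neg])

theorem syl_mul {a b : A} {x y : ℝ} (ha : ‖a‖ ≤ x) (hb : ‖b‖ ≤ y) : ‖a * b‖ ≤ x * y :=
  (norm_mul_le a b).trans (mul_le_mul ha hb (norm_nonneg _) ((norm_nonneg _).trans ha))

theorem syl_pos (x : ℝ) : (0 : ℝ) < 2 ^ x := Real.rpow_pos_of_pos two_pos x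

theorem syl_pow (x y : ℝ) : (2 : ℝ) ^ x * 2 ^ (y - x) = 2 ^ y := by
  rw [← Real.rpow_add two_pos]
  congr 1
  ring

theorem syl_pow1 (x : ℝ) : (2 : ℝ) ^ (1 + x) = 2 * 2 ^ x := by
  rw [Real.rpow_add two_pos, Real.rpow_one]

include K in
theorem syl_two (h2 : ‖(2 : K)‖ = 1 / 2) (a : A) : ‖2 * a‖ = ‖a‖ / 2 := by
  have e : (2 : A) * a = (2 : K) • a := by rw [two_mul, two_smul]
  rw [e, norm_smul, h2]
  ring

include K in
theorem syl_half (h2 : ‖(2 : K)‖ = 1 / 2) (a : A) : ∃ b : A, 2 * b = a := by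
  have h0 : (2 : K) ≠ 0 := by
    intro h
    rw [h, norm_zero] at h2
    norm_num at h2
  refine ⟨(2 : K)⁻¹ • a, ?_⟩
  have e : ∀ b : A, (2 : A) * b = (2 : K) • b := fun b => by rw [two_mul, two_smul]
  rw [e, smul_smul, mul_inv_cancel₀ h0, one_smul]

theorem syl_act (P : Matrix Z Z ℤ) {y : Z → A} {a : ℝ} (ha : 0 ≤ a) (hy : ∀ z, ‖y z‖ ≤ a) (z : Z) :
    ‖∑ z', P z z' • y z'‖ ≤ a :=
  IsUltrametricDist.norm_sum_le_of_forall_le_of_nonneg ha fun z' _ =>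
    (IsUltrametricDist.norm_zsmul_le _ _).trans (hy z')

theorem syl_act_act {P Pi : Matrix Z Z ℤ} (hP : P * Pi = 1) (y : Z → A) (z : Z) :
    ∑ z', P z z' • ∑ z'', Pi z' z'' • y z'' = y z := by
  have e : ∀ z'', ∑ z', P z z' * Pi z' z'' = if z = z'' then 1 else 0 := fun z'' => by
    rw [← Matrix.mul_apply, hP, Matrix.one_apply]
  simp only [Finset.smul_sum, smul_smul]
  rw [Finset.sum_comm]
  simp only [← Finset.sum_smul, e]
  simp

theorem syl_tsum {f : ι → A} (hf : Summable f) (F : Finset ι) {a : ℝ} (ha : 0 ≤ a)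
    (h : ∀ r, r ∉ F → ‖f r‖ ≤ a) : ‖∑' r, f r - ∑ r ∈ F, f r‖ ≤ a := by
  rw [← hf.sum_add_tsum_subtype_compl F, add_sub_cancel_left]
  exact IsUltrametricDist.norm_tsum_le_of_forall_le_of_nonneg ha fun r => h r.1 r.2

theorem Dom.syl_summable {M : ι → ι → A} (h : Dom U V ϑ S B π M) {x : ι → A} {D : ℝ}
    (hx : ∀ r, ‖x r‖ ≤ D * 2 ^ U r) (c : ι) : Summable fun r => x r * M r c := by
  obtain ⟨g, hg, hM⟩ := h.cc
  apply NonarchimedeanAddGroup.summable_of_tendsto_cofinite_zero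
  rw [tendsto_zero_iff_norm_tendsto_zero]
  have h1 : Tendsto (fun r => D * 2 ^ (1 + V c) * (2 : ℝ) ^ (-g r)) cofinite
      (𝓝 (D * 2 ^ (1 + V c) * 0)) :=
    ((tendsto_rpow_atBot_of_base_gt_one 2 one_lt_two).comp
      (tendsto_neg_atTop_atBot.comp hg)).const_mul _
  rw [mul_zero] at h1
  refine squeeze_zero' (Eventually.of_forall fun r => norm_nonneg _) ?_ h1
  filter_upwards [S.eventually_cofinite_notMem] with r hr
  refine (syl_mul (hx r) (hM r c)).trans (le_of_eq ?_)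
  rw [h.off r hr, mul_assoc, mul_assoc, ← Real.rpow_add two_pos, ← Real.rpow_add two_pos]
  congr 2
  ring

theorem Dom.syl_nonneg {M : ι → ι → A} (h : Dom U V ϑ S B π M) : 0 ≤ ϑ := by
  have := h.half
  linarith

theorem Dom.syl_err {M : ι → ι → A} (h : Dom U V ϑ S B π M) {x : ι → A} {D : ℝ} (hD : 0 ≤ D)
    (hx : ∀ r, ‖x r‖ ≤ D * 2 ^ U r) (c : ι) (F : Finset ι)
    (hF : ∀ r, r ∉ F → ¬ (r ∈ S ∧ c = π r) ∧ ¬ (r ∈ B ∧ c ∈ B)) :
    ‖vmul x M c - ∑ r ∈ F, x r * M r c‖ ≤ ϑ * D * 2 ^ V c := by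
  refine syl_tsum (h.syl_summable hx c) F
    (mul_nonneg (mul_nonneg h.syl_nonneg hD) (syl_pos _).le) fun r hr => ?_
  refine (syl_mul (hx r) (h.small r c (hF r hr).1 (hF r hr).2)).trans (le_of_eq ?_)
  rw [← syl_pow (U r) (V c)]
  ring

theorem Dom.syl_errS {M : ι → ι → A} (h : Dom U V ϑ S B π M) {x : ι → A} {D : ℝ} (hD : 0 ≤ D)
    (hx : ∀ r, ‖x r‖ ≤ D * 2 ^ U r) {r : ι} (hr : r ∈ S) :
    ‖vmul x M (π r) - x r * M r (π r)‖ ≤ ϑ * D * 2 ^ V (π r) := by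
  have := h.syl_err hD hx (π r) {r} fun r' hr' =>
    ⟨fun hh => hr' (Finset.mem_singleton.2 (h.inj _ hh.1 _ hr hh.2.symm)),
      fun hh => Finset.disjoint_left.1 h.disj (h.maps r hr) hh.2⟩
  rwa [Finset.sum_singleton] at this

theorem Dom.syl_errB {M : ι → ι → A} (h : Dom U V ϑ S B π M) {x : ι → A} {D : ℝ} (hD : 0 ≤ D)
    (hx : ∀ r, ‖x r‖ ≤ D * 2 ^ U r) {c : ι} (hc : c ∈ B) :
    ‖vmul x M c - ∑ r : B, x r * M r c‖ ≤ ϑ * D * 2 ^ V c := by
  have := h.syl_err hD hx c B fun r' hr' =>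
    ⟨fun hh => Finset.disjoint_left.1 h.disj (h.maps r' hh.1) (hh.2 ▸ hc), fun hh => hr' hh.1⟩
  rwa [← Finset.sum_coe_sort B] at this

theorem Dom.syl_errO {M : ι → ι → A} (h : Dom U V ϑ S B π M) {x : ι → A} {D : ℝ} (hD : 0 ≤ D)
    (hx : ∀ r, ‖x r‖ ≤ D * 2 ^ U r) {c : ι} (hc : c ∉ S) (hc' : c ∉ B) :
    ‖vmul x M c‖ ≤ ϑ * D * 2 ^ V c := by
  have := h.syl_err hD hx c ∅ fun r' _ =>
    ⟨fun hh => hc (hh.2 ▸ h.maps r' hh.1), fun hh => hc' hh.2⟩
  rwa [Finset.sum_empty, sub_zero] at this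

include K in
theorem Dom.syl_diag (h2 : ‖(2 : K)‖ = 1 / 2) {M : ι → ι → A} (h : Dom U V ϑ S B π M)
    (P : Matrix Z Z ℤ) {ζ : Z → ι → A} {D : ℝ} (hD : 0 ≤ D) (hζ : ∀ z r, ‖ζ z r‖ ≤ D * 2 ^ U r)
    {c : ι} (hc : c ∈ S) (z : Z) : ‖2 * ∑ z', P z z' • ζ z' c‖ ≤ ϑ * D * 2 ^ V c := by
  rw [syl_two h2]
  have h1 := syl_act P (mul_nonneg hD (syl_pos (U c)).le) (fun z => hζ z c) z
  have h3 := mul_le_mul_of_nonneg_left (h.diag c hc) (mul_nonneg hD (syl_pos (U c)).le)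
  have h4 : D * 2 ^ U c * (ϑ * 2 ^ (V c - U c)) = ϑ * D * 2 ^ V c := by
    rw [← syl_pow (U c) (V c)]
    ring
  linarith

include K in
theorem Dom.syl_T (h2 : ‖(2 : K)‖ = 1 / 2) {M : ι → ι → A} (h : Dom U V ϑ S B π M)
    (P : Matrix Z Z ℤ) {ζ : Z → ι → A} {D : ℝ} (hD : 0 ≤ D) (hζ : ∀ z r, ‖ζ z r‖ ≤ D * 2 ^ U r)
    (z : Z) (c : ι) : ‖2 * ∑ z', P z z' • ζ z' c - vmul (ζ z) M c‖ ≤ D * 2 ^ V c := by
  have hV := syl_pos (V c)
  refine syl_sub ?_ ?_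
  · by_cases hc : c ∈ S
    · refine (h.syl_diag h2 P hD hζ hc z).trans ?_
      have := h.lt
      have h3 : 0 ≤ D * 2 ^ V c := mul_nonneg hD hV.le
      nlinarith
    · rw [syl_two h2]
      have h1 := syl_act P (mul_nonneg hD (syl_pos (U c)).le) (fun z => hζ z c) z
      rw [h.off c hc, syl_pow1] at h1
      linarith
  · refine IsUltrametricDist.norm_tsum_le_of_forall_le_of_nonneg (mul_nonneg hD hV.le) fun r => ?_
    refine (syl_mul (hζ z r) (h.le r c)).trans (le_of_eq ?_)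
    rw [mul_assoc, syl_pow]

/-- Entrywise bound of a matrix. -/
def SylBd {m n : Type} (X : Matrix m n A) (a : ℝ) : Prop := ∀ i j, ‖X i j‖ ≤ a

theorem SylBd.mul {l m n : Type} [Fintype m] {X : Matrix l m A} {Y : Matrix m n A} {a b : ℝ}
    (ha : 0 ≤ a) (hb : 0 ≤ b) (hX : SylBd X a) (hY : SylBd Y b) : SylBd (X * Y) (a * b) :=
  fun i j => by
    rw [Matrix.mul_apply]
    exact IsUltrametricDist.norm_sum_le_of_forall_le_of_nonneg (mul_nonneg ha hb) fun k _ =>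
      syl_mul (hX i k) (hY k j)

theorem SylBd.pow {m : Type} [Fintype m] [DecidableEq m] {X : Matrix m m A} (hX : SylBd X 1)
    (k : ℕ) : SylBd (X ^ k) 1 := by
  induction k with
  | zero =>
    intro i j
    rw [pow_zero, Matrix.one_apply]
    split_ifs <;> simp
  | succ k ih =>
    rw [pow_succ]
    simpa using SylBd.mul zero_le_one zero_le_one ih hX

theorem SylBd.three {l m : Type} [Fintype l] [Fintype m] {X : Matrix l l A} {Y : Matrix l m A}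
    {W : Matrix m m A} {a b : ℝ} (ha : 0 ≤ a) (hb : 0 ≤ b) (hX : SylBd X 1) (hY : SylBd Y a)
    (hW : SylBd W b) : SylBd (X * Y * W) (a * b) := by
  have := SylBd.mul (mul_nonneg zero_le_one ha) hb (SylBd.mul zero_le_one ha hX hY) hW
  rwa [one_mul] at this

theorem syl_mpow {m : Type} [Fintype m] [DecidableEq m] (N : m → m → A) (k : ℕ) :
    Matrix.of (mpow N k) = Matrix.of N ^ (k + 1) := by
  induction k with
  | zero => simp [mpow]
  | succ k ih =>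
    rw [pow_succ, ← ih]
    ext i j
    simp [mpow, mmul, Matrix.mul_apply, tsum_fintype]

theorem syl_block {l m : Type} [Fintype l] [Fintype m] [DecidableEq l] [DecidableEq m]
    {P Q : Matrix l l A} (hP : P * Q = 1) (hQ : SylBd Q 1) {N : Matrix m m A} (hN : SylBd N 1)
    {R : Matrix l m A} {a : ℝ} (ha : 0 ≤ a) (hR : SylBd R a) (k : ℕ) :
    ∃ X : Matrix l m A, SylBd X a ∧ P * X - X * N = R - Q ^ k * R * N ^ k := by
  induction k with
  | zero => exact ⟨0, fun i j => by simpa using ha, by simp⟩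
  | succ k ih =>
    obtain ⟨X, hX, e⟩ := ih
    refine ⟨X + Q ^ (k + 1) * R * N ^ k, fun i j => ?_, ?_⟩
    · have := SylBd.three ha zero_le_one (hQ.pow (k + 1)) hR (hN.pow k) i j
      rw [mul_one] at this
      exact syl_add (hX i j) this
    · have e1 : P * (Q ^ (k + 1) * R * N ^ k) = Q ^ k * R * N ^ k := by
        rw [pow_succ', ← Matrix.mul_assoc, ← Matrix.mul_assoc, ← Matrix.mul_assoc, hP,
          Matrix.one_mul]
      have e2 : Q ^ (k + 1) * R * N ^ k * N = Q ^ (k + 1) * R * N ^ (k + 1) := by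
        rw [pow_succ N, Matrix.mul_assoc (Q ^ (k + 1) * R)]
      rw [Matrix.mul_add, Matrix.add_mul, e1, e2, ← sub_sub, add_sub_right_comm, e]
      abel

theorem syl_block' {l m : Type} [Fintype l] [Fintype m] [DecidableEq l] [DecidableEq m]
    {P Q : Matrix l l A} (hP : Q * P = 1) (hQ : SylBd Q 1) {N : Matrix m m A} (hN : SylBd N 1)
    {X : Matrix l m A} {a : ℝ} (ha : 0 ≤ a) (hR : SylBd (P * X - X * N) a) (k : ℕ) :
    SylBd (X - Q ^ k * X * N ^ k) a := by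
  induction k with
  | zero => exact fun i j => by simpa using ha
  | succ k ih =>
    have e : X - Q ^ (k + 1) * X * N ^ (k + 1) =
        (X - Q ^ k * X * N ^ k) + Q ^ (k + 1) * (P * X - X * N) * N ^ k := by
      have e1 : Q ^ (k + 1) * (P * X) = Q ^ k * X := by
        rw [pow_succ, Matrix.mul_assoc, ← Matrix.mul_assoc Q, hP, Matrix.one_mul]
      have e2 : Q ^ (k + 1) * (X * N) * N ^ k = Q ^ (k + 1) * X * N ^ (k + 1) := by
        rw [pow_succ' N, ← Matrix.mul_assoc, ← Matrix.mul_assoc]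
      rw [Matrix.mul_sub, Matrix.sub_mul, e1, e2]
      abel
    rw [e]
    intro i j
    have := SylBd.three ha zero_le_one (hQ.pow (k + 1)) hR (hN.pow k) i j
    rw [mul_one] at this
    exact syl_add (ih i j) this

theorem syl_cast_bd (P : Matrix Z Z ℤ) : SylBd (P.map (Int.cast : ℤ → A)) 1 :=
  fun i j => IsUltrametricDist.norm_intCast_le_one A (P i j)

theorem syl_cast_mul {P Q : Matrix Z Z ℤ} (h : P * Q = 1) :
    P.map (Int.cast : ℤ → A) * Q.map (Int.cast : ℤ → A) = 1 := by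
  have := Matrix.map_mul (L := P) (M := Q) (f := Int.castRingHom A)
  rw [h] at this
  simpa using this.symm

theorem syl_cast_apply {m : Type} (P : Matrix Z Z ℤ) (X : Matrix Z m A) (z : Z) (c : m) :
    (P.map (Int.cast : ℤ → A) * X) z c = ∑ z', P z z' • X z' c := by
  simp [Matrix.mul_apply]

include K in
theorem Dom.syl_bstep (h2 : ‖(2 : K)‖ = 1 / 2) {M : ι → ι → A} (h : Dom U V ϑ S B π M)
    {P Pi : Matrix Z Z ℤ} (hP : P * Pi = 1) {C D E : ℝ} (hD : 0 ≤ D) (hCE : C ≤ E)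
    (hDE : ϑ * D ≤ E) {ζ : Z → ι → A} (hζ : ∀ z r, ‖ζ z r‖ ≤ D * 2 ^ U r)
    (hR : ∀ z c, ‖2 * ∑ z', P z z' • ζ z' c - vmul (ζ z) M c‖ ≤ C * 2 ^ V c) (z : Z) (r : ι) :
    ‖ζ z r‖ ≤ E * 2 ^ U r := by
  have hE : 0 ≤ E := (mul_nonneg h.syl_nonneg hD).trans hDE
  have hP' : Pi * P = 1 := mul_eq_one_comm.1 hP
  have k1 : ∀ x : ℝ, C * 2 ^ x ≤ E * 2 ^ x := fun x =>
    mul_le_mul_of_nonneg_right hCE (syl_pos x).le
  have k2 : ∀ x : ℝ, ϑ * D * 2 ^ x ≤ E * 2 ^ x := fun x =>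
    mul_le_mul_of_nonneg_right hDE (syl_pos x).le
  by_cases hr : r ∈ S
  · obtain ⟨x, hx, hx'⟩ := h.unit r hr
    have a1 := (hR z (π r)).trans (k1 _)
    have a2 := (h.syl_diag h2 P hD hζ (h.maps r hr) z).trans (k2 _)
    have a3 := (h.syl_errS hD (hζ z) hr).trans (k2 _)
    have a4 := syl_mul (syl_sub (syl_sub a2 a1) a3) hx'
    have e : (2 * ∑ z', P z z' • ζ z' (π r) - (2 * ∑ z', P z z' • ζ z' (π r) -
        vmul (ζ z) M (π r)) - (vmul (ζ z) M (π r) - ζ z r * M r (π r))) * x = ζ z r := by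
      linear_combination ζ z r * hx
    rwa [e, mul_assoc, syl_pow] at a4
  by_cases hB : r ∈ B
  · obtain ⟨N, n, hN, hN1, hNn⟩ := h.nil
    have hU : ∀ c : B, U c = U r := fun c => by
      rw [h.off r hr, h.off c fun hc => Finset.disjoint_left.1 h.disj hc c.2, h.const c c.2 r hB]
    let X : Matrix Z B A := Matrix.of fun z c => ζ z c
    have hX : SylBd X (D * 2 ^ U r) := fun z c => by
      rw [← hU c]
      exact hζ z c
    have hW : SylBd (P.map (Int.cast : ℤ → A) * X - X * Matrix.of N) (E * 2 ^ U r) := by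
      intro z c
      have a1 := (hR z c).trans (k1 _)
      have a3 := (h.syl_errB hD (hζ z) c.2).trans (k2 _)
      have a4 := syl_add a1 a3
      have e : 2 * ∑ z', P z z' • ζ z' c - vmul (ζ z) M c +
          (vmul (ζ z) M c - ∑ r : B, ζ z r * M r c) =
          2 * (P.map (Int.cast : ℤ → A) * X - X * Matrix.of N) z c := by
        rw [Matrix.sub_apply, syl_cast_apply, Matrix.mul_apply, sub_add_sub_cancel, mul_sub]
        congr 1
        rw [Finset.mul_sum]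
        refine Finset.sum_congr rfl fun r' _ => ?_
        rw [hN]
        simp only [X, Matrix.of_apply]
        ring
      rw [e, syl_two h2] at a4
      rw [h.off r hr, syl_pow1, ← h.const c c.2 r hB]
      linarith
    have b1 := syl_block' (syl_cast_mul hP') (syl_cast_bd Pi) (N := Matrix.of N) hN1
      (mul_nonneg hE (syl_pos _).le) hW (n + 1) z ⟨r, hB⟩
    have hNn' : SylBd (Matrix.of N ^ (n + 1)) ϑ := by
      rw [← syl_mpow]
      exact hNn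
    have b2 := SylBd.three (mul_nonneg hD (syl_pos _).le) h.syl_nonneg
      ((syl_cast_bd Pi).pow (n + 1)) hX hNn' z ⟨r, hB⟩
    have b3 := syl_add b1 (b2.trans ((le_of_eq (by ring)).trans (k2 (U r))))
    rw [Matrix.sub_apply, sub_add_cancel] at b3
    exact b3
  · rw [← syl_act_act hP' (fun z => ζ z r) z]
    refine syl_act Pi (mul_nonneg hE (syl_pos _).le) (fun z => ?_) z
    have a4 := syl_add ((hR z r).trans (k1 _)) ((h.syl_errO hD (hζ z) hr hB).trans (k2 _))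
    rw [sub_add_cancel, syl_two h2] at a4
    rw [h.off r hr, syl_pow1]
    linarith

include K in
theorem Dom.syl_sstep (h2 : ‖(2 : K)‖ = 1 / 2) {M : ι → ι → A} (h : Dom U V ϑ S B π M)
    {P Pi : Matrix Z Z ℤ} (hP : P * Pi = 1) (C : ℝ) (R : Z → ι → A) (hC : 0 ≤ C)
    (hR : ∀ z c, ‖R z c‖ ≤ C * 2 ^ V c) : ∃ ζ : Z → ι → A, (∀ z r, ‖ζ z r‖ ≤ C * 2 ^ U r) ∧
      ∀ z c, ‖R z c - (2 * ∑ z', P z z' • ζ z' c - vmul (ζ z) M c)‖ ≤ ϑ * C * 2 ^ V c := by
  choose! x hx hx' using h.unit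
  choose R2 hR2 using fun z c => syl_half h2 (R z c)
  have hR2' : ∀ z c, c ∉ S → ‖R2 z c‖ ≤ C * 2 ^ U c := fun z c hc => by
    have := hR z c
    rw [← hR2, syl_two h2] at this
    rw [h.off c hc, syl_pow1]
    linarith
  obtain ⟨N, n, hN, hN1, hNn⟩ := h.nil
  have hNn' : SylBd (Matrix.of N ^ (n + 1)) ϑ := by
    rw [← syl_mpow]
    exact hNn
  have hBS : ∀ c : B, (c : ι) ∉ S := fun c hc => Finset.disjoint_left.1 h.disj hc c.2
  obtain ⟨a, ha0, ha⟩ : ∃ a : ℝ, 0 ≤ a ∧ ∀ c : B, a = C * 2 ^ U c := by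
    rcases B.eq_empty_or_nonempty with hB | ⟨r, hr⟩
    · exact ⟨0, le_rfl, fun c => absurd c.2 (by simp [hB])⟩
    · refine ⟨C * 2 ^ U r, mul_nonneg hC (syl_pos _).le, fun c => ?_⟩
      rw [h.off r (hBS ⟨r, hr⟩), h.off c (hBS c), h.const c c.2 r hr]
  let RB : Matrix Z B A := Matrix.of fun z c => R2 z c
  have hRB : SylBd RB a := fun z c => by
    rw [ha c]
    exact hR2' z c (hBS c)
  obtain ⟨X, hX, eX⟩ := syl_block (syl_cast_mul hP) (syl_cast_bd Pi) (N := Matrix.of N) hN1 ha0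
    hRB (n + 1)
  let ζ : Z → ι → A := fun z r => if r ∈ S then -(R z (π r) * x r) else
    if hr : r ∈ B then X z ⟨r, hr⟩ else ∑ z', Pi z z' • R2 z' r
  have eS : ∀ z r, r ∈ S → ζ z r = -(R z (π r) * x r) := fun z r hr => if_pos hr
  have eB : ∀ z (r : B), ζ z r = X z r := fun z r => (if_neg (hBS r)).trans (dif_pos r.2)
  have eO : ∀ z r, r ∉ S → r ∉ B → ζ z r = ∑ z', Pi z z' • R2 z' r := fun z r hr hr' =>
    (if_neg hr).trans (dif_neg hr')
  have hζ : ∀ z r, ‖ζ z r‖ ≤ C * 2 ^ U r := fun z r => by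
    by_cases hr : r ∈ S
    · rw [eS z r hr, norm_neg]
      refine (syl_mul (hR z (π r)) (hx' r hr)).trans (le_of_eq ?_)
      rw [mul_assoc, syl_pow]
    by_cases hB : r ∈ B
    · rw [eB z ⟨r, hB⟩, ← ha ⟨r, hB⟩]
      exact hX z _
    · rw [eO z r hr hB]
      exact syl_act Pi (mul_nonneg hC (syl_pos _).le) (fun z => hR2' z r hr) z
  refine ⟨ζ, hζ, fun z c => ?_⟩
  by_cases hc : c ∈ S
  · obtain ⟨r, hr, rfl⟩ : ∃ r ∈ S, π r = c :=
      Finset.surjOn_of_injOn_of_card_le π (fun r hr => h.maps r hr)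
        (fun r hr r' hr' => h.inj r hr r' hr') le_rfl hc
    have a1 := syl_sub (h.syl_errS hC (hζ z) hr) (h.syl_diag h2 P hC hζ hc z)
    have e : vmul (ζ z) M (π r) - ζ z r * M r (π r) - 2 * ∑ z', P z z' • ζ z' (π r) =
        R z (π r) - (2 * ∑ z', P z z' • ζ z' (π r) - vmul (ζ z) M (π r)) := by
      rw [eS z r hr]
      linear_combination R z (π r) * hx r hr
    rwa [e] at a1
  by_cases hB : c ∈ B
  · have b2 := SylBd.three ha0 h.syl_nonneg ((syl_cast_bd Pi).pow (n + 1)) hRB hNn' z ⟨c, hB⟩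
    have b3 : ‖2 * ((Pi.map (Int.cast : ℤ → A)) ^ (n + 1) * RB * Matrix.of N ^ (n + 1)) z ⟨c, hB⟩‖
        ≤ ϑ * C * 2 ^ V c := by
      rw [syl_two h2]
      rw [ha ⟨c, hB⟩, h.off c hc, syl_pow1] at b2
      linarith
    have a1 := syl_add b3 (h.syl_errB hC (hζ z) hB)
    have e0 := congrFun (congrFun eX z) ⟨c, hB⟩
    rw [Matrix.sub_apply, Matrix.sub_apply, syl_cast_apply, Matrix.mul_apply] at e0
    have e1 : ∑ z', P z z' • ζ z' c = ∑ z', P z z' • X z' ⟨c, hB⟩ :=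
      Finset.sum_congr rfl fun z' _ => by rw [← eB z' ⟨c, hB⟩]
    have e2 : ∑ r : B, ζ z r * M r c = 2 * ∑ r : B, X z r * Matrix.of N r ⟨c, hB⟩ := by
      rw [Finset.mul_sum]
      refine Finset.sum_congr rfl fun r _ => ?_
      rw [eB, hN r ⟨c, hB⟩, Matrix.of_apply]
      ring
    have e3 : 2 * RB z ⟨c, hB⟩ = R z c := hR2 z c
    have e : 2 * ((Pi.map (Int.cast : ℤ → A)) ^ (n + 1) * RB * Matrix.of N ^ (n + 1)) z ⟨c, hB⟩ +
        (vmul (ζ z) M c - ∑ r : B, ζ z r * M r c) =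
        R z c - (2 * ∑ z', P z z' • ζ z' c - vmul (ζ z) M c) := by
      rw [e1, e2]
      linear_combination 2 * e0 + e3
    rwa [e] at a1
  · have a1 := h.syl_errO hC (hζ z) hc hB
    have e1 : ∑ z', P z z' • ζ z' c = R2 z c := by
      rw [← syl_act_act hP (fun z => R2 z c) z]
      exact Finset.sum_congr rfl fun z' _ => by rw [eO z' c hc hB]
    rwa [e1, hR2, sub_sub_cancel]

theorem Dom.syl_T_add {M : ι → ι → A} (h : Dom U V ϑ S B π M) (P : Matrix Z Z ℤ)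
    {ζ ξ : Z → ι → A} {C D : ℝ} (hζ : ∀ z r, ‖ζ z r‖ ≤ C * 2 ^ U r)
    (hξ : ∀ z r, ‖ξ z r‖ ≤ D * 2 ^ U r) (z : Z) (c : ι) :
    2 * ∑ z', P z z' • (ζ z' c + ξ z' c) - vmul (fun r => ζ z r + ξ z r) M c =
      (2 * ∑ z', P z z' • ζ z' c - vmul (ζ z) M c) +
        (2 * ∑ z', P z z' • ξ z' c - vmul (ξ z) M c) := by
  have e : vmul (fun r => ζ z r + ξ z r) M c = vmul (ζ z) M c + vmul (ξ z) M c := by
    simp only [vmul, add_mul]
    exact (h.syl_summable (hζ z) c).tsum_add (h.syl_summable (hξ z) c)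
  simp only [e, smul_add, Finset.sum_add_distrib]
  ring

include K in
theorem Dom.solve (h2 : ‖(2 : K)‖ = 1 / 2) {M : ι → ι → A} (h : Dom U V ϑ S B π M)
    {P Pi : Matrix Z Z ℤ} (hP : P * Pi = 1) {C : ℝ} (hC : 0 ≤ C) {R : Z → ι → A}
    (hR : ∀ z c, ‖R z c‖ ≤ C * 2 ^ V c) : ∃ ζ : Z → ι → A, (∀ z r, ‖ζ z r‖ ≤ C * 2 ^ U r) ∧
      ∀ z c, 2 * ∑ z', P z z' • ζ z' c - vmul (ζ z) M c = R z c := by
  choose! Q hQ hQ' using h.syl_sstep h2 hP
  have h0 := h.syl_nonneg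
  have hk : ∀ k : ℕ, 0 ≤ ϑ ^ k * C := fun k => mul_nonneg (pow_nonneg h0 k) hC
  have hmono : ∀ k j : ℕ, ϑ ^ (j + k) * C ≤ ϑ ^ k * C := fun k j =>
    mul_le_mul_of_nonneg_right (pow_le_pow_of_le_one h0 h.lt.le (Nat.le_add_left k j)) hC
  let Rk : ℕ → Z → ι → A := fun k => Nat.rec R (fun k Y z c => Y z c -
    (2 * ∑ z', P z z' • Q (ϑ ^ k * C) Y z' c - vmul (Q (ϑ ^ k * C) Y z) M c)) k
  let y : ℕ → Z → ι → A := fun k => Q (ϑ ^ k * C) (Rk k)
  have eR : ∀ k z c, Rk (k + 1) z c =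
      Rk k z c - (2 * ∑ z', P z z' • y k z' c - vmul (y k z) M c) := fun k z c => rfl
  have hRk : ∀ k z c, ‖Rk k z c‖ ≤ ϑ ^ k * C * 2 ^ V c := fun k => by
    induction k with
    | zero =>
      intro z c
      rw [pow_zero, one_mul]
      exact hR z c
    | succ k ih =>
      intro z c
      rw [eR, pow_succ', mul_assoc ϑ]
      exact hQ' _ _ (hk k) ih z c
  have hy : ∀ k z r, ‖y k z r‖ ≤ ϑ ^ k * C * 2 ^ U r := fun k => hQ _ _ (hk k) (hRk k)
  have hs : ∀ z r, Summable fun k => y k z r := fun z r =>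
    Summable.of_norm_bounded (((summable_geometric_of_lt_one h0 h.lt).mul_right C).mul_right _)
      fun k => hy k z r
  have htail : ∀ k z r, ‖∑' j, y (j + k) z r‖ ≤ ϑ ^ k * C * 2 ^ U r := fun k z r =>
    IsUltrametricDist.norm_tsum_le_of_forall_le_of_nonneg (mul_nonneg (hk k) (syl_pos _).le)
      fun j => (hy _ z r).trans (mul_le_mul_of_nonneg_right (hmono k j) (syl_pos _).le)
  have key : ∀ k z c, 2 * ∑ z', P z z' • (∑' j, y j z' c) - vmul (fun r => ∑' j, y j z r) M c -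
      R z c = 2 * ∑ z', P z z' • (∑' j, y (j + k) z' c) -
        vmul (fun r => ∑' j, y (j + k) z r) M c - Rk k z c := fun k => by
    induction k with
    | zero => exact fun z c => rfl
    | succ k ih =>
      intro z c
      have e : ∀ z r, ∑' j, y (j + k) z r = y k z r + ∑' j, y (j + (k + 1)) z r := fun z r => by
        rw [((summable_nat_add_iff k).2 (hs z r)).tsum_eq_zero_add]
        simp only [Nat.zero_add, Nat.add_assoc, Nat.add_comm 1 k]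
      rw [ih z c, eR]
      simp only [e]
      rw [h.syl_T_add P (hy k) (htail (k + 1))]
      ring
  refine ⟨fun z r => ∑' j, y j z r, fun z r => by simpa using htail 0 z r, fun z c => ?_⟩
  rw [← sub_eq_zero, ← norm_le_zero_iff]
  have hlim : Tendsto (fun k : ℕ => ϑ ^ k * C * 2 ^ V c) atTop (𝓝 (0 * C * 2 ^ V c)) :=
    ((tendsto_pow_atTop_nhds_zero_of_lt_one h0 h.lt).mul_const _).mul_const _
  rw [zero_mul, zero_mul] at hlim
  refine ge_of_tendsto' hlim fun k => ?_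
  rw [key k z c]
  exact syl_sub (h.syl_T h2 P (hk k) (htail k) z c) (hRk k z c)

include K in
theorem Dom.bound (h2 : ‖(2 : K)‖ = 1 / 2) {M : ι → ι → A} (h : Dom U V ϑ S B π M)
    {P Pi : Matrix Z Z ℤ} (hP : P * Pi = 1) {C : ℝ} (hC : 0 ≤ C) {ζ : Z → ι → A}
    (hζ : ∀ z, RowB U (ζ z))
    (hR : ∀ z c, ‖2 * ∑ z', P z z' • ζ z' c - vmul (ζ z) M c‖ ≤ C * 2 ^ V c) :
    ∀ z r, ‖ζ z r‖ ≤ C * 2 ^ U r := by
  choose D hD using hζ
  have h0 := h.syl_nonneg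
  have hD0 : 0 ≤ ∑ z, |D z| := Finset.sum_nonneg fun z _ => abs_nonneg _
  have key : ∀ (k : ℕ) z r, ‖ζ z r‖ ≤ (C + ϑ ^ k * ∑ z, |D z|) * 2 ^ U r := fun k => by
    induction k with
    | zero =>
      intro z r
      refine (hD z r).trans (mul_le_mul_of_nonneg_right ?_ (syl_pos _).le)
      have h1 : |D z| ≤ ∑ z, |D z| :=
        Finset.single_le_sum (fun z _ => abs_nonneg (D z)) (Finset.mem_univ z)
      have h3 := le_abs_self (D z)
      rw [pow_zero]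
      linarith
    | succ k ih =>
      have h1 : 0 ≤ ϑ ^ k * ∑ z, |D z| := mul_nonneg (pow_nonneg h0 k) hD0
      have h3 : ϑ * C ≤ C := mul_le_of_le_one_left hC h.lt.le
      have h4 : 0 ≤ ϑ * (ϑ ^ k * ∑ z, |D z|) := mul_nonneg h0 h1
      refine h.syl_bstep h2 hP (add_nonneg hC h1) ?_ ?_ ih hR
      · rw [pow_succ', mul_assoc]
        linarith
      · rw [pow_succ', mul_assoc, mul_add]
        linarith
  intro z r
  have hlim : Tendsto (fun k : ℕ => (C + ϑ ^ k * ∑ z, |D z|) * 2 ^ U r) atTop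
      (𝓝 ((C + 0 * ∑ z, |D z|) * 2 ^ U r)) :=
    (((tendsto_pow_atTop_nhds_zero_of_lt_one h0 h.lt).mul_const _).const_add _).mul_const _
  rw [zero_mul, add_zero] at hlim
  exact ge_of_tendsto' hlim fun k => key k z r

end Pool.Agent.Lib.MP_788af2_nt.AG
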