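import Pool.Agent.Lib.MP_788af2_nt.AG.TwoB
import Pool.Agent.Lib.MP_788af2_nt.AG.Link
import Pool.Agent.Lib.MP_788af2_nt.AG.Cnt
import Pool.Agent.Lib.MP_788af2_nt.AG.Psi
import Pool.Agent.Lib.MP_788af2_nt.DW.PointSum

/-!
The trace formula.
-/

set_option linter.unusedSectionVars false

namespace Pool.Agent.Lib.MP_788af2_nt.AG

open Polynomial Filter Topology Pool.Agent.Lib.MP_788af2_nt.AS Pool.Agent.Lib.MP_a3f657_nt.Two

variable {K J Z k κ : Type} [NontriviallyNormedField K] [IsUltrametricDist K] [CompleteSpace K]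
  [CharZero K] [Fintype J] [Fintype Z] [DecidableEq J] [DecidableEq Z] [Field k] [Fintype k]
  [CharP k 2] [Field κ] [CharP κ 2] [IsAlgClosed κ] [Algebra k κ]

/-- The integral polynomial `P` reduces to `Q`. -/
def Lift.TrRd (ℓ : Lift K κ) (P : K[X]) (Q : κ[X]) : Prop :=
  ∀ n, ‖P.coeff n‖ ≤ 1 ∧ ℓ.red (P.coeff n) = Q.coeff n

namespace Lift

variable {ℓ : Lift K κ} {P P' : K[X]} {Q Q' : κ[X]}

lemma TrRd.mul (h : ℓ.TrRd P Q) (h' : ℓ.TrRd P' Q') : ℓ.TrRd (P * P') (Q * Q') := by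
  intro n
  have h1 : ∀ p : ℕ × ℕ, ‖P.coeff p.1 * P'.coeff p.2‖ ≤ 1 := fun p => by
    rw [norm_mul]
    exact mul_le_one₀ (h _).1 (norm_nonneg _) (h' _).1
  rw [coeff_mul, coeff_mul, ℓ.red_sum _ h1]
  refine ⟨IsUltrametricDist.norm_sum_le_of_forall_le_of_nonneg zero_le_one fun p _ => h1 p,
    Finset.sum_congr rfl fun p _ => ?_⟩
  rw [ℓ.red_mul _ _ (h _).1 (h' _).1, (h _).2, (h' _).2]

lemma tr_rd_C (x : κ) : ℓ.TrRd (C (ℓ.τ x)) (C x) := by
  intro n
  rw [coeff_C, coeff_C]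
  split_ifs
  · exact ⟨ℓ.τ_le x, ℓ.red_τ x⟩
  · exact ⟨by simp, ℓ.red_zero⟩

lemma tr_rd_one : ℓ.TrRd 1 1 := by simpa using tr_rd_C (ℓ := ℓ) 1

lemma TrRd.pow (h : ℓ.TrRd P Q) (n : ℕ) : ℓ.TrRd (P ^ n) (Q ^ n) := by
  induction n with
  | zero => simpa using tr_rd_one
  | succ n ih => simpa only [pow_succ] using ih.mul h

lemma TrRd.prod {ι : Type} (s : Finset ι) {P : ι → K[X]} {Q : ι → κ[X]} (h : ∀ i, ℓ.TrRd (P i) (Q i)) :
    ℓ.TrRd (∏ i ∈ s, P i) (∏ i ∈ s, Q i) := by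
  classical
  induction s using Finset.induction_on with
  | empty => simpa using tr_rd_one
  | insert a s ha ih => simpa only [Finset.prod_insert ha] using (h a).mul ih

lemma tr_red_neg {x : K} (hx : ‖x‖ ≤ 1) : ℓ.red (-x) = -ℓ.red x := by
  have h := ℓ.red_add x (-x) hx (by rwa [norm_neg])
  rw [add_neg_cancel, ℓ.red_zero] at h
  exact eq_neg_of_add_eq_zero_right h.symm

lemma tr_rd_X_sub (x : κ) : ℓ.TrRd (X - C (ℓ.τ x)) (X - C x) := by
  intro n
  rw [coeff_sub, coeff_sub, coeff_X, coeff_X, coeff_C, coeff_C]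
  split_ifs with h1 h2 h2
  · omega
  · exact ⟨by simp, by simpa using ℓ.red_one⟩
  · rw [zero_sub, zero_sub, norm_neg, tr_red_neg (ℓ.τ_le x), ℓ.red_τ]
    exact ⟨ℓ.τ_le x, rfl⟩
  · exact ⟨by simp, by simpa using ℓ.red_zero⟩

end Lift

lemma Lnk.tr_rd_lam {q : Geo K J Z} {ℓ : Lift K κ} {b : k[X]} (L : Lnk q ℓ b) (j : J) :
    ℓ.TrRd (q.lam j) ((b ^ 2 ^ (q.i + 1)).map (L.emb j)) := by
  classical
  have h0 : b.map (L.emb j) ≠ 0 := Polynomial.map_ne_zero L.ne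
  have h1 : b.map (L.emb j) = C (L.emb j b.leadingCoeff) *
      ∏ z ∈ Finset.univ.filter (fun z => q.jz z = j), (X - C (L.rt z)) ^ q.n z := by
    refine (IsAlgClosed.splits _).eq_prod_roots.trans ?_
    rw [leadingCoeff_map, prod_multiset_root_eq_finset_root]
    congr 1
    refine (Finset.prod_bij (fun z _ => L.rt z) (fun z hz => ?_) (fun z hz z' hz' h => ?_)
      (fun x hx => ?_) fun z hz => ?_).symm
    · have h2 := q.n_pos z
      rw [L.mult, (Finset.mem_filter.mp hz).2, rootMultiplicity_pos h0] at h2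
      rw [Multiset.mem_toFinset, mem_roots h0]
      exact h2
    · exact L.inj z z' ((Finset.mem_filter.mp hz).2.trans (Finset.mem_filter.mp hz').2.symm) h
    · rw [Multiset.mem_toFinset, mem_roots h0] at hx
      obtain ⟨z, h2, h3⟩ := L.surj j x hx
      exact ⟨z, by simp [h2], h3⟩
    · rw [L.mult, (Finset.mem_filter.mp hz).2]
  rw [Polynomial.map_pow, h1, mul_pow, ← Finset.prod_pow, ← C_pow, ← map_pow, Geo.lam, L.u_eq]
  refine (Lift.tr_rd_C _).mul (Lift.TrRd.prod _ fun z => ?_)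
  rw [← pow_mul, mul_comm, L.β_eq]
  exact (Lift.tr_rd_X_sub _).pow _

lemma Lnk.red_lam {q : Geo K J Z} {ℓ : Lift K κ} {b : k[X]} (L : Lnk q ℓ b) (j : J) (n : ℕ) :
    ℓ.red ((q.lam j).coeff n) = L.emb j ((b ^ 2 ^ (q.i + 1)).coeff n) := by
  rw [(L.tr_rd_lam j n).2, coeff_map]

lemma tr_dvd_of_fix {f n : ℕ} (hk : Fintype.card k = 2 ^ f) (h : ∀ c : k, c ^ 2 ^ n = c) : f ∣ n := by
  have h1 : 2 ^ f - 1 ∣ 2 ^ n - 1 := by
    rw [← hk, ← FiniteField.forall_pow_eq_one_iff]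
    intro x
    refine mul_right_cancel (b := x) ?_
    rw [← pow_succ, Nat.sub_add_cancel Nat.one_le_two_pow, one_mul]
    exact Units.ext (by simpa using h x)
  have h2 := Nat.pow_sub_one_gcd_pow_sub_one 2 f n
  rw [Nat.gcd_eq_left h1] at h2
  have h3 : 2 ^ f = 2 ^ Nat.gcd f n := by
    have := Nat.one_le_two_pow (n := f)
    have := Nat.one_le_two_pow (n := Nat.gcd f n)
    omega
  rw [Nat.pow_right_injective le_rfl h3]
  exact Nat.gcd_dvd_right f n

lemma tr_emb_bij {f : ℕ} (hk : Fintype.card k = 2 ^ f) : Function.Bijective fun m : Fin f =>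
    (iterateFrobenius κ 2 m).comp (algebraMap k κ) := by
  have key : ∀ m m' : Fin f, m ≤ m' → (iterateFrobenius κ 2 m).comp (algebraMap k κ) =
      (iterateFrobenius κ 2 m').comp (algebraMap k κ) → m = m' := by
    intro m m' hle h
    obtain ⟨r, hr⟩ := Nat.exists_eq_add_of_le (show (m : ℕ) ≤ m' from hle)
    have h1 : f ∣ r := tr_dvd_of_fix hk fun c => by
      have h2 : algebraMap k κ c ^ 2 ^ (m : ℕ) = algebraMap k κ c ^ 2 ^ (m' : ℕ) :=
        DFunLike.congr_fun h c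
      rw [hr, add_comm, pow_add, pow_mul, ← map_pow (algebraMap k κ) c (2 ^ r)] at h2
      exact (algebraMap k κ).injective ((iterateFrobenius κ 2 m).injective h2.symm)
    have h2 := Nat.eq_zero_of_dvd_of_lt h1 (by have := m'.2; omega)
    exact Fin.ext (by omega)
  have hinj : Function.Injective fun m : Fin f =>
      (iterateFrobenius κ 2 m).comp (algebraMap k κ) := fun m m' h =>
    (le_total m m').elim (fun h1 => key m m' h1 h) fun h1 => (key m' m h1 h.symm).symm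
  let := ZMod.algebra k 2
  let := ZMod.algebra κ 2
  let Φ : (k →+* κ) → (k →ₐ[ZMod 2] κ) := fun e => ⟨e, fun r =>
    DFunLike.congr_fun (Subsingleton.elim (e.comp (algebraMap (ZMod 2) k))
      (algebraMap (ZMod 2) κ)) r⟩
  have hΦ : Function.Injective Φ := fun e e' h => congrArg AlgHom.toRingHom h
  have := Finite.of_injective Φ hΦ
  refine hinj.bijective_of_nat_card_le ((Nat.card_le_card_of_injective Φ hΦ).trans
    ((card_algHom_le_finrank _ _ _).trans (le_of_eq ?_)))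
  have h3 := Module.card_eq_pow_finrank (K := ZMod 2) (V := k)
  rw [hk, ZMod.card] at h3
  rw [Nat.card_fin]
  exact (Nat.pow_right_injective le_rfl h3).symm


/-- `E = 1 + 2 z` modulo four. -/
def Lift.TrSg (ℓ : Lift K κ) (E : K) (z : κ) : Prop :=
  ∃ y : K, ‖y‖ ≤ 1 ∧ ‖E - 1 - 2 * y‖ ≤ 1 / 4 ∧ ℓ.red y = z

namespace Lift

variable {ℓ : Lift K κ} {E E' : K} {z z' : κ}

lemma TrSg.mul (h : ℓ.TrSg E z) (h' : ℓ.TrSg E' z') : ℓ.TrSg (E * E') (z + z') := by
  obtain ⟨y, h1, h2, rfl⟩ := h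
  obtain ⟨y', h1', h2', rfl⟩ := h'
  have hadd : ∀ {a b : K} {c : ℝ}, ‖a‖ ≤ c → ‖b‖ ≤ c → ‖a + b‖ ≤ c := fun ha hb =>
    (IsUltrametricDist.norm_add_le_max _ _).trans (max_le ha hb)
  refine ⟨y + y', hadd h1 h1', ?_, ℓ.red_add _ _ h1 h1'⟩
  have h3 : ‖2 * y‖ ≤ 1 / 2 := by
    rw [norm_mul, ℓ.two]
    linarith
  have h4 : ‖2 * y'‖ ≤ 1 / 2 := by
    rw [norm_mul, ℓ.two]
    linarith
  have h5 : ‖E'‖ ≤ 1 := by
    rw [show E' = (E' - 1 - 2 * y') + (1 + 2 * y') by ring]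
    exact hadd (h2'.trans (by norm_num)) (hadd norm_one.le (h4.trans (by norm_num)))
  have h6 : ‖E' - 1‖ ≤ 1 / 2 := by
    rw [show E' - 1 = (E' - 1 - 2 * y') + 2 * y' by ring]
    exact hadd (h2'.trans (by norm_num)) h4
  rw [show E * E' - 1 - 2 * (y + y') = (E - 1 - 2 * y) * E' +
    ((E' - 1 - 2 * y') + 2 * y * (E' - 1)) by ring]
  refine hadd ?_ (hadd h2' ?_)
  · rw [norm_mul]
    nlinarith [norm_nonneg (E - 1 - 2 * y), norm_nonneg E']
  · rw [norm_mul]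
    nlinarith [norm_nonneg (2 * y), norm_nonneg (E' - 1)]

lemma TrSg.prod {ι : Type} (s : Finset ι) {E : ι → K} {z : ι → κ} (h : ∀ i, ℓ.TrSg (E i) (z i)) :
    ℓ.TrSg (∏ i ∈ s, E i) (∑ i ∈ s, z i) := by
  classical
  induction s using Finset.induction_on with
  | empty => exact ⟨0, by simp, by simp, by simpa using ℓ.red_zero⟩
  | insert a s ha ih => simpa only [Finset.prod_insert ha, Finset.sum_insert ha] using (h a).mul ih

lemma TrSg.sign {n : ℕ} (h : ℓ.TrSg E (DW.trn n z)) (h1 : E ^ 2 = 1) : E = (DW.psi n z : K) := by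
  obtain ⟨S, hS1, h2, hS2⟩ := h
  unfold DW.psi
  rcases sq_eq_one_iff.mp h1 with h | h
  · rw [h, sub_self, zero_sub, norm_neg, norm_mul, ℓ.two] at h2
    rw [h, ← hS2, if_pos ((ℓ.red_eq_zero S hS1).mpr (by linarith)), Int.cast_one]
  · rw [h, show (-1 : K) - 1 - 2 * S = -(2 * (1 + S)) by ring, norm_neg, norm_mul, ℓ.two] at h2
    have h3 := (ℓ.red_eq_zero (1 + S) ((IsUltrametricDist.norm_add_le_max _ _).trans
      (max_le norm_one.le hS1))).mpr (by linarith)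
    rw [ℓ.red_add _ _ norm_one.le hS1, ℓ.red_one, hS2] at h3
    rw [h, if_neg fun h4 => by simp [h4] at h3]
    simp

/-- Reading off the class modulo four from an approximation of the coefficients. -/
lemma tr_sg_of {ι : Type} {a χ u y : ι → K} {Y : K} (ha : Summable a) (hχ : ∀ i, ‖χ i‖ ≤ 1)
    (hu : HasSum (fun i => u i * χ i) 1) (hy : HasSum (fun i => y i * χ i) Y) (hY : ‖Y‖ ≤ 1)
    (h : ∀ i, ‖a i - u i - 2 * y i‖ ≤ 1 / 4) : ℓ.TrSg (DW.evp χ a) (ℓ.red Y) := by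
  refine ⟨Y, hY, ?_, rfl⟩
  rw [DW.evp,
    ← (((DW.summable_mul_of_le_one ha hχ).hasSum.sub hu).sub (hy.mul_left 2)).tsum_eq]
  refine IsUltrametricDist.norm_tsum_le_of_forall_le_of_nonneg (by norm_num) fun i => ?_
  rw [show a i * χ i - u i * χ i - 2 * (y i * χ i) = (a i - u i - 2 * y i) * χ i by ring, norm_mul]
  exact (mul_le_of_le_one_right (norm_nonneg _) (hχ i)).trans (h i)

/-- The value of an integral polynomial at a lifted point. -/
lemma TrRd.hasSum {P : K[X]} {Q : κ[X]} (h : ℓ.TrRd P Q) (t w : κ) : ∃ Y : K, ‖Y‖ ≤ 1 ∧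
    HasSum (fun n => P.coeff n * ℓ.τ (t ^ n * w)) Y ∧ ℓ.red Y = Q.eval t * w := by
  have h1 : ∀ n, ‖P.coeff n * ℓ.τ (t ^ n * w)‖ ≤ 1 := fun n => by
    rw [norm_mul]
    exact mul_le_one₀ (h _).1 (norm_nonneg _) (ℓ.τ_le _)
  refine ⟨∑ n ∈ Finset.range (P.natDegree + Q.natDegree + 1), P.coeff n * ℓ.τ (t ^ n * w),
    IsUltrametricDist.norm_sum_le_of_forall_le_of_nonneg zero_le_one fun n _ => h1 n,
    hasSum_sum_of_ne_finset_zero fun n hn => ?_, ?_⟩
  · rw [coeff_eq_zero_of_natDegree_lt (by simp only [Finset.mem_range] at hn; omega), zero_mul]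
  · rw [ℓ.red_sum _ h1, eval_eq_sum_range' (show Q.natDegree < P.natDegree + Q.natDegree + 1 by
      omega), Finset.sum_mul]
    refine Finset.sum_congr rfl fun n _ => ?_
    rw [ℓ.red_mul _ _ (h _).1 (ℓ.τ_le _), (h _).2, ℓ.red_τ, mul_assoc]

lemma tr_exists_rd (ℓ : Lift K κ) (Q : κ[X]) :
    ∃ P : K[X], ℓ.TrRd P Q ∧ ∀ n, P.coeff n = ℓ.τ (Q.coeff n) := by
  have h : ∀ n, (Q.sum fun m c => monomial m (ℓ.τ c)).coeff n = ℓ.τ (Q.coeff n) := fun n => by
    rw [coeff_sum]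
    simp only [coeff_monomial, Polynomial.sum, Finset.sum_ite_eq']
    split_ifs with h
    · rfl
    · rw [notMem_support_iff.mp h, map_zero]
  exact ⟨_, fun n => by rw [h, ℓ.red_τ]; exact ⟨ℓ.τ_le _, rfl⟩, h⟩

end Lift

section ev

variable {p : Pm} {a b χ : Arr K}

lemma Dec.tr_summable (h : Dec p a) : Summable a := by
  have h1 := (mod_of_neg (p := p) (x := fun u : ℤ × ℤ => if u.1 ≤ 0 then (1 : K) else 0) (C := 1)
    (fun u hu => if_neg (not_le.mpr hu)) fun u => ?_).1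
  · refine (h.summable h1 0).congr fun v => ?_
    by_cases hv : v.1 < 0
    · rw [h.1 v hv, zero_mul]
    · rw [if_pos (by simpa using hv), mul_one]
  · split_ifs with hu
    · rw [norm_one, one_mul]
      refine Real.one_le_rpow one_le_two ?_
      have : (0 : ℝ) ≤ ((-u.1 : ℤ) : ℝ) := by exact_mod_cast neg_nonneg.mpr hu
      have : (0 : ℝ) ≤ ((|u.2| : ℤ) : ℝ) := by exact_mod_cast abs_nonneg _
      positivity
    · rw [norm_zero]
      positivity

lemma tr_supp (h : ∀ u : ℤ × ℤ, u.1 < 0 → a u = 0) : DW.Supp DW.cone a :=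
  fun u hu => h u (not_le.mp hu)

lemma tr_conv_eq (a b : Arr K) : conv a b = DW.convd 1 a b := by
  funext u
  simp only [conv, DW.convd, one_smul]

lemma tr_evp_conv (ha : Summable a) (hb : Summable b) (ha' : DW.Supp DW.cone a)
    (hb' : DW.Supp DW.cone b) (hχ : DW.Pt DW.cone χ) :
    DW.evp χ (conv a b) = DW.evp χ a * DW.evp χ b := by
  rw [tr_conv_eq, DW.evp_convd ha hb ha' hb' hχ]
  simp only [one_smul]

lemma tr_two_inj : Function.Injective fun w : ℤ × ℤ => (2 : ℕ) • w := fun _ _ h =>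
  nsmul_right_injective two_ne_zero h

lemma tr_phi_two (a : Arr K) (w : ℤ × ℤ) : phi a ((2 : ℕ) • w) = a w := by
  simp [phi]

lemma tr_phi_not (a : Arr K) {u : ℤ × ℤ} (h : u ∉ Set.range fun w : ℤ × ℤ => (2 : ℕ) • w) :
    phi a u = 0 := by
  refine if_neg fun ⟨⟨x, hx⟩, ⟨y, hy⟩⟩ => h ⟨(x, y), Prod.ext ?_ ?_⟩
  · rw [hx, DW.nsmul_fst, Nat.cast_ofNat]
  · rw [hy, DW.nsmul_snd, Nat.cast_ofNat]

lemma tr_summable_phi (ha : Summable a) : Summable (phi a) :=
  (tr_two_inj.summable_iff fun _ => tr_phi_not a).mp (ha.congr fun w => (tr_phi_two a w).symm)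

lemma tr_supp_phi (ha : DW.Supp DW.cone a) : DW.Supp DW.cone (phi a) := by
  intro u hu
  rw [DW.mem_cone] at hu
  unfold phi
  split_ifs
  · exact ha _ (by rw [DW.mem_cone]; simp only; omega)
  · rfl

lemma tr_evp_phi (χ a : Arr K) : DW.evp χ (phi a) = DW.evp (fun u => χ ((2 : ℕ) • u)) a := by
  unfold DW.evp
  rw [← tr_two_inj.tsum_eq]
  · simp only [tr_phi_two]
  · intro u hu
    by_contra h
    exact hu (by simp only [tr_phi_not a h, zero_mul])

lemma tr_hasSum_one (χ : Arr K) : HasSum (fun u => one u * χ u) (χ 0) := by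
  have := hasSum_single (f := fun u => one u * χ u) 0 fun u hu => by simp [one, hu]
  simpa [one] using this

/-- Sums along a row. -/
lemma tr_hasSum_row {s : ℕ → K} {Y : K} (k : ℤ) (h : HasSum s Y) :
    HasSum (fun u : ℤ × ℤ => if 0 ≤ u.1 ∧ u.2 = k then s u.1.toNat else 0) Y := by
  have hi : Function.Injective fun n : ℕ => ((n : ℤ), k) := fun n n' h => by simpa using h
  refine (hi.hasSum_iff fun u hu => if_neg fun h => hu ⟨u.1.toNat, ?_⟩).mp ?_
  · exact Prod.ext (Int.toNat_of_nonneg h.1) h.2.symm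
  · simpa [Function.comp_def] using h

end ev


lemma Lift.TrRd.row {ℓ : Lift K κ} {P : K[X]} {Q : κ[X]} (h : ℓ.TrRd P Q) (t : κ) (x : κˣ) (k : ℤ) :
    ∃ Y : K, ‖Y‖ ≤ 1 ∧ HasSum (fun u : ℤ × ℤ => (if 0 ≤ u.1 ∧ u.2 = k then P.coeff u.1.toNat
      else 0) * DW.pt ℓ.τ t x u) Y ∧ ℓ.red Y = Q.eval t * (x ^ k : κˣ) := by
  obtain ⟨Y, h1, h2, h3⟩ := h.hasSum t (x ^ k : κˣ)
  refine ⟨Y, h1, ?_, h3⟩
  convert tr_hasSum_row k h2 using 2 with u
  split_ifs with hu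
  · rw [DW.pt, hu.2]
  · rw [zero_mul]

namespace Dat

variable (d : Dat K K J Z)

lemma tr_Ft_dec (j : J) : Dec d.p (Tm (d.Ft j)) := by
  refine dec_of_w (C := 1) (fun u hu => if_neg fun h => by omega) fun u hu => ?_
  unfold Tm
  split_ifs with h
  · refine (d.Ft_le j _).trans ?_
    rw [one_mul, h.2, Int.toNat_of_nonneg hu]
    refine Real.rpow_le_rpow_of_exponent_le one_le_two (neg_le_neg ?_)
    simpa using (d.p.w_le 0 hu).trans (by simpa using d.p.le_f u.1)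
  · rw [norm_zero]
    positivity

lemma tr_Fx_summable (j : J) : Summable (d.Fx j) := by
  refine NonarchimedeanAddGroup.summable_of_tendsto_cofinite_zero ?_
  rw [NormedAddGroup.tendsto_nhds_zero]
  intro ε hε
  obtain ⟨N, hN⟩ := exists_pow_lt_of_lt_one hε (show (2 : ℝ)⁻¹ < 1 by norm_num)
  rw [inv_pow, ← Real.rpow_natCast, ← Real.rpow_neg zero_le_two] at hN
  refine ((Set.finite_Icc (0 : ℤ) (2 * d.p.m * (N + N))).prod (Set.finite_Icc (-N : ℤ) N)).subset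
    fun u hu => ?_
  by_contra h
  refine hu ?_
  simp only [Set.mem_prod, Set.mem_Icc] at h
  change ‖d.Fx j u‖ < ε
  by_cases h1 : u.1 < 0
  · rwa [d.Fx_supp j u h1, norm_zero]
  by_cases h2 : (N : ℤ) ≤ |u.2|
  · refine (d.Fx_le j u).trans_lt (lt_of_le_of_lt
      (Real.rpow_le_rpow_of_exponent_le one_le_two (neg_le_neg ?_)) hN)
    exact_mod_cast h2
  · have h3 := abs_lt.mp (not_le.mp h2)
    have h4 : 2 * (d.p.m : ℤ) * (N + N) < u.1 := by
      by_contra h4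
      exact h ⟨⟨by omega, by omega⟩, by omega, by omega⟩
    refine (d.Fx_le' j u N (lt_of_le_of_lt (mul_le_mul_of_nonneg_left (by omega)
      (by positivity)) h4)).trans_lt (lt_of_le_of_lt
      (Real.rpow_le_rpow_of_exponent_le one_le_two ?_) hN)
    have : (0 : ℝ) ≤ ((|u.2| : ℤ) : ℝ) := by exact_mod_cast abs_nonneg _
    have : (0 : ℝ) ≤ N := Nat.cast_nonneg N
    linarith

variable {d} {ℓ : Lift K κ} {a b : k[X]}

lemma sg_Ft {e : k →+* κ} {j : J} (hF : ∀ n, ‖PowerSeries.coeff n (d.Ft j) -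
    (if n = 0 then 1 else 0) - 2 * ℓ.τ (e (a.coeff n))‖ ≤ 1 / 4) (t : κ) (x : κˣ) :
    ℓ.TrSg (DW.evp (DW.pt ℓ.τ t x) (Tm (d.Ft j))) ((a.map e).eval t) := by
  obtain ⟨P, h1, h2⟩ := ℓ.tr_exists_rd (a.map e)
  obtain ⟨Y, h3, h4, h5⟩ := h1.row t x 0
  rw [zpow_zero, Units.val_one, mul_one] at h5
  rw [← h5]
  refine Lift.tr_sg_of (d.tr_Ft_dec j).tr_summable (DW.pt_pt ℓ.τ_le t x).le
    (by simpa [DW.pt] using tr_hasSum_one (DW.pt ℓ.τ t x)) h4 h3 fun u => ?_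
  unfold Tm one
  by_cases h : 0 ≤ u.1 ∧ u.2 = 0
  · rw [if_pos h, if_pos h, h2, coeff_map]
    refine le_of_eq_of_le ?_ (hF u.1.toNat)
    congr 3
    exact if_congr ⟨fun h6 => by simp [h6], fun h6 => Prod.ext (by simp only [Prod.fst_zero]; omega)
      h.2⟩ rfl rfl
  · rw [if_neg h, if_neg h, if_neg fun h6 => h (by simp [h6])]
    simp

lemma sg_Fx (L : Lnk d.toGeo ℓ b) (j : J) (t : κ) (x : κˣ) :
    ℓ.TrSg (DW.evp (DW.pt ℓ.τ t x) (d.Fx j))
      (x + ((b ^ 2 ^ (d.i + 1)).map (L.emb j)).eval t / x) := by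
  obtain ⟨Y, h1, h2, h3⟩ := (Lift.tr_rd_one (ℓ := ℓ)).row t x 1
  obtain ⟨Y', h4, h5, h6⟩ := (L.tr_rd_lam j).row t x (-1)
  rw [eval_one, one_mul, zpow_one] at h3
  rw [zpow_neg, zpow_one, Units.val_inv_eq_inv_val, ← div_eq_mul_inv] at h6
  rw [← h6, ← h3, ← ℓ.red_add _ _ h1 h4]
  have h7 := h2.add h5
  simp only [← add_mul] at h7
  refine Lift.tr_sg_of (d.tr_Fx_summable j) (DW.pt_pt ℓ.τ_le t x).le
    (by simpa [DW.pt] using tr_hasSum_one (DW.pt ℓ.τ t x)) h7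
    ((IsUltrametricDist.norm_add_le_max _ _).trans (max_le h1 h4)) fun u => ?_
  obtain ⟨n, k⟩ := u
  rcases lt_or_ge n 0 with hn | hn
  · rw [d.Fx_supp j _ hn, one, if_neg (by simp; omega), if_neg (by simp; omega),
      if_neg (by simp; omega)]
    simp
  lift n to ℕ using hn
  by_cases k0 : k = 0
  · have h8 := d.Fx_zero j n
    have h9 : ‖algebraMap K K (4 * (d.lam j).coeff n)‖ ≤ 1 / 4 := by
      have := (L.tr_rd_lam j n).1
      rw [Algebra.algebraMap_self_apply, norm_mul, show (4 : K) = 2 * 2 by norm_num, norm_mul,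
        ℓ.two]
      linarith
    have h10 := (IsUltrametricDist.norm_add_le_max _ _).trans
      (max_le (h8.trans (by norm_num)) h9)
    simpa [one, k0] using h10
  by_cases k1 : k = 1
  · have h8 := (d.Fx_one j n).trans (show (1 : ℝ) / 8 ≤ 1 / 4 by norm_num)
    simpa [one, k1, coeff_one] using h8
  by_cases k2 : k = -1
  · have h8 := (d.Fx_neg_one j n).trans (show (1 : ℝ) / 8 ≤ 1 / 4 by norm_num)
    simpa [one, k2] using h8
  have h8 : ‖d.Fx j (n, k)‖ ≤ 1 / 4 := by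
    refine (d.Fx_le j _).trans ?_
    have h9 : (2 : ℝ) ≤ ((|k| : ℤ) : ℝ) := by exact_mod_cast (le_abs.mpr (by omega) : 2 ≤ |k|)
    refine (Real.rpow_le_rpow_of_exponent_le one_le_two (neg_le_neg h9)).trans (le_of_eq ?_)
    rw [Real.rpow_neg zero_le_two]
    norm_num
  simpa [one, k0, k1, k2] using h8

variable (d) in
lemma evp_F_sq {χ : Arr K} (hχ : DW.Pt DW.cone χ) (j : J) :
    DW.evp χ (d.F j) ^ 2 * DW.evp (fun u => χ ((2 : ℕ) • u)) (d.g (d.σ j)) = DW.evp χ (d.g j) := by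
  have h1 := (d.F_dec j).tr_summable
  have h2 := tr_supp (d.F_supp j)
  have h3 := tr_summable_phi (d.g_dec (d.σ j)).tr_summable
  have h4 := tr_supp_phi (tr_supp (d.g_supp (d.σ j)))
  have h5 := DW.summable_convd h1 h3 1
  have h6 := h2.convd h4 1
  rw [← tr_conv_eq] at h5 h6
  rw [← d.F_g j, tr_evp_conv h1 h5 h2 h6 hχ, tr_evp_conv h1 h3 h2 h4 hχ, tr_evp_phi]
  ring

variable (d) in
lemma evp_g_ne (ℓ : Lift K κ) (t : κ) (x : κˣ) (j : J) : DW.evp (DW.pt ℓ.τ t x) (d.g j) ≠ 0 := by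
  have h := tr_evp_conv (d.g_dec j).tr_summable (d.gi_dec j).tr_summable (tr_supp (d.g_supp j))
    (tr_supp (d.gi_supp j)) (DW.pt_pt ℓ.τ_le t x)
  rw [d.g_mul_gi, DW.evp, (tr_hasSum_one (DW.pt ℓ.τ t x)).tsum_eq,
    show DW.pt ℓ.τ t x 0 = 1 by simp [DW.pt]] at h
  exact left_ne_zero_of_mul_eq_one h.symm

lemma tr_emb_iter (L : Lnk d.toGeo ℓ b) (j : J) (r : ℕ) :
    L.emb (d.σ^[r] j) = (iterateFrobenius κ 2 r).comp (L.emb j) := by
  ext c
  induction r with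
  | zero => simp
  | succ r ih =>
    rw [Function.iterate_succ_apply', L.emb_σ, ih]
    simp only [RingHom.comp_apply, iterateFrobenius_def, pow_succ, pow_mul]

lemma tr_eval_frob (P : k[X]) (e : k →+* κ) (r : ℕ) (t : κ) :
    (P.map ((iterateFrobenius κ 2 r).comp e)).eval (t ^ 2 ^ r) = (P.map e).eval t ^ 2 ^ r := by
  rw [← Polynomial.map_map, eval_map]
  exact eval₂_hom (iterateFrobenius κ 2 r) t

/-- The product of the values of the Frobenius series along an orbit. -/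
lemma prod_F (L : Lnk d.toGeo ℓ b) (hF : ∀ j n, ‖PowerSeries.coeff n (d.Ft j) -
    (if n = 0 then 1 else 0) - 2 * ℓ.τ (L.emb j (a.coeff n))‖ ≤ 1 / 4) {n : ℕ} {j : J} {t : κ}
    {x : κˣ} (hj : d.σ^[n] j = j) (ht : t ^ 2 ^ n = t) (hx : x ^ 2 ^ n = x) :
    ∏ r ∈ Finset.range n, DW.evp (DW.pt ℓ.τ (t ^ 2 ^ r) (x ^ 2 ^ r)) (d.F (d.σ^[r] j)) =
      (DW.psi n ((a.map (L.emb j)).eval t + (x + ((b ^ 2 ^ (d.i + 1)).map (L.emb j)).eval t / x)) :
        K) := by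
  refine Lift.TrSg.sign (ℓ := ℓ) (Lift.TrSg.prod _ fun r => ?_) ?_
  · rw [F, tr_evp_conv (d.tr_Ft_dec _).tr_summable (d.tr_Fx_summable _) (tr_supp (d.tr_Ft_dec _).1)
      (tr_supp (d.Fx_supp _)) (DW.pt_pt ℓ.τ_le _ _)]
    convert (sg_Ft (hF _) _ _).mul (sg_Fx L _ _ _) using 1
    rw [tr_emb_iter L, tr_eval_frob, tr_eval_frob, add_pow_char_pow, add_pow_char_pow, div_pow,
      Units.val_pow_eq_pow_val]
  · have h : ∀ m, (∏ r ∈ Finset.range m, DW.evp (DW.pt ℓ.τ (t ^ 2 ^ r) (x ^ 2 ^ r))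
        (d.F (d.σ^[r] j))) ^ 2 * DW.evp (DW.pt ℓ.τ (t ^ 2 ^ m) (x ^ 2 ^ m)) (d.g (d.σ^[m] j)) =
        DW.evp (DW.pt ℓ.τ t x) (d.g j) := by
      intro m
      induction m with
      | zero => simp
      | succ m ih =>
        rw [Finset.prod_range_succ, mul_pow, mul_assoc, Function.iterate_succ_apply', pow_succ 2 m,
          pow_mul, pow_mul, ← DW.pt_nsmul _ _ _ 2, d.evp_F_sq (DW.pt_pt ℓ.τ_le _ _), ih]
    have h1 := h n
    rwa [hj, ht, hx, mul_eq_right₀ (d.evp_g_ne ℓ t x j)] at h1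

lemma tr_fix_iff (L : Lnk d.toGeo ℓ b) {f : ℕ} (hk : Fintype.card k = 2 ^ f) (n : ℕ) (j : J) :
    d.σ^[n] j = j ↔ f ∣ n := by
  rw [← L.emb.injective.eq_iff, tr_emb_iter L]
  constructor
  · intro h
    refine tr_dvd_of_fix hk fun c => (L.emb j).injective ?_
    rw [map_pow]
    exact DFunLike.congr_fun h c
  · rintro ⟨m, rfl⟩
    ext c
    rw [RingHom.comp_apply, iterateFrobenius_def, ← map_pow, pow_mul, ← hk,
      FiniteField.pow_card_pow]

end Dat

lemma tr_mpow_equiv {ι ι' : Type} (e : ι ≃ ι') (M : ι' → ι' → K) (n : ℕ) (r c : ι) :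
    mpow (fun r c => M (e r) (e c)) n r c = mpow M n (e r) (e c) := by
  induction n generalizing c with
  | zero => rfl
  | succ n ih =>
    simp only [mpow, mmul, ih]
    exact e.tsum_eq fun s => mpow M n (e r) s * M s (e c)

lemma Dat.mtr_M (d : Dat K K J Z) {s : ℤ} (hs : 0 ≤ s) (hs' : s ≤ 1) (n : ℕ) :
    mtr (d.M s) (n + 1) = ∑ i : J, if d.σ^[n + 1] i = i then ∑' u : {u : ℤ × ℤ | s ≤ u.1},
      DW.iter 2 d.σ.symm (fun i => d.F (d.σ.symm i)) i n (2 ^ (n + 1) • (u : ℤ × ℤ) - u) else 0 := by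
  have h1 := DW.mtr_mpow_op (fun i => (d.F_dec (d.σ.symm i)).tr_summable)
    (fun i => tr_supp (d.F_supp (d.σ.symm i))) (S := {u : ℤ × ℤ | s ≤ u.1}) (q := 2)
    (fun u _ v hv w m _ h => by
      simp only [Set.mem_ofPred_eq, DW.mem_cone, Prod.fst_sub, DW.nsmul_fst] at *
      omega) d.σ.symm n (by
      have h := DW.smul_sub_injective (N := 2 ^ (n + 1) - 1)
        (Nat.sub_pos_of_lt (Nat.one_lt_two_pow (by omega)))
      rwa [Nat.sub_add_cancel Nat.one_le_two_pow] at h)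
  let e : J × Ex s ≃ {u : ℤ × ℤ | s ≤ u.1} × J := Equiv.prodComm _ _
  have h2 : d.M s = fun r c => DW.op {u : ℤ × ℤ | s ≤ u.1} 2 d.σ.symm
      (fun i => d.F (d.σ.symm i)) (e r) (e c) := by
    funext r c
    change (if r.1 = d.σ c.1 then _ else 0) = _
    unfold DW.op
    by_cases h : r.1 = d.σ c.1
    · have h3 : d.σ.symm r.1 = c.1 := by rw [h, Equiv.symm_apply_apply]
      rw [if_pos h, if_pos (show (e c).2 = d.σ.symm (e r).2 from h3.symm)]
      change _ = d.F (d.σ.symm r.1) (2 • r.2.1 - c.2.1)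
      rw [h3]
      congr 1
    · rw [if_neg h, if_neg fun h3 : (e c).2 = d.σ.symm (e r).2 =>
        h ((Equiv.eq_symm_apply _).mp h3).symm]
  rw [mtr, h2]
  simp only [tr_mpow_equiv, Nat.add_sub_cancel]
  rw [e.tsum_eq fun r => mpow _ n r r, mpow_eq]
  refine h1.trans (Finset.sum_congr rfl fun i _ => ?_)
  have h3 : i = d.σ.symm^[n + 1] i ↔ d.σ^[n + 1] i = i :=
    ⟨fun h => (congrArg d.σ^[n + 1] h).trans (d.σ.right_inv.iterate (n + 1) i),
      fun h => (d.σ.left_inv.iterate (n + 1) i).symm.trans (congrArg d.σ.symm^[n + 1] h)⟩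
  by_cases h : d.σ^[n + 1] i = i
  · rw [if_pos h, if_pos (h3.mpr h)]
  · rw [if_neg h, if_neg (mt h3.mp h)]

lemma tr_psi_frob (n m : ℕ) (z : κ) : DW.psi n (z ^ 2 ^ m) = DW.psi n z := by
  induction m with
  | zero => simp
  | succ m ih => rw [pow_succ, pow_mul, DW.psi_sq, ih]

open Classical in
lemma cnt_emb {f n : ℕ} (hk : Fintype.card k = 2 ^ f) (hn : f * n ≠ 0) (a b : k[X]) (j : ℕ)
    [Fintype (Fix κ (f * n))] (e : k →+* κ) :
    ∑ p : Fix κ (f * n) × (Fix κ (f * n))ˣ, DW.psi (f * n) ((a.map e).eval (p.1 : κ) +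
      (((p.2 : Fix κ (f * n)) : κ) + ((b ^ 2 ^ j).map e).eval (p.1 : κ) /
        ((p.2 : Fix κ (f * n)) : κ))) = -cnt κ a b n := by
  obtain ⟨m, rfl⟩ := (tr_emb_bij hk).2 e
  let φ : Fix κ (f * n) × (Fix κ (f * n))ˣ → Fix κ (f * n) × (Fix κ (f * n))ˣ :=
    fun p => (p.1 ^ 2 ^ (m : ℕ), p.2 ^ 2 ^ (m : ℕ))
  have hφ : Function.Injective φ := by
    intro p q h
    have h1 : p.1 ^ 2 ^ (m : ℕ) = q.1 ^ 2 ^ (m : ℕ) := congrArg Prod.fst h
    have h2 := congrArg (fun x => (x.2 : Fix κ (f * n))) h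
    simp only [φ, Units.val_pow_eq_pow_val] at h2
    exact Prod.ext ((iterateFrobenius _ 2 m).injective h1)
      (Units.ext ((iterateFrobenius _ 2 m).injective h2))
  rw [cnt_eq hk hn a b j, neg_neg, ← (Finite.injective_iff_bijective.mp hφ).sum_comp]
  refine Finset.sum_congr rfl fun p _ => ?_
  simp only [φ, Units.val_pow_eq_pow_val, SubmonoidClass.coe_pow, Dat.tr_eval_frob]
  rw [← div_pow, ← add_pow_char_pow, ← add_pow_char_pow, tr_psi_frob, Polynomial.map_pow, eval_pow,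
    eval_map_algebraMap, eval_map_algebraMap, add_assoc]

theorem trace_eq (d : Dat K K J Z) (ℓ : Lift K κ) {a b : k[X]} (L : Lnk d.toGeo ℓ b) {f : ℕ}
    (hk : Fintype.card k = 2 ^ f) (hF : ∀ j n, ‖PowerSeries.coeff n (d.Ft j) -
      (if n = 0 then 1 else 0) - 2 * ℓ.τ (L.emb j (a.coeff n))‖ ≤ 1 / 4) (n : ℕ) (hn : 1 ≤ n) :
    (if f ∣ n then (f : K) * (cnt κ a b (n / f) : K) else 0) =
      -((2 ^ n - 1) * (2 ^ n * mtr (d.M 0) n - mtr (d.M 1) n)) := by
  classical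
  obtain ⟨n, rfl⟩ : ∃ m, n = m + 1 := ⟨n - 1, by omega⟩
  rw [d.mtr_M le_rfl zero_le_one, d.mtr_M zero_le_one le_rfl]
  simp only [Dat.tr_fix_iff L hk]
  split_ifs with h
  swap
  · simp
  obtain ⟨m, hm⟩ := h
  have hf : 0 < f := Nat.pos_of_ne_zero (by rintro rfl; simp at hm)
  have := finite_Fix (κ := κ) (n := f * m) (by omega)
  have := Fintype.ofFinite (Fix κ (f * m))
  obtain ⟨N, hN⟩ : ∃ N, 2 ^ (n + 1) = N + 1 := ⟨_, (Nat.sub_add_cancel Nat.one_le_two_pow).symm⟩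
  have hc : Fintype.card (Fix κ (f * m)) = N + 1 := by
    rw [← Nat.card_eq_fintype_card, card_Fix (by omega), ← hm, hN]
  have hJ : Fintype.card J = f := by
    rw [← Nat.card_eq_fintype_card, Nat.card_congr L.emb,
      ← Nat.card_congr (Equiv.ofBijective _ (tr_emb_bij hk)), Nat.card_fin]
  have hNK : (2 : K) ^ (n + 1) = N + 1 := by exact_mod_cast hN
  let τ : Fix κ (f * m) →*₀ K := ℓ.τ.comp (Fix κ (f * m)).subtype.toMonoidWithZeroHom
  have hτ : Function.Injective τ := fun x y h => Subtype.ext (by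
    have := congrArg ℓ.red h
    simpa [τ, ℓ.red_τ] using this)
  have hs := fun i => (d.F_dec (d.σ.symm i)).tr_summable
  have hs' := fun i => tr_supp (d.F_supp (d.σ.symm i))
  rw [hNK, hN, show (n + 1) / f = m by rw [hm, Nat.mul_div_cancel_left _ hf], Finset.mul_sum,
    ← Finset.sum_sub_distrib,
    Finset.mul_sum, ← Finset.sum_neg_distrib, ← hJ, ← nsmul_eq_mul, ← Finset.card_univ,
    ← Finset.sum_const]
  refine Finset.sum_congr rfl fun i _ => ?_
  have h1 := DW.point_sum hτ (fun x => ℓ.τ_le _) hc (DW.summable_iter hs 2 d.σ.symm i n)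
    (DW.supp_iter hs' 2 d.σ.symm i n)
  have h2 := (DW.summable_iter hs 2 d.σ.symm i n).comp_injective
    (DW.smul_sub_injective (N := N) (by have := Nat.one_lt_two_pow (n := n + 1) (by omega); omega))
  have h3 : {u : ℤ × ℤ | 0 ≤ u.1} = DW.Sp ∪ DW.Sz := by
    ext u
    simp only [DW.Sp, DW.Sz, Set.mem_union, Set.mem_ofPred_eq]
    omega
  have h4 := Summable.tsum_union_disjoint (s := DW.Sp) (t := DW.Sz) (by
    rw [Set.disjoint_left]
    intro u h1 h2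
    simp only [DW.Sp, DW.Sz, Set.mem_ofPred_eq] at h1 h2
    omega) (h2.subtype _) (h2.subtype _)
  have h5 : ∑ p : Fix κ (f * m) × (Fix κ (f * m))ˣ, DW.evp (DW.pt τ p.1 p.2)
      (DW.iter 2 d.σ.symm (fun i => d.F (d.σ.symm i)) i n) = -(cnt κ a b m : K) := by
    rw [← Int.cast_neg, ← cnt_emb hk (by omega) a b (d.i + 1) (L.emb i), Int.cast_sum]
    refine Finset.sum_congr rfl fun p _ => ?_
    have hi := (Dat.tr_fix_iff L hk (n + 1) i).mpr ⟨m, hm⟩
    have h6 := Dat.prod_F L hF (t := p.1) (x := Units.map (Fix κ (f * m)).subtype.toMonoidHom p.2)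
      hi (by rw [hm]; exact p.1.2) (Units.ext (by rw [hm]; exact (p.2 : Fix κ (f * m)).2))
    rw [show DW.psi (n + 1) = DW.psi (K := κ) (f * m) by rw [hm]] at h6
    rw [DW.evp_iter hs hs' 2 _ i n (DW.pt_pt (τ := τ) (fun x => ℓ.τ_le _) _ _)]
    refine Eq.trans ?_ h6
    rw [← Finset.prod_range_reflect]
    refine Finset.prod_congr rfl fun r hr => ?_
    have hr' := Finset.mem_range.mp hr
    rw [DW.pt_nsmul, show n - (n + 1 - 1 - r) = r by omega]
    congr 1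
    · funext u
      simp only [DW.pt, τ, ← map_pow, ← map_zpow]
      refine congrArg ℓ.τ (Eq.trans (map_mul (Fix κ (f * m)).subtype _ _) ?_)
      rw [map_pow, map_pow]
      rfl
    · rw [← Function.iterate_succ_apply' d.σ.symm]
      congr 1
      have h7 : d.σ^[(n + 1 - 1 - r).succ] (d.σ^[r] i) = i := by
        rw [← Function.iterate_add_apply, show (n + 1 - 1 - r).succ + r = n + 1 by omega, hi]
      exact (congrArg _ h7.symm).trans (d.σ.left_inv.iterate _ _)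
  rw [h3]
  erw [h4]
  simp only [Function.comp_apply]
  unfold DW.Sp at h1 ⊢
  linear_combination h5 - h1

end Pool.Agent.Lib.MP_788af2_nt.AG
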