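import Pool.Agent.Lib.MP_788af2_nt.AG.Two1

/-!
The two variable series: bounds.
-/

set_option linter.unusedSectionVars false

namespace Pool.Agent.Lib.MP_788af2_nt.AG

open Polynomial Filter Topology

variable {K A J Z : Type} [NontriviallyNormedField K] [IsUltrametricDist K] [CompleteSpace K]
  [CharZero K] [NormedCommRing A] [NormedAlgebra K A] [IsUltrametricDist A] [CompleteSpace A]
  [NormOneClass A] [Fintype J] [Fintype Z] [DecidableEq J] [DecidableEq Z] (d : Dat K A J Z)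

namespace Dat

section aux

variable {p : Pm} {a b : Arr A} {C C' : ℝ}

lemma two2_quarter (k : ℕ) : (1 / 4 : ℝ) ^ k = 2 ^ (-(2 * (k : ℝ))) := by
  rw [Real.rpow_neg (by norm_num), Real.rpow_mul (by norm_num), Real.rpow_natCast, ← inv_pow]
  norm_num

lemma two2_one_sub (x : ℝ) : (2 : ℝ) ^ (1 - x) = 2 * 2 ^ (-x) := by
  rw [sub_eq_add_neg, Real.rpow_add (by norm_num), Real.rpow_one]

lemma two2_exp {x y : ℝ} (h : x ≤ y) : (2 : ℝ) ^ x ≤ 2 ^ y :=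
  Real.rpow_le_rpow_of_exponent_le (by norm_num) h

lemma two2_conv_supp (ha : ∀ u : ℤ × ℤ, u.1 < 0 → a u = 0) (hb : ∀ u : ℤ × ℤ, u.1 < 0 → b u = 0)
    (u : ℤ × ℤ) (h : u.1 < 0) : conv a b u = 0 := by
  have e : (fun v => a v * b (u - v)) = fun _ => 0 := by
    funext v
    by_cases hv : v.1 < 0
    · rw [ha v hv, zero_mul]
    · rw [hb (u - v) (by rw [Prod.fst_sub]; omega), mul_zero]
  unfold conv
  rw [e, tsum_zero]

lemma two2_conv_le (ha : ∀ u : ℤ × ℤ, ‖a u‖ ≤ 1 * 2 ^ (-(2 * p.w u.1 u.2)))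
    (hb : ∀ u : ℤ × ℤ, ‖b u‖ ≤ 1 * 2 ^ (-(2 * p.w u.1 u.2))) (u : ℤ × ℤ) :
    ‖conv a b u‖ ≤ 1 * 2 ^ (-(2 * p.w u.1 u.2)) := by
  refine norm_conv_le (by positivity) fun v => ?_
  refine (mul_le_mul (ha v) (hb (u - v)) (norm_nonneg _) (by positivity)).trans ?_
  have h := p.w_add v.1 v.2 (u - v).1 (u - v).2
  rw [Prod.fst_sub, Prod.snd_sub, add_sub_cancel, add_sub_cancel] at h
  rw [one_mul, one_mul, one_mul, ← Real.rpow_add (by norm_num), Prod.fst_sub, Prod.snd_sub]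
  exact two2_exp (by linarith)

lemma two2_Tm_supp (s : PowerSeries A) (u : ℤ × ℤ) (h : u.1 < 0) : Tm s u = 0 :=
  if_neg fun h' => absurd h'.1 (by omega)

lemma two2_Xp_supp (s : PowerSeries K) (u : ℤ × ℤ) (h : u.1 < 0) : Xp A s u = 0 :=
  if_neg fun h' => absurd h'.1 (by omega)

lemma two2_Zm_supp (s : PowerSeries K[X]) (u : ℤ × ℤ) (h : u.1 < 0) : Zm A s u = 0 :=
  if_neg fun h' => absurd h'.1 (by omega)

lemma two2_Tm_le {s : PowerSeries A} (hC : 0 ≤ C)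
    (h : ∀ n : ℕ, ‖PowerSeries.coeff n s‖ ≤ C * 2 ^ (-(2 * ((n : ℝ) / p.e)))) (u : ℤ × ℤ) :
    ‖Tm s u‖ ≤ C * 2 ^ (-(2 * p.w u.1 u.2)) := by
  unfold Tm
  split_ifs with hu
  · refine (h _).trans (mul_le_mul_of_nonneg_left (two2_exp ?_) hC)
    have h1 := p.w_le u.2 hu.1
    have h2 : ((u.1.toNat : ℕ) : ℝ) = (u.1 : ℝ) := by
      exact_mod_cast Int.toNat_of_nonneg hu.1
    rw [hu.2] at h1 ⊢
    rw [h2]
    simp only [abs_zero, Int.cast_zero, add_zero] at h1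
    linarith
  · rw [norm_zero]
    positivity

lemma two2_Xp_le {s : PowerSeries K} (hC : 0 ≤ C)
    (h : ∀ n : ℕ, ‖PowerSeries.coeff n s‖ ≤ C * (1 / 4) ^ n) (u : ℤ × ℤ) :
    ‖Xp A s u‖ ≤ C * 2 ^ (-(2 * p.w u.1 u.2)) := by
  unfold Xp
  split_ifs with hu
  · rw [norm_algebraMap']
    refine (h _).trans (mul_le_mul_of_nonneg_left ?_ hC)
    rw [two2_quarter]
    refine two2_exp ?_
    have h1 := p.w_le u.2 hu.1.ge
    have h2 : ((u.2.toNat : ℕ) : ℝ) = (u.2 : ℝ) := by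
      exact_mod_cast Int.toNat_of_nonneg hu.2
    rw [abs_of_nonneg hu.2] at h1
    rw [hu.1] at h1 ⊢
    rw [h2]
    simp only [Int.cast_zero, zero_div, zero_add] at h1
    linarith
  · rw [norm_zero]
    positivity

lemma two2_Zm_le {s : PowerSeries K[X]} (hC : 0 ≤ C)
    (h : ∀ k n : ℕ, ‖(PowerSeries.coeff k s).coeff n‖ ≤ C * (1 / 4) ^ k)
    (hd : ∀ k : ℕ, (PowerSeries.coeff k s).natDegree ≤ 2 * p.m * k) (u : ℤ × ℤ) :
    ‖Zm A s u‖ ≤ C * 2 ^ (-(2 * p.w u.1 u.2)) := by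
  unfold Zm
  split_ifs with hu
  · rw [norm_algebraMap']
    obtain ⟨n, k⟩ := u
    obtain ⟨n, rfl⟩ := Int.eq_ofNat_of_zero_le hu.1
    obtain ⟨k, rfl⟩ : ∃ k' : ℕ, k = -(k' : ℤ) := ⟨(-k).toNat, by have := hu.2; omega⟩
    simp only [neg_neg, Int.toNat_natCast]
    by_cases hn : n ≤ 2 * p.m * k
    · rw [p.w_z n k (by omega) (by exact_mod_cast hn), ← two2_quarter]
      exact h k n
    · rw [coeff_eq_zero_of_natDegree_lt ((hd k).trans_lt (by omega)), norm_zero]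
      positivity
  · rw [norm_zero]
    positivity

lemma two2_mul_le {P Q : K[X]} (hC : 0 ≤ C) (hC' : 0 ≤ C') (hP : ∀ n, ‖P.coeff n‖ ≤ C)
    (hQ : ∀ n, ‖Q.coeff n‖ ≤ C') (n : ℕ) : ‖(P * Q).coeff n‖ ≤ C * C' := by
  rw [coeff_mul]
  refine IsUltrametricDist.norm_sum_le_of_forall_le_of_nonneg (by positivity) fun x _ => ?_
  rw [norm_mul]
  exact mul_le_mul (hP _) (hQ _) (norm_nonneg _) hC

lemma two2_dec (h0 : ∀ u : ℤ × ℤ, u.1 < 0 → a u = 0) (hC : 0 ≤ C)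
    (h : ∀ u : ℤ × ℤ, ‖a u‖ ≤ C * 2 ^ (-(2 * p.w u.1 u.2))) : Dec p a := by
  refine dec_of_w h0 (C := C) fun u hu => (h u).trans ?_
  have := p.potC_w_nonneg u.2 hu
  exact mul_le_mul_of_nonneg_left (two2_exp (by linarith)) hC

lemma two2_tendsto (p : Pm) {s : ℤ} (hs : 0 ≤ s) :
    Tendsto (p.wi : J × Ex s → ℝ) cofinite atTop := by
  rw [tendsto_atTop]
  intro B
  have h := tendsto_atTop.1 p.w_tendsto B
  rw [eventually_cofinite] at h ⊢
  let φ : J × Ex s → J × (ℕ × ℤ) := fun r => (r.1, r.2.1.1.toNat, r.2.1.2)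
  have hφ : Function.Injective φ := by
    rintro ⟨j, ⟨a, b⟩, h1⟩ ⟨j', ⟨a', b'⟩, h2⟩ h
    simp only [φ, Prod.mk.injEq] at h h1 h2
    obtain ⟨rfl, h3, rfl⟩ := h
    obtain rfl : a = a' := by omega
    rfl
  refine (((Set.finite_univ (α := J)).prod h).preimage hφ.injOn).subset fun r hr => ?_
  refine ⟨Set.mem_univ _, ?_⟩
  have h1 : ((r.2.1.1.toNat : ℕ) : ℤ) = r.2.1.1 := Int.toNat_of_nonneg (hs.trans r.2.2)
  simp only [φ, Set.mem_ofPred_eq, h1]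
  exact hr

end aux

lemma two2_zs_le {s : PowerSeries K} {C : ℝ} (hC : 0 ≤ C)
    (h : ∀ n : ℕ, ‖PowerSeries.coeff n s‖ ≤ C * (1 / 4) ^ n) (j : J) (u : ℤ × ℤ) :
    ‖Zm A (zs s (d.lam j)) u‖ ≤ C * 2 ^ (-(2 * d.p.w u.1 u.2)) := by
  refine two2_Zm_le hC (fun k n => ?_) (fun k => ?_) u
  · rw [zs, PowerSeries.coeff_mk, coeff_C_mul, norm_mul]
    exact (mul_le_mul (h k) (d.lam_le j k n) (norm_nonneg _) (by positivity)).trans_eq (mul_one _)
  · rw [zs, PowerSeries.coeff_mk]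
    refine (natDegree_C_mul_le _ _).trans (natDegree_pow_le.trans ?_)
    rw [d.lam_deg, mul_comm]

lemma two2_LZ_le (j : J) (u : ℤ × ℤ) :
    ‖Zm A (PowerSeries.mk fun k => C (PowerSeries.coeff k d.o.L) *
      (X * derivative (d.lam j) * d.lam j ^ (k - 1))) u‖ ≤
      ‖d.c0‖ * 2 * 2 ^ (-(2 * d.p.w u.1 u.2)) := by
  refine two2_Zm_le (by positivity) (fun k n => ?_) (fun k => ?_) u
  · rw [PowerSeries.coeff_mk, coeff_C_mul, norm_mul]
    have h1 : ∀ n, ‖(X * derivative (d.lam j)).coeff n‖ ≤ ‖d.c0‖ := fun n => by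
      cases n with
      | zero => rw [coeff_X_mul_zero, norm_zero]; exact norm_nonneg _
      | succ n => rw [coeff_X_mul]; exact d.lam_deriv_le j n
    have h2 := two2_mul_le (norm_nonneg _) zero_le_one h1 (d.lam_le j (k - 1)) n
    refine (mul_le_mul (d.o.L_le k) h2 (norm_nonneg _) (by positivity)).trans_eq ?_
    ring
  · rw [PowerSeries.coeff_mk]
    cases k with
    | zero => simp [d.o.L_zero]
    | succ k =>
      have h1 : (X * derivative (d.lam j)).natDegree ≤ 2 * d.p.m := by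
        rw [natDegree_le_iff_coeff_eq_zero]
        intro N hN
        obtain ⟨N, rfl⟩ : ∃ N', N = N' + 1 := ⟨N - 1, by omega⟩
        rw [coeff_X_mul, coeff_derivative,
          coeff_eq_zero_of_natDegree_lt (by rw [d.lam_deg]; exact hN), zero_mul]
      have h2 : (d.lam j ^ k).natDegree ≤ k * (2 * d.p.m) := by
        refine natDegree_pow_le.trans ?_
        rw [d.lam_deg]
      refine (natDegree_C_mul_le _ _).trans (natDegree_mul_le.trans ?_)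
      rw [Nat.add_sub_cancel]
      refine (add_le_add h1 h2).trans_eq ?_
      ring

lemma g_supp (j : J) (u : ℤ × ℤ) (h : u.1 < 0) : d.g j u = 0 :=
  two2_conv_supp (two2_Tm_supp _) (two2_conv_supp (two2_Xp_supp _) (two2_Zm_supp _)) u h

lemma gi_supp (j : J) (u : ℤ × ℤ) (h : u.1 < 0) : d.gi j u = 0 :=
  two2_conv_supp (two2_Tm_supp _) (two2_conv_supp (two2_Xp_supp _) (two2_Zm_supp _)) u h

lemma LX_supp (j : J) (u : ℤ × ℤ) (h : u.1 < 0) : d.LX j u = 0 := by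
  rw [LX, Pi.sub_apply, two2_Xp_supp _ u h, two2_Zm_supp _ u h, sub_zero]

lemma LT_supp (j : J) (u : ℤ × ℤ) (h : u.1 < 1) : d.LT j u = 0 := by
  rw [LT, Pi.add_apply]
  by_cases h0 : u.1 < 0
  · rw [two2_Tm_supp _ u h0, two2_Zm_supp _ u h0, add_zero]
  · have h1 : u.1.toNat = 0 := by omega
    have h2 : Tm (d.Lt j) u = 0 := by
      unfold Tm
      rw [h1, d.Lt_zero, ite_self]
    rw [h2, zero_add]
    unfold Zm
    rw [h1, PowerSeries.coeff_mk, coeff_C_mul, mul_assoc, coeff_X_mul_zero, mul_zero, map_zero,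
      ite_self]

lemma g_le (j : J) (u : ℤ × ℤ) : ‖d.g j u‖ ≤ 2 ^ (-(2 * d.p.w u.1 u.2)) := by
  have h : ∀ n : ℕ, ‖PowerSeries.coeff n d.o.g‖ ≤ 1 * (1 / 4) ^ n := fun n => by
    rw [one_mul]; exact d.o.g_le n
  exact (two2_conv_le (two2_Tm_le zero_le_one fun n => by rw [one_mul]; exact d.gt_le j n)
    (two2_conv_le (two2_Xp_le zero_le_one h) (d.two2_zs_le zero_le_one h j)) u).trans_eq
    (one_mul _)

lemma gi_le (j : J) (u : ℤ × ℤ) : ‖d.gi j u‖ ≤ 2 ^ (-(2 * d.p.w u.1 u.2)) := by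
  have h : ∀ n : ℕ, ‖PowerSeries.coeff n d.o.gi‖ ≤ 1 * (1 / 4) ^ n := fun n => by
    rw [one_mul]; exact d.o.gi_le n
  exact (two2_conv_le (two2_Tm_le zero_le_one fun n => by rw [one_mul]; exact d.git_le j n)
    (two2_conv_le (two2_Xp_le zero_le_one h) (d.two2_zs_le zero_le_one h j)) u).trans_eq
    (one_mul _)

lemma LX_le (j : J) (u : ℤ × ℤ) : ‖d.LX j u‖ ≤ 2 ^ (1 - 2 * d.p.w u.1 u.2) := by
  rw [LX, Pi.sub_apply, two2_one_sub, sub_eq_add_neg]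
  refine (IsUltrametricDist.norm_add_le_max _ _).trans (max_le ?_ ?_)
  · exact two2_Xp_le zero_le_two d.o.L_le u
  · rw [norm_neg]
    exact d.two2_zs_le zero_le_two d.o.L_le j u

lemma LT_le (j : J) (u : ℤ × ℤ) : ‖d.LT j u‖ ≤ 2 ^ (1 - 2 * d.p.w u.1 u.2) := by
  rw [LT, Pi.add_apply, two2_one_sub]
  refine (IsUltrametricDist.norm_add_le_max _ _).trans (max_le ?_ ?_)
  · exact two2_Tm_le zero_le_two (fun n => by rw [← two2_one_sub]; exact d.Lt_le j n) u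
  · refine (d.two2_LZ_le j u).trans (mul_le_mul_of_nonneg_right ?_ (by positivity))
    linarith [d.c0_le]

lemma LT_sub_le (j : J) (u : ℤ × ℤ) :
    ‖d.LT j u - Tm (d.Lt j) u‖ ≤ ‖d.c0‖ * 2 ^ (1 - 2 * d.p.w u.1 u.2) := by
  rw [LT, Pi.add_apply, add_sub_cancel_left, two2_one_sub, ← mul_assoc]
  exact d.two2_LZ_le j u

lemma F_dec (j : J) : Dec d.p (d.F j) :=
  dec_of_w (d.F_supp j) (C := 1) fun u _ => by rw [one_mul]; exact d.F_le_w j u

lemma g_dec (j : J) : Dec d.p (d.g j) :=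
  two2_dec (d.g_supp j) zero_le_one fun u => by rw [one_mul]; exact d.g_le j u

lemma gi_dec (j : J) : Dec d.p (d.gi j) :=
  two2_dec (d.gi_supp j) zero_le_one fun u => by rw [one_mul]; exact d.gi_le j u

lemma LX_dec (j : J) : Dec d.p (d.LX j) :=
  two2_dec (d.LX_supp j) zero_le_two fun u => by rw [← two2_one_sub]; exact d.LX_le j u

lemma LT_dec (j : J) : Dec d.p (d.LT j) :=
  two2_dec (fun u h => d.LT_supp j u (by omega)) zero_le_two fun u => by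
    rw [← two2_one_sub]; exact d.LT_le j u

lemma two2_M_le {s : ℤ} (r c : J × Ex s) {x : ℝ} (h : c.2.1.1 ≤ 2 * r.2.1.1 →
    -d.p.FB (2 * r.2.1.1 - c.2.1.1) (2 * r.2.1.2 - c.2.1.2) ≤ x) : ‖d.M s r c‖ ≤ 2 ^ x := by
  unfold M opm
  split_ifs
  · by_cases h1 : c.2.1.1 ≤ 2 * r.2.1.1
    · exact (d.F_le _ _).trans (two2_exp (h h1))
    · rw [d.F_supp _ _ (by simp only; omega), norm_zero]
      positivity
  · rw [norm_zero]
    positivity

lemma M_le (r c : J × Ex 1) : ‖d.M 1 r c‖ ≤ 2 ^ (d.p.Vi c - d.p.Ui r) := by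
  refine d.two2_M_le r c fun h => ?_
  have := d.p.entry (j := r.2.1.2) (j' := c.2.1.2) r.2.2 c.2.2 h
  unfold Pm.Vi Pm.Ui
  linarith

lemma M_cc : CC d.p.Vi (d.M 1) := by
  refine ⟨fun r => d.p.wi r / 4 - 10, ?_, fun r c => d.two2_M_le r c fun h => ?_⟩
  · exact tendsto_atTop_add_const_right _ (-10)
      ((two2_tendsto d.p zero_le_one).atTop_div_const (by norm_num))
  · have := d.p.entry_cc (j := r.2.1.2) (j' := c.2.1.2) r.2.2 c.2.2 h
    unfold Pm.Vi Pm.wi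
    linarith

lemma two2_M_w (s : ℤ) (r c : J × Ex s) :
    ‖d.M s r c‖ ≤ 2 ^ (-d.p.wi r - d.p.wi r + d.p.wi c) := by
  refine d.two2_M_le r c fun h => ?_
  have h1 := d.p.w_le_FB (n := 2 * r.2.1.1 - c.2.1.1) (2 * r.2.1.2 - c.2.1.2) (by omega)
  have h2 := d.p.w_add (2 * r.2.1.1 - c.2.1.1) (2 * r.2.1.2 - c.2.1.2) c.2.1.1 c.2.1.2
  rw [sub_add_cancel, sub_add_cancel, d.p.w_two] at h2
  unfold Pm.wi
  linarith

lemma M_le_w (s : ℤ) (hs : 0 ≤ s) (r c : J × Ex s) :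
    ‖d.M s r c‖ ≤ 2 ^ (-d.p.wi r) * 2 ^ (d.p.wi c - d.p.wi r) := by
  have _ := hs
  rw [← Real.rpow_add (by norm_num)]
  exact (d.two2_M_w s r c).trans_eq (by congr 1; ring)

lemma M_cc_w (s : ℤ) (hs : 0 ≤ s) : CC d.p.wi (d.M s) :=
  ⟨d.p.wi, two2_tendsto d.p hs, d.two2_M_w s⟩

end Dat

end Pool.Agent.Lib.MP_788af2_nt.AG
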