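import Pool.Agent.Lib.MP_788af2_nt.AG.ArrA
import Pool.Agent.Lib.MP_788af2_nt.AG.SqEx
import Pool.Agent.Lib.MP_788af2_nt.AG.PotB

/-!
The two variable series: bounds for the Frobenius series.
-/

set_option linter.unusedSectionVars false

namespace Pool.Agent.Lib.MP_788af2_nt.AG

open Polynomial Filter Topology

variable {K A J Z : Type} [NontriviallyNormedField K] [IsUltrametricDist K] [CompleteSpace K]
  [CharZero K] [NormedCommRing A] [NormedAlgebra K A] [IsUltrametricDist A] [CompleteSpace A]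
  [NormOneClass A] [Fintype J] [Fintype Z] [DecidableEq J] [DecidableEq Z] (d : Dat K A J Z)

lemma t1_add {R : Type} [SeminormedAddCommGroup R] [IsUltrametricDist R] {a b : R} {c : ℝ}
    (ha : ‖a‖ ≤ c) (hb : ‖b‖ ≤ c) : ‖a + b‖ ≤ c :=
  (IsUltrametricDist.norm_add_le_max _ _).trans (max_le ha hb)

lemma t1_mul {R : Type} [NormedRing R] {a b : R} {s t : ℝ} (ha : ‖a‖ ≤ s) (hb : ‖b‖ ≤ t) :
    ‖a * b‖ ≤ s * t :=
  (norm_mul_le _ _).trans (mul_le_mul ha hb (norm_nonneg _) ((norm_nonneg _).trans ha))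

lemma t1_coeff_mul {P Q : K[X]} {s t : ℝ} (hP : ∀ n, ‖P.coeff n‖ ≤ s) (hQ : ∀ n, ‖Q.coeff n‖ ≤ t)
    (n : ℕ) : ‖(P * Q).coeff n‖ ≤ s * t := by
  rw [coeff_mul]
  exact IsUltrametricDist.norm_sum_le_of_forall_le_of_nonneg
    (mul_nonneg ((norm_nonneg _).trans (hP 0)) ((norm_nonneg _).trans (hQ 0)))
    fun p _ => t1_mul (hP _) (hQ _)

lemma t1_half (k : ℕ) : (1 / 2 : ℝ) ^ k = 2 ^ (-(k : ℝ)) := by
  rw [Real.rpow_neg zero_le_two, Real.rpow_natCast, one_div, inv_pow]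

lemma t1_half_le {k : ℕ} {x : ℝ} (h : x ≤ k) : (1 / 2 : ℝ) ^ k ≤ 2 ^ (-x) := by
  rw [t1_half]
  exact Real.rpow_le_rpow_of_exponent_le one_le_two (neg_le_neg h)

lemma t1_pow_le {k l : ℕ} (h : l ≤ k) : (1 / 2 : ℝ) ^ k ≤ (1 / 2) ^ l :=
  pow_le_pow_of_le_one (by norm_num) (by norm_num) h

namespace Dat

/-- The coefficients of the part in `1 / x`. -/
noncomputable def hz (j : J) (k : ℕ) : K[X] :=
  PowerSeries.coeff k (zs d.o.θ (d.lam j) * d.Sq j)

lemma zs_le (j : J) (k n : ℕ) :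
    ‖(PowerSeries.coeff k (zs d.o.θ (d.lam j))).coeff n‖ ≤ (1 / 2) ^ k := by
  rw [zs, PowerSeries.coeff_mk, coeff_C_mul]
  exact (t1_mul (d.o.θ_le k) (d.toGeo.lam_le j k n)).trans (mul_one _).le

lemma Sq_le' (j : J) (k n : ℕ) (hk : k ≠ 0) :
    ‖(PowerSeries.coeff k (d.Sq j)).coeff n‖ ≤ 1 / 8 * (1 / 2) ^ k := by
  by_cases h : 2 ∣ k
  · obtain ⟨l, rfl⟩ := h
    refine ((d.isSq j).le l n (by omega)).trans ?_
    rw [pow_mul]
    exact mul_le_mul d.toGeo.c0_le (by norm_num) (by positivity) (by norm_num)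
  · rw [(d.isSq j).odd k h, coeff_zero, norm_zero]
    positivity

lemma Sq_le (j : J) (k n : ℕ) : ‖(PowerSeries.coeff k (d.Sq j)).coeff n‖ ≤ (1 / 2) ^ k := by
  rcases eq_or_ne k 0 with rfl | hk
  · rw [(d.isSq j).zero, coeff_one, pow_zero]
    split_ifs <;> simp
  · exact (d.Sq_le' j k n hk).trans (mul_le_of_le_one_left (by positivity) (by norm_num))

lemma hz_le (j : J) (k n : ℕ) : ‖(d.hz j k).coeff n‖ ≤ (1 / 2) ^ k := by
  rw [hz, PowerSeries.coeff_mul, finsetSum_coeff]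
  refine IsUltrametricDist.norm_sum_le_of_forall_le_of_nonneg (by positivity) fun p hp => ?_
  rw [← Finset.HasAntidiagonal.mem_antidiagonal.mp hp, pow_add]
  exact t1_coeff_mul (d.zs_le j _) (d.Sq_le j _) n

lemma hz_deg (j : J) (k : ℕ) : (d.hz j k).natDegree ≤ 2 * d.p.m * k := by
  rw [hz, PowerSeries.coeff_mul]
  refine natDegree_sum_le_of_forall_le _ _ fun p hp => natDegree_mul_le.trans ?_
  rw [← Finset.HasAntidiagonal.mem_antidiagonal.mp hp, mul_add]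
  refine add_le_add ?_ ((d.isSq j).deg _)
  rw [zs, PowerSeries.coeff_mk]
  refine (natDegree_C_mul_le _ _).trans (natDegree_pow_le.trans ?_)
  rw [d.toGeo.lam_deg, mul_comm]

lemma hz_zero (j : J) : d.hz j 0 = 1 := by
  simp only [hz, PowerSeries.coeff_mul, Finset.Nat.antidiagonal_zero, Finset.sum_singleton, zs,
    PowerSeries.coeff_mk, (d.isSq j).zero, d.o.θ_zero, map_one, pow_zero, mul_one]

lemma hz_one (j : J) : d.hz j 1 = C 2 * d.lam j := by
  rw [hz, PowerSeries.coeff_mul, Finset.Nat.sum_antidiagonal_succ, Finset.Nat.antidiagonal_zero,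
    Finset.sum_singleton]
  simp only [zs, PowerSeries.coeff_mk, zero_add, (d.isSq j).zero,
    (d.isSq j).odd 1 (by norm_num), d.o.θ_one, mul_zero, pow_one, mul_one]

lemma hz_two (j : J) : d.hz j 2 =
    PowerSeries.coeff 2 (d.Sq j) + C (PowerSeries.coeff 2 d.o.θ) * d.lam j ^ 2 := by
  rw [hz, PowerSeries.coeff_mul, Finset.Nat.sum_antidiagonal_succ,
    Finset.Nat.sum_antidiagonal_succ, Finset.Nat.antidiagonal_zero, Finset.sum_singleton]
  simp only [zs, PowerSeries.coeff_mk, zero_add, (d.isSq j).zero,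
    (d.isSq j).odd 1 (by norm_num), d.o.θ_zero, map_one, mul_zero, pow_zero, mul_one, one_mul]

/-- The terms of the series `Fx`. -/
noncomputable def tx (j : J) (n : ℕ) (κ : ℤ) (a : ℕ) : A :=
  if κ ≤ a then algebraMap K A (PowerSeries.coeff a d.o.θ * (d.hz j (a - κ).toNat).coeff n) else 0

lemma Fx_eq (j : J) (n : ℕ) (κ : ℤ) : d.Fx j (n, κ) = ∑' a, d.tx j n κ a := by
  have hi : Function.Injective fun a : ℕ => (((0 : ℤ), (a : ℤ)) : ℤ × ℤ) := fun a b h => by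
    simpa using h
  unfold Fx conv
  rw [← hi.tsum_eq]
  · refine tsum_congr fun a => ?_
    simp only [Xp, Zm, tx, hz, Prod.mk_sub_mk, sub_zero, true_and, Int.natCast_nonneg, if_true,
      Int.toNat_natCast, sub_nonpos, neg_sub, map_mul]
    split_ifs
    · rfl
    · exact mul_zero _
  · rintro ⟨v1, v2⟩ hv
    by_contra h
    refine hv ?_
    have : ¬(v1 = 0 ∧ 0 ≤ v2) := by
      rintro ⟨rfl, h2⟩
      exact h ⟨v2.toNat, by simp [h2]⟩
    simp only [Xp, if_neg this, zero_mul]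

lemma tx_le (j : J) (n : ℕ) (κ : ℤ) (a : ℕ) {C : ℝ} (hC : 0 ≤ C)
    (h : ∀ b : ℕ, κ = a - b → n ≤ 2 * d.p.m * b → (1 / 2 : ℝ) ^ (a + b) ≤ C) :
    ‖d.tx j n κ a‖ ≤ C := by
  unfold tx
  split_ifs with h1
  · obtain ⟨b, hb⟩ := Int.eq_ofNat_of_zero_le (sub_nonneg.2 h1)
    rw [hb, Int.toNat_natCast, norm_algebraMap']
    by_cases h2 : n ≤ 2 * d.p.m * b
    · refine le_trans ?_ (h b (by omega) h2)
      rw [pow_add]
      exact t1_mul (d.o.θ_le a) (d.hz_le j b n)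
    · rw [coeff_eq_zero_of_natDegree_lt ((d.hz_deg j b).trans_lt (not_le.1 h2)), mul_zero,
        norm_zero]
      exact hC
  · rw [norm_zero]
    exact hC

lemma Fx_tail (j : J) (n : ℕ) (κ : ℤ) (N : ℕ) (h : 3 + κ ≤ 2 * N) :
    ‖d.Fx j (n, κ) - ∑ a ∈ Finset.range N, d.tx j n κ a‖ ≤ 1 / 8 := by
  have hs : Summable (d.tx j n κ) :=
    Summable.of_norm_bounded (summable_geometric_of_lt_one (r := 1 / 2) (by norm_num) (by norm_num))
      fun a => d.tx_le j n κ a (by positivity) fun b _ _ => t1_pow_le (by omega)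
  rw [Fx_eq, ← hs.sum_add_tsum_nat_add N, add_sub_cancel_left]
  refine IsUltrametricDist.norm_tsum_le_of_forall_le_of_nonneg (by norm_num) fun a => ?_
  refine d.tx_le j n κ _ (by norm_num) fun b hb _ => ?_
  exact (t1_pow_le (l := 3) (by omega)).trans (by norm_num)

lemma Fx_supp (j : J) (u : ℤ × ℤ) (h : u.1 < 0) : d.Fx j u = 0 := by
  unfold Fx conv
  rw [← tsum_zero (β := ℤ × ℤ)]
  refine tsum_congr fun v => ?_
  by_cases h1 : v.1 = 0
  · have : ¬(0 ≤ (u - v).1 ∧ (u - v).2 ≤ 0) := by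
      rw [Prod.fst_sub]
      omega
    simp only [Zm, if_neg this, mul_zero]
  · simp only [Xp, h1, false_and, if_false, zero_mul]

lemma Fx_bound (j : J) (u : ℤ × ℤ) {C : ℝ} (hC : 0 ≤ C) (h : ∀ a b : ℕ, u.2 = a - b →
    u.1 ≤ 2 * d.p.m * b → (1 / 2 : ℝ) ^ (a + b) ≤ C) : ‖d.Fx j u‖ ≤ C := by
  obtain ⟨n, κ⟩ := u
  rcases lt_or_ge n 0 with hn | hn
  · rw [d.Fx_supp j _ hn, norm_zero]
    exact hC
  lift n to ℕ using hn
  rw [Fx_eq]
  exact IsUltrametricDist.norm_tsum_le_of_forall_le_of_nonneg hC fun a =>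
    d.tx_le j n κ a hC fun b h1 h2 => h a b h1 (by simp only; exact_mod_cast h2)

lemma Fx_le (j : J) (u : ℤ × ℤ) : ‖d.Fx j u‖ ≤ 2 ^ (-((|u.2| : ℤ) : ℝ)) := by
  refine d.Fx_bound j u (by positivity) fun a b h _ => t1_half_le ?_
  have : |u.2| ≤ ((a + b : ℕ) : ℤ) := by
    rw [abs_le]
    omega
  exact_mod_cast this

lemma Fx_le' (j : J) (u : ℤ × ℤ) (k : ℕ) (h : 2 * d.p.m * (max 0 (-u.2) + k) < u.1) :
    ‖d.Fx j u‖ ≤ 2 ^ (-((|u.2| : ℤ) : ℝ) - 2 * k - 2) := by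
  refine d.Fx_bound j u (by positivity) fun a b h1 h2 => ?_
  have h3 : max 0 (-u.2) + k < b := lt_of_mul_lt_mul_left (h.trans_le h2) (by positivity)
  have h4 : |u.2| + 2 * k + 2 ≤ ((a + b : ℕ) : ℤ) := by
    rcases abs_cases u.2 with h5 | h5 <;> omega
  have h5 : ((|u.2| : ℤ) : ℝ) + 2 * k + 2 ≤ ((a + b : ℕ) : ℝ) := by exact_mod_cast h4
  refine (t1_half_le h5).trans (le_of_eq ?_)
  congr 1
  ring

lemma Fx_zero (j : J) (n : ℕ) : ‖d.Fx j (n, 0) - (if n = 0 then 1 else 0) -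
    algebraMap K A (4 * (d.lam j).coeff n)‖ ≤ 1 / 8 := by
  have h := d.Fx_tail j n 0 2 (by norm_num)
  have e0 : d.tx j n 0 0 = if n = 0 then 1 else 0 := by
    simp [tx, hz_zero, d.o.θ_zero, coeff_one, apply_ite (algebraMap K A)]
  have e1 : d.tx j n 0 1 = algebraMap K A (4 * (d.lam j).coeff n) := by
    simp only [tx, Nat.cast_one, zero_le_one, if_true, sub_zero, Int.toNat_one, hz_one, d.o.θ_one,
      coeff_C_mul]
    congr 1
    ring
  rwa [Finset.sum_range_succ, Finset.sum_range_one, e0, e1, ← sub_sub] at h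

lemma Fx_one (j : J) (n : ℕ) : ‖d.Fx j (n, 1) - (if n = 0 then 2 else 0)‖ ≤ 1 / 8 := by
  have h := d.Fx_tail j n 1 2 (by norm_num)
  have e0 : d.tx j n 1 0 = 0 := by simp [tx]
  have e1 : d.tx j n 1 1 = if n = 0 then 2 else 0 := by
    simp [tx, hz_zero, d.o.θ_one, coeff_one, apply_ite (algebraMap K A), map_ofNat]
  rwa [Finset.sum_range_succ, Finset.sum_range_one, e0, e1, zero_add] at h

lemma Fx_two (j : J) (n : ℕ) : ‖d.Fx j (n, 2) - (if n = 0 then 4 else 0)‖ ≤ 1 / 8 := by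
  have h := d.Fx_tail j n 2 3 (by norm_num)
  have e0 : d.tx j n 2 0 = 0 := by simp [tx]
  have e1 : d.tx j n 2 1 = 0 := by simp [tx]
  have e2 : d.tx j n 2 2 = if n = 0 then algebraMap K A (PowerSeries.coeff 2 d.o.θ) else 0 := by
    simp [tx, hz_zero, coeff_one, apply_ite (algebraMap K A)]
  rw [Finset.sum_range_succ, Finset.sum_range_succ, Finset.sum_range_one, e0, e1, e2, zero_add,
    zero_add] at h
  split_ifs at h ⊢
  · rw [← sub_add_sub_cancel _ (algebraMap K A (PowerSeries.coeff 2 d.o.θ))]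
    refine t1_add h ?_
    rw [← map_ofNat (algebraMap K A) 4, ← map_sub, norm_algebraMap']
    exact d.o.θ_two
  · exact h

lemma Fx_neg_one (j : J) (n : ℕ) :
    ‖d.Fx j (n, -1) - algebraMap K A (2 * (d.lam j).coeff n)‖ ≤ 1 / 8 := by
  have h := d.Fx_tail j n (-1) 1 (by norm_num)
  have e0 : d.tx j n (-1) 0 = algebraMap K A (2 * (d.lam j).coeff n) := by
    simp [tx, hz_one, d.o.θ_zero]
  rwa [Finset.sum_range_one, e0] at h

lemma Fx_neg_two (j : J) (n : ℕ) :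
    ‖d.Fx j (n, -2) - algebraMap K A (4 * (d.lam j ^ 2).coeff n)‖ ≤ 1 / 8 := by
  have h := d.Fx_tail j n (-2) 1 (by norm_num)
  have e0 : d.tx j n (-2) 0 = algebraMap K A ((d.hz j 2).coeff n) := by
    simp [tx, d.o.θ_zero]
  rw [Finset.sum_range_one, e0] at h
  rw [← sub_add_sub_cancel _ (algebraMap K A ((d.hz j 2).coeff n))]
  refine t1_add h ?_
  rw [← map_sub, norm_algebraMap', hz_two, coeff_add, coeff_C_mul, add_sub_assoc, ← sub_mul]
  exact t1_add ((d.Sq_le' j 2 n two_ne_zero).trans (by norm_num))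
    ((t1_mul d.o.θ_two (d.toGeo.lam_le j 2 n)).trans (mul_one _).le)

lemma F_supp (j : J) (u : ℤ × ℤ) (h : u.1 < 0) : d.F j u = 0 := by
  rw [F, Tm_conv_apply, ← tsum_zero (β := ℕ)]
  exact tsum_congr fun n => by rw [d.Fx_supp j _ (by simp only; omega), mul_zero]

lemma F_le (j : J) (u : ℤ × ℤ) : ‖d.F j u‖ ≤ 2 ^ (-d.p.FB u.1 u.2) := by
  rw [F, Tm_conv_apply]
  refine IsUltrametricDist.norm_tsum_le_of_forall_le_of_nonneg (by positivity) fun n => ?_
  refine (t1_mul (d.Ft_le j n) (d.Fx_bound j _ (C := 2 ^ (-(d.p.FB u.1 u.2 - d.p.f n)))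
    (by positivity) fun a b h1 h2 => t1_half_le ?_)).trans (le_of_eq ?_)
  · have := d.p.FB_le n (u.1 - n) a b h2
    simp only at h1
    rw [add_sub_cancel, ← h1] at this
    push_cast
    linarith
  · rw [← Real.rpow_add two_pos]
    congr 1
    ring

lemma F_le_w (j : J) (u : ℤ × ℤ) : ‖d.F j u‖ ≤ 2 ^ (-d.p.w u.1 u.2) := by
  rcases lt_or_ge u.1 0 with h | h
  · rw [d.F_supp j u h, norm_zero]
    positivity
  · exact (d.F_le j u).trans
      (Real.rpow_le_rpow_of_exponent_le one_le_two (neg_le_neg (d.p.w_le_FB _ h)))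

lemma F_sum (j : J) (n : ℕ) (κ : ℤ) : d.F j (n, κ) = ∑ a ∈ Finset.range (n + 1),
    PowerSeries.coeff a (d.Ft j) * d.Fx j ((n - a : ℕ), κ) := by
  rw [F, Tm_conv_apply, tsum_eq_sum (s := Finset.range (n + 1))]
  · refine Finset.sum_congr rfl fun a ha => ?_
    rw [Nat.cast_sub (Nat.lt_succ_iff.1 (Finset.mem_range.1 ha))]
  · intro a ha
    rw [Finset.mem_range] at ha
    rw [d.Fx_supp j _ (by simp only; omega), mul_zero]

lemma Ft_le_one (j : J) (n : ℕ) : ‖PowerSeries.coeff n (d.Ft j)‖ ≤ 1 :=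
  (d.Ft_le j n).trans (Real.rpow_le_one_of_one_le_of_nonpos one_le_two
    (neg_nonpos.2 (d.p.f_nonneg n)))

lemma Fx_zero' (j : J) (n : ℕ) : ‖d.Fx j (n, 0) - (if n = 0 then 1 else 0)‖ ≤ 1 / 4 := by
  rw [← sub_add_cancel (d.Fx j (n, 0) - _) (algebraMap K A (4 * (d.lam j).coeff n))]
  refine t1_add ((d.Fx_zero j n).trans (by norm_num)) ?_
  have h := d.toGeo.lam_le j 1 n
  rw [pow_one] at h
  rw [norm_algebraMap', show (4 : K) = 2 * 2 by norm_num, norm_mul, norm_mul, d.two]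
  linarith

lemma F_sub_Ft (j : J) (n : ℕ) : ‖d.F j (n, 0) - PowerSeries.coeff n (d.Ft j)‖ ≤ 1 / 4 := by
  rw [F_sum, Finset.sum_range_succ, add_sub_assoc, ← mul_sub_one]
  refine t1_add (IsUltrametricDist.norm_sum_le_of_forall_le_of_nonneg (by norm_num)
    fun a ha => ?_) ?_
  · have h := d.Fx_zero' j (n - a)
    rw [Finset.mem_range] at ha
    rw [if_neg (by omega), sub_zero] at h
    exact (t1_mul (d.Ft_le_one j a) h).trans (one_mul _).le
  · have h := d.Fx_zero' j (n - n)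
    rw [if_pos (Nat.sub_self n)] at h
    exact (t1_mul (d.Ft_le_one j n) h).trans (one_mul _).le

lemma F_zero (j : J) : ‖d.F j 0 - 1‖ ≤ 1 / 2 := by
  rw [← sub_add_sub_cancel _ (PowerSeries.coeff 0 (d.Ft j))]
  exact t1_add ((d.F_sub_Ft j 0).trans (by norm_num)) (d.Ft_zero j)

lemma F_e (j : J) : ∃ u : K, ‖u‖ = 1 ∧ ‖d.F j (d.p.e, 0) - algebraMap K A (2 * u)‖ ≤ d.p.ϑ / 2 := by
  obtain ⟨u, h1, h2⟩ := d.Ft_e j
  refine ⟨u, h1, ?_⟩
  rw [← sub_add_sub_cancel _ (PowerSeries.coeff d.p.e (d.Ft j))]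
  exact t1_add ((d.F_sub_Ft j _).trans (by linarith [d.p.half_le_ϑ])) h2

lemma F_neg_one (j : J) (n : ℕ) :
    ‖d.F j (n, -1) - algebraMap K A (2 * (d.lam j).coeff n)‖ ≤ d.p.ϑ / 2 := by
  have h0 := d.p.half_le_ϑ
  have h1 : ∀ m : ℤ, ‖d.Fx j (m, -1)‖ ≤ 1 / 2 := fun m => (d.Fx_le j _).trans (by
    simp [Real.rpow_neg_one])
  rw [F_sum, Finset.sum_range_succ', add_sub_assoc, Nat.sub_zero]
  refine t1_add (IsUltrametricDist.norm_sum_le_of_forall_le_of_nonneg (by linarith)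
    fun a _ => ?_) ?_
  · have h2 : ‖PowerSeries.coeff (a + 1) (d.Ft j)‖ ≤ d.p.ϑ := by
      refine (d.Ft_le j _).trans (le_trans
        (Real.rpow_le_rpow_of_exponent_le one_le_two (neg_le_neg ?_)) d.p.inv_l_le_ϑ)
      refine le_trans (le_min ((div_le_one d.p.a1_l_posR).2 d.p.a1_l_geR) ?_) (d.p.min_le_f _)
      refine div_le_div_of_nonneg_right ?_ d.p.a1_l_posR.le
      push_cast
      linarith [(Nat.cast_nonneg a : (0 : ℝ) ≤ a)]
    exact (t1_mul h2 (h1 _)).trans (by linarith)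
  · rw [show ∀ x y z : A, x * y - z = (x - 1) * y + (y - z) from fun x y z => by ring]
    exact t1_add ((t1_mul (d.Ft_zero j) (h1 _)).trans (by linarith))
      ((d.Fx_neg_one j n).trans (by linarith))

end Dat

end Pool.Agent.Lib.MP_788af2_nt.AG
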