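import Pool.Agent.Lib.MP_788af2_nt.AG.Two

/-!
The two variable series: identities.
-/

set_option linter.unusedSectionVars false

namespace Pool.Agent.Lib.MP_788af2_nt.AG

open Polynomial Filter Topology

section ring

open Finset.HasAntidiagonal

variable {A : Type} [NormedCommRing A] [IsUltrametricDist A] [CompleteSpace A] [NormOneClass A]
  {p : Pm}

/-- The ring of decaying arrays. -/
def DR (p : Pm) (A : Type) [NormedCommRing A] : Type := {a : Arr A // Dec p a}

lemma tb_dec_zero : Dec p (0 : Arr A) := dec_of_finite (fun _ _ => rfl) (by simp)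

noncomputable instance : Add (DR p A) := ⟨fun a b => ⟨a.1 + b.1, a.2.add b.2⟩⟩
noncomputable instance : Mul (DR p A) := ⟨fun a b => ⟨conv a.1 b.1, a.2.conv b.2⟩⟩
noncomputable instance : Neg (DR p A) := ⟨fun a => ⟨-a.1, a.2.neg⟩⟩
noncomputable instance : Zero (DR p A) := ⟨⟨0, tb_dec_zero⟩⟩
noncomputable instance : _root_.One (DR p A) := ⟨⟨one, dec_one⟩⟩

noncomputable instance : CommRing (DR p A) := CommRing.ofMinimalAxioms
  (fun a b c => Subtype.ext (add_assoc a.1 b.1 c.1)) (fun a => Subtype.ext (zero_add a.1))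
  (fun a => Subtype.ext (neg_add_cancel a.1))
  (fun a b c => Subtype.ext (conv_assoc a.2 b.2 c.2.mod))
  (fun a b => Subtype.ext (conv_comm a.1 b.1)) (fun a => Subtype.ext (one_conv a.1))
  (fun a b c => Subtype.ext (conv_add a.2 b.2.mod c.2.mod))

/-- A decaying array as an element of the ring. -/
def Dec.r {a : Arr A} (h : Dec p a) : DR p A := ⟨a, h⟩

lemma tb_val {a b : DR p A} (h : a = b) : a.1 = b.1 := congrArg Subtype.val h

lemma tb_ext {a b : DR p A} (h : a.1 = b.1) : a = b := Subtype.ext h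

lemma tb_six {a b c a' b' c' : Arr A} (ha : Dec p a) (hb : Dec p b) (hc : Dec p c)
    (ha' : Dec p a') (hb' : Dec p b') (hc' : Dec p c') :
    conv (conv a (conv b c)) (conv a' (conv b' c')) =
      conv (conv a a') (conv (conv b b') (conv c c')) :=
  tb_val (show ha.r * (hb.r * hc.r) * (ha'.r * (hb'.r * hc'.r)) =
    ha.r * ha'.r * (hb.r * hb'.r * (hc.r * hc'.r)) by ring)

lemma tb_phi_one : phi (one : Arr A) = one := by
  funext u
  simp only [phi, one, Prod.ext_iff, Prod.fst_zero, Prod.snd_zero]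
  split_ifs <;> first | rfl | omega

lemma tb_conv_zero (a : Arr A) : conv a 0 = 0 := by
  funext u
  simp [conv]

lemma tb_conv_fin (a b : Arr A) (u : ℤ × ℤ) {ι : Type} (s : Finset ι) (e : ι → ℤ × ℤ)
    (he : Set.InjOn e s) (h : ∀ v, (∀ i ∈ s, e i ≠ v) → a v * b (u - v) = 0) :
    conv a b u = ∑ i ∈ s, a (e i) * b (u - e i) := by
  rw [conv, tsum_eq_sum (s := s.image e) fun v hv => h v fun i hi hiv =>
    hv (Finset.mem_image.2 ⟨i, hi, hiv⟩), Finset.sum_image he]

/-- The properties shared by the two derivations. -/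
structure IsD (p : Pm) (D : Arr A → Arr A) : Prop where
  dec : ∀ {a}, Dec p a → Dec p (D a)
  mul : ∀ {a b}, Dec p a → Dec p b → D (conv a b) = conv (D a) b + conv a (D b)
  one : D one = 0
  phi : ∀ a, D (phi a) = 2 • phi (D a)
  psi : ∀ a, psi (D a) = 2 • D (psi a)

lemma isD_dt : IsD p (dt : Arr A → Arr A) where
  dec h := h.dt
  mul ha hb := dt_conv ha hb.mod
  one := by
    funext u
    simp only [dt, one]
    split_ifs with h <;> simp [*]
  phi := dt_phi
  psi := psi_dt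

lemma isD_dx : IsD p (dx : Arr A → Arr A) where
  dec h := h.dx
  mul ha hb := dx_conv ha hb.mod
  one := by
    funext u
    simp only [dx, one]
    split_ifs with h <;> simp [*]
  phi := dx_phi
  psi := psi_dx

lemma tb_phi_two (a : Arr A) : phi (2 • a) = 2 • phi a := by
  funext u
  simp only [phi, Pi.smul_apply]
  split_ifs <;> simp

variable {D : Arr A → Arr A} {F g gi g' gi' L L' m : Arr A}

lemma tb_F_gi (hF : Dec p F) (hgi : Dec p gi) (hg' : Dec p (phi g')) (hgi' : Dec p (phi gi'))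
    (h1 : conv F (conv F (phi g')) = g) (h2 : conv g gi = one) (h3 : conv g' gi' = one) :
    conv F (conv F gi) = phi gi' := by
  have e1 : hF.r * (hF.r * hg'.r) * hgi.r = 1 := tb_ext (by rw [← h1] at h2; exact h2)
  have e2 : hg'.r * hgi'.r = 1 :=
    tb_ext (by rw [← tb_phi_one, ← h3, phi_conv] : conv (phi g') (phi gi') = one)
  exact tb_val (show hF.r * (hF.r * hgi.r) = hgi'.r by
    linear_combination hgi'.r * e1 - hF.r * (hF.r * hgi.r) * e2)

lemma IsD.inv (hD : IsD p D) (hg : Dec p g) (hgi : Dec p gi) (hL : Dec p L)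
    (h1 : conv g gi = AG.one) (h2 : D g = 2 • conv L g) : D gi = -(2 • conv L gi) := by
  have e1 : hg.r * hgi.r = 1 := tb_ext h1
  have e2 : (hD.dec hg).r = hL.r * hg.r + hL.r * hg.r := tb_ext (h2.trans (two_nsmul _))
  have e3 : (hD.dec hg).r * hgi.r + hg.r * (hD.dec hgi).r = 0 :=
    tb_ext ((hD.mul hg hgi).symm.trans (by rw [h1, hD.one]; rfl))
  rw [two_nsmul]
  exact tb_val (show (hD.dec hgi).r = -(hL.r * hgi.r + hL.r * hgi.r) by
    linear_combination hgi.r * e3 - hgi.r * hgi.r * e2 -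
      ((hD.dec hgi).r + 2 * hL.r * hgi.r) * e1)

lemma IsD.frob (hD : IsD p D) (h2 : ∀ x : A, x + x = 0 → x = 0) (hF : Dec p F) (hgi : Dec p gi)
    (hL : Dec p L) (hg' : Dec p (AG.phi g')) (hL' : Dec p (AG.phi L'))
    (h1 : conv F (conv F (AG.phi g')) = g) (h3 : conv g gi = AG.one) (h4 : D g = 2 • conv L g)
    (h5 : D g' = 2 • conv L' g') : D F = conv (L - 2 • AG.phi L') F := by
  subst h1
  have e1 : hF.r * (hF.r * hg'.r) * hgi.r = 1 := tb_ext h3
  have e2 : (hD.dec hg').r = hL'.r * hg'.r + hL'.r * hg'.r + (hL'.r * hg'.r + hL'.r * hg'.r) :=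
    tb_ext (by
      show D (AG.phi g') = _
      rw [hD.phi, h5, tb_phi_two, phi_conv, two_nsmul, two_nsmul]
      rfl)
  have e3 : (hD.dec hF).r * (hF.r * hg'.r) + hF.r * ((hD.dec hF).r * hg'.r + hF.r * (hD.dec hg').r)
      = hL.r * (hF.r * (hF.r * hg'.r)) + hL.r * (hF.r * (hF.r * hg'.r)) := tb_ext (by
    rw [hD.mul hF (hF.conv hg'), hD.mul hF hg', two_nsmul] at h4
    exact h4)
  obtain ⟨y, hy⟩ : ∃ y, y = (hD.dec hF).r + -((hL.r + -(hL'.r + hL'.r)) * hF.r) := ⟨_, rfl⟩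
  have e4 : y + y = 0 := by
    rw [hy]
    linear_combination hF.r * hgi.r * e3 - hF.r ^ 3 * hgi.r * e2 -
      2 * ((hD.dec hF).r - hL.r * hF.r + 2 * hL'.r * hF.r) * e1
  have e5 : y = 0 := tb_ext (funext fun u => h2 _ (congrFun (tb_val e4) u))
  rw [two_nsmul, sub_eq_add_neg]
  exact tb_val (show (hD.dec hF).r = (hL.r + -(hL'.r + hL'.r)) * hF.r by
    linear_combination e5 - hy)

lemma IsD.psi_D (hD : IsD p D) (hF : Dec p F) (hL : Dec p L) (hL' : Dec p (AG.phi L'))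
    (hm : Dec p m) (h : D F = conv (L - 2 • AG.phi L') F) :
    AG.psi (conv F (D m + conv L m)) =
      2 • (D (AG.psi (conv F m)) + conv L' (AG.psi (conv F m))) := by
  rw [two_nsmul, sub_eq_add_neg] at h
  have e1 : (hD.dec hF).r = (hL.r + -(hL'.r + hL'.r)) * hF.r := tb_ext h
  have e2 : conv F (D m + conv L m) = D (conv F m) +
      (conv (AG.phi L') (conv F m) + conv (AG.phi L') (conv F m)) := by
    rw [hD.mul hF hm]
    exact tb_val (show hF.r * ((hD.dec hm).r + hL.r * hm.r) =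
      (hD.dec hF).r * hm.r + hF.r * (hD.dec hm).r +
        (hL'.r * (hF.r * hm.r) + hL'.r * (hF.r * hm.r)) by linear_combination -hm.r * e1)
  rw [e2, smul_add, ← hD.psi, ← psi_conv_phi, two_nsmul]
  rfl

lemma tb_coeff_D {R : Type} [CommRing R] (f : PowerSeries R) (n : ℕ) :
    PowerSeries.coeff n (PowerSeries.X * PowerSeries.derivative R f) =
      n * PowerSeries.coeff n f := by
  rcases n with _ | n
  · simp
  · rw [PowerSeries.coeff_succ_X_mul, PowerSeries.coeff_derivative]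
    push_cast
    ring

lemma tb_coeff_sub {R : Type} [CommRing R] (f : PowerSeries R) (n : ℕ) :
    PowerSeries.coeff n (f.subst (PowerSeries.X ^ 2 : PowerSeries R)) =
      if 2 ∣ n then PowerSeries.coeff (n / 2) f else 0 := by
  rw [← PowerSeries.expand_apply 2 two_ne_zero]
  exact PowerSeries.coeff_expand 2 two_ne_zero f

lemma tb_Tm_one : Tm (1 : PowerSeries A) = one := by
  funext u
  simp only [Tm, one, PowerSeries.coeff_one, Prod.ext_iff, Prod.fst_zero, Prod.snd_zero]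
  split_ifs <;> first | rfl | omega

lemma tb_Tm_two (s : PowerSeries A) : Tm (2 * s) = 2 • Tm s := by
  funext u
  simp only [Tm, two_mul, two_nsmul, map_add, Pi.add_apply]
  split_ifs <;> simp

lemma tb_phi_Tm (s : PowerSeries A) :
    phi (Tm s) = Tm (s.subst (PowerSeries.X ^ 2 : PowerSeries A)) := by
  funext u
  simp only [phi, Tm, tb_coeff_sub]
  split_ifs <;> first | rfl | omega | (congr 2; omega)

lemma tb_dt_Tm (s : PowerSeries A) :
    dt (Tm s) = Tm (PowerSeries.X * PowerSeries.derivative A s) := by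
  funext u
  simp only [dt, Tm, tb_coeff_D]
  split_ifs with h
  · rw [zsmul_eq_mul, ← Int.cast_natCast, Int.toNat_of_nonneg h.1]
  · simp

lemma tb_dx_Tm (s : PowerSeries A) : dx (Tm s) = 0 := by
  funext u
  simp only [dx, Tm]
  split_ifs with h <;> simp [*]

lemma tb_Tm_le {s : PowerSeries A} {C c : ℝ} (hC : 0 ≤ C)
    (h : ∀ n : ℕ, ‖PowerSeries.coeff n s‖ ≤ C * 2 ^ (-(c * p.w n 0))) (u : ℤ × ℤ) :
    ‖Tm s u‖ ≤ C * 2 ^ (-(c * p.w u.1 u.2)) := by
  simp only [Tm]
  split_ifs with hu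
  · have := h u.1.toNat
    rwa [Int.toNat_of_nonneg hu.1, ← hu.2] at this
  · rw [norm_zero]
    positivity

lemma tb_Tm_supp (s : PowerSeries A) (u : ℤ × ℤ) (h : u.1 < 0) : Tm s u = 0 :=
  if_neg (by omega)

lemma tb_dec {a : Arr A} (h0 : ∀ u : ℤ × ℤ, u.1 < 0 → a u = 0) {C c : ℝ} (hC : 0 ≤ C) (hc : 1 ≤ c)
    (h : ∀ u : ℤ × ℤ, ‖a u‖ ≤ C * 2 ^ (-(c * p.w u.1 u.2))) : Dec p a :=
  dec_of_w h0 fun u hu => (h u).trans (mul_le_mul_of_nonneg_left
    (Real.rpow_le_rpow_of_exponent_le one_le_two (by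
      have h1 : (0 : ℝ) ≤ ((|u.2| : ℤ) : ℝ) := by exact_mod_cast abs_nonneg u.2
      nlinarith [p.abs_le_w u.2 hu])) hC)

variable {K : Type} [NontriviallyNormedField K] [IsUltrametricDist K] [NormedAlgebra K A]

lemma tb_Xp_conv (h h' : PowerSeries K) : conv (Xp A h) (Xp A h') = Xp A (h * h') := by
  funext u
  by_cases hu : u.1 = 0 ∧ 0 ≤ u.2
  · rw [tb_conv_fin _ _ u (antidiagonal u.2.toNat) (fun i => ((0 : ℤ), (i.1 : ℤ)))]
    · simp only [Xp, if_pos hu, PowerSeries.coeff_mul, map_sum, map_mul]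
      refine Finset.sum_congr rfl fun i hi => ?_
      have := mem_antidiagonal.1 hi
      simp only [Prod.fst_sub, Prod.snd_sub]
      rw [if_pos (by simp), if_pos (by omega), Int.toNat_natCast,
        show (u.2 - i.1).toNat = i.2 by omega]
    · intro i hi j hj hij
      have h1 := mem_antidiagonal.1 (Finset.mem_coe.1 hi)
      have h2 := mem_antidiagonal.1 (Finset.mem_coe.1 hj)
      simp only [Prod.ext_iff] at hij ⊢
      omega
    · intro v hv
      simp only [Xp, Prod.fst_sub, Prod.snd_sub]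
      split_ifs with h1 h2
      · exact absurd (Prod.ext (by simp only; omega) (by simp only; omega))
          (hv (v.2.toNat, (u.2 - v.2).toNat) (mem_antidiagonal.2 (by simp only; omega)))
      all_goals simp
  · rw [tb_conv_fin _ _ u (∅ : Finset Unit) (fun _ => 0) (by simp)]
    · simp [Xp, if_neg hu]
    · intro v _
      simp only [Xp, Prod.fst_sub, Prod.snd_sub]
      split_ifs with h1 h2
      · omega
      all_goals simp

lemma tb_Zm_conv (h h' : PowerSeries K[X]) : conv (Zm A h) (Zm A h') = Zm A (h * h') := by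
  funext u
  by_cases hu : 0 ≤ u.1 ∧ u.2 ≤ 0
  · rw [tb_conv_fin _ _ u (antidiagonal (-u.2).toNat ×ˢ antidiagonal u.1.toNat)
      (fun i => ((i.2.1 : ℤ), -(i.1.1 : ℤ)))]
    · simp only [Zm, if_pos hu, PowerSeries.coeff_mul, map_sum, map_mul, finsetSum_coeff,
        coeff_mul, Finset.sum_product]
      refine Finset.sum_congr rfl fun i hi => Finset.sum_congr rfl fun j hj => ?_
      have h1 := mem_antidiagonal.1 hi
      have h2 := mem_antidiagonal.1 hj
      simp only [Prod.fst_sub, Prod.snd_sub]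
      rw [if_pos (by omega), if_pos (by omega), neg_neg, Int.toNat_natCast, Int.toNat_natCast,
        show (-(u.2 - -(i.1 : ℤ))).toNat = i.2 by omega, show (u.1 - j.1).toNat = j.2 by omega]
    · intro i hi j hj hij
      have h1 := Finset.mem_product.1 (Finset.mem_coe.1 hi)
      have h2 := Finset.mem_product.1 (Finset.mem_coe.1 hj)
      simp only [Prod.ext_iff, mem_antidiagonal] at hij h1 h2 ⊢
      omega
    · intro v hv
      simp only [Zm, Prod.fst_sub, Prod.snd_sub]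
      split_ifs with h1 h2
      · exact absurd (Prod.ext (by simp only; omega) (by simp only; omega))
          (hv (((-v.2).toNat, (-(u.2 - v.2)).toNat), (v.1.toNat, (u.1 - v.1).toNat))
            (by simp only [Finset.mem_product, mem_antidiagonal]; omega))
      all_goals simp
  · rw [tb_conv_fin _ _ u (∅ : Finset Unit) (fun _ => 0) (by simp)]
    · simp [Zm, if_neg hu]
    · intro v _
      simp only [Zm, Prod.fst_sub, Prod.snd_sub]
      split_ifs with h1 h2
      · omega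
      all_goals simp

lemma tb_Xp_one : Xp A (1 : PowerSeries K) = one := by
  funext u
  simp only [Xp, one, PowerSeries.coeff_one, Prod.ext_iff, Prod.fst_zero, Prod.snd_zero]
  split_ifs <;> first | omega | simp

lemma tb_Zm_one : Zm A (1 : PowerSeries K[X]) = one := by
  funext u
  simp only [Zm, one, PowerSeries.coeff_one, Prod.ext_iff, Prod.fst_zero, Prod.snd_zero]
  split_ifs with h1 h2 h3 h3 h3
  · simp [h3.1]
  · rw [coeff_one, if_neg (by omega), map_zero]
  all_goals first | omega | simp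

lemma tb_Xp_two (s : PowerSeries K) : Xp A (2 * s) = 2 • Xp A s := by
  funext u
  simp only [Xp, two_mul, two_nsmul, map_add, Pi.add_apply]
  split_ifs <;> simp

lemma tb_Zm_two (s : PowerSeries K[X]) : Zm A (2 * s) = 2 • Zm A s := by
  funext u
  simp only [Zm, two_mul, two_nsmul, map_add, Pi.add_apply, coeff_add]
  split_ifs <;> simp

lemma tb_phi_Xp (s : PowerSeries K) :
    phi (Xp A s) = Xp A (s.subst (PowerSeries.X ^ 2 : PowerSeries K)) := by
  funext u
  simp only [phi, Xp, tb_coeff_sub]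
  split_ifs <;> first | omega | (congr 3; omega) | simp

lemma tb_phi_Zm (s : PowerSeries K) (μ : K[X]) :
    phi (Zm A (zs s μ)) = Zm A (zs2 s (μ.comp (X ^ 2))) := by
  funext u
  have e : ∀ (c : K) (k : ℕ), C c * μ.comp (X ^ 2) ^ k = expand K 2 (C c * μ ^ k) := fun c k => by
    rw [map_mul, map_pow, expand_C, expand_eq_comp_X_pow]
  simp only [phi, Zm, zs, zs2, PowerSeries.coeff_mk, e]
  split_ifs with h1 h2 h3 h4 h3 h3 h4
  · rw [coeff_expand two_pos, if_pos (by omega), show (-(u.2 / 2)).toNat = (-u.2).toNat / 2 by omega,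
      show (u.1 / 2).toNat = u.1.toNat / 2 by omega]
  all_goals first | omega | rfl | (rw [coeff_expand two_pos, if_neg (by omega), map_zero]) | simp

lemma tb_dt_Xp (s : PowerSeries K) : dt (Xp A s) = 0 := by
  funext u
  simp only [dt, Xp]
  split_ifs with h <;> simp [*]

lemma tb_dx_Xp (s : PowerSeries K) :
    dx (Xp A s) = Xp A (PowerSeries.X * PowerSeries.derivative K s) := by
  funext u
  simp only [dx, Xp, tb_coeff_D]
  split_ifs with h
  · rw [map_mul, map_natCast, zsmul_eq_mul, ← Int.cast_natCast, Int.toNat_of_nonneg h.2]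
  · simp

lemma tb_dx_Zm (s : PowerSeries K[X]) :
    dx (Zm A s) = -Zm A (PowerSeries.X * PowerSeries.derivative K[X] s) := by
  funext u
  simp only [dx, Zm, tb_coeff_D, Pi.neg_apply]
  split_ifs with h
  · rw [coeff_natCast_mul, map_mul, map_natCast, zsmul_eq_mul, ← Int.cast_natCast,
      Int.toNat_of_nonneg (by omega), Int.cast_neg, neg_mul, neg_neg]
  · simp

lemma tb_dt_Zm (s : PowerSeries K[X]) :
    dt (Zm A s) = Zm A (PowerSeries.mk fun k => X * derivative (PowerSeries.coeff k s)) := by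
  funext u
  have e : ∀ (f : K[X]) (n : ℕ), (X * derivative f).coeff n = n * f.coeff n := fun f n => by
    rcases n with _ | n
    · simp
    · rw [coeff_X_mul, coeff_derivative]
      push_cast
      ring
  simp only [dt, Zm, PowerSeries.coeff_mk, e]
  split_ifs with h
  · rw [map_mul, map_natCast, zsmul_eq_mul, ← Int.cast_natCast, Int.toNat_of_nonneg h.1]
  · simp

lemma tb_zs_eq (s : PowerSeries K) (μ : K[X]) :
    zs s μ = PowerSeries.rescale μ (PowerSeries.map C s) := by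
  ext k : 1
  rw [zs, PowerSeries.coeff_mk, PowerSeries.coeff_rescale, PowerSeries.coeff_map, mul_comm]

lemma tb_zs_mul (s s' : PowerSeries K) (μ : K[X]) : zs (s * s') μ = zs s μ * zs s' μ := by
  simp only [tb_zs_eq, map_mul]

lemma tb_zs_sub (s : PowerSeries K) (μ : K[X]) :
    zs (s.subst (PowerSeries.X ^ 2 : PowerSeries K)) μ = zs2 s (μ ^ 2) := by
  ext k : 1
  simp only [zs, zs2, PowerSeries.coeff_mk, tb_coeff_sub]
  split_ifs with h
  · rw [← pow_mul, Nat.mul_div_cancel' h]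
  · simp

lemma tb_zs_D {L g : PowerSeries K}
    (h : 2 * (L * g) = PowerSeries.X * PowerSeries.derivative K g) (μ : K[X]) :
    PowerSeries.X * PowerSeries.derivative K[X] (zs g μ) = 2 * (zs L μ * zs g μ) := by
  have e : zs (2 * (L * g)) μ = 2 * (zs L μ * zs g μ) := by
    simp only [tb_zs_eq, map_mul, map_ofNat]
  rw [← e, h]
  ext k : 1
  simp only [tb_coeff_D, zs, PowerSeries.coeff_mk, map_mul, map_natCast, mul_assoc]

lemma tb_zs_T {L g : PowerSeries K} (h0 : PowerSeries.coeff 0 L = 0)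
    (h : 2 * (L * g) = PowerSeries.X * PowerSeries.derivative K g) (μ : K[X]) :
    (PowerSeries.mk fun k => X * derivative (PowerSeries.coeff k (zs g μ))) =
      2 * ((PowerSeries.mk fun k => C (PowerSeries.coeff k L) * (X * derivative μ * μ ^ (k - 1))) *
        zs g μ) := by
  ext k : 1
  have e := congrArg (fun s => (C (PowerSeries.coeff k s) : K[X])) h
  simp only [tb_coeff_D] at e
  simp only [two_mul, map_add, PowerSeries.coeff_mul, map_sum, map_mul, map_natCast] at e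
  have e2 : ∑ i ∈ antidiagonal k, C (PowerSeries.coeff i.1 L) *
      (X * derivative μ * μ ^ (i.1 - 1)) * (C (PowerSeries.coeff i.2 g) * μ ^ i.2) =
      (∑ i ∈ antidiagonal k, C (PowerSeries.coeff i.1 L) * C (PowerSeries.coeff i.2 g)) *
        (X * derivative μ * μ ^ (k - 1)) := by
    rw [Finset.sum_mul]
    refine Finset.sum_congr rfl fun i hi => ?_
    have h1 := mem_antidiagonal.1 hi
    rcases Nat.eq_zero_or_pos i.1 with h2 | h2
    · simp [h2, h0]
    · rw [show k - 1 = i.1 - 1 + i.2 by omega, pow_add]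
      ring
  simp only [two_mul, map_add, PowerSeries.coeff_mul, zs, PowerSeries.coeff_mk, e2,
    derivative_mul, derivative_C, derivative_pow, map_natCast]
  linear_combination -(X * derivative μ * μ ^ (k - 1)) * e

lemma tb_pow {r c : ℝ} (h : r = 2 ^ (-c)) (n : ℕ) : r ^ n = 2 ^ (-(c * n)) := by
  rw [h, ← Real.rpow_natCast, ← Real.rpow_mul zero_le_two, neg_mul]

lemma tb_half (n : ℕ) : (1 / 2 : ℝ) ^ n = 2 ^ (-(1 * (n : ℝ))) :=
  tb_pow (by rw [Real.rpow_neg_one]; norm_num) n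

lemma tb_quarter (n : ℕ) : (1 / 4 : ℝ) ^ n = 2 ^ (-(2 * (n : ℝ))) :=
  tb_pow (by rw [Real.rpow_neg zero_le_two]; norm_num) n

lemma tb_Xp_supp (s : PowerSeries K) (u : ℤ × ℤ) (h : u.1 < 0) : Xp A s u = 0 :=
  if_neg (by omega)

lemma tb_Zm_supp (s : PowerSeries K[X]) (u : ℤ × ℤ) (h : u.1 < 0) : Zm A s u = 0 :=
  if_neg (by omega)

lemma tb_Xp_le {s : PowerSeries K} {C c : ℝ} (hC : 0 ≤ C) (hc : 0 ≤ c)
    (h : ∀ n : ℕ, ‖PowerSeries.coeff n s‖ ≤ C * 2 ^ (-(c * n))) (u : ℤ × ℤ) :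
    ‖Xp A s u‖ ≤ C * 2 ^ (-(c * p.w u.1 u.2)) := by
  simp only [Xp]
  split_ifs with hu
  · rw [norm_algebraMap']
    refine (h _).trans (mul_le_mul_of_nonneg_left
      (Real.rpow_le_rpow_of_exponent_le one_le_two ?_) hC)
    have h1 := p.w_le u.2 hu.1.ge
    rw [abs_of_nonneg hu.2] at h1
    have h2 : ((u.2.toNat : ℕ) : ℝ) = u.2 := by exact_mod_cast Int.toNat_of_nonneg hu.2
    have h3 : (u.1 : ℝ) / p.e = 0 := by simp [hu.1]
    rw [h2]
    nlinarith
  · rw [norm_zero]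
    positivity

lemma tb_Zm_le {s : PowerSeries K[X]} {c : ℝ}
    (hd : ∀ k, (PowerSeries.coeff k s).natDegree ≤ 2 * p.m * k)
    (h : ∀ k n : ℕ, ‖(PowerSeries.coeff k s).coeff n‖ ≤ 2 ^ (-(c * k))) (u : ℤ × ℤ) :
    ‖Zm A s u‖ ≤ 1 * 2 ^ (-(c * p.w u.1 u.2)) := by
  simp only [Zm]
  split_ifs with hu
  · rw [norm_algebraMap', one_mul]
    by_cases hn : u.1.toNat ≤ 2 * p.m * (-u.2).toNat
    · have h1 := p.w_z u.1 (-u.2).toNat hu.1 (by
        rw [← Int.toNat_of_nonneg hu.1]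
        exact_mod_cast hn)
      rw [Int.toNat_of_nonneg (by omega), neg_neg] at h1
      rw [h1]
      exact h _ _
    · rw [coeff_eq_zero_of_natDegree_lt ((hd _).trans_lt (not_le.1 hn)), norm_zero]
      positivity
  · rw [norm_zero]
    positivity

lemma tb_coeff_le {P Q : K[X]} {a b : ℝ} (hP : ∀ n, ‖P.coeff n‖ ≤ a) (hQ : ∀ n, ‖Q.coeff n‖ ≤ b)
    (n : ℕ) : ‖(P * Q).coeff n‖ ≤ a * b := by
  have ha := (norm_nonneg _).trans (hP 0)
  rw [coeff_mul]
  refine IsUltrametricDist.norm_sum_le_of_forall_le_of_nonneg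
    (mul_nonneg ha ((norm_nonneg _).trans (hQ 0))) fun i _ => ?_
  rw [norm_mul]
  exact mul_le_mul (hP _) (hQ _) (norm_nonneg _) ha

end ring

variable {K A J Z : Type} [NontriviallyNormedField K] [IsUltrametricDist K] [CompleteSpace K]
  [CharZero K] [NormedCommRing A] [NormedAlgebra K A] [IsUltrametricDist A] [CompleteSpace A]
  [NormOneClass A] [Fintype J] [Fintype Z] [DecidableEq J] [DecidableEq Z] (d : Dat K A J Z)

namespace Dat

lemma tb_w (n : ℕ) : d.p.w n 0 ≤ (n : ℝ) / d.p.e := by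
  simpa using d.p.w_le (a := n) 0 (Int.natCast_nonneg n)

lemma tb_T {s : PowerSeries A}
    (h : ∀ n : ℕ, ‖PowerSeries.coeff n s‖ ≤ 2 ^ (-(2 * ((n : ℝ) / d.p.e)))) (u : ℤ × ℤ) :
    ‖Tm s u‖ ≤ 1 * 2 ^ (-(2 * d.p.w u.1 u.2)) :=
  tb_Tm_le zero_le_one (fun n => (h n).trans (by
    rw [one_mul]
    exact Real.rpow_le_rpow_of_exponent_le one_le_two (by linarith [d.tb_w n]))) u

lemma tb_X {s : PowerSeries K} (h : ∀ n : ℕ, ‖PowerSeries.coeff n s‖ ≤ (1 / 4) ^ n) (u : ℤ × ℤ) :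
    ‖Xp A s u‖ ≤ 1 * 2 ^ (-(2 * d.p.w u.1 u.2)) :=
  tb_Xp_le zero_le_one zero_le_two (fun n => by rw [one_mul, ← tb_quarter]; exact h n) u

lemma tb_zs_deg (s : PowerSeries K) (j : J) (k : ℕ) :
    (PowerSeries.coeff k (zs s (d.lam j))).natDegree ≤ 2 * d.p.m * k := by
  rw [zs, PowerSeries.coeff_mk]
  refine (natDegree_C_mul_le _ _).trans (natDegree_pow_le.trans ?_)
  rw [d.lam_deg, mul_comm]

lemma tb_zs_le {s : PowerSeries K} {r : ℝ} {k : ℕ} (h : ‖PowerSeries.coeff k s‖ ≤ r) (j : J)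
    (n : ℕ) : ‖(PowerSeries.coeff k (zs s (d.lam j))).coeff n‖ ≤ r := by
  rw [zs, PowerSeries.coeff_mk, coeff_C_mul, norm_mul]
  exact (mul_le_of_le_one_right (norm_nonneg _) (d.lam_le j k n)).trans h

lemma tb_Z {s : PowerSeries K} (h : ∀ n : ℕ, ‖PowerSeries.coeff n s‖ ≤ (1 / 4) ^ n) (j : J)
    (u : ℤ × ℤ) : ‖Zm A (zs s (d.lam j)) u‖ ≤ 1 * 2 ^ (-(2 * d.p.w u.1 u.2)) :=
  tb_Zm_le (d.tb_zs_deg s j) (fun k n => by rw [← tb_quarter]; exact d.tb_zs_le (h k) j n) u

lemma tb_Sq_le (j : J) (k n : ℕ) : ‖(PowerSeries.coeff k (d.Sq j)).coeff n‖ ≤ (1 / 2) ^ k := by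
  by_cases h : 2 ∣ k
  · obtain ⟨i, rfl⟩ := h
    rcases Nat.eq_zero_or_pos i with rfl | hi
    · rw [mul_zero, (d.isSq j).zero, coeff_one]
      split_ifs <;> simp
    · refine ((d.isSq j).le i n hi).trans ?_
      rw [pow_mul, show ((1 : ℝ) / 2) ^ 2 = 1 / 4 by norm_num]
      exact mul_le_of_le_one_left (by positivity) (d.c0_le.trans (by norm_num))
  · rw [(d.isSq j).odd k h, coeff_zero, norm_zero]
    positivity

lemma tb_dec_Ft (j : J) : Dec d.p (Tm (d.Ft j)) :=
  tb_dec (tb_Tm_supp _) zero_le_one le_rfl (tb_Tm_le zero_le_one fun n => (d.Ft_le j n).trans (by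
    rw [one_mul, one_mul]
    refine Real.rpow_le_rpow_of_exponent_le one_le_two (neg_le_neg ?_)
    simpa [Pm.FB] using d.p.w_le_FB (n := n) 0 (Int.natCast_nonneg n)))

lemma tb_dec_Lt (j : J) : Dec d.p (Tm (d.Lt j)) :=
  tb_dec (tb_Tm_supp _) zero_le_two one_le_two (tb_Tm_le zero_le_two fun n =>
    (d.Lt_le j n).trans (by
      rw [mul_comm (2 : ℝ) (2 ^ _), ← Real.rpow_add_one two_ne_zero]
      exact Real.rpow_le_rpow_of_exponent_le one_le_two (by linarith [d.tb_w n])))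

lemma tb_dec_θ : Dec d.p (Xp A d.o.θ) :=
  tb_dec (tb_Xp_supp _) zero_le_one le_rfl (tb_Xp_le zero_le_one zero_le_one fun n => by
    rw [one_mul, ← tb_half]
    exact d.o.θ_le n)

lemma tb_dec_L : Dec d.p (Xp A d.o.L) :=
  tb_dec (tb_Xp_supp _) zero_le_two one_le_two (tb_Xp_le zero_le_two zero_le_two fun n => by
    rw [← tb_quarter]
    exact d.o.L_le n)

lemma tb_dec_Sq (j : J) : Dec d.p (Zm A (zs d.o.θ (d.lam j) * d.Sq j)) := by
  refine tb_dec (tb_Zm_supp _) zero_le_one le_rfl (tb_Zm_le (fun k => ?_) fun k n => ?_)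
  · rw [PowerSeries.coeff_mul]
    refine natDegree_sum_le_of_forall_le _ _ fun i hi => natDegree_mul_le.trans ?_
    rw [← Finset.HasAntidiagonal.mem_antidiagonal.1 hi, mul_add]
    exact add_le_add (d.tb_zs_deg _ j _) ((d.isSq j).deg _)
  · rw [← tb_half, PowerSeries.coeff_mul, finsetSum_coeff]
    refine IsUltrametricDist.norm_sum_le_of_forall_le_of_nonneg (by positivity) fun i hi => ?_
    rw [← Finset.HasAntidiagonal.mem_antidiagonal.1 hi, pow_add]
    exact tb_coeff_le (d.tb_zs_le (d.o.θ_le _) j) (d.tb_Sq_le j _) n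

lemma tb_phi_g (j : J) : Dec d.p (phi (d.g j)) :=
  dec_phi_of_w (C := 1) (d.g_supp j) fun u _ => by rw [one_mul]; exact d.g_le j u

lemma tb_phi_gi (j : J) : Dec d.p (phi (d.gi j)) :=
  dec_phi_of_w (C := 1) (d.gi_supp j) fun u _ => by rw [one_mul]; exact d.gi_le j u

lemma tb_two (w : ℝ) : (2 : ℝ) ^ (1 - 2 * w) = 2 * 2 ^ (-(2 * w)) := by
  rw [sub_eq_add_neg, Real.rpow_add two_pos, Real.rpow_one]

lemma tb_phi_LT (j : J) : Dec d.p (phi (d.LT j)) :=
  dec_phi_of_w (C := 2) (fun u hu => d.LT_supp j u (by omega)) fun u _ => by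
    rw [← tb_two]
    exact d.LT_le j u

lemma tb_phi_LX (j : J) : Dec d.p (phi (d.LX j)) :=
  dec_phi_of_w (C := 2) (d.LX_supp j) fun u _ => by
    rw [← tb_two]
    exact d.LX_le j u

omit d in
lemma tb_cancel (K : Type) [NontriviallyNormedField K] [CharZero K] [NormedAlgebra K A] (x : A)
    (h : x + x = 0) : x = 0 := by
  rw [← two_smul K, smul_eq_zero_iff_right two_ne_zero] at h
  exact h

theorem F_g (j : J) : conv (d.F j) (conv (d.F j) (phi (d.g (d.σ j)))) = d.g j := by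
  have a := d.tb_dec_Ft j
  have b := d.tb_dec_θ
  have c := d.tb_dec_Sq j
  have a' := dec_phi_of_w (tb_Tm_supp _) fun u _ => d.tb_T (d.gt_le (d.σ j)) u
  have b' := dec_phi_of_w (tb_Xp_supp (A := A) _) fun u _ => d.tb_X d.o.g_le u
  have c' := dec_phi_of_w (tb_Zm_supp (A := A) _) fun u _ => d.tb_Z d.o.g_le (d.σ j) u
  have e : zs d.o.θ (d.lam j) * d.Sq j * (zs d.o.θ (d.lam j) * d.Sq j *
      zs2 d.o.g ((d.lam (d.σ j)).comp (X ^ 2))) = zs d.o.g (d.lam j) := by
    have h := congrArg (fun s => zs s (d.lam j)) d.o.θ_g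
    simp only [sq d.o.θ, tb_zs_mul, tb_zs_sub] at h
    linear_combination h + zs d.o.θ (d.lam j) ^ 2 * (d.isSq j).sq
  simp only [F, Fx, g]
  rw [phi_conv, phi_conv, tb_six a b c a' b' c', tb_six a b c (a.conv a') (b.conv b') (c.conv c'),
    tb_phi_Tm, tb_phi_Xp, tb_phi_Zm, Tm_conv, Tm_conv, tb_Xp_conv, tb_Xp_conv, tb_Zm_conv,
    tb_Zm_conv, e, ← mul_assoc, ← mul_assoc, ← sq, ← sq, d.Ft_g, d.o.θ_g]

theorem g_mul_gi (j : J) : conv (d.g j) (d.gi j) = one := by
  have e : zs (1 : PowerSeries K) (d.lam j) = 1 := by simp only [tb_zs_eq, map_one]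
  simp only [g, gi]
  rw [tb_six (tb_dec (tb_Tm_supp _) zero_le_one one_le_two (d.tb_T (d.gt_le j)))
    (tb_dec (tb_Xp_supp _) zero_le_one one_le_two (d.tb_X d.o.g_le))
    (tb_dec (tb_Zm_supp _) zero_le_one one_le_two (d.tb_Z d.o.g_le j))
    (tb_dec (tb_Tm_supp _) zero_le_one one_le_two (d.tb_T (d.git_le j)))
    (tb_dec (tb_Xp_supp _) zero_le_one one_le_two (d.tb_X d.o.gi_le))
    (tb_dec (tb_Zm_supp _) zero_le_one one_le_two (d.tb_Z d.o.gi_le j)),
    Tm_conv, tb_Xp_conv, tb_Zm_conv, ← tb_zs_mul, d.g_gi, d.o.g_gi, e, tb_Tm_one, tb_Xp_one,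
    tb_Zm_one, one_conv, one_conv]

theorem F_gi (j : J) : conv (d.F j) (conv (d.F j) (d.gi j)) = phi (d.gi (d.σ j)) :=
  tb_F_gi (d.F_dec j) (d.gi_dec j) (d.tb_phi_g _) (d.tb_phi_gi _) (d.F_g j) (d.g_mul_gi j)
    (d.g_mul_gi _)

theorem dt_g (j : J) : dt (d.g j) = 2 • conv (d.LT j) (d.g j) := by
  have a := tb_dec (tb_Tm_supp _) zero_le_one one_le_two (d.tb_T (d.gt_le j))
  have b := tb_dec (tb_Xp_supp (A := A) _) zero_le_one one_le_two (d.tb_X d.o.g_le)
  have c := tb_dec (tb_Zm_supp (A := A) _) zero_le_one one_le_two (d.tb_Z d.o.g_le j)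
  have l := d.tb_dec_Lt j
  have l' := (d.LT_dec j).sub l
  simp only [LT, add_sub_cancel_left] at l'
  simp only [g, LT]
  rw [dt_conv a (b.conv c).mod, dt_conv b c.mod, tb_dt_Tm, tb_dt_Xp, tb_dt_Zm, ← d.L_g,
    tb_zs_T d.o.L_zero d.o.L_g, tb_Tm_two, tb_Zm_two, ← Tm_conv, ← tb_Zm_conv, two_nsmul,
    two_nsmul, two_nsmul]
  exact tb_val (show (l.r * a.r + l.r * a.r) * (b.r * c.r) + a.r * (0 * c.r +
    b.r * (l'.r * c.r + l'.r * c.r)) =
      (l.r + l'.r) * (a.r * (b.r * c.r)) + (l.r + l'.r) * (a.r * (b.r * c.r)) by ring)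

theorem dx_g (j : J) : dx (d.g j) = 2 • conv (d.LX j) (d.g j) := by
  have a := tb_dec (tb_Tm_supp _) zero_le_one one_le_two (d.tb_T (d.gt_le j))
  have b := tb_dec (tb_Xp_supp (A := A) _) zero_le_one one_le_two (d.tb_X d.o.g_le)
  have c := tb_dec (tb_Zm_supp (A := A) _) zero_le_one one_le_two (d.tb_Z d.o.g_le j)
  have l := d.tb_dec_L
  have l' := l.sub (d.LX_dec j)
  simp only [LX, sub_sub_cancel] at l'
  simp only [g, LX]
  rw [dx_conv a (b.conv c).mod, dx_conv b c.mod, tb_dx_Tm, tb_dx_Xp, tb_dx_Zm, ← d.o.L_g,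
    tb_zs_D d.o.L_g, tb_Xp_two, tb_Zm_two, ← tb_Xp_conv, ← tb_Zm_conv, two_nsmul,
    two_nsmul, two_nsmul, sub_eq_add_neg]
  exact tb_val (show 0 * (b.r * c.r) + a.r * ((l.r * b.r + l.r * b.r) * c.r +
    b.r * -(l'.r * c.r + l'.r * c.r)) =
      (l.r + -l'.r) * (a.r * (b.r * c.r)) + (l.r + -l'.r) * (a.r * (b.r * c.r)) by ring)

theorem dt_gi (j : J) : dt (d.gi j) = -(2 • conv (d.LT j) (d.gi j)) :=
  isD_dt.inv (d.g_dec j) (d.gi_dec j) (d.LT_dec j) (d.g_mul_gi j) (d.dt_g j)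

theorem dx_gi (j : J) : dx (d.gi j) = -(2 • conv (d.LX j) (d.gi j)) :=
  isD_dx.inv (d.g_dec j) (d.gi_dec j) (d.LX_dec j) (d.g_mul_gi j) (d.dx_g j)

theorem dt_F (j : J) : dt (d.F j) = conv (d.LT j - 2 • phi (d.LT (d.σ j))) (d.F j) :=
  isD_dt.frob (tb_cancel K) (d.F_dec j) (d.gi_dec j) (d.LT_dec j) (d.tb_phi_g _) (d.tb_phi_LT _)
    (d.F_g j) (d.g_mul_gi j) (d.dt_g j) (d.dt_g _)

theorem dx_F (j : J) : dx (d.F j) = conv (d.LX j - 2 • phi (d.LX (d.σ j))) (d.F j) :=
  isD_dx.frob (tb_cancel K) (d.F_dec j) (d.gi_dec j) (d.LX_dec j) (d.tb_phi_g _) (d.tb_phi_LX _)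
    (d.F_g j) (d.g_mul_gi j) (d.dx_g j) (d.dx_g _)

theorem dt_LX (j : J) : dt (d.LX j) = dx (d.LT j) := by
  have e1 : ∀ a b : Arr A, dt (a - b) = dt a - dt b := fun a b => funext fun u => smul_sub _ _ _
  have e2 : ∀ a b : Arr A, dx (a + b) = dx a + dx b := fun a b => funext fun u => smul_add _ _ _
  rw [LX, LT, e1, e2, tb_dt_Xp, tb_dx_Tm, tb_dt_Zm, tb_dx_Zm, zero_sub, zero_add]
  congr 2
  ext k : 1
  simp only [tb_coeff_D, zs, PowerSeries.coeff_mk, derivative_mul, derivative_C, derivative_pow,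
    map_natCast]
  ring

theorem psi_Dt (j : J) {m : Arr A} (hm : Dec d.p m) :
    psi (conv (d.F j) (dt m + conv (d.LT j) m)) =
      2 • (dt (psi (conv (d.F j) m)) + conv (d.LT (d.σ j)) (psi (conv (d.F j) m))) :=
  isD_dt.psi_D (d.F_dec j) (d.LT_dec j) (d.tb_phi_LT _) hm (d.dt_F j)

theorem psi_Dx (j : J) {m : Arr A} (hm : Dec d.p m) :
    psi (conv (d.F j) (dx m + conv (d.LX j) m)) =
      2 • (dx (psi (conv (d.F j) m)) + conv (d.LX (d.σ j)) (psi (conv (d.F j) m))) :=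
  isD_dx.psi_D (d.F_dec j) (d.LX_dec j) (d.tb_phi_LX _) hm (d.dx_F j)

end Dat

end Pool.Agent.Lib.MP_788af2_nt.AG
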